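import Pool.Agent.Lib.MP_f9eb18_lc.W.Z5

/-! # Hulls, `H_Θ`, Loewenheim-Skolem -/

namespace Pool.Agent.Lib.MP_f9eb18_lc.W

open Ordinal ZFSet
set_option linter.style.haveILetI false
set_option linter.unusedVariables false
set_option synthInstance.maxSize 100000

-- JOB A BEGIN
/-- the least witness for a coded formula and a coded list -/
noncomputable def z6a_sk (w H q : V) : V :=
  wmin w H (fun y => Sat1 (H : Set V) (dec (fst q) : Fo) (env (y :: (dec (snd q) : List V))))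
/-- all least witnesses with parameters from `Z` -/
noncomputable def z6a_step (w H Z : V) : V := img (z6a_sk w H) (prod FoS (lists Z))
/-- the closure of `Y` under least witnesses -/
noncomputable def z6a_hull (w H Y : V) : V := ZFSet.iUnion fun n : ℕ => (z6a_step w H)^[n] Y

instance z6a_uf_sk {F : Fr} {a b c : Set V → (ℕ → V) → V} [UF F a] [UF F b] [UF F c] :
    UF F (fun M v => z6a_sk (a M v) (b M v) (c M v)) := by
  have := UF.lift (F := F) b; have := UF.lift (F := F) c; unfold z6a_sk; infer_instance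
instance z6a_uf_step {F : Fr} {a b c : Set V → (ℕ → V) → V} [UF F a] [UF F b] [UF F c] :
    UF F (fun M v => z6a_step (a M v) (b M v) (c M v)) := by
  have := UF.lift (F := F) a; have := UF.lift (F := F) b; unfold z6a_step; infer_instance
instance z6a_uf_hull {F : Fr} {a b c : Set V → (ℕ → V) → V} [UF F a] [UF F b] [UF F c] :
    UF F (fun M v => z6a_hull (a M v) (b M v) (c M v)) := by
  have := UF.lift (F := F) a; have := UF.lift (F := F) b; have := UF.lift (F := F) c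
  unfold z6a_hull; infer_instance

theorem z6a_sk_pair (w H : V) (φ : Fo) (l : List V) : z6a_sk w H (pair φ.code (listZ l)) =
    wmin w H (fun y => Sat1 (H : Set V) φ (env (y :: l))) := by
  have h1 : (dec φ.code : Fo) = φ := dec_enc φ
  have h2 : (dec (listZ l) : List V) = l := dec_enc l
  rw [z6a_sk, fst_pair, snd_pair, h1, h2]

theorem z6a_wmin_empty {w A : V} {P : V → Prop} (h : ¬ ∃ x ∈ A, P x) : wmin w A P = ∅ := by
  rw [wmin, ZFSet.eq_empty]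
  intro y hy
  obtain ⟨z, hz, _⟩ := mem_sUnion.1 hy
  exact h ⟨z, (mem_sep.1 hz).1, (mem_sep.1 hz).2.1⟩

theorem z6a_wit_mem {w H Z : V} (φ : Fo) {l : List V} (hl : ∀ x ∈ l, x ∈ Z) :
    wmin w H (fun y => Sat1 (H : Set V) φ (env (y :: l))) ∈ z6a_step w H Z :=
  mem_img.2 ⟨_, pair_mem_prod.2 ⟨mem_FoS.2 ⟨φ, rfl⟩, mem_lists.2 ⟨l, hl, rfl⟩⟩,
    z6a_sk_pair w H φ l⟩

theorem z6a_lists_mono {a b : V} (h : a ⊆ b) : lists a ⊆ lists b := fun x hx => by
  obtain ⟨l, hl, rfl⟩ := mem_lists.1 hx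
  exact mem_lists.2 ⟨l, fun y hy => h (hl y hy), rfl⟩

theorem z6a_step_mono {w H Z Z' : V} (h : Z ⊆ Z') : z6a_step w H Z ⊆ z6a_step w H Z' :=
  fun x hx => by
    obtain ⟨q, hq, rfl⟩ := mem_img.1 hx
    obtain ⟨a, ha, b, hb, rfl⟩ := mem_prod.1 hq
    exact mem_img.2 ⟨_, pair_mem_prod.2 ⟨ha, z6a_lists_mono h hb⟩, rfl⟩

theorem z6a_hull_mono {w H Y Y' : V} (h : Y ⊆ Y') : z6a_hull w H Y ⊆ z6a_hull w H Y' :=
  fun x hx => by
    obtain ⟨n, hn⟩ := ZFSet.mem_iUnion.1 hx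
    refine ZFSet.mem_iUnion.2 ⟨n, ?_⟩
    have : ∀ n, (z6a_step w H)^[n] Y ⊆ (z6a_step w H)^[n] Y' := fun n => by
      induction n with
      | zero => exact h
      | succ n ih =>
        rw [Function.iterate_succ_apply', Function.iterate_succ_apply']
        exact z6a_step_mono ih
    exact this n hn

theorem z6a_subset_hull (w H Y : V) : Y ⊆ z6a_hull w H Y :=
  fun x hx => ZFSet.mem_iUnion.2 ⟨0, hx⟩

theorem z6a_step_subset {w H : V} [IsZ (H : Set V)] (hw : IsWO w H) (Z : V) :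
    z6a_step w H Z ⊆ H := fun x hx => by
  obtain ⟨q, _, rfl⟩ := mem_img.1 hx
  unfold z6a_sk
  by_cases h : ∃ y ∈ H, Sat1 (H : Set V) (dec (fst q) : Fo) (env (y :: (dec (snd q) : List V)))
  · exact (hw.wmin_spec h).1
  · rw [z6a_wmin_empty h]
    exact IsZ.empty_mem (H : Set V)

theorem z6a_subset_step {w H Z : V} (hw : IsWO w H) (h : Z ⊆ H) : Z ⊆ z6a_step w H Z :=
  fun x hx => by
    have h1 := z6a_wit_mem (w := w) (H := H) (.eq 0 1) (l := [x]) (Z := Z) (by simpa using hx)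
    have h2 := (hw.wmin_spec (P := fun y => Sat1 (H : Set V) (.eq 0 1) (env [y, x]))
      ⟨x, h hx, rfl⟩).2.1
    have h3 : wmin w H (fun y => Sat1 (H : Set V) (.eq 0 1) (env [y, x])) = x := h2
    rwa [h3] at h1

theorem z6a_list_chain {X : ℕ → Set V} (hm : Monotone X) (l : List V)
    (h : ∀ x ∈ l, ∃ n, x ∈ X n) : ∃ n, ∀ x ∈ l, x ∈ X n := by
  induction l with
  | nil => exact ⟨0, by simp⟩
  | cons a l ih =>
    obtain ⟨n, hn⟩ := ih fun x hx => h x (List.mem_cons_of_mem _ hx)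
    obtain ⟨m, hm'⟩ := h a List.mem_cons_self
    refine ⟨max n m, fun x hx => ?_⟩
    rcases List.mem_cons.1 hx with rfl | hx
    · exact hm (le_max_right n m) hm'
    · exact hm (le_max_left n m) (hn x hx)

theorem z6a_iter_subset {w H Y : V} [IsZ (H : Set V)] (hw : IsWO w H) (hY : Y ⊆ H) (n : ℕ) :
    (z6a_step w H)^[n] Y ⊆ H := by
  cases n with
  | zero => exact hY
  | succ n => rw [Function.iterate_succ_apply']; exact z6a_step_subset hw _

theorem z6a_empty_mem (w H Y : V) : (∅ : V) ∈ z6a_hull w H Y := by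
  have h1 := z6a_wit_mem (w := w) (H := H) (.neg (.eq 0 0)) (l := []) (Z := Y) (by simp)
  rw [z6a_wmin_empty (by simp [Sat1])] at h1
  exact ZFSet.mem_iUnion.2 ⟨1, h1⟩

theorem z6a_elemSub {w H Y : V} [IsZ (H : Set V)] (hw : IsWO w H) (hY : Y ⊆ H) :
    ElemSub (z6a_hull w H Y) H := by
  refine elemSub_of_tvL (fun x hx => ?_) (z6a_empty_mem w H Y) fun φ l hl h => ?_
  · obtain ⟨n, hn⟩ := ZFSet.mem_iUnion.1 hx
    exact z6a_iter_subset hw hY n hn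
  · obtain ⟨n, hn⟩ := z6a_list_chain (X := fun n => ((z6a_step w H)^[n] Y : V))
      (monotone_nat_of_le_succ fun n => by
        rw [Function.iterate_succ_apply']
        exact z6a_subset_step hw (z6a_iter_subset hw hY n)) l
      fun x hx => ZFSet.mem_iUnion.1 (hl x hx)
    refine ⟨_, ZFSet.mem_iUnion.2 ⟨n + 1, ?_⟩, (hw.wmin_spec h).2.1⟩
    rw [Function.iterate_succ_apply']
    exact z6a_wit_mem φ hn

theorem z6a_injIn_img (N : Set V) [IsT N] {a : V} (ha : a ∈ N) (f : V → V)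
    [UF (loc N) (fun _ v => f (vr v 0))] : InjIn N (img f a) a := by
  haveI : In N a := ⟨ha⟩
  refine injIn_of_surj (memV_of N (lam a f)) ha (memV_of N (img f a)) fun y hy => ?_
  obtain ⟨x, hx, rfl⟩ := mem_img.1 hy
  exact ⟨x, hx, app_lam f hx⟩

theorem z6a_injIn_lam (N : Set V) [IsZ N] {a b : V} (ha : a ∈ N) (f : V → V)
    [UF (loc N) (fun _ v => f (vr v 0))] (h : ∀ x ∈ a, f x ∈ b)
    (hi : ∀ x ∈ a, ∀ y ∈ a, f x = f y → x = y) : InjIn N a b := by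
  haveI : In N a := ⟨ha⟩
  exact ⟨_, memV_of N (lam a f), isInj_lam h hi⟩

/-- concatenation of a list of coded lists, each preceded by its length -/
noncomputable def z6a_flat (l : List V) : List V :=
  List.foldr (fun a s => natZ (dec a : List V).length :: ((dec a : List V) ++ s)) [] l

instance z6a_uf_flat {F : Fr} {l : Set V → (ℕ → V) → List V} [UF F l] :
    UF F (fun M v => z6a_flat (l M v)) := by
  unfold z6a_flat; infer_instance

theorem z6a_flat_cons (k l : List V) :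
    z6a_flat (listZ k :: l) = natZ k.length :: (k ++ z6a_flat l) := by
  have h2 : (dec (listZ k) : List V) = k := dec_enc k
  simp only [z6a_flat, List.foldr_cons, h2]

theorem z6a_flat_mem {A : V} (hA : HF ⊆ A) (l : List V) (hl : ∀ x ∈ l, x ∈ lists A) :
    ∀ y ∈ z6a_flat l, y ∈ A := by
  induction l with
  | nil => simp [z6a_flat]
  | cons a l ih =>
    obtain ⟨k, hk, rfl⟩ := mem_lists.1 (hl a List.mem_cons_self)
    rw [z6a_flat_cons]
    intro y hy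
    rcases List.mem_cons.1 hy with rfl | hy
    · exact hA (mem_HF.2 (by simp))
    · rcases List.mem_append.1 hy with hy | hy
      · exact hk y hy
      · exact ih (fun x hx => hl x (List.mem_cons_of_mem _ hx)) y hy

theorem z6a_flat_inj {A : V} (l : List V) : ∀ l' : List V, (∀ x ∈ l, x ∈ lists A) →
    (∀ x ∈ l', x ∈ lists A) → z6a_flat l = z6a_flat l' → l = l' := by
  induction l with
  | nil =>
    intro l' _ h' e
    cases l' with
    | nil => rfl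
    | cons a l' =>
      obtain ⟨k, -, rfl⟩ := mem_lists.1 (h' a List.mem_cons_self)
      rw [z6a_flat_cons] at e
      exact absurd e (by simp [z6a_flat])
  | cons a l ih =>
    intro l' h h' e
    obtain ⟨k, -, rfl⟩ := mem_lists.1 (h a List.mem_cons_self)
    cases l' with
    | nil =>
      rw [z6a_flat_cons] at e
      exact absurd e (by simp [z6a_flat])
    | cons a' l' =>
      obtain ⟨k', -, rfl⟩ := mem_lists.1 (h' a' List.mem_cons_self)
      rw [z6a_flat_cons, z6a_flat_cons, List.cons.injEq] at e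
      obtain ⟨e1, e2⟩ := List.append_inj e.2 (natZ_inj.1 e.1)
      rw [e1, ih l' (fun x hx => h x (List.mem_cons_of_mem _ hx))
        (fun x hx => h' x (List.mem_cons_of_mem _ hx)) e2]

theorem z6a_lists_lists (N : Set V) [IsZ N] {A : V} (hN : A ∈ N) (hA : HF ⊆ A) :
    InjIn N (lists (lists A)) (lists A) := by
  haveI : In N A := ⟨hN⟩
  refine z6a_injIn_lam N (memV_of N _) (fun p => listZ (z6a_flat (dec p : List V)))
    (fun x hx => ?_) fun x hx y hy e => ?_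
  · obtain ⟨l, hl, rfl⟩ := mem_lists.1 hx
    have h2 : (dec (listZ l) : List V) = l := dec_enc l
    rw [h2]
    exact mem_lists.2 ⟨_, z6a_flat_mem hA l hl, rfl⟩
  · obtain ⟨l, hl, rfl⟩ := mem_lists.1 hx
    obtain ⟨l', hl', rfl⟩ := mem_lists.1 hy
    have h2 : (dec (listZ l) : List V) = l := dec_enc l
    have h3 : (dec (listZ l') : List V) = l' := dec_enc l'
    rw [h2, h3] at e
    rw [z6a_flat_inj l l' hl hl' (listZ_inj e)]

theorem z6a_prod_subset {A B : V} (h : B ⊆ A) : prod B (lists A) ⊆ lists A := fun p hp => by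
  obtain ⟨a, ha, b, hb, rfl⟩ := mem_prod.1 hp
  obtain ⟨l, hl, rfl⟩ := mem_lists.1 hb
  exact mem_lists.2 ⟨a :: l, List.forall_mem_cons.2 ⟨h ha, hl⟩, rfl⟩

theorem z6a_inj_iUnion (N : Set V) [IsT N] {f : ℕ → V} (hf : sqN f ∈ N) {b : V} (hb : b ∈ N)
    (h : ∀ n, InjIn N (f n) b) : InjIn N (ZFSet.iUnion f) (prod omegaZ b) := by
  generalize hs : sqN f = s at hf
  have hs' : ∀ n, app s (natZ n) = f n := fun n => hs ▸ app_sqN f n
  haveI : In N s := ⟨hf⟩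
  haveI : In N b := ⟨hb⟩
  obtain ⟨G, hG, -, -, hG'⟩ := choice_fn N (fun i g => IsInj g (app s i) b) (IsZ.omega (M := N))
    fun x hx => by
      obtain ⟨n, rfl⟩ := mem_omegaZ.1 hx
      rw [hs']
      exact h n
  haveI : In N G := ⟨hG⟩
  have hI : ∀ n, IsInj (app G (natZ n)) (f n) b := fun n => hs' n ▸ hG' _ (natZ_mem_omegaZ n)
  have hU : ZFSet.iUnion f = ZFSet.iUnion fun n : ℕ => app s (natZ n) := by simp only [hs']
  have hk : ∀ x ∈ ZFSet.iUnion f, x ∈ f (sInf {k : ℕ | x ∈ app s (natZ k)}) := fun x hx => by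
    obtain ⟨n, hn⟩ := ZFSet.mem_iUnion.1 hx
    rw [← hs']
    exact Nat.sInf_mem (s := {k : ℕ | x ∈ app s (natZ k)})
      ⟨n, by simpa only [Set.mem_ofPred_eq, hs'] using hn⟩
  refine z6a_injIn_lam N (hU ▸ memV_of N (ZFSet.iUnion fun n : ℕ => app s (natZ n)))
    (fun x => pair (natZ (sInf {k : ℕ | x ∈ app s (natZ k)}))
      (app (app G (natZ (sInf {k : ℕ | x ∈ app s (natZ k)}))) x))
    (fun x hx => pair_mem_prod.2 ⟨natZ_mem_omegaZ _, ?_⟩) fun x hx y hy e => ?_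
  · exact (isFunc_iff.1 (hI _).1).2.2 x (hk x hx)
  · obtain ⟨e1, e2⟩ := pair_inj.1 e
    have h1 := hk y hy
    rw [← natZ_inj.1 e1] at e2 h1
    exact (isInj_iff.1 (hI _)).2 x (hk x hx) y h1 e2

theorem z6a_inj_hull (N : Set V) [IsT N] {w H Y : V} (hw : w ∈ N) (hH : H ∈ N) (hY : Y ∈ N) :
    InjIn N (z6a_hull w H Y) (lists (Y ∪ HF)) := by
  haveI : In N w := ⟨hw⟩
  haveI : In N H := ⟨hH⟩
  haveI : In N Y := ⟨hY⟩
  have hA : HF ⊆ Y ∪ HF := fun x hx => mem_union.2 (Or.inr hx)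
  have hF : FoS ⊆ Y ∪ HF := fun x hx => by
    obtain ⟨φ, rfl⟩ := mem_FoS.1 hx
    exact hA φ.code_mem_HF
  have hO : omegaZ ⊆ Y ∪ HF := fun x hx => by
    obtain ⟨n, rfl⟩ := mem_omegaZ.1 hx
    exact hA (mem_HF.2 (by simp))
  have h1 : ∀ n : ℕ, InjIn N ((z6a_step w H)^[n] Y) (lists (Y ∪ HF)) := fun n => by
    induction n with
    | zero =>
      refine z6a_injIn_lam N hY (fun x => listZ [x]) (fun x hx => mem_lists.2 ⟨[x], ?_, rfl⟩)
        fun x _ y _ e => by simpa using listZ_inj e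
      simpa using Or.inl hx
    | succ n ih =>
      rw [Function.iterate_succ_apply']
      haveI : In N ((z6a_step w H)^[n] Y) := ⟨ih.mem_left⟩
      refine (z6a_injIn_img N (memV_of N _) (z6a_sk w H)).trans ?_
      refine ((InjIn.of_subset (memV_of N FoS) subset_rfl).prod
        (ih.lists.trans (z6a_lists_lists N (memV_of N _) hA))).trans ?_
      exact InjIn.of_subset (memV_of N _) (z6a_prod_subset hF)
  exact (z6a_inj_iUnion N (memV_of N (sqN fun n : ℕ => (z6a_step w H)^[n] Y)) (memV_of N _)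
    h1).trans (InjIn.of_subset (memV_of N _) (z6a_prod_subset hO))

/-- Skolem hull of `Y` in `H` with respect to the well-order `w` of `H` -/
theorem exists_hull (N : Set V) [IsT N] {H Y : V} (hH : H ∈ N) [IsZ (H : Set V)] (hY : Y ∈ N)
    (hYH : Y ⊆ H) :
    ∃ X ∈ N, Y ⊆ X ∧ (∅ : V) ∈ X ∧ ElemSub X H ∧ InjIn N X (lists (Y ∪ HF)) := by
  obtain ⟨w, hw, hwo⟩ := exists_isWO N hH
  have h := z6a_inj_hull N hw hH hY
  exact ⟨_, h.mem_left, z6a_subset_hull w H Y, z6a_empty_mem w H Y, z6a_elemSub hwo hYH, h⟩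

theorem exists_ctbl_hull (N : Set V) [IsT N] {H Y : V} (hH : H ∈ N) [IsZ (H : Set V)]
    (hY : Ctbl N Y) (hYH : Y ⊆ H) : ∃ X ∈ N, Y ⊆ X ∧ (∅ : V) ∈ X ∧ ElemSub X H ∧ Ctbl N X := by
  obtain ⟨X, hX, h1, h2, h3, h4⟩ := exists_hull N hH (InjIn.mem_left hY) hYH
  exact ⟨X, hX, h1, h2, h3, h4.trans (hY.union ctbl_HF).lists⟩

/-- countable transitive model elementarily embedded into `H` with prescribed points in the range -/
theorem exists_ctbl_elem (N : Set V) [IsT N] {H : V} (hH : H ∈ N) [IsZ (H : Set V)] (l : List V)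
    (hl : ∀ x ∈ l, x ∈ H) :
    ∃ G ∈ HC N, ∃ π ∈ N, IsZ (G : Set V) ∧ IsElem π G H ∧ ∀ x ∈ l, ∃ y ∈ G, app π y = x := by
  have hs : ZFSet.sep (fun x => x ∈ l) H ⊆ H := fun x hx => (mem_sep.1 hx).1
  obtain ⟨X, hX, h1, h2, h3, h4⟩ := exists_ctbl_hull N hH (Y := ZFSet.sep (fun x => x ∈ l) H)
    (ctbl_of_finite (l.finite_toSet.subset fun x hx => (mem_sep.1 hx).2)
      fun x hx => IsZ.trans _ hH _ (hs hx)) hs
  haveI : In N X := ⟨hX⟩
  have he := h3.isElem_uncol IsZ.isTransitive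
  have hf := isFunc_iff.1 he.1
  refine ⟨tcol X, mem_HC_of_trans (tcol_trans X) ?_, uncol X, memV_of N _, ?_, he, fun x hx => ?_⟩
  · exact (z6a_injIn_img N hX (col (memR X))).trans h4
  · exact he.elem.isZ_left (fun x hx y hy => tcol_trans X x hx hy)
      ⟨_, mem_img.2 ⟨_, h2, rfl⟩⟩
  · have h5 : x ∈ ran (uncol X) := by
      rw [ran_uncol]
      exact h1 (mem_sep.2 ⟨hl x hx, hx⟩)
    obtain ⟨y, hy⟩ := mem_ran.1 h5
    exact ⟨y, hf.2.1 ▸ mem_dom.2 ⟨x, hy⟩, hf.1.app_eq hy⟩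

theorem z6a_rank_lists (b : V) : (lists b).rank ≤ b.rank + ω := by
  have hl : Order.IsSuccLimit (b.rank + ω) := Ordinal.isSuccLimit_add _ isSuccLimit_omega0
  refine ZFSet.rank_le_iff.2 fun x hx => ?_
  obtain ⟨l, h, rfl⟩ := mem_lists.1 hx
  clear hx
  induction l with
  | nil => simpa [listZ] using hl.pos
  | cons a l ih =>
    exact (rank_pair_lt hl).2 ⟨(rank_lt_of_mem (h a List.mem_cons_self)).trans_le le_self_add,
      ih fun y hy => h y (List.mem_cons_of_mem _ hy)⟩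

theorem z6a_inj_union (N : Set V) [IsZ N] {a b c d : V} (h : InjIn N a c) (h' : InjIn N b d) :
    InjIn N (a ∪ b) (lists (c ∪ d)) := by
  classical
  haveI : In N a := ⟨h.mem_left⟩
  haveI : In N b := ⟨h'.mem_left⟩
  obtain ⟨f, hf, hf'⟩ := h
  obtain ⟨g, hg, hg'⟩ := h'
  haveI : In N f := ⟨hf⟩
  haveI : In N g := ⟨hg⟩
  refine z6a_injIn_lam N (memV_of N (a ∪ b))
    (fun x => listZ (if x ∈ a then [app f x] else [app g x, app g x]))
    (fun x hx => mem_lists.2 ⟨_, fun y hy => ?_, rfl⟩) fun x hx y hy e => ?_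
  · split_ifs at hy with h1
    · rw [List.mem_singleton.1 hy]
      exact mem_union.2 (Or.inl ((isFunc_iff.1 hf'.1).2.2 x h1))
    · have h2 : y = app g x := by simpa using hy
      rw [h2]
      exact mem_union.2 (Or.inr ((isFunc_iff.1 hg'.1).2.2 x ((mem_union.1 hx).resolve_left h1)))
  · have e' := listZ_inj e
    split_ifs at e' with h1 h2 h2
    · exact (isInj_iff.1 hf').2 x h1 y h2 (by simpa using e')
    · simp at e'
    · simp at e'
    · exact (isInj_iff.1 hg').2 x ((mem_union.1 hx).resolve_left h1) y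
        ((mem_union.1 hy).resolve_left h2) (by simpa using e')

theorem z6a_rank_Vs (N : Set V) (ρ : Ordinal.{0}) : (Vs N ρ).rank ≤ ρ :=
  ZFSet.rank_le_iff.2 fun x hx => (mem_Vs.1 hx).2

theorem z6a_small (N : Set V) [IsZFC N] {δ ρ : Ordinal.{0}} (hδ : Inac N δ) (hρ : ρ < δ)
    {w H Y : V} (hw : w ∈ N) (hH : H ∈ N) (hY : Ctbl N Y) :
    (cut (z6a_hull w H (Vs N ρ ∪ Y)) δ).rank < δ := by
  haveI : In N w := ⟨hw⟩
  haveI : In N H := ⟨hH⟩
  haveI : In N Y := ⟨InjIn.mem_left hY⟩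
  haveI : In N δ := ⟨hδ.2.1⟩
  haveI : In N ρ := ⟨IsZ.ord_mem_of_le N hδ.2.1 hρ.le⟩
  have hl : ∀ b : V, b.rank < δ → (lists b).rank < δ := fun b hb =>
    (z6a_rank_lists b).trans_lt (hδ.add_lt hb hδ.1).1
  have hu : ∀ b : V, b.rank < δ → (b ∪ omegaZ).rank < δ := fun b hb => by
    rw [rank_union, rank_omegaZ]
    exact max_lt hb hδ.1
  have h1 := (z6a_inj_hull N hw hH (memV_of N (Vs N ρ ∪ Y))).trans
    (z6a_inj_union N (z6a_inj_union N (InjIn.of_subset (memV_of N (Vs N ρ)) subset_rfl) hY)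
      ctbl_HF).lists
  exact hδ.rank_lt ((InjIn.of_subset (memV_of N _) fun x hx => (mem_cut.1 hx).1).trans h1)
    (memV_of N _) (hl _ (hl _ (hu _ (hl _ (hu _ ((z6a_rank_Vs N ρ).trans_lt hρ))))))
    fun x hx => (mem_cut.1 hx).2

theorem z6a_app_restr {s a x : V} (hs : IsFn s) (hx : x ∈ dom s) (ha : x ∈ a) :
    x ∈ dom (restr s a) ∧ app (restr s a) x = app s x :=
  ⟨mem_dom.2 ⟨_, pair_mem_restr.2 ⟨hs.pair_app_mem hx, ha⟩⟩,
    app_eq_of_unique (pair_mem_restr.2 ⟨hs.pair_app_mem hx, ha⟩)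
      fun y hy => (hs.app_eq (pair_mem_restr.1 hy).1).symm⟩

/-- an increasing chain of ranks that catches up with the hulls -/
theorem z6a_chain (N : Set V) [IsZFC N] {δ β : Ordinal.{0}} (hδ : Inac N δ) (hβ : β < δ)
    {w H Y : V} (hw : w ∈ N) (hH : H ∈ N) (hY : Ctbl N Y) :
    ∃ s ∈ N, ∀ i < om1 N, (app s i.toZFSet).rank < δ ∧ β < (app s i.toZFSet).rank ∧ ∀ k < i,
      (app s k.toZFSet).rank < (app s i.toZFSet).rank ∧
      (cut (z6a_hull w H (Vs N (app s k.toZFSet).rank ∪ Y)) δ).rank < (app s i.toZFSet).rank := by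
  haveI : In N w := ⟨hw⟩
  haveI : In N H := ⟨hH⟩
  haveI : In N Y := ⟨InjIn.mem_left hY⟩
  haveI : In N δ := ⟨hδ.2.1⟩
  haveI : In N β := ⟨IsZ.ord_mem_of_le N hδ.2.1 hβ.le⟩
  obtain ⟨s, hs, hf, hd, h⟩ := trans_dc N (fun s y => y.rank < δ ∧ β < y.rank ∧ ∀ i ∈ dom s,
      (app s i).rank < y.rank ∧ (cut (z6a_hull w H (Vs N (app s i).rank ∪ Y)) δ).rank < y.rank)
      (om1_mem N) fun α hα s hs hf hd h => by
    haveI : In N s := ⟨hs⟩
    have hr : (dom s).rank < δ := by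
      rw [hd, rank_toZFSet]
      exact hα.trans hδ.om1_lt
    have h1 : ∀ i ∈ dom s, (app s i).rank < δ := fun i hi => by
      rw [hd] at hi
      obtain ⟨k, hk, rfl⟩ := mem_toZFSet_iff.1 hi
      exact (h k hk).1
    obtain ⟨γ, hγ, h2⟩ := hδ.2.2.2 _ (memV_of N (dom s)) hr s hs h1
    obtain ⟨γ', hγ', h3⟩ := hδ.2.2.2 _ (memV_of N (dom s)) hr _
      (memV_of N (lam (dom s) fun i => cut (z6a_hull w H (Vs N (app s i).rank ∪ Y)) δ))
      fun i hi => by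
        rw [app_lam _ hi]
        exact z6a_small N hδ (h1 i hi) hw hH hY
    have h4 : max (max γ γ') (Order.succ β) < δ := max_lt (max_lt hγ hγ') (hδ.2.2.1.succ_lt hβ)
    refine ⟨_, IsZ.ord_mem_of_le N hδ.2.1 h4.le, ?_⟩
    rw [rank_toZFSet]
    refine ⟨h4, (Order.lt_succ β).trans_le (le_max_right _ _), fun i hi => ⟨(h2 i hi).trans_le
      ((le_max_left _ _).trans (le_max_left _ _)), ?_⟩⟩
    have h5 := h3 i hi
    rw [app_lam _ hi] at h5
    exact h5.trans_le ((le_max_right _ _).trans (le_max_left _ _))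
  refine ⟨s, hs, fun i hi => ⟨(h i hi).1, (h i hi).2.1, fun k hk => ?_⟩⟩
  obtain ⟨h1, h2⟩ := z6a_app_restr (a := i.toZFSet) (x := k.toZFSet) hf
    (hd ▸ toZFSet_mem_toZFSet_iff.2 (hk.trans hi)) (toZFSet_mem_toZFSet_iff.2 hk)
  have h3 := (h i hi).2.2 _ h1
  rwa [h2] at h3

/-- a hull that meets `V_δ` in some `V_η`, `cof η > ω` -/
theorem exists_hull_cut (N : Set V) [IsZFC N] {δ β : Ordinal.{0}} (hδ : Inac N δ) (hβ : β < δ)
    {H : V} (hH : H ∈ N) [IsZ (H : Set V)] (hV : Vs N δ ⊆ H) {Y : V} (hY : Ctbl N Y) (hYH : Y ⊆ H) :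
    ∃ η, β < η ∧ η < δ ∧ CofGt N η ∧ ∃ X ∈ N, Y ⊆ X ∧ ElemSub X H ∧ cut X δ = Vs N η := by
  obtain ⟨w, hw, hwo⟩ := exists_isWO N hH
  obtain ⟨s, hs, h⟩ := z6a_chain N hδ hβ hw hH hY
  haveI : In N w := ⟨hw⟩
  haveI : In N H := ⟨hH⟩
  haveI : In N Y := ⟨InjIn.mem_left hY⟩
  haveI : In N s := ⟨hs⟩
  have hlim := isSuccLimit_om1 N
  have h0 : (0 : Ordinal.{0}) < om1 N := hlim.pos
  obtain ⟨η, hη⟩ : ∃ η, η = osup (om1 N).toZFSet fun i => (app s i).rank := ⟨_, rfl⟩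
  have hlt : ∀ i < om1 N, (app s i.toZFSet).rank < η := fun i hi =>
    ((h _ (hlim.succ_lt hi)).2.2 i (Order.lt_succ i)).1.trans_le
      (hη ▸ le_osup (fun i => (app s i).rank) (toZFSet_mem_toZFSet_iff.2 (hlim.succ_lt hi)))
  have hex : ∀ o < η, ∃ i < om1 N, o < (app s i.toZFSet).rank := fun o ho => by
    obtain ⟨x, hx, h1⟩ := lt_osup_iff.1 (hη ▸ ho)
    obtain ⟨i, hi, rfl⟩ := mem_toZFSet_iff.1 hx
    exact ⟨i, hi, h1⟩
  have hηδ : η < δ := by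
    obtain ⟨γ, hγ, h1⟩ := hδ.2.2.2 _ (om1_mem N) (by rw [rank_toZFSet]; exact hδ.om1_lt) s hs
      fun x hx => by
        obtain ⟨i, hi, rfl⟩ := mem_toZFSet_iff.1 hx
        exact (h i hi).1
    exact (hη ▸ osup_le_iff.2 fun x hx => (h1 x hx).le).trans_lt hγ
  have hmono : ∀ i k, k ≤ i → i < om1 N → z6a_hull w H (Vs N (app s k.toZFSet).rank ∪ Y) ⊆
      z6a_hull w H (Vs N (app s i.toZFSet).rank ∪ Y) := fun i k hk hi => by
    rcases hk.eq_or_lt with rfl | hk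
    · exact subset_rfl
    · refine z6a_hull_mono fun x hx => mem_union.2 ((mem_union.1 hx).imp_left fun hx => ?_)
      exact mem_Vs.2 ⟨(mem_Vs.1 hx).1, (mem_Vs.1 hx).2.trans ((h i hi).2.2 k hk).1⟩
  have hS : ∀ X, X ∈ img (fun i => z6a_hull w H (Vs N (app s i).rank ∪ Y)) (om1 N).toZFSet ↔
      ∃ i < om1 N, z6a_hull w H (Vs N (app s i.toZFSet).rank ∪ Y) = X := fun X => by
    rw [mem_img]
    refine ⟨fun ⟨x, hx, e⟩ => ?_, fun ⟨i, hi, e⟩ => ⟨_, toZFSet_mem_toZFSet_iff.2 hi, e⟩⟩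
    obtain ⟨i, hi, rfl⟩ := mem_toZFSet_iff.1 hx
    exact ⟨i, hi, e⟩
  refine ⟨η, (h 0 h0).2.1.trans (hlt 0 h0), hηδ, ⟨?_, fun f hf hb => ?_⟩,
    ⋃₀ (img (fun i => z6a_hull w H (Vs N (app s i).rank ∪ Y)) (om1 N).toZFSet), memV_of N _,
    fun x hx => ?_, elemSub_sUnion ⟨_, (hS _).2 ⟨0, h0, rfl⟩⟩ (fun X hX => ?_)
      fun X hX Z hZ => ?_, ?_⟩
  · refine ⟨not_isMin_of_lt (hlt 0 h0), Order.isSuccPrelimit_of_succ_lt fun o ho => ?_⟩
    obtain ⟨i, hi, h1⟩ := hex o ho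
    exact (Order.succ_le_of_lt h1).trans_lt (hlt i hi)
  · haveI : In N f := ⟨hf⟩
    have h1 : ∀ x ∈ omegaZ,
        olst (om1 N) (fun i => (app f x).rank < (app s i.toZFSet).rank) < om1 N := fun x hx => by
      obtain ⟨i, hi, h1⟩ := hex _ (hb x hx)
      exact (olst_le_of hi h1).trans_lt hi
    obtain ⟨γ, hγ, h2⟩ := (cofGt_om1 N).2 _ (memV_of N (lam omegaZ fun x =>
      (olst (om1 N) fun i => (app f x).rank < (app s i.toZFSet).rank).toZFSet)) fun x hx => by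
        rw [app_lam _ hx, rank_toZFSet]
        exact h1 x hx
    refine ⟨_, hlt γ hγ, fun x hx => ?_⟩
    have h3 := h2 x hx
    rw [app_lam _ hx, rank_toZFSet] at h3
    exact (olst_spec (h1 x hx)).trans ((h γ hγ).2.2 _ h3).1
  · exact mem_sUnion.2 ⟨_, (hS _).2 ⟨0, h0, rfl⟩,
      z6a_subset_hull _ _ _ (mem_union.2 (Or.inr hx))⟩
  · obtain ⟨i, hi, rfl⟩ := (hS _).1 hX
    refine z6a_elemSub hwo fun x hx => (mem_union.1 hx).elim (fun hx => hV ?_) fun hx => hYH hx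
    exact mem_Vs.2 ⟨(mem_Vs.1 hx).1, (mem_Vs.1 hx).2.trans (h i hi).1⟩
  · obtain ⟨i, hi, rfl⟩ := (hS _).1 hX
    obtain ⟨k, hk, rfl⟩ := (hS _).1 hZ
    exact ⟨_, (hS _).2 ⟨max i k, max_lt hi hk, rfl⟩, hmono _ _ (le_max_left _ _) (max_lt hi hk),
      hmono _ _ (le_max_right _ _) (max_lt hi hk)⟩
  · ext x
    rw [mem_cut, mem_Vs, mem_sUnion]
    constructor
    · rintro ⟨⟨X, hX, hx⟩, h1⟩
      obtain ⟨i, hi, rfl⟩ := (hS _).1 hX
      haveI : In N i := ⟨IsZ.ord_mem_of_le N (om1_mem N) hi.le⟩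
      refine ⟨IsZ.trans _ (memV_of N _) _ hx, ?_⟩
      exact ((rank_lt_of_mem (mem_cut.2 ⟨hx, h1⟩)).trans
        ((h _ (hlim.succ_lt hi)).2.2 i (Order.lt_succ i)).2).trans (hlt _ (hlim.succ_lt hi))
    · rintro ⟨h1, h2⟩
      obtain ⟨i, hi, h3⟩ := hex _ h2
      exact ⟨⟨_, (hS _).2 ⟨i, hi, rfl⟩,
        z6a_subset_hull _ _ _ (mem_union.2 (Or.inl (mem_Vs.2 ⟨h1, h3⟩)))⟩, h2.trans hηδ⟩

theorem z6a_tv {X U : Set V} (hs : X ⊆ U)
    (h : ∀ (φ : Fo) (l : List V), (∀ x ∈ l, x ∈ X) → (∃ y ∈ U, Sat1 U φ (env (y :: l))) →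
      ∃ y ∈ X, Sat1 U φ (env (y :: l))) (φ : Fo) :
    ∀ v : ℕ → V, (∀ i, v i ∈ X) → (Sat1 X φ v ↔ Sat1 U φ v) := by
  induction φ with
  | mem i j => exact fun _ _ => Iff.rfl
  | eq i j => exact fun _ _ => Iff.rfl
  | neg φ ih => exact fun v hv => not_congr (ih v hv)
  | and φ ψ ih1 ih2 => exact fun v hv => and_congr (ih1 v hv) (ih2 v hv)
  | ex φ ih =>
    intro v hv
    have e : ∀ a, Sat1 U φ (cons a v) ↔ Sat1 U φ (env (a :: (List.range φ.fv).map v)) := fun a => by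
      rw [env_cons]
      refine sat_congr U φ _ _ fun i hi => ?_
      cases i with
      | zero => rfl
      | succ i => exact (env_ofFn v φ.fv i (by omega)).symm
    refine ⟨fun ⟨a, ha, h1⟩ => ⟨a, hs ha, (ih _ (cons_mem ha hv)).1 h1⟩, fun ⟨a, ha, h1⟩ => ?_⟩
    obtain ⟨b, hb, h2⟩ := h φ _ (fun x hx => by
      obtain ⟨i, -, rfl⟩ := List.mem_map.1 hx
      exact hv i) ⟨a, ha, (e a).1 h1⟩
    exact ⟨b, hb, (ih _ (cons_mem hb hv)).2 ((e b).2 h2)⟩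

theorem z6a_ls (U : Set V) [IsZ U] (p : ℕ → V) (hp : ∀ i, p i ∈ U) :
    ∃ X : Set V, X.Countable ∧ X ⊆ U ∧ (∀ i, p i ∈ X) ∧
      ∀ (φ : Fo) (v : ℕ → V), (∀ i, v i ∈ X) → (Sat1 X φ v ↔ Sat1 U φ v) := by
  have h1 : ∀ q : Fo × List V, ∃ y ∈ U,
      (∃ y ∈ U, Sat1 U q.1 (env (y :: q.2))) → Sat1 U q.1 (env (y :: q.2)) := fun q => by
    by_cases h : ∃ y ∈ U, Sat1 U q.1 (env (y :: q.2))
    · obtain ⟨y, hy, h⟩ := h
      exact ⟨y, hy, fun _ => h⟩
    · exact ⟨_, hp 0, fun h' => absurd h' h⟩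
  choose sk hU hsk using h1
  let X : ℕ → Set V := fun n => Nat.rec (Set.range p)
    (fun _ Z => Z ∪ sk '' (Set.univ ×ˢ {l | ∀ x ∈ l, x ∈ Z})) n
  have hc : ∀ n, (X n).Countable := fun n => by
    induction n with
    | zero => exact Set.countable_range p
    | succ n ih =>
      refine ih.union ((Set.countable_univ.prod ?_).image sk)
      have := ih.to_subtype
      refine (Set.countable_range fun l : List (X n) => l.map Subtype.val).mono fun l hl => ?_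
      exact ⟨l.pmap Subtype.mk hl, by simp [List.map_pmap]⟩
  have hs : ∀ n, X n ⊆ U := fun n => by
    induction n with
    | zero => exact Set.range_subset_iff.2 hp
    | succ n ih => exact Set.union_subset ih (Set.image_subset_iff.2 fun q _ => hU q)
  have hs' : (⋃ n, X n) ⊆ U := Set.iUnion_subset hs
  refine ⟨⋃ n, X n, Set.countable_iUnion hc, hs', fun i => Set.mem_iUnion.2 ⟨0, i, rfl⟩,
    z6a_tv hs' fun φ l hl h => ?_⟩
  obtain ⟨n, hn⟩ := z6a_list_chain (X := X)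
    (monotone_nat_of_le_succ fun n => Set.subset_union_left) l fun x hx => Set.mem_iUnion.1 (hl x hx)
  exact ⟨sk (φ, l), Set.mem_iUnion.2 ⟨n + 1, Or.inr ⟨(φ, l), ⟨trivial, hn⟩, rfl⟩⟩,
    hsk (φ, l) h⟩

theorem z6a_satR (X : V) (φ : Fo) : ∀ v : ℕ → V, (∀ i, v i ∈ X) →
    (SatR (X : Set V) (fun x y => pair x y ∈ memR X) Eq φ v ↔ Sat1 (X : Set V) φ v) := by
  induction φ with
  | mem i j => exact fun v hv => pair_mem_rel.trans ⟨fun h => h.2.2, fun h => ⟨hv i, hv j, h⟩⟩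
  | eq i j => exact fun _ _ => Iff.rfl
  | neg φ ih => exact fun v hv => not_congr (ih v hv)
  | and φ ψ ih1 ih2 => exact fun v hv => and_congr (ih1 v hv) (ih2 v hv)
  | ex φ ih =>
    exact fun v hv => exists_congr fun a => and_congr_right fun ha =>
      ih _ (cons_mem (M := (X : Set V)) ha hv)

/-- external Loewenheim-Skolem and collapse -/
theorem exists_ctm (U : Set V) [IsZ U] (p : ℕ → V) (hp : ∀ i, p i ∈ U) :
    ∃ (N : V) (j : V → V), (N : Set V).Countable ∧ N.IsTransitive ∧ Elem j (N : Set V) U ∧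
      ∀ i, ∃ y ∈ N, j y = p i := by
  obtain ⟨S, hc, hs, hpS, he⟩ := z6a_ls U p hp
  obtain ⟨f, rfl⟩ := hc.exists_eq_range ⟨_, hpS 0⟩
  obtain ⟨X, hX⟩ : ∃ X : V, (X : Set V) = Set.range f := ⟨ZFSet.range f, coe_range f⟩
  rw [← hX] at hc hs hpS he
  have hR : ∀ x y, pair x y ∈ memR X ↔ x ∈ X ∧ y ∈ X ∧ x ∈ y := fun x y => pair_mem_rel
  have hsub : ∀ x ∈ X, ∀ y ∈ X, (∀ z ∈ X, z ∈ x → z ∈ y) → x ⊆ y := fun x hx y hy h z hz => by
    by_contra hn
    obtain ⟨a, ha, h1, h2⟩ := (he (.ex (.and (.mem 0 1) (.neg (.mem 0 2)))) (cons x fun _ => y)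
      (cons_mem hx fun _ => hy)).2 ⟨z, IsZ.trans _ (hs hx) _ hz, hz, hn⟩
    exact h2 (h a ha h1)
  obtain ⟨h1, -, h3⟩ := collapse (D := X) (R := memR X) (eqv := Eq)
    (fun x y h => ⟨((hR x y).1 h).1, ((hR x y).1 h).2.1⟩) (wf_memR X) (fun _ _ => rfl)
    (fun _ _ _ _ => Eq.symm) (fun _ _ _ _ _ _ e h => e ▸ h) (fun _ _ _ _ _ _ e h => e ▸ h)
    fun x hx y hy h => subset_antisymm
      (hsub x hx y hy fun z hz hzx => ((hR z y).1 ((h z hz).1 ((hR z x).2 ⟨hz, hx, hzx⟩))).2.2)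
      (hsub y hy x hx fun z hz hzy => ((hR z x).1 ((h z hz).2 ((hR z y).2 ⟨hz, hy, hzy⟩))).2.2)
  have h4 : ∀ y, ∃ x, y ∈ tcol X → x ∈ X ∧ col (memR X) x = y := fun y => by
    by_cases h : y ∈ tcol X
    · obtain ⟨x, hx⟩ := mem_img.1 h
      exact ⟨x, fun _ => hx⟩
    · exact ⟨y, fun h' => absurd h' h⟩
  choose j hj using h4
  refine ⟨tcol X, j, (hc.image (col (memR X))).mono fun y hy => (Set.mem_image _ _ _).2 ⟨_, hj y hy⟩,
    tcol_trans X,
    ⟨fun y hy => hs (hj y hy).1, fun φ v hv => ?_⟩, fun i => ?_⟩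
  · have h5 : ∀ i, (j ∘ v) i ∈ X := fun i => (hj _ (hv i)).1
    have h6 : col (memR X) ∘ j ∘ v = v := funext fun i => (hj _ (hv i)).2
    have h7 := h3 φ _ h5
    rw [h6] at h7
    exact h7.trans ((z6a_satR X φ _ h5).trans (he φ _ h5))
  · have h5 : col (memR X) (p i) ∈ tcol X := mem_img.2 ⟨_, hpS i, rfl⟩
    exact ⟨_, h5, (h1 _ (hj _ h5).1 _ (hpS i)).1 (hj _ h5).2⟩
-- JOB A END

-- JOB B BEGIN
/-- `N ∩ V_ζ` is an element of `N` -/
def Room (N : Set V) (ζ : Ordinal.{0}) : Prop := Vs N ζ ∈ N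
instance ud_room {F : Fr} {o : Set V → (ℕ → V) → Ordinal.{0}} [UF F o] :
    UD F (fun M v => Room M (o M v)) :=
  haveI := UF.lift (F := F) o
  (inferInstance : UD F (fun M v => ∃ x ∈ M, x = Vs M (o M v))).congr fun _ _ _ _ =>
    ⟨fun h => ⟨_, h, rfl⟩, fun ⟨x, hx, e⟩ => by unfold Room; rw [← e]; exact hx⟩
instance ud_roomS {F : Fr} {a : Set V → (ℕ → V) → V} {o : Set V → (ℕ → V) → Ordinal.{0}} [UF F a]
    [UF F o] : UD F (fun M v => Room (a M v : Set V) (o M v)) := by unfold Room; infer_instance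
theorem z6b_ord_mem {N : Set V} [IsZ N] {ζ : Ordinal.{0}} (h : Room N ζ) : ζ.toZFSet ∈ N := by
  by_contra hn
  have h1 : (Vs N ζ).rank < ζ := by
    by_contra hle
    exact hn (IsZ.ord_mem_of_le N (IsZ.rank_mem N h) (not_lt.1 hle))
  exact ZFSet.mem_irrefl _ (mem_Vs.2 ⟨h, h1⟩)
theorem Room.mono {N : Set V} [IsZ N] {ζ ξ : Ordinal.{0}} (h : Room N ζ) (hle : ξ ≤ ζ) :
    Room N ξ := by
  haveI : In N (Vs N ζ) := ⟨h⟩
  haveI : In N ξ := ⟨IsZ.ord_mem_of_le N (z6b_ord_mem h) hle⟩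
  have h1 := memV_of N (cut (Vs N ζ) ξ)
  have e : Vs N ξ = cut (Vs N ζ) ξ := by
    ext x; simp only [mem_Vs, mem_cut]
    exact ⟨fun ⟨a, b⟩ => ⟨⟨a, b.trans_le hle⟩, b⟩, fun ⟨⟨a, _⟩, b⟩ => ⟨a, b⟩⟩
  unfold Room; rw [e]; exact h1
theorem Room.ord_mem {N : Set V} [IsZ N] {ζ : Ordinal.{0}} (h : Room N ζ) : ζ.toZFSet ∈ N :=
  z6b_ord_mem h
theorem room_of_zfc (N : Set V) [IsZFC N] {ζ : Ordinal.{0}} (h : ζ.toZFSet ∈ N) : Room N ζ := by
  haveI : In N ζ := ⟨h⟩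
  exact memV_of N (Vs N ζ)

theorem z6b_rank_Vs (N : Set V) (ζ : Ordinal.{0}) : (Vs N ζ).rank ≤ ζ :=
  ZFSet.rank_le_iff.2 fun _ hy => (mem_Vs.1 hy).2

theorem z6b_tc_mono {x y : V} (h : y ∈ tc x) : tc y ⊆ tc x := tc_min (tc_trans x) h

theorem z6b_subset_tc (x : V) : x ⊆ tc x := tc_trans x x (mem_tc x)

theorem z6b_tc_mem {R : Set V} [IsZ R] {x : V} (h : x ∈ R) : tc x ∈ R := by
  haveI : In R x := ⟨h⟩
  exact memV_of R (tc x)

/-- a function injects into its domain -/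
theorem z6b_fn_inj {R : Set V} [IsZ R] {f : V} (hf : IsFn f) (h : f ∈ R) : InjIn R f (dom f) := by
  haveI : In R f := ⟨h⟩
  have e : ∀ p ∈ f, pair (fst p) (snd p) ∈ f := fun p hp => hf.1 p hp ▸ hp
  refine ⟨lam f fst, memV_of R _, isInj_lam (fun p hp => mem_dom.2 ⟨_, e p hp⟩) ?_⟩
  intro p hp q hq h1
  have h2 := e q hq
  rw [← h1] at h2
  rw [hf.1 p hp, hf.1 q hq, ← h1, hf.2 _ _ _ (e p hp) h2]

/-- the properties of the base set -/
structure z6b_Base (R : Set V) (Z : V) : Prop where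
  mem : Z ∈ R
  trans : Z.IsTransitive
  omega : omegaZ ⊆ Z
  pair : ∀ x ∈ Z, ∀ y ∈ Z, pair x y ∈ Z
  pw : pw R Z ∈ R

/-- hereditarily small sets -/
def z6b_Hs (R : Set V) (Z x : V) : Prop := InjIn R (tc x) Z

section z6b
variable {R : Set V} {Z : V}

theorem z6b_Hs.mem [IsZ R] {x : V} (h : z6b_Hs R Z x) : x ∈ R :=
  IsZ.trans _ (InjIn.mem_left h) _ (mem_tc x)

theorem z6b_Hs.of_tc [IsZ R] {x y : V} (h : z6b_Hs R Z x) (hy : y ∈ tc x) : z6b_Hs R Z y :=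
  (InjIn.of_subset (z6b_tc_mem (IsZ.trans _ (InjIn.mem_left h) _ hy)) (z6b_tc_mono hy)).trans h

theorem z6b_Hs.elem [IsZ R] {x y : V} (h : z6b_Hs R Z x) (hy : y ∈ x) : z6b_Hs R Z y :=
  h.of_tc (z6b_subset_tc x hy)

theorem z6b_Hs.inj [IsZ R] {x s : V} (h : z6b_Hs R Z x) (hs : s ∈ R) (hx : s ⊆ tc x) :
    InjIn R s Z := (InjIn.of_subset hs hx).trans h

theorem z6b_of_trans [IsZ R] {t x : V} (ht : t.IsTransitive) (hi : InjIn R t Z) (hx : x ∈ t) :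
    z6b_Hs R Z x :=
  (InjIn.of_subset (z6b_tc_mem (IsZ.trans _ hi.mem_left _ hx)) (tc_min ht hx)).trans hi

theorem z6b_pair_ne (x y : V) : pair x y ≠ ∅ := fun e => by
  have : ({x} : V) ∈ pair x y := by simp [pair]
  rw [e] at this
  exact ZFSet.notMem_empty _ this

theorem z6b_insert [IsZ R] (B : z6b_Base R Z) {s b : V} (hs : InjIn R s Z) (hb : b ∈ R) :
    InjIn R (insert b s) Z := by
  classical
  have hsR := hs.mem_left
  obtain ⟨g, hg, hi⟩ := hs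
  haveI : In R s := ⟨hsR⟩
  haveI : In R b := ⟨hb⟩
  haveI : In R g := ⟨hg⟩
  obtain ⟨h1, h2⟩ := isInj_iff.1 hi
  have h3 := (isFunc_iff.1 h1).2.2
  have h0 : (∅ : V) ∈ Z := B.omega (by
    have : (∅ : V) = natZ 0 := by simp [natZ]
    rw [this]; exact natZ_mem_omegaZ 0)
  refine ⟨lam (insert b s) (fun z => if z ∈ s then pair (app g z) (app g z) else ∅),
    memV_of R _, isInj_lam (fun z _ => ?_) ?_⟩
  · split_ifs with h
    · exact B.pair _ (h3 z h) _ (h3 z h)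
    · exact h0
  · intro x hx y hy e
    by_cases h4 : x ∈ s <;> by_cases h5 : y ∈ s
    · rw [if_pos h4, if_pos h5] at e
      exact h2 x h4 y h5 (pair_inj.1 e).1
    · rw [if_pos h4, if_neg h5] at e
      exact absurd e (z6b_pair_ne _ _)
    · rw [if_neg h4, if_pos h5] at e
      exact absurd e.symm (z6b_pair_ne _ _)
    · rw [(mem_insert_iff.1 hx).resolve_right h4, (mem_insert_iff.1 hy).resolve_right h5]

/-- a small set of hereditarily small sets is hereditarily small -/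
theorem z6b_key [IsT R] (B : z6b_Base R Z) {b : V} (hb : InjIn R b Z)
    (h : ∀ y ∈ b, z6b_Hs R Z y) : z6b_Hs R Z b := by
  have hbR := hb.mem_left
  obtain ⟨g, hg, hi⟩ := hb
  haveI : In R b := ⟨hbR⟩
  haveI : In R Z := ⟨B.mem⟩
  haveI : In R g := ⟨hg⟩
  obtain ⟨G, hG, -, -, hG2⟩ := choice_fn R (fun y f => IsInj f (tc y) Z) hbR h
  have hT : bU b tc ∈ R := memV_of R _
  obtain ⟨c, hc, -, -, hc2⟩ := choice_fn R (fun z y => y ∈ b ∧ z ∈ tc y) hT fun z hz => by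
    obtain ⟨y, hy, hz⟩ := mem_bU.1 hz
    exact ⟨y, IsZ.trans _ hbR _ hy, hy, hz⟩
  haveI : In R G := ⟨hG⟩
  haveI : In R c := ⟨hc⟩
  obtain ⟨h1, h2⟩ := isInj_iff.1 hi
  have h3 := (isFunc_iff.1 h1).2.2
  have hTi : InjIn R (bU b tc) Z := by
    refine ⟨lam (bU b tc) (fun z => pair (app g (app c z)) (app (app G (app c z)) z)),
      memV_of R _, isInj_lam (fun z hz => ?_) ?_⟩
    · obtain ⟨h4, h5⟩ := hc2 z hz
      exact B.pair _ (h3 _ h4) _ ((isFunc_iff.1 (hG2 _ h4).1).2.2 z h5)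
    · intro x hx y hy e
      obtain ⟨h4, h5⟩ := hc2 x hx
      obtain ⟨h6, h7⟩ := hc2 y hy
      obtain ⟨e1, e2⟩ := pair_inj.1 e
      have e3 := h2 _ h4 _ h6 e1
      rw [← e3] at e2 h7
      exact (isInj_iff.1 (hG2 _ h4)).2 x h5 y h7 e2
  refine z6b_of_trans (t := insert b (bU b tc)) ?_ (z6b_insert B hTi hbR) (mem_insert _ _)
  intro x hx z hz
  refine mem_insert_of_mem _ (mem_bU.2 ?_)
  rcases mem_insert_iff.1 hx with rfl | hx
  · exact ⟨z, hz, mem_tc z⟩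
  · obtain ⟨y, hy, hx⟩ := mem_bU.1 hx
    exact ⟨y, hy, tc_trans y x hx hz⟩

theorem z6b_of_mem [IsZ R] (B : z6b_Base R Z) {x : V} (hx : x ∈ Z) : z6b_Hs R Z x :=
  z6b_of_trans B.trans (InjIn.of_subset B.mem subset_rfl) hx

theorem z6b_ctbl [IsZ R] (B : z6b_Base R Z) {s : V} (h : Ctbl R s) : InjIn R s Z :=
  (ctbl_iff.1 h).trans (InjIn.of_subset IsZ.omega B.omega)

theorem z6b_upair [IsT R] (B : z6b_Base R Z) {x y : V} (hx : z6b_Hs R Z x) (hy : z6b_Hs R Z y) :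
    z6b_Hs R Z ({x, y} : V) := by
  refine z6b_key B (z6b_ctbl B (ctbl_of_finite ?_ ?_)) fun z hz => ?_
  · refine (Set.toFinite ({x, y} : Set V)).subset fun z hz => ?_
    exact mem_pair.1 hz
  · intro z hz
    rcases mem_pair.1 hz with rfl | rfl
    · exact hx.mem
    · exact hy.mem
  · rcases mem_pair.1 hz with rfl | rfl
    · exact hx
    · exact hy

theorem z6b_pair [IsT R] (B : z6b_Base R Z) {x y : V} (hx : z6b_Hs R Z x) (hy : z6b_Hs R Z y) :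
    z6b_Hs R Z (pair x y) := by
  have h1 := z6b_upair B hx hx
  have e : ({x, x} : V) = {x} := by simp
  rw [e] at h1
  exact z6b_upair B h1 (z6b_upair B hx hy)

theorem z6b_fn [IsT R] (B : z6b_Base R Z) {f : V} (hf : IsFn f) (h : f ∈ R)
    (hd : InjIn R (dom f) Z) (h1 : ∀ x ∈ dom f, z6b_Hs R Z x ∧ z6b_Hs R Z (app f x)) :
    z6b_Hs R Z f := by
  refine z6b_key B ((z6b_fn_inj hf h).trans hd) fun p hp => ?_
  rw [hf.eq_lam] at hp
  obtain ⟨x, hx, rfl⟩ := mem_lam.1 hp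
  exact z6b_pair B (h1 x hx).1 (h1 x hx).2

/-- every hereditarily small set is the collapse of a relation on the base set -/
theorem z6b_code [IsZ R] (B : z6b_Base R Z) {x : V} (h : z6b_Hs R Z x) :
    ∃ D ∈ pw R Z, ∃ u ∈ Z, col D u = x := by
  have ht := InjIn.mem_left h
  obtain ⟨g, hg, hi⟩ := h
  haveI : In R (tc x) := ⟨ht⟩
  haveI : In R g := ⟨hg⟩
  obtain ⟨h1, h2⟩ := isInj_iff.1 hi
  have h3 := (isFunc_iff.1 h1).2.2
  obtain ⟨D, hD⟩ : ∃ D, D = bU (tc x) (fun z => img (fun y => pair (app g y) (app g z)) z) :=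
    ⟨_, rfl⟩
  have hDR : D ∈ R := by rw [hD]; exact memV_of R _
  have hm : ∀ p, p ∈ D ↔ ∃ z ∈ tc x, ∃ y ∈ z, pair (app g y) (app g z) = p := fun p => by
    rw [hD]; simp only [mem_bU, mem_img]
  have hp : ∀ z ∈ tc x, ∀ u, pair u (app g z) ∈ D ↔ ∃ y ∈ z, app g y = u := by
    intro z hz u
    rw [hm]
    constructor
    · rintro ⟨z', hz', y, hy, e⟩
      obtain ⟨e1, e2⟩ := pair_inj.1 e
      rw [h2 z' hz' z hz e2] at hy
      exact ⟨y, hy, e1⟩
    · rintro ⟨y, hy, rfl⟩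
      exact ⟨z, hz, y, hy, rfl⟩
  have main : ∀ z : V, z ∈ tc x → AccP (preds D) (app g z) ∧ col D (app g z) = z := by
    intro z
    induction z using ZFSet.inductionOn with
    | h z ih =>
      intro hz
      have hacc : AccP (preds D) (app g z) := by
        refine Acc.intro _ fun u hu => ?_
        obtain ⟨y, hy, rfl⟩ := (hp z hz u).1 (mem_preds.1 hu)
        exact (ih y hy (tc_trans x z hz hy)).1
      refine ⟨hacc, ?_⟩
      ext w
      rw [mem_col hacc]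
      constructor
      · rintro ⟨u, hu, rfl⟩
        obtain ⟨y, hy, rfl⟩ := (hp z hz u).1 hu
        rw [(ih y hy (tc_trans x z hz hy)).2]; exact hy
      · intro hw
        exact ⟨app g w, (hp z hz _).2 ⟨w, hw, rfl⟩, (ih w hw (tc_trans x z hz hw)).2⟩
  refine ⟨D, mem_pw.2 ⟨hDR, fun p hp' => ?_⟩, app g x, h3 x (mem_tc x), (main x (mem_tc x)).2⟩
  obtain ⟨z, hz, y, hy, rfl⟩ := (hm p).1 hp'
  exact B.pair _ (h3 y (tc_trans x z hz hy)) _ (h3 z hz)

theorem z6b_set [IsZ R] (B : z6b_Base R Z) : ∃ H ∈ R, ∀ x, x ∈ H ↔ z6b_Hs R Z x := by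
  haveI : In R Z := ⟨B.mem⟩
  obtain ⟨P, hP⟩ : ∃ P, P = pw R Z := ⟨_, rfl⟩
  haveI : In R P := ⟨by rw [hP]; exact B.pw⟩
  refine ⟨ZFSet.sep (fun x => InjIn R (tc x) Z) (bU P fun D => img (fun u => col D u) Z),
    memV_of R _, fun x => ?_⟩
  rw [mem_sep]
  refine ⟨fun h => h.2, fun h => ⟨?_, h⟩⟩
  obtain ⟨D, hD, u, hu, e⟩ := z6b_code B h
  exact mem_bU.2 ⟨D, hP ▸ hD, mem_img.2 ⟨u, hu, e⟩⟩

theorem z6b_isT [IsT R] (B : z6b_Base R Z) {H : V} (hH : H ∈ R)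
    (hm : ∀ x, x ∈ H ↔ z6b_Hs R Z x) : IsT (H : Set V) := by
  haveI : In R H := ⟨hH⟩
  have huv : ∀ v : ℕ → V, (∀ i, v i ∈ (H : Set V)) → UV (loc R) (fun _ _ => v) := fun v hv =>
    ⟨fun i => haveI : In R (v i) := ⟨((hm _).1 (hv i)).mem⟩; UF.const R (v i)⟩
  refine { trans := ?_, omega := ?_, upair := ?_, sUnion := ?_, sep := ?_, coll := ?_, wo := ?_ }
  · intro x hx y hy
    exact (hm y).2 (((hm x).1 hx).elem hy)
  · exact (hm _).2 (z6b_key B (z6b_ctbl B ctbl_omega) fun y hy => z6b_of_mem B (B.omega hy))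
  · intro a ha b hb
    exact (hm _).2 (z6b_upair B ((hm a).1 ha) ((hm b).1 hb))
  · intro a ha
    have h := (hm a).1 ha
    refine (hm _).2 (z6b_key B (h.inj (IsZ.sUnion _ h.mem) fun y hy => ?_) fun y hy => ?_)
    · obtain ⟨z, hz, hy⟩ := mem_sUnion.1 hy
      exact tc_trans a z (z6b_subset_tc a hz) hy
    · obtain ⟨z, hz, hy⟩ := mem_sUnion.1 hy
      exact (h.elem hz).elem hy
  · intro φ v hv a ha
    have h := (hm a).1 ha
    haveI := huv v hv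
    have h1 := sep_mem R (fun x => Sat1 (H : Set V) φ (cons x v)) h.mem
    exact (hm _).2 (z6b_key B (h.inj h1 fun y hy => z6b_subset_tc a (mem_sep.1 hy).1)
      fun y hy => h.elem (mem_sep.1 hy).1)
  · intro φ v hv a ha hx
    have h := (hm a).1 ha
    haveI := huv v hv
    obtain ⟨f, hf, -, -, h2⟩ := choice_fn R
      (fun x y => y ∈ H ∧ Sat1 (H : Set V) φ (cons y (cons x v))) h.mem fun x hxa => by
        obtain ⟨y, hy, hs⟩ := hx x hxa
        exact ⟨y, ((hm y).1 hy).mem, hy, hs⟩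
    haveI : In R f := ⟨hf⟩
    haveI : In R a := ⟨h.mem⟩
    have hb : img (fun x => app f x) a ∈ R := memV_of R _
    refine ⟨img (fun x => app f x) a, (hm _).2 (z6b_key B ?_ fun y hy => ?_), fun x hxa => ?_⟩
    · exact (injIn_of_surj hf h.mem hb fun y hy => mem_img.1 hy).trans
        (h.inj h.mem (z6b_subset_tc a))
    · obtain ⟨x, hxa, rfl⟩ := mem_img.1 hy
      exact (hm _).1 (h2 x hxa).1
    · exact ⟨app f x, mem_img.2 ⟨x, hxa, rfl⟩, (h2 x hxa).2⟩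
  · intro a ha
    have h := (hm a).1 ha
    obtain ⟨o, ho, f, hf, hi, hr⟩ := exists_ord_bij h.mem
    haveI : In R f := ⟨hf⟩
    haveI : In R o := ⟨ho⟩
    obtain ⟨g, hg, hg1, hg2, hg3⟩ := choice_fn R (fun x y => y ∈ o.toZFSet ∧ app f y = x) h.mem
      fun x hxa => by
        rw [← hr] at hxa
        obtain ⟨y, hy⟩ := mem_ran.1 hxa
        obtain ⟨h1, h2, -⟩ := isFunc_iff.1 hi.1
        have h3 : y ∈ o.toZFSet := h2 ▸ mem_dom.2 ⟨_, hy⟩
        exact ⟨y, IsZ.trans _ ho _ h3, h3, h1.app_eq hy⟩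
    have ha1 : InjIn R a Z := h.inj h.mem (z6b_subset_tc a)
    have ho1 : InjIn R o.toZFSet Z := InjIn.trans ⟨f, hf, hi⟩ ha1
    refine ⟨g, (hm _).2 (z6b_fn B hg1 hg (hg2 ▸ ha1) fun x hx => ?_), o,
      isInj_iff.2 ⟨isFunc_iff.2 ⟨hg1, hg2, fun x hx => (hg3 x hx).1⟩, fun x hx y hy e => ?_⟩⟩
    · rw [hg2] at hx
      exact ⟨h.elem hx, z6b_of_trans (isOrdinal_toZFSet o).isTransitive ho1 (hg3 x hx).1⟩
    · rw [← (hg3 x hx).2, ← (hg3 y hy).2, e]

theorem z6b_base [IsZ R] {ζ : Ordinal.{0}} (hζ : Order.IsSuccLimit ζ) (h : Room R (ζ + ω)) :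
    z6b_Base R (Vs R ζ) := by
  have hZ : Vs R ζ ∈ R := h.mono le_self_add
  refine ⟨hZ, fun x hx y hy => ?_, fun x hx => ?_, fun x hx y hy => ?_, ?_⟩
  · exact mem_Vs.2 ⟨IsZ.trans _ (mem_Vs.1 hx).1 _ hy, (rank_lt_of_mem hy).trans (mem_Vs.1 hx).2⟩
  · refine mem_Vs.2 ⟨IsZ.trans _ IsZ.omega _ hx, ?_⟩
    have h1 := rank_lt_of_mem hx
    rw [rank_omegaZ] at h1
    exact h1.trans_le (omega0_le_of_isSuccLimit hζ)
  · exact mem_Vs.2 ⟨(IsZ.pair_mem_iff R).2 ⟨(mem_Vs.1 hx).1, (mem_Vs.1 hy).1⟩,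
      (rank_pair_lt hζ).2 ⟨(mem_Vs.1 hx).2, (mem_Vs.1 hy).2⟩⟩
  · obtain ⟨Z, hZe⟩ : ∃ Z, Z = Vs R ζ := ⟨_, rfl⟩
    haveI : In R Z := ⟨by rw [hZe]; exact hZ⟩
    have h1 := sep_mem R (fun x => x ⊆ Z) h
    have e : pw R (Vs R ζ) = ZFSet.sep (fun x => x ⊆ Z) (Vs R (ζ + ω)) := by
      ext x; simp only [mem_pw, mem_sep, mem_Vs, hZe]
      refine ⟨fun ⟨a, b⟩ => ⟨⟨a, ?_⟩, b⟩, fun ⟨⟨a, _⟩, b⟩ => ⟨a, b⟩⟩
      exact ((rank_mono b).trans (z6b_rank_Vs R ζ)).trans_lt (lt_add_of_pos_right ζ omega0_pos)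
    rw [e]; exact h1

end z6b

/-- Cut lemma: inside a model `R` with `V_{ζ+ω}` one finds an `ω`-closed model `H_Θ` with `V_ζ` -/
theorem exists_cut (R : Set V) [IsT R] {ζ : Ordinal.{0}} (hζ : Order.IsSuccLimit ζ)
    (h : Room R (ζ + ω)) :
    ∃ H ∈ R, IsT (H : Set V) ∧ OmCl R H ∧ Vs R ζ ∈ H := by
  have B := z6b_base hζ h
  obtain ⟨H, hH, hm⟩ := z6b_set B
  refine ⟨H, hH, z6b_isT B hH hm, fun f hf h1 h2 h3 => (hm f).2 (z6b_fn B h1 hf ?_ ?_),
    (hm _).2 (z6b_key B (InjIn.of_subset B.mem subset_rfl) fun y hy => z6b_of_mem B hy)⟩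
  · rw [h2]; exact z6b_ctbl B ctbl_omega
  · rw [h2]; exact fun x hx => ⟨z6b_of_mem B (B.omega hx), (hm _).1 (h3 x hx)⟩

/-- in a model of ZFC every set lies in an `ω`-closed set model containing a given `V_ζ` -/
theorem exists_T_model (N : Set V) [IsZFC N] {ζ : Ordinal.{0}} (h : ζ.toZFSet ∈ N) :
    ∃ H ∈ N, IsT (H : Set V) ∧ OmCl N H ∧ Vs N ζ ∈ H := by
  haveI : In N ζ := ⟨h⟩
  obtain ⟨H, hH, h1, h2, h3⟩ := exists_cut N (ζ := ζ + ω)
    (isSuccLimit_add ζ isSuccLimit_omega0) (room_of_zfc N (mem_of N (ζ + ω + ω)))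
  refine ⟨H, hH, h1, h2, h1.trans _ h3 _ (mem_Vs.2 ⟨room_of_zfc N h, ?_⟩)⟩
  exact (z6b_rank_Vs N ζ).trans_lt (lt_add_of_pos_right ζ omega0_pos)
-- JOB B END

-- JOB C BEGIN
/-- decoding of a transitive set from a relation -/
noncomputable def decM (D : V) : V := img (col D) (fld D)
instance uf_decM {F : Fr} {a : Set V → (ℕ → V) → V} [UF F a] : UF F (fun M v => decM (a M v)) := by
  have := UF.lift (F := F) a; unfold decM; infer_instance

/-- the section of `c` at `k` -/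
noncomputable def z6c_sl (c k : V) : V := ZFSet.sep (fun x => pair k x ∈ c) (ran c)
theorem z6c_mem_sl {c k x : V} : x ∈ z6c_sl c k ↔ pair k x ∈ c := by
  simp only [z6c_sl, mem_sep, mem_ran]; exact ⟨fun h => h.2, fun h => ⟨⟨k, h⟩, h⟩⟩
instance z6c_uf_sl {F : Fr} {a b : Set V → (ℕ → V) → V} [UF F a] [UF F b] :
    UF F (fun M v => z6c_sl (a M v) (b M v)) := by
  have := UF.lift (F := F) a; have := UF.lift (F := F) b; unfold z6c_sl; infer_instance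
/-- the immediate subterms of a term -/
noncomputable def z6c_pr (c : V) : V := ZFSet.sep (fun _ => (∅ : V) ∉ c) (img (z6c_sl c) omegaZ)
instance z6c_uf_pr {F : Fr} {a : Set V → (ℕ → V) → V} [UF F a] :
    UF F (fun M v => z6c_pr (a M v)) := by
  have := UF.lift (F := F) a; unfold z6c_pr; infer_instance
/-- the Skolem function -/
noncomputable def z6c_sk (w H : V) (l : List V) (a s : V) : V :=
  wmin w H (fun y => Sat1 (H : Set V) (dec (fst a) : Fo) (env (y :: snd a :: s :: l)))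
instance z6c_uf_sk {F : Fr} {w H a s : Set V → (ℕ → V) → V} {l : Set V → (ℕ → V) → List V}
    [UF F w] [UF F H] [UF F l] [UF F a] [UF F s] :
    UF F (fun M v => z6c_sk (w M v) (H M v) (l M v) (a M v) (s M v)) := by
  have := UF.lift (F := F) H; have := UF.lift (F := F) l; have := UF.lift (F := F) a
  have := UF.lift (F := F) s
  unfold z6c_sk; infer_instance
/-- the value of a term -/
noncomputable def z6c_val (w H : V) (l : List V) (c : V) : V :=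
  grec z6c_pr (fun c h => z6c_sk w H l (⋃₀ z6c_sl c omegaZ)
    (lam omegaZ fun n => app h (z6c_sl c n))) c
instance z6c_uf_val {F : Fr} {w H a : Set V → (ℕ → V) → V} {l : Set V → (ℕ → V) → List V}
    [UF F w] [UF F H] [UF F l] [UF F a] :
    UF F (fun M v => z6c_val (w M v) (H M v) (l M v) (a M v)) := by
  have := UF.lift (F := F) H; have := UF.lift (F := F) l; have := UF.lift (F := F) w
  unfold z6c_val; infer_instance
/-- the term with label `a` and subterms `g n` -/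
noncomputable def z6c_mk (a g : V) : V :=
  insert (pair omegaZ a) (bU omegaZ fun n => img (fun x => pair n x) (app g n))

theorem z6c_pair_ne (x y : V) : pair x y ≠ ∅ := fun h => by
  have : ({x} : V) ∈ pair x y := by simp [pair]
  rw [h] at this; exact notMem_empty _ this

theorem z6c_mem_mk {a g p : V} : p ∈ z6c_mk a g ↔
    p = pair omegaZ a ∨ ∃ n ∈ omegaZ, ∃ x ∈ app g n, pair n x = p := by
  simp [z6c_mk]

theorem z6c_sl_mk_om (a g : V) : z6c_sl (z6c_mk a g) omegaZ = {a} := by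
  ext x
  rw [z6c_mem_sl, z6c_mem_mk, mem_singleton]
  constructor
  · rintro (h | ⟨n, hn, y, -, e⟩)
    · exact (pair_inj.1 h).2
    · rw [(pair_inj.1 e).1] at hn; exact absurd hn (mem_irrefl _)
  · rintro rfl; exact Or.inl rfl

theorem z6c_sl_mk {a g n : V} (hn : n ∈ omegaZ) : z6c_sl (z6c_mk a g) n = app g n := by
  ext x
  rw [z6c_mem_sl, z6c_mem_mk]
  constructor
  · rintro (h | ⟨m, -, y, hy, e⟩)
    · rw [(pair_inj.1 h).1] at hn; exact absurd hn (mem_irrefl _)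
    · obtain ⟨rfl, rfl⟩ := pair_inj.1 e; exact hy
  · intro h; exact Or.inr ⟨n, hn, x, h, rfl⟩

theorem z6c_pr_mk {a g y : V} : y ∈ z6c_pr (z6c_mk a g) ↔ ∃ n ∈ omegaZ, app g n = y := by
  have h0 : (∅ : V) ∉ z6c_mk a g := by
    rw [z6c_mem_mk]
    rintro (h | ⟨n, -, x, -, e⟩)
    · exact z6c_pair_ne _ _ h.symm
    · exact z6c_pair_ne _ _ e
  simp only [z6c_pr, mem_sep, mem_img, h0, not_false_eq_true, and_true]
  exact exists_congr fun n => and_congr_right fun hn => by rw [z6c_sl_mk hn]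

theorem z6c_acc_mk {a g : V} (h : ∀ n ∈ omegaZ, AccP z6c_pr (app g n)) :
    AccP z6c_pr (z6c_mk a g) :=
  Acc.intro _ fun y hy => by
    obtain ⟨n, hn, rfl⟩ := z6c_pr_mk.1 hy
    exact h n hn

theorem z6c_val_mk (w H : V) (l : List V) {a g : V} (h : ∀ n ∈ omegaZ, AccP z6c_pr (app g n)) :
    z6c_val w H l (z6c_mk a g) =
      z6c_sk w H l a (lam omegaZ fun n => z6c_val w H l (app g n)) := by
  rw [z6c_val, grec_eq _ (z6c_acc_mk h), z6c_sl_mk_om, sUnion_singleton]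
  congr 1
  ext p
  simp only [mem_lam]
  refine exists_congr fun n => and_congr_right fun hn => ?_
  rw [z6c_sl_mk hn, app_lam _ (z6c_pr_mk.2 ⟨n, hn, rfl⟩)]
  rfl

theorem z6c_acc_leaf (a : V) : AccP z6c_pr ({∅, pair omegaZ a} : V) :=
  Acc.intro _ fun y hy => by simp [z6c_pr] at hy

theorem z6c_val_leaf (w H : V) (l : List V) (a : V) :
    ∃ s, z6c_val w H l {∅, pair omegaZ a} = z6c_sk w H l a s := by
  have h : z6c_sl {∅, pair omegaZ a} omegaZ = {a} := by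
    ext x; simp [z6c_mem_sl, z6c_pair_ne]
  rw [z6c_val, grec_eq _ (z6c_acc_leaf a), h, sUnion_singleton]
  exact ⟨_, rfl⟩

theorem z6c_sk_spec {w H : V} (hw : IsWO w H) (l : List V) (φ : Fo) (x s : V)
    (h : ∃ y ∈ H, Sat1 (H : Set V) φ (env (y :: x :: s :: l))) :
    Sat1 (H : Set V) φ (env (z6c_sk w H l (pair φ.code x) s :: x :: s :: l)) := by
  have e : (dec φ.code : Fo) = φ := dec_enc φ
  unfold z6c_sk
  rw [fst_pair, snd_pair, e]
  exact (hw.wmin_spec h).2.1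

theorem z6c_sk_mem {w H : V} (hw : IsWO w H) (h0 : (∅ : V) ∈ H) (l : List V) (a s : V) :
    z6c_sk w H l a s ∈ H := by
  unfold z6c_sk
  by_cases h : ∃ y ∈ H, Sat1 (H : Set V) (dec (fst a) : Fo) (env (y :: snd a :: s :: l))
  · exact (hw.wmin_spec h).1
  · convert h0
    rw [ZFSet.eq_empty]
    intro y hy
    obtain ⟨z, hz, -⟩ := mem_sUnion.1 hy
    exact h ⟨z, (mem_sep.1 hz).1, (mem_sep.1 hz).2.1⟩

theorem z6c_form (H : Set V) [IsZ H] (P : Set V → (ℕ → V) → Prop) [hP : UD pZ P] (r : ℕ) :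
    ∃ ψ : Fo, ∀ k : List V, k.length = r → (∀ x ∈ k, x ∈ H) →
      (P H (env k) ↔ Sat1 H ψ (env k)) := by
  obtain ⟨φ, c, hc, h⟩ := hP.out
  refine ⟨φ.ren fun n => if n % 2 = 0 then n / 2 else r, fun k hk hm => ?_⟩
  rw [h H ‹_› _ (env_mem (IsZ.empty_mem H) hm), sat_ren]
  apply iff_of_eq; congr 1; funext n
  by_cases hn : n % 2 = 0
  · simp [mrg, hn]
  · have h0 : c (n / 2) = ∅ := hc _
    simp [mrg, hn, h0, env, ← hk]

theorem z6c_hull (R : Set V) [IsT R] {ν : Ordinal.{0}} (hν : Order.IsSuccLimit ν)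
    (hω : ω < ν) (hY : Vs R (ν + 1) ∈ R) {H : V} (hH : H ∈ R) [IsT (H : Set V)]
    (hcl : OmCl R H) (hV : Vs R ν ⊆ H) (l : List V) (hl : ∀ x ∈ l, x ∈ H) :
    ∃ X ∈ R, ElemSub X H ∧ OmCl R X ∧ Vs R ν ⊆ X ∧ (∀ x ∈ l, x ∈ X) ∧
      InjIn R X (Vs R (ν + 1)) := by
  obtain ⟨w, hwR, hw⟩ := exists_isWO R hH
  have h0H : (∅ : V) ∈ H := IsZ.empty_mem (H : Set V)
  haveI : In R H := ⟨hH⟩
  haveI : In R w := ⟨hwR⟩
  haveI : In R l := ⟨(listZ_mem_iff R).2 fun x hx => IsZ.trans _ hH _ (hl x hx)⟩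
  haveI : In R (Vs R (ν + 1)) := ⟨hY⟩
  obtain ⟨C, hC⟩ : ∃ C, C = ZFSet.sep (AccP z6c_pr) (Vs R (ν + 1)) := ⟨_, rfl⟩
  have hCR : C ∈ R := hC ▸ sep_mem R (fun c => AccP z6c_pr c) hY
  have hCm : ∀ c, c ∈ C ↔ (c ∈ R ∧ ∀ x ∈ c, x.rank < ν) ∧ AccP z6c_pr c := fun c => by
    rw [hC, mem_sep, mem_Vs, Order.lt_add_one_iff, rank_le_iff]
  haveI : In R C := ⟨hCR⟩
  obtain ⟨X, hX⟩ : ∃ X, X = img (z6c_val w H l) C := ⟨_, rfl⟩
  have hXR : X ∈ R := hX ▸ memV_of R (img (fun c => z6c_val w H l c) C)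
  have hXm : ∀ x, x ∈ X ↔ ∃ c ∈ C, z6c_val w H l c = x := fun x => by rw [hX, mem_img]
  have hXH : X ⊆ H := fun x hx => by
    obtain ⟨c, hc, rfl⟩ := (hXm x).1 hx
    rw [z6c_val, grec_eq _ ((hCm c).1 hc).2]
    exact z6c_sk_mem hw h0H l _ _
  have hlab : ∀ (φ : Fo) (x : V), x ∈ Vs R ν →
      pair φ.code x ∈ R ∧ (pair omegaZ (pair φ.code x)).rank < ν := fun φ x hx =>
    ⟨(IsZ.pair_mem_iff R).2 ⟨IsZ.HF_subset R φ.code_mem_HF, (mem_Vs.1 hx).1⟩,
      (rank_pair_lt hν).2 ⟨by simpa using hω, (rank_pair_lt hν).2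
        ⟨(mem_HF.1 φ.code_mem_HF).trans hω, (mem_Vs.1 hx).2⟩⟩⟩
  have h0V : (∅ : V) ∈ Vs R ν := mem_Vs.2 ⟨IsZ.empty_mem R, by simpa using hν.pos⟩
  have hleaf : ∀ (φ : Fo) (x : V), x ∈ Vs R ν → ∃ s, z6c_sk w H l (pair φ.code x) s ∈ X := by
    intro φ x hx
    obtain ⟨s, hs⟩ := z6c_val_leaf w H l (pair φ.code x)
    refine ⟨s, (hXm _).2 ⟨_, (hCm _).2 ⟨⟨IsZ.upair _ (IsZ.empty_mem R) _
      ((IsZ.pair_mem_iff R).2 ⟨IsZ.omega, (hlab φ x hx).1⟩), fun y hy => ?_⟩,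
      z6c_acc_leaf _⟩, hs⟩⟩
    rcases mem_pair.1 hy with rfl | rfl
    · exact (mem_Vs.1 h0V).2
    · exact (hlab φ x hx).2
  have hnode : ∀ (φ : Fo), ∀ f ∈ R, IsFn f → dom f = omegaZ → (∀ n ∈ omegaZ, app f n ∈ X) →
      z6c_sk w H l (pair φ.code ∅) f ∈ X := by
    intro φ f hf hfn hd hv
    haveI : In R f := ⟨hf⟩
    obtain ⟨g, hg, -, -, hgv⟩ := choice_fn R (fun n c => c ∈ C ∧ z6c_val w H l c = app f n)
      (a := omegaZ) IsZ.omega fun n hn => by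
        obtain ⟨c, hc, e⟩ := (hXm _).1 (hv n hn)
        exact ⟨c, ((hCm c).1 hc).1.1, hc, e⟩
    have hacc : ∀ n ∈ omegaZ, AccP z6c_pr (app g n) := fun n hn => ((hCm _).1 (hgv n hn).1).2
    haveI : In R g := ⟨hg⟩
    haveI : In R (pair φ.code ∅) := ⟨(hlab φ ∅ h0V).1⟩
    refine (hXm _).2 ⟨z6c_mk (pair φ.code ∅) g, (hCm _).2 ⟨⟨?_, fun y hy => ?_⟩,
      z6c_acc_mk hacc⟩, ?_⟩
    · unfold z6c_mk; exact memV_of R _
    · rcases z6c_mem_mk.1 hy with rfl | ⟨n, hn, x, hx, rfl⟩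
      · exact (hlab φ ∅ h0V).2
      · exact (rank_pair_lt hν).2 ⟨(lt_of_lt_of_eq (rank_lt_of_mem hn) rank_omegaZ).trans hω,
          ((hCm _).1 (hgv n hn).1).1.2 x hx⟩
    · rw [z6c_val_mk w H l hacc]
      congr 1
      conv_rhs => rw [hfn.eq_lam, hd]
      ext p
      simp only [mem_lam]
      exact exists_congr fun n => and_congr_right fun hn => by rw [(hgv n hn).2]
  have hVX : Vs R ν ⊆ X := fun x hx => by
    obtain ⟨s, hs⟩ := hleaf (.eq 0 1) x hx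
    have e : _ = x := z6c_sk_spec hw l (.eq 0 1) x s ⟨x, hV hx, rfl⟩
    exact e ▸ hs
  refine ⟨X, hXR, elemSub_of_tvL hXH (hVX h0V) fun φ k hk hex => ?_, fun f hf hfn hd hv => ?_,
    hVX, fun x hx => ?_, ?_⟩
  · haveI : In R k := ⟨(listZ_mem_iff R).2 fun x hx => IsZ.trans _ hXR _ (hk x hx)⟩
    have hf : sqN (env k) ∈ R := memV_of R (sqN fun n => env k n)
    have hfn : IsFn (sqN (env k)) := isFn_lam _ _
    have hd : dom (sqN (env k)) = omegaZ := dom_lam _ _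
    have hv : ∀ n ∈ omegaZ, app (sqN (env k)) n ∈ X := fun n hn => by
      obtain ⟨i, rfl⟩ := mem_omegaZ.1 hn
      rw [app_sqN]
      exact env_mem (M := (X : Set V)) (hVX h0V) hk i
    have hfH : sqN (env k) ∈ H := hcl _ hf hfn hd fun n hn => hXH (hv n hn)
    haveI : UV pZ (fun (_ : Set V) (v : ℕ → V) (i : ℕ) => app (vr v 2) (natZ i)) :=
      ⟨fun i => inferInstance⟩
    obtain ⟨ψ, hψ⟩ := z6c_form (H : Set V)
      (fun M v => Sat1 M φ (cons (vr v 0) fun i => app (vr v 2) (natZ i))) (l.length + 3)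
    have key : ∀ y ∈ H, Sat1 (H : Set V) φ (env (y :: k)) ↔
        Sat1 (H : Set V) ψ (env (y :: ∅ :: sqN (env k) :: l)) := fun y hy => by
      rw [← hψ _ (by simp) (by
        simp only [List.mem_cons]
        rintro x (rfl | rfl | rfl | hx)
        exacts [hy, h0H, hfH, hl x hx])]
      simp only [env_cons, vr_cons_zero, vr_cons_succ, app_sqN, enc_V]
    obtain ⟨y, hy, hs⟩ := hex
    have hm := hnode ψ _ hf hfn hd hv
    exact ⟨_, hm, (key _ (hXH hm)).2 (z6c_sk_spec hw l ψ ∅ _ ⟨y, hy, (key y hy).1 hs⟩)⟩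
  · have e : _ = f := z6c_sk_spec hw l (.eq 0 2) ∅ f
      ⟨f, hcl f hf hfn hd fun n hn => hXH (hv n hn), rfl⟩
    exact e ▸ hnode (.eq 0 2) f hf hfn hd hv
  · obtain ⟨i, hi, rfl⟩ := List.getElem_of_mem hx
    obtain ⟨s, hs⟩ := hleaf (.eq 0 (i + 3)) ∅ h0V
    have e1 : ∀ y, env (y :: ∅ :: s :: l) (i + 3) = l[i] := fun y => by simp [env, hi]
    have e : _ = _ := z6c_sk_spec hw l (.eq 0 (i + 3)) ∅ s ⟨l[i], hl _ hx, (e1 _).symm⟩
    rw [e1] at e
    exact e ▸ hs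
  · refine (injIn_of_surj (memV_of R (lam C fun c => z6c_val w H l c)) hCR hXR fun x hx => ?_).trans
      (InjIn.of_subset hCR fun c hc => (mem_sep.1 (hC ▸ hc)).1)
    obtain ⟨c, hc, e⟩ := (hXm x).1 hx
    exact ⟨c, hc, by rw [app_lam _ hc, e]⟩

theorem z6c_code (R : Set V) [IsZ R] {G Y : V} [IsZ (G : Set V)] (h : InjIn R G Y) (hY : Y ∈ R) :
    ∃ D ∈ R, D ⊆ prod Y Y ∧ decM D = G := by
  have hG := h.mem_left
  obtain ⟨e, he, hi⟩ := h
  obtain ⟨h1, h2⟩ := isInj_iff.1 hi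
  have h3 := (isFunc_iff.1 h1).2.2
  have ht : ∀ x ∈ G, ∀ y ∈ x, y ∈ G := IsZ.trans (M := (G : Set V))
  haveI : In R G := ⟨hG⟩
  haveI : In R e := ⟨he⟩
  haveI : In R Y := ⟨hY⟩
  obtain ⟨D, hD⟩ : ∃ D, D = rel Y Y fun a b => ∃ y ∈ G, app e y = b ∧ ∃ x ∈ y, app e x = a :=
    ⟨_, rfl⟩
  have hm : ∀ a, ∀ y ∈ G, (pair a (app e y) ∈ D ↔ ∃ x ∈ y, app e x = a) := fun a y hy => by
    rw [hD, pair_mem_rel]
    constructor
    · rintro ⟨-, -, y', hy', e1, hx⟩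
      rwa [← h2 y' hy' y hy e1]
    · rintro ⟨x, hx, rfl⟩
      exact ⟨h3 x (ht y hy x hx), h3 y hy, y, hy, rfl, x, hx, rfl⟩
  have hc : ∀ y ∈ G, AccP (preds D) (app e y) ∧ col D (app e y) = y := by
    intro y
    induction y using ZFSet.inductionOn with
    | h y ih =>
    intro hy
    have ha : AccP (preds D) (app e y) := Acc.intro _ fun a ha => by
      obtain ⟨x, hx, rfl⟩ := (hm a y hy).1 (mem_preds.1 ha)
      exact (ih x hx (ht y hy x hx)).1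
    refine ⟨ha, ?_⟩
    ext z
    rw [mem_col ha]
    constructor
    · rintro ⟨a, h4, rfl⟩
      obtain ⟨x, hx, rfl⟩ := (hm a y hy).1 h4
      rwa [(ih x hx (ht y hy x hx)).2]
    · intro hz
      exact ⟨_, (hm _ y hy).2 ⟨z, hz, rfl⟩, (ih z hz (ht y hy z hz)).2⟩
  refine ⟨D, hD ▸ memV_of R _, fun p hp => (mem_sep.1 (hD ▸ hp : p ∈ rel Y Y _)).1, ?_⟩
  ext z
  simp only [decM, mem_img, fld, mem_union, mem_dom, mem_ran]
  constructor
  · rintro ⟨a, ⟨b, hb⟩ | ⟨b, hb⟩, rfl⟩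
    · rw [hD, pair_mem_rel] at hb
      obtain ⟨-, -, y, hy, -, x, hx, rfl⟩ := hb
      rw [(hc x (ht y hy x hx)).2]; exact ht y hy x hx
    · rw [hD, pair_mem_rel] at hb
      obtain ⟨-, -, y, hy, rfl, -⟩ := hb
      rw [(hc y hy).2]; exact hy
  · intro hz
    have h5 : ({z, z} : V) ∈ G := IsZ.upair (M := (G : Set V)) z hz z hz
    exact ⟨app e z, Or.inl ⟨_, (hm _ _ h5).2 ⟨z, by simp, rfl⟩⟩, (hc z hz).2⟩

/-- `ω`-closed hull containing `V_ν`, whose collapse is coded in `V_{ν+ω}` -/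
theorem exists_omcl_hull (R : Set V) [IsT R] {ν : Ordinal.{0}} (hν : Order.IsSuccLimit ν)
    (hω : ω < ν) (hR : Room R (ν + ω)) {H : V} (hH : H ∈ R) [IsT (H : Set V)] (hcl : OmCl R H)
    (hV : Vs R ν ⊆ H) (l : List V) (hl : ∀ x ∈ l, x ∈ H) :
    ∃ G ∈ R, ∃ π ∈ R, IsT (G : Set V) ∧ IsElem π G H ∧ OmCl R G ∧ (∀ x ∈ l, ∃ y ∈ G, app π y = x) ∧
      cut G ν = Vs R ν ∧ (∀ x ∈ G, x.rank < ν → app π x = x) ∧
      ∃ D ∈ R, D.rank < ν + ω ∧ decM D = G := by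
  have hY : Vs R (ν + 1) ∈ R := hR.mono (add_le_add_right one_lt_omega0.le ν)
  obtain ⟨X, hXR, hel, hXcl, hVX, hlX, hinj⟩ := z6c_hull R hν hω hY hH hcl hV l hl
  haveI : In R X := ⟨hXR⟩
  have hG : tcol X ∈ R := memV_of R _
  have hπ : uncol X ∈ R := memV_of R _
  have hE := hel.isElem_uncol IsZ.isTransitive
  have hj := hE.elem
  have hfn := (isFunc_iff.1 hE.1).1
  have hcolG : ∀ x ∈ X, col (memR X) x ∈ tcol X := fun x hx => mem_img.2 ⟨x, hx, rfl⟩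
  have happ : ∀ x ∈ X, app (uncol X) (col (memR X) x) = x := fun x hx =>
    hfn.app_eq (mem_img.2 ⟨x, hx, rfl⟩)
  have h0V : (∅ : V) ∈ Vs R ν := mem_Vs.2 ⟨IsZ.empty_mem R, by simpa using hν.pos⟩
  haveI hT : IsT (tcol X : Set V) :=
    hj.isT_left (fun x hx y hy => tcol_trans X x hx hy) ⟨_, hcolG _ (hVX h0V)⟩
  have hVt : (Vs R ν).IsTransitive := fun x hx y hy =>
    mem_Vs.2 ⟨IsZ.trans _ (mem_Vs.1 hx).1 _ hy, (rank_lt_of_mem hy).trans (mem_Vs.1 hx).2⟩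
  have hfix : ∀ x ∈ Vs R ν, col (memR X) x = x := fun x hx => col_memR_fix hVt hVX hx
  refine ⟨tcol X, hG, uncol X, hπ, hT, hE, fun f hf hff hd hv => ?_,
    fun x hx => ⟨_, hcolG x (hlX x hx), happ x (hlX x hx)⟩, ?_, fun x hx hr => ?_, ?_⟩
  · haveI : In R f := ⟨hf⟩
    have h1 : lam omegaZ (fun n => app (uncol X) (app f n)) ∈ X :=
      hXcl _ (memV_of R _) (isFn_lam _ _) (dom_lam _ _) fun n hn => by
        rw [app_lam _ hn]
        obtain ⟨x, hx, e⟩ := mem_img.1 (hv n hn)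
        rw [← e, happ x hx]; exact hx
    have h2 := hcolG _ h1
    have h3 := happ _ h1
    generalize col (memR X) _ = g at h2 h3
    have h4 : IsFn g ∧ dom g = omegaZ :=
      (hj.iff1 pZ (fun _ (a : V) => IsFn a ∧ dom a = omegaZ) h2).2 (by
        rw [jm_V, h3]; exact ⟨isFn_lam _ _, dom_lam _ _⟩)
    have h5 : f = g := hff.ext h4.1 (hd.trans h4.2.symm) fun n hn => by
      rw [hd] at hn
      have hnG : n ∈ (tcol X : Set V) := IsZ.trans _ IsZ.omega _ hn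
      rw [← hj.inj (hv n hn) (IsZ.app_mem _ h2 n), hj.map_app h2 hnG, h3,
        hj.fix_HF (mem_HF.2 (lt_of_lt_of_eq (rank_lt_of_mem hn) rank_omegaZ)), app_lam _ hn]
    exact h5 ▸ h2
  · ext x
    rw [mem_cut, mem_Vs]
    refine and_congr_left fun hr => ⟨fun hx => IsZ.trans _ hG _ hx, fun hx => ?_⟩
    have h1 := mem_Vs.2 ⟨hx, hr⟩
    exact hfix x h1 ▸ hcolG x (hVX h1)
  · have h1 := mem_Vs.2 ⟨IsZ.trans _ hG _ hx, hr⟩
    have h2 := happ x (hVX h1)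
    rwa [hfix x h1] at h2
  · have h1 : InjIn R (tcol X) X :=
      injIn_of_surj (memV_of R (lam X fun x => col (memR X) x)) hXR hG fun y hy => by
        obtain ⟨x, hx, e⟩ := mem_img.1 hy
        exact ⟨x, hx, by rw [app_lam _ hx, e]⟩
    obtain ⟨D, hD, hs, hdec⟩ := z6c_code R (h1.trans hinj) hY
    refine ⟨D, hD, lt_of_le_of_lt (b := ν + 3) (rank_le_iff.2 fun p hp => ?_)
      (add_lt_add_right (natCast_lt_omega0 3) ν), hdec⟩
    obtain ⟨a, ha, b, hb, rfl⟩ := mem_prod.1 (hs hp)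
    have h2 : max a.rank b.rank < ν + 1 := max_lt (mem_Vs.1 ha).2 (mem_Vs.1 hb).2
    rw [rank_zpair]
    calc max a.rank b.rank + 2 ≤ ν + 2 := add_le_add_left (Order.lt_add_one_iff.1 h2) 2
      _ < ν + 3 := add_lt_add_right (by exact_mod_cast (by norm_num : (2 : ℕ) < 3)) ν
-- JOB C END

end Pool.Agent.Lib.MP_f9eb18_lc.W
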