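import Pool.Agent.Lib.MP_f9eb18_lc.W.R1

/-! # Realization theorem: the inductive construction -/

namespace Pool.Agent.Lib.MP_f9eb18_lc.W

open Ordinal ZFSet Classical
set_option linter.style.haveILetI false
set_option linter.unusedVariables false
set_option synthInstance.maxSize 100000

variable {F : Fr}

/-- `G` extends `E ↾ (x + 1)` and its last universe is an element of the universe at `x` -/
def One (E : V) (x : Ordinal.{0}) (G : V) (h : Ordinal.{0}) : Prop :=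
  (∀ z ≤ x, st G z = st E z) ∧ (x < h → (st G h).R ∈ (st E x).R)
/-- `G` extends `E ↾ x` and realizes `h` back into the state of `x` -/
def Two (T E : V) (x : Ordinal.{0}) (G : V) (h : Ordinal.{0}) : Prop :=
  (∀ z < x, st G z = st E z) ∧ (st G h).R = (st E x).R ∧ (st G h).P = (st E x).P ∧
    Comm T x h (st E x).s (st G h).s
/-- `M` contains a realization of the segment `[g, h]` together with a realization of `h + 1`
into `P` commuting with `s` -/
def Seg (M : Set V) (T n : V) (μ g h : Ordinal.{0}) (P : PM) (s : V) : Prop :=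
  ∃ G ∈ M, ∃ s' ∈ M, (∀ z ≤ h, g ≤ z → StOK M T n μ z (cn T n z (h + 1)) (st G z) ∧
      (∀ u ∈ M, u.rank < nu T z (cn T n z (h + 1)) (st G z).s → u ∈ (st G z).R) ∧
      AgrM T z (st G z).s s') ∧
    ElemPM s' (pmT T (h + 1)) P ∧ Comm T g (h + 1) s s'

section inst
variable {a b c : Set V → (ℕ → V) → V} {o q r : Set V → (ℕ → V) → Ordinal.{0}}
  {p : Set V → (ℕ → V) → PM} {D : Set V → (ℕ → V) → Set V}
instance ud_two [UF F a] [UF F b] [UF F o] [UF F c] [UF F q] :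
    UD F (fun M v => Two (a M v) (b M v) (o M v) (c M v) (q M v)) := by
  have := UF.lift (F := F) b; have := UF.lift (F := F) c; unfold Two; infer_instance
instance ud_seg [UC F D] [UF F a] [UF F b] [UF F o] [UF F q] [UF F r] [UF F p] [UF F c] :
    UD F (fun M v => Seg (D M v) (a M v) (b M v) (o M v) (q M v) (r M v) (p M v) (c M v)) := by
  have := UC.lift (F := F) D; have := UF.lift (F := F) a; have := UF.lift (F := F) b
  have := UF.lift (F := F) o; have := UF.lift (F := F) q; have := UF.lift (F := F) r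
  have := UF.lift (F := F) p; have := UF.lift (F := F) c
  unfold Seg; infer_instance
end inst

section main
variable {N : Set V} [IsZFC N] {T n G E R' i s' : V} {P₀ : PM} {μ x y z h l : Ordinal.{0}}

-- JOB A BEGIN
/-- the predecessor of `h + 1` does not survive: the new universe is an element of `R_h` -/
theorem step_new (C : RCtx N T n μ P₀) (hh : h + 1 < lh T) (hG : G ∈ N) (hR : Real N T n μ G h)
    (hs : ¬ Surv T n (pr T h) (h + 1)) :
    ∃ K ∈ N, Real N T n μ K (h + 1) ∧ One G h K (h + 1) := by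
  have hT := C.tree
  have hlt : h < h + 1 := lt_add_one h
  have hk : h < lh T := hlt.trans hh
  have hτ := hR.1 h le_rfl
  have hτN := (enc_St_mem N).1 (enc_st_mem N hG h)
  have hgt : tlt T (pr T h) (h + 1) := (hT.tlt_succ_iff hh).2 (Or.inl rfl)
  have rT := C.rank_T
  have rn := C.rank_n
  have fin : ∀ σ' : RSt, enc σ' ∈ N → StOK N T n μ (h + 1) (cn T n (h + 1) (h + 1)) σ' →
      Agr2 T h (cn T n h (h + 1)) (st G h) σ' → σ'.R ∈ (st G h).R →
      ∃ K ∈ N, Real N T n μ K (h + 1) ∧ One G h K (h + 1) := by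
    intro σ' h1 h2 h3 h4
    obtain ⟨K, hK, hKR, hK1, hK2⟩ := hR.snoc C hh hG h1 h2 h3
    exact ⟨K, hK, hKR, hK1, fun _ => by rw [hK2]; exact h4⟩
  haveI := hτ.isT
  by_cases hE : exT T h = ∅
  · have e : pr T h = h := by unfold pr prd; exact if_pos hE
    rw [e] at hgt hs
    obtain ⟨p1, p2⟩ := hT.pad h hk hh hE
    have d := hτ.inn.drop hT hh hgt hs hτ.inn.s_mem (by rw [p1]; exact hτ.inn.elem)
      (fun u hu => by rw [p2 u hu]) (cn T n (h + 1) (h + 1) + 1)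
    obtain ⟨H, hH, hOK, hV⟩ := d.cut _ rT rn
    have hsub : H ⊆ (st G h).R := fun x hx => hτ.isT.trans _ hH x hx
    refine fin ⟨H, (st G h).P, (st G h).s⟩
      ((enc_St_mem N).2 ⟨IsZ.trans _ hτN.1 _ hH, hτN.2.1, hτN.2.2⟩)
      ⟨hOK.isT, hτ.omcl.trans hOK.omcl hsub, hOK.inn⟩ ⟨?_, fun _ _ _ => rfl⟩ hH
    have hν := nu_le hT hh hk le_rfl hτ.inn.pm hτ.inn.elem (cn T n h (h + 1))
    ext x
    simp only [mem_cut]
    exact ⟨fun k => ⟨hV (mem_Vs.2 ⟨k.1, k.2.trans_le hν⟩), k.2⟩, fun k => ⟨hsub k.1, k.2⟩⟩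
  · obtain ⟨R', i, s', hS⟩ := hR.step C hh hG hE
    have hg : pr T h ≤ h := hT.pr_le h
    have hσ := hR.1 _ hg
    haveI := hσ.isT
    haveI := hS.isT
    have m := (StIn.map_iff hS.elem.elem hS.fix hσ.inn.T_mem hσ.inn.n_mem hσ.inn.mu_mem
      hσ.inn.P_mem hσ.inn.s_mem rT rn (hg.trans hk.le)).1 hσ.inn
    have d := m.drop hT hh hgt hs hS.s_mem hS.selem hS.comm (cn T n (h + 1) (h + 1) + 1)
    have h1 : μ < nu T h (cn T n h (h + 1)) (st G h).s := by
      have := mu_lt_nu hT hh hE hg le_rfl hτ.inn.pm hτ.inn.elem (cn T n h (h + 1))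
      rwa [hτ.inn.mu] at this
    have h2 : nu T h (cn T n h (h + 1)) (st G h).s ≤
        (jm (app i) (st G (pr T h)).P).M.rank + ω * ω := by
      rw [hS.agr.nu_eq hT hh]
      exact nu_le hT hh hh hlt.le d.pm hS.selem _
    obtain ⟨σ', hσ', hOK, hcut, hagr, D, hD, hDr, hDe⟩ :=
      d.shrink _ rT rn hh (nu_limit _ _ _ _) h1 h2
    have hμ : ω * ω ≤ μ := hτ.inn.mu ▸ hτ.inn.pm.mu_ge
    have hc : ∀ x : V, x.rank < jm (app (st G h).s) (idx T h) + μ →
        (x ∈ R' ↔ x ∈ (st G h).R) := fun x hx => by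
      have k : x ∈ cut R' (jm (app (st G h).s) (idx T h) + μ) ↔
          x ∈ cut (st G h).R (jm (app (st G h).s) (idx T h) + μ) := by rw [hS.cut]
      simpa only [mem_cut, hx, and_true] using k
    have hDτ : D ∈ (st G h).R := (hc D (hDr.trans_le (by
      rw [nu_succ]; exact nu_le_add _ _ _ _ hμ))).1 hD
    have hRτ : σ'.R ∈ (st G h).R := by
      haveI : In ((st G h).R : Set V) D := ⟨hDτ⟩
      rw [← hDe]
      exact memV_of ((st G h).R : Set V) (decM D)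
    have hsub : σ'.R ⊆ R' := fun x hx =>
      hS.isT.trans _ ((enc_St_mem (R' : Set V)).1 hσ').1 x hx
    refine fin σ' (IsZ.trans _ hS.mem _ hσ') ⟨hOK.isT, hS.omcl.trans hOK.omcl hsub, hOK.inn⟩
      ⟨?_, fun u hu hr => ?_⟩ hRτ
    · rw [hcut]
      have hν := nu_le_add T h (cn T n h (h + 1)) (st G h).s hμ
      ext x
      simp only [mem_cut, mem_Vs]
      exact ⟨fun k => ⟨(hc x (k.2.trans_le hν)).2 k.1, k.2⟩,
        fun k => ⟨(hc x (k.2.trans_le hν)).1 k.1, k.2⟩⟩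
    · have e := hS.agr u hu hr
      have k := rank_app_lt_nu hT hh hτ.inn.pm hτ.inn.elem hu hr (cn T n h (h + 1))
      rw [hagr u (hT.mem_of_low hh hlt hu hr) (e ▸ k), e]
-- JOB A END

-- JOB B BEGIN
theorem r2b_cut {A B : V} {o o' : Ordinal.{0}} (h : cut A o = cut B o) (hle : o' ≤ o) {u : V}
    (hr : u.rank < o') : u ∈ A ↔ u ∈ B := by
  have := ZFSet.ext_iff.1 h u
  simp only [mem_cut] at this
  exact ⟨fun k => (this.1 ⟨k, hr.trans_le hle⟩).1, fun k => (this.2 ⟨k, hr.trans_le hle⟩).1⟩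
theorem r2b_one (C : RCtx N T n μ P₀) (hh : h + 1 < lh T) (hG : G ∈ N) (hR : Real N T n μ G h)
    (hE : exT T h ≠ ∅) (hs : Surv T n (pr T h) (h + 1))
    (hS : Step N T μ h (st G (pr T h)) (st G h) R' i s') (h1 : pr T h ≤ z) (h2 : z ≤ h) :
    ∃ σ : RSt, enc σ ∈ R' ∧ StOK (R' : Set V) T n μ z (cn T n z (h + 1)) σ ∧
      (∀ u ∈ R', u.rank < nu T z (cn T n z (h + 1)) σ.s → u ∈ σ.R) ∧ AgrM T z σ.s s' := by
  have hT := C.tree
  have hz1 : z + 1 < lh T := (add_le_add_left h2 1).trans_lt hh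
  have hz : z < lh T := (lt_add_one z).trans hz1
  have hOK := hR.1 z h2
  have hτ := hR.1 h le_rfl
  haveI := hOK.isT
  haveI := hS.isT
  have hc : cn T n z (h + 1) + 1 ≤ cn T n z h := hs.cn_lt hT hh h1 h2
  generalize cn T n z (h + 1) = c at hc ⊢
  obtain ⟨σ, k1, k2, k3, k4, D, k5, k6, k7⟩ := (hOK.inn.mono hc).shrink _ C.rank_T C.rank_n hz
    (nu_limit T z c (st G z).s)
    (hOK.inn.mu ▸ mu_lt_nu hT hh hE h1 h2 hOK.inn.pm hOK.inn.elem c)
    (nu_le hT hz1 hz le_rfl hOK.inn.pm hOK.inn.elem c)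
  haveI := k2.isT
  have hag : AgrM T z (st G z).s (st G h).s := by
    rcases h2.eq_or_lt with rfl | k
    · exact fun _ _ _ => rfl
    · exact (hR.2 z k).2
  have hmem : ∀ u : V, u.rank < nu T z (c + 1) (st G z).s → (u ∈ (st G z).R ↔ u ∈ R') := by
    intro u hr
    have hr' := hr.trans_le (nu_mono T z _ hc)
    rcases h2.eq_or_lt with rfl | k
    · exact (r2b_cut hS.cut (nu_le_add T z _ _ (hτ.inn.mu ▸ hτ.inn.pm.mu_ge)) hr').symm
    · rw [r2b_cut (hR.2 z k).1 le_rfl hr']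
      rw [hag.nu_eq hT hz1] at hr'
      exact (r2b_cut hS.cut ((nu_le_jm hT hh k hτ.inn.pm hτ.inn.elem _).trans le_self_add) hr').symm
  have hσR : σ.R ∈ R' := by
    haveI : In (R' : Set V) D := ⟨(hmem D (nu_succ T z c _ ▸ k6)).1 k5⟩
    rw [← k7]; exact memV_of (R' : Set V) (decM D)
  have hσz : σ.R ⊆ (st G z).R := fun u hu =>
    IsZ.trans (M := ((st G z).R : Set V)) _ ((enc_St_mem _).1 k1).1 _ hu
  have hag' : AgrM T z σ.s (st G z).s := fun u hu hr =>
    k4 u hu (rank_app_lt_nu hT hz1 hOK.inn.pm hOK.inn.elem hu hr c)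
  refine ⟨σ, (enc_St_mem _).2 ⟨hσR, IsZ.trans (M := (R' : Set V)) _ hσR _ k2.inn.P_mem,
    IsZ.trans (M := (R' : Set V)) _ hσR _ k2.inn.s_mem⟩,
    ⟨k2.isT, (hOK.omcl.trans k2.omcl hσz).mono fun u hu => IsZ.trans _ hS.mem _ hu, k2.inn⟩,
    fun u hu hr => ?_, fun u hu hr => ?_⟩
  · rw [hag'.nu_eq hT hz1] at hr
    have : u ∈ Vs ((st G z).R : Set V) (nu T z c (st G z).s) :=
      mem_Vs.2 ⟨(hmem u (hr.trans_le (nu_mono T z _ (Nat.le_succ c)))).2 hu, hr⟩
    rw [← k3] at this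
    exact (mem_cut.1 this).1
  · rw [hag' u hu hr, hag u hu hr, hS.agr.low hT hh h2 u hu hr]
/-- the shrunk states of the segment lie in the ultrapower -/
theorem seg_holds (C : RCtx N T n μ P₀) (hh : h + 1 < lh T) (hG : G ∈ N) (hR : Real N T n μ G h)
    (hE : exT T h ≠ ∅) (hs : Surv T n (pr T h) (h + 1))
    (hS : Step N T μ h (st G (pr T h)) (st G h) R' i s') :
    Seg (R' : Set V) T n μ (pr T h) h (jm (app i) (st G (pr T h)).P) (app i (st G (pr T h)).s) := by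
  haveI := hS.isT
  have hHC := C.ord_mem hh.le
  haveI : In N T := ⟨HC_subset N C.T_mem⟩
  haveI : In N n := ⟨HC_subset N C.n_mem⟩
  haveI : In N μ := ⟨C.inac.2.1⟩
  haveI : In N h := ⟨HC_subset N (C.ord_mem ((lt_add_one h).trans hh).le)⟩
  haveI : In N R' := ⟨hS.mem⟩
  haveI : In N s' := ⟨IsZ.trans _ hS.mem _ hS.s_mem⟩
  obtain ⟨f, hf, hfn, hd, hP⟩ := choice_fn N (fun z y => y ∈ R' ∧ (pr T h ≤ z.rank →
    StOK (R' : Set V) T n μ z.rank (cn T n z.rank (h + 1)) (dec y) ∧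
      (∀ u ∈ R', u.rank < nu T z.rank (cn T n z.rank (h + 1)) (dec y : RSt).s →
        u ∈ (dec y : RSt).R) ∧ AgrM T z.rank (dec y : RSt).s s')) (HC_subset N hHC) (by
    intro z hz
    have hz' : z.rank ≤ h := Order.lt_add_one_iff.1 ((rank_lt_of_mem hz).trans_eq (rank_toZFSet _))
    by_cases k : pr T h ≤ z.rank
    · obtain ⟨σ, k1, k2⟩ := r2b_one C hh hG hR hE hs hS k hz'
      exact ⟨enc σ, IsZ.trans _ hS.mem _ k1, k1, fun _ => by rw [dec_enc]; exact k2⟩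
    · exact ⟨∅, IsZ.empty_mem N, IsZ.empty_mem (R' : Set V), fun k' => absurd k' k⟩)
  have hfR : f ∈ R' := by
    haveI : In N f := ⟨hf⟩
    have hel : ∀ p ∈ f, fst p ∈ (h + 1).toZFSet ∧ p = pair (fst p) (app f (fst p)) := by
      intro p hp
      rw [hfn.eq_lam, hd] at hp
      obtain ⟨a, ha, rfl⟩ := mem_lam.1 hp
      simpa using ha
    refine hS.omcl.mem_of_ctbl (InjIn.trans ⟨lam f fst, memV_of N _,
      isInj_lam (fun p hp => (hel p hp).1) fun p hp q hq e => ?_⟩ (mem_HC_iff.1 hHC).1) fun p hp => ?_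
    · rw [(hel p hp).2, (hel q hq).2, e]
    · rw [(hel p hp).2]
      exact (IsZ.pair_mem_iff (R' : Set V)).2
        ⟨hS.omcl.HC_subset ((mem_HC_iff.1 hHC).2 _ (hel p hp).1), (hP _ (hel p hp).1).1⟩
  refine ⟨f, hfR, s', hS.s_mem, fun z hz k => ?_, hS.selem, hS.comm⟩
  have := (hP z.toZFSet (toZFSet_mem_toZFSet_iff.2 (Order.lt_add_one_iff.2 hz))).2
  rw [rank_toZFSet] at this
  exact this k
-- JOB B END

-- JOB C BEGIN
omit [IsZFC N] in
theorem r2c_back {σ : RSt} {g : Ordinal.{0}} {c : ℕ} [IsZ (σ.R : Set V)] [IsZ (R' : Set V)]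
    (h0 : StIn (σ.R : Set V) T n μ g c σ.P σ.s) (hi : IsElem i σ.R R')
    (hfix : ∀ u ∈ σ.R, u.rank ≤ μ → app i u = u) (rT : T.rank < μ) (rn : n.rank < μ)
    (hg : g < μ) (hh : h < μ)
    (hs : Seg (R' : Set V) T n μ g h (jm (app i) σ.P) (app i σ.s)) :
    Seg (σ.R : Set V) T n μ g h σ.P σ.s := by
  have hμ : μ.toZFSet ∈ (σ.R : Set V) := h0.mu_mem
  have ho : ∀ o < μ, o.toZFSet ∈ (σ.R : Set V) := fun o h1 =>
    IsZ.trans _ hμ _ (toZFSet_mem_toZFSet_iff.2 h1)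
  have fo : ∀ o ≤ μ, o.toZFSet ∈ (σ.R : Set V) → jm (app i) o = o := fun o h1 h2 =>
    jm_of_fix (hfix _ h2 ((rank_toZFSet o).trans_le h1))
  have hn : enc (n, μ) ∈ (σ.R : Set V) := (IsZ.pair_mem_iff _).2 ⟨h0.n_mem, hμ⟩
  have hK : enc (T, n, μ) ∈ (σ.R : Set V) := (IsZ.pair_mem_iff _).2 ⟨h0.T_mem, hn⟩
  have key := hi.elem.iff5 pZ
    (fun M (K : V × V × Ordinal.{0}) (a b : Ordinal.{0}) (P : PM) (t : V) =>
      Seg M K.1 K.2.1 K.2.2 a b P t) (a := (T, n, μ)) (b := g) (c := h) (d := σ.P) (e := σ.s)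
    hK (ho g hg) (ho h hh) h0.P_mem h0.s_mem
  rw [hi.elem.jm_prod (a := T) (b := (n, μ)) h0.T_mem hn,
    hi.elem.jm_prod (a := n) (b := μ) h0.n_mem hμ, fo μ le_rfl hμ, fo g hg.le (ho g hg),
    fo h hh.le (ho h hh), jm_V, jm_V, jm_V, hfix T h0.T_mem rT.le, hfix n h0.n_mem rn.le] at key
  exact key.2 hs
/-- the predecessor of `h + 1` survives: reflect the segment into its universe -/
theorem step_surv (C : RCtx N T n μ P₀) (hh : h + 1 < lh T) (hG : G ∈ N) (hR : Real N T n μ G h)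
    (hs : Surv T n (pr T h) (h + 1))
    (h0 : StOK N T n μ (pr T h) (cn T n (pr T h) (pr T h)) (st G (pr T h))) :
    ∃ K ∈ N, Real N T n μ K (h + 1) ∧ Two T G (pr T h) K (h + 1) := by
  have hT := C.tree
  have hk : h < h + 1 := lt_add_one h
  have hhl : h < lh T := hk.trans hh
  have hg : pr T h ≤ h := hT.pr_le h
  have hgt : tle T (pr T h) (h + 1) := Or.inr ((hT.tlt_succ_iff hh).2 (Or.inl rfl))
  have hσN := (enc_St_mem N).1 (enc_st_mem N hG (pr T h))
  haveI := h0.isT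
  have keep : ∀ t ∈ ((st G (pr T h)).R : Set V), ElemPM t (pmT T (h + 1)) (st G (pr T h)).P →
      Comm T (pr T h) (h + 1) (st G (pr T h)).s t →
      StOK N T n μ (h + 1) (cn T n (h + 1) (h + 1)) ⟨(st G (pr T h)).R, (st G (pr T h)).P, t⟩ := by
    intro t ht he hc
    rw [hs.cn_eq]
    exact ⟨h0.isT, h0.omcl, h0.inn.keep hT hh hs ht he hc⟩
  by_cases hE : exT T h = ∅
  · have e : pr T h = h := if_pos hE
    obtain ⟨p1, p2⟩ := hT.pad h hhl hh hE
    have hc : Comm T (pr T h) (h + 1) (st G (pr T h)).s (st G (pr T h)).s := by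
      rw [e]
      intro u hu
      rw [p2 u hu]
    have he : ElemPM (st G (pr T h)).s (pmT T (h + 1)) (st G (pr T h)).P := by
      rw [p1]
      have h1 := h0.inn.elem
      rw [e] at h1 ⊢
      exact h1
    obtain ⟨K, hK, hKR, h1, h2⟩ := hR.snoc C hh hG (enc_st_mem N hG (pr T h))
      (keep _ h0.inn.s_mem he hc) (by rw [e]; exact Agr2.refl _ _ _ _)
    refine ⟨K, hK, hKR, fun z hz => h1 z (hz.le.trans hg), ?_, ?_, ?_⟩
    · rw [h2]
    · rw [h2]
    · rw [h2]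
      exact hc
  obtain ⟨R', i, s', hS⟩ := hR.step C hh hG hE
  haveI := hS.isT
  have hhμ : h < μ := (hhl.trans_le (lh_le_rank T)).trans C.rank_T
  obtain ⟨G', hG', t, ht, H, he, hc⟩ := r2c_back h0.inn hS.elem hS.fix C.rank_T C.rank_n
    (hg.trans_lt hhμ) hhμ (seg_holds C hh hG hR hE hs hS)
  have hsub : ∀ z, (st G' z).R ⊆ (st G (pr T h)).R := fun z u hu =>
    IsZ.trans _ ((enc_St_mem _).1 (enc_st_mem _ hG' z)).1 u hu
  have hτ : enc (RSt.mk (st G (pr T h)).R (st G (pr T h)).P t) ∈ N :=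
    (enc_St_mem N).2 ⟨hσN.1, hσN.2.1, IsZ.trans _ hσN.1 t ht⟩
  obtain ⟨K, hK, k1, k2, k3⟩ := exists_glue N hG (IsZ.trans _ hσN.1 G' hG') (g := pr T h)
    (h := h + 1) (HC_subset N (C.ord_mem hh.le)) (hg.trans hk.le) hτ
  refine ⟨K, hK, ⟨fun z hz => ?_, fun x hx => ?_⟩, k1, by rw [k3], by rw [k3], by rw [k3]; exact hc⟩
  · rcases hz.eq_or_lt with rfl | hz
    · rw [k3]
      exact keep t ht he hc
    rcases lt_or_ge z (pr T h) with h1 | h1
    · rw [k1 z h1]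
      exact (hR.1 z (h1.le.trans hg)).mono (cn_anti T n z hk.le)
    · rw [k2 z hz h1]
      have h2 := (H z (Order.lt_add_one_iff.1 hz) h1).1
      exact ⟨h2.isT, h0.omcl.trans h2.omcl (hsub z), h2.inn⟩
  · rw [k3]
    rcases lt_or_ge x (pr T h) with h1 | h1
    · rw [k1 x h1]
      have h2 := (hR.agr2 hT hhl hg h1).mono (cn_anti T n x hk.le)
      exact ⟨h2.1, fun u hu hr => (h2.2 u hu hr).trans (hc.agrM hT hh hgt h1 u hu hr)⟩
    · rw [k2 x hx h1]
      obtain ⟨-, h2, h3⟩ := H x (Order.lt_add_one_iff.1 hx) h1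
      refine ⟨ZFSet.ext fun u => ?_, h3⟩
      rw [mem_cut, mem_cut]
      exact ⟨fun k => ⟨hsub x k.1, k.2⟩, fun k => ⟨h2 u k.1 k.2, k.2⟩⟩
-- JOB C END

-- JOB D BEGIN
theorem step_lim (C : RCtx N T n μ P₀) (hl : l < lh T) (hlim : Order.IsSuccLimit l)
    (IH : ∀ y < l, ∀ x ≤ y, ∀ E ∈ N, Real N T n μ E x → Surv T n x y →
      ∃ K ∈ N, Real N T n μ K y ∧ Two T E x K y)
    (hx : x < l) (hE : E ∈ N) (hR : Real N T n μ E x) (hs : Surv T n x l) :
    ∃ K ∈ N, Real N T n μ K l ∧ Two T E x K l := by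
  have hT := C.tree
  obtain ⟨b, hb, b0, bm, bl, bc⟩ := C.exists_br_seq hl hlim (hs.tle.resolve_left hx.ne)
  have blt : ∀ k, b k < l := fun k => hT.tlt_lt hl (bl k)
  have bb : ∀ j k, j ≤ k → tle T (b j) (b k) := fun j k h =>
    hT.tle_of_le hl (Or.inr (bl j)) (Or.inr (bl k)) (bm.monotone h)
  have sv : ∀ k, Surv T n (b k) l := fun k =>
    hs.right hT hl (b0 ▸ bb 0 k (Nat.zero_le k)) (Or.inr (bl k))
  have sv2 : ∀ k, Surv T n (b k) (b (k + 1)) := fun k =>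
    (sv k).left hT hl (bb _ _ (Nat.le_succ k)) (Or.inr (bl _))
  have eb : ∀ k, (app (sqN b) (natZ k)).rank = b k := fun k => by
    rw [app_sqN]; exact rank_toZFSet _
  have hx0 := hR.1 x le_rfl
  haveI := hx0.isT
  have hEx := (enc_St_mem N).1 (enc_st_mem N hE x)
  have hTN : T ∈ N := HC_subset N C.T_mem
  haveI : In N T := ⟨hTN⟩
  haveI : In N n := ⟨HC_subset N C.n_mem⟩
  haveI : In N μ := ⟨IsZ.trans _ hEx.1 _ hx0.inn.mu_mem⟩
  haveI : In N (sqN b) := ⟨hb⟩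
  haveI : In N l := ⟨HC_subset N (C.ord_mem hl.le)⟩
  obtain ⟨f, hf, f0, hI⟩ := dc_nat N
    (fun k G G' => Two T G (app (sqN b) (natZ k)).rank G' (app (sqN b) (natZ (k + 1))).rank)
    (fun k G => Real N T n μ G (app (sqN b) (natZ k)).rank) hE (by rw [eb, b0]; exact hR)
    (fun k G hG hGR => by
      simp only [eb] at hGR ⊢
      exact IH _ (blt _) _ (bm.monotone (Nat.le_succ k)) G hG hGR (sv2 k))
  simp only [eb] at hI
  haveI : In N (sqN f) := ⟨hf⟩
  have ef : ∀ k, app (sqN f) (natZ k) = f k := fun k => app_sqN f k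
  have eR : ∀ k, (st (f k) (b k)).R = (st E x).R ∧ (st (f k) (b k)).P = (st E x).P := by
    intro k
    induction k with
    | zero => rw [f0, b0]; exact ⟨rfl, rfl⟩
    | succ k ih => exact ⟨(hI k).2.2.1.trans ih.1, (hI k).2.2.2.1.trans ih.2⟩
  have stab : ∀ z j, z < b j → ∀ k, j ≤ k → st (f k) z = st (f j) z := by
    intro z j hz k hk
    induction k, hk using Nat.le_induction with
    | base => rfl
    | succ k hk ih => exact ((hI k).2.1 z (hz.trans_le (bm.monotone hk))).trans ih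
  have ht : sqN (fun k => (st (f k) (b k)).s) ∈ N := by
    have h1 := memV_of N
      (sqN fun k : ℕ => (st (app (sqN f) (natZ k)) (app (sqN b) (natZ k)).rank).s)
    simpa only [eb, ef] using h1
  obtain ⟨s, hsN, he, hc⟩ := lim_map N hT hTN hl hlim hb ht bl
    (fun β hβ => (bc β hβ).imp fun k hk => hk.le) (fun k => bm.monotone (Nat.le_succ k))
    hx0.inn.pm (IsZ.trans _ hEx.1 _ hx0.inn.M_mem)
    (fun k => (eR k).2 ▸ ((hI k).1.1 _ le_rfl).inn.elem) (fun k => (hI k).2.2.2.2)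
  have hsR : s ∈ (st E x).R :=
    C.map_mem hx0.omcl (hT.node_HC C.T_mem).1 hx0.inn.M_mem hsN he.elem
  have hc0 : Comm T x l (st E x).s s := by
    have h1 := hc 0
    rwa [f0, b0] at h1
  have hG : sq l (fun z => st (f (sInf {k : ℕ | z < b k})) z) ∈ N := by
    have h1 := memV_of N (sq l fun z => st (app (sqN f)
      (natZ (sInf {k : ℕ | z < (app (sqN b) (natZ k)).rank}))) z)
    simpa only [eb, ef] using h1
  obtain ⟨K, hK, -, k1, k2⟩ := exists_glue (σ := ⟨(st E x).R, (st E x).P, s⟩) N hG hG (g := 0)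
    (h := l) (HC_subset N (C.ord_mem hl.le)) zero_le ((enc_St_mem N).2 ⟨hEx.1, hEx.2.1, hsN⟩)
  have eK : ∀ z k, z < b k → st K z = st (f k) z := by
    intro z k hz
    have hzl := hz.trans (blt k)
    rw [k1 z hzl zero_le]
    refine (oat_sq _ hzl).trans ?_
    exact (stab z _ (Nat.sInf_mem (s := {k : ℕ | z < b k}) ⟨k, hz⟩) k (Nat.sInf_le hz)).symm
  refine ⟨K, hK, ⟨fun z hz => ?_, fun z hz => ?_⟩, fun z hz => ?_, by rw [k2], by rw [k2],
    by rw [k2]; exact hc0⟩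
  · rcases hz.eq_or_lt with rfl | hz
    · rw [k2, hs.cn_eq]
      exact ⟨hx0.isT, hx0.omcl, hx0.inn.keep hT hl hs hsR he hc0⟩
    · obtain ⟨k, hk⟩ := bc z hz
      rw [eK z k hk]
      exact ((hI k).1.1 z hk.le).mono (cn_anti T n z (blt k).le)
  · obtain ⟨k, hk⟩ := bc z hz
    have h1 := ((hI k).1.2 z hk).mono (cn_anti T n z (blt k).le)
    have h2 := Comm.agrM hT hl (Or.inr (bl k)) hk (hc k)
    rw [eK z k hk, k2]
    exact ⟨h1.1.trans (by rw [(eR k).1]), fun u hu hr => (h1.2 u hu hr).trans (h2 u hu hr)⟩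
  · rw [eK z 0 (b0 ▸ hz), f0]
-- JOB D END

omit [IsZFC N] in
theorem Two.refl (hT : IsTree T P₀) (hx : x < lh T) (E : V) : Two T E x E x :=
  ⟨fun _ _ => rfl, rfl, rfl, Comm.refl hT hx _⟩

theorem claim (C : RCtx N T n μ P₀) (h : Ordinal.{0}) : h < lh T →
    (∀ x ≤ h, ∀ E ∈ N, Real N T n μ E x → Surv T n x h →
      ∃ K ∈ N, Real N T n μ K h ∧ Two T E x K h) ∧
    (∀ x ≤ h, ∀ E ∈ N, Real N T n μ E x → Brk T n x h →
      ∃ K ∈ N, Real N T n μ K h ∧ One E x K h) := by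
  have hT := C.tree
  induction h using WellFoundedLT.induction with
  | _ h IH =>
  intro hh
  have triv2 : ∀ E ∈ N, Real N T n μ E h → ∃ K ∈ N, Real N T n μ K h ∧ Two T E h K h :=
    fun E hE hR => ⟨E, hE, hR, Two.refl hT hh E⟩
  have triv1 : ∀ E ∈ N, Real N T n μ E h → ∃ K ∈ N, Real N T n μ K h ∧ One E h K h :=
    fun E hE hR => ⟨E, hE, hR, fun _ _ => rfl, fun h => absurd h (lt_irrefl _)⟩
  -- clause (1) through a node `g > x` surviving at `h`
  have via : (∀ x ≤ h, ∀ E ∈ N, Real N T n μ E x → Surv T n x h →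
      ∃ K ∈ N, Real N T n μ K h ∧ Two T E x K h) → ∀ x g, x < g → g < h → Surv T n g h →
      ∀ E ∈ N, Real N T n μ E x → Brk T n x h → ∃ K ∈ N, Real N T n μ K h ∧ One E x K h := by
    intro two x g hxg hgh hs E hE hR hb
    obtain ⟨G, hG, hGR, hG1⟩ := (IH g hgh (hgh.trans hh)).2 x hxg.le E hE hR (hb.mono hgh.le)
    obtain ⟨K, hK, hKR, hK2⟩ := two g hgh.le G hG hGR hs
    refine ⟨K, hK, hKR, fun z hz => (hK2.1 z (hz.trans_lt hxg)).trans (hG1.1 z hz), fun _ => ?_⟩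
    rw [hK2.2.1]; exact hG1.2 hxg
  rcases zero_or_succ_or_isSuccLimit h with h0 | ⟨k, rfl⟩ | hlim
  · subst h0
    exact ⟨fun x hx E hE hR _ => by rw [nonpos_iff_eq_zero.1 hx] at hR ⊢; exact triv2 E hE hR,
      fun x hx E hE hR _ => by rw [nonpos_iff_eq_zero.1 hx] at hR ⊢; exact triv1 E hE hR⟩
  · simp only [Order.succ_eq_add_one] at *
    have hk : k < k + 1 := lt_add_one k
    have hg : pr T k ≤ k := hT.pr_le k
    have hgt : tle T (pr T k) (k + 1) := Or.inr ((hT.tlt_succ_iff hh).2 (Or.inl rfl))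
    have two : ∀ x ≤ k + 1, ∀ E ∈ N, Real N T n μ E x → Surv T n x (k + 1) →
        ∃ K ∈ N, Real N T n μ K (k + 1) ∧ Two T E x K (k + 1) := by
      intro x hx E hE hR hs
      rcases hx.eq_or_lt with rfl | hx
      · exact triv2 E hE hR
      have hxg : tle T x (pr T k) :=
        (hT.tlt_succ_iff hh).1 (hs.tle.resolve_left hx.ne)
      have hgl : pr T k < lh T := (hg.trans_lt hk).trans hh
      have hsg := hs.right hT hh hxg hgt
      obtain ⟨G, hG, hGR, hG2⟩ := (IH _ (hg.trans_lt hk) hgl).1 x (hT.tle_le hgl hxg) E hE hR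
        (hs.left hT hh hxg hgt)
      obtain ⟨G', hG', hG'R, hG1⟩ := (IH k hk (hk.trans hh)).2 _ hg G hG hGR (hsg.brk hT hh)
      obtain ⟨K, hK, hKR, hK2⟩ := step_surv C hh hG' hG'R hsg
        (by rw [hG1.1 _ le_rfl]; exact hGR.1 _ le_rfl)
      have hxle := hT.tle_le hgl hxg
      unfold Two at hK2
      rw [hG1.1 _ le_rfl] at hK2
      refine ⟨K, hK, hKR, fun z hz => ?_, hK2.2.1.trans hG2.2.1, hK2.2.2.1.trans hG2.2.2.1,
        Comm.trans hT hh hxg hgt hG2.2.2.2 hK2.2.2.2⟩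
      rw [hK2.1 z (hz.trans_le hxle), hG1.1 z (hz.le.trans hxle), hG2.1 z hz]
    refine ⟨two, fun x hx E hE hR hb => ?_⟩
    rcases hx.eq_or_lt with rfl | hx
    · exact triv1 E hE hR
    have hxk : x ≤ k := Order.lt_add_one_iff.1 hx
    by_cases hs : Surv T n (pr T k) (k + 1)
    · exact via two x _ (lt_of_not_ge fun hle => hb k hk hxk hle hs) (hg.trans_lt hk) hs E hE hR hb
    · obtain ⟨G, hG, hGR, hG1⟩ := (IH k hk (hk.trans hh)).2 x hxk E hE hR (hb.mono hk.le)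
      obtain ⟨K, hK, hKR, hK1⟩ := step_new C hh hG hGR hs
      refine ⟨K, hK, hKR, fun z hz => (hK1.1 z (hz.trans hxk)).trans (hG1.1 z hz), fun _ => ?_⟩
      rcases hxk.eq_or_lt with rfl | hxk
      · rw [← hG1.1 _ le_rfl]; exact hK1.2 hk
      · exact (hR.1 x le_rfl).isT.trans _ (hG1.2 hxk) _ (hK1.2 hk)
  · have two : ∀ x ≤ h, ∀ E ∈ N, Real N T n μ E x → Surv T n x h →
        ∃ K ∈ N, Real N T n μ K h ∧ Two T E x K h := by
      intro x hx E hE hR hs
      rcases hx.eq_or_lt with rfl | hx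
      · exact triv2 E hE hR
      exact step_lim C hh hlim (fun y hy => (IH y hy (hy.trans hh)).1) hx hE hR hs
    refine ⟨two, fun x hx E hE hR hb => ?_⟩
    rcases hx.eq_or_lt with rfl | hx
    · exact triv1 E hE hR
    obtain ⟨β, hβ, hsv⟩ := surv_lim hT C.inj hh hlim
    obtain ⟨g, hg, hle, hgt⟩ := hT.lim_cof h hh hlim (max β (x + 1))
      (max_lt hβ (hlim.add_one_lt hx))
    exact via two x g ((lt_add_one x).trans_le ((le_max_right _ _).trans hle)) hg
      (hsv g ((le_max_left _ _).trans hle) hgt) E hE hR hb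

end main

/-- the realization theorem -/
theorem rt : RTStmt := by
  intro N _ T P σ Ps hTN hT hW
  obtain ⟨n, hn, hinj, hlast⟩ := exists_numbering N hTN
  have C : RCtx N T n Ps.mu P := ⟨hT, hTN, hn, hinj, hW.inac⟩
  rcases root_acc C hW with h | hacc
  · exact Or.inl h
  right
  have hPs : enc Ps ∈ N := hW.pms.enc_mem hW.mems
  haveI : In N T := ⟨HC_subset N hTN⟩
  haveI : In N n := ⟨HC_subset N hn⟩
  haveI : In N Ps := ⟨hPs⟩
  haveI : In N σ := ⟨hW.mem⟩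
  have h0 : StIn N T n Ps.mu 0 (cn T n 0 0 + 1) Ps σ :=
    ⟨HC_subset N hTN, HC_subset N hn, hW.pms, hPs, hW.mem, by rw [hT.root]; exact hW.elem, rfl,
      hW.bkg, room_of_zfc N (mem_of N (Ps.M.rank + ω)), hacc,
      room_of_zfc N (mem_of N (need T n Ps (Vs N (Ps.M.rank + ω)) 0 σ (cn T n 0 0 + 1)))⟩
  obtain ⟨H, hH, hOK, -⟩ := h0.cut N C.rank_T C.rank_n
  have hσN : enc (RSt.mk H Ps σ) ∈ N := (enc_St_mem N).2 ⟨hH, hPs, hW.mem⟩
  obtain ⟨E, hE, -, -, hE0⟩ := exists_glue N (IsZ.empty_mem N) (IsZ.empty_mem N) (g := 0) (h := 0)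
    (mem_of N (0 : Ordinal.{0})) le_rfl hσN
  have hR : Real N T n Ps.mu E 0 :=
    ⟨fun z hz => by rw [nonpos_iff_eq_zero.1 hz, hE0]; exact hOK,
      fun x hx => absurd hx (not_lt_of_ge zero_le)⟩
  rcases zero_or_succ_or_isSuccLimit (lh T) with h0 | ⟨η, hη⟩ | hlim
  · exact absurd h0 hT.pos.ne'
  · rw [Order.succ_eq_add_one] at hη
    have hlt : η < lh T := hη ▸ lt_add_one η
    obtain ⟨K, hK, hKR, hK2⟩ := (claim C η hlt).1 0 zero_le E hE hR
      (surv_last hT hinj hη.symm (hlast η hη.symm))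
    unfold Two at hK2
    rw [hE0] at hK2
    refine ⟨η, hη.symm, ⟨(st K η).s, ((enc_St_mem N).1 (enc_st_mem N hK η)).2.2, ?_, fun u hu => ?_⟩,
      fun a e hL he => hKR.uwf C hlt hK hL he⟩
    · have := (hKR.1 η le_rfl).inn.elem
      rwa [hK2.2.2.1] at this
    · exact hK2.2.2.2 u (hT.root.symm ▸ hu)
  · exfalso
    obtain ⟨z, hz, hlt, hs, hb⟩ := exists_brk_seq hT hinj hlim
    obtain ⟨K, hK, hKR, -⟩ := (claim C _ (hlt 0)).1 0 zero_le E hE hR hs
    have key : ∀ R : V, ∀ k, ∀ K ∈ N, Real N T n Ps.mu K (z k) → (st K (z k)).R = R → False := by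
      intro R
      induction R using mem_wf.induction with
      | _ R ih =>
      intro k K hK hKR e
      have hkk := hz (Nat.lt_succ_self k)
      obtain ⟨K', hK', hK'R, h1⟩ := (claim C _ (hlt (k + 1))).2 _ hkk.le K hK hKR (hb k)
      exact ih _ (e ▸ h1.2 hkk) (k + 1) K' hK' hK'R rfl
    exact key _ 0 K hK hKR rfl

end Pool.Agent.Lib.MP_f9eb18_lc.W
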