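import Pool.Agent.Lib.MP_f9eb18_lc.W.E

/-! # Interfaces between the forcing part, the `C^2` part and the inner model part -/

namespace Pool.Agent.Lib.MP_f9eb18_lc.W

open Ordinal ZFSet
set_option linter.style.haveILetI false
set_option linter.unusedVariables false
set_option synthInstance.maxSize 100000

/-- `N'` is an extension of `N` that behaves like a forcing extension by a poset in `V_μ` -/
structure SmallExt (N N' : Set V) (μ : Ordinal.{0}) : Prop where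
  zfc : IsZFC N'
  ctbl : N'.Countable
  sub : N ⊆ N'
  ord : ∀ o : Ordinal.{0}, o.toZFSet ∈ N' → o.toZFSet ∈ N
  inac : Inac N' μ
  wood : ∀ δ, μ < δ → WoodE N δ → WoodE N' δ
  lift : ∀ E ∈ N, IsExt E → extZ E = Vs N (len E) → μ < crit E → (∃ α < len E, len E = α + μ) →
    ∃ E' ∈ N', IsExt E' ∧ E ⊆ E' ∧ crit E' = crit E ∧ len E' = len E ∧ extZ E' = Vs N' (len E)

theorem SmallExt.refl (N : Set V) [h : IsZFC N] (hc : N.Countable) {μ : Ordinal.{0}}
    (hμ : Inac N μ) : SmallExt N N μ :=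
  ⟨h, hc, subset_rfl, fun _ h => h, hμ, fun _ _ h => h,
    fun E hE h1 h2 _ _ => ⟨E, hE, h1, subset_rfl, rfl, rfl, h2⟩⟩

theorem SmallExt.trans {N N' N'' : Set V} {μ : Ordinal.{0}} (h : SmallExt N N' μ)
    (h' : SmallExt N' N'' μ) : SmallExt N N'' μ := by
  refine ⟨h'.zfc, h'.ctbl, h.sub.trans h'.sub, fun o ho => h.ord o (h'.ord o ho), h'.inac,
    fun δ h1 h2 => h'.wood δ h1 (h.wood δ h1 h2), fun E hE h1 h2 h3 h4 => ?_⟩
  obtain ⟨E', hE', k1, k2, k3, k4, k5⟩ := h.lift E hE h1 h2 h3 h4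
  obtain ⟨E'', hE'', l1, l2, l3, l4, l5⟩ := h'.lift E' hE' k1 (by rw [k4]; exact k5)
    (by rw [k3]; exact h3) (by rw [k4]; exact h4)
  exact ⟨E'', hE'', l1, k2.trans l2, l3.trans k3, l4.trans k4, by rw [l5, k4]⟩

theorem Bkg.ext {N N' : Set V} {μ : Ordinal.{0}} {A : V} (hb : Bkg N A μ) (h : SmallExt N N' μ) :
    Bkg N' A μ := by
  intro E hE h1 h2 h3 h4
  obtain ⟨E', hE', k1, k2, k3, k4, k5⟩ := hb E hE h1 h2 h3 h4
  obtain ⟨E'', hE'', l1, l2, l3, l4, l5⟩ := h.lift E' hE' k1 (by rw [k4]; exact k5)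
    (by rw [k3]; exact h3) (by rw [k4]; exact h4)
  exact ⟨E'', hE'', l1, k2.trans l2, l3.trans k3, l4.trans k4, by rw [l5, k4]⟩

/-- `N'` behaves like an extension of `N` by `Col(ω, ω₁)` -/
structure ColExt (N N' : Set V) : Prop where
  zfc : IsZFC N'
  ctbl : N'.Countable
  sub : N ⊆ N'
  col : Ctbl N' (om1 N).toZFSet
  small : ∀ μ, Inac N μ → SmallExt N N' μ

/-- homogeneity of the collapse: a set that is uniquely defined from ground model parameters in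
every collapse extension belongs to the ground model -/
def ColHom : Prop :=
  ∀ (N : Set V) [IsZFC N], N.Countable → ∀ (Q : Set V → V → V → Prop),
    UD pP (fun M v => Q M (vr v 0) (vr v 1)) → ∀ a ∈ N, ∀ d ∈ N,
      (∀ N', ColExt N N' → ∃! b, b ∈ N' ∧ b ⊆ d ∧ Q N' b a) →
      ∃ N', ColExt N N' ∧ ∃ b ∈ N, b ⊆ d ∧ Q N' b a

/-- a set of reals with a well-order, both definable without parameters over `HC N`, that is not
enumerated by `ω₁` in `N` -/
def HCWO (N : Set V) : Prop :=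
  ∃ (D : V → Prop) (lt : V → V → Prop) (φ ψ : Fo),
    (∀ x, D x → x ∈ N ∧ x ⊆ omegaZ) ∧
    (∀ x ∈ HC N, D x ↔ Sat1 (HC N) φ (fun _ => x)) ∧
    (∀ x y, D x → D y → (lt x y ↔ Sat1 (HC N) ψ (cons x (fun _ => y)))) ∧
    (∀ x y, D x → D y → lt x y ∨ x = y ∨ lt y x) ∧
    WellFounded (fun x y => D x ∧ D y ∧ lt x y) ∧
    ¬ ∃ f ∈ N, ∀ x, D x → ∃ ξ < om1 N, app f ξ.toZFSet = x

/-- the `C^2` part -/
def C2Thm : Prop := ∀ (N : Set V) [IsZFC N], HCWO N → ¬ CHinC2N N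

/-- `s` is an injective `ω₁`-sequence of reals of `U` that is definable over `HC` in all small
extensions preserving `ω₁` -/
def DefSeq (U : Set V) (μ : Ordinal.{0}) : Prop :=
  ∃ s ∈ U, IsInj s (om1 U).toZFSet (pw U omegaZ) ∧ ∃ σ : Fo,
    ∀ N, SmallExt U N μ → om1 N = om1 U → ∀ ξ < om1 U, ∀ x ∈ HC N,
      (Sat1 (HC N) σ (cons ξ.toZFSet (fun _ => x)) ↔ x = app s ξ.toZFSet)

/-- the coding forcing -/
def Coding : Prop :=
  ∀ (U : Set V) [IsZFC U], U.Countable → ∀ l μ : Ordinal.{0}, l < μ → Inac U l → Inac U μ →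
    (∀ β < l, ∃ κ < l, β < κ ∧ Meas U κ) → DefSeq U μ → ∃ N, SmallExt U N μ ∧ HCWO N

-- JOB A BEGIN
/-- a parameter-free uniformly definable predicate is given by a formula -/
theorem UD.exists_fo {F : Fr} [F.Pure] (P : Set V → (ℕ → V) → Prop) [UD F P] :
    ∃ φ : Fo, ∀ M, F.K M → ∀ v, (∀ i, v i ∈ M) → (P M v ↔ Sat1 M φ v) := by
  obtain ⟨φ, c, hc, H⟩ := UD.out (F := F) (P := P)
  refine ⟨.ex (.and (.neg (.ex (.mem 0 1))) (φ.ren fun n => if n % 2 = 0 then n / 2 + 1 else 0)),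
    fun M hM v hv => ?_⟩
  have := F.hZ M hM
  have e : cons (∅ : V) v ∘ (fun n => if n % 2 = 0 then n / 2 + 1 else 0) = mrg v c := by
    funext n
    by_cases hn : n % 2 = 0
    · simp only [mrg, Function.comp, hn, if_true, cons_succ]
    · simp only [mrg, Function.comp, hn, if_false, cons_zero]
      exact (Set.mem_singleton_iff.1 (Fr.Pure.out (F := F) ▸ hc _)).symm
  rw [H M hM v hv]
  simp only [Sat1, sat_ren, cons_zero, cons_succ]
  refine ⟨fun h => ⟨∅, IsZ.empty_mem M, fun ⟨x, _, hx⟩ => notMem_empty x hx, e ▸ h⟩,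
    fun ⟨a, ha, h1, h2⟩ => ?_⟩
  obtain rfl : a = ∅ := (eq_empty a).2 fun x hx => h1 ⟨x, IsZ.trans a ha x hx, hx⟩
  exact e ▸ h2
instance (M : Set V) [IsZ M] : (pureAt M).Pure := ⟨rfl⟩
-- JOB A END

end Pool.Agent.Lib.MP_f9eb18_lc.W
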