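import Pool.Agent.Lib.MP_f9eb18_lc.W.F0
import Pool.Agent.Lib.MP_f9eb18_lc.W.Iface

/-! # Coding forcing, basics: elementary substructures, decisions, heights, clubs -/

namespace Pool.Agent.Lib.MP_f9eb18_lc.W

open Ordinal ZFSet
set_option linter.style.haveILetI false
set_option linter.unusedVariables false
set_option synthInstance.maxSize 100000

variable {F : Fr}

/-! ### witnesses and terms in elementary substructures (absolute predicates) -/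
namespace ElemSub
variable {X H : V} [IsZ (H : Set V)] (h : ElemSub X H) {a b c d e : V}
include h
theorem ex1 (P : V → V → Prop) [UD pZ (fun _ v => P (vr v 0) (vr v 1))] (ha : a ∈ X)
    (hex : ∃ y ∈ H, P y a) : ∃ y ∈ X, P y a :=
  h.ex_mem pZ (fun _ v => P (vr v 0) (vr v 1)) (v := fun _ => a) (fun _ => ha) hex
theorem ex2 (P : V → V → V → Prop) [UD pZ (fun _ v => P (vr v 0) (vr v 1) (vr v 2))] (ha : a ∈ X)
    (hb : b ∈ X) (hex : ∃ y ∈ H, P y a b) : ∃ y ∈ X, P y a b :=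
  h.ex_mem pZ (fun _ v => P (vr v 0) (vr v 1) (vr v 2)) (v := cons a fun _ => b)
    (cons_mem ha fun _ => hb) hex
theorem ex3 (P : V → V → V → V → Prop)
    [UD pZ (fun _ v => P (vr v 0) (vr v 1) (vr v 2) (vr v 3))] (ha : a ∈ X) (hb : b ∈ X)
    (hc : c ∈ X) (hex : ∃ y ∈ H, P y a b c) : ∃ y ∈ X, P y a b c :=
  h.ex_mem pZ (fun _ v => P (vr v 0) (vr v 1) (vr v 2) (vr v 3)) (v := cons a (cons b fun _ => c))
    (cons_mem ha (cons_mem hb fun _ => hc)) hex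
theorem ex4 (P : V → V → V → V → V → Prop)
    [UD pZ (fun _ v => P (vr v 0) (vr v 1) (vr v 2) (vr v 3) (vr v 4))] (ha : a ∈ X) (hb : b ∈ X)
    (hc : c ∈ X) (hd : d ∈ X) (hex : ∃ y ∈ H, P y a b c d) : ∃ y ∈ X, P y a b c d :=
  h.ex_mem pZ (fun _ v => P (vr v 0) (vr v 1) (vr v 2) (vr v 3) (vr v 4))
    (v := cons a (cons b (cons c fun _ => d)))
    (cons_mem ha (cons_mem hb (cons_mem hc fun _ => hd))) hex
theorem tm1 (f : V → V) [UF pZ (fun _ v => f (vr v 0))] (ha : a ∈ X) : f a ∈ X :=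
  h.uf_mem pZ (fun _ v => f (vr v 0)) (v := fun _ => a) (fun _ => ha)
theorem tm2 (f : V → V → V) [UF pZ (fun _ v => f (vr v 0) (vr v 1))] (ha : a ∈ X) (hb : b ∈ X) :
    f a b ∈ X :=
  h.uf_mem pZ (fun _ v => f (vr v 0) (vr v 1)) (v := cons a fun _ => b) (cons_mem ha fun _ => hb)
theorem tm3 (f : V → V → V → V) [UF pZ (fun _ v => f (vr v 0) (vr v 1) (vr v 2))] (ha : a ∈ X)
    (hb : b ∈ X) (hc : c ∈ X) : f a b c ∈ X :=
  h.uf_mem pZ (fun _ v => f (vr v 0) (vr v 1) (vr v 2)) (v := cons a (cons b fun _ => c))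
    (cons_mem ha (cons_mem hb fun _ => hc))
theorem tm4 (f : V → V → V → V → V) [UF pZ (fun _ v => f (vr v 0) (vr v 1) (vr v 2) (vr v 3))]
    (ha : a ∈ X) (hb : b ∈ X) (hc : c ∈ X) (hd : d ∈ X) : f a b c d ∈ X :=
  h.uf_mem pZ (fun _ v => f (vr v 0) (vr v 1) (vr v 2) (vr v 3))
    (v := cons a (cons b (cons c fun _ => d))) (cons_mem ha (cons_mem hb (cons_mem hc fun _ => hd)))
theorem pair_mem (ha : a ∈ X) (hb : b ∈ X) : pair a b ∈ X := h.tm2 pair ha hb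
theorem fst_mem (ha : a ∈ X) : fst a ∈ X := h.tm1 fst ha
theorem snd_mem (ha : a ∈ X) : snd a ∈ X := h.tm1 snd ha
theorem app_mem (ha : a ∈ X) (hb : b ∈ X) : app a b ∈ X := h.tm2 app ha hb
theorem pair_mem_iff : pair a b ∈ X ↔ a ∈ X ∧ b ∈ X :=
  ⟨fun hp => ⟨by simpa using h.fst_mem hp, by simpa using h.snd_mem hp⟩,
    fun hp => h.pair_mem hp.1 hp.2⟩
end ElemSub

/-- `Δ` is a monotone and functional set of decisions `(p, (x, y))` -/
structure DecRel (le Δ : V) : Prop where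
  mono : ∀ p q x y, pair q p ∈ le → pair p (pair x y) ∈ Δ → pair q (pair x y) ∈ Δ
  fn : ∀ p x y y', pair p (pair x y) ∈ Δ → pair p (pair x y') ∈ Δ → y = y'

/-- `q` is a master condition for `X` -/
def Master (X P le q : V) : Prop :=
  ∀ D ∈ X, Dense P le D → ∀ q' ∈ P, pair q' q ∈ le →
    ∃ d ∈ D, d ∈ X ∧ ∃ r ∈ P, pair r q' ∈ le ∧ pair r d ∈ le

-- JOB A BEGIN
instance ud_finite {a : Set V → (ℕ → V) → V} [UF F a] :
    UD F (fun M v => (a M v : Set V).Finite) := by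
  have := UF.lift (F := F) a
  refine (inferInstance : UD F (fun M v => ∃ s : List V, (∀ x ∈ s, x ∈ a M v) ∧
    ∀ x ∈ a M v, x ∈ s)).congr fun M hM v hv => ⟨fun h => ?_, fun ⟨s, _, h⟩ => ?_⟩
  · exact ⟨h.toFinset.toList, fun x hx => h.mem_toFinset.1 (Finset.mem_toList.1 hx),
      fun x hx => Finset.mem_toList.2 (h.mem_toFinset.2 hx)⟩
  · exact s.finite_toSet.subset fun x hx => h x hx
theorem b0a_fin {X H : V} [IsZ (H : Set V)] (h : ElemSub X H) (hne : X.Nonempty) {S : Set V}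
    (hf : S.Finite) : S ⊆ (X : Set V) → ∀ s : V, (s : Set V) = S → s ∈ X := by
  induction S, hf using Set.Finite.induction_on with
  | empty =>
    intro _ s e
    rw [(ZFSet.eq_empty s).2 fun y hy => (e ▸ hy : y ∈ (∅ : Set V))]
    exact h.empty_mem hne
  | @insert a S _ _ ih =>
    intro k s e
    have e' : ∀ y, y ∈ s ↔ y = a ∨ y ∈ S := fun y => Set.ext_iff.1 e y
    have h1 : a ∈ X := k (Set.mem_insert a S)
    have h2 : ZFSet.sep (· ∈ S) s ∈ X := ih ((Set.subset_insert a S).trans k) _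
      (Set.ext fun y => mem_sep.trans ⟨fun k => k.2, fun k => ⟨(e' y).2 (Or.inr k), k⟩⟩)
    have : s = insert a (ZFSet.sep (· ∈ S) s) := by
      ext y; rw [mem_insert_iff, mem_sep, e']; tauto
    rw [this]
    exact h.tm2 (fun a b => insert a b) h1 h2
theorem ElemSub.finite_mem {X H s : V} [IsZ (H : Set V)] (h : ElemSub X H) (hne : X.Nonempty)
    (hf : (s : Set V).Finite) (hs : s ⊆ X) : s ∈ X :=
  b0a_fin h hne hf (fun _ hx => hs hx) s rfl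
theorem ElemSub.natZ_mem {X H : V} [IsZ (H : Set V)] (h : ElemSub X H) (hne : X.Nonempty) (n : ℕ) :
    natZ n ∈ X := h.HF_subset hne (z4b_nat n)
/-- every set of `N` lies in an `ω`-closed set model -/
theorem exists_H (N : Set V) [IsZFC N] {a : V} (ha : a ∈ N) :
    ∃ H ∈ N, IsT (H : Set V) ∧ OmCl N H ∧ a ∈ H := by
  haveI : In N a := ⟨ha⟩
  obtain ⟨H, hH, h1, h2, h3⟩ := exists_T_model N (ζ := a.rank + 1) (mem_of N (a.rank + 1))
  exact ⟨H, hH, h1, h2, IsZ.trans (M := (H : Set V)) _ h3 a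
    (mem_Vs.2 ⟨ha, Order.lt_succ_of_le le_rfl⟩)⟩
theorem ElemSub.sub_of_ctbl {N : Set V} [IsZ N] {X H x : V} [IsZ (H : Set V)] (h : ElemSub X H)
    (hcl : OmCl N H) (hx : x ∈ X) (hc : Ctbl N x) : x ⊆ X :=
  h.subset_of_ctbl hx (hcl.ctbl hc fun y hy =>
    IsZ.trans (M := (H : Set V)) x (h.subset hx) y hy)
/-- `X ∩ ω₁` is an ordinal -/
theorem ElemSub.exists_nu {N : Set V} [IsZFC N] {X H : V} [IsZ (H : Set V)] (h : ElemSub X H)
    (hcl : OmCl N H) (hc : Ctbl N X) (hne : X.Nonempty) :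
    ∃ ν < om1 N, ω ≤ ν ∧ ν.toZFSet = X ∩ (om1 N).toZFSet := by
  haveI : In N X := ⟨InjIn.mem_left hc⟩
  haveI : In N (om1 N) := ⟨om1_mem N⟩
  have ht : (X ∩ (om1 N).toZFSet).IsTransitive := by
    intro x hx y hy
    obtain ⟨h1, h2⟩ := mem_inter.1 hx
    obtain ⟨o, ho, rfl⟩ := mem_toZFSet_iff.1 h2
    exact mem_inter.2 ⟨h.sub_of_ctbl hcl h1 (lt_om1_iff.1 ho) hy,
      (isOrdinal_toZFSet _).mem_trans hy h2⟩
  have ho : (X ∩ (om1 N).toZFSet).IsOrdinal :=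
    ⟨ht, fun {y z w} hyz hzw hw =>
      ((isOrdinal_toZFSet _).mem (mem_inter.1 hw).2).mem_trans hyz hzw⟩
  have e : (X ∩ (om1 N).toZFSet).rank.toZFSet = X ∩ (om1 N).toZFSet := ho.toZFSet_rank_eq
  refine ⟨_, lt_om1_iff.2 ?_, ?_, e⟩
  · rw [e]
    exact hc.of_subset (memV_of N _) fun y hy => (mem_inter.1 hy).1
  · refine le_of_forall_lt fun o h1 => ?_
    obtain ⟨n, rfl⟩ := lt_omega0.1 h1
    have h2 : natZ n ∈ X ∩ (om1 N).toZFSet := mem_inter.2 ⟨h.natZ_mem hne n,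
      toZFSet_mem_toZFSet_iff.2 (h1.trans (omega_lt_om1 N))⟩
    simpa [rank_natZ] using rank_lt_of_mem h2
theorem b0a_val0 (G : V) : val G ∅ = ∅ :=
  (ZFSet.eq_empty _).2 fun y hy => by
    obtain ⟨σ, p, k, -⟩ := mem_val.1 hy
    exact notMem_empty _ k
/-- the decisions about a function of the generic extension -/
theorem exists_decRel {M : Set V} [IsZ M] (hc : M.Countable) {P le G : V} (hpo : IsPO P le)
    (hP : P ∈ M) (hle : le ∈ M) (h : Gen M P le G) {f : V} (hf : f ∈ gext M G) {a b : V}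
    (ha : a ∈ M) (hb : b ∈ M) :
    ∃ Δ ∈ M, DecRel le Δ ∧ Δ ⊆ prod P (prod a b) ∧
      ∀ x ∈ a, app f x ∈ b → ∃ p ∈ G, pair p (pair x (app f x)) ∈ Δ := by
  obtain ⟨τ, hτ, rfl⟩ := hf
  obtain ⟨φ, hφ⟩ := UD.exists_fo (F := pZ) (fun _ v => app (vr v 0) (vr v 1) = vr v 2)
  haveI : In M P := ⟨hP⟩
  haveI : In M le := ⟨hle⟩
  haveI : In M τ := ⟨hτ⟩
  haveI : In M a := ⟨ha⟩
  haveI : In M b := ⟨hb⟩
  have key : ∀ G', Gen M P le G' → ∀ x ∈ a, ∀ y ∈ b, (app (val G' τ) x = y ↔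
      ∃ p ∈ G', Frc M P le φ p (cons τ (cons (chk P x) (cons (chk P y) fun _ => τ)))) := by
    intro G' h' x hx y hy
    haveI : In M x := ⟨IsZ.trans _ ha _ hx⟩
    haveI : In M y := ⟨IsZ.trans _ hb _ hy⟩
    have hn : ∀ i, cons τ (cons (chk P x) (cons (chk P y) fun _ => τ)) i ∈ M :=
      cons_mem hτ (cons_mem (memV_of M _) (cons_mem (memV_of M _) fun _ => hτ))
    rw [← truth hpo hP hle h' φ hn, ← hφ _ (isZ_gext hpo hP hle h') (val G' ∘ _)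
      fun i => ⟨_, hn i, rfl⟩]
    show _ ↔ app (val G' τ) (val G' (chk P x)) = val G' (chk P y)
    rw [val_chk h'.sub h'.ne, val_chk h'.sub h'.ne]
  haveI : UV (loc M) (fun _ _ => fun _ : ℕ => τ) := f0c_uv fun _ => hτ
  refine ⟨ZFSet.sep (fun z => Frc M P le φ (fst z) (cons τ (cons (chk P (fst (snd z)))
    (cons (chk P (snd (snd z))) fun _ => τ)))) (prod P (prod a b)),
    sep_mem M _ (memV_of M _), ⟨fun p q x y hq hp => ?_, fun p x y y' h1 h2 => ?_⟩,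
    fun z hz => (mem_sep.1 hz).1, fun x hx hy => ?_⟩
  · obtain ⟨h1, h2⟩ := mem_sep.1 hp
    simp only [fst_pair, snd_pair] at h2
    refine mem_sep.2 ⟨pair_mem_prod.2 ⟨(pair_mem_prod.1 (hpo.sub hq)).1,
      (pair_mem_prod.1 h1).2⟩, ?_⟩
    simp only [fst_pair, snd_pair]
    exact h2.mono hpo hq
  · obtain ⟨k1, k2⟩ := mem_sep.1 h1
    obtain ⟨k3, k4⟩ := mem_sep.1 h2
    simp only [fst_pair, snd_pair] at k2 k4
    obtain ⟨hp, k5⟩ := pair_mem_prod.1 k1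
    obtain ⟨hx, hy⟩ := pair_mem_prod.1 k5
    have hy' := (pair_mem_prod.1 (pair_mem_prod.1 k3).2).2
    obtain ⟨G', h', hp'⟩ := exists_gen hc hpo hp
    exact ((key G' h' x hx y hy).2 ⟨p, hp', k2⟩).symm.trans
      ((key G' h' x hx y' hy').2 ⟨p, hp', k4⟩)
  · obtain ⟨p, hp, k⟩ := (key G h x hx _ hy).1 rfl
    refine ⟨p, hp, mem_sep.2 ⟨pair_mem_prod.2 ⟨h.sub hp, pair_mem_prod.2 ⟨hx, hy⟩⟩, ?_⟩⟩
    simp only [fst_pair, snd_pair]
    exact k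
/-- below a master condition only values in `X` are decided -/
theorem Master.mem {X H P le Δ q₀ q x y : V} [IsZ (H : Set V)] (h : ElemSub X H) (hpo : IsPO P le)
    (hP : P ∈ X) (hle : le ∈ X) (hΔ : Δ ∈ X) (hd : DecRel le Δ) (hm : Master X P le q₀)
    (hq : pair q q₀ ∈ le) (hx : x ∈ X) (hy : pair q (pair x y) ∈ Δ) : y ∈ X := by
  have hE := h.tm4 (fun P le Δ x => ZFSet.sep (fun p =>
    (∃ z, pair p z ∈ Δ ∧ z = pair x (snd z)) ∨
      ∀ r ∈ P, pair r p ∈ le → ¬ ∃ z, pair r z ∈ Δ ∧ z = pair x (snd z)) P) hP hle hΔ hx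
  obtain ⟨d, hdE, hdX, r, hr, h1, h2⟩ := hm _ hE ⟨fun p hp => (mem_sep.1 hp).1, fun p hp => by
    by_cases hc : ∀ r ∈ P, pair r p ∈ le → ¬ ∃ z, pair r z ∈ Δ ∧ z = pair x (snd z)
    · exact ⟨p, mem_sep.2 ⟨hp, Or.inr hc⟩, hpo.refl p hp⟩
    · simp only [not_forall, not_not] at hc
      obtain ⟨r, hr, hrp, hf⟩ := hc
      exact ⟨r, mem_sep.2 ⟨hr, Or.inl hf⟩, hrp⟩⟩ q (pair_mem_prod.1 (hpo.sub hq)).1 hq
  have h3 := hd.mono q r x y h1 hy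
  rcases (mem_sep.1 hdE).2 with ⟨z, hz, e⟩ | hn
  · have hΔH : Δ ∈ (H : Set V) := h.subset hΔ
    obtain ⟨y', hy', k⟩ := h.ex3 (fun y d x Δ => pair d (pair x y) ∈ Δ) hdX hx hΔ
      ⟨snd z, by
        have := (IsZ.pair_mem_iff (H : Set V)).1 (IsZ.trans _ hΔH _ hz)
        rw [e] at this
        exact ((IsZ.pair_mem_iff (H : Set V)).1 this.2).2, e ▸ hz⟩
    rw [hd.fn r x y y' h3 (hd.mono d r x y' h2 k)]
    exact hy'
  · exact absurd ⟨_, h3, by rw [snd_pair]⟩ (hn r hr h2)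
-- JOB A END

/-! ### heights of well-founded relations -/
/-- the rank of the relation `R` restricted to `A` -/
noncomputable def hgt (R A : V) : Ordinal.{0} := (img (col (R ∩ prod A A)) A).rank
instance uf_hgt {a b : Set V → (ℕ → V) → V} [UF F a] [UF F b] :
    UF F (fun M v => hgt (a M v) (b M v)) := by
  have := UF.lift (F := F) a; have := UF.lift (F := F) b; unfold hgt; infer_instance
/-- order type of a set of ordinals -/
noncomputable def ot (Y : V) : Ordinal.{0} := hgt (memR Y) Y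
instance uf_ot {a : Set V → (ℕ → V) → V} [UF F a] : UF F (fun M v => ot (a M v)) := by
  unfold ot; infer_instance
/-- pull-back of `∈` along `e` -/
noncomputable def pull (e : V → V) (A : V) : V := rel A A (fun b b' => e b ∈ e b')
/-- `Y'` adds nothing to the elements of `Y` -/
def EndX (Y Y' : V) : Prop := Y ⊆ Y' ∧ ∀ β ∈ Y, ∀ γ ∈ Y', γ ∈ β → γ ∈ Y

-- JOB B BEGIN
theorem WF.subset {R R' : V} (h : WF R) (hs : R' ⊆ R) : WF R' :=
  Subrelation.wf (fun k => hs k) h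
/-- simulation lemma -/
theorem rkR_sim {R R' : V} (h : WF R) (h' : WF R') (S : V → V → Prop)
    (hS : ∀ a b, S a b → ∀ a', pair a' a ∈ R → ∃ b', pair b' b ∈ R' ∧ S a' b') {a b : V}
    (hab : S a b) : rkR R a ≤ rkR R' b := by
  induction a using WellFounded.induction h generalizing b with
  | _ a ih =>
    refine (rkR_le_iff (h.accP a)).2 fun a' ha' => ?_
    obtain ⟨b', hb', k⟩ := hS a b hab a' ha'
    exact (ih a' ha' k).trans_lt (rkR_lt (h'.accP b) hb')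
theorem lt_hgt_iff {R A : V} {o : Ordinal.{0}} :
    o < hgt R A ↔ ∃ a ∈ A, o ≤ rkR (R ∩ prod A A) a := by
  rw [hgt, lt_rank_iff]
  constructor
  · rintro ⟨y, hy, k⟩
    obtain ⟨a, ha, rfl⟩ := mem_img.1 hy
    exact ⟨a, ha, k⟩
  · rintro ⟨a, ha, k⟩
    exact ⟨_, mem_img.2 ⟨a, ha, rfl⟩, k⟩
theorem hgt_congr {R R' A : V} (h : ∀ x ∈ A, ∀ y ∈ A, pair x y ∈ R ↔ pair x y ∈ R') :
    hgt R A = hgt R' A := by
  have e : R ∩ prod A A = R' ∩ prod A A := by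
    ext p
    rw [mem_inter, mem_inter]
    refine and_congr_left fun hp => ?_
    obtain ⟨x, hx, y, hy, rfl⟩ := mem_prod.1 hp
    exact h x hx y hy
  rw [hgt, hgt, e]
theorem wf_pull (e : V → V) (A : V) : WF (pull e A) :=
  Subrelation.wf (fun k => (pair_mem_rel.1 k).2.2) (InvImage.wf e mem_wf)
theorem b0b_inter {R : V} (h : WF R) (A : V) : WF (R ∩ A) := h.subset fun _ k => (mem_inter.1 k).1
theorem b0b_rel {A x y : V} {P : V → V → Prop} :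
    pair x y ∈ rel A A P ∩ prod A A ↔ x ∈ A ∧ y ∈ A ∧ P x y := by
  rw [mem_inter, pair_mem_rel, pair_mem_prod]
  exact ⟨fun h => h.1, fun h => ⟨h, h.1, h.2.1⟩⟩
theorem b0b_wf (Y : V) : WF (memR Y ∩ prod Y Y) := b0b_inter (wf_memR Y) _
theorem hgt_pull {e : V → V} {A Y : V} (h1 : ∀ a ∈ A, e a ∈ Y) (h2 : ∀ y ∈ Y, ∃ a ∈ A, e a = y) :
    hgt (pull e A) A = ot Y := by
  have w1 := b0b_inter (wf_pull e A) (prod A A)
  refine le_antisymm (le_of_forall_lt fun o ho => ?_) (le_of_forall_lt fun o ho => ?_)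
  · obtain ⟨a, ha, k⟩ := lt_hgt_iff.1 ho
    refine lt_hgt_iff.2 ⟨e a, h1 a ha, k.trans (rkR_sim w1 (b0b_wf Y) (fun a y => e a = y) ?_ rfl)⟩
    rintro a _ rfl a' ha'
    obtain ⟨p1, p2, p3⟩ := b0b_rel.1 ha'
    exact ⟨e a', b0b_rel.2 ⟨h1 _ p1, h1 _ p2, p3⟩, rfl⟩
  · obtain ⟨y, hy, k⟩ := lt_hgt_iff.1 ho
    obtain ⟨a, ha, rfl⟩ := h2 y hy
    refine lt_hgt_iff.2 ⟨a, ha, k.trans
      (rkR_sim (b0b_wf Y) w1 (fun y a => a ∈ A ∧ e a = y) ?_ ⟨ha, rfl⟩)⟩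
    rintro _ a ⟨ha, rfl⟩ y' hy'
    obtain ⟨p1, p2, p3⟩ := b0b_rel.1 hy'
    obtain ⟨a', ha', rfl⟩ := h2 y' p1
    exact ⟨a', b0b_rel.2 ⟨ha', ha, p3⟩, ha', rfl⟩
theorem hgt_lt_om1 {N : Set V} [IsZ N] {R A : V} (hR : R ∈ N) (hA : Ctbl N A)
    (h : WF (R ∩ prod A A)) : hgt R A < om1 N := by
  haveI : In N R := ⟨hR⟩
  haveI : In N A := ⟨InjIn.mem_left hA⟩
  exact rank_lt_om1 (mem_HC_of_trans
    (col_trans h fun x _ y hy => (pair_mem_prod.1 (mem_inter.1 hy).2).1)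
    (z5b_img hA (col (R ∩ prod A A)) (memV_of N _) fun y hy => mem_img.1 hy))
theorem ot_lt_om1 {N : Set V} [IsZ N] {Y : V} (hY : Ctbl N Y) : ot Y < om1 N := by
  haveI : In N Y := ⟨InjIn.mem_left hY⟩
  exact hgt_lt_om1 (memV_of N _) hY (b0b_wf Y)
theorem ot_lt_of_end {Y Y' : V} (ho : ∀ x ∈ Y', x.IsOrdinal) (h : EndX Y Y')
    (hn : ∃ η ∈ Y', η ∉ Y) : ot Y < ot Y' := by
  obtain ⟨η, h1, h2⟩ := hn
  refine lt_hgt_iff.2 ⟨η, h1, le_of_forall_lt fun o ho' => ?_⟩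
  obtain ⟨β, hβ, k⟩ := lt_hgt_iff.1 ho'
  have l : β ∈ η := by
    rcases (ho β (h.1 hβ)).mem_trichotomous (ho η h1) with l | l | l
    · exact l
    · exact absurd (l ▸ hβ) h2
    · exact absurd (h.2 β hβ η h1 l) h2
  refine (k.trans (rkR_sim (b0b_wf Y) (b0b_wf Y') (fun a b => a = b) ?_ rfl)).trans_lt
    (rkR_lt ((b0b_wf Y').accP η) (b0b_rel.2 ⟨h.1 hβ, h1, l⟩))
  rintro a _ rfl a' ha'
  obtain ⟨p1, p2, p3⟩ := b0b_rel.1 ha'
  exact ⟨a', b0b_rel.2 ⟨h.1 p1, h.1 p2, p3⟩, rfl⟩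
/-- continuity of order types along end-extensions -/
theorem lt_ot_elim {Y : V} {o : Ordinal.{0}} (h : o < ot Y) :
    ∃ β ∈ Y, ∀ Y₀, β ∈ Y₀ → EndX Y₀ Y → o < ot Y₀ := by
  obtain ⟨β, hβ, k⟩ := lt_hgt_iff.1 h
  refine ⟨β, hβ, fun Y₀ h0 he => lt_hgt_iff.2 ⟨β, h0, k.trans
    (rkR_sim (b0b_wf Y) (b0b_wf Y₀) (fun a b => a = b ∧ a ∈ Y₀) ?_ ⟨rfl, h0⟩)⟩⟩
  rintro a _ ⟨rfl, ha⟩ a' ha'
  obtain ⟨p1, p2, p3⟩ := b0b_rel.1 ha'
  have := he.2 a ha a' p1 p3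
  exact ⟨a', b0b_rel.2 ⟨this, ha, p3⟩, rfl, this⟩
/-- a relation on `ω₁` all of whose countable restrictions are well-founded is well-founded -/
theorem wf_of_restr {N : Set V} [IsZFC N] {R : V} (hR : R ∈ N)
    (hs : R ⊆ prod (om1 N).toZFSet (om1 N).toZFSet)
    (h : ∀ ν < om1 N, WF (R ∩ prod ν.toZFSet ν.toZFSet)) : WF R := by
  haveI : In N R := ⟨hR⟩
  refine wf_iff_acc.2 fun z hz => by_contra fun hn => ?_
  have hm : ∀ x y, pair x y ∈ R → x ∈ (om1 N).toZFSet ∧ y ∈ (om1 N).toZFSet := fun x y k =>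
    pair_mem_prod.1 (hs k)
  have hN : ∀ x ∈ (om1 N).toZFSet, x ∈ N := IsZ.trans _ (om1_mem N)
  obtain ⟨y, hy⟩ := mem_ran.1 hz
  obtain ⟨f, hf, -, k⟩ := dc_nat N (fun _ x y => pair y x ∈ R)
    (fun _ x => x ∈ (om1 N).toZFSet ∧ ¬ AccP (preds R) x) (hN z (hm _ _ hy).2)
    ⟨(hm _ _ hy).2, hn⟩ fun n x _ hx => by
      by_contra c
      refine hx.2 (Acc.intro x fun y hy => by_contra fun hy' => c ?_)
      have := mem_preds.1 hy
      exact ⟨y, hN y (hm _ _ this).1, ⟨(hm _ _ this).1, hy'⟩, this⟩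
  have hr : ∀ n, ∃ β < om1 N, β.toZFSet = f n := fun n => mem_toZFSet_iff.1 (k n).1.1
  obtain ⟨γ, hγ, hb⟩ := om1_bdd (N := N) ctbl_omega hf fun x hx => by
    obtain ⟨n, rfl⟩ := mem_omegaZ.1 hx
    obtain ⟨β, hβ, e⟩ := hr n
    rwa [app_sqN, enc_V, ← e, rank_toZFSet]
  have hg : ∀ n, f n ∈ γ.toZFSet := fun n => by
    have := hb _ (natZ_mem_omegaZ n)
    obtain ⟨β, hβ, e⟩ := hr n
    rw [app_sqN, enc_V, ← e, rank_toZFSet] at this
    rw [← e]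
    exact toZFSet_mem_toZFSet_iff.2 this
  obtain ⟨_, ⟨n, rfl⟩, hmin⟩ := WellFounded.has_min (h γ hγ) (Set.range f) ⟨_, 0, rfl⟩
  exact hmin _ ⟨n + 1, rfl⟩ (mem_inter.2 ⟨(k n).2, pair_mem_prod.2 ⟨hg _, hg _⟩⟩)
-- JOB B END

/-! ### clubs as sets of closure points -/
/-- `P` holds on a club of `N` in `w` -/
def Cub (N : Set V) (w : Ordinal.{0}) (P : Ordinal.{0} → Prop) : Prop :=
  ∃ f ∈ N, (∀ ξ < w, (app f ξ.toZFSet).rank < w) ∧
    ∀ ν < w, 0 < ν → (∀ ξ < ν, (app f ξ.toZFSet).rank < ν) → P ν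
/-- `P` is stationary in `w` for the clubs of `N` -/
def Stat (N : Set V) (w : Ordinal.{0}) (P : Ordinal.{0} → Prop) : Prop :=
  ¬ Cub N w (fun ν => ¬ P ν)

section inst
variable {D : Set V → (ℕ → V) → Set V} {o : Set V → (ℕ → V) → Ordinal.{0}}
  {P : Set V → (ℕ → V) → Ordinal.{0} → Prop}
theorem UD.liftO (P : Set V → (ℕ → V) → Ordinal.{0} → Prop)
    [h : UD F (fun M v => P M (tl v) (vr v 0).rank)] :
    ∀ (g : Set V → (ℕ → V) → (ℕ → V)) (b : Set V → (ℕ → V) → Ordinal.{0}) [UV F g] [UF F b],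
      UD F (fun M v => P M (g M v) (b M v)) := fun g b _ _ =>
  (UD.lift (fun M v => P M (tl v) (vr v 0).rank)
    (fun M v => cons (b M v).toZFSet (g M v))).congr fun _ _ _ _ => by simp
instance ud_cub [UC F D] [UF F o] [UD F (fun M v => P M (tl v) (vr v 0).rank)] :
    UD F (fun M v => Cub (D M v) (o M v) (P M v)) := by
  have := UF.lift (F := F) o; have := UD.liftO (F := F) P; unfold Cub; infer_instance
instance ud_stat [UC F D] [UF F o] [UD F (fun M v => P M (tl v) (vr v 0).rank)] :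
    UD F (fun M v => Stat (D M v) (o M v) (P M v)) := by
  unfold Stat; infer_instance
end inst

-- JOB C BEGIN
section cub
variable {N N' : Set V} {w : Ordinal.{0}} {P Q : Ordinal.{0} → Prop}
theorem Cub.mono (h : Cub N w P) (hPQ : ∀ ν < w, 0 < ν → P ν → Q ν) : Cub N w Q := by
  obtain ⟨f, hf, h1, h2⟩ := h
  exact ⟨f, hf, h1, fun ν hν h0 H => hPQ ν hν h0 (h2 ν hν h0 H)⟩
theorem Cub.mono_model (h : Cub N w P) (hs : N ⊆ N') : Cub N' w P := by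
  obtain ⟨f, hf, h1⟩ := h
  exact ⟨f, hs hf, h1⟩
theorem Stat.mono (h : Stat N w P) (hPQ : ∀ ν < w, 0 < ν → P ν → Q ν) : Stat N w Q :=
  fun k => h (k.mono fun ν hν h0 hq hp => hq (hPQ ν hν h0 hp))
theorem Stat.exists_and (h : Stat N w P) (h' : Cub N w Q) : ∃ ν < w, 0 < ν ∧ P ν ∧ Q ν := by
  by_contra k
  exact h (h'.mono fun ν hν h0 hq hp => k ⟨ν, hν, h0, hp, hq⟩)
/-- closure points of a definable function -/
theorem b0c_mk [IsZ N] (hw : w.toZFSet ∈ N) (g : Ordinal.{0} → Ordinal.{0})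
    [UF (loc N) (fun _ v => g (vr v 0).rank)] (h : ∀ ξ < w, g ξ < w) :
    Cub N w (fun ν => ∀ ξ < ν, g ξ < ν) := by
  haveI : In N w := ⟨hw⟩
  have e : ∀ ξ < w, (app (sq w g) ξ.toZFSet).rank = g ξ := fun ξ hξ => oat_sq g hξ
  refine ⟨sq w g, memV_of N _, fun ξ hξ => (e ξ hξ).trans_lt (h ξ hξ), fun ν hν _ H ξ hξ => ?_⟩
  rw [← e ξ (hξ.trans hν)]
  exact H ξ hξ
theorem Cub.and [IsZ N] (hw : w.toZFSet ∈ N) (h : Cub N w P) (h' : Cub N w Q) :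
    Cub N w (fun ν => P ν ∧ Q ν) := by
  obtain ⟨f, hf, h1, h2⟩ := h
  obtain ⟨f', hf', h1', h2'⟩ := h'
  haveI : In N f := ⟨hf⟩
  haveI : In N f' := ⟨hf'⟩
  exact (b0c_mk hw (fun ξ => max (app f ξ.toZFSet).rank (app f' ξ.toZFSet).rank)
    fun ξ hξ => max_lt (h1 ξ hξ) (h1' ξ hξ)).mono fun ν hν h0 H =>
      ⟨h2 ν hν h0 fun ξ hξ => (le_max_left _ _).trans_lt (H ξ hξ),
        h2' ν hν h0 fun ξ hξ => (le_max_right _ _).trans_lt (H ξ hξ)⟩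
theorem b0c_olst {R : Ordinal.{0} → Prop} (h : ∃ ζ < w, R ζ) : olst w R < w := by
  obtain ⟨ζ, hζ, k⟩ := h
  exact (olst_le_of hζ k).trans_lt hζ
theorem cub_of_rel [IsZ N] (hw : w.toZFSet ∈ N) (R : Ordinal.{0} → Ordinal.{0} → Prop)
    [UD (loc N) (fun _ v => R (vr (tl v) 0).rank (vr v 0).rank)] (h : ∀ ξ < w, ∃ ζ < w, R ξ ζ) :
    Cub N w (fun ν => ∀ ξ < ν, ∃ ζ < ν, R ξ ζ) := by
  haveI : In N w := ⟨hw⟩
  exact (b0c_mk hw (fun ξ => olst w (R ξ)) fun ξ hξ => b0c_olst (h ξ hξ)).mono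
    fun ν hν _ H ξ hξ => ⟨_, H ξ hξ, olst_spec (b0c_olst (h ξ (hξ.trans hν)))⟩
theorem cub_gt [IsZ N] (hw : w.toZFSet ∈ N) {β : Ordinal.{0}} (h : β < w) :
    Cub N w (fun ν => β < ν) := by
  haveI : In N β := ⟨IsZ.ord_mem_of_le N hw h.le⟩
  exact (b0c_mk hw (fun _ => β) fun _ _ => h).mono fun ν _ h0 H => H 0 h0
theorem cub_limit [IsZ N] (hw : w.toZFSet ∈ N) (h : Order.IsSuccLimit w) :
    Cub N w (fun ν => Order.IsSuccLimit ν) :=
  (b0c_mk hw (fun ξ => Order.succ ξ) fun _ hξ => h.succ_lt hξ).mono fun ν _ h0 H =>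
    Ordinal.isSuccLimit_iff.2 ⟨h0.ne', Order.isSuccPrelimit_of_succ_lt H⟩
variable [IsZFC N]
/-- countable definable suprema of countable ordinals are countable -/
theorem b0c_bdd {a : V} (ha : Ctbl N a) (c : V → Ordinal.{0})
    [UF (loc N) (fun _ v => c (vr v 0))] (hc : ∀ x ∈ a, c x < om1 N) : osup a c < om1 N := by
  obtain ⟨γ, hγ, H⟩ := z5c_ord (o := om1 N) (fun f hf hb => om1_bdd ha hf hb)
    (InjIn.mem_left ha) c hc
  exact (osup_le_iff.2 fun x hx => (H x hx).le).trans_lt hγ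
theorem Cub.exists (h : Cub N (om1 N) P) : ∃ ν < om1 N, 0 < ν ∧ P ν := by
  obtain ⟨f, hf, h1, h2⟩ := h
  haveI : In N f := ⟨hf⟩
  obtain ⟨u, hu, u0, us⟩ : ∃ u : ℕ → Ordinal.{0}, UF (loc N) (fun _ v => u (natOf (vr v 0))) ∧
      u 0 = 1 ∧ ∀ n, u (n + 1) = osup (u n).toZFSet fun y => (app f y).rank + 1 :=
    ⟨fun n => Nat.rec 1 (fun _ x => osup x.toZFSet fun y => (app f y).rank + 1) n,
      inferInstance, rfl, fun _ => rfl⟩
  have hlt : ∀ n, u n < om1 N := fun n => by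
    induction n with
    | zero => rw [u0]; exact one_lt_omega0.trans (omega_lt_om1 N)
    | succ n ih =>
      rw [us]
      refine b0c_bdd (lt_om1_iff.1 ih) _ fun x hx => ?_
      obtain ⟨ξ, hξ, rfl⟩ := mem_toZFSet_iff.1 hx
      exact (isSuccLimit_om1 N).add_one_lt (h1 ξ (hξ.trans ih))
  have hle : ∀ n, u n ≤ osup omegaZ fun x => u (natOf x) := fun n => by
    simpa using le_osup (fun x => u (natOf x)) (natZ_mem_omegaZ n)
  have hν := b0c_bdd (N := N) ctbl_omega (fun x => u (natOf x)) fun x _ => hlt _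
  have h0 : 0 < osup omegaZ fun x => u (natOf x) := zero_lt_one.trans_le (u0 ▸ hle 0)
  refine ⟨_, hν, h0, h2 _ hν h0 fun ξ hξ => ?_⟩
  obtain ⟨x, -, hx⟩ := lt_osup_iff.1 hξ
  refine lt_of_lt_of_le ?_ (hle (natOf x + 1))
  rw [us]
  exact (lt_add_one _).trans_le
    (le_osup (fun y => (app f y).rank + 1) (toZFSet_mem_toZFSet_iff.2 hx))
theorem cub_of_rel2 (R : Ordinal.{0} → Ordinal.{0} → Ordinal.{0} → Prop)
    [UD (loc N) (fun _ v => R (vr (tl (tl v)) 0).rank (vr (tl v) 0).rank (vr v 0).rank)]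
    (h : ∀ ξ < om1 N, ∀ ξ' < om1 N, ∃ ζ < om1 N, R ξ ξ' ζ) :
    Cub N (om1 N) (fun ν => ∀ ξ < ν, ∀ ξ' < ν, ∃ ζ < ν, R ξ ξ' ζ) := by
  have hL : ∀ (a b c : Set V → (ℕ → V) → Ordinal.{0}) [UF (loc N) a] [UF (loc N) b]
      [UF (loc N) c], UD (loc N) (fun M v => R (a M v) (b M v) (c M v)) := fun a b c _ _ _ =>
    (UD.lift (fun _ v => R (vr (tl (tl v)) 0).rank (vr (tl v) 0).rank (vr v 0).rank)
      (fun M v => cons (c M v).toZFSet (cons (b M v).toZFSet (cons (a M v).toZFSet v)))).congr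
      fun _ _ _ _ => by simp
  refine (b0c_mk (om1_mem N) (fun ξ => osup (prod (ξ + 1).toZFSet (ξ + 1).toZFSet)
    fun p => olst (om1 N) (R (fst p).rank (snd p).rank)) fun ξ hξ => ?_).mono
    fun ν hν _ H ξ hξ ξ' hξ' => ?_
  · have k := (isSuccLimit_om1 N).add_one_lt hξ
    refine b0c_bdd ((lt_om1_iff.1 k).prod (lt_om1_iff.1 k)) _ fun p hp => ?_
    obtain ⟨x, hx, y, hy, rfl⟩ := mem_prod.1 hp
    rw [fst_pair, snd_pair]
    exact b0c_olst (h _ ((z5c_mem hx).trans k) _ ((z5c_mem hy).trans k))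
  · refine ⟨_, lt_of_le_of_lt ?_ (H _ (max_lt hξ hξ')),
      olst_spec (b0c_olst (h ξ (hξ.trans hν) ξ' (hξ'.trans hν)))⟩
    simpa using le_osup (fun p => olst (om1 N) (R (fst p).rank (snd p).rank))
      (pair_mem_prod.2 ⟨toZFSet_mem_toZFSet_iff.2 (Order.lt_add_one_iff.2 (le_max_left ξ ξ')),
        toZFSet_mem_toZFSet_iff.2 (Order.lt_add_one_iff.2 (le_max_right ξ ξ'))⟩)
theorem cub_all_nat (R : ℕ → Ordinal.{0} → Prop)
    [UD (loc N) (fun _ v => R (natOf (vr (tl v) 0)) (vr v 0).rank)]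
    (h : ∀ n, Cub N (om1 N) (R n)) : Cub N (om1 N) (fun ν => ∀ n, R n ν) := by
  have hL : ∀ (a : Set V → (ℕ → V) → V) (b : Set V → (ℕ → V) → Ordinal.{0}) [UF (loc N) a]
      [UF (loc N) b], UD (loc N) (fun M v => R (natOf (a M v)) (b M v)) := fun a b _ _ =>
    (UD.lift (fun _ v => R (natOf (vr (tl v) 0)) (vr v 0).rank)
      (fun M v => cons (b M v).toZFSet (cons (a M v) v))).congr fun _ _ _ _ => by simp
  obtain ⟨G, hG, -, -, H⟩ := choice_fn N (fun x f => (∀ ξ < om1 N, (app f ξ.toZFSet).rank < om1 N) ∧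
    ∀ ν < om1 N, 0 < ν → (∀ ξ < ν, (app f ξ.toZFSet).rank < ν) → R (natOf x) ν)
    (IsZ.omega (M := N)) fun x _ => h (natOf x)
  haveI : In N G := ⟨hG⟩
  refine (b0c_mk (om1_mem N) (fun ξ => osup omegaZ fun x => (app (app G x) ξ.toZFSet).rank)
    fun ξ hξ => ?_).mono fun ν hν h0 K n => ?_
  · haveI : In N ξ := ⟨IsZ.ord_mem_of_le N (om1_mem N) hξ.le⟩
    exact b0c_bdd ctbl_omega _ fun x hx => (H x hx).1 ξ hξ
  · have k := (H _ (natZ_mem_omegaZ n)).2 ν hν h0 fun ξ hξ =>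
      (le_osup (fun x => (app (app G x) ξ.toZFSet).rank) (natZ_mem_omegaZ n)).trans_lt (K ξ hξ)
    rwa [natOf_natZ] at k
/-- a function that is normal from `z₀` on takes a value in every stationary set -/
theorem Stat.normal (hS : Stat N (om1 N) P) (g : Ordinal.{0} → Ordinal.{0})
    [UF (loc N) (fun _ v => g (vr v 0).rank)] {z₀ : Ordinal.{0}} (h0 : z₀ < om1 N)
    (hb : ∀ z < om1 N, g z < om1 N) (hs : ∀ z z', z₀ ≤ z → z < z' → z' < om1 N → g z < g z')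
    (hc : ∀ z < om1 N, z₀ < z → Order.IsSuccLimit z → ∀ o < g z, ∃ z' < z, o < g z') :
    ∃ z < om1 N, z₀ ≤ z ∧ P (g z) := by
  have hw := om1_mem N
  haveI : In N z₀ := ⟨IsZ.ord_mem_of_le N hw h0.le⟩
  have key : ∀ ξ, z₀ + ξ < om1 N → ξ ≤ g (z₀ + ξ) := fun ξ => by
    induction ξ using WellFoundedLT.induction with
    | ind ξ ih =>
      refine fun hξ => le_of_forall_lt fun η hη => ?_
      have k : z₀ + η < z₀ + ξ := by gcongr
      exact (ih η hη (k.trans hξ)).trans_lt (hs _ _ le_self_add k hξ)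
  obtain ⟨ν, hν, -, hP, ⟨h1, h2⟩, h3, h4⟩ := hS.exists_and
    (((cub_limit hw (isSuccLimit_om1 N)).and hw (cub_gt hw h0)).and hw
      ((b0c_mk hw g hb).and hw (b0c_mk hw (fun ξ => z₀ + ξ)
        fun ξ hξ => (om1_addClosed N h0 hξ).1)))
  have e : g ν = ν := by
    refine le_antisymm (le_of_forall_lt fun o ho => ?_) (le_of_forall_lt fun ξ hξ => ?_)
    · obtain ⟨z, hz, k⟩ := hc ν hν h2 h1 o ho
      exact k.trans (h3 z hz)
    · exact (key ξ ((h4 ξ hξ).trans hν)).trans_lt (hs _ _ le_self_add (h4 ξ hξ) hν)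
  exact ⟨ν, hν, h2.le, e.symm ▸ hP⟩
theorem b0c_sub (R A : V) : R ∩ prod A A ⊆ R := fun _ hp => (mem_inter.1 hp).1
/-- on a club, comparisons of ranks reflect to the restrictions -/
theorem b0c_sim {R R' : V} (hR : R ∈ N) (hR' : R' ∈ N) (h : WF R) (h' : WF R') :
    Cub N (om1 N) (fun ν => ∀ a ∈ ν.toZFSet, ∀ b ∈ ν.toZFSet,
      (rkR (R ∩ prod (om1 N).toZFSet (om1 N).toZFSet) a ≤
          rkR (R' ∩ prod (om1 N).toZFSet (om1 N).toZFSet) b →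
        rkR (R ∩ prod ν.toZFSet ν.toZFSet) a ≤ rkR (R' ∩ prod ν.toZFSet ν.toZFSet) b) ∧
      (rkR (R ∩ prod (om1 N).toZFSet (om1 N).toZFSet) a <
          rkR (R' ∩ prod (om1 N).toZFSet (om1 N).toZFSet) b →
        rkR (R ∩ prod ν.toZFSet ν.toZFSet) a < rkR (R' ∩ prod ν.toZFSet ν.toZFSet) b)) := by
  haveI : In N R := ⟨hR⟩
  haveI : In N R' := ⟨hR'⟩
  obtain ⟨S, hS⟩ : ∃ S, S = R ∩ prod (om1 N).toZFSet (om1 N).toZFSet := ⟨_, rfl⟩
  obtain ⟨S', hS'⟩ : ∃ S, S = R' ∩ prod (om1 N).toZFSet (om1 N).toZFSet := ⟨_, rfl⟩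
  haveI : In N S := ⟨hS ▸ memV_of N _⟩
  haveI : In N S' := ⟨hS' ▸ memV_of N _⟩
  have wS : WF S := hS ▸ h.subset (b0c_sub _ _)
  have wS' : WF S' := hS' ▸ h'.subset (b0c_sub _ _)
  rw [← hS, ← hS']
  refine (cub_of_rel2 (N := N) (fun ξ ξ' ζ => rkR S ξ.toZFSet < rkR S' ξ'.toZFSet →
    pair ζ.toZFSet ξ'.toZFSet ∈ S' ∧ rkR S ξ.toZFSet ≤ rkR S' ζ.toZFSet)
    fun ξ _ ξ' _ => ?_).mono fun ν hν _ H => ?_
  · by_cases k : rkR S ξ.toZFSet < rkR S' ξ'.toZFSet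
    · have k1 := mt (rkR_le_iff (wS'.accP ξ'.toZFSet)).2 k.not_ge
      simp only [not_forall, not_lt] at k1
      obtain ⟨y, hy, k2⟩ := k1
      obtain ⟨ζ, hζ, rfl⟩ := mem_toZFSet_iff.1 (pair_mem_prod.1 (mem_inter.1 (hS' ▸ hy)).2).1
      exact ⟨ζ, hζ, fun _ => ⟨hy, k2⟩⟩
    · exact ⟨0, (isSuccLimit_om1 N).pos, fun k1 => absurd k1 k⟩
  · have H' : ∀ a ∈ ν.toZFSet, ∀ b ∈ ν.toZFSet, rkR S a < rkR S' b →
        ∃ c, pair c b ∈ R' ∩ prod ν.toZFSet ν.toZFSet ∧ c ∈ ν.toZFSet ∧ rkR S a ≤ rkR S' c := by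
      intro a ha b hb k
      obtain ⟨ξ, hξ, rfl⟩ := mem_toZFSet_iff.1 ha
      obtain ⟨ξ', hξ', rfl⟩ := mem_toZFSet_iff.1 hb
      obtain ⟨ζ, hζ, k1⟩ := H ξ hξ ξ' hξ'
      have hc := toZFSet_mem_toZFSet_iff.2 hζ
      exact ⟨_, mem_inter.2 ⟨(mem_inter.1 (hS' ▸ (k1 k).1)).1, pair_mem_prod.2 ⟨hc, hb⟩⟩, hc,
        (k1 k).2⟩
    have w1 := h.subset (b0c_sub R ν.toZFSet)
    have w2 := h'.subset (b0c_sub R' ν.toZFSet)
    have sim : ∀ a ∈ ν.toZFSet, ∀ b ∈ ν.toZFSet, rkR S a ≤ rkR S' b →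
        rkR (R ∩ prod ν.toZFSet ν.toZFSet) a ≤ rkR (R' ∩ prod ν.toZFSet ν.toZFSet) b :=
      fun a ha b hb k => rkR_sim w1 w2
        (fun a b => a ∈ ν.toZFSet ∧ b ∈ ν.toZFSet ∧ rkR S a ≤ rkR S' b)
        (fun a b ⟨ha, hb, k⟩ a' ha' => by
          obtain ⟨k1, k2⟩ := mem_inter.1 ha'
          have k3 := (pair_mem_prod.1 k2).1
          have k4 : pair a' a ∈ S := hS ▸ mem_inter.2 ⟨k1, pair_mem_prod.2
            ⟨toZFSet_monotone hν.le k3, toZFSet_monotone hν.le ha⟩⟩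
          obtain ⟨c, c1, c2, c3⟩ := H' a' k3 b hb ((rkR_lt (wS.accP a) k4).trans_le k)
          exact ⟨c, c1, k3, c2, c3⟩) ⟨ha, hb, k⟩
    refine fun a ha b hb => ⟨sim a ha b hb, fun k => ?_⟩
    obtain ⟨c, c1, c2, c3⟩ := H' a ha b hb k
    exact (sim a ha c c2 c3).trans_lt (rkR_lt (w2.accP b) c1)
/-- canonical functions: comparison of heights on a club -/
theorem hgt_le_cub {R R' : V} (hR : R ∈ N) (hR' : R' ∈ N) (h : WF R) (h' : WF R')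
    (hle : hgt R (om1 N).toZFSet ≤ hgt R' (om1 N).toZFSet) :
    Cub N (om1 N) (fun ν => hgt R ν.toZFSet ≤ hgt R' ν.toZFSet) := by
  haveI : In N R := ⟨hR⟩
  haveI : In N R' := ⟨hR'⟩
  refine ((b0c_sim hR hR' h h').and (om1_mem N) (cub_of_rel (om1_mem N) (fun ξ ζ =>
    rkR (R ∩ prod (om1 N).toZFSet (om1 N).toZFSet) ξ.toZFSet ≤
      rkR (R' ∩ prod (om1 N).toZFSet (om1 N).toZFSet) ζ.toZFSet) fun ξ hξ => ?_)).mono
    fun ν _ _ ⟨H1, H2⟩ => le_of_forall_lt fun o ho => ?_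
  · obtain ⟨b, hb, k⟩ := lt_hgt_iff.1
      ((lt_hgt_iff.2 ⟨_, toZFSet_mem_toZFSet_iff.2 hξ, le_rfl⟩).trans_le hle)
    obtain ⟨ζ, hζ, rfl⟩ := mem_toZFSet_iff.1 hb
    exact ⟨ζ, hζ, k⟩
  · obtain ⟨a, ha, k⟩ := lt_hgt_iff.1 ho
    obtain ⟨ξ, hξ, rfl⟩ := mem_toZFSet_iff.1 ha
    obtain ⟨ζ, hζ, k1⟩ := H2 ξ hξ
    have hb := toZFSet_mem_toZFSet_iff.2 hζ
    exact lt_hgt_iff.2 ⟨_, hb, k.trans ((H1 _ ha _ hb).1 k1)⟩
theorem hgt_lt_cub {R R' : V} (hR : R ∈ N) (hR' : R' ∈ N) (h : WF R) (h' : WF R')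
    (hlt : hgt R (om1 N).toZFSet < hgt R' (om1 N).toZFSet) :
    Cub N (om1 N) (fun ν => hgt R ν.toZFSet < hgt R' ν.toZFSet) := by
  obtain ⟨b, hb, k⟩ := lt_hgt_iff.1 hlt
  obtain ⟨β, hβ, rfl⟩ := mem_toZFSet_iff.1 hb
  refine ((b0c_sim hR hR' h h').and (om1_mem N) (cub_gt (om1_mem N) hβ)).mono
    fun ν hν _ ⟨H1, H2⟩ => ?_
  have hb' := toZFSet_mem_toZFSet_iff.2 H2
  refine lt_hgt_iff.2 ⟨_, hb', le_of_forall_lt fun o ho => ?_⟩
  obtain ⟨a, ha, k1⟩ := lt_hgt_iff.1 ho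
  exact k1.trans_lt ((H1 a ha _ hb').2
    ((lt_hgt_iff.2 ⟨a, toZFSet_monotone hν.le ha, le_rfl⟩).trans_le k))
end cub
-- JOB C END

end Pool.Agent.Lib.MP_f9eb18_lc.W
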