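import Pool.Agent.Lib.MP_f9eb18_lc.W.B0

/-! # Coding forcing: measures, sites, master models -/

namespace Pool.Agent.Lib.MP_f9eb18_lc.W

open Ordinal ZFSet
set_option linter.style.haveILetI false
set_option linter.unusedVariables false
set_option synthInstance.maxSize 100000

variable {F : Fr}

/-- `W` is a `κ`-complete measure (for partitions in `N`) on a set `⋃ W ⊆ V_κ` that concentrates on
large ranks; `κ` is a von Neumann ordinal -/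
def Ms (N : Set V) (κ W : V) : Prop :=
  κ.IsOrdinal ∧ omegaZ ∈ κ ∧ (∀ β ∈ κ, insert β β ∈ κ) ∧ (∀ u ∈ (⋃₀ W : V), u.rank.toZFSet ∈ κ) ∧
  (∀ A ∈ W, ∀ B ∈ W, ∃ u ∈ A, u ∈ B) ∧ (∀ β ∈ κ, ∃ A ∈ W, ∀ u ∈ A, β ∈ u.rank.toZFSet) ∧
  ∀ β ∈ κ, ∀ f ∈ N, (∀ u ∈ (⋃₀ W : V), app f u ∈ β) →
    ∃ γ ∈ β, ZFSet.sep (fun u => app f u = γ) (⋃₀ W) ∈ W
instance ud_ms {D : Set V → (ℕ → V) → Set V} {a b : Set V → (ℕ → V) → V} [UC F D] [UF F a]
    [UF F b] : UD F (fun M v => Ms (D M v) (a M v) (b M v)) := by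
  have := UF.lift (F := F) a; have := UF.lift (F := F) b; have := UC.lift (F := F) D
  unfold Ms; infer_instance

/-- `𝒲` assigns measures to a discrete cofinal set of ordinals between `ω₁` and `l` -/
structure Sites (N : Set V) (l : Ordinal.{0}) (𝒲 : V) : Prop where
  mem : 𝒲 ∈ N
  ms : ∀ κ ∈ dom 𝒲, Ms N κ (app 𝒲 κ)
  lt : ∀ κ ∈ dom 𝒲, κ ∈ l.toZFSet
  om : ∀ κ ∈ dom 𝒲, (om1 N).toZFSet ∈ κ
  disc : ∀ κ ∈ dom 𝒲, ∃ β ∈ κ, ∀ κ' ∈ dom 𝒲, κ' ∈ κ → κ' ∈ β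
  cof : ∀ β < l, ∃ κ ∈ dom 𝒲, β.toZFSet ∈ κ

-- JOB A BEGIN
theorem b1a_dom {N : Set V} {E X : V} (h : IsExt E) (hZ : extZ E = Vs N (len E)) (hX : X ∈ N)
    (hs : X ⊆ extK E) : X ∈ dom E :=
  h.mem_dom.2 ⟨hZ ▸ mem_Vs.2 ⟨hX, (rank_mono hs).trans_lt h.crit_lt_len⟩, hs⟩
theorem b1a_ne {E A : V} (h : IsExt E) (hA : extK E ∈ app E A) : ∃ u, u ∈ A := by
  by_contra hc
  have e : A = ∅ := (ZFSet.eq_empty A).2 fun y hy => hc ⟨y, hy⟩
  rw [e, h.app_empty] at hA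
  exact notMem_empty _ hA
/-- products with a singleton -/
theorem b1a_prod {E A b : V} (h : IsExt E) (hA : A ∈ dom E) (hb : b ∈ extK E) :
    prod A {b} ∈ dom E ∧ ∀ a, pair a b ∈ app E (prod A {b}) ↔ a ∈ app E A := by
  have h1 : ({b} : V) ∈ extK E := by
    have h2 := h.pairK b hb b hb
    rwa [pair_eq_singleton] at h2
  have h3 : ({b} : V) ∈ dom E := h.mem_dom.2 ⟨(h.mem_K.1 h1).1, h.K_trans _ h1⟩
  obtain ⟨k1, k2⟩ := h.prod A hA _ h3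
  refine ⟨k1, fun a => ?_⟩
  rw [k2, h.fix _ h1, pair_mem_prod, mem_singleton]
  exact and_iff_left rfl
/-- the partition property of the normal measure of an extender -/
theorem b1a_part {N : Set V} [IsZ N] {E β f : V} (h : IsExt E) (hZ : extZ E = Vs N (len E))
    (hβ : β ∈ extK E) (hf : f ∈ N) (hfβ : ∀ u ∈ extK E, app f u ∈ β) :
    ∃ γ ∈ β, ZFSet.sep (fun u => app f u = γ) (extK E) ∈ dom E ∧
      extK E ∈ app E (ZFSet.sep (fun u => app f u = γ) (extK E)) := by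
  have hN : ∀ x ∈ extZ E, x ∈ N := fun x hx => (mem_Vs.1 (hZ ▸ hx)).1
  haveI : In N (extK E) := ⟨hN _ h.memK⟩
  haveI : In N f := ⟨hf⟩
  have h1 : ∀ u ∈ extK E, app f u ∈ extK E := fun u hu => h.K_trans _ hβ (hfβ u hu)
  have h2 : lam (extK E) (fun u => app f u) ∈ dom E := b1a_dom h hZ (memV_of N _) fun p hp => by
    obtain ⟨u, hu, rfl⟩ := mem_lam.1 hp
    exact eb_pK h hu (h1 u hu)
  have h3 : rkRel (extK E) (lam (extK E) fun u => app f u) ∈ dom E :=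
    b1a_dom h hZ (memV_of N _) fun p hp => by
      obtain ⟨u, hu, y, hy, rfl, -⟩ := mem_rel.1 hp
      exact eb_pK h hu hy
  obtain ⟨h4, h5⟩ := b1a_prod h h.K_mem_dom hβ
  obtain ⟨b, hb, h6, h7⟩ := h.norm _ h2 (isFunc_lam h1) _ h.memK β (h.mem_K.1 hβ).1
    (h.mono h4 h3 (fun p hp => by
      obtain ⟨u, hu, y, hy, rfl⟩ := mem_prod.1 hp
      rw [mem_singleton.1 hy]
      refine pair_mem_rel.2 ⟨hu, hβ, ?_⟩
      rw [app_lam _ hu]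
      exact rank_lt_of_mem (hfβ u hu)) ((h5 _).2 h.memK))
  have hbK : b ∈ extK E := h.mem_K.2 ⟨hb, h7.trans (h.mem_K.1 hβ).2⟩
  haveI : In N b := ⟨hN _ hb⟩
  have h8 : ZFSet.sep (fun u => app f u = b) (extK E) ∈ dom E :=
    b1a_dom h hZ (memV_of N _) sep_subset
  obtain ⟨h9, h10⟩ := b1a_prod h h.K_mem_dom hbK
  obtain ⟨h11, h12⟩ := b1a_prod h h8 hbK
  have h13 := (h12 _).1 (eb_imp h h2 h9 h11 h6 ((h10 _).2 h.memK) fun p hp hq => by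
    obtain ⟨u, hu, rfl⟩ := mem_lam.1 hp
    have h14 := (pair_mem_prod.1 hq).2
    exact pair_mem_prod.2 ⟨mem_sep.2 ⟨hu, mem_singleton.1 h14⟩, h14⟩)
  obtain ⟨u, hu⟩ := b1a_ne h h13
  exact ⟨b, (mem_sep.1 hu).2 ▸ hfβ u (mem_sep.1 hu).1, h8, h13⟩
theorem ms_of_meas {N : Set V} [IsZFC N] {κ : Ordinal.{0}} (h : Meas N κ) :
    ∃ W ∈ N, Ms N κ.toZFSet W := by
  obtain ⟨E, hE, h, hZ, rfl⟩ := h
  have hN : ∀ x ∈ extZ E, x ∈ N := fun x hx => (mem_Vs.1 (hZ ▸ hx)).1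
  haveI : In N E := ⟨hE⟩
  have hU : (⋃₀ ZFSet.sep (fun A => extK E ∈ app E A) (dom E) : V) = extK E := by
    ext u
    rw [mem_sUnion]
    exact ⟨fun ⟨A, hA, hu⟩ => (h.mem_dom.1 (mem_sep.1 hA).1).2 hu,
      fun hu => ⟨_, mem_sep.2 ⟨h.K_mem_dom, h.memK⟩, hu⟩⟩
  have hO : ∀ b < crit E, b.toZFSet ∈ extK E := fun b hb =>
    (ee_mem_K h hZ (IsZ.ord_mem_of_le N (IsZ.rank_mem N (hN _ h.memK)) hb.le)
      (by rwa [rank_toZFSet])).1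
  refine ⟨ZFSet.sep (fun A => extK E ∈ app E A) (dom E), memV_of N _, isOrdinal_toZFSet _,
    toZFSet_mem_toZFSet_iff.2 h.omega_lt_crit, fun β hβ => ?_, fun u hu => ?_,
    fun A hA B hB => ?_, fun β hβ => ?_, fun β hβ f hf hfβ => ?_⟩
  · obtain ⟨b, hb, rfl⟩ := mem_toZFSet_iff.1 hβ
    rw [← toZFSet_add_one]
    exact toZFSet_mem_toZFSet_iff.2 (h.crit_limit.add_one_lt hb)
  · rw [hU] at hu
    exact toZFSet_mem_toZFSet_iff.2 (h.mem_K.1 hu).2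
  · obtain ⟨a1, a2⟩ := mem_sep.1 hA
    obtain ⟨b1, b2⟩ := mem_sep.1 hB
    obtain ⟨u, hu⟩ := b1a_ne (A := A ∩ B) h (by
      rw [(h.inter a1 b1).2]
      exact mem_inter.2 ⟨a2, b2⟩)
    exact ⟨u, mem_inter.1 hu⟩
  · obtain ⟨b, hb, rfl⟩ := mem_toZFSet_iff.1 hβ
    have h1 := h.crit_limit.succ_lt hb
    haveI : In N (Order.succ b) :=
      ⟨IsZ.ord_mem_of_le N (IsZ.rank_mem N (hN _ h.memK)) h1.le⟩
    obtain ⟨k1, k2⟩ := ee_mem_K h hZ (memV_of N (cut (extK E) (Order.succ b)))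
      ((ee_rank_cut _ _).trans_lt h1)
    obtain ⟨k3, k4⟩ := h.diff _ h.K_mem_dom _ k2
    refine ⟨_, mem_sep.2 ⟨k3, ?_⟩, fun u hu => ?_⟩
    · rw [k4, h.fix _ k1]
      exact mem_sdiff.2 ⟨h.memK, fun k => mem_irrefl _ (mem_cut.1 k).1⟩
    · obtain ⟨u1, u2⟩ := mem_sdiff.1 hu
      exact toZFSet_mem_toZFSet_iff.2
        (Order.succ_le_iff.1 (not_lt.1 fun k => u2 (mem_cut.2 ⟨u1, k⟩)))
  · rw [hU] at hfβ ⊢
    obtain ⟨b, hb, rfl⟩ := mem_toZFSet_iff.1 hβ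
    obtain ⟨γ, h1, h2⟩ := b1a_part h hZ (hO b hb) hf hfβ
    exact ⟨γ, h1, mem_sep.2 h2⟩
/-- `κ` is above `ω₁` and carries a measure -/
def b1a_P (N : Set V) (κ : V) : Prop := (om1 N).toZFSet ∈ κ ∧ ∃ W ∈ N, Ms N κ W
theorem exists_sites {N : Set V} [IsZFC N] {l : Ordinal.{0}} (hl : Inac N l)
    (h : ∀ β < l, ∃ κ < l, β < κ ∧ Meas N κ) : ∃ 𝒲, Sites N l 𝒲 := by
  haveI : In N (om1 N) := ⟨IsZ.ord_mem_of_le N hl.2.1 hl.om1_lt.le⟩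
  have hP : ∀ (a : Set V → (ℕ → V) → V) [UF (loc N) a],
      UD (loc N) (fun M v => b1a_P N (a M v)) := fun a _ => by
    have := UF.lift (F := loc N) a
    unfold b1a_P; infer_instance
  have hS := sep_mem N (fun κ => b1a_P N κ ∧ ∃ β ∈ κ, ∀ κ' ∈ κ, b1a_P N κ' → κ' ∈ β) hl.2.1
  obtain ⟨f, hf, -, h2, h3⟩ := choice_fn N (fun κ W => Ms N κ W) hS
    fun κ hκ => (mem_sep.1 hκ).2.1.2
  refine ⟨f, hf, fun κ hκ => h3 κ (h2 ▸ hκ), fun κ hκ => ?_, fun κ hκ => ?_, fun κ hκ => ?_,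
    fun β hβ => ?_⟩
  · rw [h2] at hκ
    exact (mem_sep.1 hκ).1
  · rw [h2] at hκ
    exact (mem_sep.1 hκ).2.1.1
  · rw [h2] at hκ ⊢
    obtain ⟨β, h4, h5⟩ := (mem_sep.1 hκ).2.2
    exact ⟨β, h4, fun κ' h6 h7 => h5 κ' h7 (mem_sep.1 h6).2.1⟩
  · rw [h2]
    have h4 : ∃ κ : Ordinal.{0}, κ < l ∧ max β (om1 N) < κ ∧ b1a_P N κ.toZFSet := by
      obtain ⟨κ, h5, h6, h7⟩ := h _ (max_lt hβ hl.om1_lt)
      exact ⟨κ, h5, h6, toZFSet_mem_toZFSet_iff.2 ((le_max_right _ _).trans_lt h6), ms_of_meas h7⟩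
    obtain ⟨κ, ⟨h5, h6, h7⟩, h8⟩ := WellFounded.has_min wellFounded_lt
      {κ : Ordinal.{0} | κ < l ∧ max β (om1 N) < κ ∧ b1a_P N κ.toZFSet} h4
    obtain ⟨W, -, hW⟩ := h7.2
    refine ⟨κ.toZFSet, mem_sep.2 ⟨toZFSet_mem_toZFSet_iff.2 h5, h7, _,
      hW.2.2.1 _ (toZFSet_mem_toZFSet_iff.2 h6), fun κ' h9 h10 => ?_⟩,
      toZFSet_mem_toZFSet_iff.2 ((le_max_left _ _).trans_lt h6)⟩
    obtain ⟨k, hk, rfl⟩ := mem_toZFSet_iff.1 h9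
    rw [← toZFSet_add_one]
    exact toZFSet_mem_toZFSet_iff.2 (Order.lt_add_one_iff.2
      (not_lt.1 fun h11 => h8 k ⟨hk.trans h5, h11, h10⟩ hk))
/-- countable completeness -/
theorem Ms.exists_mem {N : Set V} [IsZ N] {κ W X : V} (h : Ms N κ W) (hW : W ∈ N)
    (hX : Ctbl N X) : ∃ η ∈ (⋃₀ W : V), ∀ A ∈ W, A ∈ X → η ∈ A := by
  obtain ⟨-, h1, -, -, h2, h3, h4⟩ := h
  by_cases hne : (W ∩ X).Nonempty
  · haveI : In N W := ⟨hW⟩
    haveI : In N X := ⟨InjIn.mem_left hX⟩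
    obtain ⟨f, hf, k1, k2⟩ := (hX.of_subset (memV_of N (W ∩ X))
      fun x hx => (mem_inter.1 hx).2).exists_enum hne
    haveI : In N (sqN f) := ⟨hf⟩
    obtain ⟨γ, hγ, hB⟩ := h4 _ h1 (lam (⋃₀ W) fun u =>
      natZ (sInf {k : ℕ | u ∉ app (sqN f) (natZ k)})) (memV_of N _) fun u hu => by
        rw [app_lam _ hu]
        exact natZ_mem_omegaZ _
    obtain ⟨m, rfl⟩ := mem_omegaZ.1 hγ
    obtain ⟨u, hu, hm⟩ := h2 _ hB _ (mem_inter.1 (k1 m)).1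
    obtain ⟨u1, u2⟩ := mem_sep.1 hu
    rw [app_lam _ u1, natZ_inj] at u2
    refine ⟨u, u1, fun A hA hAX => ?_⟩
    obtain ⟨n, rfl⟩ := k2 A (mem_inter.2 ⟨hA, hAX⟩)
    by_contra hn
    have h5 := Nat.sInf_mem (s := {k : ℕ | u ∉ app (sqN f) (natZ k)})
      ⟨n, by rw [Set.mem_ofPred_eq, app_sqN]; exact hn⟩
    rw [u2, Set.mem_ofPred_eq, app_sqN] at h5
    exact h5 hm
  · obtain ⟨A, hA, -⟩ := h3 _ h1
    obtain ⟨u, hu, -⟩ := h2 A hA A hA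
    exact ⟨u, mem_sUnion.2 ⟨A, hA, hu⟩, fun B hB hBX =>
      absurd ((nonempty_def _).2 ⟨B, mem_inter.2 ⟨hB, hBX⟩⟩) hne⟩
-- JOB A END

-- JOB B BEGIN
theorem b1b_list {H X I η : V} [IsZ (H : Set V)] (he : ElemSub X H) (hI : I ∈ X) (hη : η ∈ I)
    (l : List V) (hl : ∀ x ∈ l, x ∈ img (fun f => app f η) X) :
    ∃ Fl ∈ X, app Fl η = listZ l := by
  induction l with
  | nil =>
    exact ⟨lam I (fun _ => ∅), he.tm1 (fun a => lam a (fun _ => ∅)) hI, app_lam _ hη⟩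
  | cons x l ih =>
    obtain ⟨Fl, h1, h2⟩ := ih fun y hy => hl y (List.mem_cons_of_mem _ hy)
    obtain ⟨f, hf, rfl⟩ := mem_img.1 (hl x List.mem_cons_self)
    refine ⟨lam I (fun u => pair (app f u) (app Fl u)),
      he.tm3 (fun a b c => lam a (fun u => pair (app b u) (app c u))) hI hf h1, ?_⟩
    rw [app_lam _ hη, h2]; rfl

theorem b1b_elem {H X I η : V} [IsT (H : Set V)] (he : ElemSub X H) (hI : I ∈ X) (hη : η ∈ I) :
    ElemSub (img (fun f => app f η) X) H := by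
  have hIH : I ∈ (H : Set V) := he.subset hI
  refine elemSub_of_tvL (fun y hy => ?_) ?_ fun φ l hl hex => ?_
  · obtain ⟨f, hf, rfl⟩ := mem_img.1 hy
    exact IsZ.app_mem (M := (H : Set V)) (he.subset hf) η
  · exact mem_img.2 ⟨_, he.tm1 (fun a => lam a (fun _ => ∅)) hI, app_lam _ hη⟩
  obtain ⟨Fl, h1, h2⟩ := b1b_list he hI hη l hl
  haveI : In (H : Set V) Fl := ⟨he.subset h1⟩
  obtain ⟨g, hg, -, -, hg'⟩ := choice_fn (H : Set V)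
    (fun u y => (∃ z ∈ (H : Set V), Sat1 (H : Set V) φ (cons z (env (dec (app Fl u))))) →
      Sat1 (H : Set V) φ (cons y (env (dec (app Fl u))))) hIH fun u _ => by
      by_cases k : ∃ z ∈ (H : Set V), Sat1 (H : Set V) φ (cons z (env (dec (app Fl u))))
      · obtain ⟨z, hz, k⟩ := k
        exact ⟨z, hz, fun _ => k⟩
      · exact ⟨∅, IsZ.empty_mem _, fun k' => absurd k' k⟩
  obtain ⟨g, hg, hg'⟩ := he.ex_mem pZ (fun M v => ∀ u ∈ vr v 1,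
    (∃ z ∈ M, Sat1 M φ (cons z (env (dec (app (vr v 2) u))))) →
      Sat1 M φ (cons (app (vr v 0) u) (env (dec (app (vr v 2) u))))) (v := cons I fun _ => Fl)
    (cons_mem hI fun _ => h1) ⟨g, hg, hg'⟩
  refine ⟨app g η, mem_img.2 ⟨g, hg, rfl⟩, ?_⟩
  have e : (dec (app Fl η) : List V) = l := by rw [h2]; exact dec_enc l
  have k : (∃ z ∈ (H : Set V), Sat1 (H : Set V) φ (cons z (env (dec (app Fl η))))) →
      Sat1 (H : Set V) φ (cons (app g η) (env (dec (app Fl η)))) := hg' η hη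
  rw [e] at k
  simp only [env_cons] at hex ⊢
  exact k hex

/-- one step end-extension `X[η]` -/
theorem Ms.step {N : Set V} [IsZFC N] {H X κ W : V} (hH : H ∈ N) [IsT (H : Set V)]
    (h : Ms N κ W) (hX : Ctbl N X) (he : ElemSub X H) (hκ : κ ∈ X) (hW : W ∈ X) :
    ∃ X', Ctbl N X' ∧ ElemSub X' H ∧ X ⊆ X' ∧ EndX (X ∩ κ) (X' ∩ κ) ∧
      ∃ η ∈ X' ∩ κ, η ∉ X := by
  have hXN : ∀ x ∈ X, x ∈ N := fun x hx => IsZ.trans _ hH _ (he.subset hx)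
  have tr : ∀ x ∈ X, ∀ y ∈ x, y ∈ H := fun x hx y hy =>
    IsZ.trans (M := (H : Set V)) _ (he.subset hx) _ hy
  obtain ⟨η, hη, hA⟩ := h.exists_mem (hXN _ hW) hX
  have hI : (⋃₀ W : V) ∈ X := he.tm1 (fun a => (⋃₀ a : V)) hW
  haveI : In N η := ⟨IsZ.trans _ (hXN _ hI) _ hη⟩
  haveI : In N X := ⟨InjIn.mem_left hX⟩
  have hsub : X ⊆ img (fun f => app f η) X := fun x hx =>
    mem_img.2 ⟨_, he.tm2 (fun a b => lam a (fun _ => b)) hI hx, app_lam _ hη⟩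
  obtain ⟨-, -, hsucc, hrk, -, hbig, hpart⟩ := h
  refine ⟨img (fun f => app f η) X, z5b_img hX (fun f => app f η) (memV_of N _)
    (fun y hy => mem_img.1 hy), b1b_elem he hI hη, hsub,
    ⟨fun x hx => mem_inter.2 ⟨hsub (mem_inter.1 hx).1, (mem_inter.1 hx).2⟩,
      fun β hβ γ hγ hγβ => mem_inter.2 ⟨?_, (mem_inter.1 hγ).2⟩⟩,
    η.rank.toZFSet, mem_inter.2 ⟨mem_img.2 ⟨_, he.tm1 (fun a => lam a (fun u => u.rank.toZFSet)) hI,
      app_lam _ hη⟩, hrk η hη⟩, fun hx => ?_⟩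
  · classical
    obtain ⟨hβX, hβκ⟩ := mem_inter.1 hβ
    obtain ⟨f, hf, rfl⟩ := mem_img.1 (mem_inter.1 hγ).1
    have hf' : lam (⋃₀ W) (fun u => if app f u ∈ β then app f u else β) ∈ X :=
      he.tm3 (fun a b c => lam a (fun u => if app b u ∈ c then app b u else c)) hI hf hβX
    have hv : app (lam (⋃₀ W) (fun u => if app f u ∈ β then app f u else β)) η = app f η := by
      rw [app_lam _ hη, if_pos hγβ]
    obtain ⟨δ, hδ, hδW⟩ := hpart _ (hsucc β hβκ) _ (hXN _ hf') fun u hu => by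
      rw [app_lam _ hu]
      split_ifs with k
      · exact mem_insert_of_mem _ k
      · exact mem_insert _ _
    generalize lam (⋃₀ W) (fun u => if app f u ∈ β then app f u else β) = f' at hf' hv hδW
    have hδH : δ ∈ H := by
      rcases mem_insert_iff.1 hδ with rfl | k
      · exact he.subset hβX
      · exact tr _ hβX _ k
    obtain ⟨δ, hδ, hδW⟩ := he.ex2
      (fun y a b => ZFSet.sep (fun u => app a u = y) (⋃₀ b) ∈ b) hf' hW ⟨δ, hδH, hδW⟩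
    have k := hA _ hδW (he.tm3 (fun y a b => ZFSet.sep (fun u => app a u = y) (⋃₀ b)) hδ hf' hW)
    rw [← hv, (mem_sep.1 k).2]; exact hδ
  · obtain ⟨A, hAW, hA'⟩ := hbig _ (hrk η hη)
    obtain ⟨A, hAX, hAW, hA'⟩ := he.ex2
      (fun y a b => y ∈ a ∧ ∀ u ∈ y, b ∈ u.rank.toZFSet) hW hx ⟨A, tr _ hW _ hAW, hAW, hA'⟩
    exact mem_irrefl _ (hA' η (hA A hAW hAX))
-- JOB B END

-- JOB C BEGIN
/-- a site of `Y` at which the order type is wrong -/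
def b1c_Bad (W T Y κ : V) : Prop := κ ∈ dom W ∧ κ ∈ Y ∧ (ot (Y ∩ κ)).toZFSet ∉ app T κ
/-- the least bad site -/
def b1c_LB (W T Y κ : V) : Prop := b1c_Bad W T Y κ ∧ ∀ κ' ∈ κ, ¬ b1c_Bad W T Y κ'
/-- the union of the chain -/
noncomputable def b1c_Y (X s d : V) : V := X ∪ bU d (fun b => app s b)
/-- one step of the chain -/
def b1c_P (N : Set V) (H W T Y y : V) : Prop :=
  Ctbl N y ∧ ElemSub y H ∧ Y ⊆ y ∧ ∃ κ ∈ Y, b1c_LB W T Y κ ∧ EndX (Y ∩ κ) (y ∩ κ) ∧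
    ∃ η ∈ y ∩ κ, η ∉ Y

section b1c
variable {a b c d e : Set V → (ℕ → V) → V} {D : Set V → (ℕ → V) → Set V}
instance b1c_ud_bad [UF F a] [UF F b] [UF F c] [UF F d] :
    UD F (fun M v => b1c_Bad (a M v) (b M v) (c M v) (d M v)) := by
  unfold b1c_Bad; infer_instance
instance b1c_ud_lb [UF F a] [UF F b] [UF F c] [UF F d] :
    UD F (fun M v => b1c_LB (a M v) (b M v) (c M v) (d M v)) := by
  have := UF.lift (F := F) a; have := UF.lift (F := F) b; have := UF.lift (F := F) c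
  unfold b1c_LB; infer_instance
instance b1c_uf_Y [UF F a] [UF F b] [UF F c] :
    UF F (fun M v => b1c_Y (a M v) (b M v) (c M v)) := by
  have := UF.lift (F := F) b; unfold b1c_Y; infer_instance
instance b1c_ud_end [UF F a] [UF F b] : UD F (fun M v => EndX (a M v) (b M v)) := by
  have := UF.lift (F := F) a; have := UF.lift (F := F) b; unfold EndX; infer_instance
instance b1c_ud_P [UC F D] [UF F a] [UF F b] [UF F c] [UF F d] [UF F e] :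
    UD F (fun M v => b1c_P (D M v) (a M v) (b M v) (c M v) (d M v) (e M v)) := by
  have := UF.lift (F := F) b; have := UF.lift (F := F) c; have := UF.lift (F := F) d
  have := UF.lift (F := F) e
  unfold b1c_P; infer_instance
end b1c

theorem b1c_mem {X s x : V} {z : Ordinal.{0}} :
    x ∈ b1c_Y X s z.toZFSet ↔ x ∈ X ∨ ∃ β < z, x ∈ app s β.toZFSet := by
  rw [b1c_Y, ZFSet.mem_union, mem_bU]
  refine or_congr_right ⟨fun ⟨b, hb, h⟩ => ?_, fun ⟨β, hβ, h⟩ =>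
    ⟨_, toZFSet_mem_toZFSet_iff.2 hβ, h⟩⟩
  obtain ⟨β, hβ, rfl⟩ := mem_toZFSet_iff.1 hb
  exact ⟨β, hβ, h⟩

theorem b1c_restr {X s : V} {α z : Ordinal.{0}} (h : dom s = α.toZFSet) (hz : z ≤ α) :
    b1c_Y X (restr s z.toZFSet) (dom (restr s z.toZFSet)) = b1c_Y X s z.toZFSet := by
  ext x
  rw [z5a_dom h hz, b1c_mem, b1c_mem]
  refine or_congr_right (exists_congr fun β => and_congr_right fun hβ => ?_)
  rw [show app (restr s z.toZFSet) β.toZFSet = app s β.toZFSet from oat_restr (α := V) hβ]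

theorem b1c_chain {N : Set V} [IsZFC N] {H W T X s : V} (hs : s ∈ N) (hX : Ctbl N X)
    (he : ElemSub X H) {α : Ordinal.{0}} (hα : α < om1 N)
    (h : ∀ β < α, b1c_P N H W T (b1c_Y X s β.toZFSet) (app s β.toZFSet)) :
    Ctbl N (b1c_Y X s α.toZFSet) ∧ ElemSub (b1c_Y X s α.toZFSet) H := by
  have hc := lt_om1_iff.1 hα
  haveI : In N s := ⟨hs⟩
  haveI : In N α := ⟨InjIn.mem_left hc⟩
  have hm : ∀ y ∈ img (fun b => app s b) α.toZFSet, ∃ β < α, y = app s β.toZFSet := fun y hy => by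
    obtain ⟨b, hb, rfl⟩ := mem_img.1 hy
    obtain ⟨β, hβ, rfl⟩ := mem_toZFSet_iff.1 hb
    exact ⟨β, hβ, rfl⟩
  refine ⟨hX.union (Ctbl.sUnion (z5b_img hc (fun b => app s b) (memV_of N _)
    fun y hy => mem_img.1 hy) fun y hy => ?_), ?_⟩
  · obtain ⟨β, hβ, rfl⟩ := hm y hy
    exact (h β hβ).1
  · have e : b1c_Y X s α.toZFSet = ⋃₀ (insert X (img (fun b => app s b) α.toZFSet)) := by
      ext x
      simp only [b1c_Y, bU, ZFSet.mem_union, mem_sUnion, ZFSet.mem_insert_iff, exists_eq_or_imp]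
    have h0 : ∀ β < α, X ⊆ app s β.toZFSet := fun β hβ x hx =>
      (h β hβ).2.2.1 (b1c_mem.2 (Or.inl hx))
    have h1 : ∀ β β', β ≤ β' → β' < α → app s β.toZFSet ⊆ app s β'.toZFSet :=
      fun β β' hle hβ x hx => hle.eq_or_lt.elim (fun e => e ▸ hx) fun l =>
        (h β' hβ).2.2.1 (b1c_mem.2 (Or.inr ⟨β, l, hx⟩))
    rw [e]
    refine elemSub_sUnion ⟨X, mem_insert _ _⟩ (fun Y hY => ?_) fun Y hY Z hZ => ?_
    · rcases ZFSet.mem_insert_iff.1 hY with rfl | hY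
      · exact he
      · obtain ⟨β, hβ, rfl⟩ := hm Y hY
        exact (h β hβ).2.1
    · rcases ZFSet.mem_insert_iff.1 hY with e1 | e1 <;>
        rcases ZFSet.mem_insert_iff.1 hZ with e2 | e2
      · exact ⟨Y, hY, fun _ k => k, fun _ k => e1 ▸ e2 ▸ k⟩
      · obtain ⟨β, hβ, rfl⟩ := hm Z e2
        exact ⟨_, hZ, e1 ▸ h0 β hβ, fun _ k => k⟩
      · obtain ⟨β, hβ, rfl⟩ := hm Y e1
        exact ⟨_, hY, fun _ k => k, e2 ▸ h0 β hβ⟩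
      · obtain ⟨β, hβ, rfl⟩ := hm Y e1
        obtain ⟨β', hβ', rfl⟩ := hm Z e2
        rcases le_total β β' with l | l
        · exact ⟨_, hZ, h1 β β' l hβ', fun _ k => k⟩
        · exact ⟨_, hY, fun _ k => k, h1 β' β l hβ⟩

theorem b1c_uniq {N : Set V} {l : Ordinal.{0}} {W T Y κ κ' : V} (hS : Sites N l W)
    (h : b1c_LB W T Y κ) (h' : b1c_LB W T Y κ') : κ = κ' := by
  rcases (hS.ms κ h.1.1).1.mem_trichotomous (hS.ms κ' h'.1.1).1 with e | e | e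
  · exact absurd h.1 (h'.2 κ e)
  · exact e
  · exact absurd h'.1 (h.2 κ' e)

/-- below the least bad site the chain is an end-extension, and least bad sites increase -/
theorem b1c_claim {N : Set V} {l w : Ordinal.{0}} {W T H : V} [IsZ (H : Set V)]
    (hS : Sites N l W) {Y k : Ordinal.{0} → V} (mono : ∀ z z', z ≤ z' → Y z ⊆ Y z')
    (cont : ∀ z, ∀ x ∈ Y z, x ∈ Y 0 ∨ ∃ u < z, x ∈ Y (u + 1)) (hW : W ∈ Y 0)
    (he : ∀ z < w, ElemSub (Y z) H) (hk : ∀ z < w, b1c_LB W T (Y z) (k z))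
    (hend : ∀ z < w, EndX (Y z ∩ k z) (Y (z + 1) ∩ k z)) {z : Ordinal.{0}} (z' : Ordinal.{0}) :
    z ≤ z' → z' < w → EndX (Y z ∩ k z) (Y z' ∩ k z) ∧ k z' ∉ k z := by
  induction z' using WellFoundedLT.induction with
  | _ z' ih =>
    intro hle hw
    have hz := hle.trans_lt hw
    have ho := (hS.ms _ (hk z hz).1.1).1
    have A : EndX (Y z ∩ k z) (Y z' ∩ k z) := by
      refine ⟨fun x hx => ZFSet.mem_inter.2
        ⟨mono z z' hle (ZFSet.mem_inter.1 hx).1, (ZFSet.mem_inter.1 hx).2⟩,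
        fun β hβ γ hγ hγβ => ?_⟩
      obtain ⟨b1, b2⟩ := ZFSet.mem_inter.1 hβ
      obtain ⟨c1, c2⟩ := ZFSet.mem_inter.1 hγ
      rcases cont z' γ c1 with h0 | ⟨u, hu, h0⟩
      · exact ZFSet.mem_inter.2 ⟨mono 0 z zero_le h0, c2⟩
      rcases lt_or_ge u z with l | l
      · exact ZFSet.mem_inter.2 ⟨mono _ z (Order.add_one_le_of_lt l) h0, c2⟩
      obtain ⟨i1, i2⟩ := ih u hu l (hu.trans hw)
      have hsub : k z ⊆ k u :=
        ((hS.ms _ (hk u (hu.trans hw)).1.1).1.notMem_iff_subset ho).1 i2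
      have h1 := (hend u (hu.trans hw)).2 β (ZFSet.mem_inter.2 ⟨mono z u l b1, hsub b2⟩) γ
        (ZFSet.mem_inter.2 ⟨h0, hsub c2⟩) hγβ
      exact i1.2 β hβ γ (ZFSet.mem_inter.2 ⟨(ZFSet.mem_inter.1 h1).1, c2⟩) hγβ
    refine ⟨A, fun hm => ?_⟩
    obtain ⟨β, hβ, hd⟩ := hS.disc _ (hk z hz).1.1
    obtain ⟨β, b1, b2, b3⟩ := (he z hz).ex2
      (fun β κ W => β ∈ κ ∧ ∀ κ' ∈ dom W, κ' ∈ κ → κ' ∈ β) (hk z hz).1.2.1 (mono 0 z zero_le hW)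
      ⟨β, IsZ.trans _ ((he z hz).subset (hk z hz).1.2.1) _ hβ, hβ, hd⟩
    obtain ⟨d1, d2, d3⟩ := (hk z' hw).1
    have h1 := A.2 β (ZFSet.mem_inter.2 ⟨b1, b2⟩) _ (ZFSet.mem_inter.2 ⟨d2, hm⟩) (b3 _ d1 hm)
    have h2 : Y z' ∩ k z' = Y z ∩ k z' := by
      ext γ
      rw [ZFSet.mem_inter, ZFSet.mem_inter]
      exact and_congr_left fun hγ => ⟨fun h3 => (ZFSet.mem_inter.1 (A.2 _ h1 γ
        (ZFSet.mem_inter.2 ⟨h3, ho.mem_trans hγ hm⟩) hγ)).1, fun h3 => mono z z' hle h3⟩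
    exact (hk z hz).2 _ hm ⟨d1, (ZFSet.mem_inter.1 h1).1, h2 ▸ d3⟩

/-- master models: the order types at all sites lie in prescribed stationary sets -/
theorem Sites.master_model {N : Set V} [IsZFC N] {l : Ordinal.{0}} {𝒲 H T a : V}
    (hS : Sites N l 𝒲) (hH : H ∈ N) [IsT (H : Set V)] (h𝒲 : 𝒲 ∈ H) (ha : a ∈ H) (hT : T ∈ N)
    (hst : ∀ κ ∈ dom 𝒲, Stat N (om1 N) (fun ν => ν.toZFSet ∈ app T κ)) :
    ∃ X, Ctbl N X ∧ ElemSub X H ∧ a ∈ X ∧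
      ∀ κ ∈ dom 𝒲, κ ∈ X → (ot (X ∩ κ)).toZFSet ∈ app T κ := by
  by_contra hcon
  have bad : ∀ X, Ctbl N X → ElemSub X H → a ∈ X → ∃ κ, b1c_LB 𝒲 T X κ := fun X h1 h2 h3 => by
    obtain ⟨κ, hκ, hm⟩ := mem_wf.has_min {κ | b1c_Bad 𝒲 T X κ} (by
      by_contra hc
      exact hcon ⟨X, h1, h2, h3, fun κ k1 k2 => of_not_not fun k3 => hc ⟨κ, k1, k2, k3⟩⟩)
    exact ⟨κ, hκ, fun κ' h h' => hm κ' h' h⟩
  have hsub : ({a, 𝒲} : V) ⊆ H := fun x hx => by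
    rcases ZFSet.mem_pair.1 hx with rfl | rfl <;> assumption
  obtain ⟨X, hXN, hX1, -, hX2, hX3⟩ := exists_ctbl_hull N hH (Y := {a, 𝒲})
    (ctbl_of_finite (by simp) fun x hx => IsZ.trans H hH x (hsub hx)) hsub
  have haX : a ∈ X := hX1 (ZFSet.mem_pair.2 (Or.inl rfl))
  have hWX : 𝒲 ∈ X := hX1 (ZFSet.mem_pair.2 (Or.inr rfl))
  haveI : In N X := ⟨hXN⟩
  haveI : In N H := ⟨hH⟩
  haveI : In N 𝒲 := ⟨hS.mem⟩
  haveI : In N T := ⟨hT⟩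
  obtain ⟨s, hs, -, hdom, hP⟩ := trans_dc N
    (fun s y => b1c_P N H 𝒲 T (b1c_Y X s (dom s)) y) (om1_mem N) fun α hα s hs _ hd h => by
      obtain ⟨c1, c2⟩ := b1c_chain (W := 𝒲) (T := T) hs hX3 hX2 hα fun β hβ =>
        b1c_restr hd hβ.le ▸ h β hβ
      obtain ⟨κ, hκ⟩ := bad _ c1 c2 (b1c_mem.2 (Or.inl haX))
      obtain ⟨y, y1, y2, y3, y4⟩ := (hS.ms κ hκ.1.1).step hH c1 c2 hκ.1.2.1
        (c2.app_mem (b1c_mem.2 (Or.inl hWX)) hκ.1.2.1)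
      rw [hd]
      exact ⟨y, InjIn.mem_left y1, y1, y2, y3, κ, hκ.1.2.1, hκ, y4⟩
  haveI : In N s := ⟨hs⟩
  replace hP : ∀ β < om1 N, b1c_P N H 𝒲 T (b1c_Y X s β.toZFSet) (app s β.toZFSet) :=
    fun β hβ => b1c_restr hdom hβ.le ▸ hP β hβ
  have hch : ∀ z < om1 N, Ctbl N (b1c_Y X s z.toZFSet) ∧ ElemSub (b1c_Y X s z.toZFSet) H :=
    fun z hz => b1c_chain hs hX3 hX2 hz fun β hβ => hP β (hβ.trans hz)
  have mono : ∀ z z' : Ordinal.{0}, z ≤ z' → b1c_Y X s z.toZFSet ⊆ b1c_Y X s z'.toZFSet :=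
    fun z z' h x hx => b1c_mem.2 ((b1c_mem.1 hx).imp_right fun ⟨β, h1, h2⟩ => ⟨β, h1.trans_le h, h2⟩)
  have cont : ∀ z : Ordinal.{0}, ∀ x ∈ b1c_Y X s z.toZFSet, x ∈ b1c_Y X s (0 : Ordinal).toZFSet ∨
      ∃ u < z, x ∈ b1c_Y X s (u + 1).toZFSet := fun z x hx =>
    (b1c_mem.1 hx).imp (fun h => b1c_mem.2 (Or.inl h)) fun ⟨β, h1, h2⟩ =>
      ⟨β, h1, b1c_mem.2 (Or.inr ⟨β, lt_add_one β, h2⟩)⟩
  have lim : ∀ z : Ordinal.{0}, Order.IsSuccLimit z → ∀ x ∈ b1c_Y X s z.toZFSet,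
      ∃ u < z, x ∈ b1c_Y X s u.toZFSet := fun z hz x hx =>
    (cont z x hx).elim (fun h => ⟨0, hz.pos, h⟩) fun ⟨u, h1, h2⟩ => ⟨u + 1, hz.add_one_lt h1, h2⟩
  have succ : ∀ z < om1 N, b1c_Y X s (z + 1).toZFSet = app s z.toZFSet := fun z hz => by
    ext x
    refine ⟨fun hx => ?_, fun hx => b1c_mem.2 (Or.inr ⟨z, lt_add_one z, hx⟩)⟩
    rcases b1c_mem.1 hx with h | ⟨β, h1, h2⟩
    · exact (hP z hz).2.2.1 (b1c_mem.2 (Or.inl h))
    · rcases (Order.lt_add_one_iff.1 h1).eq_or_lt with e | e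
      · exact e ▸ h2
      · exact (hP z hz).2.2.1 (b1c_mem.2 (Or.inr ⟨β, e, h2⟩))
  choose! k hk1 hk2 hk3 hk4 using fun z hz => (hP z hz).2.2.2
  have claim := fun z z' => b1c_claim (w := om1 N) (Y := fun z => b1c_Y X s z.toZFSet) (k := k)
    (z := z) hS mono cont (b1c_mem.2 (Or.inl hWX)) (fun z hz => (hch z hz).2) hk2
    (fun z hz => by simpa only [succ z hz] using hk3 z hz) z'
  by_cases hA : ∃ z0 < om1 N, ∀ z, z0 ≤ z → z < om1 N → k z = k z0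
  · obtain ⟨z0, h0, hA⟩ := hA
    haveI : In N (k z0) := ⟨IsZ.trans _ (InjIn.mem_left (hch z0 h0).1) _ (hk1 z0 h0)⟩
    obtain ⟨z, z1, z2, z3⟩ := (hst _ (hk2 z0 h0).1.1).normal
      (fun z => ot (b1c_Y X s z.toZFSet ∩ k z0)) h0
      (fun z hz => by
        haveI : In N z := ⟨IsZ.ord_mem_of_le N (om1_mem N) hz.le⟩
        exact ot_lt_om1 ((hch z hz).1.of_subset (memV_of N _) fun x hx => (ZFSet.mem_inter.1 hx).1))
      (fun z z' h1 h2 h3 => by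
        have e := hA z h1 (h2.trans h3)
        obtain ⟨η, η1, η2⟩ := hk4 z (h2.trans h3)
        rw [← succ z (h2.trans h3), e, ZFSet.mem_inter] at η1
        exact ot_lt_of_end (fun x hx => (hS.ms _ (hk2 z0 h0).1.1).1.mem (ZFSet.mem_inter.1 hx).2)
          (e ▸ (claim z z' h2.le h3).1) ⟨η, ZFSet.mem_inter.2
            ⟨mono _ _ (Order.add_one_le_of_lt h2) η1.1, η1.2⟩, fun h => η2 (ZFSet.mem_inter.1 h).1⟩)
      (fun z hz h1 h2 o ho => by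
        obtain ⟨β, hβ, hb⟩ := lt_ot_elim ho
        obtain ⟨u, hu, hu'⟩ := lim z h2 β (ZFSet.mem_inter.1 hβ).1
        have l := max_lt hu h1
        have e := hA _ (le_max_right u z0) (l.trans hz)
        exact ⟨max u z0, l, hb _ (ZFSet.mem_inter.2 ⟨mono _ _ (le_max_left u z0) hu',
          (ZFSet.mem_inter.1 hβ).2⟩) (e ▸ (claim _ z l.le hz).1)⟩)
    exact (hk2 z z1).1.2.2 (by rw [hA z z2 z1]; exact z3)
  have hB : ∀ x, ∃ ζ < om1 N, ∀ z < om1 N, ζ ≤ z → ¬ b1c_LB 𝒲 T (b1c_Y X s z.toZFSet) x := by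
    intro x
    by_cases hx : ∃ z1 < om1 N, k z1 = x
    · obtain ⟨z1, h1, rfl⟩ := hx
      obtain ⟨z2, a1, a2, a3⟩ : ∃ z2, z1 ≤ z2 ∧ z2 < om1 N ∧ k z2 ≠ k z1 := by
        by_contra hc
        exact hA ⟨z1, h1, fun z b1 b2 => of_not_not fun b3 => hc ⟨z, b1, b2, b3⟩⟩
      have a4 : k z1 ∈ k z2 :=
        (((hS.ms _ (hk2 z2 a2).1.1).1.mem_trichotomous (hS.ms _ (hk2 z1 h1).1.1).1).resolve_left
          (claim z1 z2 a1 a2).2).resolve_left a3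
      exact ⟨z2, a2, fun z b1 b2 b3 =>
        (claim z2 z b2 b1).2 (b1c_uniq hS b3 (hk2 z b1) ▸ a4)⟩
    · exact ⟨0, (isSuccLimit_om1 N).pos, fun z b1 _ b3 => hx ⟨z, b1, b1c_uniq hS (hk2 z b1) b3⟩⟩
  have hC := cub_of_rel (om1_mem N) (fun z0 ζ => ∀ z < om1 N, ζ ≤ z →
    ∀ x ∈ b1c_Y X s z0.toZFSet, ¬ b1c_LB 𝒲 T (b1c_Y X s z.toZFSet) x) fun z0 h0 => by
      obtain ⟨f, hf, -, -, h1⟩ := choice_fn N (fun x y => y.rank < om1 N ∧ ∀ z < om1 N,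
        y.rank ≤ z → ¬ b1c_LB 𝒲 T (b1c_Y X s z.toZFSet) x) (InjIn.mem_left (hch z0 h0).1)
        fun x _ => by
          obtain ⟨ζ, h1, h2⟩ := hB x
          exact ⟨ζ.toZFSet, IsZ.ord_mem_of_le N (om1_mem N) h1.le, by
            rw [rank_toZFSet]; exact ⟨h1, h2⟩⟩
      obtain ⟨γ, h2, h3⟩ := om1_bdd (hch z0 h0).1 hf fun x hx => (h1 x hx).1
      exact ⟨γ, h2, fun z b1 b2 x hx => (h1 x hx).2 z b1 ((h3 x hx).le.trans b2)⟩
  obtain ⟨ν, n1, -, n2, n3⟩ :=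
    (hC.and (om1_mem N) (cub_limit (om1_mem N) (isSuccLimit_om1 N))).exists
  obtain ⟨u, hu, hu'⟩ := lim ν n3 _ (hk1 ν n1)
  obtain ⟨ζ, h1, h2⟩ := n2 u hu
  exact h2 ν n1 h1.le _ hu' (hk2 ν n1)
-- JOB C END

end Pool.Agent.Lib.MP_f9eb18_lc.W
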