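import Pool.Agent.Lib.MP_f9eb18_lc.W.B1

/-! # Coding forcing: the first poset

A condition is `(p, z, o)`: `p` is a countable function on triples `((κ, t), ξ)`, the coordinate
`(κ, ti)` enumerates `κ`, the coordinate `(κ, t)`, `t ∈ A`, is a function whose closure points
avoid `T t`; `z`, `o` are the finite sets of coordinates switched off and on. -/

namespace Pool.Agent.Lib.MP_f9eb18_lc.W

open Ordinal ZFSet
set_option linter.style.haveILetI false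
set_option linter.unusedVariables false
set_option synthInstance.maxSize 100000

variable {F : Fr}

noncomputable def cP (c : V) : V := fst c
noncomputable def cZ (c : V) : V := fst (snd c)
noncomputable def cO (c : V) : V := snd (snd c)
noncomputable def mkC (p z o : V) : V := pair p (pair z o)
@[simp] theorem cP_mkC (p z o : V) : cP (mkC p z o) = p := by simp [cP, mkC]
@[simp] theorem cZ_mkC (p z o : V) : cZ (mkC p z o) = z := by simp [cZ, mkC]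
@[simp] theorem cO_mkC (p z o : V) : cO (mkC p z o) = o := by simp [cO, mkC]
/-- the coordinate `i` of `p` is defined on `n` -/
def Cov (p i n : V) : Prop := ∀ ξ ∈ n, pair i ξ ∈ dom p
/-- `n` is a closure point of the coordinate `i` of `p` -/
def Clo (p i n : V) : Prop := n.Nonempty ∧ ∀ ξ ∈ n, pair i ξ ∈ dom p ∧ app p (pair i ξ) ∈ n
/-- the relation induced on `n` by the coordinate `i` of `p` -/
noncomputable def pR (p i n : V) : V := pull (fun b => app p (pair i b)) n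
/-- order type of the image of `n` under the coordinate `i` of `p` -/
noncomputable def pH (p i n : V) : V := (hgt (pR p i n) n).toZFSet
/-- the order -/
def Le0 (c' c : V) : Prop :=
  cZ c ⊆ cZ c' ∧ cO c ⊆ cO c' ∧ ∀ x ∈ cP c, fst (fst x) ∉ cZ c' → x ∈ cP c'
noncomputable def le0 (P : V) : V := rel P P Le0

section inst
variable {a b c : Set V → (ℕ → V) → V}
instance uf_cP [UF F a] : UF F (fun M v => cP (a M v)) := by unfold cP; infer_instance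
instance uf_cZ [UF F a] : UF F (fun M v => cZ (a M v)) := by unfold cZ; infer_instance
instance uf_cO [UF F a] : UF F (fun M v => cO (a M v)) := by unfold cO; infer_instance
instance uf_mkC [UF F a] [UF F b] [UF F c] : UF F (fun M v => mkC (a M v) (b M v) (c M v)) := by
  unfold mkC; infer_instance
instance ud_cov [UF F a] [UF F b] [UF F c] : UD F (fun M v => Cov (a M v) (b M v) (c M v)) := by
  have := UF.lift (F := F) a; have := UF.lift (F := F) b; unfold Cov; infer_instance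
instance ud_clo [UF F a] [UF F b] [UF F c] : UD F (fun M v => Clo (a M v) (b M v) (c M v)) := by
  have := UF.lift (F := F) a; have := UF.lift (F := F) b; have := UF.lift (F := F) c
  unfold Clo; infer_instance
instance uf_pR [UF F a] [UF F b] [UF F c] : UF F (fun M v => pR (a M v) (b M v) (c M v)) := by
  have := UF.lift (F := F) a; have := UF.lift (F := F) b; unfold pR pull; infer_instance
instance uf_pH [UF F a] [UF F b] [UF F c] : UF F (fun M v => pH (a M v) (b M v) (c M v)) := by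
  unfold pH; infer_instance
instance ud_le0 [UF F a] [UF F b] : UD F (fun M v => Le0 (a M v) (b M v)) := by
  have := UF.lift (F := F) a; unfold Le0; infer_instance
instance uf_le0 [UF F a] : UF F (fun M v => le0 (a M v)) := by unfold le0; infer_instance
end inst

/-- data of the first forcing -/
structure PD where
  U : Set V
  l : Ordinal.{0}
  𝒲 : V
  A : V
  ti : V
  T : V

namespace PD
variable (D : PD)
/-- `ω₁` of the ground model -/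
noncomputable def w : V := (om1 D.U).toZFSet
/-- working parts -/
def Val (p : V) : Prop :=
  IsFn p ∧ Ctbl D.U p ∧
  (∀ x ∈ dom p, ∃ κ ∈ dom D.𝒲, ∃ t ∈ (insert D.ti D.A : V), ∃ ξ ∈ D.w,
    x = pair (pair κ t) ξ ∧ app p x ∈ κ ∧ (t ∈ D.A → app p x ∈ D.w)) ∧
  ∀ κ ∈ dom D.𝒲, ∀ t ∈ D.A, ∀ n ∈ D.w, Clo p (pair κ t) n →
    Cov p (pair κ D.ti) n ∧ pH p (pair κ D.ti) n ∉ app D.T t
/-- Cohen parts -/
def Rr (z o : V) : Prop :=
  (z : Set V).Finite ∧ (o : Set V).Finite ∧ z ⊆ prod (dom D.𝒲) D.A ∧ o ⊆ prod (dom D.𝒲) D.A ∧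
    ∀ i ∈ z, i ∉ o
/-- the poset -/
noncomputable def P : V :=
  ZFSet.sep (fun c => c = mkC (cP c) (cZ c) (cO c) ∧ D.Val (cP c) ∧ D.Rr (cZ c) (cO c))
    (Vs D.U D.l)
structure Ok : Prop where
  inac : Inac D.U D.l
  sites : Sites D.U D.l D.𝒲
  A_mem : D.A ∈ D.U
  T_mem : D.T ∈ D.U
  A_sub : D.A ⊆ omegaZ
  A_inf : (D.A : Set V).Infinite
  ti_mem : D.ti ∈ omegaZ
  ti_not : D.ti ∉ D.A
  stat : ∀ t ∈ (insert D.ti D.A : V), Stat D.U (om1 D.U) (fun ν => ν.toZFSet ∈ app D.T t)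
  disj : ∀ t ∈ (insert D.ti D.A : V), ∀ t' ∈ (insert D.ti D.A : V), t ≠ t' →
    ∀ x ∈ app D.T t, x ∉ app D.T t'

variable {D} [IsZFC D.U] (ok : D.Ok)
include ok

-- JOB A BEGIN
omit [IsZFC D.U] ok in
theorem _root_.Pool.Agent.Lib.MP_f9eb18_lc.W.pH_congr {p q i n : V}
    (h : ∀ ξ ∈ n, app p (pair i ξ) = app q (pair i ξ)) : pH p i n = pH q i n :=
  congrArg toZFSet (hgt_congr fun x hx y hy => by
    simp only [pR, pull, pair_mem_rel, h x hx, h y hy])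
omit [IsZFC D.U] ok in
/-- entries of a function that persist keep their values -/
theorem _root_.Pool.Agent.Lib.MP_f9eb18_lc.W.IsFn.app_eq_of_mem {p q x : V} (hp : IsFn p)
    (hq : IsFn q) (hx : x ∈ dom p) (h : pair x (app p x) ∈ q) :
    x ∈ dom q ∧ app q x = app p x := ⟨mem_dom.2 ⟨_, h⟩, hq.app_eq h⟩
omit [IsZFC D.U] in
theorem b2a_idx {κ t : V} (hκ : κ ∈ dom D.𝒲) (ht : t ∈ (insert D.ti D.A : V)) :
    κ.rank < D.l ∧ (pair κ t).rank < D.l := by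
  have h1 := z5c_mem (ok.sites.lt κ hκ)
  have h2 : t ∈ omegaZ := (mem_insert_iff.1 ht).elim (fun e => e ▸ ok.ti_mem) fun k => ok.A_sub k
  exact ⟨h1, (rank_pair_lt ok.inac.2.2.1).2 ⟨h1, (z5c_mem h2).trans ok.inac.1⟩⟩
theorem b2a_fin {z : V} (hf : (z : Set V).Finite) (hs : z ⊆ prod (dom D.𝒲) D.A) :
    z ∈ D.U ∧ z.rank < D.l := by
  haveI : In D.U D.𝒲 := ⟨ok.sites.mem⟩
  haveI : In D.U D.A := ⟨ok.A_mem⟩
  have h1 : (z : Set V) ⊆ D.U := fun x hx =>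
    IsZ.trans _ (memV_of D.U (prod (dom D.𝒲) D.A)) _ (hs hx)
  refine ⟨IsZ.finite_mem D.U hf h1, ok.inac.cofGt.rank_lt (ctbl_of_finite hf h1) fun x hx => ?_⟩
  obtain ⟨κ, hκ, t, ht, rfl⟩ := mem_prod.1 (hs hx)
  exact (b2a_idx ok hκ (mem_insert_of_mem _ ht)).2
theorem b2a_val {p : V} (hp : D.Val p) : p ∈ D.U ∧ p.rank < D.l := by
  refine ⟨InjIn.mem_left hp.2.1, ok.inac.cofGt.rank_lt hp.2.1 fun x hx => ?_⟩
  have e := hp.1.1 x hx
  have k : pair (fst x) (snd x) ∈ p := e ▸ hx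
  obtain ⟨κ, hκ, t, ht, ξ, hξ, e1, e2, -⟩ := hp.2.2.1 _ (mem_dom.2 ⟨_, k⟩)
  have h1 := b2a_idx ok hκ ht
  rw [hp.1.app_eq k] at e2
  rw [e, e1, rank_pair_lt ok.inac.2.2.1, rank_pair_lt ok.inac.2.2.1]
  exact ⟨⟨h1.2, ((rank_lt_of_mem hξ).trans (rank_lt_of_mem (ok.sites.om κ hκ))).trans h1.1⟩,
    (rank_lt_of_mem e2).trans h1.1⟩
theorem mkC_mem {p z o : V} : mkC p z o ∈ D.P ↔ D.Val p ∧ D.Rr z o := by
  rw [P, mem_sep, cP_mkC, cZ_mkC, cO_mkC]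
  refine ⟨fun h => h.2.2, fun h => ⟨?_, rfl, h⟩⟩
  have h1 := b2a_val ok h.1
  have h2 := b2a_fin ok h.2.1 h.2.2.2.1
  have h3 := b2a_fin ok h.2.2.1 h.2.2.2.2.1
  exact mem_Vs.2 ⟨(IsZ.pair_mem_iff D.U).2 ⟨h1.1, (IsZ.pair_mem_iff D.U).2 ⟨h2.1, h3.1⟩⟩,
    (rank_pair_lt ok.inac.2.2.1).2 ⟨h1.2, (rank_pair_lt ok.inac.2.2.1).2 ⟨h2.2, h3.2⟩⟩⟩
theorem mem_P {c : V} :
    c ∈ D.P ↔ c = mkC (cP c) (cZ c) (cO c) ∧ D.Val (cP c) ∧ D.Rr (cZ c) (cO c) :=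
  ⟨fun h => (mem_sep.1 h).2, fun h => h.1 ▸ (mkC_mem ok).2 h.2⟩
theorem P_mem : D.P ∈ D.U := by
  haveI : In D.U D.𝒲 := ⟨ok.sites.mem⟩
  haveI : In D.U D.A := ⟨ok.A_mem⟩
  haveI : In D.U D.T := ⟨ok.T_mem⟩
  haveI : In D.U D.ti := ⟨IsZ.trans _ IsZ.omega _ ok.ti_mem⟩
  haveI : In D.U D.w := ⟨om1_mem D.U⟩
  haveI : UD (loc D.U) (fun _ v => D.Val (cP (vr v 0))) := by unfold Val; infer_instance
  haveI : UD (loc D.U) (fun _ v => D.Rr (cZ (vr v 0)) (cO (vr v 0))) := by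
    unfold Rr; infer_instance
  exact sep_mem D.U _ (z2d_Vs_mem D.U _ ok.inac.2.1)
theorem le_mem : le0 D.P ∈ D.U := by
  haveI : In D.U D.P := ⟨P_mem ok⟩
  exact memV_of D.U _
theorem isPO : IsPO D.P (le0 D.P) := by
  refine ⟨sep_subset (p := fun p => Le0 (fst p) (snd p)),
    fun p hp => pair_mem_rel.2 ⟨hp, hp, subset_rfl, subset_rfl, fun _ k _ => k⟩,
    fun p hp q _ r hr h1 h2 => ?_⟩
  obtain ⟨-, -, a1, a2, a3⟩ := pair_mem_rel.1 h1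
  obtain ⟨-, -, b1, b2, b3⟩ := pair_mem_rel.1 h2
  exact pair_mem_rel.2 ⟨hp, hr, b1.trans a1, b2.trans a2,
    fun x hx k => a3 x (b3 x hx fun k' => k (a1 k')) k⟩
theorem empty_mem : mkC ∅ ∅ ∅ ∈ D.P := by
  have h : ∀ x, x ∉ dom ∅ := fun x hx => (mem_dom.1 hx).elim fun _ k => notMem_empty _ k
  refine (mkC_mem ok).2 ⟨⟨⟨fun _ k => (notMem_empty _ k).elim, fun _ _ _ k => (notMem_empty _ k).elim⟩,
    ctbl_omega.of_subset (IsZ.empty_mem D.U) (empty_subset _), fun x hx => (h x hx).elim,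
    fun κ _ t _ n _ k => ?_⟩, by simp, by simp, empty_subset _, empty_subset _,
    fun _ k => (notMem_empty _ k).elim⟩
  obtain ⟨ξ, hξ⟩ := (nonempty_def n).1 k.1
  exact (h _ (k.2 ξ hξ).1).elim
theorem rank_lt {μ : Ordinal.{0}} (h : D.l < μ) : D.P.rank < μ :=
  ((rank_mono sep_subset).trans (z5c_rank_Vs D.U D.l)).trans_lt h
omit [IsZFC D.U] ok in
theorem b2a_keep {p q κ t n : V} (hp : D.Val p) (hq : IsFn q) (hκ : κ ∈ dom D.𝒲) (ht : t ∈ D.A)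
    (hn : n ∈ D.w) (hc : Clo p (pair κ t) n) (h : ∀ x ∈ p, fst (fst x) = pair κ D.ti → x ∈ q) :
    Cov q (pair κ D.ti) n ∧ pH q (pair κ D.ti) n ∉ app D.T t := by
  obtain ⟨h1, h2⟩ := hp.2.2.2 κ hκ t ht n hn hc
  have h3 := fun ξ hξ => hp.1.app_eq_of_mem hq (h1 ξ hξ)
    (h _ (hp.1.pair_app_mem (h1 ξ hξ)) (by simp))
  exact ⟨fun ξ hξ => (h3 ξ hξ).1, pH_congr (fun ξ hξ => (h3 ξ hξ).2) ▸ h2⟩
/-- validity is local: every entry and every closure point comes from a valid function whose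
enumeration part persists -/
theorem val_glue {q : V} (hf : IsFn q) (hc : Ctbl D.U q) (h1 : ∀ x ∈ q, ∃ p, D.Val p ∧ x ∈ p)
    (h2 : ∀ κ ∈ dom D.𝒲, ∀ t ∈ D.A, ∀ n ∈ D.w, Clo q (pair κ t) n →
      (Cov q (pair κ D.ti) n ∧ pH q (pair κ D.ti) n ∉ app D.T t) ∨
      ∃ p, D.Val p ∧ Clo p (pair κ t) n ∧ ∀ x ∈ p, fst (fst x) = pair κ D.ti → x ∈ q) :
    D.Val q := by
  refine ⟨hf, hc, fun x hx => ?_, fun κ hκ t ht n hn k => (h2 κ hκ t ht n hn k).elim id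
    fun ⟨p, a1, a2, a3⟩ => b2a_keep a1 hf hκ ht hn a2 a3⟩
  obtain ⟨p, hp, k⟩ := h1 _ (hf.pair_app_mem hx)
  obtain ⟨a1, a2⟩ := hf.app_eq_of_mem hp.1 hx k
  exact a2 ▸ hp.2.2.1 x a1
/-- filling the gaps of the coordinate `(κ, t)` on `n` with the value `y` -/
theorem val_add {p κ t n y : V} (hp : D.Val p) (hκ : κ ∈ dom D.𝒲) (ht : t ∈ (insert D.ti D.A : V))
    (hn : Ctbl D.U n) (hnw : n ⊆ D.w) (hy : y ∈ κ)
    (hy' : t ∈ D.A → y ∈ D.w ∧ y ∉ n ∧ pair (pair κ t) y ∉ dom p) :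
    ∃ p', D.Val p' ∧ p ⊆ p' ∧ Cov p' (pair κ t) n ∧
      ∀ ξ ∈ n, pair (pair κ t) ξ ∉ dom p → app p' (pair (pair κ t) ξ) = y := by
  have hl := z5c_mem (ok.sites.lt κ hκ)
  have hκU : κ ∈ D.U := IsZ.trans _ ok.inac.2.1 _ (ok.sites.lt κ hκ)
  haveI : In D.U κ := ⟨hκU⟩
  haveI : In D.U y := ⟨IsZ.trans _ hκU _ hy⟩
  haveI : In D.U t := ⟨IsZ.trans _ IsZ.omega _
    ((mem_insert_iff.1 ht).elim (fun e => e ▸ ok.ti_mem) fun k => ok.A_sub k)⟩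
  haveI : In D.U n := ⟨InjIn.mem_left hn⟩
  haveI : In D.U p := ⟨InjIn.mem_left hp.2.1⟩
  obtain ⟨q, q1, q2⟩ : ∃ q, Ctbl D.U q ∧ ∀ x, x ∈ q ↔ x ∈ p ∨
      ∃ ξ ∈ n, pair (pair κ t) ξ ∉ dom p ∧ x = pair (pair (pair κ t) ξ) y := by
    refine ⟨p ∪ img (fun ξ => pair (pair (pair κ t) ξ) y)
      (ZFSet.sep (fun ξ => pair (pair κ t) ξ ∉ dom p) n), hp.2.1.union
      (z5b_img hn (fun ξ => pair (pair (pair κ t) ξ) y) (memV_of D.U _) fun x hx => ?_),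
      fun x => ?_⟩
    · obtain ⟨ξ, hξ, e⟩ := mem_img.1 hx
      exact ⟨ξ, (mem_sep.1 hξ).1, e⟩
    · simp only [mem_union, mem_img, mem_sep, and_assoc, eq_comm (a := x)]
  have q3 : ∀ x u, pair x u ∈ q → pair x u ∈ p ∨
      x ∉ dom p ∧ u = y ∧ ∃ ξ ∈ n, x = pair (pair κ t) ξ := fun x u k =>
    ((q2 _).1 k).imp_right fun ⟨ξ, a1, a2, a3⟩ =>
      ⟨(pair_inj.1 a3).1 ▸ a2, (pair_inj.1 a3).2, ξ, a1, (pair_inj.1 a3).1⟩
  have q4 : IsFn q := by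
    refine ⟨fun x hx => ((q2 x).1 hx).elim (hp.1.1 x) ?_, fun x u u' h1 h2 => ?_⟩
    · rintro ⟨ξ, -, -, rfl⟩
      simp
    · rcases q3 x u h1 with a | a <;> rcases q3 x u' h2 with b | b
      · exact hp.1.2 x u u' a b
      · exact (b.1 (mem_dom.2 ⟨u, a⟩)).elim
      · exact (a.1 (mem_dom.2 ⟨u', b⟩)).elim
      · exact a.2.1.trans b.2.1.symm
  have q5 : p ⊆ q := fun x hx => (q2 x).2 (Or.inl hx)
  have q6 : ∀ x ∈ dom q, (x ∈ dom p ∧ app q x = app p x) ∨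
      app q x = y ∧ ∃ ξ ∈ n, x = pair (pair κ t) ξ := fun x hx =>
    (q3 _ _ (q4.pair_app_mem hx)).imp (fun k => ⟨mem_dom.2 ⟨_, k⟩, (hp.1.app_eq k).symm⟩)
      fun k => k.2
  have q7 : ∀ ξ ∈ n, pair (pair κ t) ξ ∉ dom p → pair (pair (pair κ t) ξ) y ∈ q :=
    fun ξ h1 h2 => (q2 _).2 (Or.inr ⟨ξ, h1, h2, rfl⟩)
  refine ⟨q, ⟨q4, q1, fun x hx => ?_, fun κ' hκ' t' ht' m hm k => ?_⟩, q5, fun ξ hξ => ?_,
    fun ξ h1 h2 => q4.app_eq (q7 ξ h1 h2)⟩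
  · rcases q6 x hx with ⟨a1, a2⟩ | ⟨a1, ξ, a2, a3⟩
    · exact a2 ▸ hp.2.2.1 x a1
    · exact ⟨κ, hκ, t, ht, ξ, hnw a2, a3, a1 ▸ hy, fun k => a1 ▸ (hy' k).1⟩
  · refine b2a_keep hp q4 hκ' ht' hm ⟨k.1, fun ξ hξ => ?_⟩ fun x hx _ => q5 hx
    obtain ⟨b1, b2⟩ := k.2 ξ hξ
    rcases q6 _ b1 with ⟨a1, a2⟩ | ⟨a1, ζ, -, a3⟩
    · exact ⟨a1, a2 ▸ b2⟩
    · obtain ⟨rfl, rfl⟩ := pair_inj.1 (pair_inj.1 a3).1
      rcases q6 _ (k.2 y (a1 ▸ b2)).1 with ⟨c1, -⟩ | ⟨-, ζ', c1, c2⟩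
      · exact ((hy' ht').2.2 c1).elim
      · exact ((hy' ht').2.1 ((pair_inj.1 c2).2 ▸ c1)).elim
  · by_cases k : pair (pair κ t) ξ ∈ dom p
    · exact mem_dom.2 ⟨_, q5 (hp.1.pair_app_mem k)⟩
    · exact mem_dom.2 ⟨_, q7 ξ hξ k⟩
omit ok in
theorem b2a_fresh {p n : V} (hp : Ctbl D.U p) (hn : Ctbl D.U n) :
    ∃ y ∈ D.w, y ∉ n ∧ ∀ i, pair i y ∉ dom p := by
  haveI : In D.U p := ⟨InjIn.mem_left hp⟩
  have h1 := hn.union (z5b_img hp (fun x => snd (fst x))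
    (memV_of D.U (img (fun x => snd (fst x)) p)) fun _ => mem_img.1)
  by_contra k
  refine lt_irrefl _ (lt_om1_iff.2 (h1.of_subset (om1_mem D.U) fun y hy => by_contra fun k' => ?_))
  refine k ⟨y, hy, fun a => k' (mem_union.2 (Or.inl a)), fun i a => ?_⟩
  obtain ⟨u, hu⟩ := mem_dom.1 a
  exact k' (mem_union.2 (Or.inr (mem_img.2 ⟨_, hu, by simp⟩)))
theorem b2a_ext {c p : V} (hc : c ∈ D.P) (hp : D.Val p) (h : cP c ⊆ p) :
    mkC p (cZ c) (cO c) ∈ D.P ∧ pair (mkC p (cZ c) (cO c)) c ∈ le0 D.P := by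
  have h1 := (mkC_mem ok).2 ⟨hp, ((mem_P ok).1 hc).2.2⟩
  refine ⟨h1, pair_mem_rel.2 ⟨h1, hc, ?_⟩⟩
  rw [Le0, cZ_mkC, cO_mkC, cP_mkC]
  exact ⟨subset_rfl, subset_rfl, fun x hx _ => h hx⟩
theorem dense_cov {κ t n : V} (hκ : κ ∈ dom D.𝒲) (ht : t ∈ (insert D.ti D.A : V))
    (hn : Ctbl D.U n) (hnw : n ⊆ D.w) :
    Dense D.P (le0 D.P) (ZFSet.sep (fun c => Cov (cP c) (pair κ t) n) D.P) := by
  refine ⟨sep_subset, fun c hc => ?_⟩
  have hv := ((mem_P ok).1 hc).2.1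
  obtain ⟨y, y1, y2, y3⟩ := b2a_fresh hv.2.1 hn
  obtain ⟨p, p1, p2, p3, -⟩ := val_add ok hv hκ ht hn hnw
    ((ok.sites.ms κ hκ).1.subset_of_mem (ok.sites.om κ hκ) y1) fun _ => ⟨y1, y2, y3 _⟩
  exact ⟨_, mem_sep.2 ⟨(b2a_ext ok hc p1 p2).1, by rwa [cP_mkC]⟩, (b2a_ext ok hc p1 p2).2⟩
theorem dense_onto {κ γ : V} (hκ : κ ∈ dom D.𝒲) (hγ : γ ∈ κ) :
    Dense D.P (le0 D.P) (ZFSet.sep (fun c => ∃ x ∈ dom (cP c),
      fst x = pair κ D.ti ∧ app (cP c) x = γ) D.P) := by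
  refine ⟨sep_subset, fun c hc => ?_⟩
  have hv := ((mem_P ok).1 hc).2.1
  obtain ⟨ξ, y1, -, y3⟩ := b2a_fresh hv.2.1 hv.2.1
  have h1 : ({ξ} : V) ⊆ D.w := fun x hx => mem_singleton.1 hx ▸ y1
  obtain ⟨p, p1, p2, p3, p4⟩ := val_add ok hv hκ (mem_insert _ _)
    (ctbl_of_finite (by simp) fun x hx => IsZ.trans _ (om1_mem D.U) x (h1 hx)) h1 hγ
    fun k => (ok.ti_not k).elim
  refine ⟨_, mem_sep.2 ⟨(b2a_ext ok hc p1 p2).1, ?_⟩, (b2a_ext ok hc p1 p2).2⟩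
  rw [cP_mkC]
  exact ⟨_, p3 ξ (mem_singleton.2 rfl), fst_pair _ _, p4 ξ (mem_singleton.2 rfl) (y3 _)⟩
theorem dense_sep {κ κ' : V} (hκ : κ ∈ dom D.𝒲) (hκ' : κ' ∈ dom D.𝒲) (hne : κ ≠ κ') :
    Dense D.P (le0 D.P) (ZFSet.sep (fun c => ∃ t ∈ D.A,
      pair κ t ∈ cO c ∧ pair κ' t ∈ cZ c) D.P) := by
  refine ⟨sep_subset, fun c hc => ?_⟩
  obtain ⟨-, hv, r1, r2, r3, r4, r5⟩ := (mem_P ok).1 hc
  obtain ⟨t, ht, k⟩ := ok.A_inf.exists_notMem_finite ((r1.union r2).image snd)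
  have k1 : ∀ x, pair x t ∉ cZ c := fun x a => k ⟨_, Or.inl a, snd_pair _ _⟩
  have k2 : ∀ x, pair x t ∉ cO c := fun x a => k ⟨_, Or.inr a, snd_pair _ _⟩
  have h1 : mkC (cP c) (insert (pair κ' t) (cZ c)) (insert (pair κ t) (cO c)) ∈ D.P := by
    refine (mkC_mem ok).2 ⟨hv, by simpa using r1, by simpa using r2, fun x hx => ?_,
      fun x hx => ?_, fun i h1 h2 => ?_⟩
    · exact (mem_insert_iff.1 hx).elim (fun e => e ▸ pair_mem_prod.2 ⟨hκ', ht⟩) fun a => r3 a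
    · exact (mem_insert_iff.1 hx).elim (fun e => e ▸ pair_mem_prod.2 ⟨hκ, ht⟩) fun a => r4 a
    · rcases mem_insert_iff.1 h1 with rfl | a <;> rcases mem_insert_iff.1 h2 with b | b
      · exact hne (pair_inj.1 b).1.symm
      · exact k2 _ b
      · exact k1 _ (b ▸ a)
      · exact r5 i a b
  refine ⟨_, mem_sep.2 ⟨h1, t, ht, ?_⟩, pair_mem_rel.2 ⟨h1, hc, ?_⟩⟩
  · rw [cZ_mkC, cO_mkC]
    exact ⟨mem_insert _ _, mem_insert _ _⟩
  · rw [Le0, cZ_mkC, cO_mkC, cP_mkC]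
    exact ⟨fun _ => mem_insert_of_mem _, fun _ => mem_insert_of_mem _, fun _ hx _ => hx⟩
-- JOB A END

-- JOB B BEGIN
omit [IsZFC D.U] ok in
theorem b2b_app {p q i ξ : V} (hp : IsFn p) (hq : IsFn q) (h : ∀ e ∈ q, fst (fst e) = i → e ∈ p)
    (hx : pair i ξ ∈ dom q) : pair i ξ ∈ dom p ∧ app p (pair i ξ) = app q (pair i ξ) :=
  hq.app_eq_of_mem hp hx (h _ (hq.pair_app_mem hx) (by simp))

omit [IsZFC D.U] ok in
theorem b2b_clo {p q i n : V} (hp : IsFn p) (hq : IsFn q) (h : ∀ e ∈ q, fst (fst e) = i → e ∈ p)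
    (hc : Clo q i n) : Clo p i n :=
  ⟨hc.1, fun ξ hξ => ⟨(b2b_app hp hq h (hc.2 ξ hξ).1).1,
    (b2b_app hp hq h (hc.2 ξ hξ).1).2 ▸ (hc.2 ξ hξ).2⟩⟩

omit [IsZFC D.U] in
theorem b2b_ti {z o κ : V} (h : D.Rr z o) : pair κ D.ti ∉ z := fun k =>
  ok.ti_not (pair_mem_prod.1 (h.2.2.1 k)).2

omit [IsZFC D.U] ok in
theorem b2b_le {c c' : V} :
    pair c' c ∈ le0 D.P ↔ c' ∈ D.P ∧ c ∈ D.P ∧ Le0 c' c := pair_mem_rel

theorem b2b_step {H X x t : V} [IsT (H : Set V)] (hX : Ctbl D.U X) (he : ElemSub X H)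
    (hP : D.P ∈ X) (hx : x ∈ X) (hv : D.Val x) (ht : t ∈ X) :
    ∃ y ∈ X, D.Val y ∧ x ⊆ y ∧ (mkC x (fst (fst t)) (snd (fst t)) ∈ D.P →
      Dense D.P (le0 D.P) (snd t) → ∃ d ∈ snd t, d ∈ X ∧ fst (fst t) ⊆ cZ d ∧
        snd (fst t) ⊆ cO d ∧ ∀ e ∈ cP d, fst (fst e) ∉ cZ d → e ∈ y) := by
  by_cases k : mkC x (fst (fst t)) (snd (fst t)) ∈ D.P ∧ Dense D.P (le0 D.P) (snd t)
  swap
  · exact ⟨x, hx, hv, subset_rfl, fun h1 h2 => absurd ⟨h1, h2⟩ k⟩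
  have hE := he.snd_mem ht
  obtain ⟨d, dX, dE, hd⟩ := he.ex3 (fun d E c le => d ∈ E ∧ pair d c ∈ le) hE
    (he.tm2 (fun x t => mkC x (fst (fst t)) (snd (fst t))) hx ht) (he.tm1 le0 hP) (by
      obtain ⟨d, h1, h2⟩ := k.2.2 _ k.1
      exact ⟨d, IsZ.trans (M := (H : Set V)) _ (he.subset hE) _ h1, h1, h2⟩)
  obtain ⟨dP, -, l1, l2, l3⟩ := b2b_le.1 hd
  obtain ⟨-, dv, dr⟩ := (mem_P ok).1 dP
  simp only [cZ_mkC, cO_mkC, cP_mkC] at l1 l2 l3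
  obtain ⟨y, yX, my⟩ : ∃ y ∈ X, ∀ e, e ∈ y ↔
      (e ∈ cP d ∧ fst (fst e) ∉ cZ d) ∨ (e ∈ x ∧ fst (fst e) ∈ cZ d) :=
    ⟨_, he.tm2 (fun d x => ZFSet.sep (fun e => fst (fst e) ∉ cZ d) (cP d) ∪
      ZFSet.sep (fun e => fst (fst e) ∈ cZ d) x) dX hx, fun e => by
        rw [mem_union, mem_sep, mem_sep]⟩
  have xy : x ⊆ y := fun e h => by
    by_cases a : fst (fst e) ∈ cZ d
    · exact (my e).2 (Or.inr ⟨h, a⟩)
    · exact (my e).2 (Or.inl ⟨l3 e h a, a⟩)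
  have fy : IsFn y := by
    refine ⟨fun e h => ?_, fun a b b' h h' => ?_⟩
    · rcases (my e).1 h with h | h
      · exact dv.1.1 e h.1
      · exact hv.1.1 e h.1
    · rw [my, fst_pair] at h h'
      rcases h with h | h <;> rcases h' with h' | h'
      · exact dv.1.2 a b b' h.1 h'.1
      · exact absurd h'.2 h.2
      · exact absurd h.2 h'.2
      · exact hv.1.2 a b b' h.1 h'.1
  refine ⟨y, yX, val_glue ok fy ((dv.2.1.union hv.2.1).of_subset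
    (IsZ.trans _ (InjIn.mem_left hX) _ yX) fun e h => ?_) (fun e h => ?_)
    fun κ _ s _ n _ hc => Or.inr ?_, xy, fun _ _ => ⟨d, dE, dX, l1, l2,
      fun e h a => (my e).2 (Or.inl ⟨h, a⟩)⟩⟩
  · exact mem_union.2 (((my e).1 h).imp And.left And.left)
  · rcases (my e).1 h with h | h
    · exact ⟨_, dv, h.1⟩
    · exact ⟨_, hv, h.1⟩
  · by_cases a : pair κ s ∈ cZ d
    · refine ⟨x, hv, b2b_clo hv.1 fy (fun e h b => ?_) hc, fun e h _ => xy h⟩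
      exact (((my e).1 h).resolve_left fun k => k.2 (b ▸ a)).1
    · refine ⟨cP d, dv, b2b_clo dv.1 fy (fun e h b => ?_) hc,
        fun e h b => (my e).2 (Or.inl ⟨h, b ▸ b2b_ti ok dr⟩)⟩
      exact (((my e).1 h).resolve_right fun k => a (b ▸ k.2)).1

/-- the increasing sequence of working parts inside `X` that serves all tasks -/
theorem exists_seq {H X c₀ : V} [IsT (H : Set V)] (hcl : OmCl D.U H) (hX : Ctbl D.U X)
    (he : ElemSub X H) (hP : D.P ∈ X) (hc₀ : c₀ ∈ D.P) (hc₀X : c₀ ∈ X) :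
    ∃ p : ℕ → V, sqN p ∈ D.U ∧ p 0 = cP c₀ ∧ (∀ n, D.Val (p n) ∧ p n ⊆ X ∧ p n ⊆ p (n + 1)) ∧
      ∀ z o, D.Rr z o → z ⊆ X → o ⊆ X → ∀ E ∈ X, Dense D.P (le0 D.P) E →
        ∃ n, ∃ d ∈ E, d ∈ X ∧ z ⊆ cZ d ∧ o ⊆ cO d ∧
          ∀ x ∈ cP d, fst (fst x) ∉ cZ d → x ∈ p n := by
  have XU : X ∈ D.U := InjIn.mem_left hX
  have hne : X.Nonempty := ⟨_, hP⟩
  have r0 : D.Rr ∅ ∅ := ((mkC_mem ok).1 (empty_mem ok)).2
  obtain ⟨f, hf, f1, f2⟩ := hX.exists_enum hne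
  obtain ⟨s, hs, sU⟩ : ∃ s, (∀ n, app s (natZ n) = f n) ∧ s ∈ D.U :=
    ⟨sqN f, fun n => app_sqN f n, hf⟩
  haveI : In D.U D.P := ⟨P_mem ok⟩
  haveI : In D.U X := ⟨XU⟩
  haveI : In D.U s := ⟨sU⟩
  obtain ⟨p, p1, p2, p3⟩ := dc_nat D.U (fun n x y => x ⊆ y ∧
      (mkC x (fst (fst (app s (natZ n)))) (snd (fst (app s (natZ n)))) ∈ D.P →
      Dense D.P (le0 D.P) (snd (app s (natZ n))) → ∃ d ∈ snd (app s (natZ n)), d ∈ X ∧
        fst (fst (app s (natZ n))) ⊆ cZ d ∧ snd (fst (app s (natZ n))) ⊆ cO d ∧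
        ∀ e ∈ cP d, fst (fst e) ∉ cZ d → e ∈ y))
    (fun _ x => x ∈ X ∧ mkC x ∅ ∅ ∈ D.P) (x₀ := cP c₀)
    (IsZ.trans _ XU _ (he.tm1 cP hc₀X))
    ⟨he.tm1 cP hc₀X, (mkC_mem ok).2 ⟨((mem_P ok).1 hc₀).2.1, r0⟩⟩ fun n x _ hx => by
      obtain ⟨y, y1, y2, y3⟩ := b2b_step ok hX he hP hx.1 ((mkC_mem ok).1 hx.2).1
        (show app s (natZ n) ∈ X from hs n ▸ f1 n)
      exact ⟨y, IsZ.trans _ XU _ y1, ⟨y1, (mkC_mem ok).2 ⟨y2, r0⟩⟩, y3⟩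
  have pv : ∀ n, D.Val (p n) := fun n => ((mkC_mem ok).1 (p3 n).1.2).1
  refine ⟨p, p1, p2, fun n => ⟨pv n, he.sub_of_ctbl hcl (p3 n).1.1 (pv n).2.1, (p3 n).2.1⟩,
    fun z o hr hz ho E hE hd => ?_⟩
  obtain ⟨n, hn⟩ := f2 _ (he.pair_mem (he.pair_mem (he.finite_mem hne hr.1 hz)
    (he.finite_mem hne hr.2.1 ho)) hE)
  have k := (p3 n).2.2
  rw [hs, hn] at k
  simp only [fst_pair, snd_pair] at k
  exact ⟨n + 1, k ((mkC_mem ok).2 ⟨pv n, hr⟩) hd⟩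
/-- master conditions -/
theorem master_cond {H X c₀ n : V} [IsT (H : Set V)] (hcl : OmCl D.U H) (hX : Ctbl D.U X)
    (he : ElemSub X H) (hP : D.P ∈ X) (hc₀ : c₀ ∈ D.P) (hc₀X : c₀ ∈ X) (hn : n ∈ D.w)
    (hnX : n = X ∩ D.w)
    (hot : ∀ κ ∈ dom D.𝒲, κ ∈ X → ∀ t ∈ D.A, (ot (X ∩ κ)).toZFSet ∈ app D.T t →
      pair κ t ∈ cZ c₀) :
    ∃ q ∈ D.P, pair q c₀ ∈ le0 D.P ∧ Master X D.P (le0 D.P) q ∧
      ∀ κ ∈ dom D.𝒲, κ ∈ X →
        Cov (cP q) (pair κ D.ti) n ∧ pH (cP q) (pair κ D.ti) n = (ot (X ∩ κ)).toZFSet := by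
  obtain ⟨p, p1, p2, p3, p4⟩ := exists_seq ok hcl hX he hP hc₀ hc₀X
  have XU : X ∈ D.U := InjIn.mem_left hX
  have hne : X.Nonempty := ⟨_, hP⟩
  have r0 : D.Rr ∅ ∅ := ((mkC_mem ok).1 (empty_mem ok)).2
  have rc : D.Rr (cZ c₀) (cO c₀) := ((mem_P ok).1 hc₀).2.2
  have mono : ∀ {a b}, a ≤ b → p a ⊆ p b := fun h =>
    monotone_nat_of_le_succ (f := p) (fun k => (p3 k).2.2) h
  obtain ⟨u, uU, mu⟩ : ∃ u ∈ D.U, ∀ e, e ∈ u ↔ (∃ k, e ∈ p k) ∧ fst (fst e) ∉ cZ c₀ := by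
    haveI : In D.U (sqN p) := ⟨p1⟩
    haveI : In D.U c₀ := ⟨IsZ.trans _ XU _ hc₀X⟩
    refine ⟨ZFSet.sep (fun e => fst (fst e) ∉ cZ c₀) (bU omegaZ (app (sqN p))), memV_of _ _,
      fun e => ?_⟩
    rw [mem_sep, mem_bU]
    refine and_congr_left fun _ => ⟨?_, fun ⟨k, h⟩ => ⟨_, natZ_mem_omegaZ k, ?_⟩⟩
    · rintro ⟨x, hx, h⟩
      obtain ⟨k, rfl⟩ := mem_omegaZ.1 hx
      rw [app_sqN] at h
      exact ⟨k, h⟩
    · rw [app_sqN]
      exact h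
  have uX : u ⊆ X := fun e h => by
    obtain ⟨k, h⟩ := ((mu e).1 h).1
    exact (p3 k).2.1 h
  have fu : IsFn u := by
    refine ⟨fun e h => ?_, fun a b b' h h' => ?_⟩
    · obtain ⟨k, h⟩ := ((mu e).1 h).1
      exact (p3 k).1.1.1 e h
    · obtain ⟨k, h⟩ := ((mu _).1 h).1
      obtain ⟨k', h'⟩ := ((mu _).1 h').1
      exact (p3 (max k k')).1.1.2 a b b' (mono (le_max_left _ _) h) (mono (le_max_right _ _) h')
  have pu : ∀ k i, i ∉ cZ c₀ → ∀ e ∈ p k, fst (fst e) = i → e ∈ u := fun k i hi e h b =>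
    (mu e).2 ⟨⟨k, h⟩, b ▸ hi⟩
  have tX : ∀ t ∈ omegaZ, t ∈ X := fun t ht => by
    obtain ⟨k, rfl⟩ := mem_omegaZ.1 ht
    exact he.natZ_mem hne k
  have cov : ∀ κ ∈ dom D.𝒲, κ ∈ X → ∀ t ∈ (insert D.ti D.A : V), ∀ m ∈ X, Ctbl D.U m → m ⊆ D.w →
      ∃ k, Cov (p k) (pair κ t) m := by
    intro κ hκ kX t ht m mX mc mw
    have hd := dense_cov ok hκ ht mc mw
    have key : ∀ o, D.Rr ∅ o → o ⊆ X → (∀ z o', D.Rr z o' → o ⊆ o' → pair κ t ∉ z) → t ∈ X →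
        ∃ k, Cov (p k) (pair κ t) m := fun o h1 h2 h3 h4 => by
      obtain ⟨k, d, dE, -, -, a1, a2⟩ := p4 ∅ o h1 (empty_subset _) h2 _
        (he.tm3 (fun P i m => ZFSet.sep (fun c => Cov (cP c) i m) P) hP (he.pair_mem kX h4) mX) hd
      obtain ⟨-, dv, dr⟩ := (mem_P ok).1 (mem_sep.1 dE).1
      exact ⟨k, fun ξ hξ => (b2b_app (p3 k).1.1 dv.1
        (fun e h b => a2 e h (b ▸ h3 _ _ dr a1)) ((mem_sep.1 dE).2 ξ hξ)).1⟩
    rcases mem_insert_iff.1 ht with rfl | ht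
    · exact key ∅ r0 (empty_subset _) (fun _ _ h _ => b2b_ti ok h) (tX _ ok.ti_mem)
    · refine key {pair κ t} ⟨r0.1, by simp, empty_subset _, fun i hi => ?_, by simp⟩
        (fun i hi => ?_) (fun z o' h a b => h.2.2.2.2 _ b (a (mem_singleton.2 rfl)))
        (tX _ (ok.A_sub ht))
      · rw [mem_singleton.1 hi]
        exact pair_mem_prod.2 ⟨hκ, ht⟩
      · rw [mem_singleton.1 hi]
        exact he.pair_mem kX (tX _ (ok.A_sub ht))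
  have cov' : ∀ κ ∈ dom D.𝒲, κ ∈ X → ∀ ξ ∈ n, ∃ k, pair (pair κ D.ti) ξ ∈ dom (p k) := by
    intro κ hκ kX ξ hξ
    rw [hnX, mem_inter] at hξ
    obtain ⟨k, h⟩ := cov κ hκ kX _ (mem_insert _ _) {ξ} (he.tm1 (fun x => {x}) hξ.1)
      (ctbl_of_finite (by simp) (by simpa using IsZ.trans _ XU _ hξ.1))
      fun i hi => by rw [mem_singleton.1 hi]; exact hξ.2
    exact ⟨k, h ξ (mem_singleton.2 rfl)⟩
  have main : ∀ κ ∈ dom D.𝒲, κ ∈ X →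
      Cov u (pair κ D.ti) n ∧ pH u (pair κ D.ti) n = (ot (X ∩ κ)).toZFSet := by
    intro κ hκ kX
    refine ⟨fun ξ hξ => ?_, congrArg toZFSet (hgt_pull (fun ξ hξ => ?_) fun γ hγ => ?_)⟩
    · obtain ⟨k, h⟩ := cov' κ hκ kX ξ hξ
      exact (b2b_app fu (p3 k).1.1 (pu k _ (b2b_ti ok rc)) h).1
    · obtain ⟨k, h⟩ := cov' κ hκ kX ξ hξ
      rw [(b2b_app fu (p3 k).1.1 (pu k _ (b2b_ti ok rc)) h).2]
      obtain ⟨κ', -, t', -, ξ', -, e, a, -⟩ := (p3 k).1.2.2.1 _ h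
      obtain rfl : κ = κ' := (pair_inj.1 (pair_inj.1 e).1).1
      exact mem_inter.2 ⟨(he.pair_mem_iff.1 ((p3 k).2.1 ((p3 k).1.1.pair_app_mem h))).2, a⟩
    · rw [mem_inter] at hγ
      obtain ⟨k, d, dE, -, -, -, a2⟩ := p4 ∅ ∅ r0 (empty_subset _) (empty_subset _) _
        (he.tm3 (fun P i γ => ZFSet.sep (fun c => ∃ x ∈ dom (cP c), fst x = i ∧
          app (cP c) x = γ) P) hP (he.pair_mem kX (tX _ ok.ti_mem)) hγ.1) (dense_onto ok hκ hγ.2)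
      obtain ⟨-, dv, dr⟩ := (mem_P ok).1 (mem_sep.1 dE).1
      obtain ⟨x, x1, x2, x3⟩ := (mem_sep.1 dE).2
      obtain ⟨κ', -, t', -, ξ, hξ, rfl, -⟩ := dv.2.2.1 x x1
      rw [fst_pair] at x2
      rw [x2] at x1 x3
      obtain ⟨b1, b2⟩ := b2b_app (p3 k).1.1 dv.1 (fun e h b => a2 e h (b ▸ b2b_ti ok dr)) x1
      refine ⟨ξ, ?_, by rw [(b2b_app fu (p3 k).1.1 (pu k _ (b2b_ti ok rc)) b1).2, b2, x3]⟩
      rw [hnX, mem_inter]
      exact ⟨(he.pair_mem_iff.1 (he.pair_mem_iff.1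
        ((p3 k).2.1 ((p3 k).1.1.pair_app_mem b1))).1).2, hξ⟩
  have vu : D.Val u := by
    refine val_glue ok fu (hX.of_subset uU uX) (fun e h => ?_) fun κ hκ t ht m hm hc => ?_
    · obtain ⟨k, h⟩ := ((mu e).1 h).1
      exact ⟨_, (p3 k).1, h⟩
    obtain ⟨ξ₀, h0⟩ := hc.1
    have e0 := fu.pair_app_mem (hc.2 ξ₀ h0).1
    have kX : κ ∈ X := (he.pair_mem_iff.1 (he.pair_mem_iff.1 (he.pair_mem_iff.1 (uX e0)).1).1).1
    have iZ : pair κ t ∉ cZ c₀ := by simpa using ((mu _).1 e0).2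
    obtain ⟨a, ha, rfl⟩ := mem_toZFSet_iff.1 hm
    obtain ⟨b, hb, hb'⟩ := mem_toZFSet_iff.1 hn
    rcases lt_trichotomy a b with h | rfl | h
    · have h1 : a.toZFSet ∈ n := hb' ▸ toZFSet_mem_toZFSet_iff.2 h
      rw [hnX, mem_inter] at h1
      obtain ⟨k, hk⟩ := cov κ hκ kX t (mem_insert_of_mem _ ht) _ h1.1 (lt_om1_iff.1 ha)
        (toZFSet_subset_toZFSet_iff.2 ha.le)
      exact Or.inr ⟨p k, (p3 k).1, ⟨hc.1, fun ξ hξ => ⟨hk ξ hξ,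
        (b2b_app fu (p3 k).1.1 (pu k _ iZ) (hk ξ hξ)).2 ▸ (hc.2 ξ hξ).2⟩⟩, pu k _ (b2b_ti ok rc)⟩
    · rw [hb']
      exact Or.inl ⟨(main κ hκ kX).1, (main κ hκ kX).2 ▸ fun a => iZ (hot κ hκ kX t ht a)⟩
    · have h1 : n ∈ a.toZFSet := hb' ▸ toZFSet_mem_toZFSet_iff.2 h
      have h2 : n ∈ X := (he.pair_mem_iff.1 (he.pair_mem_iff.1
        (uX (fu.pair_app_mem (hc.2 n h1).1))).1).2
      have h3 : n ∈ X ∩ D.w := mem_inter.2 ⟨h2, hn⟩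
      rw [← hnX] at h3
      exact absurd h3 (mem_irrefl n)
  have qP : mkC u (cZ c₀) (cO c₀) ∈ D.P := (mkC_mem ok).2 ⟨vu, rc⟩
  refine ⟨_, qP, b2b_le.2 ⟨qP, hc₀, ?_⟩, fun E hE hd q' hq' hle => ?_, by simpa using main⟩
  · simp only [Le0, cZ_mkC, cO_mkC, cP_mkC]
    exact ⟨subset_rfl, subset_rfl, fun e h a => (mu e).2 ⟨⟨0, p2 ▸ h⟩, a⟩⟩
  obtain ⟨-, -, l1, l2, l3⟩ := b2b_le.1 hle
  simp only [cZ_mkC, cO_mkC, cP_mkC] at l1 l2 l3
  obtain ⟨-, qv, qr⟩ := (mem_P ok).1 hq'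
  obtain ⟨k, d, dE, dX, a0, a1, a2⟩ := p4 (cZ q' ∩ X) (cO q' ∩ X)
    ⟨qr.1.subset fun i hi => (mem_inter.1 hi).1, qr.2.1.subset fun i hi => (mem_inter.1 hi).1,
      fun i hi => qr.2.2.1 (mem_inter.1 hi).1, fun i hi => qr.2.2.2.1 (mem_inter.1 hi).1,
      fun i hi hi' => qr.2.2.2.2 i (mem_inter.1 hi).1 (mem_inter.1 hi').1⟩
    (fun i hi => (mem_inter.1 hi).2) (fun i hi => (mem_inter.1 hi).2) E hE hd
  have dP := hd.1 dE
  obtain ⟨-, dv, dr⟩ := (mem_P ok).1 dP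
  have fin : ∀ s ∈ X, (s : Set V).Finite → s ⊆ X := fun s h1 h2 => he.sub_of_ctbl hcl h1
    (ctbl_of_finite h2 fun x hx => IsZ.trans _ (IsZ.trans _ XU _ h1) _ hx)
  have zX := fin _ (he.tm1 cZ dX) dr.1
  have oX := fin _ (he.tm1 cO dX) dr.2.1
  have rP : mkC (cP q') (cZ q' ∪ cZ d) (cO q' ∪ cO d) ∈ D.P := by
    refine (mkC_mem ok).2 ⟨qv, (qr.1.union dr.1).subset fun i hi => mem_union.1 hi,
      (qr.2.1.union dr.2.1).subset fun i hi => mem_union.1 hi,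
      fun i hi => (mem_union.1 hi).elim (fun h => qr.2.2.1 h) fun h => dr.2.2.1 h,
      fun i hi => (mem_union.1 hi).elim (fun h => qr.2.2.2.1 h) fun h => dr.2.2.2.1 h,
      fun i hi hi' => ?_⟩
    rcases mem_union.1 hi with h | h <;> rcases mem_union.1 hi' with h' | h'
    · exact qr.2.2.2.2 i h h'
    · exact dr.2.2.2.2 i (a0 (mem_inter.2 ⟨h, oX h'⟩)) h'
    · exact dr.2.2.2.2 i h (a1 (mem_inter.2 ⟨h', zX h⟩))
    · exact dr.2.2.2.2 i h h'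
  refine ⟨d, dE, dX, _, rP, b2b_le.2 ⟨rP, hq', ?_⟩, b2b_le.2 ⟨rP, dP, ?_⟩⟩ <;>
    simp only [Le0, cZ_mkC, cO_mkC, cP_mkC]
  · exact ⟨fun i h => mem_union.2 (Or.inl h), fun i h => mem_union.2 (Or.inl h), fun e h _ => h⟩
  · refine ⟨fun i h => mem_union.2 (Or.inr h), fun i h => mem_union.2 (Or.inr h), fun e h a => ?_⟩
    rw [mem_union, not_or] at a
    exact l3 e ((mu e).2 ⟨⟨k, a2 e h a.2⟩, fun b => a.1 (l1 b)⟩) a.1
-- JOB B END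

-- JOB C BEGIN
omit [IsZFC D.U] ok in
theorem b2c_le {a b : V} : pair a b ∈ le0 D.P ↔ a ∈ D.P ∧ b ∈ D.P ∧ Le0 a b := by
  unfold le0
  exact pair_mem_rel
omit [IsZFC D.U] ok in
theorem b2c_P {c : V} (hc : c ∈ D.P) : c ∈ D.U ∧ c.rank < D.l := mem_Vs.1 (mem_sep.1 hc).1
omit [IsZFC D.U] ok in
theorem b2c_rkP (c : V) : (cP c).rank ≤ c.rank := rank_fst_le c
omit [IsZFC D.U] ok in
theorem b2c_rkZ (c : V) : (cZ c).rank ≤ c.rank := (rank_fst_le _).trans (rank_snd_le c)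
omit [IsZFC D.U] ok in
theorem b2c_rkO (c : V) : (cO c).rank ≤ c.rank := (rank_snd_le _).trans (rank_snd_le c)
/-- an entry has small rank iff its site has -/
theorem b2c_rank {p x : V} (hp : D.Val p) (hx : x ∈ p) {η : Ordinal.{0}} (hw : om1 D.U < η)
    (hl : Order.IsSuccLimit η) : x.rank < η ↔ (fst (fst (fst x))).rank < η := by
  refine ⟨fun h => ((rank_fst_le _).trans ((rank_fst_le _).trans (rank_fst_le _))).trans_lt h,
    fun h => ?_⟩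
  have e := hp.1.1 x hx
  have hm : pair (fst x) (snd x) ∈ p := e ▸ hx
  obtain ⟨κ, hκ, t, ht, ξ, hξ, h1, h2, -⟩ := hp.2.2.1 (fst x) (mem_dom.2 ⟨_, hm⟩)
  rw [hp.1.app_eq hm] at h2
  rw [h1, fst_pair, fst_pair] at h
  have htω : t ∈ omegaZ := by
    rcases mem_insert_iff.1 ht with rfl | k
    · exact ok.ti_mem
    · exact ok.A_sub k
  have h3 : t.rank < η := by
    have := rank_lt_of_mem htω
    rw [rank_omegaZ] at this
    exact this.trans ((omega_lt_om1 D.U).trans hw)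
  have h4 : ξ.rank < η := (z5c_mem hξ).trans hw
  rw [e, rank_pair_lt hl, h1, rank_pair_lt hl, rank_pair_lt hl]
  exact ⟨⟨⟨h, h3⟩, h4⟩, (rank_lt_of_mem h2).trans h⟩
omit [IsZFC D.U] ok in
/-- closure points pass to a function that contains the entries of the coordinate -/
theorem b2c_clo {p q i n : V} (hp : IsFn p) (hq : IsFn q) (h : Clo q i n)
    (hs : ∀ x ∈ q, fst (fst x) = i → x ∈ p) : Clo p i n := by
  refine ⟨h.1, fun ξ hξ => ?_⟩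
  obtain ⟨h1, h2⟩ := h.2 ξ hξ
  have h3 := hs _ (hq.pair_app_mem h1) (by rw [fst_pair, fst_pair])
  exact ⟨mem_dom.2 ⟨_, h3⟩, (hp.app_eq h3).symm ▸ h2⟩
omit [IsZFC D.U] ok in
theorem b2c_fn {p q : V} (hp : IsFn p) (h : q ⊆ p) : IsFn q :=
  ⟨fun x hx => hp.1 x (h hx), fun x y y' h1 h2 => hp.2 x y y' (h h1) (h h2)⟩
/-- the cut of a valid function is valid -/
theorem b2c_val_cut {p : V} (hp : D.Val p) {η : Ordinal.{0}} (hw : om1 D.U < η) (hη : η < D.l)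
    (hl : Order.IsSuccLimit η) : D.Val (cut p η) := by
  have hs : cut p η ⊆ p := fun x hx => (mem_cut.1 hx).1
  haveI : In D.U p := ⟨InjIn.mem_left hp.2.1⟩
  haveI : In D.U η := ⟨IsZ.ord_mem_of_le D.U ok.inac.2.1 hη.le⟩
  have hf := b2c_fn hp.1 hs
  refine val_glue ok hf (hp.2.1.of_subset (memV_of D.U _) hs) (fun x hx => ⟨p, hp, hs hx⟩)
    fun κ hκ t ht n hn hc => Or.inr ⟨p, hp, b2c_clo hp.1 hf hc fun x hx _ => hs hx, ?_⟩
  intro x hx e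
  obtain ⟨ξ, hξ⟩ := hc.1
  have h1 := hf.pair_app_mem (hc.2 ξ hξ).1
  have h2 := (b2c_rank ok hp (hs h1) hw hl).1 (mem_cut.1 h1).2
  rw [fst_pair, fst_pair, fst_pair] at h2
  refine mem_cut.2 ⟨hx, (b2c_rank ok hp hx hw hl).2 ?_⟩
  rwa [e, fst_pair]
/-- gluing a small valid function with the upper part of a valid function -/
theorem b2c_val_union {p d : V} (hp : D.Val p) (hd : D.Val d) {η : Ordinal.{0}}
    (hw : om1 D.U < η) (hη : η < D.l) (hl : Order.IsSuccLimit η) (hr : d.rank < η) :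
    D.Val (d ∪ ZFSet.sep (fun x => ¬ x.rank < η) p) := by
  haveI : In D.U p := ⟨InjIn.mem_left hp.2.1⟩
  haveI : In D.U η := ⟨IsZ.ord_mem_of_le D.U ok.inac.2.1 hη.le⟩
  have h1 : ∀ x ∈ d, (fst (fst (fst x))).rank < η := fun x hx =>
    (b2c_rank ok hd hx hw hl).1 ((rank_lt_of_mem hx).trans hr)
  have h2 : ∀ x ∈ ZFSet.sep (fun x => ¬ x.rank < η) p, ¬ (fst (fst (fst x))).rank < η :=
    fun x hx k => (mem_sep.1 hx).2 ((b2c_rank ok hp (mem_sep.1 hx).1 hw hl).2 k)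
  have hf : IsFn (d ∪ ZFSet.sep (fun x => ¬ x.rank < η) p) := by
    refine ⟨fun x hx => ?_, fun x y y' k k' => ?_⟩
    · rcases mem_union.1 hx with k | k
      · exact hd.1.1 x k
      · exact hp.1.1 x (mem_sep.1 k).1
    · rcases mem_union.1 k with k | k <;> rcases mem_union.1 k' with k' | k'
      · exact hd.1.2 x y y' k k'
      · have a1 := h1 _ k
        have a2 := h2 _ k'
        rw [fst_pair] at a1 a2
        exact (a2 a1).elim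
      · have a1 := h1 _ k'
        have a2 := h2 _ k
        rw [fst_pair] at a1 a2
        exact (a2 a1).elim
      · exact hp.1.2 x y y' (mem_sep.1 k).1 (mem_sep.1 k').1
  refine val_glue ok hf (hd.2.1.union (hp.2.1.of_subset (memV_of D.U _) sep_subset))
    (fun x hx => ?_) fun κ hκ t ht n hn hc => Or.inr ?_
  · rcases mem_union.1 hx with k | k
    · exact ⟨d, hd, k⟩
    · exact ⟨p, hp, (mem_sep.1 k).1⟩
  · by_cases hk : κ.rank < η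
    · refine ⟨d, hd, b2c_clo hd.1 hf hc fun x hx e => ?_, fun x hx _ => mem_union.2 (Or.inl hx)⟩
      rcases mem_union.1 hx with k | k
      · exact k
      · have a2 := h2 _ k
        rw [e, fst_pair] at a2
        exact (a2 hk).elim
    · refine ⟨p, hp, b2c_clo hp.1 hf hc fun x hx e => ?_, fun x hx e => ?_⟩
      · rcases mem_union.1 hx with k | k
        · have a1 := h1 _ k
          rw [e, fst_pair] at a1
          exact (hk a1).elim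
        · exact (mem_sep.1 k).1
      · refine mem_union.2 (Or.inr (mem_sep.2 ⟨hx, fun k => hk ?_⟩))
        have a1 := (b2c_rank ok hp hx hw hl).1 k
        rwa [e, fst_pair] at a1
/-- below every condition one can force a closure point with order type in a switched off set -/
theorem exists_closure {Δ c κ t : V} (hΔ : Δ ∈ D.U) (hd : DecRel (le0 D.P) Δ) (hc : c ∈ D.P)
    (hκ : κ ∈ dom D.𝒲) (ht : t = D.ti ∨ (t ∈ D.A ∧ pair κ t ∈ cZ c)) :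
    ∃ q ∈ D.P, pair q c ∈ le0 D.P ∧ ∃ n ∈ D.w, omegaZ ⊆ n ∧
      (∀ r, pair r q ∈ le0 D.P → ∀ ξ ∈ n, ∀ y ∈ D.w, pair r (pair ξ y) ∈ Δ → y ∈ n) ∧
      Cov (cP q) (pair κ D.ti) n ∧ pH (cP q) (pair κ D.ti) n ∈ app D.T t := by
  classical
  have hcU := (b2c_P hc).1
  haveI : In D.U D.P := ⟨P_mem ok⟩
  haveI : In D.U Δ := ⟨hΔ⟩
  haveI : In D.U c := ⟨hcU⟩
  haveI : In D.U D.𝒲 := ⟨ok.sites.mem⟩
  haveI : In D.U D.T := ⟨ok.T_mem⟩
  haveI : In D.U κ := ⟨IsZ.trans _ (memV_of D.U (dom D.𝒲)) _ hκ⟩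
  haveI : In D.U D.ti := ⟨IsZ.trans _ IsZ.omega _ ok.ti_mem⟩
  have ht' : t ∈ (insert D.ti D.A : V) := by
    rcases ht with rfl | k
    · exact mem_insert _ _
    · exact mem_insert_of_mem _ k.1
  haveI : In D.U t := ⟨by
    rcases ht with rfl | k
    · exact IsZ.trans _ IsZ.omega _ ok.ti_mem
    · exact IsZ.trans _ ok.A_mem _ k.1⟩
  obtain ⟨H, hH, hT, hcl, ha⟩ := exists_H D.U
    (memV_of D.U (pair D.P (pair (le0 D.P) (pair Δ (pair c (pair κ D.𝒲))))))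
  have h𝒲 : D.𝒲 ∈ H := ((IsZ.pair_mem_iff (H : Set V)).1 ((IsZ.pair_mem_iff (H : Set V)).1
    ((IsZ.pair_mem_iff (H : Set V)).1 ((IsZ.pair_mem_iff (H : Set V)).1
      ((IsZ.pair_mem_iff (H : Set V)).1 ha).2).2).2).2).2
  have hT' := memV_of D.U (lam (dom D.𝒲) fun k => if k = κ then app D.T t else app D.T D.ti)
  obtain ⟨X, hX, he, haX, hot⟩ := ok.sites.master_model hH h𝒲 ha hT' fun k hk => by
    rw [app_lam _ hk]
    split_ifs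
    · exact ok.stat t ht'
    · exact ok.stat D.ti (mem_insert _ _)
  obtain ⟨hPX, k1⟩ := he.pair_mem_iff.1 haX
  obtain ⟨hleX, k2⟩ := he.pair_mem_iff.1 k1
  obtain ⟨hΔX, k3⟩ := he.pair_mem_iff.1 k2
  obtain ⟨hcX, k4⟩ := he.pair_mem_iff.1 k3
  obtain ⟨hκX, -⟩ := he.pair_mem_iff.1 k4
  obtain ⟨ν, hν, hων, e⟩ := he.exists_nu hcl hX ⟨_, haX⟩
  have hn : ν.toZFSet ∈ D.w := toZFSet_mem_toZFSet_iff.2 hν
  obtain ⟨q, hq, hqc, hm, hcov⟩ := master_cond ok hcl hX he hPX hc hcX hn e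
    fun κ' hκ' hκ'X t' ht'' ho => by
      have h1 := hot κ' hκ' hκ'X
      rw [app_lam _ hκ'] at h1
      split_ifs at h1 with k
      · by_cases k' : t = t'
        · subst k k'
          rcases ht with rfl | k
          · exact (ok.ti_not ht'').elim
          · exact k.2
        · exact (ok.disj t ht' t' (mem_insert_of_mem _ ht'') k' _ h1 ho).elim
      · exact (ok.disj D.ti (mem_insert _ _) t' (mem_insert_of_mem _ ht'')
          (fun k' => ok.ti_not (k' ▸ ht'')) _ h1 ho).elim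
  refine ⟨q, hq, hqc, _, hn, toZFSet_subset_toZFSet_iff.2 hων, fun r hr ξ hξ y hy hd' => ?_,
    (hcov κ hκ hκX).1, ?_⟩
  · rw [e] at hξ ⊢
    exact mem_inter.2 ⟨hm.mem he (isPO ok) hPX hleX hΔX hd hr (mem_inter.1 hξ).1 hd', hy⟩
  · have h1 := hot κ hκ hκX
    rw [app_lam _ hκ, if_pos rfl] at h1
    rw [(hcov κ hκ hκX).2]
    exact h1
/-- every condition is a master condition for a hull that cuts `V_l` -/
theorem master_cut {H X : V} [IsZ (H : Set V)] (he : ElemSub X H) (hP : D.P ∈ X)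
    {η : Ordinal.{0}} (hw : om1 D.U < η) (hη : η < D.l) (hcof : CofGt D.U η)
    (hcut : cut X D.l = Vs D.U η) {q : V} (hq : q ∈ D.P) : Master X D.P (le0 D.P) q := by
  intro E hE hdense q' hq' _
  have hl := hcof.1
  obtain ⟨-, hv, hr⟩ := (mem_P ok).1 hq'
  haveI : In D.U q' := ⟨(b2c_P hq').1⟩
  haveI : In D.U η := ⟨IsZ.ord_mem_of_le D.U ok.inac.2.1 hη.le⟩
  have hv' := b2c_val_cut ok hv hw hη hl
  have hsz : cut (cZ q') η ⊆ cZ q' := fun x hx => (mem_cut.1 hx).1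
  have hso : cut (cO q') η ⊆ cO q' := fun x hx => (mem_cut.1 hx).1
  have hr' : D.Rr (cut (cZ q') η) (cut (cO q') η) :=
    ⟨hr.1.subset hsz, hr.2.1.subset hso, fun x hx => hr.2.2.1 (hsz hx),
      fun x hx => hr.2.2.2.1 (hso hx), fun i hi k => hr.2.2.2.2 i (hsz hi) (hso k)⟩
  have hq'' := (mkC_mem ok).2 ⟨hv', hr'⟩
  have hrk : (mkC (cut (cP q') η) (cut (cZ q') η) (cut (cO q') η)).rank < η := by
    unfold mkC
    rw [rank_pair_lt hl, rank_pair_lt hl]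
    refine ⟨hcof.rank_lt hv'.2.1 fun x hx => (mem_cut.1 hx).2,
      hcof.rank_lt (ctbl_of_finite hr'.1 fun x hx => IsZ.trans _ (memV_of D.U _) x hx)
        fun x hx => (mem_cut.1 hx).2,
      hcof.rank_lt (ctbl_of_finite hr'.2.1 fun x hx => IsZ.trans _ (memV_of D.U _) x hx)
        fun x hx => (mem_cut.1 hx).2⟩
  have hX : mkC (cut (cP q') η) (cut (cZ q') η) (cut (cO q') η) ∈ X := by
    have := mem_Vs.2 ⟨(b2c_P hq'').1, hrk⟩
    rw [← hcut] at this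
    exact (mem_cut.1 this).1
  obtain ⟨d₀, hd₀, hd₀'⟩ := hdense.2 _ hq''
  obtain ⟨d, hdX, hdE, hdle⟩ := he.ex3 (fun d E c P => d ∈ E ∧ pair d c ∈ le0 P) hE hX hP
    ⟨d₀, IsZ.trans (M := (H : Set V)) _ (he.subset hE) _ hd₀, hd₀, hd₀'⟩
  obtain ⟨hdP, -, l1, l2, l3⟩ := b2c_le.1 hdle
  rw [cZ_mkC] at l1
  rw [cO_mkC] at l2
  rw [cP_mkC] at l3
  have hdr : d.rank < η := by
    have := mem_cut.2 ⟨hdX, (b2c_P hdP).2⟩
    rw [hcut] at this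
    exact (mem_Vs.1 this).2
  obtain ⟨-, hdv, hdR⟩ := (mem_P ok).1 hdP
  have hV := b2c_val_union ok hv hdv hw hη hl ((b2c_rkP d).trans_lt hdr)
  have hR : D.Rr (cZ d ∪ cZ q') (cO d ∪ cO q') := by
    refine ⟨?_, ?_, fun x hx => ?_, fun x hx => ?_, fun i hi k => ?_⟩
    · exact (hdR.1.union hr.1).subset fun x hx => mem_union.1 hx
    · exact (hdR.2.1.union hr.2.1).subset fun x hx => mem_union.1 hx
    · exact (mem_union.1 hx).elim (fun k => hdR.2.2.1 k) fun k => hr.2.2.1 k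
    · exact (mem_union.1 hx).elim (fun k => hdR.2.2.2.1 k) fun k => hr.2.2.2.1 k
    · rcases mem_union.1 hi with hi | hi <;> rcases mem_union.1 k with k | k
      · exact hdR.2.2.2.2 i hi k
      · exact hdR.2.2.2.2 i hi (l2 (mem_cut.2
          ⟨k, (rank_lt_of_mem hi).trans ((b2c_rkZ d).trans_lt hdr)⟩))
      · exact hdR.2.2.2.2 i (l1 (mem_cut.2
          ⟨hi, (rank_lt_of_mem k).trans ((b2c_rkO d).trans_lt hdr)⟩)) k
      · exact hr.2.2.2.2 i hi k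
  have hrP := (mkC_mem ok).2 ⟨hV, hR⟩
  refine ⟨d, hdE, hdX, _, hrP, b2c_le.2 ⟨hrP, hq', ?_⟩, b2c_le.2 ⟨hrP, hdP, ?_⟩⟩
  · unfold Le0
    rw [cZ_mkC, cO_mkC, cP_mkC]
    refine ⟨fun x hx => mem_union.2 (Or.inr hx), fun x hx => mem_union.2 (Or.inr hx),
      fun x hx k => ?_⟩
    by_cases hx' : x.rank < η
    · exact mem_union.2 (Or.inl (l3 x (mem_cut.2 ⟨hx, hx'⟩) fun k' => k (mem_union.2 (Or.inl k'))))
    · exact mem_union.2 (Or.inr (mem_sep.2 ⟨hx, hx'⟩))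
  · unfold Le0
    rw [cZ_mkC, cO_mkC, cP_mkC]
    exact ⟨fun x hx => mem_union.2 (Or.inl hx), fun x hx => mem_union.2 (Or.inl hx),
      fun x hx _ => mem_union.2 (Or.inl hx)⟩
theorem dec_bound {Δ : V} (hΔ : Δ ∈ D.U) (hd : DecRel (le0 D.P) Δ) :
    ∃ η < D.l, ∀ q ∈ D.P, ∀ ξ ∈ D.w, ∀ y ∈ D.l.toZFSet, pair q (pair ξ y) ∈ Δ →
      y ∈ η.toZFSet := by
  haveI : In D.U D.P := ⟨P_mem ok⟩
  haveI : In D.U Δ := ⟨hΔ⟩
  haveI : In D.U D.l := ⟨ok.inac.2.1⟩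
  have haU := memV_of D.U (pair D.P (pair (le0 D.P) (pair Δ (Vs D.U D.l))))
  obtain ⟨H, hH, hT, hcl, ha⟩ := exists_H D.U haU
  have hV : Vs D.U D.l ∈ H := ((IsZ.pair_mem_iff (H : Set V)).1 ((IsZ.pair_mem_iff (H : Set V)).1
    ((IsZ.pair_mem_iff (H : Set V)).1 ha).2).2).2
  obtain ⟨η, hw, hη, hcof, X, -, hYX, he, hcut⟩ := exists_hull_cut D.U ok.inac ok.inac.om1_lt hH
    (fun x hx => IsZ.trans (M := (H : Set V)) _ hV x hx)
    (Y := {pair D.P (pair (le0 D.P) (pair Δ (Vs D.U D.l)))})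
    (ctbl_of_finite ((Set.finite_singleton _).subset fun x hx => mem_singleton.1 hx)
      fun x hx => (mem_singleton.1 hx).symm ▸ haU)
    fun x hx => (mem_singleton.1 hx).symm ▸ ha
  obtain ⟨hPX, k1⟩ := he.pair_mem_iff.1 (hYX (mem_singleton.2 rfl))
  obtain ⟨hleX, k2⟩ := he.pair_mem_iff.1 k1
  obtain ⟨hΔX, -⟩ := he.pair_mem_iff.1 k2
  refine ⟨η, hη, fun q hq ξ hξ y hy hd' => ?_⟩
  have hξX : ξ ∈ X := by
    have := mem_Vs.2 ⟨IsZ.trans _ (om1_mem D.U) _ hξ, (z5c_mem hξ).trans hw⟩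
    rw [← hcut] at this
    exact (mem_cut.1 this).1
  have hyX := (master_cut ok he hPX hw hη hcof hcut hq).mem he (isPO ok) hPX hleX hΔX hd
    ((isPO ok).refl q hq) hξX hd'
  have h1 := mem_cut.2 ⟨hyX, z5c_mem hy⟩
  rw [hcut] at h1
  obtain ⟨o, -, rfl⟩ := mem_toZFSet_iff.1 hy
  have h2 := (mem_Vs.1 h1).2
  rw [rank_toZFSet] at h2
  exact toZFSet_mem_toZFSet_iff.2 h2
-- JOB C END

end PD

end Pool.Agent.Lib.MP_f9eb18_lc.W
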