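import Pool.Agent.Lib.MP_f9eb18_lc.W.F0
import Pool.Agent.Lib.MP_f9eb18_lc.W.Iface

/-! # Small forcing and the homogeneity of the collapse -/

namespace Pool.Agent.Lib.MP_f9eb18_lc.W

open Ordinal ZFSet
set_option linter.style.haveILetI false
set_option linter.unusedVariables false
set_option synthInstance.maxSize 100000

-- JOB A BEGIN
theorem f1a_sat {H Q : Set V} [IsZ H] [IsZ Q] {j : V → V} (hj : Elem j H Q) {P le G : V}
    (hpo : IsPO P le) (hP : P ∈ H) (hle : le ∈ H) (hjP : j P = P) (hjle : j le = le)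
    (hfix : ∀ p ∈ P, j p = p) (hH : Gen H P le G) (hQ : Gen Q P le G) (φ : Fo) {τ : ℕ → V}
    (hτ : ∀ i, τ i ∈ H) :
    Sat1 (gext H G) φ (val G ∘ τ) ↔ Sat1 (gext Q G) φ (val G ∘ (j ∘ τ)) := by
  rw [truth hpo hP hle hH φ hτ,
    truth hpo (hjP ▸ hj.1 P hP) (hjle ▸ hj.1 le hle) hQ φ (τ := j ∘ τ) fun i => hj.1 _ (hτ i)]
  refine exists_congr fun p => and_congr_right fun hp => ?_
  have := hj.ud (F := pZ) rfl ‹_› ‹_›
    (fun M v => Frc M (vr v 0) (vr v 1) φ (vr v 2) (tl (tl (tl v))))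
    (v := cons P (cons le (cons p τ)))
    (cons_mem hP (cons_mem hle (cons_mem (IsZ.trans P hP p (hH.sub hp)) hτ)))
  rw [comp_cons, comp_cons, comp_cons, hjP, hjle, hfix p (hH.sub hp)] at this
  exact this

/-- lifting of elementary embeddings that fix the forcing pointwise -/
theorem lift_elem {H Q : Set V} [IsZ H] [IsZ Q] {j : V → V} (hj : Elem j H Q) {P le G : V}
    (hpo : IsPO P le) (hP : P ∈ H) (hle : le ∈ H) (hjP : j P = P) (hjle : j le = le)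
    (hfix : ∀ p ∈ P, j p = p) (hH : Gen H P le G) (hQ : Gen Q P le G) :
    ∃ k : V → V, Elem k (gext H G) (gext Q G) ∧ ∀ τ ∈ H, k (val G τ) = val G (j τ) := by
  have h1 : ∀ x, ∃ y, ∀ τ ∈ H, val G τ = x → y = val G (j τ) := fun x => by
    by_cases hx : x ∈ gext H G
    · obtain ⟨σ, hσ, rfl⟩ := hx
      exact ⟨val G (j σ), fun τ hτ e => (f1a_sat hj hpo hP hle hjP hjle hfix hH hQ (.eq 0 1)
        (τ := cons σ fun _ => τ) (cons_mem hσ fun _ => hτ)).1 e.symm⟩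
    · exact ⟨∅, fun τ hτ e => absurd ⟨τ, hτ, e⟩ hx⟩
  choose k hk using h1
  refine ⟨k, ⟨?_, fun φ v hv => ?_⟩, fun τ hτ => hk _ τ hτ rfl⟩
  · rintro _ ⟨τ, hτ, rfl⟩
    exact ⟨j τ, hj.1 τ hτ, (hk _ τ hτ rfl).symm⟩
  · choose τ hτ e using hv
    obtain rfl : v = val G ∘ τ := funext fun i => (e i).symm
    rw [show k ∘ (val G ∘ τ) = val G ∘ (j ∘ τ) from funext fun i => hk _ _ (hτ i) rfl]
    exact f1a_sat hj hpo hP hle hjP hjle hfix hH hQ φ hτ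

theorem f1a_step {M : Set V} [IsZFC M] {P le G : V} (hpo : IsPO P le) (hP : P ∈ M) (hle : le ∈ M)
    (h : Gen M P le G) {β : Ordinal.{0}} (hβ : P.rank ≤ β) {x : V} (hx : x ∈ gext M G)
    (hy : ∀ y ∈ x, ∃ σ ∈ M, σ.rank < β ∧ val G σ = y) :
    ∃ τ ∈ M, τ.rank ≤ β + 2 ∧ val G τ = x := by
  obtain ⟨τ, hτ, rfl⟩ := hx
  rcases le_total τ.rank β with h1 | h1
  · exact ⟨τ, hτ, h1.trans le_self_add, rfl⟩
  haveI : In M β := ⟨IsZ.ord_mem_of_le M (IsZ.rank_mem M hτ) h1⟩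
  haveI : In M P := ⟨hP⟩
  haveI : In M le := ⟨hle⟩
  haveI : In M τ := ⟨hτ⟩
  have tr : ∀ σ ∈ M, val G σ ∈ val G τ ↔ ∃ p ∈ G, Frc M P le (.mem 0 1) p (env [σ, τ]) :=
    fun σ hσ => truth hpo hP hle h (.mem 0 1) (τ := env [σ, τ])
      (env_mem (IsZ.empty_mem M) (by simp [hσ, hτ]))
  refine ⟨rel (Vs M β) P fun σ p => Frc M P le (.mem 0 1) p (env [σ, τ]), memV_of M _,
    rank_le_iff.2 fun z hz => ?_, ZFSet.ext fun y => ?_⟩
  · obtain ⟨σ, hσ, p, hp, rfl, -⟩ := mem_rel.1 hz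
    rw [rank_zpair, ← one_add_one_eq_two, ← add_assoc, ← add_assoc, ← Order.succ_eq_add_one,
      ← Order.succ_eq_add_one, ← Order.succ_eq_add_one, ← Order.succ_eq_add_one,
      Order.succ_lt_succ_iff, Order.succ_lt_succ_iff]
    exact max_lt (mem_Vs.1 hσ).2 ((rank_lt_of_mem hp).trans_le hβ)
  · rw [mem_val]
    constructor
    · rintro ⟨σ, p, h2, hp, rfl⟩
      obtain ⟨h3, -, h4⟩ := pair_mem_rel.1 h2
      exact (tr σ (mem_Vs.1 h3).1).2 ⟨p, hp, h4⟩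
    · intro h2
      obtain ⟨σ, hσ, h3, rfl⟩ := hy y h2
      obtain ⟨p, hp, h4⟩ := (tr σ hσ).1 h2
      exact ⟨σ, p, pair_mem_rel.2 ⟨mem_Vs.2 ⟨hσ, h3⟩, h.sub hp, h4⟩, hp, rfl⟩

theorem f1a_bound {M : Set V} [IsZFC M] {P le G : V} (hpo : IsPO P le) (hP : P ∈ M) (hle : le ∈ M)
    (h : Gen M P le G) (ξ : Ordinal.{0}) : ∃ n : ℕ, ∀ x ∈ gext M G, x.rank < ξ →
      ∃ τ ∈ M, τ.rank < P.rank + (ξ + n) ∧ val G τ = x := by
  induction ξ using Ordinal.limitRecOn with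
  | zero => exact ⟨0, fun x _ hx => absurd hx not_lt_zero⟩
  | add_one ξ ih =>
    obtain ⟨n, hn⟩ := ih
    refine ⟨n + 2, fun x hx hr => ?_⟩
    obtain ⟨τ, h1, h2, h3⟩ := f1a_step hpo hP hle h le_self_add hx fun y hy =>
      hn y (gext_trans x hx y hy) ((rank_lt_of_mem hy).trans_le (Order.lt_add_one_iff.1 hr))
    refine ⟨τ, h1, h2.trans_lt ?_, h3⟩
    rw [add_assoc, add_lt_add_iff_left, add_assoc, add_assoc, add_lt_add_iff_left]
    exact_mod_cast (by omega : n + 2 < 1 + (n + 2))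
  | limit ξ hl ih =>
    refine ⟨0, fun x hx hr => ?_⟩
    obtain ⟨n, hn⟩ := ih _ (hl.succ_lt hr)
    obtain ⟨τ, h1, h2, h3⟩ := hn x hx (Order.lt_succ _)
    refine ⟨τ, h1, h2.trans ?_, h3⟩
    rw [add_lt_add_iff_left, Nat.cast_zero, add_zero]
    exact hl.add_natCast_lt (hl.succ_lt hr) n

/-- names of small rank: `μ` closed under sums, `P ∈ V_μ`, `ρ ≥ μ` a limit ordinal -/
theorem small_name {M : Set V} [IsZFC M] {P le G : V} (hpo : IsPO P le) (hP : P ∈ M) (hle : le ∈ M)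
    (h : Gen M P le G) {μ ρ : Ordinal.{0}} (hμ : Inac M μ) (hr : P.rank < μ) (hρ : μ ≤ ρ)
    (hl : Order.IsSuccLimit ρ) {x : V} (hx : x ∈ gext M G) (hxr : x.rank < ρ) :
    ∃ τ ∈ M, τ.rank < ρ ∧ val G τ = x := by
  obtain ⟨n, hn⟩ := f1a_bound hpo hP hle h (Order.succ x.rank)
  obtain ⟨τ, h1, h2, h3⟩ := hn x hx (Order.lt_succ _)
  refine ⟨τ, h1, h2.trans ?_, h3⟩
  have h4 := hl.add_natCast_lt (hl.succ_lt hxr) n
  generalize Order.succ x.rank + n = ξ at h4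
  rcases lt_or_ge ξ μ with h5 | h5
  · exact (hμ.add_lt hr h5).1.trans_le hρ
  · have h6 : P.rank + μ = μ := le_antisymm ((Ordinal.add_le_iff hμ.2.2.1.pos.ne').2
      fun d hd => (hμ.add_lt hr hd).1) le_add_self
    rwa [← Ordinal.add_sub_cancel_of_le h5, ← add_assoc, h6, Ordinal.add_sub_cancel_of_le h5]

theorem inac_gext {M : Set V} [IsZFC M] {P le G : V} (hpo : IsPO P le) (hP : P ∈ M) (hle : le ∈ M)
    (h : Gen M P le G) {μ : Ordinal.{0}} (hμ : Inac M μ) (hr : P.rank < μ) :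
    Inac (gext M G) μ := by
  have hl := hμ.2.2.1
  refine ⟨hμ.1, subset_gext hP h hμ.2.1, hl, fun a ha har f hf hb => ?_⟩
  haveI := isZ_gext hpo hP hle h
  obtain ⟨α, hα, h1, rfl⟩ := small_name hpo hP hle h hμ hr le_rfl hl ha har
  obtain ⟨g, hg, rfl⟩ := hf
  obtain ⟨ψ, hψ⟩ := z6c_form (gext M G) (fun _ v => app (vr v 0) (vr v 1) = vr v 2) 3
  have v0 : val G ∅ = ∅ := (ZFSet.eq_empty _).2 fun y hy => by
    obtain ⟨σ, p, h2, -⟩ := mem_val.1 hy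
    exact notMem_empty _ h2
  have tr : ∀ σ ∈ M, ∀ η ∈ M, app (val G g) (val G σ) = val G η ↔
      ∃ p ∈ G, Frc M P le ψ p (env [g, σ, η]) := fun σ hσ η hη => by
    rw [← truth hpo hP hle h ψ (env_mem (IsZ.empty_mem M) (by simp [hσ, hη, hg])), ← env_map v0]
    refine hψ [val G g, val G σ, val G η] rfl fun x hx => ?_
    simp only [List.mem_cons, List.not_mem_nil, or_false] at hx
    rcases hx with rfl | rfl | rfl
    exacts [⟨g, hg, rfl⟩, ⟨σ, hσ, rfl⟩, ⟨η, hη, rfl⟩]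
  have hβ := (rank_pair_lt hl).2 ⟨h1, hr⟩
  haveI : In M μ := ⟨hμ.2.1⟩
  haveI : In M (pair α P).rank := ⟨IsZ.ord_mem_of_le M hμ.2.1 hβ.le⟩
  haveI : In M P := ⟨hP⟩
  haveI : In M le := ⟨hle⟩
  haveI : In M g := ⟨hg⟩
  have hV := memV_of M (Vs M (pair α P).rank)
  obtain ⟨γ, hγ, H⟩ := z5c_ord (hμ.2.2.2 _ hV ((z5c_rank_Vs M _).trans_lt hβ)) hV
    (fun z => if (olst μ fun ζ => ∃ η ∈ M, η.rank = ζ ∧
        Frc M P le ψ (snd z) (env [g, fst z, η])) < μ then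
      olst μ fun ζ => ∃ η ∈ M, η.rank = ζ ∧ Frc M P le ψ (snd z) (env [g, fst z, η]) else 0)
    fun z _ => by
      split_ifs with h2
      exacts [h2, hl.pos]
  refine ⟨γ, hγ, fun x hx => ?_⟩
  obtain ⟨σ, q, h2, -, rfl⟩ := mem_val.1 hx
  have hσ : σ ∈ M := ((IsZ.pair_mem_iff M).1 (IsZ.trans α hα _ h2)).1
  obtain ⟨η, hη, h3, h4⟩ := small_name hpo hP hle h hμ hr le_rfl hl
    (IsZ.app_mem _ (⟨g, hg, rfl⟩ : val G g ∈ gext M G) (val G σ)) (hb _ hx)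
  obtain ⟨p, hp, h5⟩ := (tr σ hσ η hη).1 h4.symm
  have h6 := H (pair σ p) (mem_Vs.2 ⟨(IsZ.pair_mem_iff M).2 ⟨hσ, IsZ.trans P hP p (h.sub hp)⟩, by
    rw [z2d_rank, z2d_rank, Order.succ_lt_succ_iff, Order.succ_lt_succ_iff]
    refine max_lt_max (lt_of_le_of_lt ?_ (rank_lt_of_mem h2)) (rank_lt_of_mem (h.sub hp))
    simpa using rank_fst_le (pair σ q)⟩)
  simp only [fst_pair, snd_pair] at h6
  have h7 := (olst_le_of (P := fun ζ => ∃ η ∈ M, η.rank = ζ ∧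
    Frc M P le ψ p (env [g, σ, η])) h3 ⟨η, hη, rfl, h5⟩).trans_lt h3
  rw [if_pos h7] at h6
  obtain ⟨η', h8, h9, h10⟩ := olst_spec h7
  rw [(tr σ hσ η' h8).2 ⟨p, hp, h10⟩]
  exact (rank_val_le G η').trans_lt (h9 ▸ h6)
-- JOB A END

-- JOB B BEGIN
instance f1b_ud_FM {F : Fr} {a b c d e : Set V → (ℕ → V) → V} [UF F a] [UF F b] [UF F c] [UF F d]
    [UF F e] : UD F (fun M v => FM (a M v) (b M v) (c M v) (d M v) (e M v)) :=
  (exists_atomic.choose_spec.choose_spec.1 F a b c d e).1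

theorem f1b_mono {P le p q σ τ : V} (hpo : IsPO P le) (hq : pair q p ∈ le) (h : FM P le p σ τ) :
    FM P le q σ τ := (exists_atomic.choose_spec.choose_spec.2.1 P le hpo p q σ τ hq).1 h

theorem f1b_truth {M : Set V} [IsZ M] {P le G σ τ : V} (hpo : IsPO P le) (hP : P ∈ M)
    (hle : le ∈ M) (h : Gen M P le G) (hσ : σ ∈ M) (hτ : τ ∈ M) :
    val G σ ∈ val G τ ↔ ∃ p ∈ G, FM P le p σ τ :=
  (exists_atomic.choose_spec.choose_spec.2.2 M P le G hpo hP hle h σ hσ τ hτ).1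

theorem f1b_rank_Vs (N : Set V) [IsZ N] {o : Ordinal.{0}} (h : o.toZFSet ∈ N) :
    (Vs N o).rank = o := by
  refine le_antisymm (z5c_rank_Vs N o) ?_
  have e : o.toZFSet ⊆ Vs N o := fun x hx =>
    mem_Vs.2 ⟨IsZ.trans _ h _ hx, by simpa using ZFSet.rank_lt_of_mem hx⟩
  simpa using ZFSet.rank_mono e

theorem f1b_rank_le {P le : V} (hpo : IsPO P le) : le.rank ≤ (pair P P).rank := by
  refine ZFSet.rank_le_iff.2 fun y hy => ?_
  obtain ⟨a, ha, b, hb, rfl⟩ := mem_prod.1 (hpo.sub hy)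
  rw [z2d_rank, z2d_rank, max_self]
  exact Order.succ_lt_succ (Order.succ_lt_succ
    (max_lt (ZFSet.rank_lt_of_mem ha) (ZFSet.rank_lt_of_mem hb)))

/-- saturated names -/
def f1b_Sat (M : Set V) (P le τ : V) (κ : Ordinal.{0}) : Prop :=
  ∀ σ ∈ M, σ.rank < κ → ∀ p ∈ P, FM P le p σ τ → ∃ q ∈ P, pair q p ∈ le ∧ pair σ q ∈ τ

theorem f1b_Sat.mem {M : Set V} [IsZ M] {P le G τ σ : V} {κ : Ordinal.{0}} (hpo : IsPO P le)
    (hP : P ∈ M) (hle : le ∈ M) (h : Gen M P le G) (hτ : τ ∈ M) (hs : f1b_Sat M P le τ κ)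
    (hσ : σ ∈ M) (hr : σ.rank < κ) (hm : val G σ ∈ val G τ) : ∃ q ∈ G, pair σ q ∈ τ := by
  obtain ⟨p, hp, hf⟩ := (f1b_truth hpo hP hle h hσ hτ).1 hm
  haveI : In M σ := ⟨hσ⟩
  haveI : In M τ := ⟨hτ⟩
  obtain ⟨r, hr1, hr2⟩ := h.meet_below hpo hP hle hp (sep_mem M (fun q => pair σ q ∈ τ) hP)
    fun q hq hqp => by
      obtain ⟨r, h1, h2, h3⟩ := hs σ hσ hr q hq (f1b_mono hpo hqp hf)
      exact ⟨r, mem_sep.2 ⟨h1, h3⟩, h1, h2⟩
  exact ⟨r, hr1, (mem_sep.1 hr2).2⟩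

/-- the lifted extender -/
theorem f1b_lift {M : Set V} [IsZFC M] {P le G : V} (hpo : IsPO P le) (hP : P ∈ M) (hle : le ∈ M)
    (h : Gen M P le G) {μ : Ordinal.{0}} (hμ : Inac M μ) (hr : P.rank < μ) {E : V} (hEM : E ∈ M)
    (hE : IsExt E) (hZ : extZ E = Vs M (len E)) (hκ : μ < crit E)
    (hα : ∃ α < len E, len E = α + μ) :
    ∃ E' ∈ gext M G, IsExt E' ∧ E ⊆ E' ∧ crit E' = crit E ∧ len E' = len E ∧
      extZ E' = Vs (gext M G) (len E) ∧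
      ∀ τ ∈ dom E, f1b_Sat M P le τ (crit E) → pair (val G τ) (val G (app E τ)) ∈ E' := by
  haveI := isZFC_gext hpo hP hle h
  have sub : M ⊆ gext M G := subset_gext hP h
  have kl := hE.crit_lt_len
  haveI : In M E := ⟨hEM⟩
  have lM : (len E).toZFSet ∈ M := mem_of M (len E)
  have kM : (crit E).toZFSet ∈ M := mem_of M (crit E)
  obtain ⟨H, hH, hT, hcl, hV⟩ := exists_T_model M lM
  have HM : (H : Set V) ⊆ M := fun x hx => IsZ.trans _ hH _ hx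
  have VH : ∀ x ∈ M, x.rank < len E → x ∈ H := fun x hx k =>
    IsZ.trans (M := (H : Set V)) _ hV _ (mem_Vs.2 ⟨hx, k⟩)
  have hA : Agr H E := by
    refine ZFSet.ext fun x => ?_
    rw [mem_cut, mem_cut, hZ, mem_Vs]
    refine and_congr_left fun k => ?_
    have k' : x.rank < len E := k.trans (hE.len_limit.succ_lt kl)
    exact ⟨fun hx => ⟨HM hx, k'⟩, fun hx => VH x hx.1 hx.2⟩
  have hcof : CofGt M (len E) := by
    obtain ⟨α, h1, h2⟩ := hα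
    rw [h2]
    exact hμ.cofGt.add (IsZ.ord_mem_of_le M lM h1.le)
  have hwf := (uwf_of_omCl M hH hEM hE hA hcl (hZ ▸ omCl_Vs M hcof)).1
  obtain ⟨Q, i, hU, hQ, hi⟩ : ∃ Q i, IsUlt H E Q i ∧ Q ∈ M ∧ i ∈ M := by
    haveI : In M H := ⟨hH⟩
    exact ⟨_, _, (isUlt_ult hE hA hwf).1, memV_of M _, memV_of M _⟩
  haveI := hU.isT_right
  have QM : (Q : Set V) ⊆ M := fun x hx => IsZ.trans _ hQ _ hx
  have VQ : ∀ x ∈ M, x.rank < len E → x ∈ Q := fun x hx k => hU.sub (hZ ▸ mem_Vs.2 ⟨hx, k⟩)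
  have hj := hU.elem.elem
  have rP : P.rank < crit E := hr.trans hκ
  have rle : le.rank < crit E :=
    (f1b_rank_le hpo).trans_lt ((rank_pair_lt hE.crit_limit).2 ⟨rP, rP⟩)
  have PH : P ∈ H := VH P hP (rP.trans kl)
  have lH : le ∈ H := VH le hle (rle.trans kl)
  have PQ : P ∈ Q := VQ P hP (rP.trans kl)
  have lQ : le ∈ Q := VQ le hle (rle.trans kl)
  have iP : app i P = P := hU.fix PH rP
  have il : app i le = le := hU.fix lH rle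
  have gH : Gen (H : Set V) P le G := h.mono HM
  have gQ : Gen (Q : Set V) P le G := h.mono QM
  obtain ⟨k, hk, kv⟩ := lift_elem hj hpo PH lH iP il (fun p hp =>
    hU.fix (IsZ.trans (M := (H : Set V)) _ PH _ hp) ((ZFSet.rank_lt_of_mem hp).trans rP)) gH gQ
  haveI := isZ_gext hpo PH lH gH
  haveI := isZ_gext hpo PQ lQ gQ
  have nm : ∀ {ρ}, μ ≤ ρ → Order.IsSuccLimit ρ → ∀ x ∈ gext M G, x.rank < ρ →
      ∃ τ ∈ M, τ.rank < ρ ∧ val G τ = x := fun h1 h2 x hx h3 =>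
    small_name hpo hP hle h hμ hr h1 h2 hx h3
  have nl := nm (hκ.trans kl).le hE.len_limit
  have WH : ∀ x ∈ gext M G, x.rank < len E → x ∈ gext (H : Set V) G := fun x hx k => by
    obtain ⟨τ, h1, h2, h3⟩ := nl x hx k
    exact ⟨τ, VH τ h1 h2, h3⟩
  have HW : gext (H : Set V) G ⊆ gext M G := fun x ⟨τ, h1, h2⟩ => ⟨τ, HM h1, h2⟩
  have QW : gext (Q : Set V) G ⊆ gext M G := fun x ⟨τ, h1, h2⟩ => ⟨τ, QM h1, h2⟩
  have rk : ∀ X : V, X ⊆ Vs (gext M G) (crit E) → X.rank < len E := fun X hX =>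
    ((ZFSet.rank_mono hX).trans (z5c_rank_Vs _ _)).trans_lt kl
  have ki : ∀ x ∈ H, k x = app i x := fun x hx => by
    have e : app i (chk P x) = chk (app i P) (app i x) := hj.map2 pZ (fun _ a b => chk a b) PH hx
    haveI : In (H : Set V) P := ⟨PH⟩
    haveI : In (H : Set V) x := ⟨hx⟩
    rw [← val_chk h.sub h.ne x, kv _ (memV_of (H : Set V) (chk P x)), val_chk h.sub h.ne, e, iP,
      val_chk h.sub h.ne]
  have kH : (crit E).toZFSet ∈ H := hU.crit_mem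
  have lk : len E ≤ jm (app i) (crit E) := hU.ht_eq ▸ hU.len_le_ht
  have KW : Vs (gext M G) (crit E) ∈ gext M G := z2d_Vs_mem _ _ (sub kM)
  have hZ' : cut (k (Vs (gext M G) (crit E))) (len E) = Vs (gext M G) (len E) := by
    have e1 : Vs (gext M G) (crit E) = Vs (gext (H : Set V) G) (crit E) := by
      refine ZFSet.ext fun x => ?_
      rw [mem_Vs, mem_Vs]
      exact and_congr_left fun k => ⟨fun hx => WH x hx (k.trans kl), fun hx => HW hx⟩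
    have e2 : k (Vs (gext M G) (crit E)) = Vs (gext (Q : Set V) G) (jm k (crit E)) :=
      (hk.iff2 pZ (fun N (a : V) (o : Ordinal.{0}) => a = Vs N o) (WH _ KW (rk _ subset_rfl))
        (subset_gext PH gH kH)).1 e1
    have e3 : jm k (crit E) = jm (app i) (crit E) := jm_congr (ki _ kH)
    refine ZFSet.ext fun x => ?_
    rw [e2, e3, mem_cut, mem_Vs, mem_Vs]
    constructor
    · exact fun hx => ⟨QW hx.1.1, hx.2⟩
    · rintro ⟨hx, k⟩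
      obtain ⟨τ, h1, h2, h3⟩ := nl x hx k
      exact ⟨⟨⟨τ, VQ τ h1 h2, h3⟩, k.trans_le lk⟩, k⟩
  obtain ⟨x1, -, x3, x4, x5⟩ := isExt_of_elem (W := gext M G) hk hE.crit_limit hE.omega_lt_crit
    hE.len_limit kl (room_of_zfc _ (sub lM)) (fun X hX hs => WH X hX (rk X hs))
    (fun x hx => by
      obtain ⟨τ, h1, h2, rfl⟩ := nm hκ.le hE.crit_limit x (mem_Vs.1 hx).1 (mem_Vs.1 hx).2
      rw [kv τ (VH τ h1 (h2.trans kl)), hU.fix (VH τ h1 (h2.trans kl)) h2]) hZ'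
  have dE : ∀ X ∈ dom E, X ∈ H ∧ (∀ x ∈ X, x.rank < crit E) ∧ app E X = cut (app i X) (len E) :=
    fun X hX => by
      obtain ⟨h1, h2⟩ := hE.mem_dom.1 hX
      rw [hZ, mem_Vs] at h1
      have h3 : ∀ x ∈ X, x.rank < crit E := fun x hx => (hE.mem_K.1 (h2 hx)).2
      have h4 : cut X (crit E) = X :=
        ZFSet.ext fun x => by rw [mem_cut]; exact and_iff_left_of_imp (h3 x)
      exact ⟨VH X h1.1 h1.2, h3, by rw [hU.cut_map_len (VH X h1.1 h1.2), h4]⟩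
  refine ⟨_, ?_, x1, fun p hp => ?_, x4, x5, x3, fun τ hτ hs => ?_⟩
  · have e : lam (pw (gext M G) (Vs (gext M G) (crit E))) (fun X => cut (k X) (len E)) =
        img (fun τ => pair (val G τ) (cut (val G (app i τ)) (len E)))
          (ZFSet.sep (fun τ => val G τ ⊆ Vs (gext M G) (crit E)) H) := by
      refine ZFSet.ext fun p => ?_
      rw [mem_lam, mem_img]
      constructor
      · rintro ⟨X, hX, rfl⟩
        obtain ⟨h1, h2⟩ := mem_pw.1 hX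
        obtain ⟨τ, h3, rfl⟩ := WH X h1 (rk X h2)
        exact ⟨τ, mem_sep.2 ⟨h3, h2⟩, by rw [kv τ h3]⟩
      · rintro ⟨τ, hτ, rfl⟩
        obtain ⟨h1, h2⟩ := mem_sep.1 hτ
        exact ⟨val G τ, mem_pw.2 ⟨⟨τ, HM h1, rfl⟩, h2⟩, by rw [kv τ h1]⟩
    rw [e]
    haveI : In (gext M G) G := ⟨gen_mem_gext hP h⟩
    haveI : In (gext M G) i := ⟨sub hi⟩
    haveI : In (gext M G) H := ⟨sub hH⟩
    haveI : In (gext M G) (len E) := ⟨sub lM⟩
    haveI : In (gext M G) (Vs (gext M G) (crit E)) := ⟨KW⟩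
    exact memV_of _ _
  · rw [hE.fn.eq_lam, mem_lam] at hp
    obtain ⟨X, hX, rfl⟩ := hp
    obtain ⟨h1, h2, h3⟩ := dE X hX
    exact pair_mem_lam.2 ⟨mem_pw.2 ⟨sub (HM h1), fun x hx =>
      mem_Vs.2 ⟨sub (IsZ.trans _ (HM h1) _ hx), h2 x hx⟩⟩, by rw [h3, ki X h1]⟩
  · obtain ⟨h1, h2, h3⟩ := dE τ hτ
    have tW : val G τ ∈ gext M G := ⟨τ, HM h1, rfl⟩
    refine pair_mem_lam.2 ⟨mem_pw.2 ⟨tW, fun x hx => mem_Vs.2 ⟨IsZ.trans _ tW _ hx, ?_⟩⟩, ?_⟩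
    · obtain ⟨σ, p, h4, -, rfl⟩ := mem_val.1 hx
      exact (rank_val_le G σ).trans_lt ((rank_pair_lt hE.crit_limit).1 (h2 _ h4)).1
    · have s1 : f1b_Sat (H : Set V) P le τ (crit E) := fun σ hσ => hs σ (HM hσ)
      have s2 : f1b_Sat (Q : Set V) (app i P) (app i le) (app i τ) (jm (app i) (crit E)) :=
        (hj.iff4 pZ (fun N (a b c : V) (o : Ordinal.{0}) => ∀ σ ∈ N, σ.rank < o → ∀ p ∈ a,
          FM a b p σ c → ∃ q ∈ a, pair q p ∈ b ∧ pair σ q ∈ c) PH lH h1 kH).1 s1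
      rw [iP, il] at s2
      rw [h3, kv τ h1]
      refine ZFSet.ext fun x => ?_
      rw [mem_cut]
      constructor
      · intro hx
        obtain ⟨σ, p, h4, h5, rfl⟩ := mem_val.1 hx
        rw [mem_cut] at h4
        exact ⟨mem_val.2 ⟨σ, p, h4.1, h5, rfl⟩,
          (rank_val_le G σ).trans_lt ((rank_pair_lt hE.len_limit).1 h4.2).1⟩
      · rintro ⟨hx, k⟩
        have iW : val G (app i τ) ∈ gext M G := ⟨_, QM (hj.1 τ h1), rfl⟩
        obtain ⟨σ, h4, h5, rfl⟩ := nl x (IsZ.trans _ iW _ hx) k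
        obtain ⟨q, h6, h7⟩ := s2.mem hpo PQ lQ gQ (hj.1 τ h1) (VQ σ h4 h5) (h5.trans_le lk) hx
        exact mem_val.2 ⟨σ, q, mem_cut.2 ⟨h7, (rank_pair_lt hE.len_limit).2
          ⟨h5, (ZFSet.rank_lt_of_mem (h.sub h6)).trans (rP.trans kl)⟩⟩, h6, rfl⟩

theorem f1b_wood {M : Set V} [IsZFC M] (hc : M.Countable) {P le G : V} (hpo : IsPO P le)
    (hP : P ∈ M) (hle : le ∈ M) (h : Gen M P le G) {μ : Ordinal.{0}} (hμ : Inac M μ)
    (hr : P.rank < μ) {δ : Ordinal.{0}} (hδ : μ < δ) (hW : WoodE M δ) : WoodE (gext M G) δ := by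
  haveI := isZFC_gext hpo hP hle h
  have sub : M ⊆ gext M G := subset_gext hP h
  have hI := hW.inac
  have dl := hI.2.2.1
  refine ⟨hW.1, sub hW.2.1, ?_⟩
  rintro _ ⟨τ, hτ, rfl⟩ hB
  obtain ⟨S, hS, mS, pS⟩ : ∃ S ∈ M,
      (∀ σ p, pair σ p ∈ S ↔ (σ ∈ M ∧ σ.rank < δ) ∧ p ∈ P ∧ FM P le p σ τ) ∧
      ∀ z ∈ S, ∃ σ p, z = pair σ p := by
    haveI : In M P := ⟨hP⟩
    haveI : In M le := ⟨hle⟩
    haveI : In M τ := ⟨hτ⟩
    haveI : In M (Vs M δ) := ⟨z2d_Vs_mem M δ hW.2.1⟩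
    refine ⟨rel (Vs M δ) P fun σ p => FM P le p σ τ, memV_of M _, fun σ p => ?_, fun z hz => ?_⟩
    · rw [pair_mem_rel, mem_Vs]
    · obtain ⟨σ, -, p, -, e, -⟩ := mem_rel.1 hz
      exact ⟨σ, p, e⟩
  have rp : ∀ p ∈ P, p.rank < μ := fun p hp => (ZFSet.rank_lt_of_mem hp).trans hr
  have hSV : S ⊆ Vs M δ := fun z hz => by
    refine mem_Vs.2 ⟨IsZ.trans _ hS _ hz, ?_⟩
    obtain ⟨σ, p, rfl⟩ := pS z hz
    obtain ⟨h1, h2, -⟩ := (mS σ p).1 hz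
    exact (rank_pair_lt dl).2 ⟨h1.2, (rp p h2).trans hδ⟩
  have vS : ∀ ρ, Order.IsSuccLimit ρ → μ ≤ ρ → ρ ≤ δ → val G (cut S ρ) = cut (val G τ) ρ := by
    intro ρ h1 h2 h3
    refine ZFSet.ext fun x => ?_
    rw [mem_val, mem_cut]
    constructor
    · rintro ⟨σ, p, h4, h5, rfl⟩
      rw [mem_cut, mS] at h4
      exact ⟨(f1b_truth hpo hP hle h h4.1.1.1 hτ).2 ⟨p, h5, h4.1.2.2⟩,
        (rank_val_le G σ).trans_lt ((rank_pair_lt h1).1 h4.2).1⟩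
    · rintro ⟨hx, k⟩
      obtain ⟨σ, h4, h5, rfl⟩ := small_name hpo hP hle h hμ hr h2 h1 (mem_Vs.1 (hB hx)).1 k
      obtain ⟨p, h6, h7⟩ := (f1b_truth hpo hP hle h h4 hτ).1 hx
      exact ⟨σ, p, mem_cut.2 ⟨(mS σ p).2 ⟨⟨h4, h5.trans_le h3⟩, h.sub h6, h7⟩,
        (rank_pair_lt h1).2 ⟨h5, (rp p (h.sub h6)).trans_le h2⟩⟩, h6, rfl⟩
  have sS : ∀ κ, Order.IsSuccLimit κ → μ ≤ κ → κ ≤ δ → f1b_Sat M P le (cut S κ) κ := by
    intro κ h1 h2 h3 σ hσ k p hp hf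
    haveI : In M S := ⟨hS⟩
    haveI : In M κ := ⟨IsZ.ord_mem_of_le M hW.2.1 h3⟩
    obtain ⟨G', g, hp'⟩ := exists_gen hc hpo hp
    obtain ⟨σ', p', h4, h5, h6⟩ := mem_val.1
      ((f1b_truth hpo hP hle g hσ (memV_of M (cut S κ))).2 ⟨p, hp', hf⟩)
    rw [mem_cut, mS] at h4
    have h7 := (f1b_truth hpo hP hle g h4.1.1.1 hτ).2 ⟨p', h5, h4.1.2.2⟩
    rw [h6] at h7
    obtain ⟨q', h8, h9⟩ := (f1b_truth hpo hP hle g hσ hτ).1 h7
    obtain ⟨q, q1, q2, q3⟩ := g.dir p hp' q' h8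
    exact ⟨q, g.sub q1, q2, mem_cut.2 ⟨(mS σ q).2 ⟨⟨hσ, k.trans_le h3⟩, g.sub q1,
      f1b_mono hpo q3 h9⟩, (rank_pair_lt h1).2 ⟨k, (rp q (g.sub q1)).trans_le h2⟩⟩⟩
  have nw := hW.2.2 S hS hSV
  unfold NoWit at nw ⊢
  rw [f1b_rank_Vs M hW.2.1] at nw
  rw [f1b_rank_Vs _ (sub hW.2.1)]
  intro β hβ
  obtain ⟨κ, k1, k2, k3⟩ := nw (max β μ) (max_lt hβ hδ)
  refine ⟨κ, k1, (le_max_left _ _).trans_lt k2, fun ρ hρ => ?_⟩
  have mk : μ < κ := (le_max_right _ _).trans_lt k2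
  have a1 : max ρ κ + μ < δ := (hI.add_lt (max_lt hρ k1) hδ).1
  have a2 : max ρ κ < max ρ κ + μ := lt_add_of_pos_right _ hμ.2.2.1.bot_lt
  have a3 : Order.IsSuccLimit (max ρ κ + μ) := isSuccLimit_add _ hμ.2.2.1
  obtain ⟨E, e1, e2, e3, rfl, e5, e6⟩ := k3 _ a1
  obtain ⟨l, hl⟩ : ∃ l, l = max ρ (crit E) + μ := ⟨_, rfl⟩
  rw [← hl] at a1 a2 a3 e5
  have a4 : crit E < l := (le_max_right _ _).trans_lt a2
  obtain ⟨r1, -, r3, r4, r5, r6⟩ := e2.rst_spec a3 a4 e5.le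
  have EM : E ∈ M := (mem_Vs.1 e1).1
  have rM : rst E l ∈ M := by
    haveI : In M E := ⟨EM⟩
    haveI : In M l := ⟨IsZ.ord_mem_of_le M hW.2.1 a1.le⟩
    exact memV_of M _
  have rZ : extZ (rst E l) = Vs M (len (rst E l)) := by
    rw [r3, r5, e3]
    refine ZFSet.ext fun x => ?_
    simp only [mem_cut, mem_Vs]
    exact ⟨fun hx => ⟨hx.1.1.1, hx.2⟩, fun hx => ⟨⟨⟨hx.1, hx.2.trans a1⟩, hx.2.trans e5⟩, hx.2⟩⟩
  obtain ⟨E', x1, x2, -, x4, x5, x6, x7⟩ := f1b_lift hpo hP hle h hμ hr rM r1 rZ (r4 ▸ mk)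
    ⟨max ρ (crit E), r5.symm ▸ a2, r5.trans hl⟩
  rw [r4] at x4 x7
  rw [r5] at x5 x6
  have d1 : cut S (crit E) ∈ dom E := mem_dom.2 ⟨_, e6⟩
  have d2 : app (rst E l) (cut S (crit E)) = cut S l := by
    rw [app_rst d1, e2.fn.app_eq e6]
    refine ZFSet.ext fun x => ?_
    simp only [mem_cut]
    exact ⟨fun hx => ⟨hx.1.1, hx.2⟩, fun hx => ⟨⟨hx.1, hx.2.trans e5⟩, hx.2⟩⟩
  have x8 := x7 _ (r6 ▸ d1) (sS _ e2.crit_limit mk.le k1.le)
  rw [d2, vS _ e2.crit_limit mk.le k1.le, vS _ a3 (mk.trans a4).le a1.le] at x8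
  refine ⟨E', mem_Vs.2 ⟨x1, ?_⟩, x2, ?_, x4, x5.symm ▸ (le_max_left _ _).trans_lt a2,
    x5.symm ▸ x8⟩
  · rw [x2.rank_eq, x5]
    exact (hI.add_lt a1 ((natCast_lt_omega0 3).trans hI.1)).1
  · rw [x5, x6]
    refine ZFSet.ext fun x => ?_
    simp only [mem_cut, mem_Vs]
    exact ⟨fun hx => ⟨⟨hx.1, hx.2.trans a1⟩, hx.2⟩, fun hx => ⟨hx.1.1, hx.2⟩⟩

theorem small_forcing {M : Set V} [IsZFC M] (hc : M.Countable) {P le G : V} (hpo : IsPO P le)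
    (hP : P ∈ M) (hle : le ∈ M) (h : Gen M P le G) {μ : Ordinal.{0}} (hμ : Inac M μ)
    (hr : P.rank < μ) : SmallExt M (gext M G) μ := by
  refine ⟨isZFC_gext hpo hP hle h, gext_countable hc G, subset_gext hP h,
    fun o ho => ord_mem_of_gext ho, inac_gext hpo hP hle h hμ hr,
    fun δ h1 h2 => f1b_wood hc hpo hP hle h hμ hr h1 h2, fun E h1 h2 h3 h4 h5 => ?_⟩
  obtain ⟨E', x1, x2, x3, x4, x5, x6, -⟩ := f1b_lift hpo hP hle h hμ hr h1 h2 h3 h4 h5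
  exact ⟨E', x1, x2, x3, x4, x5, x6⟩
-- JOB B END

-- JOB C BEGIN
/-- a map onto the cone below `p` moves a generic filter through `p` and keeps the extension -/
theorem f1c_cone {N : Set V} [IsZ N] {P le G f p : V} (hpo : IsPO P le) (hP : P ∈ N) (hle : le ∈ N)
    (hf : f ∈ N) (h : Gen N P le G) (hp : p ∈ P) (h1 : ∀ q ∈ P, app f q ∈ P)
    (h2 : ∀ q ∈ P, ∀ q' ∈ P, pair (app f q) (app f q') ∈ le ↔ pair q q' ∈ le)
    (h3 : ∀ q ∈ P, pair (app f q) p ∈ le) (h4 : ∀ r ∈ P, pair r p ∈ le → ∃ q ∈ P, app f q = r) :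
    ∃ G', Gen N P le G' ∧ p ∈ G' ∧ gext N G' = gext N G := by
  obtain ⟨G', hG⟩ : ∃ G' : V, G' = ZFSet.sep (fun r => ∃ q ∈ G, pair (app f q) r ∈ le) P :=
    ⟨_, rfl⟩
  have m : ∀ r, r ∈ G' ↔ r ∈ P ∧ ∃ q ∈ G, pair (app f q) r ∈ le := fun r => by rw [hG, mem_sep]
  have m1 : ∀ q ∈ G, app f q ∈ G' := fun q hq =>
    (m _).2 ⟨h1 q (h.sub hq), q, hq, hpo.refl _ (h1 q (h.sub hq))⟩
  obtain ⟨q0, h0⟩ := (nonempty_def G).1 h.ne
  have hp' : p ∈ G' := (m p).2 ⟨hp, q0, h0, h3 q0 (h.sub h0)⟩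
  have h' : Gen N P le G' := by
    refine ⟨fun r hr => ((m r).1 hr).1, (nonempty_def G').2 ⟨p, hp'⟩, fun r hr s hs e => ?_,
      fun r hr s hs => ?_, fun D hD hd => ?_⟩
    · obtain ⟨k, q, hq, e'⟩ := (m r).1 hr
      exact (m s).2 ⟨hs, q, hq, hpo.trans _ (h1 q (h.sub hq)) _ k _ hs e' e⟩
    · obtain ⟨k, q, hq, e⟩ := (m r).1 hr
      obtain ⟨k', q', hq', e'⟩ := (m s).1 hs
      obtain ⟨t, ht, a1, a2⟩ := h.dir q hq q' hq'
      have a3 := h.sub ht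
      exact ⟨_, m1 t ht, hpo.trans _ (h1 t a3) _ (h1 q (h.sub hq)) _ k
        ((h2 t a3 q (h.sub hq)).2 a1) e, hpo.trans _ (h1 t a3) _ (h1 q' (h.sub hq')) _ k'
        ((h2 t a3 q' (h.sub hq')).2 a2) e'⟩
    · haveI : In N f := ⟨hf⟩
      haveI : In N D := ⟨hD⟩
      obtain ⟨q, hq, k⟩ := h.meet _ (sep_mem N (fun q => app f q ∈ D) hP)
        ⟨fun q hq => (mem_sep.1 hq).1, fun q hq => by
          obtain ⟨r, hr, e⟩ := hd.2 _ (h1 q hq)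
          obtain ⟨q', hq', rfl⟩ := h4 r (hd.1 hr)
            (hpo.trans _ (hd.1 hr) _ (h1 q hq) _ hp e (h3 q hq))
          exact ⟨q', mem_sep.2 ⟨hq', hr⟩, (h2 q' hq' q hq).1 e⟩⟩
      exact ⟨_, m1 q hq, (mem_sep.1 k).2⟩
  haveI := isZ_gext hpo hP hle h
  haveI := isZ_gext hpo hP hle h'
  have s := subset_gext hP h
  have s' := subset_gext hP h'
  refine ⟨G', h', hp', (gext_min s ?_).antisymm (gext_min s' ?_)⟩
  · haveI : In (gext N G) f := ⟨s hf⟩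
    haveI : In (gext N G) le := ⟨s hle⟩
    haveI : In (gext N G) G := ⟨gen_mem_gext hP h⟩
    exact hG ▸ sep_mem _ _ (s hP)
  · haveI : In (gext N G') f := ⟨s' hf⟩
    haveI : In (gext N G') G' := ⟨gen_mem_gext hP h'⟩
    have e : ZFSet.sep (fun q => app f q ∈ G') P = G := ZFSet.ext fun q => by
      rw [mem_sep]
      refine ⟨fun ⟨k, k'⟩ => ?_, fun k => ⟨h.sub k, m1 q k⟩⟩
      obtain ⟨-, q', hq', e⟩ := (m _).1 k'
      exact h.up q' hq' q k ((h2 q' (h.sub hq') q k).1 e)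
    have := sep_mem (gext N G') (fun q => app f q ∈ G') (s' hP)
    rwa [e] at this

/-- a set defined in an extension by a homogeneous forcing lies in the ground model -/
theorem f1c_hom {N : Set V} [IsZ N] {P le G : V} (hpo : IsPO P le) (hP : P ∈ N) (hle : le ∈ N)
    (h : Gen N P le G) (hh : ∀ p ∈ P, ∃ G', Gen N P le G' ∧ p ∈ G' ∧ gext N G' = gext N G)
    (φ : Fo) {a d b : V} (ha : a ∈ N) (hd : d ∈ N) (hb : b ⊆ d)
    (H : ∀ x ∈ d, x ∈ b ↔ Sat1 (gext N G) φ (cons x (cons a fun _ => d))) : b ∈ N := by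
  haveI : In N P := ⟨hP⟩
  haveI : In N le := ⟨hle⟩
  haveI : In N a := ⟨ha⟩
  haveI : In N d := ⟨hd⟩
  haveI : UV (loc N) (fun _ _ _ => chk P d) := ⟨fun _ => inferInstance⟩
  have key : ∀ G', Gen N P le G' → ∀ x ∈ d, Sat1 (gext N G') φ (cons x (cons a fun _ => d)) ↔
      ∃ p ∈ G', Frc N P le φ p (cons (chk P x) (cons (chk P a) fun _ => chk P d)) :=
    fun G' h' x hx => by
      haveI : In N x := ⟨IsZ.trans d hd x hx⟩
      rw [← truth hpo hP hle h' φ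
        (cons_mem (memV_of N _) (cons_mem (memV_of N _) fun _ => memV_of N _)), comp_cons,
        comp_cons, val_chk h'.sub h'.ne, val_chk h'.sub h'.ne]
      exact iff_of_eq (congrArg (fun z => Sat1 _ φ (cons x (cons a fun _ => z)))
        (val_chk h'.sub h'.ne d).symm)
  have e : ZFSet.sep (fun x => ∃ p ∈ P,
      Frc N P le φ p (cons (chk P x) (cons (chk P a) fun _ => chk P d))) d = b :=
    ZFSet.ext fun x => by
      rw [mem_sep]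
      refine ⟨fun ⟨hx, p, hp, k⟩ => ?_, fun hx => ⟨hb hx, ?_⟩⟩
      · obtain ⟨G', h', hp', e⟩ := hh p hp
        rw [H x hx, ← e, key G' h' x hx]
        exact ⟨p, hp', k⟩
      · obtain ⟨p, hp, k⟩ := (key G h x (hb hx)).1 ((H x (hb hx)).1 hx)
        exact ⟨p, h.sub hp, k⟩
  exact e ▸ sep_mem N _ hd

/-- end extension of finite sequences -/
noncomputable def f1c_le (κ : V) : V := rel (lists κ) (lists κ) fun q p =>
  ∃ s : List V, (∀ x ∈ s, x ∈ κ) ∧ (dec p : List V) ++ s = dec q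

theorem f1c_dec (l : List V) : (dec (listZ l) : List V) = l := dec_enc l

theorem f1c_mem {κ : V} {l : List V} : listZ l ∈ lists κ ↔ ∀ x ∈ l, x ∈ κ :=
  mem_lists.trans ⟨fun ⟨_, h, e⟩ => listZ_inj e ▸ h, fun h => ⟨l, h, rfl⟩⟩

theorem f1c_le_iff {κ : V} {l k : List V} (h : ∀ x ∈ l, x ∈ κ) :
    pair (listZ l) (listZ k) ∈ f1c_le κ ↔ k <+: l := by
  rw [f1c_le, pair_mem_rel, f1c_dec, f1c_dec, f1c_mem, f1c_mem]
  refine ⟨fun ⟨_, _, s, _, e⟩ => ⟨s, e⟩, fun ⟨s, e⟩ => ?_⟩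
  subst e
  exact ⟨h, fun x hx => h x (List.mem_append_left _ hx), s,
    fun x hx => h x (List.mem_append_right _ hx), rfl⟩

theorem f1c_po (κ : V) : IsPO (lists κ) (f1c_le κ) := by
  refine ⟨fun z hz => ?_, fun p hp => ?_, fun p hp q hq r hr => ?_⟩
  · obtain ⟨x, hx, y, hy, rfl, -⟩ := mem_rel.1 hz
    exact pair_mem_prod.2 ⟨hx, hy⟩
  · obtain ⟨l, hl, rfl⟩ := mem_lists.1 hp
    exact (f1c_le_iff hl).2 List.prefix_rfl
  · obtain ⟨l, hl, rfl⟩ := mem_lists.1 hp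
    obtain ⟨k, hk, rfl⟩ := mem_lists.1 hq
    obtain ⟨m, -, rfl⟩ := mem_lists.1 hr
    rw [f1c_le_iff hl, f1c_le_iff hk, f1c_le_iff hl]
    exact fun h1 h2 => h2.trans h1

theorem f1c_le_mem {N : Set V} [IsZ N] {κ : V} (hκ : κ ∈ N) : lists κ ∈ N ∧ f1c_le κ ∈ N := by
  haveI : In N κ := ⟨hκ⟩
  unfold f1c_le
  exact ⟨memV_of N _, memV_of N _⟩

theorem f1c_move {N : Set V} [IsZ N] {κ G : V} (hκ : κ ∈ N) (h : Gen N (lists κ) (f1c_le κ) G) :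
    ∀ p ∈ lists κ, ∃ G', Gen N (lists κ) (f1c_le κ) G' ∧ p ∈ G' ∧ gext N G' = gext N G := by
  intro p hp
  obtain ⟨h1, h2⟩ := f1c_le_mem hκ
  obtain ⟨l, hl, rfl⟩ := mem_lists.1 hp
  haveI : In N κ := ⟨hκ⟩
  haveI : In N l := ⟨IsZ.trans _ h1 _ hp⟩
  have e : ∀ k : List V, (∀ x ∈ k, x ∈ κ) →
      app (lam (lists κ) fun q => listZ (l ++ dec q)) (listZ k) = listZ (l ++ k) := fun k hk => by
    rw [app_lam _ (f1c_mem.2 hk), f1c_dec]
  refine f1c_cone (f := lam (lists κ) fun q => listZ (l ++ dec q)) (f1c_po κ) h1 h2 (memV_of N _)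
    h hp (fun q hq => ?_) (fun q hq q' hq' => ?_) (fun q hq => ?_) fun q hq k => ?_
  · obtain ⟨k, hk, rfl⟩ := mem_lists.1 hq
    rw [e k hk]
    exact f1c_mem.2 (List.forall_mem_append.2 ⟨hl, hk⟩)
  · obtain ⟨k, hk, rfl⟩ := mem_lists.1 hq
    obtain ⟨k', hk', rfl⟩ := mem_lists.1 hq'
    rw [e k hk, e k' hk', f1c_le_iff hk, f1c_le_iff (List.forall_mem_append.2 ⟨hl, hk⟩),
      List.prefix_append_right_inj]
  · obtain ⟨k, hk, rfl⟩ := mem_lists.1 hq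
    rw [e k hk, f1c_le_iff (List.forall_mem_append.2 ⟨hl, hk⟩)]
    exact List.prefix_append _ _
  · obtain ⟨m, hm, rfl⟩ := mem_lists.1 hq
    obtain ⟨s, rfl⟩ := (f1c_le_iff hm).1 k
    have hs := (List.forall_mem_append.1 hm).2
    exact ⟨_, f1c_mem.2 hs, e s hs⟩

theorem f1c_ctbl {N : Set V} [IsZ N] {κ G : V} (hκ : κ ∈ N) (h : Gen N (lists κ) (f1c_le κ) G) :
    Ctbl (gext N G) κ := by
  obtain ⟨h1, h2⟩ := f1c_le_mem hκ
  haveI := isZ_gext (f1c_po κ) h1 h2 h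
  have hG : Ctbl (gext N G) G := by
    refine z5b_mkN (fun q => (dec q : List V).length) (gen_mem_gext h1 h) fun p hp q hq e => ?_
    obtain ⟨r, hr, a1, a2⟩ := h.dir p hp q hq
    obtain ⟨l, -, rfl⟩ := mem_lists.1 (h.sub hp)
    obtain ⟨k, -, rfl⟩ := mem_lists.1 (h.sub hq)
    obtain ⟨m, hm, rfl⟩ := mem_lists.1 (h.sub hr)
    rw [f1c_dec, f1c_dec] at e
    rw [(List.prefix_of_prefix_length_le ((f1c_le_iff hm).1 a1) ((f1c_le_iff hm).1 a2)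
      e.le).eq_of_length e]
  refine z5b_img hG (fun q => env (dec q) ((dec q : List V).length - 1)) (subset_gext h1 h hκ)
    fun y hy => ?_
  haveI : In N y := ⟨IsZ.trans _ hκ _ hy⟩
  obtain ⟨q, hq, k⟩ := h.meet _
    (sep_mem N (fun q => env (dec q) ((dec q : List V).length - 1) = y) h1)
    ⟨fun q hq => (mem_sep.1 hq).1, fun q hq => by
      obtain ⟨l, hl, rfl⟩ := mem_lists.1 hq
      have k : ∀ x ∈ l ++ [y], x ∈ κ :=
        List.forall_mem_append.2 ⟨hl, List.forall_mem_singleton.2 hy⟩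
      refine ⟨listZ (l ++ [y]), mem_sep.2 ⟨f1c_mem.2 k, ?_⟩,
        (f1c_le_iff k).2 (List.prefix_append _ _)⟩
      simp [f1c_dec, env]⟩
  exact ⟨q, hq, (mem_sep.1 k).2⟩

theorem f1c_rank {o : Ordinal.{0}} (ho : Order.IsSuccLimit o) : (lists o.toZFSet).rank ≤ o := by
  refine rank_le_iff.2 fun p hp => ?_
  obtain ⟨l, hl, rfl⟩ := mem_lists.1 hp
  clear hp
  induction l with
  | nil => exact rank_empty.trans_lt ho.bot_lt
  | cons x l ih =>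
    obtain ⟨h1, h2⟩ := List.forall_mem_cons.1 hl
    exact (rank_pair_lt ho).2 ⟨(rank_lt_of_mem h1).trans_eq (rank_toZFSet o), ih h2⟩

theorem colHom : ColHom := by
  intro N _ hc Q hQ a ha d hd H
  have hκ := om1_mem N
  have hpo := f1c_po (om1 N).toZFSet
  obtain ⟨h1, h2⟩ := f1c_le_mem hκ
  obtain ⟨G, h, -⟩ := exists_gen hc hpo (f1c_mem (l := []).2 fun _ hx => nomatch hx)
  have hZ := isZFC_gext hpo h1 h2 h
  have s := subset_gext h1 h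
  have hE : ColExt N (gext N G) := ⟨hZ, gext_countable hc G, s, f1c_ctbl hκ h, fun μ hμ =>
    small_forcing hc hpo h1 h2 h hμ ((f1c_rank (isSuccLimit_om1 N)).trans_lt hμ.om1_lt)⟩
  obtain ⟨b, ⟨b1, b2, b3⟩, hu⟩ := H _ hE
  have : ∀ (x y : Set V → (ℕ → V) → V) [UF pP x] [UF pP y],
      UD pP (fun M v => Q M (x M v) (y M v)) := fun x y _ _ =>
    UD.lift (fun M v => Q M (vr v 0) (vr v 1)) (fun M v => cons (x M v) (cons (y M v) v))
  obtain ⟨φ, hφ⟩ := UD.exists_fo (F := pP)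
    (fun M v => ∃ b ∈ M, b ⊆ vr v 2 ∧ Q M b (vr v 1) ∧ vr v 0 ∈ b)
  refine ⟨_, hE, b, f1c_hom hpo h1 h2 h (f1c_move hκ h) φ ha hd b2 fun x hx => ?_, b2, b3⟩
  rw [← hφ _ hZ _ (cons_mem (s (IsZ.trans d hd x hx)) (cons_mem (s ha) fun _ => s hd))]
  exact ⟨fun k => ⟨b, b1, b2, b3, k⟩, fun ⟨b', c1, c2, c3, k⟩ => hu b' ⟨c1, c2, c3⟩ ▸ k⟩
-- JOB C END

end Pool.Agent.Lib.MP_f9eb18_lc.W
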