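import Pool.Agent.Lib.MP_f9eb18_lc.W.B0
import Pool.Agent.Lib.MP_f9eb18_lc.W.F1

/-! # Coding forcing: nodes, almost disjoint coding, covering -/

namespace Pool.Agent.Lib.MP_f9eb18_lc.W

open Ordinal ZFSet
set_option linter.style.haveILetI false
set_option linter.unusedVariables false
set_option synthInstance.maxSize 100000

variable {F : Fr}

open Classical in
/-- the number coding `(n, x ∩ n)` -/
noncomputable def node (x : V) (n : ℕ) : ℕ :=
  Nat.rec 1 (fun k a => 2 * a + if natZ k ∈ x then 1 else 0) n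
instance uf_node {a : Set V → (ℕ → V) → V} {n : Set V → (ℕ → V) → ℕ} [UF F a] [UF F n] :
    UF F (fun M v => node (a M v) (n M v)) := by
  have := UF.lift (F := F) a; unfold node; infer_instance

/-- the values of the fixed sequence `s` are definable in the frame `F` -/
class HasS (F : Fr) (s : V) : Prop where
  out : UF F (fun _ v => app s (vr v 0))
instance uf_appS {s : V} [h : HasS F s] {a : Set V → (ℕ → V) → V} [UF F a] :
    UF F (fun M v => app s (a M v)) :=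
  haveI := h.out
  UF.lift (fun _ v => app s (vr v 0)) (fun M v => cons (a M v) v)
instance hasS_loc (N : Set V) [IsZ N] (s : V) [In N s] : HasS (loc N) s := ⟨UF.app⟩

/-- the real `s α` passes through the node `t` -/
def St (s t : V) (α : Ordinal.{0}) : Prop := ∃ n, natZ (node (app s α.toZFSet) n) = t
/-- the `n`-th element of the almost disjoint set attached to `(b, b')` -/
noncomputable def adEl (s b b' : V) (n : ℕ) : V :=
  natZ (Nat.pair (node (app s b) n) (node (app s b') n))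
/-- `c` is almost disjoint from the set attached to `(b, b')` -/
def Cod (s c b b' : V) : Prop := ∃ m, ∀ n, m ≤ n → adEl s b b' n ∉ c
/-- the relation on `o` coded by `c` -/
noncomputable def code (s : V) (o : Ordinal.{0}) (c : V) : V := rel o.toZFSet o.toZFSet (Cod s c)

section inst
variable {s : V} [HasS F s] {a b c : Set V → (ℕ → V) → V} {o : Set V → (ℕ → V) → Ordinal.{0}}
  {n : Set V → (ℕ → V) → ℕ}
instance ud_st [UF F a] [UF F o] : UD F (fun M v => St s (a M v) (o M v)) := by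
  have := UF.lift (F := F) a; have := UF.lift (F := F) o; unfold St; infer_instance
instance uf_adEl [UF F a] [UF F b] [UF F n] :
    UF F (fun M v => adEl s (a M v) (b M v) (n M v)) := by unfold adEl; infer_instance
instance ud_cod [UF F a] [UF F b] [UF F c] : UD F (fun M v => Cod s (a M v) (b M v) (c M v)) := by
  have := UF.lift (F := F) a; have := UF.lift (F := F) b; have := UF.lift (F := F) c
  unfold Cod; infer_instance
instance uf_codeR [UF F o] [UF F a] : UF F (fun M v => code s (o M v) (a M v)) := by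
  have := UF.lift (F := F) a; unfold code; infer_instance
end inst

-- JOB A BEGIN
open Classical in
theorem b3a_succ (x : V) (n : ℕ) :
    node x (n + 1) = 2 * node x n + if natZ n ∈ x then 1 else 0 := rfl
theorem b3a_pos (x : V) (n : ℕ) : 1 ≤ node x n := by
  induction n with
  | zero => exact le_rfl
  | succ n ih => rw [b3a_succ]; omega
theorem node_eq_iff {x y : V} {n m : ℕ} :
    node x n = node y m ↔ n = m ∧ ∀ i < n, (natZ i ∈ x ↔ natZ i ∈ y) := by
  classical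
  induction n generalizing m with
  | zero =>
    cases m with
    | zero => exact ⟨fun _ => ⟨rfl, fun i hi => absurd hi (Nat.not_lt_zero i)⟩, fun _ => rfl⟩
    | succ m =>
      have := b3a_pos y m
      have h0 : node x 0 = 1 := rfl
      rw [b3a_succ, h0]
      exact ⟨fun h => by omega, fun h => by omega⟩
  | succ n ih =>
    cases m with
    | zero =>
      have := b3a_pos x n
      have h0 : node y 0 = 1 := rfl
      rw [b3a_succ, h0]
      exact ⟨fun h => by omega, fun h => by omega⟩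
    | succ m =>
      rw [b3a_succ, b3a_succ]
      constructor
      · intro h
        have h1 : node x n = node y m := by split_ifs at h <;> omega
        obtain ⟨rfl, h2⟩ := ih.1 h1
        refine ⟨rfl, fun i hi => ?_⟩
        rcases Nat.lt_succ_iff_lt_or_eq.1 hi with hi | rfl
        · exact h2 i hi
        · split_ifs at h with h3 h4 h4
          · exact iff_of_true h3 h4
          · omega
          · omega
          · exact iff_of_false h3 h4
      · rintro ⟨h1, h2⟩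
        obtain rfl : n = m := by omega
        rw [ih.2 ⟨rfl, fun i hi => h2 i (by omega)⟩, if_congr (h2 n (by omega)) rfl rfl]

/-- agreement of two reals below `n` -/
def b3aAg (x y : V) (n : ℕ) : Prop := ∀ i : ℕ, i < n → (natZ i ∈ x ↔ natZ i ∈ y)
instance b3a_ud {a b : Set V → (ℕ → V) → V} {n : Set V → (ℕ → V) → ℕ} [UF F a] [UF F b] [UF F n] :
    UD F (fun M v => b3aAg (a M v) (b M v) (n M v)) := by
  have := UF.lift (F := F) a; have := UF.lift (F := F) b; have := UF.lift (F := F) n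
  unfold b3aAg; infer_instance
theorem b3a_ag_succ {x y : V} {n : ℕ} (h : b3aAg x y n) (h' : natZ n ∈ x ↔ natZ n ∈ y) :
    b3aAg x y (n + 1) := fun i hi => by
  rcases Nat.lt_succ_iff_lt_or_eq.1 hi with hi | rfl
  · exact h i hi
  · exact h'
theorem b3a_st {s y : V} {n b : ℕ} {α : Ordinal.{0}} (hb : b ≤ 1) :
    St s (natZ (2 * node y n + b)) α ↔
      b3aAg (app s α.toZFSet) y n ∧ (natZ n ∈ app s α.toZFSet ↔ b = 1) := by
  constructor
  · rintro ⟨m, hm⟩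
    rw [natZ_inj] at hm
    cases m with
    | zero =>
      have := b3a_pos y n
      have h0 : node (app s α.toZFSet) 0 = 1 := rfl
      omega
    | succ m =>
      rw [b3a_succ] at hm
      have h1 : node (app s α.toZFSet) m = node y n := by split_ifs at hm <;> omega
      obtain ⟨rfl, h2⟩ := node_eq_iff.1 h1
      refine ⟨h2, ?_⟩
      split_ifs at hm with h3
      · exact iff_of_true h3 (by omega)
      · exact iff_of_false h3 (by omega)
  · rintro ⟨h1, h2⟩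
    refine ⟨n + 1, ?_⟩
    rw [natZ_inj, b3a_succ, node_eq_iff.2 ⟨rfl, h1⟩]
    split_ifs with h3
    · rw [h2.1 h3]
    · have : b ≠ 1 := fun e => h3 (h2.2 e)
      omega
theorem b3a_ext {x y : V} (hx : x ⊆ omegaZ) (hy : y ⊆ omegaZ)
    (h : ∀ i, natZ i ∈ x ↔ natZ i ∈ y) : x = y := by
  ext z
  constructor
  · intro hz; obtain ⟨i, rfl⟩ := mem_omegaZ.1 (hx hz); exact (h i).1 hz
  · intro hz; obtain ⟨i, rfl⟩ := mem_omegaZ.1 (hy hz); exact (h i).2 hz
theorem b3a_inj {s w r a b : V} (hi : IsInj s w r) (ha : a ∈ w) (hb : b ∈ w)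
    (e : app s a = app s b) : a = b := by
  obtain ⟨h1, h2, _⟩ := isFunc_iff.1 hi.1
  exact hi.2 a b _ (h1.pair_app_mem (h2 ▸ ha)) (e ▸ h1.pair_app_mem (h2 ▸ hb))

/-- the leftmost stationary branch -/
theorem b3a_branch {U : Set V} [IsZFC U] {s : V} (hs : s ∈ U) :
    ∃ y ∈ U, y ⊆ omegaZ ∧
      ∀ n, natZ n ∈ y ↔ ¬ Stat U (om1 U) (St s (natZ (2 * node y n + 0))) := by
  classical
  haveI : In U s := ⟨hs⟩
  let p : ℕ → ℕ := fun n => Nat.rec 1 (fun _ a =>
    2 * a + if ¬ Stat U (om1 U) (St s (natZ (2 * a + 0))) then 1 else 0) n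
  let y : V := ZFSet.sep (fun z => ¬ Stat U (om1 U) (St s (natZ (2 * p (natOf z) + 0)))) omegaZ
  have h1 : ∀ n, natZ n ∈ y ↔ ¬ Stat U (om1 U) (St s (natZ (2 * p n + 0))) := fun n => by
    simp only [y, mem_sep, natZ_mem_omegaZ, true_and, natOf_natZ]
  have h2 : ∀ n, node y n = p n := fun n => by
    induction n with
    | zero => rfl
    | succ n ih => rw [b3a_succ, ih, if_congr (h1 n) rfl rfl]
  refine ⟨y, ?_, sep_subset, fun n => by rw [h2]; exact h1 n⟩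
  exact sep_mem U (fun z => ¬ Stat U (om1 U) (St s (natZ (2 * (Nat.rec 1 (fun _ a =>
    2 * a + if ¬ Stat U (om1 U) (St s (natZ (2 * a + 0))) then 1 else 0) (natOf z) : ℕ) + 0))))
    IsZ.omega

/-- infinitely many pairwise incompatible stationary nodes -/
theorem exists_antichain {U : Set V} [IsZFC U] {s : V} (hs : s ∈ U)
    (hi : IsInj s (om1 U).toZFSet (pw U omegaZ)) :
    ∃ A ∈ U, A ⊆ omegaZ ∧ (A : Set V).Infinite ∧ (∀ t ∈ A, Stat U (om1 U) (St s t)) ∧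
      ∀ t ∈ A, ∀ t' ∈ A, t ≠ t' → ∀ α, St s t α → ¬ St s t' α := by
  obtain ⟨y, hy, hyo, hb⟩ := b3a_branch hs
  haveI : In U s := ⟨hs⟩
  haveI : In U y := ⟨hy⟩
  have hw := om1_mem U
  have h0 : (0 : Ordinal.{0}) < om1 U := (isSuccLimit_om1 U).pos
  have hst : ∀ n, Stat U (om1 U) (fun α => b3aAg (app s α.toZFSet) y n) := fun n => by
    induction n with
    | zero =>
      intro h
      obtain ⟨ν, _, _, h⟩ := h.exists
      exact h fun i hi => absurd hi (Nat.not_lt_zero i)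
    | succ n ih =>
      by_cases h : natZ n ∈ y
      · intro h1
        refine ih ((h1.and hw (not_not.1 ((hb n).1 h))).mono fun ν _ _ h2 h3 => ?_)
        refine h2.1 (b3a_ag_succ h3 (iff_of_true ?_ h))
        by_contra h4
        exact h2.2 ((b3a_st zero_le_one).2 ⟨h3, iff_of_false h4 zero_ne_one⟩)
      · refine (not_not.1 (mt (hb n).2 h)).mono fun ν _ _ h2 => ?_
        obtain ⟨h3, h4⟩ := (b3a_st zero_le_one).1 h2
        exact b3a_ag_succ h3 (iff_of_false (fun h5 => zero_ne_one (h4.1 h5)) h)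
  refine ⟨ZFSet.sep (fun t => (∃ n : ℕ, t = natZ (2 * node y n + 1) ∧ natZ n ∉ y) ∧
    Stat U (om1 U) (St s t)) omegaZ, sep_mem U _ IsZ.omega, sep_subset, fun hf => ?_,
    fun t ht => (mem_sep.1 ht).2.2, fun t ht t' ht' hne α h1 h2 => ?_⟩
  · have hf2 : {n : ℕ | natZ n ∉ y ∧
        Stat U (om1 U) (St s (natZ (2 * node y n + 1)))}.Finite := by
      refine Set.Finite.of_finite_image (f := fun n => natZ (2 * node y n + 1))
        (hf.subset ?_) fun m _ n _ e => ?_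
      · rintro _ ⟨n, hn, rfl⟩
        exact mem_sep.2 ⟨natZ_mem_omegaZ _, ⟨n, rfl, hn.1⟩, hn.2⟩
      · have := natZ_inj.1 e
        exact (node_eq_iff.1 (show node y m = node y n by omega)).1
    obtain ⟨n0, hn0⟩ := hf2.bddAbove
    have hc := cub_all_nat (N := U) (fun n ν => n0 + 1 ≤ n →
      b3aAg (app s ν.toZFSet) y n → (natZ n ∈ app s ν.toZFSet ↔ natZ n ∈ y)) fun n => by
        by_cases hn : n0 + 1 ≤ n
        · by_cases h : natZ n ∈ y
          · refine (not_not.1 ((hb n).1 h)).mono fun ν _ _ h2 _ h3 => iff_of_true ?_ h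
            by_contra h4
            exact h2 ((b3a_st zero_le_one).2 ⟨h3, iff_of_false h4 zero_ne_one⟩)
          · have h1 : ¬ Stat U (om1 U) (St s (natZ (2 * node y n + 1))) := fun h1 => by
              have := hn0 ⟨h, h1⟩
              omega
            exact (not_not.1 h1).mono fun ν _ _ h2 _ h3 => iff_of_false
              (fun h4 => h2 ((b3a_st le_rfl).2 ⟨h3, iff_of_true h4 rfl⟩)) h
        · exact (cub_gt hw h0).mono fun ν _ _ _ h2 => absurd h2 hn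
    have key : ∀ β < om1 U, ∃ ν < om1 U, β < ν ∧ app s ν.toZFSet = y := fun β hβ => by
      obtain ⟨ν, h1, _, h2, h3, h4⟩ := (hst (n0 + 1)).exists_and (hc.and hw (cub_gt hw hβ))
      have h5 : ∀ n, n0 + 1 ≤ n → b3aAg (app s ν.toZFSet) y n := fun n hn => by
        induction n, hn using Nat.le_induction with
        | base => exact h2
        | succ n hn ih => exact b3a_ag_succ ih (h3 n hn ih)
      refine ⟨ν, h1, h4, b3a_ext ?_ hyo fun i => h5 (n0 + 1 + i) (by omega) i (by omega)⟩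
      exact (mem_pw.1 ((isFunc_iff.1 hi.1).2.2 _ (toZFSet_mem_toZFSet_iff.2 h1))).2
    obtain ⟨ν, h1, _, h2⟩ := key 0 h0
    obtain ⟨ν', h3, h4, h5⟩ := key ν h1
    exact h4.ne (toZFSet_injective (b3a_inj hi (toZFSet_mem_toZFSet_iff.2 h1)
      (toZFSet_mem_toZFSet_iff.2 h3) (h2.trans h5.symm)))
  · obtain ⟨n, rfl, hn⟩ := (mem_sep.1 ht).2.1
    obtain ⟨n', rfl, hn'⟩ := (mem_sep.1 ht').2.1
    obtain ⟨h3, h4⟩ := (b3a_st le_rfl).1 h1
    obtain ⟨h5, h6⟩ := (b3a_st le_rfl).1 h2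
    rcases lt_trichotomy n n' with h | rfl | h
    · exact hn ((h5 n h).1 (h4.2 rfl))
    · exact hne rfl
    · exact hn' ((h3 n' h).1 (h6.2 rfl))
theorem adEl_inj {s b b' : V} {m n : ℕ} (h : adEl s b b' m = adEl s b b' n) : m = n :=
  (node_eq_iff.1 (Nat.pair_eq_pair.1 (natZ_inj.1 h)).1).1
/-- almost disjointness -/
theorem adEl_ad {s w r : V} (hr : r ⊆ powerset omegaZ) (hi : IsInj s w r) {a a' b b' : V}
    (ha : a ∈ w) (ha' : a' ∈ w) (hb : b ∈ w) (hb' : b' ∈ w) (hne : pair a a' ≠ pair b b') :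
    ∃ m, ∀ n, m ≤ n → ∀ k, adEl s a a' n ≠ adEl s b b' k := by
  have key : ∀ x ∈ w, ∀ y ∈ w, x ≠ y → ∃ m, ∀ n, m ≤ n → ∀ k,
      node (app s x) n ≠ node (app s y) k := fun x hx y hy hxy => by
    have h1 : ∀ z ∈ w, app s z ⊆ omegaZ := fun z hz =>
      mem_powerset.1 (hr ((isFunc_iff.1 hi.1).2.2 z hz))
    have h2 : ¬ ∀ i, natZ i ∈ app s x ↔ natZ i ∈ app s y := fun h =>
      hxy (b3a_inj hi hx hy (b3a_ext (h1 x hx) (h1 y hy) h))
    obtain ⟨i, h3⟩ := not_forall.1 h2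
    exact ⟨i + 1, fun n hn k e => h3 ((node_eq_iff.1 e).2 i hn)⟩
  by_cases e : a = b
  · obtain ⟨m, hm⟩ := key a' ha' b' hb' fun e' => hne (by rw [e, e'])
    exact ⟨m, fun n hn k h => hm n hn k (Nat.pair_eq_pair.1 (natZ_inj.1 h)).2⟩
  · obtain ⟨m, hm⟩ := key a ha b hb e
    exact ⟨m, fun n hn k h => hm n hn k (Nat.pair_eq_pair.1 (natZ_inj.1 h)).1⟩
-- JOB A END

/-- covering of functions by countable sets of the smaller model -/
def Cover (N₀ N : Set V) : Prop :=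
  ∀ f ∈ N, ∀ a ∈ N₀, ∀ b ∈ N₀, ∃ K ∈ N₀, ∀ x ∈ a,
    Ctbl N₀ (app K x) ∧ (app f x ∈ b → app f x ∈ app K x)

/-- order of the almost disjoint coding: conditions `(u, K)`, `u` a finite set of pairs `(Y, k)`,
`K` a finite set of promises `(Y, (b, b'))` -/
def Le1 (s c' c : V) : Prop :=
  fst c ⊆ fst c' ∧ snd c ⊆ snd c' ∧ ∀ x ∈ fst c', x ∉ fst c →
    ∀ y ∈ snd c, fst y = fst x → ∀ n, snd x ≠ adEl s (fst (snd y)) (snd (snd y)) n
instance ud_le1 {s : V} [HasS F s] {a b : Set V → (ℕ → V) → V} [UF F a] [UF F b] :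
    UD F (fun M v => Le1 s (a M v) (b M v)) := by
  have := UF.lift (F := F) a; have := UF.lift (F := F) b; unfold Le1; infer_instance
/-- the relations on `ω₁` in `N` -/
noncomputable def relS (N : Set V) : V := pw N (prod (om1 N).toZFSet (om1 N).toZFSet)
/-- the poset -/
noncomputable def Q1 (N : Set V) : V :=
  rel (pw N (prod (relS N) omegaZ))
    (pw N (prod (relS N) (prod (om1 N).toZFSet (om1 N).toZFSet)))
    (fun u K => (u : Set V).Finite ∧ (K : Set V).Finite ∧ ∀ y ∈ K, snd y ∈ fst y)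
noncomputable def le1 (N : Set V) (s : V) : V := rel (Q1 N) (Q1 N) (Le1 s)

-- JOB B BEGIN
theorem b3b_prod {a b : V} {μ : Ordinal.{0}} (hl : Order.IsSuccLimit μ) (ha : a.rank < μ)
    (hb : b.rank < μ) : (prod a b).rank < μ := by
  refine (rank_mono (show prod a b ⊆ powerset (powerset (a ∪ b)) by
    rw [ZFSet.prod, pairSep]; exact sep_subset)).trans_lt ?_
  rw [rank_powerset, rank_powerset, rank_union]
  exact hl.succ_lt (hl.succ_lt (max_lt ha hb))
theorem b3b_rel {a b : V} {P : V → V → Prop} : rel a b P ⊆ prod a b := by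
  rw [rel]; exact sep_subset
theorem b3b_pw (N : Set V) {a : V} {μ : Ordinal.{0}} (hl : Order.IsSuccLimit μ) (ha : a.rank < μ) :
    (pw N a).rank < μ := by
  refine (rank_mono (show pw N a ⊆ powerset a from sep_subset)).trans_lt ?_
  rw [rank_powerset]
  exact hl.succ_lt ha
theorem b3b_fin {X H x : V} [IsZ (H : Set V)] (he : ElemSub X H) (hx : x ∈ X)
    (hf : (x : Set V).Finite) : x ⊆ X :=
  he.subset_of_ctbl hx (ctbl_of_finite hf (IsZ.trans (M := (H : Set V)) _ (he.subset hx)))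
section q
variable {N : Set V} [IsZFC N] {s : V}
theorem b3b_relS : relS N ∈ N := by unfold relS; exact memV_of N _
theorem pair_mem_Q1 {u K : V} : pair u K ∈ Q1 N ↔
    (u : Set V).Finite ∧ (K : Set V).Finite ∧ u ⊆ prod (relS N) omegaZ ∧
      K ⊆ prod (relS N) (prod (om1 N).toZFSet (om1 N).toZFSet) ∧ ∀ y ∈ K, snd y ∈ fst y := by
  haveI : In N (relS N) := ⟨b3b_relS⟩
  rw [Q1, pair_mem_rel, mem_pw, mem_pw]
  exact ⟨fun h => ⟨h.2.2.1, h.2.2.2.1, h.1.2, h.2.1.2, h.2.2.2.2⟩, fun ⟨h1, h2, h3, h4, h5⟩ =>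
    ⟨⟨IsZ.finite_mem N h1 fun x hx => IsZ.trans _ (memV_of N _) x (h3 hx), h3⟩,
      ⟨IsZ.finite_mem N h2 fun x hx => IsZ.trans _ (memV_of N _) x (h4 hx), h4⟩, h1, h2, h5⟩⟩
theorem Q1_eq_pair {c : V} (h : c ∈ Q1 N) : c = pair (fst c) (snd c) := by
  rw [Q1, rel, mem_sep] at h
  obtain ⟨u, -, K, -, rfl⟩ := mem_prod.1 h.1
  rw [fst_pair, snd_pair]
theorem Q1_mem : Q1 N ∈ N := by
  haveI : In N (relS N) := ⟨b3b_relS⟩
  unfold Q1; exact memV_of N _
theorem le1_mem (hs : s ∈ N) : le1 N s ∈ N := by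
  haveI : In N (Q1 N) := ⟨Q1_mem⟩
  haveI : In N s := ⟨hs⟩
  unfold le1; exact memV_of N _
omit [IsZFC N] in
theorem b3b_le {p q : V} : pair p q ∈ le1 N s ↔ p ∈ Q1 N ∧ q ∈ Q1 N ∧ Le1 s p q := pair_mem_rel
theorem isPO_Q1 : IsPO (Q1 N) (le1 N s) := by
  refine ⟨b3b_rel, fun p hp => b3b_le.2 ⟨hp, hp, subset_rfl, subset_rfl,
    fun x h1 h2 => absurd h1 h2⟩, fun p hp q _ r hr h1 h2 => ?_⟩
  obtain ⟨-, -, a1, a2, a3⟩ := b3b_le.1 h1
  obtain ⟨-, -, b1, b2, b3⟩ := b3b_le.1 h2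
  refine b3b_le.2 ⟨hp, hr, b1.trans a1, b2.trans a2, fun x k1 k2 y k3 => ?_⟩
  by_cases k : x ∈ fst q
  · exact b3 x k k2 y k3
  · exact a3 x k1 k y (b2 k3)
theorem rank_Q1 {μ : Ordinal.{0}} (h : Inac N μ) : (Q1 N).rank < μ := by
  have hl := h.2.2.1
  have h1 : (om1 N).toZFSet.rank < μ := (rank_toZFSet _).trans_lt h.om1_lt
  have h2 := b3b_prod hl h1 h1
  have h3 : (relS N).rank < μ := b3b_pw N hl h2
  rw [Q1]
  exact (rank_mono b3b_rel).trans_lt (b3b_prod hl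
    (b3b_pw N hl (b3b_prod hl h3 (rank_omegaZ.trans_lt h.1))) (b3b_pw N hl (b3b_prod hl h3 h2)))
/-- every condition is a master condition for every elementary substructure -/
theorem master_Q1 {X H q : V} [IsZ (H : Set V)] (he : ElemSub X H) (hQ : Q1 N ∈ X) :
    Master X (Q1 N) (le1 N s) q := by
  intro D hD hd q' hq' _
  have hne : X.Nonempty := (nonempty_def X).2 ⟨_, hQ⟩
  obtain ⟨c, c1, c2⟩ := hd.2 q' hq'
  have c3 := hd.1 c1
  obtain ⟨a1, a2, a3, a4, a5⟩ := pair_mem_Q1.1 (Q1_eq_pair c3 ▸ c3)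
  have k1 : ∀ x ∈ fst c, fst x ∈ X → x ∈ fst c ∩ X := fun x hx h => by
    obtain ⟨Y, -, k, hk, rfl⟩ := mem_prod.1 (a3 hx)
    obtain ⟨n, rfl⟩ := mem_omegaZ.1 hk
    rw [fst_pair] at h
    exact mem_inter.2 ⟨hx, he.pair_mem h (he.natZ_mem hne n)⟩
  obtain ⟨d, d1, d2, d3, d4⟩ := he.ex3
    (fun d D u Z => d ∈ D ∧ u ⊆ fst d ∧ ∀ x ∈ fst d, fst x ∈ Z → x ∈ u) hD
    (he.finite_mem hne (s := fst c ∩ X) (a1.subset fun x hx => (mem_inter.1 hx).1)
      fun x hx => (mem_inter.1 hx).2)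
    (he.finite_mem hne (s := img fst (snd c) ∩ X)
      ((a2.image fst).subset fun x hx => mem_img.1 (mem_inter.1 hx).1) fun x hx => (mem_inter.1 hx).2)
    ⟨c, IsZ.trans (M := (H : Set V)) _ (he.subset hD) _ c1, c1, fun x hx => (mem_inter.1 hx).1,
      fun x hx h => k1 x hx (mem_inter.1 h).2⟩
  have d5 := hd.1 d2
  obtain ⟨b1, b2, b3, b4, b5⟩ := pair_mem_Q1.1 (Q1_eq_pair d5 ▸ d5)
  have r1 : pair (fst d ∪ fst c) (snd d ∪ snd c) ∈ Q1 N := pair_mem_Q1.2
    ⟨(b1.union a1).subset fun x hx => mem_union.1 hx, (b2.union a2).subset fun x hx => mem_union.1 hx,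
      fun x hx => (mem_union.1 hx).elim (@b3 x) (@a3 x),
      fun x hx => (mem_union.1 hx).elim (@b4 x) (@a4 x),
      fun x hx => (mem_union.1 hx).elim (b5 x) (a5 x)⟩
  refine ⟨d, d2, d1, _, r1, isPO_Q1.trans _ r1 c c3 q' hq' (b3b_le.2 ⟨r1, c3, ?_⟩) c2,
    b3b_le.2 ⟨r1, d5, ?_⟩⟩ <;> rw [Le1, fst_pair, snd_pair]
  · refine ⟨fun x hx => mem_union.2 (Or.inr hx), fun x hx => mem_union.2 (Or.inr hx),
      fun x h1 h2 y h3 h4 => absurd ?_ h2⟩
    have h5 := (mem_union.1 h1).resolve_right h2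
    exact (mem_inter.1 (d4 x h5 (mem_inter.2 ⟨mem_img.2 ⟨y, h3, h4⟩,
      he.fst_mem (b3b_fin he (he.fst_mem d1) b1 h5)⟩))).1
  · exact ⟨fun x hx => mem_union.2 (Or.inl hx), fun x hx => mem_union.2 (Or.inl hx),
      fun x h1 h2 y h3 h4 => absurd (d3 (k1 x ((mem_union.1 h1).resolve_left h2)
        (h4 ▸ he.fst_mem (b3b_fin he (he.snd_mem d1) b2 h3)))) h2⟩
theorem cover_Q1 (hc : N.Countable) (hs : s ∈ N) {G : V} (hG : Gen N (Q1 N) (le1 N s) G) :
    Cover N (gext N G) := by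
  intro f hf a ha b hb
  obtain ⟨Δ, h1, h2, -, h3⟩ := exists_decRel hc isPO_Q1 Q1_mem (le1_mem hs) hG hf ha hb
  haveI : In N (Q1 N) := ⟨Q1_mem⟩
  haveI : In N Δ := ⟨h1⟩
  haveI : In N b := ⟨hb⟩
  obtain ⟨K, k1, -, -, k2⟩ := choice_fn N (fun x Y => Ctbl N Y ∧ ∀ p ∈ Q1 N, ∀ y ∈ b,
    pair p (pair x y) ∈ Δ → y ∈ Y) ha fun x hx => by
      have t : pair (pair (Q1 N) (le1 N s)) (pair Δ x) ∈ N := by
        simp only [IsZ.pair_mem_iff N]
        exact ⟨⟨Q1_mem, le1_mem hs⟩, h1, IsZ.trans _ ha _ hx⟩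
      obtain ⟨H, H1, H2, -, H3⟩ := exists_H N t
      obtain ⟨X, X1, X2, -, X3, X4⟩ := exists_ctbl_hull N H1
        (Y := {pair (pair (Q1 N) (le1 N s)) (pair Δ x)}) (ctbl_of_finite (by simp) (by simpa using t))
        fun z hz => mem_singleton.1 hz ▸ H3
      have X5 := X2 (mem_singleton.2 rfl)
      simp only [X3.pair_mem_iff] at X5
      exact ⟨X, X1, X4, fun p hp y _ hy => Master.mem X3 isPO_Q1 X5.1.1 X5.1.2 X5.2.1 h2
        (master_Q1 X3 X5.1.1) (isPO_Q1.refl p hp) X5.2.2 hy⟩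
  refine ⟨K, k1, fun x hx => ⟨(k2 x hx).1, fun h => ?_⟩⟩
  obtain ⟨p, p1, p2⟩ := h3 x hx h
  exact (k2 x hx).2 p (hG.sub p1) _ h p2
end q
-- JOB B END

-- JOB C BEGIN
theorem b3c_le {N : Set V} {s p q : V} :
    pair p q ∈ le1 N s ↔ p ∈ Q1 N ∧ q ∈ Q1 N ∧ Le1 s p q := pair_mem_rel
theorem b3c_fin {a b : V} (h : (a : Set V).Finite) : ((insert b a : V) : Set V).Finite :=
  (h.insert b).subset fun y hy => mem_insert_iff.1 hy
theorem b3c_sub {a b c : V} (h : a ⊆ c) (hb : b ∈ c) : insert b a ⊆ c := fun y hy =>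
  (mem_insert_iff.1 hy).elim (fun e => e ▸ hb) fun k => h k
/-- every true promise is made by a condition of the generic filter -/
theorem b3c_promise {N : Set V} [IsZFC N] {s G Y z : V} (hG : Gen N (Q1 N) (le1 N s) G)
    (hY : Y ∈ relS N) (hz : z ∈ Y) : ∃ q ∈ G, pair Y z ∈ snd q := by
  obtain ⟨hYN, hYs⟩ := mem_pw.1 hY
  haveI : In N Y := ⟨hYN⟩
  haveI : In N z := ⟨IsZ.trans Y hYN z hz⟩
  obtain ⟨q, hq, k⟩ := hG.meet _ (sep_mem N (fun q => pair Y z ∈ snd q) Q1_mem)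
    ⟨fun q hq => (mem_sep.1 hq).1, fun p hp => by
      have e := Q1_eq_pair hp
      obtain ⟨h1, h2, h3, h4, h5⟩ := pair_mem_Q1.1 (e ▸ hp)
      have h6 : pair (fst p) (insert (pair Y z) (snd p)) ∈ Q1 N :=
        pair_mem_Q1.2 ⟨h1, b3c_fin h2, h3, b3c_sub h4 (pair_mem_prod.2 ⟨hY, hYs hz⟩),
          fun y hy => by
            rcases mem_insert_iff.1 hy with rfl | hy
            · simpa using hz
            · exact h5 y hy⟩
      refine ⟨_, mem_sep.2 ⟨h6, by simp⟩, b3c_le.2 ⟨h6, hp, ?_⟩⟩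
      unfold Le1
      rw [fst_pair, snd_pair]
      exact ⟨fun _ h => h, fun _ h => mem_insert_of_mem _ h, fun x hx hx' => absurd hx hx'⟩⟩
  exact ⟨q, hq, (mem_sep.1 k).2⟩
/-- the generic code meets the set of a pair outside `Y` infinitely often -/
theorem b3c_meet {N : Set V} [IsZFC N] {s r G Y b b' : V} (hs : s ∈ N)
    (hr : r ⊆ powerset omegaZ) (hi : IsInj s (om1 N).toZFSet r)
    (hG : Gen N (Q1 N) (le1 N s) G) (hY : Y ∈ relS N) (hb : b ∈ (om1 N).toZFSet)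
    (hb' : b' ∈ (om1 N).toZFSet) (hn : pair b b' ∉ Y) (m : ℕ) :
    ∃ q ∈ G, ∃ n : ℕ, m ≤ n ∧ pair Y (adEl s b b' n) ∈ fst q := by
  obtain ⟨hYN, hYs⟩ := mem_pw.1 hY
  haveI : In N Y := ⟨hYN⟩
  haveI : In N s := ⟨hs⟩
  haveI : In N b := ⟨IsZ.trans _ (om1_mem N) b hb⟩
  haveI : In N b' := ⟨IsZ.trans _ (om1_mem N) b' hb'⟩
  haveI : In N m := ⟨IsZ.natZ_mem N m⟩
  obtain ⟨q, hq, k⟩ := hG.meet _
    (sep_mem N (fun q => ∃ n : ℕ, m ≤ n ∧ pair Y (adEl s b b' n) ∈ fst q) Q1_mem)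
    ⟨fun q hq => (mem_sep.1 hq).1, fun p hp => by
      have e := Q1_eq_pair hp
      obtain ⟨h1, h2, h3, h4, h5⟩ := pair_mem_Q1.1 (e ▸ hp)
      have h7 : ∀ᶠ n in Filter.atTop, ∀ y ∈ ((snd p : V) : Set V), fst y = Y →
          ∀ k, adEl s b b' n ≠ adEl s (fst (snd y)) (snd (snd y)) k := by
        refine (Filter.eventually_all_finite h2).2 fun y hy => ?_
        by_cases hyY : fst y = Y
        · have k1 := h5 y hy
          rw [hyY] at k1
          obtain ⟨a, ha, a', ha', k2⟩ := mem_prod.1 (hYs k1)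
          obtain ⟨m', hm'⟩ := adEl_ad hr hi hb hb' ha ha' fun k3 => hn (k3 ▸ k2 ▸ k1)
          refine Filter.eventually_atTop.2 ⟨m', fun n hn _ => ?_⟩
          rw [k2, fst_pair, snd_pair]
          exact hm' n hn
        · exact Filter.Eventually.of_forall fun n k => absurd k hyY
      obtain ⟨n, k1, k2⟩ := ((Filter.eventually_ge_atTop m).and h7).exists
      have h6 : pair (insert (pair Y (adEl s b b' n)) (fst p)) (snd p) ∈ Q1 N :=
        pair_mem_Q1.2 ⟨b3c_fin h1, h2, b3c_sub h3 (pair_mem_prod.2 ⟨hY, natZ_mem_omegaZ _⟩), h4,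
          h5⟩
      refine ⟨_, mem_sep.2 ⟨h6, n, k1, by simp⟩, b3c_le.2 ⟨h6, hp, ?_⟩⟩
      unfold Le1
      rw [fst_pair, snd_pair]
      refine ⟨fun _ h => mem_insert_of_mem _ h, fun _ h => h, fun x hx hx' y hy e' => ?_⟩
      rw [(mem_insert_iff.1 hx).resolve_right hx'] at e' ⊢
      rw [fst_pair] at e'
      rw [snd_pair]
      exact k2 y hy e'⟩
  exact ⟨q, hq, (mem_sep.1 k).2⟩
theorem code_Q1 {N : Set V} [IsZFC N] {s r : V} (hs : s ∈ N) (hr : r ⊆ powerset omegaZ)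
    (hi : IsInj s (om1 N).toZFSet r) {G : V} (hG : Gen N (Q1 N) (le1 N s) G) {Y : V}
    (hY : Y ∈ relS N) : ∃ c ∈ gext N G, c ⊆ omegaZ ∧ code s (om1 N) c = Y := by
  obtain ⟨hYN, hYs⟩ := mem_pw.1 hY
  haveI := isZ_gext isPO_Q1 Q1_mem (le1_mem hs) hG
  haveI : In (gext N G) G := ⟨gen_mem_gext Q1_mem hG⟩
  haveI : In (gext N G) Y := ⟨subset_gext Q1_mem hG hYN⟩
  refine ⟨_, sep_mem (gext N G) (fun k => ∃ q ∈ G, pair Y k ∈ fst q) IsZ.omega,
    fun k hk => (mem_sep.1 hk).1, ?_⟩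
  ext z
  rw [code, mem_rel]
  constructor
  · rintro ⟨b, hb, b', hb', rfl, m, hm⟩
    by_contra hn
    obtain ⟨q, hq, n, k1, k2⟩ := b3c_meet hs hr hi hG hY hb hb' hn m
    exact hm n k1 (mem_sep.2 ⟨natZ_mem_omegaZ _, q, hq, k2⟩)
  · intro hz
    obtain ⟨b, hb, b', hb', rfl⟩ := mem_prod.1 (hYs hz)
    obtain ⟨q, hq, k⟩ := b3c_promise hG hY hz
    have h1 := (pair_mem_Q1.1 (Q1_eq_pair (hG.sub hq) ▸ hG.sub hq)).1
    have h2 : {n : ℕ | pair Y (adEl s b b' n) ∈ fst q}.Finite :=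
      h1.preimage (f := fun n : ℕ => pair Y (adEl s b b' n)) fun n _ n' _ e =>
        adEl_inj (pair_inj.1 e).2
    obtain ⟨m, hm⟩ := h2.bddAbove
    refine ⟨b, hb, b', hb', rfl, m + 1, fun n hn hc => ?_⟩
    obtain ⟨q', hq', k'⟩ := (mem_sep.1 hc).2
    obtain ⟨t, -, t1, t2⟩ := hG.dir q hq q' hq'
    have h3 := (b3c_le.1 t1).2.2.2.2 _ ((b3c_le.1 t2).2.2.1 k')
      (fun h => absurd (hm h) (by omega)) _ k (by simp) n
    simp at h3
/-- the second forcing -/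
theorem forcing1 {N : Set V} [IsZFC N] (hc : N.Countable) {μ : Ordinal.{0}} (hμ : Inac N μ)
    {s r : V} (hs : s ∈ N) (hr : r ⊆ powerset omegaZ) (hi : IsInj s (om1 N).toZFSet r) :
    ∃ N', SmallExt N N' μ ∧ Cover N N' ∧
      ∀ Y ∈ relS N, ∃ c ∈ HC N', code s (om1 N) c = Y := by
  have h0 : pair ∅ ∅ ∈ Q1 N := pair_mem_Q1.2 ⟨by simp, by simp, empty_subset _, empty_subset _,
    fun y hy => absurd hy (notMem_empty y)⟩
  obtain ⟨G, hG, -⟩ := exists_gen hc (isPO_Q1 (s := s)) h0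
  have h1 := small_forcing hc isPO_Q1 Q1_mem (le1_mem hs) hG hμ (rank_Q1 hμ)
  haveI := h1.zfc
  refine ⟨_, h1, cover_Q1 hc hs hG, fun Y hY => ?_⟩
  obtain ⟨c, k1, k2, k3⟩ := code_Q1 hs hr hi hG hY
  exact ⟨c, mem_HC_iff.2 ⟨ctbl_omega.of_subset k1 k2, fun y hy => z5d_trans z5d_omega (k2 hy)⟩,
    k3⟩
section cover
variable {N₀ N : Set V} [IsZFC N₀] [IsZFC N] (hs : N₀ ⊆ N) (h : Cover N₀ N)
include hs h
theorem Cover.om1_eq : om1 N = om1 N₀ := by
  refine le_antisymm (le_of_not_gt fun hlt => ?_) (om1_mono hs)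
  obtain ⟨f, hf, h1, h2⟩ := (lt_om1_iff.1 hlt).exists_enum
    ((nonempty_def _).2 ⟨_, toZFSet_mem_toZFSet_iff.2 (omega_lt_om1 N₀)⟩)
  obtain ⟨K, hK, H⟩ := h _ hf _ IsZ.omega _ (om1_mem N₀)
  refine lt_irrefl _ (lt_om1_iff.2 (((z5d_img hK ctbl_omega).sUnion fun y hy => ?_).of_subset
    (om1_mem N₀) fun x hx => ?_))
  · obtain ⟨x, hx, rfl⟩ := mem_img.1 hy
    exact (H x hx).1
  · obtain ⟨n, rfl⟩ := h2 x hx
    have h3 := (H _ (natZ_mem_omegaZ n)).2
    rw [app_sqN] at h3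
    exact mem_sUnion.2 ⟨_, mem_img.2 ⟨_, natZ_mem_omegaZ n, rfl⟩, h3 hx⟩
/-- domination of functions on `ω₁` into an ordinal of uncountable cofinality -/
theorem Cover.dominate {l : Ordinal.{0}} (hl : l.toZFSet ∈ N₀) (hcof : CofGt N₀ l) {f : V}
    (hf : f ∈ N) (hb : ∀ ξ < om1 N₀, (app f ξ.toZFSet).rank < l) :
    ∃ g ∈ N₀, ∀ ξ < om1 N₀, (app g ξ.toZFSet).rank < l ∧
      (app f ξ.toZFSet).rank ≤ (app g ξ.toZFSet).rank := by
  haveI : In N f := ⟨hf⟩
  haveI : In N (om1 N₀) := ⟨hs (om1_mem N₀)⟩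
  obtain ⟨K, hK, H⟩ := h _
    (memV_of N (lam (om1 N₀).toZFSet fun x => (app f x).rank.toZFSet)) _ (om1_mem N₀) _ hl
  haveI : In N₀ K := ⟨hK⟩
  haveI : In N₀ l := ⟨hl⟩
  refine ⟨_, memV_of N₀ (lam (om1 N₀).toZFSet fun x => app K x ∩ l.toZFSet), fun ξ hξ => ?_⟩
  have h1 := toZFSet_mem_toZFSet_iff.2 hξ
  obtain ⟨h2, h3⟩ := H _ h1
  rw [app_lam _ h1] at h3 ⊢
  have h4 := toZFSet_mem_toZFSet_iff.2 (hb ξ hξ)
  haveI : In N₀ ξ := ⟨IsZ.trans _ (om1_mem N₀) _ h1⟩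
  refine ⟨hcof.rank_lt (h2.of_subset (memV_of N₀ _) fun x hx => (mem_inter.1 hx).1)
    fun x hx => z5c_mem (mem_inter.1 hx).2, ?_⟩
  have h5 := rank_lt_of_mem (mem_inter.2 ⟨h3 h4, h4⟩)
  rw [rank_toZFSet] at h5
  exact h5.le
theorem Cover.cub {P : Ordinal.{0} → Prop} (hP : Cub N (om1 N₀) P) : Cub N₀ (om1 N₀) P := by
  obtain ⟨f, hf, hb, H⟩ := hP
  obtain ⟨g, hg, K⟩ := h.dominate hs (om1_mem N₀) (cofGt_om1 N₀) hf hb
  exact ⟨g, hg, fun ξ hξ => (K ξ hξ).1, fun ν hν h0 hc =>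
    H ν hν h0 fun ξ hξ => (K ξ (hξ.trans hν)).2.trans_lt (hc ξ hξ)⟩
end cover
-- JOB C END

end Pool.Agent.Lib.MP_f9eb18_lc.W
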