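import Pool.Agent.Lib.MP_f9eb18_lc.W.B3

/-! # Coding forcing: the definable well-order -/

namespace Pool.Agent.Lib.MP_f9eb18_lc.W

open Ordinal ZFSet
set_option linter.style.haveILetI false
set_option linter.unusedVariables false
set_option synthInstance.maxSize 100000

variable {F : Fr}

/-- the real attached to a well-founded relation on `ω₁` -/
noncomputable def rho (N : Set V) (s R : V) : V :=
  ZFSet.sep (fun t => Cub N (om1 N) (fun ν => ¬ St s t (hgt R ν.toZFSet))) omegaZ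

/-- `P` holds on a club coded by an element of `C` -/
def CubH (C : Set V) (s : V) (P : Ordinal.{0} → Prop) : Prop :=
  ∃ c ∈ C, (∀ ξ : Ordinal.{0}, ξ.toZFSet ∈ C → ∃ ζ : Ordinal.{0}, ζ.toZFSet ∈ C ∧
      Cod s c ξ.toZFSet ζ.toZFSet) ∧
    ∀ ν : Ordinal.{0}, ν.toZFSet ∈ C → 0 < ν →
      (∀ ξ < ν, ∃ ζ < ν, Cod s c ξ.toZFSet ζ.toZFSet) → P ν
def GoodH (C : Set V) (s c : V) : Prop := ∀ ν : Ordinal.{0}, ν.toZFSet ∈ C → WF (code s ν c)
def RhoH (C : Set V) (s c x : V) : Prop :=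
  x ⊆ omegaZ ∧ ∀ t ∈ omegaZ,
    (t ∈ x ↔ CubH C s (fun ν => ¬ St s t (hgt (code s ν c) ν.toZFSet)))
def DH (C : Set V) (s x : V) : Prop := ∃ c ∈ C, GoodH C s c ∧ RhoH C s c x
def LtH (C : Set V) (s x y : V) : Prop :=
  ∃ c ∈ C, GoodH C s c ∧ RhoH C s c x ∧ ∀ c' ∈ C, GoodH C s c' → RhoH C s c' y →
    CubH C s (fun ν => hgt (code s ν c) ν.toZFSet < hgt (code s ν c') ν.toZFSet)

section inst
variable {s : V} [HasS F s] {a b : Set V → (ℕ → V) → V} {D : Set V → (ℕ → V) → Set V}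
instance ud_cubH {P : Set V → (ℕ → V) → Ordinal.{0} → Prop} [UC F D]
    [UD F (fun M v => P M (tl v) (vr v 0).rank)] : UD F (fun M v => CubH (D M v) s (P M v)) := by
  have := UC.lift (F := F) D; have := UD.liftO (F := F) P; unfold CubH; infer_instance
instance ud_goodH [UC F D] [UF F a] : UD F (fun M v => GoodH (D M v) s (a M v)) := by
  have := UF.lift (F := F) a; unfold GoodH; infer_instance
instance ud_rhoH [UC F D] [UF F a] [UF F b] :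
    UD F (fun M v => RhoH (D M v) s (a M v) (b M v)) := by
  have := UC.lift (F := F) D; have := UF.lift (F := F) a; have := UF.lift (F := F) b
  unfold RhoH; infer_instance
instance ud_DH [UC F D] [UF F a] : UD F (fun M v => DH (D M v) s (a M v)) := by
  have := UC.lift (F := F) D; have := UF.lift (F := F) a; unfold DH; infer_instance
instance ud_ltH [UC F D] [UF F a] [UF F b] : UD F (fun M v => LtH (D M v) s (a M v) (b M v)) := by
  have := UC.lift (F := F) D; have := UF.lift (F := F) a; have := UF.lift (F := F) b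
  unfold LtH; infer_instance
end inst

/-- every function on `ω₁` is dominated by a coded total relation -/
def Dom (N : Set V) (s : V) : Prop :=
  ∀ f ∈ N, (∀ ξ < om1 N, (app f ξ.toZFSet).rank < om1 N) → ∃ c ∈ HC N,
    (∀ ξ < om1 N, ∃ ζ < om1 N, Cod s c ξ.toZFSet ζ.toZFSet) ∧
    ∀ ξ < om1 N, ∀ ζ < om1 N, Cod s c ξ.toZFSet ζ.toZFSet → (app f ξ.toZFSet).rank ≤ ζ

-- JOB A BEGIN
section hc
variable {N : Set V} [IsZFC N] {s : V}
theorem hasS_HC (hs : s ∈ N) (hd : dom s ⊆ (om1 N).toZFSet) (hv : ∀ x, app s x ⊆ omegaZ) {σ : Fo}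
    (hσ : ∀ ξ < om1 N, ∀ x ∈ HC N,
      (Sat1 (HC N) σ (cons ξ.toZFSet (fun _ => x)) ↔ x = app s ξ.toZFSet)) :
    HasS (pureAt (HC N)) s := by
  haveI : UV (pureAt (HC N)) (fun _ v _ => vr v 0) := ⟨fun _ => inferInstance⟩
  haveI := UD.sat (F := pureAt (HC N)) σ
  haveI := UD.lift (F := pureAt (HC N)) (fun M v => Sat1 M σ v)
    (fun _ v => cons (vr (tl v) 0) (fun _ => vr v 0))
  refine ⟨UF.of_graph (fun M v y => ((vr v 0).IsOrdinal ∧ Sat1 M σ (cons (vr v 0) (fun _ => y))) ∨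
    (¬ (vr v 0).IsOrdinal ∧ y = ∅)) ?_ ?_⟩
  · rintro _ rfl v -
    exact mem_HC_iff.2 ⟨ctbl_omega.of_subset (IsZ.app_mem N hs _) (hv _),
      fun y hy => z5d_trans z5d_omega (hv _ hy)⟩
  · rintro _ rfl v h y hy
    have h0 : vr v 0 ∈ HC N := h 0
    generalize vr v 0 = x at h0
    by_cases hx : x.IsOrdinal
    · have e := hx.toZFSet_rank_eq
      have h1 := hσ x.rank (ord_mem_HC.1 (e.symm ▸ h0)) y hy
      rw [e] at h1
      simp only [hx, true_and, not_true, false_and, or_false, h1, enc_V]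
    · have h1 : app s x = ∅ := app_of_not_mem_dom fun k => hx ((isOrdinal_toZFSet _).mem (hd k))
      simp only [hx, false_and, not_false_iff, true_and, false_or, h1, enc_V]
theorem cubH_iff (hs : s ∈ N) (hd : Dom N s) {P : Ordinal.{0} → Prop} :
    CubH (HC N) s P ↔ Cub N (om1 N) P := by
  constructor
  · rintro ⟨c, hc, h1, h2⟩
    haveI : In N s := ⟨hs⟩
    haveI : In N c := ⟨HC_subset N hc⟩
    refine (cub_of_rel (om1_mem N) (fun ξ ζ => Cod s c ξ.toZFSet ζ.toZFSet) fun ξ hξ => ?_).mono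
      fun ν hν h0 h => h2 ν (ord_mem_HC.2 hν) h0 h
    obtain ⟨ζ, h3, h4⟩ := h1 ξ (ord_mem_HC.2 hξ)
    exact ⟨ζ, ord_mem_HC.1 h3, h4⟩
  · rintro ⟨f, hf, h1, h2⟩
    obtain ⟨c, hc, h3, h4⟩ := hd f hf h1
    refine ⟨c, hc, fun ξ hξ => ?_, fun ν hν h0 h => h2 ν (ord_mem_HC.1 hν) h0 fun ξ hξ => ?_⟩
    · obtain ⟨ζ, h5, h6⟩ := h3 ξ (ord_mem_HC.1 hξ)
      exact ⟨ζ, ord_mem_HC.2 h5, h6⟩
    · obtain ⟨ζ, h5, h6⟩ := h ξ hξ
      have h7 := ord_mem_HC.1 hν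
      exact (h4 ξ (hξ.trans h7) ζ (h5.trans h7) h6).trans_lt h5
theorem hgt_code {c : V} {ν w : Ordinal.{0}} (h : ν ≤ w) :
    hgt (code s ν c) ν.toZFSet = hgt (code s w c) ν.toZFSet := by
  refine hgt_congr fun x hx y hy => ?_
  have k := toZFSet_subset_toZFSet_iff.2 h
  simp only [code, pair_mem_rel, hx, hy, k hx, k hy]
theorem code_mem (hs : s ∈ N) {c : V} (hc : c ∈ N) : code s (om1 N) c ∈ N := by
  haveI : In N s := ⟨hs⟩
  haveI : In N c := ⟨hc⟩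
  exact memV_of N _
theorem goodH_iff (hs : s ∈ N) {c : V} (hc : c ∈ N) :
    GoodH (HC N) s c ↔ WF (code s (om1 N) c) := by
  refine ⟨fun h => wf_of_restr (code_mem hs hc) (fun p hp => ?_) fun ν hν =>
    (h ν (ord_mem_HC.2 hν)).subset fun p hp => ?_, fun h ν hν => h.subset fun p hp => ?_⟩
  · rw [code, rel, mem_sep] at hp
    exact hp.1
  · obtain ⟨h1, h2⟩ := mem_inter.1 hp
    rw [code, rel, mem_sep] at h1 ⊢
    exact ⟨h2, h1.2⟩
  · obtain ⟨x, hx, y, hy, rfl, h1⟩ := mem_rel.1 hp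
    have k := toZFSet_subset_toZFSet_iff.2 (ord_mem_HC.1 hν).le
    exact pair_mem_rel.2 ⟨k hx, k hy, h1⟩
theorem rhoH_iff (hs : s ∈ N) (hd : Dom N s) {c x : V} :
    RhoH (HC N) s c x ↔ x = rho N s (code s (om1 N) c) := by
  have k : ∀ t, CubH (HC N) s (fun ν => ¬ St s t (hgt (code s ν c) ν.toZFSet)) ↔
      Cub N (om1 N) (fun ν => ¬ St s t (hgt (code s (om1 N) c) ν.toZFSet)) := fun t => by
    rw [cubH_iff hs hd]
    exact ⟨fun h => h.mono fun ν hν _ h => by rwa [← hgt_code hν.le],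
      fun h => h.mono fun ν hν _ h => by rwa [hgt_code hν.le]⟩
  simp only [RhoH, k]
  constructor
  · rintro ⟨h1, h2⟩
    ext t
    rw [rho, mem_sep]
    exact ⟨fun h => ⟨h1 h, (h2 t (h1 h)).1 h⟩, fun h => (h2 t h.1).2 h.2⟩
  · rintro rfl
    exact ⟨fun t ht => (mem_sep.1 ht).1, fun t ht =>
      ⟨fun h => (mem_sep.1 h).2, fun h => mem_sep.2 ⟨ht, h⟩⟩⟩
theorem rho_mem (hs : s ∈ N) {R : V} (hR : R ∈ N) : rho N s R ∈ N := by
  haveI : In N s := ⟨hs⟩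
  haveI : In N R := ⟨hR⟩
  exact sep_mem N (fun t => Cub N (om1 N) (fun ν => ¬ St s t (hgt R ν.toZFSet))) IsZ.omega
/-- the real only depends on the height -/
theorem rho_eq {R R' : V} (hR : R ∈ N) (hR' : R' ∈ N) (h : WF R) (h' : WF R')
    (he : hgt R (om1 N).toZFSet = hgt R' (om1 N).toZFSet) : rho N s R = rho N s R' := by
  have k := (hgt_le_cub hR hR' h h' he.le).and (om1_mem N) (hgt_le_cub hR' hR h' h he.ge)
  ext t
  simp only [rho, mem_sep]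
  refine and_congr_right fun _ => ⟨fun h1 => (h1.and (om1_mem N) k).mono fun ν _ _ h2 => ?_,
    fun h1 => (h1.and (om1_mem N) k).mono fun ν _ _ h2 => ?_⟩
  · rw [← h2.2.1.antisymm h2.2.2]
    exact h2.1
  · rw [h2.2.1.antisymm h2.2.2]
    exact h2.1
theorem cubH_lt_iff (hs : s ∈ N) (hd : Dom N s) {c c' : V} (hc : c ∈ N) (hc' : c' ∈ N)
    (h : WF (code s (om1 N) c)) (h' : WF (code s (om1 N) c')) :
    CubH (HC N) s (fun ν => hgt (code s ν c) ν.toZFSet < hgt (code s ν c') ν.toZFSet) ↔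
      hgt (code s (om1 N) c) (om1 N).toZFSet < hgt (code s (om1 N) c') (om1 N).toZFSet := by
  rw [cubH_iff hs hd]
  constructor
  · intro h1
    by_contra h2
    obtain ⟨ν, hν, -, h3, h4⟩ := (h1.and (om1_mem N)
      (hgt_le_cub (code_mem hs hc') (code_mem hs hc) h' h (not_lt.1 h2))).exists
    rw [hgt_code hν.le, hgt_code hν.le] at h3
    exact h3.not_ge h4
  · intro h1
    exact (hgt_lt_cub (code_mem hs hc) (code_mem hs hc') h h' h1).mono fun ν hν _ h2 => by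
      rwa [hgt_code hν.le, hgt_code hν.le]
end hc
/-- covering and coding give domination -/
theorem dom_of_cover {N₀ N : Set V} [IsZFC N₀] [IsZFC N] (hs : N₀ ⊆ N) (h : Cover N₀ N) {s : V}
    (hc : ∀ Y ∈ relS N₀, ∃ c ∈ HC N, code s (om1 N₀) c = Y) : Dom N s := by
  intro f hf h1
  rw [h.om1_eq hs] at h1 ⊢
  obtain ⟨g, hg, h2⟩ := h.dominate hs (om1_mem N₀) (cofGt_om1 N₀) hf h1
  haveI : In N₀ g := ⟨hg⟩
  obtain ⟨c, hc1, hc2⟩ := hc (rel (om1 N₀).toZFSet (om1 N₀).toZFSet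
    (fun x y => y = (app g x).rank.toZFSet))
    (mem_pw.2 ⟨memV_of N₀ _, fun p hp => (mem_sep.1 hp).1⟩)
  have k : ∀ ξ < om1 N₀, ∀ ζ < om1 N₀,
      (Cod s c ξ.toZFSet ζ.toZFSet ↔ ζ = (app g ξ.toZFSet).rank) := fun ξ hξ ζ hζ => by
    have h3 := congrArg (fun R => pair ξ.toZFSet ζ.toZFSet ∈ R) hc2
    simpa only [code, pair_mem_rel, toZFSet_mem_toZFSet_iff, hξ, hζ, true_and, eq_iff_iff,
      toZFSet_injective.eq_iff] using h3
  exact ⟨c, hc1, fun ξ hξ => ⟨_, (h2 ξ hξ).1, (k ξ hξ _ (h2 ξ hξ).1).2 rfl⟩,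
    fun ξ hξ ζ hζ h3 => (k ξ hξ ζ hζ).1 h3 ▸ (h2 ξ hξ).2⟩
-- JOB A END

-- JOB B BEGIN
/-- `c` is a code for the real `x` -/
def b4b_G (N : Set V) (s x c : V) : Prop :=
  c ∈ HC N ∧ WF (code s (om1 N) c) ∧ x = rho N s (code s (om1 N) c)
/-- the least height of a code -/
noncomputable def b4b_m (N : Set V) (s x : V) : Ordinal.{0} :=
  sInf {o | ∃ c, b4b_G N s x c ∧ hgt (code s (om1 N) c) (om1 N).toZFSet = o}
section b4b
variable {N : Set V} {s x y : V}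
theorem b4b_le {c : V} (h : b4b_G N s x c) :
    b4b_m N s x ≤ hgt (code s (om1 N) c) (om1 N).toZFSet := csInf_le' ⟨c, h, rfl⟩
theorem b4b_min (h : ∃ c, b4b_G N s x c) :
    ∃ c, b4b_G N s x c ∧ hgt (code s (om1 N) c) (om1 N).toZFSet = b4b_m N s x :=
  csInf_mem (s := {o | ∃ c, b4b_G N s x c ∧ hgt (code s (om1 N) c) (om1 N).toZFSet = o})
    (h.elim fun c hc => ⟨_, c, hc, rfl⟩)
variable [IsZFC N]
theorem b4b_iff (hs : s ∈ N) (hd : Dom N s) {c : V} (hc : c ∈ HC N) :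
    GoodH (HC N) s c ∧ RhoH (HC N) s c x ↔ b4b_G N s x c := by
  rw [goodH_iff hs (HC_subset N hc), rhoH_iff hs hd, b4b_G, and_iff_right hc]
theorem b4b_D (hs : s ∈ N) (hd : Dom N s) : DH (HC N) s x ↔ ∃ c, b4b_G N s x c :=
  exists_congr fun c => ⟨fun h => (b4b_iff hs hd h.1).1 h.2,
    fun h => ⟨h.1, (b4b_iff hs hd h.1).2 h⟩⟩
theorem b4b_lt (hs : s ∈ N) (hd : Dom N s) (hx : DH (HC N) s x) (hy : DH (HC N) s y) :
    LtH (HC N) s x y ↔ b4b_m N s x < b4b_m N s y := by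
  have k : ∀ {c c'}, b4b_G N s x c → b4b_G N s y c' → _ := fun h h' =>
    cubH_lt_iff hs hd (HC_subset N h.1) (HC_subset N h'.1) h.2.1 h'.2.1
  constructor
  · rintro ⟨c, h1, h2, h3, h4⟩
    obtain ⟨c', h5, h6⟩ := b4b_min ((b4b_D hs hd).1 hy)
    have h7 := (b4b_iff hs hd h1).1 ⟨h2, h3⟩
    have h8 := (b4b_iff hs hd h5.1).2 h5
    exact (b4b_le h7).trans_lt (h6 ▸ (k h7 h5).1 (h4 c' h5.1 h8.1 h8.2))
  · intro h
    obtain ⟨c, h5, h6⟩ := b4b_min ((b4b_D hs hd).1 hx)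
    have h8 := (b4b_iff hs hd h5.1).2 h5
    refine ⟨c, h5.1, h8.1, h8.2, fun c' h1 h2 h3 => ?_⟩
    have h7 := (b4b_iff hs hd h1).1 ⟨h2, h3⟩
    exact (k h5 h7).2 (h6 ▸ h.trans_le (b4b_le h7))
theorem b4b_inj (hs : s ∈ N) (hd : Dom N s) (hx : DH (HC N) s x) (hy : DH (HC N) s y)
    (h : b4b_m N s x = b4b_m N s y) : x = y := by
  obtain ⟨c, h1, h2⟩ := b4b_min ((b4b_D hs hd).1 hx)
  obtain ⟨c', h3, h4⟩ := b4b_min ((b4b_D hs hd).1 hy)
  exact h1.2.2.trans ((rho_eq (code_mem hs (HC_subset N h1.1)) (code_mem hs (HC_subset N h3.1))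
    h1.2.1 h3.2.1 (h2.trans (h.trans h4.symm))).trans h3.2.2.symm)
theorem b4b_real (hs : s ∈ N) (hd : Dom N s) (hx : DH (HC N) s x) : x ∈ N ∧ x ⊆ omegaZ := by
  obtain ⟨c, h1, -, rfl⟩ := (b4b_D hs hd).1 hx
  exact ⟨rho_mem hs (code_mem hs (HC_subset N h1)), fun t ht => (mem_sep.1 ht).1⟩
theorem b4b_hc (h : x ∈ N ∧ x ⊆ omegaZ) : x ∈ HC N :=
  mem_HC_iff.2 ⟨ctbl_omega.of_subset h.1 h.2, fun y hy =>
    IsZ.trans _ (IsZ.omega (M := HC N)) y (h.2 hy)⟩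
instance b4b_rho [In N s] {a : Set V → (ℕ → V) → V} [UF (loc N) a] :
    UF (loc N) (fun M v => rho N s (a M v)) := by
  have := UF.lift (F := loc N) a; unfold rho; infer_instance
end b4b
theorem hcwo_of {N : Set V} [IsZFC N] {s : V} (hs : s ∈ N) [HasS (pureAt (HC N)) s]
    (hd : Dom N s) {S Rk : V} (hS : S ∈ N) (hRk : Rk ∈ N)
    (hR : ∀ κ ∈ S, WF (app Rk κ) ∧ ∃ c ∈ HC N, code s (om1 N) c = app Rk κ)
    (hinj : ∀ κ ∈ S, ∀ κ' ∈ S, rho N s (app Rk κ) = rho N s (app Rk κ') → κ = κ')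
    (hno : ¬ ∃ g ∈ N, ∀ κ ∈ S, ∃ ξ < om1 N, app g ξ.toZFSet = κ) : HCWO N := by
  obtain ⟨φ, hφ⟩ := UD.exists_fo (F := pureAt (HC N)) fun M v => DH M s (vr v 0)
  obtain ⟨ψ, hψ⟩ := UD.exists_fo (F := pureAt (HC N)) fun M v => LtH M s (vr v 0) (vr v 1)
  refine ⟨DH (HC N) s, LtH (HC N) s, φ, ψ, fun x => b4b_real hs hd,
    fun x hx => hφ _ rfl (fun _ => x) fun _ => hx,
    fun x y hx hy => hψ _ rfl (cons x fun _ => y)
      (cons_mem (b4b_hc (b4b_real hs hd hx)) fun _ => b4b_hc (b4b_real hs hd hy)),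
    fun x y hx hy => ?_, ?_, fun ⟨f, hf, h⟩ => hno ?_⟩
  · rw [b4b_lt hs hd hx hy, b4b_lt hs hd hy hx]
    exact (lt_trichotomy _ _).imp_right (Or.imp_left (b4b_inj hs hd hx hy))
  · exact Subrelation.wf (r := InvImage (· < ·) (b4b_m N s))
      (fun h => (b4b_lt hs hd h.1 h.2.1).1 h.2.2) (InvImage.wf _ wellFounded_lt)
  · haveI : In N s := ⟨hs⟩
    haveI : In N S := ⟨hS⟩
    haveI : In N Rk := ⟨hRk⟩
    haveI : In N f := ⟨hf⟩
    refine ⟨lam (om1 N).toZFSet fun ξ =>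
      ⋃₀ ZFSet.sep (fun k => rho N s (app Rk k) = app f ξ) S, memV_of N _, fun κ hκ => ?_⟩
    obtain ⟨h1, c, h2, h3⟩ := hR κ hκ
    obtain ⟨ξ, h4, h5⟩ := h _ ((b4b_D hs hd).2 ⟨c, h2, by rwa [h3], rfl⟩)
    refine ⟨ξ, h4, ?_⟩
    rw [app_lam _ (toZFSet_mem_toZFSet_iff.2 h4), h5, h3]
    refine (congrArg _ (ZFSet.ext fun k => ?_)).trans (sUnion_singleton (x := κ))
    rw [mem_sep, mem_singleton]
    refine ⟨fun e => hinj k e.1 κ hκ e.2, fun e => ?_⟩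
    rw [e]
    exact ⟨hκ, rfl⟩
-- JOB B END

end Pool.Agent.Lib.MP_f9eb18_lc.W
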