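import Pool.Agent.Lib.MP_f9eb18_lc.W.B2
import Pool.Agent.Lib.MP_f9eb18_lc.W.B4

/-! # Coding forcing: the generic extensions -/

namespace Pool.Agent.Lib.MP_f9eb18_lc.W

open Ordinal ZFSet
set_option linter.style.haveILetI false
set_option linter.unusedVariables false
set_option synthInstance.maxSize 100000

/-- the permanent entries of the conditions of `G` at the coordinates `(κ, ti)` and at the
coordinates that are switched on -/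
noncomputable def gFn (G ti : V) : V :=
  bU G (fun c => ZFSet.sep (fun x => snd (fst (fst x)) = ti ∨ fst (fst x) ∈ cO c) (cP c))

namespace PD
variable {D : PD} [IsZFC D.U] (ok : D.Ok) {G : V} (hG : Gen D.U D.P (le0 D.P) G)
include ok hG

-- JOB A BEGIN
omit hG in
theorem b5a_keep {r c x : V} (h : pair r c ∈ le0 D.P) (hx : x ∈ cP c)
    (hi : snd (fst (fst x)) = D.ti ∨ fst (fst x) ∈ cO r) : x ∈ cP r := by
  obtain ⟨h1, -, h2⟩ := pair_mem_rel.1 h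
  obtain ⟨-, -, -, -, h3, -, h4⟩ := (mem_P ok).1 h1
  refine h2.2.2 x hx fun k => hi.elim (fun e => ?_) (h4 _ k)
  obtain ⟨a, -, b, hb, e'⟩ := mem_prod.1 (h3 k)
  rw [e', snd_pair] at e
  exact ok.ti_not (e ▸ hb)
theorem b5a_val {c : V} (hc : c ∈ G) : D.Val (cP c) := ((mem_P ok).1 (hG.sub hc)).2.1
theorem b5a_isZ : IsZ (gext D.U G) := isZ_gext (isPO ok) (P_mem ok) (le_mem ok) hG
theorem b5a_sub : D.U ⊆ gext D.U G := subset_gext (P_mem ok) hG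
omit hG in
theorem b5a_ti : D.ti ∈ D.U := IsZ.trans _ IsZ.omega _ ok.ti_mem
omit hG in
theorem b5a_site {κ : V} (hκ : κ ∈ dom D.𝒲) : κ ∈ D.U := by
  haveI : In D.U D.𝒲 := ⟨ok.sites.mem⟩
  exact IsZ.trans _ (memV_of D.U (dom D.𝒲)) _ hκ
theorem gFn_mem : gFn G D.ti ∈ gext D.U G := by
  haveI := b5a_isZ ok hG
  haveI : In (gext D.U G) G := ⟨gen_mem_gext (P_mem ok) hG⟩
  haveI : In (gext D.U G) D.ti := ⟨b5a_sub ok hG (b5a_ti ok)⟩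
  unfold gFn
  exact memV_of _ _
theorem isFn_gFn : IsFn (gFn G D.ti) := by
  refine ⟨fun p hp => ?_, fun x y y' h h' => ?_⟩
  · obtain ⟨c, hc, k⟩ := mem_bU.1 hp
    exact (b5a_val ok hG hc).1.1 p (mem_sep.1 k).1
  · obtain ⟨c, hc, k⟩ := mem_bU.1 h
    obtain ⟨c', hc', k'⟩ := mem_bU.1 h'
    obtain ⟨r, hr, a, a'⟩ := hG.dir c hc c' hc'
    rw [mem_sep] at k k'
    exact (b5a_val ok hG hr).1.2 x y y'
      (b5a_keep ok a k.1 (k.2.imp_right fun e => (pair_mem_rel.1 a).2.2.2.1 e))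
      (b5a_keep ok a' k'.1 (k'.2.imp_right fun e => (pair_mem_rel.1 a').2.2.2.1 e))
theorem gFn_app {c i ξ : V} (hc : c ∈ G) (hi : snd i = D.ti ∨ i ∈ cO c)
    (hξ : pair i ξ ∈ dom (cP c)) : app (gFn G D.ti) (pair i ξ) = app (cP c) (pair i ξ) :=
  (isFn_gFn ok hG).app_eq (mem_bU.2 ⟨c, hc, mem_sep.2
    ⟨(b5a_val ok hG hc).1.pair_app_mem hξ, by simpa only [fst_pair] using hi⟩⟩)
theorem b5a_pH {c κ n : V} (hc : c ∈ G) (h : Cov (cP c) (pair κ D.ti) n) :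
    pH (gFn G D.ti) (pair κ D.ti) n = pH (cP c) (pair κ D.ti) n :=
  pH_congr fun ξ hξ => gFn_app ok hG hc (Or.inl (snd_pair _ _)) (h ξ hξ)
/-- closure points with order type in a switched off set -/
theorem gen_closure (hc : D.U.Countable) {f c κ t : V} (hf : f ∈ gext D.U G) (hcG : c ∈ G)
    (hκ : κ ∈ dom D.𝒲) (ht : t = D.ti ∨ (t ∈ D.A ∧ pair κ t ∈ cZ c)) :
    ∃ n ∈ D.w, omegaZ ⊆ n ∧ (∀ ξ ∈ n, app f ξ ∈ D.w → app f ξ ∈ n) ∧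
      pH (gFn G D.ti) (pair κ D.ti) n ∈ app D.T t := by
  have hw : D.w ∈ D.U := om1_mem D.U
  obtain ⟨Δ, h1, h2, -, h3⟩ := exists_decRel hc (isPO ok) (P_mem ok) (le_mem ok) hG hf hw hw
  haveI : In D.U D.w := ⟨hw⟩
  haveI : In D.U Δ := ⟨h1⟩
  haveI : In D.U D.P := ⟨(P_mem ok)⟩
  haveI : In D.U D.T := ⟨ok.T_mem⟩
  haveI : In D.U D.ti := ⟨b5a_ti ok⟩
  haveI : In D.U κ := ⟨b5a_site ok hκ⟩
  haveI : In D.U t := ⟨ht.elim (fun e => e ▸ b5a_ti ok) fun e => IsZ.trans _ ok.A_mem _ e.1⟩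
  obtain ⟨r, hr, k⟩ := hG.meet_below (isPO ok) (P_mem ok) (le_mem ok) hcG
    (sep_mem D.U (fun q => ∃ n ∈ D.w, omegaZ ⊆ n ∧
      (∀ r ∈ D.P, pair r q ∈ le0 D.P → ∀ ξ ∈ n, ∀ y ∈ D.w, pair r (pair ξ y) ∈ Δ → y ∈ n) ∧
      Cov (cP q) (pair κ D.ti) n ∧ pH (cP q) (pair κ D.ti) n ∈ app D.T t) (P_mem ok))
    fun q hq e => by
      obtain ⟨q', a1, a2, n, a3, a4, a5, a6⟩ := (exists_closure ok) h1 h2 hq hκ
        (ht.imp_right fun k => ⟨k.1, (pair_mem_rel.1 e).2.2.1 k.2⟩)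
      exact ⟨q', mem_sep.2 ⟨a1, n, a3, a4, fun r _ => a5 r, a6⟩, a1, a2⟩
  obtain ⟨-, n, a3, a4, a5, a6, a7⟩ := mem_sep.1 k
  refine ⟨n, a3, a4, fun ξ hξ e => ?_, (b5a_pH ok hG hr a6).symm ▸ a7⟩
  obtain ⟨p, hp, b⟩ := h3 ξ ((isOrdinal_toZFSet _).mem_trans hξ a3) e
  obtain ⟨s, hs, b1, b2⟩ := hG.dir p hp r hr
  exact a5 s (hG.sub hs) b2 ξ hξ _ e (h2.mono p s _ _ b1 b)
theorem gen_om1 (hc : D.U.Countable) : om1 (gext D.U G) = om1 D.U := by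
  haveI := b5a_isZ ok hG
  refine le_antisymm (le_of_not_gt fun h => ?_) (om1_mono (b5a_sub ok hG))
  obtain ⟨f, h1, h2, h3⟩ := (lt_om1_iff.1 h).exists_enum
    ((nonempty_def _).2 ⟨_, toZFSet_mem_toZFSet_iff.2 (omega_lt_om1 D.U)⟩)
  obtain ⟨c, hcG⟩ := (nonempty_def G).1 hG.ne
  obtain ⟨κ, hκ, -⟩ := ok.sites.cof ω ok.inac.1
  obtain ⟨n, a1, a2, a3, -⟩ := gen_closure ok hG hc h1 hcG hκ (Or.inl rfl)
  obtain ⟨k, rfl⟩ := h3 n a1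
  have := a3 (natZ k) (a2 (natZ_mem_omegaZ k))
  rw [app_sqN] at this
  exact mem_irrefl _ (this a1)
theorem b5a_rank {f : V} (hf : f ∈ gext D.U G) : ∃ g ∈ gext D.U G,
    ∀ ξ < om1 D.U, app g ξ.toZFSet = (app f ξ.toZFSet).rank.toZFSet := by
  haveI := b5a_isZ ok hG
  haveI : In (gext D.U G) f := ⟨hf⟩
  haveI : In (gext D.U G) D.w := ⟨b5a_sub ok hG (om1_mem D.U)⟩
  exact ⟨lam D.w fun x => (app f x).rank.toZFSet, memV_of _ _,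
    fun ξ hξ => app_lam _ (toZFSet_mem_toZFSet_iff.2 hξ)⟩
theorem gen_stat (hc : D.U.Countable) {c κ t : V} (hcG : c ∈ G) (hκ : κ ∈ dom D.𝒲)
    (ht : t ∈ D.A) (hz : pair κ t ∈ cZ c) :
    Stat (gext D.U G) (om1 D.U)
      (fun ν => pH (gFn G D.ti) (pair κ D.ti) ν.toZFSet ∈ app D.T t) := by
  rintro ⟨f, hf, h1, h2⟩
  obtain ⟨g, hg, h3⟩ := b5a_rank ok hG hf
  obtain ⟨n, a1, a2, a3, a4⟩ := gen_closure ok hG hc hg hcG hκ (Or.inr ⟨ht, hz⟩)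
  obtain ⟨ν, hν, rfl⟩ := mem_toZFSet_iff.1 a1
  refine h2 ν hν (omega0_pos.trans_le (toZFSet_subset_toZFSet_iff.1 a2)) (fun ξ hξ => ?_) a4
  have := a3 _ (toZFSet_mem_toZFSet_iff.2 hξ)
  rw [h3 ξ (hξ.trans hν)] at this
  exact toZFSet_mem_toZFSet_iff.1 (this (toZFSet_mem_toZFSet_iff.2 (h1 ξ (hξ.trans hν))))
theorem b5a_cov {c κ t : V} (hcG : c ∈ G) (hκ : κ ∈ dom D.𝒲) (ht : t ∈ D.A)
    (ho : pair κ t ∈ cO c) {ν : Ordinal.{0}} (hν : ν < om1 D.U) : ∃ s ∈ G,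
    ∀ ξ ∈ ν.toZFSet, pair (pair κ t) ξ ∈ dom (cP s) ∧ app (cP s) (pair (pair κ t) ξ) ∈ D.w ∧
      app (gFn G D.ti) (pair (pair κ t) ξ) = app (cP s) (pair (pair κ t) ξ) := by
  haveI : In D.U κ := ⟨b5a_site ok hκ⟩
  haveI : In D.U t := ⟨IsZ.trans _ ok.A_mem _ ht⟩
  haveI : In D.U ν := ⟨IsZ.ord_mem_of_le D.U (om1_mem D.U) hν.le⟩
  obtain ⟨r, hr, k⟩ := hG.meet _ (sep_mem D.U _ (P_mem ok)) ((dense_cov ok) hκ
    (mem_insert_of_mem _ ht) (lt_om1_iff.1 hν) (toZFSet_subset_toZFSet_iff.2 hν.le))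
  obtain ⟨s, hs, a, a'⟩ := hG.dir r hr c hcG
  have h1 := (pair_mem_rel.1 a').2.2.2.1 ho
  refine ⟨s, hs, fun ξ hξ => ?_⟩
  obtain ⟨y, hy⟩ := mem_dom.1 ((mem_sep.1 k).2 ξ hξ)
  have h2 := mem_dom.2 ⟨y, b5a_keep ok a hy (Or.inr (by simpa only [fst_pair] using h1))⟩
  obtain ⟨κ', -, t', -, ξ', -, e, -, h3⟩ := (b5a_val ok hG hs).2.2.1 _ h2
  exact ⟨h2, h3 ((pair_injective (pair_injective e).1).2 ▸ ht), gFn_app ok hG hs (Or.inr h1) h2⟩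
theorem gen_cub {c κ t : V} (hcG : c ∈ G) (hκ : κ ∈ dom D.𝒲) (ht : t ∈ D.A)
    (ho : pair κ t ∈ cO c) :
    Cub (gext D.U G) (om1 D.U)
      (fun ν => pH (gFn G D.ti) (pair κ D.ti) ν.toZFSet ∉ app D.T t) := by
  haveI := b5a_isZ ok hG
  haveI : In (gext D.U G) (gFn G D.ti) := ⟨gFn_mem ok hG⟩
  haveI : In (gext D.U G) D.w := ⟨b5a_sub ok hG (om1_mem D.U)⟩
  haveI : In (gext D.U G) κ := ⟨b5a_sub ok hG (b5a_site ok hκ)⟩
  haveI : In (gext D.U G) t := ⟨b5a_sub ok hG (IsZ.trans _ ok.A_mem _ ht)⟩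
  have e : ∀ ξ < om1 D.U, app (lam D.w fun x => app (gFn G D.ti) (pair (pair κ t) x)) ξ.toZFSet =
      app (gFn G D.ti) (pair (pair κ t) ξ.toZFSet) := fun ξ hξ =>
    app_lam _ (toZFSet_mem_toZFSet_iff.2 hξ)
  refine ⟨lam D.w fun x => app (gFn G D.ti) (pair (pair κ t) x), memV_of _ _, fun ξ hξ => ?_,
    fun ν hν h0 h => ?_⟩
  · obtain ⟨s, -, k⟩ := b5a_cov ok hG hcG hκ ht ho ((isSuccLimit_om1 D.U).succ_lt hξ)
    obtain ⟨-, k1, k2⟩ := k _ (toZFSet_mem_toZFSet_iff.2 (Order.lt_succ ξ))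
    rw [e ξ hξ, k2]
    exact (rank_lt_of_mem k1).trans_eq (rank_toZFSet _)
  · obtain ⟨s, hs, k⟩ := b5a_cov ok hG hcG hκ ht ho hν
    obtain ⟨k1, k2⟩ := (b5a_val ok hG hs).2.2.2 κ hκ t ht _ (toZFSet_mem_toZFSet_iff.2 hν)
      ⟨(nonempty_def _).2 ⟨_, toZFSet_mem_toZFSet_iff.2 h0⟩, fun x hx => ⟨(k x hx).1, by
        obtain ⟨-, k1, k2⟩ := k x hx
        obtain ⟨ξ, hξ, rfl⟩ := mem_toZFSet_iff.1 hx
        have h1 := h ξ hξ
        obtain ⟨ζ, -, k3⟩ := mem_toZFSet_iff.1 k1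
        rw [e ξ (hξ.trans hν), k2, ← k3, rank_toZFSet] at h1
        exact k3 ▸ toZFSet_mem_toZFSet_iff.2 h1⟩⟩
    rwa [b5a_pH ok hG hs k1]
theorem gen_bound (hc : D.U.Countable) {f : V} (hf : f ∈ gext D.U G)
    (hb : ∀ ξ < om1 D.U, (app f ξ.toZFSet).rank < D.l) :
    ∃ η < D.l, ∀ ξ < om1 D.U, (app f ξ.toZFSet).rank < η := by
  obtain ⟨g, hg, h3⟩ := b5a_rank ok hG hf
  obtain ⟨Δ, h1, h2, -, h4⟩ := exists_decRel hc (isPO ok) (P_mem ok) (le_mem ok) hG hg (om1_mem D.U)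
    ok.inac.2.1
  obtain ⟨η, a1, a2⟩ := (dec_bound ok) h1 h2
  refine ⟨η, a1, fun ξ hξ => ?_⟩
  have b1 := toZFSet_mem_toZFSet_iff.2 hξ
  have b2 := toZFSet_mem_toZFSet_iff.2 (hb ξ hξ)
  obtain ⟨p, hp, k⟩ := h4 _ b1 (h3 ξ hξ ▸ b2)
  rw [h3 ξ hξ] at k
  exact toZFSet_mem_toZFSet_iff.1 (a2 p (hG.sub hp) _ b1 _ b2 k)
-- JOB A END

end PD

-- JOB B BEGIN
theorem b5b_app_restr {f a x : V} (hx : x ∈ a) : app (restr f a) x = app f x := by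
  unfold app
  congr 1
  ext y
  simp only [mem_sep, pair_mem_restr, mem_ran, hx, and_true]
  exact ⟨fun h => ⟨⟨x, h.2⟩, h.2⟩, fun h => ⟨⟨x, h.2, hx⟩, h.2⟩⟩

/-- the first forcing -/
theorem forcing0 {D : PD} [IsZFC D.U] (ok : D.Ok) (hc : D.U.Countable) {μ : Ordinal.{0}}
    (hμ : Inac D.U μ) (hl : D.l < μ) :
    ∃ N, SmallExt D.U N μ ∧ om1 N = om1 D.U ∧
      (∀ f ∈ N, (∀ ξ < om1 D.U, (app f ξ.toZFSet).rank < D.l) →
        ∃ η < D.l, ∀ ξ < om1 D.U, (app f ξ.toZFSet).rank < η) ∧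
      ∃ Rk ∈ N, (∀ κ ∈ dom D.𝒲, WF (app Rk κ) ∧ app Rk κ ⊆ prod D.w D.w) ∧
        ∀ κ ∈ dom D.𝒲, ∀ κ' ∈ dom D.𝒲, κ ≠ κ' → ∃ t ∈ D.A,
          Cub N (om1 D.U) (fun ν => (hgt (app Rk κ) ν.toZFSet).toZFSet ∉ app D.T t) ∧
          Stat N (om1 D.U) (fun ν => (hgt (app Rk κ') ν.toZFSet).toZFSet ∈ app D.T t) := by
  obtain ⟨G, hG, -⟩ := exists_gen hc (PD.isPO ok) (PD.empty_mem ok)
  have hS := small_forcing hc (PD.isPO ok) (PD.P_mem ok) (PD.le_mem ok) hG hμ (PD.rank_lt ok hl)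
  haveI := hS.zfc
  haveI : In (gext D.U G) (gFn G D.ti) := ⟨PD.gFn_mem ok hG⟩
  haveI : In (gext D.U G) D.𝒲 := ⟨hS.sub ok.sites.mem⟩
  haveI : In (gext D.U G) D.w := ⟨hS.sub (om1_mem D.U)⟩
  haveI : In (gext D.U G) D.ti := ⟨IsZ.trans _ IsZ.omega _ ok.ti_mem⟩
  have key : ∀ κ ∈ dom D.𝒲, ∀ ν < om1 D.U,
      (hgt (app (lam (dom D.𝒲) fun k => pR (gFn G D.ti) (pair k D.ti) D.w) κ) ν.toZFSet).toZFSet =
        pH (gFn G D.ti) (pair κ D.ti) ν.toZFSet := by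
    intro κ hκ ν hν
    rw [app_lam _ hκ, pH]
    congr 1
    refine hgt_congr fun x hx y hy => ?_
    have hsub : ν.toZFSet ⊆ D.w := Ordinal.toZFSet_subset_toZFSet_iff.2 hν.le
    simp only [pR, pull, pair_mem_rel, hx, hy, hsub hx, hsub hy]
  refine ⟨gext D.U G, hS, PD.gen_om1 ok hG hc, fun f hf hb => PD.gen_bound ok hG hc hf hb,
    lam (dom D.𝒲) (fun k => pR (gFn G D.ti) (pair k D.ti) D.w), memV_of _ _, fun κ hκ => ?_,
    fun κ hκ κ' hκ' hne => ?_⟩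
  · rw [app_lam _ hκ]
    refine ⟨wf_pull _ _, fun x hx => ?_⟩
    unfold pR pull rel at hx
    exact (mem_sep.1 hx).1
  · haveI : In D.U D.P := ⟨PD.P_mem ok⟩
    haveI : In D.U D.A := ⟨ok.A_mem⟩
    haveI : In D.U D.𝒲 := ⟨ok.sites.mem⟩
    haveI : In D.U κ := ⟨IsZ.trans _ (memV_of D.U (dom D.𝒲)) _ hκ⟩
    haveI : In D.U κ' := ⟨IsZ.trans _ (memV_of D.U (dom D.𝒲)) _ hκ'⟩
    obtain ⟨c, hcG, hcE⟩ := hG.meet _ (memV_of D.U _) (PD.dense_sep ok hκ hκ' hne)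
    obtain ⟨t, ht, h1, h2⟩ := (mem_sep.1 hcE).2
    refine ⟨t, ht, (PD.gen_cub ok hG hcG hκ ht h1).mono fun ν hν _ h => ?_,
      (PD.gen_stat ok hG hc hcG hκ' ht h2).mono fun ν hν _ h => ?_⟩
    · rw [key κ hκ ν hν]; exact h
    · rw [key κ' hκ' ν hν]; exact h

theorem coding : Coding := by
  intro U _ hc l μ hlμ hl hμ hmeas ⟨s, hs, hsi, σ, hσ⟩
  obtain ⟨𝒲, h𝒲⟩ := exists_sites hl hmeas
  obtain ⟨A', hA', hAω, hAi, hAs, hAd⟩ := exists_antichain hs hsi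
  obtain ⟨ti, hti⟩ := hAi.nonempty
  have hti' : ti ∈ A' := hti
  haveI : In U s := ⟨hs⟩
  haveI : In U A' := ⟨hA'⟩
  haveI : In U ti := ⟨IsZ.trans _ hA' _ hti'⟩
  set T : V := lam omegaZ fun t => ZFSet.sep (fun x => St s t x.rank) (om1 U).toZFSet with hT
  have memT : ∀ t ∈ omegaZ, ∀ o : Ordinal.{0}, o.toZFSet ∈ app T t ↔ o < om1 U ∧ St s t o := by
    intro t ht o
    rw [hT, app_lam _ ht, mem_sep, rank_toZFSet, Ordinal.toZFSet_mem_toZFSet_iff]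
  have memA : ∀ t, t ∈ (insert ti (A' \ {ti}) : V) → t ∈ A' := by
    intro t ht
    rcases mem_insert_iff.1 ht with rfl | h
    · exact hti'
    · exact (mem_sdiff.1 h).1
  let D : PD := ⟨U, l, 𝒲, A' \ {ti}, ti, T⟩
  haveI : IsZFC D.U := ‹IsZFC U›
  have ok : D.Ok := by
    refine ⟨hl, h𝒲, memV_of U _, memV_of U _, fun x hx => hAω (mem_sdiff.1 hx).1, ?_, hAω hti',
      fun h => (mem_sdiff.1 h).2 (mem_singleton.2 rfl), fun t ht => ?_,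
      fun t ht t' ht' hne x hx hx' => ?_⟩
    · refine (hAi.sdiff (Set.finite_singleton ti)).mono fun x hx => ?_
      exact mem_sdiff.2 ⟨hx.1, fun h => hx.2 (mem_singleton.1 h)⟩
    · exact (hAs t (memA t ht)).mono fun ν hν _ h => (memT t (hAω (memA t ht)) ν).2 ⟨hν, h⟩
    · have e1 : app T t = _ := app_lam _ (hAω (memA t ht))
      have e2 : app T t' = _ := app_lam _ (hAω (memA t' ht'))
      exact hAd t (memA t ht) t' (memA t' ht') hne x.rank (mem_sep.1 (e1 ▸ hx)).2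
        (mem_sep.1 (e2 ▸ hx')).2
  obtain ⟨N₀, h0, hw0, hbd, Rk, hRk, hR, hsep⟩ := forcing0 ok hc hμ hlμ
  haveI := h0.zfc
  have hw0' : om1 N₀ = om1 U := hw0
  have hr : pw U omegaZ ⊆ powerset omegaZ := fun x hx => mem_powerset.2 (mem_pw.1 hx).2
  obtain ⟨N, h1, hcov, hcode⟩ := forcing1 h0.ctbl h0.inac (h0.sub hs) hr (hw0' ▸ hsi)
  haveI := h1.zfc
  have hw1 : om1 N = om1 N₀ := hcov.om1_eq h1.sub
  have hw : om1 N = om1 U := hw1.trans hw0'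
  have hUN : SmallExt U N μ := h0.trans h1
  have hsN : s ∈ N := hUN.sub hs
  obtain ⟨hsf, hsd, hsv⟩ := isFunc_iff.1 hsi.1
  haveI : HasS (pureAt (HC N)) s := by
    refine hasS_HC hsN (by rw [hsd, hw]) (fun x => ?_) (σ := σ) fun ξ hξ => ?_
    · by_cases hx : x ∈ dom s
      · exact (mem_pw.1 (hsv x (hsd ▸ hx))).2
      · rw [app_of_not_mem_dom hx]; exact ZFSet.empty_subset _
    · exact hσ N hUN hw ξ (hw ▸ hξ)
  have hdom : Dom N s := dom_of_cover h1.sub hcov hcode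
  haveI : In U 𝒲 := ⟨h𝒲.mem⟩
  have hS : dom 𝒲 ∈ U := memV_of U _
  have hRN : ∀ κ, app Rk κ ∈ N₀ := fun κ => IsZ.app_mem N₀ hRk κ
  have hlt : ∀ κ ∈ dom 𝒲, ∀ ν < om1 U, hgt (app Rk κ) ν.toZFSet < om1 U := by
    intro κ hκ ν hν
    rw [← hw0'] at hν ⊢
    exact hgt_lt_om1 (hRN κ) (lt_om1_iff.1 hν)
      ((hR κ hκ).1.subset fun x hx => (mem_inter.1 hx).1)
  refine ⟨N, hUN, hcwo_of hsN hdom (hUN.sub hS) (h1.sub hRk) (fun κ hκ => ⟨(hR κ hκ).1, ?_⟩)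
    (fun κ hκ κ' hκ' he => ?_) ?_⟩
  · rw [hw1]
    refine hcode _ (mem_pw.2 ⟨hRN κ, ?_⟩)
    rw [hw0']; exact (hR κ hκ).2
  · by_contra hne
    obtain ⟨t, ht, c1, c2⟩ := hsep κ hκ κ' hκ' hne
    have htω : t ∈ omegaZ := ok.A_sub ht
    have m1 : t ∈ rho N s (app Rk κ) := by
      refine mem_sep.2 ⟨htω, ?_⟩
      rw [hw]
      exact (c1.mono_model h1.sub).mono fun ν hν _ h h' =>
        h ((memT t htω _).2 ⟨hlt κ hκ ν hν, h'⟩)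
    rw [he] at m1
    have m2 := (mem_sep.1 m1).2
    rw [hw1] at m2
    have m3 := hcov.cub h1.sub m2
    rw [hw0'] at m3
    exact c2 (m3.mono fun ν hν _ h h' => h ((memT t htω _).1 h').2)
  · rintro ⟨g, hg, hgs⟩
    have hlN : l.toZFSet ∈ N₀ := h0.sub hl.2.1
    have hbd' : ∀ f ∈ N₀, (∀ ξ < om1 U, (app f ξ.toZFSet).rank < l) →
        ∃ η < l, ∀ ξ < om1 U, (app f ξ.toZFSet).rank < η := hbd
    have hcof : CofGt N₀ l := by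
      refine ⟨hl.2.2.1, fun f hf hb => ?_⟩
      haveI : In N₀ f := ⟨hf⟩
      obtain ⟨η, hη, H⟩ := hbd' (restr f omegaZ) (memV_of N₀ _) fun ξ _ => by
        by_cases hξ : ξ.toZFSet ∈ omegaZ
        · rw [b5b_app_restr hξ]; exact hb _ hξ
        · rw [app_of_not_mem_dom fun h => hξ (pair_mem_restr.1 (mem_dom.1 h).choose_spec).2]
          simpa using hl.2.2.1.bot_lt
      refine ⟨η, hη, fun x hx => ?_⟩
      obtain ⟨n, rfl⟩ := mem_omegaZ.1 hx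
      have : (app (restr f omegaZ) (natZ n)).rank < η :=
        H n ((natCast_lt_omega0 n).trans (omega_lt_om1 U))
      rwa [b5b_app_restr (f := f) (natZ_mem_omegaZ n)] at this
    haveI : In N g := ⟨hg⟩
    haveI : In N l := ⟨h1.sub hlN⟩
    classical
    have hg' : (lam (om1 N).toZFSet fun x => if (app g x).rank < l then app g x else ∅) ∈ N :=
      memV_of N _
    have val : ∀ ξ < om1 N, app (lam (om1 N).toZFSet fun x =>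
        if (app g x).rank < l then app g x else ∅) ξ.toZFSet =
        if (app g ξ.toZFSet).rank < l then app g ξ.toZFSet else ∅ := fun ξ hξ =>
      app_lam _ (Ordinal.toZFSet_mem_toZFSet_iff.2 hξ)
    obtain ⟨g₀, hg₀, H⟩ := hcov.dominate h1.sub hlN hcof hg' fun ξ hξ => by
      rw [val ξ (hw1 ▸ hξ)]
      split_ifs with h
      · exact h
      · simpa using hl.2.2.1.bot_lt
    obtain ⟨η, hη, H2⟩ := hbd' g₀ hg₀ fun ξ hξ => (H ξ (hw0' ▸ hξ)).1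
    obtain ⟨κ, hκ, hηκ⟩ := h𝒲.cof η hη
    obtain ⟨ξ, hξ, rfl⟩ := hgs κ hκ
    have r1 : (app g ξ.toZFSet).rank < l := by
      simpa using ZFSet.rank_lt_of_mem (h𝒲.lt _ hκ)
    have r2 := (H ξ (hw1 ▸ hξ)).2
    rw [val ξ hξ, if_pos r1] at r2
    have r3 := H2 ξ (hw ▸ hξ)
    have r4 : η < (app g ξ.toZFSet).rank := by simpa using ZFSet.rank_lt_of_mem hηκ
    exact absurd (r4.trans_le r2) (not_lt.2 r3.le)
-- JOB B END

end Pool.Agent.Lib.MP_f9eb18_lc.W
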