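import Pool.Agent.Lib.MP_f9eb18_lc.W.Iface
import Pool.Agent.Lib.MP_f9eb18_lc.Calc

/-! # Rudimentary closure and second-order truth are definable -/

namespace Pool.Agent.Lib.MP_f9eb18_lc.W

open Ordinal ZFSet
set_option linter.style.haveILetI false
set_option linter.unusedVariables false
set_option synthInstance.maxSize 100000

variable {F : Fr}

/-! ### inductively generated sets -/
noncomputable def gstep (L : V) (op : V → V → V) (y : V) : V :=
  L ∪ bU y fun p => bU y fun q => op p q
/-- the closure of `L` under a binary multivalued operation -/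
noncomputable def gen (L : V) (op : V → V → V) : V :=
  ZFSet.iUnion fun n : ℕ => (gstep L op)^[n] ∅

section gen
variable {L x y p q : V} {op : V → V → V}
theorem mem_gstep : x ∈ gstep L op y ↔ x ∈ L ∨ ∃ p ∈ y, ∃ q ∈ y, x ∈ op p q := by simp [gstep]

theorem giter_succ (n : ℕ) : ∀ x ∈ (gstep L op)^[n] ∅, x ∈ (gstep L op)^[n + 1] ∅ := by
  induction n with
  | zero => exact fun x hx => (notMem_empty x hx).elim
  | succ n ih =>
    intro x hx
    rw [Function.iterate_succ_apply', mem_gstep] at hx ⊢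
    exact hx.imp_right fun ⟨p, h1, q, h2, h3⟩ => ⟨p, ih p h1, q, ih q h2, h3⟩

theorem giter_mono {m n : ℕ} (h : m ≤ n) (hx : x ∈ (gstep L op)^[m] ∅) :
    x ∈ (gstep L op)^[n] ∅ := by
  induction h with
  | refl => exact hx
  | step _ ih => exact giter_succ _ _ ih

theorem gen_leaf (h : x ∈ L) : x ∈ gen L op := mem_iUnion.2 ⟨1, mem_gstep.2 (Or.inl h)⟩

theorem gen_op (hp : p ∈ gen L op) (hq : q ∈ gen L op) (h : x ∈ op p q) : x ∈ gen L op := by
  obtain ⟨m, hm⟩ := mem_iUnion.1 hp
  obtain ⟨n, hn⟩ := mem_iUnion.1 hq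
  refine mem_iUnion.2 ⟨max m n + 1, ?_⟩
  rw [Function.iterate_succ_apply', mem_gstep]
  exact Or.inr ⟨p, giter_mono (le_max_left _ _) hm, q, giter_mono (le_max_right _ _) hn, h⟩

theorem gen_ind {P : V → Prop} (h0 : ∀ x ∈ L, P x) (h1 : ∀ p q, P p → P q → ∀ x ∈ op p q, P x)
    (h : x ∈ gen L op) : P x := by
  obtain ⟨n, hn⟩ := mem_iUnion.1 h
  clear h
  induction n generalizing x with
  | zero => exact (notMem_empty x hn).elim
  | succ n ih =>
    rw [Function.iterate_succ_apply', mem_gstep] at hn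
    exact hn.elim (h0 x) fun ⟨p, k1, q, k2, k3⟩ => h1 p q (ih k1) (ih k2) x k3
end gen

theorem uf_gen {L : Set V → (ℕ → V) → V} {op : Set V → (ℕ → V) → V → V → V} [UF F L]
    [UF F (fun M v => op M (tl (tl v)) (vr (tl v) 0) (vr v 0))] :
    UF F (fun M v => gen (L M v) (op M v)) := by
  have := UF.lift (F := F) L
  have : ∀ (g : Set V → (ℕ → V) → (ℕ → V)) (a b : Set V → (ℕ → V) → V) [UV F g] [UF F a] [UF F b],
      UF F (fun M v => op M (g M v) (a M v) (b M v)) := fun g a b _ _ _ =>
    UF.lift (fun M v => op M (tl (tl v)) (vr (tl v) 0) (vr v 0))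
      (fun M v => cons (b M v) (cons (a M v) (g M v)))
  unfold gen gstep; infer_instance

theorem lam_congr {a : V} {f g : V → V} (h : ∀ x ∈ a, f x = g x) : lam a f = lam a g := by
  ext p
  simp only [mem_lam]
  exact exists_congr fun x => and_congr_right fun hx => by rw [h x hx]

theorem dec_listZ (l : List V) : (dec (listZ l) : List V) = l := dec_enc l

theorem ex_listSub {X : V} {P : List V → Prop} :
    (∃ l : List X, P (l.map Subtype.val)) ↔ ∃ l : List V, (∀ x ∈ l, x ∈ X) ∧ P l := by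
  constructor
  · rintro ⟨l, h⟩
    refine ⟨_, fun x hx => ?_, h⟩
    obtain ⟨y, -, rfl⟩ := List.mem_map.1 hx
    exact y.2
  · rintro ⟨l, h1, h2⟩
    exact ⟨l.attachWith _ h1, by rwa [List.attachWith_map_subtype_val]⟩

/-! ### rudimentary functions -/
theorem uf_eval (t : RT) : ∀ {a : Set V → (ℕ → V) → V} {g : Set V → (ℕ → V) → (ℕ → V)} [UF F a]
    [UV F g], UF F (fun M v => t.eval (a M v) (g M v)) := by
  induction t with
  | var i => exact fun {a g} _ h => h.out i
  | diff s t hs ht => intro a g _ _; unfold RT.eval; infer_instance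
  | upair s t hs ht => intro a g _ _; unfold RT.eval; infer_instance
  | inter s hs => intro a g _ _; unfold RT.eval; infer_instance
  | bunion s t hs ht =>
    intro a g _ _
    have := UF.lift (F := F) a; have := UV.lift (F := F) g
    exact (inferInstance : UF F (fun M v => bU (s.eval (a M v) (g M v))
      fun z => t.eval (a M v) (cons z (g M v)))).congr fun _ _ _ _ => by
        ext x; rw [mem_bunion, mem_bU]

theorem eval_mem (M : Set V) [IsZ M] (t : RT) {A : V} {v : ℕ → V} (hA : A ∈ M)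
    (hv : ∀ i, v i ∈ M) : t.eval A v ∈ M :=
  (uf_eval (F := pZ) t (a := fun _ v => vr v 0) (g := fun _ v => tl v)).cl M ‹_› (cons A v)
    (cons_mem hA hv)

/-- the function of a term on the lists from `U` -/
noncomputable def rfn (A U : V) (t : RT) : V := lam (lists U) fun x => t.eval A (env (dec x))
noncomputable def rop (A U f g : V) : V :=
  {lam (lists U) fun x => app f x \ app g x, lam (lists U) fun x => {app f x, app g x},
    lam (lists U) fun x => bU (app f x) fun z => app g (pair z x),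
    lam (lists U) fun x => app f x ∩ A}
noncomputable def rfns (A U : V) : V :=
  gen (ZFSet.iUnion fun i : ℕ => {lam (lists U) fun x => env (dec x) i}) (rop A U)

theorem rop_rfn {A U : V} [IsZ (U : Set V)] (hA : A ∈ U) (s t : RT) :
    rop A U (rfn A U s) (rfn A U t) =
      {rfn A U (s.diff t), rfn A U (s.upair t), rfn A U (s.bunion t), rfn A U s.inter} := by
  have e : ∀ (t : RT), ∀ x ∈ lists U, app (rfn A U t) x = t.eval A (env (dec x)) :=
    fun t x hx => app_lam _ hx
  unfold rop
  congr 1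
  · exact lam_congr fun x hx => by rw [e s x hx, e t x hx]; rfl
  congr 1
  · exact lam_congr fun x hx => by rw [e s x hx, e t x hx]; rfl
  congr 1
  · refine lam_congr fun x hx => ?_
    ext y
    rw [e s x hx, mem_bunion, mem_bU]
    obtain ⟨l, hl, rfl⟩ := mem_lists.1 hx
    refine exists_congr fun z => and_congr_right fun hz => ?_
    rw [dec_listZ] at hz ⊢
    have hz' : z ∈ U := IsZ.trans (M := (U : Set V)) _
      (eval_mem _ s hA (env_mem (IsZ.empty_mem _) hl)) z hz
    rw [show pair z (listZ l) = listZ (z :: l) from rfl,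
      e t _ (mem_lists.2 ⟨z :: l, List.forall_mem_cons.2 ⟨hz', hl⟩, rfl⟩), dec_listZ, env_cons]
  · exact congrArg _ (lam_congr fun x hx => by rw [e s x hx]; rfl)

theorem mem_rfns {A U f : V} [IsZ (U : Set V)] (hA : A ∈ U) :
    f ∈ rfns A U ↔ ∃ t, rfn A U t = f := by
  constructor
  · refine gen_ind (P := fun f => ∃ t, rfn A U t = f) (fun x hx => ?_) ?_
    · obtain ⟨i, hi⟩ := mem_iUnion.1 hx
      exact ⟨.var i, (mem_singleton.1 hi).symm⟩
    · rintro _ _ ⟨s, rfl⟩ ⟨t, rfl⟩ x hx
      simp only [rop_rfn hA, mem_insert_iff, mem_singleton] at hx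
      rcases hx with rfl | rfl | rfl | rfl <;> exact ⟨_, rfl⟩
  · rintro ⟨t, rfl⟩
    induction t with
    | var i => exact gen_leaf (mem_iUnion.2 ⟨i, mem_singleton.2 rfl⟩)
    | diff s t hs ht => exact gen_op hs ht (by simp [rop_rfn hA])
    | upair s t hs ht => exact gen_op hs ht (by simp [rop_rfn hA])
    | bunion s t hs ht => exact gen_op hs ht (by simp [rop_rfn hA])
    | inter s hs => exact gen_op hs hs (by simp [rop_rfn hA])

theorem rudStep_eq {A X U : V} [IsZ (U : Set V)] (hA : A ∈ U) (hX : X ⊆ U) :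
    rudStep A X = bU (rfns A U) fun f => img (fun x => app f x) (lists X) := by
  ext y
  simp only [rudStep, mem_range, Prod.exists, mem_bU, mem_rfns hA, mem_img, mem_lists,
    exists_exists_eq_and, exists_exists_and_eq_and]
  refine exists_congr fun t => (ex_listSub (P := fun l => t.eval A (env l) = y)).trans
    (exists_congr fun l => and_congr_right fun hl => ?_)
  rw [rfn, app_lam _ (mem_lists.2 ⟨l, fun x hx => hX (hl x hx), rfl⟩), dec_listZ]

section
variable {a b c d : Set V → (ℕ → V) → V} {D : Set V → (ℕ → V) → Set V}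
instance uf_rop [UF F a] [UF F b] [UF F c] [UF F d] :
    UF F (fun M v => rop (a M v) (b M v) (c M v) (d M v)) := by
  have := UF.lift (F := F) a; have := UF.lift (F := F) c; have := UF.lift (F := F) d
  unfold rop; infer_instance
instance uf_rfns [UF F a] [UF F b] : UF F (fun M v => rfns (a M v) (b M v)) := by
  have := UF.lift (F := F) a; have := UF.lift (F := F) b
  exact uf_gen (op := fun M v => rop (a M v) (b M v))

instance uf_rudStep [hF : F.P] [ha : UF F a] [hb : UF F b] :
    UF F (fun M v => rudStep (a M v) (b M v)) := by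
  have := UF.lift (F := F) a; have := UF.lift (F := F) b
  have key : ∀ M, F.K M → ∀ v, (∀ i, v i ∈ M) →
      ∃ U ∈ M, IsZ (U : Set V) ∧ a M v ∈ U ∧ b M v ⊆ U := fun M hM v hv => by
    haveI := hF.out M hM
    have h1 := (inferInstance : UF F (fun M v => Order.succ (max (a M v).rank (b M v).rank))).cl
      M hM v hv
    obtain ⟨H, h2, h3, -, h4⟩ := exists_T_model M h1
    have h5 : ∀ x ∈ M, x.rank ≤ max (a M v).rank (b M v).rank → x ∈ H := fun x hx e =>
      IsZ.trans (M := (H : Set V)) _ h4 x (mem_Vs.2 ⟨hx, Order.lt_succ_of_le e⟩)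
    exact ⟨H, h2, h3.toIsZ, h5 _ (ha.cl M hM v hv) (le_max_left _ _),
      fun x hx => IsZ.trans (M := (H : Set V)) _ (h5 _ (hb.cl M hM v hv) (le_max_right _ _)) x hx⟩
  refine UF.of_graph (fun M v y => ∃ U ∈ M, IsZ (U : Set V) ∧ a M v ∈ U ∧ b M v ⊆ U ∧
    y = bU (rfns (a M v) U) fun f => img (fun x => app f x) (lists (b M v)))
    (fun M hM v hv => ?_) fun M hM v hv y _ => ⟨fun e => ?_, fun ⟨U, _, h1, h2, h3, e⟩ => ?_⟩
  · obtain ⟨U, h1, h2, h3, h4⟩ := key M hM v hv
    simpa only [enc_V, rudStep_eq h3 h4, tl_cons, vr_cons_zero] using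
      (inferInstance : UF F (fun M v => bU (rfns (a M (tl v)) (vr v 0))
        fun f => img (fun x => app f x) (lists (b M (tl v))))).cl M hM _ (cons_mem h1 hv)
  · obtain ⟨U, h1, h2, h3, h4⟩ := key M hM v hv
    exact ⟨U, h1, h2, h3, h4, e.trans (rudStep_eq h3 h4)⟩
  · exact e.trans (rudStep_eq h2 h3).symm

instance uf_rudCl [F.P] [UF F a] [UF F b] : UF F (fun M v => rudCl (a M v) (b M v)) := by
  have := UF.lift (F := F) a; have := UF.lift (F := F) b
  unfold rudCl; infer_instance
end

/-! ### second-order truth -/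
/-- the countable subsets of `J` in `N` -/
noncomputable def cts (N : Set V) (J : V) : V := ZFSet.sep (fun s => Ctbl N s) (pw N J)
theorem mem_cts {N : Set V} {J s : V} : s ∈ cts N J ↔ s ∈ N ∧ Ctbl N s ∧ s ⊆ J := by
  simp only [cts, mem_sep, mem_pw]; tauto

/-- code, bounds on the free variables and satisfying assignments of a formula -/
noncomputable def tup (N : Set V) (J T : V) (φ : Fm) : V × ℕ × ℕ × V :=
  (φ.code, φ.fo, φ.so, rel (lists J) (lists (cts N J)) fun l k =>
    Sat2 N J T φ (env (dec l)) (env (dec k)))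
noncomputable def top (J P : V) (p q : V × ℕ × ℕ × V) : V :=
  {enc (pair (natZ 4) p.1, p.2.1, p.2.2.1,
      rel (lists J) (lists P) fun l k => pair l k ∉ p.2.2.2),
    enc (pair (natZ 5) (pair p.1 q.1), max p.2.1 q.2.1, max p.2.2.1 q.2.2.1,
      rel (lists J) (lists P) fun l k => pair l k ∈ p.2.2.2 ∧ pair l k ∈ q.2.2.2),
    enc (pair (natZ 6) p.1, p.2.1 - 1, p.2.2.1,
      rel (lists J) (lists P) fun l k => ∃ a ∈ J, pair (pair a l) k ∈ p.2.2.2),
    enc (pair (natZ 7) p.1, p.2.1, p.2.2.1 - 1,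
      rel (lists J) (lists P) fun l k => ∃ s ∈ P, pair l (pair s k) ∈ p.2.2.2)}
noncomputable def tups (N : Set V) (J T : V) : V :=
  gen (ZFSet.iUnion fun i : ℕ => ZFSet.iUnion fun j : ℕ => {enc (tup N J T (.mem i j)),
    enc (tup N J T (.eq i j)), enc (tup N J T (.tr i)), enc (tup N J T (.memS i j))})
    fun p q => top J (cts N J) (dec p) (dec q)

theorem rel_lists_congr {A B : V} {P Q : V → V → Prop}
    (h : ∀ l k : List V, (∀ x ∈ l, x ∈ A) → (∀ x ∈ k, x ∈ B) →
      (P (listZ l) (listZ k) ↔ Q (listZ l) (listZ k))) :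
    rel (lists A) (lists B) P = rel (lists A) (lists B) Q := by
  ext p
  simp only [mem_rel]
  refine exists_congr fun x => and_congr_right fun hx => exists_congr fun y =>
    and_congr_right fun hy => and_congr_right fun _ => ?_
  obtain ⟨l, hl, rfl⟩ := mem_lists.1 hx
  obtain ⟨k, hk, rfl⟩ := mem_lists.1 hy
  exact h l k hl hk

section
variable {N : Set V} {J T : V}
theorem mem_tup (φ : Fm) {l k : List V} (hl : ∀ x ∈ l, x ∈ J) (hk : ∀ x ∈ k, x ∈ cts N J) :
    pair (listZ l) (listZ k) ∈ (tup N J T φ).2.2.2 ↔ Sat2 N J T φ (env l) (env k) := by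
  rw [tup, pair_mem_rel, and_iff_right (mem_lists.2 ⟨l, hl, rfl⟩),
    and_iff_right (mem_lists.2 ⟨k, hk, rfl⟩), dec_listZ, dec_listZ]

theorem top_tup (φ ψ : Fm) : top J (cts N J) (tup N J T φ) (tup N J T ψ) =
    {enc (tup N J T φ.neg), enc (tup N J T (φ.and ψ)), enc (tup N J T φ.ex),
      enc (tup N J T φ.exS)} := by
  have e : ∀ (χ : Fm) (P : V → V → Prop), (∀ l k : List V, (∀ x ∈ l, x ∈ J) →
      (∀ x ∈ k, x ∈ cts N J) → (P (listZ l) (listZ k) ↔ Sat2 N J T χ (env l) (env k))) →
      enc (χ.code, χ.fo, χ.so, rel (lists J) (lists (cts N J)) P) = enc (tup N J T χ) :=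
    fun χ P h => congrArg (fun r => enc (χ.code, χ.fo, χ.so, r))
      (rel_lists_congr fun l k hl hk => by rw [h l k hl hk, dec_listZ, dec_listZ])
  unfold top
  congr 1
  · exact e φ.neg _ fun l k hl hk => not_congr (mem_tup φ hl hk)
  congr 1
  · exact e (φ.and ψ) _ fun l k hl hk => and_congr (mem_tup φ hl hk) (mem_tup ψ hl hk)
  congr 1
  · refine e φ.ex _ fun l k hl hk => exists_congr fun a => and_congr_right fun ha => ?_
    rw [← env_cons]
    exact mem_tup φ (l := a :: l) (List.forall_mem_cons.2 ⟨ha, hl⟩) hk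
  · refine congrArg _ (e φ.exS _ fun l k hl hk => exists_congr fun s => ?_)
    rw [← and_assoc, ← and_assoc, and_assoc (a := s ∈ N), ← mem_cts, ← env_cons]
    exact and_congr_right fun hs => mem_tup φ (k := s :: k) hl (List.forall_mem_cons.2 ⟨hs, hk⟩)

theorem mem_tups {p : V} : p ∈ tups N J T ↔ ∃ φ, enc (tup N J T φ) = p := by
  constructor
  · refine gen_ind (P := fun p => ∃ φ, enc (tup N J T φ) = p) (fun x hx => ?_) ?_
    · simp only [mem_iUnion, mem_insert_iff, mem_singleton] at hx
      obtain ⟨i, j, rfl | rfl | rfl | rfl⟩ := hx <;> exact ⟨_, rfl⟩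
    · rintro _ _ ⟨s, rfl⟩ ⟨t, rfl⟩ x hx
      simp only [dec_enc, top_tup, mem_insert_iff, mem_singleton] at hx
      rcases hx with rfl | rfl | rfl | rfl <;> exact ⟨_, rfl⟩
  · rintro ⟨φ, rfl⟩
    induction φ with
    | mem i j => exact gen_leaf (mem_iUnion.2 ⟨i, mem_iUnion.2 ⟨j, by simp⟩⟩)
    | eq i j => exact gen_leaf (mem_iUnion.2 ⟨i, mem_iUnion.2 ⟨j, by simp⟩⟩)
    | tr i => exact gen_leaf (mem_iUnion.2 ⟨i, mem_iUnion.2 ⟨0, by simp⟩⟩)
    | memS i j => exact gen_leaf (mem_iUnion.2 ⟨i, mem_iUnion.2 ⟨j, by simp⟩⟩)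
    | neg φ h => exact gen_op h h (by simp [top_tup])
    | and φ ψ h h' => exact gen_op h h' (by simp [top_tup])
    | ex φ h => exact gen_op h h (by simp [top_tup])
    | exS φ h => exact gen_op h h (by simp [top_tup])

theorem mem_truthN {ν : Ordinal.{0}} {x : V} : x ∈ truthN N ν J T ↔ ∃ (φ : Fm) (l : List V),
    (∀ y ∈ l, y ∈ J) ∧ (φ.fo ≤ l.length ∧ φ.so = 0 ∧ Sat2 N J T φ (env l) fun _ => ∅) ∧
      pair (ω * ν).toZFSet (pair φ.code (listZ l)) = x := by
  simp only [truthN, mem_range, Subtype.exists, Prod.exists, exists_prop]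
  refine exists_congr fun φ => Iff.trans ?_ (ex_listSub (P := fun l => (φ.fo ≤ l.length ∧
    φ.so = 0 ∧ Sat2 N J T φ (env l) fun _ => ∅) ∧ pair (ω * ν).toZFSet (pair φ.code (listZ l)) = x))
  simp only [List.length_map]

theorem truthN_eq (ν : Ordinal.{0}) : truthN N ν J T = bU (tups N J T) fun p =>
    img (fun l => pair (ω * ν).toZFSet (pair (dec p : V × ℕ × ℕ × V).1 l))
      (ZFSet.sep (fun l => (dec p : V × ℕ × ℕ × V).2.1 ≤ (dec l : List V).length ∧
        (dec p : V × ℕ × ℕ × V).2.2.1 = 0 ∧ pair l ∅ ∈ (dec p : V × ℕ × ℕ × V).2.2.2) (lists J)) := by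
  ext x
  simp only [mem_truthN, mem_bU, mem_tups, exists_exists_eq_and, dec_enc, mem_img, mem_sep,
    mem_lists, and_assoc, exists_exists_and_eq_and, dec_listZ]
  refine exists_congr fun φ => exists_congr fun l => and_congr_right fun hl =>
    and_congr_right fun _ => and_congr_right fun _ => and_congr_left fun _ => ?_
  exact (mem_tup φ (k := []) hl (by simp)).symm
end

section
variable {a b : Set V → (ℕ → V) → V} {D : Set V → (ℕ → V) → Set V}
instance uf_cts [F.P] [UC F D] [UF F a] : UF F (fun M v => cts (D M v) (a M v)) := by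
  have := UC.lift (F := F) D
  unfold cts; infer_instance
instance uf_top {p q : Set V → (ℕ → V) → V × ℕ × ℕ × V} [UF F a] [UF F b] [UF F p] [UF F q] :
    UF F (fun M v => top (a M v) (b M v) (p M v) (q M v)) := by
  have := UF.lift (F := F) a; have := UF.lift (F := F) b
  have := UF.lift (F := F) p; have := UF.lift (F := F) q
  unfold top; infer_instance
instance uf_tups [F.P] [UC F D] [UF F a] [UF F b] :
    UF F (fun M v => tups (D M v) (a M v) (b M v)) := by
  have := UC.lift (F := F) D; have := UF.lift (F := F) a; have := UF.lift (F := F) b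
  unfold tups
  simp only [tup, Fm.code, Fm.fo, Fm.so, Sat2]
  exact uf_gen (op := fun M v p q => top (a M v) (cts (D M v) (a M v)) (dec p) (dec q))
instance uf_truthN {o : Set V → (ℕ → V) → Ordinal.{0}} [F.P] [UC F D] [UF F o] [UF F a] [UF F b] :
    UF F (fun M v => truthN (D M v) (o M v) (a M v) (b M v)) := by
  have := UF.lift (F := F) o; have := UF.lift (F := F) a
  simp only [truthN_eq]
  infer_instance
end

end Pool.Agent.Lib.MP_f9eb18_lc.W
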