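import Pool.Agent.Lib.MP_f9eb18_lc.W.C0

/-! # The hierarchy of `C^2(omega)` computed in a transitive model -/

namespace Pool.Agent.Lib.MP_f9eb18_lc.W

open Ordinal ZFSet
set_option linter.style.haveILetI false
set_option linter.unusedVariables false
set_option synthInstance.maxSize 100000

noncomputable def JN (N : Set V) (ν : Ordinal.{0}) : V := (stageN N ν).1
noncomputable def TN (N : Set V) (ν : Ordinal.{0}) : V := (stageN N ν).2
/-- the successor step -/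
noncomputable def stN (N : Set V) (ν : Ordinal.{0}) (p : V × V) : V × V :=
  (rudCl (p.2 ∪ truthN N ν p.1 p.2) (insert p.1 p.1), p.2 ∪ truthN N ν p.1 p.2)

section
variable {N : Set V} {ν : Ordinal.{0}} {x y : V}

theorem stageN_succ (N : Set V) (ν : Ordinal.{0}) : stageN N (ν + 1) = stN N ν (stageN N ν) := by
  simp only [stageN, stN, limitRecOn_add_one]
theorem JN_zero : JN N 0 = ∅ := by simp [JN, stageN]
theorem TN_zero : TN N 0 = ∅ := by simp [TN, stageN]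
theorem TN_succ : TN N (ν + 1) = TN N ν ∪ truthN N ν (JN N ν) (TN N ν) := by
  rw [TN, stageN_succ]; rfl
theorem JN_succ : JN N (ν + 1) = rudCl (TN N (ν + 1)) (insert (JN N ν) (JN N ν)) := by
  rw [JN, TN, stageN_succ]; rfl

theorem mem_JN_limit (h : Order.IsSuccLimit ν) : x ∈ JN N ν ↔ ∃ a < ν, x ∈ JN N a := by
  unfold JN
  conv_lhs => unfold stageN
  rw [limitRecOn_limit _ _ _ _ h]
  simp only [mem_iUnion]
  exact ⟨fun ⟨a, ha⟩ => ⟨a.1, a.2, ha⟩, fun ⟨a, ha, hx⟩ => ⟨⟨a, ha⟩, hx⟩⟩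

theorem mem_TN_limit (h : Order.IsSuccLimit ν) : x ∈ TN N ν ↔ ∃ a < ν, x ∈ TN N a := by
  unfold TN
  conv_lhs => unfold stageN
  rw [limitRecOn_limit _ _ _ _ h]
  simp only [mem_iUnion]
  exact ⟨fun ⟨a, ha⟩ => ⟨a.1, a.2, ha⟩, fun ⟨a, ha, hx⟩ => ⟨⟨a, ha⟩, hx⟩⟩

theorem JN_mem_succ (N : Set V) (ν : Ordinal.{0}) : JN N ν ∈ JN N (ν + 1) := by
  rw [JN_succ]; exact mem_rudCl_of_mem (mem_insert _ _)

theorem c1_union {f : Ordinal.{0} → V} (h0 : f 0 = ∅) (h1 : ∀ ν, ∀ x ∈ f ν, x ∈ f (ν + 1))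
    (h2 : ∀ ν, Order.IsSuccLimit ν → ∀ x, x ∈ f ν ↔ ∃ a < ν, x ∈ f a) :
    x ∈ f ν ↔ ∃ a < ν, x ∈ f (a + 1) := by
  induction ν using limitRecOn with
  | zero => simp [h0]
  | add_one b ih =>
    refine ⟨fun h => ⟨b, lt_add_one b, h⟩, fun ⟨a, k1, k2⟩ => ?_⟩
    rcases (Order.lt_add_one_iff.1 k1).eq_or_lt with rfl | k1
    · exact k2
    · exact h1 b x (ih.2 ⟨a, k1, k2⟩)
  | limit b hb _ =>
    rw [h2 b hb]
    exact ⟨fun ⟨a, k1, k2⟩ => ⟨a, k1, h1 a x k2⟩, fun ⟨a, k1, k2⟩ => ⟨_, hb.add_one_lt k1, k2⟩⟩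

theorem mem_JN_succ (hx : x ∈ JN N ν) : x ∈ JN N (ν + 1) := by
  rw [JN_succ]; exact mem_rudCl_of_mem (mem_insert_of_mem _ hx)

theorem mem_JN : x ∈ JN N ν ↔ ∃ a < ν, x ∈ JN N (a + 1) :=
  c1_union JN_zero (fun _ _ => mem_JN_succ) fun _ h _ => mem_JN_limit h

theorem mem_TN' : x ∈ TN N ν ↔ ∃ a < ν, x ∈ TN N (a + 1) :=
  c1_union TN_zero (fun _ _ h => by rw [TN_succ]; exact mem_union.2 (Or.inl h))
    fun _ h _ => mem_TN_limit h

theorem JN_mono {a b : Ordinal.{0}} (h : a ≤ b) (hx : x ∈ JN N a) : x ∈ JN N b :=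
  let ⟨c, h1, h2⟩ := mem_JN.1 hx; mem_JN.2 ⟨c, h1.trans_le h, h2⟩

theorem JN_trans (N : Set V) (ν : Ordinal.{0}) : (JN N ν).IsTransitive := by
  induction ν using WellFoundedLT.induction with
  | ind ν ih =>
  intro y hy z hz
  obtain ⟨a, h1, h2⟩ := mem_JN.1 hy
  refine mem_JN.2 ⟨a, h1, ?_⟩
  rw [JN_succ] at h2 ⊢
  refine rudCl_transitive (fun y hy z hz => mem_insert_of_mem _ ?_) y h2 hz
  rcases mem_insert_iff.1 hy with rfl | hy
  · exact hz
  · exact ih a h1 y hy hz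

theorem mem_TN : x ∈ TN N ν ↔ ∃ ξ < ν, x ∈ truthN N ξ (JN N ξ) (TN N ξ) := by
  induction ν using WellFoundedLT.induction with
  | ind ν ih =>
  rw [mem_TN']
  simp only [TN_succ, mem_union]
  refine ⟨fun ⟨a, h1, h2⟩ => h2.elim (fun h => ?_) fun h => ⟨a, h1, h⟩,
    fun ⟨a, h1, h2⟩ => ⟨a, h1, Or.inr h2⟩⟩
  obtain ⟨ξ, h3, h4⟩ := (ih a h1).1 h
  exact ⟨ξ, h3.trans h1, h4⟩

theorem eval_mem_JN (t : RT) {v : ℕ → V} (hv : ∀ i, v i ∈ JN N (ν + 1)) :
    t.eval (TN N (ν + 1)) v ∈ JN N (ν + 1) := by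
  rw [JN_succ] at *
  exact eval_mem_rudCl t hv

theorem pair_mem_JN (hx : x ∈ JN N (ν + 1)) (hy : y ∈ JN N (ν + 1)) : pair x y ∈ JN N (ν + 1) := by
  have := eval_mem_JN ((RT.var 0).opair (.var 1)) (cons_all (v := fun _ => y) hx fun _ => hy)
  rwa [RT.eval_opair] at this

theorem RP.sep_memN {P : (ℕ → V) → Prop} (h : RP P) {v : ℕ → V} (hv : ∀ i, v i ∈ JN N (ν + 1))
    (i : ℕ) : ZFSet.sep (fun z => P (cons z v)) (v i) ∈ JN N (ν + 1) := by
  obtain ⟨t, ht⟩ := h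
  have := eval_mem_JN (.bunion (.var i) (.bunion t (.upair (.var 1) (.var 1)))) hv
  convert this using 1
  ext x
  simp only [mem_bunion, mem_sep, ht (TN N (ν + 1))]
  simp only [RT.eval, mem_pair, or_self, cons_succ, cons_zero]
  constructor
  · rintro ⟨h1, z, hz⟩; exact ⟨x, h1, z, hz, rfl⟩
  · rintro ⟨y, h1, z, hz, rfl⟩; exact ⟨h1, z, hz⟩

theorem stageN_eq (N : Set V) (ν : Ordinal.{0}) : stageN N ν = orec (fun o f =>
    (bU o.toZFSet fun x => (stN N x.rank (oat f x.rank)).1,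
      bU o.toZFSet fun x => (stN N x.rank (oat f x.rank)).2)) ν := by
  induction ν using WellFoundedLT.induction with
  | ind ν ih =>
  rw [orec_eq, ← sq_congr ih]
  have e : ∀ (g : V × V → V) (x : V), x ∈ (bU ν.toZFSet fun y =>
      g (stN N y.rank (oat (sq ν (stageN N)) y.rank))) ↔ ∃ a < ν, x ∈ g (stageN N (a + 1)) :=
    fun g x => by
      simp only [mem_bU, mem_toZFSet_iff, exists_exists_and_eq_and, rank_toZFSet]
      exact exists_congr fun a => and_congr_right fun h => by rw [oat_sq _ h, stageN_succ]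
  exact Prod.ext (ZFSet.ext fun x => mem_JN.trans (e Prod.fst x).symm)
    (ZFSet.ext fun x => mem_TN'.trans (e Prod.snd x).symm)
end

section
variable {F : Fr} {D : Set V → (ℕ → V) → Set V} {o : Set V → (ℕ → V) → Ordinal.{0}}
instance uf_stN {p : Set V → (ℕ → V) → V × V} [F.P] [UC F D] [UF F o] [UF F p] :
    UF F (fun M v => stN (D M v) (o M v) (p M v)) := by unfold stN; infer_instance
instance uf_stageN [F.P] [UC F D] [UF F o] : UF F (fun M v => stageN (D M v) (o M v)) := by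
  have := UC.lift (F := F) D
  simp only [stageN_eq]
  infer_instance
instance uf_JN [F.P] [UC F D] [UF F o] : UF F (fun M v => JN (D M v) (o M v)) := by
  unfold JN; infer_instance
instance ud_C2N {a : Set V → (ℕ → V) → V} [F.P] [UC F D] [UF F a] :
    UD F (fun M v => C2N (D M v) (a M v)) :=
  haveI := UC.lift (F := F) D; haveI := UF.lift (F := F) a
  (inferInstance : UD F (fun M v => ∃ ν : Ordinal.{0}, ν.toZFSet ∈ D M v ∧ a M v ∈ JN (D M v) ν))
end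

/-! ### the class `C2N` -/
section
variable {N : Set V} [IsZFC N] {ν : Ordinal.{0}} {x y : V}

theorem JN_mem (h : ν.toZFSet ∈ N) : JN N ν ∈ N :=
  haveI : In N ν := ⟨h⟩
  memV_of N _

theorem C2N.mem (h : C2N N x) : x ∈ N := let ⟨_, h1, h2⟩ := h; IsZ.trans _ (JN_mem h1) x h2

theorem succ_memN (h : ν.toZFSet ∈ N) : (ν + 1).toZFSet ∈ N :=
  haveI : In N ν := ⟨h⟩
  mem_of N (ν + 1)

theorem exists_levelN {a : V} (ha : a ∈ N) (h : ∀ x ∈ a, C2N N x) (hν : ν.toZFSet ∈ N) :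
    ∃ μ : Ordinal.{0}, μ.toZFSet ∈ N ∧ ν ≤ μ ∧ ∀ x ∈ a, x ∈ JN N μ := by
  obtain ⟨b, h1, h2⟩ := coll_mem N (fun x y => x ∈ JN N y.rank) ha fun x hx =>
    let ⟨μ, k1, k2⟩ := h x hx; ⟨_, k1, by rwa [rank_toZFSet]⟩
  haveI : In N ν := ⟨hν⟩
  haveI : In N b := ⟨h1⟩
  exact ⟨max ν b.rank, mem_of N (max ν b.rank), le_max_left _ _, fun x hx =>
    let ⟨y, k1, k2⟩ := h2 x hx; JN_mono ((rank_lt_of_mem k1).le.trans (le_max_right _ _)) k2⟩

omit [IsZFC N] in
theorem C2N.trans (hx : C2N N x) (hy : y ∈ x) : C2N N y :=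
  let ⟨ν, h1, h2⟩ := hx; ⟨ν, h1, JN_trans N ν x h2 hy⟩

theorem C2N.pair (hx : C2N N x) (hy : C2N N y) : C2N N (pair x y) := by
  obtain ⟨a, h1, ha⟩ := hx
  obtain ⟨b, h2, hb⟩ := hy
  rcases le_total a b with h | h
  · exact ⟨_, succ_memN h2, pair_mem_JN (mem_JN_succ (JN_mono h ha)) (mem_JN_succ hb)⟩
  · exact ⟨_, succ_memN h1, pair_mem_JN (mem_JN_succ ha) (mem_JN_succ (JN_mono h hb))⟩

theorem C2N_ord {α : Ordinal.{0}} (hα : α.toZFSet ∈ N) : C2N N α.toZFSet := by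
  induction α using WellFoundedLT.induction with
  | ind α ih =>
  by_contra hn
  obtain ⟨ν, h1, -, hν⟩ := exists_levelN hα (fun x hx => by
    obtain ⟨b, hb, rfl⟩ := mem_toZFSet_iff.1 hx
    exact ih b hb (IsZ.ord_mem_of_le N hα hb.le)) hα
  have h := RP.sep_memN RP_ordinal (v := fun _ => JN N ν) (fun _ => JN_mem_succ N ν) 0
  refine hn ⟨ν + 1, succ_memN h1, ?_⟩
  show _ ∈ JN N _
  convert h using 1
  ext x
  rw [mem_sep]
  refine ⟨fun hx => ⟨hν x hx, (isOrdinal_toZFSet α).mem hx⟩, fun ⟨h2, h3⟩ => ?_⟩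
  have h4 : x.rank.toZFSet = x := IsOrdinal.toZFSet_rank_eq h3
  rw [← h4, toZFSet_mem_toZFSet_iff]
  by_contra h5
  rcases (not_lt.1 h5).eq_or_lt with h | h
  · exact hn ⟨ν, h1, by rw [h, h4]; exact h2⟩
  · exact hn (C2N.trans ⟨ν, h1, h2⟩ (by rw [← h4]; exact toZFSet_mem_toZFSet_iff.2 h))

theorem C2N_natZ (n : ℕ) : C2N N (natZ n) := C2N_ord (IsZ.natZ_mem N n)

theorem C2N_code (φ : Fm) : C2N N φ.code := by
  induction φ with
  | mem i j => exact (C2N_natZ _).pair ((C2N_natZ _).pair (C2N_natZ _))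
  | eq i j => exact (C2N_natZ _).pair ((C2N_natZ _).pair (C2N_natZ _))
  | tr i => exact (C2N_natZ _).pair (C2N_natZ _)
  | memS i k => exact (C2N_natZ _).pair ((C2N_natZ _).pair (C2N_natZ _))
  | neg φ h => exact (C2N_natZ _).pair h
  | and φ ψ h h' => exact (C2N_natZ _).pair (h.pair h')
  | ex φ h => exact (C2N_natZ _).pair h
  | exS φ h => exact (C2N_natZ _).pair h

theorem C2N_listZ (l : List V) (h : ∀ x ∈ l, C2N N x) : C2N N (listZ l) := by
  induction l with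
  | nil => simpa [natZ, listZ] using C2N_natZ (N := N) 0
  | cons a l ih =>
    exact (h a List.mem_cons_self).pair (ih fun x hx => h x (List.mem_cons_of_mem _ hx))

omit [IsZFC N] in
theorem mem_TN_iff {μ : Ordinal.{0}} (h : ν < μ) (φ : Fm) {l : List V} (hl : ∀ x ∈ l, x ∈ JN N ν)
    (h1 : φ.fo ≤ l.length) (h2 : φ.so = 0) :
    pair (ω * ν).toZFSet (pair φ.code (listZ l)) ∈ TN N μ ↔
      Sat2 N (JN N ν) (TN N ν) φ (env l) fun _ => ∅ := by
  rw [mem_TN]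
  refine ⟨fun ⟨ξ, _, hp⟩ => ?_, fun h3 => ⟨ν, h, mem_truthN.2 ⟨φ, l, hl, ⟨h1, h2, h3⟩, rfl⟩⟩⟩
  obtain ⟨ψ, l', -, h3, e⟩ := mem_truthN.1 hp
  simp only [pair_inj] at e
  obtain rfl : ξ = ν := mul_left_cancel₀ omega0_ne_zero (toZFSet_injective e.1)
  rw [← code_inj _ _ e.2.1, ← listZ_inj e.2.2]
  exact h3.2.2

omit [IsZFC N] in
theorem sat2_congr (M T : V) (φ : Fm) : ∀ {v w : ℕ → V} (X : ℕ → V),
    (∀ i < φ.fo, v i = w i) → (Sat2 N M T φ v X ↔ Sat2 N M T φ w X) := by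
  induction φ with
  | mem i j =>
    intro v w X h
    simp only [Sat2]
    rw [h i (by simp only [Fm.fo]; omega), h j (by simp only [Fm.fo]; omega)]
  | eq i j =>
    intro v w X h
    simp only [Sat2]
    rw [h i (by simp only [Fm.fo]; omega), h j (by simp only [Fm.fo]; omega)]
  | tr i => intro v w X h; simp only [Sat2]; rw [h i (Nat.lt_succ_self i)]
  | memS i k => intro v w X h; simp only [Sat2]; rw [h i (Nat.lt_succ_self i)]
  | neg φ ih => intro v w X h; simp only [Sat2]; rw [ih X h]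
  | and φ ψ ih ih' =>
    intro v w X h
    simp only [Sat2]
    rw [ih X fun i hi => h i (lt_max_of_lt_left hi), ih' X fun i hi => h i (lt_max_of_lt_right hi)]
  | ex φ ih =>
    intro v w X h
    simp only [Sat2]
    refine exists_congr fun a => and_congr_right fun _ => ih X fun i hi => ?_
    cases i with
    | zero => rfl
    | succ i => exact h i (by simp only [Fm.fo]; omega)
  | exS φ ih =>
    intro v w X h
    simp only [Sat2]
    exact exists_congr fun S => and_congr_right fun _ => and_congr_right fun _ =>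
      and_congr_right fun _ => ih _ h

theorem c1_cons {k : ℕ} {v w : ℕ → V} (h : ∀ i < k, v i = w i) (x : V) :
    ∀ i < k, cons x v i = cons x w i := fun i hi => by
  cases i with
  | zero => rfl
  | succ i => exact h i (by omega)

/-- sets definable over a level belong to `C2N` -/
theorem C2N_sep (hν : ν.toZFSet ∈ N) (φ : Fm) (h2 : φ.so = 0) {v : ℕ → V} (hv : ∀ i, v i ∈ JN N ν) :
    C2N N (ZFSet.sep (fun a => Sat2 N (JN N ν) (TN N ν) φ (cons a v) fun _ => ∅) (JN N ν)) := by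
  have hl : ∀ x ∈ (List.range φ.fo).map v, x ∈ JN N ν := fun x hx => by
    obtain ⟨i, -, rfl⟩ := List.mem_map.1 hx
    exact hv i
  haveI : In N ν := ⟨hν⟩
  obtain ⟨μ, hμ, h3⟩ := ((C2N_ord (mem_of N (ω * ν))).pair (C2N_code φ)).pair
    ((C2N_listZ _ fun x hx => ⟨ν, hν, hl x hx⟩).pair ⟨_, succ_memN hν, JN_mem_succ N ν⟩)
  haveI : In N μ := ⟨hμ⟩
  have h4 : ∀ x y, pair x y ∈ JN N (max μ ν + 1) →
      x ∈ JN N (max μ ν + 1) ∧ y ∈ JN N (max μ ν + 1) := fun x y h =>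
    have k := JN_trans N _ {x, y} (JN_trans N _ _ h (by simp [pair]))
    ⟨k (by simp), k (by simp)⟩
  obtain ⟨h5, h6⟩ := h4 _ _ (mem_JN_succ (JN_mono (le_max_left _ _) h3))
  let w : ℕ → V := cons (ω * ν).toZFSet (cons φ.code (cons (listZ ((List.range φ.fo).map v))
    fun _ => JN N ν))
  let p : RT := (RT.var 1).opair ((RT.var 2).opair ((RT.var 0).opair (.var 3)))
  have := eval_mem_JN (.bunion (.var 3) (.bunion (.inter (.upair p p)) (.upair (.var 1) (.var 1))))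
    (v := w) (cons_all (h4 _ _ h5).1 (cons_all (h4 _ _ h5).2 (cons_all (h4 _ _ h6).1
      fun _ => (h4 _ _ h6).2)))
  refine ⟨max μ ν + 1, mem_of N (max μ ν + 1), ?_⟩
  have key : ∀ a ∈ JN N ν, (p.eval (TN N (max μ ν + 1)) (cons a w) ∈ TN N (max μ ν + 1) ↔
      Sat2 N (JN N ν) (TN N ν) φ (cons a v) fun _ => ∅) := fun a ha => by
    rw [← sat2_congr _ _ φ _ (c1_cons (env_ofFn v φ.fo) a), ← env_cons,
      ← mem_TN_iff (Order.lt_add_one_iff.2 (le_max_right μ ν)) φ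
        (List.forall_mem_cons.2 ⟨ha, hl⟩) (by simp) h2]
    simp only [p, RT.eval_opair]
    rfl
  show _ ∈ JN N _
  convert this using 1
  ext x
  simp only [mem_bunion, mem_sep]
  simp only [RT.eval, mem_pair, or_self, cons_succ, cons_zero, mem_inter]
  constructor
  · rintro ⟨h1, h3⟩
    exact ⟨x, h1, _, ⟨rfl, (key x h1).2 h3⟩, rfl⟩
  · rintro ⟨y, h1, z, ⟨rfl, hz⟩, rfl⟩
    exact ⟨h1, (key x h1).1 hz⟩
end

end Pool.Agent.Lib.MP_f9eb18_lc.W
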