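import Pool.Agent.Lib.MP_f9eb18_lc.W.C1

/-! # Interpreting `HC` in second-order logic over a level; failure of `CH` in `C^2(omega)` -/

namespace Pool.Agent.Lib.MP_f9eb18_lc.W

open Ordinal ZFSet
set_option linter.style.haveILetI false
set_option linter.unusedVariables false
set_option synthInstance.maxSize 100000

/-- properties definable in second-order logic over `(M, T)`, computed in `N` -/
def Df (N : Set V) (M T : V) (P : (ℕ → V) → (ℕ → V) → Prop) : Prop :=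
  ∃ φ : Fm, ∀ v X, (∀ i, v i ∈ M) → (∀ k, X k ∈ cts N M) → (Sat2 N M T φ v X ↔ P v X)

section
variable {N : Set V} {M T : V} {P Q : (ℕ → V) → (ℕ → V) → Prop}

theorem sat2_ren (φ : Fm) : ∀ (σ τ : ℕ → ℕ) (v X : ℕ → V),
    Sat2 N M T (φ.ren σ τ) v X ↔ Sat2 N M T φ (fun n => v (σ n)) (fun n => X (τ n)) := by
  induction φ with
  | mem i j => intros; rfl
  | eq i j => intros; rfl
  | tr i => intros; rfl
  | memS i k => intros; rfl
  | neg φ ih => intro σ τ v X; simp only [Fm.ren, Sat2, ih]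
  | and φ ψ ih ih' => intro σ τ v X; simp only [Fm.ren, Sat2, ih, ih']
  | ex φ ih => intro σ τ v X; simp only [Fm.ren, Sat2, ih, cons_up]
  | exS φ ih => intro σ τ v X; simp only [Fm.ren, Sat2, ih, cons_up]

theorem sat2_exS {φ : Fm} {v X : ℕ → V} :
    Sat2 N M T φ.exS v X ↔ ∃ s, s ∈ cts N M ∧ Sat2 N M T φ v (cons s X) := by
  simp only [Sat2, mem_cts, and_assoc]

theorem Df.congr (h : Df N M T P)
    (e : ∀ v X, (∀ i, v i ∈ M) → (∀ k, X k ∈ cts N M) → (P v X ↔ Q v X)) : Df N M T Q :=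
  let ⟨φ, hφ⟩ := h; ⟨φ, fun v X hv hX => (hφ v X hv hX).trans (e v X hv hX)⟩
theorem Df.mem (i j : ℕ) : Df N M T fun v _ => v i ∈ v j := ⟨.mem i j, fun _ _ _ _ => Iff.rfl⟩
theorem Df.eq (i j : ℕ) : Df N M T fun v _ => v i = v j := ⟨.eq i j, fun _ _ _ _ => Iff.rfl⟩
theorem Df.memS (i k : ℕ) : Df N M T fun v X => v i ∈ X k := ⟨.memS i k, fun _ _ _ _ => Iff.rfl⟩
theorem Df.not (h : Df N M T P) : Df N M T fun v X => ¬ P v X :=
  let ⟨φ, hφ⟩ := h; ⟨.neg φ, fun v X hv hX => not_congr (hφ v X hv hX)⟩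
theorem Df.and (h : Df N M T P) (h' : Df N M T Q) : Df N M T fun v X => P v X ∧ Q v X :=
  let ⟨φ, hφ⟩ := h; let ⟨ψ, hψ⟩ := h'
  ⟨.and φ ψ, fun v X hv hX => and_congr (hφ v X hv hX) (hψ v X hv hX)⟩
theorem Df.or (h : Df N M T P) (h' : Df N M T Q) : Df N M T fun v X => P v X ∨ Q v X :=
  (h.not.and h'.not).not.congr fun _ _ _ _ => by tauto
theorem Df.imp (h : Df N M T P) (h' : Df N M T Q) : Df N M T fun v X => P v X → Q v X :=
  (h.and h'.not).not.congr fun _ _ _ _ => by tauto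
theorem Df.iff (h : Df N M T P) (h' : Df N M T Q) : Df N M T fun v X => P v X ↔ Q v X :=
  ((h.imp h').and (h'.imp h)).congr fun _ _ _ _ => by tauto
theorem Df.ren (h : Df N M T P) (σ τ : ℕ → ℕ) :
    Df N M T fun v X => P (fun n => v (σ n)) (fun n => X (τ n)) :=
  let ⟨φ, hφ⟩ := h
  ⟨φ.ren σ τ, fun v X hv hX => (sat2_ren φ σ τ v X).trans (hφ _ _ (fun _ => hv _) fun _ => hX _)⟩
theorem Df.ex' (h : Df N M T P) : Df N M T fun v X => ∃ a, a ∈ M ∧ P (cons a v) X :=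
  let ⟨φ, hφ⟩ := h
  ⟨.ex φ, fun v X hv hX => exists_congr fun a => and_congr_right fun ha =>
    hφ _ _ (cons_all ha hv) hX⟩
theorem Df.exS' (h : Df N M T P) : Df N M T fun v X => ∃ s, s ∈ cts N M ∧ P v (cons s X) :=
  let ⟨φ, hφ⟩ := h
  ⟨.exS φ, fun v X hv hX => sat2_exS.trans (exists_congr fun s => and_congr_right fun hs =>
    hφ _ _ hv (cons_all hs hX))⟩
variable {R : (ℕ → V) → (ℕ → V) → V → Prop}
theorem Df.ex (h : Df N M T fun v X => R (fun n => v (n + 1)) X (v 0)) :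
    Df N M T fun v X => ∃ a, a ∈ M ∧ R v X a := h.ex'
theorem Df.all (h : Df N M T fun v X => R (fun n => v (n + 1)) X (v 0)) :
    Df N M T fun v X => ∀ a, a ∈ M → R v X a :=
  (Df.ex (R := fun v X a => ¬ R v X a) h.not).not.congr fun _ _ _ _ => by push Not; rfl
theorem Df.exS (h : Df N M T fun v X => R v (fun n => X (n + 1)) (X 0)) :
    Df N M T fun v X => ∃ s, s ∈ cts N M ∧ R v X s := h.exS'
theorem Df.allS (h : Df N M T fun v X => R v (fun n => X (n + 1)) (X 0)) :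
    Df N M T fun v X => ∀ s, s ∈ cts N M → R v X s :=
  (Df.exS (R := fun v X a => ¬ R v X a) h.not).not.congr fun _ _ _ _ => by push Not; rfl

theorem Df.eqUpair (hM : M.IsTransitive) (k i j : ℕ) : Df N M T fun v _ => v k = {v i, v j} :=
  (Df.all (R := fun v _ z => z ∈ v k ↔ z = v i ∨ z = v j)
    ((Df.mem _ _).iff ((Df.eq _ _).or (Df.eq _ _)))).congr fun v _ hv _ =>
    ⟨fun h => ZFSet.ext fun z => ⟨fun hz => mem_pair.2 ((h z (hM _ (hv k) hz)).1 hz), fun hz =>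
      (h z ((mem_pair.1 hz).elim (· ▸ hv i) (· ▸ hv j))).2 (mem_pair.1 hz)⟩,
      fun h z _ => h ▸ mem_pair⟩

theorem c2_pair (hM : M.IsTransitive) {x y : V} (h : pair x y ∈ M) :
    ({x, x} : V) ∈ M ∧ ({x, y} : V) ∈ M ∧ x ∈ M ∧ y ∈ M :=
  have k := hM _ h (show {x, y} ∈ pair x y by simp [pair])
  ⟨hM _ h (by simp [pair]), k, hM _ k (by simp), hM _ k (by simp)⟩

theorem Df.pairS (hM : M.IsTransitive) (i j k : ℕ) :
    Df N M T fun v X => pair (v i) (v j) ∈ X k := by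
  have : Df N M T fun v X => ∃ a, a ∈ M ∧ ∃ b, b ∈ M ∧ ∃ p, p ∈ M ∧
      a = {v i, v i} ∧ b = {v i, v j} ∧ p = {a, b} ∧ p ∈ X k := by
    repeat (first
      | with_reducible exact Df.eqUpair hM _ _ _
      | with_reducible exact Df.memS _ _
      | with_reducible apply Df.and
      | with_reducible apply Df.ex)
  refine this.congr fun v X _ hX => ⟨?_, fun h => ?_⟩
  · rintro ⟨_, -, _, -, _, -, rfl, rfl, rfl, h⟩
    rwa [pair_eq_singleton] at h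
  · have k := (mem_cts.1 (hX k)).2.2 h
    exact ⟨_, (c2_pair hM k).1, _, (c2_pair hM k).2.1, _, k, rfl, rfl,
      by rw [pair_eq_singleton]; rfl, h⟩

/-- the nodes `a`, `b` are related by a bisimulation -/
def EqC (N : Set V) (M : V) (r r' : V → V → Prop) (a b : V) : Prop :=
  ∃ R, R ∈ cts N M ∧ pair a b ∈ R ∧ ∀ x, x ∈ M → ∀ y, y ∈ M → pair x y ∈ R →
    (∀ x', x' ∈ M → r x' x → ∃ y', y' ∈ M ∧ r' y' y ∧ pair x' y' ∈ R) ∧
      ∀ y', y' ∈ M → r' y' y → ∃ x', x' ∈ M ∧ r x' x ∧ pair x' y' ∈ R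

theorem Df.eqC (hM : M.IsTransitive) (i j k l : ℕ) : Df N M T fun v X =>
    EqC N M (fun x y => pair x y ∈ X k) (fun x y => pair x y ∈ X l) (v i) (v j) := by
  unfold EqC
  repeat (first
    | with_reducible exact Df.pairS hM _ _ _
    | with_reducible apply Df.and
    | with_reducible apply Df.all
    | with_reducible apply Df.imp
    | with_reducible apply Df.ex
    | with_reducible apply Df.exS)

theorem Df.eqM (hM : M.IsTransitive) (i j l : ℕ) : Df N M T fun v X =>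
    EqC N M (fun x y => x ∈ y) (fun x y => pair x y ∈ X l) (v i) (v j) := by
  unfold EqC
  repeat (first
    | with_reducible exact Df.pairS hM _ _ _
    | with_reducible exact Df.mem _ _
    | with_reducible apply Df.and
    | with_reducible apply Df.all
    | with_reducible apply Df.imp
    | with_reducible apply Df.ex
    | with_reducible apply Df.exS)

variable {r r' : V → V → Prop} {f f' : V → V} {a b : V}
theorem EqC.eq (h : EqC N M r r' a b) (hwf : WellFounded r) (ha : a ∈ M) (hb : b ∈ M)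
    (hr : ∀ x ∈ M, ∀ x', r x' x → x' ∈ M) (hr' : ∀ x ∈ M, ∀ x', r' x' x → x' ∈ M)
    (hf : ∀ x z, z ∈ f x ↔ ∃ y, r y x ∧ f y = z) (hf' : ∀ x z, z ∈ f' x ↔ ∃ y, r' y x ∧ f' y = z) :
    f a = f' b := by
  obtain ⟨R, -, h1, h2⟩ := h
  induction a using hwf.induction generalizing b with
  | h a ih =>
  ext z
  rw [hf, hf']
  constructor
  · rintro ⟨x, k1, rfl⟩
    obtain ⟨y, k2, k3, k4⟩ := (h2 a ha b hb h1).1 x (hr a ha x k1) k1
    exact ⟨y, k3, (ih x k1 (hr a ha x k1) k2 k4).symm⟩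
  · rintro ⟨y, k1, rfl⟩
    obtain ⟨x, k2, k3, k4⟩ := (h2 a ha b hb h1).2 y (hr' b hb y k1) k1
    exact ⟨x, k3, ih x k3 k2 (hr' b hb y k1) k4⟩
end

/-- the properties of a level that are used -/
structure Lvl (M : V) : Prop where
  tr : M.IsTransitive
  pr : ∀ x ∈ M, ∀ y ∈ M, pair x y ∈ M
  om : omegaZ ⊆ M

section
variable {N : Set V} [IsZFC N] {M T a b c d : V}

theorem Lvl.rel_mem (h : Lvl M) {A B : V} (hA : A ∈ cts N M) (hB : B ∈ cts N M) {P : V → V → Prop}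
    (hR : rel A B P ∈ N) : rel A B P ∈ cts N M := by
  rw [mem_cts] at *
  refine ⟨hR, (hA.2.1.prod hB.2.1).of_subset hR fun p hp => (mem_sep.1 hp).1, fun p hp => ?_⟩
  obtain ⟨x, h1, y, h2, rfl, -⟩ := mem_rel.1 hp
  exact h.pr x (hA.2.2 h1) y (hB.2.2 h2)

theorem Lvl.eqC (h : Lvl M) {r r' : V → V → Prop} {f f' : V → V} {A B : V} (hA : A ∈ cts N M)
    (hB : B ∈ cts N M) (ha : a ∈ A) (hb : b ∈ B) (hr : ∀ x ∈ A, ∀ x', r x' x → x' ∈ A)
    (hr' : ∀ x ∈ B, ∀ x', r' x' x → x' ∈ B) (hf : ∀ x z, z ∈ f x ↔ ∃ y, r y x ∧ f y = z)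
    (hf' : ∀ x z, z ∈ f' x ↔ ∃ y, r' y x ∧ f' y = z) (hR : rel A B (fun x y => f x = f' y) ∈ N)
    (e : f a = f' b) : EqC N M r r' a b := by
  refine ⟨_, h.rel_mem hA hB hR, pair_mem_rel.2 ⟨ha, hb, e⟩, fun x _ y _ k => ?_⟩
  obtain ⟨k1, k2, k3⟩ := pair_mem_rel.1 k
  refine ⟨fun x' _ k4 => ?_, fun y' _ k4 => ?_⟩
  · obtain ⟨y', k5, k6⟩ := (hf' y _).1 (k3 ▸ (hf x _).2 ⟨x', k4, rfl⟩)
    exact ⟨y', (mem_cts.1 hB).2.2 (hr' y k2 y' k5), k5,
      pair_mem_rel.2 ⟨hr x k1 x' k4, hr' y k2 y' k5, k6.symm⟩⟩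
  · obtain ⟨x', k5, k6⟩ := (hf x _).1 (k3 ▸ (hf' y _).2 ⟨y', k4, rfl⟩)
    exact ⟨x', (mem_cts.1 hA).2.2 (hr x k1 x' k5), k5,
      pair_mem_rel.2 ⟨hr x k1 x' k5, hr' y k2 y' k4, k6⟩⟩

theorem ctbl_of_surj {A B : V} {f : V → V} (h : Ctbl N A) (hf : lam A f ∈ N) (hB : B ∈ N)
    (hs : ∀ y ∈ B, ∃ x ∈ A, f x = y) : Ctbl N B :=
  (injIn_of_surj hf (InjIn.mem_left h) hB fun y hy =>
    let ⟨x, h1, h2⟩ := hs y hy; ⟨x, h1, (app_lam f h1).trans h2⟩).trans h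

theorem Lvl.dom_mem (h : Lvl M) (hc : c ∈ cts N M) : dom c ∈ cts N M := by
  rw [mem_cts] at *
  haveI : In N c := ⟨hc.1⟩
  refine ⟨memV_of N _, ctbl_of_surj hc.2.1 (memV_of N (lam c fun p => fst p)) (memV_of N _)
    fun y hy => ?_, fun y hy => ?_⟩
  · obtain ⟨z, hz⟩ := mem_dom.1 hy
    exact ⟨_, hz, fst_pair _ _⟩
  · obtain ⟨z, hz⟩ := mem_dom.1 hy
    exact (c2_pair h.tr (hc.2.2 hz)).2.2.1

theorem Lvl.ins_mem (h : Lvl M) (hM : M ∈ N) (hc : c ∈ cts N M) (ha : a ∈ M) :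
    insert a (dom c) ∈ cts N M := by
  obtain ⟨-, h2, h3⟩ := mem_cts.1 (h.dom_mem hc)
  have h4 := h2.insert (IsZ.trans _ hM a ha)
  exact mem_cts.2 ⟨InjIn.mem_left h4, h4, fun x hx =>
    (mem_insert_iff.1 hx).elim (· ▸ ha) fun e => h3 e⟩

theorem c2_ins {x : V} (_ : x ∈ insert a (dom c)) (x' : V) (h : pair x' x ∈ c) :
    x' ∈ insert a (dom c) := mem_insert_of_mem _ (mem_dom.2 ⟨_, h⟩)

theorem Lvl.col_mem (h : Lvl M) (hM : M ∈ N) (hc : c ∈ cts N M) (hw : WF c) (ha : a ∈ M) :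
    col c a ∈ HC N := by
  have h1 := mem_cts.1 (h.ins_mem hM hc ha)
  haveI : In N c := ⟨(mem_cts.1 hc).1⟩
  haveI : In N a := ⟨IsZ.trans _ hM a ha⟩
  exact IsZ.trans _ (mem_HC_of_trans (col_trans hw fun _ => c2_ins) (ctbl_of_surj h1.2.1
    (memV_of N (lam _ fun x => col c x)) (memV_of N (img (fun x => col c x) _))
    fun y hy => mem_img.1 hy)) _ (mem_img.2 ⟨a, mem_insert _ _, rfl⟩)

theorem Lvl.eqC_iff (h : Lvl M) (hM : M ∈ N) (hc : c ∈ cts N M) (hw : WF c) (hd : d ∈ cts N M)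
    (hw' : WF d) (ha : a ∈ M) (hb : b ∈ M) :
    EqC N M (fun x y => pair x y ∈ c) (fun x y => pair x y ∈ d) a b ↔ col c a = col d b := by
  haveI : In N c := ⟨(mem_cts.1 hc).1⟩
  haveI : In N d := ⟨(mem_cts.1 hd).1⟩
  haveI : In N a := ⟨IsZ.trans _ hM a ha⟩
  haveI : In N b := ⟨IsZ.trans _ hM b hb⟩
  exact ⟨fun k => k.eq hw ha hb (fun _ _ _ e => (c2_pair h.tr ((mem_cts.1 hc).2.2 e)).2.2.1)
    (fun _ _ _ e => (c2_pair h.tr ((mem_cts.1 hd).2.2 e)).2.2.1) (fun x _ => mem_col (hw.accP x))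
    fun x _ => mem_col (hw'.accP x), h.eqC (h.ins_mem hM hc ha) (h.ins_mem hM hd hb)
    (mem_insert _ _) (mem_insert _ _) (fun _ => c2_ins) (fun _ => c2_ins)
    (fun x _ => mem_col (hw.accP x)) (fun x _ => mem_col (hw'.accP x)) (memV_of N _)⟩

theorem Lvl.eqM_iff (h : Lvl M) (hM : M ∈ N) (hd : d ∈ cts N M) (hw' : WF d) (ha : a ∈ M)
    (hb : b ∈ M) : EqC N M (fun x y => x ∈ y) (fun x y => pair x y ∈ d) a b ↔ a = col d b := by
  haveI : In N d := ⟨(mem_cts.1 hd).1⟩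
  haveI : In N a := ⟨IsZ.trans _ hM a ha⟩
  haveI : In N b := ⟨IsZ.trans _ hM b hb⟩
  refine ⟨fun k => k.eq (f := fun x => x) mem_wf ha hb (fun x hx _ e => h.tr x hx e)
    (fun _ _ _ e => (c2_pair h.tr ((mem_cts.1 hd).2.2 e)).2.2.1) (by simp)
    fun x _ => mem_col (hw'.accP x), fun e => ?_⟩
  exact h.eqC (f := fun x => x) (mem_cts.2 ⟨memV_of N (tc a), e ▸ h.col_mem hM hd hw' hb,
    tc_min h.tr ha⟩) (h.ins_mem hM hd hb) (mem_tc a) (mem_insert _ _)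
    (fun x hx _ e => tc_trans a x hx e) (fun _ => c2_ins) (by simp)
    (fun x _ => mem_col (hw'.accP x)) (memV_of N _) e

theorem Lvl.wf (h : Lvl M) (k : ℕ) : Df N M T fun _ X => WF (X k) := by
  have : Df N M T fun v X => ∀ Y, Y ∈ cts N M → ∀ z, z ∈ M → z ∈ Y →
      ∃ y, y ∈ M ∧ y ∈ Y ∧ ∀ x, x ∈ M → x ∈ Y → ¬ pair x y ∈ X k := by
    repeat (first
      | with_reducible exact Df.pairS h.tr _ _ _
      | with_reducible exact Df.memS _ _
      | with_reducible apply Df.and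
      | with_reducible apply Df.not
      | with_reducible apply Df.all
      | with_reducible apply Df.allS
      | with_reducible apply Df.imp
      | with_reducible apply Df.ex)
  refine this.congr fun _ X _ hX => ⟨fun H => ?_, fun H Y hY z _ hz => ?_⟩
  · obtain ⟨h1, h2, h3⟩ := mem_cts.1 (h.dom_mem (hX k))
    haveI : In N (X k) := ⟨(mem_cts.1 (hX k)).1⟩
    have h4 := sep_mem N (fun z => ¬ AccP (preds (X k)) z) h1
    refine wf_iff_acc.2 fun z _ => ⟨z, fun y hy => by_contra fun hn => ?_⟩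
    have h5 := mem_dom.2 ⟨z, mem_preds.1 hy⟩
    obtain ⟨u, -, h6, h7⟩ := H _ (mem_cts.2 ⟨h4, h2.of_subset h4 fun x hx => (mem_sep.1 hx).1,
      fun x hx => h3 (mem_sep.1 hx).1⟩) y (h3 h5) (mem_sep.2 ⟨h5, hn⟩)
    refine (mem_sep.1 h6).2 ⟨u, fun x hx => by_contra fun hn' => ?_⟩
    have h8 := mem_dom.2 ⟨u, mem_preds.1 hx⟩
    exact h7 x (h3 h8) (mem_sep.2 ⟨h8, hn'⟩) (mem_preds.1 hx)
  · obtain ⟨y, h1, h2⟩ := WellFounded.has_min H {y | y ∈ Y} ⟨z, hz⟩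
    exact ⟨y, (mem_cts.1 hY).2.2 h1, h1, fun x _ hx => h2 x hx⟩

theorem Lvl.exists_code (h : Lvl M) {u : V} (hu : u ∈ HC N) :
    ∃ c, c ∈ cts N M ∧ WF c ∧ ∃ a, a ∈ M ∧ col c a = u := by
  obtain ⟨f, h1, h2⟩ := hu
  haveI : In N f := ⟨h1⟩
  haveI : In N (tc u) := ⟨InjIn.mem_left ⟨f, h1, h2⟩⟩
  obtain ⟨h3, h4⟩ := isInj_iff.1 h2
  have h5 := (isFunc_iff.1 h3).2.2
  have hω : omegaZ ∈ cts N M := mem_cts.2 ⟨IsZ.omega, ctbl_omega, h.om⟩
  have hw : WF (rel omegaZ omegaZ fun m n =>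
      ∃ x ∈ tc u, ∃ y ∈ tc u, app f x = m ∧ app f y = n ∧ x ∈ y) := by
    refine Subrelation.wf (fun {m n} k => ?_)
      (InvImage.wf (Function.invFunOn (app f) {x | x ∈ tc u}) mem_wf)
    obtain ⟨-, -, x, k1, y, k2, rfl, rfl, k3⟩ := pair_mem_rel.1 k
    have e := Set.InjOn.leftInvOn_invFunOn (f := app f) (s := {x | x ∈ tc u})
      fun x hx y hy => h4 x hx y hy
    rwa [InvImage, e k1, e k2]
  refine ⟨_, h.rel_mem hω hω (memV_of N _), hw, app f u, h.om (h5 u (mem_tc u)), ?_⟩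
  have key : ∀ y ∈ tc u, col _ (app f y) = y := fun y => by
    induction y using mem_wf.induction with
    | h y ih =>
    intro hy
    ext z
    rw [mem_col (hw.accP _)]
    constructor
    · rintro ⟨m, k, rfl⟩
      obtain ⟨-, -, x, k1, y', k2, rfl, k3, k4⟩ := pair_mem_rel.1 k
      obtain rfl := h4 _ k2 _ hy k3
      rwa [ih x k4 k1]
    · intro hz
      have k := tc_trans u y hy hz
      exact ⟨_, pair_mem_rel.2 ⟨h5 z k, h5 y hy, z, k, y, hy, rfl, rfl, hz⟩, ih z hz k⟩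
  exact key u (mem_tc u)
end

/-- properties of hereditarily countable sets that are definable in terms of codes -/
def HD (N : Set V) (M T : V) (P : (ℕ → V) → Prop) : Prop :=
  ∃ Φ, Df N M T Φ ∧ ∀ v X, (∀ i, v i ∈ M) → (∀ k, X k ∈ cts N M) → (∀ k, WF (X k)) →
    (Φ v X ↔ P fun i => col (X i) (v i))

section
variable {N : Set V} [IsZFC N] {M T : V} {P Q : (ℕ → V) → Prop}

omit [IsZFC N] in
theorem HD.not (h : HD N M T P) : HD N M T fun u => ¬ P u :=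
  let ⟨_, h1, h2⟩ := h; ⟨_, h1.not, fun v X a b c => not_congr (h2 v X a b c)⟩
omit [IsZFC N] in
theorem HD.and (h : HD N M T P) (k : HD N M T Q) : HD N M T fun u => P u ∧ Q u :=
  let ⟨_, h1, h2⟩ := h; let ⟨_, k1, k2⟩ := k
  ⟨_, h1.and k1, fun v X a b c => and_congr (h2 v X a b c) (k2 v X a b c)⟩
omit [IsZFC N] in
theorem HD.ren (h : HD N M T P) (σ : ℕ → ℕ) : HD N M T fun u => P fun n => u (σ n) :=
  let ⟨_, h1, h2⟩ := h
  ⟨_, h1.ren σ σ, fun _ _ a b c => h2 _ _ (fun _ => a _) (fun _ => b _) fun _ => c _⟩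

variable (h : Lvl M) (hM : M ∈ N)
include h hM

theorem HD.ex (k : HD N M T P) : HD N M T fun u => ∃ x ∈ HC N, P (cons x u) := by
  obtain ⟨Φ, k1, k2⟩ := k
  refine ⟨_, ((h.wf 0).and k1.ex').exS', fun v X hv hX hw => ?_⟩
  have e : ∀ c, c ∈ cts N M → WF c → ∀ a, a ∈ M → (Φ (cons a v) (cons c X) ↔
      P (cons (col c a) fun i => col (X i) (v i))) := fun c h1 h2 a h3 => by
    rw [k2 _ _ (cons_all h3 hv) (cons_all h1 hX) (cons_all h2 hw)]
    exact iff_of_eq (congrArg P (funext fun i => by cases i <;> rfl))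
  refine ⟨fun ⟨c, h1, h2, a, h3, h4⟩ => ⟨_, h.col_mem hM h1 h2 h3, (e c h1 h2 a h3).1 h4⟩,
    fun ⟨x, h1, h2⟩ => ?_⟩
  obtain ⟨c, h3, h4, a, h5, rfl⟩ := h.exists_code h1
  exact ⟨c, h3, h4, a, h5, (e c h3 h4 a h5).2 h2⟩

theorem HD.inM (i : ℕ) : HD N M T fun u => u i ∈ M :=
  ⟨_, (Df.eqM h.tr 0 (i + 1) i).ex', fun v X hv hX hw =>
    ⟨fun ⟨a, h1, h2⟩ => show col _ _ ∈ M from (h.eqM_iff hM (hX i) (hw i) h1 (hv i)).1 h2 ▸ h1,
      fun h1 => ⟨_, h1, (h.eqM_iff hM (hX i) (hw i) h1 (hv i)).2 rfl⟩⟩⟩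

theorem HD.sat (φ : Fo) : HD N M T (Sat1 (HC N) φ) := by
  induction φ with
  | mem i j =>
    refine ⟨_, ((Df.pairS h.tr 0 (j + 1) j).and (Df.eqC h.tr (i + 1) 0 i j)).ex',
      fun v X hv hX hw => Iff.trans ?_ (mem_col ((hw j).accP _)).symm⟩
    exact exists_congr fun y => ⟨fun ⟨h1, h2, h3⟩ =>
      ⟨h2, ((h.eqC_iff hM (hX i) (hw i) (hX j) (hw j) (hv i) h1).1 h3).symm⟩, fun ⟨h2, h3⟩ =>
      have h1 := (c2_pair h.tr ((mem_cts.1 (hX j)).2.2 h2)).2.2.1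
      ⟨h1, h2, (h.eqC_iff hM (hX i) (hw i) (hX j) (hw j) (hv i) h1).2 h3.symm⟩⟩
  | eq i j =>
    exact ⟨_, Df.eqC h.tr i j i j, fun v X hv hX hw =>
      h.eqC_iff hM (hX i) (hw i) (hX j) (hw j) (hv i) (hv j)⟩
  | neg φ ih => exact ih.not
  | and φ ψ ih ih' => exact ih.and ih'
  | ex φ ih => exact ih.ex h hM
end

section
variable {N : Set V} [IsZFC N] {ν : Ordinal.{0}}

omit [IsZFC N] in
theorem sat2_iter {M T : V} (φ : Fm) (v : ℕ → V) (p : Prop)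
    (h : ∀ X, (∀ k, X k ∈ cts N M) → (Sat2 N M T φ v X ↔ p)) (h0 : ∅ ∈ cts N M) (k : ℕ) :
    ∀ X, (∀ k, X k ∈ cts N M) → (Sat2 N M T (Fm.exS^[k] φ) v X ↔ p) := by
  induction k with
  | zero => exact h
  | succ k ih =>
    intro X hX
    rw [Function.iterate_succ_apply', sat2_exS]
    exact ⟨fun ⟨s, h1, h2⟩ => (ih _ (cons_all h1 hX)).1 h2,
      fun hp => ⟨∅, h0, (ih _ (cons_all h0 hX)).2 hp⟩⟩

/-- a subset of `HC N` inside a level that is definable in terms of codes belongs to `C2N` -/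
theorem HD.extract {P : (ℕ → V) → Prop} (hν : ν.toZFSet ∈ N) (h : Lvl (JN N ν))
    (k : HD N (JN N ν) (TN N ν) P) {x : V} (h1 : x ⊆ JN N ν) (h2 : ∀ a ∈ x, a ∈ HC N)
    (h3 : ∀ a ∈ HC N, (P fun _ => a) ↔ a ∈ x) : C2N N x := by
  obtain ⟨Φ, k1, k2⟩ := k
  have hM := JN_mem hν
  obtain ⟨φ, hφ⟩ := ((h.wf 0).and ((Df.eqM h.tr 1 0 0).and
    (k1.ren (fun _ => 0) fun _ => 0)).ex').exS'
  have h0 : ∅ ∈ cts N (JN N ν) := mem_cts.2 ⟨IsZ.empty_mem N,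
    ctbl_omega.of_subset (IsZ.empty_mem N) (empty_subset _), empty_subset _⟩
  have hv : ∀ i : ℕ, natZ 0 ∈ JN N ν := fun _ => h.om (natZ_mem_omegaZ 0)
  convert C2N_sep hν (Fm.exS^[φ.so] φ) (by rw [so_iter]; omega) hv using 1
  ext a
  rw [mem_sep, ← and_iff_right_of_imp (@h1 a)]
  refine and_congr_right fun ha => (sat2_iter φ _ _ (fun X hX => ?_) h0 _ _ fun _ => h0).symm
  rw [hφ _ X (cons_all ha hv) hX]
  constructor
  · rintro ⟨c, c1, c2, b, c3, c4, c5⟩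
    obtain rfl := (h.eqM_iff hM c1 c2 ha c3).1 c4
    exact (h3 _ (h.col_mem hM c1 c2 c3)).1
      ((k2 _ _ (fun _ => c3) (fun _ => c1) fun _ => c2).1 c5)
  · intro e
    obtain ⟨c, c1, c2, b, c3, rfl⟩ := h.exists_code (h2 a e)
    exact ⟨c, c1, c2, b, c3, (h.eqM_iff hM c1 c2 ha c3).2 rfl,
      (k2 _ _ (fun _ => c3) (fun _ => c1) fun _ => c2).2 ((h3 _ (h2 _ e)).2 e)⟩

theorem real_mem_HC {x : V} (h : x ∈ N) (hs : x ⊆ omegaZ) : x ∈ HC N :=
  mem_HC_iff.2 ⟨ctbl_omega.of_subset h hs, fun y hy =>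
    IsZ.trans _ (IsZ.omega (M := HC N)) y (hs hy)⟩

theorem c2_onto {f x b : V} {P : V → Prop} (h : IsOnto f x P) (hb : P b) : ∃ a ∈ x, app f a = b :=
  let ⟨a, h1, h2⟩ := h.2.2 b hb
  ⟨a, h1, app_eq_of_unique h2 fun _ h3 => (h.2.1 a h1).unique h3 h2⟩
end

theorem c2Thm : C2Thm := by
  rintro N _ ⟨D, lt, φ, ψ, d1, d2, d3, d4, d5, d6⟩ ⟨κ, hκ, f, f1, f2⟩
  have hD : ∀ x, D x → x ∈ HC N := fun x hx => real_mem_HC (d1 x hx).1 (d1 x hx).2
  have key : ∀ x, D x → C2N N x := fun x => by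
    induction x using d5.induction with
    | h x ih =>
    intro hx
    by_contra hn
    haveI : In N x := ⟨(d1 x hx).1⟩
    haveI : UV (loc N) fun _ _ _ => x := ⟨fun _ => inferInstance⟩
    haveI : UV (loc N) fun _ v _ => vr v 0 := ⟨fun _ => inferInstance⟩
    obtain ⟨μ, m1, -, m2⟩ := exists_levelN (memV_of N (insert omegaZ (ZFSet.sep (fun y =>
      Sat1 (HC N) φ (fun _ => y) ∧ Sat1 (HC N) ψ (cons y fun _ => x)) (pw N omegaZ))))
      (fun y hy => (mem_insert_iff.1 hy).elim (fun e => e ▸ C2N_ord IsZ.omega) fun e => by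
        obtain ⟨e1, e2, e3⟩ := mem_sep.1 e
        have e4 := (d2 y (real_mem_HC (mem_pw.1 e1).1 (mem_pw.1 e1).2)).2 e2
        exact ih y ⟨e4, hx, (d3 y x e4 hx).2 e3⟩ e4) (ν := ω) IsZ.omega
    have hν := succ_memN m1
    have hM := JN_mem hν
    have h : Lvl (JN N (μ + 1)) := ⟨JN_trans N _, fun _ a _ b => pair_mem_JN a b,
      JN_trans N _ _ (mem_JN_succ (m2 _ (mem_insert _ _)))⟩
    have m3 : ∀ y, D y → lt y x → y ∈ JN N (μ + 1) := fun y e1 e2 =>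
      mem_JN_succ (m2 y (mem_insert_of_mem _ (mem_sep.2 ⟨mem_pw.2 (d1 y e1),
        (d2 y (hD y e1)).1 e1, (d3 y x e1 hx).1 e2⟩)))
    have m4 : x ∉ JN N (μ + 1) := fun e => hn ⟨_, hν, e⟩
    have e : ∀ (x y : V) (u : ℕ → V), (fun n => cons y (cons x u) (cons 0 (fun _ => 1) n)) =
        cons y fun _ => x := fun x y u => funext fun n => by cases n <;> rfl
    refine hn ((((((HD.sat h hM φ).ren fun _ => 0).and (HD.inM h hM 0).not).and
      (((((HD.sat h hM φ).ren fun _ => 0).and ((HD.sat h hM ψ).ren (cons 0 fun _ => 1))).and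
        (HD.inM h hM 0).not).ex h hM).not).and (HD.sat h hM (.mem 1 0))).ex h hM |>.extract hν h
      (fun a ha => h.om ((d1 x hx).2 ha)) (fun a ha => IsZ.trans _ (hD x hx) a ha) fun a _ => ?_)
    simp only [e, cons_zero, Sat1, cons_succ]
    constructor
    · rintro ⟨y, y1, ⟨⟨y2, y3⟩, y4⟩, y5⟩
      have y6 := (d2 y y1).2 y2
      rcases d4 y x y6 hx with k | rfl | k
      · exact (y3 (m3 y y6 k)).elim
      · exact y5
      · exact (y4 ⟨x, hD x hx, ⟨(d2 x (hD x hx)).1 hx, (d3 x y hx y6).1 k⟩, m4⟩).elim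
    · exact fun ha => ⟨x, hD x hx, ⟨⟨(d2 x (hD x hx)).1 hx, m4⟩, fun ⟨y, y1, ⟨y2, y3⟩, y4⟩ =>
        y4 (m3 y ((d2 y y1).2 y2) ((d3 y x ((d2 y y1).2 y2) hx).2 y3))⟩, ha⟩
  have hle : κ ≤ om1 N := not_lt.1 fun hlt => by
    rcases hκ _ hlt with e | ⟨g, g1, g2⟩
    · exact (omega0_pos.trans (omega_lt_om1 N)).ne' e
    · exact (lt_om1_iff.2 (injIn_of_surj g1.mem IsZ.omega (om1_mem N)
        fun y hy => c2_onto g2 hy)).false
  refine d6 ⟨f, f1.mem, fun x hx => ?_⟩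
  obtain ⟨a, a1, a2⟩ := c2_onto f2 ⟨key x hx, (d1 x hx).2⟩
  obtain ⟨ξ, a3, rfl⟩ := mem_toZFSet_iff.1 a1
  exact ⟨ξ, a3.trans_le hle, a2⟩

end Pool.Agent.Lib.MP_f9eb18_lc.W
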