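import Pool.Agent.Lib.MP_f9eb18_lc.W.TT

/-! # Capturing by tame systems, Woodin cardinals in the inner models, minimal models -/

namespace Pool.Agent.Lib.MP_f9eb18_lc.W

open Ordinal ZFSet Classical
set_option linter.style.haveILetI false
set_option linter.unusedVariables false
set_option synthInstance.maxSize 100000

variable {F : Fr}

/-- all pairs (critical point, index) inside the interval `(a, b)` -/
noncomputable def ivS (a b : Ordinal.{0}) : V :=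
  rel b.toZFSet b.toZFSet (fun x y => a < x.rank ∧ x.rank < y.rank ∧ IsI y.rank)
instance uf_ivS {o q : Set V → (ℕ → V) → Ordinal.{0}} [UF F o] [UF F q] :
    UF F (fun M v => ivS (o M v) (q M v)) := by
  have := UF.lift (F := F) o; unfold ivS; infer_instance
/-- the shape of the chain `δ 0 < δ 1 < ... < δ k` -/
noncomputable def chS : ℕ → (ℕ → Ordinal.{0}) → V
  | 0, _ => ∅
  | k + 1, δ => ivS (δ 0) (δ 1) ∪ chS k (fun j => δ (j + 1))

/-- the background: a countable model, a well-order of a rank initial segment, an inaccessible -/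
structure Ctx (N : Set V) (w : V) (μ : Ordinal.{0}) : Prop where
  ctbl : N.Countable
  mem : w ∈ N
  wo : IsWO w (fld w)
  A_eq : fld w = Vs N (fld w).rank
  inac : Inac N μ

structure Chain (N : Set V) (w : V) (μ : Ordinal.{0}) (k : ℕ) (δ : ℕ → Ordinal.{0}) : Prop where
  mu_le : μ ≤ δ 0
  lt : ∀ j < k, δ j < δ (j + 1)
  wood : ∀ j < k, WoodE N (δ (j + 1))
  top : δ k ≤ (fld w).rank
  small : ∀ j < k, ∀ d, δ j < d → d < δ (j + 1) → Order.IsSuccLimit d →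
    Small N w μ (k - j - 1) d

/-- `δ 1 < ... < δ n` are Woodin cardinals of `N` -/
def WS (N : Set V) (n : ℕ) (δ : ℕ → Ordinal.{0}) : Prop :=
  (∀ j < n, WoodE N (δ (j + 1))) ∧ ∀ j, j + 1 < n → δ (j + 1) < δ (j + 2)
/-- `(o, δ 1, ..., δ n)` is lexicographically below the corresponding tuples of all countable
models with `n` Woodin cardinals -/
def Minl (o : Ordinal.{0}) (n : ℕ) (δ : ℕ → Ordinal.{0}) : Prop :=
  ∀ (N : Set V) [IsZFC N], N.Countable → ∀ δ', WS N n δ' → o ≤ om1 N ∧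
    (om1 N = o → ∀ j < n, (∀ i < j, δ' (i + 1) = δ (i + 1)) → δ (j + 1) ≤ δ' (j + 1))
/-- a minimal model; `δ 0` is an inaccessible below the Woodin cardinals -/
structure MinM (N : Set V) (n : ℕ) (δ : ℕ → Ordinal.{0}) : Prop where
  ctbl : N.Countable
  inac : Inac N (δ 0)
  lt : ∀ j < n, δ j < δ (j + 1)
  wood : ∀ j < n, WoodE N (δ (j + 1))
  min : Minl (om1 N) n δ

-- JOB A BEGIN
theorem mem_ivS {a b : Ordinal.{0}} {p : V} :
    p ∈ ivS a b ↔ ∃ k c, p = op k c ∧ a < k ∧ k < c ∧ c < b ∧ IsI c := by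
  rw [ivS, mem_rel]
  constructor
  · rintro ⟨x, hx, y, hy, rfl, h1, h2, h3⟩
    obtain ⟨k, -, rfl⟩ := mem_toZFSet_iff.1 hx
    obtain ⟨c, hc, rfl⟩ := mem_toZFSet_iff.1 hy
    rw [rank_toZFSet] at h1 h2 h3
    rw [rank_toZFSet] at h2
    exact ⟨k, c, rfl, h1, h2, hc, h3⟩
  · rintro ⟨k, c, rfl, h1, h2, h3, h4⟩
    exact ⟨_, toZFSet_mem_toZFSet_iff.2 (h2.trans h3), _, toZFSet_mem_toZFSet_iff.2 h3, rfl,
      by simpa using ⟨h1, h2, h4⟩⟩
theorem critGt_ivS (a b : Ordinal.{0}) : CritGt (ivS a b) a := by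
  intro p hp
  obtain ⟨k, c, rfl, h1, -⟩ := mem_ivS.1 hp
  rwa [fst_op]
theorem rank_ivS_le {a b : Ordinal.{0}} (hb : Order.IsSuccLimit b) : (ivS a b).rank ≤ b := by
  rw [ZFSet.rank_le_iff]
  intro p hp
  obtain ⟨k, c, rfl, -, h2, h3, -⟩ := mem_ivS.1 hp
  rw [op, rank_pair_lt hb, rank_toZFSet, rank_toZFSet]
  exact ⟨h2.trans h3, h3⟩
theorem cut_ivS {a b b' η : Ordinal.{0}} (h : η ≤ b) (h' : η ≤ b') :
    cut (ivS a b) η = cut (ivS a b') η := by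
  have key : ∀ {b b' : Ordinal.{0}}, η ≤ b' → ∀ p ∈ cut (ivS a b) η, p ∈ cut (ivS a b') η := by
    intro b b' h' p hp
    obtain ⟨h1, h2⟩ := mem_cut.1 hp
    obtain ⟨k, c, rfl, k1, k2, -, k4⟩ := mem_ivS.1 h1
    exact mem_cut.2 ⟨mem_ivS.2 ⟨k, c, rfl, k1, k2,
      ((pb_lt_rank_op k c).2.trans_lt h2).trans_le h', k4⟩, h2⟩
  ext p
  exact ⟨key h' p, key h p⟩
theorem CritGt.cut_eq_empty {S : V} {β η : Ordinal.{0}} (h : CritGt S β) (hη : η ≤ β) :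
    cut S η = ∅ := by
  refine (eq_empty _).2 fun p hp => ?_
  obtain ⟨h1, h2⟩ := mem_cut.1 hp
  exact (((h p h1).trans_le (rank_fst_le p)).trans (h2.trans_le hη)).false
/-- additively closed ordinals are cofinal below an inaccessible -/
theorem Inac.exists_isI {N : Set V} [IsZ N] {δ x : Ordinal.{0}} (h : Inac N δ) (hx : x < δ) :
    ∃ a, x < a ∧ a < δ ∧ IsI a := by
  have h1 : max x (ω * ω) + 1 < δ := h.2.2.1.add_one_lt (max_lt hx h.isI.1)
  have h2 : max x (ω * ω) < (max x (ω * ω) + 1) * ω :=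
    (lt_add_one _).trans_le (le_mul_left _ omega0_pos)
  exact ⟨_, (le_max_left _ _).trans_lt h2, (h.add_lt h1 h.1).2, (le_max_right _ _).trans_lt h2,
    fun u hu v hv => isPrincipal_add_mul_of_isPrincipal_add _ one_lt_omega0.ne'
      isPrincipal_add_omega0 hu hv⟩
theorem capa_model (N : Set V) [IsZFC N] {x : V} (hx : x ∈ N) :
    ∃ H ∈ N, IsT (H : Set V) ∧ x ∈ H := by
  haveI : In N x := ⟨hx⟩
  obtain ⟨H, h1, h2, -, h3⟩ := exists_T_model N (ζ := x.rank + 1) (mem_of N (x.rank + 1))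
  exact ⟨H, h1, h2, h2.trans _ h3 x (mem_Vs.2 ⟨hx, lt_add_one _⟩)⟩
theorem capa_iv_mem (N : Set V) [IsZ N] {a b : Ordinal.{0}} (ha : a.toZFSet ∈ N)
    (hb : b.toZFSet ∈ N) : ivS a b ∈ N := by
  haveI : In N a := ⟨ha⟩
  haveI : In N b := ⟨hb⟩
  exact memV_of N _
section ctx
variable {N : Set V} [IsZFC N] {w : V} {μ : Ordinal.{0}}
theorem exists_ctx (hc : N.Countable) (hμ : Inac N μ) {θ : Ordinal.{0}} (hθ : θ.toZFSet ∈ N) :
    ∃ w, Ctx N w μ ∧ (fld w).rank = θ := by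
  obtain ⟨w, h1, h2⟩ := exists_isWO N (A := Vs N θ) (room_of_zfc N hθ)
  have e := h2.fld_eq
  have e' : (fld w).rank = θ := by rw [e, ee_rank_Vs N hθ]
  exact ⟨w, ⟨hc, h1, e.symm ▸ h2, by rw [e', e], hμ⟩, e'⟩
theorem capa_ord (h : Ctx N w μ) {η : Ordinal.{0}} (hη : η ≤ (fld w).rank) : η.toZFSet ∈ N := by
  haveI : In N w := ⟨h.mem⟩
  exact IsZ.ord_mem_of_le N (mem_of N (fld w).rank) hη
theorem capa_mem_A (h : Ctx N w μ) {x : V} : x ∈ fld w ↔ x ∈ N ∧ x.rank < (fld w).rank := by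
  conv_lhs => rw [h.A_eq]
  exact mem_Vs
theorem Ctx.cut_A (h : Ctx N w μ) {η : Ordinal.{0}} (hη : η ≤ (fld w).rank) :
    cut (fld w) η = Vs N η ∧ (Vs N η).rank = η := by
  refine ⟨?_, ee_rank_Vs N (capa_ord h hη)⟩
  rw [h.A_eq, ee_cut_Vs N hη]
theorem Ctx.shape_ivS (h : Ctx N w μ) {a b : Ordinal.{0}} (ha : μ ≤ a) (hb : Order.IsSuccLimit b)
    (hr : b ≤ (fld w).rank) : Shape (fld w) μ (ivS a b) := by
  refine ⟨fun p hp => ?_, fun p hp => ?_, fun p hp c h1 h2 h3 => ?_⟩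
  · refine (capa_mem_A h).2 ⟨?_, ((rank_lt_of_mem hp).trans_le (rank_ivS_le hb)).trans_le hr⟩
    obtain ⟨k, c, rfl, -, h2, h3, -⟩ := mem_ivS.1 hp
    exact (IsZ.pair_mem_iff N).2 ⟨capa_ord h ((h2.trans h3).le.trans hr),
      capa_ord h (h3.le.trans hr)⟩
  · obtain ⟨k, c, rfl, h1, h2, h3, h4⟩ := mem_ivS.1 hp
    rw [fst_op, snd_op]
    exact ⟨rfl, ha.trans_lt h1, h2, h4⟩
  · obtain ⟨k, c', rfl, k1, -, k3, -⟩ := mem_ivS.1 hp
    rw [fst_op] at h2 ⊢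
    rw [snd_op] at h1
    exact mem_ivS.2 ⟨k, c, rfl, k1, h2, h1.trans k3, h3⟩
theorem capa_pm (h : Ctx N w μ) {H : V} (hH : H ∈ N) [hT : IsT (H : Set V)] (hw : w ∈ H)
    (hμ : μ.toZFSet ∈ H) {S : V} {θ : Ordinal.{0}} (hS : S ∈ H) (hs : Shape (fld w) μ S)
    (hθ : θ.toZFSet ∈ H) : IsPM ⟨H, w, μ, S, θ⟩ := by
  refine ⟨hT, hw, h.wo, ?_, hμ, h.inac.isI.1.le, h.inac.2.2.1, hS, hs, hθ⟩
  haveI : In (H : Set V) w := ⟨hw⟩
  have h1 : fld w ∈ H := memV_of (H : Set V) (fld w)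
  show fld w = cut H (fld w).rank
  ext x
  rw [mem_cut]
  exact ⟨fun hx => ⟨hT.trans _ h1 x hx, rank_lt_of_mem hx⟩,
    fun hx => (capa_mem_A h).2 ⟨IsZ.trans H hH x hx.1, hx.2⟩⟩
theorem capa_exists_pm (h : Ctx N w μ) {x : V} (hx : x ∈ N) :
    ∃ H : V, x ∈ H ∧ IsPM ⟨H, w, μ, ∅, 0⟩ := by
  obtain ⟨H, h1, h2, h3⟩ := capa_model N ((IsZ.pair_mem_iff N).2
    ⟨hx, (IsZ.pair_mem_iff N).2 ⟨h.mem, h.inac.2.1⟩⟩)
  obtain ⟨h4, h5⟩ := (IsZ.pair_mem_iff (H : Set V)).1 h3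
  obtain ⟨h5, h6⟩ := (IsZ.pair_mem_iff (H : Set V)).1 h5
  exact ⟨H, h4, capa_pm h h1 h5 h6 (IsZ.empty_mem (H : Set V)) (shape_empty _ _)
    (IsZ.ord_mem_of_le (H : Set V) h6 zero_le)⟩
theorem Ctx.isBase_cut (h : Ctx N w μ) {d : Ordinal.{0}} (hd : Order.IsSuccLimit d)
    (hr : d ≤ (fld w).rank) : IsBase (cut w d) ∧ fld (cut w d) = Vs N d := by
  obtain ⟨H, -, hP⟩ := capa_exists_pm h h.mem
  obtain ⟨h1, h2⟩ := hP.isBase_cut hd hr
  exact ⟨h1, h2.trans (h.cut_A hr).1⟩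
/-- set models of `N` that are large enough carry true premice -/
theorem Ctx.trueW (h : Ctx N w μ) {H : V} (hH : H ∈ N) [IsT (H : Set V)] (hw : w ∈ H)
    (hμ : μ.toZFSet ∈ H) {S : V} {θ : Ordinal.{0}} (hS : S ∈ H) (hs : Shape (fld w) μ S)
    (hθ : θ.toZFSet ∈ H) :
    TrueW N ⟨H, w, μ, S, θ⟩ (idR H) ⟨H, w, μ, S, θ⟩ := by
  have hP := capa_pm h hH hw hμ hS hs hθ
  haveI : In N H := ⟨hH⟩
  refine ⟨hP, hP, memV_of N _, hH, (elemPM_id hP).1, ?_, h.inac⟩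
  show Bkg N (fld w) μ
  rw [h.A_eq]
  exact bkg_Vs N μ
/-- a rank that is large enough for everything at hand -/
theorem Ctx.exists_rank (h : Ctx N w μ) (m : ℕ) (l : List V) (hl : ∀ x ∈ l, x ∈ N) :
    ∃ ζ : Ordinal.{0}, ζ.toZFSet ∈ N ∧ ∀ D : Set V, (∀ x ∈ N, x.rank < ζ → x ∈ D) →
      w ∈ D ∧ μ.toZFSet ∈ D ∧ (∀ x ∈ l, x ∈ D) ∧
      (∀ S, S ⊆ fld w → Tame N w μ m S → Tame D w μ m S) ∧
      ∀ δ ≤ (fld w).rank, Small N w μ m δ → Small D w μ m δ := by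
  have key : ∀ l : List V, (∀ x ∈ l, x ∈ N) →
      ∃ ξ : Ordinal.{0}, ξ.toZFSet ∈ N ∧ ∀ x ∈ l, x.rank < ξ := by
    intro l
    induction l with
    | nil => exact fun _ => ⟨μ, h.inac.2.1, fun x hx => absurd hx List.not_mem_nil⟩
    | cons a l ih =>
      intro hl
      obtain ⟨ξ, h1, h2⟩ := ih fun x hx => hl x (List.mem_cons_of_mem _ hx)
      haveI : In N a := ⟨hl a List.mem_cons_self⟩
      haveI : In N ξ := ⟨h1⟩
      refine ⟨max ξ (a.rank + 1), mem_of N (max ξ (a.rank + 1)), fun x hx => ?_⟩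
      rcases List.mem_cons.1 hx with rfl | hx
      · exact (lt_add_one _).trans_le (le_max_right _ _)
      · exact (h2 x hx).trans_le (le_max_left _ _)
  have hl' : ∀ x ∈ w :: μ.toZFSet :: l, x ∈ N := by
    simp only [List.forall_mem_cons]
    exact ⟨h.mem, h.inac.2.1, hl⟩
  obtain ⟨ξ, h1, h2⟩ := key _ hl'
  obtain ⟨ζ, h3, h4⟩ := tame_reflect N h.mem h.inac.2.1 m
  haveI : In N ξ := ⟨h1⟩
  haveI : In N ζ := ⟨h3⟩
  refine ⟨max ξ ζ, mem_of N (max ξ ζ), fun D hD => ?_⟩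
  have h5 : ∀ x ∈ w :: μ.toZFSet :: l, x ∈ D := fun x hx =>
    hD x (hl' x hx) ((h2 x hx).trans_le (le_max_left _ _))
  simp only [List.forall_mem_cons] at h5
  exact ⟨h5.1, h5.2.1, h5.2.2, h4 D fun x hx hr => hD x hx (hr.trans_le (le_max_right _ _))⟩
variable {k : ℕ} {δ : ℕ → Ordinal.{0}}
theorem Chain.tail (h : Chain N w μ (k + 1) δ) : Chain N w μ k (fun j => δ (j + 1)) := by
  refine ⟨h.mu_le.trans (h.lt 0 k.succ_pos).le, fun j hj => h.lt (j + 1) (by omega),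
    fun j hj => h.wood (j + 1) (by omega), h.top, fun j hj d h1 h2 h3 => ?_⟩
  have := h.small (j + 1) (by omega) d h1 h2 h3
  rwa [Nat.add_sub_add_right] at this
theorem Chain.le (h : Chain N w μ k δ) {i j : ℕ} (hij : i ≤ j) (hj : j ≤ k) : δ i ≤ δ j := by
  induction hij with
  | refl => exact le_rfl
  | step _ ih => exact (ih (Nat.le_of_succ_le hj)).trans (h.lt _ hj).le
theorem Chain.shape (hc : Ctx N w μ) (h : Chain N w μ k δ) :
    chS k δ ∈ N ∧ Shape (fld w) μ (chS k δ) ∧ CritGt (chS k δ) (δ 0) ∧ (chS k δ).rank ≤ δ k ∧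
      ∀ j < k, ivS (δ j) (δ (j + 1)) ⊆ chS k δ := by
  induction k generalizing δ with
  | zero =>
    exact ⟨IsZ.empty_mem N, shape_empty _ _, fun p hp => absurd hp (notMem_empty p),
      rank_empty.le.trans zero_le, fun j hj => absurd hj (Nat.not_lt_zero j)⟩
  | succ k ih =>
    obtain ⟨h1, h2, h3, h4, h5⟩ := ih h.tail
    have hi := (h.wood 0 k.succ_pos).inac
    have h01 := (h.lt 0 k.succ_pos).le
    have h1k : δ 1 ≤ δ (k + 1) := h.le (by omega) le_rfl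
    haveI : In N (ivS (δ 0) (δ 1)) := ⟨capa_iv_mem N (IsZ.ord_mem_of_le N hi.2.1 h01) hi.2.1⟩
    haveI : In N (chS k fun j => δ (j + 1)) := ⟨h1⟩
    rw [chS]
    refine ⟨memV_of N _, pb_shape_union (hc.shape_ivS h.mu_le hi.2.2.1 (h1k.trans h.top)) h2,
      fun p hp => (ZFSet.mem_union.1 hp).elim (critGt_ivS _ _ p) (h3.mono h01 p), ?_,
      fun j hj p hp => ZFSet.mem_union.2 ?_⟩
    · rw [rank_union]
      exact max_le ((rank_ivS_le hi.2.2.1).trans h1k) h4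
    · rcases j with _ | j
      · exact Or.inl hp
      · exact Or.inr (h5 j (by omega) hp)
theorem Chain.opt_succ (hc : Ctx N w μ) (h : Chain N w μ (k + 1) δ) {O w₀ : V}
    (hl : Low O w₀ (δ 0)) :
    O ∪ Opt w μ (chS (k + 1) δ) =
        (O ∪ Opt w μ (ivS (δ 0) (δ 1))) ∪ Opt w μ (chS k fun j => δ (j + 1)) ∧
      Low (O ∪ Opt w μ (ivS (δ 0) (δ 1))) w₀ (δ 1) := by
  obtain ⟨-, h2, h3, -⟩ := h.tail.shape hc
  have hi := (h.wood 0 k.succ_pos).inac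
  have h01 := h.lt 0 k.succ_pos
  have h1k : δ 1 ≤ δ (k + 1) := h.le (by omega) le_rfl
  have hs := hc.shape_ivS h.mu_le hi.2.2.1 (h1k.trans h.top)
  obtain ⟨H, h4, hP⟩ := capa_exists_pm hc
    (capa_iv_mem N (IsZ.ord_mem_of_le N hi.2.1 h01.le) hi.2.1)
  have h5 := (opt_union hP hs h2 h4 hi.isI (rank_ivS_le hi.2.2.1) h3).2
  refine ⟨?_, hl.opt.union (optLike_opt hs), ?_, hl.base, hl.rkw.trans h01.le⟩
  · rw [chS]
    refine (congrArg (fun x => O ∪ x) h5).trans ?_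
    ext x
    simp only [ZFSet.mem_union, or_assoc]
  · rw [rank_union]
    exact max_le (hl.rk.trans h01.le)
      (rank_opt_le hs hi.isI (h.mu_le.trans_lt h01) (rank_ivS_le hi.2.2.1))
end ctx
/-- coherence with a tagged union gives coherence with its parts -/
theorem capa_dec {N : Set V} [IsZ N] {E B C t : V} (hE : IsExt E) (hZ : extZ E = Vs N (len E))
    (hl : (len E).toZFSet ∈ N) (hB : B ∈ N) (ht : t ∈ N) (hr : t.rank < crit E) (hs : Strong E C)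
    (h : ∀ y : V, y.rank < len E → (pair t y ∈ C ↔ y ∈ B)) : Strong E B := by
  obtain ⟨h1, h2⟩ := pb_strong_app hE hs
  haveI : In N B := ⟨hB⟩
  haveI : In N t := ⟨ht⟩
  haveI : In N (crit E) := ⟨IsZ.ord_mem_of_le N hl hE.crit_lt_len.le⟩
  have hK : ∀ y ∈ cut B (crit E), y ∈ extK E := fun y hy =>
    (ee_mem_K hE hZ (IsZ.trans B hB y (mem_cut.1 hy).1) (mem_cut.1 hy).2).1
  have h3 : cut B (crit E) ∈ dom E := hE.mem_dom.2 ⟨hZ ▸ mem_Vs.2
    ⟨memV_of N _, (ee_rank_cut _ _).trans_lt hE.crit_lt_len⟩, hK⟩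
  obtain ⟨h4, h5⟩ := ee_mem_K hE hZ (memV_of N ({t} : V))
    (by rw [rank_singleton]; exact hE.crit_limit.succ_lt hr)
  obtain ⟨h6, h7⟩ := hE.prod _ h5 _ hE.K_mem_dom
  have h8 := (hE.prod _ h5 _ h3).2
  have h9 := (hE.inter h1 h6).2
  have e : cut C (crit E) ∩ prod {t} (extK E) = prod {t} (cut B (crit E)) := by
    ext p
    rw [mem_inter, mem_prod, mem_prod]
    constructor
    · rintro ⟨k1, a, ha, y, hy, rfl⟩
      obtain rfl := mem_singleton.1 ha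
      have k2 := (hE.mem_K.1 hy).2
      exact ⟨_, ha, y, mem_cut.2 ⟨(h y (k2.trans hE.crit_lt_len)).1 (mem_cut.1 k1).1, k2⟩, rfl⟩
    · rintro ⟨a, ha, y, hy, rfl⟩
      obtain rfl := mem_singleton.1 ha
      obtain ⟨k1, k2⟩ := mem_cut.1 hy
      exact ⟨mem_cut.2 ⟨(h y (k2.trans hE.crit_lt_len)).2 k1, (rank_pair_lt hE.crit_limit).2
        ⟨hr, k2⟩⟩, _, ha, y, hK y hy, rfl⟩
  rw [e, h8, h2, h7, hE.fix _ h4] at h9
  refine pb_strong_of hE h3 ?_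
  ext y
  have k0 : pair t y ∈ prod {t} (app E (cut B (crit E))) ↔
      pair t y ∈ cut C (len E) ∩ prod {t} (app E (extK E)) := by rw [h9]
  rw [mem_inter, pair_mem_prod, pair_mem_prod, mem_cut, rank_pair_lt hE.len_limit] at k0
  rw [mem_cut]
  constructor
  · intro hy
    obtain ⟨⟨k1, -, k2⟩, -⟩ := k0.1 ⟨mem_singleton.2 rfl, hy⟩
    exact ⟨(h y k2).1 k1, k2⟩
  · rintro ⟨k1, k2⟩
    refine (k0.2 ⟨⟨(h y k2).2 k1, hr.trans hE.crit_lt_len, k2⟩, mem_singleton.2 rfl, ?_⟩).2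
    show y ∈ extZ E
    exact hZ ▸ mem_Vs.2 ⟨IsZ.trans B hB y k1, k2⟩
theorem capa_code {N : Set V} [IsZ N] {d : Ordinal.{0}} (h : Inac N d) (l : List V)
    (hl : ∀ B ∈ l, B ∈ N) : ∃ C ∈ N, (∀ x ∈ C, x.rank < d) ∧ ∀ E, IsExt E →
      extZ E = Vs N (len E) → len E ≤ d → Strong E C → ∀ B ∈ l, Strong E B := by
  induction l with
  | nil =>
    exact ⟨∅, IsZ.empty_mem N, fun x hx => absurd hx (notMem_empty x),
      fun _ _ _ _ _ B hB => absurd hB List.not_mem_nil⟩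
  | cons A l ih =>
    obtain ⟨C, h1, h2, h3⟩ := ih fun x hx => hl x (List.mem_cons_of_mem _ hx)
    have hA := hl A List.mem_cons_self
    haveI : In N A := ⟨hA⟩
    haveI : In N C := ⟨h1⟩
    haveI : In N d := ⟨h.2.1⟩
    have hn : ∀ n : ℕ, (natZ n).rank < ω := fun n => by rw [rank_natZ]; exact natCast_lt_omega0 n
    have h01 : natZ 0 ≠ natZ 1 := fun e => absurd (natZ_inj.1 e) (by omega)
    refine ⟨prod {natZ 0} (cut A d) ∪ prod {natZ 1} C, memV_of N _, fun x hx => ?_,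
      fun E hE hZ hd hs B hB => ?_⟩
    · rcases ZFSet.mem_union.1 hx with hx | hx <;> obtain ⟨a, ha, y, hy, rfl⟩ := mem_prod.1 hx <;>
        obtain rfl := mem_singleton.1 ha
      · exact (rank_pair_lt h.2.2.1).2 ⟨(hn 0).trans h.1, (mem_cut.1 hy).2⟩
      · exact (rank_pair_lt h.2.2.1).2 ⟨(hn 1).trans h.1, h2 y hy⟩
    · have hl' := IsZ.ord_mem_of_le N h.2.1 hd
      rcases List.mem_cons.1 hB with rfl | hB
      · refine capa_dec hE hZ hl' hA (IsZ.natZ_mem N 0) ((hn 0).trans hE.omega_lt_crit) hs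
          fun y hy => ?_
        simp only [ZFSet.mem_union, pair_mem_prod, mem_singleton, h01, mem_cut, hy.trans_le hd,
          true_and, and_true, false_and, or_false]
      · refine h3 E hE hZ hd (capa_dec hE hZ hl' h1 (IsZ.natZ_mem N 1)
          ((hn 1).trans hE.omega_lt_crit) hs fun y hy => ?_) B hB
        simp only [ZFSet.mem_union, pair_mem_prod, mem_singleton, h01.symm, true_and, false_and,
          false_or]
/-- Woodin cardinals give extenders that cohere with finitely many sets at once -/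
theorem WoodE.strong_list {N : Set V} [IsZFC N] {d β : Ordinal.{0}} (h : WoodE N d) (hβ : β < d)
    (l : List V) (hl : ∀ B ∈ l, B ∈ N) :
    ∃ κ, β < κ ∧ κ < d ∧ ∀ ρ, κ < ρ → ρ < d → CofGt N ρ → ∃ E ∈ N, IsExt E ∧ NiceU E ∧
      crit E = κ ∧ len E = ρ ∧ extZ E = Vs N ρ ∧ ∀ B ∈ l, Strong E B := by
  have hi := h.inac
  obtain ⟨C, c1, c2, c3⟩ := capa_code hi l hl
  obtain ⟨κ, h1, h2, hs⟩ := ee_st h c1 c2 hβ
  refine ⟨κ, h2, h1, fun ρ h5 h3 h4 => ?_⟩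
  haveI := hi.isZFC_Vs
  obtain ⟨E, hE, k1, k2, rfl, k4, k5, k6⟩ := hs ρ h3
  obtain ⟨r1, -, r3, r4, r5, r6⟩ := k1.rst_spec h4.1 h5 k4.le
  rw [k2, ee_cut_Vs N k4.le] at r3
  have hV : Vs N d ∈ N := room_of_zfc N h.2.1
  haveI : In N E := ⟨hE⟩
  haveI : In N ρ := ⟨IsZ.ord_mem_of_le N h.2.1 h3.le⟩
  have hE' : rst E ρ ∈ N := memV_of N _
  have hA : Agr (Vs N d) (rst E ρ) := by
    rw [Agr, r3, r4, ee_cut_Vs N (Order.add_one_le_of_lt h1),
      ee_cut_Vs N (Order.add_one_le_of_lt h5)]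
  have hw := (uwf_of_omCl N hV hE' r1 hA (omCl_Vs N hi.cofGt) (r3 ▸ omCl_Vs N h4)).1
  refine ⟨_, hE', r1, (isUlt_ult r1 hA hw).1.niceU, r4, r5, r3,
    c3 _ r1 (by rw [r5, r3]) (r5.le.trans h3.le) (pb_strong_of r1 ?_ ?_)⟩
  · rw [r4, r6]; exact k5
  · rw [r4, r5, app_rst k5, k6, pb_cut_cut C k4.le]
theorem exists_minl {n : ℕ} (N₀ : Set V) [IsZFC N₀] (hc : N₀.Countable) {δ₀ : ℕ → Ordinal.{0}}
    (h : WS N₀ n δ₀) :
    ∃ (N : Set V) (δ : ℕ → Ordinal.{0}), IsZFC N ∧ N.Countable ∧ WS N n δ ∧ Minl (om1 N) n δ := by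
  have key : ∀ m : ℕ, ∃ (N : Set V) (δ : ℕ → Ordinal.{0}), (IsZFC N ∧ N.Countable ∧ WS N n δ) ∧
      ∀ (N' : Set V) (δ' : ℕ → Ordinal.{0}), IsZFC N' ∧ N'.Countable ∧ WS N' n δ' →
        om1 N ≤ om1 N' ∧ (om1 N' = om1 N → ∀ j < m, (∀ i < j, δ' (i + 1) = δ (i + 1)) →
          δ (j + 1) ≤ δ' (j + 1)) := by
    intro m
    induction m with
    | zero =>
      obtain ⟨_, ⟨N, δ, h1, rfl⟩, h2⟩ := (wellFounded_lt (α := Ordinal.{0})).has_min
        {o | ∃ (N : Set V) (δ : ℕ → Ordinal.{0}), (IsZFC N ∧ N.Countable ∧ WS N n δ) ∧ om1 N = o}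
        ⟨_, N₀, δ₀, ⟨inferInstance, hc, h⟩, rfl⟩
      exact ⟨N, δ, h1, fun N' δ' h' => ⟨not_lt.1 (h2 _ ⟨N', δ', h', rfl⟩),
        fun _ j hj => absurd hj (Nat.not_lt_zero j)⟩⟩
    | succ m ih =>
      obtain ⟨N, δ, h1, h2⟩ := ih
      obtain ⟨_, ⟨N₁, δ₁, k1, k2, k3, rfl⟩, k4⟩ := (wellFounded_lt (α := Ordinal.{0})).has_min
        {o | ∃ (N' : Set V) (δ' : ℕ → Ordinal.{0}), (IsZFC N' ∧ N'.Countable ∧ WS N' n δ') ∧
          om1 N' = om1 N ∧ (∀ i < m, δ' (i + 1) = δ (i + 1)) ∧ δ' (m + 1) = o}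
        ⟨_, N, δ, h1, rfl, fun _ _ => rfl, rfl⟩
      refine ⟨N₁, δ₁, k1, fun N' δ' h' => ⟨k2.le.trans (h2 N' δ' h').1, fun e j hj hi => ?_⟩⟩
      rcases Nat.lt_succ_iff_lt_or_eq.1 hj with hj | rfl
      · rw [k3 j hj]
        exact (h2 N' δ' h').2 (e.trans k2) j hj fun i hij =>
          (hi i hij).trans (k3 i (hij.trans hj))
      · exact not_lt.1 (k4 _ ⟨N', δ', h', e.trans k2, fun i hij => (hi i hij).trans (k3 i hij),
          rfl⟩)
  obtain ⟨N, δ, ⟨h1, h2, h3⟩, h4⟩ := key n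
  exact ⟨N, δ, h1, h2, h3, fun N' h5 h6 δ' h7 => h4 N' δ' ⟨h5, h6, h7⟩⟩
-- JOB A END

-- JOB B BEGIN
/-- a collapsed hull with critical point below `d` -/
theorem cb_hull (N : Set V) [IsZFC N] {d β : Ordinal.{0}} (hd : Inac N d) (hβ : β < d) {H : V}
    (hH : H ∈ N) [IsZ (H : Set V)] (hV : Vs N d ⊆ H) (hdH : d.toZFSet ∈ H) {a b c : V}
    (ha : a ∈ H) (hb : b ∈ H) (hc : c ∈ H) :
    ∃ h, β < h ∧ h < d ∧ Order.IsSuccLimit h ∧ ∃ G ∈ N, ∃ π ∈ N, G.IsTransitive ∧ IsElem π G H ∧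
      (∀ x ∈ N, x.rank < h → x ∈ G ∧ app π x = x) ∧ h.toZFSet ∈ G ∧
      app π h.toZFSet = d.toZFSet ∧ (∃ y ∈ G, app π y = a) ∧ (∃ y ∈ G, app π y = b) ∧
      ∃ y ∈ G, app π y = c := by
  have hY : ∀ x ∈ (insert a (insert b (insert c {d.toZFSet})) : V), x ∈ H := by
    intro x hx
    simp only [mem_insert_iff, mem_singleton] at hx
    rcases hx with rfl | rfl | rfl | rfl <;> assumption
  obtain ⟨h, h1, h2, h3, X, hX, hYX, he, hcut⟩ := exists_hull_cut N hd hβ hH hV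
    (Y := insert a (insert b (insert c {d.toZFSet})))
    (ctbl_of_finite ((Set.toFinite ({a, b, c, d.toZFSet} : Set V)).subset fun x hx => by
        have hx' : x ∈ (insert a (insert b (insert c {d.toZFSet})) : V) := hx
        simpa only [mem_insert_iff, mem_singleton, Set.mem_insert_iff, Set.mem_singleton_iff]
          using hx')
      fun x hx => IsZ.trans _ hH x (hY x hx)) hY
  haveI : In N X := ⟨hX⟩
  have hE := he.isElem_uncol IsZ.isTransitive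
  have happ : ∀ x ∈ X, col (memR X) x ∈ tcol X ∧ app (uncol X) (col (memR X) x) = x := fun x hx =>
    ⟨mem_img.2 ⟨x, hx, rfl⟩, (isFunc_iff.1 hE.1).1.app_eq (z4c_uncol.2 ⟨hx, rfl⟩)⟩
  have hVt : (Vs N h).IsTransitive := fun x hx y hy =>
    mem_Vs.2 ⟨IsZ.trans x (mem_Vs.1 hx).1 y hy, (rank_lt_of_mem hy).trans (mem_Vs.1 hx).2⟩
  have hVX : Vs N h ⊆ X := fun x hx => by
    rw [← hcut] at hx; exact (mem_cut.1 hx).1
  have hfix : ∀ x ∈ Vs N h, col (memR X) x = x := fun x hx => col_memR_fix hVt hVX hx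
  have hdX : d.toZFSet ∈ X := hYX (by simp)
  have hcol : col (memR X) d.toZFSet = h.toZFSet := by
    refine ZFSet.ext fun z => (mem_col ((wf_memR X).accP _)).trans ⟨?_, fun hz => ?_⟩
    · rintro ⟨y, hy, rfl⟩
      obtain ⟨k1, -, k2⟩ := z4c_memR.1 hy
      obtain ⟨o, ho, rfl⟩ := mem_toZFSet_iff.1 k2
      have k3 : o.toZFSet ∈ Vs N h := by
        rw [← hcut]; exact mem_cut.2 ⟨k1, by rwa [rank_toZFSet]⟩
      rw [hfix _ k3]
      have k4 := (mem_Vs.1 k3).2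
      rw [rank_toZFSet] at k4
      exact toZFSet_mem_toZFSet_iff.2 k4
    · obtain ⟨o, ho, rfl⟩ := mem_toZFSet_iff.1 hz
      have k3 : o.toZFSet ∈ Vs N h :=
        mem_Vs.2 ⟨IsZ.ord_mem_of_le N hd.2.1 (ho.trans h2).le, by rwa [rank_toZFSet]⟩
      exact ⟨_, z4c_memR.2 ⟨hVX k3, hdX, toZFSet_mem_toZFSet_iff.2 (ho.trans h2)⟩, hfix _ k3⟩
  refine ⟨h, h1, h2, h3.1, tcol X, memV_of N _, uncol X, memV_of N _, tcol_trans X, hE,
    fun x hx hr => ?_, hcol ▸ (happ _ hdX).1, hcol ▸ (happ _ hdX).2,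
    ⟨_, happ a (hYX (by simp))⟩, ⟨_, happ b (hYX (by simp))⟩, ⟨_, happ c (hYX (by simp))⟩⟩
  have k := mem_Vs.2 ⟨hx, hr⟩
  have := happ x (hVX k)
  rwa [hfix x k] at this

theorem cb_opt_sub {P Q : PM} (hP : IsPM P) (hQ : IsPM Q) {a h : Ordinal.{0}} (hI : IsI h)
    (hμ : P.mu < h) (hS : P.S = ivS a h) (hA : AgrP P Q h) : P.opt ⊆ Q.opt := by
  intro p hp
  obtain ⟨c, E, rfl, hE⟩ := (pb_mem_opt hP.shape).1 hp
  have h1 := hE.2.2.2.2.1
  rw [hS] at h1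
  obtain ⟨k', c', e, -, -, h2, -⟩ := mem_ivS.1 h1
  have e' : c = c' := toZFSet_injective (pair_inj.1 e).2
  subst e'
  have h4 : (4 : Ordinal.{0}) < h :=
    ((natCast_lt_omega0 4).trans_le (le_mul_left ω omega0_pos)).trans hI.1
  have h3 := hA.optAt hP hQ (hI.2 _ (hI.2 _ h2 _ hμ) _ h4).le
  exact pb_pair_mem_opt.2 (mem_optAt.1 (show E ∈ Q.optAt c from h3 ▸ mem_optAt.2 hE))

section cb
variable {j : V → V} {M M' : Set V} [IsZ M] [IsZ M'] (h : Elem j M M') {a b : V}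
  {o q : Ordinal.{0}}
include h
theorem cb_shape (ha : a ∈ M) (ho : o.toZFSet ∈ M) (hb : b ∈ M)
    (k : Shape (j a) (jm j o) (j b)) : Shape a o b :=
  (h.iff3 pZ (fun _ (a : V) (o : Ordinal.{0}) (b : V) => Shape a o b) ha ho hb).2 k
theorem cb_sub (ha : a ∈ M) (hb : b ∈ M) (k : a ⊆ b) : j a ⊆ j b :=
  (h.iff2 pZ (fun _ (a b : V) => a ⊆ b) ha hb).1 k
theorem cb_noWit (ha : a ∈ M) (hb : b ∈ M) (k : NoWit (j a) (j b)) : NoWit a b :=
  (h.iff2 pZ (fun _ (a b : V) => NoWit a b) ha hb).2 k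
theorem cb_isI (ho : o.toZFSet ∈ M) (k : IsI (jm j o)) : IsI o :=
  (h.iff1 pZ (fun _ (o : Ordinal.{0}) => IsI o) ho).2 k
theorem cb_crit (ha : a ∈ M) (ho : o.toZFSet ∈ M) (k : CritGt (j a) (jm j o)) : CritGt a o :=
  (h.iff2 pZ (fun _ (a : V) (o : Ordinal.{0}) => CritGt a o) ha ho).2 k
theorem cb_union (ha : a ∈ M) (hb : b ∈ M) : j (a ∪ b) = j a ∪ j b :=
  h.map2 pZ (fun _ (a b : V) => a ∪ b) ha hb
theorem cb_opt (ha : a ∈ M) (ho : o.toZFSet ∈ M) (hb : b ∈ M) :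
    j (Opt a o b) = Opt (j a) (jm j o) (j b) :=
  h.map3 pZ (fun _ (a : V) (o : Ordinal.{0}) (b : V) => Opt a o b) ha ho hb
theorem cb_fld (ha : a ∈ M) (ho : o.toZFSet ∈ M) :
    j (fld (cut a o)) = fld (cut (j a) (jm j o)) :=
  h.map2 pZ (fun _ (a : V) (o : Ordinal.{0}) => fld (cut a o)) ha ho
theorem cb_ivS (ho : o.toZFSet ∈ M) (hq : q.toZFSet ∈ M) :
    j (ivS o q) = ivS (jm j o) (jm j q) :=
  h.map2 pZ (fun _ (o q : Ordinal.{0}) => ivS o q) ho hq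
theorem cb_prof (ha : a ∈ M) (hb : b ∈ M) (ho : o.toZFSet ∈ M) (hq : q.toZFSet ∈ M) :
    Prof a b o q ∈ M ∧ j (Prof a b o q) = Prof (j a) (j b) (jm j o) (jm j q) := by
  haveI : In M a := ⟨ha⟩
  haveI : In M b := ⟨hb⟩
  haveI : In M o := ⟨ho⟩
  haveI : In M q := ⟨hq⟩
  exact ⟨memV_of M _,
    h.map4 pZ (fun _ (a b : V) (o q : Ordinal.{0}) => Prof a b o q) ha hb ho hq⟩
end cb

theorem cb_rank_prof {a b : V} {o q h : Ordinal.{0}} (hl : Order.IsSuccLimit h) (ho : o < h) :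
    (Prof a b o q).rank < h :=
  (rank_pair_lt hl).2 ⟨(ee_rank_cut _ _).trans_lt ho, (ee_rank_cut _ _).trans_lt ho⟩

theorem capture (rt : RTStmt) {N : Set V} [IsZFC N] {w : V} {μ : Ordinal.{0}} (hc : Ctx N w μ)
    (k : ℕ) : ∀ {δ : ℕ → Ordinal.{0}}, Chain N w μ k δ → ∀ {O w₀ : V}, O ∈ N → w₀ ∈ N →
      Low O w₀ (δ 0) → ∀ {η θ : Ordinal.{0}}, (0 < k → η < δ 1) → θ.toZFSet ∈ N →
      ∃ S' ∈ N, ∃ θ' : Ordinal.{0}, θ'.toZFSet ∈ N ∧ Shape (fld w) μ S' ∧ CritGt S' (δ 0) ∧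
        Tame N w μ k S' ∧ cut S' η = cut (chS k δ) η ∧ min θ η ≤ θ' ∧
        Prof (O ∪ Opt w μ S') w₀ η θ' = Prof (O ∪ Opt w μ (chS k δ)) w₀ η θ := by
  induction k with
  | zero =>
    intro δ h O w₀ hO hw hl η θ _ hθ
    exact ⟨∅, IsZ.empty_mem N, θ, hθ, shape_empty _ _, fun p hp => absurd hp (notMem_empty p),
      tame_empty _ _ _ _, rfl, min_le_left _ _, rfl⟩
  | succ k ih =>
    intro δ h O w₀ hO hw hl η θ hη hθ
    have hη1 : η < δ 1 := hη k.succ_pos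
    have h01 : δ 0 < δ 1 := h.lt 0 k.succ_pos
    have hW : WoodE N (δ 1) := h.wood 0 k.succ_pos
    have hI : Inac N (δ 1) := hW.inac
    have hr1 : δ 1 ≤ (fld w).rank := (h.le (Nat.succ_le_succ k.zero_le) le_rfl).trans h.top
    have hδ0 : (δ 0).toZFSet ∈ N := IsZ.ord_mem_of_le N hI.2.1 h01.le
    obtain ⟨eO, hl'⟩ := h.opt_succ hc hl
    haveI : In N O := ⟨hO⟩
    haveI : In N w := ⟨hc.mem⟩
    haveI : In N μ := ⟨hc.inac.2.1⟩
    haveI : In N (δ 0) := ⟨hδ0⟩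
    haveI : In N (δ 1) := ⟨hI.2.1⟩
    obtain ⟨Su, hSu, θ1, hθ1, sh, cg, tm, -, hmin, hprof⟩ := ih h.tail
      (O := O ∪ Opt w μ (ivS (δ 0) (δ 1))) (memV_of N _) hw hl' (η := η) (θ := θ)
      (fun hk => hη1.trans (h.lt 1 (Nat.succ_lt_succ hk))) hθ
    obtain ⟨ζ, hζ, hD⟩ := hc.exists_rank k [Su, θ1.toZFSet, Vs N (δ 1), (δ 1).toZFSet] (by
      intro x hx
      simp only [List.mem_cons, List.not_mem_nil, or_false] at hx
      rcases hx with rfl | rfl | rfl | rfl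
      exacts [hSu, hθ1, room_of_zfc N hI.2.1, hI.2.1])
    obtain ⟨H, hH, hT, -, hζH⟩ := exists_T_model N hζ
    obtain ⟨hwH, hμH, hlH, htH, hsH⟩ := hD (H : Set V) fun x hx hr =>
      IsZ.trans (M := (H : Set V)) _ hζH x (mem_Vs.2 ⟨hx, hr⟩)
    have hSuH : Su ∈ H := hlH Su (by simp)
    have hθ1H : θ1.toZFSet ∈ H := hlH _ (by simp)
    have hVH : Vs N (δ 1) ⊆ H := fun x hx =>
      IsZ.trans (M := (H : Set V)) _ (hlH _ (by simp)) x hx
    have hδ1H : (δ 1).toZFSet ∈ H := hlH _ (by simp)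
    have hHN : (H : Set V) ⊆ N := fun x hx => IsZ.trans _ hH x hx
    have ht := hc.trueW hH hwH hμH hSuH sh hθ1H
    obtain ⟨h1, b1, b2, hlim, G, hG, π, hπ, hGt, hE, hfix, hh, eh, y1, y2, y3⟩ :=
      cb_hull N hI (max_lt hη1 h01) hH hVH hδ1H hwH hSuH hθ1H
    have hη' : η < h1 := (le_max_left _ _).trans_lt b1
    have h0' : δ 0 < h1 := (le_max_right _ _).trans_lt b1
    have hμ' : μ < h1 := h.mu_le.trans_lt h0'
    have hr' : h1 ≤ (fld w).rank := b2.le.trans hr1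
    have fo : ∀ o < h1, o.toZFSet ∈ G ∧ jm (app π) o = o := fun o ho => by
      have := hfix o.toZFSet (IsZ.ord_mem_of_le N hI.2.1 (ho.trans b2).le)
        (by rwa [rank_toZFSet])
      exact ⟨this.1, jm_of_fix this.2⟩
    obtain ⟨Q, rfl, hQ, hQe⟩ := exists_pullback ht.pm hGt hE y1
      ⟨_, hfix _ hc.inac.2.1 (by rwa [rank_toZFSet])⟩ y2 y3
    haveI := hQ.isT
    have he : Elem (app π) (Q.M : Set V) (H : Set V) := hE.elem
    have hGN : (Q.M : Set V) ⊆ N := fun x hx => IsZ.trans _ hG x hx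
    have ejh : jm (app π) h1 = δ 1 := by
      have := he.map_ord hh
      rw [eh] at this
      exact (toZFSet_injective this).symm
    have ew : app π Q.w = w := hQe.w
    have eS : app π Q.S = Su := hQe.S
    have eθ : jm (app π) Q.th = θ1 := hQe.th
    have eμ : Q.mu = μ := by
      have a1 : jm (app π) Q.mu = μ := hQe.mu
      refine le_antisymm ((he.jm_le hQ.mu_mem (fo μ hμ').1).1 ?_)
        ((he.jm_le (fo μ hμ').1 hQ.mu_mem).1 ?_) <;> rw [a1, (fo μ hμ').2]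
    have ecut : ∀ a ∈ Q.M, cut a h1 = cut (app π a) h1 := fun a ha => ZFSet.ext fun x => by
      rw [mem_cut, mem_cut]
      refine and_congr_left fun hx => ⟨fun k1 => ?_, fun k1 => ?_⟩
      · have k2 := hfix x (hGN (IsZ.trans (M := (Q.M : Set V)) _ ha x k1)) hx
        exact k2.2 ▸ (he.mem_iff k2.1 ha).2 k1
      · have k2 := hfix x (hHN (IsZ.trans (M := (H : Set V)) _ (he.1 a ha) x k1)) hx
        exact (he.mem_iff k2.1 ha).1 (k2.2.symm ▸ k1)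
    have hIh : IsI h1 := cb_isI he hh (ejh ▸ hI.isI)
    have cgQ : CritGt Q.S h1 := cb_crit he hQ.S_mem hh (by rw [eS, ejh]; exact cg)
    have htQ : TrueW N Q π ⟨H, w, μ, Su, θ1⟩ := ⟨hQ, ht.pms, hπ, hH, hQe, ht.bkg, ht.inac⟩
    have tmQ : Q.Tame k := (hQe.tame hQ ht.pm k).2 (htH Su sh.1 tm)
    have hsm : ∀ d, δ 0 < d → d < δ 1 → Order.IsSuccLimit d → Small N w μ k d :=
      fun d a1 a2 a3 => h.small 0 k.succ_pos d a1 a2 a3
    obtain ⟨Sh, hSh, θh, hθh, shh, cgh, tmh, hwit⟩ := hsH h1 hr' (hsm h1 h0' b2 hlim)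
    have ht2 := hc.trueW hH hwH hμH hSh shh hθh
    have hhH : h1.toZFSet ∈ H := IsZ.ord_mem_of_le (H : Set V) hδ1H b2.le
    have shi : Shape (fld w) μ (ivS (δ 0) h1) := hc.shape_ivS h.mu_le hlim hr'
    have hOf := hfix O hO (hl.rk.trans_lt h0')
    have hwf := hfix w₀ hw (hl.rkw.trans_lt h0')
    haveI : In (Q.M : Set V) O := ⟨hOf.1⟩
    haveI : In (Q.M : Set V) w₀ := ⟨hwf.1⟩
    haveI : In (Q.M : Set V) Q.w := ⟨hQ.w_mem⟩
    haveI : In (Q.M : Set V) Q.S := ⟨hQ.S_mem⟩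
    haveI : In (Q.M : Set V) Q.th := ⟨hQ.th_mem⟩
    haveI : In (Q.M : Set V) μ := ⟨(fo μ hμ').1⟩
    haveI : In (Q.M : Set V) (δ 0) := ⟨(fo _ h0').1⟩
    haveI : In (Q.M : Set V) η := ⟨(fo _ hη').1⟩
    haveI : In (Q.M : Set V) h1 := ⟨hh⟩
    haveI : In (H : Set V) O := ⟨hOf.2 ▸ he.1 O hOf.1⟩
    haveI : In (H : Set V) w := ⟨hwH⟩
    haveI : In (H : Set V) μ := ⟨hμH⟩
    haveI : In (H : Set V) (δ 0) := ⟨IsZ.ord_mem_of_le (H : Set V) hδ1H h01.le⟩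
    haveI : In (H : Set V) h1 := ⟨hhH⟩
    haveI : In (H : Set V) Sh := ⟨hSh⟩
    have hiG : ivS (δ 0) h1 ∈ Q.M := memV_of (Q.M : Set V) _
    have hiH : ivS (δ 0) h1 ∈ H := memV_of (H : Set V) _
    have eiv : app π (ivS (δ 0) h1) = ivS (δ 0) (δ 1) := by
      rw [cb_ivS he (fo _ h0').1 hh, (fo _ h0').2, ejh]
    have eA : app π Q.A = fld w := (hQe.A hQ ht.pm :)
    have shQ : Shape Q.A Q.mu (ivS (δ 0) h1) := by
      refine cb_shape he hQ.A_mem hQ.mu_mem hiG ?_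
      rw [eA, eiv, eμ, (fo μ hμ').2]
      exact hc.shape_ivS h.mu_le hI.2.2.1 hr1
    have ecw : cut Q.w h1 = cut w h1 := ew ▸ ecut Q.w hQ.w_mem
    have eopt : Opt w μ (ivS (δ 0) h1) = Opt Q.w μ (ivS (δ 0) h1) := by
      have p1 := ht2.pm.withS hiH shi hθh
      have p2 := hQ.withS hiG shQ hQ.th_mem
      have ag : AgrP ((⟨H, w, μ, Sh, θh⟩ : PM).withS (ivS (δ 0) h1) θh)
          (Q.withS (ivS (δ 0) h1) Q.th) h1 := by
        refine ⟨ZFSet.ext fun x => ?_, ?_, ecw.symm, rfl, eμ.symm⟩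
        · show x ∈ cut H h1 ↔ x ∈ cut Q.M h1
          rw [mem_cut, mem_cut]
          refine and_congr_left fun hx => ⟨fun k1 => (hfix x (hHN k1) hx).1, fun k1 => ?_⟩
          have k2 := hfix x (hGN k1) hx
          exact k2.2 ▸ he.1 x k2.1
        · show cut (fld w) h1 = cut Q.A h1
          rw [ecut Q.A hQ.A_mem, eA]
      have s1 := cb_opt_sub p1 p2 hIh hμ' rfl ag
      have s2 := cb_opt_sub p2 p1 hIh (show Q.mu < h1 from eμ ▸ hμ') rfl ag.symm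
      have s3 : Opt w μ (ivS (δ 0) h1) = Opt Q.w Q.mu (ivS (δ 0) h1) :=
        ZFSet.ext fun x => ⟨fun a => s1 a, fun a => s2 a⟩
      rw [s3, eμ]
    have hO1 : O ∪ Opt w μ (ivS (δ 0) h1) ∈ Q.M := by
      rw [eopt]; exact memV_of (Q.M : Set V) _
    have eun : ∀ a ∈ Q.M, ∀ b ∈ Q.M, app π (a ∪ b) = app π a ∪ app π b := fun a ha b hb =>
      cb_union he ha hb
    have eop : ∀ S ∈ Q.M, app π (Opt Q.w μ S) = Opt w μ (app π S) := fun S hS => by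
      rw [cb_opt he hQ.w_mem (fo μ hμ').1 hS, ew, (fo μ hμ').2]
    have eO1 : app π (O ∪ Opt w μ (ivS (δ 0) h1)) = O ∪ Opt w μ (ivS (δ 0) (δ 1)) := by
      rw [eopt, eun _ hOf.1 _ (memV_of (Q.M : Set V) _), hOf.2, eop _ hiG, eiv]
    obtain ⟨hbase, efld⟩ := hc.isBase_cut hlim hr'
    obtain ⟨θ', c1, c2, c3⟩ := true_profile rt N hc.ctbl htQ ht2 tmQ (m' := k) tmh
      (O := O ∪ Opt w μ (ivS (δ 0) h1)) (w₀ := w₀) (w₁ := cut w h1) (β := h1) (η := η)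
      ⟨hl.opt.union (optLike_opt shi), by
        rw [rank_union]
        exact max_le (hl.rk.trans h0'.le) (rank_opt_le shi hIh hμ' (rank_ivS_le hlim)),
        hl.base, hl.rkw.trans h0'.le⟩ hbase (ee_rank_cut _ _) (efld ▸ z5c_rank_Vs N h1) hη'.le
      ⟨hh, hhH⟩ cgQ cgh ⟨hO1, memV_of (H : Set V) _⟩ ⟨hwf.1, hwf.2 ▸ he.1 w₀ hwf.1⟩
      ⟨ecw ▸ memV_of (Q.M : Set V) (cut Q.w h1), memV_of (H : Set V) _⟩ (by
        intro B hB hs
        rw [← ecw] at hs ⊢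
        have hf : fld (cut Q.w h1) ∈ Q.M := memV_of (Q.M : Set V) _
        have ef : app π (fld (cut Q.w h1)) = Vs N (δ 1) := by
          rw [cb_fld he hQ.w_mem hh, ew, ejh, (hc.isBase_cut hI.2.2.1 hr1).2]
        have k1 := cb_sub he hB hf hs
        refine cb_noWit he hf hB ?_
        rw [ef] at k1 ⊢
        exact hW.2.2 _ (hHN (he.1 B hB)) k1) hwit
    obtain ⟨shS, eU⟩ := opt_union ht2.pm shi shh hiH hIh (rank_ivS_le hlim) cgh
    have hqo : Q.opt = Opt Q.w μ Q.S := by rw [← eμ]; rfl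
    have hU : O ∪ Opt w μ (ivS (δ 0) h1) ∪ Q.opt ∈ Q.M := by
      rw [eopt, hqo]; exact memV_of (Q.M : Set V) _
    have ep : Prof (O ∪ Opt w μ (ivS (δ 0) h1) ∪ Q.opt) w₀ η Q.th =
        Prof (O ∪ Opt w μ (ivS (δ 0) (δ 1)) ∪ Opt w μ Su) w₀ η θ1 := by
      obtain ⟨k0, k1⟩ := cb_prof he hU hwf.1 (fo η hη').1 hQ.th_mem
      rw [(hfix _ (hGN k0) (cb_rank_prof hlim hη')).2, hwf.2, (fo η hη').2, eθ, eun _ hO1 _ (hqo ▸ memV_of (Q.M : Set V) (Opt Q.w μ Q.S)), eO1,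
        hqo, eop _ hQ.S_mem, eS] at k1
      rw [hqo]
      exact k1
    refine ⟨ivS (δ 0) h1 ∪ Sh, hHN (memV_of (H : Set V) _), θ',
      IsZ.ord_mem_of_le N (hHN hθh) c1, shS, fun p hp => ?_, fun d _ hd => ?_, ?_, ?_, ?_⟩
    · rcases ZFSet.mem_union.1 hp with a | a
      exacts [critGt_ivS _ _ p a, cgh.mono h0'.le p a]
    · rcases le_or_gt d h1 with a | a
      · obtain ⟨p, hp, -, a2⟩ := hd.2 0 hd.1
        refine hsm d (lt_trans ?_ a2) (a.trans_lt b2) hd.limit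
        rcases ZFSet.mem_union.1 hp with a3 | a3
        exacts [critGt_ivS _ _ p a3, cgh.mono h0'.le p a3]
      · have a1 : Rel Sh d := ⟨hd.1, fun β hβ => by
          obtain ⟨p, hp, a2, a3⟩ := hd.2 (max β h1) (max_lt hβ a)
          refine ⟨p, (ZFSet.mem_union.1 hp).resolve_left fun a4 => ?_,
            (le_max_left _ _).trans_lt a2, a3⟩
          obtain ⟨k', c, rfl, -, a5, a6, -⟩ := mem_ivS.1 a4
          rw [op, fst_pair, rank_toZFSet] at a2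
          exact absurd (a5.trans a6) (not_lt.2 ((le_max_right _ _).trans a2.le))⟩
        cases k with
        | zero => exact absurd a1 (tmh d a1.le_rank)
        | succ k => exact Small.mono hHN k.le_succ (tame_succ.1 tmh d a1.le_rank a1)
    · show _ = cut (ivS (δ 0) (δ 1) ∪ chS k fun j => δ (j + 1)) η
      rw [pb_cut_union_low (cgh.mono hη'.le),
        pb_cut_union_low ((h.tail.shape hc).2.2.1.mono hη1.le), cut_ivS hη'.le hη1.le]
    · refine le_trans (le_min ?_ ((min_le_right _ _).trans hη'.le)) c2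
      by_contra a
      have a1 := not_le.1 a
      have a2 := (fo _ ((a1.trans_le (min_le_right _ _)).trans hη')).2
      rw [eθ] at a2
      exact absurd hmin (not_le.2 (a2 ▸ a1))
    · have a1 : O ∪ Opt w μ (ivS (δ 0) h1 ∪ Sh) = O ∪ Opt w μ (ivS (δ 0) h1) ∪ Opt w μ Sh := by
        have a2 : Opt w μ (ivS (δ 0) h1 ∪ Sh) = Opt w μ (ivS (δ 0) h1) ∪ Opt w μ Sh := eU
        rw [a2]
        exact ZFSet.ext fun x => by simp only [ZFSet.mem_union, or_assoc]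
      rw [a1, eO, ← hprof, ← ep]
      exact c3
-- JOB B END

-- JOB C BEGIN
theorem capc_model {N : Set V} [IsZFC N] {w : V} {μ : Ordinal.{0}} (hc : Ctx N w μ) (m : ℕ)
    (l : List V) (hl : ∀ x ∈ l, x ∈ N) : ∃ H ∈ N, IsT (H : Set V) ∧ w ∈ H ∧ μ.toZFSet ∈ H ∧
      (∀ x ∈ l, x ∈ H) ∧ ∀ S, S ⊆ fld w → Tame N w μ m S → Tame (H : Set V) w μ m S := by
  obtain ⟨ζ, hζ, hD⟩ := hc.exists_rank m l hl
  obtain ⟨H, hH, hT, -, hV⟩ := exists_T_model N hζ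
  obtain ⟨d1, d2, d3, d4, -⟩ := hD (H : Set V) fun x hx hr =>
    IsZ.trans (M := (H : Set V)) _ hV x (mem_Vs.2 ⟨hx, hr⟩)
  exact ⟨H, hH, hT, d1, d2, d3, d4⟩

theorem capc_tie {O L : V} {γ : Ordinal.{0}} (h : Tie O L γ) :
    pIdx O L γ < γ ∧ ∃ E, E ∈ sec O (pIdx O L γ) :=
  let ⟨h1, E, hE, _⟩ := h
  ⟨h1, E, (mem_sep.1 (mem_sep.1 hE).1).1⟩

theorem capc_empty_union (a : V) : ∅ ∪ a = a := by ext x; simp

theorem chain_not_tie (rt : RTStmt) {N : Set V} [IsZFC N] {w : V} {μ : Ordinal.{0}} (hc : Ctx N w μ)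
    (k : ℕ) : ∀ {δ : ℕ → Ordinal.{0}}, Chain N w μ k δ → ∀ {O w₀ : V}, O ∈ N → w₀ ∈ N →
      Low O w₀ (δ 0) → ∀ {γ : Ordinal.{0}}, γ.toZFSet ∈ N → δ k ≤ γ →
      δ 0 < pIdx (O ∪ Opt w μ (chS k δ)) (Lv (O ∪ Opt w μ (chS k δ)) w₀ γ) γ →
      ¬ Tie (O ∪ Opt w μ (chS k δ)) (Lv (O ∪ Opt w μ (chS k δ)) w₀ γ) γ := by
  induction k with
  | zero =>
    intro δ h O w₀ hO hw hl γ hγ hle hlt ht
    exact lt_irrefl _ ((hlt.trans (capc_tie ht).1).trans_le (by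
      obtain ⟨-, E, hE⟩ := capc_tie ht
      rw [sec_union, sec_eq_empty_of_rank (hl.rk.trans hlt.le), sec_opt (h.shape hc).2.1,
        capc_empty_union] at hE
      exact absurd (mem_optAt.1 hE).2.2.2.2.1 (notMem_empty _)))
  | succ k ih =>
    intro δ h O w₀ hO hw hl γ hγ hle hlt ht
    obtain ⟨s1, s2, s3, s4, s5⟩ := h.shape hc
    obtain ⟨a1, E, hE⟩ := capc_tie ht
    rw [sec_union, sec_eq_empty_of_rank (hl.rk.trans hlt.le), sec_opt s2, capc_empty_union] at hE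
    have hE' := mem_optAt.1 hE
    obtain ⟨a2, a3, a4⟩ := hE'.lt s2
    have hd := h.wood 0 (Nat.succ_pos k)
    have h01 : δ 0 < δ 1 := h.lt 0 (Nat.succ_pos k)
    haveI : In N O := ⟨hO⟩
    haveI : In N w := ⟨hc.mem⟩
    haveI : In N μ := ⟨hc.inac.2.1⟩
    haveI : In N (δ 1) := ⟨hd.2.1⟩
    haveI : In N (δ 0) := ⟨IsZ.ord_mem_of_le N hd.2.1 h01.le⟩
    generalize ha : pIdx (O ∪ Opt w μ (chS (k + 1) δ)) (Lv (O ∪ Opt w μ (chS (k + 1) δ)) w₀ γ) γ = a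
      at a1 hE' a3 a4 hlt hE
    rcases lt_trichotomy a (δ 1) with h1 | h1 | h1
    · have hη : a + μ < δ 1 := (hd.inac.add_lt h1 (h.mu_le.trans_lt h01)).1
      obtain ⟨S', hS', θ', hθ', b1, b2, b3, b4, b5, b6⟩ :=
        capture rt hc (k + 1) h hO hw hl (η := a + μ) (fun _ => hη) hγ
      have hlt' : a < a + μ := lt_add_of_pos_right a hc.inac.2.2.1.pos
      obtain ⟨c1, c2⟩ := Tie.congr (O' := O ∪ Opt w μ S') (L' := Lv (O ∪ Opt w μ S') w₀ θ')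
        (γ' := θ') (η := a + μ) (hl.opt.union (optLike_opt s2)) ht (ha ▸ hlt')
        (ha ▸ (lt_min a1 hlt').trans_le b5) (fun a' ha' => by
          rw [sec_union, sec_union, sec_opt b1, sec_opt s2,
            optAt_congr hc.inac.2.2.1 b1 s2 b4 (add_le_add (ha ▸ ha') le_rfl)])
        (pair_inj.1 b6).1
      obtain ⟨H, hH, hT, d1, d2, d3, d4⟩ := capc_model hc (k + 1)
        [S', θ'.toZFSet, O, w₀, (δ 0).toZFSet] (by
          simp only [List.mem_cons, List.not_mem_nil, or_false, forall_eq_or_imp, forall_eq]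
          exact ⟨hS', hθ', hO, hw, mem_of N (δ 0)⟩)
      exact true_not_tie rt N hc.ctbl
        (hc.trueW hH d1 d2 (d3 S' (by simp)) b1 (d3 θ'.toZFSet (by simp))) (m := k + 1)
        (d4 S' b1.1 b3) hl (d3 _ (by simp)) b2 (d3 _ (by simp)) (d3 _ (by simp))
        (hlt.trans_eq (c2.trans ha).symm) c1
    · rcases mem_union.1 hE'.2.2.2.2.1 with h2 | h2
      · obtain ⟨x, c, e, -, -, h3, -⟩ := mem_ivS.1 h2
        have := congrArg (fun p => (snd p).rank) e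
        simp only [snd_op] at this
        exact (this ▸ h3).ne h1
      · have := (h.tail.shape hc).2.2.1 _ h2
        rw [fst_op] at this
        exact (this.trans a3).ne' h1
    · obtain ⟨e, hl'⟩ := h.opt_succ hc hl
      rw [e] at ht ha
      exact ih h.tail (memV_of N _) hw hl' hγ hle (ha ▸ h1) ht

/-- all types of options belong to the inner model -/
theorem capc_types (rt : RTStmt) {N : Set V} [IsZFC N] {w : V} {μ : Ordinal.{0}} (hc : Ctx N w μ)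
    {k : ℕ} {δ : ℕ → Ordinal.{0}} (h : Chain N w μ (k + 1) δ) {w₀ : V} (hw : w₀ ∈ N)
    (hb : IsBase w₀) (hr : w₀.rank ≤ δ 0) : ∃ L : V,
      (∀ x ∈ Wm N (Opt w μ (chS (k + 1) δ)) w₀, x.rank ≤ δ (k + 1) → x ∈ L) ∧
      ∀ a < δ (k + 1), ∀ E, IsOpt w μ (chS (k + 1) δ) a E →
        typ L a E ∈ Wm N (Opt w μ (chS (k + 1) δ)) w₀ := by
  obtain ⟨s1, s2, s3, s4, s5⟩ := h.shape hc
  haveI : In N w := ⟨hc.mem⟩
  haveI : In N μ := ⟨hc.inac.2.1⟩
  haveI : In N (chS (k + 1) δ) := ⟨s1⟩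
  have hO : Opt w μ (chS (k + 1) δ) ∈ N := memV_of N _
  have hd := h.wood k (Nat.lt_succ_self k)
  haveI : In N (δ (k + 1)) := ⟨hd.2.1⟩
  haveI := isZFC_Wm hO hw hb
  have hV := room_of_zfc _ (ord_mem_Wm (N := N) (O := Opt w μ (chS (k + 1) δ)) hb
    (mem_of N (δ (k + 1) + 1)))
  obtain ⟨γ₀, g1, g2⟩ := subset_Lv_of_subset_Wm hO hw hb (Wm_subset hO hw hV)
    fun x hx => (mem_Vs.1 hx).1
  haveI : In N γ₀ := ⟨g1⟩
  have g3 : ∀ x ∈ Wm N (Opt w μ (chS (k + 1) δ)) w₀, x.rank ≤ δ (k + 1) →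
      x ∈ Lv (Opt w μ (chS (k + 1) δ)) w₀ (max γ₀ (δ (k + 1))) := fun x hx hr =>
    Lv_mono hb (le_max_left _ _) (g2 (mem_Vs.2 ⟨hx, Order.lt_add_one_iff.2 hr⟩))
  have g4 : (max γ₀ (δ (k + 1))).toZFSet ∈ N := mem_of N (max γ₀ (δ (k + 1)))
  refine ⟨_, g3, fun a ha E hE => ⟨_, g4, typ_mem_of_not_tie (fun ht => ?_) (g3 _
    ⟨_, mem_of N (max γ₀ (δ (k + 1)) + 1), PP_mem_succ hb _⟩ ((rank_PP_le (optLike_opt s2)).trans
      (rank_opt_le s2 hd.inac.isI (h.mu_le.trans_lt ((h.le (Nat.zero_le k) (Nat.le_succ k)).trans_lt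
        (h.lt k (Nat.lt_succ_self k)))) s4))) a (ha.trans_le (le_max_right _ _)) E
      (by rw [sec_opt s2]; exact mem_optAt.2 hE)⟩⟩
  have key := chain_not_tie rt hc (k + 1) h (IsZ.empty_mem N) hw (low_empty hb hr) g4
    (le_max_right _ _)
  rw [capc_empty_union] at key
  refine key (lt_of_not_ge fun hle => ?_) ht
  obtain ⟨-, E', hE'⟩ := capc_tie ht
  rw [sec_opt s2, optAt_eq_empty s2 s3 hle] at hE'
  exact notMem_empty _ hE'

/-- reading off an extender of the inner model from a type -/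
theorem capc_ext {N W : Set V} [IsZFC N] [IsZFC W] (hs : W ⊆ N) {E L B : V} {a d ρ : Ordinal.{0}}
    (hEN : E ∈ N) (hE : IsExt E) (hZ : extZ E = Vs N (len E)) (hcof : CofGt N (len E))
    (hd : d.toZFSet ∈ W) (hl : Order.IsSuccLimit d) (h1 : len E < d) (hρ : Order.IsSuccLimit ρ)
    (h2 : crit E < ρ) (h3 : ρ < a) (h4 : a ≤ len E) (hL : ∀ x ∈ W, x.rank < d → x ∈ L)
    (ht : typ L a E ∈ W) (hW : Strong E (Vs W d)) (hB : B ∈ W) (hB' : Strong E B) :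
    ∃ E' ∈ Vs W d, IsExt E' ∧ extZ E' = Vs W ρ ∧ crit E' = crit E ∧ len E' = ρ ∧
      pair (cut B (crit E)) (cut B ρ) ∈ E' := by
  obtain ⟨H, hH, hT, hcl, hV⟩ := exists_T_model N (hs hd)
  have hin : ∀ x ∈ N, x.rank < d → x ∈ H := fun x hx hr =>
    IsZ.trans (M := (H : Set V)) _ hV x (mem_Vs.2 ⟨hx, hr⟩)
  have hρl : ρ ≤ len E := h3.le.trans h4
  have hκ : crit E < d := hE.crit_lt_len.trans h1
  have hA : Agr H E := by
    rw [Agr, hZ]
    ext x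
    rw [mem_cut, mem_cut, mem_Vs]
    refine and_congr_left fun hr => ?_
    have hr' := hr.trans_le (Order.add_one_le_of_lt hE.crit_lt_len)
    exact ⟨fun hx => ⟨IsZ.trans _ hH x hx, hr'⟩, fun hx => hin x hx.1 (hr'.trans h1)⟩
  have hU := (isUlt_ult hE hA (uwf_of_omCl N hH hEN hE hA hcl (hZ ▸ omCl_Vs N hcof)).1).1
  haveI := hU.isT_right
  generalize ultMap H E = i at hU
  have hP : ∀ X ∈ W, X ⊆ Vs W (crit E) → X ∈ (H : Set V) := fun X hX hs' =>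
    hin X (hs hX) ((rank_le_iff.2 fun x hx => (mem_Vs.1 (hs' hx)).2).trans_lt hκ)
  have hval : ∀ X ∈ W, X ⊆ Vs W (crit E) → cut (app i X) (len E) = app E X := fun X hX hs' => by
    rw [hU.cut_map_len (hP X hX hs')]
    congr 1
    ext x
    rw [mem_cut]
    exact and_iff_left_of_imp fun hx => (mem_Vs.1 (hs' hx)).2
  haveI : In W d := ⟨hd⟩
  haveI : In W ρ := ⟨IsZ.ord_mem_of_le W hd (hρl.trans h1.le)⟩
  haveI : In W (crit E) := ⟨IsZ.ord_mem_of_le W hd hκ.le⟩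
  haveI : In W B := ⟨hB⟩
  have hK : Vs W (crit E) ∈ W := memV_of W _
  have e1 : cut (app i (Vs W (crit E))) ρ = Vs W ρ := by
    have := (pb_strong_app hE hW).2
    rw [ee_cut_Vs W hκ.le, ee_cut_Vs W h1.le, ← hval _ hK subset_rfl] at this
    rw [← pb_cut_cut _ hρl, this, ee_cut_Vs W hρl]
  obtain ⟨r1, -, r3, r4, r5⟩ := isExt_of_elem (W := W) hU.elem.elem hE.crit_limit hE.omega_lt_crit
    hρ h2 (memV_of W (Vs W ρ)) hP
    (fun x hx => hU.fix (hin x (hs (mem_Vs.1 hx).1) ((mem_Vs.1 hx).2.trans hκ)) (mem_Vs.1 hx).2) e1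
  haveI : In W (typ L a E) := ⟨ht⟩
  have e2 : ∀ X ∈ pw W (Vs W (crit E)), cut (app i X) ρ =
      ZFSet.sep (fun u => pair u X ∈ typ L a E) (Vs W ρ) := fun X hX => by
    obtain ⟨x1, x2⟩ := mem_pw.1 hX
    ext u
    rw [mem_sep, pc_mem_typ, fst_pair, snd_pair, ← hval X x1 x2, mem_cut, mem_cut]
    constructor
    · rintro ⟨u1, u2⟩
      have u3 : u ∈ Vs W ρ := e1 ▸ mem_cut.2 ⟨(hU.elem.elem.iff2 pZ (fun _ (x y : V) => x ⊆ y)
        (a := X) (b := Vs W (crit E)) (hP X x1 x2) (hP _ hK subset_rfl)).1 x2 u1, u2⟩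
      refine ⟨u3, hL _ ((IsZ.pair_mem_iff W).2 ⟨(mem_Vs.1 u3).1, x1⟩) ((rank_pair_lt hl).2
        ⟨u2.trans (hρl.trans_lt h1), ?_⟩), rfl, u2.trans h3, u1, u2.trans_le hρl⟩
      exact (rank_le_iff.2 fun x hx => (mem_Vs.1 (x2 hx)).2).trans_lt hκ
    · rintro ⟨u1, -, -, -, u2, -⟩
      exact ⟨u2, (mem_Vs.1 u1).2⟩
  have e3 : lam (pw W (Vs W (crit E))) (fun X => cut (app i X) ρ) ∈ W := by
    have := memV_of W (lam (pw W (Vs W (crit E)))
      fun X => ZFSet.sep (fun u => pair u X ∈ typ L a E) (Vs W ρ))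
    rwa [(isFn_lam _ _).ext (isFn_lam _ (fun X => cut (app i X) ρ)) (by rw [dom_lam, dom_lam])
      fun X hX => by rw [dom_lam] at hX; rw [app_lam _ hX, app_lam _ hX, e2 X hX]] at this
  have hc : cut B (crit E) ⊆ Vs W (crit E) := fun x hx =>
    mem_Vs.2 ⟨IsZ.trans _ hB x (mem_cut.1 hx).1, (mem_cut.1 hx).2⟩
  refine ⟨_, mem_Vs.2 ⟨e3, ?_⟩, r1, r3, r4, r5,
    pair_mem_lam.2 ⟨mem_pw.2 ⟨memV_of W _, hc⟩, ?_⟩⟩
  · rw [r1.rank_eq, r5]
    exact hl.add_natCast_lt (hρl.trans_lt h1) 3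
  · rw [← pb_cut_cut _ hρl, ← (pb_strong_app hE hB').2, ← hval _ (memV_of W _) hc,
      pb_cut_cut _ hρl]
/-- the Woodin cardinals of a chain are Woodin in the inner model -/
theorem chain_wood (rt : RTStmt) {N : Set V} [IsZFC N] {w : V} {μ : Ordinal.{0}} (hc : Ctx N w μ)
    {k : ℕ} {δ : ℕ → Ordinal.{0}} (h : Chain N w μ k δ) {w₀ : V} (hw : w₀ ∈ N) (hb : IsBase w₀)
    (hr : w₀.rank ≤ δ 0) : ∀ j < k, WoodE (Wm N (Opt w μ (chS k δ)) w₀) (δ (j + 1)) := by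
  intro j hj
  obtain ⟨k, rfl⟩ : ∃ k', k = k' + 1 := ⟨k - 1, by omega⟩
  obtain ⟨L, l1, l2⟩ := capc_types rt hc h hw hb hr
  obtain ⟨s1, s2, s3, s4, s5⟩ := h.shape hc
  haveI : In N w := ⟨hc.mem⟩
  haveI : In N μ := ⟨hc.inac.2.1⟩
  haveI : In N (chS (k + 1) δ) := ⟨s1⟩
  have hO : Opt w μ (chS (k + 1) δ) ∈ N := memV_of N _
  haveI := isZFC_Wm hO hw hb
  have hs := Wm_subset hO hw
  have hd := h.wood j hj
  have hdW := ord_mem_Wm (O := Opt w μ (chS (k + 1) δ)) hb hd.2.1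
  generalize Wm N (Opt w μ (chS (k + 1) δ)) w₀ = W at *
  have hi := hd.inac
  have hle : δ (j + 1) ≤ δ (k + 1) := h.le (by omega) le_rfl
  have hμ : μ < δ (j + 1) := h.mu_le.trans_lt ((h.le (Nat.zero_le j) hj.le).trans_lt (h.lt j hj))
  refine ⟨hd.1, hdW, fun B hB _ β hβ => ?_⟩
  rw [ee_rank_Vs W hdW] at hβ ⊢
  obtain ⟨κ, k1, k2, k3⟩ := hd.strong_list (max_lt hβ (h.lt j hj))
    [B, w, chS (k + 1) δ, Vs W (δ (j + 1))] (by
      simp only [List.mem_cons, List.not_mem_nil, or_false, forall_eq_or_imp, forall_eq]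
      exact ⟨hs hB, hc.mem, s1, hs (room_of_zfc W hdW)⟩)
  refine ⟨κ, k2, (le_max_left _ _).trans_lt k1, fun ρ hρ => ?_⟩
  have r1 : max ρ κ + ω < δ (j + 1) := (hi.add_lt (max_lt hρ k2) hi.1).1
  have r2 : max ρ κ < max ρ κ + ω := lt_add_of_pos_right _ omega0_pos
  obtain ⟨a, a1, a2, a3⟩ := hi.exists_isI r1
  have a4 : a + μ < δ (j + 1) := (hi.add_lt a2 hμ).1
  have a5 : κ < a := (le_max_right _ _).trans_lt (r2.trans a1)
  have a6 := hc.inac.cofGt.add (IsZ.ord_mem_of_le N hd.2.1 a2.le)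
  obtain ⟨E, hE, e1, e2, e3, e4, e5, e6⟩ := k3 (a + μ) (a5.trans_le le_self_add) a4 a6
  have a7 : δ (j + 1) ≤ (fld w).rank := hle.trans h.top
  have hopt : IsOpt w μ (chS (k + 1) δ) a E := by
    refine ⟨?_, e1, e4, by rw [e5, (hc.cut_A (a4.le.trans a7)).1], ?_, e6 _ (by simp),
      e6 _ (by simp), e2⟩
    · rw [hc.A_eq, mem_Vs, e1.rank_eq, e4]
      exact ⟨hE, (hi.add_lt a4 ((natCast_lt_omega0 3).trans hi.1)).1.trans_le a7⟩
    · rw [e3]
      exact s5 j hj (mem_ivS.2 ⟨κ, a, rfl, (le_max_right _ _).trans_lt k1, a5, a2, a3⟩)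
  obtain ⟨E', f1, f2, f3, f4, f5, f6⟩ := capc_ext hs hE e1 (e4 ▸ e5) (e4 ▸ a6) hdW hi.2.2.1
    (e4 ▸ a4) (isSuccLimit_add _ isSuccLimit_omega0) (e3.le.trans_lt ((le_max_right _ _).trans_lt r2)) a1
    (e4 ▸ le_self_add) (fun x hx hr => l1 x hx (hr.le.trans hle))
    (l2 a (a2.trans_le hle) E hopt) (e6 _ (by simp)) hB (e6 _ (by simp))
  refine ⟨E', f1, f2, by rw [f3, f5, ee_cut_Vs W r1.le], f4.trans e3,
    f5 ▸ (le_max_left _ _).trans_lt r2, ?_⟩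
  rwa [e3, ← f5] at f6
-- JOB C END

-- JOB D BEGIN
theorem capd_wood {W : Set V} [IsZ W] {A : V} (hA : A ∈ W) (ht : A.IsTransitive) (h0 : 0 < A.rank)
    (h : ∀ B ∈ W, B ⊆ A → NoWit A B) : Vs W A.rank = A ∧ WoodE W A.rank := by
  have key : ∀ x : V, x ∈ W → x.rank < A.rank → x ∈ A := fun x => by
    induction x using ZFSet.inductionOn with
    | _ x ih =>
      intro hx hr
      obtain ⟨κ, -, h1, h2⟩ := h x hx (fun y hy =>
        ih y hy (IsZ.trans _ hx _ hy) ((rank_lt_of_mem hy).trans hr)) _ hr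
      obtain ⟨E, hE, -, -, -, -, h3⟩ := h2 _ hr
      have e : cut x κ = x := ZFSet.ext fun y =>
        mem_cut.trans ⟨fun k => k.1, fun k => ⟨k, (rank_lt_of_mem k).trans h1⟩⟩
      rw [e] at h3
      have h4 : ({x} : V) ∈ A := ht _ (ht _ hE h3) (by simp [pair])
      exact ht _ h4 (by simp)
  have e : Vs W A.rank = A := ZFSet.ext fun x => mem_Vs.trans
    ⟨fun k => key x k.1 k.2, fun k => ⟨IsZ.trans _ hA _ k, rank_lt_of_mem k⟩⟩
  refine ⟨e, h0, IsZ.rank_mem W hA, fun B hB hs => ?_⟩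
  rw [e] at hs ⊢
  exact h B hB hs
theorem capd_opt {N : Set V} [IsZFC N] {w : V} {μ : Ordinal.{0}} (hc : Ctx N w μ)
    {k : ℕ} {δ : ℕ → Ordinal.{0}} (h : Chain N w μ k δ) : Opt w μ (chS k δ) ∈ N := by
  haveI : In N w := ⟨hc.mem⟩
  haveI : In N μ := ⟨hc.inac.2.1⟩
  have hS := (h.shape hc).1
  generalize chS k δ = S at hS
  haveI : In N S := ⟨hS⟩
  exact memV_of N (Opt w μ S)
theorem capd_le {N : Set V} {n : ℕ} {δ : ℕ → Ordinal.{0}} (hm : MinM N n δ) {i j : ℕ} (h : i ≤ j)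
    (hj : j ≤ n) : δ i ≤ δ j := by
  induction j, h using Nat.le_induction with
  | base => exact le_rfl
  | succ j _ ih => exact (ih (by omega)).trans (hm.lt j (by omega)).le
/-- a witness in the inner model of a chain lies in a tame system -/
theorem capture_wit (rt : RTStmt) {N : Set V} [IsZFC N] {w : V} {μ : Ordinal.{0}} (hc : Ctx N w μ)
    {k : ℕ} {δ : ℕ → Ordinal.{0}} (h : Chain N w μ k δ) {w₀ : V} (hw : w₀ ∈ N) (hb : IsBase w₀)
    (hr : (fld w₀).rank ≤ δ 0) {B : V} (hB : B ∈ Wm N (Opt w μ (chS k δ)) w₀) (hs : B ⊆ fld w₀)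
    (hn : ¬ NoWit (fld w₀) B) :
    ∃ S' ∈ N, ∃ θ' : Ordinal.{0}, θ'.toZFSet ∈ N ∧ Shape (fld w) μ S' ∧ CritGt S' (δ 0) ∧
      Tame N w μ k S' ∧ HasWit (Opt w μ S') w₀ θ' := by
  obtain ⟨θ, hθ, hB⟩ := hB
  obtain ⟨S', h1, θ', h2, h3, h4, h5, -, -, h6⟩ := capture rt hc k h (IsZ.empty_mem N) hw
    (low_empty hb ((rank_mono hb.2.2).trans hr)) (η := δ 0 + 1)
    (fun hk => (h.wood 0 hk).inac.2.2.1.add_one_lt (h.lt 0 hk)) hθ
  have e : ∀ X : V, (∅ : V) ∪ X = X := fun X => ZFSet.ext fun y => by simp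
  rw [e, e] at h6
  exact ⟨S', h1, θ', h2, h3, h4, h5, B, pb_mem_of_cut (pair_inj.1 h6).1.symm hB
    (Order.lt_add_one_iff.2 ((rank_mono hs).trans hr)), hs, hn⟩
section minimal
variable (rt : RTStmt) {N : Set V} [IsZFC N] {w : V} {n : ℕ} {δ : ℕ → Ordinal.{0}}
  (hm : MinM N n δ) (hc : Ctx N w (δ 0)) (hr : δ n ≤ (fld w).rank)
include rt hm hc hr
theorem MinM.chain : Chain N w (δ 0) n δ := by
  have key : ∀ k j, j + k = n → Chain N w (δ 0) k (fun i => δ (i + j)) := by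
    intro k
    induction k with
    | zero =>
      intro j hj
      refine ⟨capd_le hm (Nat.zero_le _) (by omega), fun i hi => absurd hi (Nat.not_lt_zero i),
        fun i hi => absurd hi (Nat.not_lt_zero i), (capd_le hm (by omega) le_rfl).trans hr,
        fun i hi => absurd hi (Nat.not_lt_zero i)⟩
    | succ k ih =>
      intro j hj
      have h := ih (j + 1) (by omega)
      have e : ∀ i, i + 1 + j = i + j + 1 := fun i => by omega
      refine ⟨capd_le hm (Nat.zero_le _) (by omega), fun i hi => ?_, fun i hi => ?_,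
        (capd_le hm (by omega) le_rfl).trans hr, fun i hi d h1 h2 hd => ?_⟩
      · rw [e]
        exact hm.lt _ (by omega)
      · rw [e]
        exact hm.wood _ (by omega)
      rcases i with _ | i
      swap
      · rw [e] at h1 h2
        have := h.small i (by omega) d h1 h2 hd
        rwa [show k + 1 - (i + 1) - 1 = k - i - 1 by omega]
      by_contra hs
      rw [Nat.zero_add] at h1
      rw [e, Nat.zero_add] at h2
      have h2' : d < δ (0 + (j + 1)) := by rwa [Nat.zero_add]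
      have hdN : d.toZFSet ∈ N := IsZ.ord_mem_of_le N (hm.wood j (by omega)).2.1 h2.le
      obtain ⟨hb, hf⟩ := hc.isBase_cut hd (h2.le.trans ((capd_le hm (by omega) le_rfl).trans hr))
      have hw : cut w d ∈ N := by
        haveI : In N w := ⟨hc.mem⟩
        haveI : In N d := ⟨hdN⟩
        exact memV_of N (cut w d)
      have hO := capd_opt hc h
      have hrk : (fld (cut w d)).rank = d := by rw [hf, ee_rank_Vs N hdN]
      haveI := isZFC_Wm hO hw hb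
      have hsub := Wm_subset hO hw
      have h3 := capd_wood (base_mem_Wm (N := N) (O := Opt w (δ 0) (chS k fun i => δ (i + (j + 1))))
        hb).2 hb.2.1 (hrk.symm ▸ hd.pos) fun B hB hBs => by
          by_contra hn
          obtain ⟨S', a1, θ', a2, a3, a4, a5, a6⟩ :=
            capture_wit rt hc h hw hb (hrk.le.trans h2'.le) hB hBs hn
          exact hs ⟨S', a1, θ', a2, a3, fun p hp => h2'.trans (a4 p hp), a5, a6⟩
      rw [hrk, hf] at h3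
      have h4 := chain_wood rt hc h hw hb ((ee_rank_cut w d).trans h2'.le)
      have ho : ∀ o : Ordinal.{0}, o.toZFSet ∈ N →
          o.toZFSet ∈ Wm N (Opt w (δ 0) (chS k fun i => δ (i + (j + 1)))) (cut w d) :=
        fun o ho => ord_mem_Wm hb ho
      generalize Wm N (Opt w (δ 0) (chS k fun i => δ (i + (j + 1)))) (cut w d) = W at *
      have h5 := hm.min W (hm.ctbl.mono hsub) (Function.update δ (j + 1) d) ⟨fun i hi => ?_,
        fun i hi => ?_⟩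
      · have h6 := h5.2 (le_antisymm (om1_mono hsub) h5.1) j (by omega)
          fun i hi => Function.update_of_ne (by omega) _ _
        rw [Function.update_self] at h6
        exact absurd h2 (not_lt.2 h6)
      · rcases lt_trichotomy i j with hij | rfl | hij
        · rw [Function.update_of_ne (by omega)]
          have h6 : δ (i + 1) ≤ d := (capd_le hm (by omega) (by omega)).trans h1.le
          refine (hm.wood i hi).of_Vs hsub ?_ (ho _ (hm.wood i hi).2.1)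
          rw [← ee_cut_Vs W h6, h3.1, ee_cut_Vs N h6]
        · rw [Function.update_self]
          exact h3.2
        · rw [Function.update_of_ne (by omega)]
          have h6 := h4 (i - j - 1) (by omega)
          rwa [show i - j - 1 + 1 + (j + 1) = i + 1 by omega] at h6
      · by_cases a1 : i + 1 = j + 1
        · rw [a1, Function.update_self, Function.update_of_ne (by omega)]
          exact h2.trans_le (capd_le hm (by omega) (by omega))
        · rw [Function.update_of_ne a1]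
          by_cases a2 : i + 2 = j + 1
          · rw [a2, Function.update_self]
            exact (capd_le hm (by omega) (by omega)).trans_lt h1
          · rw [Function.update_of_ne a2]
            exact hm.lt (i + 1) hi
  exact key n 0 (Nat.zero_add n)
theorem MinM.om1_Wm {w₀ : V} (hw : w₀ ∈ N) (hb : IsBase w₀) (hr₀ : w₀.rank ≤ δ 0) :
    om1 (Wm N (Opt w (δ 0) (chS n δ)) w₀) = om1 N := by
  have h := hm.chain rt hc hr
  have hO := capd_opt hc h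
  haveI := isZFC_Wm hO hw hb
  exact le_antisymm (om1_mono (Wm_subset hO hw)) (hm.min _ (hm.ctbl.mono (Wm_subset hO hw)) δ
    ⟨chain_wood rt hc h hw hb hr₀, fun j hj => hm.lt (j + 1) hj⟩).1
/-- universality at `ω₁` -/
theorem MinM.univ {w₀ : V} (hw : w₀ ∈ N) (hb : IsBase w₀) (hr₀ : (fld w₀).rank = om1 N) :
    ∃ S' ∈ N, ∃ θ' : Ordinal.{0}, θ'.toZFSet ∈ N ∧ Shape (fld w) (δ 0) S' ∧
      Tame N w (δ 0) n S' ∧ HasWit (Opt w (δ 0) S') w₀ θ' := by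
  by_contra hs
  have h := hm.chain rt hc hr
  have hO := capd_opt hc h
  have h1 : (fld w₀).rank ≤ δ 0 := hr₀.le.trans hm.inac.om1_lt.le
  haveI := isZFC_Wm hO hw hb
  have h3 := (capd_wood (base_mem_Wm (N := N) (O := Opt w (δ 0) (chS n δ)) hb).2 hb.2.1
    (hr₀.symm ▸ (isSuccLimit_om1 N).pos) fun B hB hBs => by
      by_contra hn
      obtain ⟨S', a1, θ', a2, a3, -, a5, a6⟩ := capture_wit rt hc h hw hb h1 hB hBs hn
      exact hs ⟨S', a1, θ', a2, a3, a5, a6⟩).2.inac.om1_lt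
  rw [hm.om1_Wm rt hc hr hw hb ((rank_mono hb.2.2).trans h1), hr₀] at h3
  exact lt_irrefl _ h3
end minimal
theorem MinM.ext {U N : Set V} [IsZFC U] {n : ℕ} {δ : ℕ → Ordinal.{0}} (hm : MinM U n δ)
    (he : SmallExt U N (δ 0)) (ho : om1 N = om1 U) : MinM N n δ :=
  ⟨he.ctbl, he.inac, hm.lt, fun j hj => he.wood _
    ((capd_le hm (Nat.zero_le j) hj.le).trans_lt (hm.lt j hj)) (hm.wood j hj), ho ▸ hm.min⟩
-- JOB D END

end Pool.Agent.Lib.MP_f9eb18_lc.W
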