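import Pool.Agent.Lib.MP_f9eb18_lc.Defs

/-!
# Transitive models of ZFC, Woodin cardinals and `C^2(omega)` computed in a transitive model
-/

namespace Pool.Agent.Lib.MP_f9eb18_lc.W

open Ordinal ZFSet

/-- First-order formulas of set theory (de Bruijn indices). -/
inductive Fo : Type
  | mem (i j : ℕ) : Fo
  | eq (i j : ℕ) : Fo
  | neg (φ : Fo) : Fo
  | and (φ ψ : Fo) : Fo
  | ex (φ : Fo) : Fo

/-- Satisfaction in `(M, ∈)`. -/
def Sat1 (M : Set V) : Fo → (ℕ → V) → Prop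
  | .mem i j, v => v i ∈ v j
  | .eq i j, v => v i = v j
  | .neg φ, v => ¬ Sat1 M φ v
  | .and φ ψ, v => Sat1 M φ v ∧ Sat1 M ψ v
  | .ex φ, v => ∃ a ∈ M, Sat1 M φ (cons a v)

/-- `f` is an injective function from `a` to `b`. -/
def IsInj (f a b : V) : Prop :=
  IsFunc a b f ∧ ∀ x x' y, pair x y ∈ f → pair x' y ∈ f → x = x'

/-- `M` is a transitive model of ZF without power set (with separation and collection). -/
class IsZ (M : Set V) : Prop where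
  trans : ∀ x ∈ M, ∀ y ∈ x, y ∈ M
  omega : omegaZ ∈ M
  upair : ∀ a ∈ M, ∀ b ∈ M, ({a, b} : V) ∈ M
  sUnion : ∀ a ∈ M, (⋃₀ a : V) ∈ M
  sep : ∀ (φ : Fo) (v : ℕ → V), (∀ i, v i ∈ M) → ∀ a ∈ M,
    ZFSet.sep (fun x => Sat1 M φ (cons x v)) a ∈ M
  coll : ∀ (φ : Fo) (v : ℕ → V), (∀ i, v i ∈ M) → ∀ a ∈ M,
    (∀ x ∈ a, ∃ y ∈ M, Sat1 M φ (cons y (cons x v))) →
      ∃ b ∈ M, ∀ x ∈ a, ∃ y ∈ b, Sat1 M φ (cons y (cons x v))

/-- `M` is a transitive model of ZFC without power set: in addition every set of `M` injects,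
in `M`, into an ordinal. -/
class IsT (M : Set V) : Prop extends IsZ M where
  wo : ∀ a ∈ M, ∃ f ∈ M, ∃ o : Ordinal.{0}, IsInj f a o.toZFSet

/-- `M` is a transitive model of ZFC. -/
class IsZFC (M : Set V) : Prop extends IsT M where
  pow : ∀ a ∈ M, ∃ p ∈ M, ∀ x ∈ M, x ⊆ a → x ∈ p

/-- `δ` is (strongly) inaccessible in `N`: uncountable, regular and a strong limit. -/
def Inacc (N : Set V) (δ : Ordinal.{0}) : Prop :=
  ω < δ ∧ δ.toZFSet ∈ N ∧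
  (∀ β < δ, ∀ f ∈ N, IsFunc β.toZFSet δ.toZFSet f →
    ∃ γ < δ, ∀ x y, pair x y ∈ f → y ∈ γ.toZFSet) ∧
  (∀ β < δ, ∃ γ < δ, ∃ p ∈ N, ∃ f ∈ N, (∀ x, x ∈ p ↔ x ∈ N ∧ x ⊆ β.toZFSet) ∧
    IsInj f p γ.toZFSet)

/-- The set `j` is an elementary embedding of `(M, ∈)` into `(M', ∈)`. -/
def IsElem (j M M' : V) : Prop :=
  IsFunc M M' j ∧ ∀ (φ : Fo) (v w : ℕ → V), (∀ i, pair (v i) (w i) ∈ j) →
    (Sat1 M φ v ↔ Sat1 M' φ w)

/-- `δ` is a Woodin cardinal in `N`: `δ` is inaccessible and for every `A ⊆ V_δ` there is `κ < δ`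
such that for every `ρ < δ` some elementary `j : V_δ → M` into a transitive `M` has critical
point `κ`, `ρ < j(κ)`, `V_ρ ⊆ M` and `j(A ∩ V_κ) ∩ V_ρ = A ∩ V_ρ` (all computed in `N`). -/
def Woodin (N : Set V) (δ : Ordinal.{0}) : Prop :=
  Inacc N δ ∧ ∀ A ∈ N, (∀ x ∈ A, x.rank < δ) → ∃ κ < δ, ∀ ρ < δ,
    ∃ Vd ∈ N, ∃ M ∈ N, ∃ j ∈ N, (∀ x, x ∈ Vd ↔ x ∈ N ∧ x.rank < δ) ∧ M.IsTransitive ∧
      IsElem j Vd M ∧ (∀ β < κ, pair β.toZFSet β.toZFSet ∈ j) ∧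
      (∃ k : Ordinal.{0}, pair κ.toZFSet k.toZFSet ∈ j ∧ κ < k ∧ ρ < k) ∧
      (∀ x ∈ N, x.rank < ρ → x ∈ M) ∧
      ∃ B, pair (ZFSet.sep (fun x => x.rank < κ) A) B ∈ j ∧
        ∀ x : V, x.rank < ρ → (x ∈ B ↔ x ∈ A)

/-- `N` has (at least) `n` Woodin cardinals. -/
def NWoodins (N : Set V) (n : ℕ) : Prop :=
  ∃ δ : Fin n → Ordinal.{0}, StrictMono δ ∧ ∀ i, Woodin N (δ i)

/-- `s` is countable in `N`. -/
def Ctbl (N : Set V) (s : V) : Prop := ∃ f ∈ N, IsInj f s omegaZ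

/-- Satisfaction of `L^2_ω` formulas in `(M, ∈, T)` as computed in `N`: second-order variables
range over the subsets of `M` that belong to `N` and are countable in `N`. -/
def Sat2 (N : Set V) (M T : V) : Fm → (ℕ → V) → (ℕ → V) → Prop
  | .mem i j, v, _ => v i ∈ v j
  | .eq i j, v, _ => v i = v j
  | .tr i, v, _ => v i ∈ T
  | .memS i k, v, X => v i ∈ X k
  | .neg φ, v, X => ¬ Sat2 N M T φ v X
  | .and φ ψ, v, X => Sat2 N M T φ v X ∧ Sat2 N M T ψ v X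
  | .ex φ, v, X => ∃ a ∈ M, Sat2 N M T φ (cons a v) X
  | .exS φ, v, X => ∃ s ∈ N, Ctbl N s ∧ s ⊆ M ∧ Sat2 N M T φ v (cons s X)

/-- The level-`ων` part of the truth class, computed in `N`. -/
noncomputable def truthN (N : Set V) (ν : Ordinal.{0}) (J T : V) : V :=
  ZFSet.range fun q : {q : Fm × List J // q.1.fo ≤ q.2.length ∧ q.1.so = 0 ∧
      Sat2 N J T q.1 (env (q.2.map Subtype.val)) (fun _ => ∅)} =>
    pair (ω * ν).toZFSet (pair q.1.1.code (listZ (q.1.2.map Subtype.val)))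

/-- The pair `(J'_{ων}, Tr ↾ ων)` computed in `N`. -/
noncomputable def stageN (N : Set V) (ν : Ordinal.{0}) : V × V :=
  Ordinal.limitRecOn (motive := fun _ => V × V) ν (∅, ∅)
    (fun ν p => (rudCl (p.2 ∪ truthN N ν p.1 p.2) (insert p.1 p.1), p.2 ∪ truthN N ν p.1 p.2))
    (fun ν _ ih => (ZFSet.iUnion fun a : Set.Iio ν => (ih a.1 a.2).1,
      ZFSet.iUnion fun a : Set.Iio ν => (ih a.1 a.2).2))

/-- `x ∈ C^2(ω)` as computed in `N`. -/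
def C2N (N : Set V) (x : V) : Prop :=
  ∃ ν : Ordinal.{0}, ν.toZFSet ∈ N ∧ x ∈ (stageN N ν).1

/-- `CH` holds in the `C^2(ω)` of `N`: for some ordinal `κ ≤ ω₁` of that model, the model contains
a function from `κ` onto its power set of `ω`. -/
def CHinC2N (N : Set V) : Prop :=
  ∃ κ : Ordinal.{0},
    (∀ β < κ, β = 0 ∨ ∃ g, C2N N g ∧ IsOnto g omegaZ (fun b => b ∈ β.toZFSet)) ∧
    ∃ f, C2N N f ∧ IsOnto f κ.toZFSet (fun b => C2N N b ∧ b ⊆ omegaZ)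

end Pool.Agent.Lib.MP_f9eb18_lc.W
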