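import Pool.Agent.Lib.MP_f9eb18_lc.W.Z6

/-! # Extenders and their ultrapowers

An extender is the function `E : X ↦ j(X) ∩ Z` on the subsets `X ∈ Z` of `K = Z ∩ V_κ`. -/

namespace Pool.Agent.Lib.MP_f9eb18_lc.W

open Ordinal ZFSet
set_option linter.style.haveILetI false
set_option linter.unusedVariables false
set_option synthInstance.maxSize 100000

variable {F : Fr}

noncomputable def extK (E : V) : V := ⋃₀ (dom E)
noncomputable def extZ (E : V) : V := app E (extK E)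
noncomputable def crit (E : V) : Ordinal.{0} := (extK E).rank
noncomputable def len (E : V) : Ordinal.{0} := (extZ E).rank
noncomputable def idR (K : V) : V := rel K K (fun x y => x = y)
noncomputable def swapR (K X : V) : V := rel K K (fun x y => pair y x ∈ X)
noncomputable def assocR (K X : V) : V :=
  rel K (prod K K) (fun u p => pair (pair u (fst p)) (snd p) ∈ X)
noncomputable def appR (K : V) : V := rel K (prod K K) (fun u p => snd p = app u (fst p))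
noncomputable def rkRel (K f : V) : V := rel K K (fun u y => (app f u).rank < y.rank)

structure IsExt' (K Z E : V) : Prop where
  fn : IsFn E
  domE : dom E = pw (Z : Set V) K
  trans : Z.IsTransitive
  cutK : K = cut Z K.rank
  memK : K ∈ Z
  omegaK : omegaZ ∈ K
  pairK : ∀ x ∈ K, ∀ y ∈ K, ({x, y} : V) ∈ K
  pairZ : ∀ x ∈ Z, ∀ y ∈ Z, ({x, y} : V) ∈ Z
  sub : ∀ X ∈ dom E, app E X ⊆ Z
  fix : ∀ x ∈ K, app E x = x
  diff : ∀ X ∈ dom E, ∀ Y ∈ dom E, X \ Y ∈ dom E ∧ app E (X \ Y) = app E X \ app E Y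
  prod : ∀ X ∈ dom E, ∀ Y ∈ dom E,
    prod X Y ∈ dom E ∧ app E (prod X Y) = ZFSet.prod (app E X) (app E Y)
  swap : ∀ X ∈ dom E, swapR K X ∈ dom E ∧ app E (swapR K X) = swapR Z (app E X)
  assoc : ∀ X ∈ dom E, assocR K X ∈ dom E ∧ app E (assocR K X) = assocR Z (app E X)
  memE : memR K ∈ dom E ∧ app E (memR K) = memR Z
  idE : idR K ∈ dom E ∧ app E (idR K) = idR Z
  appE : appR K ∈ dom E ∧ app E (appR K) = appR Z
  norm : ∀ f ∈ dom E, IsFunc K K f → ∀ a ∈ Z, ∀ c ∈ Z, pair a c ∈ app E (rkRel K f) →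
    ∃ b ∈ Z, pair a b ∈ app E f ∧ b.rank < c.rank

/-- `E` is an extender -/
def IsExt (E : V) : Prop := IsExt' (extK E) (extZ E) E

/-- the model `M` has the same sets of rank `≤ crit E` as the extender -/
def Agr (M E : V) : Prop := cut M (crit E + 1) = cut (extZ E) (crit E + 1)

/-- term model: pairs `(a, f)` with `a ∈ Z`, `f ∈ S`, `f : K → R` -/
noncomputable def tD (E S R : V) : V := rel (extZ E) S (fun _ f => IsFunc (extK E) R f)
def tMemP (E p q : V) : Prop := pair (fst p) (fst q) ∈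
  app E (rel (extK E) (extK E) (fun u v => app (snd p) u ∈ app (snd q) v))
def tEqP (E p q : V) : Prop := pair (fst p) (fst q) ∈
  app E (rel (extK E) (extK E) (fun u v => app (snd p) u = app (snd q) v))
noncomputable def tMem (E S R : V) : V := rel (tD E S R) (tD E S R) (tMemP E)
/-- the ultrapower of `M` by `E` is well-founded -/
def UWF (M E : V) : Prop := WF (tMem E M M)
noncomputable def ult (M E : V) : V := img (col (tMem E M M)) (tD E M M)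
noncomputable def ultMap (M E : V) : V :=
  lam M (fun x => col (tMem E M M) (pair ∅ (lam (extK E) (fun _ => x))))
/-- the small ultrapower `j(K)` -/
def WFE (E : V) : Prop := WF (tMem E (dom E) (extK E))
noncomputable def UE (E : V) : V := img (col (tMem E (dom E) (extK E))) (tD E (dom E) (extK E))
noncomputable def ht (E : V) : Ordinal.{0} := (UE E).rank
def NiceU (E : V) : Prop := WFE E ∧ ∀ E' ∈ UE E, IsExt E' → WFE E' → UE E' ∈ UE E

structure IsUlt (M E Q i : V) : Prop where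
  ext : IsExt E
  isT : IsT (M : Set V)
  agr : Agr M E
  trans : Q.IsTransitive
  elem : IsElem i M Q
  sub : extZ E ⊆ Q
  val : ∀ X ∈ dom E, app E X = app i X ∩ extZ E
  gen : ∀ y ∈ Q, ∃ a ∈ extZ E, ∃ f ∈ M, IsFunc (extK E) M f ∧ y = app (app i f) a

/-- restriction of an extender to length `ρ` -/
noncomputable def rst (E : V) (ρ : Ordinal.{0}) : V := lam (dom E) (fun X => cut (app E X) ρ)

/-- the copy map `i_E(f)(a) ↦ i(σ f)(σ₁ a)` -/
noncomputable def cpy (M E σ σ₁ i : V) : V :=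
  img (fun p => pair (col (tMem E M M) p) (app (app i (app σ (snd p))) (app σ₁ (fst p)))) (tD E M M)

/-- `B` is not a witness against the Woodinness of `rank A` over `A` -/
def NoWit (A B : V) : Prop :=
  ∀ β < A.rank, ∃ κ < A.rank, β < κ ∧ ∀ ρ < A.rank, ∃ E ∈ A, IsExt E ∧
    extZ E = cut A (len E) ∧ crit E = κ ∧ ρ < len E ∧ pair (cut B κ) (cut B (len E)) ∈ E

/-- Woodin cardinals, extender form -/
def WoodE (N : Set V) (δ : Ordinal.{0}) : Prop :=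
  0 < δ ∧ δ.toZFSet ∈ N ∧ ∀ B ∈ N, B ⊆ Vs N δ → NoWit (Vs N δ) B

/-- the extenders of `A` of length `α + μ` and critical point above `μ` extend to extenders over `N` -/
def Bkg (N : Set V) (A : V) (μ : Ordinal.{0}) : Prop :=
  ∀ E ∈ A, IsExt E → extZ E = cut A (len E) → μ < crit E → (∃ α < len E, len E = α + μ) →
    ∃ E' ∈ N, IsExt E' ∧ E ⊆ E' ∧ crit E' = crit E ∧ len E' = len E ∧ extZ E' = Vs N (len E)

-- JOB A BEGIN
section inst
variable {a b c d e : Set V → (ℕ → V) → V} {o : Set V → (ℕ → V) → Ordinal.{0}}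
  {D : Set V → (ℕ → V) → Set V}
instance uf_extK [UF F a] : UF F (fun M v => extK (a M v)) := by unfold extK; infer_instance
instance uf_extZ [UF F a] : UF F (fun M v => extZ (a M v)) := by unfold extZ; infer_instance
instance uf_crit [UF F a] : UF F (fun M v => crit (a M v)) := by unfold crit; infer_instance
instance uf_len [UF F a] : UF F (fun M v => len (a M v)) := by unfold len; infer_instance
instance uf_idR [UF F a] : UF F (fun M v => idR (a M v)) := by unfold idR; infer_instance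
instance uf_swapR [UF F a] [UF F b] : UF F (fun M v => swapR (a M v) (b M v)) := by
  have := UF.lift (F := F) b; unfold swapR; infer_instance
instance uf_assocR [UF F a] [UF F b] : UF F (fun M v => assocR (a M v) (b M v)) := by
  have := UF.lift (F := F) b; unfold assocR; infer_instance
instance uf_appR [UF F a] : UF F (fun M v => appR (a M v)) := by unfold appR; infer_instance
instance uf_rkRel [UF F a] [UF F b] : UF F (fun M v => rkRel (a M v) (b M v)) := by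
  have := UF.lift (F := F) b; unfold rkRel; infer_instance
instance ud_isExt' [UF F a] [UF F b] [UF F c] :
    UD F (fun M v => IsExt' (a M v) (b M v) (c M v)) := by
  have := UF.lift (F := F) a; have := UF.lift (F := F) b; have := UF.lift (F := F) c
  have h1 : UD F (fun M v => IsFn (c M v) ∧ dom (c M v) = pw (b M v : Set V) (a M v) ∧
      (b M v).IsTransitive ∧ a M v = cut (b M v) (a M v).rank ∧ a M v ∈ b M v ∧ omegaZ ∈ a M v ∧
      (∀ x ∈ a M v, ∀ y ∈ a M v, ({x, y} : V) ∈ a M v) ∧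
      (∀ x ∈ b M v, ∀ y ∈ b M v, ({x, y} : V) ∈ b M v) ∧
      (∀ X ∈ dom (c M v), app (c M v) X ⊆ b M v) ∧ ∀ x ∈ a M v, app (c M v) x = x) :=
    inferInstance
  have h2 : UD F (fun M v => (∀ X ∈ dom (c M v), ∀ Y ∈ dom (c M v), X \ Y ∈ dom (c M v) ∧
        app (c M v) (X \ Y) = app (c M v) X \ app (c M v) Y) ∧
      (∀ X ∈ dom (c M v), ∀ Y ∈ dom (c M v), prod X Y ∈ dom (c M v) ∧
        app (c M v) (prod X Y) = prod (app (c M v) X) (app (c M v) Y)) ∧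
      (∀ X ∈ dom (c M v), swapR (a M v) X ∈ dom (c M v) ∧
        app (c M v) (swapR (a M v) X) = swapR (b M v) (app (c M v) X)) ∧
      ∀ X ∈ dom (c M v), assocR (a M v) X ∈ dom (c M v) ∧
        app (c M v) (assocR (a M v) X) = assocR (b M v) (app (c M v) X)) := inferInstance
  have h3 : UD F (fun M v =>
      (memR (a M v) ∈ dom (c M v) ∧ app (c M v) (memR (a M v)) = memR (b M v)) ∧
      (idR (a M v) ∈ dom (c M v) ∧ app (c M v) (idR (a M v)) = idR (b M v)) ∧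
      (appR (a M v) ∈ dom (c M v) ∧ app (c M v) (appR (a M v)) = appR (b M v)) ∧
      ∀ f ∈ dom (c M v), IsFunc (a M v) (a M v) f → ∀ x ∈ b M v, ∀ z ∈ b M v,
        pair x z ∈ app (c M v) (rkRel (a M v) f) →
          ∃ y ∈ b M v, pair x y ∈ app (c M v) f ∧ y.rank < z.rank) := inferInstance
  exact (UD.and (h := h1) (k := UD.and (h := h2) (k := h3))).congr fun _ _ _ _ =>
    ⟨fun ⟨a1, a2, a3, a4, a5, a6, a7, a8, a9, a10, b1, b2, b3, b4, c1, c2, c3, c4⟩ =>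
      ⟨⟨a1, a2, a3, a4, a5, a6, a7, a8, a9, a10⟩, ⟨b1, b2, b3, b4⟩, c1, c2, c3, c4⟩,
    fun ⟨⟨a1, a2, a3, a4, a5, a6, a7, a8, a9, a10⟩, ⟨b1, b2, b3, b4⟩, c1, c2, c3, c4⟩ =>
      ⟨a1, a2, a3, a4, a5, a6, a7, a8, a9, a10, b1, b2, b3, b4, c1, c2, c3, c4⟩⟩
instance ud_isExt [UF F a] : UD F (fun M v => IsExt (a M v)) := by unfold IsExt; infer_instance
instance ud_agr [UF F a] [UF F b] : UD F (fun M v => Agr (a M v) (b M v)) := by
  unfold Agr; infer_instance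
instance uf_tD [UF F a] [UF F b] [UF F c] : UF F (fun M v => tD (a M v) (b M v) (c M v)) := by
  have := UF.lift (F := F) a; have := UF.lift (F := F) c; unfold tD; infer_instance
instance ud_tMemP [UF F a] [UF F b] [UF F c] :
    UD F (fun M v => tMemP (a M v) (b M v) (c M v)) := by
  have := UF.lift (F := F) b; have := UF.lift (F := F) c; unfold tMemP; infer_instance
instance ud_tEqP [UF F a] [UF F b] [UF F c] :
    UD F (fun M v => tEqP (a M v) (b M v) (c M v)) := by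
  have := UF.lift (F := F) b; have := UF.lift (F := F) c; unfold tEqP; infer_instance
instance uf_tMem [UF F a] [UF F b] [UF F c] : UF F (fun M v => tMem (a M v) (b M v) (c M v)) := by
  have := UF.lift (F := F) a; unfold tMem; infer_instance
instance ud_UWF [UF F a] [UF F b] : UD F (fun M v => UWF (a M v) (b M v)) := by
  unfold UWF; infer_instance
instance uf_ult [UF F a] [UF F b] : UF F (fun M v => ult (a M v) (b M v)) := by
  have := UF.lift (F := F) a; have := UF.lift (F := F) b; unfold ult; infer_instance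
instance uf_ultMap [UF F a] [UF F b] : UF F (fun M v => ultMap (a M v) (b M v)) := by
  have := UF.lift (F := F) a; have := UF.lift (F := F) b; unfold ultMap; infer_instance
instance ud_WFE [UF F a] : UD F (fun M v => WFE (a M v)) := by unfold WFE; infer_instance
instance uf_UE [UF F a] : UF F (fun M v => UE (a M v)) := by
  have := UF.lift (F := F) a; unfold UE; infer_instance
instance uf_ht [UF F a] : UF F (fun M v => ht (a M v)) := by unfold ht; infer_instance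
instance ud_niceU [UF F a] : UD F (fun M v => NiceU (a M v)) := by
  have := UF.lift (F := F) a; unfold NiceU; infer_instance
instance ud_isUlt [UF F a] [UF F b] [UF F c] [UF F d] :
    UD F (fun M v => IsUlt (a M v) (b M v) (c M v) (d M v)) := by
  have := UF.lift (F := F) a; have := UF.lift (F := F) b; have := UF.lift (F := F) c
  have := UF.lift (F := F) d
  exact (inferInstance : UD F (fun M v => IsExt (b M v) ∧ IsT (a M v : Set V) ∧
    Agr (a M v) (b M v) ∧ (c M v).IsTransitive ∧ IsElem (d M v) (a M v) (c M v) ∧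
    extZ (b M v) ⊆ c M v ∧
    (∀ X ∈ dom (b M v), app (b M v) X = app (d M v) X ∩ extZ (b M v)) ∧
    ∀ y ∈ c M v, ∃ x ∈ extZ (b M v), ∃ f ∈ a M v, IsFunc (extK (b M v)) (a M v) f ∧
      y = app (app (d M v) f) x)).congr fun _ _ _ _ =>
    ⟨fun ⟨a1, a2, a3, a4, a5, a6, a7, a8⟩ => ⟨a1, a2, a3, a4, a5, a6, a7, a8⟩,
      fun ⟨a1, a2, a3, a4, a5, a6, a7, a8⟩ => ⟨a1, a2, a3, a4, a5, a6, a7, a8⟩⟩
instance uf_rst [UF F a] [UF F o] : UF F (fun M v => rst (a M v) (o M v)) := by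
  have := UF.lift (F := F) a; have := UF.lift (F := F) o; unfold rst; infer_instance
instance uf_cpy [UF F a] [UF F b] [UF F c] [UF F d] [UF F e] :
    UF F (fun M v => cpy (a M v) (b M v) (c M v) (d M v) (e M v)) := by
  have := UF.lift (F := F) a; have := UF.lift (F := F) b; have := UF.lift (F := F) c
  have := UF.lift (F := F) d; have := UF.lift (F := F) e; unfold cpy; infer_instance
instance ud_noWit [UF F a] [UF F b] : UD F (fun M v => NoWit (a M v) (b M v)) := by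
  have := UF.lift (F := F) a; have := UF.lift (F := F) b; unfold NoWit; infer_instance
instance ud_woodE [F.P] [UC F D] [UF F o] : UD F (fun M v => WoodE (D M v) (o M v)) := by
  have := UC.lift (F := F) D; have := UF.lift (F := F) o; unfold WoodE; infer_instance
instance ud_woodES [UF F a] [UF F o] : UD F (fun M v => WoodE (a M v : Set V) (o M v)) := by
  have := UF.lift (F := F) a; have := UF.lift (F := F) o; unfold WoodE; infer_instance
instance ud_bkg [UC F D] [UF F a] [UF F o] : UD F (fun M v => Bkg (D M v) (a M v) (o M v)) := by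
  have := UC.lift (F := F) D; have := UF.lift (F := F) a; have := UF.lift (F := F) o
  unfold Bkg; infer_instance
end inst

/-! ### elementary consequences of the axioms -/
theorem ea_limit {T : V} (h0 : 0 < T.rank) (hp : ∀ x ∈ T, ∀ y ∈ T, ({x, y} : V) ∈ T) :
    Order.IsSuccLimit T.rank := by
  refine Ordinal.isSuccLimit_iff.2 ⟨h0.ne', Order.isSuccPrelimit_of_succ_lt fun a ha => ?_⟩
  obtain ⟨y, hy, k⟩ := lt_rank_iff.1 ha
  have h1 := rank_lt_of_mem (hp y hy y hy)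
  rw [rank_pair, max_self] at h1
  exact (Order.succ_le_succ k).trans_lt h1

theorem ea_surj {T : V} (ht : T.IsTransitive) {β : Ordinal.{0}} (hβ : β < T.rank) :
    ∃ x ∈ T, x.rank = β := by
  obtain ⟨x, hx, k⟩ := lt_rank_iff.1 hβ
  induction x using ZFSet.inductionOn with
  | _ x ih =>
    rcases k.eq_or_lt with e | e
    · exact ⟨x, hx, e.symm⟩
    · obtain ⟨y, hy, k'⟩ := lt_rank_iff.1 e
      exact ih y hy (ht x hx hy) k'

theorem ea_rank_cut {T : V} (ht : T.IsTransitive) {ρ : Ordinal.{0}} (h : ρ ≤ T.rank) :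
    (cut T ρ).rank = ρ := by
  refine le_antisymm (rank_le_iff.2 fun y hy => (mem_cut.1 hy).2) (le_of_forall_lt fun β hβ => ?_)
  obtain ⟨x, hx, rfl⟩ := ea_surj ht (hβ.trans_le h)
  exact rank_lt_of_mem (mem_cut.2 ⟨hx, hβ⟩)

theorem ea_rank_Vs (W : Set V) [IsZ W] {o : Ordinal.{0}} (h : o.toZFSet ∈ W) :
    (Vs W o).rank = o := by
  refine le_antisymm (rank_le_iff.2 fun y hy => (mem_Vs.1 hy).2) (le_of_forall_lt fun β hβ => ?_)
  have h1 : β.toZFSet ∈ Vs W o :=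
    mem_Vs.2 ⟨IsZ.ord_mem_of_le W h hβ.le, by rwa [rank_toZFSet]⟩
  simpa using rank_lt_of_mem h1

theorem ea_upair {x y : V} {o : Ordinal.{0}} (ho : Order.IsSuccLimit o) (hx : x.rank < o)
    (hy : y.rank < o) : ({x, y} : V).rank < o := by
  rw [rank_pair]
  exact max_lt (ho.succ_lt hx) (ho.succ_lt hy)

theorem ea_cut_prod {ρ : Ordinal.{0}} (hρ : Order.IsSuccLimit ρ) (A B : V) :
    cut (prod A B) ρ = prod (cut A ρ) (cut B ρ) := by
  ext p
  simp only [mem_cut, mem_prod]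
  constructor
  · rintro ⟨⟨x, hx, y, hy, rfl⟩, k⟩
    obtain ⟨k1, k2⟩ := (rank_pair_lt hρ).1 k
    exact ⟨x, ⟨hx, k1⟩, y, ⟨hy, k2⟩, rfl⟩
  · rintro ⟨x, hx, y, hy, rfl⟩
    exact ⟨⟨x, hx.1, y, hy.1, rfl⟩, (rank_pair_lt hρ).2 ⟨hx.2, hy.2⟩⟩

theorem ea_cut_rel {ρ : Ordinal.{0}} (hρ : Order.IsSuccLimit ρ) (A B : V) {P Q : V → V → Prop}
    (h : ∀ x ∈ cut A ρ, ∀ y ∈ cut B ρ, (P x y ↔ Q x y)) :
    cut (rel A B P) ρ = rel (cut A ρ) (cut B ρ) Q := by
  ext p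
  simp only [mem_cut (A := rel A B P), mem_rel]
  constructor
  · rintro ⟨⟨x, hx, y, hy, rfl, hp⟩, k⟩
    obtain ⟨k1, k2⟩ := (rank_pair_lt hρ).1 k
    exact ⟨x, mem_cut.2 ⟨hx, k1⟩, y, mem_cut.2 ⟨hy, k2⟩, rfl,
      (h x (mem_cut.2 ⟨hx, k1⟩) y (mem_cut.2 ⟨hy, k2⟩)).1 hp⟩
  · rintro ⟨x, hx, y, hy, rfl, hq⟩
    exact ⟨⟨x, (mem_cut.1 hx).1, y, (mem_cut.1 hy).1, rfl, (h x hx y hy).2 hq⟩,
      (rank_pair_lt hρ).2 ⟨(mem_cut.1 hx).2, (mem_cut.1 hy).2⟩⟩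

/-- cutting a map with the algebraic properties of an extender -/
theorem ea_core {K Z D : V} {G : V → V} {ρ : Ordinal.{0}} (hρ : Order.IsSuccLimit ρ)
    (hD : D = pw (cut Z ρ : Set V) K) (ht : (cut Z ρ).IsTransitive)
    (hK : K = cut (cut Z ρ) K.rank) (h1 : K ∈ cut Z ρ) (h2 : omegaZ ∈ K)
    (h3 : ∀ x ∈ K, ∀ y ∈ K, ({x, y} : V) ∈ K)
    (h4 : ∀ x ∈ cut Z ρ, ∀ y ∈ cut Z ρ, ({x, y} : V) ∈ cut Z ρ) (h5 : ∀ X ∈ D, G X ⊆ Z)
    (h6 : ∀ x ∈ K, G x = x) (h7 : ∀ X ∈ D, ∀ Y ∈ D, X \ Y ∈ D ∧ G (X \ Y) = G X \ G Y)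
    (h8 : ∀ X ∈ D, ∀ Y ∈ D, prod X Y ∈ D ∧ G (prod X Y) = prod (G X) (G Y))
    (h9 : ∀ X ∈ D, swapR K X ∈ D ∧ G (swapR K X) = swapR Z (G X))
    (h10 : ∀ X ∈ D, assocR K X ∈ D ∧ G (assocR K X) = assocR Z (G X))
    (h11 : memR K ∈ D ∧ G (memR K) = memR Z) (h12 : idR K ∈ D ∧ G (idR K) = idR Z)
    (h13 : appR K ∈ D ∧ G (appR K) = appR Z)
    (h14 : ∀ f ∈ D, IsFunc K K f → ∀ a ∈ Z, ∀ c ∈ Z, pair a c ∈ G (rkRel K f) →
      ∃ b ∈ Z, pair a b ∈ G f ∧ b.rank < c.rank) :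
    IsExt' K (cut Z ρ) (lam D fun X => cut (G X) ρ) := by
  have e : ∀ {X : V}, X ∈ D → app (lam D fun X => cut (G X) ρ) X = cut (G X) ρ := app_lam _
  have hK' : ∀ x, x ∈ K ↔ x ∈ cut Z ρ ∧ x.rank < K.rank := fun x => by
    conv_lhs => rw [hK]
    exact mem_cut
  refine ⟨isFn_lam _ _, (dom_lam _ _).trans hD, ht, hK, h1, h2, h3, h4, ?_, fun x hx => ?_,
    ?_, ?_, ?_, ?_, ?_, ?_, ?_, ?_⟩ <;> try rw [dom_lam]
  · intro X hX y hy
    rw [e hX, mem_cut] at hy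
    exact mem_cut.2 ⟨h5 X hX hy.1, hy.2⟩
  · have a1 := (hK' x).1 hx
    have a2 : x ∈ D := hD ▸ mem_pw.2 ⟨a1.1, fun y hy =>
      (hK' y).2 ⟨ht x a1.1 hy, (rank_lt_of_mem hy).trans a1.2⟩⟩
    rw [e a2, h6 x hx]
    ext y
    exact ⟨fun k => (mem_cut.1 k).1, fun k => mem_cut.2 ⟨k, (mem_cut.1 (ht x a1.1 k)).2⟩⟩
  · refine fun X hX Y hY => ⟨(h7 X hX Y hY).1, ?_⟩
    rw [e (h7 X hX Y hY).1, (h7 X hX Y hY).2, e hX, e hY]
    ext y
    simp only [mem_cut, mem_sdiff]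
    tauto
  · refine fun X hX Y hY => ⟨(h8 X hX Y hY).1, ?_⟩
    rw [e (h8 X hX Y hY).1, (h8 X hX Y hY).2, e hX, e hY, ea_cut_prod hρ]
  · refine fun X hX => ⟨(h9 X hX).1, ?_⟩
    rw [e (h9 X hX).1, (h9 X hX).2, e hX]
    exact ea_cut_rel hρ _ _ fun x hx y hy => by
      simp only [mem_cut, rank_pair_lt hρ, (mem_cut.1 hx).2, (mem_cut.1 hy).2, and_true]
  · refine fun X hX => ⟨(h10 X hX).1, ?_⟩
    rw [e (h10 X hX).1, (h10 X hX).2, e hX, assocR, assocR, ← ea_cut_prod hρ]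
    exact ea_cut_rel hρ _ _ fun x hx y hy => by
      simp only [mem_cut, rank_pair_lt hρ, (mem_cut.1 hx).2, and_true,
        (rank_fst_le y).trans_lt (mem_cut.1 hy).2, (rank_snd_le y).trans_lt (mem_cut.1 hy).2]
  · exact ⟨h11.1, by rw [e h11.1, h11.2]; exact ea_cut_rel hρ _ _ fun _ _ _ _ => Iff.rfl⟩
  · exact ⟨h12.1, by rw [e h12.1, h12.2]; exact ea_cut_rel hρ _ _ fun _ _ _ _ => Iff.rfl⟩
  · refine ⟨h13.1, ?_⟩
    rw [e h13.1, h13.2, appR, appR, ← ea_cut_prod hρ]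
    exact ea_cut_rel hρ _ _ fun _ _ _ _ => Iff.rfl
  · intro f hf hF a ha c hc k
    by_cases a1 : rkRel K f ∈ D
    · rw [e a1] at k
      obtain ⟨b, b1, b2, b3⟩ := h14 f hf hF a (mem_cut.1 ha).1 c (mem_cut.1 hc).1 (mem_cut.1 k).1
      have b4 := b3.trans (mem_cut.1 hc).2
      rw [e hf]
      exact ⟨b, mem_cut.2 ⟨b1, b4⟩,
        mem_cut.2 ⟨b2, (rank_pair_lt hρ).2 ⟨(mem_cut.1 ha).2, b4⟩⟩, b3⟩
    · rw [app_of_not_mem_dom (by rwa [dom_lam])] at k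
      exact (notMem_empty _ k).elim

theorem IsExt'.isExt {K Z E : V} (hZ : app E K = Z) (h : IsExt' K Z E) :
    IsExt E ∧ extK E = K ∧ extZ E = Z := by
  have h1 : extK E = K := by
    ext x
    rw [extK, h.domE, mem_sUnion]
    exact ⟨fun ⟨X, a1, a2⟩ => (mem_pw.1 a1).2 a2,
      fun k => ⟨K, mem_pw.2 ⟨h.memK, subset_rfl⟩, k⟩⟩
  have h2 : extZ E = Z := by rw [extZ, h1, hZ]
  exact ⟨by rw [IsExt, h1, h2]; exact h, h1, h2⟩
namespace IsExt
variable {E : V} (h : IsExt E)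
include h
theorem mem_dom {X : V} : X ∈ dom E ↔ X ∈ extZ E ∧ X ⊆ extK E := by
  rw [h.domE]; exact mem_pw
theorem mem_K {x : V} : x ∈ extK E ↔ x ∈ extZ E ∧ x.rank < crit E := by
  conv_lhs => rw [h.cutK]
  exact mem_cut
theorem K_mem_dom : extK E ∈ dom E := h.mem_dom.2 ⟨h.memK, subset_rfl⟩
theorem K_trans : (extK E).IsTransitive := fun x hx y hy =>
  h.mem_K.2 ⟨h.trans x (h.mem_K.1 hx).1 hy, (rank_lt_of_mem hy).trans (h.mem_K.1 hx).2⟩
theorem omega_lt_crit : ω < crit E := by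
  simpa [omegaZ] using (h.mem_K.1 h.omegaK).2
theorem crit_lt_len : crit E < len E := rank_lt_of_mem h.memK
theorem crit_limit : Order.IsSuccLimit (crit E) :=
  ea_limit (omega0_pos.trans h.omega_lt_crit) h.pairK
theorem len_limit : Order.IsSuccLimit (len E) :=
  ea_limit (omega0_pos.trans (h.omega_lt_crit.trans h.crit_lt_len)) h.pairZ
theorem rank_eq : E.rank = len E + 3 := by
  rw [← two_add_one_eq_three, ← add_assoc]
  refine le_antisymm (rank_le_iff.2 fun p hp => ?_) (Order.add_one_le_iff.2 ?_)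
  · have h1 := h.fn.1 p hp
    have h2 : pair (fst p) (snd p) ∈ E := h1 ▸ hp
    have h3 := W.mem_dom.2 ⟨_, h2⟩
    rw [h1, rank_zpair, Order.lt_add_one_iff, ← h.fn.app_eq h2]
    exact add_le_add (max_le (rank_lt_of_mem (h.mem_dom.1 h3).1).le (rank_mono (h.sub _ h3))) le_rfl
  · have h1 := rank_lt_of_mem (h.fn.pair_app_mem h.K_mem_dom)
    rw [rank_zpair] at h1
    exact (add_le_add (le_max_right _ _) le_rfl).trans_lt h1
theorem app_empty : app E ∅ = ∅ := by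
  refine h.fix _ (h.K_trans _ h.omegaK (mem_omegaZ.2 ⟨0, ?_⟩))
  simp [natZ]
theorem mono {X Y : V} (hX : X ∈ dom E) (hY : Y ∈ dom E) (hs : X ⊆ Y) : app E X ⊆ app E Y := by
  have h1 := (h.diff X hX Y hY).2
  rw [show X \ Y = ∅ from (ZFSet.eq_empty _).2 fun y k =>
    (mem_sdiff.1 k).2 (hs (mem_sdiff.1 k).1), h.app_empty] at h1
  exact fun y hy => by_contra fun k => notMem_empty y (h1 ▸ mem_sdiff.2 ⟨hy, k⟩)
theorem inter {X Y : V} (hX : X ∈ dom E) (hY : Y ∈ dom E) :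
    X ∩ Y ∈ dom E ∧ app E (X ∩ Y) = app E X ∩ app E Y := by
  have e : ∀ A B : V, A ∩ B = A \ (A \ B) := fun A B => by
    ext y; simp only [mem_inter, mem_sdiff]; tauto
  have h1 := h.diff X hX Y hY
  rw [e, e, ← h1.2]
  exact h.diff X hX _ h1.1
theorem union {X Y : V} (hX : X ∈ dom E) (hY : Y ∈ dom E) :
    X ∪ Y ∈ dom E ∧ app E (X ∪ Y) = app E X ∪ app E Y := by
  have e : ∀ {T A B : V}, A ⊆ T → B ⊆ T → A ∪ B = T \ ((T \ A) \ B) := fun {T A B} a1 a2 => by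
    ext y
    have b1 := @a1 y
    have b2 := @a2 y
    simp only [mem_union, mem_sdiff]
    tauto
  have h1 := h.diff _ h.K_mem_dom X hX
  have h2 := h.diff _ h1.1 Y hY
  have h3 := h.diff _ h.K_mem_dom _ h2.1
  rw [h2.2, h1.2] at h3
  rw [e (h.mem_dom.1 hX).2 (h.mem_dom.1 hY).2, e (h.sub X hX) (h.sub Y hY)]
  exact h3
/-- `E X ∩ V_κ = X` -/
theorem cut_app {X : V} (hX : X ∈ dom E) : cut (app E X) (crit E) = X := by
  have key : ∀ x ∈ extK E, x ∈ app E X ↔ x ∈ X := fun x hx => by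
    have h1 : ({x} : V) ∈ extK E := by simpa using h.pairK x hx x hx
    have h2 := h.mem_dom.2 ⟨(h.mem_K.1 h1).1, h.K_trans _ h1⟩
    have h3 := (h.diff _ h2 X hX).2
    rw [h.fix _ h1] at h3
    by_cases k : x ∈ X
    · refine iff_of_true (h.mono h2 hX (fun y hy => mem_singleton.1 hy ▸ k) ?_) k
      rw [h.fix _ h1, mem_singleton]
    · rw [show ({x} : V) \ X = {x} by
        ext y
        exact ⟨fun a => (mem_sdiff.1 a).1, fun a => mem_sdiff.2 ⟨a, mem_singleton.1 a ▸ k⟩⟩,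
        h.fix _ h1] at h3
      exact iff_of_false (mem_sdiff.1 (h3 ▸ mem_singleton.2 rfl : x ∈ {x} \ app E X)).2 k
  ext x
  rw [mem_cut]
  exact ⟨fun k => (key x (h.mem_K.2 ⟨h.sub X hX k.1, k.2⟩)).1 k.1, fun k =>
    ⟨(key x ((h.mem_dom.1 hX).2 k)).2 k, (h.mem_K.1 ((h.mem_dom.1 hX).2 k)).2⟩⟩
theorem rst_spec {ρ : Ordinal.{0}} (hρ : Order.IsSuccLimit ρ) (h1 : crit E < ρ) (h2 : ρ ≤ len E) :
    IsExt (rst E ρ) ∧ extK (rst E ρ) = extK E ∧ extZ (rst E ρ) = cut (extZ E) ρ ∧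
      crit (rst E ρ) = crit E ∧ len (rst E ρ) = ρ ∧ dom (rst E ρ) = dom E := by
  have h3 : IsExt' (extK E) (cut (extZ E) ρ) (rst E ρ) := by
    refine ea_core hρ ?_ (fun x hx y hy => ?_) ?_ (mem_cut.2 ⟨h.memK, h1⟩) h.omegaK h.pairK
      (fun x hx y hy => ?_) h.sub h.fix h.diff h.prod h.swap h.assoc h.memE h.idE h.appE h.norm
    · ext X
      rw [h.mem_dom, mem_pw]
      exact and_congr_left fun k => ⟨fun a => mem_cut.2 ⟨a, (rank_mono k).trans_lt h1⟩,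
        fun a => (mem_cut.1 a).1⟩
    · exact mem_cut.2 ⟨h.trans x (mem_cut.1 hx).1 hy, (rank_lt_of_mem hy).trans (mem_cut.1 hx).2⟩
    · ext x
      rw [h.mem_K, mem_cut, mem_cut]
      exact ⟨fun k => ⟨⟨k.1, k.2.trans h1⟩, k.2⟩, fun k => ⟨k.1.1, k.2⟩⟩
    · exact mem_cut.2 ⟨h.pairZ x (mem_cut.1 hx).1 y (mem_cut.1 hy).1,
        ea_upair hρ (mem_cut.1 hx).2 (mem_cut.1 hy).2⟩
  obtain ⟨a1, a2, a3⟩ := h3.isExt (app_lam (fun X => cut (app E X) ρ) h.K_mem_dom)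
  exact ⟨a1, a2, a3, congrArg rank a2, (congrArg rank a3).trans (ea_rank_cut h.trans h2),
    dom_lam _ _⟩
end IsExt
theorem app_rst {E X : V} {ρ : Ordinal.{0}} (hX : X ∈ dom E) :
    app (rst E ρ) X = cut (app E X) ρ := app_lam _ hX

/-- extenders derived from elementary maps; `W` supplies the closure properties -/
theorem isExt_of_elem {W H Q : Set V} [IsZ W] [IsZ H] [IsZ Q] {j : V → V} (hj : Elem j H Q)
    {κ ρ : Ordinal.{0}} (hκ : Order.IsSuccLimit κ) (hω : ω < κ) (hρ : Order.IsSuccLimit ρ)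
    (hlt : κ < ρ) (hW : Room W ρ) (hP : ∀ X ∈ W, X ⊆ Vs W κ → X ∈ H)
    (hfix : ∀ x ∈ Vs W κ, j x = x) (hZ : cut (j (Vs W κ)) ρ = Vs W ρ) :
    let E := lam (pw W (Vs W κ)) (fun X => cut (j X) ρ)
    IsExt E ∧ extK E = Vs W κ ∧ extZ E = Vs W ρ ∧ crit E = κ ∧ len E = ρ := by
  intro E
  have k1 : Vs W κ ∈ W := hW.mono hlt.le
  have k2 : (Vs W κ).rank = κ := ea_rank_Vs W (hW.mono hlt.le).ord_mem
  have k3 : ∀ o, Order.IsSuccLimit o → ∀ x ∈ Vs W o, ∀ y ∈ Vs W o, ({x, y} : V) ∈ Vs W o :=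
    fun o ho x hx y hy => mem_Vs.2 ⟨IsZ.upair x (mem_Vs.1 hx).1 y (mem_Vs.1 hy).1,
      ea_upair ho (mem_Vs.1 hx).2 (mem_Vs.1 hy).2⟩
  have k4 : ∀ {A B : V}, A ⊆ Vs W κ → B ⊆ Vs W κ → prod A B ⊆ Vs W κ := fun a1 a2 p hp => by
    obtain ⟨x, hx, y, hy, rfl⟩ := mem_prod.1 hp
    exact mem_Vs.2 ⟨(IsZ.pair_mem_iff W).2 ⟨(mem_Vs.1 (a1 hx)).1, (mem_Vs.1 (a2 hy)).1⟩,
      (rank_pair_lt hκ).2 ⟨(mem_Vs.1 (a1 hx)).2, (mem_Vs.1 (a2 hy)).2⟩⟩
  have k5 : ∀ {A B : V} {P : V → V → Prop}, A ⊆ Vs W κ → B ⊆ Vs W κ → rel A B P ⊆ Vs W κ :=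
    fun a1 a2 p hp => k4 a1 a2 (mem_sep.1 hp).1
  have k6 : ∀ x, x ∈ Vs W κ ↔ x ∈ W ∧ x.rank < κ := fun x => mem_Vs
  have k10 := k3 κ hκ
  have hE : E = lam (pw W (Vs W κ)) (fun X => cut (j X) ρ) := rfl
  clear_value E
  generalize Vs W κ = K at *
  have k7 : K ∈ H := hP K k1 subset_rfl
  have k8 : ∀ {X : V}, X ∈ pw W K → X ∈ H := fun hX => hP _ (mem_pw.1 hX).1 (mem_pw.1 hX).2
  have k9 : K ⊆ K := subset_rfl
  haveI : In W K := ⟨k1⟩
  have h3 : IsExt' K (cut (j K) ρ) E := by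
    rw [hE]
    refine ea_core hρ ?_ ?_ ?_ ?_ ?_ k10 ?_ (fun X hX => ?_) hfix (fun X hX Y hY => ?_)
      (fun X hX Y hY => ?_) (fun X hX => ?_) (fun X hX => ?_) ?_ ?_ ?_
      (fun f hf hF a ha c hc k => ?_) <;> try rw [hZ]
    · ext X
      rw [mem_pw, mem_pw]
      exact and_congr_left fun k => ⟨fun a => mem_Vs.2 ⟨a, ((rank_mono k).trans k2.le).trans_lt hlt⟩,
        fun a => (mem_Vs.1 a).1⟩
    · exact fun x hx y hy => mem_Vs.2 ⟨IsZ.trans x (mem_Vs.1 hx).1 y hy,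
        (rank_lt_of_mem hy).trans (mem_Vs.1 hx).2⟩
    · ext x
      rw [k6, mem_cut, mem_Vs, k2]
      exact ⟨fun k => ⟨⟨k.1, k.2.trans hlt⟩, k.2⟩, fun k => ⟨k.1.1, k.2⟩⟩
    · exact mem_Vs.2 ⟨k1, k2 ▸ hlt⟩
    · exact (k6 _).2 ⟨IsZ.omega, by simpa [omegaZ] using hω⟩
    · exact k3 ρ hρ
    · exact (hj.iff2 pZ (fun _ (a b : V) => a ⊆ b) (k8 hX) k7).1 (mem_pw.1 hX).2
    · haveI : In W X := ⟨(mem_pw.1 hX).1⟩
      haveI : In W Y := ⟨(mem_pw.1 hY).1⟩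
      exact ⟨mem_pw.2 ⟨memV_of W _, fun y k => (mem_pw.1 hX).2 (mem_sdiff.1 k).1⟩,
        hj.map2 pZ (fun _ (a b : V) => a \ b) (k8 hX) (k8 hY)⟩
    · haveI : In W X := ⟨(mem_pw.1 hX).1⟩
      haveI : In W Y := ⟨(mem_pw.1 hY).1⟩
      exact ⟨mem_pw.2 ⟨memV_of W _, k4 (mem_pw.1 hX).2 (mem_pw.1 hY).2⟩,
        hj.map2 pZ (fun _ (a b : V) => prod a b) (k8 hX) (k8 hY)⟩
    · haveI : In W X := ⟨(mem_pw.1 hX).1⟩
      exact ⟨mem_pw.2 ⟨memV_of W _, k5 k9 k9⟩, hj.map2 pZ (fun _ (a b : V) => swapR a b) k7 (k8 hX)⟩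
    · haveI : In W X := ⟨(mem_pw.1 hX).1⟩
      exact ⟨mem_pw.2 ⟨memV_of W _, k5 k9 (k4 k9 k9)⟩,
        hj.map2 pZ (fun _ (a b : V) => assocR a b) k7 (k8 hX)⟩
    · exact ⟨mem_pw.2 ⟨memV_of W _, k5 k9 k9⟩, hj.map1 pZ (fun _ (a : V) => memR a) k7⟩
    · exact ⟨mem_pw.2 ⟨memV_of W _, k5 k9 k9⟩, hj.map1 pZ (fun _ (a : V) => idR a) k7⟩
    · exact ⟨mem_pw.2 ⟨memV_of W _, k5 k9 (k4 k9 k9)⟩, hj.map1 pZ (fun _ (a : V) => appR a) k7⟩
    · have a1 : j (rkRel K f) = rkRel (j K) (j f) :=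
        hj.map2 pZ (fun _ (a b : V) => rkRel a b) k7 (k8 hf)
      obtain ⟨a2, a3, a4⟩ := isFunc_iff.1
        ((hj.iff2 pZ (fun _ (a b : V) => IsFunc a a b) k7 (k8 hf)).1 hF)
      rw [a1, rkRel, pair_mem_rel] at k
      exact ⟨_, a4 a ha, a2.pair_app_mem (a3.symm ▸ ha), k.2.2⟩
  obtain ⟨a1, a2, a3⟩ := h3.isExt (hE ▸ app_lam _ (mem_pw.2 ⟨k1, k9⟩))
  rw [hZ] at a3
  exact ⟨a1, a2, a3, by rw [crit, a2, k2], by rw [len, a3, ea_rank_Vs W hW.ord_mem]⟩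
-- JOB A END

-- JOB B BEGIN
section eb
variable {M E : V} (hE : IsExt E) [IsT (M : Set V)] (hA : Agr M E)

omit [IsT (M : Set V)] in
include hE hA in
theorem eb_dom {X : V} : X ∈ dom E ↔ X ∈ M ∧ X ⊆ extK E := by
  rw [hE.mem_dom]
  refine and_congr_left fun h => ?_
  have h1 : X.rank < crit E + 1 := Order.lt_add_one_iff.2 (rank_mono h)
  have h2 := ZFSet.ext_iff.1 hA X
  rw [mem_cut, mem_cut] at h2
  exact ⟨fun k => (h2.2 ⟨k, h1⟩).1, fun k => (h2.1 ⟨k, h1⟩).1⟩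

omit [IsT (M : Set V)] in
include hE hA in
theorem eb_K : extK E ∈ M := ((eb_dom hE hA).1 hE.K_mem_dom).1

include hE in
theorem eb_pK {x y : V} (hx : x ∈ extK E) (hy : y ∈ extK E) : pair x y ∈ extK E := by
  have h := hE.pairK x hx x hx
  rw [pair_eq_singleton] at h
  exact hE.pairK _ h _ (hE.pairK x hx y hy)

include hE in
theorem eb_pZ {x y : V} (hx : x ∈ extZ E) (hy : y ∈ extZ E) : pair x y ∈ extZ E := by
  have h := hE.pairZ x hx x hx
  rw [pair_eq_singleton] at h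
  exact hE.pairZ _ h _ (hE.pairZ x hx y hy)

include hE in
theorem eb_empty : (∅ : V) ∈ extK E ∧ (∅ : V) ∈ extZ E := by
  have h : (∅ : V) ∈ omegaZ := by
    rw [← toZFSet_zero]
    exact Ordinal.toZFSet_mem_toZFSet_iff.2 omega0_pos
  have h1 := hE.K_trans _ hE.omegaK h
  exact ⟨h1, (hE.mem_K.1 h1).1⟩

include hE hA in
theorem eb_sep (P : V → Prop) [UD (loc (M : Set V)) (fun _ v => P (vr v 0))] :
    ZFSet.sep P (extK E) ∈ dom E :=
  (eb_dom hE hA).2 ⟨sep_mem (M : Set V) P (eb_K hE hA), sep_subset⟩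

include hE hA in
theorem eb_rel (P : V → V → Prop)
    [UD (loc (M : Set V)) (fun _ v => P (fst (vr v 0)) (snd (vr v 0)))] :
    rel (extK E) (extK E) P ∈ dom E := by
  have h := (eb_dom hE hA).1 (hE.prod _ hE.K_mem_dom _ hE.K_mem_dom).1
  exact (eb_dom hE hA).2 ⟨sep_mem (M : Set V) (fun p => P (fst p) (snd p)) h.1,
    fun x hx => h.2 (sep_subset hx)⟩

include hE in
theorem eb_imp {X Y W t : V} (hX : X ∈ dom E) (hY : Y ∈ dom E) (hW : W ∈ dom E)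
    (h1 : t ∈ app E X) (h2 : t ∈ app E Y) (h : ∀ u ∈ X, u ∈ Y → u ∈ W) : t ∈ app E W := by
  obtain ⟨k1, k2⟩ := hE.inter hX hY
  refine hE.mono k1 hW (fun u hu => h u (mem_inter.1 hu).1 (mem_inter.1 hu).2) ?_
  rw [k2]
  exact mem_inter.2 ⟨h1, h2⟩

include hE in
theorem eb_fst {X a b : V} (hX : X ∈ dom E) (hb : b ∈ extZ E) :
    pair a b ∈ app E (prod X (extK E)) ↔ a ∈ app E X := by
  rw [(hE.prod _ hX _ hE.K_mem_dom).2, pair_mem_prod]
  exact and_iff_left hb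

include hE in
theorem eb_snd {X a b : V} (hX : X ∈ dom E) (ha : a ∈ extZ E) :
    pair a b ∈ app E (prod (extK E) X) ↔ b ∈ app E X := by
  rw [(hE.prod _ hE.K_mem_dom _ hX).2, pair_mem_prod]
  exact and_iff_right ha

include hE in
theorem eb_KK {a b : V} (ha : a ∈ extZ E) (hb : b ∈ extZ E) :
    pair a b ∈ app E (prod (extK E) (extK E)) := (eb_fst hE hE.K_mem_dom hb).2 ha

include hE in
theorem eb_swap {X a b : V} (hX : X ∈ dom E) (ha : a ∈ extZ E) (hb : b ∈ extZ E) :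
    pair b a ∈ app E (swapR (extK E) X) ↔ pair a b ∈ app E X := by
  rw [(hE.swap _ hX).2, swapR, pair_mem_rel]
  exact ⟨fun h => h.2.2, fun h => ⟨hb, ha, h⟩⟩

include hE in
theorem eb_assoc {X a b c : V} (hX : X ∈ dom E) (ha : a ∈ extZ E) (hb : b ∈ extZ E)
    (hc : c ∈ extZ E) :
    pair a (pair b c) ∈ app E (assocR (extK E) X) ↔ pair (pair a b) c ∈ app E X := by
  rw [(hE.assoc _ hX).2, assocR, pair_mem_rel, pair_mem_prod, fst_pair, snd_pair]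
  exact ⟨fun h => h.2.2, fun h => ⟨ha, ⟨hb, hc⟩, h⟩⟩

include hE in
theorem eb_id {a : V} (ha : a ∈ extZ E) : pair a a ∈ app E (idR (extK E)) := by
  rw [hE.idE.2, idR, pair_mem_rel]
  exact ⟨ha, ha, rfl⟩

/-- triples with a condition on the first and the third coordinate -/
noncomputable def eb13 (K Y : V) : V := swapR K (assocR K (prod (swapR K Y) K))
/-- triples with a condition on the second and the third coordinate -/
noncomputable def eb23 (K Y : V) : V := swapR K (assocR K (eb13 K (swapR K Y)))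

include hE in
theorem eb13_spec {Y : V} (hY : Y ∈ dom E) : eb13 (extK E) Y ∈ dom E ∧
    (∀ t, t ∈ eb13 (extK E) Y ↔ ∃ u ∈ extK E, ∃ v ∈ extK E, ∃ w ∈ extK E,
      t = pair (pair u v) w ∧ pair u w ∈ Y) ∧
    ∀ a ∈ extZ E, ∀ b ∈ extZ E, ∀ c ∈ extZ E,
      (pair (pair a b) c ∈ app E (eb13 (extK E) Y) ↔ pair a c ∈ app E Y) := by
  have h1 := (hE.swap _ hY).1
  have h2 := (hE.prod _ h1 _ hE.K_mem_dom).1
  have h3 := (hE.assoc _ h2).1
  refine ⟨(hE.swap _ h3).1, fun t => ?_, fun a ha b hb c hc => ?_⟩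
  · rw [eb13, swapR, mem_rel]
    constructor
    · rintro ⟨p, -, w, hw, rfl, h⟩
      obtain ⟨-, k1, k2⟩ := pair_mem_rel.1 h
      obtain ⟨u, hu, v, hv, rfl⟩ := mem_prod.1 k1
      rw [fst_pair, snd_pair, pair_mem_prod, swapR, pair_mem_rel] at k2
      exact ⟨u, hu, v, hv, w, hw, rfl, k2.1.2.2⟩
    · rintro ⟨u, hu, v, hv, w, hw, rfl, h⟩
      refine ⟨_, eb_pK hE hu hv, w, hw, rfl, pair_mem_rel.2 ⟨hw, pair_mem_prod.2 ⟨hu, hv⟩, ?_⟩⟩
      rw [fst_pair, snd_pair, pair_mem_prod, swapR, pair_mem_rel]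
      exact ⟨⟨hw, hu, h⟩, hv⟩
  · rw [eb13, eb_swap hE h3 hc (eb_pZ hE ha hb), eb_assoc hE h2 hc ha hb, eb_fst hE h1 hb,
      eb_swap hE hY ha hc]

include hE in
theorem eb23_spec {Y : V} (hY : Y ∈ dom E) : eb23 (extK E) Y ∈ dom E ∧
    (∀ t, t ∈ eb23 (extK E) Y ↔ ∃ u ∈ extK E, ∃ v ∈ extK E, ∃ w ∈ extK E,
      t = pair (pair u v) w ∧ pair v w ∈ Y) ∧
    ∀ a ∈ extZ E, ∀ b ∈ extZ E, ∀ c ∈ extZ E,
      (pair (pair a b) c ∈ app E (eb23 (extK E) Y) ↔ pair b c ∈ app E Y) := by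
  have h1 := (hE.swap _ hY).1
  obtain ⟨h2, k2, k3⟩ := eb13_spec hE h1
  have h3 := (hE.assoc _ h2).1
  refine ⟨(hE.swap _ h3).1, fun t => ?_, fun a ha b hb c hc => ?_⟩
  · rw [eb23, swapR, mem_rel]
    constructor
    · rintro ⟨p, -, w, hw, rfl, h⟩
      obtain ⟨-, k1, k4⟩ := pair_mem_rel.1 h
      obtain ⟨u, hu, v, hv, rfl⟩ := mem_prod.1 k1
      rw [fst_pair, snd_pair, k2] at k4
      obtain ⟨u', -, v', -, w', -, e, k5⟩ := k4
      obtain ⟨e1, rfl⟩ := pair_inj.1 e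
      obtain ⟨rfl, rfl⟩ := pair_inj.1 e1
      exact ⟨u, hu, v, hv, w, hw, rfl, (pair_mem_rel.1 k5).2.2⟩
    · rintro ⟨u, hu, v, hv, w, hw, rfl, h⟩
      refine ⟨_, eb_pK hE hu hv, w, hw, rfl, pair_mem_rel.2 ⟨hw, pair_mem_prod.2 ⟨hu, hv⟩, ?_⟩⟩
      rw [fst_pair, snd_pair, k2]
      exact ⟨w, hw, u, hu, v, hv, rfl, pair_mem_rel.2 ⟨hw, hv, h⟩⟩
  · rw [eb23, eb_swap hE h3 hc (eb_pZ hE ha hb), eb_assoc hE h2 hc ha hb, k3 c hc a ha b hb,
      eb_swap hE hY hb hc]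

include hE in
theorem eb_tri {Y1 Y2 Y X a b c : V} (h1 : Y1 ∈ dom E) (h2 : Y2 ∈ dom E) (hY : Y ∈ dom E)
    (hX : X ∈ dom E) (ha : a ∈ extZ E) (hb : b ∈ extZ E) (hc : c ∈ extZ E)
    (k1 : pair c a ∈ app E Y1) (k2 : pair c b ∈ app E Y2)
    (h : ∀ u ∈ extK E, ∀ v ∈ extK E, ∀ w ∈ extK E, pair u v ∈ Y1 → pair u w ∈ Y2 →
      (pair v w ∈ Y ↔ u ∈ X)) : pair a b ∈ app E Y ↔ c ∈ app E X := by
  obtain ⟨d1, d2, d3⟩ := eb13_spec hE h2
  obtain ⟨e1, e2, e3⟩ := eb23_spec hE hY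
  have p1 := (hE.prod _ h1 _ hE.K_mem_dom).1
  have p2 := (hE.prod _ hX _ hE.K_mem_dom).1
  have p3 := (hE.prod _ p2 _ hE.K_mem_dom).1
  obtain ⟨q1, q2⟩ := hE.inter p1 d1
  have q3 : pair (pair c a) b ∈ app E (prod Y1 (extK E) ∩ eb13 (extK E) Y2) := by
    rw [q2]
    exact mem_inter.2 ⟨(eb_fst hE h1 hb).2 k1, (d3 c hc a ha b hb).2 k2⟩
  rw [← e3 c hc a ha b hb, ← eb_fst hE hX ha, ← eb_fst hE p2 hb]
  constructor
  · refine fun k => eb_imp hE q1 e1 p3 q3 k fun t ht k => ?_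
    obtain ⟨u, hu, v, hv, w, hw, rfl, t2⟩ := (d2 t).1 (mem_inter.1 ht).2
    obtain ⟨u', -, v', -, w', -, e, t3⟩ := (e2 _).1 k
    obtain ⟨e1, rfl⟩ := pair_inj.1 e
    obtain ⟨rfl, rfl⟩ := pair_inj.1 e1
    exact pair_mem_prod.2 ⟨pair_mem_prod.2
      ⟨(h u hu v hv w hw (pair_mem_prod.1 (mem_inter.1 ht).1).1 t2).1 t3, hv⟩, hw⟩
  · refine fun k => eb_imp hE q1 p3 e1 q3 k fun t ht k => ?_
    obtain ⟨u, hu, v, hv, w, hw, rfl, t2⟩ := (d2 t).1 (mem_inter.1 ht).2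
    exact (e2 _).2 ⟨u, hu, v, hv, w, hw, rfl,
      (h u hu v hv w hw (pair_mem_prod.1 (mem_inter.1 ht).1).1 t2).2
        (pair_mem_prod.1 (pair_mem_prod.1 k).1).1⟩

theorem eb_tD {E S R p : V} (h : p ∈ tD E S R) :
    fst p ∈ extZ E ∧ snd p ∈ S ∧ IsFunc (extK E) R (snd p) ∧ p = pair (fst p) (snd p) := by
  obtain ⟨a, ha, f, hf, rfl, k⟩ := mem_rel.1 h
  rw [fst_pair, snd_pair]
  exact ⟨ha, hf, k, rfl⟩

include hE hA in
theorem eb_relE {f g : V} (hf : f ∈ M) (hg : g ∈ M) :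
    rel (extK E) (extK E) (fun u v => app f u = app g v) ∈ dom E :=
  haveI : In (M : Set V) f := ⟨hf⟩
  haveI : In (M : Set V) g := ⟨hg⟩
  eb_rel hE hA _

include hE hA in
theorem eb_relM {f g : V} (hf : f ∈ M) (hg : g ∈ M) :
    rel (extK E) (extK E) (fun u v => app f u ∈ app g v) ∈ dom E :=
  haveI : In (M : Set V) f := ⟨hf⟩
  haveI : In (M : Set V) g := ⟨hg⟩
  eb_rel hE hA _

theorem eb_uv {f : ℕ → V} (hf : ∀ i, f i ∈ M) (k : (ℕ → V) → ℕ → V)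
    [UV (loc (M : Set V)) (fun _ v => k v)] :
    UV (loc (M : Set V)) (fun _ v i => app (f i) (vr (k v) 0)) :=
  ⟨fun i => haveI : In (M : Set V) (f i) := ⟨hf i⟩; inferInstance⟩

include hE hA in
theorem eb_sat (φ : Fo) {f : ℕ → V} (hf : ∀ i, f i ∈ M) :
    ZFSet.sep (fun u => Sat1 (M : Set V) φ (fun i => app (f i) u)) (extK E) ∈ dom E :=
  haveI := eb_uv hf (fun v => v)
  eb_sep hE hA _

include hE hA in
theorem eb_refl {c g : V} (hc : c ∈ extZ E) (hg : g ∈ M) : tEqP E (pair c g) (pair c g) := by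
  rw [tEqP, fst_pair, snd_pair]
  refine hE.mono hE.idE.1 (eb_relE hE hA hg hg) (fun t ht => ?_) (eb_id hE hc)
  obtain ⟨x, hx, y, -, rfl, rfl⟩ := mem_rel.1 ht
  exact pair_mem_rel.2 ⟨hx, hx, rfl⟩

include hE hA in
theorem eb_los (φ : Fo) : ∀ c ∈ extZ E, ∀ (f v : ℕ → V), (∀ i, f i ∈ M) →
    (∀ i, v i ∈ tD E M M) → (∀ i, tEqP E (pair c (f i)) (v i)) →
    (SatR (tD E M M : Set V) (fun p q => pair p q ∈ tMem E M M) (tEqP E) φ v ↔
      c ∈ app E (ZFSet.sep (fun u => Sat1 (M : Set V) φ (fun i => app (f i) u)) (extK E))) := by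
  have hK := eb_K hE hA
  haveI : In (M : Set V) (extK E) := ⟨hK⟩
  induction φ with
  | mem i j =>
    intro c hc f v hf hv h
    have hi := eb_tD (hv i)
    have hj := eb_tD (hv j)
    have e : pair (v i) (v j) ∈ tMem E M M ↔ tMemP E (v i) (v j) :=
      pair_mem_rel.trans ⟨fun k => k.2.2, fun k => ⟨hv i, hv j, k⟩⟩
    refine e.trans (eb_tri hE (eb_relE hE hA (hf i) hi.2.1) (eb_relE hE hA (hf j) hj.2.1)
      (eb_relM hE hA hi.2.1 hj.2.1) (eb_sat hE hA _ hf) hi.1 hj.1 hc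
      (by simpa only [tEqP, fst_pair, snd_pair] using h i)
      (by simpa only [tEqP, fst_pair, snd_pair] using h j) fun u hu x hx y hy k1 k2 => ?_)
    rw [pair_mem_rel] at k1 k2 ⊢
    rw [mem_sep, Sat1, k1.2.2, k2.2.2]
    exact ⟨fun k => ⟨hu, k.2.2⟩, fun k => ⟨hx, hy, k.2⟩⟩
  | eq i j =>
    intro c hc f v hf hv h
    have hi := eb_tD (hv i)
    have hj := eb_tD (hv j)
    refine eb_tri hE (eb_relE hE hA (hf i) hi.2.1) (eb_relE hE hA (hf j) hj.2.1)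
      (eb_relE hE hA hi.2.1 hj.2.1) (eb_sat hE hA _ hf) hi.1 hj.1 hc
      (by simpa only [tEqP, fst_pair, snd_pair] using h i)
      (by simpa only [tEqP, fst_pair, snd_pair] using h j) fun u hu x hx y hy k1 k2 => ?_
    rw [pair_mem_rel] at k1 k2 ⊢
    rw [mem_sep, Sat1, k1.2.2, k2.2.2]
    exact ⟨fun k => ⟨hu, k.2.2⟩, fun k => ⟨hx, hy, k.2⟩⟩
  | neg φ ih =>
    intro c hc f v hf hv h
    have e : ZFSet.sep (fun u => Sat1 (M : Set V) φ.neg (fun i => app (f i) u)) (extK E) =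
        extK E \ ZFSet.sep (fun u => Sat1 (M : Set V) φ (fun i => app (f i) u)) (extK E) := by
      ext u
      simp only [mem_sep, mem_sdiff, Sat1]
      tauto
    rw [e, (hE.diff _ hE.K_mem_dom _ (eb_sat hE hA φ hf)).2, mem_sdiff, ← ih c hc f v hf hv h]
    exact (and_iff_right hc).symm
  | and φ ψ ih1 ih2 =>
    intro c hc f v hf hv h
    have e : ZFSet.sep (fun u => Sat1 (M : Set V) (φ.and ψ) (fun i => app (f i) u)) (extK E) =
        ZFSet.sep (fun u => Sat1 (M : Set V) φ (fun i => app (f i) u)) (extK E) ∩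
        ZFSet.sep (fun u => Sat1 (M : Set V) ψ (fun i => app (f i) u)) (extK E) := by
      ext u
      simp only [mem_sep, mem_inter, Sat1]
      tauto
    rw [e, (hE.inter (eb_sat hE hA φ hf) (eb_sat hE hA ψ hf)).2, mem_inter,
      ← ih1 c hc f v hf hv h, ← ih2 c hc f v hf hv h]
    rfl
  | ex φ ih =>
    intro c hc f v hf hv h
    constructor
    · rintro ⟨p, hp, k⟩
      obtain ⟨hb, hg, -, -⟩ := eb_tD hp
      haveI : In (M : Set V) (snd p) := ⟨hg⟩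
      have hf' : ∀ i, cons (lam (extK E) fun u => app (snd p) (snd u))
          (fun i => lam (extK E) fun u => app (f i) (fst u)) i ∈ M :=
        cons_mem (M := (M : Set V)) (memV_of (M : Set V) _) fun i =>
          haveI : In (M : Set V) (f i) := ⟨hf i⟩
          memV_of (M : Set V) _
      have k2 := (ih _ (eb_pZ hE hc hb) _ _ hf' (cons_mem (M := (tD E M M : Set V)) hp hv)
        fun i => ?_).1 k
      · have hX := eb_sat hE hA φ.ex hf
        rw [← eb_fst hE hX hb]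
        refine eb_imp hE (eb_sat hE hA φ hf') (hE.prod _ hE.K_mem_dom _ hE.K_mem_dom).1
          (hE.prod _ hX _ hE.K_mem_dom).1 k2 (eb_KK hE hc hb) fun t ht k3 => ?_
        obtain ⟨x, hx, y, hy, rfl⟩ := mem_prod.1 k3
        obtain ⟨t1, t2⟩ := mem_sep.1 ht
        refine pair_mem_prod.2 ⟨mem_sep.2 ⟨hx, app (snd p) y, IsZ.app_mem _ hg _, ?_⟩, hy⟩
        convert t2 using 1
        funext i
        cases i with
        | zero => rw [cons_zero, cons_zero, app_lam _ t1, snd_pair]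
        | succ i => rw [cons_succ, cons_succ, app_lam _ t1, fst_pair]
      · cases i with
        | zero =>
          obtain ⟨e1, e2, e3⟩ := eb23_spec hE hE.idE.1
          rw [tEqP, fst_pair, snd_pair]
          refine hE.mono e1 (eb_relE hE hA (hf' 0) hg) (fun t ht => ?_)
            ((e3 c hc _ hb _ hb).2 (eb_id hE hb))
          obtain ⟨x, hx, y, hy, z, hz, rfl, k3⟩ := (e2 t).1 ht
          refine pair_mem_rel.2 ⟨eb_pK hE hx hy, hz, ?_⟩
          rw [cons_zero, app_lam _ (eb_pK hE hx hy), snd_pair, (pair_mem_rel.1 k3).2.2]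
        | succ i =>
          have hi := eb_tD (hv i)
          obtain ⟨e1, e2, e3⟩ := eb13_spec hE (eb_relE hE hA (hf i) hi.2.1)
          rw [tEqP, fst_pair, snd_pair]
          refine hE.mono e1 (eb_relE hE hA (hf' (i + 1)) hi.2.1) (fun t ht => ?_)
            ((e3 c hc _ hb _ hi.1).2 (by simpa only [tEqP, fst_pair, snd_pair] using h i))
          obtain ⟨x, hx, y, hy, z, hz, rfl, k3⟩ := (e2 t).1 ht
          refine pair_mem_rel.2 ⟨eb_pK hE hx hy, hz, ?_⟩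
          rw [cons_succ, app_lam _ (eb_pK hE hx hy), fst_pair, (pair_mem_rel.1 k3).2.2]
    · intro k
      haveI := eb_uv hf (fun v => tl v)
      haveI := eb_uv hf (fun v => tl (tl v))
      obtain ⟨g, hg, g1, g2, g3⟩ := choice_fn (M : Set V)
        (fun u y => (∃ z ∈ (M : Set V), Sat1 (M : Set V) φ (cons z fun i => app (f i) u)) →
          Sat1 (M : Set V) φ (cons y fun i => app (f i) u)) hK fun u _ => by
          by_cases hz : ∃ z ∈ (M : Set V), Sat1 (M : Set V) φ (cons z fun i => app (f i) u)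
          · obtain ⟨z, z1, z2⟩ := hz
            exact ⟨z, z1, fun _ => z2⟩
          · exact ⟨∅, IsZ.empty_mem _, fun h => absurd h hz⟩
      have hp : pair c g ∈ tD E M M :=
        pair_mem_rel.2 ⟨hc, hg, isFunc_iff.2 ⟨g1, g2, fun x _ => IsZ.app_mem _ hg x⟩⟩
      have hf' := cons_mem (M := (M : Set V)) hg hf
      refine ⟨_, hp, (ih c hc _ _ hf' (cons_mem (M := (tD E M M : Set V)) hp hv)
        fun i => ?_).2 (hE.mono (eb_sat hE hA φ.ex hf) (eb_sat hE hA φ hf') (fun u hu => ?_) k)⟩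
      · cases i with
        | zero => exact eb_refl hE hA hc hg
        | succ i => exact h i
      · obtain ⟨u1, u2⟩ := mem_sep.1 hu
        refine mem_sep.2 ⟨u1, ?_⟩
        convert g3 u u1 u2 using 1
        funext i
        cases i <;> rfl
end eb

/-- Los theorem for the term model (no well-foundedness needed) -/
theorem los {M E : V} (hE : IsExt E) [IsT (M : Set V)] (hA : Agr M E) (φ : Fo) {a : V}
    (ha : a ∈ extZ E) (f : ℕ → V) (hf : ∀ i, f i ∈ M ∧ IsFunc (extK E) M (f i)) :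
    SatR (tD E M M : Set V) (fun p q => pair p q ∈ tMem E M M) (tEqP E) φ
        (fun i => pair a (f i)) ↔
      a ∈ app E (ZFSet.sep (fun u => Sat1 (M : Set V) φ (fun i => app (f i) u)) (extK E)) :=
  eb_los hE hA φ a ha f _ (fun i => (hf i).1) (fun i => pair_mem_rel.2 ⟨ha, hf i⟩)
    fun i => eb_refl hE hA ha (hf i).1

section eb2
variable {M E : V} (hE : IsExt E) [IsT (M : Set V)] (hA : Agr M E)
include hE hA

theorem eb_cst {x : V} (hx : x ∈ M) :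
    lam (extK E) (fun _ => x) ∈ M ∧ IsFunc (extK E) M (lam (extK E) fun _ => x) :=
  haveI : In (M : Set V) (extK E) := ⟨eb_K hE hA⟩
  haveI : In (M : Set V) x := ⟨hx⟩
  ⟨memV_of (M : Set V) _, isFunc_lam fun _ _ => hx⟩

theorem eb_idf : lam (extK E) (fun x => x) ∈ M ∧ IsFunc (extK E) M (lam (extK E) fun x => x) :=
  haveI : In (M : Set V) (extK E) := ⟨eb_K hE hA⟩
  ⟨memV_of (M : Set V) _, isFunc_lam fun x hx => IsZ.trans (M := (M : Set V)) _ (eb_K hE hA) x hx⟩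

theorem eb_const (φ : Fo) {a : V} (ha : a ∈ extZ E) {v : ℕ → V} (hv : ∀ i, v i ∈ M) :
    SatR (tD E M M : Set V) (fun p q => pair p q ∈ tMem E M M) (tEqP E) φ
      (fun i => pair a (lam (extK E) fun _ => v i)) ↔ Sat1 (M : Set V) φ v := by
  rw [los hE hA φ ha _ fun i => eb_cst hE hA (hv i)]
  have e : ∀ u ∈ extK E, (fun i => app (lam (extK E) fun _ => v i) u) = v := fun u hu =>
    funext fun i => app_lam _ hu
  by_cases h : Sat1 (M : Set V) φ v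
  · rw [show ZFSet.sep _ (extK E) = extK E from ZFSet.ext fun u =>
      mem_sep.trans (and_iff_left_of_imp fun hu => by rw [e u hu]; exact h)]
    exact iff_of_true ha h
  · rw [show ZFSet.sep _ (extK E) = ∅ from (ZFSet.eq_empty _).2 fun u hu =>
      h (e u (mem_sep.1 hu).1 ▸ (mem_sep.1 hu).2), hE.app_empty]
    exact iff_of_false (notMem_empty _) h

theorem eb_col (hwf : UWF M E) :
    (∀ x ∈ tD E M M, ∀ y ∈ tD E M M, (col (tMem E M M) x = col (tMem E M M) y ↔ tEqP E x y)) ∧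
    (∀ x ∈ tD E M M, ∀ y ∈ tD E M M,
      (col (tMem E M M) x ∈ col (tMem E M M) y ↔ pair x y ∈ tMem E M M)) ∧
    ∀ (φ : Fo) (v : ℕ → V), (∀ i, v i ∈ tD E M M) →
      (Sat1 (ult M E : V) φ (col (tMem E M M) ∘ v) ↔
        SatR (tD E M M : Set V) (fun x y => pair x y ∈ tMem E M M) (tEqP E) φ v) := by
  have key := fun φ => (eb_const hE hA φ (eb_empty hE).2
    (v := fun _ => ∅) fun _ => IsZ.empty_mem (M : Set V)).2
  refine collapse (fun x y h => ⟨(pair_mem_rel.1 h).1, (pair_mem_rel.1 h).2.1⟩) hwf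
    (fun x hx => ?_) (fun x hx y hy h => ?_) (fun x hx x' hx' y hy h k => ?_)
    (fun x hx y hy y' hy' h k => ?_) fun x hx y hy h => ?_
  · rw [(eb_tD hx).2.2.2]
    exact eb_refl hE hA (eb_tD hx).1 (eb_tD hx).2.1
  · by_contra hn
    refine key (.neg (.ex (.ex (.and (.eq 1 0) (.neg (.eq 0 1)))))) ?_ ⟨x, hx, y, hy, h, hn⟩
    rintro ⟨a, -, b, -, h1, h2⟩
    exact h2 h1.symm
  · by_contra hn
    refine key (.neg (.ex (.ex (.ex (.and (.eq 2 1) (.and (.mem 2 0) (.neg (.mem 1 0)))))))) ?_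
      ⟨x, hx, x', hx', y, hy, h, k, hn⟩
    rintro ⟨a, -, b, -, c, -, h1, h2, h3⟩
    have h4 : a = b := h1
    exact h3 (show b ∈ c from h4 ▸ h2)
  · by_contra hn
    refine key (.neg (.ex (.ex (.ex (.and (.eq 1 0) (.and (.mem 2 1) (.neg (.mem 2 0)))))))) ?_
      ⟨x, hx, y, hy, y', hy', h, k, hn⟩
    rintro ⟨a, -, b, -, c, -, h1, h2, h3⟩
    have h4 : b = c := h1
    exact h3 (show a ∈ c from h4 ▸ h2)
  · by_contra hn
    refine key (.neg (.ex (.ex (.and (.neg (.eq 1 0)) (.and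
      (.neg (.ex (.and (.mem 0 2) (.neg (.mem 0 1)))))
      (.neg (.ex (.and (.mem 0 1) (.neg (.mem 0 2)))))))))) ?_
      ⟨x, hx, y, hy, hn, fun ⟨z, hz, k1, k2⟩ => k2 ((h z hz).1 k1),
        fun ⟨z, hz, k1, k2⟩ => k2 ((h z hz).2 k1)⟩
    rintro ⟨a, ha, b, hb, h1, h2, h3⟩
    refine h1 (show a = b from ZFSet.ext fun z => ⟨fun k => ?_, fun k => ?_⟩)
    · exact by_contra fun k2 => h2 ⟨z, IsZ.trans _ ha z k, k, k2⟩
    · exact by_contra fun k2 => h3 ⟨z, IsZ.trans _ hb z k, k, k2⟩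

theorem eb_col_id (hwf : UWF M E) (a : V) : a ∈ extZ E →
    col (tMem E M M) (pair a (lam (extK E) fun x => x)) = a := by
  obtain ⟨c1, c2, -⟩ := eb_col hE hA hwf
  have hid := eb_idf hE hA
  have hD : ∀ b ∈ extZ E, pair b (lam (extK E) fun x => x) ∈ tD E M M := fun b hb =>
    pair_mem_rel.2 ⟨hb, hid⟩
  haveI : In (M : Set V) (extK E) := ⟨eb_K hE hA⟩
  induction a using ZFSet.inductionOn with
  | h a ih =>
    intro ha
    refine ZFSet.ext fun z => ⟨fun hz => ?_, fun hz => ?_⟩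
    · obtain ⟨p, hp, rfl⟩ := (mem_col (WF.accP hwf _)).1 hz
      obtain ⟨p1, -, p2⟩ := pair_mem_rel.1 hp
      obtain ⟨hc, hg, -, -⟩ := eb_tD p1
      rw [tMemP, fst_pair, snd_pair] at p2
      haveI : In (M : Set V) (snd p) := ⟨hg⟩
      classical
      have f1 : IsFunc (extK E) (extK E)
          (lam (extK E) fun u => if app (snd p) u ∈ extK E then app (snd p) u else ∅) :=
        isFunc_lam fun u _ => by
          split_ifs with h
          · exact h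
          · exact (eb_empty hE).1
      have f2 : (lam (extK E) fun u => if app (snd p) u ∈ extK E then app (snd p) u else ∅) ∈
          dom E := (eb_dom hE hA).2 ⟨memV_of (M : Set V) _, fun t ht =>
        (hE.mem_dom.1 (hE.prod _ hE.K_mem_dom _ hE.K_mem_dom).1).2 (f1.1 ht)⟩
      have f3 := fun u hu => app_lam (a := extK E) (x := u)
        (fun u => if app (snd p) u ∈ extK E then app (snd p) u else ∅) hu
      have f4 := fun u y => pair_mem_lam (a := extK E) (x := u) (y := y)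
        (f := fun u => if app (snd p) u ∈ extK E then app (snd p) u else ∅)
      have f5 := (isFunc_iff.1 f1).1.1
      generalize (lam (extK E) fun u => if app (snd p) u ∈ extK E then app (snd p) u else ∅) = f
        at f1 f2 f3 f4 f5
      haveI : In (M : Set V) f := ⟨((eb_dom hE hA).1 f2).1⟩
      have r1 := eb_relM hE hA hg hid.1
      obtain ⟨b, hb, k, -⟩ := hE.norm f f2 f1 _ hc a ha
        (hE.mono r1 (eb_rel hE hA _) (fun t ht => by
          obtain ⟨u, hu, v, hv, rfl, k⟩ := mem_rel.1 ht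
          rw [app_lam _ hv] at k
          refine pair_mem_rel.2 ⟨hu, hv, ?_⟩
          rw [f3 u hu, if_pos (hE.K_trans _ hv k)]
          exact rank_lt_of_mem k) p2)
      have s1 := eb_sep hE hA fun u => app (snd p) u ∈ extK E
      have s2 := (hE.prod _ s1 _ hE.K_mem_dom).1
      have k1 := (eb_fst hE s1 ha).1 (hE.mono r1 s2 (fun t ht => by
        obtain ⟨u, hu, v, hv, rfl, k⟩ := mem_rel.1 ht
        rw [app_lam _ hv] at k
        exact pair_mem_prod.2 ⟨mem_sep.2 ⟨hu, hE.K_trans _ hv k⟩, hv⟩) p2)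
      have r2 := eb_relE hE hA hg hid.1
      have k2 := eb_imp hE f2 s2 r2 k ((eb_fst hE s1 hb).2 k1) fun t ht k3 => by
        obtain ⟨u, hu, v, hv, rfl⟩ := mem_prod.1 k3
        refine pair_mem_rel.2 ⟨(mem_sep.1 hu).1, hv, ?_⟩
        rw [app_lam _ hv, ((f4 u v).1 ht).2, if_pos (mem_sep.1 hu).2]
      have k3 := (eb_tri hE r2 r1 hE.memE.1 hE.K_mem_dom hb ha hc k2 p2
        fun u hu v hv w hw t1 t2 => iff_of_true (by
          have t3 := (pair_mem_rel.1 t1).2.2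
          have t4 := (pair_mem_rel.1 t2).2.2
          rw [app_lam _ hv] at t3
          rw [app_lam _ hw, t3] at t4
          exact pair_mem_rel.2 ⟨hv, hw, t4⟩) hu).2 hc
      rw [hE.memE.2] at k3
      have k4 := (z4c_memR.1 k3).2.2
      rw [(c1 p p1 _ (hD b hb)).2 (by rw [tEqP, fst_pair, snd_pair]; exact k2), ih b k4 hb]
      exact k4
    · have hb := hE.trans _ ha hz
      rw [← ih z hz hb, c2 _ (hD z hb) _ (hD a ha)]
      refine pair_mem_rel.2 ⟨hD z hb, hD a ha, ?_⟩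
      rw [tMemP, fst_pair, snd_pair, fst_pair, snd_pair]
      refine hE.mono hE.memE.1 (eb_relM hE hA hid.1 hid.1) (fun t ht => ?_)
        (by rw [hE.memE.2]; exact z4c_memR.2 ⟨hb, ha, hz⟩)
      obtain ⟨u, hu, v, hv, rfl, k⟩ := mem_rel.1 ht
      refine pair_mem_rel.2 ⟨hu, hv, ?_⟩
      rwa [app_lam _ hu, app_lam _ hv]

theorem eb_col_cst (hwf : UWF M E) {a x : V} (ha : a ∈ extZ E) (hx : x ∈ M) :
    col (tMem E M M) (pair a (lam (extK E) fun _ => x)) = app (ultMap M E) x := by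
  have hc := eb_cst hE hA hx
  rw [ultMap, app_lam _ hx, (eb_col hE hA hwf).1 _ (pair_mem_rel.2 ⟨ha, hc⟩) _
    (pair_mem_rel.2 ⟨(eb_empty hE).2, hc⟩), tEqP, fst_pair, snd_pair, fst_pair, snd_pair]
  refine hE.mono (hE.prod _ hE.K_mem_dom _ hE.K_mem_dom).1 (eb_relE hE hA hc.1 hc.1)
    (fun t ht => ?_) (eb_KK hE ha (eb_empty hE).2)
  obtain ⟨u, hu, v, hv, rfl⟩ := mem_prod.1 ht
  exact pair_mem_rel.2 ⟨hu, hv, by rw [app_lam _ hu, app_lam _ hv]⟩
end eb2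

theorem isUlt_ult {M E : V} (hE : IsExt E) [IsT (M : Set V)] (hA : Agr M E) (hwf : UWF M E) :
    IsUlt M E (ult M E) (ultMap M E) ∧
      ∀ a ∈ extZ E, ∀ f ∈ M, IsFunc (extK E) M f →
        col (tMem E M M) (pair a f) = app (app (ultMap M E) f) a := by
  obtain ⟨c1, c2, c3⟩ := eb_col hE hA hwf
  have h0 := (eb_empty hE).2
  have hid := eb_idf hE hA
  have ht : (ult M E).IsTransitive := col_trans hwf fun x _ y h => (pair_mem_rel.1 h).1
  have he : IsElem (ultMap M E) M (ult M E) := Elem.isElem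
    ⟨fun x hx => mem_img.2 ⟨_, pair_mem_rel.2 ⟨h0, eb_cst hE hA hx⟩, rfl⟩, fun φ v hv =>
      ((c3 φ _ fun i => pair_mem_rel.2 ⟨h0, eb_cst hE hA (hv i)⟩).trans
        (eb_const hE hA φ h0 hv)).symm⟩
  haveI : IsZ (ult M E : Set V) := he.elem.isZ_right fun x hx y hy => ht x hx hy
  have key : ∀ a ∈ extZ E, ∀ f ∈ M, IsFunc (extK E) M f →
      col (tMem E M M) (pair a f) = app (app (ultMap M E) f) a := fun a ha f hf hF => by
    obtain ⟨φ, c, hc, H⟩ := (inferInstance :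
      UD pZ (fun _ v => vr v 0 = app (vr v 1) (vr v 2))).out
    obtain rfl : c = fun _ => ∅ := funext hc
    have hz := IsZ.empty_mem (M : Set V)
    let g : ℕ → V := mrg (cons f (cons (lam (extK E) fun _ => f) fun _ => lam (extK E) fun x => x))
      fun _ => lam (extK E) fun _ => ∅
    have hg : ∀ i, g i ∈ M ∧ IsFunc (extK E) M (g i) :=
      mrg_mem (M := {x | x ∈ M ∧ IsFunc (extK E) M x})
        (cons_mem ⟨hf, hF⟩ (cons_mem (eb_cst hE hA hf) fun _ => hid)) fun _ => eb_cst hE hA hz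
    have h1 := (c3 φ _ fun i => pair_mem_rel.2 ⟨ha, hg i⟩).2 ((los hE hA φ ha g hg).2
      (hE.mono hE.K_mem_dom (eb_sat hE hA φ fun i => (hg i).1) (fun u hu => mem_sep.2 ⟨hu, ?_⟩) ha))
    · have h2 := (H (ult M E : Set V) (inferInstance : IsZ (ult M E : Set V)) (cons (col (tMem E M M) (pair a f))
        (cons (app (ultMap M E) f) fun _ => a))
        (cons_mem (mem_img.2 ⟨_, pair_mem_rel.2 ⟨ha, hf, hF⟩, rfl⟩) (cons_mem (he.elem.1 f hf)
          fun _ => mem_img.2 ⟨_, pair_mem_rel.2 ⟨ha, hid⟩, eb_col_id hE hA hwf a ha⟩))).2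
      refine h2 ?_
      convert h1 using 1
      funext i
      simp only [g, mrg, Function.comp]
      split_ifs
      · rcases i / 2 with _ | _ | i
        · rfl
        · exact (eb_col_cst hE hA hwf ha hf).symm
        · exact (eb_col_id hE hA hwf a ha).symm
      · rw [eb_col_cst hE hA hwf ha hz, he.elem.map_empty]
    · have hu' := IsZ.trans (M := (M : Set V)) _ (eb_K hE hA) u hu
      have h2 := (H (M : Set V) (inferInstance : IsZ (M : Set V)) (cons (app f u) (cons f fun _ => u))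
        (cons_mem (IsZ.app_mem _ hf u) (cons_mem hf fun _ => hu'))).1 rfl
      convert h2 using 1
      funext i
      simp only [g, mrg]
      split_ifs
      · rcases i / 2 with _ | _ | i
        · rfl
        · exact app_lam (fun _ => f) hu
        · exact app_lam (fun x => x) hu
      · exact app_lam (fun _ => ∅) hu
  refine ⟨⟨hE, inferInstance, hA, ht, he, fun a ha => mem_img.2
    ⟨_, pair_mem_rel.2 ⟨ha, hid⟩, eb_col_id hE hA hwf a ha⟩, fun X hX => ZFSet.ext fun a => ?_,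
    fun y hy => ?_⟩, key⟩
  · obtain ⟨X1, X2⟩ := (eb_dom hE hA).1 hX
    have hc := eb_cst hE hA X1
    rw [mem_inter, ← and_iff_left_of_imp fun h : a ∈ app E X => hE.sub X hX h]
    refine and_congr_left fun ha => ?_
    have e : rel (extK E) (extK E) (fun u v => app (lam (extK E) fun x => x) u ∈
        app (lam (extK E) fun _ => X) v) = prod X (extK E) := ZFSet.ext fun t => by
      rw [mem_rel, mem_prod]
      constructor
      · rintro ⟨u, hu, v, hv, rfl, k⟩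
        rw [app_lam _ hu, app_lam _ hv] at k
        exact ⟨u, k, v, hv, rfl⟩
      · rintro ⟨u, hu, v, hv, rfl⟩
        exact ⟨u, X2 hu, v, hv, rfl, by rwa [app_lam _ (X2 hu), app_lam _ hv]⟩
    have k := c2 _ (pair_mem_rel.2 ⟨ha, hid⟩) _ (pair_mem_rel.2 ⟨h0, hc⟩)
    rw [eb_col_id hE hA hwf a ha, eb_col_cst hE hA hwf h0 X1, tMem, pair_mem_rel, tMemP, fst_pair,
      snd_pair, fst_pair, snd_pair, e, eb_fst hE hX h0] at k
    exact ⟨fun h => k.2 ⟨pair_mem_rel.2 ⟨ha, hid⟩, pair_mem_rel.2 ⟨h0, hc⟩, h⟩,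
      fun h => (k.1 h).2.2⟩
  · obtain ⟨p, hp, rfl⟩ := mem_img.1 hy
    obtain ⟨p1, p2, p3, p4⟩ := eb_tD hp
    exact ⟨_, p1, _, p2, p3, by rw [← key _ p1 _ p2 p3, ← p4]⟩
-- JOB B END

-- JOB C BEGIN
/-- a relation that is the pull-back of membership along a map with transitive image -/
theorem ec_col {D R : V} (π : V → V) (hR : ∀ p q, pair p q ∈ R ↔ p ∈ D ∧ q ∈ D ∧ π p ∈ π q)
    (hs : ∀ p ∈ D, ∀ z ∈ π p, ∃ q ∈ D, π q = z) : WF R ∧ ∀ p ∈ D, col R p = π p := by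
  have hwf : WF R := Subrelation.wf (fun k => ((hR _ _).1 k).2.2) (InvImage.wf π mem_wf)
  refine ⟨hwf, fun p => ?_⟩
  induction p using WellFounded.induction hwf with
  | _ p ih =>
    intro hp
    refine ZFSet.ext fun z => (mem_col (hwf.accP p)).trans ⟨?_, fun hz => ?_⟩
    · rintro ⟨y, hy, rfl⟩
      rw [ih y hy ((hR _ _).1 hy).1]
      exact ((hR _ _).1 hy).2.2
    · obtain ⟨q, hq, rfl⟩ := hs p hp z hz
      have k := (hR q p).2 ⟨hq, hp, hz⟩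
      exact ⟨q, k, ih q k hq⟩

theorem ec_UE_trans {E : V} (h : WFE E) : (UE E).IsTransitive :=
  col_trans h fun _ _ _ hy => (pair_mem_rel.1 hy).1

theorem ec_rel {a b : V} {P : V → V → Prop} : rel a b P ⊆ prod a b := sep_subset

theorem ec_pair {K x y : V} (h : ∀ x ∈ K, ∀ y ∈ K, ({x, y} : V) ∈ K) (hx : x ∈ K) (hy : y ∈ K) :
    pair x y ∈ K := h _ (by simpa using h x hx x hx) _ (h x hx y hy)

theorem ec_prod {K : V} (h : ∀ x ∈ K, ∀ y ∈ K, ({x, y} : V) ∈ K) : prod K K ⊆ K := fun p hp => by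
  obtain ⟨x, hx, y, hy, rfl⟩ := mem_prod.1 hp
  exact ec_pair h hx hy

theorem ec_rank_tD {E : V} {o : Ordinal.{0}} (ho : Order.IsSuccLimit o) (h : E.rank < o) :
    (tD E (dom E) (extK E)).rank < o := by
  refine lt_of_le_of_lt (rank_le_iff.2 fun p hp => ?_) (ho.add_natCast_lt h 2)
  obtain ⟨x, hx, y, hy, rfl, -⟩ := mem_rel.1 hp
  have h1 : x.rank < E.rank := (rank_lt_of_mem hx).trans_le (rank_app_le _ _)
  have h2 : y.rank < E.rank := (rank_lt_of_mem hy).trans_le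
    ((rank_mono sep_subset).trans ((rank_sUnion_le _).trans (rank_sUnion_le _)))
  rw [rank_zpair, Nat.cast_ofNat, ← one_add_one_eq_two, ← add_assoc, ← add_assoc]
  exact Order.lt_add_one_iff.2 (Order.add_one_le_iff.2 (Order.lt_add_one_iff.2
    (Order.add_one_le_iff.2 (max_lt h1 h2))))

namespace IsUlt
variable {M E Q i : V} (h : IsUlt M E Q i)
include h
theorem isT_right : IsT (Q : Set V) :=
  haveI := h.isT
  h.elem.elem.isT_right fun x hx _ hy => h.trans x hx hy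
theorem ec_agr {x : V} (hr : x.rank ≤ crit E) : x ∈ M ↔ x ∈ extZ E := by
  have := ZFSet.ext_iff.1 h.agr x
  simpa only [mem_cut, Order.lt_add_one_iff, hr, and_true] using this
theorem K_mem : extK E ∈ M := (h.ec_agr le_rfl).2 h.ext.memK
theorem K_eq : extK E = cut M (crit E) := ZFSet.ext fun x => by
  rw [h.ext.mem_K, mem_cut]
  exact and_congr_left fun k => (h.ec_agr k.le).symm
theorem crit_mem : (crit E).toZFSet ∈ M :=
  haveI := h.isT
  IsZ.rank_mem (M : Set V) h.K_mem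
theorem dom_eq : dom E = pw (M : Set V) (extK E) := ZFSet.ext fun x => by
  rw [h.ext.mem_dom, mem_pw]
  exact and_congr_left fun k => (h.ec_agr (rank_mono k)).symm
theorem ec_dom {X : V} (hX : X ∈ M) (hs : X ⊆ extK E) : X ∈ dom E :=
  h.dom_eq ▸ mem_pw.2 ⟨hX, hs⟩
theorem ec_domM {X : V} (hX : X ∈ dom E) : X ∈ M := (mem_pw.1 (h.dom_eq ▸ hX)).1
theorem ec_sub : extZ E ⊆ app i (extK E) := fun x hx => by
  have e : extZ E = app i (extK E) ∩ extZ E := h.val _ h.ext.K_mem_dom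
  exact (ZFSet.mem_inter.1 (e ▸ hx)).1
theorem ec_empty : (∅ : V) ∈ extK E := by
  haveI := h.isT
  rw [h.K_eq]
  exact mem_cut.2 ⟨IsZ.empty_mem (M : Set V), by
    rw [rank_empty]; exact omega0_pos.trans h.ext.omega_lt_crit⟩
theorem ec_jK {y : V} : y ∈ app i (extK E) ↔ y ∈ Q ∧ y.rank < jm (app i) (crit E) := by
  haveI := h.isT
  haveI := h.isT_right
  have k := (h.elem.elem.iff2 pZ (fun N (K : V) (o : Ordinal.{0}) => K = Vs N o) (a := extK E)
    (b := crit E) h.K_mem h.crit_mem).1 (h.K_eq.trans (Vs_coe _ _).symm)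
  rw [jm_V] at k
  rw [k, mem_Vs]
  rfl
theorem ec_val {X a b : V} (hX : X ∈ M) (hs : X ⊆ prod (extK E) (extK E)) (ha : a ∈ extZ E)
    (hb : b ∈ extZ E) : pair a b ∈ app E X ↔ pair a b ∈ app i X := by
  rw [h.val X (h.ec_dom hX (hs.trans (ec_prod h.ext.pairK))), ZFSet.mem_inter]
  exact and_iff_left (ec_pair h.ext.pairZ ha hb)
theorem ec_memP {a b f g : V} (ha : a ∈ extZ E) (hb : b ∈ extZ E) (hf : f ∈ M) (hg : g ∈ M) :
    tMemP E (pair a f) (pair b g) ↔ app (app i f) a ∈ app (app i g) b := by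
  haveI := h.isT
  haveI := h.isT_right
  haveI : In (M : Set V) (extK E) := ⟨h.K_mem⟩
  haveI : In (M : Set V) f := ⟨hf⟩
  haveI : In (M : Set V) g := ⟨hg⟩
  have k := h.elem.elem.map3 pZ
    (fun _ (K f g : V) => rel K K fun u v => app f u ∈ app g v) (a := extK E) h.K_mem hf hg
  simp only [jm_V] at k
  simp only [tMemP, fst_pair, snd_pair]
  rw [h.ec_val (X := rel _ _ fun u v => app f u ∈ app g v) (memV_of (M : Set V) _) ec_rel ha hb, k,
    pair_mem_rel]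
  exact ⟨fun k => k.2.2, fun k => ⟨h.ec_sub ha, h.ec_sub hb, k⟩⟩
theorem ec_tMem {S R : V} (hS : S ⊆ M) (p q : V) : pair p q ∈ tMem E S R ↔ p ∈ tD E S R ∧
    q ∈ tD E S R ∧ app (app i (snd p)) (fst p) ∈ app (app i (snd q)) (fst q) := by
  rw [tMem, pair_mem_rel]
  refine and_congr_right fun hp => and_congr_right fun hq => ?_
  obtain ⟨a, ha, f, hf, rfl, -⟩ := mem_rel.1 hp
  obtain ⟨b, hb, g, hg, rfl, -⟩ := mem_rel.1 hq
  simpa only [fst_pair, snd_pair] using h.ec_memP ha hb (hS hf) (hS hg)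
theorem ec_memQ {f : V} (hf : f ∈ M) (a : V) : app (app i f) a ∈ Q :=
  haveI := h.isT_right
  IsZ.app_mem (Q : Set V) (h.elem.elem.1 f hf) a
theorem ec_gen {y : V} : y ∈ Q ↔ ∃ p ∈ tD E M M, app (app i (snd p)) (fst p) = y := by
  constructor
  · intro hy
    obtain ⟨a, ha, f, hf, k, rfl⟩ := h.gen y hy
    exact ⟨pair a f, pair_mem_rel.2 ⟨ha, hf, k⟩, by simp⟩
  · rintro ⟨p, hp, rfl⟩
    obtain ⟨a, -, f, hf, rfl, -⟩ := mem_rel.1 hp
    rw [snd_pair]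
    exact h.ec_memQ hf _
theorem unique : UWF M E ∧ Q = ult M E ∧ i = ultMap M E := by
  haveI := h.isT
  haveI := h.isT_right
  obtain ⟨h1, h2⟩ := ec_col (D := tD E M M) (fun p => app (app i (snd p)) (fst p))
    (h.ec_tMem (R := M) subset_rfl) fun p hp z hz =>
      h.ec_gen.1 (h.trans _ (h.ec_gen.2 ⟨p, hp, rfl⟩) hz)
  refine ⟨h1, ZFSet.ext fun y => h.ec_gen.trans ?_, ?_⟩
  · rw [ult, mem_img]
    exact exists_congr fun p => and_congr_right fun hp => by rw [h2 p hp]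
  obtain ⟨k1, k2, -⟩ := isFunc_iff.1 h.elem.1
  refine k1.ext (isFn_lam _ _) (k2.trans (dom_lam _ _).symm) fun x hx => ?_
  rw [k2] at hx
  haveI : In (M : Set V) (extK E) := ⟨h.K_mem⟩
  haveI : In (M : Set V) x := ⟨hx⟩
  have h0 : (∅ : V) ∈ extZ E := (h.ext.mem_K.1 h.ec_empty).1
  have k := h.elem.elem.map2 pZ (fun _ (K x : V) => lam K fun _ => x) (a := extK E) h.K_mem hx
  simp only [jm_V] at k
  rw [ultMap, app_lam _ hx, h2 _ (pair_mem_rel.2 ⟨h0, memV_of (M : Set V) _,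
    isFunc_lam fun _ _ => hx⟩), fst_pair, snd_pair, k, app_lam _ (h.ec_sub h0)]
theorem fix {x : V} (hx : x ∈ M) (hr : x.rank < crit E) : app i x = x := by
  haveI := h.isT
  haveI := h.isT_right
  have h1 : x ∈ extK E := h.K_eq ▸ mem_cut.2 ⟨hx, hr⟩
  have h2 : ({x} : V) ∈ extK E := by simpa using h.ext.pairK x h1 x h1
  have h3 := h.val _ (h.ext.mem_dom.2 ⟨(h.ext.mem_K.1 h2).1, h.ext.K_trans _ h2⟩)
  have k := h.elem.elem.map1 pZ (fun _ (x : V) => ({x} : V)) hx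
  simp only [jm_V] at k
  rw [h.ext.fix _ h2, k] at h3
  exact (mem_singleton.1 (ZFSet.mem_inter.1 (h3 ▸ mem_singleton.2 rfl)).1).symm
/-- the elements of `i(K)` are represented by functions from `K` to `K` -/
theorem ec_trunc {y : V} (hy : y ∈ app i (extK E)) :
    ∃ a ∈ extZ E, ∃ g ∈ dom E, IsFunc (extK E) (extK E) g ∧ app (app i g) a = y := by
  haveI := h.isT
  haveI := h.isT_right
  obtain ⟨a, ha, f, hf, -, rfl⟩ := h.gen y (h.ec_jK.1 hy).1
  haveI : In (M : Set V) (extK E) := ⟨h.K_mem⟩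
  haveI : In (M : Set V) f := ⟨hf⟩
  classical
  have h1 : IsFunc (extK E) (extK E) (lam (extK E) fun u =>
      if app f u ∈ extK E then app f u else ∅) := isFunc_lam fun u _ => by
    split_ifs with k
    exacts [k, h.ec_empty]
  have k := h.elem.elem.map2 pZ
    (fun _ (K f : V) => lam K fun u => if app f u ∈ K then app f u else ∅) (a := extK E) h.K_mem hf
  simp only [jm_V] at k
  refine ⟨a, ha, _, h.ec_dom (memV_of (M : Set V) _) (h1.1.trans (ec_prod h.ext.pairK)), h1, ?_⟩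
  rw [k, app_lam _ (h.ec_sub ha), if_pos hy]
theorem ec_func {g : V} (hg : g ∈ dom E) (k : IsFunc (extK E) (extK E) g) :
    IsFunc (app i (extK E)) (app i (extK E)) (app i g) :=
  haveI := h.isT
  haveI := h.isT_right
  (h.elem.elem.iff2 pZ (fun _ (K g : V) => IsFunc K K g) (a := extK E) (b := g) h.K_mem
    (h.ec_domM hg)).1 k
theorem cut_len : cut Q (len E) = extZ E := by
  haveI := h.isT
  haveI := h.isT_right
  refine ZFSet.ext fun y => mem_cut.trans ⟨fun ⟨hy, hr⟩ => ?_,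
    fun hy => ⟨h.sub hy, rank_lt_of_mem hy⟩⟩
  obtain ⟨c, hc, h1⟩ := lt_rank_iff.1 hr
  have h2 : ({c} : V) ∈ extZ E := by simpa using h.ext.pairZ c hc c hc
  have h3 : y.rank < ({c} : V).rank := h1.trans_lt (rank_lt_of_mem (mem_singleton.2 rfl))
  obtain ⟨a, ha, g, hg, k, rfl⟩ := h.ec_trunc
    (h.ec_jK.2 ⟨hy, h3.trans (h.ec_jK.1 (h.ec_sub h2)).2⟩)
  haveI : In (M : Set V) (extK E) := ⟨h.K_mem⟩
  haveI : In (M : Set V) g := ⟨h.ec_domM hg⟩
  have e := h.elem.elem.map2 pZ (fun _ (K g : V) => rkRel K g) (a := extK E) (b := g) h.K_mem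
    (h.ec_domM hg)
  simp only [jm_V] at e
  obtain ⟨b, hb, h4, -⟩ := h.ext.norm g hg k a ha _ h2 (by
    rw [h.ec_val (X := rkRel (extK E) g) (memV_of (M : Set V) _) ec_rel ha h2, e]
    exact pair_mem_rel.2 ⟨h.ec_sub ha, h.ec_sub h2, h3⟩)
  rw [h.ec_val (h.ec_domM hg) k.1 ha hb] at h4
  rwa [(isFunc_iff.1 (h.ec_func hg k)).1.app_eq h4]
theorem cut_crit : cut Q (crit E + 1) = cut M (crit E + 1) := by
  rw [h.agr, ← h.cut_len]
  refine ZFSet.ext fun x => ?_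
  simp only [mem_cut]
  exact and_congr_left fun k => (and_iff_left
    (k.trans_le (Order.add_one_le_iff.2 h.ext.crit_lt_len))).symm
theorem cut_map {x : V} (hx : x ∈ M) : cut (app i x) (crit E) = cut x (crit E) := by
  haveI := h.isT
  refine ZFSet.ext fun y => ?_
  simp only [mem_cut]
  refine and_congr_left fun k => ?_
  have key : y ∈ M → (y ∈ app i x ↔ y ∈ x) := fun hy => by
    rw [← h.elem.elem.mem_iff hy hx, h.fix hy k]
  refine ⟨fun hy => (key ?_).1 hy, fun hy => (key (IsZ.trans (M := (M : Set V)) x hx y hy)).2 hy⟩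
  exact (mem_cut.1 (h.cut_crit ▸ mem_cut.2 ⟨h.trans _ (h.elem.elem.1 x hx) hy,
    Order.lt_add_one_iff.2 k.le⟩)).1
/-- `i(x) ∩ V_λ = E(x ∩ V_κ)` -/
theorem cut_map_len {x : V} (hx : x ∈ M) : cut (app i x) (len E) = app E (cut x (crit E)) := by
  haveI := h.isT
  haveI := h.isT_right
  haveI : In (M : Set V) x := ⟨hx⟩
  haveI : In (M : Set V) (crit E) := ⟨h.crit_mem⟩
  rw [h.val _ (h.ec_dom (memV_of (M : Set V) _) fun y hy => h.K_eq ▸ mem_cut.2
    ⟨IsZ.trans (M := (M : Set V)) x hx y (mem_cut.1 hy).1, (mem_cut.1 hy).2⟩),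
    h.elem.elem.map_cut hx h.crit_mem]
  refine ZFSet.ext fun y => ?_
  rw [ZFSet.mem_inter, mem_cut, mem_cut]
  refine ⟨fun ⟨h1, h2⟩ => ?_, fun ⟨h1, h2⟩ => ⟨h1.1, rank_lt_of_mem h2⟩⟩
  have h3 : y ∈ extZ E := h.cut_len ▸ mem_cut.2 ⟨h.trans _ (h.elem.elem.1 x hx) h1, h2⟩
  exact ⟨⟨h1, (h.ec_jK.1 (h.ec_sub h3)).2⟩, h3⟩
theorem ec_small {y : V} : y ∈ app i (extK E) ↔
    ∃ p ∈ tD E (dom E) (extK E), app (app i (snd p)) (fst p) = y := by
  constructor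
  · intro hy
    obtain ⟨a, ha, f, hf, k, rfl⟩ := h.ec_trunc hy
    exact ⟨pair a f, pair_mem_rel.2 ⟨ha, hf, k⟩, by simp⟩
  · rintro ⟨p, hp, rfl⟩
    obtain ⟨a, ha, f, hf, rfl, k⟩ := mem_rel.1 hp
    rw [snd_pair, fst_pair]
    exact (isFunc_iff.1 (h.ec_func hf k)).2.2 a (h.ec_sub ha)
theorem ec_UE : WFE E ∧ UE E = app i (extK E) := by
  obtain ⟨h1, h2⟩ := ec_col (D := tD E (dom E) (extK E)) (fun p => app (app i (snd p)) (fst p))
    (h.ec_tMem (R := extK E) fun _ => h.ec_domM) fun p hp z hz => by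
      have k := h.ec_jK.1 (h.ec_small.2 ⟨p, hp, rfl⟩)
      exact h.ec_small.1 (h.ec_jK.2 ⟨h.trans _ k.1 hz, (rank_lt_of_mem hz).trans k.2⟩)
  refine ⟨h1, ZFSet.ext fun y => Iff.trans ?_ h.ec_small.symm⟩
  rw [UE, mem_img]
  exact exists_congr fun p => and_congr_right fun hp => by rw [h2 p hp]
theorem ht_eq : ht E = jm (app i) (crit E) := by
  haveI := h.isT
  haveI := h.isT_right
  rw [ht, h.ec_UE.2]
  exact h.elem.elem.rank_map h.K_mem
theorem UE_eq : UE E = cut Q (ht E) := by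
  rw [h.ht_eq, h.ec_UE.2]
  exact ZFSet.ext fun y => h.ec_jK.trans mem_cut.symm
theorem len_le_ht : len E ≤ ht E := by
  rw [ht, h.ec_UE.2]
  exact rank_mono h.ec_sub
theorem inac_crit : Inac (M : Set V) (crit E) := by
  haveI := h.isT
  haveI := h.isT_right
  refine ⟨h.ext.omega_lt_crit, h.crit_mem, h.ext.crit_limit, fun a ha hr f hf k => ?_⟩
  refine (h.elem.elem.iff3 pZ (fun _ (a f : V) (o : Ordinal.{0}) =>
    ∃ γ < o, ∀ x ∈ a, (app f x).rank < γ) ha hf h.crit_mem).2 ⟨crit E, ?_, fun x hx => ?_⟩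
  · exact h.ht_eq ▸ h.ext.crit_lt_len.trans_le h.len_le_ht
  rw [jm_V, h.fix ha hr] at hx
  have h1 : x ∈ M := IsZ.trans (M := (M : Set V)) a ha x hx
  have h2 := h.elem.elem.map_app hf h1
  rw [h.fix h1 ((rank_lt_of_mem hx).trans hr), h.fix (IsZ.app_mem (M : Set V) hf x) (k x hx)] at h2
  rw [jm_V, ← h2]
  exact k x hx
theorem inac_ht : Inac (Q : Set V) (ht E) := by
  haveI := h.isT
  haveI := h.isT_right
  rw [h.ht_eq]
  exact (h.elem.elem.iff1 pZ (fun N (o : Ordinal.{0}) => Inac N o) h.crit_mem).1 h.inac_crit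
theorem niceU : NiceU E := by
  haveI := h.isT_right
  refine ⟨h.ec_UE.1, fun E' hE _ hw => ?_⟩
  rw [h.UE_eq, mem_cut] at hE ⊢
  haveI : In (Q : Set V) E' := ⟨hE.1⟩
  have h1 := memV_of (Q : Set V) (UE E')
  have h2 := memV_of (Q : Set V) (tD E' (dom E') (extK E'))
  refine ⟨h1, h.inac_ht.rank_lt_of_trans (injIn_of_surj (memV_of (Q : Set V)
    (lam (tD E' (dom E') (extK E')) fun p => col (tMem E' (dom E') (extK E')) p)) h2 h1
    fun y hy => ?_) h2 (ec_rank_tD h.inac_ht.2.2.1 hE.2) (ec_UE_trans hw)⟩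
  obtain ⟨p, hp, rfl⟩ := mem_img.1 hy
  exact ⟨p, hp, app_lam _ hp⟩
theorem uwf_rst {ρ : Ordinal.{0}} (hρ : Order.IsSuccLimit ρ) (h1 : crit E < ρ) (h2 : ρ ≤ len E) :
    UWF M (rst E ρ) := by
  obtain ⟨-, e1, e2, -⟩ := h.ext.rst_spec hρ h1 h2
  have k1 : tD (rst E ρ) M M ⊆ tD E M M := fun p hp => by
    obtain ⟨a, ha, f, hf, rfl, k⟩ := mem_rel.1 hp
    rw [e2] at ha
    exact pair_mem_rel.2 ⟨(mem_cut.1 ha).1, hf, e1 ▸ k⟩
  have k2 : ∀ X, app (rst E ρ) X ⊆ app E X := fun X => by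
    by_cases hX : X ∈ dom E
    · rw [app_rst hX]
      exact sep_subset
    · rw [app_of_not_mem_dom (f := rst E ρ) (by rwa [rst, dom_lam])]
      exact ZFSet.empty_subset _
  refine Subrelation.wf (fun {p q} k => ?_) h.unique.1
  obtain ⟨hp, hq, k⟩ := pair_mem_rel.1 k
  rw [tMemP, e1] at k
  exact pair_mem_rel.2 ⟨k1 hp, k1 hq, k2 _ k⟩
theorem ctbl {N : Set V} [IsT N] (hM : M ∈ HC N) (hE : E ∈ HC N) : Q ∈ HC N ∧ i ∈ HC N := by
  haveI : In N M := ⟨HC_subset N hM⟩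
  haveI : In N E := ⟨HC_subset N hE⟩
  have hZ : extZ E ∈ HC N := z5d_trans (z5d_trans (y := {extK E, extZ E})
    (z5d_trans hE (h.ext.fn.pair_app_mem h.ext.K_mem_dom)) (by simp [pair, extZ])) (by simp)
  have h1 : Ctbl N (tD E M M) :=
    ((z5d_ctbl hZ).prod (z5d_ctbl hM)).of_subset (memV_of N _) ec_rel
  have h2 : Q ∈ HC N := mem_HC_of_trans h.trans (by
    rw [h.unique.2.1]
    exact z5b_img h1 (fun p => col (tMem E M M) p) (memV_of N _) fun y hy => mem_img.1 hy)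
  refine ⟨h2, mem_HC_iff.2 ⟨((z5d_ctbl hM).prod (z5d_ctbl h2)).of_subset ?_ h.elem.1.1,
    fun p hp => ?_⟩⟩
  · rw [h.unique.2.2]
    exact memV_of N _
  · obtain ⟨x, hx, y, hy, rfl⟩ := mem_prod.1 (h.elem.1.1 hp)
    exact z5d_pair (z5d_trans hM hx) (z5d_trans h2 hy)
end IsUlt
theorem UE_trans {E : V} (h : WFE E) : (UE E).IsTransitive := ec_UE_trans h
-- JOB C END

-- JOB D BEGIN
theorem ed_rank {N : Set V} [IsZ N] {o : Ordinal.{0}} (ho : CofGt N o) {f : V} (hf : f ∈ N)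
    (h1 : IsFn f) (h2 : dom f = omegaZ) (h3 : ∀ x ∈ omegaZ, (app f x).rank < o) : f.rank < o := by
  refine ho.rank_lt (h2 ▸ z6b_fn_inj h1 hf : InjIn N f omegaZ) fun p hp => ?_
  have e := h1.1 p hp
  have k : pair (fst p) (snd p) ∈ f := e ▸ hp
  have k1 : fst p ∈ omegaZ := h2 ▸ mem_dom.2 ⟨_, k⟩
  rw [e, rank_pair_lt ho.1, ← h1.app_eq k]
  exact ⟨((rank_lt_of_mem k1).trans_eq rank_omegaZ).trans_le (omega0_le_of_isSuccLimit ho.1),
    h3 _ k1⟩

theorem OmCl.cut {N : Set V} [IsZ N] {R : V} (h : OmCl N R) {o : Ordinal.{0}} (ho : CofGt N o) :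
    OmCl N (cut R o) := fun f hf h1 h2 h3 =>
  mem_cut.2 ⟨h f hf h1 h2 fun x hx => (mem_cut.1 (h3 x hx)).1,
    ed_rank ho hf h1 h2 fun x hx => (mem_cut.1 (h3 x hx)).2⟩
theorem omCl_Vs (N : Set V) [IsZ N] {o : Ordinal.{0}} (ho : CofGt N o) : OmCl N (Vs N o) :=
  fun f hf h1 h2 h3 => mem_Vs.2 ⟨hf, ed_rank ho hf h1 h2 fun x hx => (mem_Vs.1 (h3 x hx)).2⟩

/-- `P u v` for almost all pairs, in the measure given by the seed `(a, b)` -/
def ed_Ev2 (E a b : V) (P : V → V → Prop) : Prop :=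
  ∃ X ∈ dom E, pair a b ∈ app E X ∧ ∀ u v, pair u v ∈ X → P u v
/-- the same for triples -/
def ed_Ev3 (E a b c : V) (P : V → V → V → Prop) : Prop :=
  ∃ X ∈ dom E, pair a (pair b c) ∈ app E X ∧ ∀ u v w, pair u (pair v w) ∈ X → P u v w

theorem ed_tpair {T : V} (ht : T.IsTransitive) (hp : ∀ x ∈ T, ∀ y ∈ T, ({x, y} : V) ∈ T)
    {a b : V} : pair a b ∈ T ↔ a ∈ T ∧ b ∈ T := by
  constructor
  · intro k
    have k1 : ({a, b} : V) ∈ T := ht _ k (by simp [pair])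
    exact ⟨ht _ k1 (by simp), ht _ k1 (by simp)⟩
  · rintro ⟨k1, k2⟩
    exact hp _ (by simpa using hp a k1 a k1) _ (hp a k1 b k2)

section ed_ev
variable {E a b c : V} (h : IsExt E)
include h

theorem ed_Zpair : pair a b ∈ extZ E ↔ a ∈ extZ E ∧ b ∈ extZ E := ed_tpair h.trans h.pairZ
theorem ed_Kpair : pair a b ∈ extK E ↔ a ∈ extK E ∧ b ∈ extK E := ed_tpair h.K_trans h.pairK

theorem ed_ne {X : V} (hc : c ∈ app E X) : ∃ u, u ∈ X := by
  rcases X.eq_empty_or_nonempty with rfl | k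
  · rw [h.app_empty] at hc
    exact (notMem_empty _ hc).elim
  · exact (nonempty_def X).1 k

theorem ed_single (ha : a ∈ extK E) : ({a} : V) ∈ dom E ∧ a ∈ app E {a} := by
  have h1 : ({a} : V) ∈ extK E := by simpa using h.pairK a ha a ha
  exact ⟨h.mem_dom.2 ⟨(h.mem_K.1 h1).1, h.K_trans _ h1⟩, by rw [h.fix _ h1, mem_singleton]⟩

theorem ed_compl {X : V} (hX : X ∈ dom E) (hc : c ∈ extZ E) (hn : c ∉ app E X) :
    extK E \ X ∈ dom E ∧ c ∈ app E (extK E \ X) := by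
  have h1 := h.diff _ h.K_mem_dom X hX
  exact ⟨h1.1, h1.2 ▸ mem_sdiff.2 ⟨hc, hn⟩⟩

theorem ed_prod {X Y : V} (hX : X ∈ dom E) (hY : Y ∈ dom E) (ha : a ∈ app E X)
    (hb : b ∈ app E Y) : ed_Ev2 E a b fun u v => u ∈ X ∧ v ∈ Y :=
  ⟨_, (h.prod X hX Y hY).1, (h.prod X hX Y hY).2 ▸ pair_mem_prod.2 ⟨ha, hb⟩,
    fun _ _ => pair_mem_prod.1⟩

theorem ed_and2 {P Q : V → V → Prop} (h1 : ed_Ev2 E a b P) (h2 : ed_Ev2 E a b Q) :
    ed_Ev2 E a b fun u v => P u v ∧ Q u v := by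
  obtain ⟨X, x1, x2, x3⟩ := h1
  obtain ⟨Y, y1, y2, y3⟩ := h2
  exact ⟨_, (h.inter x1 y1).1, (h.inter x1 y1).2 ▸ mem_inter.2 ⟨x2, y2⟩,
    fun u v k => ⟨x3 u v (mem_inter.1 k).1, y3 u v (mem_inter.1 k).2⟩⟩

theorem ed_and3 {P Q : V → V → V → Prop} (h1 : ed_Ev3 E a b c P) (h2 : ed_Ev3 E a b c Q) :
    ed_Ev3 E a b c fun u v w => P u v w ∧ Q u v w := by
  obtain ⟨X, x1, x2, x3⟩ := h1
  obtain ⟨Y, y1, y2, y3⟩ := h2
  exact ⟨_, (h.inter x1 y1).1, (h.inter x1 y1).2 ▸ mem_inter.2 ⟨x2, y2⟩,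
    fun u v w k => ⟨x3 u v w (mem_inter.1 k).1, y3 u v w (mem_inter.1 k).2⟩⟩

theorem ed_Z2 {P : V → V → Prop} (h1 : ed_Ev2 E a b P) : a ∈ extZ E ∧ b ∈ extZ E := by
  obtain ⟨X, x1, x2, -⟩ := h1
  exact (ed_Zpair h).1 (h.sub X x1 x2)

theorem ed_ex2 {P : V → V → Prop} (h1 : ed_Ev2 E a b P) :
    ∃ u ∈ extK E, ∃ v ∈ extK E, P u v := by
  have h2 := ed_Z2 h h1
  obtain ⟨X, x1, x2, x3⟩ := h1
  have k1 := h.prod _ h.K_mem_dom _ h.K_mem_dom
  have k2 := h.inter x1 k1.1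
  obtain ⟨p, hp⟩ := ed_ne h (k2.2 ▸ mem_inter.2 ⟨x2, k1.2 ▸ pair_mem_prod.2 h2⟩ :
    pair a b ∈ app E (X ∩ prod (extK E) (extK E)))
  obtain ⟨u, hu, v, hv, rfl⟩ := mem_prod.1 (mem_inter.1 hp).2
  exact ⟨u, hu, v, hv, x3 u v (mem_inter.1 hp).1⟩

theorem ed_ex3 {P : V → V → V → Prop} (h1 : ed_Ev3 E a b c P) :
    ∃ u ∈ extK E, ∃ v ∈ extK E, ∃ w ∈ extK E, P u v w := by
  obtain ⟨X, x1, x2, x3⟩ := h1
  have h2 := (ed_Zpair h).1 (h.sub X x1 x2)
  have h3 := (ed_Zpair h).1 h2.2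
  have k1 := h.prod _ h.K_mem_dom _ h.K_mem_dom
  obtain ⟨u, hu, p, -, k3, -, k4⟩ := ed_ex2 h (ed_and2 h ⟨X, x1, x2, fun u v k => k⟩
    (ed_prod h h.K_mem_dom k1.1 h2.1 (k1.2 ▸ pair_mem_prod.2 h3)))
  obtain ⟨v, hv, w, hw, rfl⟩ := mem_prod.1 k4
  exact ⟨u, hu, v, hv, w, hw, x3 u v w k3⟩

theorem ed_swap {P : V → V → Prop} (h1 : ed_Ev2 E a b P) : ed_Ev2 E b a fun v u => P u v := by
  have h2 := ed_Z2 h h1
  obtain ⟨X, x1, x2, x3⟩ := h1
  exact ⟨_, (h.swap X x1).1, (h.swap X x1).2 ▸ pair_mem_rel.2 ⟨h2.2, h2.1, x2⟩,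
    fun v u k => x3 u v (pair_mem_rel.1 k).2.2⟩

theorem ed_assoc {P : V → V → Prop} (h1 : ed_Ev2 E (pair a b) c P) :
    ed_Ev3 E a b c fun u v w => P (pair u v) w := by
  have h2 := ed_Z2 h h1
  have h3 := (ed_Zpair h).1 h2.1
  obtain ⟨X, x1, x2, x3⟩ := h1
  refine ⟨_, (h.assoc X x1).1, (h.assoc X x1).2 ▸ pair_mem_rel.2
    ⟨h3.1, pair_mem_prod.2 ⟨h3.2, h2.2⟩, by simpa using x2⟩, fun u v w k => x3 _ _ ?_⟩
  simpa using (pair_mem_rel.1 k).2.2

theorem ed_L12 {P : V → V → Prop} (h1 : ed_Ev2 E a b P) (hc : c ∈ extZ E) :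
    ed_Ev3 E a b c fun u v _ => P u v := by
  obtain ⟨X, x1, x2, x3⟩ := h1
  obtain ⟨Y, y1, y2, y3⟩ := ed_assoc h (ed_prod h x1 h.K_mem_dom x2 hc)
  exact ⟨Y, y1, y2, fun u v w k => x3 u v (y3 u v w k).1⟩

theorem ed_L23 {P : V → V → Prop} (h1 : ed_Ev2 E b c P) (ha : a ∈ extZ E) :
    ed_Ev3 E a b c fun _ v w => P v w := by
  obtain ⟨X, x1, x2, x3⟩ := h1
  obtain ⟨Y, y1, y2, y3⟩ := ed_prod h h.K_mem_dom x1 ha x2
  exact ⟨Y, y1, y2, fun u v w k => x3 v w (y3 u _ k).2⟩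

theorem ed_L13 {P : V → V → Prop} (h1 : ed_Ev2 E a c P) (hb : b ∈ extZ E) :
    ed_Ev3 E a b c fun u _ w => P u w := by
  obtain ⟨X, x1, x2, x3⟩ := ed_L12 h (ed_swap h h1) hb
  obtain ⟨Y, y1, y2, y3⟩ := ed_assoc h (ed_swap h (⟨X, x1, x2, fun _ _ k => k⟩ :
    ed_Ev2 E c (pair a b) fun w p => pair w p ∈ X))
  exact ⟨Y, y1, y2, fun u v w k => x3 w u v (y3 u v w k)⟩

theorem ed_proj {P : V → V → Prop} (h1 : ed_Ev2 E a b P) {Y : V} (hY : Y ∈ dom E)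
    (h2 : ∀ u ∈ extK E, ∀ v, P u v → u ∈ Y) : a ∈ app E Y := by
  by_contra k
  have k1 := ed_compl h hY (ed_Z2 h h1).1 k
  obtain ⟨u, hu, v, -, k2, k3, -⟩ :=
    ed_ex2 h (ed_and2 h h1 (ed_prod h k1.1 h.K_mem_dom k1.2 (ed_Z2 h h1).2))
  exact (mem_sdiff.1 k3).2 (h2 u hu v k2)

/-- evaluation at a fixed point `x` projects the seed `s` to the seed `s x` -/
theorem ed_eval {s x : V} (hs : s ∈ extZ E) (hx : x ∈ extK E) (ha : app s x ∈ extZ E)
    (hH : rel (extK E) (extK E) (fun t u => u = app t x) ∈ dom E) :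
    ed_Ev2 E s (app s x) fun t u => u = app t x := by
  refine ⟨_, hH, by_contra fun k => ?_, fun t u k => (pair_mem_rel.1 k).2.2⟩
  have hx' := (h.mem_K.1 hx).1
  have k1 := ed_compl h hH ((ed_Zpair h).2 ⟨hs, ha⟩) k
  have k2 := ed_L13 h (⟨_, k1.1, k1.2, fun _ _ k => (mem_sdiff.1 k).2⟩ : ed_Ev2 E s (app s x)
    fun t u => pair t u ∉ rel (extK E) (extK E) fun t u => u = app t x) hx'
  have k3 : ed_Ev3 E s x (app s x) fun t y u => u = app t y :=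
    ⟨_, h.appE.1, h.appE.2 ▸ pair_mem_rel.2 ⟨hs, pair_mem_prod.2 ⟨hx', ha⟩, by simp⟩,
      fun t y u k => by simpa using (pair_mem_rel.1 k).2.2⟩
  have k4 := ed_L12 h (ed_prod h h.K_mem_dom (ed_single h hx).1 hs (ed_single h hx).2) ha
  obtain ⟨t, ht, y, -, u, hu, ⟨a1, a2⟩, -, a3⟩ := ed_ex3 h (ed_and3 h (ed_and3 h k2 k3) k4)
  exact a1 (pair_mem_rel.2 ⟨ht, hu, mem_singleton.1 a3 ▸ a2⟩)

end ed_ev

section ed_agr
variable {M E : V} (h : IsExt E) [IsZ (M : Set V)] (hA : Agr M E)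
include h hA

omit h [IsZ (M : Set V)] in
theorem ed_low {x : V} (hx : x.rank ≤ crit E) : x ∈ M ↔ x ∈ extZ E := by
  have := ZFSet.ext_iff.1 hA x
  simpa only [mem_cut, Order.lt_add_one_iff, hx, and_true] using this

omit [IsZ (M : Set V)] in
theorem ed_dom {X : V} : X ∈ dom E ↔ X ∈ M ∧ X ⊆ extK E := by
  rw [h.mem_dom]
  exact and_congr_left fun k => (ed_low hA (rank_mono k)).symm

omit [IsZ (M : Set V)] in
theorem ed_KM : extK E ∈ M := ((ed_dom h hA).1 h.K_mem_dom).1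

omit [IsZ (M : Set V)] in
theorem ed_rel {P : V → V → Prop} (hP : rel (extK E) (extK E) P ∈ M) :
    rel (extK E) (extK E) P ∈ dom E :=
  (ed_dom h hA).2 ⟨hP, fun p hp => by
    obtain ⟨x, hx, y, hy, rfl, -⟩ := mem_rel.1 hp
    exact (ed_Kpair h).2 ⟨hx, hy⟩⟩

/-- a function of `M` from `K` into `ω` is constant on a large set -/
theorem ed_const {s : V} (hs : s ∈ extZ E) (g : V → ℕ)
    [UF (loc (M : Set V)) (fun _ v => g (vr v 0))] :
    ∃ m : ℕ, ∃ Y ∈ dom E, s ∈ app E Y ∧ ∀ t ∈ Y, g t = m := by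
  haveI : In (M : Set V) (extK E) := ⟨ed_KM h hA⟩
  haveI : ∀ (a : Set V → (ℕ → V) → V) [UF (loc (M : Set V)) a],
      UF (loc (M : Set V)) (fun N v => g (a N v)) := fun a _ =>
    UF.lift (fun _ v => g (vr v 0)) (fun N v => cons (a N v) v)
  have k0 : ∀ n, natZ n ∈ extK E := fun n => h.K_trans _ h.omegaK (natZ_mem_omegaZ n)
  have k1 : IsFunc (extK E) (extK E) (lam (extK E) fun t => natZ (g t)) :=
    isFunc_lam fun t _ => k0 _
  have k2 : lam (extK E) (fun t => natZ (g t)) ∈ (M : Set V) := memV_of (M : Set V) _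
  have k3 : ∀ t u, pair t u ∈ lam (extK E) (fun t => natZ (g t)) → u = natZ (g t) :=
    fun t u k => (pair_mem_lam.1 k).2
  have k4 : ∀ t ∈ extK E, app (lam (extK E) fun t => natZ (g t)) t = natZ (g t) :=
    fun t ht => app_lam _ ht
  generalize lam (extK E) (fun t => natZ (g t)) = f at k1 k2 k3 k4
  haveI : In (M : Set V) f := ⟨k2⟩
  have k5 : f ∈ dom E := (ed_dom h hA).2 ⟨k2, fun p hp => by
    obtain ⟨x, hx, y, hy, rfl⟩ := mem_prod.1 (k1.1 hp)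
    exact (ed_Kpair h).2 ⟨hx, hy⟩⟩
  have k6 : rkRel (extK E) f ∈ dom E := ed_rel h hA (memV_of (M : Set V) (rkRel (extK E) f))
  have k7 := h.prod _ h.K_mem_dom _ (ed_single h h.omegaK).1
  obtain ⟨b, b1, b2, b3⟩ := h.norm f k5 k1 s hs omegaZ (h.mem_K.1 h.omegaK).1
    (h.mono k7.1 k6 (fun p hp => by
      obtain ⟨x, hx, y, hy, rfl⟩ := mem_prod.1 hp
      rw [mem_singleton.1 hy]
      refine pair_mem_rel.2 ⟨hx, h.omegaK, ?_⟩
      rw [k4 x hx, rank_natZ, rank_omegaZ]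
      exact natCast_lt_omega0 _) (k7.2 ▸ pair_mem_prod.2 ⟨hs, (ed_single h h.omegaK).2⟩))
  have b4 : b ∈ extK E := h.mem_K.2 ⟨b1, (b3.trans_eq rank_omegaZ).trans h.omega_lt_crit⟩
  have b5 := ed_and2 h (⟨f, k5, b2, k3⟩ : ed_Ev2 E s b fun t u => u = natZ (g t))
    (ed_prod h h.K_mem_dom (ed_single h b4).1 hs (ed_single h b4).2)
  obtain ⟨t, -, u, -, c1, -, c2⟩ := ed_ex2 h b5
  refine ⟨g t, ZFSet.sep (fun r => g r = g t) (extK E), ?_, ?_, fun r hr => (mem_sep.1 hr).2⟩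
  · exact (ed_dom h hA).2 ⟨memV_of (M : Set V) _, sep_subset⟩
  · refine ed_proj h b5 ((ed_dom h hA).2 ⟨memV_of (M : Set V) _, sep_subset⟩)
      fun r hr v k => mem_sep.2 ⟨hr, natZ_inj.1 ?_⟩
    rw [← k.1, ← c1, mem_singleton.1 c2, mem_singleton.1 k.2.2]

end ed_agr

theorem ed_tD {E S R p : V} (h : p ∈ tD E S R) :
    p = pair (fst p) (snd p) ∧ fst p ∈ extZ E ∧ snd p ∈ S ∧ IsFunc (extK E) R (snd p) := by
  obtain ⟨a, ha, f, hf, rfl, k⟩ := mem_rel.1 h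
  simp only [fst_pair, snd_pair]
  exact ⟨trivial, ha, hf, k⟩

/-- an ill-founded relation of `N` has a descending sequence in `N` -/
theorem ed_desc (N : Set V) [IsT N] {R : V} (hR : R ∈ N) (h : ¬ WF R) :
    ∃ p : ℕ → V, sqN p ∈ N ∧ ∀ n, pair (p (n + 1)) (p n) ∈ R := by
  haveI : In N R := ⟨hR⟩
  obtain ⟨w, hw, hwo⟩ := exists_isWO N (memV_of N (dom R))
  haveI : In N w := ⟨hw⟩
  rw [wf_iff_acc] at h
  push Not at h
  obtain ⟨z, hz, hn⟩ := h
  haveI : In N z := ⟨IsZ.trans _ (memV_of N (ran R)) _ hz⟩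
  have key : ∀ x, ¬ AccP (preds R) x → ∃ y ∈ dom R, pair y x ∈ R ∧ ¬ AccP (preds R) y :=
    fun x hx => by
      by_contra k
      push Not at k
      exact hx (Acc.intro x fun y hy => k y (mem_dom.2 ⟨x, mem_preds.1 hy⟩) (mem_preds.1 hy))
  refine ⟨fun n => (fun x => wmin w (dom R) fun y => pair y x ∈ R ∧ ¬ AccP (preds R) y)^[n] z,
    memV_of N _, fun n => ?_⟩
  have k : ∀ n, ¬ AccP (preds R)
      ((fun x => wmin w (dom R) fun y => pair y x ∈ R ∧ ¬ AccP (preds R) y)^[n] z) := fun n => by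
    induction n with
    | zero => exact hn
    | succ n ih =>
      rw [Function.iterate_succ_apply']
      exact (hwo.wmin_spec (key _ ih)).2.1.2
  beta_reduce
  rw [Function.iterate_succ_apply']
  exact (hwo.wmin_spec (key _ (k n))).2.1.1

theorem ed_uwf (N : Set V) [IsT N] {M E : V} (hM : M ∈ N) (hEN : E ∈ N) (hE : IsExt E)
    [IsT (M : Set V)] (hA : Agr M E) (hc : OmCl N M) (hz : OmCl N (extZ E)) : UWF M E := by
  by_contra hn
  haveI : In N M := ⟨hM⟩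
  haveI : In N E := ⟨hEN⟩
  obtain ⟨p, hp, hd⟩ := ed_desc N (memV_of N (tMem E M M)) hn
  have k1 : ∀ n, p n ∈ tD E M M := fun n => (pair_mem_rel.1 (hd n)).2.1
  have k2 : ∀ n, tMemP E (p (n + 1)) (p n) := fun n => (pair_mem_rel.1 (hd n)).2.2
  haveI : ∀ (n : Set V → (ℕ → V) → ℕ) [UF (loc N) n], UF (loc N) (fun M v => p (n M v)) :=
    fun n _ => uf_of_sqN hp
  have k3 : sqN (fun n => fst (p n)) ∈ extZ E :=
    z5d_enum hz (memV_of N _) fun n => (ed_tD (k1 n)).2.1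
  have k4 : sqN (fun n => snd (p n)) ∈ M :=
    z5d_enum hc (memV_of N _) fun n => (ed_tD (k1 n)).2.2.1
  have k5 : ∀ n, app (sqN fun n => fst (p n)) (natZ n) = fst (p n) := app_sqN _
  generalize sqN (fun n => fst (p n)) = s at k3 k5
  haveI : In (M : Set V) (extK E) := ⟨ed_KM hE hA⟩
  haveI : ∀ (n : Set V → (ℕ → V) → ℕ) [UF (loc (M : Set V)) n],
      UF (loc (M : Set V)) (fun M v => snd (p (n M v))) :=
    fun n _ => uf_of_sqN (f := fun n => snd (p n)) k4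
  have k6 : ∀ n, ed_Ev2 E s (fst (p n)) fun t u => u = app t (natZ n) := fun n => by
    rw [← k5]
    refine ed_eval hE k3 (hE.K_trans _ hE.omegaK (natZ_mem_omegaZ n)) ?_
      (ed_rel hE hA (memV_of (M : Set V) _))
    rw [k5]
    exact (ed_tD (k1 n)).2.1
  obtain ⟨m, Y, y1, y2, y3⟩ := ed_const hE hA k3 fun t => sInf {n : ℕ |
    app (snd (p (n + 1))) (app t (natZ (n + 1))) ∉ app (snd (p n)) (app t (natZ n))}
  have z1 := (ed_tD (k1 (m + 1))).2.1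
  have z2 := (ed_tD (k1 m)).2.1
  have k7 : ed_Ev2 E (fst (p (m + 1))) (fst (p m))
      fun u v => app (snd (p (m + 1))) u ∈ app (snd (p m)) v :=
    ⟨_, ed_rel hE hA (memV_of (M : Set V) _), k2 m, fun u v k => (pair_mem_rel.1 k).2.2⟩
  obtain ⟨t, -, u, -, v, -, ⟨⟨a1, a2⟩, a3⟩, a4, -⟩ := ed_ex3 hE (ed_and3 hE (ed_and3 hE
    (ed_and3 hE (ed_L12 hE (k6 (m + 1)) z2) (ed_L13 hE (k6 m) z1)) (ed_L23 hE k7 k3))
    (ed_L12 hE (ed_prod hE y1 hE.K_mem_dom y2 z1) z2))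
  have k8 : {n : ℕ | app (snd (p (n + 1))) (app t (natZ (n + 1))) ∉
      app (snd (p n)) (app t (natZ n))}.Nonempty :=
    (WellFounded.not_rel_apply_succ (h := ⟨mem_wf⟩)
      fun n => app (snd (p n)) (app t (natZ n)) :)
  have k9 := Nat.sInf_mem k8
  rw [y3 t a4] at k9
  exact k9 (a1 ▸ a2 ▸ a3)

/-- countable completeness -/
theorem uwf_of_omCl (N : Set V) [IsT N] {M E : V} (hM : M ∈ N) (hEN : E ∈ N) (hE : IsExt E)
    [IsT (M : Set V)] (hA : Agr M E) (hc : OmCl N M) (hz : OmCl N (extZ E)) :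
    UWF M E ∧ OmCl N (ult M E) := by
  have hw := ed_uwf N hM hEN hE hA hc hz
  refine ⟨hw, fun g hg g1 g2 g3 => ?_⟩
  have hU := (isUlt_ult hE hA hw).1
  haveI : In N M := ⟨hM⟩
  haveI : In N E := ⟨hEN⟩
  haveI : In N g := ⟨hg⟩
  haveI : In N (ultMap M E) := ⟨memV_of N _⟩
  generalize ult M E = Q at hU g3 ⊢
  generalize ultMap M E = i at *
  haveI := hU.isT_right
  obtain ⟨c, hc1, -, -, hc2⟩ := choice_fn N (fun x y => fst y ∈ extZ E ∧ snd y ∈ M ∧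
      app g x = app (app i (snd y)) (fst y)) (IsZ.omega (M := N)) fun x hx => by
    obtain ⟨a, ha, f, hf, -, e⟩ := hU.gen _ (g3 x hx)
    exact ⟨pair a f, (IsZ.pair_mem_iff N).2 ⟨IsZ.trans _ (memV_of N (extZ E)) _ ha,
      IsZ.trans _ hM _ hf⟩, by simpa using ⟨ha, hf, e⟩⟩
  haveI : In N c := ⟨hc1⟩
  have k1 : lam omegaZ (fun x => fst (app c x)) ∈ extZ E :=
    hz _ (memV_of N _) (isFn_lam _ _) (dom_lam _ _) fun x hx => by
      rw [app_lam _ hx]; exact (hc2 x hx).1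
  have k2 : lam omegaZ (fun x => snd (app c x)) ∈ M :=
    hc _ (memV_of N _) (isFn_lam _ _) (dom_lam _ _) fun x hx => by
      rw [app_lam _ hx]; exact (hc2 x hx).2.1
  have k3 : ∀ x ∈ omegaZ, app g x = app (app (app i (lam omegaZ fun x => snd (app c x))) x)
      (app (lam omegaZ fun x => fst (app c x)) x) := fun x hx => by
    have e := hU.elem.elem.map_app k2 (IsZ.trans _ IsZ.omega _ hx)
    rw [app_lam _ hx, hU.elem.elem.fix_HF (z5b_om hx)] at e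
    rw [app_lam _ hx, ← e]
    exact (hc2 x hx).2.2
  haveI : In (Q : Set V) (lam omegaZ fun x => fst (app c x)) := ⟨hU.sub k1⟩
  haveI : In (Q : Set V) (app i (lam omegaZ fun x => snd (app c x))) := ⟨hU.elem.elem.1 _ k2⟩
  rw [g1.eq_lam, g2, z2a_congr k3]
  exact memV_of (Q : Set V) _

/-- an elementary map restricts to an elementary map of every set model -/
theorem ed_restrict {j : V → V} {R R' : Set V} [IsZ R] [IsZ R'] (h : Elem j R R') {H : V}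
    (hH : H ∈ R) : Elem j (H : Set V) (j H : Set V) := by
  have k : ∀ x ∈ H, x ∈ R := IsZ.trans _ hH
  refine ⟨fun x hx => (h.mem_iff (k x hx) hH).2 hx, fun φ v hv => ?_⟩
  have k1 : ∀ x ∈ (List.range φ.fv).map v, x ∈ R := fun x hx => by
    obtain ⟨n, -, rfl⟩ := List.mem_map.1 hx
    exact k _ (hv n)
  have k2 := h.iff3 pZ (fun _ (a : V) (ψ : Fo) (l : List V) => Sat1 (a : Set V) ψ (env l)) hH
    (IsZ.HF_subset R φ.code_mem_HF) ((listZ_mem_iff R).2 k1)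
  rw [h.jm_fo, h.jm_list k1, List.map_map] at k2
  exact (sat_congr _ φ _ _ fun n hn => (env_ofFn v _ n hn).symm).trans
    (k2.trans (sat_congr _ φ _ _ fun n hn => env_ofFn (j ∘ v) _ n hn))

/-- the set of tuples at which the values of the functions in `L` satisfy `φ` -/
noncomputable def ed_X (D : Set V) (φ : Fo) (K : V) (L : List V) : V :=
  ZFSet.sep (fun u => Sat1 D φ fun n => app (env L n) (env (dec u) n)) K

theorem ed_uf_X (φ : Fo) {a : Set V → (ℕ → V) → V} {l : Set V → (ℕ → V) → List V} [UF F a]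
    [UF F l] : UF F (fun M v => ed_X M φ (a M v) (l M v)) := by
  haveI := UF.lift (F := F) l
  haveI : UV F (fun M v n => app (env (l M (tl v)) n) (env (dec (vr v 0)) n)) :=
    ⟨fun n => inferInstance⟩
  unfold ed_X
  infer_instance

theorem ed_sat {τ : V → V} {M Q : Set V} [IsZ M] [IsZ Q] (h : Elem τ M Q) (φ : Fo) {K : V}
    (hK : K ∈ M) {f : ℕ → V} (hf : ∀ n, f n ∈ M) (a : ℕ → V)
    (ha : listZ ((List.range φ.fv).map a) ∈ τ K) :
    listZ ((List.range φ.fv).map a) ∈ τ (ed_X M φ K ((List.range φ.fv).map f)) ↔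
      Sat1 Q φ fun n => app (τ (f n)) (a n) := by
  have k1 : ∀ x ∈ (List.range φ.fv).map f, x ∈ M := fun x hx => by
    obtain ⟨n, -, rfl⟩ := List.mem_map.1 hx
    exact hf n
  haveI := ed_uf_X (F := pZ) φ (a := fun _ v => dec (vr v 0)) (l := fun _ v => dec (vr v 1))
  have k2 : τ (ed_X M φ K ((List.range φ.fv).map f)) =
      ed_X Q φ (τ K) (jm τ ((List.range φ.fv).map f)) :=
    h.map2 pZ (fun D (K : V) (L : List V) => ed_X D φ K L) hK ((listZ_mem_iff M).2 k1)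
  rw [k2, h.jm_list k1, List.map_map, ed_X, mem_sep, z3c_dec]
  refine (and_iff_right ha).trans (sat_congr _ φ _ _ fun n hn => ?_)
  rw [env_ofFn _ _ n hn, env_ofFn _ _ n hn]
  rfl

theorem ed_maps {τ : V → V} {M Q : Set V} [IsZ M] [IsZ Q] (h : Elem τ M Q) {K : V} (hK : K ∈ M) :
    τ (lam K fun u => u) = lam (τ K) (fun u => u) ∧
    (∀ x ∈ M, τ (lam K fun _ => x) = lam (τ K) fun _ => τ x) ∧
    ∀ f ∈ M, ∀ g ∈ M, τ (rel K K fun u v => app f u ∈ app g v) =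
      rel (τ K) (τ K) fun u v => app (τ f) u ∈ app (τ g) v :=
  ⟨h.map1 pZ (fun _ (K : V) => lam K fun u => u) hK,
    fun _ hx => h.map2 pZ (fun _ (K y : V) => lam K fun _ => y) hK hx,
    fun _ hf _ hg => h.map3 pZ (fun _ (K f g : V) => rel K K fun u v => app f u ∈ app g v) hK hf hg⟩

theorem ed_listZ {E : V} (h : IsExt E) {l : List V} (hl : ∀ x ∈ l, x ∈ extZ E) :
    listZ l ∈ extZ E := by
  induction l with
  | nil => exact (h.mem_K.1 (h.K_trans _ h.omegaK (mem_omegaZ.2 ⟨0, by simp [natZ, listZ]⟩))).1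
  | cons a l ih =>
    exact (ed_Zpair h).2 ⟨hl a List.mem_cons_self, ih fun x hx => hl x (List.mem_cons_of_mem _ hx)⟩

/-- the copy lemma for abstract maps `τ` and `ρ` -/
theorem ed_copy {M E : V} {M₁ H₁ : Set V} {T : V} {τ ρ : V → V} (hE : IsExt E) [IsT (M : Set V)]
    [IsZ M₁] [IsZ H₁] [IsZ (T : Set V)] (hA : Agr M E) (hZ : ∀ a ∈ extZ E, a ∈ M₁)
    (hτ : Elem τ (M : Set V) (T : Set V)) (hρ : Elem ρ M₁ H₁)
    (hk : ∀ a ∈ extZ E, ∀ X ∈ dom E, (a ∈ app E X ↔ ρ a ∈ τ X)) {c : V}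
    (hc : c = img (fun p => pair (col (tMem E M M) p) (app (τ (snd p)) (ρ (fst p)))) (tD E M M)) :
    UWF M E ∧ IsElem c (ult M E) T ∧ (∀ x ∈ M, app c (app (ultMap M E) x) = τ x) ∧
      ∀ a ∈ extZ E, app c a = ρ a := by
  have hK := ed_KM hE hA
  haveI : In (M : Set V) (extK E) := ⟨hK⟩
  have k0 : ∀ a ∈ extZ E, ρ a ∈ τ (extK E) := fun a ha => (hk a ha _ hE.K_mem_dom).1 ha
  have hw : UWF M E := by
    refine Subrelation.wf (fun {p q} k => ?_)
      (InvImage.wf (fun p => app (τ (snd p)) (ρ (fst p))) mem_wf)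
    obtain ⟨hp, hq, k1⟩ := pair_mem_rel.1 k
    obtain ⟨-, p1, p2, -⟩ := ed_tD hp
    obtain ⟨-, q1, q2, -⟩ := ed_tD hq
    haveI : In (M : Set V) (snd p) := ⟨p2⟩
    haveI : In (M : Set V) (snd q) := ⟨q2⟩
    have k2 := (hk _ ((ed_Zpair hE).2 ⟨p1, q1⟩) _ (ed_rel hE hA (memV_of (M : Set V) _))).1 k1
    rw [(ed_maps hτ hK).2.2 _ p2 _ q2, hρ.map_pair (hZ _ p1) (hZ _ q1)] at k2
    exact (pair_mem_rel.1 k2).2.2
  obtain ⟨hU, hcol⟩ := isUlt_ult hE hA hw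
  haveI := hU.isT_right
  have hj := hU.elem.elem
  have k1 : ∀ y w, pair y w ∈ c ↔ ∃ a ∈ extZ E, ∃ f ∈ M, IsFunc (extK E) M f ∧
      y = app (app (ultMap M E) f) a ∧ w = app (τ f) (ρ a) := fun y w => by
    rw [hc, mem_img]
    constructor
    · rintro ⟨p, hp, e⟩
      obtain ⟨a, ha, f, hf, rfl, k⟩ := mem_rel.1 hp
      rw [fst_pair, snd_pair, hcol a ha f hf k, pair_inj] at e
      exact ⟨a, ha, f, hf, k, e.1.symm, e.2.symm⟩
    · rintro ⟨a, ha, f, hf, k, rfl, rfl⟩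
      exact ⟨pair a f, pair_mem_rel.2 ⟨ha, hf, k⟩, by rw [fst_pair, snd_pair, hcol a ha f hf k]⟩
  have k2 : ∀ (φ : Fo) (v w : ℕ → V), (∀ n, pair (v n) (w n) ∈ c) →
      (Sat1 (ult M E : Set V) φ v ↔ Sat1 (T : Set V) φ w) := fun φ v w hv => by
    choose a ha f hf _ e1 e2 using fun n => (k1 _ _).1 (hv n)
    obtain rfl : v = _ := funext e1
    obtain rfl : w = _ := funext e2
    have l1 : ∀ x ∈ (List.range φ.fv).map a, x ∈ extZ E := fun x hx => by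
      obtain ⟨n, -, rfl⟩ := List.mem_map.1 hx
      exact ha n
    have l2 := ed_listZ hE l1
    have l3 : ρ (listZ ((List.range φ.fv).map a)) = listZ ((List.range φ.fv).map (ρ ∘ a)) := by
      rw [← List.map_map, ← hρ.jm_list fun x hx => hZ x (l1 x hx)]
      exact (hρ.enc_jm (a := (List.range φ.fv).map a) (hZ _ l2)).symm
    have l4 : ed_X (M : Set V) φ (extK E) ((List.range φ.fv).map f) ∈ dom E := by
      refine (ed_dom hE hA).2 ⟨?_, sep_subset⟩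
      haveI : In (M : Set V) ((List.range φ.fv).map f) := ⟨(listZ_mem_iff (M : Set V)).2
        fun x hx => by
          obtain ⟨n, -, rfl⟩ := List.mem_map.1 hx
          exact hf n⟩
      exact (ed_uf_X (F := loc (M : Set V)) φ (a := fun _ _ => extK E)
        (l := fun _ _ => (List.range φ.fv).map f)).cl _ rfl (fun _ => ∅)
        fun _ => IsZ.empty_mem (M : Set V)
    have l5 : ∀ X ∈ dom E, (listZ ((List.range φ.fv).map a) ∈ app E X ↔
        listZ ((List.range φ.fv).map a) ∈ app (ultMap M E) X) := fun X hX => by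
      rw [hU.val X hX, mem_inter]
      exact and_iff_left l2
    rw [← ed_sat hj φ hK hf a ((l5 _ hE.K_mem_dom).1 l2), ← l5 _ l4, hk _ l2 _ l4, l3]
    exact ed_sat hτ φ hK hf (ρ ∘ a) (l3 ▸ k0 _ l2)
  have k3 : ∀ y w w', pair y w ∈ c → pair y w' ∈ c → w = w' := fun y w w' h1 h2 =>
    (k2 (.eq 0 1) (fun _ => y) (cons w fun _ => w') fun n => by cases n <;> assumption).1 rfl
  have k4 : ∀ y w, pair y w ∈ c → app c y = w := fun y w h1 =>
    app_eq_of_unique h1 fun w' h2 => k3 y w' w h2 h1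
  have k5 : ∀ x ∈ extK E, x ∈ M := IsZ.trans (M := (M : Set V)) _ hK
  have k6 : (∅ : V) ∈ extZ E := ed_listZ hE (l := []) fun _ k => (List.not_mem_nil k).elim
  refine ⟨hw, ⟨⟨fun p hp => ?_, fun y hy => ?_⟩, k2⟩, fun x hx => k4 _ _ ?_, fun a ha => k4 _ _ ?_⟩
  · rw [hc] at hp
    obtain ⟨q, hq, rfl⟩ := mem_img.1 hp
    exact pair_mem_prod.2 ⟨mem_img.2 ⟨q, hq, rfl⟩,
      IsZ.app_mem (T : Set V) (hτ.1 _ (ed_tD hq).2.2.1) _⟩
  · obtain ⟨a, ha, f, hf, k, e⟩ := hU.gen y hy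
    have k7 := (k1 _ _).2 ⟨a, ha, f, hf, k, e, rfl⟩
    exact ⟨_, k7, fun w hw => k3 y w _ hw k7⟩
  · haveI : In (M : Set V) x := ⟨hx⟩
    have k7 : lam (extK E) (fun _ => x) ∈ M := memV_of (M : Set V) _
    have k8 : IsFunc (extK E) M (lam (extK E) fun _ => x) := isFunc_lam fun _ _ => hx
    refine (k1 _ _).2 ⟨∅, k6, _, k7, k8, ?_, ?_⟩
    · rw [← hcol _ k6 _ k7 k8]
      exact app_lam _ hx
    · rw [(ed_maps hτ hK).2.1 x hx]
      exact (app_lam (fun _ => τ x) (k0 _ k6)).symm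
  · have k7 : lam (extK E) (fun u => u) ∈ M := memV_of (M : Set V) _
    refine (k1 _ _).2 ⟨a, ha, _, k7, isFunc_lam k5, ?_, ?_⟩
    · rw [(ed_maps hj hK).1]
      exact (app_lam (fun u => u)
        (mem_inter.1 ((hU.val _ hE.K_mem_dom).subset ha)).1).symm
    · rw [(ed_maps hτ hK).1]
      exact (app_lam (fun u => u) (k0 _ ha)).symm

/-- the copy lemma -/
theorem copy_lemma {M M₁ H H₁ E σ σ₁ R E' R' i : V} (hE : IsExt E) [IsT (M : Set V)]
    [IsZ (M₁ : Set V)] [IsZ (H : Set V)] [IsZ (H₁ : Set V)] (hA : Agr M E) (hEM : E ∈ M₁)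
    (hσ : IsElem σ M H) (hσ₁ : IsElem σ₁ M₁ H₁)
    (hag : ∀ x ∈ extZ E, x.rank ≤ crit E → app σ x = app σ₁ x)
    (hU : IsUlt R E' R' i) (hH : H ∈ R) (hs : app σ₁ E ⊆ E') :
    UWF M E ∧ IsElem (cpy M E σ σ₁ i) (ult M E) (app i H) ∧
      (∀ x ∈ M, app (cpy M E σ σ₁ i) (app (ultMap M E) x) = app i (app σ x)) ∧
      ∀ a ∈ extZ E, app (cpy M E σ σ₁ i) a = app σ₁ a := by
  haveI := hU.isT
  haveI := hU.isT_right
  haveI : IsZ (app i H : Set V) :=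
    (hU.elem.elem.iff1 pZ (fun _ (a : V) => IsZ (a : Set V)) hH).1 ‹_›
  haveI : In (M₁ : Set V) E := ⟨hEM⟩
  have hZ : ∀ a ∈ extZ E, a ∈ (M₁ : Set V) := IsZ.trans _ (memV_of (M₁ : Set V) (extZ E))
  have hρ := hσ₁.elem
  have k1 : ∀ a ∈ extZ E, ∀ X ∈ dom E, (a ∈ app E X ↔
      app σ₁ a ∈ app i (app σ X) ∧ app σ₁ a ∈ extZ E') := fun a ha X hX => by
    have x1 := hE.mem_dom.1 hX
    have x2 := IsZ.app_mem (M₁ : Set V) hEM X
    have x3 := hE.fn.pair_app_mem hX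
    have x4 := hs ((hρ.mem_iff (IsZ.trans _ hEM _ x3) hEM).2 x3)
    rw [hρ.map_pair (hZ X x1.1) x2] at x4
    rw [← hρ.mem_iff (hZ a ha) x2, ← hU.ext.fn.app_eq x4, hU.val _ (mem_dom.2 ⟨_, x4⟩),
      hag X x1.1 (rank_mono x1.2), mem_inter]
  exact ed_copy hE hA hZ (hσ.elem.comp (ed_restrict hU.elem.elem hH)) hρ
    (fun a ha X hX => (k1 a ha X hX).trans
      (and_iff_left ((k1 a ha _ hE.K_mem_dom).1 ha).2)) rfl
-- JOB D END

-- JOB E BEGIN
theorem ee_rank_Vs (N : Set V) [IsZ N] {δ : Ordinal.{0}} (h : δ.toZFSet ∈ N) :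
    (Vs N δ).rank = δ := by
  refine le_antisymm (rank_le_iff.2 fun x hx => (mem_Vs.1 hx).2) ?_
  have : δ.toZFSet ⊆ Vs N δ := fun x hx => mem_Vs.2 ⟨IsZ.trans _ h _ hx, by
    simpa using rank_lt_of_mem hx⟩
  simpa using rank_mono this

theorem ee_cut_Vs (N : Set V) {o p : Ordinal.{0}} (h : p ≤ o) : cut (Vs N o) p = Vs N p := by
  ext x
  rw [mem_cut, mem_Vs, mem_Vs, and_assoc]
  exact and_congr_right fun _ => ⟨fun k => k.2, fun k => ⟨k.trans_le h, k⟩⟩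

theorem ee_rank_cut (A : V) (o : Ordinal.{0}) : (cut A o).rank ≤ o :=
  rank_le_iff.2 fun _ hx => (mem_cut.1 hx).2

theorem ee_len_lt {E : V} (h : IsExt E) : len E < E.rank := by
  rw [h.rank_eq]
  exact lt_add_of_pos_right _ (by norm_num)

/-- the ordinal `κ` reflects `B` below `δ` -/
def ee_St (N : Set V) (δ κ : Ordinal.{0}) (B : V) : Prop :=
  ∀ ρ < δ, ∃ E ∈ N, IsExt E ∧ extZ E = Vs N (len E) ∧ crit E = κ ∧ ρ < len E ∧
    cut B κ ∈ dom E ∧ app E (cut B κ) = cut B (len E)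

theorem ee_st {N : Set V} [IsZ N] {δ β : Ordinal.{0}} (h : WoodE N δ) {B : V} (hB : B ∈ N)
    (hs : ∀ x ∈ B, x.rank < δ) (hβ : β < δ) : ∃ κ < δ, β < κ ∧ ee_St N δ κ B := by
  have h1 := h.2.2 B hB fun x hx => mem_Vs.2 ⟨IsZ.trans _ hB _ hx, hs x hx⟩
  rw [NoWit, ee_rank_Vs N h.2.1] at h1
  obtain ⟨κ, h2, h3, h4⟩ := h1 β hβ
  refine ⟨κ, h2, h3, fun ρ hρ => ?_⟩
  obtain ⟨E, hE, k1, k2, k3, k4, k5⟩ := h4 ρ hρ
  exact ⟨E, (mem_Vs.1 hE).1, k1,
    k2.trans (ee_cut_Vs N ((ee_len_lt k1).trans (mem_Vs.1 hE).2).le), k3, k4,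
    mem_dom.2 ⟨_, k5⟩, k1.fn.app_eq k5⟩

theorem ee_mem_K {N : Set V} {E x : V} (h : IsExt E) (hZ : extZ E = Vs N (len E)) (hx : x ∈ N)
    (hr : x.rank < crit E) : x ∈ extK E ∧ x ∈ dom E := by
  have h1 : x ∈ extZ E := hZ ▸ mem_Vs.2 ⟨hx, hr.trans h.crit_lt_len⟩
  have h2 := h.mem_K.2 ⟨h1, hr⟩
  exact ⟨h2, h.mem_dom.2 ⟨h1, h.K_trans x h2⟩⟩

theorem WoodE.inac {N : Set V} [IsZ N] {δ : Ordinal.{0}} (h : WoodE N δ) : Inac N δ := by
  have h0 : ∀ β < δ, ∃ κ < δ, β < κ ∧ ee_St N δ κ ∅ := fun β hβ =>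
    ee_st h (IsZ.empty_mem N) (fun x hx => absurd hx (notMem_empty x)) hβ
  have hl : Order.IsSuccLimit δ := by
    refine ⟨not_isMin_of_lt h.1, Order.isSuccPrelimit_of_succ_lt fun β hβ => ?_⟩
    obtain ⟨κ, h1, h2, -⟩ := h0 β hβ
    exact (Order.succ_le_of_lt h2).trans_lt h1
  refine ⟨?_, h.2.1, hl, fun a ha hr f hf hb => ?_⟩
  · obtain ⟨κ, h1, -, h2⟩ := h0 0 h.1
    obtain ⟨E, -, k1, -, rfl, -⟩ := h2 0 h.1
    exact k1.omega_lt_crit.trans h1
  haveI : In N a := ⟨ha⟩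
  haveI : In N f := ⟨hf⟩
  have hp : ∀ x ∈ a, (pair x (app f x)).rank < δ := fun x hx =>
    (rank_pair_lt hl).2 ⟨(rank_lt_of_mem hx).trans hr, hb x hx⟩
  obtain ⟨κ, h1, h2, h3⟩ := ee_st h (memV_of N (lam a fun x => app f x)) (fun p hp' => by
    obtain ⟨x, hx, rfl⟩ := mem_lam.1 hp'
    exact hp x hx) hr
  refine ⟨κ, h1, fun x hx => ?_⟩
  obtain ⟨E, -, k1, k2, rfl, k4, k5, k6⟩ := h3 _ (hp x hx)
  haveI : In N (crit E) := ⟨IsZ.ord_mem_of_le N h.2.1 h1.le⟩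
  obtain ⟨k7, k8⟩ := ee_mem_K k1 k2 (sep_mem N (fun y => (app f y).rank < crit E) ha)
    ((rank_mono fun y hy => (mem_sep.1 hy).1).trans_lt h2)
  obtain ⟨k9, k10⟩ := k1.prod _ k8 _ k1.K_mem_dom
  have k11 := k1.mono k5 k9 fun p hp' => by
    obtain ⟨h4, h5⟩ := mem_cut.1 hp'
    obtain ⟨y, hy, rfl⟩ := mem_lam.1 h4
    have h6 := ((rank_pair_lt k1.crit_limit).1 h5).2
    exact pair_mem_prod.2 ⟨mem_sep.2 ⟨hy, h6⟩, (ee_mem_K k1 k2 (IsZ.app_mem N hf y) h6).1⟩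
  rw [k6, k10, k1.fix _ k7] at k11
  exact (mem_sep.1 (pair_mem_prod.1 (k11 (mem_cut.2 ⟨pair_mem_lam.2 ⟨hx, rfl⟩, k4⟩))).1).2

theorem WoodE.of_Vs {N N' : Set V} {δ : Ordinal.{0}} (h : WoodE N δ) (hs : N' ⊆ N)
    (he : Vs N' δ = Vs N δ) (hδ : δ.toZFSet ∈ N') : WoodE N' δ :=
  ⟨h.1, hδ, fun B hB hs' => he ▸ h.2.2 B (hs hB) (he ▸ hs')⟩

/-- well-founded ultrapowers by restrictions to lengths of uncountable cofinality -/
theorem ee_ult {N : Set V} [IsZFC N] {δ κ ρ : Ordinal.{0}} (h : Inac N δ) {B : V}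
    (hs : ee_St N δ κ B) (hκ : κ < δ) (hρ : ρ < δ) : ∃ E ∈ N, ∃ Q ∈ N, ∃ i ∈ N,
      IsUlt (Vs N δ) E Q i ∧ crit E = κ ∧ ρ < len E ∧ extZ E = Vs N (len E) ∧
        app E (cut B κ) = cut B (len E) := by
  haveI := h.isZFC_Vs
  have h1 : max ρ κ < δ := max_lt hρ hκ
  have h2 : max ρ κ < max ρ κ + om1 N := lt_add_of_pos_right _ (isSuccLimit_om1 N).pos
  have h3 := (h.add_lt h1 h.om1_lt).1
  have h4 := (cofGt_om1 N).add (IsZ.ord_mem_of_le N h.2.1 h1.le)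
  generalize max ρ κ + om1 N = η at h2 h3 h4
  obtain ⟨E, hE, k1, k2, rfl, k4, k5, k6⟩ := hs η h3
  have h5 := (le_max_right _ _).trans_lt h2
  obtain ⟨r1, -, r3, r4, r5, -⟩ := k1.rst_spec h4.1 h5 k4.le
  rw [k2, ee_cut_Vs N k4.le] at r3
  have hV : Vs N δ ∈ N := room_of_zfc N h.2.1
  haveI : In N E := ⟨hE⟩
  haveI : In N η := ⟨IsZ.ord_mem_of_le N h.2.1 h3.le⟩
  haveI : In N (Vs N δ) := ⟨hV⟩
  have hE' : rst E η ∈ N := memV_of N _
  have hA : Agr (Vs N δ) (rst E η) := by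
    rw [Agr, r3, r4, ee_cut_Vs N (Order.add_one_le_of_lt hκ),
      ee_cut_Vs N (Order.add_one_le_of_lt h5)]
  have hw := (uwf_of_omCl N hV hE' r1 hA (omCl_Vs N h.cofGt) (r3 ▸ omCl_Vs N h4)).1
  refine ⟨_, hE', _, memV_of N _, _, memV_of N _, (isUlt_ult r1 hA hw).1, r4, ?_, ?_, ?_⟩
  · rw [r5]; exact (le_max_left _ _).trans_lt h2
  · rw [r5, r3]
  · rw [r5, app_rst k5, k6]
    ext x
    simp only [mem_cut, and_assoc]
    exact and_congr_right fun _ => ⟨fun k => k.2, fun k => ⟨k.trans k4, k⟩⟩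

theorem ee_woodin {N : Set V} [IsZFC N] {δ : Ordinal.{0}} (h : WoodE N δ) : Woodin N δ := by
  have hi := h.inac
  haveI := hi.isZFC_Vs
  refine ⟨(inac_iff_inacc N).1 hi, fun A hA hr => ?_⟩
  obtain ⟨κ, h1, -, h2⟩ := ee_st h hA hr h.1
  refine ⟨κ, h1, fun ρ hρ => ?_⟩
  obtain ⟨E, -, Q, hQ, i, hi', hU, rfl, k2, k3, k4⟩ := ee_ult hi h2 h1 hρ
  haveI := hU.isT_right
  obtain ⟨f1, f2, -⟩ := isFunc_iff.1 hU.elem.1
  have f3 : ∀ x ∈ N, x.rank < δ → pair x (app i x) ∈ i := fun x hx hx' =>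
    f1.pair_app_mem (f2 ▸ mem_Vs.2 ⟨hx, hx'⟩)
  have hκ := IsZ.ord_mem_of_le N h.2.1 h1.le
  haveI : In N A := ⟨hA⟩
  haveI : In N (crit E) := ⟨hκ⟩
  have hc : cut A (crit E) ∈ N := memV_of N _
  have hc' := (ee_rank_cut A (crit E)).trans_lt h1
  refine ⟨_, room_of_zfc N h.2.1, Q, hQ, i, hi', fun _ => mem_Vs, hU.trans, hU.elem,
    fun β hβ => ?_, ⟨ht E, ?_, hU.ext.crit_lt_len.trans_le hU.len_le_ht, k2.trans_le hU.len_le_ht⟩,
    fun x hx hx' => hU.sub (k3 ▸ mem_Vs.2 ⟨hx, hx'.trans k2⟩), _, f3 _ hc hc', fun x hx => ?_⟩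
  · have h3 := IsZ.ord_mem_of_le N hκ hβ.le
    have h4 : β.toZFSet.rank < crit E := by simpa using hβ
    have := f3 _ h3 (h4.trans h1)
    rwa [hU.fix (mem_Vs.2 ⟨h3, h4.trans h1⟩) h4] at this
  · rw [hU.ht_eq, ← hU.elem.elem.map_ord hU.crit_mem]
    exact f3 _ hκ (by simpa using h1)
  · have h3 := hU.cut_map_len (mem_Vs.2 ⟨hc, hc'⟩)
    rw [show cut (cut A (crit E)) (crit E) = cut A (crit E) by ext; simp, k4] at h3
    have h4 := ZFSet.ext_iff.1 h3 x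
    rwa [mem_cut, mem_cut, and_congr_left_iff, imp_iff_right (hx.trans k2)] at h4

/-- an elementary map into a subclass of `N` that fixes the ordinals below `κ` fixes `V_κ` -/
theorem ee_fix {N M : Set V} [IsZ N] [IsZ M] {δ κ : Ordinal.{0}} [IsZ (Vs N δ : Set V)]
    {j : V → V} (hj : Elem j (Vs N δ : Set V) M) (hM : M ⊆ N) (hκ : κ ≤ δ)
    (h : ∀ β < κ, jm j β = β) : ∀ x ∈ Vs N κ, j x = x := by
  have hs : ∀ x ∈ Vs N κ, x ∈ (Vs N δ : Set V) := fun x hx =>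
    mem_Vs.2 ⟨(mem_Vs.1 hx).1, (mem_Vs.1 hx).2.trans_le hκ⟩
  intro x
  induction e : x.rank using WellFoundedLT.induction generalizing x with
  | ind o ih =>
  subst e
  intro hx
  have key : ∀ y ∈ N, y.rank < x.rank → (y ∈ j x ↔ y ∈ x) := fun y hy hr => by
    have h1 := mem_Vs.2 ⟨hy, hr.trans (mem_Vs.1 hx).2⟩
    rw [← hj.mem_iff (hs y h1) (hs x hx), ih _ hr y rfl h1]
  ext y
  refine ⟨fun hy => (key y (hM (IsZ.trans _ (hj.1 x (hs x hx)) _ hy)) ?_).1 hy, fun hy =>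
    (key y (IsZ.trans _ (mem_Vs.1 hx).1 _ hy) (rank_lt_of_mem hy)).2 hy⟩
  have := rank_lt_of_mem hy
  rwa [hj.rank_map (hs x hx), h _ (mem_Vs.1 hx).2] at this

theorem ee_woodE {N : Set V} [IsZFC N] {δ : Ordinal.{0}} (h : Woodin N δ) : WoodE N δ := by
  have hi := (inac_iff_inacc N).2 h.1
  haveI := hi.isZFC_Vs
  have hl := hi.2.2.1
  refine ⟨hl.pos, hi.2.1, fun B hB hs => ?_⟩
  rw [NoWit, ee_rank_Vs N hi.2.1]
  intro β hβ
  have b1 : max β ω < δ := max_lt hβ hi.1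
  haveI : In N B := ⟨hB⟩
  haveI : In N (max β ω) := ⟨IsZ.ord_mem_of_le N hi.2.1 b1.le⟩
  obtain ⟨A, hA⟩ : ∃ A, A = insert (pair omegaZ (max β ω).toZFSet) (img (fun x => pair ∅ x) B) :=
    ⟨_, rfl⟩
  have hAN : A ∈ N := hA ▸ memV_of N _
  have o1 : omegaZ ≠ ∅ := fun e => notMem_empty _ (e ▸ natZ_mem_omegaZ 0)
  have a1 : ∀ x, pair ∅ x ∈ A ↔ x ∈ B := fun x => by simp [hA, pair_inj, o1.symm]
  have a2 : (pair omegaZ (max β ω).toZFSet).rank < δ :=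
    (rank_pair_lt hl).2 ⟨by simpa using hi.1, by simpa using b1⟩
  have a3 : ∀ {o : Ordinal.{0}}, Order.IsSuccLimit o → ∀ x : V, (pair ∅ x).rank < o ↔ x.rank < o :=
    fun ho x => by rw [rank_pair_lt ho, rank_empty, and_iff_right ho.pos]
  obtain ⟨κ, h1, h2⟩ := h.2 A hAN fun x hx => by
    rcases mem_insert_iff.1 (hA ▸ hx) with rfl | hx
    · exact a2
    · obtain ⟨y, hy, rfl⟩ := mem_img.1 hx
      exact (a3 hl y).2 (mem_Vs.1 (hs hy)).2
  have hκ := IsZ.ord_mem_of_le N hi.2.1 h1.le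
  haveI : In N A := ⟨hAN⟩
  haveI : In N κ := ⟨hκ⟩
  have o2 : ∀ o < δ, o.toZFSet ∈ (Vs N δ : Set V) := fun o ho =>
    mem_Vs.2 ⟨IsZ.ord_mem_of_le N hi.2.1 ho.le, by simpa using ho⟩
  have c1 : cut A κ ∈ (Vs N δ : Set V) := mem_Vs.2 ⟨memV_of N _, (ee_rank_cut A κ).trans_lt h1⟩
  have c2 : cut B κ ∈ (Vs N δ : Set V) := mem_Vs.2 ⟨memV_of N _, (ee_rank_cut B κ).trans_lt h1⟩
  replace h2 : ∀ ρ < δ, ∃ M ∈ N, ∃ j ∈ N, IsZ (M : Set V) ∧ Elem (app j) (Vs N δ : Set V) M ∧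
      (∀ β < κ, jm (app j) β = β) ∧ κ < jm (app j) κ ∧ ρ < jm (app j) κ ∧
      (∀ x ∈ N, x.rank < ρ → x ∈ M) ∧ ∀ x : V, x.rank < ρ → (x ∈ app j (cut A κ) ↔ x ∈ A) := by
    intro ρ hρ
    obtain ⟨Vd, -, M, hM, j, hj, k1, k2, k3, k4, ⟨k, k5, k6, k7⟩, k8, C, k9, k10⟩ := h2 ρ hρ
    obtain rfl : Vd = Vs N δ := ZFSet.ext fun x => (k1 x).trans mem_Vs.symm
    have f1 := (isFunc_iff.1 k3.1).1
    have e : ∀ {o p : Ordinal.{0}}, pair o.toZFSet p.toZFSet ∈ j → jm (app j) o = p := fun hp => by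
      rw [jm, enc_ord, f1.app_eq hp, dec_ord, rank_toZFSet]
    refine ⟨M, hM, j, hj, k3.elem.isZ_right fun x hx y hy => k2 x hx hy, k3.elem,
      fun β hβ => e (k4 β hβ), e k5 ▸ k6, e k5 ▸ k7, k8, ?_⟩
    rw [show app j (cut A κ) = C from f1.app_eq k9]
    exact k10
  obtain ⟨b2, hκl⟩ : max β ω < κ ∧ Order.IsSuccLimit κ := by
    obtain ⟨M, -, j, -, _, k1, k2, k3, -, -, k4⟩ := h2 _ (hl.succ_lt a2)
    have h3 : max β ω < κ := by
      by_contra h3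
      have h4 := (k1.iff1 pZ (fun _ (a : V) => ∀ p ∈ a, fst p = ∅) (a := cut A κ) c1).1 fun p hp => by
        obtain ⟨h5, h6⟩ := mem_cut.1 hp
        rcases mem_insert_iff.1 (hA ▸ h5) with rfl | h5
        · have := (rank_snd_le _).trans_lt h6
          rw [snd_pair, rank_toZFSet] at this
          exact absurd this h3
        · obtain ⟨y, -, rfl⟩ := mem_img.1 h5
          exact fst_pair _ _
      exact o1 ((fst_pair _ _).symm.trans
        (h4 _ ((k4 _ (Order.lt_succ _)).2 (hA ▸ mem_insert _ _))))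
    refine ⟨h3, not_isMin_of_lt h3, Order.isSuccPrelimit_of_succ_ne fun γ e => ?_⟩
    have h4 : γ < κ := e ▸ Order.lt_succ γ
    have h5 := k1.map1 pZ (fun _ (o : Ordinal.{0}) => Order.succ o) (o2 γ (h4.trans h1))
    rw [k2 γ h4, e] at h5
    exact k3.ne' h5
  refine ⟨κ, h1, (le_max_left _ _).trans_lt b2, fun ρ hρ => ?_⟩
  have r1 : max ρ κ < max ρ κ + ω := lt_add_of_pos_right _ omega0_pos
  have r2 := (hi.add_lt (max_lt hρ h1) hi.1).1
  have r3 : Order.IsSuccLimit (max ρ κ + ω) := isSuccLimit_add _ isSuccLimit_omega0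
  generalize max ρ κ + ω = η at r1 r2 r3
  obtain ⟨M, hM, j, hj, _, k1, k2, -, k4, k5, k6⟩ := h2 η r2
  have hη := IsZ.ord_mem_of_le N hi.2.1 r2.le
  have hMN : (M : Set V) ⊆ N := fun x hx => IsZ.trans _ hM _ hx
  have hP : ∀ X ∈ N, X ⊆ Vs N κ → X ∈ (Vs N δ : Set V) := fun X hX hX' =>
    mem_Vs.2 ⟨hX, (rank_le_iff.2 fun x hx => (mem_Vs.1 (hX' hx)).2).trans_lt h1⟩
  have hZ : cut (app j (Vs N κ)) η = Vs N η := by
    have := (k1.iff2 pZ (fun M (a : V) (o : Ordinal.{0}) => a = Vs M o) (a := Vs N κ)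
      (hP _ (room_of_zfc N hκ) subset_rfl) (o2 κ h1)).1 (by rw [Vs_coe, ee_cut_Vs N h1.le])
    rw [jm_V] at this
    rw [this, ee_cut_Vs _ k4.le]
    ext x
    rw [mem_Vs, mem_Vs]
    exact and_congr_left fun hx => ⟨fun k => hMN k, fun k => k5 x k hx⟩
  obtain ⟨e1, -, e3, e4, e5⟩ := isExt_of_elem k1 hκl ((le_max_right _ _).trans_lt b2) r3
    ((le_max_right _ _).trans_lt r1) (room_of_zfc N hη) hP (ee_fix k1 hMN h1.le k2) hZ
  haveI : In N j := ⟨hj⟩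
  haveI : In N η := ⟨hη⟩
  refine ⟨_, mem_Vs.2 ⟨memV_of N _, ?_⟩, e1, ?_, e4, ?_, ?_⟩
  · rw [e1.rank_eq, e5]
    exact (hi.add_lt r2 ((natCast_lt_omega0 3).trans hi.1)).1
  · rw [e3, e5, ee_cut_Vs N r2.le]
  · rw [e5]; exact (le_max_left _ _).trans_lt r1
  · rw [e5]
    refine pair_mem_lam.2 ⟨mem_pw.2 ⟨(mem_Vs.1 c2).1, fun x hx =>
      mem_Vs.2 ⟨IsZ.trans _ hB _ (mem_cut.1 hx).1, (mem_cut.1 hx).2⟩⟩, ?_⟩
    have := (k1.iff2 pZ (fun M (a b : V) => ∀ x ∈ M, x ∈ b ↔ pair ∅ x ∈ a) (a := cut A κ)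
      (b := cut B κ) c1 c2).1 fun x _ => by rw [mem_cut, mem_cut, a1, a3 hκl]
    ext x
    rw [mem_cut, mem_cut]
    refine and_congr_left fun hx => ?_
    rw [← a1, ← k6 _ ((a3 r3 x).2 hx)]
    exact ⟨fun k => (this x (k5 x (IsZ.trans _ hB _ ((a1 x).1 ((k6 _ ((a3 r3 x).2 hx)).1 k)))
      hx)).2 k, fun k => (this x (IsZ.trans _ (k1.1 _ c2) _ k)).1 k⟩

theorem woodE_iff_woodin (N : Set V) [IsZFC N] {δ : Ordinal.{0}} : WoodE N δ ↔ Woodin N δ :=
  ⟨ee_woodin, ee_woodE⟩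
instance ud_woodin {F : Fr} [F.P] {o : Set V → (ℕ → V) → Ordinal.{0}} [UF F o] :
    UD F (fun M v => Woodin M (o M v)) :=
  (inferInstance : UD F (fun M v => WoodE M (o M v))).congr fun M hM _ _ =>
    haveI := Fr.P.out M hM
    (woodE_iff_woodin M).symm
/-- `κ` is the critical point of an extender over `N` -/
def Meas (N : Set V) (κ : Ordinal.{0}) : Prop :=
  ∃ E ∈ N, IsExt E ∧ extZ E = Vs N (len E) ∧ crit E = κ
theorem ee_inac {N : Set V} [IsZFC N] {δ κ : Ordinal.{0}} (h : Inac N δ) {B : V}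
    (hs : ee_St N δ κ B) (hκ : κ < δ) : Inac N κ := by
  haveI := h.isZFC_Vs
  obtain ⟨E, -, Q, -, i, -, hU, rfl, -⟩ := ee_ult h hs hκ hκ
  exact hU.inac_crit.of_Vs (fun x hx hr => mem_Vs.2 ⟨hx, hr.trans_lt hκ⟩)
    (IsZ.ord_mem_of_le N h.2.1 hκ.le)
/-- below a Woodin cardinal: an inaccessible limit of measurables and an inaccessible above it -/
theorem WoodE.exists_meas {N : Set V} [IsZFC N] {δ : Ordinal.{0}} (h : WoodE N δ) :
    ∃ l μ : Ordinal.{0}, l < μ ∧ μ < δ ∧ Inac N l ∧ Inac N μ ∧ ∀ β < l, ∃ κ < l, β < κ ∧ Meas N κ := by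
  haveI : UD (loc N) (fun _ v => Meas N (vr v 0).rank) := by unfold Meas; infer_instance
  have hB := sep_mem N (fun x => Meas N x.rank) h.2.1
  have hs : ∀ x ∈ ZFSet.sep (fun x => Meas N x.rank) δ.toZFSet, x.rank < δ := fun x hx => by
    simpa using rank_lt_of_mem (mem_sep.1 hx).1
  obtain ⟨l, h1, -, h2⟩ := ee_st h hB hs h.1
  obtain ⟨μ, h3, h4, h5⟩ := ee_st h hB hs h1
  refine ⟨l, μ, h4, h3, ee_inac h.inac h2 h1, ee_inac h.inac h5 h3, fun β hβ => ?_⟩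
  by_contra hc
  obtain ⟨E, hE, k1, k2, rfl, -, k5, k6⟩ := h2 0 h.1
  have h6 := k1.crit_limit.succ_lt hβ
  obtain ⟨k7, k8⟩ := ee_mem_K k1 k2 (IsZ.ord_mem_of_le N h.2.1 (h6.trans h1).le)
    (by rwa [rank_toZFSet])
  have k9 := k1.mono k5 k8 fun x hx => by
    obtain ⟨h7, h8⟩ := mem_cut.1 hx
    obtain ⟨h9, h10⟩ := mem_sep.1 h7
    obtain ⟨κ, -, rfl⟩ := mem_toZFSet_iff.1 h9
    rw [rank_toZFSet] at h8 h10
    exact toZFSet_mem_toZFSet_iff.2 (Order.lt_succ_of_le (not_lt.1 fun k => hc ⟨κ, h8, k, h10⟩))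
  rw [k6, k1.fix _ k7] at k9
  exact h6.not_gt (toZFSet_mem_toZFSet_iff.1 (k9 (mem_cut.2 ⟨mem_sep.2
    ⟨toZFSet_mem_toZFSet_iff.2 h1, E, hE, k1, k2, (rank_toZFSet _).symm⟩, by
      rw [rank_toZFSet]; exact k1.crit_lt_len⟩)))
theorem bkg_Vs (N : Set V) [IsZ N] {θ : Ordinal.{0}} (μ : Ordinal.{0}) : Bkg N (Vs N θ) μ :=
  fun E hE h1 h2 _ _ => ⟨E, (mem_Vs.1 hE).1, h1, subset_rfl, rfl, rfl,
    h2.trans (ee_cut_Vs N ((ee_len_lt h1).trans (mem_Vs.1 hE).2).le)⟩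
-- JOB E END

end Pool.Agent.Lib.MP_f9eb18_lc.W
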