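import Pool.Agent.Lib.MP_f9eb18_lc.W.Z6

/-! # Forcing over transitive models: names, generic extensions, the forcing relation -/

namespace Pool.Agent.Lib.MP_f9eb18_lc.W

open Ordinal ZFSet
set_option linter.style.haveILetI false
set_option linter.unusedVariables false
set_option synthInstance.maxSize 100000

variable {F : Fr}

/-- `le` is a preorder on `P`; `(q, p) ∈ le` means that `q` extends `p` -/
structure IsPO (P le : V) : Prop where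
  sub : le ⊆ prod P P
  refl : ∀ p ∈ P, pair p p ∈ le
  trans : ∀ p ∈ P, ∀ q ∈ P, ∀ r ∈ P, pair p q ∈ le → pair q r ∈ le → pair p r ∈ le

def Dense (P le D : V) : Prop := D ⊆ P ∧ ∀ p ∈ P, ∃ q ∈ D, pair q p ∈ le

structure Gen (M : Set V) (P le G : V) : Prop where
  sub : G ⊆ P
  ne : G.Nonempty
  up : ∀ q ∈ G, ∀ p ∈ P, pair q p ∈ le → p ∈ G
  dir : ∀ p ∈ G, ∀ q ∈ G, ∃ r ∈ G, pair r p ∈ le ∧ pair r q ∈ le
  meet : ∀ D ∈ M, Dense P le D → ∃ p ∈ G, p ∈ D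

/-- value of a name (every set is a name) -/
noncomputable def val (G τ : V) : V :=
  grec dom (fun t f => img (app f) (ZFSet.sep (fun s => ∃ p ∈ G, pair s p ∈ t) (dom t))) τ
/-- check names -/
noncomputable def chk (P x : V) : V := grec (fun z => z) (fun _ f => prod (ran f) P) x
/-- the generic extension -/
def gext (M : Set V) (G : V) : Set V := {x | ∃ τ ∈ M, val G τ = x}

-- JOB A BEGIN
theorem f0a_lt {σ p τ : V} (h : pair σ p ∈ τ) : σ.rank < τ.rank :=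
  (rank_lt_of_mem (mem_singleton.2 rfl)).trans
    ((rank_lt_of_mem (show ({σ} : V) ∈ pair σ p by simp [pair])).trans (rank_lt_of_mem h))
theorem f0a_acc (τ : V) : AccP dom τ :=
  Subrelation.accessible (r := InvImage (· < ·) ZFSet.rank)
    (fun h => (mem_dom.1 h).elim fun _ k => f0a_lt k) ((InvImage.wf _ wellFounded_lt).apply τ)
theorem mem_val {G τ x : V} : x ∈ val G τ ↔ ∃ σ p, pair σ p ∈ τ ∧ p ∈ G ∧ val G σ = x := by
  rw [val, grec_eq _ (f0a_acc τ), mem_img]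
  constructor
  · rintro ⟨σ, h, e⟩
    obtain ⟨h1, p, hp, h2⟩ := mem_sep.1 h
    exact ⟨σ, p, h2, hp, (app_lam _ h1).symm.trans e⟩
  · rintro ⟨σ, p, h, hp, e⟩
    have h1 := mem_dom.2 ⟨p, h⟩
    exact ⟨σ, mem_sep.2 ⟨h1, p, hp, h⟩, (app_lam _ h1).trans e⟩
theorem mem_chk {P x z : V} : z ∈ chk P x ↔ ∃ y ∈ x, ∃ p ∈ P, z = pair (chk P y) p := by
  rw [chk, grec_eq _ (accP_id x), mem_prod]
  constructor
  · rintro ⟨a, ha, p, hp, rfl⟩
    obtain ⟨y, hy⟩ := mem_ran.1 ha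
    obtain ⟨h1, rfl⟩ := pair_mem_lam.1 hy
    exact ⟨y, h1, p, hp, rfl⟩
  · rintro ⟨y, hy, p, hp, rfl⟩
    exact ⟨_, mem_ran.2 ⟨y, pair_mem_lam.2 ⟨hy, rfl⟩⟩, p, hp, rfl⟩
theorem val_chk {P G : V} (hs : G ⊆ P) (hne : G.Nonempty) (x : V) : val G (chk P x) = x := by
  induction x using ZFSet.inductionOn with
  | _ x ih =>
    ext z
    rw [mem_val]
    constructor
    · rintro ⟨σ, p, h, -, rfl⟩
      obtain ⟨y, hy, q, -, e⟩ := mem_chk.1 h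
      rwa [(pair_injective e).1, ih y hy]
    · intro hz
      obtain ⟨p, hp⟩ := hne
      exact ⟨_, p, mem_chk.2 ⟨z, hz, p, hs hp, rfl⟩, hp, ih z hz⟩
theorem rank_val_le (G τ : V) : (val G τ).rank ≤ τ.rank := by
  induction f0a_acc τ with
  | intro τ _ ih =>
    refine rank_le_iff.2 fun x hx => ?_
    obtain ⟨σ, p, h, -, rfl⟩ := mem_val.1 hx
    exact (ih σ (mem_dom.2 ⟨p, h⟩)).trans_lt (f0a_lt h)
theorem coe_img_val (H G : V) : ((img (val G) H : V) : Set V) = gext (H : Set V) G :=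
  Set.ext fun _ => mem_img
section inst
variable {a b c d : Set V → (ℕ → V) → V} {D : Set V → (ℕ → V) → Set V}
instance uf_val [UF F a] [UF F b] : UF F (fun M v => val (a M v) (b M v)) := by
  have := UF.lift (F := F) a; unfold val; infer_instance
instance uf_chk [UF F a] [UF F b] : UF F (fun M v => chk (a M v) (b M v)) := by
  have := UF.lift (F := F) a; unfold chk; infer_instance
instance ud_isPO [UF F a] [UF F b] : UD F (fun M v => IsPO (a M v) (b M v)) :=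
  haveI := UF.lift (F := F) a; haveI := UF.lift (F := F) b
  (inferInstance : UD F (fun M v => b M v ⊆ prod (a M v) (a M v) ∧
    (∀ p ∈ a M v, pair p p ∈ b M v) ∧ ∀ p ∈ a M v, ∀ q ∈ a M v, ∀ r ∈ a M v,
      pair p q ∈ b M v → pair q r ∈ b M v → pair p r ∈ b M v)).congr fun _ _ _ _ =>
    ⟨fun h => ⟨h.1, h.2, h.3⟩, fun h => ⟨h.1, h.2.1, h.2.2⟩⟩
instance ud_dense [UF F a] [UF F b] [UF F c] :
    UD F (fun M v => Dense (a M v) (b M v) (c M v)) := by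
  have := UF.lift (F := F) b; have := UF.lift (F := F) c; unfold Dense; infer_instance
end inst
theorem exists_gen {M : Set V} (hc : M.Countable) {P le p : V} (h : IsPO P le) (hp : p ∈ P) :
    ∃ G, Gen M P le G ∧ p ∈ G := by
  obtain ⟨f, hf⟩ := Set.countable_iff_exists_subset_range.1 hc
  have st : ∀ (n : ℕ) (q : P), ∃ r : P, pair r.1 q.1 ∈ le ∧ (Dense P le (f n) → r.1 ∈ f n) := by
    intro n q
    by_cases hd : Dense P le (f n)
    · obtain ⟨r, hr, k⟩ := hd.2 _ q.2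
      exact ⟨⟨r, hd.1 hr⟩, k, fun _ => hr⟩
    · exact ⟨q, h.refl _ q.2, fun k => absurd k hd⟩
  choose g h1 h2 using st
  let s : ℕ → P := fun n => Nat.rec ⟨p, hp⟩ g n
  have hs : ∀ m n, m ≤ n → pair (s n).1 (s m).1 ∈ le := fun m n k => by
    induction k with
    | refl => exact h.refl _ (s m).2
    | @step n _ ih => exact h.trans _ (s (n + 1)).2 _ (s n).2 _ (s m).2 (h1 n _) ih
  have hm : ∀ n, (s n).1 ∈ ZFSet.sep (fun q => ∃ n, pair (s n).1 q ∈ le) P := fun n =>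
    mem_sep.2 ⟨(s n).2, n, hs n n le_rfl⟩
  refine ⟨_, ⟨fun q hq => (mem_sep.1 hq).1, ⟨_, hm 0⟩, fun q hq r hr k => ?_,
    fun q hq r hr => ?_, fun D hD hd => ?_⟩, hm 0⟩
  · obtain ⟨h3, n, h4⟩ := mem_sep.1 hq
    exact mem_sep.2 ⟨hr, n, h.trans _ (s n).2 _ h3 _ hr h4 k⟩
  · obtain ⟨h3, m, h4⟩ := mem_sep.1 hq
    obtain ⟨h5, n, h6⟩ := mem_sep.1 hr
    exact ⟨_, hm (max m n), h.trans _ (s _).2 _ (s m).2 _ h3 (hs _ _ (le_max_left _ _)) h4,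
      h.trans _ (s _).2 _ (s n).2 _ h5 (hs _ _ (le_max_right _ _)) h6⟩
  · obtain ⟨n, rfl⟩ := hf hD
    exact ⟨_, hm (n + 1), h2 n _ hd⟩
theorem Gen.mono {M M' : Set V} {P le G : V} (h : Gen M' P le G) (hs : M ⊆ M') : Gen M P le G :=
  ⟨h.sub, h.ne, h.up, h.dir, fun D hD => h.meet D (hs hD)⟩
/-- genericity for sets dense below a condition of `G` -/
theorem Gen.meet_below {M : Set V} [IsZ M] {P le G p D : V} (hpo : IsPO P le) (hP : P ∈ M)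
    (hle : le ∈ M) (h : Gen M P le G) (hp : p ∈ G) (hD : D ∈ M)
    (hd : ∀ q ∈ P, pair q p ∈ le → ∃ r ∈ D, r ∈ P ∧ pair r q ∈ le) : ∃ r ∈ G, r ∈ D := by
  haveI : In M P := ⟨hP⟩
  haveI : In M le := ⟨hle⟩
  haveI : In M D := ⟨hD⟩
  haveI : In M p := ⟨IsZ.trans _ hP _ (h.sub hp)⟩
  obtain ⟨r, hr, k⟩ := h.meet _
    (sep_mem M (fun r => r ∈ D ∨ ¬ ∃ s ∈ P, pair s r ∈ le ∧ pair s p ∈ le) hP)
    ⟨fun r hr => (mem_sep.1 hr).1, fun q hq => by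
      by_cases hc : ∃ s ∈ P, pair s q ∈ le ∧ pair s p ∈ le
      · obtain ⟨s, hs, k1, k2⟩ := hc
        obtain ⟨r, h1, h2, h3⟩ := hd s hs k2
        exact ⟨r, mem_sep.2 ⟨h2, Or.inl h1⟩, hpo.trans _ h2 _ hs _ hq h3 k1⟩
      · exact ⟨q, mem_sep.2 ⟨hq, Or.inr hc⟩, hpo.refl q hq⟩⟩
  obtain ⟨s, hs, k1⟩ := h.dir r hr p hp
  exact ⟨r, hr, (mem_sep.1 k).2.resolve_right (not_not.2 ⟨s, h.sub hs, k1⟩)⟩
section basic
variable {M : Set V} [IsZ M] {P le G : V}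
theorem gext_trans : ∀ x ∈ gext M G, ∀ y ∈ x, y ∈ gext M G := by
  rintro _ ⟨τ, hτ, rfl⟩ y hy
  obtain ⟨σ, p, h, -, rfl⟩ := mem_val.1 hy
  haveI : In M τ := ⟨hτ⟩
  exact ⟨σ, IsZ.trans _ (memV_of M (dom τ)) _ (mem_dom.2 ⟨p, h⟩), rfl⟩
theorem subset_gext (hP : P ∈ M) (h : Gen M P le G) : M ⊆ gext M G := fun x hx =>
  haveI : In M P := ⟨hP⟩
  haveI : In M x := ⟨hx⟩
  ⟨_, memV_of M (chk P x), val_chk h.sub h.ne x⟩
theorem gen_mem_gext (hP : P ∈ M) (h : Gen M P le G) : G ∈ gext M G := by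
  haveI : In M P := ⟨hP⟩
  refine ⟨_, memV_of M (img (fun p => pair (chk P p) p) P), ZFSet.ext fun x => ?_⟩
  rw [mem_val]
  constructor
  · rintro ⟨σ, p, h1, hp, rfl⟩
    obtain ⟨q, -, e⟩ := mem_img.1 h1
    obtain ⟨rfl, rfl⟩ := pair_injective e
    rwa [val_chk h.sub h.ne]
  · exact fun hx => ⟨_, x, mem_img.2 ⟨x, h.sub hx, rfl⟩, hx, val_chk h.sub h.ne x⟩
theorem ord_mem_of_gext {o : Ordinal.{0}} (ho : o.toZFSet ∈ gext M G) : o.toZFSet ∈ M := by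
  obtain ⟨τ, hτ, e⟩ := ho
  have h1 := rank_val_le G τ
  rw [e, rank_toZFSet] at h1
  exact IsZ.ord_mem_of_le M (IsZ.rank_mem M hτ) h1
theorem gext_min {N : Set V} [IsZ N] (hs : M ⊆ N) (hG : G ∈ N) : gext M G ⊆ N := by
  rintro _ ⟨τ, hτ, rfl⟩
  haveI : In N G := ⟨hG⟩
  haveI : In N τ := ⟨hs hτ⟩
  exact memV_of N (val G τ)
end basic
theorem gext_countable {M : Set V} (hc : M.Countable) (G : V) : (gext M G).Countable :=
  hc.image (val G)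
-- JOB A END

-- JOB B BEGIN
/-- `r` puts the name `ρ` into `τ` -/
def f0bT (le r ρ τ : V) (e : V → V → V) : Prop :=
  ∃ π t, pair π t ∈ τ ∧ pair r t ∈ le ∧ r ∈ e ρ π
/-- `p` forces that `σ` is contained in `τ` -/
def f0bS (P le p σ τ : V) (e : V → V → V) : Prop :=
  ∀ ρ s, pair ρ s ∈ σ → ∀ q ∈ P, pair q p ∈ le → pair q s ∈ le →
    ∃ r ∈ P, pair r q ∈ le ∧ f0bT le r ρ τ e
/-- the conditions that force the equality of two names -/
noncomputable def f0bE (P le x : V) : V :=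
  grec (fun x => prod (dom (fst x)) (dom (snd x))) (fun x f => ZFSet.sep (fun p =>
    f0bS P le p (fst x) (snd x) (fun ρ π => app f (pair ρ π)) ∧
      f0bS P le p (snd x) (fst x) (fun π ρ => app f (pair ρ π))) P) x
instance f0b_uf {a b c : Set V → (ℕ → V) → V} [UF F a] [UF F b] [UF F c] :
    UF F (fun M v => f0bE (a M v) (b M v) (c M v)) := by
  have := UF.lift (F := F) a; have := UF.lift (F := F) b
  unfold f0bE f0bS f0bT; infer_instance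
theorem f0b_rank {ρ s σ : V} (h : pair ρ s ∈ σ) : ρ.rank < σ.rank :=
  (rank_lt_of_mem (mem_UU_left h)).trans_le ((rank_sUnion_le _).trans (rank_sUnion_le _))
theorem f0b_ind (Q : V → Prop) (h : ∀ σ, (∀ ρ s, pair ρ s ∈ σ → Q ρ) → Q σ) (σ : V) : Q σ := by
  induction hr : σ.rank using WellFoundedLT.induction generalizing σ with
  | ind o ih => exact h σ fun ρ s k => ih _ (hr ▸ f0b_rank k) ρ rfl
theorem f0b_acc (σ : V) :
    ∀ τ, AccP (fun x => prod (dom (fst x)) (dom (snd x))) (pair σ τ) := by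
  induction σ using f0b_ind with
  | h σ ih =>
    refine fun τ => Acc.intro _ fun y hy => ?_
    simp only [fst_pair, snd_pair] at hy
    obtain ⟨ρ, h1, π, -, rfl⟩ := mem_prod.1 hy
    obtain ⟨s, hs⟩ := mem_dom.1 h1
    exact ih ρ s hs π
theorem f0b_congr {P le p σ τ : V} {e e' : V → V → V}
    (h : ∀ ρ ∈ dom σ, ∀ π ∈ dom τ, e ρ π = e' ρ π) (k : f0bS P le p σ τ e) :
    f0bS P le p σ τ e' := fun ρ s h1 q h2 h3 h4 =>
  let ⟨r, k1, k2, π, t, k3, k4, k5⟩ := k ρ s h1 q h2 h3 h4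
  ⟨r, k1, k2, π, t, k3, k4, h ρ (mem_dom.2 ⟨s, h1⟩) π (mem_dom.2 ⟨t, k3⟩) ▸ k5⟩
theorem f0b_mem {P le p σ τ : V} : p ∈ f0bE P le (pair σ τ) ↔ p ∈ P ∧
    f0bS P le p σ τ (fun ρ π => f0bE P le (pair ρ π)) ∧
      f0bS P le p τ σ (fun π ρ => f0bE P le (pair ρ π)) := by
  rw [f0bE, grec_eq _ (f0b_acc σ τ), mem_sep, fst_pair, snd_pair]
  have k := fun ρ (h1 : ρ ∈ dom σ) π (h2 : π ∈ dom τ) =>
    app_lam (f0bE P le) (pair_mem_prod.2 ⟨h1, h2⟩)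
  exact and_congr_right fun _ => and_congr
    ⟨f0b_congr fun ρ h1 π h2 => k ρ h1 π h2, f0b_congr fun ρ h1 π h2 => (k ρ h1 π h2).symm⟩
    ⟨f0b_congr fun π h2 ρ h1 => k ρ h1 π h2, f0b_congr fun π h2 ρ h1 => (k ρ h1 π h2).symm⟩
theorem f0b_tr {P le p q r : V} (h : IsPO P le) (h1 : pair p q ∈ le) (h2 : pair q r ∈ le) :
    pair p r ∈ le :=
  h.trans p (pair_mem_prod.1 (h.sub h1)).1 q (pair_mem_prod.1 (h.sub h1)).2 r
    (pair_mem_prod.1 (h.sub h2)).2 h1 h2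
theorem f0b_monoS {P le p q σ τ : V} {e : V → V → V} (h : IsPO P le) (hq : pair q p ∈ le)
    (k : f0bS P le p σ τ e) : f0bS P le q σ τ e :=
  fun ρ s h1 r h2 h3 => k ρ s h1 r h2 (f0b_tr h h3 hq)
theorem f0b_mono {P le p q σ τ : V} (h : IsPO P le) (hq : pair q p ∈ le)
    (k : p ∈ f0bE P le (pair σ τ)) : q ∈ f0bE P le (pair σ τ) :=
  let ⟨_, k1, k2⟩ := f0b_mem.1 k
  f0b_mem.2 ⟨(pair_mem_prod.1 (h.sub hq)).1, f0b_monoS h hq k1, f0b_monoS h hq k2⟩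
theorem f0b_up {M : Set V} {P le G p q : V} (hpo : IsPO P le) (h : Gen M P le G) (hq : q ∈ G)
    (k : pair q p ∈ le) : p ∈ G := h.up q hq p (pair_mem_prod.1 (hpo.sub k)).2 k
theorem f0b_sub {M : Set V} [IsZ M] {P le G p σ τ : V} {e : V → V → V} (hpo : IsPO P le)
    (hP : P ∈ M) (hle : le ∈ M) (h : Gen M P le G) (hp : p ∈ G) (k : f0bS P le p σ τ e)
    (hD : ∀ ρ s, pair ρ s ∈ σ → ZFSet.sep (fun r => f0bT le r ρ τ e) P ∈ M)
    (ih : ∀ ρ s π t, pair ρ s ∈ σ → pair π t ∈ τ → ∀ r ∈ G, r ∈ e ρ π → val G ρ = val G π) :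
    val G σ ⊆ val G τ := fun x hx => by
  obtain ⟨ρ, s, h1, h2, rfl⟩ := mem_val.1 hx
  obtain ⟨p', h3, h4, h5⟩ := h.dir p hp s h2
  obtain ⟨r, h6, h7⟩ := h.meet_below hpo hP hle h3 (hD ρ s h1) fun q hq hq' =>
    let ⟨r, k1, k2, k3⟩ := k ρ s h1 q hq (f0b_tr hpo hq' h4) (f0b_tr hpo hq' h5)
    ⟨r, mem_sep.2 ⟨k1, k3⟩, k1, k2⟩
  obtain ⟨π, t, k1, k2, k3⟩ := (mem_sep.1 h7).2
  exact mem_val.2 ⟨π, t, k1, f0b_up hpo h h6 k2, (ih ρ s π t h1 k1 r h6 k3).symm⟩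
theorem f0b_frc {M : Set V} {P le G σ τ : V} {e : V → V → V} (hpo : IsPO P le)
    (h : Gen M P le G) (k : val G σ ⊆ val G τ)
    (hD : ZFSet.sep (fun p => f0bS P le p σ τ e ∨ ∃ ρ s, pair ρ s ∈ σ ∧ pair p s ∈ le ∧
      ¬ ∃ r ∈ P, pair r p ∈ le ∧ f0bT le r ρ τ e) P ∈ M)
    (hm : ∀ ρ π p q, pair q p ∈ le → p ∈ e ρ π → q ∈ e ρ π)
    (ih : ∀ ρ s π t, pair ρ s ∈ σ → pair π t ∈ τ → val G ρ = val G π → ∃ r ∈ G, r ∈ e ρ π) :
    ∃ p ∈ G, f0bS P le p σ τ e := by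
  obtain ⟨p, hp, h1⟩ := h.meet _ hD ⟨sep_subset, fun p hp => by
    by_cases h0 : f0bS P le p σ τ e
    · exact ⟨p, mem_sep.2 ⟨hp, Or.inl h0⟩, hpo.refl p hp⟩
    · simp only [f0bS, not_forall] at h0
      obtain ⟨ρ, s, k1, q, k2, k3, k4, k5⟩ := h0
      exact ⟨q, mem_sep.2 ⟨k2, Or.inr ⟨ρ, s, k1, k4, k5⟩⟩, k3⟩⟩
  refine ⟨p, hp, (mem_sep.1 h1).2.resolve_right fun ⟨ρ, s, k1, k2, k3⟩ => k3 ?_⟩
  obtain ⟨π, t, k4, k5, k6⟩ := mem_val.1 (k (mem_val.2 ⟨ρ, s, k1, f0b_up hpo h hp k2, rfl⟩))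
  obtain ⟨p0, k7, k8⟩ := ih ρ s π t k1 k4 k6.symm
  obtain ⟨q, q1, q2, q3⟩ := h.dir p hp t k5
  obtain ⟨r, r1, r2, r3⟩ := h.dir q q1 p0 k7
  exact ⟨r, h.sub r1, f0b_tr hpo r2 q2, π, t, k4, f0b_tr hpo r2 q3, hm ρ π p0 r r3 k8⟩
theorem f0b_in {M : Set V} [IsZ M] {ρ s σ : V} (hσ : σ ∈ M) (h : pair ρ s ∈ σ) : ρ ∈ M := by
  haveI : In M σ := ⟨hσ⟩
  exact IsZ.trans _ (memV_of M (dom σ)) _ (mem_dom.2 ⟨s, h⟩)
theorem f0b_truth {M : Set V} [IsZ M] {P le G : V} (hpo : IsPO P le) (hP : P ∈ M) (hle : le ∈ M)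
    (h : Gen M P le G) (σ : V) : σ ∈ M → ∀ τ ∈ M,
      (val G σ = val G τ ↔ ∃ p ∈ G, p ∈ f0bE P le (pair σ τ)) := by
  induction σ using f0b_ind with
  | h σ ih =>
    intro hσ τ hτ
    haveI : In M P := ⟨hP⟩
    haveI : In M le := ⟨hle⟩
    haveI : In M σ := ⟨hσ⟩
    haveI : In M τ := ⟨hτ⟩
    have ih' := fun ρ s π t (h1 : pair ρ s ∈ σ) (h2 : pair π t ∈ τ) =>
      ih ρ s h1 (f0b_in hσ h1) π (f0b_in hτ h2)
    refine ⟨fun e => ?_, fun ⟨p, hp, k⟩ => ?_⟩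
    · obtain ⟨p, p1, p2⟩ := f0b_frc (e := fun ρ π => f0bE P le (pair ρ π)) hpo h e.subset
        (by unfold f0bS f0bT; exact memV_of M _) (fun _ _ _ _ => f0b_mono hpo)
        fun ρ s π t h1 h2 => (ih' ρ s π t h1 h2).1
      obtain ⟨q, q1, q2⟩ := f0b_frc (e := fun π ρ => f0bE P le (pair ρ π)) hpo h e.superset
        (by unfold f0bS f0bT; exact memV_of M _) (fun _ _ _ _ => f0b_mono hpo)
        fun π t ρ s h2 h1 k => (ih' ρ s π t h1 h2).1 k.symm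
      obtain ⟨r, r1, r2, r3⟩ := h.dir p p1 q q1
      exact ⟨r, r1, f0b_mem.2 ⟨h.sub r1, f0b_monoS hpo r2 p2, f0b_monoS hpo r3 q2⟩⟩
    · obtain ⟨-, k1, k2⟩ := f0b_mem.1 k
      refine subset_antisymm
        (f0b_sub hpo hP hle h hp k1 (fun ρ s h1 => ?_)
          fun ρ s π t h1 h2 r r1 r2 => (ih' ρ s π t h1 h2).2 ⟨r, r1, r2⟩)
        (f0b_sub hpo hP hle h hp k2 (fun π t h2 => ?_)
          fun π t ρ s h2 h1 r r1 r2 => ((ih' ρ s π t h1 h2).2 ⟨r, r1, r2⟩).symm)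
      · haveI : In M ρ := ⟨f0b_in hσ h1⟩
        unfold f0bT; exact memV_of M _
      · haveI : In M π := ⟨f0b_in hτ h2⟩
        unfold f0bT; exact memV_of M _
/-- existence of the atomic forcing relations `p ⊩ σ ∈ τ` and `p ⊩ σ = τ` -/
theorem exists_atomic : ∃ (FM FE : V → V → V → V → V → Prop),
    (∀ (F : Fr) (a b c d e : Set V → (ℕ → V) → V) [UF F a] [UF F b] [UF F c] [UF F d] [UF F e],
      UD F (fun M v => FM (a M v) (b M v) (c M v) (d M v) (e M v)) ∧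
      UD F (fun M v => FE (a M v) (b M v) (c M v) (d M v) (e M v))) ∧
    (∀ P le, IsPO P le → ∀ p q σ τ, pair q p ∈ le →
      (FM P le p σ τ → FM P le q σ τ) ∧ (FE P le p σ τ → FE P le q σ τ)) ∧
    ∀ (M : Set V) [IsZ M] (P le G : V), IsPO P le → P ∈ M → le ∈ M → Gen M P le G →
      ∀ σ ∈ M, ∀ τ ∈ M, (val G σ ∈ val G τ ↔ ∃ p ∈ G, FM P le p σ τ) ∧
        (val G σ = val G τ ↔ ∃ p ∈ G, FE P le p σ τ) := by
  refine ⟨fun P le p σ τ => f0bT le p σ τ fun ρ π => f0bE P le (pair ρ π),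
    fun P le p σ τ => p ∈ f0bE P le (pair σ τ), fun F a b c d e _ _ _ _ _ => ⟨?_, inferInstance⟩,
    fun P le h p q σ τ hq => ⟨fun ⟨π, t, k1, k2, k3⟩ =>
      ⟨π, t, k1, f0b_tr h hq k2, f0b_mono h hq k3⟩, f0b_mono h hq⟩,
    fun M _ P le G hpo hP hle h σ hσ τ hτ => ⟨⟨fun k => ?_, fun ⟨p, hp, π, t, k1, k2, k3⟩ => ?_⟩,
      f0b_truth hpo hP hle h σ hσ τ hτ⟩⟩
  · have := UF.lift (F := F) a; have := UF.lift (F := F) b; have := UF.lift (F := F) c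
    have := UF.lift (F := F) d
    unfold f0bT; infer_instance
  · obtain ⟨π, t, k1, k2, k3⟩ := mem_val.1 k
    obtain ⟨p, p1, p2⟩ := (f0b_truth hpo hP hle h σ hσ π (f0b_in hτ k1)).1 k3.symm
    obtain ⟨r, r1, r2, r3⟩ := h.dir p p1 t k2
    exact ⟨r, r1, π, t, k1, r3, f0b_mono hpo r2 p2⟩
  · exact mem_val.2 ⟨π, t, k1, f0b_up hpo h hp k2,
      ((f0b_truth hpo hP hle h σ hσ π (f0b_in hτ k1)).2 ⟨p, hp, k3⟩).symm⟩
-- JOB B END

noncomputable def FM : V → V → V → V → V → Prop := exists_atomic.choose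
noncomputable def FE : V → V → V → V → V → Prop := exists_atomic.choose_spec.choose

/-- the forcing relation of `M` -/
def Frc (M : Set V) (P le : V) : Fo → V → (ℕ → V) → Prop
  | .mem i j, p, τ => FM P le p (τ i) (τ j)
  | .eq i j, p, τ => FE P le p (τ i) (τ j)
  | .neg φ, p, τ => ∀ q ∈ P, pair q p ∈ le → ¬ Frc M P le φ q τ
  | .and φ ψ, p, τ => Frc M P le φ p τ ∧ Frc M P le ψ p τ
  | .ex φ, p, τ => ∀ q ∈ P, pair q p ∈ le → ∃ r ∈ P, pair r q ∈ le ∧ ∃ σ ∈ M,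
      Frc M P le φ r (cons σ τ)

-- JOB C BEGIN
instance f0c_ud_FM {a b c d e : Set V → (ℕ → V) → V} [UF F a] [UF F b] [UF F c] [UF F d]
    [UF F e] : UD F (fun M v => FM (a M v) (b M v) (c M v) (d M v) (e M v)) :=
  (exists_atomic.choose_spec.choose_spec.1 F a b c d e).1
instance f0c_ud_FE {a b c d e : Set V → (ℕ → V) → V} [UF F a] [UF F b] [UF F c] [UF F d]
    [UF F e] : UD F (fun M v => FE (a M v) (b M v) (c M v) (d M v) (e M v)) :=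
  (exists_atomic.choose_spec.choose_spec.1 F a b c d e).2
theorem f0c_mono {P le : V} (h : IsPO P le) {p q σ τ : V} (hq : pair q p ∈ le) :
    (FM P le p σ τ → FM P le q σ τ) ∧ (FE P le p σ τ → FE P le q σ τ) :=
  exists_atomic.choose_spec.choose_spec.2.1 P le h p q σ τ hq
theorem f0c_atom {M : Set V} [IsZ M] {P le G : V} (hpo : IsPO P le) (hP : P ∈ M) (hle : le ∈ M)
    (h : Gen M P le G) {σ τ : V} (hσ : σ ∈ M) (hτ : τ ∈ M) :
    (val G σ ∈ val G τ ↔ ∃ p ∈ G, FM P le p σ τ) ∧ (val G σ = val G τ ↔ ∃ p ∈ G, FE P le p σ τ) :=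
  exists_atomic.choose_spec.choose_spec.2.2 M P le G hpo hP hle h σ hσ τ hτ

instance ud_frc (φ : Fo) {D : Set V → (ℕ → V) → Set V} {a b c : Set V → (ℕ → V) → V}
    {g : Set V → (ℕ → V) → (ℕ → V)} [UC F D] [UF F a] [UF F b] [UF F c] [UV F g] :
    UD F (fun M v => Frc (D M v) (a M v) (b M v) φ (c M v) (g M v)) := by
  induction φ generalizing D a b c g with
  | mem i j =>
    exact (inferInstance : UD F (fun M v => FM (a M v) (b M v) (c M v) (vr (g M v) i)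
      (vr (g M v) j)))
  | eq i j =>
    exact (inferInstance : UD F (fun M v => FE (a M v) (b M v) (c M v) (vr (g M v) i)
      (vr (g M v) j)))
  | neg φ ih =>
    have := UC.lift (F := F) D; have := UV.lift (F := F) g; have := UF.lift (F := F) a
    have := UF.lift (F := F) b; have := UF.lift (F := F) c
    have := @ih
    exact (inferInstance : UD F (fun M v => ∀ q ∈ a M v, pair q (c M v) ∈ b M v →
      ¬ Frc (D M v) (a M v) (b M v) φ q (g M v)))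
  | and φ ψ ih ih' => exact UD.and (h := ih) (k := ih')
  | ex φ ih =>
    have := UC.lift (F := F) D; have := UV.lift (F := F) g; have := UF.lift (F := F) a
    have := UF.lift (F := F) b; have := UF.lift (F := F) c
    have := @ih
    exact (inferInstance : UD F (fun M v => ∀ q ∈ a M v, pair q (c M v) ∈ b M v →
      ∃ r ∈ a M v, pair r q ∈ b M v ∧ ∃ σ ∈ D M v,
        Frc (D M v) (a M v) (b M v) φ r (cons σ (g M v))))
theorem f0c_trans {P le p q r : V} (h : IsPO P le) (h1 : pair r q ∈ le) (h2 : pair q p ∈ le) :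
    pair r p ∈ le :=
  h.trans r (pair_mem_prod.1 (h.sub h1)).1 q (pair_mem_prod.1 (h.sub h1)).2 p
    (pair_mem_prod.1 (h.sub h2)).2 h1 h2
theorem Frc.mono {M : Set V} {P le : V} (h : IsPO P le) {φ : Fo} {p q : V} {τ : ℕ → V}
    (hq : pair q p ∈ le) (hf : Frc M P le φ p τ) : Frc M P le φ q τ := by
  induction φ generalizing τ with
  | mem i j => exact (f0c_mono h hq).1 hf
  | eq i j => exact (f0c_mono h hq).2 hf
  | neg φ ih => exact fun r hr hrq => hf r hr (f0c_trans h hrq hq)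
  | and φ ψ ih ih' => exact ⟨ih hf.1, ih' hf.2⟩
  | ex φ ih => exact fun r hr hrq => hf r hr (f0c_trans h hrq hq)
theorem frc_congr {M : Set V} {P le : V} (φ : Fo) {p : V} {τ τ' : ℕ → V}
    (h : ∀ i < φ.fv, τ i = τ' i) : Frc M P le φ p τ ↔ Frc M P le φ p τ' := by
  induction φ generalizing p τ τ' with
  | mem i j =>
    simp only [Frc]
    rw [h i (by simp only [Fo.fv]; omega), h j (by simp only [Fo.fv]; omega)]
  | eq i j =>
    simp only [Frc]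
    rw [h i (by simp only [Fo.fv]; omega), h j (by simp only [Fo.fv]; omega)]
  | neg φ ih =>
    exact forall_congr' fun q => forall_congr' fun _ => forall_congr' fun _ => not_congr (ih h)
  | and φ ψ ih1 ih2 =>
    exact and_congr (ih1 fun i hi => h i (by simp only [Fo.fv]; omega))
      (ih2 fun i hi => h i (by simp only [Fo.fv]; omega))
  | ex φ ih =>
    refine forall_congr' fun q => forall_congr' fun _ => forall_congr' fun _ =>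
      exists_congr fun r => and_congr_right fun _ => and_congr_right fun _ =>
        exists_congr fun σ => and_congr_right fun _ => ih fun i hi => ?_
    cases i with
    | zero => rfl
    | succ i => exact h i (by simp only [Fo.fv]; omega)
theorem f0c_uv {M : Set V} [IsZ M] {τ : ℕ → V} (hτ : ∀ i, τ i ∈ M) :
    UV (loc M) (fun _ _ => τ) :=
  ⟨fun i => haveI : In M (τ i) := ⟨hτ i⟩; UF.const M (τ i)⟩
section truth
variable {M : Set V} {P le G : V}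
/-- truth lemma -/
theorem truth [IsZ M] (hpo : IsPO P le) (hP : P ∈ M) (hle : le ∈ M) (h : Gen M P le G) (φ : Fo)
    {τ : ℕ → V} (hτ : ∀ i, τ i ∈ M) :
    Sat1 (gext M G) φ (val G ∘ τ) ↔ ∃ p ∈ G, Frc M P le φ p τ := by
  haveI : In M P := ⟨hP⟩
  haveI : In M le := ⟨hle⟩
  induction φ generalizing τ with
  | mem i j => exact (f0c_atom hpo hP hle h (hτ i) (hτ j)).1
  | eq i j => exact (f0c_atom hpo hP hle h (hτ i) (hτ j)).2
  | neg φ ih =>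
    haveI := f0c_uv hτ
    refine (not_congr (ih hτ)).trans ⟨fun hn => ?_, fun ⟨p, hp, hf⟩ ⟨q, hq, hf'⟩ => ?_⟩
    · have hD := sep_mem M (fun q => Frc M P le φ q τ ∨
        ∀ r ∈ P, pair r q ∈ le → ¬ Frc M P le φ r τ) hP
      obtain ⟨p, hp, hpD⟩ := h.meet _ hD ⟨fun x hx => (mem_sep.1 hx).1, fun p hp => by
        by_cases hc : ∀ r ∈ P, pair r p ∈ le → ¬ Frc M P le φ r τ
        · exact ⟨p, mem_sep.2 ⟨hp, Or.inr hc⟩, hpo.refl p hp⟩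
        · simp only [not_forall, not_not] at hc
          obtain ⟨r, hr, hrp, hf⟩ := hc
          exact ⟨r, mem_sep.2 ⟨hr, Or.inl hf⟩, hrp⟩⟩
      rcases (mem_sep.1 hpD).2 with hf | hf
      · exact absurd ⟨p, hp, hf⟩ hn
      · exact ⟨p, hp, hf⟩
    · obtain ⟨r, hr, h1, h2⟩ := h.dir p hp q hq
      exact hf r (h.sub hr) h1 (hf'.mono hpo h2)
  | and φ ψ ih ih' =>
    refine (and_congr (ih hτ) (ih' hτ)).trans ⟨fun ⟨⟨p, hp, hf⟩, q, hq, hf'⟩ => ?_,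
      fun ⟨p, hp, hf⟩ => ⟨⟨p, hp, hf.1⟩, p, hp, hf.2⟩⟩
    obtain ⟨r, hr, h1, h2⟩ := h.dir p hp q hq
    exact ⟨r, hr, hf.mono hpo h1, hf'.mono hpo h2⟩
  | ex φ ih =>
    haveI := f0c_uv hτ
    constructor
    · rintro ⟨_, ⟨σ, hσ, rfl⟩, hs⟩
      rw [← comp_cons] at hs
      obtain ⟨p, hp, hf⟩ := (ih (cons_mem hσ hτ)).1 hs
      exact ⟨p, hp, fun q hq hqp => ⟨q, hq, hpo.refl q hq, σ, hσ, hf.mono hpo hqp⟩⟩
    · rintro ⟨p, hp, hf⟩
      have hD := sep_mem M (fun r => ∃ σ ∈ M, Frc M P le φ r (cons σ τ)) hP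
      obtain ⟨r, hr, hrD⟩ := Gen.meet_below hpo hP hle h hp hD fun q hq hqp => by
        obtain ⟨r, hr, hrq, hs⟩ := hf q hq hqp
        exact ⟨r, mem_sep.2 ⟨hr, hs⟩, hr, hrq⟩
      obtain ⟨σ, hσ, hs⟩ := (mem_sep.1 hrD).2
      refine ⟨val G σ, ⟨σ, hσ, rfl⟩, ?_⟩
      rw [← comp_cons]
      exact (ih (cons_mem hσ hτ)).2 ⟨r, hr, hs⟩
/-- the values of a set of names of `M` form a set of the extension -/
theorem f0c_img [IsZ M] (hP : P ∈ M) (h : Gen M P le G) {b : V} (hb : b ∈ M) :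
    img (val G) b ∈ gext M G := by
  haveI : In M P := ⟨hP⟩
  haveI : In M b := ⟨hb⟩
  refine ⟨prod b P, memV_of M _, ?_⟩
  obtain ⟨p, hp⟩ := (nonempty_def G).1 h.ne
  ext x
  rw [mem_val, mem_img]
  constructor
  · rintro ⟨σ, q, hσ, -, e⟩
    exact ⟨σ, (pair_mem_prod.1 hσ).1, e⟩
  · rintro ⟨σ, hσ, e⟩
    exact ⟨σ, p, pair_mem_prod.2 ⟨hσ, h.sub hp⟩, hp, e⟩
theorem f0c_fst_mem [IsZ M] {τ σ p : V} (hτ : τ ∈ M) (hσ : pair σ p ∈ τ) : σ ∈ M :=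
  ((IsZ.pair_mem_iff M).1 (IsZ.trans τ hτ _ hσ)).1
theorem f0c_up (hpo : IsPO P le) (h : Gen M P le G) {q p : V} (hq : q ∈ G) (hp : pair q p ∈ le) :
    p ∈ G := h.up q hq p (pair_mem_prod.1 (hpo.sub hp)).2 hp
theorem isZ_gext [IsZ M] (hpo : IsPO P le) (hP : P ∈ M) (hle : le ∈ M) (h : Gen M P le G) :
    IsZ (gext M G) := by
  haveI : In M P := ⟨hP⟩
  haveI : In M le := ⟨hle⟩
  refine ⟨gext_trans, subset_gext hP h IsZ.omega, ?_, ?_, ?_, ?_⟩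
  · rintro _ ⟨σ, hσ, rfl⟩ _ ⟨τ, hτ, rfl⟩
    have e : ({val G σ, val G τ} : V) = img (val G) {σ, τ} := by
      ext x; simp [eq_comm]
    rw [e]
    exact f0c_img hP h (IsZ.upair σ hσ τ hτ)
  · rintro _ ⟨τ, hτ, rfl⟩
    haveI : In M τ := ⟨hτ⟩
    refine ⟨rel (bU (dom τ) dom) P (fun ρ r => ∃ σ p, pair σ p ∈ τ ∧ ∃ q, pair ρ q ∈ σ ∧
      pair r p ∈ le ∧ pair r q ∈ le), memV_of M _, ?_⟩
    ext x
    rw [mem_val, mem_sUnion]
    constructor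
    · rintro ⟨ρ, r, hρ, hr, rfl⟩
      obtain ⟨-, -, σ, p, hσ, q, hq, h1, h2⟩ := pair_mem_rel.1 hρ
      exact ⟨val G σ, mem_val.2 ⟨σ, p, hσ, f0c_up hpo h hr h1, rfl⟩,
        mem_val.2 ⟨ρ, q, hq, f0c_up hpo h hr h2, rfl⟩⟩
    · rintro ⟨y, hy, hx⟩
      obtain ⟨σ, p, hσ, hp, rfl⟩ := mem_val.1 hy
      obtain ⟨ρ, q, hρ, hq, rfl⟩ := mem_val.1 hx
      obtain ⟨r, hr, h1, h2⟩ := h.dir p hp q hq
      exact ⟨ρ, r, pair_mem_rel.2 ⟨mem_bU.2 ⟨σ, mem_dom.2 ⟨p, hσ⟩, mem_dom.2 ⟨q, hρ⟩⟩, h.sub hr,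
        σ, p, hσ, q, hρ, h1, h2⟩, hr, rfl⟩
  · rintro φ v hv _ ⟨τ, hτ, rfl⟩
    choose ν hν eν using hv
    obtain rfl : val G ∘ ν = v := funext eν
    haveI : In M τ := ⟨hτ⟩
    haveI := f0c_uv hν
    refine ⟨rel (dom τ) P (fun σ r => ∃ p, pair σ p ∈ τ ∧ pair r p ∈ le ∧
      Frc M P le φ r (cons σ ν)), memV_of M _, ?_⟩
    ext x
    rw [mem_val, mem_sep]
    constructor
    · rintro ⟨σ, r, hσ, hr, rfl⟩
      obtain ⟨-, -, p, hp, h1, hf⟩ := pair_mem_rel.1 hσ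
      refine ⟨mem_val.2 ⟨σ, p, hp, f0c_up hpo h hr h1, rfl⟩, ?_⟩
      rw [← comp_cons]
      exact (truth hpo hP hle h φ (cons_mem (f0c_fst_mem hτ hp) hν)).2 ⟨r, hr, hf⟩
    · rintro ⟨hx, hs⟩
      obtain ⟨σ, p, hσ, hp, rfl⟩ := mem_val.1 hx
      rw [← comp_cons] at hs
      obtain ⟨q, hq, hf⟩ := (truth hpo hP hle h φ (cons_mem (f0c_fst_mem hτ hσ) hν)).1 hs
      obtain ⟨r, hr, h1, h2⟩ := h.dir p hp q hq
      exact ⟨σ, r, pair_mem_rel.2 ⟨mem_dom.2 ⟨p, hσ⟩, h.sub hr, p, hσ, h1, hf.mono hpo h2⟩, hr, rfl⟩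
  · rintro φ v hv _ ⟨τ, hτ, rfl⟩ hx
    choose ν hν eν using hv
    obtain rfl : val G ∘ ν = v := funext eν
    haveI : In M τ := ⟨hτ⟩
    haveI := f0c_uv hν
    obtain ⟨b, hb, H⟩ := coll_mem M (fun z ρ => (∃ ρ' ∈ M, Frc M P le φ (snd z)
      (cons ρ' (cons (fst z) ν))) → Frc M P le φ (snd z) (cons ρ (cons (fst z) ν)))
      (memV_of M (prod (dom τ) P)) fun z _ => by
        by_cases hc : ∃ ρ' ∈ M, Frc M P le φ (snd z) (cons ρ' (cons (fst z) ν))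
        · obtain ⟨ρ, hρ, hf⟩ := hc
          exact ⟨ρ, hρ, fun _ => hf⟩
        · exact ⟨∅, IsZ.empty_mem M, fun k => absurd k hc⟩
    refine ⟨_, f0c_img hP h hb, fun x hxa => ?_⟩
    obtain ⟨_, ⟨ρ', hρ', rfl⟩, hs⟩ := hx x hxa
    obtain ⟨σ, p, hσ, -, rfl⟩ := mem_val.1 hxa
    have hσM := f0c_fst_mem hτ hσ
    rw [← comp_cons, ← comp_cons] at hs
    obtain ⟨q, hq, hf⟩ := (truth hpo hP hle h φ (cons_mem hρ' (cons_mem hσM hν))).1 hs
    obtain ⟨ρ, hρ, K⟩ := H (pair σ q) (pair_mem_prod.2 ⟨mem_dom.2 ⟨p, hσ⟩, h.sub hq⟩)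
    rw [fst_pair, snd_pair] at K
    refine ⟨val G ρ, mem_img.2 ⟨ρ, hρ, rfl⟩, ?_⟩
    rw [← comp_cons, ← comp_cons]
    exact (truth hpo hP hle h φ (cons_mem (IsZ.trans b hb ρ hρ) (cons_mem hσM hν))).2
      ⟨q, hq, K ⟨ρ', hρ', hf⟩⟩
theorem isT_gext [IsT M] (hpo : IsPO P le) (hP : P ∈ M) (hle : le ∈ M) (h : Gen M P le G) :
    IsT (gext M G) := by
  haveI hZ := isZ_gext hpo hP hle h
  refine { toIsZ := hZ, wo := ?_ }
  rintro _ ⟨τ, hτ, rfl⟩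
  haveI : In M τ := ⟨hτ⟩
  have hd : dom τ ∈ M := memV_of M _
  obtain ⟨w, hw, k⟩ := exists_isWO M hd
  obtain ⟨f, hf, o, hi⟩ := IsT.wo _ hd
  have hs := subset_gext hP h
  haveI : In (gext M G) w := ⟨hs hw⟩
  haveI : In (gext M G) τ := ⟨hs hτ⟩
  haveI : In (gext M G) G := ⟨gen_mem_gext hP h⟩
  have key : ∀ x ∈ val G τ, ∃ σ ∈ dom τ, val G σ = x := fun x hx => by
    obtain ⟨σ, p, hσ, -, e⟩ := mem_val.1 hx
    exact ⟨σ, mem_dom.2 ⟨p, hσ⟩, e⟩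
  have h1 : InjIn (gext M G) (val G τ) (dom τ) :=
    ⟨lam (val G τ) (fun x => wmin w (dom τ) (fun σ => val G σ = x)), memV_of _ _,
      isInj_lam (fun x hx => (k.wmin_spec (key x hx)).1) fun x hx y hy e => by
        have e1 := (k.wmin_spec (key x hx)).2.1
        rw [e, (k.wmin_spec (key y hy)).2.1] at e1
        exact e1.symm⟩
  obtain ⟨g, hg, hgi⟩ := h1.trans ⟨f, hs hf, hi⟩
  exact ⟨g, hg, o, hgi⟩
theorem isZFC_gext [IsZFC M] (hpo : IsPO P le) (hP : P ∈ M) (hle : le ∈ M) (h : Gen M P le G) :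
    IsZFC (gext M G) := by
  refine { toIsT := isT_gext hpo hP hle h, pow := ?_ }
  rintro _ ⟨τ, hτ, rfl⟩
  haveI : In M P := ⟨hP⟩
  haveI : In M le := ⟨hle⟩
  haveI : In M τ := ⟨hτ⟩
  refine ⟨_, f0c_img hP h (memV_of M (pw M (prod (dom τ) P))), ?_⟩
  rintro _ ⟨ρ, hρ, rfl⟩ hs
  haveI : In M ρ := ⟨hρ⟩
  have hd : dom τ ∈ M := memV_of M _
  refine mem_img.2 ⟨rel (dom τ) P (fun σ p => FM P le p σ ρ),
    mem_pw.2 ⟨memV_of M _, fun z hz => (mem_sep.1 hz).1⟩, ?_⟩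
  ext x
  rw [mem_val]
  constructor
  · rintro ⟨σ, p, hσ, hp, rfl⟩
    obtain ⟨h1, -, h2⟩ := pair_mem_rel.1 hσ
    exact (f0c_atom hpo hP hle h (IsZ.trans _ hd σ h1) hρ).1.2 ⟨p, hp, h2⟩
  · intro hx
    obtain ⟨σ, q, hσ, -, rfl⟩ := mem_val.1 (hs hx)
    obtain ⟨p, hp, hf⟩ := (f0c_atom hpo hP hle h (f0c_fst_mem hτ hσ) hρ).1.1 hx
    exact ⟨σ, p, pair_mem_rel.2 ⟨mem_dom.2 ⟨q, hσ⟩, h.sub hp, hf⟩, hp, rfl⟩
end truth
-- JOB C END

end Pool.Agent.Lib.MP_f9eb18_lc.W
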