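import Pool.Agent.Lib.MP_f9eb18_lc.W.Cap

/-! # Good premice and the definable list of reals -/

namespace Pool.Agent.Lib.MP_f9eb18_lc.W

open Ordinal ZFSet Classical
set_option linter.style.haveILetI false
set_option linter.unusedVariables false
set_option synthInstance.maxSize 100000

variable {F : Fr}

/-- trees in `D` that are guided by `G`-certificates can be continued -/
def GoodBy (D : Set V) (G : PM → Prop) (P : PM) : Prop :=
  IsPM P ∧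
  (∀ T ∈ D, IsTree T P → AllC (CertBy G) T → ∀ η a E, lh T = η + 1 → Legal T η a E → E ≠ ∅ →
    UWF (pmT T (prd T η E)).M E) ∧
  ∀ T ∈ D, IsTree T P → AllC (CertBy G) T → Order.IsSuccLimit (lh T) →
    ∃ T' ∈ D, IsTree T' P ∧ lh T' = lh T + 1 ∧ rT T' (lh T) = T ∧ CertBy G T'
/-- `Pre D m` is the property required from certificates at level `m` -/
def Pre (D : Set V) : ℕ → PM → Prop
  | 0 => fun _ => False
  | m + 1 => GoodBy D (Pre D m)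
def Good (D : Set V) (m : ℕ) : PM → Prop := GoodBy D (Pre D m)
theorem pre_succ' (D : Set V) (m : ℕ) : Pre D (m + 1) = Good D m := rfl

/-- the order `O` restricted to reals -/
noncomputable def RO (O : V) : V := ZFSet.sep (fun p => fst p ⊆ omegaZ ∧ snd p ⊆ omegaZ) O
/-- `x` is the `ξ`-th real of `L` in the order `O` -/
def IsNth (L O : V) (ξ : Ordinal.{0}) (x : V) : Prop := x ∈ L ∧ x ⊆ omegaZ ∧ wpos (RO O) x = ξ
def PM.Nth (P : PM) (ξ : Ordinal.{0}) (x : V) : Prop :=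
  IsNth (Lv P.opt ∅ P.th) (Od P.opt ∅ P.th) ξ x
/-- the definition of the list -/
def ListD (D : Set V) (n : ℕ) (ξ : Ordinal.{0}) (x : V) : Prop :=
  ∃ P : PM, enc P ∈ D ∧ Good D n P ∧ P.Nth ξ x

-- JOB A BEGIN
section inst
variable {a b c : Set V → (ℕ → V) → V} {o : Set V → (ℕ → V) → Ordinal.{0}}
  {D : Set V → (ℕ → V) → Set V} {p : Set V → (ℕ → V) → PM}
theorem ga_cert {G : Set V → PM → Prop}
    (ih : ∀ {D : Set V → (ℕ → V) → Set V} {p : Set V → (ℕ → V) → PM} [UC F D] [UF F p],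
      UD F (fun M v => G (D M v) (p M v))) [UC F D] [UF F a] :
    UD F (fun M v => CertBy (G (D M v)) (a M v)) := by
  have := UC.lift (F := F) D; have := UF.lift (F := F) a; have := @ih
  unfold CertBy; infer_instance
theorem ga_iff (T : V) : (∀ η a E, lh T = η + 1 → Legal T η a E → E ≠ ∅ →
      UWF (pmT T (prd T η E)).M E) ↔
    ∀ η < lh T, ∀ a < (pmT T η).th, ∀ E ∈ (pmT T η).optAt a, lh T = η + 1 → Legal T η a E →
      E ≠ ∅ → UWF (pmT T (prd T η E)).M E :=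
  ⟨fun h η _ a _ E _ => h η a E, fun h η a E e hL hE =>
    h η (e ▸ tcc_lt η) a hL.2.2.1 E (hL.2.2.2.resolve_left hE) e hL hE⟩
theorem ga_good {G : Set V → PM → Prop}
    (ih : ∀ {D : Set V → (ℕ → V) → Set V} {p : Set V → (ℕ → V) → PM} [UC F D] [UF F p],
      UD F (fun M v => G (D M v) (p M v))) [UC F D] [UF F p] :
    UD F (fun M v => GoodBy (D M v) (G (D M v)) (p M v)) := by
  have := UC.lift (F := F) D; have := UF.lift (F := F) p
  have : ∀ {a : Set V → (ℕ → V) → V} {D : Set V → (ℕ → V) → Set V} [UC F D] [UF F a],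
      UD F (fun M v => CertBy (G (D M v)) (a M v)) := fun {_ _} _ _ => ga_cert @ih
  unfold GoodBy AllC
  simp only [ga_iff]
  infer_instance
instance ud_pre (m : ℕ) [UC F D] [UF F p] : UD F (fun M v => Pre (D M v) m (p M v)) := by
  induction m generalizing D p with
  | zero => exact UD.false
  | succ m ih => exact ga_good (G := fun D => Pre D m) @ih
instance ud_good (m : ℕ) [UC F D] [UF F p] : UD F (fun M v => Good (D M v) m (p M v)) :=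
  ud_pre (m + 1)
instance ud_certPre (m : ℕ) [UC F D] [UF F a] :
    UD F (fun M v => CertBy (Pre (D M v) m) (a M v)) :=
  ga_cert (G := fun D => Pre D m) (fun {_ _} _ _ => ud_pre m)
instance uf_RO [UF F a] : UF F (fun M v => RO (a M v)) := by unfold RO; infer_instance
instance ud_isNth [UF F a] [UF F b] [UF F o] [UF F c] :
    UD F (fun M v => IsNth (a M v) (b M v) (o M v) (c M v)) := by unfold IsNth; infer_instance
instance ud_nth [UF F p] [UF F o] [UF F c] : UD F (fun M v => (p M v).Nth (o M v) (c M v)) := by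
  unfold PM.Nth; infer_instance
instance ud_listD (n : ℕ) [UC F D] [UF F o] [UF F a] :
    UD F (fun M v => ListD (D M v) n (o M v) (a M v)) := by
  have := UC.lift (F := F) D; have := UF.lift (F := F) o; have := UF.lift (F := F) a
  unfold ListD; infer_instance
end inst

/-- the reals of `L` -/
noncomputable def ga_R (L : V) : V := ZFSet.sep (fun x => x ⊆ omegaZ) L
theorem ga_mem {L x : V} : x ∈ ga_R L ↔ x ∈ L ∧ x ⊆ omegaZ := mem_sep
theorem ga_pair {O x y : V} : pair x y ∈ RO O ↔ pair x y ∈ O ∧ x ⊆ omegaZ ∧ y ⊆ omegaZ := by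
  rw [RO, mem_sep, fst_pair, snd_pair]
theorem ga_wo {O L : V} (h : IsWO O L) : IsWO (RO O) (ga_R L) := by
  have e : RO O = O ∩ prod (ga_R L) (ga_R L) := by
    ext p
    rw [ZFSet.mem_inter]
    constructor
    · intro hp
      obtain ⟨x, hx, y, hy, rfl⟩ := mem_prod.1 (h.1 (mem_sep.1 hp).1)
      have k := ga_pair.1 hp
      exact ⟨k.1, pair_mem_prod.2 ⟨ga_mem.2 ⟨hx, k.2.1⟩, ga_mem.2 ⟨hy, k.2.2⟩⟩⟩
    · rintro ⟨h1, h2⟩
      obtain ⟨x, hx, y, hy, rfl⟩ := mem_prod.1 h2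
      exact ga_pair.2 ⟨h1, (ga_mem.1 hx).2, (ga_mem.1 hy).2⟩
  rw [e]
  exact h.restrict fun x hx => (ga_mem.1 hx).1
theorem ga_rk {x : V} (h : x ⊆ omegaZ) : x.rank ≤ ω := (rank_mono h).trans_eq rank_omegaZ
theorem ga_rank {O L p : V} (h : IsWO O L) (hp : p ∈ RO O) : p.rank < ω + 3 := by
  obtain ⟨x, hx, y, hy, rfl⟩ := mem_prod.1 (h.1 (mem_sep.1 hp).1)
  have k := ga_pair.1 hp
  rw [rank_zpair]
  refine lt_of_le_of_lt (add_le_add_left (max_le (ga_rk k.2.1) (ga_rk k.2.2)) 2) ?_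
  exact add_lt_add_right (by norm_num) _
theorem ga_le : (ω + 3 : Ordinal.{0}) ≤ ω * ω := by
  have h3 : (3 : Ordinal.{0}) ≤ ω := (natCast_lt_omega0 3).le
  have h2 : (2 : Ordinal.{0}) ≤ ω := (natCast_lt_omega0 2).le
  calc (ω + 3 : Ordinal.{0}) ≤ ω + ω := add_le_add_right h3 _
    _ = ω * 2 := (Ordinal.mul_two _).symm
    _ ≤ ω * ω := mul_le_mul_right h2 _

theorem IsNth.of_prof {O O' : V} {θ θ' η ξ : Ordinal.{0}} {x : V} (hη : ω + 3 ≤ η)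
    (e : Prof O ∅ η θ = Prof O' ∅ η θ') (h : IsNth (Lv O ∅ θ) (Od O ∅ θ) ξ x) :
    IsNth (Lv O' ∅ θ') (Od O' ∅ θ') ξ x := by
  obtain ⟨e1, e2⟩ := pair_inj.1 e
  have hx : x.rank < η :=
    ((ga_rk h.2.1).trans_lt (lt_add_of_pos_right _ (by norm_num))).trans_le hη
  have e3 : RO (Od O' ∅ θ') = RO (Od O ∅ θ) := by
    ext p
    constructor
    · intro hp
      exact mem_sep.2 ⟨pb_mem_of_cut e2.symm (mem_sep.1 hp).1
        ((ga_rank (isWO_Od isBase_empty θ') hp).trans_le hη), (mem_sep.1 hp).2⟩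
    · intro hp
      exact mem_sep.2 ⟨pb_mem_of_cut e2 (mem_sep.1 hp).1
        ((ga_rank (isWO_Od isBase_empty θ) hp).trans_le hη), (mem_sep.1 hp).2⟩
  exact ⟨pb_mem_of_cut e1 h.1 hx, h.2.1, e3 ▸ h.2.2⟩
theorem IsNth.mono {O : V} {θ θ' ξ : Ordinal.{0}} {x : V} (hle : θ ≤ θ')
    (h : IsNth (Lv O ∅ θ) (Od O ∅ θ) ξ x) : IsNth (Lv O ∅ θ') (Od O ∅ θ') ξ x := by
  have he := Od_endExt (O := O) isBase_empty hle
  refine ⟨Lv_mono isBase_empty hle h.1, h.2.1, Eq.trans ?_ h.2.2⟩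
  refine (ga_wo (isWO_Od isBase_empty θ)).wpos_end (ga_wo (isWO_Od isBase_empty θ'))
    (fun p hp => mem_sep.2 ⟨he.1 (mem_sep.1 hp).1, (mem_sep.1 hp).2⟩) (fun y hy z hz => ?_)
    (ga_mem.2 ⟨h.1, h.2.1⟩)
  have k := ga_pair.1 hz
  exact ga_mem.2 ⟨he.2 y (ga_mem.1 hy).1 z k.1, k.2.1⟩
theorem IsNth.unique {O : V} {θ ξ : Ordinal.{0}} {x y : V}
    (h : IsNth (Lv O ∅ θ) (Od O ∅ θ) ξ x) (h' : IsNth (Lv O ∅ θ) (Od O ∅ θ) ξ y) : x = y :=
  (ga_wo (isWO_Od isBase_empty θ)).wpos_inj (ga_mem.2 ⟨h.1, h.2.1⟩) (ga_mem.2 ⟨h'.1, h'.2.1⟩)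
    (h.2.2.trans h'.2.2.symm)
theorem Iter.nth {P Q : PM} {i : V} (hP : IsPM P) (h : Iter P Q i) {ξ : Ordinal.{0}} {x : V}
    (hx : P.Nth ξ x) : Q.Nth ξ x := by
  haveI := hP.isT; haveI := h.pm.isT
  have hc := hP.shape.critGt
  have h0 : (∅ : V).rank ≤ P.mu := by simp
  have e0 := IsZ.empty_mem (P.M : Set V)
  have hμ : ω + 3 ≤ P.mu := ga_le.trans hP.mu_ge
  obtain ⟨-, -, -, a4, a5⟩ := h.map_Lv hP hc e0 e0 h0 h0
  obtain ⟨-, m1, m2⟩ := sd_mem hP e0 e0 le_rfl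
  simp only [sd_empty_union] at a4 a5 m1 m2
  have he := h.elem.elem.elem
  have hxP : x ∈ P.M := IsZ.trans (M := (P.M : Set V)) _ m1 _ hx.1
  have k := (he.mem_iff hxP m1).2 hx.1
  rw [(h.fix _ hc).2.2 x hxP ((ga_rk hx.2.1).trans (le_self_add.trans hμ)), a4] at k
  have k2 := he.map1 pZ (fun _ (O : V) => RO O) (a := Od P.opt ∅ P.th) m2
  haveI : In (P.M : Set V) (Od P.opt ∅ P.th) := ⟨m2⟩
  rw [jm_V, jm_V, a5, (h.fix _ hc).2.2 _ (memV_of (P.M : Set V) (RO (Od P.opt ∅ P.th)))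
    ((rank_le_iff.2 fun p hp => ga_rank (isWO_Od isBase_empty _) hp).trans hμ)] at k2
  exact ⟨k, hx.2.1, k2 ▸ hx.2.2⟩
theorem ga_agree {Q Q' : PM} (hQ : IsPM Q) (hQ' : IsPM Q') (h : AgreeP Q Q') (hle : Q.th ≤ Q'.th)
    {ξ : Ordinal.{0}} {x y : V} (hx : Q.Nth ξ x) (hy : Q'.Nth ξ y) : x = y := by
  haveI := hQ.isT; haveI := hQ'.isT
  have e0 := IsZ.empty_mem (Q.M : Set V)
  have e0' := IsZ.empty_mem (Q'.M : Set V)
  obtain ⟨a1, a2, -⟩ := h.levels hQ hQ' (β := 0) (low_empty isBase_empty (by simp))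
    (hQ.shape.critGt.mono zero_le) (hQ'.shape.critGt.mono zero_le) ⟨e0, e0'⟩ ⟨e0, e0'⟩ Q.th
    (le_min le_rfl hle)
  simp only [sd_empty_union] at a1 a2
  rw [PM.Nth, a1, a2] at hx
  exact (hx.mono hle).unique hy
theorem Cmp.nth {P P' : PM} (hP : IsPM P) (hP' : IsPM P') (h : Cmp P P') {ξ : Ordinal.{0}} {x y : V}
    (hx : P.Nth ξ x) (hy : P'.Nth ξ y) : x = y := by
  obtain ⟨Q, Q', i, i', k1, k2, k3⟩ := h
  rcases le_total Q.th Q'.th with k | k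
  · exact ga_agree k1.pm k2.pm k3 k (k1.nth hP hx) (k2.nth hP' hy)
  · exact (ga_agree k2.pm k1.pm k3.symm k (k2.nth hP' hy) (k1.nth hP hx)).symm
/-- Cantor's theorem in a model -/
theorem ga_cantor (W : Set V) [IsZFC W] : ¬ Ctbl W (pw W omegaZ) := by
  intro h
  obtain ⟨f, hf, h1, h2⟩ := z5b_spec (ctbl_iff.1 h)
  haveI : In W f := ⟨hf⟩
  have hd : ZFSet.sep (fun n => ∃ x ∈ pw W omegaZ, app f x = n ∧ n ∉ x) omegaZ ∈ pw W omegaZ :=
    mem_pw.2 ⟨memV_of W _, fun x hx => (mem_sep.1 hx).1⟩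
  generalize he : ZFSet.sep (fun n => ∃ x ∈ pw W omegaZ, app f x = n ∧ n ∉ x) omegaZ = d at hd
  have k : ∀ n, n ∈ d ↔ n ∈ omegaZ ∧ ∃ x ∈ pw W omegaZ, app f x = n ∧ n ∉ x := fun n => by
    rw [← he, mem_sep]
  have hn : app f d ∉ d := fun hm => by
    obtain ⟨-, x, hx, e, hx'⟩ := (k _).1 hm
    exact hx' (h2 x hx d hd e ▸ hm)
  exact hn ((k _).2 ⟨h1 d hd, d, hd, rfl, hn⟩)
/-- the reals of an inner model with the correct `ω₁` -/
theorem exists_list {U : Set V} [IsZFC U] {O : V} (hO : O ∈ U) (ho : om1 (Wm U O ∅) = om1 U) :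
    ∃ s ∈ U, IsInj s (om1 U).toZFSet (pw U omegaZ) ∧ ∃ γ : Ordinal.{0}, γ.toZFSet ∈ U ∧
      ∀ ξ < om1 U, IsNth (Lv O ∅ γ) (Od O ∅ γ) ξ (app s ξ.toZFSet) := by
  have e0 := IsZ.empty_mem U
  haveI hW := isZFC_Wm hO e0 isBase_empty
  have hs : Wm U O ∅ ⊆ U := Wm_subset hO e0
  have hR : pw (Wm U O ∅) omegaZ ∈ Wm U O ∅ := memV_of _ _
  obtain ⟨γ, hγ, hsub⟩ := subset_Lv_of_subset_Wm hO e0 isBase_empty (hs hR)
    fun x hx => (mem_pw.1 hx).1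
  have eR : ga_R (Lv O ∅ γ) = pw (Wm U O ∅) omegaZ := by
    ext x
    rw [ga_mem, mem_pw]
    exact ⟨fun h => ⟨⟨γ, hγ, h.1⟩, h.2⟩, fun h => ⟨hsub (mem_pw.2 h), h.2⟩⟩
  have hwo := ga_wo (isWO_Od (O := O) isBase_empty γ)
  haveI : In U O := ⟨hO⟩
  haveI : In U γ := ⟨hγ⟩
  have m1 : RO (Od O ∅ γ) ∈ U := memV_of U _
  have m2 : ga_R (Lv O ∅ γ) ∈ U := eR ▸ hs hR
  have hN : ∀ ξ x, x ∈ ga_R (Lv O ∅ γ) → wpos (RO (Od O ∅ γ)) x = ξ →
      IsNth (Lv O ∅ γ) (Od O ∅ γ) ξ x := fun ξ x hx e => ⟨(ga_mem.1 hx).1, (ga_mem.1 hx).2, e⟩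
  have hU : ∀ x ∈ ga_R (Lv O ∅ γ), x ∈ pw U omegaZ := fun x hx =>
    mem_pw.2 ⟨IsZ.trans _ m2 _ hx, (ga_mem.1 hx).2⟩
  generalize RO (Od O ∅ γ) = w at hwo m1 hN
  generalize ga_R (Lv O ∅ γ) = R at hwo m2 hN hU eR
  haveI : In U w := ⟨m1⟩
  haveI : In U R := ⟨m2⟩
  have key : ∀ ξ < om1 U, ∃ x ∈ R, wpos w x = ξ := by
    intro ξ hξ
    by_contra hn
    have h1 : ∀ x ∈ R, wpos w x < ξ := fun x hx => by
      rcases lt_trichotomy (wpos w x) ξ with k | k | k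
      · exact k
      · exact absurd ⟨x, hx, k⟩ hn
      · exact absurd (hwo.wpos_surj hx k) hn
    have h2 : InjIn U R ξ.toZFSet := z5b_mk (fun x => (wpos w x).toZFSet) m2
      (fun x hx => toZFSet_mem_toZFSet_iff.2 (h1 x hx))
      fun x hx y hy e => hwo.wpos_inj hx hy (toZFSet_injective e)
    have h3 : InjIn U R omegaZ := h2.trans (ctbl_iff.1 (lt_om1_iff.1 hξ))
    obtain ⟨o, ho1, f, hf, hi, hr⟩ := exists_ord_bij hR
    have h4 : o < om1 U :=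
      lt_om1_iff.2 (ctbl_iff.2 (InjIn.trans ⟨f, hs hf, hi⟩ (eR ▸ h3)))
    rw [← ho] at h4
    have h5 : InjIn (Wm U O ∅) (pw (Wm U O ∅) omegaZ) o.toZFSet := by
      refine injIn_of_surj hf ho1 hR fun y hy => ?_
      obtain ⟨x, hx⟩ := mem_ran.1 (hr.symm ▸ hy : y ∈ ran f)
      exact ⟨x, (pair_mem_prod.1 (hi.1.1 hx)).1, (isFunc_iff.1 hi.1).1.app_eq hx⟩
    exact ga_cantor _ (ctbl_iff.2 (h5.trans (ctbl_iff.1 (lt_om1_iff.1 h4))))
  have sp : ∀ ξ < om1 U, wmin w R (fun x => wpos w x = ξ.toZFSet.rank) ∈ R ∧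
      wpos w (wmin w R fun x => wpos w x = ξ.toZFSet.rank) = ξ := fun ξ hξ => by
    rw [rank_toZFSet]
    have := hwo.wmin_spec (key ξ hξ)
    exact ⟨this.1, this.2.1⟩
  refine ⟨lam (om1 U).toZFSet fun z => wmin w R fun x => wpos w x = z.rank, memV_of U _,
    isInj_lam (fun z hz => ?_) (fun z hz z' hz' e => ?_), γ, hγ, fun ξ hξ => ?_⟩
  · obtain ⟨ξ, hξ, rfl⟩ := mem_toZFSet_iff.1 hz
    exact hU _ (sp ξ hξ).1
  · obtain ⟨ξ, hξ, rfl⟩ := mem_toZFSet_iff.1 hz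
    obtain ⟨ξ', hξ', rfl⟩ := mem_toZFSet_iff.1 hz'
    rw [← (sp ξ hξ).2, e, (sp ξ' hξ').2]
  · rw [app_lam _ (toZFSet_mem_toZFSet_iff.2 hξ)]
    exact hN _ _ (sp ξ hξ).1 (sp ξ hξ).2
-- JOB A END

-- JOB B BEGIN
/-- the situation after taking a countable hull that contains a tree of length `ω₁` -/
structure goodb_Sit (N : Set V) (T : V) (P : PM) (H G π : V) (κ : Ordinal.{0}) : Prop where
  hull : Hull N H G π κ
  mem : rT T κ ∈ G
  map : app π (rT T κ) = T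
  lim : Order.IsSuccLimit κ
  dl : dl T κ = κ
  lt : κ < lh T

theorem goodb_hull {N : Set V} [IsZFC N] {T : V} {P : PM} (h : IsTree T P) (hT : T ∈ N)
    (hl : lh T = om1 N) (hH : ∀ ξ < om1 N, rT T ξ ∈ HC N) {ζ : Ordinal.{0}} (hζ : ζ.toZFSet ∈ N)
    (l : List V) (hm : ∀ x ∈ l, x ∈ N) : ∃ H G π κ, goodb_Sit N T P H G π κ ∧
      (∀ x ∈ N, x.rank < ζ → x ∈ H) ∧ ∀ x ∈ l, ∃ y ∈ G, app π y = x := by
  obtain ⟨H, G, π, κ, h1, h2, h3⟩ := exists_Hull N hζ (T :: l) (List.forall_mem_cons.2 ⟨hT, hm⟩)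
  obtain ⟨T₀, k1, k2⟩ := h3 T List.mem_cons_self
  obtain ⟨rfl, k3, k4, -⟩ := h1.tree h hl hH k1 k2
  exact ⟨H, G, π, κ, ⟨h1, k1, k2, k3, k4, hl ▸ h1.lt⟩, h2,
    fun x hx => h3 x (List.mem_cons_of_mem _ hx)⟩

namespace goodb_Sit
variable {N : Set V} [IsZFC N] {T H G π : V} {P : PM} {κ : Ordinal.{0}}
  (s : goodb_Sit N T P H G π κ) (h : IsTree T P)
include s

omit [IsZFC N] in
theorem iff (Φ : V → Ordinal.{0} → Prop)
    [UD pZ (fun M v => Φ (dec (vr v 0)) (dec (vr v 1)))] : Φ (rT T κ) κ ↔ Φ T (om1 N) := by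
  haveI := s.hull.isT
  haveI := s.hull.isT'
  have := s.hull.elem.elem.iff2 pZ (fun _ => Φ) (a := rT T κ) (b := κ) s.mem s.hull.k_mem
  rwa [jm_V, s.map, s.hull.k_map] at this

omit [IsZFC N] in
theorem rel : Rel (comS T κ) κ ↔ Rel (comS T (om1 N)) (om1 N) := by
  rw [← (com_congr s.lim (rT_rT (T := T) (le_refl κ))).2.2.2.1]
  exact s.iff fun T o => Rel (comS T o) o

include h

omit [IsZFC N] in
theorem com : comA T κ = cut (pmT T κ).A κ ∧ comW T κ = cut (pmT T κ).w κ ∧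
    comS T κ = cut (pmT T κ).S κ := by
  have := h.com_eq s.lt le_rfl
  rwa [s.dl] at this

omit [IsZFC N] in
theorem base (hr : Rel (comS T κ) κ) : Rel (pmT T κ).S κ ∧ κ ≤ (pmT T κ).A.rank ∧
    IsBase (comW T κ) ∧ fld (comW T κ) = comA T κ ∧ (comA T κ).rank = κ := by
  have hP := h.pm κ s.lt
  obtain ⟨e1, e2, e3⟩ := s.com h
  have h1 : Rel (pmT T κ).S κ := rel_cut (e3 ▸ hr)
  have h2 : κ ≤ (pmT T κ).A.rank := h1.le_rank.trans (rank_mono hP.shape.1)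
  obtain ⟨h3, h4⟩ := hP.isBase_cut s.lim h2
  rw [e1, e2]
  exact ⟨h1, h2, h3, h4, ea_rank_cut hP.A_trans h2⟩

theorem fin {B : V} (hG : B ∈ G) (hM : B ∈ (pmT T κ).M)
    (hn : ¬ (Rel (comS T κ) κ ∧ NoWit (comA T κ) B)) : ∃ b ∈ N, CofBr T (om1 N) b := by
  haveI := s.hull.isT
  haveI := s.hull.isT'
  obtain ⟨-, -, -, -, c1, c2, -⟩ := com_congr s.lim (rT_rT (T := T) (le_refl κ))
  have hb := h.cofBr_brT s.lt s.lim
  have hs := h.tailStrong s.lt s.lim hM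
  have hm : brT T κ ∈ (G : Set V) :=
    derivative (h.restrict s.lim.pos s.lt.le) (h.lh_rT s.lt.le).ge s.lim
      (lt_om1_iff.1 s.hull.lt).countable ((c1 _).2 hb) ((c2 _ _).2 hs) (fun c k1 k2 => by
        by_contra hne
        have := zipper h s.lt.le s.lim ((c1 _).1 k1) hb hne ((c2 _ _).1 k2) hs
        rw [s.dl] at this
        exact hn this) (G : Set V) s.mem hG
  have := (s.hull.elem.elem.iff3 pZ (fun _ (T : V) (o : Ordinal.{0}) (b : V) => CofBr T o b)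
    (a := rT T κ) (b := κ) s.mem s.hull.k_mem hm).1 ((c1 _).2 hb)
  rw [jm_V, s.map, s.hull.k_map] at this
  exact ⟨_, IsZ.trans _ s.hull.H_mem _ (s.hull.elem.elem.1 _ hm), this⟩

end goodb_Sit

/-- the common part of a tree of length `ω₁` is a base -/
theorem com_base {N : Set V} [IsZFC N] {T : V} {P : PM} (h : IsTree T P) (hT : T ∈ N)
    (hl : lh T = om1 N) (hH : ∀ ξ < om1 N, rT T ξ ∈ HC N) (hr : Rel (comS T (om1 N)) (om1 N)) :
    IsBase (comW T (om1 N)) ∧ (fld (comW T (om1 N))).rank = om1 N := by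
  obtain ⟨H, G, π, κ, s, -, -⟩ := goodb_hull h hT hl hH (mem_of N ω) [] (by simp)
  obtain ⟨-, -, h1, h2, h3⟩ := s.base h (s.rel.2 hr)
  refine (s.iff fun T o => IsBase (comW T o) ∧ (fld (comW T o)).rank = o).1 ?_
  rw [(com_congr s.lim (rT_rT (T := T) (le_refl κ))).2.2.1, h2]
  exact ⟨h1, h3⟩
/-- guided trees of length `ω₁` have cofinal branches -/
theorem cert_top (rt : RTStmt) {N : Set V} [IsZFC N] {n : ℕ} {δ : ℕ → Ordinal.{0}}
    (hm : MinM N n δ) {G : PM → Prop}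
    (hG : ∀ Q Q', IsPM Q → Q.M ∈ HC N → G Q → IsTrue N Q' → Q'.Tame n → Cmp Q Q')
    {T : V} {P : PM} (hT : T ∈ N) (h : IsTree T P) (ha : AllC (CertBy G) T) (hl : lh T = om1 N)
    (hH : ∀ ξ < om1 N, rT T ξ ∈ HC N) : ∃ b ∈ N, CofBr T (om1 N) b := by
  by_cases hr : Rel (comS T (om1 N)) (om1 N)
  swap
  · obtain ⟨H, G, π, κ, s, -, -⟩ := goodb_hull h hT hl hH (mem_of N ω) [] (by simp)
    haveI := s.hull.isT'
    haveI := (h.pm κ s.lt).isT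
    exact s.fin h (IsZ.empty_mem (G : Set V)) (IsZ.empty_mem ((pmT T κ).M : Set V))
      fun k => hr (s.rel.1 k.1)
  have hδ : (δ n).toZFSet ∈ N := by
    cases n with
    | zero => exact hm.inac.2.1
    | succ n => exact (hm.wood n (Nat.lt_succ_self n)).2.1
  obtain ⟨w, hc, hw⟩ := exists_ctx hm.ctbl hm.inac hδ
  haveI : In N T := ⟨hT⟩
  obtain ⟨b1, b2⟩ := com_base h hT hl hH hr
  obtain ⟨S', hS', θ', hθ', u1, u2, u3⟩ := MinM.univ rt hm hc hw.ge (memV_of N _) b1 b2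
  obtain ⟨ζ, hζ, hD⟩ := hc.exists_rank n [S', θ'.toZFSet] (by simp [hS', hθ'])
  obtain ⟨H, G', π, κ, s, k1, k2⟩ := goodb_hull h hT hl hH hζ [w, (δ 0).toZFSet, S', θ'.toZFSet]
    (by simp [hS', hθ', hc.mem, hm.inac.2.1])
  haveI := s.hull.isT
  haveI := s.hull.isT'
  obtain ⟨d1, d2, d3, d4, -⟩ := hD (H : Set V) k1
  have ht := hc.trueW s.hull.H_mem d1 d2 (d3 S' (by simp)) u1 (d3 θ'.toZFSet (by simp))
  obtain ⟨Q, rfl, q1, q2⟩ := exists_pullback (π := π) (G := G') ht.pm IsZ.isTransitive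
    s.hull.elem (k2 _ (by simp)) (k2 _ (by simp)) (k2 _ (by simp)) (k2 _ (by simp))
  have he := s.hull.elem.elem
  have q3 : IsTrue N Q :=
    ⟨s.hull.G_mem, π, _, q1, ht.pm, s.hull.pi_mem, s.hull.H_mem, q2, ht.bkg, ht.inac⟩
  have q4 : Q.Tame n := (q2.tame q1 ht.pm n).2 (d4 S' u1.1 u2)
  have q5 : CritGt Q.S κ := q1.shape.critGt.mono ((he.jm_lt s.hull.k_mem q1.mu_mem).1 (by
    rw [s.hull.k_map, q2.mu]; exact hm.inac.om1_lt)).le
  have c3 := (com_congr s.lim (rT_rT (T := T) (le_refl κ))).2.2.1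
  have q6 : comW T κ ∈ Q.M := by
    haveI : In (Q.M : Set V) (rT T κ) := ⟨s.mem⟩
    haveI : In (Q.M : Set V) κ := ⟨s.hull.k_mem⟩
    exact c3 ▸ memV_of (Q.M : Set V) (comW (rT T κ) κ)
  have q7 : HasWit Q.opt (comW T κ) Q.th := by
    have e : app π (comW T κ) = comW T (om1 N) := by
      have := he.map2 pZ (fun _ (T : V) (o : Ordinal.{0}) => comW T o) (a := rT T κ) (b := κ)
        s.mem s.hull.k_mem
      rwa [jm_V, jm_V, s.map, s.hull.k_map, c3] at this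
    refine (he.iff5 pZ (fun _ (w : V) (μ : Ordinal.{0}) (S u : V) (θ : Ordinal.{0}) =>
      HasWit (Opt w μ S) u θ) (a := Q.w) (b := Q.mu) (c := Q.S) (d := comW T κ) (e := Q.th)
      q1.w_mem q1.mu_mem q1.S_mem q6 q1.th_mem).2 ?_
    rw [jm_V, jm_V, jm_V, e, q2.w, q2.mu, q2.S, q2.th]
    exact u3
  obtain ⟨r1, r2, r3, r4, r5⟩ := s.base h (s.rel.2 hr)
  have hP := h.pm κ s.lt
  haveI := hP.isT
  have hκ : κ + 1 ≤ lh T := Order.add_one_le_of_lt s.lt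
  have t1 := h.restrict (s.lim.pos.trans (lt_add_one κ)) hκ
  have t2 := lastI_eq t1 (h.lh_rT hκ)
  have t3 : pmT (rT T (κ + 1)) κ = pmT T κ := by rw [pmT, pmT, nd_rT (lt_add_one κ)]
  have t4 : dl (rT T (κ + 1)) κ = κ :=
    (com_congr s.lim (rT_rT (T := T) (lt_add_one κ).le)).1.trans s.dl
  have hcert := ha κ s.lt s.lim
  unfold CertBy at hcert
  rw [t2, t3, t4] at hcert
  obtain ⟨S₁, a1, θ₁, a2, a3, a4, a5, a6⟩ := hcert r1
  have a7 := hP.withS a1 a3 a2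
  have a8 : (pmT T κ).M ∈ HC N :=
    t3 ▸ (t1.node_HC (hH _ ((isSuccLimit_om1 N).add_one_lt s.hull.lt))).1
  have e2 := (s.com h).2.1
  have a9 : comW T κ ∈ (pmT T κ).M := by
    haveI : In ((pmT T κ).M : Set V) (pmT T κ).w := ⟨hP.w_mem⟩
    haveI : In ((pmT T κ).M : Set V) κ :=
      ⟨IsZ.ord_mem_of_le _ (IsZ.rank_mem _ hP.A_mem) r2⟩
    exact e2 ▸ memV_of ((pmT T κ).M : Set V) (cut (pmT T κ).w κ)
  obtain ⟨B, B1, B2, -, B3⟩ := (hG _ Q a7 a8 a6 q3 q4).common a7 q1 r3 (β := κ)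
    (e2 ▸ ee_rank_cut _ _) (r4 ▸ r5.le) a4 q5 a9 q6 (e2 ▸ a5) q7
  exact s.fin h B2 B1 fun k => B3 (r4 ▸ k.2)
-- JOB B END

-- JOB C BEGIN
section minimal
variable (rt : RTStmt) {N : Set V} [IsZFC N] {n : ℕ} {δ : ℕ → Ordinal.{0}} (hm : MinM N n δ)
include rt hm
/-- good premice can be compared with true tame premice -/
theorem MinM.cmp_pre (m : ℕ) : ∀ {Q Q' : PM} {m' : ℕ}, Q.M ∈ HC N → Pre (HC N) m Q → IsTrue N Q' →
    Q'.Tame m' → Cmp Q Q' := by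
  induction m with
  | zero => exact fun _ h => h.elim
  | succ m ih =>
    intro Q Q' m' h1 h2 ⟨h3, σ, Ps, ht⟩ h4
    obtain ⟨k1, k2, k3⟩ := h2
    haveI : In N σ := ⟨ht.mem⟩
    haveI : In N Ps := ⟨ht.pms.enc_mem ht.mems⟩
    exact cmp_of_strat N k1 ht.pm h1 h3 (CertBy (Pre (HC N) m)) (RealC N σ Ps)
      ⟨k2, k3, fun T a b c d e => cert_top rt hm (fun _ _ _ q1 q2 q3 q4 => ih q1 q2 q3 q4) a b c d e⟩
      (strat_true rt N hm.ctbl ht h4)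
theorem gc_good {m m₀ : ℕ} {P Ps : PM} {σ : V} (ht : TrueW N P σ Ps) (h0 : P.Tame m₀)
    {G : PM → Prop} (h1 : ∀ T ∈ HC N, IsTree T P → ∀ l τ, lh T = l + 1 → τ ∈ N →
      ElemPM τ (pmT T l) Ps → CertBy G T) (h2 : ∀ Q, G Q → Pre (HC N) m Q)
    (h3 : ∀ Q, G Q → ∃ m', IsTrue N Q ∧ Q.Tame m') : Good (HC N) m P := by
  have st := strat_true rt N hm.ctbl ht h0
  have rc : ∀ T ∈ HC N, IsTree T P → ∀ l, lh T = l + 1 → Order.IsSuccLimit l → RealC N σ Ps T →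
      CertBy G T := fun T a b l c d e => by
    rw [RealC, lastI_eq b c] at e
    obtain ⟨τ, t1, t2⟩ := b.real_node (HC_subset N a) (c ▸ lt_add_one l) d ht.pms e
    exact h1 T a b l τ c t1 t2
  have al : ∀ T ∈ HC N, IsTree T P → AllC (CertBy (Pre (HC N) m)) T → AllC (RealC N σ Ps) T := by
    intro T a b c l
    induction l using WellFoundedLT.induction with
    | ind l ih =>
    intro hl lim
    haveI : In (HC N) T := ⟨a⟩
    have hl' := Order.add_one_le_iff.2 hl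
    haveI : In (HC N) l := ⟨IsZ.ord_mem_of_le _ (mem_of (HC N) (lh T)) hl.le⟩
    have e1 := b.lh_rT hl.le
    have e2 := b.lh_rT hl'
    have b2 := b.restrict (zero_le.trans_lt (lt_add_one l)) hl'
    obtain ⟨T', a', b', c', d', f'⟩ := st.lim (rT T l) (memV_of (HC N) _) (b.restrict lim.pos hl.le)
      (fun l' k1 k2 => by
        rw [e1] at k1
        rw [rT_rT (Order.add_one_le_iff.2 k1)]
        exact ih l' k1 (k1.trans hl) k2) (e1.symm ▸ lim)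
    rw [e1] at c' d'
    have e3 : rT (rT T (l + 1)) l = rT T' l := (rT_rT (lt_add_one l).le).trans d'.symm
    have e4 := cert_unique b2 b' lim e2 c' e3 (G := fun Q => Pre (HC N) m Q ∧ Q.M ∈ HC N)
      (fun r => by
        obtain ⟨S', s1, θ, s2, s3, s4, s5, s6⟩ := c l hl lim r
        exact ⟨S', s1, θ, s2, s3, s4, s5, s6, (b2.node_HC (memV_of (HC N) _)).1⟩)
      (rc T' a' b' l c' lim f') fun Q Q' _ _ q1 q2 => by
        obtain ⟨m', q3, q4⟩ := h3 Q' q2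
        exact hm.cmp_pre rt m q1.2 q1.1 q3 q4
    rw [RealC, lastI_eq b' c'] at f'
    rw [RealC, lastI_eq b2 e2, e4]
    exact ((com_congr lim e3).2.2.2.2.2.2 N _ σ Ps (b'.br_sub l (c' ▸ lt_add_one l))).2 f'
  refine ⟨ht.pm, fun T a b c => st.succ T a b (al T a b c), fun T a b c d => ?_⟩
  obtain ⟨T', a', b', c', d', f'⟩ := st.lim T a b (al T a b c) d
  exact ⟨T', a', b', c', d', (rc T' a' b' _ c' d f').mono h2⟩
/-- true tame premice are good -/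
theorem MinM.good_of_true (m : ℕ) : ∀ {P : PM}, IsTrue N P → P.Tame m → Good (HC N) m P := by
  induction m with
  | zero =>
    intro P ⟨_, σ, Ps, ht⟩ h
    exact gc_good rt hm ht h (fun T a b l τ c d e => (cert_of_real b a ht c d e).1 h)
      (fun _ k => k.elim) fun _ k => k.elim
  | succ m ih =>
    intro P ⟨_, σ, Ps, ht⟩ h
    exact gc_good rt hm ht h (fun T a b l τ c d e => (cert_of_real b a ht c d e).2 m h)
      (fun _ k => ih k.1 k.2) fun _ k => ⟨m, k⟩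
end minimal
-- JOB C END

-- JOB D BEGIN
/-- every real of the list appears in a countable true tame premouse -/
theorem MinM.exists_true (rt : RTStmt) {U : Set V} [IsZFC U] {w : V} {n : ℕ} {δ : ℕ → Ordinal.{0}}
    (hm : MinM U n δ) (hc : Ctx U w (δ 0)) (hr : δ n ≤ (fld w).rank) {γ ξ : Ordinal.{0}}
    (hγ : γ.toZFSet ∈ U) (hξ : ξ < om1 U) {x : V}
    (hx : IsNth (Lv (Opt w (δ 0) (chS n δ)) ∅ γ) (Od (Opt w (δ 0) (chS n δ)) ∅ γ) ξ x) :
    ∃ (Q Ps : PM) (σ : V), Q.M ∈ HC U ∧ TrueW U Q σ Ps ∧ Ps.mu = δ 0 ∧ Q.Tame n ∧ Q.Nth ξ x := by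
  have h1 := (hm.inac.add_lt hm.inac.1 hm.inac.1).1
  obtain ⟨S, hS, θ, hθ, sh, -, tm, -, -, e⟩ := capture rt hc n (hm.chain rt hc hr)
    (IsZ.empty_mem U) (IsZ.empty_mem U) ⟨optLike_empty, by simp, isBase_empty, by simp⟩
    (fun h => h1.trans (hm.lt 0 h)) hγ
  have eu : ∀ a : V, ∅ ∪ a = a := fun a => by ext; simp
  rw [eu, eu] at e
  have hx' := hx.of_prof (add_le_add_right (natCast_lt_omega0 3).le ω) e.symm
  haveI : In U w := ⟨hc.mem⟩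
  haveI : In U (δ 0) := ⟨hm.inac.2.1⟩
  haveI : In U S := ⟨hS⟩
  haveI : In U θ := ⟨hθ⟩
  have xU : x ∈ U := IsZ.trans _ (memV_of U (Lv (Opt w (δ 0) S) ∅ θ)) x hx'.1
  have xH : x ∈ HC U := mem_HC_iff.2 ⟨ctbl_omega.of_subset xU hx'.2.1, fun y hy =>
    IsZ.trans _ (IsZ.omega (M := HC U)) y (hx'.2.1 hy)⟩
  have ξH : ξ.toZFSet ∈ HC U := ord_mem_HC.2 hξ
  have hl : ∀ y ∈ [w, (δ 0).toZFSet, S, θ.toZFSet, x, ξ.toZFSet], y ∈ U := by
    simp only [List.forall_mem_cons]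
    exact ⟨hc.mem, hm.inac.2.1, hS, hθ, xU, HC_subset U ξH, fun _ h => absurd h (by simp)⟩
  obtain ⟨ζ, hζ, R⟩ := hc.exists_rank n _ hl
  obtain ⟨H, G, π, κ, hu, hin, pre⟩ := exists_Hull U hζ _ hl
  obtain ⟨hw, hμ, lD, tD, -⟩ := R H hin
  haveI := hu.isT
  have tw := hc.trueW hu.H_mem hw hμ (lD S (by simp)) sh (lD θ.toZFSet (by simp))
  obtain ⟨Q, rfl, hQ, eQ⟩ := exists_pullback tw.pm (fun y hy z hz => hu.isT'.trans y hy z hz)
    hu.elem (pre _ (by simp)) (pre _ (by simp)) (pre _ (by simp)) (pre _ (by simp))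
  haveI := hQ.isT
  have fx : ∀ y ∈ HC U, (∃ z ∈ Q.M, app π z = y) → y ∈ Q.M ∧ app π y = y := by
    rintro _ hy ⟨z, hz, rfl⟩
    rw [hu.fix z hz hy]
    exact ⟨hz, hu.fix z hz hy⟩
  obtain ⟨x1, x2⟩ := fx x xH (pre _ (by simp))
  obtain ⟨ξ1, ξ2⟩ := fx _ ξH (pre _ (by simp))
  refine ⟨Q, _, π, hu.G_mem, ⟨hQ, tw.pm, hu.pi_mem, hu.H_mem, eQ, tw.bkg, tw.inac⟩, rfl,
    (eQ.tame hQ tw.pm n).2 (tD S sh.1 tm), ?_⟩
  have he := hu.elem.elem
  have eo := he.map3 pZ (fun _ (w : V) (μ : Ordinal.{0}) (S : V) => Opt w μ S) hQ.w_mem hQ.mu_mem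
    hQ.S_mem
  haveI : In (Q.M : Set V) Q.w := ⟨hQ.w_mem⟩
  haveI : In (Q.M : Set V) Q.mu := ⟨hQ.mu_mem⟩
  haveI : In (Q.M : Set V) Q.S := ⟨hQ.S_mem⟩
  refine (he.iff4 pZ (fun _ (O : V) (θ ξ : Ordinal.{0}) (x : V) => IsNth (Lv O ∅ θ) (Od O ∅ θ) ξ x)
    (a := Opt Q.w Q.mu Q.S) (b := Q.th) (c := ξ) (d := x) (memV_of _ _) hQ.th_mem ξ1 x1).2 ?_
  rw [jm_V, jm_V, jm_V, eQ.w, eQ.mu, eQ.S] at eo
  rw [jm_V, jm_V, eo, eQ.th, x2, jm_of_fix (a := ξ) ξ2]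
  exact hx'
theorem MinM.defSeq (rt : RTStmt) {U : Set V} [IsZFC U] {n : ℕ} {δ : ℕ → Ordinal.{0}}
    (hm : MinM U n δ) : DefSeq U (δ 0) := by
  obtain ⟨w, hc, hw⟩ := exists_ctx hm.ctbl hm.inac (θ := δ n) (by
    cases n with
    | zero => exact hm.inac.2.1
    | succ n => exact (hm.wood n n.lt_succ_self).2.1)
  haveI : In U w := ⟨hc.mem⟩
  haveI : In U (δ 0) := ⟨hm.inac.2.1⟩
  haveI : In U (chS n δ) := ⟨((hm.chain rt hc hw.ge).shape hc).1⟩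
  obtain ⟨s, hs, inj, γ, hγ, hl⟩ := exists_list (memV_of U (Opt w (δ 0) (chS n δ)))
    (hm.om1_Wm rt hc hw.ge (IsZ.empty_mem U) isBase_empty (by simp))
  obtain ⟨σ, hσ⟩ := UD.exists_fo (F := pT) fun M v => ListD M n (vr v 0).rank (vr v 1)
  refine ⟨s, hs, inj, σ, fun N he ho ξ hξ x hx => ?_⟩
  haveI := he.zfc
  have hN := hm.ext he ho
  rw [← hσ (HC N) (isT_HC N) _ (cons_mem (ord_mem_HC.2 (ho ▸ hξ)) fun _ => hx), vr_cons_zero,
    rank_toZFSet]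
  obtain ⟨Q, Ps, τ, hQ, tw, mu, tm, nth⟩ := hm.exists_true rt hc hw.ge hγ hξ (hl ξ hξ)
  have tN : IsTrue N Q := ⟨HC_mono he.sub hQ, τ, Ps, tw.ext (mu ▸ he)⟩
  refine ⟨fun ⟨P, hP, hg, hn⟩ => (hN.cmp_pre rt (n + 1) ((enc_PM_mem _).1 hP).1 hg tN tm).nth hg.1
    tw.pm hn nth, fun e => ⟨Q, tw.pm.enc_mem tN.1, hN.good_of_true rt n tN tm, ?_⟩⟩
  rw [← e] at nth
  exact nth
-- JOB D END

end Pool.Agent.Lib.MP_f9eb18_lc.W
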