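import Pool.Agent.Lib.MP_f9eb18_lc.W.P

/-! # The hierarchy built from the types of a set of indexed extenders -/

namespace Pool.Agent.Lib.MP_f9eb18_lc.W

open Ordinal ZFSet Classical
set_option linter.style.haveILetI false
set_option linter.unusedVariables false
set_option synthInstance.maxSize 100000

variable {F : Fr}

/-- options of index `a` whose type on `L` is new -/
noncomputable def BadAt (O L : V) (a : Ordinal.{0}) : V :=
  ZFSet.sep (fun E => typ L a E ∉ L) (sec O a)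
noncomputable def pIdx (O L : V) (γ : Ordinal.{0}) : Ordinal.{0} :=
  olst γ (fun a => (BadAt O L a).Nonempty)
noncomputable def MinBad (O L : V) (a : Ordinal.{0}) : V :=
  ZFSet.sep (fun E => ∀ E' ∈ BadAt O L a, ht E ≤ ht E') (BadAt O L a)
/-- the predicate added at level `γ` -/
noncomputable def PP (O L : V) (γ : Ordinal.{0}) : V :=
  if pIdx O L γ < γ then bU (MinBad O L (pIdx O L γ)) (typ L (pIdx O L γ)) else ∅
def Tie (O L : V) (γ : Ordinal.{0}) : Prop :=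
  pIdx O L γ < γ ∧ ∃ E ∈ MinBad O L (pIdx O L γ), ∃ E' ∈ MinBad O L (pIdx O L γ),
    typ L (pIdx O L γ) E ≠ typ L (pIdx O L γ) E'
/-- subsets of `L` definable with parameters from `L` and the extra entries `x` -/
noncomputable def defSet (L : V) (φ : Fo) (l : List V) : V :=
  ZFSet.sep (fun y => Sat1 (L : Set V) φ (env (y :: l))) L
noncomputable def DefL (L : V) (x : List V) : V :=
  img (fun c => defSet L (dec (fst c)) (x ++ dec (snd c))) (prod FoS (lists L))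
def IsBase (w : V) : Prop := IsWO w (fld w) ∧ (fld w).IsTransitive ∧ w ⊆ fld w
/-- `w'` end-extends the well-order `w` of `A` -/
def EndExt (w A w' : V) : Prop := w ⊆ w' ∧ ∀ y ∈ A, ∀ z, pair z y ∈ w' → z ∈ A

-- JOB A BEGIN
section inst
variable {a b c : Set V → (ℕ → V) → V} {o : Set V → (ℕ → V) → Ordinal.{0}}
instance uf_badAt [UF F a] [UF F b] [UF F o] : UF F (fun M v => BadAt (a M v) (b M v) (o M v)) := by
  have := UF.lift (F := F) b; have := UF.lift (F := F) o; unfold BadAt; infer_instance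
instance uf_pIdx [UF F a] [UF F b] [UF F o] : UF F (fun M v => pIdx (a M v) (b M v) (o M v)) := by
  have := UF.lift (F := F) a; have := UF.lift (F := F) b; unfold pIdx; infer_instance
instance uf_minBad [UF F a] [UF F b] [UF F o] :
    UF F (fun M v => MinBad (a M v) (b M v) (o M v)) := by
  have := UF.lift (F := F) a; have := UF.lift (F := F) b; have := UF.lift (F := F) o
  unfold MinBad; infer_instance
instance uf_PP [UF F a] [UF F b] [UF F o] : UF F (fun M v => PP (a M v) (b M v) (o M v)) := by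
  have := UF.lift (F := F) a; have := UF.lift (F := F) b; have := UF.lift (F := F) o
  unfold PP; infer_instance
instance ud_tie [UF F a] [UF F b] [UF F o] : UD F (fun M v => Tie (a M v) (b M v) (o M v)) := by
  have := UF.lift (F := F) a; have := UF.lift (F := F) b; have := UF.lift (F := F) o
  unfold Tie; infer_instance
instance uf_defSet {φ : Set V → (ℕ → V) → Fo} {l : Set V → (ℕ → V) → List V} [UF F a] [UF F φ]
    [UF F l] : UF F (fun M v => defSet (a M v) (φ M v) (l M v)) := by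
  have := UF.lift (F := F) a; have := UF.lift (F := F) φ; have := UF.lift (F := F) l
  unfold defSet; infer_instance
instance uf_defL {l : Set V → (ℕ → V) → List V} [UF F a] [UF F l] :
    UF F (fun M v => DefL (a M v) (l M v)) := by
  have := UF.lift (F := F) a; have := UF.lift (F := F) l; unfold DefL; infer_instance
instance ud_isBase [UF F a] : UD F (fun M v => IsBase (a M v)) := by unfold IsBase; infer_instance
end inst

theorem mem_DefL {L y : V} {x : List V} :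
    y ∈ DefL L x ↔ ∃ (φ : Fo) (l : List V), (∀ u ∈ l, u ∈ L) ∧ y = defSet L φ (x ++ l) := by
  rw [DefL, mem_img]
  constructor
  · rintro ⟨c, hc, rfl⟩
    obtain ⟨p, hp, q, hq, rfl⟩ := mem_prod.1 hc
    obtain ⟨l, hl, rfl⟩ := mem_lists.1 hq
    exact ⟨dec p, l, hl, by rw [fst_pair, snd_pair, z3c_dec]⟩
  · rintro ⟨φ, l, hl, rfl⟩
    refine ⟨pair φ.code (listZ l), pair_mem_prod.2 ⟨mem_FoS.2 ⟨φ, rfl⟩, mem_lists.2 ⟨l, hl, rfl⟩⟩, ?_⟩
    rw [fst_pair, snd_pair, z3c_dec, ← enc_fo, dec_enc]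

theorem la_subset {L : V} (hL : L.IsTransitive) (x : List V) : L ⊆ DefL L x := by
  intro a ha
  refine mem_DefL.2 ⟨.mem 0 (x.length + 1), [a], by simpa using ha, ?_⟩
  ext y
  have e : env (x ++ [a]) x.length = a := by simp [env]
  simp only [defSet, mem_sep, Sat1, env_cons, cons_zero, cons_succ, e]
  exact ⟨fun h => ⟨hL.mem_trans h ha, h⟩, fun h => h.2⟩

/-- a bound for the positions -/
noncomputable def la_th (L O : V) : Ordinal.{0} := osup L (fun y => wpos O y + 1)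
/-- ordinal code of a list -/
noncomputable def la_lc (L O : V) (l : List V) : Ordinal.{0} :=
  List.foldr (fun a acc => (la_th L O + 1) * acc + (wpos O a + 1)) 0 l
/-- ordinal code of a definition -/
noncomputable def la_cd (L O c : V) : Ordinal.{0} :=
  ω * la_lc L O (dec (snd c)) + wpos hfWO (fst c)
/-- least code of a definition -/
noncomputable def la_m (L : V) (x : List V) (O y : V) : Ordinal.{0} :=
  olst (osup (prod FoS (lists L)) (fun c => la_cd L O c + 1)) (fun o =>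
    ∃ c ∈ prod FoS (lists L), la_cd L O c = o ∧ defSet L (dec (fst c)) (x ++ dec (snd c)) = y)
noncomputable def la_g (L : V) (x : List V) (O y : V) : Ordinal.{0} :=
  if y ∈ L then wpos O y else la_th L O + la_m L x O y

section inst
variable {a b c : Set V → (ℕ → V) → V} {l : Set V → (ℕ → V) → List V}
instance la_uf_th [UF F a] [UF F b] : UF F (fun M v => la_th (a M v) (b M v)) := by
  have := UF.lift (F := F) b; unfold la_th; infer_instance
instance la_uf_lc [UF F a] [UF F b] [UF F l] : UF F (fun M v => la_lc (a M v) (b M v) (l M v)) := by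
  have := UF.lift (F := F) a; have := UF.lift (F := F) b; unfold la_lc; infer_instance
instance la_uf_cd [UF F a] [UF F b] [UF F c] : UF F (fun M v => la_cd (a M v) (b M v) (c M v)) := by
  unfold la_cd; infer_instance
instance la_uf_m [UF F a] [UF F l] [UF F b] [UF F c] :
    UF F (fun M v => la_m (a M v) (l M v) (b M v) (c M v)) := by
  have := UF.lift (F := F) a; have := UF.lift (F := F) b; have := UF.lift (F := F) c
  have := UF.lift (F := F) l
  unfold la_m; infer_instance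
instance la_uf_g [UF F a] [UF F l] [UF F b] [UF F c] :
    UF F (fun M v => la_g (a M v) (l M v) (b M v) (c M v)) := by
  unfold la_g; infer_instance
end inst

theorem la_lt {L O y : V} (hy : y ∈ L) : wpos O y < la_th L O :=
  (Order.lt_add_one_iff.2 le_rfl).trans_le (le_osup (fun y => wpos O y + 1) hy)

theorem la_div {b q q' r r' : Ordinal.{0}} (h : r < b) (h' : r' < b)
    (e : b * q + r = b * q' + r') : q = q' ∧ r = r' := by
  have hb : b ≠ 0 := (lt_of_le_of_lt bot_le h).ne'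
  have h1 := congrArg (· / b) e
  have h2 := congrArg (· % b) e
  simp only [mul_add_div _ hb, div_eq_zero_of_lt h, div_eq_zero_of_lt h', add_zero] at h1
  simp only [mul_add_mod_self, mod_eq_of_lt h, mod_eq_of_lt h'] at h2
  exact ⟨h1, h2⟩

theorem la_lc_inj {L O : V} (hO : IsWO O L) : ∀ l l' : List V, (∀ u ∈ l, u ∈ L) →
    (∀ u ∈ l', u ∈ L) → la_lc L O l = la_lc L O l' → l = l' := by
  have h0 : ∀ (a : V) (l : List V), la_lc L O (a :: l) ≠ 0 := fun a l e => by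
    have : (la_th L O + 1) * la_lc L O l + (wpos O a + 1) = 0 := e
    simp at this
  have h1 : ∀ a ∈ L, wpos O a + 1 < la_th L O + 1 := fun a ha =>
    Order.lt_add_one_iff.2 (Order.add_one_le_iff.2 (la_lt ha))
  intro l
  induction l with
  | nil =>
    intro l' _ _ e
    cases l' with
    | nil => rfl
    | cons a l' => exact absurd e.symm (h0 a l')
  | cons a l ih =>
    intro l' hl hl' e
    cases l' with
    | nil => exact absurd e (h0 a l)
    | cons a' l' =>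
      have ha := hl a (by simp)
      have ha' := hl' a' (by simp)
      obtain ⟨e1, e2⟩ := la_div (h1 a ha) (h1 a' ha') e
      rw [ih l' (fun u hu => hl u (by simp [hu])) (fun u hu => hl' u (by simp [hu])) e1,
        hO.wpos_inj ha ha' (Order.succ_injective (by simpa using e2))]

theorem la_cd_inj {L O c c' : V} (hO : IsWO O L) (hc : c ∈ prod FoS (lists L))
    (hc' : c' ∈ prod FoS (lists L)) (e : la_cd L O c = la_cd L O c') : c = c' := by
  obtain ⟨p, hp, q, hq, rfl⟩ := mem_prod.1 hc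
  obtain ⟨p', hp', q', hq', rfl⟩ := mem_prod.1 hc'
  obtain ⟨l, hl, rfl⟩ := mem_lists.1 hq
  obtain ⟨l', hl', rfl⟩ := mem_lists.1 hq'
  obtain ⟨φ, rfl⟩ := mem_FoS.1 hp
  obtain ⟨φ', rfl⟩ := mem_FoS.1 hp'
  simp only [la_cd, fst_pair, snd_pair, z3c_dec] at e
  obtain ⟨e1, e2⟩ := la_div (wpos_hfWO φ.code_mem_HF) (wpos_hfWO φ'.code_mem_HF) e
  rw [la_lc_inj hO l l' hl hl' e1, isWO_hfWO.wpos_inj φ.code_mem_HF φ'.code_mem_HF e2]

theorem la_m_spec {L O y : V} {x : List V} (hy : y ∈ DefL L x) : ∃ c ∈ prod FoS (lists L),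
    la_cd L O c = la_m L x O y ∧ defSet L (dec (fst c)) (x ++ dec (snd c)) = y := by
  obtain ⟨c, hc, e⟩ := mem_img.1 hy
  have h1 : la_cd L O c < osup (prod FoS (lists L)) (fun c => la_cd L O c + 1) :=
    (Order.lt_add_one_iff.2 le_rfl).trans_le (le_osup (fun c => la_cd L O c + 1) hc)
  exact olst_spec (P := fun o => ∃ c ∈ prod FoS (lists L), la_cd L O c = o ∧
    defSet L (dec (fst c)) (x ++ dec (snd c)) = y) ((olst_le_of h1 ⟨c, hc, rfl, e⟩).trans_lt h1)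

/-- a canonical well-order of `DefL L x` that end-extends a given well-order of `L` -/
theorem exists_defOrd : ∃ DO : V → List V → V → V,
    (∀ (F : Fr) (a c : Set V → (ℕ → V) → V) (l : Set V → (ℕ → V) → List V) [UF F a] [UF F l]
      [UF F c], UF F (fun M v => DO (a M v) (l M v) (c M v))) ∧
    ∀ L x O, L.IsTransitive → IsWO O L → IsWO (DO L x O) (DefL L x) ∧ EndExt O L (DO L x O) := by
  refine ⟨fun L x O => rel (DefL L x) (DefL L x) (fun y z => la_g L x O y ≤ la_g L x O z),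
    fun F a c l _ _ _ => ?_, fun L x O hL hO => ?_⟩
  · have := UF.lift (F := F) a; have := UF.lift (F := F) c; have := UF.lift (F := F) l
    infer_instance
  have h1 : ∀ y ∈ L, ∀ z, la_g L x O z ≤ la_g L x O y → z ∈ L := fun y hy z h => by
    by_contra hz
    rw [la_g, la_g, if_neg hz, if_pos hy] at h
    exact absurd (le_self_add.trans h) (not_le.2 (la_lt hy))
  refine ⟨(z4d_rel _ fun y hy z hz e => ?_).1, fun p hp => ?_,
    fun y hy z h => h1 y hy z (pair_mem_rel.1 h).2.2⟩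
  · by_cases k : y ∈ L
    · have k' := h1 y k z e.ge
      rw [la_g, la_g, if_pos k, if_pos k'] at e
      exact hO.wpos_inj k k' e
    · have k' : z ∉ L := fun k' => k (h1 z k' y e.le)
      rw [la_g, la_g, if_neg k, if_neg k', add_right_inj] at e
      obtain ⟨c, hc, e1, e2⟩ := la_m_spec (O := O) hy
      obtain ⟨c', hc', e1', e2'⟩ := la_m_spec (O := O) hz
      rw [← e2, ← e2', la_cd_inj hO hc hc' (e1.trans (e.trans e1'.symm))]
  · obtain ⟨y, hy, z, hz, rfl⟩ := mem_prod.1 (hO.1 hp)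
    refine pair_mem_rel.2 ⟨la_subset hL x hy, la_subset hL x hz, ?_⟩
    rw [la_g, la_g, if_pos hy, if_pos hz]
    exact (hO.wpos_le_iff hy hz).2 hp
noncomputable def defOrd : V → List V → V → V := exists_defOrd.choose

instance la_uf_defOrd {a c : Set V → (ℕ → V) → V} {l : Set V → (ℕ → V) → List V} [UF F a] [UF F l]
    [UF F c] : UF F (fun M v => defOrd (a M v) (l M v) (c M v)) :=
  exists_defOrd.choose_spec.1 F a c l
/-- the successor step -/
noncomputable def la_step (O : V) (γ : Ordinal.{0}) (L R : V) : V × V :=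
  (DefL L [PP O L γ, R, γ.toZFSet], defOrd L [PP O L γ, R, γ.toZFSet] R)
instance la_uf_step {a b c : Set V → (ℕ → V) → V} {o : Set V → (ℕ → V) → Ordinal.{0}} [UF F a]
    [UF F o] [UF F b] [UF F c] : UF F (fun M v => la_step (a M v) (o M v) (b M v) (c M v)) := by
  unfold la_step; infer_instance
noncomputable def la_pred (γ : Ordinal.{0}) : Ordinal.{0} := olst γ (fun δ => δ + 1 = γ)
instance la_uf_pred {o : Set V → (ℕ → V) → Ordinal.{0}} [UF F o] :
    UF F (fun M v => la_pred (o M v)) := by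
  have := UF.lift (F := F) o; unfold la_pred; infer_instance
theorem la_pred_succ (γ : Ordinal.{0}) : la_pred (γ + 1) = γ := by
  have h : γ < γ + 1 := Order.lt_add_one_iff.2 le_rfl
  have h1 : la_pred (γ + 1) + 1 = γ + 1 := olst_spec (P := fun δ => δ + 1 = γ + 1)
    ((olst_le_of (P := fun δ => δ + 1 = γ + 1) h rfl).trans_lt h)
  exact Order.succ_injective (by simpa using h1)
/-- the step function of the recursion -/
noncomputable def la_G (O w : V) (γ : Ordinal.{0}) (s : V) : V × V :=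
  if γ = 0 then (insert w (fld w), w ∪ prod (insert w (fld w)) {w})
  else if Order.IsSuccLimit γ then
    (bU γ.toZFSet (fun x => (oat s x.rank : V × V).1),
      bU γ.toZFSet (fun x => (oat s x.rank : V × V).2))
  else la_step O (la_pred γ) (oat s (la_pred γ) : V × V).1 (oat s (la_pred γ) : V × V).2
instance la_uf_G {a b c : Set V → (ℕ → V) → V} {o : Set V → (ℕ → V) → Ordinal.{0}} [UF F a]
    [UF F b] [UF F o] [UF F c] : UF F (fun M v => la_G (a M v) (b M v) (o M v) (c M v)) := by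
  have := UF.lift (F := F) c; unfold la_G; infer_instance
theorem la_bU {a : V} {f g : V → V} (h : ∀ x ∈ a, f x = g x) : bU a f = bU a g := by
  ext y
  simp only [mem_bU]
  exact exists_congr fun x => and_congr_right fun hx => by rw [h x hx]

/-- the levels `L_γ` and their well-orders `O_γ` -/
theorem exists_levels : ∃ LO : V → V → Ordinal.{0} → V × V,
    (∀ (F : Fr) (a b : Set V → (ℕ → V) → V) (o : Set V → (ℕ → V) → Ordinal.{0}) [UF F a] [UF F b]
      [UF F o], UF F (fun M v => LO (a M v) (b M v) (o M v))) ∧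
    ∀ O w, LO O w 0 = (insert w (fld w), w ∪ prod (insert w (fld w)) {w}) ∧
      (∀ γ, LO O w (γ + 1) =
        (DefL (LO O w γ).1 [PP O (LO O w γ).1 γ, (LO O w γ).2, γ.toZFSet],
         defOrd (LO O w γ).1 [PP O (LO O w γ).1 γ, (LO O w γ).2, γ.toZFSet] (LO O w γ).2)) ∧
      ∀ γ, Order.IsSuccLimit γ → LO O w γ =
        (bU γ.toZFSet (fun x => (LO O w x.rank).1), bU γ.toZFSet (fun x => (LO O w x.rank).2)) := by
  refine ⟨fun O w γ => orec (la_G O w) γ, fun F a b o _ _ _ => ?_,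
    fun O w => ⟨?_, fun γ => ?_, fun γ h => ?_⟩⟩
  · have := UF.lift (F := F) a; have := UF.lift (F := F) b
    infer_instance
  · show orec (la_G O w) 0 = _
    rw [orec_eq, la_G, if_pos rfl]
  · have h : γ < γ + 1 := Order.lt_add_one_iff.2 le_rfl
    show orec (la_G O w) (γ + 1) = _
    rw [orec_eq, la_G, if_neg (show γ + 1 ≠ 0 by simp), if_neg (by simp), la_pred_succ,
      oat_sq _ h]
    rfl
  · have e : ∀ x ∈ γ.toZFSet, (oat (sq γ (orec (la_G O w))) x.rank : V × V) =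
        orec (la_G O w) x.rank := fun x hx =>
      oat_sq _ (by simpa using rank_lt_of_mem hx)
    show orec (la_G O w) γ = _
    rw [orec_eq, la_G, if_neg (show γ ≠ 0 from h.ne_bot), if_pos h,
      la_bU fun x hx => congrArg Prod.fst (e x hx),
      la_bU fun x hx => congrArg Prod.snd (e x hx)]
-- JOB A END

noncomputable def Lv (O w : V) (γ : Ordinal.{0}) : V := (exists_levels.choose O w γ).1
noncomputable def Od (O w : V) (γ : Ordinal.{0}) : V := (exists_levels.choose O w γ).2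
section inst2
variable {a b : Set V → (ℕ → V) → V} {o q : Set V → (ℕ → V) → Ordinal.{0}}
instance uf_Lv [UF F a] [UF F b] [UF F o] : UF F (fun M v => Lv (a M v) (b M v) (o M v)) :=
  @UF.p1 F _ _ _ _ _ (exists_levels.choose_spec.1 F a b o)
instance uf_Od [UF F a] [UF F b] [UF F o] : UF F (fun M v => Od (a M v) (b M v) (o M v)) :=
  @UF.p2 F _ _ _ _ _ (exists_levels.choose_spec.1 F a b o)
end inst2
/-- the part of level `γ` below rank `η` -/
noncomputable def Prof (O w : V) (η γ : Ordinal.{0}) : V := pair (cut (Lv O w γ) η) (cut (Od O w γ) η)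
instance uf_prof {a b : Set V → (ℕ → V) → V} {o q : Set V → (ℕ → V) → Ordinal.{0}} [UF F a] [UF F b]
    [UF F o] [UF F q] : UF F (fun M v => Prof (a M v) (b M v) (o M v) (q M v)) := by
  unfold Prof; infer_instance
/-- the inner model of `N` -/
def Wm (N : Set V) (O w : V) : Set V := {x | ∃ γ : Ordinal.{0}, γ.toZFSet ∈ N ∧ x ∈ Lv O w γ}

-- JOB B BEGIN
theorem Lv_zero (O w : V) : Lv O w 0 = insert w (fld w) :=
  congrArg Prod.fst (exists_levels.choose_spec.2 O w).1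
theorem lb_Od_zero (O w : V) : Od O w 0 = w ∪ prod (insert w (fld w)) {w} :=
  congrArg Prod.snd (exists_levels.choose_spec.2 O w).1
theorem Lv_succ (O w : V) (γ : Ordinal.{0}) :
    Lv O w (γ + 1) = DefL (Lv O w γ) [PP O (Lv O w γ) γ, Od O w γ, γ.toZFSet] :=
  congrArg Prod.fst ((exists_levels.choose_spec.2 O w).2.1 γ)
theorem lb_Od_succ (O w : V) (γ : Ordinal.{0}) : Od O w (γ + 1) =
    defOrd (Lv O w γ) [PP O (Lv O w γ) γ, Od O w γ, γ.toZFSet] (Od O w γ) :=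
  congrArg Prod.snd ((exists_levels.choose_spec.2 O w).2.1 γ)
theorem lb_mem_bU {γ : Ordinal.{0}} {f : Ordinal.{0} → V} {x : V} :
    x ∈ bU γ.toZFSet (fun y => f y.rank) ↔ ∃ β < γ, x ∈ f β := by
  rw [mem_bU]
  constructor
  · rintro ⟨y, hy, h⟩
    exact ⟨y.rank, (rank_lt_of_mem hy).trans_eq (rank_toZFSet _), h⟩
  · rintro ⟨β, hβ, h⟩
    exact ⟨β.toZFSet, toZFSet_mem_toZFSet_iff.2 hβ, by rwa [rank_toZFSet]⟩
theorem mem_Lv_limit {O w x : V} {γ : Ordinal.{0}} (h : Order.IsSuccLimit γ) :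
    x ∈ Lv O w γ ↔ ∃ β < γ, x ∈ Lv O w β := by
  have e : Lv O w γ = bU γ.toZFSet (fun y => Lv O w y.rank) :=
    congrArg Prod.fst ((exists_levels.choose_spec.2 O w).2.2 γ h)
  rw [e, lb_mem_bU]
theorem lb_mem_Od_limit {O w x : V} {γ : Ordinal.{0}} (h : Order.IsSuccLimit γ) :
    x ∈ Od O w γ ↔ ∃ β < γ, x ∈ Od O w β := by
  have e : Od O w γ = bU γ.toZFSet (fun y => Od O w y.rank) :=
    congrArg Prod.snd ((exists_levels.choose_spec.2 O w).2.2 γ h)
  rw [e, lb_mem_bU]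
theorem PP_subset (O L : V) (γ : Ordinal.{0}) : PP O L γ ⊆ L := by
  intro x hx
  unfold PP at hx
  split_ifs at hx
  · obtain ⟨E, -, h⟩ := mem_bU.1 hx
    exact (mem_sep.1 h).1
  · exact absurd hx (notMem_empty x)

theorem lb_def {L y : V} {x : List V} (φ : Fo) (l : List V) (hl : ∀ u ∈ l, u ∈ L) (hy : y ⊆ L)
    (h : ∀ z ∈ L, z ∈ y ↔ Sat1 (L : Set V) φ (env (z :: (x ++ l)))) : y ∈ DefL L x := by
  refine mem_DefL.2 ⟨φ, l, hl, ZFSet.ext fun z => ?_⟩
  rw [defSet, mem_sep]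
  exact ⟨fun hz => ⟨hy hz, (h z (hy hz)).1 hz⟩, fun hz => (h z hz.1).2 hz.2⟩
theorem lb_sub {L y : V} {x : List V} (h : y ∈ DefL L x) : y ⊆ L := by
  obtain ⟨φ, l, -, rfl⟩ := mem_DefL.1 h
  exact sep_subset
theorem lb_self {L a b c : V} (hL : L.IsTransitive) : L ⊆ DefL L [a, b, c] := fun u hu =>
  lb_def (.mem 0 4) [u] (by simpa using hu) (hL u hu) fun _ _ => Iff.rfl
theorem lb_upair {L a b c u v : V} (hu : u ∈ L) (hv : v ∈ L) : ({u, v} : V) ∈ DefL L [a, b, c] := by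
  refine lb_def (.neg (.and (.neg (.eq 0 4)) (.neg (.eq 0 5)))) [u, v] (by simp [hu, hv])
    (fun z hz => ?_) fun z _ => ?_
  · rcases mem_pair.1 hz with rfl | rfl <;> assumption
  · show _ ↔ ¬ (¬ z = u ∧ ¬ z = v)
    rw [mem_pair]; tauto

theorem lb_back {w A w' A' x y : V} (h : IsWO w A) (h' : IsWO w' A') (hs : w ⊆ w') (hx : x ∈ A)
    (hy : y ∈ A) (hp : pair x y ∈ w') : pair x y ∈ w := by
  rcases h.2.2.2.2.1 x hx y hy with k | k
  · exact k
  · obtain ⟨k1, k2⟩ := z4d_mem h' hp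
    rw [h'.2.2.1 x k1 y k2 hp (hs k)]
    exact h.2.1 y hy
theorem lb_wo_zero {w : V} (h : IsWO w (fld w)) :
    IsWO (w ∪ prod (insert w (fld w)) {w}) (insert w (fld w)) := by
  have hn : w ∉ fld w := fun k => by
    have := rank_lt_of_mem (h.2.1 w k)
    rw [z2d_rank, max_self] at this
    exact this.not_ge ((Order.le_succ _).trans (Order.le_succ _))
  have key : ∀ x y : V, pair x y ∈ w ∪ prod (insert w (fld w)) {w} ↔
      pair x y ∈ w ∨ (x ∈ insert w (fld w) ∧ y = w) := fun x y => by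
    rw [ZFSet.mem_union, pair_mem_prod, mem_singleton]
  have l1 : ∀ {x y : V}, pair x y ∈ w → x ≠ w := fun k e => hn (e ▸ (z4d_mem h k).1)
  have l2 : ∀ {x y : V}, pair x y ∈ w → y ≠ w := fun k e => hn (e ▸ (z4d_mem h k).2)
  refine ⟨fun p hp => ?_, fun x hx => ?_, fun x hx y hy k1 k2 => ?_,
    fun x hx y hy z hz k1 k2 => ?_, fun x hx y hy => ?_, ?_⟩
  · rcases ZFSet.mem_union.1 hp with k | k
    · obtain ⟨x, hx, y, hy, rfl⟩ := mem_prod.1 (h.1 k)
      exact pair_mem_prod.2 ⟨mem_insert_of_mem _ hx, mem_insert_of_mem _ hy⟩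
    · obtain ⟨x, hx, y, hy, rfl⟩ := mem_prod.1 k
      exact pair_mem_prod.2 ⟨hx, mem_singleton.1 hy ▸ mem_insert _ _⟩
  · rw [key]
    rcases mem_insert_iff.1 hx with e | k
    · exact Or.inr ⟨hx, e⟩
    · exact Or.inl (h.2.1 x k)
  · rw [key] at k1 k2
    rcases k1 with k1 | k1 <;> rcases k2 with k2 | k2
    · exact h.2.2.1 x (z4d_mem h k1).1 y (z4d_mem h k1).2 k1 k2
    · exact absurd k2.2 (l1 k1)
    · exact absurd k1.2 (l1 k2)
    · rw [k1.2, k2.2]
  · rw [key] at k1 k2 ⊢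
    rcases k2 with k2 | k2
    · rcases k1 with k1 | k1
      · exact Or.inl (h.2.2.2.1 x (z4d_mem h k1).1 y (z4d_mem h k1).2 z (z4d_mem h k2).2 k1 k2)
      · exact absurd k1.2 (l1 k2)
    · exact Or.inr ⟨hx, k2.2⟩
  · rw [key, key]
    rcases mem_insert_iff.1 hy with e | k
    · exact Or.inl (Or.inr ⟨hx, e⟩)
    · rcases mem_insert_iff.1 hx with e | k'
      · exact Or.inr (Or.inr ⟨hy, e⟩)
      · exact (h.2.2.2.2.1 x k' y k).imp Or.inl Or.inl
  · have hwf : WellFounded (fun y z => pair y z ∈ strict w) := h.2.2.2.2.2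
    have acc : ∀ x, x ≠ w →
        Acc (fun y z => pair y z ∈ strict (w ∪ prod (insert w (fld w)) {w})) x := fun x => by
      induction x using hwf.induction with
      | _ x ih =>
        refine fun hx => ⟨_, fun y hy => ?_⟩
        rw [pair_mem_strict, key] at hy
        have k := hy.1.resolve_right fun k => hx k.2
        exact ih y (pair_mem_strict.2 ⟨k, hy.2⟩) (l1 k)
    refine ⟨fun x => ?_⟩
    by_cases e : x = w
    · exact ⟨_, fun y hy => acc y (e ▸ (pair_mem_strict.1 hy).2)⟩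
    · exact acc x e
theorem lb_wo_limit {γ : Ordinal.{0}} {L D : Ordinal.{0} → V} {A w : V}
    (hA : ∀ x, x ∈ A ↔ ∃ β < γ, x ∈ L β) (hw : ∀ x, x ∈ w ↔ ∃ β < γ, x ∈ D β)
    (h : ∀ β < γ, IsWO (D β) (L β)) (he : ∀ β' < γ, ∀ β ≤ β', EndExt (D β) (L β) (D β')) :
    IsWO w A := by
  have up : ∀ {β β' : Ordinal.{0}} {x : V}, β ≤ β' → β' < γ → x ∈ L β → x ∈ L β' :=
    fun k1 k2 hx => (z4d_mem (h _ k2) ((he _ k2 _ k1).1 ((h _ (k1.trans_lt k2)).2.1 _ hx))).1
  refine ⟨fun p hp => ?_, fun x hx => ?_, fun x hx y hy k1 k2 => ?_,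
    fun x hx y hy z hz k1 k2 => ?_, fun x hx y hy => ?_, ?_⟩
  · obtain ⟨β, hβ, k⟩ := (hw p).1 hp
    obtain ⟨x, hx, y, hy, rfl⟩ := mem_prod.1 ((h β hβ).1 k)
    exact pair_mem_prod.2 ⟨(hA x).2 ⟨β, hβ, hx⟩, (hA y).2 ⟨β, hβ, hy⟩⟩
  · obtain ⟨β, hβ, k⟩ := (hA x).1 hx
    exact (hw _).2 ⟨β, hβ, (h β hβ).2.1 x k⟩
  · obtain ⟨β, hβ, k1⟩ := (hw _).1 k1
    obtain ⟨β', hβ', k2⟩ := (hw _).1 k2
    have hm := max_lt hβ hβ'
    have k3 := (he _ hm _ (le_max_left _ _)).1 k1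
    have k4 := (he _ hm _ (le_max_right _ _)).1 k2
    exact (h _ hm).2.2.1 x (z4d_mem (h _ hm) k3).1 y (z4d_mem (h _ hm) k3).2 k3 k4
  · obtain ⟨β, hβ, k1⟩ := (hw _).1 k1
    obtain ⟨β', hβ', k2⟩ := (hw _).1 k2
    have hm := max_lt hβ hβ'
    have k3 := (he _ hm _ (le_max_left _ _)).1 k1
    have k4 := (he _ hm _ (le_max_right _ _)).1 k2
    exact (hw _).2 ⟨_, hm, (h _ hm).2.2.2.1 x (z4d_mem (h _ hm) k3).1 y (z4d_mem (h _ hm) k3).2 z
      (z4d_mem (h _ hm) k4).2 k3 k4⟩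
  · obtain ⟨β, hβ, k1⟩ := (hA x).1 hx
    obtain ⟨β', hβ', k2⟩ := (hA y).1 hy
    have hm := max_lt hβ hβ'
    exact ((h _ hm).2.2.2.2.1 x (up (le_max_left _ _) hm k1) y (up (le_max_right _ _) hm k2)).imp
      (fun k => (hw _).2 ⟨_, hm, k⟩) fun k => (hw _).2 ⟨_, hm, k⟩
  · have acc : ∀ β < γ, ∀ x, x ∈ L β → Acc (fun y z => pair y z ∈ strict w) x := fun β hβ x => by
      have hwf : WellFounded (fun y z => pair y z ∈ strict (D β)) := (h β hβ).2.2.2.2.2
      induction x using hwf.induction with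
      | _ x ih =>
        refine fun hx => ⟨_, fun y hy => ?_⟩
        rw [pair_mem_strict] at hy
        obtain ⟨β', hβ', k⟩ := (hw _).1 hy.1
        have hm := max_lt hβ hβ'
        have k1 := (he _ hm _ (le_max_right _ _)).1 k
        have k2 := he _ hm _ (le_max_left _ _)
        have k3 := k2.2 x hx y k1
        exact ih y (pair_mem_strict.2 ⟨lb_back (h β hβ) (h _ hm) k2.1 k3 hx k1, hy.2⟩) k3
    refine ⟨fun x => ⟨_, fun y hy => ?_⟩⟩
    obtain ⟨β, hβ, k⟩ := (hw _).1 (pair_mem_strict.1 hy).1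
    exact acc β hβ y (z4d_mem (h β hβ) k).1
section base
variable {O w : V} (hw : IsBase w)
include hw
theorem Lv_trans (γ : Ordinal.{0}) : (Lv O w γ).IsTransitive := by
  induction γ using Ordinal.limitRecOn with
  | zero =>
    rw [Lv_zero]
    intro x hx y hy
    rcases mem_insert_iff.1 hx with rfl | k
    · exact mem_insert_of_mem _ (hw.2.2 hy)
    · exact mem_insert_of_mem _ (hw.2.1 x k hy)
  | add_one γ ih =>
    rw [Lv_succ]
    exact fun x hx y hy => lb_self ih (lb_sub hx hy)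
  | limit γ h ih =>
    intro x hx y hy
    obtain ⟨β, hβ, k⟩ := (mem_Lv_limit h).1 hx
    exact (mem_Lv_limit h).2 ⟨β, hβ, ih β hβ x k hy⟩
theorem Lv_mono {β γ : Ordinal.{0}} (h : β ≤ γ) : Lv O w β ⊆ Lv O w γ := by
  induction γ using Ordinal.limitRecOn with
  | zero => rw [nonpos_iff_eq_zero.1 h]
  | add_one γ ih =>
    rcases h.eq_or_lt with rfl | k
    · exact subset_rfl
    · rw [Lv_succ]
      exact fun x hx => lb_self (Lv_trans hw γ) (ih (Order.lt_add_one_iff.1 k) hx)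
  | limit γ hl ih =>
    rcases h.eq_or_lt with rfl | k
    · exact subset_rfl
    · exact fun x hx => (mem_Lv_limit hl).2 ⟨β, k, hx⟩
theorem Lv_mem_succ (γ : Ordinal.{0}) : Lv O w γ ∈ Lv O w (γ + 1) := by
  rw [Lv_succ]
  exact lb_def (.eq 0 0) [] (by simp) subset_rfl fun z hz => iff_of_true hz rfl
theorem PP_mem_succ (γ : Ordinal.{0}) : PP O (Lv O w γ) γ ∈ Lv O w (γ + 1) := by
  rw [Lv_succ]
  exact lb_def (.mem 0 1) [] (by simp) (PP_subset _ _ _) fun _ _ => Iff.rfl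
theorem ord_mem_Lv (γ : Ordinal.{0}) : γ.toZFSet ∈ Lv O w (γ + 1) := by
  induction γ using WellFoundedLT.induction with
  | ind γ ih =>
    rw [Lv_succ]
    refine lb_def (.mem 0 3) [] (by simp) (fun x hx => ?_) fun _ _ => Iff.rfl
    obtain ⟨β, hβ, rfl⟩ := mem_toZFSet_iff.1 hx
    exact Lv_mono hw (Order.add_one_le_of_lt hβ) (ih β hβ)
theorem lb_main (γ : Ordinal.{0}) : IsWO (Od O w γ) (Lv O w γ) ∧
    ∀ β ≤ γ, EndExt (Od O w β) (Lv O w β) (Od O w γ) := by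
  have rf : ∀ {a A : V}, IsWO a A → EndExt a A a := fun h =>
    ⟨subset_rfl, fun _ _ _ k => (z4d_mem h k).1⟩
  induction γ using Ordinal.limitRecOn with
  | zero =>
    have h : IsWO (Od O w 0) (Lv O w 0) := by rw [Lv_zero, lb_Od_zero]; exact lb_wo_zero hw.1
    exact ⟨h, fun β hβ => by rw [nonpos_iff_eq_zero.1 hβ]; exact rf h⟩
  | add_one γ ih =>
    have h : IsWO (Od O w (γ + 1)) (Lv O w (γ + 1)) ∧
        EndExt (Od O w γ) (Lv O w γ) (Od O w (γ + 1)) := by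
      rw [Lv_succ, lb_Od_succ]
      exact exists_defOrd.choose_spec.2 _ _ _ (Lv_trans hw γ) ih.1
    refine ⟨h.1, fun β hβ => ?_⟩
    rcases hβ.eq_or_lt with rfl | k
    · exact rf h.1
    · have k1 := Order.lt_add_one_iff.1 k
      refine ⟨(ih.2 β k1).1.trans h.2.1, fun y hy z hz => ?_⟩
      have k2 := Lv_mono hw k1 hy
      exact (ih.2 β k1).2 y hy z (lb_back ih.1 h.1 h.2.1 (h.2.2 y k2 z hz) k2 hz)
  | limit γ hl ih =>
    have h : IsWO (Od O w γ) (Lv O w γ) := lb_wo_limit (fun _ => mem_Lv_limit hl)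
      (fun _ => lb_mem_Od_limit hl) (fun β hβ => (ih β hβ).1) fun β hβ => (ih β hβ).2
    refine ⟨h, fun β hβ => ?_⟩
    rcases hβ.eq_or_lt with rfl | k
    · exact rf h
    · refine ⟨fun p hp => (lb_mem_Od_limit hl).2 ⟨β, k, hp⟩, fun y hy z hz => ?_⟩
      obtain ⟨β', hβ', k1⟩ := (lb_mem_Od_limit hl).1 hz
      rcases le_total β β' with k2 | k2
      · exact ((ih β' hβ').2 β k2).2 y hy z k1
      · exact Lv_mono hw k2 (z4d_mem (ih β' hβ').1 k1).1
theorem isWO_Od (γ : Ordinal.{0}) : IsWO (Od O w γ) (Lv O w γ) := (lb_main hw γ).1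
theorem Od_endExt {β γ : Ordinal.{0}} (h : β ≤ γ) : EndExt (Od O w β) (Lv O w β) (Od O w γ) :=
  (lb_main hw γ).2 β h
theorem Od_mem (γ : Ordinal.{0}) : Od O w γ ∈ Lv O w (γ + ω) := by
  have hl : Order.IsSuccLimit (γ + ω) := isSuccLimit_add γ isSuccLimit_omega0
  have h3 : γ + 1 + 1 + 1 < γ + ω :=
    hl.add_one_lt (hl.add_one_lt (hl.add_one_lt (lt_add_of_pos_right γ omega0_pos)))
  have h2 : γ ≤ γ + 1 + 1 := le_self_add.trans le_self_add
  have ht := Lv_trans (O := O) hw (γ + 1 + 1)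
  refine Lv_mono hw h3.le ?_
  rw [Lv_succ]
  refine lb_def (.and (.mem 0 2) (.neg (.ex (.and (.mem 0 1) (.ex (.and (.mem 0 1)
    (.neg (.mem 0 6)))))))) [Lv O w γ] ?_ (fun p hp => ?_) fun p hp => ?_
  · simpa using Lv_mono hw le_self_add (Lv_mem_succ hw γ)
  · obtain ⟨x, hx, y, hy, rfl⟩ := mem_prod.1 ((isWO_Od hw γ).1 hp)
    have k : ∀ u ∈ Lv O w γ, ({x, u} : V) ∈ Lv O w (γ + 1) := fun u hu => by
      rw [Lv_succ]; exact lb_upair hx hu
    rw [Lv_succ]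
    exact lb_upair (by simpa using k x hx) (k y hy)
  · show _ ↔ p ∈ Od O w (γ + 1 + 1) ∧ ¬ ∃ u ∈ Lv O w (γ + 1 + 1), u ∈ p ∧
      ∃ t ∈ Lv O w (γ + 1 + 1), t ∈ u ∧ t ∉ Lv O w γ
    constructor
    · intro k
      refine ⟨(Od_endExt hw h2).1 k, ?_⟩
      obtain ⟨x, hx, y, hy, rfl⟩ := mem_prod.1 ((isWO_Od hw γ).1 k)
      rintro ⟨u, -, hu, t, -, htu, hn⟩
      rcases mem_pair.1 hu with rfl | rfl
      · exact hn (mem_singleton.1 htu ▸ hx)
      · rcases mem_pair.1 htu with rfl | rfl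
        · exact hn hx
        · exact hn hy
    · rintro ⟨k, hn⟩
      obtain ⟨x, hx, y, hy, rfl⟩ := mem_prod.1 ((isWO_Od hw _).1 k)
      have hu : ({x, y} : V) ∈ pair x y := mem_pair.2 (Or.inr rfl)
      refine lb_back (isWO_Od hw γ) (isWO_Od hw _) (Od_endExt hw h2).1 ?_ ?_ k
      · exact by_contra fun c => hn ⟨_, ht _ hp hu, hu, x, hx, mem_pair.2 (Or.inl rfl), c⟩
      · exact by_contra fun c => hn ⟨_, ht _ hp hu, hu, y, hy, mem_pair.2 (Or.inr rfl), c⟩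
end base

theorem lb_olst {γ γ' : Ordinal.{0}} {P P' : Ordinal.{0} → Prop} (h1 : olst γ P < γ)
    (h2 : olst γ P < γ') (h : ∀ a ≤ olst γ P, P' a ↔ P a) : olst γ' P' = olst γ P := by
  refine (olst_le_of h2 ((h _ le_rfl).2 (olst_spec h1))).eq_of_not_lt fun k => ?_
  exact not_of_lt_olst k ((h _ k.le).1 (olst_spec (k.trans h2)))
theorem lb_olst_congr {γ : Ordinal.{0}} {P P' : Ordinal.{0} → Prop} (h : ∀ a < γ, P a ↔ P' a) :
    olst γ P = olst γ P' := by
  unfold olst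
  congr 1
  ext x
  exact or_congr_right (and_congr_right (h x))
theorem lb_minBad {O L : V} {a : Ordinal.{0}} (h : (BadAt O L a).Nonempty) :
    ∃ E, E ∈ MinBad O L a := by
  obtain ⟨E, hE, hm⟩ := (InvImage.wf ht wellFounded_lt).has_min (BadAt O L a : Set V) h
  exact ⟨E, mem_sep.2 ⟨hE, fun E' hE' => not_lt.1 (hm E' hE')⟩⟩
/-- labels of options of least height with a new type -/
def lb_Good (L l : V) : Prop := fst l ∩ L ∉ L ∧ ∀ d ∈ snd l, d ∩ L ∈ L
theorem lb_good {O L C E : V} {a : Ordinal.{0}} (hO : OptLike O) (hL : L ⊆ C)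
    (hE : E ∈ MinBad O L a) :
    label (sec O a) C a E ∈ Labels (sec O a) C a ∧ lb_Good L (label (sec O a) C a E) := by
  obtain ⟨h1, h2⟩ := mem_sep.1 hE
  obtain ⟨h3, h4⟩ := mem_sep.1 h1
  rw [typ_of_subset hL] at h4
  have h5 : ∀ d ∈ img (typ C a) (Pred (sec O a) E), d ∩ L ∈ L := fun d hd => by
    obtain ⟨E', hE', rfl⟩ := mem_img.1 hd
    rw [← typ_of_subset hL]
    exact by_contra fun c => (h2 E' (mem_sep.2 ⟨(ZFSet.mem_inter.1 hE').1, c⟩)).not_gt
      ((hO.sec a).ht_lt h3 hE').1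
  refine ⟨mem_img.2 ⟨E, mem_sep.2 ⟨h3, h3, fun k => h4 (h5 _ k)⟩, rfl⟩, ?_⟩
  rw [lb_Good, label, fst_pair, snd_pair]
  exact ⟨h4, h5⟩
theorem lb_uniq {A A' L C l l' : V} {a : Ordinal.{0}} (h : Agree A A' C a) (hl : l ∈ Labels A C a)
    (hl' : l' ∈ Labels A C a) (g : lb_Good L l) (g' : lb_Good L l') : l = l' :=
  by_contra fun c => (h.2 l hl l' hl' c).elim (fun k => g.1 (g'.2 _ k)) fun k => g'.1 (g.2 _ k)
theorem lb_bad {O O' L C : V} {a : Ordinal.{0}} (hO : OptLike O) (hL : L ⊆ C)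
    (h : Agree (sec O a) (sec O' a) C a) (hb : (BadAt O L a).Nonempty) :
    (BadAt O' L a).Nonempty := by
  obtain ⟨E, hE⟩ := lb_minBad hb
  obtain ⟨k1, k2⟩ := lb_good hO hL hE
  rw [h.1] at k1
  obtain ⟨E', hE', e⟩ := mem_img.1 k1
  refine ⟨E', mem_sep.2 ⟨(mem_sep.1 hE').1, ?_⟩⟩
  rw [← e, lb_Good, label, fst_pair] at k2
  rw [typ_of_subset hL]
  exact k2.1
theorem lb_sub_PP {O O' L C : V} {a : Ordinal.{0}} (hO : OptLike O) (hO' : OptLike O')
    (hL : L ⊆ C) (h : Agree (sec O a) (sec O' a) C a) :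
    bU (MinBad O L a) (typ L a) ⊆ bU (MinBad O' L a) (typ L a) := by
  intro x hx
  obtain ⟨E, hE, k⟩ := mem_bU.1 hx
  obtain ⟨E', hE'⟩ := lb_minBad (lb_bad hO hL h ⟨E, (mem_sep.1 hE).1⟩)
  obtain ⟨k1, k2⟩ := lb_good hO hL hE
  obtain ⟨k3, k4⟩ := lb_good hO' hL hE'
  have e := (pair_inj.1 (lb_uniq h k1 (h.1 ▸ k3) k2 k4)).1
  refine mem_bU.2 ⟨E', hE', ?_⟩
  rwa [typ_of_subset hL, ← e, ← typ_of_subset hL]

/-- equal sections or agreement give equal predicates, and no tie at an agreeing index -/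
theorem PP_eq_of_agree {O O' L C : V} {γ : Ordinal.{0}} (hO : OptLike O) (hO' : OptLike O')
    (hL : L ⊆ C) (h : ∀ a < γ, sec O a = sec O' a ∨ Agree (sec O a) (sec O' a) C a) :
    PP O L γ = PP O' L γ ∧ pIdx O L γ = pIdx O' L γ := by
  have e : pIdx O L γ = pIdx O' L γ := lb_olst_congr fun a ha => by
    rcases h a ha with k | k
    · rw [BadAt, BadAt, k]
    · exact ⟨lb_bad hO hL k, lb_bad hO' hL k.symm⟩
  refine ⟨?_, e⟩
  rw [PP, PP, ← e]
  split_ifs with k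
  · rcases h _ k with k1 | k1
    · rw [MinBad, MinBad, BadAt, BadAt, k1]
    · exact subset_antisymm (lb_sub_PP hO hO' hL k1) (lb_sub_PP hO' hO hL k1.symm)
  · rfl
theorem not_tie_of_agree {O O₂ L C : V} {γ : Ordinal.{0}} (hO : OptLike O) (hL : L ⊆ C)
    (h : Agree (sec O (pIdx O L γ)) O₂ C (pIdx O L γ)) : ¬ Tie O L γ := by
  rintro ⟨-, E, hE, E', hE', hn⟩
  obtain ⟨k1, k2⟩ := lb_good hO hL hE
  obtain ⟨k3, k4⟩ := lb_good hO hL hE'
  apply hn
  rw [typ_of_subset hL, typ_of_subset hL, (pair_inj.1 (lb_uniq h k1 k3 k2 k4)).1]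
theorem levels_eq {O O' w C : V} {θ : Ordinal.{0}} (hO : OptLike O) (hO' : OptLike O')
    (hC : ∀ γ ≤ θ, Lv O w γ ∩ Lv O' w γ ⊆ C)
    (h : ∀ a < θ, sec O a = sec O' a ∨ Agree (sec O a) (sec O' a) C a) :
    ∀ γ ≤ θ, Lv O w γ = Lv O' w γ ∧ Od O w γ = Od O' w γ := by
  intro γ
  induction γ using Ordinal.limitRecOn with
  | zero => exact fun _ => ⟨by rw [Lv_zero, Lv_zero], by rw [lb_Od_zero, lb_Od_zero]⟩
  | add_one γ ih =>
    intro hγ
    have k : γ ≤ θ := le_self_add.trans hγ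
    obtain ⟨e1, e2⟩ := ih k
    have hL : Lv O w γ ⊆ C := fun x hx => hC γ k (ZFSet.mem_inter.2 ⟨hx, e1 ▸ hx⟩)
    have e3 := (PP_eq_of_agree hO hO' hL fun a (ha : a < γ) => h a (ha.trans_le k)).1
    rw [Lv_succ, Lv_succ, lb_Od_succ, lb_Od_succ, ← e1, ← e2, e3]
    exact ⟨rfl, rfl⟩
  | limit γ hl ih =>
    intro hγ
    refine ⟨ZFSet.ext fun x => ?_, ZFSet.ext fun x => ?_⟩
    · rw [mem_Lv_limit hl, mem_Lv_limit hl]
      exact exists_congr fun β => and_congr_right fun hβ => by rw [(ih β hβ (hβ.le.trans hγ)).1]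
    · rw [lb_mem_Od_limit hl, lb_mem_Od_limit hl]
      exact exists_congr fun β => and_congr_right fun hβ => by rw [(ih β hβ (hβ.le.trans hγ)).2]
/-- a tie only depends on bounded data -/
theorem Tie.congr {O O' L L' : V} {γ γ' η : Ordinal.{0}} (hO : OptLike O) (h : Tie O L γ)
    (hη : pIdx O L γ < η) (hγ : pIdx O L γ < γ') (hs : ∀ a ≤ pIdx O L γ, sec O' a = sec O a)
    (hL : cut L' η = cut L η) : Tie O' L' γ' ∧ pIdx O' L' γ' = pIdx O L γ := by
  have m : ∀ x : V, x.rank < η → (x ∈ L' ↔ x ∈ L) := fun x hx => by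
    have := ZFSet.ext_iff.1 hL x
    rwa [mem_cut, mem_cut, and_iff_left hx, and_iff_left hx] at this
  have t : ∀ a < η, ∀ E ∈ sec O a, typ L' a E = typ L a E := fun a ha E hE => by
    obtain ⟨k1, -, k2, k3⟩ := hO.sec a E hE
    rw [typ_cut k1 k2 k3, typ_cut (C := L) k1 k2 k3]
    congr 1
    ext x
    rw [mem_cut, mem_cut]
    exact and_congr_left fun hx => m x (hx.trans ha)
  have b : ∀ a ≤ pIdx O L γ, BadAt O' L' a = BadAt O L a := fun a ha => by
    ext E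
    rw [BadAt, BadAt, hs a ha, mem_sep, mem_sep]
    refine and_congr_right fun hE => ?_
    obtain ⟨k1, -, k2, k3⟩ := hO.sec a E hE
    rw [t a (ha.trans_lt hη) E hE, m _ ((rank_typ_le k1 k2 k3).trans_lt (ha.trans_lt hη))]
  have e : pIdx O' L' γ' = pIdx O L γ := lb_olst h.1 hγ fun a ha => by rw [b a ha]
  refine ⟨?_, e⟩
  obtain ⟨-, E, hE, E', hE', hn⟩ := h
  have e2 : MinBad O' L' (pIdx O L γ) = MinBad O L (pIdx O L γ) := by
    rw [MinBad, MinBad, b _ le_rfl]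
  rw [Tie, e, e2]
  refine ⟨hγ, E, hE, E', hE', ?_⟩
  rwa [t _ hη E (mem_sep.1 (mem_sep.1 hE).1).1, t _ hη E' (mem_sep.1 (mem_sep.1 hE').1).1]
/-- without a tie, either the predicate is new or all types are old -/
theorem typ_mem_of_not_tie {O L : V} {γ : Ordinal.{0}} (h : ¬ Tie O L γ) (hP : PP O L γ ∈ L) :
    ∀ a < γ, ∀ E ∈ sec O a, typ L a E ∈ L := by
  intro a ha E hE
  by_contra c
  have k : pIdx O L γ < γ := (olst_le_of (P := fun a => (BadAt O L a).Nonempty) ha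
    ⟨E, mem_sep.2 ⟨hE, c⟩⟩).trans_lt ha
  obtain ⟨E₀, h0⟩ := lb_minBad (olst_spec (P := fun a => (BadAt O L a).Nonempty) k)
  refine (mem_sep.1 (mem_sep.1 h0).1).2 ?_
  have e : PP O L γ = typ L (pIdx O L γ) E₀ := by
    rw [PP, if_pos k]
    ext x
    rw [mem_bU]
    refine ⟨fun ⟨E', hE', hx⟩ => ?_, fun hx => ⟨E₀, h0, hx⟩⟩
    rwa [show typ L (pIdx O L γ) E' = typ L (pIdx O L γ) E₀ from
      by_contra fun n => h ⟨k, E', hE', E₀, h0, n⟩] at hx
  exact e ▸ hP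
theorem rank_PP_le {O L : V} {γ : Ordinal.{0}} (hO : OptLike O) : (PP O L γ).rank ≤ O.rank := by
  refine rank_le_iff.2 fun x hx => ?_
  unfold PP at hx
  split_ifs at hx
  · obtain ⟨E, hE, k⟩ := mem_bU.1 hx
    have hE' := (mem_sep.1 (mem_sep.1 hE).1).1
    obtain ⟨k1, -, k2, k3⟩ := hO.sec _ E hE'
    have k4 := rank_lt_of_mem (mem_sep.1 hE').2
    rw [z2d_rank, rank_toZFSet] at k4
    exact ((rank_lt_of_mem k).trans_le (rank_typ_le k1 k2 k3)).trans
      ((((le_max_left _ _).trans (Order.le_succ _)).trans (Order.le_succ _)).trans_lt k4)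
  · exact absurd hx (notMem_empty x)
-- JOB B END

-- JOB C BEGIN
instance uc_Wm (N : Set V) [IsZ N] {O w : V} [In N O] [In N w] :
    UC (loc N) (fun _ _ => Wm N O w) :=
  UC.setOf (F := loc N) (fun _ _ x => ∃ γ : Ordinal.{0}, γ.toZFSet ∈ N ∧ x ∈ Lv O w γ) (by
    rintro M e _ _ x ⟨γ, hγ, hx⟩
    haveI : In N γ := ⟨hγ⟩
    rw [show M = N from e]
    exact IsZ.trans _ (memV_of N (Lv O w γ)) _ hx)
/-- witnesses for the existential subformulas with arguments in `A` can be found in `B` -/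
def lc_Step (D : Set V) : Fo → V → V → Prop
  | .mem _ _, _, _ => True
  | .eq _ _, _, _ => True
  | .neg φ, A, B => lc_Step D φ A B
  | .and φ ψ, A, B => lc_Step D φ A B ∧ lc_Step D ψ A B
  | .ex φ, A, B => lc_Step D φ A B ∧ ∀ l : List V, (∀ x ∈ l, x ∈ A) →
      (∃ a ∈ D, Sat1 D φ (cons a (env l))) → ∃ a ∈ B, Sat1 D φ (cons a (env l))
instance lc_ud (φ : Fo) {D : Set V → (ℕ → V) → Set V} {a b : Set V → (ℕ → V) → V} [UC F D] [UF F a]
    [UF F b] : UD F (fun M v => lc_Step (D M v) φ (a M v) (b M v)) := by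
  have := UC.lift (F := F) D; have := UF.lift (F := F) b
  induction φ with
  | mem i j => exact UD.true
  | eq i j => exact UD.true
  | neg φ ih => exact ih
  | and φ ψ ih ih' => exact UD.and (h := ih) (k := ih')
  | ex φ ih => exact UD.and (h := ih) (k := inferInstance)
theorem lc_chain {D : Set V} {L : V} {A : ℕ → V} (hA : ∀ n, A n ⊆ A (n + 1))
    (hL : ∀ x, x ∈ L ↔ ∃ n, x ∈ A n) (hD : (L : Set V) ⊆ D) (φ : Fo)
    (h : ∀ n, lc_Step D φ (A n) (A (n + 1))) :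
    ∀ l : List V, (∀ x ∈ l, x ∈ L) → (Sat1 D φ (env l) ↔ Sat1 (L : Set V) φ (env l)) := by
  have hm : ∀ m n, m ≤ n → A m ⊆ A n := fun m n k => by
    induction k with
    | refl => exact fun _ h => h
    | step _ ih => exact fun _ h => hA _ (ih h)
  have hl : ∀ l : List V, (∀ x ∈ l, x ∈ L) → ∃ n, ∀ x ∈ l, x ∈ A n := fun l k => by
    induction l with
    | nil => exact ⟨0, fun _ h => nomatch h⟩
    | cons a l ih =>
      obtain ⟨h1, h2⟩ := List.forall_mem_cons.1 k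
      obtain ⟨m, h3⟩ := (hL a).1 h1
      obtain ⟨n, h4⟩ := ih h2
      exact ⟨max m n, List.forall_mem_cons.2 ⟨hm _ _ (le_max_left _ _) h3,
        fun x hx => hm _ _ (le_max_right _ _) (h4 x hx)⟩⟩
  induction φ with
  | mem i j => exact fun _ _ => Iff.rfl
  | eq i j => exact fun _ _ => Iff.rfl
  | neg φ ih => exact fun l k => not_congr (ih h l k)
  | and φ ψ ih ih' => exact fun l k => and_congr (ih (fun n => (h n).1) l k) (ih' (fun n => (h n).2) l k)
  | ex φ ih =>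
    intro l k
    have e : ∀ a ∈ L, Sat1 D φ (cons a (env l)) ↔ Sat1 (L : Set V) φ (cons a (env l)) := fun a ha => by
      rw [← env_cons]
      exact ih (fun n => (h n).1) _ (List.forall_mem_cons.2 ⟨ha, k⟩)
    obtain ⟨n, hn⟩ := hl l k
    refine ⟨fun H => ?_, fun ⟨a, ha, H⟩ => ⟨a, hD ha, (e a ha).2 H⟩⟩
    obtain ⟨a, ha, H'⟩ := (h n).2 l hn H
    have ha' := (hL a).2 ⟨_, ha⟩
    exact ⟨a, ha', (e a ha').1 H'⟩
theorem lc_def {O w : V} {γ : Ordinal.{0}} (φ : Fo) {l : List V} (hl : ∀ x ∈ l, x ∈ Lv O w γ) :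
    defSet (Lv O w γ) φ l ∈ Lv O w (γ + 1) := by
  rw [Lv_succ, mem_DefL]
  refine ⟨φ.ren (cons 0 fun i => i + 4), l, hl, ZFSet.ext fun y => ?_⟩
  simp only [defSet, mem_sep, sat_ren]
  refine and_congr_right fun _ => iff_of_eq (congrArg _ (funext fun i => ?_))
  cases i <;> simp
section W
variable {N : Set V} {O w : V}
theorem lc_succ [IsZ N] {o : Ordinal.{0}} (h : o.toZFSet ∈ N) : (o + 1).toZFSet ∈ N :=
  haveI : In N o := ⟨h⟩
  mem_of N (o + 1)
theorem lc_max {o p : Ordinal.{0}} (h : o.toZFSet ∈ N) (k : p.toZFSet ∈ N) :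
    (max o p).toZFSet ∈ N := by
  rcases max_choice o p with e | e <;> rwa [e]
theorem Wm_subset [IsZ N] (hO : O ∈ N) (hw : w ∈ N) : Wm N O w ⊆ N :=
  haveI : In N O := ⟨hO⟩
  haveI : In N w := ⟨hw⟩
  (uc_Wm N).sub N rfl (fun _ => ∅) fun _ => IsZ.empty_mem N
theorem ord_mem_Wm [IsZ N] (hb : IsBase w) {o : Ordinal.{0}} (ho : o.toZFSet ∈ N) :
    o.toZFSet ∈ Wm N O w := ⟨o + 1, lc_succ ho, ord_mem_Lv hb o⟩
theorem base_mem_Wm [IsZ N] (hb : IsBase w) : w ∈ Wm N O w ∧ fld w ∈ Wm N O w := by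
  have h0 : (0 : Ordinal.{0}).toZFSet ∈ N := by rw [toZFSet_zero]; exact IsZ.empty_mem N
  have h1 : w ∈ Lv O w 0 := by rw [Lv_zero]; exact mem_insert _ _
  refine ⟨⟨0, h0, h1⟩, 0 + 1, lc_succ h0, ?_⟩
  convert lc_def (.neg (.eq 0 1)) (l := [w]) (List.forall_mem_singleton.2 h1) using 1
  ext y
  simp only [defSet, mem_sep, Sat1, env_cons, cons_zero, cons_succ, Lv_zero, mem_insert_iff]
  refine ⟨fun h => ⟨Or.inr h, fun e => ?_⟩, fun h => h.1.resolve_left h.2⟩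
  have h2 := rank_lt_of_mem (hb.1.2.1 w (e ▸ h))
  rw [rank_zpair, max_self] at h2
  exact h2.not_ge le_self_add
theorem subset_Lv_of_subset_Wm [IsZ N] (hO : O ∈ N) (hw : w ∈ N) (hb : IsBase w) {a : V}
    (ha : a ∈ N) (hs : (a : Set V) ⊆ Wm N O w) :
    ∃ γ : Ordinal.{0}, γ.toZFSet ∈ N ∧ a ⊆ Lv O w γ := by
  haveI : In N O := ⟨hO⟩
  haveI : In N w := ⟨hw⟩
  obtain ⟨ζ, hζ, H⟩ := coll_rank N (fun x y => x ∈ Lv O w y.rank) ha
  refine ⟨ζ, hζ, fun x hx => ?_⟩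
  obtain ⟨γ, hγ, h1⟩ := hs hx
  obtain ⟨y, -, h2, h3⟩ := H x hx ⟨_, hγ, by rwa [rank_toZFSet]⟩
  exact Lv_mono hb h2.le h3
theorem lc_step [IsZ N] (hO : O ∈ N) (hw : w ∈ N) (hb : IsBase w) (φ : Fo) {A : V} (hA : A ∈ N) :
    ∃ δ : Ordinal.{0}, δ.toZFSet ∈ N ∧ ∀ δ', δ ≤ δ' → lc_Step (Wm N O w) φ A (Lv O w δ') := by
  haveI : In N O := ⟨hO⟩
  haveI : In N w := ⟨hw⟩
  haveI : In N A := ⟨hA⟩
  induction φ with
  | mem i j => exact ⟨ω, IsZ.omega, fun _ _ => trivial⟩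
  | eq i j => exact ⟨ω, IsZ.omega, fun _ _ => trivial⟩
  | neg φ ih => exact ih
  | and φ ψ ih ih' =>
    obtain ⟨δ, h1, h2⟩ := ih
    obtain ⟨ε, h3, h4⟩ := ih'
    exact ⟨_, lc_max h1 h3, fun _ k => ⟨h2 _ (le_of_max_le_left k), h4 _ (le_of_max_le_right k)⟩⟩
  | ex φ ih =>
    obtain ⟨δ, h1, h2⟩ := ih
    obtain ⟨ζ, h3, H⟩ := coll_rank N (fun s y => ∃ a ∈ Lv O w y.rank,
      Sat1 (Wm N O w) φ (cons a (env (dec s)))) (memV_of N (lists A))
    refine ⟨_, lc_max h1 h3, fun δ' k => ⟨h2 _ (le_of_max_le_left k), ?_⟩⟩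
    rintro l hl ⟨a, ⟨γ, hγ, ha⟩, h4⟩
    have e : (dec (listZ l) : List V) = l := dec_enc l
    obtain ⟨y, -, h5, b, h6, h7⟩ := H _ (mem_lists.2 ⟨l, hl, rfl⟩)
      ⟨_, hγ, a, by rwa [rank_toZFSet], by rwa [e]⟩
    exact ⟨b, Lv_mono hb (h5.le.trans (le_of_max_le_right k)) h6, by rwa [e] at h7⟩
/-- reflection -/
theorem lc_refl [IsZFC N] (hO : O ∈ N) (hw : w ∈ N) (hb : IsBase w) (φ : Fo) {γ : Ordinal.{0}}
    (hγ : γ.toZFSet ∈ N) : ∃ δ : Ordinal.{0}, δ.toZFSet ∈ N ∧ γ ≤ δ ∧ ∀ l : List V,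
      (∀ x ∈ l, x ∈ Lv O w δ) →
        (Sat1 (Wm N O w) φ (env l) ↔ Sat1 (Lv O w δ : Set V) φ (env l)) := by
  haveI : In N O := ⟨hO⟩
  haveI : In N w := ⟨hw⟩
  obtain ⟨f, hf, h0, H⟩ := dc_nat N (fun _ x y => x.rank < y.rank ∧
    lc_Step (Wm N O w) φ (Lv O w x.rank) (Lv O w y.rank)) (fun _ _ => True) hγ trivial
    fun n x hx _ => by
      haveI : In N x := ⟨hx⟩
      obtain ⟨δ, h1, h2⟩ := lc_step hO hw hb φ (memV_of N (Lv O w x.rank))
      refine ⟨_, lc_max h1 (lc_succ (IsZ.rank_mem N hx)), trivial, ?_⟩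
      rw [rank_toZFSet]
      exact ⟨(lt_add_one _).trans_le (le_max_right _ _), h2 _ (le_max_left _ _)⟩
  haveI : In N (sqN f) := ⟨hf⟩
  have hm : ∀ y, y ∈ ran (sqN f) ↔ ∃ n, f n = y := fun y => by
    simp only [mem_ran, sqN, pair_mem_lam, enc_V]
    exact ⟨fun ⟨x, _, e⟩ => ⟨_, e.symm⟩,
      fun ⟨n, e⟩ => ⟨natZ n, natZ_mem_omegaZ n, by simpa using e.symm⟩⟩
  have h1 : ∀ n, (f n).rank < (ran (sqN f)).rank := fun n => rank_lt_of_mem ((hm _).2 ⟨n, rfl⟩)
  have h2 : ∀ β < (ran (sqN f)).rank, ∃ n, β ≤ (f n).rank := fun β hβ => by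
    obtain ⟨y, hy, k⟩ := lt_rank_iff.1 hβ
    obtain ⟨n, rfl⟩ := (hm y).1 hy
    exact ⟨n, k⟩
  have h3 : Order.IsSuccLimit (ran (sqN f)).rank := by
    refine ⟨(h1 0).not_isMin, Order.isSuccPrelimit_of_succ_lt fun β hβ => ?_⟩
    obtain ⟨n, k⟩ := h2 β hβ
    exact (Order.succ_le_of_lt (k.trans_lt (H n).2.1)).trans_lt (h1 _)
  have h4 := IsZ.rank_mem N (memV_of N (ran (sqN f)))
  refine ⟨_, h4, by simpa [h0] using (h1 0).le, lc_chain (D := Wm N O w)
    (A := fun n => Lv O w (f n).rank)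
    (fun n => Lv_mono hb (H n).2.1.le) (fun x => ?_) (fun x hx => ⟨_, h4, hx⟩) φ fun n => (H n).2.2⟩
  rw [mem_Lv_limit h3]
  refine ⟨fun ⟨β, hβ, hx⟩ => ?_, fun ⟨n, hx⟩ => ⟨_, h1 n, hx⟩⟩
  obtain ⟨n, k⟩ := h2 β hβ
  exact ⟨n, Lv_mono hb k hx⟩
theorem lc_list [IsZ N] (hb : IsBase w) {l : List V} (h : ∀ x ∈ l, x ∈ Wm N O w) :
    ∃ γ : Ordinal.{0}, γ.toZFSet ∈ N ∧ ∀ x ∈ l, x ∈ Lv O w γ := by
  induction l with
  | nil => exact ⟨ω, IsZ.omega, fun _ h => nomatch h⟩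
  | cons a l ih =>
    obtain ⟨⟨β, h1, h2⟩, h3⟩ := List.forall_mem_cons.1 h
    obtain ⟨γ, h4, h5⟩ := ih h3
    exact ⟨_, lc_max h1 h4, List.forall_mem_cons.2 ⟨Lv_mono hb (le_max_left _ _) h2,
      fun x hx => Lv_mono hb (le_max_right _ _) (h5 x hx)⟩⟩
theorem lc_sep [IsZFC N] (hO : O ∈ N) (hw : w ∈ N) (hb : IsBase w) (φ : Fo) (v : ℕ → V)
    (hv : ∀ i, v i ∈ Wm N O w) (a : V) (ha : a ∈ Wm N O w) :
    ZFSet.sep (fun x => Sat1 (Wm N O w) φ (cons x v)) a ∈ Wm N O w := by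
  obtain ⟨γ, hγ, h1⟩ := lc_list hb (l := a :: (List.range φ.fv).map v)
    (List.forall_mem_cons.2 ⟨ha, fun x hx => by
      obtain ⟨i, -, rfl⟩ := List.mem_map.1 hx
      exact hv i⟩)
  obtain ⟨δ, hδ, h2, H⟩ := lc_refl hO hw hb (.and (.mem 0 1) (φ.ren (cons 0 fun i => i + 2))) hγ
  have h3 := fun x hx => Lv_mono (O := O) hb h2 (h1 x hx)
  refine ⟨δ + 1, lc_succ hδ, ?_⟩
  convert lc_def (.and (.mem 0 1) (φ.ren (cons 0 fun i => i + 2))) h3 using 1
  ext y
  have e : Sat1 (Wm N O w) (.and (.mem 0 1) (φ.ren (cons 0 fun i => i + 2)))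
      (env (y :: a :: (List.range φ.fv).map v)) ↔ y ∈ a ∧ Sat1 (Wm N O w) φ (cons y v) := by
    simp only [Sat1, sat_ren, env_cons, cons_zero, cons_succ]
    refine and_congr_right fun _ => sat_congr _ _ _ _ fun i hi => ?_
    cases i with
    | zero => rfl
    | succ i => exact env_ofFn v φ.fv i (by omega)
  rw [defSet, mem_sep, mem_sep, ← e]
  refine ⟨fun h => ?_, fun h => (H _ (List.forall_mem_cons.2 ⟨h.1, h3⟩)).2 h.2⟩
  have h4 : y ∈ Lv O w δ := Lv_trans hb δ a (h3 a List.mem_cons_self) (e.1 h).1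
  exact ⟨h4, (H _ (List.forall_mem_cons.2 ⟨h4, h3⟩)).1 h⟩
theorem lc_cover [IsZ N] (hO : O ∈ N) (hw : w ∈ N) (hb : IsBase w) {a : V} (ha : a ∈ N) :
    ∃ b ∈ Wm N O w, ∀ x ∈ a, x ∈ Wm N O w → x ∈ b := by
  haveI : In N O := ⟨hO⟩
  haveI : In N w := ⟨hw⟩
  obtain ⟨γ, hγ, h⟩ := subset_Lv_of_subset_Wm hO hw hb (sep_mem N (fun x => x ∈ Wm N O w) ha)
    fun x hx => (mem_sep.1 hx).2
  exact ⟨_, ⟨γ + 1, lc_succ hγ, Lv_mem_succ hb γ⟩, fun x hx k => h (mem_sep.2 ⟨hx, k⟩)⟩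
theorem lc_isZ [IsZFC N] (hO : O ∈ N) (hw : w ∈ N) (hb : IsBase w) : IsZ (Wm N O w) := by
  haveI : In N O := ⟨hO⟩
  haveI : In N w := ⟨hw⟩
  have hs := Wm_subset hO hw
  have ht : ∀ x ∈ Wm N O w, ∀ y ∈ x, y ∈ Wm N O w := fun x ⟨γ, hγ, hx⟩ y hy =>
    ⟨γ, hγ, Lv_trans hb γ x hx hy⟩
  refine ⟨ht, ord_mem_Wm hb IsZ.omega, fun a ha b hb' => ?_, fun a ha => ?_, lc_sep hO hw hb,
    fun φ v hv a ha h => ?_⟩
  · obtain ⟨c, hc, H⟩ := lc_cover hO hw hb (IsZ.upair a (hs ha) b (hs hb'))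
    convert lc_sep hO hw hb (.neg (.and (.neg (.eq 0 1)) (.neg (.eq 0 2)))) (cons a fun _ => b)
      (cons_mem ha fun _ => hb') c hc using 1
    ext x
    simp only [mem_sep, Sat1, cons_zero, cons_succ, mem_pair, ← not_or, not_not]
    refine ⟨fun k => ⟨H x (mem_pair.2 k) ?_, k⟩, fun k => k.2⟩
    rcases k with rfl | rfl <;> assumption
  · obtain ⟨c, hc, H⟩ := lc_cover hO hw hb (IsZ.sUnion a (hs ha))
    convert lc_sep hO hw hb (.ex (.and (.mem 0 2) (.mem 1 0))) (fun _ => a) (fun _ => ha) c hc using 1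
    ext x
    simp only [mem_sep, Sat1, cons_zero, cons_succ, mem_sUnion]
    exact ⟨fun ⟨y, h1, h2⟩ => ⟨H x (mem_sUnion.2 ⟨y, h1, h2⟩) (ht y (ht a ha y h1) x h2), y,
      ht a ha y h1, h1, h2⟩, fun ⟨_, y, _, k⟩ => ⟨y, k⟩⟩
  · haveI : UV (loc N) (fun _ _ => v) := ⟨fun i => UF.const N (v i) (h := ⟨hs (hv i)⟩)⟩
    obtain ⟨b, hb', H⟩ := coll_mem N (fun x y => y ∈ Wm N O w ∧
      Sat1 (Wm N O w) φ (cons y (cons x v))) (hs ha) fun x hx => by
        obtain ⟨y, hy, k⟩ := h x hx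
        exact ⟨y, hs hy, hy, k⟩
    obtain ⟨c, hc, K⟩ := lc_cover hO hw hb hb'
    refine ⟨c, hc, fun x hx => ?_⟩
    obtain ⟨y, h1, h2, h3⟩ := H x hx
    exact ⟨y, K y h1 h2, h3⟩
theorem isZFC_Wm [IsZFC N] (hO : O ∈ N) (hw : w ∈ N) (hb : IsBase w) : IsZFC (Wm N O w) := by
  haveI := lc_isZ hO hw hb
  have hs := Wm_subset hO hw
  refine { wo := fun a ha => ?_, pow := fun a ha => ?_ }
  · obtain ⟨γ, hγ, h1⟩ := id ha
    haveI : In N γ := ⟨hγ⟩
    haveI : In (Wm N O w) a := ⟨ha⟩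
    haveI : In (Wm N O w) (Od O w γ) := ⟨γ + ω, mem_of N (γ + ω), Od_mem hb γ⟩
    refine ⟨_, memV_of _ (lam a fun x => (wpos (Od O w γ) x).toZFSet),
      (img (fun x => (wpos (Od O w γ) x).toZFSet) a).rank, isInj_lam (fun x hx => ?_)
      fun x hx y hy e => (isWO_Od hb γ).wpos_inj (Lv_trans hb γ a h1 hx) (Lv_trans hb γ a h1 hy)
        (toZFSet_injective e)⟩
    rw [toZFSet_mem_toZFSet_iff, ← rank_toZFSet (wpos _ x)]
    exact rank_lt_of_mem (mem_img.2 ⟨x, hx, rfl⟩)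
  · obtain ⟨p, hp, H⟩ := IsZFC.pow a (hs ha)
    obtain ⟨c, hc, K⟩ := lc_cover hO hw hb hp
    exact ⟨c, hc, fun x hx k => K x (H x (hs hx) k) hx⟩
end W
-- JOB C END

end Pool.Agent.Lib.MP_f9eb18_lc.W
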