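import Pool.Agent.Lib.MP_f9eb18_lc.W.Good
import Pool.Agent.Lib.MP_f9eb18_lc.W.C2

/-! # Assembly -/

namespace Pool.Agent.Lib.MP_f9eb18_lc.W

open Ordinal ZFSet Classical
set_option linter.style.haveILetI false
set_option linter.unusedVariables false
set_option synthInstance.maxSize 100000

theorem ws_of_nWoodins {U : Set V} [IsZFC U] {n : ℕ} (h : NWoodins U n) : ∃ δ, WS U n δ := by
  obtain ⟨d, hd, hw⟩ := h
  refine ⟨fun j => if h : j - 1 < n then d ⟨j - 1, h⟩ else 0, fun j hj => ?_, fun j hj => ?_⟩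
  · have : j + 1 - 1 < n := hj
    simp only [dif_pos this]
    exact (woodE_iff_woodin U).2 (hw _)
  · have h1 : j + 1 - 1 < n := by omega
    have h2 : j + 2 - 1 < n := hj
    simp only [dif_pos h1, dif_pos h2]
    exact hd (by simp [Fin.lt_def])

theorem nWoodins_of_ws {U : Set V} [IsZFC U] {n : ℕ} {δ : ℕ → Ordinal.{0}} (h : WS U n δ) :
    NWoodins U n := by
  refine ⟨fun i => δ (i + 1), ?_, fun i => (woodE_iff_woodin U).1 (h.1 i i.2)⟩
  cases n with
  | zero => exact fun i => i.elim0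
  | succ n => exact Fin.strictMono_iff_lt_succ.2 fun i => h.2 i (by have := i.2; omega)

theorem exists_ctm_ws {U : Set V} [IsZFC U] {n : ℕ} {δ : ℕ → Ordinal.{0}} (h : WS U n δ) :
    ∃ (N : Set V) (δ' : ℕ → Ordinal.{0}), IsZFC N ∧ N.Countable ∧ WS N n δ' := by
  obtain ⟨N, j, hc, ht, he, hp⟩ := exists_ctm U
    (fun i => if i < n then (δ (i + 1)).toZFSet else ∅) fun i => by
      by_cases hi : i < n
      · simp only [if_pos hi]; exact (h.1 i hi).2.1
      · simp only [if_neg hi]; exact IsZ.empty_mem U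
  choose y hy hj using hp
  haveI : IsZFC (N : Set V) := he.isZFC_left (fun x hx z hz => ht x hx hz) ⟨_, hy 0⟩
  have hm : ∀ i, (y i).rank.toZFSet ∈ (N : Set V) := fun i => IsZ.rank_mem _ (hy i)
  have hr : ∀ i < n, jm j (y i).rank = δ (i + 1) := fun i hi => by
    rw [← he.rank_map (hy i), hj i, if_pos hi, rank_toZFSet]
  refine ⟨N, fun i => (y (i - 1)).rank, inferInstance, hc, fun i hi => ?_, fun i hi => ?_⟩
  · refine (he.iff1 pP (fun M (o : Ordinal.{0}) => WoodE M o) (hm i)).2 ?_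
    rw [hr i hi]; exact h.1 i hi
  · refine (he.jm_lt (hm i) (hm (i + 1))).1 ?_
    rw [hr i (by omega), hr (i + 1) hi]; exact h.2 i hi

theorem main_of (rt : RTStmt) (cd : Coding) (n : ℕ) (hn : 1 ≤ n) (U : Set V) (hU : IsZFC U)
    (hW : NWoodins U n) : ∃ N : Set V, N.Countable ∧ IsZFC N ∧ NWoodins N n ∧ ¬ CHinC2N N := by
  obtain ⟨δ₀, h₀⟩ := ws_of_nWoodins hW
  obtain ⟨N₀, δ₁, i₀, hc₀, h₁⟩ := exists_ctm_ws h₀
  obtain ⟨M, δ, iM, hc, hw, hmin⟩ := exists_minl N₀ hc₀ h₁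
  obtain ⟨l, μ, hlt, hμ, hl, hi, hme⟩ := (hw.1 0 hn).exists_meas
  let δ' : ℕ → Ordinal.{0} := fun j => Nat.casesOn j μ (fun k => δ (k + 1))
  have hm : MinM M n δ' := by
    refine ⟨hc, hi, fun j hj => ?_, hw.1, hmin⟩
    cases j with
    | zero => exact hμ
    | succ j => exact hw.2 j hj
  obtain ⟨N, he, hh⟩ := cd M hc l μ hlt hl hi hme (hm.defSeq rt)
  haveI := he.zfc
  refine ⟨N, he.ctbl, he.zfc, nWoodins_of_ws (δ := δ) ⟨fun j hj => he.wood _ ?_ (hw.1 j hj), hw.2⟩,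
    c2Thm N hh⟩
  induction j with
  | zero => exact hμ
  | succ j ih => exact (ih (by omega)).trans (hw.2 j hj)

end Pool.Agent.Lib.MP_f9eb18_lc.W
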