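import Pool.Agent.Lib.MP_f9eb18_lc.W.E

/-! # Coarse premice, options, types, agreement, resolution -/

namespace Pool.Agent.Lib.MP_f9eb18_lc.W

open Ordinal ZFSet Classical
set_option linter.style.haveILetI false
set_option linter.unusedVariables false
set_option synthInstance.maxSize 100000

variable {F : Fr}

structure PM where
  M : V
  w : V
  mu : Ordinal.{0}
  S : V
  th : Ordinal.{0}

noncomputable instance : Enc PM :=
  ⟨fun P => enc (P.M, P.w, P.mu, P.S, P.th),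
    fun x => let t : V × V × Ordinal.{0} × V × Ordinal.{0} := dec x
      ⟨t.1, t.2.1, t.2.2.1, t.2.2.2.1, t.2.2.2.2⟩, fun P => by simp⟩
theorem enc_PM (P : PM) : enc P = enc (P.M, P.w, P.mu, P.S, P.th) := rfl
/-- the universe of extenders of the premouse -/
noncomputable def PM.A (P : PM) : V := fld P.w
section pm
variable {p : Set V → (ℕ → V) → PM}
theorem uf_pmT [h : UF F p] :
    UF F (fun M v => ((p M v).M, (p M v).w, (p M v).mu, (p M v).S, (p M v).th)) := ⟨h.cl, h.gr⟩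
instance uf_pmM [UF F p] : UF F (fun M v => (p M v).M) := @UF.p1 F _ _ _ _ _ uf_pmT
instance uf_pmw [UF F p] : UF F (fun M v => (p M v).w) :=
  @UF.p1 F _ _ _ _ _ (@UF.p2 F _ _ _ _ _ uf_pmT)
instance uf_pmmu [UF F p] : UF F (fun M v => (p M v).mu) :=
  @UF.p1 F _ _ _ _ _ (@UF.p2 F _ _ _ _ _ (@UF.p2 F _ _ _ _ _ uf_pmT))
instance uf_pmS [UF F p] : UF F (fun M v => (p M v).S) :=
  @UF.p1 F _ _ _ _ _ (@UF.p2 F _ _ _ _ _ (@UF.p2 F _ _ _ _ _ (@UF.p2 F _ _ _ _ _ uf_pmT)))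
instance uf_pmth [UF F p] : UF F (fun M v => (p M v).th) :=
  @UF.p2 F _ _ _ _ _ (@UF.p2 F _ _ _ _ _ (@UF.p2 F _ _ _ _ _ (@UF.p2 F _ _ _ _ _ uf_pmT)))
instance uf_pmA [UF F p] : UF F (fun M v => (p M v).A) := by unfold PM.A; infer_instance
instance uf_pmMk {a b d : Set V → (ℕ → V) → V} {c e : Set V → (ℕ → V) → Ordinal.{0}} [UF F a]
    [UF F b] [UF F c] [UF F d] [UF F e] :
    UF F (fun M v => PM.mk (a M v) (b M v) (c M v) (d M v) (e M v)) :=
  have h : UF F (fun M v => (a M v, b M v, c M v, d M v, e M v)) := inferInstance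
  ⟨h.cl, h.gr⟩
end pm
noncomputable instance : Cd PM := ⟨fun F => (inferInstance : UF F (fun _ v => PM.mk
  (dec (vr v 0) : V × V × Ordinal.{0} × V × Ordinal.{0}).1
  (dec (vr v 0) : V × V × Ordinal.{0} × V × Ordinal.{0}).2.1
  (dec (vr v 0) : V × V × Ordinal.{0} × V × Ordinal.{0}).2.2.1
  (dec (vr v 0) : V × V × Ordinal.{0} × V × Ordinal.{0}).2.2.2.1
  (dec (vr v 0) : V × V × Ordinal.{0} × V × Ordinal.{0}).2.2.2.2))⟩

/-- admissible indices -/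
def IsI (a : Ordinal.{0}) : Prop := ω * ω < a ∧ ∀ x < a, ∀ y < a, x + y < a
noncomputable def op (k a : Ordinal.{0}) : V := pair k.toZFSet a.toZFSet
def Shape (A : V) (μ : Ordinal.{0}) (S : V) : Prop :=
  S ⊆ A ∧ (∀ p ∈ S, p = op (fst p).rank (snd p).rank ∧ μ < (fst p).rank ∧
    (fst p).rank < (snd p).rank ∧ IsI (snd p).rank) ∧
  ∀ p ∈ S, ∀ a < (snd p).rank, (fst p).rank < a → IsI a → op (fst p).rank a ∈ S
def CritGt (S : V) (β : Ordinal.{0}) : Prop := ∀ p ∈ S, β < (fst p).rank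

structure IsPM (P : PM) : Prop where
  isT : IsT (P.M : Set V)
  w_mem : P.w ∈ P.M
  wo : IsWO P.w P.A
  A_eq : P.A = cut P.M P.A.rank
  mu_mem : P.mu.toZFSet ∈ P.M
  mu_ge : ω * ω ≤ P.mu
  mu_lim : Order.IsSuccLimit P.mu
  S_mem : P.S ∈ P.M
  shape : Shape P.A P.mu P.S
  th_mem : P.th.toZFSet ∈ P.M

structure ElemPM (σ : V) (P Q : PM) : Prop where
  elem : IsElem σ P.M Q.M
  w : app σ P.w = Q.w
  mu : jm (app σ) P.mu = Q.mu
  S : app σ P.S = Q.S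
  th : jm (app σ) P.th = Q.th

/-- agreement of two premice below `ρ` -/
structure AgrP (P Q : PM) (ρ : Ordinal.{0}) : Prop where
  M : cut P.M ρ = cut Q.M ρ
  A : cut P.A ρ = cut Q.A ρ
  w : cut P.w ρ = cut Q.w ρ
  S : cut P.S ρ = cut Q.S ρ
  mu : P.mu = Q.mu

/-- `E` coheres with `B` -/
def Strong (E B : V) : Prop := pair (cut B (crit E)) (cut B (len E)) ∈ E

def IsOpt (w : V) (μ : Ordinal.{0}) (S : V) (a : Ordinal.{0}) (E : V) : Prop :=
  E ∈ fld w ∧ IsExt E ∧ len E = a + μ ∧ extZ E = cut (fld w) (a + μ) ∧ op (crit E) a ∈ S ∧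
    Strong E w ∧ Strong E S ∧ NiceU E
noncomputable def OptAt (w : V) (μ : Ordinal.{0}) (S : V) (a : Ordinal.{0}) : V :=
  ZFSet.sep (IsOpt w μ S a) (fld w)
noncomputable def Opt (w : V) (μ : Ordinal.{0}) (S : V) : V :=
  rel (ran S) (fld w) (fun x E => IsOpt w μ S x.rank E)
noncomputable def PM.optAt (P : PM) (a : Ordinal.{0}) : V := OptAt P.w P.mu P.S a
noncomputable def PM.opt (P : PM) : V := Opt P.w P.mu P.S
/-- section of a set of indexed extenders -/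
noncomputable def sec (O : V) (a : Ordinal.{0}) : V :=
  ZFSet.sep (fun E => pair a.toZFSet E ∈ O) (ran O)
/-- a set of extenders with index `a` -/
def OptSec (O : V) (a : Ordinal.{0}) : Prop :=
  ∀ E ∈ O, IsExt E ∧ NiceU E ∧ crit E < a ∧ Order.IsSuccLimit a
def OptLike (O : V) : Prop := ∀ x E, pair x E ∈ O → OptSec (sec O x.rank) x.rank

noncomputable def typ (Y : V) (a : Ordinal.{0}) (E : V) : V :=
  ZFSet.sep (fun p => p = pair (fst p) (snd p) ∧ (fst p).rank < a ∧ fst p ∈ app E (snd p)) Y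
noncomputable def Pred (O E : V) : V := O ∩ UE E
noncomputable def PredP (O e : V) : V := if e = ∅ then O else Pred O e
def IsMin (O C : V) (a : Ordinal.{0}) (E : V) : Prop :=
  E ∈ O ∧ typ C a E ∉ img (typ C a) (Pred O E)
noncomputable def label (O C : V) (a : Ordinal.{0}) (E : V) : V :=
  pair (typ C a E) (img (typ C a) (Pred O E))
noncomputable def Labels (O C : V) (a : Ordinal.{0}) : V :=
  img (label O C a) (ZFSet.sep (IsMin O C a) O)
def Agree (O O' C : V) (a : Ordinal.{0}) : Prop :=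
  Labels O C a = Labels O' C a ∧
    ∀ l ∈ Labels O C a, ∀ l' ∈ Labels O C a, l ≠ l' → fst l ∈ snd l' ∨ fst l' ∈ snd l
def JInv (O O' C : V) (a : Ordinal.{0}) (e f : V) : Prop :=
  (e = ∅ ∨ IsMin O C a e) ∧ (f = ∅ ∨ IsMin O' C a f) ∧
  (e ≠ ∅ → typ C a e ∉ img (typ C a) (PredP O' f)) ∧
  (f ≠ ∅ → typ C a f ∉ img (typ C a) (PredP O e)) ∧
  (e ≠ ∅ → f ≠ ∅ → typ C a e ≠ typ C a f)

/-- the ultrapower of a premouse -/
noncomputable def ultP (P : PM) (E : V) : PM :=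
  ⟨ult P.M E, app (ultMap P.M E) P.w, jm (app (ultMap P.M E)) P.mu, app (ultMap P.M E) P.S,
    jm (app (ultMap P.M E)) P.th⟩
/-- image of a premouse structure under a map `π : G → H`, and the pull-back -/
noncomputable def PM.withS (P : PM) (S : V) (θ : Ordinal.{0}) : PM := ⟨P.M, P.w, P.mu, S, θ⟩

-- JOB A BEGIN
section inst
variable {a b c d e f : Set V → (ℕ → V) → V} {o q : Set V → (ℕ → V) → Ordinal.{0}}
  {p p' : Set V → (ℕ → V) → PM}
instance uf_jm {α} [Cd α] {x : Set V → (ℕ → V) → α} [UF F a] [UF F x] :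
    UF F (fun M v => jm (app (a M v)) (x M v)) := by unfold jm; infer_instance
instance ud_isI [UF F o] : UD F (fun M v => IsI (o M v)) := by
  have := UF.lift (F := F) o; unfold IsI; infer_instance
instance uf_op [UF F o] [UF F q] : UF F (fun M v => op (o M v) (q M v)) := by
  unfold op; infer_instance
instance ud_shape [UF F a] [UF F o] [UF F b] : UD F (fun M v => Shape (a M v) (o M v) (b M v)) := by
  have := UF.lift (F := F) o; have := UF.lift (F := F) b; unfold Shape; infer_instance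
instance ud_critGt [UF F a] [UF F o] : UD F (fun M v => CritGt (a M v) (o M v)) := by
  have := UF.lift (F := F) o; unfold CritGt; infer_instance
theorem pa_isPM_iff (P : PM) : IsPM P ↔ IsT (P.M : Set V) ∧ P.w ∈ P.M ∧ IsWO P.w P.A ∧
    P.A = cut P.M P.A.rank ∧ P.mu.toZFSet ∈ P.M ∧ ω * ω ≤ P.mu ∧ Order.IsSuccLimit P.mu ∧
    P.S ∈ P.M ∧ Shape P.A P.mu P.S ∧ P.th.toZFSet ∈ P.M :=
  ⟨fun ⟨h1, h2, h3, h4, h5, h6, h7, h8, h9, h10⟩ => ⟨h1, h2, h3, h4, h5, h6, h7, h8, h9, h10⟩,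
    fun ⟨h1, h2, h3, h4, h5, h6, h7, h8, h9, h10⟩ => ⟨h1, h2, h3, h4, h5, h6, h7, h8, h9, h10⟩⟩
instance ud_isPM [UF F p] : UD F (fun M v => IsPM (p M v)) :=
  UD.congr inferInstance fun M _ v _ => pa_isPM_iff (p M v)
theorem pa_elemPM_iff (σ : V) (P Q : PM) : ElemPM σ P Q ↔ IsElem σ P.M Q.M ∧ app σ P.w = Q.w ∧
    jm (app σ) P.mu = Q.mu ∧ app σ P.S = Q.S ∧ jm (app σ) P.th = Q.th :=
  ⟨fun ⟨h1, h2, h3, h4, h5⟩ => ⟨h1, h2, h3, h4, h5⟩, fun ⟨h1, h2, h3, h4, h5⟩ => ⟨h1, h2, h3, h4, h5⟩⟩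
instance ud_elemPM [UF F a] [UF F p] [UF F p'] :
    UD F (fun M v => ElemPM (a M v) (p M v) (p' M v)) :=
  UD.congr inferInstance fun M _ v _ => pa_elemPM_iff (a M v) (p M v) (p' M v)
theorem pa_agrP_iff (P Q : PM) (ρ : Ordinal.{0}) : AgrP P Q ρ ↔ cut P.M ρ = cut Q.M ρ ∧
    cut P.A ρ = cut Q.A ρ ∧ cut P.w ρ = cut Q.w ρ ∧ cut P.S ρ = cut Q.S ρ ∧ P.mu = Q.mu :=
  ⟨fun ⟨h1, h2, h3, h4, h5⟩ => ⟨h1, h2, h3, h4, h5⟩, fun ⟨h1, h2, h3, h4, h5⟩ => ⟨h1, h2, h3, h4, h5⟩⟩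
instance ud_agrP [UF F p] [UF F p'] [UF F o] : UD F (fun M v => AgrP (p M v) (p' M v) (o M v)) :=
  UD.congr inferInstance fun M _ v _ => pa_agrP_iff (p M v) (p' M v) (o M v)
instance ud_strong [UF F a] [UF F b] : UD F (fun M v => Strong (a M v) (b M v)) := by
  unfold Strong; infer_instance
instance ud_isOpt [UF F a] [UF F o] [UF F b] [UF F q] [UF F c] :
    UD F (fun M v => IsOpt (a M v) (o M v) (b M v) (q M v) (c M v)) := by
  unfold IsOpt; infer_instance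
instance uf_optAt [UF F a] [UF F o] [UF F b] [UF F q] :
    UF F (fun M v => OptAt (a M v) (o M v) (b M v) (q M v)) := by
  have := UF.lift (F := F) a; have := UF.lift (F := F) o; have := UF.lift (F := F) b
  have := UF.lift (F := F) q; unfold OptAt; infer_instance
instance uf_opt [UF F a] [UF F o] [UF F b] : UF F (fun M v => Opt (a M v) (o M v) (b M v)) := by
  have := UF.lift (F := F) a; have := UF.lift (F := F) o; have := UF.lift (F := F) b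
  unfold Opt; infer_instance
instance uf_pmOptAt [UF F p] [UF F q] : UF F (fun M v => (p M v).optAt (q M v)) := by
  unfold PM.optAt; infer_instance
instance uf_pmOpt [UF F p] : UF F (fun M v => (p M v).opt) := by unfold PM.opt; infer_instance
instance uf_sec [UF F a] [UF F o] : UF F (fun M v => sec (a M v) (o M v)) := by
  have := UF.lift (F := F) a; have := UF.lift (F := F) o; unfold sec; infer_instance
instance ud_optSec [UF F a] [UF F o] : UD F (fun M v => OptSec (a M v) (o M v)) := by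
  have := UF.lift (F := F) o; unfold OptSec; infer_instance
instance ud_optLike [UF F a] : UD F (fun M v => OptLike (a M v)) := by
  have := UF.lift (F := F) a; unfold OptLike; infer_instance
instance uf_typ [UF F a] [UF F o] [UF F b] : UF F (fun M v => typ (a M v) (o M v) (b M v)) := by
  have := UF.lift (F := F) o; have := UF.lift (F := F) b; unfold typ; infer_instance
instance uf_pred [UF F a] [UF F b] : UF F (fun M v => Pred (a M v) (b M v)) := by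
  unfold Pred; infer_instance
instance uf_predP [UF F a] [UF F b] : UF F (fun M v => PredP (a M v) (b M v)) := by
  unfold PredP; infer_instance
instance ud_isMin [UF F a] [UF F b] [UF F o] [UF F c] :
    UD F (fun M v => IsMin (a M v) (b M v) (o M v) (c M v)) := by
  have := UF.lift (F := F) b; have := UF.lift (F := F) o; unfold IsMin; infer_instance
instance uf_label [UF F a] [UF F b] [UF F o] [UF F c] :
    UF F (fun M v => label (a M v) (b M v) (o M v) (c M v)) := by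
  have := UF.lift (F := F) b; have := UF.lift (F := F) o; unfold label; infer_instance
instance uf_labels [UF F a] [UF F b] [UF F o] :
    UF F (fun M v => Labels (a M v) (b M v) (o M v)) := by
  have := UF.lift (F := F) a; have := UF.lift (F := F) b; have := UF.lift (F := F) o
  unfold Labels; infer_instance
instance ud_agree [UF F a] [UF F b] [UF F c] [UF F o] :
    UD F (fun M v => Agree (a M v) (b M v) (c M v) (o M v)) := by
  have := UF.lift (F := F) a; have := UF.lift (F := F) c; have := UF.lift (F := F) o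
  unfold Agree; infer_instance
instance ud_jInv [UF F a] [UF F b] [UF F c] [UF F o] [UF F e] [UF F f] :
    UD F (fun M v => JInv (a M v) (b M v) (c M v) (o M v) (e M v) (f M v)) := by
  have := UF.lift (F := F) c; have := UF.lift (F := F) o; unfold JInv; infer_instance
instance uf_ultP [UF F p] [UF F a] : UF F (fun M v => ultP (p M v) (a M v)) := by
  unfold ultP; infer_instance
instance uf_withS [UF F p] [UF F a] [UF F o] :
    UF F (fun M v => (p M v).withS (a M v) (o M v)) := by unfold PM.withS; infer_instance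
end inst

theorem enc_PM_mem (N : Set V) [IsZ N] {P : PM} : enc P ∈ N ↔
    P.M ∈ N ∧ P.w ∈ N ∧ P.mu.toZFSet ∈ N ∧ P.S ∈ N ∧ P.th.toZFSet ∈ N := by
  rw [enc_PM, enc_prod, enc_prod, enc_prod, enc_prod, IsZ.pair_mem_iff, IsZ.pair_mem_iff,
    IsZ.pair_mem_iff, IsZ.pair_mem_iff]
  exact Iff.rfl
theorem IsPM.enc_mem {N : Set V} [IsZ N] {P : PM} (h : IsPM P) (hM : P.M ∈ N) : enc P ∈ N :=
  (enc_PM_mem N).2 ⟨hM, IsZ.trans _ hM _ h.w_mem, IsZ.trans _ hM _ h.mu_mem,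
    IsZ.trans _ hM _ h.S_mem, IsZ.trans _ hM _ h.th_mem⟩
theorem Elem.jm_PM {j : V → V} {M M' : Set V} [IsZ M] [IsZ M'] (h : Elem j M M') {P : PM}
    (hP : enc P ∈ M) : jm j P = ⟨j P.M, j P.w, jm j P.mu, j P.S, jm j P.th⟩ := by
  have h1 : j P.M = (jm j P).M := h.map1 pZ (fun _ (P : PM) => P.M) hP
  have h2 : j P.w = (jm j P).w := h.map1 pZ (fun _ (P : PM) => P.w) hP
  have h3 : jm j P.mu = (jm j P).mu := h.map1 pZ (fun _ (P : PM) => P.mu) hP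
  have h4 : j P.S = (jm j P).S := h.map1 pZ (fun _ (P : PM) => P.S) hP
  have h5 : jm j P.th = (jm j P).th := h.map1 pZ (fun _ (P : PM) => P.th) hP
  rw [h1, h2, h3, h4, h5]
theorem IsI.limit {a : Ordinal.{0}} (h : IsI a) : Order.IsSuccLimit a := by
  have h0 : (1 : Ordinal.{0}) < a :=
    (one_lt_omega0.trans_le (le_mul_left ω omega0_pos)).trans h.1
  refine ⟨not_isMin_of_lt h0, Order.isSuccPrelimit_of_succ_lt fun b hb => ?_⟩
  rw [Order.succ_eq_add_one]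
  exact h.2 b hb 1 h0
theorem Inac.isI {N : Set V} [IsZ N] {a : Ordinal.{0}} (h : Inac N a) : IsI a :=
  ⟨(h.add_lt h.1 h.1).2, fun x hx y hy => (h.add_lt hx hy).1⟩
@[simp] theorem fst_op (k a : Ordinal.{0}) : (fst (op k a)).rank = k := by simp [op]
@[simp] theorem snd_op (k a : Ordinal.{0}) : (snd (op k a)).rank = a := by simp [op]
theorem CritGt.mono {S : V} {β β' : Ordinal.{0}} (h : CritGt S β) (hle : β' ≤ β) : CritGt S β' :=
  fun p hp => hle.trans_lt (h p hp)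
theorem Shape.critGt {A S : V} {μ : Ordinal.{0}} (h : Shape A μ S) : CritGt S μ :=
  fun p hp => (h.2.1 p hp).2.1
theorem shape_empty (A : V) (μ : Ordinal.{0}) : Shape A μ ∅ :=
  ⟨empty_subset _, fun p hp => absurd hp (notMem_empty p), fun p hp => absurd hp (notMem_empty p)⟩
theorem Shape.cut {A S : V} {μ η : Ordinal.{0}} (h : Shape A μ S) (hη : Order.IsSuccLimit η) :
    Shape A μ (cut S η) := by
  refine ⟨fun p hp => h.1 (mem_cut.1 hp).1, fun p hp => h.2.1 p (mem_cut.1 hp).1,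
    fun p hp a h1 h2 h3 => ?_⟩
  obtain ⟨hS, hr⟩ := mem_cut.1 hp
  refine mem_cut.2 ⟨h.2.2 p hS a h1 h2 h3, (rank_pair_lt hη).2 ⟨?_, ?_⟩⟩
  · rw [rank_toZFSet]
    exact (rank_fst_le p).trans_lt hr
  · rw [rank_toZFSet]
    exact h1.trans ((rank_snd_le p).trans_lt hr)
theorem IsPM.A_trans {P : PM} (h : IsPM P) : P.A.IsTransitive := by
  intro x hx y hy
  rw [h.A_eq] at hx ⊢
  obtain ⟨h1, h2⟩ := mem_cut.1 hx
  exact mem_cut.2 ⟨h.isT.trans x h1 y hy, (rank_lt_of_mem hy).trans h2⟩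
theorem IsPM.A_mem {P : PM} (h : IsPM P) : P.A ∈ P.M := by
  haveI := h.isT
  haveI : In (P.M : Set V) P.w := ⟨h.w_mem⟩
  exact memV_of (P.M : Set V) (fld P.w)
theorem IsPM.withS {P : PM} (h : IsPM P) {S : V} {θ : Ordinal.{0}} (hS : S ∈ P.M)
    (hs : Shape P.A P.mu S) (hθ : θ.toZFSet ∈ P.M) : IsPM (P.withS S θ) :=
  ⟨h.isT, h.w_mem, h.wo, h.A_eq, h.mu_mem, h.mu_ge, h.mu_lim, hS, hs, hθ⟩
theorem ElemPM.A {σ : V} {P Q : PM} (hP : IsPM P) (hQ : IsPM Q) (h : ElemPM σ P Q) :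
    app σ P.A = Q.A := by
  haveI := hP.isT
  haveI := hQ.isT
  have h1 : app σ (fld P.w) = fld (app σ P.w) :=
    h.elem.elem.map1 pZ (fun _ (x : V) => fld x) (a := P.w) hP.w_mem
  rw [PM.A, h1, h.w, PM.A]
theorem ElemPM.withS {σ : V} {P Q : PM} (h : ElemPM σ P Q) (S : V) (θ : Ordinal.{0}) :
    ElemPM σ (P.withS S θ) (Q.withS (app σ S) (jm (app σ) θ)) :=
  ⟨h.elem, h.w, h.mu, rfl, rfl⟩
theorem ElemPM.comp {σ τ : V} {P Q R : PM} (hP : IsPM P) (hQ : IsPM Q) (h : ElemPM σ P Q)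
    (h' : ElemPM τ Q R) : ElemPM (comp τ σ) P R ∧ ∀ x ∈ P.M, app (comp τ σ) x = app τ (app σ x) := by
  haveI := hP.isT
  haveI := hQ.isT
  have hd : dom σ = P.M := (isFunc_iff.1 h.elem.1).2.1
  have e : W.comp τ σ = lam P.M fun x => app τ (app σ x) := by rw [W.comp, hd]
  have ha : ∀ x ∈ P.M, app (W.comp τ σ) x = app τ (app σ x) := fun x hx => by
    rw [e, app_lam _ hx]
  have ho : ∀ o : Ordinal.{0}, o.toZFSet ∈ P.M →
      jm (app (W.comp τ σ)) o = jm (app τ) (jm (app σ) o) := fun o ho => by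
    rw [h.elem.elem.jm_comp (a := o) ho]
    exact jm_congr (ha _ ho)
  refine ⟨⟨?_, ?_, ?_, ?_, ?_⟩, ha⟩
  · rw [e]
    exact (h.elem.elem.comp h'.elem.elem).isElem
  · rw [ha _ hP.w_mem, h.w, h'.w]
  · rw [ho _ hP.mu_mem, h.mu, h'.mu]
  · rw [ha _ hP.S_mem, h.S, h'.S]
  · rw [ho _ hP.th_mem, h.th, h'.th]
theorem elemPM_id {P : PM} (h : IsPM P) : ElemPM (idR P.M) P P ∧ ∀ x ∈ P.M, app (idR P.M) x = x := by
  have e : idR P.M = lam P.M fun x => x := by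
    ext p
    rw [idR, mem_rel, mem_lam]
    exact ⟨fun ⟨x, hx, y, _, e, e'⟩ => ⟨x, hx, by rw [e, e']⟩,
      fun ⟨x, hx, e⟩ => ⟨x, hx, x, hx, e.symm, rfl⟩⟩
  have ha : ∀ x ∈ P.M, app (idR P.M) x = x := fun x hx => by rw [e, app_lam _ hx]
  refine ⟨⟨?_, ha _ h.w_mem, jm_of_fix (ha _ h.mu_mem), ha _ h.S_mem,
    jm_of_fix (ha _ h.th_mem)⟩, ha⟩
  rw [e]
  exact (Elem.id _).isElem
/-- the part of the premouse condition that is internal to the model -/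
def pa_In (N : Set V) (w : V) (μ : Ordinal.{0}) (S : V) : Prop :=
  IsWO w (fld w) ∧ fld w = Vs N (fld w).rank ∧ ω * ω ≤ μ ∧ Order.IsSuccLimit μ ∧ Shape (fld w) μ S
theorem pa_in_iff {j : V → V} {M M' : Set V} [IsZ M] [IsZ M'] (h : Elem j M M') {w S : V}
    {μ : Ordinal.{0}} (hw : w ∈ M) (hμ : μ.toZFSet ∈ M) (hS : S ∈ M) :
    pa_In M w μ S ↔ pa_In M' (j w) (jm j μ) (j S) :=
  haveI : UD pZ (fun M v => pa_In M (dec (vr v 0)) (dec (vr v 1)) (dec (vr v 2))) := by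
    unfold pa_In; infer_instance
  h.iff3 pZ (fun M (w : V) (μ : Ordinal.{0}) (S : V) => pa_In M w μ S) hw hμ hS
theorem pa_in_of {P : PM} (h : IsPM P) : pa_In (P.M : Set V) P.w P.mu P.S :=
  ⟨h.wo, by rw [Vs_coe]; exact h.A_eq, h.mu_ge, h.mu_lim, h.shape⟩
theorem pa_of_in {P : PM} (hT : IsT (P.M : Set V)) (hw : P.w ∈ P.M) (hμ : P.mu.toZFSet ∈ P.M)
    (hS : P.S ∈ P.M) (hθ : P.th.toZFSet ∈ P.M) (h : pa_In (P.M : Set V) P.w P.mu P.S) : IsPM P :=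
  ⟨hT, hw, h.1, by have := h.2.1; rwa [Vs_coe] at this, hμ, h.2.2.1, h.2.2.2.1, hS, h.2.2.2.2, hθ⟩
/-- the target of an elementary map from a premouse is a premouse -/
theorem ElemPM.isPM_right {σ : V} {P Q : PM} (hP : IsPM P) (h : ElemPM σ P Q)
    (ht : Q.M.IsTransitive) : IsPM Q := by
  haveI := hP.isT
  have he := h.elem.elem
  haveI : IsT (Q.M : Set V) := he.isT_right fun x hx y hy => ht x hx hy
  refine pa_of_in inferInstance (h.w ▸ he.1 _ hP.w_mem) (h.mu ▸ he.enc_jm_mem (a := P.mu) hP.mu_mem)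
    (h.S ▸ he.1 _ hP.S_mem) (h.th ▸ he.enc_jm_mem (a := P.th) hP.th_mem) ?_
  rw [← h.w, ← h.mu, ← h.S]
  exact (pa_in_iff he hP.w_mem hP.mu_mem hP.S_mem).1 (pa_in_of hP)
/-- pull-back of a premouse structure along `π : G → P.M` -/
theorem exists_pullback {π G : V} {P : PM} (hP : IsPM P) (hG : G.IsTransitive) (h : IsElem π G P.M)
    (hw : ∃ y ∈ G, app π y = P.w) (hμ : ∃ y ∈ G, app π y = P.mu.toZFSet)
    (hS : ∃ y ∈ G, app π y = P.S) (hθ : ∃ y ∈ G, app π y = P.th.toZFSet) :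
    ∃ Q : PM, Q.M = G ∧ IsPM Q ∧ ElemPM π Q P := by
  obtain ⟨w, hw, ew⟩ := hw
  obtain ⟨m, hm, em⟩ := hμ
  obtain ⟨S, hS, eS⟩ := hS
  obtain ⟨t, ht, et⟩ := hθ
  haveI := hP.isT
  have he := h.elem
  haveI : IsT (G : Set V) := he.isT_left (fun x hx y hy => hG x hx hy) ⟨w, hw⟩
  have e1 : jm (app π) m.rank = P.mu := by rw [← he.rank_map hm, em, rank_toZFSet]
  have e2 : jm (app π) t.rank = P.th := by rw [← he.rank_map ht, et, rank_toZFSet]
  have hm' : m.rank.toZFSet ∈ (G : Set V) := IsZ.rank_mem _ hm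
  refine ⟨⟨G, w, m.rank, S, t.rank⟩, rfl, pa_of_in ‹_› hw hm' hS (IsZ.rank_mem (G : Set V) ht) ?_,
    h, ew, e1, eS, e2⟩
  refine (pa_in_iff he hw hm' hS).2 ?_
  rw [ew, e1, eS]
  exact pa_in_of hP
/-- the restriction of `π : G → H` to a premouse `P ∈ G` -/
theorem elemPM_restr {π G H : V} [IsZ (G : Set V)] [IsZ (H : Set V)] (h : IsElem π G H) {P : PM}
    (hP : IsPM P) (hm : enc P ∈ G) :
    IsPM (jm (app π) P) ∧ ElemPM (restr π P.M) P (jm (app π) P) ∧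
      ∀ x ∈ P.M, app (restr π P.M) x = app π x := by
  have he := h.elem
  have hM : P.M ∈ (G : Set V) := ((enc_PM_mem (G : Set V)).1 hm).1
  have hsub : ∀ x ∈ P.M, x ∈ (G : Set V) := IsZ.trans _ hM
  obtain ⟨hf, hd, -⟩ := isFunc_iff.1 h.1
  have e : restr π P.M = lam P.M (app π) := by
    ext p
    rw [restr, mem_sep, mem_lam]
    constructor
    · rintro ⟨h1, h2⟩
      have h3 := hf.1 p h1
      exact ⟨fst p, h2, by rw [hf.app_eq (h3 ▸ h1 : pair (fst p) (snd p) ∈ π)]; exact h3.symm⟩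
    · rintro ⟨x, hx, rfl⟩
      exact ⟨hf.pair_app_mem (hd ▸ hsub x hx), by rwa [fst_pair]⟩
  have ha : ∀ x ∈ P.M, app (restr π P.M) x = app π x := fun x hx => by rw [e, app_lam _ hx]
  have hel : Elem (app π) (P.M : Set V) (app π P.M : Set V) := by
    refine ⟨fun x hx => (he.mem_iff (hsub x hx) hM).2 hx, fun φ v hv => ?_⟩
    have := he.ud (F := pZ) rfl ‹_› ‹_› (fun M v => Sat1 (vr v 0 : Set V) φ (tl v))
      (cons_mem hM fun i => hsub _ (hv i))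
    rw [comp_cons] at this
    exact this
  refine ⟨(he.iff1 pZ (fun _ (P : PM) => IsPM P) hm).1 hP, ?_, ha⟩
  rw [he.jm_PM hm]
  refine ⟨?_, ha _ hP.w_mem, jm_congr (ha _ hP.mu_mem), ha _ hP.S_mem, jm_congr (ha _ hP.th_mem)⟩
  rw [e]
  exact hel.isElem
theorem AgrP.refl (P : PM) (ρ : Ordinal.{0}) : AgrP P P ρ := ⟨rfl, rfl, rfl, rfl, rfl⟩
theorem AgrP.symm {P Q : PM} {ρ : Ordinal.{0}} (h : AgrP P Q ρ) : AgrP Q P ρ :=
  ⟨h.M.symm, h.A.symm, h.w.symm, h.S.symm, h.mu.symm⟩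
theorem AgrP.trans {P Q R : PM} {ρ : Ordinal.{0}} (h : AgrP P Q ρ) (h' : AgrP Q R ρ) : AgrP P R ρ :=
  ⟨h.M.trans h'.M, h.A.trans h'.A, h.w.trans h'.w, h.S.trans h'.S, h.mu.trans h'.mu⟩
theorem AgrP.mono {P Q : PM} {ρ ρ' : Ordinal.{0}} (h : AgrP P Q ρ) (hle : ρ' ≤ ρ) : AgrP P Q ρ' := by
  have k : ∀ {A B : V}, cut A ρ = cut B ρ → cut A ρ' = cut B ρ' := fun {A B} e => by
    ext x
    have := ZFSet.ext_iff.1 e x
    simp only [mem_cut] at this ⊢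
    exact ⟨fun h => ⟨(this.1 ⟨h.1, h.2.trans_le hle⟩).1, h.2⟩,
      fun h => ⟨(this.2 ⟨h.1, h.2.trans_le hle⟩).1, h.2⟩⟩
  exact ⟨k h.M, k h.A, k h.w, k h.S, h.mu⟩
-- JOB A END

-- JOB B BEGIN
theorem pb_cut_cut (A : V) {ρ σ : Ordinal.{0}} (h : σ ≤ ρ) : cut (cut A ρ) σ = cut A σ := by
  ext x; simp only [mem_cut]
  exact ⟨fun h1 => ⟨h1.1.1, h1.2⟩, fun h1 => ⟨⟨h1.1, h1.2.trans_le h⟩, h1.2⟩⟩
theorem pb_cut_mono {A B : V} {ρ σ : Ordinal.{0}} (e : cut A ρ = cut B ρ) (h : σ ≤ ρ) :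
    cut A σ = cut B σ := by rw [← pb_cut_cut A h, e, pb_cut_cut B h]
theorem pb_mem_of_cut {A B x : V} {ρ : Ordinal.{0}} (e : cut A ρ = cut B ρ) (hx : x ∈ A)
    (hr : x.rank < ρ) : x ∈ B := (mem_cut.1 (e ▸ mem_cut.2 ⟨hx, hr⟩ : x ∈ cut B ρ)).1
theorem pb_rank_op {k a μ : Ordinal.{0}} (h : k < a) (hμ : Order.IsSuccLimit μ) :
    (op k a).rank < a + μ := by
  rw [op, rank_pair_lt (isSuccLimit_add a hμ), rank_toZFSet, rank_toZFSet]
  exact ⟨h.trans_le le_self_add, lt_add_of_pos_right a hμ.pos⟩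
theorem pb_lt_rank_op (k a : Ordinal.{0}) : k ≤ (op k a).rank ∧ a ≤ (op k a).rank :=
  ⟨(fst_op k a).ge.trans (rank_fst_le _), (snd_op k a).ge.trans (rank_snd_le _)⟩
theorem pb_lim3 {a η : Ordinal.{0}} (hη : Order.IsSuccLimit η) (h : a < η) : a + 3 < η := by
  have := hη.add_natCast_lt h 3
  simpa using this
theorem pb_strong {E B B' : V} {ρ : Ordinal.{0}} (hE : IsExt E) (e : cut B ρ = cut B' ρ)
    (h : len E ≤ ρ) (hs : Strong E B) : Strong E B' := by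
  unfold Strong at hs ⊢
  rwa [← pb_cut_mono e h, ← pb_cut_mono e (hE.crit_lt_len.le.trans h)]
theorem pb_strong_app {E B : V} (hE : IsExt E) (hs : Strong E B) :
    cut B (crit E) ∈ dom E ∧ app E (cut B (crit E)) = cut B (len E) :=
  ⟨mem_dom.2 ⟨_, hs⟩, hE.fn.app_eq hs⟩
theorem pb_strong_of {E B : V} (hE : IsExt E) (h1 : cut B (crit E) ∈ dom E)
    (h2 : app E (cut B (crit E)) = cut B (len E)) : Strong E B := by
  unfold Strong; rw [← h2]; exact hE.fn.pair_app_mem h1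

theorem mem_optAt {w S E : V} {μ a : Ordinal.{0}} : E ∈ OptAt w μ S a ↔ IsOpt w μ S a E := by
  rw [OptAt, mem_sep]; exact ⟨fun h => h.2, fun h => ⟨h.1, h⟩⟩
theorem pb_mem_sec {O E : V} {a : Ordinal.{0}} : E ∈ sec O a ↔ pair a.toZFSet E ∈ O := by
  rw [sec, mem_sep]; exact ⟨fun h => h.2, fun h => ⟨mem_ran.2 ⟨_, h⟩, h⟩⟩
theorem pb_pair_mem_opt {w S E : V} {μ a : Ordinal.{0}} :
    pair a.toZFSet E ∈ Opt w μ S ↔ IsOpt w μ S a E := by
  rw [Opt, pair_mem_rel, rank_toZFSet]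
  exact ⟨fun h => h.2.2, fun h => ⟨mem_ran.2 ⟨_, h.2.2.2.2.1⟩, h.1, h⟩⟩
theorem pb_mem_opt {w S A p : V} {μ : Ordinal.{0}} (h : Shape A μ S) :
    p ∈ Opt w μ S ↔ ∃ a E, p = pair (Ordinal.toZFSet a) E ∧ IsOpt w μ S a E := by
  constructor
  · intro hp
    obtain ⟨x, hx, E, _, rfl, hE⟩ := mem_rel.1 hp
    obtain ⟨k, hk⟩ := mem_ran.1 hx
    have h1 := (h.2.1 _ hk).1
    rw [fst_pair, snd_pair, op] at h1
    exact ⟨x.rank, E, by rw [← (pair_inj.1 h1).2], hE⟩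
  · rintro ⟨a, E, rfl, hE⟩; exact pb_pair_mem_opt.2 hE
theorem sec_opt {w S A : V} {μ : Ordinal.{0}} (h : Shape A μ S) (a : Ordinal.{0}) :
    sec (Opt w μ S) a = OptAt w μ S a := by
  ext E; rw [pb_mem_sec, pb_pair_mem_opt, mem_optAt]
theorem sec_union (O O' : V) (a : Ordinal.{0}) : sec (O ∪ O') a = sec O a ∪ sec O' a := by
  ext E; simp only [pb_mem_sec, ZFSet.mem_union]
theorem sec_eq_empty_of_rank {O : V} {a : Ordinal.{0}} (h : O.rank ≤ a) : sec O a = ∅ := by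
  rw [ZFSet.eq_empty]; intro E hE
  have h1 := (rank_lt_of_mem (pb_mem_sec.1 hE)).trans_le h
  have h2 := rank_fst_le (pair a.toZFSet E)
  rw [fst_pair, rank_toZFSet] at h2
  exact h1.not_ge h2
theorem IsOpt.lt {w S E A : V} {μ a : Ordinal.{0}} (hs : Shape A μ S) (h : IsOpt w μ S a E) :
    μ < crit E ∧ crit E < a ∧ IsI a := by
  have := (hs.2.1 _ h.2.2.2.2.1).2
  rwa [fst_op, snd_op] at this
theorem optAt_eq_empty {w S : V} {μ a β A} (hs : Shape A μ S) (h : CritGt S β) (ha : a ≤ β) :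
    OptAt w μ S a = ∅ := by
  rw [ZFSet.eq_empty]; intro E hE
  have hE := mem_optAt.1 hE
  have h1 := h _ hE.2.2.2.2.1
  rw [fst_op] at h1
  exact (h1.trans (hE.lt hs).2.1).not_ge ha
theorem optSec_optAt {w S A : V} {μ : Ordinal.{0}} (hs : Shape A μ S) (a : Ordinal.{0}) :
    OptSec (OptAt w μ S a) a := fun E hE =>
  have hE := mem_optAt.1 hE
  ⟨hE.2.1, hE.2.2.2.2.2.2.2, (hE.lt hs).2.1, (hE.lt hs).2.2.limit⟩
theorem OptLike.sec {O : V} (h : OptLike O) (a : Ordinal.{0}) : OptSec (sec O a) a := fun E hE => by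
  have := h _ _ (pb_mem_sec.1 hE)
  rw [rank_toZFSet] at this
  exact this E hE
theorem optLike_opt {w S A : V} {μ : Ordinal.{0}} (hs : Shape A μ S) : OptLike (Opt w μ S) :=
  fun x _ _ => by rw [sec_opt hs]; exact optSec_optAt hs _
theorem optLike_empty : OptLike ∅ := fun _ _ h => absurd h (notMem_empty _)
theorem OptLike.union {O O' : V} (h : OptLike O) (h' : OptLike O') : OptLike (O ∪ O') :=
  fun x _ _ E hE => by
    rw [sec_union, ZFSet.mem_union] at hE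
    exact hE.elim (h.sec _ E) (h'.sec _ E)
theorem opt_empty (w : V) (μ : Ordinal.{0}) : Opt w μ ∅ = ∅ := by
  rw [ZFSet.eq_empty]; intro p hp
  obtain ⟨x, hx, _⟩ := mem_rel.1 hp
  obtain ⟨k, hk⟩ := mem_ran.1 hx
  exact notMem_empty _ hk

/-- transfer of an option to data that agree below `a + μ` -/
theorem pb_transfer {w w' S S' A E : V} {μ a : Ordinal.{0}} (hμ : Order.IsSuccLimit μ)
    (hs : Shape A μ S) (h : IsOpt w μ S a E) (hm : E ∈ fld w')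
    (eA : cut (fld w) (a + μ) = cut (fld w') (a + μ)) (ew : cut w (a + μ) = cut w' (a + μ))
    (eS : cut S (a + μ) = cut S' (a + μ)) : IsOpt w' μ S' a E := by
  obtain ⟨_, hlt, _⟩ := h.lt hs
  obtain ⟨_, hE, hl, hZ, hop, h1, h2, hn⟩ := h
  exact ⟨hm, hE, hl, hZ.trans eA, pb_mem_of_cut eS hop (pb_rank_op hlt hμ),
    pb_strong hE ew hl.le h1, pb_strong hE eS hl.le h2, hn⟩

theorem pb_agr_optAt {P Q : PM} {ρ a : Ordinal.{0}} (hP : IsPM P) (h : AgrP P Q ρ)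
    (ha : a + P.mu + 4 ≤ ρ) : P.optAt a ⊆ Q.optAt a := fun E hE => by
  have hE := mem_optAt.1 hE
  have h1 : a + P.mu ≤ ρ := le_self_add.trans ha
  have h2 : E.rank < ρ := by
    rw [hE.2.1.rank_eq, hE.2.2.1]
    refine lt_of_lt_of_le ?_ ha
    exact add_lt_add_right (by exact_mod_cast (by norm_num : (3 : ℕ) < 4)) _
  unfold PM.optAt
  rw [mem_optAt, ← h.mu]
  exact pb_transfer hP.mu_lim hP.shape hE (pb_mem_of_cut h.A hE.1 h2) (pb_cut_mono h.A h1)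
    (pb_cut_mono h.w h1) (pb_cut_mono h.S h1)

/-- options of index `a` are determined below `a + μ + 4` -/
theorem AgrP.optAt {P Q : PM} {ρ a : Ordinal.{0}} (hP : IsPM P) (hQ : IsPM Q) (h : AgrP P Q ρ)
    (ha : a + P.mu + 4 ≤ ρ) : P.optAt a = Q.optAt a :=
  ZFSet.ext fun _ => ⟨fun hE => pb_agr_optAt hP h ha hE,
    fun hE => pb_agr_optAt hQ h.symm (h.mu ▸ ha) hE⟩
theorem optAt_congr {w S S' A : V} {μ a η : Ordinal.{0}} (hμ : Order.IsSuccLimit μ)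
    (hs : Shape A μ S) (hs' : Shape A μ S') (h : cut S η = cut S' η) (ha : a + μ ≤ η) :
    OptAt w μ S a = OptAt w μ S' a := by
  ext E; rw [mem_optAt, mem_optAt]
  exact ⟨fun hE => pb_transfer hμ hs hE hE.1 rfl rfl (pb_cut_mono h ha),
    fun hE => pb_transfer hμ hs' hE hE.1 rfl rfl (pb_cut_mono h.symm ha)⟩
theorem rank_opt_le {w S A : V} {μ η : Ordinal.{0}} (hs : Shape A μ S) (hη : IsI η) (hμ : μ < η)
    (hr : S.rank ≤ η) : (Opt w μ S).rank ≤ η := by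
  rw [ZFSet.rank_le_iff]; intro p hp
  obtain ⟨a, E, rfl, hE⟩ := (pb_mem_opt hs).1 hp
  have ha : a < η := (pb_lt_rank_op _ a).2.trans_lt ((rank_lt_of_mem hE.2.2.2.2.1).trans_le hr)
  rw [rank_pair_lt hη.limit, rank_toZFSet, hE.2.1.rank_eq, hE.2.2.1]
  exact ⟨ha, pb_lim3 hη.limit (hη.2 a ha μ hμ)⟩

theorem pb_shape_union {A S₁ S₂ : V} {μ : Ordinal.{0}} (h1 : Shape A μ S₁) (h2 : Shape A μ S₂) :
    Shape A μ (S₁ ∪ S₂) :=
  ⟨fun p hp => (ZFSet.mem_union.1 hp).elim (fun h => h1.1 h) (fun h => h2.1 h),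
    fun p hp => (ZFSet.mem_union.1 hp).elim (h1.2.1 p) (h2.2.1 p),
    fun p hp a ha hk hi => ZFSet.mem_union.2 ((ZFSet.mem_union.1 hp).imp
      (fun h => h1.2.2 p h a ha hk hi) (fun h => h2.2.2 p h a ha hk hi))⟩

theorem pb_cut_union_low {S₁ S₂ : V} {η : Ordinal.{0}} (hc : CritGt S₂ η) :
    cut (S₁ ∪ S₂) η = cut S₁ η := by
  ext p; simp only [mem_cut, ZFSet.mem_union]
  refine ⟨fun h => ⟨h.1.resolve_right fun h2 => ?_, h.2⟩, fun h => ⟨Or.inl h.1, h.2⟩⟩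
  exact ((hc p h2).trans_le (rank_fst_le p)).asymm h.2

theorem pb_cut_union_high {S₁ S₂ : V} {η ρ : Ordinal.{0}} (hr : S₁.rank ≤ η) (hc : CritGt S₂ η)
    (h : η ≤ ρ) : cut (S₁ ∪ S₂) ρ = S₁ ∪ cut S₂ ρ ∧ cut (S₁ ∪ S₂) ρ \ S₁ = cut S₂ ρ := by
  have h1 : ∀ p ∈ S₁, p.rank < η := fun p hp => (rank_lt_of_mem hp).trans_le hr
  constructor
  · ext p; simp only [mem_cut, ZFSet.mem_union]
    exact ⟨fun hp => hp.1.imp_right fun h2 => ⟨h2, hp.2⟩, fun hp => hp.elim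
      (fun h2 => ⟨Or.inl h2, (h1 p h2).trans_le h⟩) (fun h2 => ⟨Or.inr h2.1, h2.2⟩)⟩
  · ext p; simp only [mem_cut, ZFSet.mem_union, ZFSet.mem_sdiff]
    exact ⟨fun hp => ⟨hp.1.1.resolve_left hp.2, hp.1.2⟩, fun hp => ⟨⟨Or.inr hp.1, hp.2⟩,
      fun h2 => ((hc p hp.1).trans_le (rank_fst_le p)).asymm (h1 p h2)⟩⟩

theorem pb_strong_union {E S₁ S₂ : V} {η : Ordinal.{0}} (hE : IsExt E) (hK : S₁ ∈ extK E)
    (hr : S₁.rank ≤ η) (hc : CritGt S₂ η) (hη : η ≤ crit E) :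
    Strong E (S₁ ∪ S₂) ↔ Strong E S₂ := by
  have hd : S₁ ∈ dom E := hE.mem_dom.2 ⟨(hE.mem_K.1 hK).1, hE.K_trans _ hK⟩
  have hf : app E S₁ = S₁ := hE.fix _ hK
  obtain ⟨e1, e2⟩ := pb_cut_union_high hr hc hη
  obtain ⟨e3, e4⟩ := pb_cut_union_high hr hc (hη.trans hE.crit_lt_len.le)
  constructor
  · intro h
    obtain ⟨h1, h2⟩ := pb_strong_app hE h
    obtain ⟨h3, h4⟩ := hE.diff _ h1 _ hd
    rw [e2] at h3 h4
    exact pb_strong_of hE h3 (by rw [h4, h2, hf, e4])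
  · intro h
    obtain ⟨h1, h2⟩ := pb_strong_app hE h
    obtain ⟨h3, h4⟩ := hE.union hd h1
    rw [← e1] at h3 h4
    exact pb_strong_of hE h3 (by rw [h4, h2, hf, e3])

theorem pb_mem_A {P : PM} (hP : IsPM P) {x : V} : x ∈ P.A ↔ x ∈ P.M ∧ x.rank < P.A.rank := by
  conv_lhs => rw [hP.A_eq]
  exact mem_cut
theorem pb_len_lt {w S E : V} {μ a : Ordinal.{0}} (h : IsOpt w μ S a E) :
    a + μ + 3 < (fld w).rank := by
  rw [← h.2.2.1, ← h.2.1.rank_eq]; exact rank_lt_of_mem h.1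

theorem pb_isOpt_union {P : PM} (hP : IsPM P) {S₁ S₂ : V} {η : Ordinal.{0}}
    (h1 : Shape P.A P.mu S₁) (h2 : Shape P.A P.mu S₂) (hm : S₁ ∈ P.M) (hη : IsI η)
    (hr : S₁.rank ≤ η) (hc : CritGt S₂ η) (a : Ordinal.{0}) (E : V) :
    IsOpt P.w P.mu (S₁ ∪ S₂) a E ↔ IsOpt P.w P.mu S₁ a E ∨ IsOpt P.w P.mu S₂ a E := by
  have low : op (crit E) a ∈ S₁ → cut (S₁ ∪ S₂) (a + P.mu) = cut S₁ (a + P.mu) := fun ho => by
    have ha : a < η := (pb_lt_rank_op _ a).2.trans_lt ((rank_lt_of_mem ho).trans_le hr)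
    have h3 := (h1.2.1 _ ho).2
    rw [fst_op, snd_op] at h3
    exact pb_cut_mono (pb_cut_union_low hc) (hη.2 a ha _ (h3.1.trans (h3.2.1.trans ha))).le
  have high : ∀ S, IsOpt P.w P.mu S a E → op (crit E) a ∈ S₂ →
      (Strong E (S₁ ∪ S₂) ↔ Strong E S₂) := fun S hE ho => by
    have h3 := hc _ ho
    rw [fst_op] at h3
    have h4 : S₁.rank < crit E := hr.trans_lt h3
    have h5 : S₁.rank < a + P.mu := h4.trans (hE.2.2.1 ▸ hE.2.1.crit_lt_len)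
    refine pb_strong_union hE.2.1 (hE.2.1.mem_K.2 ⟨?_, h4⟩) hr hc h3.le
    rw [hE.2.2.2.1, mem_cut]
    exact ⟨(pb_mem_A hP).2 ⟨hm, h5.trans (le_self_add.trans_lt (pb_len_lt hE))⟩, h5⟩
  constructor
  · intro h
    rcases ZFSet.mem_union.1 h.2.2.2.2.1 with ho | ho
    · exact Or.inl (pb_transfer hP.mu_lim (pb_shape_union h1 h2) h h.1 rfl rfl (low ho))
    · have h3 := (high _ h ho).1 h.2.2.2.2.2.2.1
      obtain ⟨a1, a2, a3, a4, _, a6, _, a8⟩ := h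
      exact Or.inr ⟨a1, a2, a3, a4, ho, a6, h3, a8⟩
  · rintro (h | h)
    · exact pb_transfer hP.mu_lim h1 h h.1 rfl rfl (low h.2.2.2.2.1).symm
    · have h3 := (high _ h h.2.2.2.2.1).2 h.2.2.2.2.2.2.1
      obtain ⟨a1, a2, a3, a4, a5, a6, _, a8⟩ := h
      exact ⟨a1, a2, a3, a4, ZFSet.mem_union.2 (Or.inr a5), a6, h3, a8⟩

theorem opt_union {P : PM} (hP : IsPM P) {S₁ S₂ : V} {η : Ordinal.{0}} (h1 : Shape P.A P.mu S₁)
    (h2 : Shape P.A P.mu S₂) (hm : S₁ ∈ P.M) (hη : IsI η) (hr : S₁.rank ≤ η) (hc : CritGt S₂ η) :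
    Shape P.A P.mu (S₁ ∪ S₂) ∧ Opt P.w P.mu (S₁ ∪ S₂) = Opt P.w P.mu S₁ ∪ Opt P.w P.mu S₂ := by
  refine ⟨pb_shape_union h1 h2, ?_⟩
  ext p
  rw [ZFSet.mem_union, pb_mem_opt (pb_shape_union h1 h2), pb_mem_opt h1, pb_mem_opt h2]
  simp only [pb_isOpt_union hP h1 h2 hm hη hr hc, and_or_left, exists_or]

theorem pb_extZ {P : PM} (hP : IsPM P) {a : Ordinal.{0}} {E : V} (hE : IsOpt P.w P.mu P.S a E) :
    extZ E = cut P.M (a + P.mu) := by
  rw [hE.2.2.2.1]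
  change cut P.A _ = _
  rw [hP.A_eq]
  exact pb_cut_cut _ (le_self_add.trans (pb_len_lt hE).le)

/-- one step of an iteration: an option of `P₁` applied to `P` -/
theorem opt_agr {P P₁ : PM} (hP : IsPM P) (h1 : IsPM P₁) {a : Ordinal.{0}} {E : V}
    (hE : E ∈ P₁.optAt a) (hag : AgrP P P₁ (crit E + 1)) : Agr P.M E := by
  have hE := mem_optAt.1 hE
  unfold Agr
  rw [pb_extZ h1 hE, pb_cut_cut, hag.M]
  rw [← hE.2.2.1]
  exact Order.add_one_le_of_lt hE.2.1.crit_lt_len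

theorem pb_cut_A {P Q : PM} (hP : IsPM P) (hQ : IsPM Q) {ρ : Ordinal.{0}} (hρ : Order.IsSuccLimit ρ)
    (e : cut P.w ρ = cut Q.w ρ) : cut P.A ρ ⊆ cut Q.A ρ := fun x hx => by
  obtain ⟨h1, h2⟩ := mem_cut.1 hx
  have h3 := pb_mem_of_cut e (hP.wo.2.1 x h1) ((rank_pair_lt hρ).2 ⟨h2, h2⟩)
  exact mem_cut.2 ⟨(z4d_mem hQ.wo h3).1, h2⟩

theorem step_spec {P P₁ Q : PM} (hP : IsPM P) (h1 : IsPM P₁) (hQ : IsPM Q) {a : Ordinal.{0}}
    {E i : V} (hE : E ∈ P₁.optAt a) (hag : AgrP P P₁ (crit E + 1)) (hU : IsUlt P.M E Q.M i)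
    (hi : ElemPM i P Q) : AgrP Q P₁ (a + P₁.mu) ∧ Q.optAt a = Pred (P₁.optAt a) E := by
  have hE := mem_optAt.1 hE
  haveI := hP.isT; haveI := h1.isT; haveI := hQ.isT
  have hX := hE.2.1
  have hl : len E = a + P₁.mu := hE.2.2.1
  obtain ⟨hμκ, hκa, hI⟩ := hE.lt h1.shape
  have hlim : Order.IsSuccLimit (a + P₁.mu) := isSuccLimit_add a h1.mu_lim
  have key : ∀ B B₁ : V, B ∈ P.M → cut B (crit E + 1) = cut B₁ (crit E + 1) → Strong E B₁ →
      cut (app i B) (a + P₁.mu) = cut B₁ (a + P₁.mu) := fun B B₁ hB e hs => by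
    rw [← hl, hU.cut_map_len hB, pb_cut_mono e le_self_add, (pb_strong_app hX hs).2]
  have ew : cut Q.w (a + P₁.mu) = cut P₁.w (a + P₁.mu) :=
    hi.w ▸ key _ _ hP.w_mem hag.w hE.2.2.2.2.2.1
  have eS : cut Q.S (a + P₁.mu) = cut P₁.S (a + P₁.mu) :=
    hi.S ▸ key _ _ hP.S_mem hag.S hE.2.2.2.2.2.2.1
  have eA : cut Q.A (a + P₁.mu) = cut P₁.A (a + P₁.mu) :=
    ZFSet.ext fun _ => ⟨fun h => pb_cut_A hQ h1 hlim ew h, fun h => pb_cut_A h1 hQ hlim ew.symm h⟩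
  have eμ : Q.mu = P₁.mu := by
    rw [← hi.mu, ← hag.mu]
    exact jm_of_fix (hU.fix hP.mu_mem (by rw [enc_ord, rank_toZFSet, hag.mu]; exact hμκ))
  have eM : cut Q.M (a + P₁.mu) = cut P₁.M (a + P₁.mu) := by
    rw [← pb_extZ h1 hE, ← hl]; exact hU.cut_len
  refine ⟨⟨eM, eA, ew, eS, eμ⟩, ?_⟩
  have hht : a + P₁.mu + 3 < ht E := by
    have h2 := hU.inac_ht
    have h3 : a + P₁.mu ≤ ht E := hl ▸ hU.len_le_ht
    have h4 : a < ht E := (lt_add_of_pos_right a h1.mu_lim.pos).trans_le h3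
    exact pb_lim3 h2.2.2.1 (h2.add_lt h4 ((hμκ.trans hκa).trans h4)).1
  have hEM : E ∈ P₁.M := ((pb_mem_A h1).1 hE.1).1
  have hUE : UE E ∈ P₁.M := by
    haveI : In (P₁.M : Set V) E := ⟨hEM⟩
    exact memV_of (P₁.M : Set V) (UE E)
  have hA : ht E < Q.A.rank := by
    have h2 : extK E ∈ P₁.A := (mem_cut.1 (hE.2.2.2.1 ▸ hX.memK : extK E ∈ cut P₁.A _)).1
    have h3 : extK E ∈ P.A := pb_mem_of_cut hag.A.symm h2 (lt_add_one _)
    rw [← hi.A hP hQ, hU.ht_eq, hi.elem.elem.rank_map hP.A_mem,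
      hi.elem.elem.jm_lt hU.crit_mem (IsZ.rank_mem _ hP.A_mem)]
    exact rank_lt_of_mem h3
  ext E'
  unfold PM.optAt Pred
  rw [ZFSet.mem_inter, mem_optAt, mem_optAt, hU.UE_eq, mem_cut, eμ]
  constructor
  · intro h
    have h2 : E'.rank = a + P₁.mu + 3 := by rw [h.2.1.rank_eq, h.2.2.1]
    have h3 : E' ∈ Q.M := ((pb_mem_A hQ).1 h.1).1
    have h4 : E' ∈ UE E := by rw [hU.UE_eq, mem_cut]; exact ⟨h3, h2 ▸ hht⟩
    have h5 : E' ∈ P₁.A := (pb_mem_A h1).2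
      ⟨IsZ.trans (M := (P₁.M : Set V)) _ hUE _ h4, h2 ▸ pb_len_lt hE⟩
    exact ⟨pb_transfer h1.mu_lim (eμ ▸ hQ.shape) h h5 eA ew eS, h3, h2 ▸ hht⟩
  · rintro ⟨h, h3, h4⟩
    exact pb_transfer h1.mu_lim h1.shape h ((pb_mem_A hQ).2 ⟨h3, h4.trans hA⟩) eA.symm ew.symm
      eS.symm
theorem ultP_spec {P : PM} (hP : IsPM P) {E : V} (hE : IsExt E) (hA : Agr P.M E) (hwf : UWF P.M E) :
    IsPM (ultP P E) ∧ IsUlt P.M E (ultP P E).M (ultMap P.M E) ∧
      ElemPM (ultMap P.M E) P (ultP P E) := by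
  haveI := hP.isT
  have hU := (isUlt_ult hE hA hwf).1
  have h : ElemPM (ultMap P.M E) P (ultP P E) := ⟨hU.elem, rfl, rfl, rfl, rfl⟩
  exact ⟨h.isPM_right hP hU.trans, hU, h⟩
/-- initial segment condition -/
theorem opt_rst {P : PM} (hP : IsPM P) {a a' : Ordinal.{0}} {E M Q i : V} (hE : E ∈ P.optAt a')
    (hU : IsUlt M E Q i) (h1 : crit E < a) (h2 : a < a') (ha : IsI a) :
    rst E (a + P.mu) ∈ P.optAt a := by
  have hE := mem_optAt.1 hE
  haveI := hP.isT; haveI := hU.isT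
  have hX := hE.2.1
  have hlim : Order.IsSuccLimit (a + P.mu) := isSuccLimit_add a hP.mu_lim
  have h3 : crit E < a + P.mu := h1.trans_le le_self_add
  have h4 : a + P.mu ≤ len E := by rw [hE.2.2.1]; exact add_le_add_left h2.le _
  obtain ⟨r1, r2, r3, r4, r5, r6⟩ := hX.rst_spec hlim h3 h4
  have hEM : E ∈ P.M := ((pb_mem_A hP).1 hE.1).1
  have hst : ∀ B, Strong E B → Strong (rst E (a + P.mu)) B := fun B hs => by
    obtain ⟨s1, s2⟩ := pb_strong_app hX hs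
    refine pb_strong_of r1 (by rw [r4, r6]; exact s1) ?_
    rw [r4, r5, app_rst s1, s2, pb_cut_cut _ h4]
  refine mem_optAt.2 ⟨(pb_mem_A hP).2 ⟨?_, ?_⟩, r1, r5, ?_, ?_, hst _ hE.2.2.2.2.2.1,
    hst _ hE.2.2.2.2.2.2.1, ?_⟩
  · haveI : In (P.M : Set V) E := ⟨hEM⟩
    haveI : In (P.M : Set V) (a + P.mu) := ⟨IsZ.ord_mem_of_le _ (IsZ.rank_mem _ hEM)
      (h4.trans (by rw [hX.rank_eq]; exact le_self_add))⟩
    exact memV_of (P.M : Set V) (rst E (a + P.mu))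
  · rw [r1.rank_eq, r5]
    refine lt_of_le_of_lt ?_ (rank_lt_of_mem hE.1)
    rw [hX.rank_eq]; exact add_le_add_left h4 _
  · rw [r3, hE.2.2.2.1, pb_cut_cut _ (hE.2.2.1 ▸ h4)]
  · have := hP.shape.2.2 _ hE.2.2.2.2.1 a (by rwa [snd_op]) (by rwa [fst_op]) ha
    rwa [fst_op, ← r4] at this
  · refine (isUlt_ult r1 ?_ (hU.uwf_rst hlim h3 h4)).1.niceU
    unfold Agr
    rw [r4, r3, pb_cut_cut _ (Order.add_one_le_of_lt h3)]
    exact hU.agr
-- JOB B END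

-- JOB C BEGIN
theorem pc_mem_typ {C E p : V} {a : Ordinal.{0}} : p ∈ typ C a E ↔
    p ∈ C ∧ p = pair (fst p) (snd p) ∧ (fst p).rank < a ∧ fst p ∈ app E (snd p) := mem_sep
theorem pc_rank_lt {C E p : V} {a : Ordinal.{0}} (hE : IsExt E) (h : crit E < a)
    (ha : Order.IsSuccLimit a) (hp : p ∈ typ C a E) : p.rank < a := by
  obtain ⟨_, h1, h2, h3⟩ := pc_mem_typ.1 hp
  have h4 : snd p ∈ dom E := by
    by_contra hn
    rw [app_of_not_mem_dom hn] at h3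
    exact notMem_empty _ h3
  rw [h1, rank_pair_lt ha]
  exact ⟨h2, (rank_mono (hE.mem_dom.1 h4).2).trans_lt h⟩
theorem typ_cut {C E : V} {a : Ordinal.{0}} (hE : IsExt E) (h : crit E < a)
    (ha : Order.IsSuccLimit a) : typ C a E = typ (cut C a) a E := by
  ext p
  constructor
  · intro hp
    exact pc_mem_typ.2 ⟨mem_cut.2 ⟨(pc_mem_typ.1 hp).1, pc_rank_lt hE h ha hp⟩, (pc_mem_typ.1 hp).2⟩
  · intro hp
    exact pc_mem_typ.2 ⟨(mem_cut.1 (pc_mem_typ.1 hp).1).1, (pc_mem_typ.1 hp).2⟩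
theorem typ_of_subset {L C : V} (h : L ⊆ C) (a : Ordinal.{0}) (E : V) :
    typ L a E = typ C a E ∩ L := by
  ext p
  rw [mem_inter, pc_mem_typ, pc_mem_typ]
  exact ⟨fun k => ⟨⟨h k.1, k.2⟩, k.1⟩, fun k => ⟨k.2, k.1.2⟩⟩
theorem rank_typ_le {C E : V} {a : Ordinal.{0}} (hE : IsExt E) (h : crit E < a)
    (ha : Order.IsSuccLimit a) : (typ C a E).rank ≤ a :=
  rank_le_iff.2 fun _ hp => pc_rank_lt hE h ha hp
theorem pc_img_congr {f g : V → V} {X : V} (h : ∀ x ∈ X, f x = g x) : img f X = img g X := by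
  ext y; simp only [mem_img]
  exact exists_congr fun x => and_congr_right fun hx => by rw [h x hx]
theorem pc_img_mono (f : V → V) {X Y : V} (h : X ⊆ Y) : img f X ⊆ img f Y := fun y hy => by
  obtain ⟨x, hx, e⟩ := mem_img.1 hy
  exact mem_img.2 ⟨x, h hx, e⟩
theorem pc_mem_pred {O E x : V} : x ∈ Pred O E ↔ x ∈ O ∧ x ∈ UE E := mem_inter
theorem pc_labels_congr {O C C' : V} {a : Ordinal.{0}} (h : OptSec O a) (hc : cut C a = cut C' a) :
    Labels O C a = Labels O C' a := by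
  have h1 : ∀ E ∈ O, typ C a E = typ C' a E := fun E hE => by
    obtain ⟨k1, _, k2, k3⟩ := h E hE
    rw [typ_cut k1 k2 k3, hc, ← typ_cut k1 k2 k3]
  have h2 : ∀ E, img (typ C a) (Pred O E) = img (typ C' a) (Pred O E) := fun E =>
    pc_img_congr fun x hx => h1 x (pc_mem_pred.1 hx).1
  have h3 : ZFSet.sep (IsMin O C a) O = ZFSet.sep (IsMin O C' a) O := by
    ext E; simp only [mem_sep, IsMin]
    exact and_congr_right fun hE => by rw [h1 E hE, h2]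
  rw [Labels, Labels, h3]
  exact pc_img_congr fun E hE => by rw [label, label, h1 E (mem_sep.1 hE).1, h2]
theorem agree_congr {O O' C C' : V} {a : Ordinal.{0}} (h : OptSec O a) (h' : OptSec O' a)
    (hc : cut C a = cut C' a) : Agree O O' C a ↔ Agree O O' C' a := by
  rw [Agree, Agree, pc_labels_congr h hc, pc_labels_congr h' hc]
theorem pc_mem_labels {O C l : V} {a : Ordinal.{0}} :
    l ∈ Labels O C a ↔ ∃ E, IsMin O C a E ∧ label O C a E = l := by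
  rw [Labels, mem_img]
  exact exists_congr fun E => and_congr_left fun _ =>
    mem_sep.trans ⟨fun k => k.2, fun k => ⟨k.1, k⟩⟩
theorem agree_empty (C : V) (a : Ordinal.{0}) : Agree ∅ ∅ C a :=
  ⟨rfl, fun l hl => by
    obtain ⟨E, hE, _⟩ := pc_mem_labels.1 hl
    exact absurd hE.1 (notMem_empty _)⟩
theorem Agree.symm {O O' C : V} {a : Ordinal.{0}} (h : Agree O O' C a) : Agree O' O C a :=
  ⟨h.1.symm, h.1 ▸ h.2⟩
theorem OptSec.ht_lt {O : V} {a : Ordinal.{0}} (h : OptSec O a) {E E' : V} (hE : E ∈ O)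
    (hE' : E' ∈ Pred O E) : ht E' < ht E ∧ Pred O E' ⊆ Pred O E ∧ Pred (Pred O E) E' = Pred O E' := by
  obtain ⟨k1, k2⟩ := pc_mem_pred.1 hE'
  have hN := (h E hE).2.1
  have hU : UE E' ∈ UE E := hN.2 E' k2 (h E' k1).1 (h E' k1).2.1.1
  have hs : Pred O E' ⊆ Pred O E := fun x hx =>
    pc_mem_pred.2 ⟨(pc_mem_pred.1 hx).1, UE_trans hN.1 _ hU (pc_mem_pred.1 hx).2⟩
  refine ⟨rank_lt_of_mem hU, hs, ?_⟩
  ext x
  exact ⟨fun hx => pc_mem_pred.2 ⟨(pc_mem_pred.1 (pc_mem_pred.1 hx).1).1, (pc_mem_pred.1 hx).2⟩,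
    fun hx => pc_mem_pred.2 ⟨hs hx, (pc_mem_pred.1 hx).2⟩⟩

theorem pc_ne_empty {E : V} (h : IsExt E) : E ≠ ∅ := by
  rintro rfl
  obtain ⟨y, hy⟩ := mem_dom.1 h.K_mem_dom
  exact notMem_empty _ hy
theorem pc_predP_of_ne {O e : V} (h : e ≠ ∅) : PredP O e = Pred O e := if_neg h
theorem pc_predP_empty (O : V) : PredP O ∅ = O := if_pos rfl
/-- the measure of the descent -/
noncomputable def pcM (e : V) : WithTop Ordinal.{0} := if e = ∅ then ⊤ else (ht e : Ordinal.{0})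
theorem pc_predP {O e E : V} {a : Ordinal.{0}} (h : OptSec O a) (he : e = ∅ ∨ e ∈ O)
    (hE : E ∈ PredP O e) : E ∈ O ∧ E ≠ ∅ ∧ pcM E < pcM e ∧ Pred O E ⊆ PredP O e ∧
      Pred (PredP O e) E = Pred O E := by
  by_cases h0 : e = ∅
  · subst h0
    rw [pc_predP_empty] at hE ⊢
    have hn := pc_ne_empty (h E hE).1
    refine ⟨hE, hn, ?_, fun x hx => (pc_mem_pred.1 hx).1, rfl⟩
    rw [pcM, pcM, if_neg hn, if_pos rfl]
    exact WithTop.coe_lt_top _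
  · rw [pc_predP_of_ne h0] at hE ⊢
    have hO := (pc_mem_pred.1 hE).1
    have hn := pc_ne_empty (h E hO).1
    obtain ⟨k1, k2, k3⟩ := h.ht_lt (he.resolve_left h0) hE
    refine ⟨hO, hn, ?_, k2, k3⟩
    rw [pcM, pcM, if_neg hn, if_neg h0]
    exact WithTop.coe_lt_coe.2 k1
/-- every type that occurs has a minimal representative -/
theorem pc_exists_min {O C e τ : V} {a : Ordinal.{0}} (h : OptSec O a) (he : e = ∅ ∨ e ∈ O)
    (hτ : τ ∈ img (typ C a) (PredP O e)) :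
    ∃ E ∈ PredP O e, IsMin O C a E ∧ typ C a E = τ := by
  obtain ⟨E₀, h0, e0⟩ := mem_img.1 hτ
  obtain ⟨E, ⟨hE, e1⟩, hm⟩ := (InvImage.wf ht (wellFounded_lt (α := Ordinal.{0}))).has_min
    {E | E ∈ PredP O e ∧ typ C a E = τ} ⟨E₀, h0, e0⟩
  obtain ⟨k1, _, _, k2, _⟩ := pc_predP h he hE
  refine ⟨E, hE, ⟨k1, fun hx => ?_⟩, e1⟩
  obtain ⟨E', hE', e2⟩ := mem_img.1 hx
  exact hm E' ⟨k2 hE', e2.trans e1⟩ (h.ht_lt k1 hE').1
theorem pc_mem_labelsP {O C e l : V} {a : Ordinal.{0}} (h : OptSec O a) (he : e = ∅ ∨ e ∈ O) :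
    l ∈ Labels (PredP O e) C a ↔ ∃ E ∈ PredP O e, IsMin O C a E ∧ label O C a E = l := by
  rw [pc_mem_labels]
  refine exists_congr fun E => ⟨fun k => ?_, fun k => ?_⟩
  · obtain ⟨k1, _, _, _, k2⟩ := pc_predP h he k.1.1
    exact ⟨k.1.1, ⟨k1, k2 ▸ k.1.2⟩, by rw [← k.2, label, label, k2]⟩
  · obtain ⟨k1, _, _, _, k2⟩ := pc_predP h he k.1
    exact ⟨⟨k.1, k2.symm ▸ k.2.1.2⟩, by rw [← k.2.2, label, label, k2]⟩
theorem pc_jsymm {O O' C e f : V} {a : Ordinal.{0}} (h : JInv O O' C a e f) : JInv O' O C a f e :=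
  ⟨h.2.1, h.1, h.2.2.2.1, h.2.2.1, fun k k' => (h.2.2.2.2 k' k).symm⟩
theorem pc_jmem {O O' C e f : V} {a : Ordinal.{0}} (h : JInv O O' C a e f) : e = ∅ ∨ e ∈ O :=
  h.1.imp_right fun k => k.1
/-- the descent can be continued -/
def PcStep (O O' C : V) (a : Ordinal.{0}) (e f : V) : Prop :=
  ∃ e' f', JInv O O' C a e' f' ∧ ¬ (e' = ∅ ∧ f' = ∅) ∧ (pcM e', pcM f') < (pcM e, pcM f)
theorem pc_ssymm {O O' C e f : V} {a : Ordinal.{0}} (h : PcStep O O' C a e f) :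
    PcStep O' O C a f e := by
  obtain ⟨e', f', k1, k2, k3⟩ := h
  exact ⟨f', e', pc_jsymm k1, fun k => k2 k.symm, Prod.lt_iff.2
    ((Prod.lt_iff.1 k3).symm.imp (fun k => ⟨k.2, k.1⟩) fun k => ⟨k.2, k.1⟩)⟩
section step
variable {O O' C e f E G : V} {a : Ordinal.{0}} (h : OptSec O a) (h' : OptSec O' a)
  (hJ : JInv O O' C a e f)
include h h' hJ
theorem pc_move2 (hE : E ∈ PredP O e) (hG : G ∈ PredP O' f) (m1 : IsMin O C a E)
    (m2 : IsMin O' C a G) (n1 : typ C a E ∉ img (typ C a) (Pred O' G))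
    (n2 : typ C a G ∉ img (typ C a) (Pred O E)) (hne : typ C a E ≠ typ C a G) :
    PcStep O O' C a e f := by
  obtain ⟨_, k1, k2, _⟩ := pc_predP h (pc_jmem hJ) hE
  obtain ⟨_, l1, l2, _⟩ := pc_predP h' (pc_jmem (pc_jsymm hJ)) hG
  exact ⟨E, G, ⟨Or.inr m1, Or.inr m2, fun _ => by rwa [pc_predP_of_ne l1],
    fun _ => by rwa [pc_predP_of_ne k1], fun _ _ => hne⟩, fun k => k1 k.1,
    Prod.lt_iff.2 (Or.inl ⟨k2, l2.le⟩)⟩
theorem pc_move3' (hE : E ∈ PredP O e) (hG : G ∈ PredP O' f) (m1 : IsMin O C a E)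
    (m2 : IsMin O' C a G) (he : typ C a E = typ C a G) {τ : V}
    (n1 : τ ∈ img (typ C a) (Pred O E)) (n2 : τ ∉ img (typ C a) (Pred O' G)) :
    PcStep O O' C a e f := by
  obtain ⟨k0, k1, _, k3, _⟩ := pc_predP h (pc_jmem hJ) hE
  rw [← pc_predP_of_ne k1] at n1
  obtain ⟨E', hE', m3, rfl⟩ := pc_exists_min h (Or.inr k0) n1
  rw [pc_predP_of_ne k1] at n1 hE'
  refine pc_move2 h h' hJ (k3 hE') hG m3 m2 n2 (fun k => m1.2 ?_) fun k => m1.2 ?_
  · rw [he]; exact pc_img_mono _ (h.ht_lt k0 hE').2.1 k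
  · rw [he, ← k]; exact n1
theorem pc_move3 (hE : E ∈ PredP O e) (hG : G ∈ PredP O' f) (m1 : IsMin O C a E)
    (m2 : IsMin O' C a G) (he : typ C a E = typ C a G) (hne : label O C a E ≠ label O' C a G) :
    PcStep O O' C a e f := by
  by_contra hn
  refine hne ?_
  rw [label, label, he]
  congr 1
  ext τ
  constructor <;> intro k <;> by_contra k'
  · exact hn (pc_move3' h h' hJ hE hG m1 m2 he k k')
  · exact hn (pc_ssymm (pc_move3' h' h (pc_jsymm hJ) hG hE m2 m1 he.symm k k'))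
theorem pc_move1 {l : V} (n1 : l ∈ Labels (PredP O e) C a) (n2 : l ∉ Labels (PredP O' f) C a) :
    PcStep O O' C a e f := by
  obtain ⟨E, hE, m1, rfl⟩ := (pc_mem_labelsP h (pc_jmem hJ)).1 n1
  by_cases hc : typ C a E ∈ img (typ C a) (PredP O' f)
  · obtain ⟨G, hG, m2, he⟩ := pc_exists_min h' (pc_jmem (pc_jsymm hJ)) hc
    exact pc_move3 h h' hJ hE hG m1 m2 he.symm fun k =>
      n2 ((pc_mem_labelsP h' (pc_jmem (pc_jsymm hJ))).2 ⟨G, hG, m2, k.symm⟩)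
  · obtain ⟨_, k1, k2, k3, _⟩ := pc_predP h (pc_jmem hJ) hE
    refine ⟨E, f, ⟨Or.inr m1, hJ.2.1, fun _ => hc, fun hf k => hJ.2.2.2.1 hf ?_,
      fun _ hf k => hJ.2.2.2.1 hf (mem_img.2 ⟨E, hE, k⟩)⟩, fun k => k1 k.1,
      Prod.lt_iff.2 (Or.inl ⟨k2, le_rfl⟩)⟩
    rw [pc_predP_of_ne k1] at k
    exact pc_img_mono _ k3 k
theorem pc_step (hn : ¬ Agree (PredP O e) (PredP O' f) C a) : PcStep O O' C a e f := by
  by_contra hs
  have hL : Labels (PredP O e) C a = Labels (PredP O' f) C a := by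
    ext l
    constructor <;> intro k <;> by_contra k'
    · exact hs (pc_move1 h h' hJ k k')
    · exact hs (pc_ssymm (pc_move1 h' h (pc_jsymm hJ) k k'))
  refine hn ⟨hL, fun l hl l' hl' hne => ?_⟩
  rw [hL] at hl'
  obtain ⟨E, hE, m1, rfl⟩ := (pc_mem_labelsP h (pc_jmem hJ)).1 hl
  obtain ⟨G, hG, m2, rfl⟩ := (pc_mem_labelsP h' (pc_jmem (pc_jsymm hJ))).1 hl'
  by_contra hc
  simp only [label, fst_pair, snd_pair, not_or] at hc
  by_cases he : typ C a E = typ C a G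
  · exact hs (pc_move3 h h' hJ hE hG m1 m2 he hne)
  · exact hs (pc_move2 h h' hJ hE hG m1 m2 hc.1 hc.2 he)
end step
/-- resolution of a disagreement -/
theorem resolution {O O' C : V} {a : Ordinal.{0}} (h : OptSec O a) (h' : OptSec O' a)
    (hn : ¬ Agree O O' C a) :
    ∃ e f, JInv O O' C a e f ∧ ¬ (e = ∅ ∧ f = ∅) ∧ Agree (PredP O e) (PredP O' f) C a := by
  have h0 : JInv O O' C a ∅ ∅ :=
    ⟨Or.inl rfl, Or.inl rfl, fun k => absurd rfl k, fun k => absurd rfl k, fun k => absurd rfl k⟩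
  obtain ⟨e₀, f₀, k1, k2, _⟩ := pc_step h h' h0 (by rwa [pc_predP_empty, pc_predP_empty])
  obtain ⟨⟨e, f⟩, ⟨hJ, hne⟩, hm⟩ := (InvImage.wf (fun p : V × V => (pcM p.1, pcM p.2))
    (wellFounded_lt (α := WithTop Ordinal.{0} × WithTop Ordinal.{0}))).has_min
    {p | JInv O O' C a p.1 p.2 ∧ ¬ (p.1 = ∅ ∧ p.2 = ∅)} ⟨(e₀, f₀), k1, k2⟩
  refine ⟨e, f, hJ, hne, by_contra fun hc => ?_⟩
  obtain ⟨e', f', l1, l2, l3⟩ := pc_step h h' hJ hc
  exact hm (e', f') ⟨l1, l2⟩ l3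
-- JOB C END

end Pool.Agent.Lib.MP_f9eb18_lc.W
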