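import Pool.Agent.Lib.MP_f9eb18_lc.W.T

/-! # Realization theorem: survival and break points -/

namespace Pool.Agent.Lib.MP_f9eb18_lc.W

open Ordinal ZFSet Classical
set_option linter.style.haveILetI false
set_option linter.unusedVariables false
set_option synthInstance.maxSize 100000

variable {F : Fr}

/-- value of the numbering of the nodes -/
noncomputable def nv (n : V) (z : Ordinal.{0}) : ℕ := oat n z
/-- least number of a tree successor of `x` (including `x`) -/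
noncomputable def ns (T n : V) (x : Ordinal.{0}) : ℕ :=
  sInf {k : ℕ | ∃ z < lh T, tle T x z ∧ k = nv n z}
/-- `x` survives at `y` -/
def Surv (T n : V) (x y : Ordinal.{0}) : Prop :=
  x = y ∨ (tlt T x y ∧ ns T n x = ns T n y ∧ ∀ z < y, x < z → ¬ tlt T z y → ns T n x < ns T n z)
/-- `x` is a break point at `h` -/
def Brk (T n : V) (x h : Ordinal.{0}) : Prop :=
  ∀ ξ < h, x ≤ ξ → pr T ξ ≤ x → ¬ Surv T n (pr T ξ) (ξ + 1)
/-- the number of future drops in agreement -/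
noncomputable def cn (T n : V) (x h : Ordinal.{0}) : ℕ :=
  sInf {k : ℕ | k = ns T n x + 1 ∨ ∃ z ≤ h, x < z ∧ k = ns T n z}
def NInj (T n : V) : Prop := ∀ x < lh T, ∀ y < lh T, nv n x = nv n y → x = y

section inst
variable {a b : Set V → (ℕ → V) → V} {o q : Set V → (ℕ → V) → Ordinal.{0}}
instance uf_nv [UF F a] [UF F o] : UF F (fun M v => nv (a M v) (o M v)) := by
  unfold nv; infer_instance
instance uf_ns [UF F a] [UF F b] [UF F o] : UF F (fun M v => ns (a M v) (b M v) (o M v)) := by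
  have := UF.lift (F := F) a; have := UF.lift (F := F) b; have := UF.lift (F := F) o
  unfold ns; infer_instance
instance ud_surv [UF F a] [UF F b] [UF F o] [UF F q] :
    UD F (fun M v => Surv (a M v) (b M v) (o M v) (q M v)) := by
  have := UF.lift (F := F) a; have := UF.lift (F := F) b; have := UF.lift (F := F) o
  have := UF.lift (F := F) q; unfold Surv; infer_instance
instance uf_cn [UF F a] [UF F b] [UF F o] [UF F q] :
    UF F (fun M v => cn (a M v) (b M v) (o M v) (q M v)) := by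
  have := UF.lift (F := F) a; have := UF.lift (F := F) b; have := UF.lift (F := F) o
  have := UF.lift (F := F) q; unfold cn; infer_instance
end inst

section comb
variable {T n : V} {P : PM} {x y z h h' l : Ordinal.{0}}

-- JOB A BEGIN
theorem ns_spec (hx : x < lh T) : ∃ z < lh T, tle T x z ∧ ns T n x = nv n z :=
  Nat.sInf_mem (s := {k : ℕ | ∃ z < lh T, tle T x z ∧ k = nv n z}) ⟨_, x, hx, Or.inl rfl, rfl⟩
theorem ns_le (hz : z < lh T) (hxz : tle T x z) : ns T n x ≤ nv n z :=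
  Nat.sInf_le ⟨z, hz, hxz, rfl⟩
theorem IsTree.ns_mono (hT : IsTree T P) (hy : y < lh T) (hxy : tle T x y) :
    ns T n x ≤ ns T n y := by
  obtain ⟨z, hz, k, e⟩ := ns_spec (n := n) hy
  rw [e]
  exact ns_le hz (hT.tle_trans hz hxy k)
theorem Surv.refl (T n : V) (x : Ordinal.{0}) : Surv T n x x := Or.inl rfl
theorem Surv.tle (h : Surv T n x y) : tle T x y := h.imp_right fun k => k.1
theorem Surv.ns_eq (h : Surv T n x y) : ns T n x = ns T n y :=
  h.elim (fun e => by rw [e]) fun k => k.2.1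
theorem Surv.left (hT : IsTree T P) (hz : z < lh T) (h : Surv T n x z) (h1 : W.tle T x y)
    (h2 : W.tle T y z) : Surv T n x y := by
  have hyz := hT.tle_le hz h2
  have hy := hyz.trans_lt hz
  refine h1.imp_right fun k => ⟨k, (hT.ns_mono hy h1).antisymm
    ((hT.ns_mono hz h2).trans h.ns_eq.ge), fun u hu hx hn => ?_⟩
  refine (h.resolve_left ((hx.trans hu).trans_le hyz).ne).2.2 u (hu.trans_le hyz) hx fun c => ?_
  exact hn ((hT.tle_of_le hz (Or.inr c) h2 hu.le).resolve_left hu.ne)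
theorem Surv.right (hT : IsTree T P) (hz : z < lh T) (h : Surv T n x z) (h1 : W.tle T x y)
    (h2 : W.tle T y z) : Surv T n y z := by
  have hy := (hT.tle_le hz h2).trans_lt hz
  have hxy := hT.tle_le hy h1
  have e := (h.left hT hz h1 h2).ns_eq
  refine h2.imp_right fun k => ⟨k, e.symm.trans h.ns_eq, fun u hu hx hn => ?_⟩
  exact e ▸ (h.resolve_left ((hxy.trans_lt hx).trans hu).ne).2.2 u hu (hxy.trans_lt hx) hn
theorem Brk.mono (hb : Brk T n x h) (hle : h' ≤ h) : Brk T n x h' :=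
  fun ξ hξ => hb ξ (hξ.trans_le hle)
theorem r0a_off (hT : IsTree T P) (hh : h + 1 < lh T) (hs : Surv T n (pr T h) (h + 1))
    (h1 : pr T h < z) (h2 : z ≤ h) : ns T n (pr T h) < ns T n z := by
  have k : pr T h < h + 1 := (hT.pr_le h).trans_lt (lt_add_one h)
  exact (hs.resolve_left k.ne).2.2 z (h2.trans_lt (lt_add_one h)) h1 fun c =>
    (hT.tle_le (k.trans hh) ((hT.tlt_succ_iff hh).1 c)).not_gt h1
/-- if the predecessor of `h + 1` survives at `h + 1`, it is a break point at `h` -/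
theorem Surv.brk (hT : IsTree T P) (hh : h + 1 < lh T) (hs : Surv T n (pr T h) (h + 1)) :
    Brk T n (pr T h) h := by
  intro ξ hξ h1 h2 hs'
  have k1 : ξ + 1 ≤ h := Order.add_one_le_of_lt hξ
  have k2 := r0a_off hT hh hs (h1.trans_lt (lt_add_one ξ)) k1
  rw [← hs'.ns_eq] at k2
  rcases h2.eq_or_lt with e | k3
  · rw [e] at k2; exact lt_irrefl _ k2
  · exact k2.not_gt (r0a_off hT ((k1.trans_lt (lt_add_one h)).trans hh) hs' k3 h1)
theorem r0a_cn (T n : V) (x h : Ordinal.{0}) :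
    cn T n x h = ns T n x + 1 ∨ ∃ z ≤ h, x < z ∧ cn T n x h = ns T n z :=
  Nat.sInf_mem (s := {k : ℕ | k = ns T n x + 1 ∨ ∃ z ≤ h, x < z ∧ k = ns T n z}) ⟨_, Or.inl rfl⟩
theorem cn_self (T n : V) (x : Ordinal.{0}) : cn T n x x = ns T n x + 1 :=
  (r0a_cn T n x x).resolve_right fun ⟨_, h1, h2, _⟩ => h1.not_gt h2
theorem cn_anti (T n : V) (x : Ordinal.{0}) (hle : h ≤ h') : cn T n x h' ≤ cn T n x h :=
  Nat.sInf_le ((r0a_cn T n x h).imp_right fun ⟨z, h1, h2⟩ => ⟨z, h1.trans hle, h2⟩)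
theorem Surv.cn_eq (h : Surv T n x y) : cn T n y y = cn T n x x := by
  rw [cn_self, cn_self, h.ns_eq]
theorem Surv.cn_lt (hT : IsTree T P) (hh : h + 1 < lh T) (hs : Surv T n (pr T h) (h + 1))
    (h1 : pr T h ≤ z) (h2 : z ≤ h) : cn T n z (h + 1) < cn T n z h := by
  have k : cn T n z (h + 1) ≤ ns T n (pr T h) :=
    Nat.sInf_le (Or.inr ⟨h + 1, le_rfl, h2.trans_lt (lt_add_one h), hs.ns_eq⟩)
  refine k.trans_lt ?_
  rcases r0a_cn T n z h with e | ⟨u, k1, k2, e⟩
  · rw [e]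
    rcases h1.eq_or_lt with e' | k3
    · rw [e']; exact Nat.lt_succ_self _
    · exact (r0a_off hT hh hs k3 h2).trans (Nat.lt_succ_self _)
  · rw [e]
    exact r0a_off hT hh hs (h1.trans_lt k2) k1
-- JOB A END

-- JOB B BEGIN
theorem r0b_bound {S : Set Ordinal.{0}} (hS : S.Finite) (h0 : 0 < l)
    {Q : Ordinal.{0} → Ordinal.{0} → Prop} (h : ∀ w ∈ S, ∃ β < l, ∀ z, β ≤ z → Q w z) :
    ∃ β < l, ∀ w ∈ S, ∀ z, β ≤ z → Q w z := by
  induction S, hS using Set.Finite.induction_on with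
  | empty => exact ⟨0, h0, fun w hw => hw.elim⟩
  | @insert a s _ _ ih =>
    obtain ⟨β, hβ, h1⟩ := ih fun w hw => h w (Set.mem_insert_of_mem _ hw)
    obtain ⟨γ, hγ, h2⟩ := h a (Set.mem_insert _ _)
    refine ⟨max β γ, max_lt hβ hγ, ?_⟩
    rintro w (rfl | hw) z hz
    · exact h2 z ((le_max_right _ _).trans hz)
    · exact h1 w hw z ((le_max_left _ _).trans hz)
theorem r0b_fin (hn : NInj T n) (k : ℕ) : {w | w < lh T ∧ nv n w ≤ k}.Finite :=
  Set.Finite.of_finite_image (f := nv n) ((Set.finite_Iic k).subset (by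
    rintro _ ⟨w, hw, rfl⟩
    exact hw.2)) fun a ha b hb e => hn a ha.1 b hb.1 e
/-- almost all predecessors of a limit node survive there -/
theorem surv_lim (hT : IsTree T P) (hn : NInj T n) (hl : l < lh T) (hlim : Order.IsSuccLimit l) :
    ∃ β < l, ∀ x, β ≤ x → tlt T x l → Surv T n x l := by
  obtain ⟨β, hβ, H⟩ := r0b_bound (r0b_fin hn (ns T n l)) hlim.bot_lt
    (Q := fun w z => z < l → tle T z w → tlt T z l ∧ ns T n l ≤ nv n w) fun w hw => by
      by_cases hc : ∀ β < l, ∃ γ < l, β ≤ γ ∧ tle T γ w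
      · have h1 : l ≤ w := by
          by_contra h1
          obtain ⟨γ, -, h2, h3⟩ := hc (w + 1) (hlim.add_one_lt (not_le.1 h1))
          exact absurd (hT.tle_le hw.1 h3) (not_le.2 (Order.add_one_le_iff.1 h2))
        have h2 : tle T l w := hT.closed hw.1 hlim h1 fun β hβ => by
          obtain ⟨γ, h2, h3, h4⟩ := hc β hβ
          exact ⟨γ, h2, h3, h4.resolve_left (h2.trans_le h1).ne⟩
        exact ⟨0, hlim.bot_lt, fun z _ hz h3 =>
          ⟨(hT.tle_of_le hw.1 h3 h2 hz.le).resolve_left hz.ne, ns_le hw.1 h2⟩⟩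
      · push Not at hc
        obtain ⟨β, hβ, h1⟩ := hc
        exact ⟨β, hβ, fun z hz h2 h3 => absurd h3 (h1 z h2 hz)⟩
  refine ⟨β, hβ, fun x hx hxl => Or.inr ⟨hxl, ?_⟩⟩
  have hx' := hT.tlt_lt hl hxl
  have e : ns T n x = ns T n l := by
    have h1 := hT.ns_mono (n := n) hl (Or.inr hxl)
    obtain ⟨w, hw, h2, h3⟩ := ns_spec (n := n) (hx'.trans hl)
    exact le_antisymm h1 (h3 ▸ (H w ⟨hw, h3 ▸ h1⟩ x hx hx' h2).2)
  refine ⟨e, fun z hz hxz hnz => ?_⟩
  obtain ⟨w, hw, h2, h3⟩ := ns_spec (n := n) (hz.trans hl)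
  by_contra hc
  exact hnz (H w ⟨hw, by omega⟩ z (hx.trans hxz.le) hz h2).1
theorem r0b_surv (hT : IsTree T P) (hn : NInj T n) (hh : h < lh T)
    (h0 : ∀ u < lh T, nv n h ≤ nv n u) : Surv T n 0 h := by
  rcases hT.zero_tle hh with h1 | h1
  · exact Or.inl h1
  have h2 := ns_le (n := n) hh (Or.inl rfl : tle T h h)
  have h3 := hT.ns_mono (n := n) hh (Or.inr h1)
  obtain ⟨w, hw, -, h4⟩ := ns_spec (n := n) hT.pos
  have h5 := h0 w hw
  refine Or.inr ⟨h1, by omega, fun z hz _ hnz => ?_⟩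
  obtain ⟨u, hu, h6, h7⟩ := ns_spec (n := n) (hz.trans hh)
  have h8 := h0 u hu
  by_contra hc
  have e : u = h := hn u hu h hh (by omega)
  exact hnz ((e ▸ h6 : tle T z h).resolve_left hz.ne)
theorem surv_last (hT : IsTree T P) (hn : NInj T n) (hl : lh T = h + 1) (h0 : nv n h = 0) :
    Surv T n 0 h :=
  r0b_surv hT hn (hl ▸ Order.lt_add_one_iff.2 le_rfl) fun u _ => h0 ▸ Nat.zero_le _
theorem r0b_min (n : V) {S : Set Ordinal.{0}} (hS : S.Nonempty) :
    ∃ y ∈ S, ∀ u ∈ S, nv n y ≤ nv n u :=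
  ⟨Function.argminOn (nv n) S hS, Function.argminOn_mem _ _ _,
    fun u hu => Function.argminOn_le (nv n) S hu⟩
theorem r0b_brk (hT : IsTree T P) (hlim : Order.IsSuccLimit (lh T)) (hx : x < lh T)
    (hg : ∀ u < lh T, x < u → nv n x < nv n u) (hh : h < lh T) : Brk T n x h := by
  intro ξ hξ h1 h2 hs
  have h3 : ξ + 1 < lh T := hlim.add_one_lt (hξ.trans hh)
  have h4 : x < ξ + 1 := Order.lt_add_one_iff.2 h1
  obtain ⟨w, hw, h5, h6⟩ := ns_spec (n := n) h3
  have h7 := hg w hw (h4.trans_le (hT.tle_le hw h5))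
  have h8 := ns_le (n := n) hx (Or.inl rfl : tle T x x)
  rcases hs with hs | ⟨-, e, hs⟩
  · exact absurd (hs ▸ h2) (not_le.2 h4)
  rcases h2.eq_or_lt with h9 | h9
  · rw [h9] at e
    omega
  · have := hs x h4 h9 fun k =>
      absurd (hT.tle_le (h9.trans hx) ((hT.tlt_succ_iff h3).1 k)) (not_le.2 h9)
    omega
theorem exists_brk_seq (hT : IsTree T P) (hn : NInj T n) (hlim : Order.IsSuccLimit (lh T)) :
    ∃ z : ℕ → Ordinal.{0}, StrictMono z ∧ (∀ k, z k < lh T) ∧ Surv T n 0 (z 0) ∧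
      ∀ k, Brk T n (z k) (z (k + 1)) := by
  obtain ⟨z0, h0, h1⟩ := r0b_min n (S := {u | u < lh T}) ⟨0, hT.pos⟩
  have step : ∀ x : {x : Ordinal.{0} // x < lh T ∧ ∀ u < lh T, x < u → nv n x < nv n u},
      ∃ y : {x : Ordinal.{0} // x < lh T ∧ ∀ u < lh T, x < u → nv n x < nv n u}, x.1 < y.1 := by
    intro x
    obtain ⟨y, h2, h3⟩ := r0b_min n (S := {u | u < lh T ∧ x.1 < u})
      ⟨x.1 + 1, hlim.add_one_lt x.2.1, Order.lt_add_one_iff.2 le_rfl⟩
    exact ⟨⟨y, h2.1, fun u hu h4 => lt_of_le_of_ne (h3 u ⟨hu, h2.2.trans h4⟩)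
      fun e => h4.ne (hn y h2.1 u hu e)⟩, h2.2⟩
  choose f hf using step
  let s := fun k : ℕ => f^[k] ⟨z0, h0, fun u hu h4 => lt_of_le_of_ne (h1 u hu)
    fun e => h4.ne (hn z0 h0 u hu e)⟩
  refine ⟨fun k => (s k).1, strictMono_nat_of_lt_succ fun k => ?_, fun k => (s k).2.1,
    r0b_surv hT hn h0 h1, fun k => r0b_brk hT hlim (s k).2.1 (s k).2.2 (s (k + 1)).2.1⟩
  have : s (k + 1) = f (s k) := Function.iterate_succ_apply' f k _
  rw [this]
  exact hf _
theorem exists_numbering (N : Set V) [IsZFC N] (hT : T ∈ HC N) :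
    ∃ n ∈ HC N, NInj T n ∧ ∀ η, lh T = η + 1 → nv n η = 0 := by
  haveI : In (HC N) T := ⟨hT⟩
  have h1 : (lh T).toZFSet ∈ HC N := mem_of (HC N) (lh T)
  obtain ⟨f, hf, hfn, hinj⟩ := z5d_inj h1
  obtain ⟨f1, f2, f3⟩ := isFunc_iff.1 hfn
  haveI : In (HC N) f := ⟨hf⟩
  have e : ∀ x < lh T, nv (sq (lh T) fun o =>
      (if o + 1 = lh T then 0 else natOf (app f o.toZFSet) + 1 : ℕ)) x =
      if x + 1 = lh T then 0 else natOf (app f x.toZFSet) + 1 := fun x hx => oat_sq _ hx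
  refine ⟨sq (lh T) fun o => (if o + 1 = lh T then 0 else natOf (app f o.toZFSet) + 1 : ℕ),
    memV_of (HC N) _, fun x hx y hy k => ?_, fun η hη => ?_⟩
  · rw [e x hx, e y hy] at k
    split_ifs at k with k1 k2 k2
    · exact Order.succ_injective (by simpa using k1.trans k2.symm)
    · have hx' : x.toZFSet ∈ (lh T).toZFSet := toZFSet_mem_toZFSet_iff.2 hx
      have hy' : y.toZFSet ∈ (lh T).toZFSet := toZFSet_mem_toZFSet_iff.2 hy
      obtain ⟨i, hi⟩ := mem_omegaZ.1 (f3 _ hx')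
      obtain ⟨j, hj⟩ := mem_omegaZ.1 (f3 _ hy')
      rw [← hi, ← hj, natOf_natZ, natOf_natZ] at k
      have e' : app f x.toZFSet = app f y.toZFSet := by
        rw [← hi, ← hj, Nat.succ_injective k]
      exact toZFSet_injective (hinj _ _ _ (f1.pair_app_mem (f2 ▸ hx'))
        (e' ▸ f1.pair_app_mem (f2 ▸ hy')))
  · rw [e η (hη ▸ Order.lt_add_one_iff.2 le_rfl), if_pos hη.symm]
-- JOB B END

end comb

end Pool.Agent.Lib.MP_f9eb18_lc.W
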