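import Pool.Agent.Lib.MP_f9eb18_lc.W.R0

/-! # Realization theorem: states, room, agreement and the basic step -/

namespace Pool.Agent.Lib.MP_f9eb18_lc.W

open Ordinal ZFSet Classical
set_option linter.style.haveILetI false
set_option linter.unusedVariables false
set_option synthInstance.maxSize 100000

variable {F : Fr}

/-- a state: background universe, target premouse, realization map -/
structure RSt where
  R : V
  P : PM
  s : V

noncomputable instance : Enc RSt :=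
  ⟨fun σ => enc (σ.R, σ.P, σ.s),
    fun x => let t : V × PM × V := dec x
      ⟨t.1, t.2.1, t.2.2⟩, fun σ => by simp⟩
theorem enc_St (σ : RSt) : enc σ = enc (σ.R, σ.P, σ.s) := rfl
section st
variable {p : Set V → (ℕ → V) → RSt}
theorem uf_stT [h : UF F p] : UF F (fun M v => ((p M v).R, (p M v).P, (p M v).s)) := ⟨h.cl, h.gr⟩
instance uf_stR [UF F p] : UF F (fun M v => (p M v).R) := @UF.p1 F _ _ _ _ _ uf_stT
instance uf_stP [UF F p] : UF F (fun M v => (p M v).P) :=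
  @UF.p1 F _ _ _ _ _ (@UF.p2 F _ _ _ _ _ uf_stT)
instance uf_sts [UF F p] : UF F (fun M v => (p M v).s) :=
  @UF.p2 F _ _ _ _ _ (@UF.p2 F _ _ _ _ _ uf_stT)
instance uf_stMk {a c : Set V → (ℕ → V) → V} {b : Set V → (ℕ → V) → PM} [UF F a] [UF F b]
    [UF F c] : UF F (fun M v => RSt.mk (a M v) (b M v) (c M v)) :=
  have h : UF F (fun M v => (a M v, b M v, c M v)) := inferInstance
  ⟨h.cl, h.gr⟩
end st
noncomputable instance : Cd RSt := ⟨fun F => (inferInstance : UF F (fun _ v => RSt.mk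
  (dec (vr v 0) : V × PM × V).1 (dec (vr v 0) : V × PM × V).2.1 (dec (vr v 0) : V × PM × V).2.2))⟩

/-- the state of node `z` in the sequence `G` -/
noncomputable def st (G : V) (z : Ordinal.{0}) : RSt := oat G z
/-- `t' ∘ i_{x,y} = t` -/
def Comm (T : V) (x y : Ordinal.{0}) (t t' : V) : Prop :=
  ∀ u ∈ (pmT T x).M, app t' (app (im T x y) u) = app t u
def Below (T n p q : V) : Prop :=
  tlt T (fst q).rank (fst p).rank ∧ ¬ Surv T n (fst q).rank (fst p).rank ∧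
    Comm T (fst q).rank (fst p).rank (snd q) (snd p)
noncomputable def attD (T : V) (P : PM) (Y : V) : V :=
  rel (lh T).toZFSet Y (fun y t => ElemPM t (pmT T y.rank) P)
/-- the tree of attempts to build a realizable branch with infinitely many non-survivals -/
noncomputable def att (T n : V) (P : PM) (Y : V) : V := rel (attD T P Y) (attD T P Y) (Below T n)
noncomputable def rrho (T n : V) (P : PM) (Y : V) (x : Ordinal.{0}) (s : V) : Ordinal.{0} :=
  rkR (att T n P Y) (pair x.toZFSet s)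
/-- the required room -/
noncomputable def need (T n : V) (P : PM) (Y : V) (x : Ordinal.{0}) (s : V) (c : ℕ) : Ordinal.{0} :=
  P.M.rank + ω * ω * (rrho T n P Y x s + 1) + ω * (c : Ordinal.{0})

structure StIn (M : Set V) (T n : V) (μ x : Ordinal.{0}) (c : ℕ) (P : PM) (s : V) : Prop where
  T_mem : T ∈ M
  n_mem : n ∈ M
  pm : IsPM P
  P_mem : enc P ∈ M
  s_mem : s ∈ M
  elem : ElemPM s (pmT T x) P
  mu : P.mu = μ
  bkg : Bkg M P.A μ
  room0 : Room M (P.M.rank + ω)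
  acc : AccP (preds (att T n P (Vs M (P.M.rank + ω)))) (pair x.toZFSet s)
  room : Room M (need T n P (Vs M (P.M.rank + ω)) x s c)

structure StOK (M : Set V) (T n : V) (μ x : Ordinal.{0}) (c : ℕ) (σ : RSt) : Prop where
  isT : IsT (σ.R : Set V)
  omcl : OmCl M σ.R
  inn : StIn (σ.R : Set V) T n μ x c σ.P σ.s

/-- the level of agreement -/
noncomputable def nu (T : V) (x : Ordinal.{0}) (c : ℕ) (s : V) : Ordinal.{0} :=
  jm (app s) (idx T x) + ω * ((c + 1 : ℕ) : Ordinal.{0})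
def AgrM (T : V) (x : Ordinal.{0}) (s t : V) : Prop :=
  ∀ u ∈ (pmT T x).M, u.rank < idx T x + ω → app s u = app t u
def Agr2 (T : V) (x : Ordinal.{0}) (c : ℕ) (σ τ : RSt) : Prop :=
  cut σ.R (nu T x c σ.s) = cut τ.R (nu T x c σ.s) ∧ AgrM T x σ.s τ.s
/-- `G` realizes the tree up to node `h` -/
def Real (M : Set V) (T n : V) (μ : Ordinal.{0}) (G : V) (h : Ordinal.{0}) : Prop :=
  (∀ z ≤ h, StOK M T n μ z (cn T n z h) (st G z)) ∧
    ∀ x < h, Agr2 T x (cn T n x h) (st G x) (st G h)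

structure RCtx (N : Set V) (T n : V) (μ : Ordinal.{0}) (P₀ : PM) : Prop where
  tree : IsTree T P₀
  T_mem : T ∈ HC N
  n_mem : n ∈ HC N
  inj : NInj T n
  inac : Inac N μ

/-- the outcome of the basic step at node `h`: `σ` is the state of the predecessor of `h + 1` and
`τ` is the state of `h` -/
structure Step (N : Set V) (T : V) (μ h : Ordinal.{0}) (σ τ : RSt) (R' i s' : V) : Prop where
  mem : R' ∈ N
  isT : IsT (R' : Set V)
  omcl : OmCl N R'
  elem : IsElem i σ.R R'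
  fix : ∀ u ∈ σ.R, u.rank ≤ μ → app i u = u
  cut : cut R' (jm (app τ.s) (idx T h) + μ) = cut τ.R (jm (app τ.s) (idx T h) + μ)
  s_mem : s' ∈ R'
  selem : ElemPM s' (pmT T (h + 1)) (jm (app i) σ.P)
  comm : Comm T (pr T h) (h + 1) (app i σ.s) s'
  agr : AgrM T h τ.s s'

section inst
variable {a b c d : Set V → (ℕ → V) → V} {o q : Set V → (ℕ → V) → Ordinal.{0}}
  {k : Set V → (ℕ → V) → ℕ} {p : Set V → (ℕ → V) → PM} {σ τ : Set V → (ℕ → V) → RSt}
  {D : Set V → (ℕ → V) → Set V}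
instance uf_st [UF F a] [UF F o] : UF F (fun M v => st (a M v) (o M v)) := by
  unfold st; infer_instance
instance ud_comm [UF F a] [UF F o] [UF F q] [UF F b] [UF F c] :
    UD F (fun M v => Comm (a M v) (o M v) (q M v) (b M v) (c M v)) := by
  have := UF.lift (F := F) a; have := UF.lift (F := F) o; have := UF.lift (F := F) q
  have := UF.lift (F := F) b; have := UF.lift (F := F) c; unfold Comm; infer_instance
instance ud_below [UF F a] [UF F b] [UF F c] [UF F d] :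
    UD F (fun M v => Below (a M v) (b M v) (c M v) (d M v)) := by
  unfold Below; infer_instance
instance uf_attD [UF F a] [UF F p] [UF F b] : UF F (fun M v => attD (a M v) (p M v) (b M v)) := by
  have := UF.lift (F := F) a; have := UF.lift (F := F) p; unfold attD; infer_instance
instance uf_att [UF F a] [UF F b] [UF F p] [UF F c] :
    UF F (fun M v => att (a M v) (b M v) (p M v) (c M v)) := by
  have := UF.lift (F := F) a; have := UF.lift (F := F) b; unfold att; infer_instance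
instance uf_rho [UF F a] [UF F b] [UF F p] [UF F c] [UF F o] [UF F d] :
    UF F (fun M v => rrho (a M v) (b M v) (p M v) (c M v) (o M v) (d M v)) := by
  unfold rrho; infer_instance
instance uf_need [UF F a] [UF F b] [UF F p] [UF F c] [UF F o] [UF F d] [UF F k] :
    UF F (fun M v => need (a M v) (b M v) (p M v) (c M v) (o M v) (d M v) (k M v)) := by
  unfold need; infer_instance
instance ud_roomC [UC F D] [UF F o] : UD F (fun M v => Room (D M v) (o M v)) := by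
  have := UC.lift (F := F) D; have := UF.lift (F := F) o
  exact (inferInstance : UD F (fun M v => ∃ Y ∈ D M v, Y = Vs (D M v) (o M v))).congr
    fun M _ v _ => ⟨fun h => ⟨_, h, rfl⟩, fun ⟨Y, hY, e⟩ => by unfold Room; exact e ▸ hY⟩
instance ud_stIn [UC F D] [UF F a] [UF F b] [UF F o] [UF F q] [UF F k] [UF F p] [UF F c] :
    UD F (fun M v => StIn (D M v) (a M v) (b M v) (o M v) (q M v) (k M v) (p M v) (c M v)) := by
  have := UC.lift (F := F) D; have := UF.lift (F := F) a; have := UF.lift (F := F) b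
  have := UF.lift (F := F) o; have := UF.lift (F := F) q; have := UF.lift (F := F) k
  have := UF.lift (F := F) p; have := UF.lift (F := F) c
  exact (inferInstance : UD F (fun M v => a M v ∈ D M v ∧ b M v ∈ D M v ∧ IsPM (p M v) ∧
    enc (p M v) ∈ D M v ∧ c M v ∈ D M v ∧ ElemPM (c M v) (pmT (a M v) (q M v)) (p M v) ∧
    (p M v).mu = o M v ∧ Bkg (D M v) (p M v).A (o M v) ∧
    ∃ Y ∈ D M v, Y = Vs (D M v) ((p M v).M.rank + ω) ∧
      AccP (preds (att (a M v) (b M v) (p M v) Y)) (pair (q M v).toZFSet (c M v)) ∧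
      Room (D M v) (need (a M v) (b M v) (p M v) Y (q M v) (c M v) (k M v)))).congr
    fun M _ v _ => ⟨fun h => ⟨h.1, h.2, h.3, h.4, h.5, h.6, h.7, h.8, _, h.9, rfl, h.10, h.11⟩,
      fun ⟨h1, h2, h3, h4, h5, h6, h7, h8, Y, hY, e, h10, h11⟩ => by
        subst e; exact ⟨h1, h2, h3, h4, h5, h6, h7, h8, hY, h10, h11⟩⟩
instance ud_stOK [UC F D] [UF F a] [UF F b] [UF F o] [UF F q] [UF F k] [UF F σ] :
    UD F (fun M v => StOK (D M v) (a M v) (b M v) (o M v) (q M v) (k M v) (σ M v)) :=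
  (inferInstance : UD F (fun M v => IsT ((σ M v).R : Set V) ∧ OmCl (D M v) (σ M v).R ∧
    StIn ((σ M v).R : Set V) (a M v) (b M v) (o M v) (q M v) (k M v) (σ M v).P (σ M v).s)).congr
    fun M _ v _ => ⟨fun h => ⟨h.1, h.2, h.3⟩, fun h => ⟨h.1, h.2.1, h.2.2⟩⟩
instance uf_nu [UF F a] [UF F o] [UF F k] [UF F b] :
    UF F (fun M v => nu (a M v) (o M v) (k M v) (b M v)) := by
  unfold nu; infer_instance
instance ud_agrM [UF F a] [UF F o] [UF F b] [UF F c] :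
    UD F (fun M v => AgrM (a M v) (o M v) (b M v) (c M v)) := by
  have := UF.lift (F := F) a; have := UF.lift (F := F) o
  have := UF.lift (F := F) b; have := UF.lift (F := F) c; unfold AgrM; infer_instance
instance ud_agr2 [UF F a] [UF F o] [UF F k] [UF F σ] [UF F τ] :
    UD F (fun M v => Agr2 (a M v) (o M v) (k M v) (σ M v) (τ M v)) := by
  unfold Agr2; infer_instance
instance ud_real [UC F D] [UF F a] [UF F b] [UF F o] [UF F c] [UF F q] :
    UD F (fun M v => Real (D M v) (a M v) (b M v) (o M v) (c M v) (q M v)) := by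
  have := UC.lift (F := F) D; have := UF.lift (F := F) a; have := UF.lift (F := F) b
  have := UF.lift (F := F) o; have := UF.lift (F := F) q; have := UF.lift (F := F) c
  unfold Real; infer_instance
end inst

section main
variable {N M : Set V} {T n G s t u : V} {P P₀ Q : PM} {μ x y z h l a : Ordinal.{0}} {c c' : ℕ}
  {σ τ υ : RSt}

-- JOB A BEGIN
theorem enc_St_mem (N : Set V) [IsZ N] : enc σ ∈ N ↔ σ.R ∈ N ∧ enc σ.P ∈ N ∧ σ.s ∈ N := by
  rw [enc_St, enc_prod, enc_prod, IsZ.pair_mem_iff, IsZ.pair_mem_iff]; rfl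
theorem enc_st_mem (N : Set V) [IsZ N] (hG : G ∈ N) (z : Ordinal.{0}) : enc (st G z) ∈ N := by
  haveI : In N (app G z.toZFSet) := ⟨IsZ.app_mem N hG _⟩
  exact mem_of N (dec (app G z.toZFSet) : RSt)
theorem rank_pmT_le (T : V) (x : Ordinal.{0}) : (pmT T x).M.rank ≤ T.rank :=
  (rank_fst_le _).trans ((rank_fst_le _).trans (rank_app_le T x.toZFSet))
theorem lh_le_rank (T : V) : lh T ≤ T.rank :=
  (rank_mono sep_subset).trans ((rank_sUnion_le _).trans (rank_sUnion_le _))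
theorem RCtx.rank_T [IsZFC N] (C : RCtx N T n μ P₀) : T.rank < μ :=
  (rank_lt_om1 C.T_mem).trans C.inac.om1_lt
theorem RCtx.rank_n [IsZFC N] (C : RCtx N T n μ P₀) : n.rank < μ :=
  (rank_lt_om1 C.n_mem).trans C.inac.om1_lt
theorem RCtx.ord_mem [IsZFC N] (C : RCtx N T n μ P₀) (hx : x ≤ lh T) : x.toZFSet ∈ HC N :=
  ord_mem_HC.2 ((hx.trans (lh_le_rank T)).trans_lt (rank_lt_om1 C.T_mem))
theorem r1a_fn {A B : V} (hf : IsFunc A B s) {p : V} (hp : p ∈ s) :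
    ∃ a ∈ A, ∃ b ∈ B, p = pair a b := by
  simpa [mem_prod] using hf.1 hp
theorem ElemPM.rank_lt (hP : IsPM P) (hQ : IsPM Q) (h : ElemPM s P Q) : s.rank < Q.M.rank + ω := by
  haveI := hP.isT
  haveI := hQ.isT
  have j := h.elem.elem
  refine lt_of_le_of_lt (rank_le_iff.2 fun p hp => ?_)
    ((add_lt_add_iff_left Q.M.rank).2 (natCast_lt_omega0 3))
  obtain ⟨a, ha, b, hb, rfl⟩ := r1a_fn h.elem.1 hp
  have h1 : a.rank < Q.M.rank := by
    refine lt_of_le_of_lt ?_ (rank_lt_of_mem (j.1 a ha))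
    rw [j.rank_map ha]; exact j.le_jm (IsZ.rank_mem _ ha)
  rw [rank_zpair]
  have : max a.rank b.rank + 2 ≤ Q.M.rank + 2 :=
    add_le_add_left (max_le h1.le (rank_lt_of_mem hb).le) _
  exact this.trans_lt ((add_lt_add_iff_left _).2 (by exact_mod_cast (by norm_num : (2 : ℕ) < 3)))
/-- a realization map of a node lies in every `ω`-closed universe containing its target -/
theorem RCtx.map_mem [IsZFC N] (C : RCtx N T n μ P₀) {R : V} [IsZ (R : Set V)] (hR : OmCl N R)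
    {A : V} (hA : A ∈ HC N) {H : V} (hH : H ∈ R) (hs : s ∈ N) (he : IsElem s A H) : s ∈ R := by
  have hf := isFunc_iff.1 he.1
  haveI : In N s := ⟨hs⟩
  refine hR.mem_of_ctbl (InjIn.trans ⟨lam s fst, memV_of N _, isInj_lam (fun p hp => ?_)
    fun p hp q hq e => ?_⟩ (mem_HC_iff.1 hA).1) fun p hp => ?_
  · obtain ⟨a, ha, b, hb, rfl⟩ := r1a_fn he.1 hp
    simpa using ha
  · obtain ⟨a, ha, b, hb, rfl⟩ := r1a_fn he.1 hp
    obtain ⟨a', ha', b', hb', rfl⟩ := r1a_fn he.1 hq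
    simp only [fst_pair] at e
    subst e
    rw [← hf.1.app_eq hp, ← hf.1.app_eq hq]
  · obtain ⟨a, ha, b, hb, rfl⟩ := r1a_fn he.1 hp
    exact (IsZ.pair_mem_iff (R : Set V)).2 ⟨hR.HC_subset ((mem_HC_iff.1 hA).2 a ha),
      IsZ.trans (M := (R : Set V)) _ hH _ hb⟩
theorem Comm.refl (hT : IsTree T P₀) (hx : x < lh T) (s : V) : Comm T x x s s :=
  fun w hw => by rw [hT.im_self x hx w hw]
theorem Comm.trans (hT : IsTree T P₀) (hz : z < lh T) (hxy : tle T x y) (hyz : tle T y z)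
    (h : Comm T x y s t) (h' : Comm T y z t u) : Comm T x z s u := by
  intro w hw
  have h1 := hT.tle_le hz hyz
  have hy := h1.trans_lt hz
  have h2 := hT.tle_le hy hxy
  rw [← hT.comm z hz y h1 x h2 hyz hxy w hw, h' _ ((hT.elem y hy x h2 hxy).elem.elem.1 w hw), h w hw]
theorem StIn.mono [IsZ M] (h : StIn M T n μ x c P s) (hc : c' ≤ c) : StIn M T n μ x c' P s :=
  { h with room := h.room.mono (add_le_add_right (mul_le_mul_right (by exact_mod_cast hc) _) _) }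
theorem StOK.mono (h : StOK M T n μ x c σ) (hc : c' ≤ c) : StOK M T n μ x c' σ :=
  haveI := h.isT
  ⟨h.isT, h.omcl, h.inn.mono hc⟩
theorem r1a_att {Y p : V} : pair p (pair x.toZFSet s) ∈ att T n P Y ↔
    p ∈ attD T P Y ∧ pair x.toZFSet s ∈ attD T P Y ∧ tlt T x (fst p).rank ∧
      ¬ Surv T n x (fst p).rank ∧ Comm T x (fst p).rank s (snd p) := by
  simp [att, Below]
theorem r1a_attD {Y : V} : pair x.toZFSet s ∈ attD T P Y ↔
    x < lh T ∧ s ∈ Y ∧ ElemPM s (pmT T x) P := by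
  simp [attD, toZFSet_mem_toZFSet_iff]
theorem r1a_lt {Y p : V} (h : p ∈ attD T P Y) : (fst p).rank < lh T := by
  obtain ⟨a, ha, b, -, rfl, -⟩ := mem_rel.1 h
  simpa using rank_lt_of_mem ha
/-- a non-survival lowers the rank, which pays for any finite number of future drops -/
theorem StIn.drop [IsZ M] (hT : IsTree T P₀) (h : StIn M T n μ x c P s) (hy : y < lh T)
    (hxy : tlt T x y) (hs : ¬ Surv T n x y) (ht : t ∈ M) (he : ElemPM t (pmT T y) P)
    (hc : Comm T x y s t) (c' : ℕ) : StIn M T n μ y c' P t := by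
  have hx := (hT.tlt_lt hy hxy).trans hy
  have key : pair (pair y.toZFSet t) (pair x.toZFSet s) ∈ att T n P (Vs M (P.M.rank + ω)) :=
    r1a_att.2 ⟨r1a_attD.2 ⟨hy, mem_Vs.2 ⟨ht, he.rank_lt (hT.pm y hy) h.pm⟩, he⟩,
      r1a_attD.2 ⟨hx, mem_Vs.2 ⟨h.s_mem, h.elem.rank_lt (hT.pm x hx) h.pm⟩, h.elem⟩,
      by simpa using hxy, by simpa using hs, by simpa using hc⟩
  refine ⟨h.T_mem, h.n_mem, h.pm, h.P_mem, ht, he, h.mu, h.bkg, h.room0,
    h.acc.inv (mem_preds.2 key), h.room.mono ?_⟩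
  have h1 : rrho T n P (Vs M (P.M.rank + ω)) y t + 1 ≤ rrho T n P (Vs M (P.M.rank + ω)) x s :=
    Order.add_one_le_iff.2 (rkR_lt h.acc key)
  unfold need
  refine le_trans ?_ le_self_add
  rw [add_assoc, mul_add_one (ω * ω) (rrho T n P _ x s)]
  exact add_le_add_right (add_le_add (mul_le_mul_right h1 _)
    (mul_le_mul_right (natCast_lt_omega0 c').le _)) _
/-- a survival does not raise the rank -/
theorem StIn.keep [IsZ M] (hT : IsTree T P₀) (h : StIn M T n μ x c P s) (hy : y < lh T)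
    (hs : Surv T n x y) (ht : t ∈ M) (he : ElemPM t (pmT T y) P) (hc : Comm T x y s t) :
    StIn M T n μ y c P t := by
  have hxy := hT.tle_le hy hs.tle
  have hx := hxy.trans_lt hy
  have key : ∀ p, pair p (pair y.toZFSet t) ∈ att T n P (Vs M (P.M.rank + ω)) →
      pair p (pair x.toZFSet s) ∈ att T n P (Vs M (P.M.rank + ω)) := by
    intro p hp
    obtain ⟨h1, -, h3, h4, h5⟩ := r1a_att.1 hp
    have hw := r1a_lt h1
    have h6 := hT.tle_trans hw hs.tle (Or.inr h3)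
    exact r1a_att.2 ⟨h1,
      r1a_attD.2 ⟨hx, mem_Vs.2 ⟨h.s_mem, h.elem.rank_lt (hT.pm x hx) h.pm⟩, h.elem⟩,
      h6.resolve_left (hxy.trans_lt (hT.tlt_lt hw h3)).ne,
      fun k => h4 (k.right hT hw hs.tle (Or.inr h3)), hc.trans hT hw hs.tle (Or.inr h3) h5⟩
  have hacc : AccP (preds (att T n P (Vs M (P.M.rank + ω)))) (pair y.toZFSet t) :=
    Acc.intro _ fun p hp => h.acc.inv (mem_preds.2 (key p (mem_preds.1 hp)))
  refine ⟨h.T_mem, h.n_mem, h.pm, h.P_mem, ht, he, h.mu, h.bkg, h.room0, hacc, h.room.mono ?_⟩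
  have h1 : rrho T n P (Vs M (P.M.rank + ω)) y t ≤ rrho T n P (Vs M (P.M.rank + ω)) x s :=
    (rkR_le_iff hacc).2 fun p hp => rkR_lt h.acc (key p hp)
  exact add_le_add_left (add_le_add_right (mul_le_mul_right (add_le_add_left h1 _) _) _) _
theorem StIn.map_iff {j : V → V} {M' : Set V} [IsZ M] [IsZ M'] (hj : Elem j M M')
    (hfix : ∀ u ∈ M, u.rank ≤ μ → j u = u) (hT : T ∈ M) (hn : n ∈ M) (hμ : μ.toZFSet ∈ M)
    (hP : enc P ∈ M) (hs : s ∈ M) (rT : T.rank < μ) (rn : n.rank < μ) (hx : x ≤ lh T) :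
    StIn M T n μ x c P s ↔ StIn M' T n μ x c (jm j P) (j s) := by
  have hxμ : x ≤ μ := (hx.trans (lh_le_rank T)).trans rT.le
  have hxM : x.toZFSet ∈ M := IsZ.ord_mem_of_le M hμ hxμ
  haveI : In M T := ⟨hT⟩
  haveI : In M n := ⟨hn⟩
  haveI : In M μ := ⟨hμ⟩
  have hK : enc (T, n, μ) ∈ M := mem_of M _
  have h1 := hj.iff5 pZ (fun M (K : V × V × Ordinal.{0}) (x : Ordinal.{0}) (c : ℕ) (P : PM)
    (s : V) => StIn M K.1 K.2.1 K.2.2 x c P s) hK (b := x) hxM (c := c) (IsZ.natZ_mem M c) hP hs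
  have e1 : jm j μ = μ := jm_of_fix (hfix _ hμ (rank_toZFSet μ).le)
  have e2 : jm j x = x := jm_of_fix (hfix _ hxM ((rank_toZFSet x).trans_le hxμ))
  rw [hj.jm_prod (a := T) hT (mem_of M (n, μ)), hj.jm_prod (a := n) hn hμ, e1, e2, hj.jm_nat,
    jm_V, jm_V, jm_V, hfix T hT rT.le, hfix n hn rn.le] at h1
  exact h1
theorem StIn.M_mem [IsZ M] (h : StIn M T n μ x c P s) : P.M ∈ M := ((enc_PM_mem M).1 h.P_mem).1
theorem StIn.mu_mem [IsZ M] (h : StIn M T n μ x c P s) : μ.toZFSet ∈ M :=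
  h.mu ▸ ((enc_PM_mem M).1 h.P_mem).2.2.1
-- JOB A END

-- JOB B BEGIN
theorem nu_limit (T : V) (x : Ordinal.{0}) (c : ℕ) (s : V) : Order.IsSuccLimit (nu T x c s) :=
  isSuccLimit_add _ (isSuccLimit_mul_left isSuccLimit_omega0 (by exact_mod_cast c.succ_pos))
theorem nu_mono (T : V) (x : Ordinal.{0}) (s : V) (hc : c' ≤ c) : nu T x c' s ≤ nu T x c s :=
  add_le_add_right (mul_le_mul_right (Nat.cast_le.2 (Nat.succ_le_succ hc)) _) _
theorem nu_succ (T : V) (x : Ordinal.{0}) (c : ℕ) (s : V) : nu T x c s + ω = nu T x (c + 1) s := by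
  rw [nu, nu, add_assoc, Nat.cast_add_one (c + 1), mul_add_one]
theorem r1b_lt (c : ℕ) : ω * (c : Ordinal.{0}) < ω * ω :=
  (mul_lt_mul_iff_right₀ omega0_pos).2 (natCast_lt_omega0 c)
theorem r1b_le (T : V) (x : Ordinal.{0}) (c : ℕ) (s : V) :
    jm (app s) (idx T x) + ω ≤ nu T x c s :=
  add_le_add_right (le_mul_left _ (by exact_mod_cast c.succ_pos)) _
theorem r1b_mu (hT : IsTree T P₀) : ω ≤ P₀.mu :=
  (le_mul_left _ omega0_pos).trans (hT.root ▸ hT.pm 0 hT.pos).mu_ge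
theorem r1b_idx (hT : IsTree T P₀) (hx : x + 1 < lh T) : (idx T x).toZFSet ∈ (pmT T x).M :=
  have h := hT.pm x ((lt_add_one x).trans hx)
  haveI := h.isT
  IsZ.ord_mem_of_le ((pmT T x).M : Set V) h.th_mem
    (hT.legal x ((lt_add_one x).trans hx) hx).2.2.1.le
theorem r1b_rk (o : Ordinal.{0}) : o.toZFSet.rank < o + ω := by
  rw [rank_toZFSet]; exact lt_add_of_pos_right _ omega0_pos
theorem r1b_low (hT : IsTree T P₀) (hy : y < lh T) (hxy : x < y) (hu : u ∈ (pmT T x).M)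
    (hr : u.rank < idx T x + ω) : u ∈ (pmT T y).M :=
  (mem_cut.1 ((hT.agr hy hxy).M ▸ mem_cut.2
    ⟨hu, hr.trans_le (add_le_add_right (r1b_mu hT) _)⟩ : u ∈ cut (pmT T y).M _)).1
theorem r1b_succ (hy : y + 1 < l) (hxy : x ≤ y) : x + 1 < l :=
  (add_le_add_left hxy 1).trans_lt hy
theorem r1b_mono (hT : IsTree T P₀) (hy : y + 1 < lh T) (hxy : x ≤ y) : idx T x ≤ idx T y :=
  hxy.eq_or_lt.elim (fun e => by rw [e]) fun k => (hT.idx_lt hy k).le
theorem nu_le_add (T : V) (x : Ordinal.{0}) (c : ℕ) (s : V) (hμ : ω * ω ≤ μ) :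
    nu T x c s ≤ jm (app s) (idx T x) + μ := add_le_add_right ((r1b_lt _).le.trans hμ) _
theorem IsTree.idx_mem (hT : IsTree T P₀) (hx : x + 1 < lh T) (hy : y < lh T) (hxy : x ≤ y) :
    (idx T x).toZFSet ∈ (pmT T y).M :=
  hxy.eq_or_lt.elim (fun e => e ▸ r1b_idx hT hx) fun k =>
    r1b_low hT hy k (r1b_idx hT hx) (r1b_rk _)
/-- `y` is `x` or any later node -/
theorem nu_le (hT : IsTree T P₀) (hx : x + 1 < lh T) (hy : y < lh T) (hxy : x ≤ y) (hP : IsPM P)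
    (he : ElemPM s (pmT T y) P) (c : ℕ) : nu T x c s ≤ P.M.rank + ω * ω := by
  haveI := hP.isT
  haveI := (hT.pm y hy).isT
  have h1 := hT.idx_mem hx hy hxy
  have h2 := rank_lt_of_mem (he.elem.elem.1 _ h1)
  rw [he.elem.elem.map_ord h1, rank_toZFSet] at h2
  exact add_le_add h2.le (r1b_lt _).le
theorem nu_le_jm (hT : IsTree T P₀) (hy : y + 1 < lh T) (hxy : x < y) (hP : IsPM P)
    (he : ElemPM s (pmT T y) P) (c : ℕ) : nu T x c s ≤ jm (app s) (idx T y) := by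
  have hy' := (lt_add_one y).trans hy
  haveI := hP.isT
  haveI := (hT.pm y hy').isT
  have h1 := hT.idx_mem (r1b_succ hy hxy.le) hy' hxy.le
  have h2 := r1b_idx hT hy
  have h3 := (he.elem.elem.iff1 pZ (fun _ (a : Ordinal.{0}) => IsI a) h2).1 (hT.legal y hy' hy).1
  exact (h3.2 _ ((he.elem.elem.jm_lt h1 h2).2 (hT.idx_lt hy hxy)) _ ((r1b_lt _).trans h3.1)).le
theorem rank_app_lt_nu (hT : IsTree T P₀) (hx : x + 1 < lh T) (hP : IsPM P)
    (he : ElemPM s (pmT T x) P) (hu : u ∈ (pmT T x).M) (hr : u.rank < idx T x + ω) (c : ℕ) :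
    (app s u).rank < nu T x c s := by
  haveI := hP.isT
  haveI := (hT.pm x ((lt_add_one x).trans hx)).isT
  have h1 := r1b_idx hT hx
  haveI : In ((pmT T x).M : Set V) (idx T x) := ⟨h1⟩
  have h2 := (he.elem.elem.jm_lt (IsZ.rank_mem _ hu)
    (mem_of ((pmT T x).M : Set V) (idx T x + ω))).2 hr
  rw [← he.elem.elem.rank_map hu, he.elem.elem.jm_add h1 IsZ.omega, he.elem.elem.jm_omega] at h2
  exact h2.trans_le (r1b_le T x c s)
theorem IsTree.mem_of_low (hT : IsTree T P₀) (hy : y < lh T) (hxy : x < y) (hu : u ∈ (pmT T x).M)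
    (hr : u.rank < idx T x + ω) : u ∈ (pmT T y).M := r1b_low hT hy hxy hu hr
/-- if `E_h` is a genuine extender, the levels from its predecessor on are above `μ` -/
theorem mu_lt_nu (hT : IsTree T P₀) (hh : h + 1 < lh T) (hE : exT T h ≠ ∅) (h1 : pr T h ≤ z)
    (h2 : z ≤ h) (hP : IsPM P) (he : ElemPM s (pmT T z) P) (c : ℕ) : P.mu < nu T z c s := by
  have hh' := (lt_add_one h).trans hh
  have hz := r1b_succ hh h2
  have hz' := h2.trans_lt hh'
  haveI := hP.isT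
  haveI := (hT.pm z hz').isT
  have h3 := (mem_optAt.1 ((hT.legal h hh' hh).2.2.2.resolve_left hE)).lt (hT.pm h hh').shape
  have h4 : crit (exT T h) ≤ idx T (pr T h) := by
    rcases (hT.pr_le h).eq_or_lt with e | k
    · rw [e]; exact h3.2.1.le
    · rw [pr, prd, if_neg hE] at k ⊢
      exact olst_spec k
  have h5 : (pmT T z).mu < idx T z := by
    rw [hT.mu_eq hz', ← hT.mu_eq hh']
    exact h3.1.trans_le (h4.trans (r1b_mono hT hz h1))
  rw [← he.mu]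
  exact ((he.elem.elem.jm_lt (hT.pm z hz').mu_mem (r1b_idx hT hz)).2 h5).trans_le le_self_add
theorem AgrM.nu_eq (hT : IsTree T P₀) (hx : x + 1 < lh T) (h : AgrM T x s t) (c : ℕ) :
    nu T x c s = nu T x c t := by
  rw [nu, nu, jm_congr (a := idx T x) (h _ (r1b_idx hT hx) (r1b_rk _))]
theorem AgrM.low (hT : IsTree T P₀) (hy : y + 1 < lh T) (hxy : x ≤ y) (h : AgrM T y s t) :
    AgrM T x s t := fun u hu hr =>
  h u (hxy.eq_or_lt.elim (fun e => e ▸ hu) fun k => r1b_low hT ((lt_add_one y).trans hy) k hu hr)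
    (hr.trans_le (add_le_add_left (r1b_mono hT hy hxy) _))
/-- later tree maps do not disturb the agreement at `x` -/
theorem Comm.agrM (hT : IsTree T P₀) (hz : z < lh T) (hyz : tle T y z) (hxy : x < y)
    (h : Comm T y z s t) : AgrM T x s t := fun u hu hr => by
  have h1 := r1b_low hT ((hT.tle_le hz hyz).trans_lt hz) hxy hu hr
  rw [← h u h1, hT.fix_low hz hyz hxy h1 (hr.trans_le (add_le_add_right (r1b_mu hT) _))]
theorem Agr2.refl (T : V) (x : Ordinal.{0}) (c : ℕ) (σ : RSt) : Agr2 T x c σ σ :=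
  ⟨rfl, fun _ _ _ => rfl⟩
theorem Agr2.mono (h : Agr2 T x c σ τ) (hc : c' ≤ c) : Agr2 T x c' σ τ :=
  ⟨td_cut_mono h.1 (nu_mono T x _ hc), h.2⟩
theorem r1b_cut (hT : IsTree T P₀) (hy : y + 1 < lh T) (hxy : x < y) (hP : IsPM τ.P)
    (he : ElemPM τ.s (pmT T y) τ.P) (h : AgrM T x s τ.s) (h' : Agr2 T y c' τ υ) :
    cut τ.R (nu T x c s) = cut υ.R (nu T x c s) := by
  rw [h.nu_eq hT (r1b_succ hy hxy.le)]
  exact td_cut_mono h'.1 ((nu_le_jm hT hy hxy hP he c).trans le_self_add)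
theorem Agr2.trans (hT : IsTree T P₀) (hy : y + 1 < lh T) (hxy : x < y) (hP : IsPM τ.P)
    (he : ElemPM τ.s (pmT T y) τ.P) (h : Agr2 T x c σ τ) (h' : Agr2 T y c' τ υ) :
    Agr2 T x c σ υ :=
  ⟨h.1.trans (r1b_cut hT hy hxy hP he h.2 h'),
    fun u hu hr => (h.2 u hu hr).trans (h'.2.low hT hy hxy.le u hu hr)⟩
theorem Agr2.mid (hT : IsTree T P₀) (hy : y + 1 < lh T) (hxy : x < y) (hP : IsPM τ.P)
    (he : ElemPM τ.s (pmT T y) τ.P) (h : Agr2 T x c σ υ) (h' : Agr2 T y c' τ υ) :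
    Agr2 T x c σ τ :=
  have k : AgrM T x σ.s τ.s := fun u hu hr =>
    (h.2 u hu hr).trans (h'.2.low hT hy hxy.le u hu hr).symm
  ⟨h.1.trans (r1b_cut hT hy hxy hP he k h').symm, k⟩
theorem Real.agr2 (hT : IsTree T P₀) (hh : h < lh T) (hR : Real M T n μ G h) (hy : y ≤ h)
    (hxy : x < y) : Agr2 T x (cn T n x h) (st G x) (st G y) := by
  rcases hy.eq_or_lt with rfl | k
  · exact hR.2 x hxy
  · exact (hR.2 x (hxy.trans k)).mid hT ((Order.add_one_le_of_lt k).trans_lt hh) hxy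
      (hR.1 y hy).inn.pm (hR.1 y hy).inn.elem (hR.2 y k)
theorem exists_glue (N : Set V) [IsZ N] {G G' : V} (hG : G ∈ N) (hG' : G' ∈ N) {g : Ordinal.{0}}
    (hh : h.toZFSet ∈ N) (hg : g ≤ h) (hσ : enc σ ∈ N) :
    ∃ K ∈ N, (∀ z < g, st K z = st G z) ∧ (∀ z < h, g ≤ z → st K z = st G' z) ∧ st K h = σ := by
  haveI : In N G := ⟨hG⟩
  haveI : In N G' := ⟨hG'⟩
  haveI : In N h := ⟨hh⟩
  haveI : In N g := ⟨IsZ.ord_mem_of_le N hh hg⟩
  haveI : In N σ := ⟨hσ⟩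
  refine ⟨sq (h + 1) fun z => if z < g then st G z else if z < h then st G' z else σ, memV_of N _,
    fun z hz => ?_, fun z hz k => ?_, ?_⟩
  · rw [st, oat_sq _ ((hz.trans_le hg).trans (lt_add_one h)), if_pos hz]
  · rw [st, oat_sq _ (hz.trans (lt_add_one h)), if_neg k.not_gt, if_pos hz]
  · rw [st, oat_sq _ (lt_add_one h), if_neg hg.not_gt, if_neg (lt_irrefl h)]
theorem Real.snoc [IsZFC N] (C : RCtx N T n μ P₀) (hh : h + 1 < lh T) (hG : G ∈ N)
    (hR : Real N T n μ G h) (hσ : enc σ ∈ N) (h1 : StOK N T n μ (h + 1) (cn T n (h + 1) (h + 1)) σ)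
    (h2 : Agr2 T h (cn T n h (h + 1)) (st G h) σ) :
    ∃ K ∈ N, Real N T n μ K (h + 1) ∧ (∀ z ≤ h, st K z = st G z) ∧ st K (h + 1) = σ := by
  obtain ⟨K, hK, k1, -, k2⟩ := exists_glue N hG hG (HC_subset N (C.ord_mem hh.le)) le_rfl hσ
  have k3 : ∀ z ≤ h, st K z = st G z := fun z hz => k1 z (hz.trans_lt (lt_add_one h))
  refine ⟨K, hK, ⟨fun z hz => ?_, fun z hz => ?_⟩, k3, k2⟩
  · rcases hz.eq_or_lt with rfl | k
    · rwa [k2]
    · rw [k1 z k]
      exact (hR.1 z (Order.lt_add_one_iff.1 k)).mono (cn_anti T n z (lt_add_one h).le)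
  · rw [k1 z hz, k2]
    rcases (Order.lt_add_one_iff.1 hz).eq_or_lt with rfl | k
    · exact h2
    · exact ((hR.2 z k).mono (cn_anti T n z (lt_add_one h).le)).trans C.tree hh k
        (hR.1 h le_rfl).inn.pm (hR.1 h le_rfl).inn.elem h2
-- JOB B END

-- JOB C BEGIN
theorem r1c_le (T n : V) (P : PM) (Y : V) (x : Ordinal.{0}) (s : V) (c : ℕ) :
    P.M.rank + ω * ω ≤ need T n P Y x s c := by
  refine le_trans (add_le_add_right ?_ _) le_self_add
  rw [mul_add_one]; exact le_add_self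
theorem r1c_lim (T n : V) (P : PM) (Y : V) (x : Ordinal.{0}) (s : V) (c : ℕ) :
    Order.IsSuccLimit (need T n P Y x s c) := by
  unfold need
  rw [add_assoc, mul_assoc, ← mul_add]
  refine isSuccLimit_add _ (isSuccLimit_mul_left isSuccLimit_omega0 ?_)
  exact (mul_pos omega0_pos (zero_lt_one.trans_le le_add_self)).trans_le le_self_add
theorem r1c_succ (T n : V) (P : PM) (Y : V) (x : Ordinal.{0}) (s : V) (c : ℕ) :
    need T n P Y x s (c + 1) = need T n P Y x s c + ω := by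
  unfold need
  rw [Nat.cast_succ, mul_add_one ω, ← add_assoc]
theorem r1c_ww : ω ≤ ω * ω := le_mul_left ω omega0_pos
/-- spend `ω` of the room: pass to a universe which is an element of the old one -/
theorem StIn.cut (R : Set V) [IsT R] (h : StIn R T n μ x (c + 1) P s) (rT : T.rank < μ)
    (rn : n.rank < μ) :
    ∃ H ∈ R, StOK R T n μ x c ⟨H, P, s⟩ ∧ Vs R (P.M.rank + ω * ω) ⊆ H := by
  have hle := r1c_le T n P (Vs R (P.M.rank + ω)) x s c
  obtain ⟨H, hH, hT, hc, hV⟩ := exists_cut R (r1c_lim T n P (Vs R (P.M.rank + ω)) x s c)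
    (r1c_succ T n P _ x s c ▸ h.room)
  set ζ := need T n P (Vs R (P.M.rank + ω)) x s c with hζ
  have hin : ∀ u ∈ R, u.rank < ζ → u ∈ H := fun u hu hr =>
    IsZ.trans (M := (H : Set V)) _ hV _ (mem_Vs.2 ⟨hu, hr⟩)
  have hVs : ∀ ξ ≤ ζ, Vs (H : Set V) ξ = Vs R ξ := fun ξ hξ => ZFSet.ext fun u => by
    rw [mem_Vs, mem_Vs]
    exact ⟨fun k => ⟨IsZ.trans _ hH _ k.1, k.2⟩, fun k => ⟨hin u k.1 (k.2.trans_le hξ), k.2⟩⟩
  have h1 : P.M.rank + ω ≤ ζ := (add_le_add_right r1c_ww _).trans hle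
  have h2 : P.M.rank < ζ := (lt_add_of_pos_right _ omega0_pos).trans_le h1
  have h3 : μ < P.M.rank := by
    have := rank_lt_of_mem h.pm.mu_mem
    rwa [rank_toZFSet, h.mu] at this
  have hroom : Room (H : Set V) ζ := by unfold Room; rw [hVs ζ le_rfl]; exact hV
  have hs : s.rank < ζ := by
    refine lt_of_le_of_lt (rank_le_iff.2 fun p hp => ?_)
      (((add_lt_add_iff_left P.M.rank).2 (natCast_lt_omega0 3)).trans_le h1)
    obtain ⟨a, ha, b, hb, rfl⟩ := r1a_fn h.elem.elem.1 hp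
    have k : a.rank < P.M.rank :=
      (((rank_lt_of_mem ha).trans_le (rank_pmT_le T x)).trans rT).trans h3
    rw [rank_zpair]
    have : max a.rank b.rank + 2 ≤ P.M.rank + 2 :=
      add_le_add_left (max_le k.le (rank_lt_of_mem hb).le) _
    exact this.trans_lt ((add_lt_add_iff_left _).2 (by exact_mod_cast (by norm_num : (2 : ℕ) < 3)))
  refine ⟨H, hH, ⟨hT, hc, hin T h.T_mem ((rT.trans h3).trans h2),
    hin n h.n_mem ((rn.trans h3).trans h2), h.pm, h.pm.enc_mem (hin _ h.M_mem h2),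
    hin s h.s_mem hs, h.elem, h.mu, ?_, hroom.mono h1, ?_, ?_⟩,
    fun u hu => hin u (mem_Vs.1 hu).1 ((mem_Vs.1 hu).2.trans_le hle)⟩
  · intro E hE k1 k2 k3 k4
    obtain ⟨E', e1, e2, e3, e4, e5, e6⟩ := h.bkg E hE k1 k2 k3 k4
    have k : E.rank < ζ := ((rank_lt_of_mem hE).trans (rank_lt_of_mem h.pm.A_mem)).trans h2
    refine ⟨E', hin E' e1 (by rw [e2.rank_eq, e5, ← k1.rank_eq]; exact k), e2, e3, e4, e5, ?_⟩
    rw [e6, hVs]
    rw [k1.rank_eq] at k
    exact le_self_add.trans k.le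
  · show AccP (preds (att T n P (Vs (H : Set V) (P.M.rank + ω)))) _
    rw [hVs _ h1]; exact h.acc
  · show Room (H : Set V) (need T n P (Vs (H : Set V) (P.M.rank + ω)) x s c)
    rw [hVs _ h1]; exact hroom
/-- cut and collapse an `ω`-closed hull containing `V_ν` -/
theorem StIn.shrink (R : Set V) [IsT R] (h : StIn R T n μ x (c + 1) P s) (rT : T.rank < μ)
    (rn : n.rank < μ) (hx : x < lh T) {ν : Ordinal.{0}} (hν : Order.IsSuccLimit ν) (h1 : μ < ν)
    (h2 : ν ≤ P.M.rank + ω * ω) :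
    ∃ σ : RSt, enc σ ∈ R ∧ StOK R T n μ x c σ ∧ W.cut σ.R ν = Vs R ν ∧
      (∀ u ∈ (pmT T x).M, (app s u).rank < ν → app σ.s u = app s u) ∧
      ∃ D ∈ R, D.rank < ν + ω ∧ decM D = σ.R := by
  obtain ⟨H, hH, hOK, hV⟩ := h.cut R rT rn
  haveI : IsT (H : Set V) := hOK.isT
  have hωμ : ω ≤ μ := h.mu ▸ r1c_ww.trans h.pm.mu_ge
  have hroom : Room R (ν + ω) := h.room.mono (by
    rw [r1c_succ]; exact add_le_add_left (h2.trans (r1c_le _ _ _ _ _ _ _)) _)
  obtain ⟨G, hG, π, hπ, hGT, hel, hcl, hl, hcut, hfix, D, hD⟩ := exists_omcl_hull R hν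
    (hωμ.trans_lt h1) hroom hH hOK.omcl
    (fun u hu => hV (mem_Vs.2 ⟨(mem_Vs.1 hu).1, (mem_Vs.1 hu).2.trans_le h2⟩)) [enc P, s]
    (by simpa using ⟨hOK.inn.P_mem, hOK.inn.s_mem⟩)
  obtain ⟨y, hy, ey⟩ := hl (enc P) (by simp)
  obtain ⟨s', hs', es⟩ := hl s (by simp)
  have j := hel.elem
  have hin : ∀ u ∈ R, u.rank < ν → u ∈ G := fun u hu hr => by
    have : u ∈ Vs R ν := mem_Vs.2 ⟨hu, hr⟩
    rw [← hcut] at this
    exact (mem_cut.1 this).1
  have hP' : enc (dec y : PM) ∈ G := by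
    haveI : In (G : Set V) y := ⟨hy⟩
    exact mem_of (G : Set V) (dec y : PM)
  have eP : jm (app π) (dec y : PM) = P := by
    rw [j.map1 pZ (fun _ (a : V) => (dec a : PM)) hy, jm_V, ey, dec_enc]
  have hTG := hin T h.T_mem (rT.trans h1)
  have hst : StIn (G : Set V) T n μ x c (dec y) s' :=
    (StIn.map_iff j (fun u hu hr => hfix u hu (hr.trans_lt h1)) hTG (hin n h.n_mem (rn.trans h1))
      (hin _ h.mu_mem (by rwa [rank_toZFSet])) hP' hs' rT rn hx.le).2 (by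
        rw [eP, es]; exact hOK.inn)
  refine ⟨⟨G, dec y, s'⟩, (enc_St_mem R).2 ⟨hG, IsZ.trans _ hG _ hP', IsZ.trans _ hG _ hs'⟩,
    ⟨hGT, hcl, hst⟩, hcut, fun u hu hr => ?_, D, hD⟩
  have hur : u.rank < ν := (((rank_lt_of_mem hu).trans_le (rank_pmT_le T x)).trans rT).trans h1
  have huG : u ∈ G := by
    haveI : In R T := ⟨h.T_mem⟩
    haveI : In R x := ⟨IsZ.ord_mem_of_le R h.mu_mem ((hx.le.trans (lh_le_rank T)).trans rT.le)⟩
    exact hin u (IsZ.trans _ (memV_of R (pmT T x).M) _ hu) hur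
  have e : app π (app s' u) = app s u := by rw [j.map_app hs' huG, es, hfix u huG hur]
  have hw : app s' u ∈ G := IsZ.app_mem (G : Set V) hs' u
  show app s' u = app s u
  rw [← e, hfix _ hw]
  refine lt_of_le_of_lt ?_ (e ▸ hr)
  rw [j.rank_map hw]
  exact j.le_jm (IsZ.rank_mem _ hw)
-- JOB C END

-- JOB D BEGIN
theorem r1d_cut {A B : V} {o o' : Ordinal.{0}} (h : cut A o = cut B o) (hle : o' ≤ o) :
    cut A o' = cut B o' := by
  ext x
  have := ZFSet.ext_iff.1 h x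
  simp only [mem_cut] at this ⊢
  exact ⟨fun k => ⟨(this.1 ⟨k.1, k.2.trans_le hle⟩).1, k.2⟩,
    fun k => ⟨(this.2 ⟨k.1, k.2.trans_le hle⟩).1, k.2⟩⟩
theorem r1d_cc (A : V) {o o' : Ordinal.{0}} (hle : o' ≤ o) : cut (cut A o) o' = cut A o' := by
  ext x
  simp only [mem_cut]
  exact ⟨fun k => ⟨k.1.1, k.2⟩, fun k => ⟨⟨k.1, k.2.trans_le hle⟩, k.2⟩⟩
/-- the background extender of the image of an option -/
theorem r1d_bkg {R : Set V} {E : V} (hP : IsPM P) (hQ : IsPM Q) (he : ElemPM t P Q)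
    (ha : a.toZFSet ∈ P.M) (hE : E ∈ P.optAt a) (hb : Bkg R Q.A Q.mu) :
    ∃ E' ∈ R, IsExt E' ∧ app t E ⊆ E' ∧ crit E' = jm (app t) (crit E) ∧ Q.mu < crit E' ∧
      len E' = jm (app t) a + Q.mu ∧ extZ E' = Vs R (len E') := by
  haveI := hP.isT
  haveI := hQ.isT
  have hO := mem_optAt.1 hE
  have hl := hO.lt hP.shape
  have hEA : E ∈ P.A := hO.1
  have hEM : E ∈ P.M := IsZ.trans (M := (P.M : Set V)) _ hP.A_mem _ hEA
  have j := he.elem.elem
  have hc : crit (app t E) = jm (app t) (crit E) :=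
    (j.map1 pZ (fun _ (e : V) => crit e) hEM).symm
  have hcm : (crit E).toZFSet ∈ P.M := IsZ.ord_mem_of_le (P.M : Set V) ha hl.2.1.le
  have hlen : len (app t E) = jm (app t) a + Q.mu := by
    have := j.map1 pZ (fun _ (e : V) => len e) hEM
    rw [hO.2.2.1, j.jm_add ha hP.mu_mem, he.mu] at this
    exact this.symm
  have hmu : Q.mu < crit (app t E) := by
    rw [hc, ← he.mu]; exact (j.jm_lt hP.mu_mem hcm).2 hl.1
  have hZ : extZ (app t E) = cut Q.A (len (app t E)) := by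
    rw [← he.A hP hQ]
    refine (j.iff2 pZ (fun _ (e A : V) => extZ e = cut A (len e)) hEM hP.A_mem).1 ?_
    rw [hO.2.2.1]; exact hO.2.2.2.1
  obtain ⟨E', h1, h2, h3, h4, h5, h6⟩ := hb (app t E)
    (by rw [← he.A hP hQ]; exact (j.mem_iff hEM hP.A_mem).2 hEA)
    ((j.iff1 pZ (fun _ (e : V) => IsExt e) hEM).1 hO.2.1) hZ hmu
    ⟨_, by rw [hlen]; exact lt_add_of_pos_right _ hQ.mu_lim.bot_lt, hlen⟩
  exact ⟨E', h1, h2, h3, h4.trans hc, h4 ▸ hmu, h5.trans hlen, h5 ▸ h6⟩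
theorem r1d_low {E : V} (hP : IsPM P) (hE : E ∈ P.optAt a) (hu : u ∈ P.M) (hr : u.rank < a + ω) :
    u ∈ extZ E := by
  have hO := mem_optAt.1 hE
  have h1 : u.rank < a + P.mu := hr.trans_le (add_le_add_right
    ((le_mul_left ω omega0_pos).trans hP.mu_ge) a)
  have h2 : E.rank < P.A.rank := rank_lt_of_mem hO.1
  rw [hO.2.1.rank_eq, hO.2.2.1] at h2
  rw [hO.2.2.2.1, mem_cut]
  refine ⟨?_, h1⟩
  show u ∈ P.A
  rw [hP.A_eq, mem_cut]
  exact ⟨hu, h1.trans (le_self_add.trans_lt h2)⟩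

theorem basic_step [IsZFC N] (C : RCtx N T n μ P₀) {E : V} {c'' : ℕ} (hh : h < lh T)
    (hL : Legal T h a E) (hE : E ≠ ∅) (hσN : enc σ ∈ N) (hτN : enc τ ∈ N)
    (hσ : StOK N T n μ (prd T h E) c σ) (hτ : StOK N T n μ h c' τ)
    (h1 : prd T h E = h → σ = τ) (h2 : prd T h E < h → Agr2 T (prd T h E) c'' σ τ) :
    UWF (pmT T (prd T h E)).M E ∧ ∃ R' ∈ N, ∃ i s' : V, IsT (R' : Set V) ∧ OmCl N R' ∧
      IsElem i σ.R R' ∧ (∀ u ∈ σ.R, u.rank ≤ μ → app i u = u) ∧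
      cut R' (jm (app τ.s) a + μ) = cut τ.R (jm (app τ.s) a + μ) ∧ s' ∈ R' ∧
      ElemPM s' (ultP (pmT T (prd T h E)) E) (jm (app i) σ.P) ∧
      (∀ u ∈ (pmT T (prd T h E)).M,
        app s' (app (ultMap (pmT T (prd T h E)).M E) u) = app (app i σ.s) u) ∧
      ∀ u ∈ (pmT T h).M, u.rank < a + ω → app τ.s u = app s' u := by
  have hT := C.tree
  have hA := hT.agr_prd hh hL hE
  have hgd : prd T h E < h → crit E ≤ idx T (prd T h E) := by
    intro k
    have e : prd T h E = olst h (fun γ => crit E ≤ idx T γ) := if_neg hE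
    rw [e] at k ⊢
    exact olst_spec k
  have hgh := prd_le T h E
  generalize prd T h E = g at *
  have hg : g < lh T := hgh.trans_lt hh
  have hPh := hT.pm h hh
  have hPg := hT.pm g hg
  haveI := hPh.isT
  haveI := hPg.isT
  haveI := hσ.isT
  haveI := hτ.isT
  haveI := hσ.inn.pm.isT
  haveI := hτ.inn.pm.isT
  have hEo : E ∈ (pmT T h).optAt a := hL.2.2.2.resolve_left hE
  have hO := mem_optAt.1 hEo
  have hl := hO.lt hPh.shape
  have ha : a.toZFSet ∈ (pmT T h).M :=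
    IsZ.ord_mem_of_le ((pmT T h).M : Set V) hPh.th_mem hL.2.2.1.le
  have hEM : E ∈ (pmT T h).M := IsZ.trans (M := ((pmT T h).M : Set V)) _ hPh.A_mem _ hO.1
  obtain ⟨E', hE'R, hE', hsub, hcr, hmu, hlen, hZ⟩ :=
    r1d_bkg hPh hτ.inn.pm hτ.inn.elem ha hEo (hτ.inn.mu.symm ▸ hτ.inn.bkg)
  rw [hτ.inn.mu] at hmu hlen
  rw [Vs_coe] at hZ
  obtain ⟨hσR, hσP, hσs⟩ := (enc_St_mem N).1 hσN
  obtain ⟨hτR, hτP, hτs⟩ := (enc_St_mem N).1 hτN
  have hE'N : E' ∈ N := IsZ.trans _ hτR _ hE'R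
  have hcl : crit E' + 1 ≤ len E' := Order.add_one_le_iff.2 hE'.crit_lt_len
  have jt := hτ.inn.elem.elem.elem
  have hcm : (crit E).toZFSet ∈ (pmT T h).M := IsZ.ord_mem_of_le ((pmT T h).M : Set V) ha hl.2.1.le
  have hAg : Agr σ.R E' := by
    unfold Agr
    rw [hZ, r1d_cc _ hcl]
    rcases hgh.eq_or_lt with e | k
    · rw [h1 e]
    · have hg1 : g + 1 < lh T := (Order.add_one_le_iff.2 k).trans_lt hh
      refine r1d_cut (h2 k).1 ?_
      rw [(h2 k).2.nu_eq hT hg1, hcr]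
      have : jm (app τ.s) (crit E) ≤ jm (app τ.s) (idx T g) :=
        (jt.jm_le hcm (hT.idx_mem hg1 hh hgh)).2 (hgd k)
      refine Order.add_one_le_iff.2 (this.trans_lt (lt_add_of_pos_right _ ?_))
      exact mul_pos omega0_pos (by exact_mod_cast Nat.succ_pos _)
  have hag : ∀ x ∈ extZ E, x.rank ≤ crit E → app σ.s x = app τ.s x := by
    intro x hx hr
    rcases hgh.eq_or_lt with e | k
    · rw [h1 e]
    · have hx' : x ∈ cut (extZ E) (crit E + 1) := mem_cut.2 ⟨hx, Order.lt_add_one_iff.2 hr⟩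
      rw [← hA.2.1] at hx'
      exact (h2 k).2 x (mem_cut.1 hx').1
        ((hr.trans (hgd k)).trans_lt (lt_add_of_pos_right _ omega0_pos))
  have hjaN : (jm (app τ.s) a).toZFSet ∈ N :=
    IsZ.trans _ ((enc_PM_mem N).1 hτP).1 _ (jt.enc_jm_mem (a := a) ha)
  have hoZ : OmCl N (extZ E') := by
    rw [hZ, hlen]; exact hτ.omcl.cut (C.inac.cofGt.add hjaN)
  obtain ⟨hwf, hoc⟩ := uwf_of_omCl N hσR hE'N hE' hAg hσ.omcl hoZ
  have hU := (isUlt_ult hE' hAg hwf).1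
  haveI := hU.isT_right
  obtain ⟨k1, k2, k3, k4⟩ := copy_lemma hO.2.1 hA.2.1 hEM hσ.inn.elem.elem hτ.inn.elem.elem hag hU
    hσ.inn.M_mem hsub
  have ji := hU.elem.elem
  have hfix : ∀ u ∈ σ.R, u.rank ≤ μ → app (ultMap σ.R E') u = u :=
    fun u hu hr => hU.fix hu (hr.trans_lt hmu)
  have hgHC := (hT.node_HC C.T_mem (ξ := g)).1
  have hEHC : E ∈ HC N := IsZ.trans _ (hT.node_HC C.T_mem (ξ := h)).1 _ hEM
  have hU0 := (isUlt_ult hO.2.1 hA.2.1 k1).1
  haveI := hU0.isT_right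
  haveI : In N σ.R := ⟨hσR⟩
  haveI : In N E' := ⟨hE'N⟩
  haveI : In N E := ⟨HC_subset N hEHC⟩
  haveI : In N σ.s := ⟨hσs⟩
  haveI : In N τ.s := ⟨hτs⟩
  haveI : In N (pmT T g).M := ⟨HC_subset N hgHC⟩
  have hcom : ∀ u ∈ (pmT T g).M, app (ultMap σ.R E') (app σ.s u) =
      app (app (ultMap σ.R E') σ.s) u := by
    intro u hu
    have huR : u ∈ σ.R := hσ.omcl.HC_subset (IsZ.trans _ hgHC _ hu)
    rw [ji.map_app hσ.inn.s_mem huR, hfix u huR
      (((rank_lt_of_mem hu).trans_le (rank_pmT_le T g)).trans C.rank_T).le]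
  have js := hσ.inn.elem.elem.elem
  have j0 := hU0.elem.elem
  have hord : ∀ o : Ordinal.{0}, o.toZFSet ∈ (pmT T g).M →
      jm (app (cpy (pmT T g).M E σ.s τ.s (ultMap σ.R E'))) (jm (app (ultMap (pmT T g).M E)) o) =
        jm (app (ultMap σ.R E')) (jm (app σ.s) o) := by
    intro o ho
    rw [j0.jm_comp (a := o) ho, js.jm_comp (a := o) ho]
    exact jm_congr (k3 _ ho)
  refine ⟨k1, ult σ.R E', memV_of N _, ultMap σ.R E', cpy (pmT T g).M E σ.s τ.s (ultMap σ.R E'),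
    inferInstance, hoc, hU.elem, hfix, ?_,
    C.map_mem hoc (hU0.ctbl hgHC hEHC).1 (ji.1 _ hσ.inn.M_mem) (memV_of N _) k2, ?_,
    fun u hu => (k3 u hu).trans (hcom u hu), fun u hu hr => (k4 u (r1d_low hPh hEo hu hr)).symm⟩
  · rw [← hlen, hU.cut_len, hZ]
  · rw [ji.jm_PM hσ.inn.P_mem]
    exact ⟨k2, (k3 _ hPg.w_mem).trans (by rw [hσ.inn.elem.w]),
      (hord _ hPg.mu_mem).trans (by rw [hσ.inn.elem.mu]),
      (k3 _ hPg.S_mem).trans (by rw [hσ.inn.elem.S]),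
      (hord _ hPg.th_mem).trans (by rw [hσ.inn.elem.th])⟩
theorem Real.uwf [IsZFC N] (C : RCtx N T n μ P₀) {E : V} (hh : h < lh T) (hG : G ∈ N)
    (hR : Real N T n μ G h) (hL : Legal T h a E) (hE : E ≠ ∅) :
    UWF (pmT T (prd T h E)).M E :=
  (basic_step C hh hL hE (enc_st_mem N hG _) (enc_st_mem N hG h) (hR.1 _ (prd_le T h E))
    (hR.1 h le_rfl) (fun e => by rw [e]) (fun k => hR.2 _ k)).1
theorem Real.step [IsZFC N] (C : RCtx N T n μ P₀) (hh : h + 1 < lh T) (hG : G ∈ N)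
    (hR : Real N T n μ G h) (hE : exT T h ≠ ∅) :
    ∃ R' i s', Step N T μ h (st G (pr T h)) (st G h) R' i s' := by
  have hT := C.tree
  have hh' : h < lh T := (lt_add_one h).trans hh
  obtain ⟨-, R', h1, i, s', h2, h3, h4, h5, h6, h7, h8, h9, h10⟩ :=
    basic_step C hh' (hT.legal h hh' hh) hE (enc_st_mem N hG _) (enc_st_mem N hG h)
      (hR.1 _ (prd_le T h _)) (hR.1 h le_rfl) (fun e => by rw [e]) (fun k => hR.2 _ k)
  obtain ⟨-, e1, e2⟩ := (hT.ult h hh' hh hE).unique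
  have he := hT.elem (h + 1) hh (pr T h) ((hT.pr_le h).trans (lt_add_one h).le)
    (Or.inr ((hT.tlt_succ_iff hh).2 (Or.inl rfl)))
  have e3 : pmT T (h + 1) = ultP (pmT T (pr T h)) (exT T h) := by
    unfold ultP
    rw [← e1, ← e2, he.w, he.mu, he.S, he.th]
  refine ⟨R', i, s', h1, h2, h3, h4, h5, h6, h7, e3 ▸ h8, fun u hu => ?_, h10⟩
  rw [e2]; exact h9 u hu
-- JOB D END

-- JOB E BEGIN
/-- an infinite descending sequence of attempts gives a new realizable branch -/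
theorem root_acc [IsZFC N] (C : RCtx N T n μ P₀) {σ₀ : V} {Ps : PM} (hW : TrueW N P₀ σ₀ Ps) :
    (∃ l ≤ lh T, Order.IsSuccLimit l ∧ ∃ b ∈ N, CofBr T l b ∧ RealB N T b σ₀ Ps ∧
      (l = lh T ∨ b ≠ brT T l)) ∨
    AccP (preds (att T n Ps (Vs N (Ps.M.rank + ω)))) (pair (0 : Ordinal.{0}).toZFSet σ₀) := by
  refine or_iff_not_imp_right.2 fun hacc => ?_
  have hT := C.tree
  haveI : In N T := ⟨HC_subset N C.T_mem⟩
  haveI : In N n := ⟨HC_subset N C.n_mem⟩
  haveI : In N Ps := ⟨hW.pms.enc_mem hW.mems⟩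
  haveI : In N σ₀ := ⟨hW.mem⟩
  have hA : att T n Ps (Vs N (Ps.M.rank + ω)) ∈ N := memV_of N _
  generalize hAe : att T n Ps (Vs N (Ps.M.rank + ω)) = A at hA hacc
  haveI : In N A := ⟨hA⟩
  obtain ⟨p, hp, p0, hs⟩ := dc_nat N (fun _ x y => pair y x ∈ A) (fun _ x => ¬ AccP (preds A) x)
    (memV_of N (pair (0 : Ordinal.{0}).toZFSet σ₀)) hacc fun _ x _ hx => by
      by_contra hc
      refine hx (Acc.intro x fun y hy => by_contra fun hn => hc ⟨y, ?_, hn, mem_preds.1 hy⟩)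
      exact ((IsZ.pair_mem_iff N).1 (IsZ.trans _ hA _ (mem_preds.1 hy))).1
  have hs' : ∀ k, p (k + 1) ∈ attD T Ps (Vs N (Ps.M.rank + ω)) ∧
      p k ∈ attD T Ps (Vs N (Ps.M.rank + ω)) ∧ Below T n (p (k + 1)) (p k) := fun k => by
    have := (hs k).2
    rw [← hAe, att] at this
    exact pair_mem_rel.1 this
  obtain ⟨y, hy⟩ : ∃ y : ℕ → Ordinal.{0}, y = fun k => (fst (p k)).rank := ⟨_, rfl⟩
  obtain ⟨t, ht⟩ : ∃ t : ℕ → V, t = fun k => snd (p k) := ⟨_, rfl⟩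
  have h1 : ∀ k, y k < lh T ∧ ElemPM (t k) (pmT T (y k)) Ps := fun k => by
    obtain ⟨a, ha, b, -, e, h⟩ := mem_rel.1 (hs' k).2.1
    simp only [hy, ht, e, fst_pair, snd_pair]
    exact ⟨(rank_lt_of_mem ha).trans_eq (rank_toZFSet _), h⟩
  have h2 : ∀ k, tlt T (y k) (y (k + 1)) ∧ ¬ Surv T n (y k) (y (k + 1)) ∧
      Comm T (y k) (y (k + 1)) (t k) (t (k + 1)) := fun k => by
    rw [hy, ht]; exact (hs' k).2.2
  have y0 : y 0 = 0 := by simp only [hy, p0, fst_pair, rank_toZFSet]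
  have t0 : t 0 = σ₀ := by simp only [ht, p0, snd_pair]
  have hp' : ∀ (m : Set V → (ℕ → V) → ℕ) [UF (loc N) m], UF (loc N) (fun M v => p (m M v)) :=
    fun m _ => uf_of_sqN hp
  haveI : ∀ (m : Set V → (ℕ → V) → ℕ) [UF (loc N) m], UF (loc N) (fun M v => y (m M v)) :=
    fun m _ => by rw [hy]; infer_instance
  haveI : ∀ (m : Set V → (ℕ → V) → ℕ) [UF (loc N) m], UF (loc N) (fun M v => t (m M v)) :=
    fun m _ => by rw [ht]; infer_instance
  have h3 : ∀ k, y k < y (k + 1) := fun k => hT.tlt_lt (h1 _).1 (h2 k).1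
  have h4 : ∀ k k', k ≤ k' → tle T (y k) (y k') ∧ Comm T (y k) (y k') (t k) (t k') := by
    intro k k' hk
    induction k', hk using Nat.le_induction with
    | base => exact ⟨Or.inl rfl, Comm.refl hT (h1 k).1 _⟩
    | succ m _ ih => exact ⟨hT.tle_trans (h1 _).1 ih.1 (Or.inr (h2 m).1),
        Comm.trans hT (h1 _).1 ih.1 (Or.inr (h2 m).1) ih.2 (h2 m).2.2⟩
  have tl : ∀ {β k k'}, tlt T β (y k) → k ≤ k' → tlt T β (y k') := fun {β k k'} h hk =>
    (hT.tle_trans (h1 k').1 (Or.inr h) (h4 k k' hk).1).resolve_left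
      ((hT.tlt_lt (h1 k).1 h).trans_le (hT.tle_le (h1 k').1 (h4 k k' hk).1)).ne
  obtain ⟨l, hl⟩ : ∃ l, l = iSup y := ⟨_, rfl⟩
  have l1 : ∀ k, y k < l := fun k => (h3 k).trans_le (hl ▸ Ordinal.le_iSup y _)
  have l2 : ∀ β < l, ∃ k, β < y k := fun β h => Ordinal.lt_iSup_iff.1 (hl ▸ h)
  have l3 : l ≤ lh T := hl ▸ Ordinal.iSup_le fun k => (h1 k).1.le
  have l4 : Order.IsSuccLimit l := by
    rw [Ordinal.isSuccLimit_iff, Order.isSuccPrelimit_iff_succ_lt]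
    refine ⟨(l1 0).ne_bot, fun β h => ?_⟩
    obtain ⟨k, hk⟩ := l2 β h
    exact (Order.succ_le_of_lt hk).trans_lt (l1 k)
  haveI : In N l := ⟨HC_subset N (C.ord_mem l3)⟩
  obtain ⟨b, hb⟩ : ∃ b, b = ZFSet.sep (fun x => ∃ k : ℕ, tlt T x.rank (y k)) l.toZFSet := ⟨_, rfl⟩
  have bN : b ∈ N := hb ▸ memV_of N _
  haveI : In N b := ⟨bN⟩
  have b1 : ∀ β : Ordinal.{0}, β.toZFSet ∈ b ↔ ∃ k, tlt T β (y k) := fun β => by
    rw [hb, mem_sep, rank_toZFSet, toZFSet_mem_toZFSet_iff]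
    exact ⟨fun h => h.2, fun ⟨k, h⟩ => ⟨(hT.tlt_lt (h1 k).1 h).trans (l1 k), k, h⟩⟩
  have b2 : b ⊆ l.toZFSet := fun x hx => (mem_sep.1 (hb ▸ hx)).1
  refine ⟨l, l3, l4, b, bN, ⟨b2, fun β h => ?_, fun β h hβ => ?_⟩, ?_, ?_⟩
  · obtain ⟨k, hk⟩ := l2 β h
    exact ⟨y k, l1 k, hk.le, (b1 _).2 ⟨k + 1, (h2 k).1⟩⟩
  · obtain ⟨k, hk⟩ := (b1 β).1 hβ
    ext x
    rw [mem_cut]
    constructor
    · intro hx
      obtain ⟨a, ha, rfl⟩ := mem_toZFSet_iff.1 (hT.br_sub β (h.trans_le l3) hx)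
      refine ⟨(b1 a).2 ⟨k, ?_⟩, (rank_toZFSet a).trans_lt ha⟩
      exact (hT.tle_trans (h1 k).1 (Or.inr hx) (Or.inr hk)).resolve_left
        (ha.trans (hT.tlt_lt (h1 k).1 hk)).ne
    · rintro ⟨hx, hr⟩
      obtain ⟨a, -, rfl⟩ := mem_toZFSet_iff.1 (b2 hx)
      obtain ⟨k', hk'⟩ := (b1 a).1 hx
      rw [rank_toZFSet] at hr
      exact (hT.tle_of_le (h1 (max k k')).1 (Or.inr (tl hk' (le_max_right _ _)))
        (Or.inr (tl hk (le_max_left _ _))) hr.le).resolve_left hr.ne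
  · refine ⟨lam b fun x => comp (t (sInf {k : ℕ | tlt T x.rank (y k)}))
      (im T x.rank (y (sInf {k : ℕ | tlt T x.rank (y k)}))), memV_of N _, ?_⟩
    generalize hf : (lam b fun x => comp (t (sInf {k : ℕ | tlt T x.rank (y k)}))
      (im T x.rank (y (sInf {k : ℕ | tlt T x.rank (y k)})))) = f
    have key : ∀ β k, tlt T β (y k) → ElemPM (app f β.toZFSet) (pmT T β) Ps ∧
        ∀ x ∈ (pmT T β).M, app (app f β.toZFSet) x = app (t k) (app (im T β (y k)) x) := by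
      intro β k hk
      rw [← hf, app_lam _ ((b1 β).2 ⟨k, hk⟩), rank_toZFSet]
      have m1 : tlt T β (y (sInf {k : ℕ | tlt T β (y k)})) :=
        Nat.sInf_mem (s := {k : ℕ | tlt T β (y k)}) ⟨k, hk⟩
      have m2 : sInf {k : ℕ | tlt T β (y k)} ≤ k := Nat.sInf_le hk
      generalize sInf {k : ℕ | tlt T β (y k)} = κ at m1 m2
      have m3 := hT.tlt_lt (h1 κ).1 m1
      have e := hT.elem _ (h1 κ).1 β m3.le (Or.inr m1)
      obtain ⟨c1, c2⟩ := ElemPM.comp (hT.pm β (m3.trans (h1 κ).1)) (hT.pm _ (h1 κ).1) e (h1 κ).2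
      refine ⟨c1, fun x hx => ?_⟩
      rw [c2 x hx, ← (h4 κ k m2).2 _ (e.elem.elem.1 x hx), hT.comm _ (h1 k).1 _
        (hT.tle_le (h1 k).1 (h4 κ k m2).1) β m3.le (h4 κ k m2).1 (Or.inr m1) x hx]
    refine ⟨fun β hβ => ?_, fun γ hγ β hlt hβ x hx => ?_, fun x hx => ?_⟩
    · obtain ⟨k, hk⟩ := (b1 β).1 hβ
      exact (key β k hk).1
    · obtain ⟨k, hk⟩ := (b1 β).1 hβ
      obtain ⟨k', hk'⟩ := (b1 γ).1 hγ
      have a1 := tl hk (le_max_left k k')
      have a2 := tl hk' (le_max_right k k')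
      have a3 := hT.tle_of_le (h1 _).1 (Or.inr a1) (Or.inr a2) hlt.le
      have a4 := hT.tlt_lt (h1 _).1 a2
      have e := hT.elem γ (a4.trans (h1 _).1) β hlt.le a3
      rw [(key γ _ a2).2 _ (e.elem.elem.1 x hx), (key β _ a1).2 x hx,
        hT.comm _ (h1 _).1 γ a4.le β hlt.le (Or.inr a2) a3 x hx]
    · have a1 : tlt T 0 (y 1) := y0 ▸ (h2 0).1
      have a2 := (h2 0).2.2
      rw [y0, t0] at a2
      rw [← toZFSet_zero, (key 0 1 a1).2 x hx]
      exact a2 x hx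
  · refine or_iff_not_imp_left.2 fun hne e => ?_
    have hlt := lt_of_le_of_ne l3 hne
    obtain ⟨β, hβ, H⟩ := surv_lim hT C.inj hlt l4
    obtain ⟨k, hk⟩ := l2 β hβ
    have a : ∀ k, tlt T (y k) l := fun k => by
      rw [tlt, ← e]; exact (b1 _).2 ⟨k + 1, (h2 k).1⟩
    exact (h2 k).2.1 ((H _ hk.le (a k)).left hT hlt (Or.inr (h2 k).1) (Or.inr (a (k + 1))))
-- JOB E END

-- JOB F BEGIN
/-- the limit of a commuting sequence of realization maps -/
theorem lim_map (N : Set V) [IsZ N] (hT : IsTree T P₀) (hTN : T ∈ N) (hl : l < lh T)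
    (hlim : Order.IsSuccLimit l) {b : ℕ → Ordinal.{0}} {t : ℕ → V} (hb : sqN b ∈ N) (ht : sqN t ∈ N)
    (h1 : ∀ k, tlt T (b k) l) (h2 : ∀ β < l, ∃ k, β ≤ b k) (h3 : ∀ k, b k ≤ b (k + 1))
    (hP : IsPM P) (hPN : P.M ∈ N) (he : ∀ k, ElemPM (t k) (pmT T (b k)) P)
    (hc : ∀ k, Comm T (b k) (b (k + 1)) (t k) (t (k + 1))) :
    ∃ s ∈ N, ElemPM s (pmT T l) P ∧ ∀ k, Comm T (b k) l (t k) s := by
  have mono : Monotone b := monotone_nat_of_le_succ h3
  have lt : ∀ k, b k < lh T := fun k => (hT.tlt_lt hl (h1 k)).trans hl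
  have le : ∀ {j k}, j ≤ k → tle T (b j) (b k) := fun e =>
    hT.tle_of_le hl (Or.inr (h1 _)) (Or.inr (h1 _)) (mono e)
  have cm : ∀ {j k}, j ≤ k → Comm T (b j) (b k) (t j) (t k) := fun {j k} e => by
    induction e with
    | refl => exact Comm.refl hT (lt j) _
    | step e ih => exact Comm.trans hT (lt _) (le e) (le (Nat.le_succ _)) ih (hc _)
  have el : ∀ k, ElemPM (im T (b k) l) (pmT T (b k)) (pmT T l) := fun k =>
    hT.elem l hl _ (hT.tlt_lt hl (h1 k)).le (Or.inr (h1 k))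
  have st : ∀ {j k}, j ≤ k → ∀ x ∈ (pmT T (b j)).M, ∃ y ∈ (pmT T (b k)).M,
      app (im T (b k) l) y = app (im T (b j) l) x ∧ app (t k) y = app (t j) x :=
    fun {j k} e x hx => ⟨app (im T (b j) (b k)) x,
      tcc_mapsTo (hT.elem _ (lt k) _ (mono e) (le e)) hx,
      hT.tb_comm hl (le e) (Or.inr (h1 k)) x hx, cm e x hx⟩
  have dir : ∀ y ∈ (pmT T l).M, ∃ k, ∃ x ∈ (pmT T (b k)).M, app (im T (b k) l) x = y := by
    intro y hy
    obtain ⟨β, k0, k1, x, hx, rfl⟩ := hT.lim_dir l hl hlim y hy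
    obtain ⟨k, k2⟩ := h2 β k0
    have k3 := hT.tle_of_le hl (Or.inr k1) (Or.inr (h1 k)) k2
    exact ⟨k, _, tcc_mapsTo (hT.elem _ (lt k) _ k2 k3) hx, hT.tb_comm hl k3 (Or.inr (h1 k)) x hx⟩
  obtain ⟨τ, hτ, mτ⟩ : ∃ τ ∈ N, ∀ p, p ∈ τ ↔ ∃ k, ∃ x ∈ (pmT T (b k)).M,
      pair (app (im T (b k) l) x) (app (t k) x) = p := by
    have e1 : ∀ k, (app (sqN b) (natZ k)).rank = b k := fun k => by
      rw [app_sqN]
      exact rank_toZFSet _
    have e2 : ∀ k, app (sqN t) (natZ k) = t k := app_sqN t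
    generalize sqN b = B at hb e1
    generalize sqN t = S at ht e2
    haveI : In N T := ⟨hTN⟩
    haveI : In N B := ⟨hb⟩
    haveI : In N S := ⟨ht⟩
    haveI : In N l := ⟨IsZ.ord_mem_of_le N (mem_of N (lh T)) hl.le⟩
    refine ⟨bU omegaZ fun z => img (fun x => pair (app (im T (app B z).rank l) x)
      (app (app S z) x)) (pmT T (app B z).rank).M, memV_of N _, fun p => ?_⟩
    simp only [mem_bU, mem_img]
    constructor
    · rintro ⟨z, hz, k⟩
      obtain ⟨m, rfl⟩ := mem_omegaZ.1 hz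
      exact ⟨m, by rwa [e1, e2] at k⟩
    · rintro ⟨m, k⟩
      exact ⟨natZ m, natZ_mem_omegaZ m, by rwa [e1, e2]⟩
  have wd : ∀ {j k}, j ≤ k → ∀ x ∈ (pmT T (b j)).M, ∀ x' ∈ (pmT T (b k)).M,
      app (im T (b j) l) x = app (im T (b k) l) x' → app (t j) x = app (t k) x' :=
    fun e x hx x' hx' e' => by
      obtain ⟨y, hy, e1, e2⟩ := st e x hx
      rw [← e2, ((el _).elem.elem.inj hy hx').1 (e1.trans e')]
  have hf : IsFn τ := by
    refine ⟨fun p hp => ?_, fun u y y' k1 k2 => ?_⟩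
    · obtain ⟨k, x, -, rfl⟩ := (mτ p).1 hp
      simp
    · obtain ⟨j, x, hx, e⟩ := (mτ _).1 k1
      obtain ⟨k, x', hx', e'⟩ := (mτ _).1 k2
      obtain ⟨e1, rfl⟩ := pair_inj.1 e
      obtain ⟨e2, rfl⟩ := pair_inj.1 e'
      rcases le_total j k with e3 | e3
      · exact wd e3 x hx x' hx' (e1.trans e2.symm)
      · exact (wd e3 x' hx' x hx (e2.trans e1.symm)).symm
  have ap : ∀ k, Comm T (b k) l (t k) τ := fun k x hx => hf.app_eq ((mτ _).2 ⟨k, x, hx, rfl⟩)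
  have mp : ∀ y ∈ (pmT T l).M, app τ y ∈ P.M := fun y hy => by
    obtain ⟨k, x, hx, rfl⟩ := dir y hy
    rw [ap k x hx]; exact tcc_mapsTo (he k) hx
  refine ⟨τ, hτ, tcc_right (hT.pm _ (lt 0)) (hT.pm l hl)
    (z3d_elem.2 ⟨isFunc_iff.2 ⟨hf, ?_, mp⟩, mp, fun φ v hv => ?_⟩) (el 0) (he 0) (ap 0), ap⟩
  · ext y
    rw [mem_dom]
    constructor
    · rintro ⟨z, hz⟩
      obtain ⟨k, x, hx, e⟩ := (mτ _).1 hz
      rw [← (pair_inj.1 e).1]; exact tcc_mapsTo (el k) hx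
    · intro hy
      obtain ⟨k, x, hx, rfl⟩ := dir y hy
      exact ⟨_, (mτ _).2 ⟨k, x, hx, rfl⟩⟩
  · choose κ x hx ex using fun i => dir _ (hv i)
    obtain ⟨k, hk⟩ : ∃ k, ∀ i, κ (min i φ.fv) ≤ k :=
      ⟨(Finset.range (φ.fv + 1)).sup κ, fun i =>
        Finset.le_sup (Finset.mem_range.2 (Nat.lt_succ_of_le (min_le_right _ _)))⟩
    choose u hu eu _ using fun i : ℕ => st (hk i) _ (hx _)
    have eu' : ∀ i < φ.fv, v i = app (im T (b k) l) (u i) := fun i hi => by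
      rw [eu i, ex, min_eq_left hi.le]
    rw [sat_congr _ φ v (app (im T (b k) l) ∘ u) eu', ← (el k).elem.elem.2 φ u hu,
      (he k).elem.elem.2 φ u hu]
    refine sat_congr _ φ _ _ fun i hi => ?_
    rw [Function.comp_apply, Function.comp_apply, eu' i hi, ap k _ (hu i)]
/-- a cofinal sequence on the branch of a limit node -/
theorem RCtx.exists_br_seq [IsZFC N] (C : RCtx N T n μ P₀) (hl : l < lh T)
    (hlim : Order.IsSuccLimit l) (hx : tlt T x l) :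
    ∃ b : ℕ → Ordinal.{0}, sqN b ∈ N ∧ b 0 = x ∧ StrictMono b ∧ (∀ k, tlt T (b k) l) ∧
      ∀ β < l, ∃ k, β < b k := by
  obtain ⟨f, hf, -, f1, f2⟩ := (lt_om1_iff.1 (ord_mem_HC.1 (C.ord_mem hl.le))).exists_cofinal hlim
  have e1 : ∀ k, (app (sqN f) (natZ k)).rank = f k := fun k => by
    rw [app_sqN]
    exact rank_toZFSet _
  generalize sqN f = B at hf e1
  have hxl := C.tree.tlt_lt hl hx
  haveI : In N T := ⟨HC_subset N C.T_mem⟩
  haveI : In N B := ⟨hf⟩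
  haveI : In N l := ⟨IsZ.ord_mem_of_le N (mem_of N (lh T)) hl.le⟩
  haveI : In N x := ⟨IsZ.ord_mem_of_le N (mem_of N (lh T)) (hxl.trans hl).le⟩
  have key : ∀ a < l, ∀ k : ℕ, tlt T (olst l fun g => tlt T g l ∧ a < g ∧
      (app B (natZ k)).rank < g) l ∧ a < (olst l fun g => tlt T g l ∧ a < g ∧
      (app B (natZ k)).rank < g) ∧ (app B (natZ k)).rank < olst l fun g => tlt T g l ∧ a < g ∧
      (app B (natZ k)).rank < g := fun a ha k => by
    obtain ⟨γ, g1, g2, g3⟩ := C.tree.lim_cof l hl hlim _ (hlim.add_one_lt (max_lt ha (f1 k)))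
    have g4 := max_lt_iff.1 ((lt_add_one _).trans_le g2)
    exact olst_spec (P := fun g => tlt T g l ∧ a < g ∧ (app B (natZ k)).rank < g)
      ((olst_le_of g1 ⟨g3, g4.1, (e1 k).symm ▸ g4.2⟩).trans_lt g1)
  obtain ⟨b, hb, b0, b1⟩ : ∃ b : ℕ → Ordinal.{0}, sqN b ∈ N ∧ b 0 = x ∧ ∀ k, b (k + 1) =
      olst l fun g => tlt T g l ∧ b k < g ∧ (app B (natZ k)).rank < g :=
    ⟨fun n => Nat.rec x (fun k a => olst l fun g => tlt T g l ∧ a < g ∧
      (app B (natZ k)).rank < g) n, memV_of N _, rfl, fun _ => rfl⟩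
  have b2 : ∀ k, tlt T (b k) l := fun k => by
    induction k with
    | zero => exact b0 ▸ hx
    | succ k ih => exact b1 k ▸ (key _ (C.tree.tlt_lt hl ih) k).1
  refine ⟨b, hb, b0, strictMono_nat_of_lt_succ fun k =>
    b1 k ▸ (key _ (C.tree.tlt_lt hl (b2 k)) k).2.1, b2, fun β hβ => ?_⟩
  obtain ⟨k, hk⟩ := f2 β hβ
  exact ⟨k + 1, b1 k ▸ (hk.trans_eq (e1 k).symm).trans (key _ (C.tree.tlt_lt hl (b2 k)) k).2.2⟩
-- JOB F END

end main

end Pool.Agent.Lib.MP_f9eb18_lc.W
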