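import Pool.Agent.Lib.MP_f9eb18_lc.W.T
import Pool.Agent.Lib.MP_f9eb18_lc.W.L

/-! # Smallness, comparison, termination -/

namespace Pool.Agent.Lib.MP_f9eb18_lc.W

open Ordinal ZFSet Classical
set_option linter.style.haveILetI false
set_option linter.unusedVariables false
set_option synthInstance.maxSize 100000

variable {F : Fr}

/-- level `θ` of the hierarchy with options `O` over the base `w₀` has a witness for `fld w₀` -/
def HasWit (O w₀ : V) (θ : Ordinal.{0}) : Prop :=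
  ∃ B ∈ Lv O w₀ θ, B ⊆ fld w₀ ∧ ¬ NoWit (fld w₀) B
def Tame (D : Set V) (w : V) (μ : Ordinal.{0}) : ℕ → V → Prop
  | 0, S => ∀ δ ≤ S.rank, ¬ Rel S δ
  | m + 1, S => ∀ δ ≤ S.rank, Rel S δ → ∃ S' ∈ D, ∃ θ : Ordinal.{0}, θ.toZFSet ∈ D ∧
      Shape (fld w) μ S' ∧ CritGt S' δ ∧ Tame D w μ m S' ∧ HasWit (Opt w μ S') (cut w δ) θ
def Small (D : Set V) (w : V) (μ : Ordinal.{0}) (m : ℕ) (δ : Ordinal.{0}) : Prop :=
  ∃ S' ∈ D, ∃ θ : Ordinal.{0}, θ.toZFSet ∈ D ∧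
    Shape (fld w) μ S' ∧ CritGt S' δ ∧ Tame D w μ m S' ∧ HasWit (Opt w μ S') (cut w δ) θ
theorem tame_succ {D : Set V} {w S : V} {μ : Ordinal.{0}} {m : ℕ} :
    Tame D w μ (m + 1) S ↔ ∀ δ ≤ S.rank, Rel S δ → Small D w μ m δ := Iff.rfl
def PM.Tame (P : PM) (m : ℕ) : Prop := W.Tame (P.M : Set V) P.w P.mu m P.S

/-- `P ∈ HC N` is a true premouse over `N` -/
def IsTrue (N : Set V) (P : PM) : Prop := P.M ∈ HC N ∧ ∃ σ Ps, TrueW N P σ Ps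

/-- two iterates agree on all indices below both `θ` -/
def AgreeP (Q Q' : PM) : Prop :=
  ∀ a < min Q.th Q'.th, Agree (Q.optAt a) (Q'.optAt a) (Q.M ∩ Q'.M) a
def Cmp (P P' : PM) : Prop := ∃ Q Q' i i', Iter P Q i ∧ Iter P' Q' i' ∧ AgreeP Q Q'

/-- lower data below `β` -/
structure Low (O w₀ : V) (β : Ordinal.{0}) : Prop where
  opt : OptLike O
  rk : O.rank ≤ β
  base : IsBase w₀
  rkw : w₀.rank ≤ β

/-- all limit nodes of `T` satisfy `C` -/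
def AllC (C : V → Prop) (T : V) : Prop := ∀ l < lh T, Order.IsSuccLimit l → C (rT T (l + 1))
/-- `C` describes an `ω₁ + 1`-iteration strategy for `P` in `N` -/
structure Strat (N : Set V) (P : PM) (C : V → Prop) : Prop where
  succ : ∀ T ∈ HC N, IsTree T P → AllC C T → ∀ η a E, lh T = η + 1 → Legal T η a E → E ≠ ∅ →
    UWF (pmT T (prd T η E)).M E
  lim : ∀ T ∈ HC N, IsTree T P → AllC C T → Order.IsSuccLimit (lh T) →
    ∃ T' ∈ HC N, IsTree T' P ∧ lh T' = lh T + 1 ∧ rT T' (lh T) = T ∧ C T'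
  top : ∀ T ∈ N, IsTree T P → AllC C T → lh T = om1 N → (∀ ξ < om1 N, rT T ξ ∈ HC N) →
    ∃ b ∈ N, CofBr T (om1 N) b

/-- the two trees of a comparison -/
def CmpPair (T T' : V) : Prop :=
  lh T = lh T' ∧ ∀ ξ < lh T, ξ + 1 < lh T → idx T ξ = idx T' ξ ∧
    JInv ((pmT T ξ).optAt (idx T ξ)) ((pmT T' ξ).optAt (idx T ξ)) ((pmT T ξ).M ∩ (pmT T' ξ).M)
      (idx T ξ) (exT T ξ) (exT T' ξ)

-- JOB A BEGIN
section inst
variable {a b c : Set V → (ℕ → V) → V} {o q : Set V → (ℕ → V) → Ordinal.{0}}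
  {D : Set V → (ℕ → V) → Set V} {p p' : Set V → (ℕ → V) → PM}
instance ud_hasWit [UF F a] [UF F b] [UF F o] : UD F (fun M v => HasWit (a M v) (b M v) (o M v)) := by
  have := UF.lift (F := F) b; unfold HasWit; infer_instance
instance ud_tame (m : ℕ) [UC F D] [UF F a] [UF F o] [UF F b] :
    UD F (fun M v => Tame (D M v) (a M v) (o M v) m (b M v)) := by
  induction m generalizing D a o b with
  | zero => have := UF.lift (F := F) b; unfold Tame; infer_instance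
  | succ m ih =>
    have := UC.lift (F := F) D; have := UF.lift (F := F) a; have := UF.lift (F := F) o
    have := UF.lift (F := F) b; have := @ih; unfold Tame; infer_instance
instance ud_small (m : ℕ) [UC F D] [UF F a] [UF F o] [UF F q] :
    UD F (fun M v => Small (D M v) (a M v) (o M v) m (q M v)) := by
  have := UC.lift (F := F) D; have := UF.lift (F := F) a; have := UF.lift (F := F) o
  have := UF.lift (F := F) q; unfold Small; infer_instance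
instance ud_pmTame (m : ℕ) [UF F p] : UD F (fun M v => (p M v).Tame m) := by
  unfold PM.Tame; infer_instance
instance ud_agreeP [UF F p] [UF F p'] : UD F (fun M v => AgreeP (p M v) (p' M v)) := by
  have := UF.lift (F := F) p; have := UF.lift (F := F) p'; unfold AgreeP; infer_instance
instance ud_cmpPair [UF F a] [UF F b] : UD F (fun M v => CmpPair (a M v) (b M v)) := by
  have := UF.lift (F := F) a; have := UF.lift (F := F) b; unfold CmpPair; infer_instance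
instance ud_low [UF F a] [UF F b] [UF F o] : UD F (fun M v => Low (a M v) (b M v) (o M v)) :=
  (inferInstance : UD F (fun M v => OptLike (a M v) ∧ (a M v).rank ≤ o M v ∧ IsBase (b M v) ∧
    (b M v).rank ≤ o M v)).congr fun _ _ _ _ =>
    ⟨fun h => ⟨h.1, h.2, h.3, h.4⟩, fun h => ⟨h.1, h.2.1, h.2.2.1, h.2.2.2⟩⟩
end inst

theorem Rel.le_rank {S : V} {δ : Ordinal.{0}} (h : Rel S δ) : δ ≤ S.rank :=
  le_of_forall_lt fun β hβ => by
    obtain ⟨p, hp, h1, -⟩ := h.2 β hβ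
    exact (h1.trans_le (rank_fst_le p)).trans (rank_lt_of_mem hp)
theorem Rel.limit {S : V} {δ : Ordinal.{0}} (h : Rel S δ) : Order.IsSuccLimit δ :=
  Ordinal.isSuccLimit_iff.2 ⟨h.1.ne', Order.isSuccPrelimit_of_succ_lt fun β hβ => by
    obtain ⟨p, hp, h1, h2⟩ := h.2 β hβ
    exact (Order.succ_le_of_lt h1).trans_lt h2⟩
theorem Rel.mono {S S' : V} {δ : Ordinal.{0}} (h : Rel S δ) (hs : S ⊆ S') : Rel S' δ :=
  ⟨h.1, fun β hβ => let ⟨p, hp, k⟩ := h.2 β hβ; ⟨p, hs hp, k⟩⟩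
theorem rel_cut {S : V} {δ η : Ordinal.{0}} (h : Rel (cut S η) δ) : Rel S δ :=
  h.mono fun _ hp => (mem_cut.1 hp).1
theorem Tame.mono {D D' : Set V} (hs : D ⊆ D') {w S : V} {μ : Ordinal.{0}} {m m' : ℕ} (hm : m ≤ m')
    (h : Tame D w μ m S) : Tame D' w μ m' S := by
  induction m generalizing m' S with
  | zero =>
    cases m' with
    | zero => exact h
    | succ m' => exact fun δ h1 h2 => absurd h2 (h δ h1)
  | succ m ih =>
    cases m' with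
    | zero => omega
    | succ m' =>
      intro δ h1 h2
      obtain ⟨S', k1, θ, k2, k3, k4, k5, k6⟩ := h δ h1 h2
      exact ⟨S', hs k1, θ, hs k2, k3, k4, ih (by omega) k5, k6⟩
theorem Small.mono {D D' : Set V} (hs : D ⊆ D') {w : V} {μ δ : Ordinal.{0}} {m m' : ℕ} (hm : m ≤ m')
    (h : Small D w μ m δ) : Small D' w μ m' δ := by
  obtain ⟨S', k1, θ, k2, k3, k4, k5, k6⟩ := h
  exact ⟨S', hs k1, θ, hs k2, k3, k4, k5.mono hs hm, k6⟩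
theorem tame_empty (D : Set V) (w : V) (μ : Ordinal.{0}) (m : ℕ) : Tame D w μ m ∅ :=
  Tame.mono (m := 0) subset_rfl (Nat.zero_le m) fun δ _ h => by
    obtain ⟨p, hp, -⟩ := h.2 0 h.1
    exact notMem_empty p hp
theorem sa_small (N : Set V) [IsZFC N] {w : V} (hw : w ∈ N) {μ : Ordinal.{0}}
    (hμ : μ.toZFSet ∈ N) (m : ℕ) {ζ : Ordinal.{0}} (hζ : ζ.toZFSet ∈ N)
    (h : ∀ D : Set V, (∀ x ∈ N, x.rank < ζ → x ∈ D) →
      ∀ S, S ⊆ fld w → Tame N w μ m S → Tame D w μ m S) :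
    ∃ ζ' : Ordinal.{0}, ζ'.toZFSet ∈ N ∧ ζ ≤ ζ' ∧ ∀ D : Set V, (∀ x ∈ N, x.rank < ζ' → x ∈ D) →
      ∀ δ ≤ (fld w).rank, Small N w μ m δ → Small D w μ m δ := by
  haveI : In N w := ⟨hw⟩
  haveI : In N μ := ⟨hμ⟩
  obtain ⟨ξ, hξ, k⟩ := coll_rank N (fun x y => Shape (fld w) μ (fst y) ∧ CritGt (fst y) x.rank ∧
    Tame N w μ m (fst y) ∧ HasWit (Opt w μ (fst y)) (cut w x.rank) (snd y).rank)
    (a := ((fld w).rank + 1).toZFSet) (memV_of N _)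
  haveI : In N ξ := ⟨hξ⟩
  haveI : In N ζ := ⟨hζ⟩
  refine ⟨max ζ ξ, mem_of N (max ζ ξ), le_max_left _ _, fun D hD δ hδ hs => ?_⟩
  obtain ⟨S', k1, θ, k2, k3⟩ := hs
  obtain ⟨y, hy, hr, l1, l2, l3, l4⟩ := k δ.toZFSet
    (toZFSet_mem_toZFSet_iff.2 (Order.lt_add_one_iff.2 hδ))
    ⟨pair S' θ.toZFSet, (IsZ.pair_mem_iff N).2 ⟨k1, k2⟩, by simpa using k3⟩
  rw [rank_toZFSet] at l2 l4
  haveI : In N y := ⟨hy⟩
  have hr' := hr.trans_le (le_max_right ζ ξ)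
  refine ⟨fst y, hD _ (memV_of N _) ((rank_fst_le y).trans_lt hr'), (snd y).rank,
    hD _ (mem_of N (snd y).rank) ?_, l1, l2,
    h D (fun x hx hr => hD x hx (hr.trans_le (le_max_left _ _))) _ l1.1 l3, l4⟩
  rw [rank_toZFSet]
  exact (rank_snd_le y).trans_lt hr'
/-- tameness reflects to all submodels that contain a large enough `V_ζ` -/
theorem tame_reflect (N : Set V) [IsZFC N] {w : V} (hw : w ∈ N) {μ : Ordinal.{0}}
    (hμ : μ.toZFSet ∈ N) (m : ℕ) : ∃ ζ : Ordinal.{0}, ζ.toZFSet ∈ N ∧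
      ∀ D : Set V, (∀ x ∈ N, x.rank < ζ → x ∈ D) →
        (∀ S, S ⊆ fld w → Tame N w μ m S → Tame D w μ m S) ∧
        ∀ δ ≤ (fld w).rank, Small N w μ m δ → Small D w μ m δ := by
  have key : ∃ ζ : Ordinal.{0}, ζ.toZFSet ∈ N ∧ ∀ D : Set V, (∀ x ∈ N, x.rank < ζ → x ∈ D) →
      ∀ S, S ⊆ fld w → Tame N w μ m S → Tame D w μ m S := by
    induction m with
    | zero => exact ⟨μ, hμ, fun D _ S _ h => h⟩
    | succ m ih =>
      obtain ⟨ζ, hζ, h⟩ := ih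
      obtain ⟨ζ', h1, -, h2⟩ := sa_small N hw hμ m hζ h
      exact ⟨ζ', h1, fun D hD S hS k δ k1 k2 =>
        h2 D hD δ (k1.trans (rank_mono hS)) (k δ k1 k2)⟩
  obtain ⟨ζ, hζ, h⟩ := key
  obtain ⟨ζ', h1, hle, h2⟩ := sa_small N hw hμ m hζ h
  exact ⟨ζ', h1, fun D hD => ⟨h D fun x hx hr => hD x hx (hr.trans_le hle), h2 D hD⟩⟩
theorem ElemPM.tame {σ : V} {P Q : PM} (hP : IsPM P) (hQ : IsPM Q) (h : ElemPM σ P Q) (m : ℕ) :
    P.Tame m ↔ Q.Tame m := by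
  haveI := hP.isT; haveI := hQ.isT
  have := h.elem.elem.iff3 pZ (fun M (w : V) (μ : Ordinal.{0}) (S : V) => W.Tame M w μ m S)
    hP.w_mem hP.mu_mem hP.S_mem
  rw [jm_V, jm_V, h.w, h.mu, h.S] at this
  exact this
theorem IsPM.isBase_cut {P : PM} (h : IsPM P) {δ : Ordinal.{0}} (hl : Order.IsSuccLimit δ)
    (hδ : δ ≤ P.A.rank) : IsBase (cut P.w δ) ∧ fld (cut P.w δ) = cut P.A δ := by
  haveI := h.isT
  have hs : cut P.A δ ⊆ P.A := fun x hx => (mem_cut.1 hx).1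
  have e : cut P.w δ = P.w ∩ prod (cut P.A δ) (cut P.A δ) := by
    ext p
    rw [mem_cut, ZFSet.mem_inter]
    refine and_congr_right fun hp => ?_
    obtain ⟨x, hx, y, hy, rfl⟩ := mem_prod.1 (h.wo.1 hp)
    rw [rank_pair_lt hl, pair_mem_prod, mem_cut, mem_cut]
    exact ⟨fun k => ⟨⟨hx, k.1⟩, hy, k.2⟩, fun k => ⟨k.1.2, k.2.2⟩⟩
  have hw : IsWO (cut P.w δ) (cut P.A δ) := e ▸ h.wo.restrict hs
  have hf := hw.fld_eq
  refine ⟨⟨hf.symm ▸ hw, ?_, fun p hp => ?_⟩, hf⟩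
  · rw [hf]
    intro x hx y hy
    exact mem_cut.2 ⟨h.A_trans x (hs hx) hy, (rank_lt_of_mem hy).trans (mem_cut.1 hx).2⟩
  · rw [hf]
    obtain ⟨h1, h2⟩ := mem_cut.1 hp
    refine mem_cut.2 ⟨?_, h2⟩
    rw [h.A_eq]
    exact mem_cut.2 ⟨IsZ.trans (M := (P.M : Set V)) _ h.w_mem _ h1, h2.trans_le hδ⟩
theorem low_empty {w₀ : V} {β : Ordinal.{0}} (h : IsBase w₀) (hr : w₀.rank ≤ β) : Low ∅ w₀ β :=
  ⟨optLike_empty, by simp, h, hr⟩
theorem isBase_empty : IsBase ∅ := by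
  have hw : IsWO ∅ ∅ := by
    have := isWO_hfWO.restrict (empty_subset HF)
    have e : hfWO ∩ prod ∅ ∅ = (∅ : V) := by
      rw [ZFSet.eq_empty]
      intro p hp
      obtain ⟨x, hx, -⟩ := mem_prod.1 (ZFSet.mem_inter.1 hp).2
      exact notMem_empty x hx
    rwa [e] at this
  have hf := hw.fld_eq
  exact ⟨hf.symm ▸ hw, hf.symm ▸ ZFSet.isTransitive_empty, empty_subset _⟩
theorem TrueW.withS {N : Set V} {P Ps : PM} {σ : V} (h : TrueW N P σ Ps) {S : V} {θ : Ordinal.{0}}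
    (hS : S ∈ P.M) (hs : Shape P.A P.mu S) (hθ : θ.toZFSet ∈ P.M) :
    TrueW N (P.withS S θ) σ (Ps.withS (app σ S) (jm (app σ) θ)) :=
  haveI := h.pms.isT
  ⟨h.pm.withS hS hs hθ, (h.elem.withS S θ).isPM_right (h.pm.withS hS hs hθ)
    (IsZ.isTransitive (H := Ps.M)), h.mem, h.mems, h.elem.withS S θ, h.bkg, h.inac⟩
-- JOB A END

-- JOB D BEGIN
theorem sd_mem {P : PM} (hP : IsPM P) {O w₀ : V} (hO : O ∈ P.M) (hw : w₀ ∈ P.M) {γ : Ordinal.{0}}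
    (hγ : γ ≤ P.th) : O ∪ P.opt ∈ P.M ∧ Lv (O ∪ P.opt) w₀ γ ∈ P.M ∧ Od (O ∪ P.opt) w₀ γ ∈ P.M := by
  haveI := hP.isT
  haveI : In (P.M : Set V) O := ⟨hO⟩
  haveI : In (P.M : Set V) w₀ := ⟨hw⟩
  haveI : In (P.M : Set V) P.w := ⟨hP.w_mem⟩
  haveI : In (P.M : Set V) P.mu := ⟨hP.mu_mem⟩
  haveI : In (P.M : Set V) P.S := ⟨hP.S_mem⟩
  haveI : In (P.M : Set V) γ := ⟨IsZ.ord_mem_of_le _ hP.th_mem hγ⟩
  exact ⟨memV_of (P.M : Set V) (O ∪ Opt P.w P.mu P.S),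
    memV_of (P.M : Set V) (Lv (O ∪ Opt P.w P.mu P.S) w₀ γ),
    memV_of (P.M : Set V) (Od (O ∪ Opt P.w P.mu P.S) w₀ γ)⟩
theorem sd_sec {P : PM} (hP : IsPM P) {O : V} {β a : Ordinal.{0}} (hr : O.rank ≤ β) (h : β < a) :
    sec (O ∪ P.opt) a = P.optAt a := by
  rw [sec_union, sec_eq_empty_of_rank (hr.trans h.le), PM.opt, sec_opt hP.shape]
  ext x; simp [PM.optAt]
theorem sd_back {P Q : PM} {i x : V} {β : Ordinal.{0}} (h : Iter P Q i) (hc : CritGt P.S β)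
    (hr : x.rank ≤ β) : x ∈ P.M ↔ x ∈ Q.M :=
  ⟨fun k => pb_mem_of_cut (h.fix β hc).2.1.symm k (Order.lt_add_one_iff.2 hr),
    fun k => pb_mem_of_cut (h.fix β hc).2.1 k (Order.lt_add_one_iff.2 hr)⟩
theorem sd_rank_cut (x : V) (η : Ordinal.{0}) : (cut x η).rank ≤ η :=
  rank_le_iff.2 fun _ hy => (mem_cut.1 hy).2
theorem sd_jm {P Q : PM} {i : V} {β η : Ordinal.{0}} (h : Iter P Q i) (hc : CritGt P.S β)
    (hη : η.toZFSet ∈ P.M) (hr : η ≤ β) : jm (app i) η = η :=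
  jm_of_fix ((h.fix β hc).2.2 _ hη (by rwa [enc_ord, rank_toZFSet]))
theorem sd_empty_union (x : V) : ∅ ∪ x = x := by ext y; simp
/-- agreeing premice have the same levels over common lower data -/
theorem AgreeP.levels {Q Q' : PM} (hQ : IsPM Q) (hQ' : IsPM Q') (h : AgreeP Q Q') {O w₀ : V}
    {β : Ordinal.{0}} (hl : Low O w₀ β) (hc : CritGt Q.S β) (hc' : CritGt Q'.S β)
    (hO : O ∈ Q.M ∧ O ∈ Q'.M) (hw : w₀ ∈ Q.M ∧ w₀ ∈ Q'.M) :
    ∀ γ ≤ min Q.th Q'.th, Lv (O ∪ Q.opt) w₀ γ = Lv (O ∪ Q'.opt) w₀ γ ∧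
      Od (O ∪ Q.opt) w₀ γ = Od (O ∪ Q'.opt) w₀ γ ∧
      (β < pIdx (O ∪ Q.opt) (Lv (O ∪ Q.opt) w₀ γ) γ → ¬ Tie (O ∪ Q.opt) (Lv (O ∪ Q.opt) w₀ γ) γ) := by
  haveI := hQ.isT; haveI := hQ'.isT
  have o1 : OptLike (O ∪ Q.opt) := hl.opt.union (optLike_opt hQ.shape)
  have o2 : OptLike (O ∪ Q'.opt) := hl.opt.union (optLike_opt hQ'.shape)
  have hC : ∀ γ ≤ min Q.th Q'.th,
      Lv (O ∪ Q.opt) w₀ γ ∩ Lv (O ∪ Q'.opt) w₀ γ ⊆ Q.M ∩ Q'.M := fun γ hγ x hx =>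
    ZFSet.mem_inter.2
      ⟨IsZ.trans (M := (Q.M : Set V)) _ (sd_mem hQ hO.1 hw.1 (hγ.trans (min_le_left _ _))).2.1 _
          (ZFSet.mem_inter.1 hx).1,
        IsZ.trans (M := (Q'.M : Set V)) _ (sd_mem hQ' hO.2 hw.2 (hγ.trans (min_le_right _ _))).2.1 _
          (ZFSet.mem_inter.1 hx).2⟩
  have hE := levels_eq (w := w₀) o1 o2 hC fun a ha => by
    rcases le_or_gt a β with k | k
    · left
      rw [sec_union, sec_union, PM.opt, PM.opt, sec_opt hQ.shape, sec_opt hQ'.shape,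
        optAt_eq_empty hQ.shape hc k, optAt_eq_empty hQ'.shape hc' k]
    · right
      rw [sd_sec hQ hl.rk k, sd_sec hQ' hl.rk k]
      exact h a ha
  refine fun γ hγ => ⟨(hE γ hγ).1, (hE γ hγ).2, fun hlt ht => ?_⟩
  refine not_tie_of_agree (C := Q.M ∩ Q'.M) (O₂ := Q'.optAt (pIdx (O ∪ Q.opt) (Lv (O ∪ Q.opt) w₀ γ) γ))
    o1 (fun x hx => hC γ hγ ?_) ?_ ht
  · exact ZFSet.mem_inter.2 ⟨hx, (hE γ hγ).1 ▸ hx⟩
  · rw [sd_sec hQ hl.rk hlt]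
    exact h _ (ht.1.trans_le hγ)
theorem AgreeP.symm {Q Q' : PM} (h : AgreeP Q Q') : AgreeP Q' Q := fun a ha => by
  have e : Q'.M ∩ Q.M = Q.M ∩ Q'.M := by ext x; simp [and_comm]
  rw [e]
  exact (h a (min_comm Q.th Q'.th ▸ ha)).symm
theorem Cmp.symm {P P' : PM} (h : Cmp P P') : Cmp P' P :=
  let ⟨Q, Q', i, i', h1, h2, h3⟩ := h
  ⟨Q', Q, i', i, h2, h1, h3.symm⟩
/-- iteration maps move the hierarchy over fixed lower data -/
theorem Iter.map_Lv {P Q : PM} {i O w₀ : V} {β : Ordinal.{0}} (hP : IsPM P) (h : Iter P Q i)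
    (hc : CritGt P.S β) (hO : O ∈ P.M) (hw : w₀ ∈ P.M) (hr : O.rank ≤ β) (hr' : w₀.rank ≤ β) :
    O ∈ Q.M ∧ w₀ ∈ Q.M ∧ app i (O ∪ P.opt) = O ∪ Q.opt ∧
      app i (Lv (O ∪ P.opt) w₀ P.th) = Lv (O ∪ Q.opt) w₀ Q.th ∧
      app i (Od (O ∪ P.opt) w₀ P.th) = Od (O ∪ Q.opt) w₀ Q.th := by
  haveI := hP.isT; haveI := h.pm.isT
  have he := h.elem.elem.elem
  have f1 := (h.fix β hc).2.2 O hO hr
  have f2 := (h.fix β hc).2.2 w₀ hw hr'
  have e1 : app i (O ∪ P.opt) = O ∪ Q.opt := by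
    have := he.map4 pZ (fun _ (O w : V) (μ : Ordinal.{0}) (S : V) => O ∪ Opt w μ S) hO hP.w_mem
      hP.mu_mem hP.S_mem
    rw [jm_V, jm_V, jm_V, jm_V, f1, h.elem.w, h.elem.mu, h.elem.S] at this
    exact this
  have m := (sd_mem hP hO hw le_rfl).1
  refine ⟨(sd_back h hc hr).1 hO, (sd_back h hc hr').1 hw, e1, ?_, ?_⟩
  · have := he.map3 pZ (fun _ (O w : V) (θ : Ordinal.{0}) => Lv O w θ) (a := O ∪ P.opt) m hw
      hP.th_mem
    rwa [jm_V, jm_V, jm_V, e1, f2, h.elem.th] at this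
  · have := he.map3 pZ (fun _ (O w : V) (θ : Ordinal.{0}) => Od O w θ) (a := O ∪ P.opt) m hw
      hP.th_mem
    rwa [jm_V, jm_V, jm_V, e1, f2, h.elem.th] at this
theorem sd_common {P P' Q Q' : PM} {i i' : V} (hP : IsPM P) (hP' : IsPM P') (h : Iter P Q i)
    (h' : Iter P' Q' i') (ha : AgreeP Q Q') (hle : Q.th ≤ Q'.th) {w₀ : V}
    {β : Ordinal.{0}} (hb : IsBase w₀) (hr : w₀.rank ≤ β) (hrf : (fld w₀).rank ≤ β)
    (hc : CritGt P.S β) (hc' : CritGt P'.S β) (hw : w₀ ∈ P.M) (hw' : w₀ ∈ P'.M)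
    (h1 : HasWit P.opt w₀ P.th) : ∃ B ∈ P.M, B ∈ P'.M ∧ B ⊆ fld w₀ ∧ ¬ NoWit (fld w₀) B := by
  haveI := hP.isT; haveI := h.pm.isT; haveI := hP'.isT; haveI := h'.pm.isT
  obtain ⟨B, hB, hs, hn⟩ := h1
  have h0 : (∅ : V).rank ≤ β := by simp
  have e0 := IsZ.empty_mem (P.M : Set V)
  have e0' := IsZ.empty_mem (P'.M : Set V)
  obtain ⟨a1, a2, -, a4, -⟩ := h.map_Lv hP hc e0 hw h0 hr
  obtain ⟨b1, b2, -⟩ := h'.map_Lv hP' hc' e0' hw' h0 hr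
  have m := (sd_mem hP e0 hw le_rfl).2.1
  rw [← sd_empty_union P.opt] at hB
  have hBP : B ∈ P.M := IsZ.trans (M := (P.M : Set V)) _ m _ hB
  have hBr : B.rank ≤ β := (rank_mono hs).trans hrf
  have k := (h.elem.elem.elem.mem_iff hBP m).2 hB
  rw [(h.fix β hc).2.2 B hBP hBr, a4, (ha.levels h.pm h'.pm (low_empty hb hr) (h.fix β hc).1
    (h'.fix β hc').1 ⟨a1, b1⟩ ⟨a2, b2⟩ Q.th (le_min le_rfl hle)).1] at k
  exact ⟨B, hBP, (sd_back h' hc' hBr).2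
    (IsZ.trans (M := (Q'.M : Set V)) _ (sd_mem h'.pm b1 b2 hle).2.1 _ k), hs, hn⟩
/-- after a comparison one of two witnesses is common to both premice -/
theorem Cmp.common {P P' : PM} (hP : IsPM P) (hP' : IsPM P') (h : Cmp P P') {w₀ : V}
    {β : Ordinal.{0}} (hb : IsBase w₀) (hr : w₀.rank ≤ β) (hrf : (fld w₀).rank ≤ β)
    (hc : CritGt P.S β) (hc' : CritGt P'.S β) (hw : w₀ ∈ P.M) (hw' : w₀ ∈ P'.M)
    (h1 : HasWit P.opt w₀ P.th) (h2 : HasWit P'.opt w₀ P'.th) :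
    ∃ B ∈ P.M, B ∈ P'.M ∧ B ⊆ fld w₀ ∧ ¬ NoWit (fld w₀) B := by
  obtain ⟨Q, Q', i, i', k1, k2, k3⟩ := h
  rcases le_total Q.th Q'.th with k | k
  · exact sd_common hP hP' k1 k2 k3 k hb hr hrf hc hc' hw hw' h1
  · obtain ⟨B, l1, l2, l3⟩ := sd_common hP' hP k2 k1 k3.symm k hb hr hrf hc' hc hw' hw h2
    exact ⟨B, l2, l1, l3⟩
/-- if only the second premouse has a witness for `w₁`, it sees the profile of the first one -/
theorem Cmp.profile {P P' : PM} (hP : IsPM P) (hP' : IsPM P') (h : Cmp P P') {O w₀ w₁ : V}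
    {β η : Ordinal.{0}} (hl : Low O w₀ β) (hb : IsBase w₁) (hr : w₁.rank ≤ β)
    (hrf : (fld w₁).rank ≤ β) (hη : η ≤ β) (hβ : β.toZFSet ∈ P.M ∧ β.toZFSet ∈ P'.M)
    (hc : CritGt P.S β) (hc' : CritGt P'.S β) (hO : O ∈ P.M ∧ O ∈ P'.M)
    (hw : w₀ ∈ P.M ∧ w₀ ∈ P'.M) (hw₁ : w₁ ∈ P.M ∧ w₁ ∈ P'.M)
    (h1 : ∀ B ∈ P.M, B ⊆ fld w₁ → NoWit (fld w₁) B) (h2 : HasWit P'.opt w₁ P'.th) :
    ∃ θ ≤ P'.th, min P.th β ≤ θ ∧ Prof (O ∪ P'.opt) w₀ η θ = Prof (O ∪ P.opt) w₀ η P.th := by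
  obtain ⟨Q, Q', i, i', k1, k2, k3⟩ := h
  haveI := hP.isT; haveI := k1.pm.isT; haveI := hP'.isT; haveI := k2.pm.isT
  rcases le_total Q'.th Q.th with k | k
  · obtain ⟨B, -, l2, l3, l4⟩ :=
      sd_common hP' hP k2 k1 k3.symm k hb hr hrf hc' hc hw₁.2 hw₁.1 h2
    exact absurd (h1 B l2 l3) l4
  obtain ⟨a1, a2, -, a4, a5⟩ := k1.map_Lv hP hc hO.1 hw.1 hl.rk hl.rkw
  obtain ⟨b1, b2, b3, -⟩ := k2.map_Lv hP' hc' hO.2 hw.2 hl.rk hl.rkw
  obtain ⟨c1, c2, -⟩ := k3.levels k1.pm k2.pm hl (k1.fix β hc).1 (k2.fix β hc').1 ⟨a1, b1⟩ ⟨a2, b2⟩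
    Q.th (le_min le_rfl k)
  have he := k1.elem.elem.elem
  have he' := k2.elem.elem.elem
  have η1 : η.toZFSet ∈ P.M := IsZ.ord_mem_of_le (P.M : Set V) hβ.1 hη
  have η2 : η.toZFSet ∈ P'.M := IsZ.ord_mem_of_le (P'.M : Set V) hβ.2 hη
  have key : ∀ x ∈ P.M, cut x η = cut (app i x) η ∧ cut x η ∈ Q.M := fun x hx => by
    haveI : In (P.M : Set V) x := ⟨hx⟩
    haveI : In (P.M : Set V) η := ⟨η1⟩
    have m : cut x η ∈ P.M := memV_of (P.M : Set V) (cut x η)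
    have r := (sd_rank_cut x η).trans hη
    have := he.map_cut hx η1
    rw [(k1.fix β hc).2.2 _ m r, sd_jm k1 hc η1 hη] at this
    exact ⟨this, (sd_back k1 hc r).1 m⟩
  obtain ⟨-, m1, m2⟩ := sd_mem hP hO.1 hw.1 le_rfl
  obtain ⟨-, n1, n2⟩ := sd_mem k2.pm b1 b2 k
  have d1 := (key _ m1).1
  have d2 := (key _ m2).1
  rw [a4, c1] at d1
  rw [a5, c2] at d2
  unfold Prof
  generalize hx : cut (Lv (O ∪ P.opt) w₀ P.th) η = x at d1
  generalize hy : cut (Od (O ∪ P.opt) w₀ P.th) η = y at d2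
  have η3 : η.toZFSet ∈ Q'.M := (sd_back k2 hc' (by rwa [rank_toZFSet])).1 η2
  have cm : ∀ z ∈ Q'.M, cut z η ∈ P'.M ∧ app i' (cut z η) = cut z η := fun z hz => by
    haveI : In (Q'.M : Set V) z := ⟨hz⟩
    haveI : In (Q'.M : Set V) η := ⟨η3⟩
    have r := (sd_rank_cut z η).trans hη
    have m := (sd_back k2 hc' r).2 (memV_of (Q'.M : Set V) (cut z η))
    exact ⟨m, (k2.fix β hc').2.2 _ m r⟩
  have x1 := cm _ n1
  have y1 := cm _ n2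
  rw [← d1] at x1
  rw [← d2] at y1
  have μ1 : (min P.th β).toZFSet ∈ P'.M := IsZ.ord_mem_of_le (P'.M : Set V) hβ.2 (min_le_right _ _)
  have mp : pair x y ∈ (P'.M : Set V) := (IsZ.pair_mem_iff _).2 ⟨x1.1, y1.1⟩
  have mq : enc (η, min P.th β) ∈ (P'.M : Set V) := (IsZ.pair_mem_iff _).2 ⟨η2, μ1⟩
  have := he'.iff5 pZ (fun _ (O w : V) (θ : Ordinal.{0}) (q : Ordinal.{0} × Ordinal.{0}) (p : V) =>
    ∃ γ ≤ θ, q.2 ≤ γ ∧ pair (cut (Lv O w γ) q.1) (cut (Od O w γ) q.1) = p)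
    (a := O ∪ P'.opt) (e := pair x y) (sd_mem hP' hO.2 hw.2 le_rfl).1 hw.2 hP'.th_mem mq mp
  rw [jm_V, jm_V, jm_V, b3, (k2.fix β hc').2.2 _ hw.2 hl.rkw, k2.elem.th, he'.map_pair x1.1 y1.1,
    x1.2, y1.2, he'.jm_prod (a := η) (b := min P.th β) η2 μ1, sd_jm k2 hc' η2 hη,
    sd_jm k2 hc' μ1 (min_le_right _ _)] at this
  refine this.2 ⟨Q.th, k, (min_le_left _ _).trans ?_, by rw [d1, d2]⟩
  rw [← k1.elem.th]
  exact he.le_jm hP.th_mem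
theorem sd_tie {P Q Q' : PM} {i : V} (hP : IsPM P) (h : Iter P Q i) (hQ' : IsPM Q')
    (ha : AgreeP Q Q') (hle : Q.th ≤ Q'.th) {O w₀ : V} {β : Ordinal.{0}}
    (hl : Low O w₀ β) (hβ : β.toZFSet ∈ P.M) (hc : CritGt P.S β) (hc' : CritGt Q'.S β)
    (hO : O ∈ P.M) (hw : w₀ ∈ P.M) (hO' : O ∈ Q'.M) (hw' : w₀ ∈ Q'.M)
    (hlt : β < pIdx (O ∪ P.opt) (Lv (O ∪ P.opt) w₀ P.th) P.th) :
    ¬ Tie (O ∪ P.opt) (Lv (O ∪ P.opt) w₀ P.th) P.th := by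
  haveI := hP.isT; haveI := h.pm.isT
  obtain ⟨a1, a2, a3, a4, -⟩ := h.map_Lv hP hc hO hw hl.rk hl.rkw
  obtain ⟨-, -, c⟩ := ha.levels h.pm hQ' hl (h.fix β hc).1 hc' ⟨a1, hO'⟩ ⟨a2, hw'⟩
    Q.th (le_min le_rfl hle)
  obtain ⟨m1, m2, -⟩ := sd_mem hP hO hw le_rfl
  have := h.elem.elem.elem.iff4 pZ (fun _ (O L : V) (θ β : Ordinal.{0}) =>
    β < pIdx O L θ → ¬ Tie O L θ) (a := O ∪ P.opt) (b := Lv (O ∪ P.opt) w₀ P.th) m1 m2 hP.th_mem hβ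
  rw [jm_V, jm_V, a3, a4, h.elem.th, sd_jm h hc hβ le_rfl] at this
  exact this.2 c hlt
/-- a premouse that can be compared with itself has no tie above the lower data -/
theorem Cmp.not_tie {P : PM} (hP : IsPM P) (h : Cmp P P) {O w₀ : V} {β : Ordinal.{0}}
    (hl : Low O w₀ β) (hβ : β.toZFSet ∈ P.M) (hc : CritGt P.S β) (hO : O ∈ P.M) (hw : w₀ ∈ P.M)
    (hlt : β < pIdx (O ∪ P.opt) (Lv (O ∪ P.opt) w₀ P.th) P.th) :
    ¬ Tie (O ∪ P.opt) (Lv (O ∪ P.opt) w₀ P.th) P.th := by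
  obtain ⟨Q, Q', i, i', k1, k2, k3⟩ := h
  rcases le_total Q.th Q'.th with k | k
  · exact sd_tie hP k1 k2.pm k3 k hl hβ hc (k2.fix β hc).1 hO hw ((sd_back k2 hc hl.rk).1 hO)
      ((sd_back k2 hc hl.rkw).1 hw) hlt
  · exact sd_tie hP k2 k1.pm k3.symm k hl hβ hc (k1.fix β hc).1 hO hw ((sd_back k1 hc hl.rk).1 hO)
      ((sd_back k1 hc hl.rkw).1 hw) hlt
-- JOB D END

/-- `π : G → H` is a countable hull with critical point `κ` -/
structure Hull (N : Set V) (H G π : V) (κ : Ordinal.{0}) : Prop where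
  H_mem : H ∈ N
  G_mem : G ∈ HC N
  pi_mem : π ∈ N
  isT : IsT (H : Set V)
  isT' : IsT (G : Set V)
  elem : IsElem π G H
  lt : κ < om1 N
  k_mem : κ.toZFSet ∈ G
  k_map : jm (app π) κ = om1 N
  fix : ∀ y ∈ G, app π y ∈ HC N → app π y = y

-- JOB B BEGIN
theorem sb_bound (N : Set V) [IsZ N] {ζ : Ordinal.{0}} (hζ : ζ.toZFSet ∈ N) (l : List V)
    (hl : ∀ x ∈ l, x ∈ N) : ∃ o : Ordinal.{0}, o.toZFSet ∈ N ∧ ζ ≤ o ∧ ∀ x ∈ l, x.rank < o := by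
  induction l with
  | nil => exact ⟨ζ, hζ, le_rfl, by simp⟩
  | cons a l ih =>
    obtain ⟨o, h1, h2, h3⟩ := ih fun x hx => hl x (List.mem_cons_of_mem _ hx)
    haveI : In N o := ⟨h1⟩
    haveI : In N a := ⟨hl a List.mem_cons_self⟩
    refine ⟨max o (a.rank + 1), mem_of N (max o (a.rank + 1)), h2.trans (le_max_left _ _), ?_⟩
    intro x hx
    rcases List.mem_cons.1 hx with rfl | k
    · exact (lt_add_one _).trans_le (le_max_right _ _)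
    · exact (h3 x k).trans_le (le_max_left _ _)
theorem exists_Hull (N : Set V) [IsZFC N] {ζ : Ordinal.{0}} (hζ : ζ.toZFSet ∈ N) (l : List V)
    (hl : ∀ x ∈ l, x ∈ N) : ∃ H G π κ, Hull N H G π κ ∧ (∀ x ∈ N, x.rank < ζ → x ∈ H) ∧
      ∀ x ∈ l, ∃ y ∈ G, app π y = x := by
  have hl' : ∀ x ∈ (om1 N).toZFSet :: l, x ∈ N := fun x hx => by
    rcases List.mem_cons.1 hx with rfl | k
    · exact om1_mem N
    · exact hl x k
  obtain ⟨o, h1, h2, h3⟩ := sb_bound N hζ _ hl'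
  obtain ⟨H, hH, hT, hc, hV⟩ := exists_T_model N h1
  have hin : ∀ x ∈ N, x.rank < o → x ∈ H := fun x hx hr =>
    IsZ.trans (M := (H : Set V)) _ hV x (mem_Vs.2 ⟨hx, hr⟩)
  obtain ⟨G, hG, π, hπ, hZ, he, hr⟩ := exists_ctbl_elem N hH _
    fun x hx => hin x (hl' x hx) (h3 x hx)
  obtain ⟨y, y1, y2⟩ := hr _ List.mem_cons_self
  have y3 : y.rank.toZFSet = y := IsOrdinal.toZFSet_rank_eq
    ((he.elem.iff1 pZ (fun _ (x : V) => x.IsOrdinal) (a := y) y1).2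
      (by rw [jm_V, y2]; exact isOrdinal_toZFSet _))
  refine ⟨H, G, π, y.rank, ⟨hH, hG, hπ, hT, he.elem.isT_left hZ.trans ⟨y, y1⟩, he,
    rank_lt_om1 ((mem_HC_iff.1 hG).2 y y1), y3.symm ▸ y1, ?_, fun x => ?_⟩,
    fun x hx hr => hin x hx (hr.trans_le h2), fun x hx => hr x (List.mem_cons_of_mem _ hx)⟩
  · rw [← he.elem.rank_map y1, y2, rank_toZFSet]
  induction x using ZFSet.inductionOn with
  | h x ih =>
  intro hx hc'
  obtain ⟨c1, c2⟩ := mem_HC_iff.1 hc'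
  have c3 : Ctbl (G : Set V) x := (he.elem.iff1 pZ (fun M (x : V) => Ctbl M x) (a := x) hx).2
    (hc.ctbl c1 fun z hz => IsZ.trans (M := (H : Set V)) _ (he.elem.1 x hx) z hz)
  have c4 : ∀ z ∈ x, app π z = z := fun z hz =>
    have k := IsZ.trans (M := (G : Set V)) _ hx z hz
    ih z hz k (c2 _ ((he.elem.mem_iff k hx).2 hz))
  rw [he.elem.map_ctbl hx c3]
  ext z
  exact mem_img.trans ⟨fun ⟨u, u1, u2⟩ => u2 ▸ (c4 u u1).symm ▸ u1, fun k => ⟨z, k, c4 z k⟩⟩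
theorem sb_ordHC {N : Set V} [IsZ N] {o : Ordinal.{0}} (h : o < om1 N) : o.toZFSet ∈ HC N :=
  mem_HC_of_trans (isOrdinal_toZFSet o).isTransitive (lt_om1_iff.1 h)
theorem sb_fix {N : Set V} [IsZFC N] {H G π : V} {κ ξ : Ordinal.{0}} (h : Hull N H G π κ)
    (hξ : ξ < κ) : ξ.toZFSet ∈ G ∧ app π ξ.toZFSet = ξ.toZFSet ∧ jm (app π) ξ = ξ := by
  haveI := h.isT
  haveI := h.isT'
  have k : ξ.toZFSet ∈ (G : Set V) := IsZ.ord_mem_of_le _ h.k_mem hξ.le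
  have e : app π ξ.toZFSet = ξ.toZFSet := h.fix _ k (by
    rw [h.elem.elem.map_ord k]
    exact sb_ordHC (h.k_map ▸ (h.elem.elem.jm_lt k h.k_mem).2 hξ))
  exact ⟨k, e, jm_of_fix e⟩
theorem sb_app_restr {f a x : V} (hx : x ∈ a) : app (restr f a) x = app f x := by
  unfold app
  congr 1
  ext y
  simp only [mem_sep, mem_ran, pair_mem_restr]
  exact ⟨fun k => ⟨⟨x, k.2.1⟩, k.2.1⟩, fun k => ⟨⟨x, k.2, hx⟩, k.2, hx⟩⟩
/-- a tree of length `ω₁` collapses to its initial segment -/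
theorem Hull.tree {N : Set V} [IsZFC N] {H G π T T₀ : V} {κ : Ordinal.{0}} (h : Hull N H G π κ)
    {P : PM} (hT : IsTree T P) (hl : lh T = om1 N) (hH : ∀ ξ < om1 N, rT T ξ ∈ HC N) (h0 : T₀ ∈ G)
    (e : app π T₀ = T) : T₀ = rT T κ ∧ Order.IsSuccLimit κ ∧ dl T κ = κ ∧ dl T (om1 N) = om1 N := by
  haveI := h.isT
  haveI := h.isT'
  have he := h.elem.elem
  have lim := isSuccLimit_om1 N
  have k1 : Order.IsSuccLimit κ := (he.iff1 pZ (fun _ (o : Ordinal.{0}) => Order.IsSuccLimit o)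
    (a := κ) h.k_mem).2 (h.k_map.symm ▸ lim)
  obtain ⟨k2, k3⟩ := (he.iff2 pZ (fun _ (T : V) (o : Ordinal.{0}) => IsFn T ∧ dom T = o.toZFSet)
    (a := T₀) (b := κ) h0 h.k_mem).2 (by rw [jm_V, e, h.k_map, ← hl]; exact ⟨hT.fn, hT.dom_eq⟩)
  have hk : κ ≤ lh T := hl ▸ h.lt.le
  have k4 : T₀ = rT T κ := by
    refine k2.ext (hT.restrict k1.pos hk).fn (k3.trans (hT.ta_dom hk).symm) fun x hx => ?_
    rw [k3] at hx
    obtain ⟨ξ, h1, rfl⟩ := mem_toZFSet_iff.1 hx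
    obtain ⟨h2, h3, -⟩ := sb_fix h h1
    have h4 : app π (app T₀ ξ.toZFSet) = app T ξ.toZFSet := by rw [he.map_app h0 h2, e, h3]
    have h5 : app T ξ.toZFSet ∈ HC N := by
      have := IsZ.app_mem (HC N) (hH _ (tb_succ lim (h1.trans h.lt))) ξ.toZFSet
      rwa [rT, sb_app_restr (toZFSet_mem_toZFSet_iff.2 (lt_add_one ξ))] at this
    rw [rT, sb_app_restr hx, ← h4, h.fix _ (IsZ.app_mem (G : Set V) h0 _) (h4 ▸ h5)]
  have k5 : dl T (om1 N) = om1 N := by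
    refine le_antisymm (osup_le_iff.2 fun x hx => ?_) (hT.dl_limit hl.ge lim).2.2
    have h1 := tb_succ lim (tb_succ lim (tb_ord hx))
    haveI : In (HC N) (rT T (x.rank + 1 + 1)) := ⟨hH _ h1⟩
    haveI : In (HC N) x.rank := ⟨sb_ordHC (tb_ord hx)⟩
    have h2 := rank_lt_om1 (mem_of (HC N) (idx (rT T (x.rank + 1 + 1)) x.rank))
    rw [enc_ord, rank_toZFSet, ta_idx (fun _ k => nd_rT k) (lt_add_one _)] at h2
    exact h2.le
  refine ⟨k4, k1, ?_, k5⟩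
  have k6 := (he.iff2 pZ (fun _ (T : V) (o : Ordinal.{0}) => dl T o = o)
    (a := T₀) (b := κ) h0 h.k_mem).2 (by rw [jm_V, e, h.k_map]; exact k5)
  rwa [k4, (com_congr k1 (rT_rT le_rfl)).1] at k6
/-- the limit of the images of `Y` along `b` -/
noncomputable def sb_Lim (T b : V) (β : Ordinal.{0}) (Y : V) : V :=
  bU (ZFSet.sep (fun g => β ≤ g.rank) b) fun g => cut (app (im T β g.rank) Y) (dl T g.rank)
instance sb_uf {a b c : Set V → (ℕ → V) → V} {o : Set V → (ℕ → V) → Ordinal.{0}} [UF F a] [UF F b]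
    [UF F o] [UF F c] : UF F (fun M v => sb_Lim (a M v) (b M v) (o M v) (c M v)) := by
  have := UF.lift (F := F) a; have := UF.lift (F := F) o; have := UF.lift (F := F) c
  unfold sb_Lim; infer_instance
theorem sb_mem {T b Y u : V} {l β : Ordinal.{0}} (hb : b ⊆ l.toZFSet) :
    u ∈ sb_Lim T b β Y ↔ ∃ γ < l, γ.toZFSet ∈ b ∧ β ≤ γ ∧ u ∈ app (im T β γ) Y ∧
      ∃ ζ < γ, u.rank < idx T ζ := by
  simp only [sb_Lim, mem_bU, mem_sep, mem_cut, dl, lt_osup_iff]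
  constructor
  · rintro ⟨g, ⟨h1, h2⟩, h3, z, h4, h5⟩
    exact ⟨g.rank, tb_ord (hb h1), (tcc_ord (hb h1)).symm ▸ h1, h2, h3, z.rank, tb_ord h4, h5⟩
  · rintro ⟨γ, -, h1, h2, h3, ζ, h4, h5⟩
    refine ⟨γ.toZFSet, ⟨h1, ?_⟩, ?_, ζ.toZFSet, ?_, ?_⟩ <;> rw [rank_toZFSet]
    exacts [h2, h3, toZFSet_mem_toZFSet_iff.2 h4, h5]
theorem sb_stab {T : V} {P : PM} (h : IsTree T P) {β γ γ' ζ : Ordinal.{0}} {Y u : V}
    (hγ : γ' < lh T) (h1 : tle T β γ) (h2 : tle T γ γ') (hY : Y ∈ (pmT T β).M) (hζ : ζ < γ)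
    (hu : u.rank < idx T ζ) : u ∈ app (im T β γ') Y ↔ u ∈ app (im T β γ) Y := by
  have h3 := (h.tle_le hγ h2).trans_lt hγ
  haveI := (h.pm _ hγ).isT
  haveI := (h.pm _ h3).isT
  obtain ⟨k1, k2⟩ := h.tb_low hγ h2 hζ
  have k := tb_cut_map (h.tb_el hγ h2) k1 k2 ((h.tb_el h3 h1).1 Y hY)
  rw [h.tb_comm hγ h1 h2 Y hY] at k
  have hu' := hu.trans_le (le_self_add (b := P.mu))
  exact ⟨fun a => tb_mem_of_cut k a hu', fun a => tb_mem_of_cut k.symm a hu'⟩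
theorem sb_L1 {T b : V} {P : PM} (h : IsTree T P) {l β γ ζ : Ordinal.{0}} {Y u : V} (hl : l ≤ lh T)
    (hb : CofBr T l b) (hβ : β.toZFSet ∈ b) (hY : Y ∈ (pmT T β).M) (hγ : γ < l)
    (hγb : γ.toZFSet ∈ b) (hle : β ≤ γ) (hζ : ζ < γ) (hu : u.rank < idx T ζ) :
    u ∈ sb_Lim T b β Y ↔ u ∈ app (im T β γ) Y := by
  rw [sb_mem hb.1]
  refine ⟨fun ⟨δ, a1, a2, a3, a4, ε, a5, a6⟩ => ?_, fun k => ⟨γ, hγ, hγb, hle, k, ζ, hζ, hu⟩⟩
  rcases le_total γ δ with k | k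
  · exact (sb_stab h (a1.trans_le hl) ((te_tle hb hγ hγb).2 ⟨hβ, hle⟩)
      ((te_tle hb a1 a2).2 ⟨hγb, k⟩) hY hζ hu).1 a4
  · exact (sb_stab h (hγ.trans_le hl) ((te_tle hb a1 a2).2 ⟨hβ, a3⟩)
      ((te_tle hb hγ hγb).2 ⟨a2, k⟩) hY a5 a6).2 a4
/-- the hull map is computed by the branch -/
theorem sb_K {N : Set V} [IsZFC N] {H G π T T₀ b b₀ : V} {κ : Ordinal.{0}} (h : Hull N H G π κ)
    {P : PM} (hT : IsTree T P) (hl : lh T = om1 N) (hH : ∀ ξ < om1 N, rT T ξ ∈ HC N) (h0 : T₀ ∈ G)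
    (e : app π T₀ = T) (hb : CofBr T (om1 N) b) (h1 : b₀ ∈ G) (e' : app π b₀ = b) :
    κ.toZFSet ∈ b ∧ ∀ X ∈ (pmT T κ).M, (∀ u ∈ X, u.rank < κ) → ∀ γ < om1 N, γ.toZFSet ∈ b → κ ≤ γ →
      ∀ ζ < γ, ∀ u : V, u.rank < idx T ζ → (u ∈ app π X ↔ u ∈ app (im T κ γ) X) := by
  haveI := h.isT
  haveI := h.isT'
  have he := h.elem.elem
  obtain ⟨t1, t2, t3, -⟩ := h.tree hT hl hH h0 e
  have c0 : CofBr T₀ κ b₀ := (he.iff3 pZ (fun _ (T : V) (o : Ordinal.{0}) (b : V) => CofBr T o b)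
    (a := T₀) (b := κ) (c := b₀) h0 h.k_mem h1).2 (by rw [jm_V, jm_V, e, e', h.k_map]; exact hb)
  have c1 : CofBr T κ b₀ := ((com_congr t2 (rT_rT le_rfl)).2.2.2.2.1 b₀).1 (t1 ▸ c0)
  have c2 : ∀ β < κ, β.toZFSet ∈ b₀ ↔ β.toZFSet ∈ b := fun β hβ => by
    obtain ⟨k1, k2, -⟩ := sb_fix h hβ
    rw [← he.mem_iff k1 h1, k2, e']
  have hκ : κ < lh T := hl ▸ h.lt
  have c3 : κ.toZFSet ∈ b := hT.cofBr_closed hl.ge hb h.lt t2 fun β hβ => by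
    obtain ⟨γ, k1, k2, k3⟩ := c1.2.1 β hβ
    exact ⟨γ, k1, k2, (c2 γ k1).1 k3⟩
  refine ⟨c3, fun X hX hr γ g1 g2 g3 ζ g4 u g5 => ?_⟩
  obtain ⟨β, b1, b2, Y, hY, rfl⟩ := hT.lim_dir κ hκ t2 X hX
  have b3 := ((td_tlt hb h.lt c3).1 b2).1
  obtain ⟨f1, f2, f3⟩ := sb_fix h b1
  have n0 : ∀ ξ < κ, nd T₀ ξ = nd T ξ := fun ξ k => t1 ▸ nd_rT k
  have m1 : (pmT T β).M ∈ G := by
    haveI : In (G : Set V) T₀ := ⟨h0⟩
    haveI : In (G : Set V) β := ⟨f1⟩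
    exact ta_pm n0 b1 ▸ memV_of (G : Set V) (pmT T₀ β).M
  have m2 : app π (pmT T β).M = (pmT T β).M := by
    have := he.map2 pZ (fun _ (T : V) (o : Ordinal.{0}) => (pmT T o).M) (a := T₀) (b := β) h0 f1
    rwa [jm_V, jm_V, e, f3, ta_pm n0 b1] at this
  have m3 : Y ∈ G := IsZ.trans (M := (G : Set V)) _ m1 Y hY
  have m4 : app π Y = Y := by
    refine h.fix Y m3 (IsZ.trans _ ?_ _ (m2 ▸ (he.mem_iff m3 m1).2 hY))
    have k := tb_succ (isSuccLimit_om1 N) (b1.trans h.lt)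
    have := ((hT.restrict (zero_le.trans_lt (lt_add_one β)) (hl ▸ k.le)).node_HC
      (hH _ k) (ξ := β)).1
    rwa [ta_pm (fun _ k => nd_rT k) (lt_add_one β)] at this
  have m5 : app (im T β κ) Y = sb_Lim T₀ b₀ β Y := by
    ext u
    rw [sb_mem c1.1]
    constructor
    · intro hu
      obtain ⟨z, z1, z2⟩ := lt_osup_iff.1 ((hr u hu).trans_eq t3.symm)
      have z3 := tb_ord z1
      obtain ⟨δ, d1, d2, d3⟩ := c1.2.1 (max β (z.rank + 1)) (max_lt b1 (tb_succ t2 z3))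
      have d4 := (lt_add_one _).trans_le ((le_max_right _ _).trans d2)
      have d5 := (le_max_left _ _).trans d2
      refine ⟨δ, d1, d3, d5, ?_, z.rank, d4, (ta_idx n0 (tb_succ t2 z3)).symm ▸ z2⟩
      rw [ta_im n0 d1]
      exact (sb_stab hT hκ ((te_tle c1 d1 d3).2 ⟨(c2 β b1).2 b3, d5⟩)
        ((te_tle hb h.lt c3).2 ⟨(c2 δ d1).1 d3, d1.le⟩) hY d4 z2).1 hu
    · rintro ⟨δ, d1, d3, d5, d6, ε, d4, z2⟩
      rw [ta_im n0 d1] at d6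
      rw [ta_idx n0 (tb_succ t2 (d4.trans d1))] at z2
      exact (sb_stab hT hκ ((te_tle c1 d1 d3).2 ⟨(c2 β b1).2 b3, d5⟩)
        ((te_tle hb h.lt c3).2 ⟨(c2 δ d1).1 d3, d1.le⟩) hY d4 z2).2 d6
  have m6 := he.map4 pZ (fun _ (T b : V) (o : Ordinal.{0}) (Y : V) => sb_Lim T b o Y)
    (a := T₀) (b := b₀) (c := β) (d := Y) h0 h1 f1 m3
  rw [jm_V, jm_V, jm_V, jm_V, e, e', f3, m4, ← m5] at m6
  rw [m6, sb_L1 hT hl.ge hb b3 hY g1 g2 (b1.le.trans g3) g4 g5,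
    hT.tb_comm (hl ▸ g1) (Or.inr b2) ((te_tle hb g1 g2).2 ⟨c3, g3⟩) Y hY]
/-- below `a` the extender `E` acts on the subsets of `V_κ` in `M` like `π` -/
def sb_Q (π : V) (κ : Ordinal.{0}) (M : V) (a : Ordinal.{0}) (E : V) : Prop :=
  (∀ X ∈ M, X ∈ dom E ↔ ∀ u ∈ X, u.rank < κ) ∧
    ∀ X ∈ dom E, ∀ u : V, u.rank < a → (u ∈ app E X ↔ u ∈ app π X)
theorem sb_typ {π M M' C E E' : V} {κ a : Ordinal.{0}} [IsZ (M : Set V)] [IsZ (M' : Set V)]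
    (h : sb_Q π κ M a E) (h' : sb_Q π κ M' a E') (hC : ∀ p ∈ C, p ∈ M ∧ p ∈ M') :
    typ C a E = typ C a E' := by
  ext p
  simp only [typ, mem_sep]
  refine and_congr_right fun hp => and_congr_right fun e => and_congr_right fun hr => ?_
  have k1 := ((IsZ.pair_mem_iff (M : Set V)).1 (e ▸ (hC p hp).1)).2
  have k2 := ((IsZ.pair_mem_iff (M' : Set V)).1 (e ▸ (hC p hp).2)).2
  have k3 := (h.1 _ k1).trans (h'.1 _ k2).symm
  by_cases k : snd p ∈ dom E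
  · rw [h.2 _ k _ hr, h'.2 _ (k3.1 k) _ hr]
  · rw [app_of_not_mem_dom k, app_of_not_mem_dom (mt k3.2 k)]
theorem sb_dom {M E : V} [IsZ (M : Set V)] (hE : IsExt E) (hA : Agr M E) :
    ∀ X ∈ M, X ∈ dom E ↔ ∀ u ∈ X, u.rank < crit E := fun X hX => by
  rw [hE.mem_dom]
  refine ⟨fun k u hu => (hE.mem_K.1 (k.2 hu)).2, fun k => ?_⟩
  have h1 := tb_mem_of_cut hA hX (Order.lt_add_one_iff.2 (rank_le_iff.2 k))
  exact ⟨h1, fun u hu => hE.mem_K.2 ⟨hE.trans _ h1 hu, k u hu⟩⟩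
/-- the first extender used on the branch after `κ` -/
theorem sb_first {N : Set V} [IsZFC N] {H G π T b : V} {κ : Ordinal.{0}} (h : Hull N H G π κ)
    {P : PM} (hT : IsTree T P) (hl : lh T = om1 N) (hH : ∀ ξ < om1 N, rT T ξ ∈ HC N)
    (h0 : ∃ y ∈ G, app π y = T) (hb : CofBr T (om1 N) b) (h1 : ∃ y ∈ G, app π y = b) :
    ∃ x, x + 1 < lh T ∧ exT T x ≠ ∅ ∧ crit (exT T x) = κ ∧
      sb_Q π κ (pmT T x).M (idx T x) (exT T x) := by
  obtain ⟨T₀, h0, e⟩ := h0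
  obtain ⟨b₀, h1, e'⟩ := h1
  obtain ⟨c3, K⟩ := sb_K h hT hl hH h0 e hb h1 e'
  have lim := isSuccLimit_om1 N
  have t2 := (h.tree hT hl hH h0 e).2.1
  have hκ : κ < lh T := hl ▸ h.lt
  have hκ1 : κ + 1 < lh T := hl ▸ tb_succ lim h.lt
  haveI := h.isT
  haveI := h.isT'
  haveI := (hT.pm κ hκ).isT
  have k1 := hT.le_idx hκ1
  have k2 : κ.toZFSet ∈ (pmT T κ).M := IsZ.ord_mem_of_le ((pmT T κ).M : Set V) (hT.pm κ hκ).th_mem
    (k1.trans (hT.legal κ hκ hκ1).2.2.1.le)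
  have mv : ∀ γ < om1 N, γ.toZFSet ∈ b → κ ≤ γ → ∀ ζ < γ, κ < idx T ζ →
      app (im T κ γ) κ.toZFSet ≠ κ.toZFSet := fun γ g1 g2 g3 ζ g4 g5 g6 => by
    have := (K _ k2 (fun u hu => tb_ord hu) γ g1 g2 g3 ζ g4 κ.toZFSet
      (by rwa [rank_toZFSet])).1 (by
        rw [h.elem.elem.map_ord h.k_mem, h.k_map]; exact toZFSet_mem_toZFSet_iff.2 h.lt)
    rw [g6] at this
    exact mem_irrefl _ this
  obtain ⟨γ, g1, g2, g3⟩ := hb.2.1 (κ + 1 + 1) (tb_succ lim (tb_succ lim h.lt))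
  have g4 : κ + 1 < γ := (lt_add_one _).trans_le g2
  have g5 : κ < γ := (lt_add_one _).trans g4
  have g6 : γ < lh T := hl ▸ g1
  obtain ⟨x, x1, x2, x3⟩ := hT.exists_next g6 ((td_tlt hb g1 g3).2 ⟨c3, g5⟩)
  have x4 := x1.trans_lt g6
  have x5 := (lt_add_one x).trans x4
  have x6 : tle T κ (x + 1) := Or.inr ((hT.tlt_succ_iff x4).2 (Or.inl x2.symm))
  have x7 := ((te_tle hb g1 g3).1 x3).1
  have hE : exT T x ≠ ∅ := fun hE => by
    have e1 : x = κ := (if_pos hE : pr T x = x).symm.trans x2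
    subst e1
    obtain ⟨p1, p2⟩ := hT.pad x x5 x4 hE
    refine mv γ g1 g3 g5.le (x + 1) g4
      (k1.trans_lt (hT.idx_lt ((Order.add_one_le_iff.2 g4).trans_lt g6) (lt_add_one x))) ?_
    rw [← hT.tb_comm g6 x6 x3 _ k2, p2 _ k2]
    exact hT.fix_low g6 x3 (lt_add_one x) (p1 ▸ k2) (by
      rw [rank_toZFSet]; exact k1.trans_lt (lt_add_of_pos_right _ (tb_mu_pos hT.tb_pm)))
  have hU := hT.ult x x5 x4 hE
  rw [x2] at hU
  have hP := hT.pm x x5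
  have hO := hT.tb_opt x4 hE
  have o1 := ((mem_optAt.1 hO).lt hP.shape).2.1
  have x8 := hT.tle_le x4 x6
  have hc : crit (exT T x) = κ := by
    refine le_antisymm (not_lt.1 fun k => mv (x + 1) (hl ▸ x4) x7 x8 x (lt_add_one x) (k.trans o1)
      (hU.fix k2 (by rwa [rank_toZFSet]))) (le_of_forall_lt fun ζ hζ => ?_)
    exact ((hT.le_idx ((tb_succ t2 hζ).trans hκ)).trans le_self_add).trans_lt
      (hT.tb_crit x5 hO hE (hζ.trans_eq x2.symm))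
  haveI := hP.isT
  haveI := hU.isT_right
  refine ⟨x, x4, hE, hc, hc ▸ sb_dom hU.ext (opt_agr hP hP hO (AgrP.refl _ _)), fun X hX u hu => ?_⟩
  have d1 : X ∈ (pmT T κ).M := (mem_pw.1 (hU.dom_eq ▸ hX)).1
  rw [K X d1 (hc ▸ (sb_dom hU.ext hU.agr X d1).1 hX) (x + 1) (hl ▸ x4) x7 x8 x (lt_add_one x) u hu,
    hU.val X hX, mem_inter, ← hU.cut_len, mem_cut, (mem_optAt.1 hO).2.2.1]
  exact ⟨fun k => k.1, fun k => ⟨k, IsZ.trans (M := ((pmT T (x + 1)).M : Set V)) _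
    (hU.elem.elem.1 X d1) u k, hu.trans_le le_self_add⟩⟩
/-- a later extender that acts like `π` has an initial segment among the earlier options -/
theorem sb_rst {π T : V} {P : PM} (hT : IsTree T P) {κ x y : Ordinal.{0}} (hy : y + 1 < lh T)
    (hlt : x < y) (hE : exT T y ≠ ∅) (hc : crit (exT T y) = κ) (hκ : κ < idx T x)
    (hQ : sb_Q π κ (pmT T y).M (idx T y) (exT T y)) :
    ∃ E ∈ PredP ((pmT T x).optAt (idx T x)) (exT T x), sb_Q π κ (pmT T x).M (idx T x) E := by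
  have y1 := (lt_add_one y).trans hy
  have x1 := (Order.add_one_le_iff.2 hlt).trans_lt y1
  have x2 := hlt.trans y1
  have hP := hT.pm y y1
  have hO := hT.tb_opt hy hE
  have hU := hT.ult y y1 hy hE
  have i1 := hT.idx_lt hy hlt
  have hI := (hT.legal x x2 x1).1
  have r1 := opt_rst hP hO hU (hc ▸ hκ) i1 hI
  have r2 : (pmT T y).optAt (idx T x) = (pmT T (x + 1)).optAt (idx T x) := by
    rcases (Order.add_one_le_iff.2 hlt).eq_or_lt with e | k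
    · rw [e]
    · exact hT.optAt_stable y1 k
        (hT.idx_lt ((Order.add_one_le_iff.2 k).trans_lt y1) (lt_add_one x))
  have m0 := lt_add_of_pos_right (idx T x) (tb_mu_pos hP)
  have r3 := (hU.ext.rst_spec (ρ := idx T x + (pmT T y).mu) (isSuccLimit_add _ hP.mu_lim)
    (hc ▸ hκ.trans m0) (by
      rw [(mem_optAt.1 hO).2.2.1]; exact add_le_add_left i1.le _)).2.2.2.2.2
  refine ⟨_, hT.optAt_succ x1 ▸ r2 ▸ r1, fun X hX => ?_, fun X hX u hu => ?_⟩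
  · haveI := hP.isT
    rw [r3]
    refine ⟨fun k u hu => hc ▸ (hU.ext.mem_K.1 ((hU.ext.mem_dom.1 k).2 hu)).2, fun k => ?_⟩
    exact (hQ.1 X (tb_mem_of_cut (hT.agr y1 hlt).M hX
      (((rank_le_iff.2 k).trans_lt hκ).trans_le le_self_add))).2 k
  · rw [r3] at hX
    rw [app_rst hX, mem_cut, hQ.2 X hX u (hu.trans i1)]
    exact and_iff_left (hu.trans m0)
/-- a comparison does not have length `ω₁` -/
theorem term_lemma (N : Set V) [IsZFC N] {T T' b b' : V} {P P' : PM} (h : IsTree T P)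
    (h' : IsTree T' P') (hT : T ∈ N) (hT' : T' ∈ N) (hl : lh T = om1 N) (hc : CmpPair T T')
    (hH : ∀ ξ < om1 N, rT T ξ ∈ HC N ∧ rT T' ξ ∈ HC N) (hb : b ∈ N) (hb' : b' ∈ N)
    (hcb : CofBr T (om1 N) b) (hcb' : CofBr T' (om1 N) b') : False := by
  obtain ⟨H, G, π, κ, hh, -, hr⟩ := exists_Hull N (om1_mem N) [T, T', b, b'] (by
    simp only [List.mem_cons, List.not_mem_nil, or_false, forall_eq_or_imp, forall_eq]
    exact ⟨hT, hT', hb, hb'⟩)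
  obtain ⟨x, x1, x2, x3, x4⟩ := sb_first hh h hl (fun ξ k => (hH ξ k).1) (hr _ (by simp)) hcb
    (hr _ (by simp))
  obtain ⟨y, y1, y2, y3, y4⟩ := sb_first hh h' (hc.1 ▸ hl) (fun ξ k => (hH ξ k).2) (hr _ (by simp))
    hcb' (hr _ (by simp))
  have x0 := (lt_add_one x).trans x1
  have y0 := (lt_add_one y).trans y1
  have x5 : κ < idx T x := x3 ▸ ((mem_optAt.1 (h.tb_opt x1 x2)).lt (h.pm x x0).shape).2.1
  have y5 : κ < idx T' y := y3 ▸ ((mem_optAt.1 (h'.tb_opt y1 y2)).lt (h'.pm y y0).shape).2.1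
  obtain ⟨a1, a2⟩ := hc.2 x x0 x1
  obtain ⟨b1, b2⟩ := hc.2 y (hc.1 ▸ y0) (hc.1 ▸ y1)
  haveI := (h.pm x x0).isT
  haveI := (h'.pm x (hc.1 ▸ x0)).isT
  haveI := (h.pm y (hc.1 ▸ y0)).isT
  haveI := (h'.pm y y0).isT
  rcases lt_trichotomy x y with k | rfl | k
  · obtain ⟨E, e1, e2⟩ := sb_rst h' y1 k y2 y3 (a1 ▸ x5) y4
    rw [← a1] at e1 e2
    exact a2.2.2.1 x2 (mem_img.2 ⟨E, e1, (sb_typ x4 e2 fun p hp => mem_inter.1 hp).symm⟩)
  · exact a2.2.2.2.2 x2 y2 (sb_typ x4 (a1 ▸ y4) fun p hp => mem_inter.1 hp)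
  · obtain ⟨E, e1, e2⟩ := sb_rst h x1 k x2 x3 (b1 ▸ y5) x4
    exact b2.2.2.2.1 y2 (mem_img.2 ⟨E, e1, sb_typ e2 (b1 ▸ y4) fun p hp => mem_inter.1 hp⟩)
-- JOB B END

-- JOB C BEGIN
/-- the invariant of the comparison at step `ζ` -/
def scPt (T T' : V) (ζ : Ordinal.{0}) : Prop :=
  (idx T ζ = idx T' ζ ∧ JInv ((pmT T ζ).optAt (idx T ζ)) ((pmT T' ζ).optAt (idx T ζ))
    ((pmT T ζ).M ∩ (pmT T' ζ).M) (idx T ζ) (exT T ζ) (exT T' ζ)) ∧
  (∀ a < idx T ζ, Agree ((pmT T ζ).optAt a) ((pmT T' ζ).optAt a)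
    ((pmT T ζ).M ∩ (pmT T' ζ).M) a) ∧
  Agree (PredP ((pmT T ζ).optAt (idx T ζ)) (exT T ζ))
    (PredP ((pmT T' ζ).optAt (idx T ζ)) (exT T' ζ)) ((pmT T ζ).M ∩ (pmT T' ζ).M) (idx T ζ)
instance sc_udPt {a b : Set V → (ℕ → V) → V} {o : Set V → (ℕ → V) → Ordinal.{0}} [UF F a] [UF F b]
    [UF F o] : UD F (fun M v => scPt (a M v) (b M v) (o M v)) := by
  have := UF.lift (F := F) a; have := UF.lift (F := F) b; have := UF.lift (F := F) o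
  unfold scPt; infer_instance

theorem sc_pt_rT {T T' : V} {l ζ : Ordinal.{0}} (h : ζ + 1 < l) :
    scPt (rT T l) (rT T' l) ζ ↔ scPt T T' ζ := by
  have e : ∀ ξ < l, nd (rT T l) ξ = nd T ξ := fun _ k => nd_rT k
  have e' : ∀ ξ < l, nd (rT T' l) ξ = nd T' ξ := fun _ k => nd_rT k
  have h0 := (lt_add_one ζ).trans h
  unfold scPt
  rw [ta_idx e h, ta_idx e' h, ta_ex e h, ta_ex e' h, ta_pm e h0, ta_pm e' h0]

/-- one side of the comparison -/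
def scSide (P : PM) (C : V → Prop) (T : V) (l : Ordinal.{0}) : Prop :=
  IsTree T P ∧ lh T = l ∧ AllC C T

theorem sc_succ {N : Set V} [IsZFC N] {P : PM} {C : V → Prop} (hs : Strat N P C) {T E : V}
    {η a : Ordinal.{0}} (hT : T ∈ HC N) (h : scSide P C T (η + 1)) (hL : Legal T η a E) :
    ∃ T₁ ∈ HC N, scSide P C T₁ (η + 1 + 1) ∧ rT T₁ (η + 1) = T ∧ idx T₁ η = a ∧ exT T₁ η = E := by
  obtain ⟨T₁, h1, h2, h3, h4, h5⟩ := exists_tree_succ (HC N) h.1 hT h.2.1 hL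
    (hs.succ T hT h.1 h.2.2 η a E h.2.1 hL)
  rw [← one_add_one_eq_two, ← add_assoc] at h3
  refine ⟨T₁, h1, ⟨h2, h3, fun l hl hlim => ?_⟩, h4, h5⟩
  rw [h3] at hl
  have k : l < η + 1 := (Order.lt_add_one_iff.1 hl).lt_of_ne fun e =>
    (hlim.add_one_lt (e ▸ lt_add_one η)).ne' e
  rw [← rT_rT (Order.add_one_le_iff.2 k), h4]
  exact h.2.2 l (h.2.1 ▸ k) hlim

theorem sc_lim {N : Set V} [IsZFC N] {P : PM} {C : V → Prop} (hs : Strat N P C) {T : V}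
    {l : Ordinal.{0}} (hT : T ∈ HC N) (h : scSide P C T l) (hl : Order.IsSuccLimit l) :
    ∃ T₁ ∈ HC N, scSide P C T₁ (l + 1) ∧ rT T₁ l = T := by
  obtain ⟨h1, rfl, h2⟩ := h
  obtain ⟨T₁, k1, k2, k3, k4, k5⟩ := hs.lim T hT h1 h2 hl
  refine ⟨T₁, k1, ⟨k2, k3, fun l hl hlim => ?_⟩, k4⟩
  rw [k3] at hl
  rcases (Order.lt_add_one_iff.1 hl).eq_or_lt with rfl | k
  · rw [← k3, k2.rT_lh]; exact k5
  · rw [← rT_rT (Order.add_one_le_iff.2 k), k4]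
    exact h2 l k hlim

theorem sc_one {N : Set V} [IsZFC N] {P : PM} (C : V → Prop) (hP : IsPM P) (hm : P.M ∈ HC N) :
    ∃ T ∈ HC N, scSide P C T (0 + 1) := by
  obtain ⟨T, h1, h2, h3⟩ := exists_tree_one (HC N) hP hm
  refine ⟨T, h1, h2, h3.trans (zero_add 1).symm, fun l hl hlim => ?_⟩
  rw [h3, Order.lt_one_iff] at hl
  exact absurd hl hlim.pos.ne'

/-- the union of a coherent sequence of trees -/
theorem sc_diag {P : PM} {C : V → Prop} {t : V → V} {l : Ordinal.{0}} (hl : Order.IsSuccLimit l)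
    (h : ∀ γ < l, scSide P C (t γ.toZFSet) (γ + 1) ∧
      ∀ β < γ, rT (t γ.toZFSet) (β + 1) = t β.toZFSet) :
    scSide P C (lam l.toZFSet fun x => app (t x) x) l ∧
      ∀ β < l, rT (lam l.toZFSet fun x => app (t x) x) (β + 1) = t β.toZFSet := by
  have key : ∀ β < l, rT (lam l.toZFSet fun x => app (t x) x) (β + 1) = t β.toZFSet := by
    intro β hβ
    obtain ⟨⟨h1, h2, -⟩, h3⟩ := h β hβ
    have e : rT (lam l.toZFSet fun x => app (t x) x) (β + 1) =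
        lam (β + 1).toZFSet fun x => app (t x) x := by
      have := restr_sq (fun o : Ordinal.{0} => app (t o.toZFSet) o.toZFSet)
        (Order.add_one_le_iff.2 hβ)
      have e : ∀ o : Ordinal.{0}, sq o (fun o : Ordinal.{0} => app (t o.toZFSet) o.toZFSet) =
          lam o.toZFSet fun x => app (t x) x := fun o => z2a_congr fun x hx => by
        beta_reduce
        rw [tcc_ord hx]; rfl
      rwa [e, e] at this
    rw [e, h1.fn.eq_lam, h1.dom_eq, h2]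
    refine z2a_congr fun x hx => ?_
    obtain ⟨ξ, hξ, rfl⟩ := mem_toZFSet_iff.1 hx
    rcases (Order.lt_add_one_iff.1 hξ).eq_or_lt with rfl | k
    · rfl
    · rw [← h3 ξ k]
      exact oat_restr (α := V) (lt_add_one ξ)
  obtain ⟨h1, h2⟩ := isTree_of_restr (P := P) (isFn_lam _ _) (dom_lam _ _) hl fun ξ hξ => by
    rw [key ξ hξ]; exact (h ξ hξ).1.1
  refine ⟨⟨h1, h2, fun ξ hξ hlim => ?_⟩, key⟩
  rw [h2] at hξ
  obtain ⟨⟨k1, k2, k3⟩, -⟩ := h ξ hξ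
  have := k3 ξ (k2 ▸ lt_add_one ξ) hlim
  rw [← k2, k1.rT_lh] at this
  rwa [key ξ hξ]

theorem sc_cut_inter {A A' B B' : V} {ρ ρ' b : Ordinal.{0}} (e : cut A ρ = cut B ρ)
    (e' : cut A' ρ' = cut B' ρ') (h : b ≤ ρ) (h' : b ≤ ρ') : cut (A ∩ A') b = cut (B ∩ B') b := by
  ext x
  simp only [mem_cut, mem_inter]
  exact and_congr_left fun k => and_congr
    ⟨fun m => pb_mem_of_cut e m (k.trans_le h), fun m => pb_mem_of_cut e.symm m (k.trans_le h)⟩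
    ⟨fun m => pb_mem_of_cut e' m (k.trans_le h'), fun m => pb_mem_of_cut e'.symm m (k.trans_le h')⟩

theorem sc_optAt {T : V} {P : PM} (h : IsTree T P) {γ η : Ordinal.{0}} (hη : η < lh T)
    (hlt : γ < η) : (pmT T η).optAt (idx T γ) = PredP ((pmT T γ).optAt (idx T γ)) (exT T γ) := by
  have k := Order.add_one_le_iff.2 hlt
  rw [← h.optAt_succ (k.trans_lt hη)]
  rcases k.eq_or_lt with rfl | k
  · rfl
  · exact h.optAt_stable hη k (h.idx_lt ((Order.add_one_le_iff.2 k).trans_lt hη) (lt_add_one γ))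

/-- earlier indices agree at later nodes -/
theorem sc_agree {T T' : V} {P P' : PM} (h : IsTree T P) (h' : IsTree T' P') {γ η b : Ordinal.{0}}
    (hη : η < lh T) (hη' : η < lh T') (hlt : γ < η) (hp : scPt T T' γ) (hb : b ≤ idx T γ) :
    Agree ((pmT T η).optAt b) ((pmT T' η).optAt b) ((pmT T η).M ∩ (pmT T' η).M) b := by
  obtain ⟨⟨e, -⟩, h1, h2⟩ := hp
  refine (agree_congr (optSec_optAt (h.pm η hη).shape b) (optSec_optAt (h'.pm η hη').shape b)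
    (sc_cut_inter (h.agr hη hlt).M (h'.agr hη' hlt).M (hb.trans le_self_add)
      ((hb.trans e.le).trans le_self_add))).1 ?_
  change Agree ((pmT T η).optAt b) ((pmT T' η).optAt b) _ b
  rcases hb.eq_or_lt with rfl | hb
  · rw [sc_optAt h hη hlt]
    have k := sc_optAt h' hη' hlt
    rw [← e] at k
    rw [k]
    exact h2
  · rw [h.optAt_stable hη hlt hb, h'.optAt_stable hη' hlt (e ▸ hb)]
    exact h1 b hb

/-- the successor step -/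
theorem sc_step {N : Set V} [IsZFC N] {P P' : PM} {C C' : V → Prop} (hs : Strat N P C)
    (hs' : Strat N P' C') (hn : ¬ Cmp P P') {T T' : V} {η : Ordinal.{0}} (hT : T ∈ HC N)
    (hT' : T' ∈ HC N) (h : scSide P C T (η + 1)) (h' : scSide P' C' T' (η + 1))
    (hp : ∀ ζ < η, scPt T T' ζ) :
    ∃ T₁ ∈ HC N, ∃ T₁' ∈ HC N, scSide P C T₁ (η + 1 + 1) ∧ scSide P' C' T₁' (η + 1 + 1) ∧
      rT T₁ (η + 1) = T ∧ rT T₁' (η + 1) = T' ∧ ∀ ζ < η + 1, scPt T₁ T₁' ζ := by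
  have hη : η < lh T := h.2.1 ▸ lt_add_one η
  have hη' : η < lh T' := h'.2.1 ▸ lt_add_one η
  have hq := h.1.pm η hη
  have hq' := h'.1.pm η hη'
  have hna : ¬ AgreeP (pmT T η) (pmT T' η) := fun k =>
    hn ⟨_, _, _, _, h.1.iter hη, h'.1.iter hη', k⟩
  obtain ⟨a, ⟨ha, hd⟩, hmin⟩ := WellFounded.has_min wellFounded_lt
    {a | a < min (pmT T η).th (pmT T' η).th ∧
      ¬ Agree ((pmT T η).optAt a) ((pmT T' η).optAt a) ((pmT T η).M ∩ (pmT T' η).M) a}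
    (by by_contra k; exact hna fun a ha => by_contra fun k' => k ⟨a, ha, k'⟩)
  have hI : IsI a := by
    by_contra k
    have e : ∀ Q : PM, IsPM Q → Q.optAt a = ∅ := fun Q hQ =>
      (ZFSet.eq_empty _).2 fun E hE => k ((mem_optAt.1 hE).lt hQ.shape).2.2
    rw [e _ hq, e _ hq'] at hd
    exact hd (agree_empty _ _)
  have hlt : ∀ γ < η, idx T γ < a := fun γ hγ => not_le.1 fun k =>
    hd (sc_agree h.1 h'.1 hη hη' hγ (hp γ hγ) k)
  obtain ⟨e, f, hJ, -, hA⟩ := resolution (optSec_optAt hq.shape a) (optSec_optAt hq'.shape a) hd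
  obtain ⟨T₁, m1, s1, r1, i1, x1⟩ := sc_succ hs hT h
    ⟨hI, hlt, ha.trans_le (min_le_left _ _), pc_jmem hJ⟩
  obtain ⟨T₁', m2, s2, r2, i2, x2⟩ := sc_succ hs' hT' h'
    ⟨hI, fun γ hγ => (hp γ hγ).1.1 ▸ hlt γ hγ, ha.trans_le (min_le_right _ _),
      pc_jmem (pc_jsymm hJ)⟩
  refine ⟨T₁, m1, T₁', m2, s1, s2, r1, r2, fun ζ hζ => ?_⟩
  rcases (Order.lt_add_one_iff.1 hζ).eq_or_lt with rfl | k
  · have p1 : pmT T₁ ζ = pmT T ζ := by
      rw [← r1]; exact (ta_pm (fun _ k => nd_rT k) (lt_add_one ζ)).symm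
    have p2 : pmT T₁' ζ = pmT T' ζ := by
      rw [← r2]; exact (ta_pm (fun _ k => nd_rT k) (lt_add_one ζ)).symm
    unfold scPt
    rw [i1, i2, x1, x2, p1, p2]
    exact ⟨⟨rfl, hJ⟩, fun b hb => by_contra fun k => hmin b ⟨hb.trans ha, k⟩ hb, hA⟩
  · rw [← sc_pt_rT (l := η + 1) ((Order.add_one_le_iff.2 k).trans_lt (lt_add_one η)), r1, r2]
    exact hp ζ k

/-- one coordinate of stage `β` of the construction -/
def scR (N : Set V) (P : PM) (C : V → Prop) (t : V → V) (β : Ordinal.{0}) (T : V) : Prop :=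
  T ∈ HC N ∧ scSide P C T (β + 1) ∧ ∀ ξ < β, rT T (ξ + 1) = t ξ.toZFSet
def scQ (N : Set V) (P P' : PM) (C C' : V → Prop) (s : V) (β : Ordinal.{0}) (y : V) : Prop :=
  scR N P C (fun x => fst (app s x)) β (fst y) ∧ scR N P' C' (fun x => snd (app s x)) β (snd y) ∧
    ∀ ζ < β, scPt (fst y) (snd y) ζ

theorem sc_restr {N : Set V} {P P' : PM} {C C' : V → Prop} {s y : V} {α β : Ordinal.{0}}
    (hd : dom s = α.toZFSet) (hβ : β < α)
    (h : scQ N P P' C C' (restr s β.toZFSet) (lh (restr s β.toZFSet)) y) : scQ N P P' C C' s β y := by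
  have e : lh (restr s β.toZFSet) = β := by
    have : dom (restr s β.toZFSet) = β.toZFSet := by
      ext x
      simp only [mem_dom, pair_mem_restr]
      refine ⟨fun ⟨_, k⟩ => k.2, fun k => ?_⟩
      obtain ⟨y, hy⟩ := mem_dom.1 (hd ▸ toZFSet_monotone hβ.le k : x ∈ dom s)
      exact ⟨y, hy, k⟩
    rw [lh, this, rank_toZFSet]
  rw [e] at h
  have k : ∀ ξ < β, app (restr s β.toZFSet) ξ.toZFSet = app s ξ.toZFSet := fun ξ hξ =>
    oat_restr (α := V) hξ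
  obtain ⟨⟨a1, a2, a3⟩, ⟨b1, b2, b3⟩, c⟩ := h
  exact ⟨⟨a1, a2, fun ξ hξ => (a3 ξ hξ).trans (congrArg fst (k ξ hξ))⟩,
    ⟨b1, b2, fun ξ hξ => (b3 ξ hξ).trans (congrArg snd (k ξ hξ))⟩, c⟩

/-- the pair of trees given by a sequence of limit length -/
theorem sc_union {N : Set V} [IsZFC N] {P P' : PM} {C C' : V → Prop} {s : V} {l : Ordinal.{0}}
    (hs : s ∈ N) (hm : l.toZFSet ∈ N) (hl : Order.IsSuccLimit l)
    (h : ∀ β < l, scQ N P P' C C' s β (app s β.toZFSet)) :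
    ∃ U ∈ N, ∃ U' ∈ N, (l < om1 N → U ∈ HC N ∧ U' ∈ HC N) ∧ scSide P C U l ∧ scSide P' C' U' l ∧
      (∀ β < l, rT U (β + 1) = fst (app s β.toZFSet) ∧ rT U' (β + 1) = snd (app s β.toZFSet)) ∧
      ∀ ζ < l, scPt U U' ζ := by
  haveI : In N s := ⟨hs⟩
  haveI : In N l := ⟨hm⟩
  obtain ⟨a1, a2⟩ := sc_diag (t := fun x => fst (app s x)) hl fun γ k => (h γ k).1.2
  obtain ⟨b1, b2⟩ := sc_diag (t := fun x => snd (app s x)) hl fun γ k => (h γ k).2.1.2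
  have m1 : (lam l.toZFSet fun x => app (fst (app s x)) x) ∈ N := memV_of N _
  have m2 : (lam l.toZFSet fun x => app (snd (app s x)) x) ∈ N := memV_of N _
  refine ⟨_, m1, _, m2, fun k => ⟨tcc_HC_lam m1 (ord_mem_HC.2 k) fun x hx => ?_,
    tcc_HC_lam m2 (ord_mem_HC.2 k) fun x hx => ?_⟩, a1, b1, fun β k => ⟨a2 β k, b2 β k⟩,
    fun ζ k => ?_⟩
  · obtain ⟨ξ, hξ, rfl⟩ := mem_toZFSet_iff.1 hx
    exact IsZ.app_mem (M := HC N) (h ξ hξ).1.1 _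
  · obtain ⟨ξ, hξ, rfl⟩ := mem_toZFSet_iff.1 hx
    exact IsZ.app_mem (M := HC N) (h ξ hξ).2.1.1 _
  · have k' := hl.add_one_lt k
    rw [← sc_pt_rT (lt_add_one (ζ + 1)), a2 _ k', b2 _ k']
    exact (h _ k').2.2 ζ (lt_add_one ζ)

theorem sc_next {N : Set V} [IsZFC N] {P P' : PM} (hP : IsPM P) (hP' : IsPM P')
    (hm : P.M ∈ HC N) (hm' : P'.M ∈ HC N) {C C' : V → Prop} (hs : Strat N P C)
    (hs' : Strat N P' C') (hn : ¬ Cmp P P') {s : V} {α : Ordinal.{0}} (hα : α < om1 N) (hN : s ∈ N)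
    (h : ∀ β < α, scQ N P P' C C' s β (app s β.toZFSet)) : ∃ y ∈ N, scQ N P P' C C' s α y := by
  suffices k : ∃ T T', scR N P C (fun x => fst (app s x)) α T ∧
      scR N P' C' (fun x => snd (app s x)) α T' ∧ ∀ ζ < α, scPt T T' ζ by
    obtain ⟨T, T', k1, k2, k3⟩ := k
    refine ⟨pair T T', (IsZ.pair_mem_iff N).2 ⟨HC_subset N k1.1, HC_subset N k2.1⟩, ?_⟩
    unfold scQ
    rw [fst_pair, snd_pair]
    exact ⟨k1, k2, k3⟩
  rcases zero_or_succ_or_isSuccLimit α with rfl | ⟨η, rfl⟩ | hl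
  · obtain ⟨T, a1, a2⟩ := sc_one C hP hm
    obtain ⟨T', b1, b2⟩ := sc_one C' hP' hm'
    exact ⟨T, T', ⟨a1, a2, fun _ k => absurd k not_lt_bot⟩, ⟨b1, b2, fun _ k => absurd k not_lt_bot⟩,
      fun _ k => absurd k not_lt_bot⟩
  · obtain ⟨⟨a1, a2, a3⟩, ⟨b1, b2, b3⟩, c⟩ := h η (lt_add_one η)
    obtain ⟨T, m1, T', m2, s1, s2, r1, r2, p⟩ := sc_step hs hs' hn a1 b1 a2 b2 c
    refine ⟨T, T', ⟨m1, s1, fun ξ k => ?_⟩, ⟨m2, s2, fun ξ k => ?_⟩, p⟩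
    · rcases (Order.lt_add_one_iff.1 k).eq_or_lt with rfl | k
      · exact r1
      · rw [← rT_rT (add_le_add_left k.le 1), r1]; exact a3 ξ k
    · rcases (Order.lt_add_one_iff.1 k).eq_or_lt with rfl | k
      · exact r2
      · rw [← rT_rT (add_le_add_left k.le 1), r2]; exact b3 ξ k
  · obtain ⟨U, -, U', -, m, a, b, c, p⟩ :=
      sc_union hN (IsZ.ord_mem_of_le N (om1_mem N) hα.le) hl h
    obtain ⟨T, m1, s1, r1⟩ := sc_lim hs (m hα).1 a hl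
    obtain ⟨T', m2, s2, r2⟩ := sc_lim hs' (m hα).2 b hl
    refine ⟨T, T', ⟨m1, s1, fun ξ k => ?_⟩, ⟨m2, s2, fun ξ k => ?_⟩, fun ζ k => ?_⟩
    · rw [← rT_rT (Order.add_one_le_iff.2 k), r1]; exact (c ξ k).1
    · rw [← rT_rT (Order.add_one_le_iff.2 k), r2]; exact (c ξ k).2
    · rw [← sc_pt_rT (hl.add_one_lt k), r1, r2]; exact p ζ k

/-- the comparison process -/
theorem cmp_of_strat (N : Set V) [IsZFC N] {P P' : PM} (hP : IsPM P) (hP' : IsPM P')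
    (hm : P.M ∈ HC N) (hm' : P'.M ∈ HC N) (C C' : V → Prop)
    [UD (loc N) (fun _ v => C (vr v 0))] [UD (loc N) (fun _ v => C' (vr v 0))]
    (hs : Strat N P C) (hs' : Strat N P' C') : Cmp P P' := by
  by_contra hn
  haveI : In N P := ⟨hP.enc_mem (HC_subset N hm)⟩
  haveI : In N P' := ⟨hP'.enc_mem (HC_subset N hm')⟩
  haveI : UD (loc N) (fun _ v => scQ N P P' C C' (vr (tl v) 0) (lh (vr (tl v) 0)) (vr v 0)) := by
    have : ∀ (a : Set V → (ℕ → V) → V) [UF (loc N) a], UD (loc N) (fun M v => C (a M v)) :=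
      fun a _ => UD.lift (fun _ v => C (vr v 0)) (fun M v => cons (a M v) v)
    have : ∀ (a : Set V → (ℕ → V) → V) [UF (loc N) a], UD (loc N) (fun M v => C' (a M v)) :=
      fun a _ => UD.lift (fun _ v => C' (vr v 0)) (fun M v => cons (a M v) v)
    unfold scQ scR scSide AllC
    infer_instance
  obtain ⟨s, hN, -, hd, h⟩ := trans_dc N (fun r y => scQ N P P' C C' r (lh r) y) (om1_mem N)
    fun α hα s hN _ hd h => by
      have e : lh s = α := by rw [lh, hd, rank_toZFSet]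
      rw [e]
      exact sc_next hP hP' hm hm' hs hs' hn hα hN fun β k => sc_restr hd k (h β k)
  replace h := fun β k => sc_restr hd k (h β k)
  obtain ⟨U, m1, U', m2, -, a, b, c, p⟩ := sc_union hN (om1_mem N) (isSuccLimit_om1 N) h
  have r : ∀ {T : V} {ξ : Ordinal.{0}}, ξ < om1 N → rT T (ξ + 1) ∈ HC N → rT T ξ ∈ HC N :=
    fun {T ξ} k k' => by
      haveI : In (HC N) (rT T (ξ + 1)) := ⟨k'⟩
      haveI : In (HC N) ξ := ⟨ord_mem_HC.2 k⟩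
      rw [← rT_rT (le_self_add : ξ ≤ ξ + 1)]
      exact memV_of (HC N) _
  have hH : ∀ ξ < om1 N, rT U ξ ∈ HC N ∧ rT U' ξ ∈ HC N := fun ξ k =>
    ⟨r k ((c ξ k).1 ▸ (h ξ k).1.1), r k ((c ξ k).2 ▸ (h ξ k).2.1.1)⟩
  obtain ⟨d, d1, d2⟩ := hs.top U m1 a.1 a.2.2 a.2.1 fun ξ k => (hH ξ k).1
  obtain ⟨d', e1, e2⟩ := hs'.top U' m2 b.1 b.2.2 b.2.1 fun ξ k => (hH ξ k).2
  exact term_lemma N a.1 b.1 m1 m2 a.2.1
    ⟨a.2.1.trans b.2.1.symm, fun ξ k _ => (p ξ (a.2.1 ▸ k)).1⟩ hH d1 e1 d2 e2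
-- JOB C END

end Pool.Agent.Lib.MP_f9eb18_lc.W
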