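import Pool.Agent.Lib.MP_f9eb18_lc.W.P

/-! # Padded normal iteration trees on coarse premice -/

namespace Pool.Agent.Lib.MP_f9eb18_lc.W

open Ordinal ZFSet Classical
set_option linter.style.haveILetI false
set_option linter.unusedVariables false
set_option synthInstance.maxSize 100000

variable {F : Fr}

/-! A tree is a function `T` on an ordinal; `T(ξ)` codes `(P_ξ, B_ξ, I_ξ, a, E)` where `B_ξ` is the set
of tree predecessors, `I_ξ(β) = i_{β,ξ}` for `β ∈ B_ξ ∪ {ξ}`, and for `ξ = ζ + 1` the index `a` and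
the extender `E` (or `∅` for padding) are those of step `ζ`. -/
abbrev Node := PM × V × V × Ordinal.{0} × V
noncomputable def lh (T : V) : Ordinal.{0} := (dom T).rank
noncomputable def nd (T : V) (ξ : Ordinal.{0}) : Node := oat T ξ
noncomputable def pmT (T : V) (ξ : Ordinal.{0}) : PM := (nd T ξ).1
noncomputable def brT (T : V) (ξ : Ordinal.{0}) : V := (nd T ξ).2.1
noncomputable def im (T : V) (β ξ : Ordinal.{0}) : V := app (nd T ξ).2.2.1 β.toZFSet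
noncomputable def idx (T : V) (ξ : Ordinal.{0}) : Ordinal.{0} := (nd T (ξ + 1)).2.2.2.1
noncomputable def exT (T : V) (ξ : Ordinal.{0}) : V := (nd T (ξ + 1)).2.2.2.2
def tlt (T : V) (β ξ : Ordinal.{0}) : Prop := β.toZFSet ∈ brT T ξ
def tle (T : V) (β ξ : Ordinal.{0}) : Prop := β = ξ ∨ tlt T β ξ
/-- the node to which an extender `E` taken from node `ξ` is applied -/
noncomputable def prd (T : V) (ξ : Ordinal.{0}) (E : V) : Ordinal.{0} :=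
  if E = ∅ then ξ else olst ξ (fun γ => crit E ≤ idx T γ)
/-- tree predecessor of `ξ + 1` -/
noncomputable def pr (T : V) (ξ : Ordinal.{0}) : Ordinal.{0} := prd T ξ (exT T ξ)

/-- `(a, E)` may be played at node `η` -/
def Legal (T : V) (η a : Ordinal.{0}) (E : V) : Prop :=
  IsI a ∧ (∀ γ < η, idx T γ < a) ∧ a < (pmT T η).th ∧ (E = ∅ ∨ E ∈ (pmT T η).optAt a)

structure IsTree (T : V) (P : PM) : Prop where
  fn : IsFn T
  dom_eq : dom T = (lh T).toZFSet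
  pos : 0 < lh T
  root : pmT T 0 = P
  pm : ∀ ξ < lh T, IsPM (pmT T ξ)
  br_sub : ∀ ξ < lh T, brT T ξ ⊆ ξ.toZFSet
  br_br : ∀ ξ < lh T, ∀ β < ξ, tlt T β ξ → brT T β = cut (brT T ξ) β
  elem : ∀ ξ < lh T, ∀ β ≤ ξ, tle T β ξ → ElemPM (im T β ξ) (pmT T β) (pmT T ξ)
  im_self : ∀ ξ < lh T, ∀ x ∈ (pmT T ξ).M, app (im T ξ ξ) x = x
  comm : ∀ ξ < lh T, ∀ γ ≤ ξ, ∀ β ≤ γ, tle T γ ξ → tle T β γ → ∀ x ∈ (pmT T β).M,
    app (im T γ ξ) (app (im T β γ) x) = app (im T β ξ) x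
  legal : ∀ ξ < lh T, ξ + 1 < lh T → Legal T ξ (idx T ξ) (exT T ξ)
  br_succ : ∀ ξ < lh T, ξ + 1 < lh T →
    brT T (ξ + 1) = insert (pr T ξ).toZFSet (brT T (pr T ξ))
  pad : ∀ ξ < lh T, ξ + 1 < lh T → exT T ξ = ∅ →
    pmT T (ξ + 1) = pmT T ξ ∧ ∀ x ∈ (pmT T ξ).M, app (im T ξ (ξ + 1)) x = x
  ult : ∀ ξ < lh T, ξ + 1 < lh T → exT T ξ ≠ ∅ →
    IsUlt (pmT T (pr T ξ)).M (exT T ξ) (pmT T (ξ + 1)).M (im T (pr T ξ) (ξ + 1))
  lim_cof : ∀ l < lh T, Order.IsSuccLimit l → ∀ β < l, ∃ γ < l, β ≤ γ ∧ tlt T γ l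
  lim_dir : ∀ l < lh T, Order.IsSuccLimit l → ∀ y ∈ (pmT T l).M,
    ∃ β < l, tlt T β l ∧ ∃ x ∈ (pmT T β).M, app (im T β l) x = y

/-- initial segment of a tree -/
noncomputable def rT (T : V) (l : Ordinal.{0}) : V := restr T l.toZFSet
/-- `b` is a cofinal branch of `T ↾ l` -/
def CofBr (T : V) (l : Ordinal.{0}) (b : V) : Prop :=
  b ⊆ l.toZFSet ∧ (∀ β < l, ∃ γ < l, β ≤ γ ∧ γ.toZFSet ∈ b) ∧
    ∀ β < l, β.toZFSet ∈ b → brT T β = cut b β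
noncomputable def dl (T : V) (l : Ordinal.{0}) : Ordinal.{0} :=
  osup l.toZFSet (fun x => idx T x.rank)
noncomputable def comA (T : V) (l : Ordinal.{0}) : V :=
  bU l.toZFSet (fun x => cut (pmT T x.rank).A (idx T x.rank))
noncomputable def comW (T : V) (l : Ordinal.{0}) : V :=
  bU l.toZFSet (fun x => cut (pmT T x.rank).w (idx T x.rank))
noncomputable def comS (T : V) (l : Ordinal.{0}) : V :=
  bU l.toZFSet (fun x => cut (pmT T x.rank).S (idx T x.rank))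
/-- a tail of the extenders used on `b` coheres with `B` -/
def TailStrong (T : V) (l : Ordinal.{0}) (b B : V) : Prop :=
  ∃ β < l, ∀ ξ < l, β ≤ ξ → (ξ + 1).toZFSet ∈ b → exT T ξ ≠ ∅ → Strong (exT T ξ) B
/-- `δ` is a limit of critical point coordinates of `S` -/
def Rel (S : V) (δ : Ordinal.{0}) : Prop :=
  0 < δ ∧ ∀ β < δ, ∃ p ∈ S, β < (fst p).rank ∧ (fst p).rank < δ
/-- the branch `b` is realized into `Ps` by the family `t`, commuting with `σ` -/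
def RealBy (T b σ : V) (Ps : PM) (t : V) : Prop :=
  (∀ β : Ordinal.{0}, β.toZFSet ∈ b → ElemPM (app t β.toZFSet) (pmT T β) Ps) ∧
  (∀ γ : Ordinal.{0}, γ.toZFSet ∈ b → ∀ β < γ, β.toZFSet ∈ b → ∀ x ∈ (pmT T β).M,
    app (app t γ.toZFSet) (app (im T β γ) x) = app (app t β.toZFSet) x) ∧
  ∀ x ∈ (pmT T 0).M, app (app t ∅) x = app σ x
def RealB (N : Set V) (T b σ : V) (Ps : PM) : Prop := ∃ t ∈ N, RealBy T b σ Ps t
/-- `σ : P → Ps` witnesses that `P` is a true premouse over `N` -/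
structure TrueW (N : Set V) (P : PM) (σ : V) (Ps : PM) : Prop where
  pm : IsPM P
  pms : IsPM Ps
  mem : σ ∈ N
  mems : Ps.M ∈ N
  elem : ElemPM σ P Ps
  bkg : Bkg N Ps.A Ps.mu
  inac : Inac N Ps.mu
/-- `Q` is an iterate of `P` via `i` -/
structure Iter (P Q : PM) (i : V) : Prop where
  pm : IsPM Q
  elem : ElemPM i P Q
  fix : ∀ β, CritGt P.S β → CritGt Q.S β ∧ cut Q.M (β + 1) = cut P.M (β + 1) ∧
    ∀ x ∈ P.M, x.rank ≤ β → app i x = x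

/-- the realization theorem -/
def RTStmt : Prop :=
  ∀ (N : Set V) [IsZFC N] (T : V) (P : PM) (σ : V) (Ps : PM), T ∈ HC N → IsTree T P →
    TrueW N P σ Ps →
    (∃ l ≤ lh T, Order.IsSuccLimit l ∧ ∃ b ∈ N, CofBr T l b ∧ RealB N T b σ Ps ∧
      (l = lh T ∨ b ≠ brT T l)) ∨
    (∃ η, lh T = η + 1 ∧
      (∃ τ ∈ N, ElemPM τ (pmT T η) Ps ∧ ∀ x ∈ P.M, app τ (app (im T 0 η) x) = app σ x) ∧
      ∀ a E, Legal T η a E → E ≠ ∅ → UWF (pmT T (prd T η E)).M E)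

-- JOB A BEGIN
section inst
variable {a b c d e : Set V → (ℕ → V) → V} {o q r : Set V → (ℕ → V) → Ordinal.{0}}
  {p p' : Set V → (ℕ → V) → PM} {D : Set V → (ℕ → V) → Set V}
instance uf_lh [UF F a] : UF F (fun M v => lh (a M v)) := by unfold lh; infer_instance
instance uf_nd [UF F a] [UF F o] : UF F (fun M v => nd (a M v) (o M v)) := by
  unfold nd; infer_instance
instance uf_pmT' [UF F a] [UF F o] : UF F (fun M v => pmT (a M v) (o M v)) := by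
  unfold pmT; infer_instance
instance uf_brT [UF F a] [UF F o] : UF F (fun M v => brT (a M v) (o M v)) := by
  unfold brT; infer_instance
instance uf_im [UF F a] [UF F o] [UF F q] : UF F (fun M v => im (a M v) (o M v) (q M v)) := by
  unfold im; infer_instance
instance uf_idx [UF F a] [UF F o] : UF F (fun M v => idx (a M v) (o M v)) := by
  unfold idx; infer_instance
instance uf_exT [UF F a] [UF F o] : UF F (fun M v => exT (a M v) (o M v)) := by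
  unfold exT; infer_instance
instance ud_tlt [UF F a] [UF F o] [UF F q] : UD F (fun M v => tlt (a M v) (o M v) (q M v)) := by
  unfold tlt; infer_instance
instance ud_tle [UF F a] [UF F o] [UF F q] : UD F (fun M v => tle (a M v) (o M v) (q M v)) := by
  unfold tle; infer_instance
instance uf_prd [UF F a] [UF F o] [UF F b] : UF F (fun M v => prd (a M v) (o M v) (b M v)) := by
  have := UF.lift (F := F) a; have := UF.lift (F := F) b; unfold prd; infer_instance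
instance uf_pr [UF F a] [UF F o] : UF F (fun M v => pr (a M v) (o M v)) := by
  unfold pr; infer_instance
instance ud_legal [UF F a] [UF F o] [UF F q] [UF F b] :
    UD F (fun M v => Legal (a M v) (o M v) (q M v) (b M v)) := by
  have := UF.lift (F := F) a; have := UF.lift (F := F) q; unfold Legal; infer_instance
/-- conditions at every node -/
def taN (T : V) (ξ : Ordinal.{0}) : Prop :=
  IsPM (pmT T ξ) ∧ brT T ξ ⊆ ξ.toZFSet ∧ (∀ β < ξ, tlt T β ξ → brT T β = cut (brT T ξ) β) ∧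
  (∀ β ≤ ξ, tle T β ξ → ElemPM (im T β ξ) (pmT T β) (pmT T ξ)) ∧
  (∀ x ∈ (pmT T ξ).M, app (im T ξ ξ) x = x) ∧
  ∀ γ ≤ ξ, ∀ β ≤ γ, tle T γ ξ → tle T β γ → ∀ x ∈ (pmT T β).M,
    app (im T γ ξ) (app (im T β γ) x) = app (im T β ξ) x
/-- conditions at successor steps -/
def taS (T : V) (ξ : Ordinal.{0}) : Prop :=
  Legal T ξ (idx T ξ) (exT T ξ) ∧ brT T (ξ + 1) = insert (pr T ξ).toZFSet (brT T (pr T ξ)) ∧
  (exT T ξ = ∅ → pmT T (ξ + 1) = pmT T ξ ∧ ∀ x ∈ (pmT T ξ).M, app (im T ξ (ξ + 1)) x = x) ∧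
  (exT T ξ ≠ ∅ → IsUlt (pmT T (pr T ξ)).M (exT T ξ) (pmT T (ξ + 1)).M (im T (pr T ξ) (ξ + 1)))
/-- conditions at limit nodes -/
def taL (T : V) (l : Ordinal.{0}) : Prop :=
  (∀ β < l, ∃ γ < l, β ≤ γ ∧ tlt T γ l) ∧
  ∀ y ∈ (pmT T l).M, ∃ β < l, tlt T β l ∧ ∃ x ∈ (pmT T β).M, app (im T β l) x = y
theorem ta_isTree_iff (T : V) (P : PM) : IsTree T P ↔
    (IsFn T ∧ dom T = (lh T).toZFSet ∧ 0 < lh T ∧ pmT T 0 = P) ∧ (∀ ξ < lh T, taN T ξ) ∧
      (∀ ξ < lh T, ξ + 1 < lh T → taS T ξ) ∧ ∀ ξ < lh T, Order.IsSuccLimit ξ → taL T ξ :=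
  ⟨fun h => ⟨⟨h.fn, h.dom_eq, h.pos, h.root⟩,
      fun ξ k => ⟨h.pm ξ k, h.br_sub ξ k, h.br_br ξ k, h.elem ξ k, h.im_self ξ k, h.comm ξ k⟩,
      fun ξ k k' => ⟨h.legal ξ k k', h.br_succ ξ k k', h.pad ξ k k', h.ult ξ k k'⟩,
      fun ξ k k' => ⟨h.lim_cof ξ k k', h.lim_dir ξ k k'⟩⟩,
    fun ⟨⟨h1, h2, h3, h4⟩, n, s, l⟩ => ⟨h1, h2, h3, h4, fun ξ k => (n ξ k).1,
      fun ξ k => (n ξ k).2.1, fun ξ k => (n ξ k).2.2.1, fun ξ k => (n ξ k).2.2.2.1,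
      fun ξ k => (n ξ k).2.2.2.2.1, fun ξ k => (n ξ k).2.2.2.2.2, fun ξ k k' => (s ξ k k').1,
      fun ξ k k' => (s ξ k k').2.1, fun ξ k k' => (s ξ k k').2.2.1,
      fun ξ k k' => (s ξ k k').2.2.2, fun ξ k k' => (l ξ k k').1, fun ξ k k' => (l ξ k k').2⟩⟩
instance ta_udN [UF F a] [UF F o] : UD F (fun M v => taN (a M v) (o M v)) := by
  have := UF.lift (F := F) a; have := UF.lift (F := F) o; unfold taN; infer_instance
instance ta_udS [UF F a] [UF F o] : UD F (fun M v => taS (a M v) (o M v)) := by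
  have := UF.lift (F := F) a; have := UF.lift (F := F) o; unfold taS; infer_instance
instance ta_udL [UF F a] [UF F o] : UD F (fun M v => taL (a M v) (o M v)) := by
  have := UF.lift (F := F) a; have := UF.lift (F := F) o; unfold taL; infer_instance
instance ud_isTree [UF F a] [UF F p] : UD F (fun M v => IsTree (a M v) (p M v)) := by
  have := UF.lift (F := F) a
  have h1 : UD F (fun M v => IsFn (a M v) ∧ dom (a M v) = (lh (a M v)).toZFSet ∧ 0 < lh (a M v) ∧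
      pmT (a M v) 0 = p M v) := inferInstance
  have h2 : UD F (fun M v => ∀ ξ < lh (a M v), taN (a M v) ξ) := inferInstance
  have h3 : UD F (fun M v => ∀ ξ < lh (a M v), ξ + 1 < lh (a M v) → taS (a M v) ξ) := inferInstance
  have h4 : UD F (fun M v => ∀ ξ < lh (a M v), Order.IsSuccLimit ξ → taL (a M v) ξ) := inferInstance
  exact (UD.and (h := h1) (k := UD.and (h := h2) (k := UD.and (h := h3) (k := h4)))).congr
    fun M _ v _ => ta_isTree_iff _ _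
instance uf_rT [UF F a] [UF F o] : UF F (fun M v => rT (a M v) (o M v)) := by
  unfold rT; infer_instance
instance ud_cofBr [UF F a] [UF F o] [UF F b] : UD F (fun M v => CofBr (a M v) (o M v) (b M v)) := by
  have := UF.lift (F := F) a; have := UF.lift (F := F) o; have := UF.lift (F := F) b
  unfold CofBr; infer_instance
instance uf_dl [UF F a] [UF F o] : UF F (fun M v => dl (a M v) (o M v)) := by
  have := UF.lift (F := F) a; unfold dl; infer_instance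
instance uf_comA [UF F a] [UF F o] : UF F (fun M v => comA (a M v) (o M v)) := by
  have := UF.lift (F := F) a; unfold comA; infer_instance
instance uf_comW [UF F a] [UF F o] : UF F (fun M v => comW (a M v) (o M v)) := by
  have := UF.lift (F := F) a; unfold comW; infer_instance
instance uf_comS [UF F a] [UF F o] : UF F (fun M v => comS (a M v) (o M v)) := by
  have := UF.lift (F := F) a; unfold comS; infer_instance
instance ud_tailStrong [UF F a] [UF F o] [UF F b] [UF F c] :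
    UD F (fun M v => TailStrong (a M v) (o M v) (b M v) (c M v)) := by
  have := UF.lift (F := F) a; have := UF.lift (F := F) o; have := UF.lift (F := F) b
  have := UF.lift (F := F) c; unfold TailStrong; infer_instance
instance ud_rel [UF F a] [UF F o] : UD F (fun M v => Rel (a M v) (o M v)) := by
  have := UF.lift (F := F) a; have := UF.lift (F := F) o; unfold Rel; infer_instance
instance ud_realBy [UF F a] [UF F b] [UF F c] [UF F p] [UF F d] :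
    UD F (fun M v => RealBy (a M v) (b M v) (c M v) (p M v) (d M v)) := by
  have := UF.lift (F := F) a; have := UF.lift (F := F) b; have := UF.lift (F := F) c
  have := UF.lift (F := F) p; have := UF.lift (F := F) d; unfold RealBy; infer_instance
instance ud_realB [UC F D] [UF F a] [UF F b] [UF F c] [UF F p] :
    UD F (fun M v => RealB (D M v) (a M v) (b M v) (c M v) (p M v)) := by
  have := UF.lift (F := F) a; have := UF.lift (F := F) b; have := UF.lift (F := F) c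
  have := UF.lift (F := F) p; unfold RealB; infer_instance
end inst

/-! ### restriction, tree order -/
theorem nd_rT {T : V} {l ξ : Ordinal.{0}} (h : ξ < l) : nd (rT T l) ξ = nd T ξ := oat_restr h
theorem rT_rT {T : V} {l l' : Ordinal.{0}} (h : l' ≤ l) : rT (rT T l) l' = rT T l' := by
  ext p
  simp only [rT, restr, mem_sep]
  exact ⟨fun k => ⟨k.1.1, k.2⟩, fun k => ⟨⟨k.1, toZFSet_monotone h k.2⟩, k.2⟩⟩
theorem ta_prd_le (T : V) (ξ : Ordinal.{0}) (E : V) : prd T ξ E ≤ ξ := by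
  unfold prd
  split_ifs
  · exact le_rfl
  · exact olst_le _ _
section congr
variable {T T' : V} {l : Ordinal.{0}} (e : ∀ ξ < l, nd T' ξ = nd T ξ)
include e
theorem ta_pm {ξ : Ordinal.{0}} (h : ξ < l) : pmT T' ξ = pmT T ξ := by rw [pmT, pmT, e ξ h]
theorem ta_br {ξ : Ordinal.{0}} (h : ξ < l) : brT T' ξ = brT T ξ := by rw [brT, brT, e ξ h]
theorem ta_im {ξ : Ordinal.{0}} (h : ξ < l) (β : Ordinal.{0}) : im T' β ξ = im T β ξ := by
  rw [im, im, e ξ h]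
theorem ta_idx {ξ : Ordinal.{0}} (h : ξ + 1 < l) : idx T' ξ = idx T ξ := by rw [idx, idx, e _ h]
theorem ta_ex {ξ : Ordinal.{0}} (h : ξ + 1 < l) : exT T' ξ = exT T ξ := by rw [exT, exT, e _ h]
theorem ta_tlt {ξ : Ordinal.{0}} (h : ξ < l) (β : Ordinal.{0}) : tlt T' β ξ ↔ tlt T β ξ := by
  rw [tlt, tlt, ta_br e h]
theorem ta_tle {ξ : Ordinal.{0}} (h : ξ < l) (β : Ordinal.{0}) : tle T' β ξ ↔ tle T β ξ := by
  rw [tle, tle, ta_tlt e h]
theorem ta_prd {ξ : Ordinal.{0}} (h : ξ < l) (E : V) : prd T' ξ E = prd T ξ E := by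
  unfold prd olst
  congr 2
  ext γ
  exact or_congr_right (and_congr_right fun k => by
    beta_reduce
    rw [ta_idx e ((Order.add_one_le_iff.2 k).trans_lt h)])
theorem ta_pr {ξ : Ordinal.{0}} (h : ξ + 1 < l) : pr T' ξ = pr T ξ := by
  rw [pr, pr, ta_ex e h, ta_prd e ((lt_add_one ξ).trans h)]
theorem ta_legal {ξ : Ordinal.{0}} (h : ξ < l) (a : Ordinal.{0}) (E : V) :
    Legal T' ξ a E ↔ Legal T ξ a E := by
  unfold Legal
  rw [ta_pm e h]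
  exact and_congr_right fun _ => and_congr_left fun _ => forall₂_congr fun γ k => by
    rw [ta_idx e ((Order.add_one_le_iff.2 k).trans_lt h)]
theorem ta_N {ξ : Ordinal.{0}} (h : ξ < l) (k : taN T ξ) : taN T' ξ := by
  obtain ⟨k1, k2, k3, k4, k5, k6⟩ := k
  unfold taN
  rw [ta_pm e h, ta_br e h, ta_im e h]
  refine ⟨k1, k2, fun β hβ => ?_, fun β hβ => ?_, k5, fun γ hγ β hβ => ?_⟩
  · rw [ta_tlt e h, ta_br e (hβ.trans h)]
    exact k3 β hβ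
  · rw [ta_tle e h, ta_im e h, ta_pm e (hβ.trans_lt h)]
    exact k4 β hβ
  · rw [ta_tle e h, ta_tle e (hγ.trans_lt h), ta_pm e ((hβ.trans hγ).trans_lt h), ta_im e h,
      ta_im e h, ta_im e (hγ.trans_lt h)]
    exact k6 γ hγ β hβ
theorem ta_S {ξ : Ordinal.{0}} (h : ξ + 1 < l) (k : taS T ξ) : taS T' ξ := by
  have h0 : ξ < l := (lt_add_one ξ).trans h
  have h1 : pr T ξ < l := (ta_prd_le _ _ _).trans_lt h0
  unfold taS
  rw [ta_legal e h0, ta_idx e h, ta_ex e h, ta_pr e h, ta_br e h, ta_br e h1, ta_pm e h,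
    ta_pm e h0, ta_pm e h1, ta_im e h, ta_im e h]
  exact k
theorem ta_L {ξ : Ordinal.{0}} (h : ξ < l) (k : taL T ξ) : taL T' ξ := by
  unfold taL
  rw [ta_pm e h]
  refine ⟨fun β hβ => ?_, fun y hy => ?_⟩
  · obtain ⟨γ, k1, k2, k3⟩ := k.1 β hβ
    exact ⟨γ, k1, k2, (ta_tlt e h γ).2 k3⟩
  · obtain ⟨β, k1, k2, k3⟩ := k.2 y hy
    refine ⟨β, k1, (ta_tlt e h β).2 k2, ?_⟩
    rw [ta_pm e (k1.trans h), ta_im e h]
    exact k3
end congr
namespace IsTree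
variable {T : V} {P : PM} (h : IsTree T P)
include h
theorem ta_dom {l : Ordinal.{0}} (hl : l ≤ lh T) : dom (rT T l) = l.toZFSet := by
  ext x
  simp only [rT, mem_dom, pair_mem_restr]
  refine ⟨fun ⟨_, k⟩ => k.2, fun k => ?_⟩
  obtain ⟨y, hy⟩ := mem_dom.1 (h.dom_eq ▸ toZFSet_monotone hl k : x ∈ dom T)
  exact ⟨y, hy, k⟩
theorem lh_rT {l : Ordinal.{0}} (hl : l ≤ lh T) : lh (rT T l) = l := by
  rw [lh, h.ta_dom hl, rank_toZFSet]
theorem rT_lh : rT T (lh T) = T := by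
  ext p
  simp only [rT, restr, mem_sep]
  refine ⟨fun k => k.1, fun k => ⟨k, ?_⟩⟩
  rw [← h.dom_eq]
  exact mem_dom.2 ⟨snd p, h.fn.1 p k ▸ k⟩
theorem restrict {l : Ordinal.{0}} (h0 : 0 < l) (hl : l ≤ lh T) : IsTree (rT T l) P := by
  have e : ∀ ξ < l, nd (rT T l) ξ = nd T ξ := fun _ k => nd_rT k
  obtain ⟨-, n, s, m⟩ := (ta_isTree_iff T P).1 h
  rw [ta_isTree_iff, h.lh_rT hl]
  refine ⟨⟨⟨fun p hp => h.fn.1 p (mem_sep (p := fun p => fst p ∈ l.toZFSet)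
      |>.1 hp).1, fun x y y' k k' =>
      h.fn.2 x y y' (pair_mem_restr.1 k).1 (pair_mem_restr.1 k').1⟩, h.ta_dom hl, h0,
      (ta_pm e h0).trans h.root⟩, fun ξ k => ta_N e k (n ξ (k.trans_le hl)),
    fun ξ k k' => ta_S e k' (s ξ (k.trans_le hl) (k'.trans_le hl)),
    fun ξ k k' => ta_L e k (m ξ (k.trans_le hl) k')⟩
theorem tlt_lt {β ξ : Ordinal.{0}} (hξ : ξ < lh T) (hb : tlt T β ξ) : β < ξ :=
  toZFSet_mem_toZFSet_iff.1 (h.br_sub ξ hξ hb)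
theorem tle_le {β ξ : Ordinal.{0}} (hξ : ξ < lh T) (hb : tle T β ξ) : β ≤ ξ :=
  hb.elim le_of_eq fun k => (h.tlt_lt hξ k).le
theorem tle_trans {β γ ξ : Ordinal.{0}} (hξ : ξ < lh T) (h1 : tle T β γ) (h2 : tle T γ ξ) :
    tle T β ξ := by
  rcases h2 with rfl | h2
  · exact h1
  rcases h1 with rfl | h1
  · exact Or.inr h2
  rw [tlt, h.br_br ξ hξ γ (h.tlt_lt hξ h2) h2] at h1
  exact Or.inr (mem_cut.1 h1).1
/-- predecessors are linearly ordered -/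
theorem tle_of_le {β γ ξ : Ordinal.{0}} (hξ : ξ < lh T) (h1 : tle T β ξ) (h2 : tle T γ ξ)
    (hle : β ≤ γ) : tle T β γ := by
  rcases hle.eq_or_lt with rfl | hlt
  · exact Or.inl rfl
  rcases h2 with rfl | h2
  · exact h1
  have k := h.tlt_lt hξ h2
  refine Or.inr ?_
  rw [tlt, h.br_br ξ hξ γ k h2]
  exact mem_cut.2 ⟨h1.resolve_left (hlt.trans k).ne, by rwa [rank_toZFSet]⟩
theorem ta_succ {β ξ : Ordinal.{0}} (hξ : ξ + 1 < lh T) :
    tlt T β (ξ + 1) ↔ tle T β (pr T ξ) := by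
  rw [tlt, h.br_succ ξ ((lt_add_one ξ).trans hξ) hξ, mem_insert_iff, toZFSet_injective.eq_iff]
  rfl
theorem zero_tle {ξ : Ordinal.{0}} (hξ : ξ < lh T) : tle T 0 ξ := by
  induction ξ using WellFoundedLT.induction with
  | ind ξ ih =>
    rcases zero_or_succ_or_isSuccLimit ξ with rfl | ⟨ζ, rfl⟩ | hl
    · exact Or.inl rfl
    · have k : pr T ζ < ζ + 1 := (ta_prd_le _ _ _).trans_lt (lt_add_one ζ)
      exact Or.inr ((h.ta_succ hξ).2 (ih _ k (k.trans hξ)))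
    · obtain ⟨γ, k1, -, k2⟩ := h.lim_cof ξ hξ hl 0 hl.bot_lt
      exact h.tle_trans hξ (ih γ k1 (k1.trans hξ)) (Or.inr k2)
theorem pr_le (ξ : Ordinal.{0}) : pr T ξ ≤ ξ := ta_prd_le _ _ _
theorem tlt_succ_iff {β ξ : Ordinal.{0}} (hξ : ξ + 1 < lh T) :
    tlt T β (ξ + 1) ↔ tle T β (pr T ξ) := h.ta_succ hξ
/-- branches are closed -/
theorem closed {l ξ : Ordinal.{0}} (hξ : ξ < lh T) (hl : Order.IsSuccLimit l) (hle : l ≤ ξ)
    (hc : ∀ β < l, ∃ γ < l, β ≤ γ ∧ tlt T γ ξ) : tle T l ξ := by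
  induction ξ using WellFoundedLT.induction with
  | ind ξ ih =>
    rcases hle.eq_or_lt with rfl | hlt
    · exact Or.inl rfl
    rcases zero_or_succ_or_isSuccLimit ξ with rfl | ⟨ζ, rfl⟩ | hm
    · exact absurd hlt not_lt_bot
    · have k : pr T ζ < ζ + 1 := (ta_prd_le _ _ _).trans_lt (lt_add_one ζ)
      have k1 : l ≤ pr T ζ := by
        by_contra k2
        obtain ⟨γ, -, k3, k4⟩ := hc (pr T ζ + 1) (hl.succ_lt (not_le.1 k2))
        exact absurd (h.tle_le (k.trans hξ) ((h.ta_succ hξ).1 k4))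
          (not_le.2 (Order.add_one_le_iff.1 k3))
      refine Or.inr ((h.ta_succ hξ).2 (ih _ k (k.trans hξ) k1 fun β hβ => ?_))
      obtain ⟨γ, k2, k3, k4⟩ := hc β hβ
      exact ⟨γ, k2, k3, ((h.ta_succ hξ).1 k4).resolve_left (k2.trans_le k1).ne⟩
    · obtain ⟨δ, k1, k2, k3⟩ := h.lim_cof ξ hξ hm l hlt
      refine h.tle_trans hξ (ih δ k1 (k1.trans hξ) k2 fun β hβ => ?_) (Or.inr k3)
      obtain ⟨γ, k4, k5, k6⟩ := hc β hβ
      exact ⟨γ, k4, k5, (h.tle_of_le hξ (Or.inr k6) (Or.inr k3) (k4.le.trans k2)).resolve_left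
        (k4.trans_le k2).ne⟩
/-- the immediate successor of `β` on the branch to `ξ` -/
theorem exists_next {β ξ : Ordinal.{0}} (hξ : ξ < lh T) (hb : tlt T β ξ) :
    ∃ ζ, ζ + 1 ≤ ξ ∧ pr T ζ = β ∧ tle T (ζ + 1) ξ := by
  induction ξ using WellFoundedLT.induction with
  | ind ξ ih =>
    have hlt := h.tlt_lt hξ hb
    rcases zero_or_succ_or_isSuccLimit ξ with rfl | ⟨ζ, rfl⟩ | hm
    · exact absurd hlt not_lt_bot
    · have k : pr T ζ < ζ + 1 := (ta_prd_le _ _ _).trans_lt (lt_add_one ζ)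
      rcases (h.ta_succ hξ).1 hb with k1 | k1
      · exact ⟨ζ, le_rfl, k1.symm, Or.inl rfl⟩
      · obtain ⟨η, k2, k3, k4⟩ := ih _ k (k.trans hξ) k1
        exact ⟨η, k2.trans k.le, k3,
          h.tle_trans hξ k4 (Or.inr ((h.ta_succ hξ).2 (Or.inl rfl)))⟩
    · obtain ⟨δ, k1, k2, k3⟩ := h.lim_cof ξ hξ hm (β + 1) (hm.succ_lt hlt)
      have k4 : β < δ := Order.add_one_le_iff.1 k2
      obtain ⟨η, k5, k6, k7⟩ := ih δ k1 (k1.trans hξ)
        ((h.tle_of_le hξ (Or.inr hb) (Or.inr k3) k4.le).resolve_left k4.ne)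
      exact ⟨η, k5.trans k1.le, k6, h.tle_trans hξ k7 (Or.inr k3)⟩
theorem cofBr_brT {l : Ordinal.{0}} (hl : l < lh T) (hlim : Order.IsSuccLimit l) :
    CofBr T l (brT T l) :=
  ⟨h.br_sub l hl, h.lim_cof l hl hlim, h.br_br l hl⟩
theorem cofBr_closed {l l' : Ordinal.{0}} {b : V} (hl : l ≤ lh T) (hb : CofBr T l b) (hlt : l' < l)
    (hlim : Order.IsSuccLimit l') (hc : ∀ β < l', ∃ γ < l', β ≤ γ ∧ γ.toZFSet ∈ b) :
    l'.toZFSet ∈ b := by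
  obtain ⟨δ, k1, k2, k3⟩ := hb.2.1 l' hlt
  have e := hb.2.2 δ k1 k3
  have k4 := h.closed (k1.trans_le hl) hlim k2 fun β hβ => by
    obtain ⟨γ, k5, k6, k7⟩ := hc β hβ
    refine ⟨γ, k5, k6, ?_⟩
    rw [tlt, e]
    exact mem_cut.2 ⟨k7, by rw [rank_toZFSet]; exact k5.trans_le k2⟩
  rcases k4 with rfl | k4
  · exact k3
  · rw [tlt, e] at k4
    exact (mem_cut.1 k4).1
theorem idx_lt {γ ξ : Ordinal.{0}} (hξ : ξ + 1 < lh T) (hlt : γ < ξ) : idx T γ < idx T ξ :=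
  (h.legal ξ ((lt_add_one ξ).trans hξ) hξ).2.1 γ hlt
theorem le_idx {ξ : Ordinal.{0}} (hξ : ξ + 1 < lh T) : ξ ≤ idx T ξ := by
  induction ξ using WellFoundedLT.induction with
  | ind ξ ih =>
    by_contra k
    have k1 := not_le.1 k
    exact absurd (ih _ k1 ((Order.add_one_le_iff.2 k1).trans_lt ((lt_add_one ξ).trans hξ)))
      (not_le.2 (h.idx_lt hξ k1))
theorem node_HC {N : Set V} [IsZFC N] (hT : T ∈ HC N) {ξ : Ordinal.{0}} :
    (pmT T ξ).M ∈ HC N ∧ enc (pmT T ξ) ∈ HC N := by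
  have hx : app T ξ.toZFSet ∈ HC N := by
    by_cases k : ξ.toZFSet ∈ dom T
    · haveI : In (HC N) T := ⟨hT⟩
      haveI : In (HC N) ξ := ⟨IsZ.trans _ (memV_of (HC N) (dom T)) _ k⟩
      exact memV_of (HC N) (app T ξ.toZFSet)
    · rw [app_of_not_mem_dom k]
      exact IsZ.empty_mem _
  have e : pmT T ξ = (dec (app T ξ.toZFSet) : Node).1 := rfl
  rw [e]
  generalize app T ξ.toZFSet = x at hx
  haveI : In (HC N) x := ⟨hx⟩
  exact ⟨memV_of (HC N) _, mem_of (HC N) _⟩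
end IsTree
theorem prd_le (T : V) (ξ : Ordinal.{0}) (E : V) : prd T ξ E ≤ ξ := ta_prd_le T ξ E
-- JOB A END

-- JOB B BEGIN
/-! ### agreement and fixed points -/
theorem tb_cut_cut (A : V) {o p : Ordinal.{0}} (h : o ≤ p) : cut (cut A p) o = cut A o := by
  ext x
  simp only [mem_cut]
  exact ⟨fun k => ⟨k.1.1, k.2⟩, fun k => ⟨⟨k.1, k.2.trans_le h⟩, k.2⟩⟩
theorem tb_mem_of_cut {A B x : V} {o : Ordinal.{0}} (h : cut A o = cut B o) (hx : x ∈ A)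
    (hr : x.rank < o) : x ∈ B := (mem_cut.1 (h ▸ mem_cut.2 ⟨hx, hr⟩)).1
theorem tb_rank_cut (A : V) (o : Ordinal.{0}) : (cut A o).rank ≤ o :=
  rank_le_iff.2 fun _ hy => (mem_cut.1 hy).2
theorem tb_succ {o p : Ordinal.{0}} (h : Order.IsSuccLimit p) (k : o < p) : o + 1 < p := h.succ_lt k
theorem tb_ord {x : V} {l : Ordinal.{0}} (h : x ∈ l.toZFSet) : x.rank < l :=
  (rank_lt_of_mem h).trans_eq (rank_toZFSet l)
theorem tb_bU {a : V} {f g : V → V} (h : ∀ x ∈ a, f x = g x) : bU a f = bU a g := by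
  ext y
  simp only [mem_bU]
  exact exists_congr fun x => and_congr_right fun hx => by rw [h x hx]
/-- the critical point of an extender is additively closed -/
theorem tb_add {M E : V} (hE : IsExt E) [IsZ (M : Set V)] (hA : Agr M E) {x : Ordinal.{0}}
    (hx : x < crit E) (y : Ordinal.{0}) : y < crit E → x + y < crit E := by
  induction y using WellFoundedLT.induction with
  | ind y ih =>
  intro hy
  by_contra hn
  have hl := hE.crit_limit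
  have hZ : ∀ X ∈ M, X.rank ≤ crit E → X ∈ extZ E := fun X h1 h2 =>
    tb_mem_of_cut hA h1 (Order.lt_add_one_iff.2 h2)
  have hK : ∀ u ∈ M, u.rank < crit E → u ∈ extK E := fun u h1 h2 => hE.mem_K.2 ⟨hZ u h1 h2.le, h2⟩
  have hD : ∀ X ∈ M, X ⊆ extK E → X ∈ dom E := fun X h1 h2 =>
    hE.mem_dom.2 ⟨hZ X h1 (rank_mono h2), h2⟩
  have hKM : extK E ∈ M := tb_mem_of_cut hA.symm hE.memK (Order.lt_add_one_iff.2 le_rfl)
  have hKD : ∀ u ∈ extK E, u ∈ dom E := fun u hu =>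
    hE.mem_dom.2 ⟨(hE.mem_K.1 hu).1, hE.K_trans u hu⟩
  have hp : prod (extK E) (extK E) ⊆ extK E := (hE.mem_dom.1 (hE.prod _ hE.K_mem_dom _ hE.K_mem_dom).1).2
  have hO : ∀ o < crit E, o.toZFSet ∈ M := fun o ho =>
    IsZ.ord_mem_of_le (M : Set V) (IsZ.rank_mem (M : Set V) hKM) ho.le
  have hOK : ∀ o < crit E, o.toZFSet ∈ extK E := fun o ho =>
    hK _ (hO o ho) (by rwa [rank_toZFSet])
  have hs : ∀ c ∈ extK E, ({c} : V) ∈ extK E := fun c hc => by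
    simpa using hE.pairK c hc c hc
  haveI : In (M : Set V) (extK E) := ⟨hKM⟩
  haveI : In (M : Set V) x := ⟨hO x hx⟩
  haveI : In (M : Set V) y := ⟨hO y hy⟩
  have y0 : y ≠ 0 := fun e => hn (by rwa [e, add_zero])
  have hu : ∀ u ∈ extK E, olst y (fun z => u.rank ≤ x + z) < y := fun u hu =>
    let ⟨z, z1, z2⟩ := (lt_add_iff y0).1 ((hE.mem_K.1 hu).2.trans_le (not_lt.1 hn))
    (olst_le_of z1 z2).trans_lt z1
  obtain ⟨f, hf⟩ : ∃ f, f = lam (extK E) fun u => (olst y fun z => u.rank ≤ x + z).toZFSet :=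
    ⟨_, rfl⟩
  have f1 : f ∈ M := hf ▸ memV_of (M : Set V) _
  have f2 : IsFunc (extK E) (extK E) f := hf ▸ isFunc_lam fun u h => hOK _ ((hu u h).trans hy)
  have f3 := hD f f1 (f2.1.trans hp)
  haveI : In (M : Set V) f := ⟨f1⟩
  have k1 : ∀ c ∈ extK E, prod (extK E) {c} ∈ dom E ∧
      pair (extK E) c ∈ app E (prod (extK E) {c}) := fun c hc => by
    obtain ⟨h1, h2⟩ := hE.prod _ hE.K_mem_dom _ (hKD _ (hs c hc))
    rw [h2, hE.fix _ (hs c hc)]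
    exact ⟨h1, pair_mem_prod.2 ⟨hE.memK, mem_singleton.2 rfl⟩⟩
  have k2 : prod (extK E) {y.toZFSet} ⊆ rkRel (extK E) f := fun p h => by
    obtain ⟨u, h1, c, h2, rfl⟩ := mem_prod.1 h
    rw [mem_singleton.1 h2, rkRel, pair_mem_rel, hf, app_lam _ h1, rank_toZFSet, rank_toZFSet]
    exact ⟨h1, hOK y hy, hu u h1⟩
  obtain ⟨b, b1, b2, b3⟩ := hE.norm f f3 f2 _ hE.memK _ (hE.mem_K.1 (hOK y hy)).1
    (hE.mono (k1 _ (hOK y hy)).1 (hD (rkRel (extK E) f) (memV_of (M : Set V) _)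
      fun _ h => hp (by rw [rkRel, rel, mem_sep] at h; exact h.1)) k2 (k1 _ (hOK y hy)).2)
  rw [rank_toZFSet] at b3
  have b4 : b ∈ extK E := hE.mem_K.2 ⟨b1, b3.trans hy⟩
  have b5 := tb_succ hl (ih _ b3 (b3.trans hy))
  haveI : In (M : Set V) (x + b.rank + 1) := ⟨hO _ b5⟩
  have b6 : cut (extK E) (x + b.rank + 1) ∈ extK E :=
    hK _ (memV_of (M : Set V) _) ((tb_rank_cut _ _).trans_lt b5)
  obtain ⟨h1, h2⟩ := hE.inter f3 (k1 b b4).1
  obtain ⟨h3, h4⟩ := hE.prod _ (hKD _ b6) _ (hKD _ (hs b b4))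
  have h5 := hE.mono h1 h3 (fun p h => by
    obtain ⟨p1, p2⟩ := mem_inter.1 h
    obtain ⟨u, u1, c, u2, rfl⟩ := mem_prod.1 p2
    rw [mem_singleton.1 u2, hf, pair_mem_lam] at p1
    refine pair_mem_prod.2 ⟨mem_cut.2 ⟨u1, Order.lt_add_one_iff.2 ?_⟩, u2⟩
    rw [p1.2, rank_toZFSet]
    exact olst_spec (hu u u1)) (h2 ▸ mem_inter.2 ⟨b2, (k1 b b4).2⟩)
  rw [h4, hE.fix _ b6] at h5
  exact mem_irrefl _ (mem_cut.1 (pair_mem_prod.1 h5).1).1
theorem tb_cut_map {j : V → V} {M M' : Set V} [IsZ M] [IsZ M'] (h : Elem j M M') {ρ : Ordinal.{0}}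
    (h1 : ∀ x ∈ M, x.rank < ρ → j x = x) (h2 : ∀ y ∈ M', y.rank < ρ → y ∈ M) {B : V}
    (hB : B ∈ M) : cut (j B) ρ = cut B ρ := by
  ext y
  simp only [mem_cut]
  refine and_congr_left fun hr => ⟨fun k => ?_, fun k => ?_⟩
  · have hy := h2 y (IsZ.trans _ (h.1 B hB) _ k) hr
    exact (h.mem_iff hy hB).1 ((h1 y hy hr).symm ▸ k)
  · have hy := IsZ.trans _ hB _ k
    exact h1 y hy hr ▸ (h.mem_iff hy hB).2 k
theorem tb_agr {P Q : PM} {i : V} (hP : IsPM P) (hQ : IsPM Q) (h : ElemPM i P Q) (hμ : P.mu = Q.mu)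
    {ρ : Ordinal.{0}} (h1 : ∀ x ∈ P.M, x.rank < ρ → app i x = x)
    (h2 : ∀ y ∈ Q.M, y.rank < ρ → y ∈ P.M) : AgrP P Q ρ := by
  haveI := hP.isT
  haveI := hQ.isT
  have k := fun B (hB : B ∈ P.M) => (tb_cut_map h.elem.elem h1 h2 hB).symm
  refine ⟨?_, h.A hP hQ ▸ k _ hP.A_mem, h.w ▸ k _ hP.w_mem, h.S ▸ k _ hP.S_mem, hμ⟩
  ext y
  simp only [mem_cut]
  exact and_congr_left fun hr => ⟨fun k => h1 y k hr ▸ h.elem.elem.1 y k, fun k => h2 y k hr⟩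
theorem tb_mu_pos {P : PM} (h : IsPM P) : 0 < P.mu := h.mu_lim.pos
namespace IsTree
variable {T : V} {P : PM} (h : IsTree T P)
include h
theorem tb_pm : IsPM P := h.root ▸ h.pm 0 h.pos
theorem tb_el {β ξ : Ordinal.{0}} (hξ : ξ < lh T) (hb : tle T β ξ) :
    Elem (app (im T β ξ)) ((pmT T β).M : Set V) ((pmT T ξ).M : Set V) :=
  (h.elem ξ hξ β (h.tle_le hξ hb) hb).elem.elem
theorem tb_comm {β γ ξ : Ordinal.{0}} (hξ : ξ < lh T) (h1 : tle T β γ) (h2 : tle T γ ξ) :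
    ∀ x ∈ (pmT T β).M, app (im T γ ξ) (app (im T β γ) x) = app (im T β ξ) x :=
  h.comm ξ hξ γ (h.tle_le hξ h2) β (h.tle_le ((h.tle_le hξ h2).trans_lt hξ) h1) h2 h1
theorem tb_dir {γ l : Ordinal.{0}} (hl : l < lh T) (hlim : Order.IsSuccLimit l) (hγ : tlt T γ l)
    {y : V} (hy : y ∈ (pmT T l).M) :
    ∃ δ, tle T γ δ ∧ tlt T δ l ∧ ∃ x ∈ (pmT T δ).M, app (im T δ l) x = y := by
  obtain ⟨β, -, h1, x, h2, rfl⟩ := h.lim_dir l hl hlim y hy
  rcases le_total β γ with k | k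
  · have h3 := h.tle_of_le hl (Or.inr h1) (Or.inr hγ) k
    exact ⟨γ, Or.inl rfl, hγ, _, (h.tb_el ((h.tlt_lt hl hγ).trans hl) h3).1 x h2,
      h.tb_comm hl h3 (Or.inr hγ) x h2⟩
  · exact ⟨β, h.tle_of_le hl (Or.inr hγ) (Or.inr h1) k, h1, x, h2, rfl⟩
theorem tb_opt {ξ : Ordinal.{0}} (hξ : ξ + 1 < lh T) (hE : exT T ξ ≠ ∅) :
    exT T ξ ∈ (pmT T ξ).optAt (idx T ξ) :=
  (h.legal ξ ((lt_add_one ξ).trans hξ) hξ).2.2.2.resolve_left hE
/-- maps along a branch whose critical points are at least `ρ` -/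
theorem tb_fix {ρ γ₀ : Ordinal.{0}} (ξ : Ordinal.{0}) : ξ < lh T →
    (∀ ζ, ζ + 1 ≤ ξ → γ₀ ≤ pr T ζ → exT T ζ ≠ ∅ → ρ ≤ crit (exT T ζ)) →
    ∀ γ, γ₀ ≤ γ → tle T γ ξ → (∀ x ∈ (pmT T γ).M, x.rank < ρ → app (im T γ ξ) x = x) ∧
      ∀ y ∈ (pmT T ξ).M, y.rank < ρ → y ∈ (pmT T γ).M := by
  induction ξ using WellFoundedLT.induction with
  | ind ξ ih =>
  intro hξ hc γ h0 hle
  rcases hle with rfl | hlt
  · exact ⟨fun x hx _ => h.im_self _ hξ x hx, fun y hy _ => hy⟩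
  have ih' := fun δ (hδ : δ < ξ) => ih δ hδ (hδ.trans hξ) fun ζ hζ => hc ζ (hζ.trans hδ.le)
  rcases zero_or_succ_or_isSuccLimit ξ with rfl | ⟨ζ, rfl⟩ | hl
  · exact absurd (h.tlt_lt hξ hlt) not_lt_zero
  · rw [Order.succ_eq_add_one] at *
    have hζ := (lt_add_one ζ).trans hξ
    have h1 := (h.tlt_succ_iff hξ).1 hlt
    have h2 := (h.pr_le ζ).trans_lt (lt_add_one ζ)
    have h3 : tle T (pr T ζ) (ζ + 1) := Or.inr ((h.tlt_succ_iff hξ).2 (Or.inl rfl))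
    obtain ⟨k1, k2⟩ := ih' _ h2 γ h0 h1
    have key : (∀ x ∈ (pmT T (pr T ζ)).M, x.rank < ρ → app (im T (pr T ζ) (ζ + 1)) x = x) ∧
        ∀ y ∈ (pmT T (ζ + 1)).M, y.rank < ρ → y ∈ (pmT T (pr T ζ)).M := by
      by_cases hE : exT T ζ = ∅
      · have e : pr T ζ = ζ := if_pos hE
        obtain ⟨p1, p2⟩ := h.pad ζ hζ hξ hE
        rw [e, p1]
        exact ⟨fun x hx _ => p2 x hx, fun y hy _ => hy⟩
      · have hU := h.ult ζ hζ hξ hE
        have hρ := hc ζ le_rfl (h0.trans (h.tle_le (h2.trans hξ) h1)) hE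
        exact ⟨fun x hx hr => hU.fix hx (hr.trans_le hρ), fun y hy hr =>
          tb_mem_of_cut hU.cut_crit hy ((hr.trans_le hρ).trans (lt_add_one _))⟩
    refine ⟨fun x hx hr => ?_, fun y hy hr => k2 y (key.2 y hy hr) hr⟩
    have h4 := (h.tb_el (h2.trans hξ) h1).1 x hx
    rw [← h.tb_comm hξ h1 h3 x hx, k1 x hx hr]
    exact key.1 x (k1 x hx hr ▸ h4) hr
  · haveI := (h.pm ξ hξ).isT
    have key : ∀ x : V, ∀ δ, γ₀ ≤ δ → tlt T δ ξ → x ∈ (pmT T δ).M → x.rank < ρ →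
        app (im T δ ξ) x = x := fun x => by
      induction x using ZFSet.inductionOn with
      | h x ihx =>
      intro δ d0 d1 hx hr
      haveI := (h.pm δ ((h.tlt_lt hξ d1).trans hξ)).isT
      have e1 := h.tb_el hξ (Or.inr d1)
      ext y
      refine ⟨fun hy => ?_, fun hy => ?_⟩
      · obtain ⟨ε, d2, d3, z, hz, rfl⟩ := h.tb_dir hξ hl d1 (IsZ.trans _ (e1.1 x hx) _ hy)
        have d4 := h.tlt_lt hξ d3
        have e2 := (ih' ε d4 δ d0 d2).1 x hx hr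
        have e3 : x ∈ (pmT T ε).M := e2 ▸ (h.tb_el (d4.trans hξ) d2).1 x hx
        rw [← h.tb_comm hξ d2 (Or.inr d3) x hx, e2] at hy
        have e4 := ((h.tb_el hξ (Or.inr d3)).mem_iff hz e3).1 hy
        rwa [ihx z e4 ε (d0.trans (h.tle_le (d4.trans hξ) d2)) d3 hz ((rank_lt_of_mem e4).trans hr)]
      · have e2 : y ∈ (pmT T δ).M := IsZ.trans (M := ((pmT T δ).M : Set V)) _ hx _ hy
        exact ihx y hy δ d0 d1 e2 ((rank_lt_of_mem hy).trans hr) ▸ (e1.mem_iff e2 hx).2 hy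
    refine ⟨fun x hx hr => key x γ h0 hlt hx hr, fun y hy hr => ?_⟩
    obtain ⟨ε, d2, d3, z, hz, rfl⟩ := h.tb_dir hξ hl hlt hy
    have d4 := h.tlt_lt hξ d3
    haveI := (h.pm ε (d4.trans hξ)).isT
    have e1 := h.tb_el hξ (Or.inr d3)
    have e2 : z.rank < ρ :=
      ((e1.le_jm (IsZ.rank_mem _ hz)).trans_eq (e1.rank_map hz).symm).trans_lt hr
    rw [key z ε (h0.trans (h.tle_le (d4.trans hξ) d2)) d3 hz e2]
    exact (ih' ε d4 γ h0 d2).2 z hz e2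
theorem tb_iter {β : Ordinal.{0}} (hβ : CritGt P.S β) (ξ : Ordinal.{0}) : ξ < lh T →
    CritGt (pmT T ξ).S β ∧ (∀ x ∈ P.M, x.rank < β + 1 → app (im T 0 ξ) x = x) ∧
      ∀ y ∈ (pmT T ξ).M, y.rank < β + 1 → y ∈ P.M := by
  induction ξ using WellFoundedLT.induction with
  | ind ξ ih =>
  intro hξ
  have k := h.tb_fix (ρ := β + 1) (γ₀ := 0) ξ hξ (fun ζ h1 _ hE => by
    have h2 := (lt_add_one ζ).trans_le h1
    have h3 := (ih ζ h2 (h2.trans hξ)).1 _ (mem_optAt.1 (h.tb_opt (h1.trans_lt hξ) hE)).2.2.2.2.1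
    rw [fst_op] at h3
    exact Order.add_one_le_iff.2 h3) 0 le_rfl (h.zero_tle hξ)
  have e := h.elem ξ hξ 0 zero_le (h.zero_tle hξ)
  rw [h.root] at k e
  refine ⟨fun p hp => lt_of_not_ge fun hn => ?_, k⟩
  haveI := h.tb_pm.isT
  haveI := (h.pm ξ hξ).isT
  haveI : In ((pmT T ξ).M : Set V) p := ⟨IsZ.trans _ (h.pm ξ hξ).S_mem _ hp⟩
  have r : (fst p).rank.toZFSet.rank < β + 1 := by
    rw [rank_toZFSet]; exact Order.lt_add_one_iff.2 hn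
  have h1 := k.2 _ (mem_of ((pmT T ξ).M : Set V) (fst p).rank) r
  obtain ⟨q, q1, q2⟩ := (e.elem.elem.iff2 pZ
    (fun _ (S : V) (o : Ordinal.{0}) => ∃ q ∈ S, (fst q).rank = o) (b := (fst p).rank)
      h.tb_pm.S_mem h1).2 ⟨p, by rwa [jm_V, e.S], (jm_of_fix (k.1 _ h1 r)).symm⟩
  exact (hβ q q1).not_ge (q2 ▸ hn)
theorem mu_eq {ξ : Ordinal.{0}} (hξ : ξ < lh T) : (pmT T ξ).mu = P.mu := by
  have e := (h.elem ξ hξ 0 zero_le (h.zero_tle hξ)).mu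
  rw [h.root] at e
  rw [← e]
  exact jm_of_fix ((h.tb_iter h.tb_pm.shape.critGt ξ hξ).2.1 _ h.tb_pm.mu_mem
    ((rank_toZFSet _).trans_lt (lt_add_one _)))
theorem tb_crit {η a ζ : Ordinal.{0}} {E : V} (hη : η < lh T) (hO : E ∈ (pmT T η).optAt a)
    (hE : E ≠ ∅) (hζ : ζ < prd T η E) : idx T ζ + P.mu < crit E := by
  have hP := h.pm η hη
  haveI := hP.isT
  rw [prd, if_neg hE] at hζ
  exact tb_add (mem_optAt.1 hO).2.1 (opt_agr hP hP hO (AgrP.refl _ _))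
    (not_le.1 (not_of_lt_olst (P := fun γ => crit E ≤ idx T γ) hζ)) _ (h.mu_eq hη ▸ (IsOpt.lt hP.shape (mem_optAt.1 hO)).1)
theorem tb_low {ζ γ ξ : Ordinal.{0}} (hξ : ξ < lh T) (hle : tle T γ ξ) (hlt : ζ < γ) :
    (∀ x ∈ (pmT T γ).M, x.rank < idx T ζ + P.mu → app (im T γ ξ) x = x) ∧
      ∀ y ∈ (pmT T ξ).M, y.rank < idx T ζ + P.mu → y ∈ (pmT T γ).M :=
  h.tb_fix (γ₀ := γ) ξ hξ (fun ε h1 h2 hE => (h.tb_crit (((lt_add_one ε).trans_le h1).trans hξ)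
    (h.tb_opt (h1.trans_lt hξ) hE) hE (hlt.trans_le h2)).le) γ le_rfl hle
theorem tb_prd {η : Ordinal.{0}} {E : V}
    (ih : ∀ γ < η, AgrP (pmT T γ) (pmT T η) (idx T γ + P.mu)) (hE : E ≠ ∅) :
    AgrP (pmT T (prd T η E)) (pmT T η) (crit E + 1) := by
  rcases (prd_le T η E).eq_or_lt with e | k
  · rw [e]
    exact AgrP.refl _ _
  · refine (ih _ k).mono (Order.add_one_le_iff.2 ?_)
    rw [prd, if_neg hE] at k ⊢
    exact (olst_spec k).trans_lt (lt_add_of_pos_right _ (tb_mu_pos h.tb_pm))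
theorem tb_step {ξ : Ordinal.{0}} (hξ : ξ + 1 < lh T) (hE : exT T ξ ≠ ∅)
    (ih : ∀ γ < ξ, AgrP (pmT T γ) (pmT T ξ) (idx T γ + P.mu)) :
    AgrP (pmT T (ξ + 1)) (pmT T ξ) (idx T ξ + (pmT T ξ).mu) ∧
      (pmT T (ξ + 1)).optAt (idx T ξ) = Pred ((pmT T ξ).optAt (idx T ξ)) (exT T ξ) :=
  have h1 := (lt_add_one ξ).trans hξ
  step_spec (h.pm _ ((h.pr_le ξ).trans_lt h1)) (h.pm ξ h1) (h.pm _ hξ) (h.tb_opt hξ hE)
    (h.tb_prd ih hE) (h.ult ξ h1 hξ hE) (h.elem _ hξ _ ((h.pr_le ξ).trans (lt_add_one ξ).le)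
      (Or.inr ((h.tlt_succ_iff hξ).2 (Or.inl rfl))))
theorem agr {γ η : Ordinal.{0}} (hη : η < lh T) (hlt : γ < η) :
    AgrP (pmT T γ) (pmT T η) (idx T γ + P.mu) := by
  induction η using WellFoundedLT.induction generalizing γ with
  | ind η ih =>
  rcases zero_or_succ_or_isSuccLimit η with rfl | ⟨ξ, rfl⟩ | hl
  · exact absurd hlt not_lt_zero
  · rw [Order.succ_eq_add_one] at *
    have h1 := (lt_add_one ξ).trans hη
    have h2 : ∀ γ < ξ, _ := fun γ k => ih ξ (lt_add_one ξ) (γ := γ) h1 k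
    have h3 : AgrP (pmT T ξ) (pmT T (ξ + 1)) (idx T ξ + P.mu) := by
      by_cases hE : exT T ξ = ∅
      · rw [(h.pad ξ h1 hη hE).1]
        exact AgrP.refl _ _
      · exact h.mu_eq h1 ▸ (h.tb_step hη hE h2).1.symm
    rcases (Order.lt_add_one_iff.1 hlt).eq_or_lt with rfl | k
    · exact h3
    · exact (h2 γ k).trans (h3.mono (add_le_add_left (h.idx_lt hη k).le _))
  · obtain ⟨δ, d1, d2, d3⟩ := h.lim_cof η hη hl _ (tb_succ hl hlt)
    have d4 := (lt_add_one γ).trans_le d2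
    obtain ⟨k1, k2⟩ := h.tb_low hη (Or.inr d3) d4
    exact (ih δ d1 (d1.trans hη) d4).trans (tb_agr (h.pm δ (d1.trans hη)) (h.pm η hη)
      (h.elem η hη δ d1.le (Or.inr d3)) ((h.mu_eq (d1.trans hη)).trans (h.mu_eq hη).symm) k1 k2)
/-- a legal extender can be applied to its predecessor node -/
theorem agr_prd {η a : Ordinal.{0}} {E : V} (hη : η < lh T) (hL : Legal T η a E) (hE : E ≠ ∅) :
    AgrP (pmT T (prd T η E)) (pmT T η) (crit E + 1) ∧ Agr (pmT T (prd T η E)).M E ∧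
      ∀ ζ < prd T η E, idx T ζ + P.mu < crit E :=
  have hO := hL.2.2.2.resolve_left hE
  have k := h.tb_prd (fun _ => h.agr hη) hE
  ⟨k, opt_agr (h.pm _ ((prd_le T η E).trans_lt hη)) (h.pm η hη) hO k,
    fun _ => h.tb_crit hη hO hE⟩
/-- maps starting above `ζ` fix `V_{a_ζ + μ}` -/
theorem fix_low {ζ γ ξ : Ordinal.{0}} (hξ : ξ < lh T) (hle : tle T γ ξ) (hlt : ζ < γ) {x : V}
    (hx : x ∈ (pmT T γ).M) (hr : x.rank < idx T ζ + P.mu) : app (im T γ ξ) x = x :=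
  (h.tb_low hξ hle hlt).1 x hx hr
theorem optAt_succ {ξ : Ordinal.{0}} (hξ : ξ + 1 < lh T) :
    (pmT T (ξ + 1)).optAt (idx T ξ) = PredP ((pmT T ξ).optAt (idx T ξ)) (exT T ξ) := by
  have h1 := (lt_add_one ξ).trans hξ
  by_cases hE : exT T ξ = ∅
  · rw [PredP, if_pos hE, (h.pad ξ h1 hξ hE).1]
  · rw [PredP, if_neg hE, (h.tb_step hξ hE fun _ => h.agr h1).2]
/-- options of index `a < a_γ` do not change after `γ` -/
theorem optAt_stable {γ η a : Ordinal.{0}} (hη : η < lh T) (hlt : γ < η) (ha : a < idx T γ) :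
    (pmT T η).optAt a = (pmT T γ).optAt a := by
  have hγ := hlt.trans hη
  have hI := (h.legal γ hγ ((Order.add_one_le_iff.2 hlt).trans_lt hη)).1
  rcases lt_or_ge P.mu (idx T γ) with k | k
  · refine ((h.agr hη hlt).optAt (h.pm γ hγ) (h.pm η hη) ?_).symm
    rw [h.mu_eq hγ]
    refine (hI.2 _ (hI.2 _ ha _ k) _ (lt_trans ?_ hI.1)).le.trans le_self_add
    exact (natCast_lt_omega0 4).trans_le (le_mul_left _ omega0_pos)
  · have e : ∀ ξ < lh T, (pmT T ξ).optAt a = ∅ := fun ξ hξ => optAt_eq_empty (h.pm ξ hξ).shape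
      (h.pm ξ hξ).shape.critGt (h.mu_eq hξ ▸ ha.le.trans k)
    rw [e η hη, e γ hγ]
theorem iter {ξ : Ordinal.{0}} (hξ : ξ < lh T) : Iter P (pmT T ξ) (im T 0 ξ) := by
  have e := h.elem ξ hξ 0 zero_le (h.zero_tle hξ)
  rw [h.root] at e
  refine ⟨h.pm ξ hξ, e, fun β hβ => ?_⟩
  obtain ⟨k1, k2, k3⟩ := h.tb_iter hβ ξ hξ
  exact ⟨k1, (tb_agr h.tb_pm (h.pm ξ hξ) e (h.mu_eq hξ).symm k2 k3).M.symm,
    fun x hx hr => k2 x hx (Order.lt_add_one_iff.2 hr)⟩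
theorem tb_com (f : PM → V) (hf : ∀ {P Q ρ}, AgrP P Q ρ → cut (f P) ρ = cut (f Q) ρ)
    {l η : Ordinal.{0}} (hη : η < lh T) (hle : l ≤ η) :
    bU l.toZFSet (fun x => cut (f (pmT T x.rank)) (idx T x.rank)) = cut (f (pmT T η)) (dl T l) := by
  rw [tb_bU fun x hx => hf ((h.agr hη ((tb_ord hx).trans_le hle)).mono le_self_add)]
  ext y
  simp only [mem_bU, mem_cut, dl, lt_osup_iff]
  exact ⟨fun ⟨x, h1, h2, h3⟩ => ⟨h2, x, h1, h3⟩, fun ⟨h2, x, h1, h3⟩ => ⟨x, h1, h2, h3⟩⟩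
theorem com_eq {l η : Ordinal.{0}} (hη : η < lh T) (hle : l ≤ η) :
    comA T l = cut (pmT T η).A (dl T l) ∧ comW T l = cut (pmT T η).w (dl T l) ∧
      comS T l = cut (pmT T η).S (dl T l) :=
  ⟨h.tb_com PM.A AgrP.A hη hle, h.tb_com PM.w AgrP.w hη hle, h.tb_com PM.S AgrP.S hη hle⟩
theorem tb_cut (f : PM → V) (hf : ∀ {P Q ρ}, AgrP P Q ρ → cut (f P) ρ = cut (f Q) ρ)
    {l ξ : Ordinal.{0}} (hl : l ≤ lh T) (hξ : ξ < l) :
    cut (bU l.toZFSet (fun x => cut (f (pmT T x.rank)) (idx T x.rank))) (idx T ξ) =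
      cut (f (pmT T ξ)) (idx T ξ) := by
  ext y
  simp only [mem_bU, mem_cut]
  refine and_congr_left fun hr => ⟨fun ⟨x, h1, h2, h3⟩ => ?_, fun k =>
    ⟨ξ.toZFSet, toZFSet_mem_toZFSet_iff.2 hξ, by rw [rank_toZFSet]; exact ⟨k, hr⟩⟩⟩
  rcases lt_trichotomy x.rank ξ with k | k | k
  · exact tb_mem_of_cut (hf (h.agr (hξ.trans_le hl) k)) h2 (h3.trans_le le_self_add)
  · exact k ▸ h2
  · exact tb_mem_of_cut (hf (h.agr ((tb_ord h1).trans_le hl) k)).symm h2 (hr.trans_le le_self_add)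
theorem cut_com {l ξ : Ordinal.{0}} (hl : l ≤ lh T) (hlim : Order.IsSuccLimit l) (hξ : ξ < l) :
    cut (comA T l) (idx T ξ) = cut (pmT T ξ).A (idx T ξ) ∧
    cut (comW T l) (idx T ξ) = cut (pmT T ξ).w (idx T ξ) ∧
    cut (comS T l) (idx T ξ) = cut (pmT T ξ).S (idx T ξ) :=
  ⟨h.tb_cut PM.A AgrP.A hl hξ, h.tb_cut PM.w AgrP.w hl hξ, h.tb_cut PM.S AgrP.S hl hξ⟩
theorem dl_limit {l : Ordinal.{0}} (hl : l ≤ lh T) (hlim : Order.IsSuccLimit l) :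
    Order.IsSuccLimit (dl T l) ∧ (∀ ξ < l, idx T ξ < dl T l) ∧ l ≤ dl T l := by
  have k : ∀ ξ < l, idx T ξ < dl T l := fun ξ hξ => lt_osup_iff.2 ⟨(ξ + 1).toZFSet,
    toZFSet_mem_toZFSet_iff.2 (tb_succ hlim hξ), by
      rw [rank_toZFSet]
      exact h.idx_lt ((tb_succ hlim (tb_succ hlim hξ)).trans_le hl) (lt_add_one ξ)⟩
  refine ⟨isSuccLimit_iff.2 ⟨(k 0 hlim.pos).ne_zero, Order.isSuccPrelimit_of_succ_lt fun a ha => ?_⟩,
    k, le_of_forall_lt fun ξ hξ => (h.le_idx ((tb_succ hlim hξ).trans_le hl)).trans_lt (k ξ hξ)⟩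
  obtain ⟨x, h1, h2⟩ := lt_osup_iff.1 ha
  exact (Order.succ_le_of_lt h2).trans_lt (k _ (tb_ord h1))
theorem tailStrong {l : Ordinal.{0}} (hl : l < lh T) (hlim : Order.IsSuccLimit l) {B : V}
    (hB : B ∈ (pmT T l).M) : TailStrong T l (brT T l) B := by
  obtain ⟨β, b1, b2, B₀, b3, rfl⟩ := h.lim_dir l hl hlim B hB
  refine ⟨β, b1, fun ξ x1 x2 x3 hE => ?_⟩
  have h1 := (tb_succ hlim x1).trans hl
  have h2 := (lt_add_one ξ).trans h1
  have t1 : tle T β (ξ + 1) := h.tle_of_le hl (Or.inr b2) (Or.inr x3) (x2.trans (lt_add_one ξ).le)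
  have t2 := (h.tlt_succ_iff h1).1 (t1.resolve_left (x2.trans_lt (lt_add_one ξ)).ne)
  have t3 : tle T (pr T ξ) (ξ + 1) := Or.inr ((h.tlt_succ_iff h1).2 (Or.inl rfl))
  have h3 := (h.pr_le ξ).trans_lt h2
  have hU := h.ult ξ h2 h1 hE
  have m1 := (h.tb_el h3 t2).1 _ b3
  obtain ⟨k1, k2⟩ := h.tb_low hl (Or.inr x3) (lt_add_one ξ)
  rw [← h.mu_eq h2, ← (mem_optAt.1 (h.tb_opt h1 hE)).2.2.1] at k1 k2
  haveI := (h.pm _ h1).isT
  haveI := (h.pm _ hl).isT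
  haveI := hU.isT
  have e := tb_cut_map (h.tb_el hl (Or.inr x3)) k1 k2 ((h.tb_el h1 t3).1 _ m1)
  rw [h.tb_comm h1 t2 t3 _ b3, h.tb_comm hl t1 (Or.inr x3) _ b3, ← h.tb_comm h1 t2 t3 _ b3] at e
  rw [Strong, ← tb_cut_cut _ hU.ext.crit_lt_len.le, e, tb_cut_cut _ hU.ext.crit_lt_len.le,
    hU.cut_map m1, hU.cut_map_len m1]
  refine hU.ext.fn.pair_app_mem ?_
  haveI : In ((pmT T (pr T ξ)).M : Set V) (app (im T β (pr T ξ)) B₀) := ⟨m1⟩
  haveI : In ((pmT T (pr T ξ)).M : Set V) (crit (exT T ξ)) := ⟨hU.crit_mem⟩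
  rw [hU.dom_eq, hU.K_eq]
  exact mem_pw.2 ⟨memV_of _ _, fun y hy => mem_cut.2
    ⟨IsZ.trans (M := ((pmT T (pr T ξ)).M : Set V)) _ m1 _ (mem_cut.1 hy).1, (mem_cut.1 hy).2⟩⟩
theorem tailStrong_empty (l : Ordinal.{0}) (hl : l ≤ lh T) (hlim : Order.IsSuccLimit l) (b : V) :
    TailStrong T l b ∅ := by
  refine ⟨0, hlim.pos, fun ξ x1 _ _ hE => ?_⟩
  have h1 := (tb_succ hlim x1).trans_le hl
  have hX := (h.ult ξ ((lt_add_one ξ).trans h1) h1 hE).ext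
  have e : ∀ o, cut ∅ o = ∅ := fun o => by
    ext y
    simp
  have e' : extK (exT T ξ) \ extK (exT T ξ) = ∅ := by
    ext y
    simp
  have k := hX.fn.pair_app_mem (e' ▸ (hX.diff _ hX.K_mem_dom _ hX.K_mem_dom).1)
  rw [hX.app_empty] at k
  rwa [Strong, e, e]
end IsTree
/-- data of `T ↾ l` only depend on `T ↾ l` -/
theorem com_congr {T T' : V} {l : Ordinal.{0}} (hlim : Order.IsSuccLimit l) (e : rT T l = rT T' l) :
    dl T l = dl T' l ∧ comA T l = comA T' l ∧ comW T l = comW T' l ∧ comS T l = comS T' l ∧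
    (∀ b, CofBr T l b ↔ CofBr T' l b) ∧ (∀ b B, TailStrong T l b B ↔ TailStrong T' l b B) ∧
    ∀ N b σ Ps, b ⊆ l.toZFSet → (RealB N T b σ Ps ↔ RealB N T' b σ Ps) := by
  have e0 : ∀ ξ < l, nd T ξ = nd T' ξ := fun ξ h => by rw [← nd_rT h, e, nd_rT h]
  have e1 : ∀ ξ < l, pmT T ξ = pmT T' ξ := fun ξ h => by rw [pmT, pmT, e0 ξ h]
  have e2 : ∀ ξ < l, brT T ξ = brT T' ξ := fun ξ h => by rw [brT, brT, e0 ξ h]
  have e3 : ∀ ξ < l, ∀ β, im T β ξ = im T' β ξ := fun ξ h β => by rw [im, im, e0 ξ h]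
  have e4 : ∀ ξ < l, idx T ξ = idx T' ξ := fun ξ h => by rw [idx, idx, e0 _ (tb_succ hlim h)]
  have e5 : ∀ ξ < l, exT T ξ = exT T' ξ := fun ξ h => by rw [exT, exT, e0 _ (tb_succ hlim h)]
  refine ⟨?_, ?_, ?_, ?_, fun b => ?_, fun b B => ?_, fun N b σ Ps hb => ?_⟩
  · unfold dl osup
    rw [tb_bU fun x hx => congrArg toZFSet (e4 _ (tb_ord hx))]
  · exact tb_bU fun x hx => by rw [e1 _ (tb_ord hx), e4 _ (tb_ord hx)]
  · exact tb_bU fun x hx => by rw [e1 _ (tb_ord hx), e4 _ (tb_ord hx)]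
  · exact tb_bU fun x hx => by rw [e1 _ (tb_ord hx), e4 _ (tb_ord hx)]
  · exact and_congr_right fun _ => and_congr_right fun _ =>
      forall₂_congr fun β h => by rw [e2 β h]
  · exact exists_congr fun β => and_congr_right fun _ => forall₂_congr fun ξ h => by rw [e5 ξ h]
  have k : ∀ β : Ordinal.{0}, β.toZFSet ∈ b → β < l := fun β h => toZFSet_mem_toZFSet_iff.1 (hb h)
  refine exists_congr fun t => and_congr_right fun _ => ?_
  unfold RealBy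
  refine and_congr (forall₂_congr fun β h => by rw [e1 β (k β h)])
    (and_congr (forall₂_congr fun γ h => forall₃_congr fun β _ h' => ?_) (by rw [e1 0 hlim.pos]))
  rw [e1 β (k β h'), e3 γ (k γ h)]
-- JOB B END

-- JOB C BEGIN
/-! ### constructing trees -/
theorem tcc_olst {b : Ordinal.{0}} {p q : Ordinal.{0} → Prop} (h : ∀ x < b, (p x ↔ q x)) :
    olst b p = olst b q := by
  unfold olst
  congr 1
  ext x
  exact or_congr_right (and_congr_right (h x))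

/-- `T` and `T'` have the same nodes below `l` -/
def tcc_Ag (T T' : V) (l : Ordinal.{0}) : Prop := ∀ ζ < l, nd T ζ = nd T' ζ
namespace tcc_Ag
variable {T T' : V} {l : Ordinal.{0}} (h : tcc_Ag T T' l)
include h
theorem pm {ζ : Ordinal.{0}} (k : ζ < l) : pmT T ζ = pmT T' ζ := by unfold pmT; rw [h ζ k]
theorem br {ζ : Ordinal.{0}} (k : ζ < l) : brT T ζ = brT T' ζ := by unfold brT; rw [h ζ k]
theorem im {ζ : Ordinal.{0}} (β : Ordinal.{0}) (k : ζ < l) : W.im T β ζ = W.im T' β ζ := by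
  unfold W.im; rw [h ζ k]
theorem idx {ζ : Ordinal.{0}} (k : ζ + 1 < l) : W.idx T ζ = W.idx T' ζ := by
  unfold W.idx; rw [h _ k]
theorem ex {ζ : Ordinal.{0}} (k : ζ + 1 < l) : exT T ζ = exT T' ζ := by unfold exT; rw [h _ k]
theorem tlt {ζ : Ordinal.{0}} (β : Ordinal.{0}) (k : ζ < l) : W.tlt T β ζ ↔ W.tlt T' β ζ := by
  unfold W.tlt; rw [h.br k]
theorem tle {ζ : Ordinal.{0}} (β : Ordinal.{0}) (k : ζ < l) : W.tle T β ζ ↔ W.tle T' β ζ := by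
  unfold W.tle; rw [h.tlt β k]
theorem prd {ζ : Ordinal.{0}} (E : V) (k : ζ < l) : W.prd T ζ E = W.prd T' ζ E := by
  unfold W.prd
  rw [tcc_olst (b := ζ) (p := fun γ => crit E ≤ W.idx T γ) (q := fun γ => crit E ≤ W.idx T' γ)
    fun x hx => by rw [h.idx ((Order.add_one_le_iff.2 hx).trans_lt k)]]
theorem pr {ζ : Ordinal.{0}} (k : ζ + 1 < l) : W.pr T ζ = W.pr T' ζ := by
  unfold W.pr; rw [h.ex k, h.prd _ ((Order.lt_add_one_iff.2 le_rfl).trans k)]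
theorem legal {ζ a : Ordinal.{0}} {E : V} (k : ζ < l) (hL : Legal T ζ a E) : Legal T' ζ a E := by
  unfold Legal at hL ⊢
  rw [← h.pm k]
  exact ⟨hL.1, fun γ hγ => h.idx ((Order.add_one_le_iff.2 hγ).trans_lt k) ▸ hL.2.1 γ hγ, hL.2.2⟩
end tcc_Ag

/-- the conditions on a tree at node `ξ` -/
structure tcc_OK (T : V) (ξ : Ordinal.{0}) : Prop where
  pm : IsPM (pmT T ξ)
  br_sub : brT T ξ ⊆ ξ.toZFSet
  br_br : ∀ β < ξ, tlt T β ξ → brT T β = cut (brT T ξ) β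
  elem : ∀ β ≤ ξ, tle T β ξ → ElemPM (im T β ξ) (pmT T β) (pmT T ξ)
  im_self : ∀ x ∈ (pmT T ξ).M, app (im T ξ ξ) x = x
  comm : ∀ γ ≤ ξ, ∀ β ≤ γ, tle T γ ξ → tle T β γ → ∀ x ∈ (pmT T β).M,
    app (im T γ ξ) (app (im T β γ) x) = app (im T β ξ) x
  succ : ∀ ζ, ζ + 1 = ξ → Legal T ζ (idx T ζ) (exT T ζ) ∧
    brT T ξ = insert (pr T ζ).toZFSet (brT T (pr T ζ)) ∧
    (exT T ζ = ∅ → pmT T ξ = pmT T ζ ∧ ∀ x ∈ (pmT T ζ).M, app (im T ζ ξ) x = x) ∧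
    (exT T ζ ≠ ∅ → IsUlt (pmT T (pr T ζ)).M (exT T ζ) (pmT T ξ).M (im T (pr T ζ) ξ))
  lim_cof : Order.IsSuccLimit ξ → ∀ β < ξ, ∃ γ < ξ, β ≤ γ ∧ tlt T γ ξ
  lim_dir : Order.IsSuccLimit ξ → ∀ y ∈ (pmT T ξ).M,
    ∃ β < ξ, tlt T β ξ ∧ ∃ x ∈ (pmT T β).M, app (im T β ξ) x = y

theorem tcc_lt (o : Ordinal.{0}) : o < o + 1 := Order.lt_add_one_iff.2 le_rfl

theorem tcc_ok {T : V} {P : PM} (h : IsTree T P) {ξ : Ordinal.{0}} (k : ξ < lh T) : tcc_OK T ξ :=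
  ⟨h.pm ξ k, h.br_sub ξ k, h.br_br ξ k, h.elem ξ k, h.im_self ξ k, h.comm ξ k,
    fun ζ e => by
      subst e
      have k' := (tcc_lt ζ).trans k
      exact ⟨h.legal ζ k' k, h.br_succ ζ k' k, h.pad ζ k' k, h.ult ζ k' k⟩,
    h.lim_cof ξ k, h.lim_dir ξ k⟩

theorem tcc_mk {T : V} {P : PM} {l : Ordinal.{0}} (hf : IsFn T) (hd : dom T = l.toZFSet)
    (h0 : 0 < l) (hr : pmT T 0 = P) (h : ∀ ξ < l, tcc_OK T ξ) : IsTree T P ∧ lh T = l := by
  have e : lh T = l := by rw [lh, hd, rank_toZFSet]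
  subst e
  exact ⟨⟨hf, hd, h0, hr, fun ξ k => (h ξ k).pm, fun ξ k => (h ξ k).br_sub,
    fun ξ k => (h ξ k).br_br, fun ξ k => (h ξ k).elem, fun ξ k => (h ξ k).im_self,
    fun ξ k => (h ξ k).comm, fun ξ _ k => ((h _ k).succ ξ rfl).1,
    fun ξ _ k => ((h _ k).succ ξ rfl).2.1, fun ξ _ k => ((h _ k).succ ξ rfl).2.2.1,
    fun ξ _ k => ((h _ k).succ ξ rfl).2.2.2, fun ξ k => (h ξ k).lim_cof,
    fun ξ k => (h ξ k).lim_dir⟩, rfl⟩

theorem tcc_OK.congr {T T' : V} {l ξ : Ordinal.{0}} (h : tcc_OK T ξ) (a : tcc_Ag T T' l)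
    (k : ξ < l) : tcc_OK T' ξ := by
  refine ⟨a.pm k ▸ h.pm, a.br k ▸ h.br_sub, fun β hβ => ?_, fun β hβ => ?_, ?_,
    fun γ hγ β hβ => ?_, fun ζ e => ?_, fun hl β hβ => ?_, fun hl => ?_⟩
  · rw [← a.tlt β k, ← a.br k, ← a.br (hβ.trans k)]; exact h.br_br β hβ
  · rw [← a.tle β k, ← a.im β k, ← a.pm k, ← a.pm (hβ.trans_lt k)]; exact h.elem β hβ
  · rw [← a.im ξ k, ← a.pm k]; exact h.im_self
  · have kγ := hγ.trans_lt k
    rw [← a.tle γ k, ← a.tle β kγ, ← a.pm (hβ.trans_lt kγ), ← a.im γ k, ← a.im β k, ← a.im β kγ]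
    exact h.comm γ hγ β hβ
  · have k1 : ζ + 1 < l := e ▸ k
    have k2 := (tcc_lt ζ).trans k1
    have k3 : pr T ζ < l := (prd_le T ζ _).trans_lt k2
    obtain ⟨h1, h2⟩ := h.succ ζ e
    rw [← a.idx k1, ← a.ex k1, ← a.pr k1, ← a.br k, ← a.br k3, ← a.pm k, ← a.pm k2, ← a.pm k3,
      ← a.im ζ k, ← a.im (pr T ζ) k]
    exact ⟨a.legal k2 h1, h2⟩
  · simp only [← a.tlt _ k]; exact h.lim_cof hl β hβ
  · rw [← a.pm k]
    intro y hy
    obtain ⟨β, hβ, h1, h2⟩ := h.lim_dir hl y hy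
    exact ⟨β, hβ, (a.tlt β k).1 h1, by rw [← a.pm (hβ.trans k), ← a.im β k]; exact h2⟩

/-- appending a node -/
noncomputable def tcc_app (T : V) (n : Node) : V := insert (pair (lh T).toZFSet (enc n)) T

theorem tcc_app_spec {T : V} {P : PM} (h : IsTree T P) (n : Node) :
    IsFn (tcc_app T n) ∧ dom (tcc_app T n) = (lh T + 1).toZFSet ∧ rT (tcc_app T n) (lh T) = T ∧
      tcc_Ag T (tcc_app T n) (lh T) ∧ nd (tcc_app T n) (lh T) = n := by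
  have hn : ∀ y, pair (lh T).toZFSet y ∉ T := fun y hy => by
    have := mem_dom.2 ⟨y, hy⟩
    rw [h.dom_eq] at this
    exact mem_irrefl _ this
  have hf : IsFn (tcc_app T n) := by
    refine ⟨fun p hp => ?_, fun x y y' h1 h2 => ?_⟩
    · rcases mem_insert_iff.1 hp with rfl | hp
      · simp
      · exact h.fn.1 p hp
    · rcases mem_insert_iff.1 h1 with e1 | h1 <;> rcases mem_insert_iff.1 h2 with e2 | h2
      · rw [(pair_inj.1 e1).2, (pair_inj.1 e2).2]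
      · rw [(pair_inj.1 e1).1] at h2; exact (hn _ h2).elim
      · rw [(pair_inj.1 e2).1] at h1; exact (hn _ h1).elim
      · exact h.fn.2 x y y' h1 h2
  have hr : rT (tcc_app T n) (lh T) = T := by
    ext p
    rw [rT, restr, mem_sep]
    constructor
    · rintro ⟨h1, h2⟩
      rcases mem_insert_iff.1 h1 with rfl | h1
      · rw [fst_pair] at h2; exact (mem_irrefl _ h2).elim
      · exact h1
    · intro hp
      refine ⟨mem_insert_of_mem _ hp, ?_⟩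
      rw [← h.dom_eq]
      exact mem_dom.2 ⟨snd p, h.fn.1 p hp ▸ hp⟩
  refine ⟨hf, ?_, hr, fun ζ k => ?_, ?_⟩
  · rw [toZFSet_add_one, ← h.dom_eq]
    ext x
    rw [mem_insert_iff, mem_dom, mem_dom, h.dom_eq]
    constructor
    · rintro ⟨y, hy⟩
      rcases mem_insert_iff.1 hy with e | hy
      · exact Or.inl (pair_inj.1 e).1
      · exact Or.inr ⟨y, hy⟩
    · rintro (rfl | ⟨y, hy⟩)
      · exact ⟨_, mem_insert _ _⟩
      · exact ⟨y, mem_insert_of_mem _ hy⟩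
  · rw [← nd_rT (T := tcc_app T n) k, hr]
  · rw [nd, oat, hf.app_eq (mem_insert _ _), dec_enc]

theorem tcc_app_mem (N : Set V) [IsZ N] {T : V} {n : Node} (hT : T ∈ N) (hn : enc n ∈ N) :
    tcc_app T n ∈ N := by
  haveI : In N T := ⟨hT⟩
  haveI : In N n := ⟨hn⟩
  exact memV_of N (insert (pair (lh T).toZFSet (enc n)) T)

theorem tcc_app_tree {T : V} {P : PM} (h : IsTree T P) {n : Node}
    (hn : tcc_OK (tcc_app T n) (lh T)) :
    IsTree (tcc_app T n) P ∧ lh (tcc_app T n) = lh T + 1 := by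
  obtain ⟨h1, h2, -, h4, -⟩ := tcc_app_spec h n
  refine tcc_mk h1 h2 (h.pos.trans (tcc_lt _)) ((h4.pm h.pos).symm.trans h.root) fun ξ k => ?_
  rcases (Order.lt_add_one_iff.1 k).eq_or_lt with rfl | k
  · exact hn
  · exact (tcc_ok h k).congr h4 k

theorem tcc_mapsTo {j : V} {P Q : PM} (h : ElemPM j P Q) {x : V} (hx : x ∈ P.M) :
    app j x ∈ Q.M := h.elem.elem.1 x hx

/-- the order-theoretic and commutativity conditions at an appended node -/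
theorem tcc_new {T T' : V} {P Q : PM} {B : V} (h : IsTree T P) (a : tcc_Ag T T' (lh T))
    (e1 : pmT T' (lh T) = Q) (e2 : brT T' (lh T) = B) (hQ : IsPM Q)
    (e3 : im T' (lh T) (lh T) = idR Q.M) (hB : B ⊆ (lh T).toZFSet)
    (hb : ∀ β < lh T, β.toZFSet ∈ B → brT T β = cut B β)
    (he : ∀ β < lh T, β.toZFSet ∈ B → ElemPM (im T' β (lh T)) (pmT T β) Q)
    (hc : ∀ γ < lh T, γ.toZFSet ∈ B → ∀ β ≤ γ, tle T β γ → ∀ x ∈ (pmT T β).M,
      app (im T' γ (lh T)) (app (im T β γ) x) = app (im T' β (lh T)) x)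
    (hs : ∀ ζ, ζ + 1 = lh T → Legal T' ζ (idx T' ζ) (exT T' ζ) ∧
      B = insert (pr T' ζ).toZFSet (brT T' (pr T' ζ)) ∧
      (exT T' ζ = ∅ → Q = pmT T' ζ ∧ ∀ x ∈ (pmT T' ζ).M, app (im T' ζ (lh T)) x = x) ∧
      (exT T' ζ ≠ ∅ → IsUlt (pmT T' (pr T' ζ)).M (exT T' ζ) Q.M (im T' (pr T' ζ) (lh T))))
    (hl : Order.IsSuccLimit (lh T) → (∀ β < lh T, ∃ γ < lh T, β ≤ γ ∧ γ.toZFSet ∈ B) ∧
      ∀ y ∈ Q.M, ∃ β < lh T, β.toZFSet ∈ B ∧ ∃ x ∈ (pmT T β).M, app (im T' β (lh T)) x = y) :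
    tcc_OK T' (lh T) := by
  have t : ∀ β, tlt T' β (lh T) ↔ β.toZFSet ∈ B := fun β => by rw [tlt, e2]
  have lt : ∀ β : Ordinal.{0}, β.toZFSet ∈ B → β < lh T := fun β k =>
    toZFSet_mem_toZFSet_iff.1 (hB k)
  have el : ∀ β ≤ lh T, tle T' β (lh T) → ElemPM (im T' β (lh T)) (pmT T' β) Q := fun β _ k => by
    rcases k with rfl | k
    · rw [e3, e1]; exact (elemPM_id hQ).1
    · have k' := (t β).1 k
      rw [← a.pm (lt β k')]; exact he β (lt β k') k'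
  refine ⟨e1 ▸ hQ, e2 ▸ hB, fun β hβ k => ?_, e1 ▸ el, ?_, fun γ hγ β hβ k1 k2 x hx => ?_,
    e1 ▸ e2 ▸ hs, fun k β hβ => ?_, fun k y hy => ?_⟩
  · rw [← a.br hβ, e2]; exact hb β hβ ((t β).1 k)
  · rw [e3, e1]; exact (elemPM_id hQ).2
  · rcases k1 with rfl | k1
    · rw [e3]; exact (elemPM_id hQ).2 _ (tcc_mapsTo (el β hβ k2) hx)
    · have k' := (t γ).1 k1
      have kγ := lt γ k'
      rw [← a.im β kγ]
      rw [← a.pm (hβ.trans_lt kγ)] at hx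
      exact hc γ kγ k' β hβ ((a.tle β kγ).2 k2) x hx
  · simp only [t]; exact (hl k).1 β hβ
  · obtain ⟨β, hβ, h1, h2⟩ := (hl k).2 y (e1 ▸ hy)
    exact ⟨β, hβ, (t β).2 h1, a.pm hβ ▸ h2⟩

theorem tcc_node (N : Set V) [IsZ N] {Q : PM} {B I E : V} {a : Ordinal.{0}} (hQ : enc Q ∈ N)
    (hB : B ∈ N) (hI : I ∈ N) (ha : a.toZFSet ∈ N) (hE : E ∈ N) :
    enc ((Q, B, I, a, E) : Node) ∈ N := by
  haveI : In N Q := ⟨hQ⟩
  haveI : In N B := ⟨hB⟩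
  haveI : In N I := ⟨hI⟩
  haveI : In N a := ⟨ha⟩
  haveI : In N E := ⟨hE⟩
  exact mem_of N ((Q, B, I, a, E) : Node)

theorem tcc_nd {T : V} {ξ : Ordinal.{0}} {Q : PM} {B I E : V} {a : Ordinal.{0}}
    (e : nd T ξ = (Q, B, I, a, E)) :
    pmT T ξ = Q ∧ brT T ξ = B ∧ (∀ β, im T β ξ = app I β.toZFSet) ∧
      ∀ ζ, ζ + 1 = ξ → idx T ζ = a ∧ exT T ζ = E := by
  refine ⟨by rw [pmT, e], by rw [brT, e], fun β => by rw [im, e], fun ζ k => ?_⟩
  subst k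
  exact ⟨by rw [idx, e], by rw [exT, e]⟩

theorem exists_tree_one (N : Set V) [IsZ N] {P : PM} (hP : IsPM P) (hm : P.M ∈ N) :
    ∃ T ∈ N, IsTree T P ∧ lh T = 1 := by
  haveI : In N P := ⟨hP.enc_mem hm⟩
  obtain ⟨T, hT, hf, hd, e⟩ : ∃ T ∈ N, IsFn T ∧ dom T = (1 : Ordinal.{0}).toZFSet ∧
      nd T 0 = (P, ∅, lam {∅} (fun _ => idR P.M), 0, ∅) :=
    ⟨sq 1 fun _ => ((P, ∅, lam {∅} (fun _ => idR P.M), 0, ∅) : Node), memV_of N _, isFn_sq _ _,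
      dom_sq _ _, oat_sq _ zero_lt_one⟩
  obtain ⟨e1, e2, e3, -⟩ := tcc_nd e
  replace e3 : im T 0 0 = idR P.M := by
    rw [e3, toZFSet_zero, app_lam _ (mem_singleton.2 rfl)]
  refine ⟨T, hT, tcc_mk hf hd zero_lt_one e1 fun ξ k => ?_⟩
  obtain rfl : ξ = 0 := by simpa using k
  refine ⟨e1.symm ▸ hP, e2.symm ▸ empty_subset _, fun β hβ => absurd hβ (by simp),
    fun β hβ _ => ?_, ?_, fun γ hγ β hβ _ _ x hx => ?_, fun ζ e => absurd e (tcc_lt ζ).ne_bot,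
    fun k => absurd k Order.not_isSuccLimit_bot, fun k => absurd k Order.not_isSuccLimit_bot⟩
  · obtain rfl := nonpos_iff_eq_zero.1 hβ
    rw [e1, e3]; exact (elemPM_id hP).1
  · rw [e1, e3]; exact (elemPM_id hP).2
  · obtain rfl := nonpos_iff_eq_zero.1 hγ
    obtain rfl := nonpos_iff_eq_zero.1 hβ
    rw [e1] at hx
    rw [e3, (elemPM_id hP).2 x hx, (elemPM_id hP).2 x hx]

theorem tcc_comp_id {i j : V} {P Q : PM} (hi : ElemPM i P Q) (hj : ElemPM j P P)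
    (e : ∀ x ∈ P.M, app j x = x) : comp i j = i := by
  obtain ⟨h1, h2, -⟩ := isFunc_iff.1 hi.elem.1
  obtain ⟨-, h3, -⟩ := isFunc_iff.1 hj.elem.1
  refine (isFn_lam _ _).ext h1 (by rw [dom_lam, h2, h3]) fun x hx => ?_
  rw [dom_lam] at hx
  rw [app_lam _ hx, e x (h3 ▸ hx)]

theorem tcc_ord {o : Ordinal.{0}} {x : V} (h : x ∈ o.toZFSet) : x.rank.toZFSet = x := by
  obtain ⟨β, -, rfl⟩ := mem_toZFSet_iff.1 h
  rw [rank_toZFSet]

theorem exists_tree_succ (N : Set V) [IsZ N] {T : V} {P : PM} (h : IsTree T P) (hT : T ∈ N)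
    {η a : Ordinal.{0}} {E : V} (hη : lh T = η + 1) (hL : Legal T η a E)
    (hwf : E ≠ ∅ → UWF (pmT T (prd T η E)).M E) :
    ∃ T' ∈ N, IsTree T' P ∧ lh T' = η + 2 ∧ rT T' (η + 1) = T ∧ idx T' η = a ∧ exT T' η = E := by
  have kη : η < lh T := hη ▸ tcc_lt η
  haveI : In N T := ⟨hT⟩
  haveI : In N η := ⟨IsZ.ord_mem_of_le N (mem_of N (lh T)) kη.le⟩
  have ha : a.toZFSet ∈ N := IsZ.ord_mem_of_le N (mem_of N (pmT T η).th) hL.2.2.1.le
  haveI : In N a := ⟨ha⟩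
  have hE : E ∈ N := by
    rcases hL.2.2.2 with rfl | k
    · exact IsZ.empty_mem N
    · exact IsZ.trans _ (memV_of N ((pmT T η).optAt a)) _ k
  haveI : In N E := ⟨hE⟩
  obtain ⟨p, ep⟩ : ∃ p, p = prd T η E := ⟨_, rfl⟩
  have hp : p ≤ η := ep ▸ prd_le T η E
  have kp : p < lh T := hp.trans_lt kη
  haveI : In N p := ⟨IsZ.ord_mem_of_le N (mem_of N (lh T)) kp.le⟩
  obtain ⟨Q, i, hQN, hiN, hQ, hi, hpad, hult⟩ : ∃ (Q : PM) (i : V), enc Q ∈ N ∧ i ∈ N ∧ IsPM Q ∧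
      ElemPM i (pmT T p) Q ∧ (E = ∅ → Q = pmT T η ∧ ∀ x ∈ (pmT T η).M, app i x = x) ∧
      (E ≠ ∅ → IsUlt (pmT T p).M E Q.M i) := by
    by_cases k : E = ∅
    · obtain rfl : p = η := by rw [ep, prd, if_pos k]
      exact ⟨pmT T p, idR (pmT T p).M, mem_of N _, memV_of N _, h.pm p kp,
        (elemPM_id (h.pm p kp)).1, fun _ => ⟨rfl, (elemPM_id (h.pm p kp)).2⟩, fun k' => (k' k).elim⟩
    · have hx : IsExt E := (mem_optAt.1 (hL.2.2.2.resolve_left k)).2.1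
      obtain ⟨h1, h2, h3⟩ := ultP_spec (h.pm p kp) hx (ep ▸ (h.agr_prd kη hL k).2.1) (ep ▸ hwf k)
      exact ⟨ultP (pmT T p) E, ultMap (pmT T p).M E, mem_of N _, memV_of N _, h1, h3,
        fun k' => (k k').elim, fun _ => h2⟩
  haveI : In N Q := ⟨hQN⟩
  haveI : In N i := ⟨hiN⟩
  obtain ⟨I, hIN, eI, eI'⟩ : ∃ I ∈ N, app I (lh T).toZFSet = idR Q.M ∧
      ∀ β < lh T, app I β.toZFSet = comp i (im T β p) := by
    refine ⟨lam (lh T + 1).toZFSet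
      (fun x => if x = (lh T).toZFSet then idR Q.M else comp i (im T x.rank p)), memV_of N _, ?_,
      fun β hβ => ?_⟩
    · rw [app_lam _ (toZFSet_mem_toZFSet_iff.2 (tcc_lt _)), if_pos rfl]
    · rw [app_lam _ (toZFSet_mem_toZFSet_iff.2 (hβ.trans (tcc_lt _))),
        if_neg fun e => hβ.ne (toZFSet_injective e), rank_toZFSet]
  obtain ⟨-, -, hr, ag, e⟩ := tcc_app_spec h (Q, insert p.toZFSet (brT T p), I, a, E)
  have hmem := tcc_app_mem N hT (tcc_node N hQN (memV_of N (insert p.toZFSet (brT T p))) hIN ha hE)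
  have key := fun k => tcc_app_tree h (n := (Q, insert p.toZFSet (brT T p), I, a, E)) k
  generalize tcc_app T (Q, insert p.toZFSet (brT T p), I, a, E) = T' at *
  obtain ⟨e1, e2, e3, e4⟩ := tcc_nd e
  obtain ⟨e4, e5⟩ := e4 η hη.symm
  have tp : ∀ β : Ordinal.{0}, β.toZFSet ∈ insert p.toZFSet (brT T p) ↔ tle T β p := fun β => by
    rw [mem_insert_iff, tle, tlt, toZFSet_injective.eq_iff]
  have cp : ∀ β, tle T β p → ElemPM (im T' β (lh T)) (pmT T β) Q ∧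
      ∀ x ∈ (pmT T β).M, app (im T' β (lh T)) x = app i (app (im T β p) x) := fun β k => by
    have k1 := h.tle_le kp k
    rw [e3, eI' β (k1.trans_lt kp)]
    exact ElemPM.comp (h.pm β (k1.trans_lt kp)) (h.pm p kp) (h.elem p kp β k1 k) hi
  have ip : im T' p (lh T) = i := by
    rw [e3, eI' p kp]
    exact tcc_comp_id hi (h.elem p kp p le_rfl (Or.inl rfl)) (h.im_self p kp)
  have ok : tcc_OK T' (lh T) := by
    refine tcc_new h ag e1 e2 hQ (by rw [e3, eI]) (fun x hx => ?_) (fun β hβ k => ?_)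
      (fun β hβ k => (cp β ((tp β).1 k)).1) (fun γ hγ k β hβ k' x hx => ?_) (fun ζ e => ?_)
      fun k => absurd k (by rw [hη, ← Order.succ_eq_add_one]; exact Order.not_isSuccLimit_succ η)
    · rcases mem_insert_iff.1 hx with rfl | hx
      · exact toZFSet_mem_toZFSet_iff.2 kp
      · exact toZFSet_monotone kp.le (h.br_sub p kp hx)
    · have c : ∀ γ ≤ p, cut (insert p.toZFSet (brT T p)) γ = cut (brT T p) γ := fun γ hγ => by
        ext x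
        rw [mem_cut, mem_cut, mem_insert_iff]
        refine and_congr_left fun hx => or_iff_right fun e => ?_
        rw [e, rank_toZFSet] at hx
        exact hx.not_ge hγ
      rcases (tp β).1 k with rfl | k
      · rw [c β le_rfl]
        ext x
        rw [mem_cut]
        exact (and_iff_left_of_imp fun hx => z5c_mem (h.br_sub β kp hx)).symm
      · rw [c β (h.tlt_lt kp k).le]
        exact h.br_br p kp β (h.tlt_lt kp k) k
    · have k1 := (tp γ).1 k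
      rw [(cp γ k1).2 _ (tcc_mapsTo (h.elem γ hγ β hβ k') hx), (cp β (h.tle_trans kp k' k1)).2 x hx,
        h.comm p kp γ (h.tle_le kp k1) β hβ k1 k' x hx]
    · obtain rfl : ζ = η := by
        rw [hη] at e
        exact le_antisymm (Order.lt_add_one_iff.1 (e ▸ tcc_lt ζ))
          (Order.lt_add_one_iff.1 (e.symm ▸ tcc_lt η))
      have e6 : pr T' ζ = p := by rw [pr, e5, ← ag.prd E kη, ep]
      rw [e4, e5, e6, ← ag.br kp, ← ag.pm kp, ← ag.pm kη, ip]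
      refine ⟨ag.legal kη hL, rfl, fun k => ⟨(hpad k).1, ?_⟩, hult⟩
      obtain rfl : p = ζ := by rw [ep, prd, if_pos k]
      rw [ip]; exact (hpad k).2
  refine ⟨T', hmem, (key ok).1, ?_, hη ▸ hr, e4, e5⟩
  rw [(key ok).2, hη, add_assoc, one_add_one_eq_two]

theorem tcc_ran {j A B y : V} (h : IsElem j A B) : y ∈ ran j ↔ ∃ x ∈ A, app j x = y := by
  obtain ⟨h1, h2, -⟩ := isFunc_iff.1 h.1
  rw [mem_ran]
  exact ⟨fun ⟨x, hx⟩ => ⟨x, h2 ▸ mem_dom.2 ⟨y, hx⟩, h1.app_eq hx⟩,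
    fun ⟨x, hx, e⟩ => ⟨x, e ▸ h1.pair_app_mem (h2.symm ▸ hx)⟩⟩

theorem tcc_elemSub {j A B : V} (h : IsElem j A B) : ElemSub (ran j) B := by
  refine elemSub_of_tv (fun y hy => ?_) fun φ v hv e => ?_
  · obtain ⟨x, hx, rfl⟩ := (tcc_ran h).1 hy
    exact h.elem.1 x hx
  · choose u hu eu using fun i => (tcc_ran h).1 (hv i)
    obtain rfl : app j ∘ u = v := funext eu
    obtain ⟨x, hx, k⟩ := (h.elem.2 (.ex φ) u hu).2 e
    refine ⟨app j x, (tcc_ran h).2 ⟨x, hx, rfl⟩, ?_⟩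
    rw [← comp_cons]
    exact (h.elem.2 φ _ (cons_mem hx hu)).1 k

/-- `π ∘ j = t` with `π`, `t` maps of premice makes `j` a map of premice -/
theorem tcc_left {j π t : V} {P Q R : PM} (hP : IsPM P) (hQ : IsPM Q) (hR : IsPM R)
    (hj : IsFunc P.M Q.M j) (h1 : ElemPM π Q R) (h2 : ElemPM t P R)
    (e : ∀ x ∈ P.M, app π (app j x) = app t x) : ElemPM j P Q := by
  haveI := hP.isT; haveI := hQ.isT; haveI := hR.isT
  have m := (isFunc_iff.1 hj).2.2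
  have k : Elem (app j) (P.M : Set V) (Q.M : Set V) :=
    Elem.of_comp m h1.elem.elem (h2.elem.elem.congr e)
  have o : ∀ {a b : Ordinal.{0}}, a.toZFSet ∈ P.M → b.toZFSet ∈ Q.M →
      jm (app t) a = jm (app π) b → jm (app j) a = b := fun {a b} ha hb e' => by
    apply toZFSet_injective
    rw [← k.map_ord ha, ← h1.elem.elem.inj (m _ ha) hb, e _ ha, h2.elem.elem.map_ord ha,
      h1.elem.elem.map_ord hb, e']
  exact ⟨z3d_elem.2 ⟨hj, k⟩,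
    (h1.elem.elem.inj (m _ hP.w_mem) hQ.w_mem).1 (by rw [e _ hP.w_mem, h1.w, h2.w]),
    o hP.mu_mem hQ.mu_mem (h2.mu.trans h1.mu.symm),
    (h1.elem.elem.inj (m _ hP.S_mem) hQ.S_mem).1 (by rw [e _ hP.S_mem, h1.S, h2.S]),
    o hP.th_mem hQ.th_mem (h2.th.trans h1.th.symm)⟩

/-- `τ ∘ i = t` with `i`, `t` maps of premice and `τ` elementary makes `τ` a map of premice -/
theorem tcc_right {i τ t : V} {P Q R : PM} (hP : IsPM P) (hQ : IsPM Q)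
    (hτ : IsElem τ Q.M R.M) (h1 : ElemPM i P Q) (h2 : ElemPM t P R)
    (e : ∀ x ∈ P.M, app τ (app i x) = app t x) : ElemPM τ Q R := by
  haveI := hP.isT; haveI := hQ.isT
  have o : ∀ {a : Ordinal.{0}}, a.toZFSet ∈ P.M → jm (app τ) (jm (app i) a) = jm (app t) a :=
    fun {a} ha => (h1.elem.elem.jm_comp (a := a) ha).trans (jm_congr (e _ ha))
  exact ⟨hτ, by rw [← h1.w, e _ hP.w_mem, h2.w], by rw [← h1.mu, o hP.mu_mem, h2.mu],
    by rw [← h1.S, e _ hP.S_mem, h2.S], by rw [← h1.th, o hP.th_mem, h2.th]⟩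

theorem tcc_HC_lam {N : Set V} [IsZFC N] {a : V} {f : V → V} (h : lam a f ∈ N) (ha : a ∈ HC N)
    (hf : ∀ x ∈ a, f x ∈ HC N) : lam a f ∈ HC N := by
  refine mem_HC_iff.2 ⟨InjIn.trans (z5b_mk (b := a) fst h (fun p hp => ?_) fun p hp q hq e => ?_)
    (z5d_ctbl ha), fun p hp => ?_⟩
  · obtain ⟨x, hx, rfl⟩ := mem_lam.1 hp
    rw [fst_pair]; exact hx
  · obtain ⟨x, hx, rfl⟩ := mem_lam.1 hp
    obtain ⟨y, hy, rfl⟩ := mem_lam.1 hq
    rw [fst_pair, fst_pair] at e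
    rw [e]
  · obtain ⟨x, hx, rfl⟩ := mem_lam.1 hp
    exact z5d_pair (z5d_trans ha hx) (hf x hx)

/-- direct limit along a realizable branch -/
theorem exists_tree_lim (N : Set V) [IsZFC N] {T b σ : V} {P Ps : PM} (h : IsTree T P)
    (hT : T ∈ HC N) (hlim : Order.IsSuccLimit (lh T)) (hb : b ∈ N) (hc : CofBr T (lh T) b)
    (hPs : IsPM Ps) (hm : Ps.M ∈ N) (hr : RealB N T b σ Ps) :
    ∃ T' ∈ HC N, IsTree T' P ∧ lh T' = lh T + 1 ∧ rT T' (lh T) = T ∧ brT T' (lh T) = b ∧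
      ∃ τ ∈ N, ElemPM τ (pmT T' (lh T)) Ps := by
  obtain ⟨t, ht, r1, r2, -⟩ := hr
  obtain ⟨c1, c2, c3⟩ := hc
  haveI := hPs.isT
  haveI : In N T := ⟨HC_subset N hT⟩
  haveI : In N t := ⟨ht⟩
  haveI : In N b := ⟨hb⟩
  have hl : (lh T).toZFSet ∈ HC N := haveI : In (HC N) T := ⟨hT⟩; mem_of (HC N) (lh T)
  have hbH : b ∈ HC N :=
    mem_HC_iff.2 ⟨(z5d_ctbl hl).of_subset hb c1, fun y hy => z5d_trans hl (c1 hy)⟩
  have lt : ∀ {β : Ordinal.{0}}, β.toZFSet ∈ b → β < lh T := fun k =>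
    toZFSet_mem_toZFSet_iff.1 (c1 k)
  have ob : ∀ x ∈ b, ∃ β : Ordinal.{0}, β.toZFSet = x := fun x hx => ⟨_, tcc_ord (c1 hx)⟩
  have tb : ∀ {β γ : Ordinal.{0}}, γ.toZFSet ∈ b → β ≤ γ → (tle T β γ ↔ β.toZFSet ∈ b) :=
    fun {β γ} k le => by
      rw [tle, tlt, c3 γ (lt k) k, mem_cut, rank_toZFSet]
      rcases le.eq_or_lt with rfl | le
      · simp [k]
      · simp [le, le.ne]
  have cm : ∀ γ : Ordinal.{0}, γ.toZFSet ∈ b → ∀ β ≤ γ, β.toZFSet ∈ b → ∀ x ∈ (pmT T β).M,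
      app (app t γ.toZFSet) (app (im T β γ) x) = app (app t β.toZFSet) x := fun γ k β le k' x hx => by
    rcases le.eq_or_lt with rfl | le
    · rw [h.im_self β (lt k) x hx]
    · exact r2 γ k β le k' x hx
  obtain ⟨β₀, -, -, k₀⟩ := c2 0 h.pos
  obtain ⟨X, hXN, hXc, hX, mX⟩ : ∃ X ∈ N, Ctbl N X ∧ ElemSub X Ps.M ∧ ∀ y, y ∈ X ↔
      ∃ β : Ordinal.{0}, β.toZFSet ∈ b ∧ ∃ x ∈ (pmT T β).M, app (app t β.toZFSet) x = y := by
    have sb : ∀ {β γ : Ordinal.{0}}, β.toZFSet ∈ b → γ.toZFSet ∈ b → β ≤ γ →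
        ran (app t β.toZFSet) ⊆ ran (app t γ.toZFSet) := fun {β γ} k k' le y hy => by
      obtain ⟨x, hx, rfl⟩ := (tcc_ran (r1 β k).elem).1 hy
      exact (tcc_ran (r1 γ k').elem).2 ⟨_, tcc_mapsTo (h.elem γ (lt k') β le ((tb k' le).2 k)) hx,
        cm γ k' β le k x hx⟩
    refine ⟨bU b fun x => ran (app t x), memV_of N _, Ctbl.sUnion (z5b_img (z5d_ctbl hbH)
      (fun x => ran (app t x)) (memV_of N _) fun y hy => mem_img.1 hy) fun y hy => ?_,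
      elemSub_sUnion ⟨_, mem_img.2 ⟨_, k₀, rfl⟩⟩ (fun Y hY => ?_) fun Y hY Z hZ => ?_, fun y => ?_⟩
    · obtain ⟨x, hx, rfl⟩ := mem_img.1 hy
      obtain ⟨β, rfl⟩ := ob x hx
      haveI : In N β := ⟨IsZ.trans _ hb _ hx⟩
      exact z5b_img (z5d_ctbl (h.node_HC hT (ξ := β)).1) (fun u => app (app t β.toZFSet) u)
        (memV_of N _) fun y hy => (tcc_ran (r1 β hx).elem).1 hy
    · obtain ⟨x, hx, rfl⟩ := mem_img.1 hY
      obtain ⟨β, rfl⟩ := ob x hx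
      exact tcc_elemSub (r1 β hx).elem
    · obtain ⟨x, hx, rfl⟩ := mem_img.1 hY
      obtain ⟨β, rfl⟩ := ob x hx
      obtain ⟨x, hx', rfl⟩ := mem_img.1 hZ
      obtain ⟨γ, rfl⟩ := ob x hx'
      rcases le_total β γ with le | le
      · exact ⟨_, hZ, sb hx hx' le, fun _ k => k⟩
      · exact ⟨_, hY, fun _ k => k, sb hx' hx le⟩
    · rw [mem_bU]
      constructor
      · rintro ⟨x, hx, hy⟩
        obtain ⟨β, rfl⟩ := ob x hx
        exact ⟨β, hx, (tcc_ran (r1 β hx).elem).1 hy⟩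
      · rintro ⟨β, k, hy⟩
        exact ⟨_, k, (tcc_ran (r1 β k).elem).2 hy⟩
  haveI : In N X := ⟨hXN⟩
  have hπ := hX.isElem_uncol IsZ.isTransitive
  have eπ : ∀ y ∈ X, app (uncol X) (col (memR X) y) = y := fun y hy =>
    (isFunc_iff.1 hπ.1).1.app_eq (z4c_uncol.2 ⟨hy, rfl⟩)
  have mG : ∀ y ∈ X, col (memR X) y ∈ tcol X := fun y hy => mem_img.2 ⟨y, hy, rfl⟩
  have ex : ∀ x ∈ (pmT T β₀).M, ∃ y ∈ tcol X, app (uncol X) y = app (app t β₀.toZFSet) x :=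
    fun x hx => ⟨_, mG _ ((mX _).2 ⟨β₀, k₀, x, hx, rfl⟩), eπ _ ((mX _).2 ⟨β₀, k₀, x, hx, rfl⟩)⟩
  have p₀ := h.pm β₀ (lt k₀)
  haveI := p₀.isT
  obtain ⟨Q, eQ, hQ, hτ⟩ := exists_pullback hPs (tcol_trans X) hπ
    ((r1 β₀ k₀).w ▸ ex _ p₀.w_mem)
    (by rw [← (r1 β₀ k₀).mu, ← (r1 β₀ k₀).elem.elem.map_ord p₀.mu_mem]; exact ex _ p₀.mu_mem)
    ((r1 β₀ k₀).S ▸ ex _ p₀.S_mem)
    (by rw [← (r1 β₀ k₀).th, ← (r1 β₀ k₀).elem.elem.map_ord p₀.th_mem]; exact ex _ p₀.th_mem)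
  have hG : Q.M ∈ HC N := by
    rw [eQ]
    exact mem_HC_of_trans (tcol_trans X) (z5b_img hXc (fun u => col (memR X) u) (memV_of N _)
      fun y hy => mem_img.1 hy)
  have nb : (lh T).toZFSet ∉ b := fun k => (lt k).false
  obtain ⟨I, hI, eI, eI'⟩ : ∃ I ∈ HC N, app I (lh T).toZFSet = idR Q.M ∧
      ∀ β : Ordinal.{0}, β.toZFSet ∈ b → app I β.toZFSet =
        lam (pmT T β).M (fun u => col (memR X) (app (app t β.toZFSet) u)) := by
    haveI : In N Q.M := ⟨HC_subset N hG⟩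
    haveI : In (HC N) Q.M := ⟨hG⟩
    haveI : In (HC N) b := ⟨hbH⟩
    haveI : In (HC N) (lh T) := ⟨hl⟩
    refine ⟨lam (insert (lh T).toZFSet b) (fun x => if x = (lh T).toZFSet then idR Q.M else
      lam (pmT T x.rank).M (fun u => col (memR X) (app (app t x) u))),
      tcc_HC_lam (memV_of N _) (memV_of (HC N) _) fun x hx => ?_, ?_, fun β k => ?_⟩
    · split_ifs with e
      · exact memV_of (HC N) _
      · have k := (mem_insert_iff.1 hx).resolve_left e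
        obtain ⟨β, rfl⟩ := ob x k
        haveI : In N β := ⟨IsZ.trans _ hb _ k⟩
        rw [rank_toZFSet]
        exact tcc_HC_lam (memV_of N _) (h.node_HC hT (ξ := β)).1 fun u hu =>
          z5d_trans hG (eQ ▸ mG _ ((mX _).2 ⟨β, k, u, hu, rfl⟩))
    · rw [app_lam _ (mem_insert _ _), if_pos rfl]
    · rw [app_lam _ (mem_insert_of_mem _ k), if_neg fun e : β.toZFSet = (lh T).toZFSet => nb (e ▸ k),
        rank_toZFSet]
  obtain ⟨-, -, hr, ag, e⟩ := tcc_app_spec h (Q, b, I, 0, ∅)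
  have hmem := tcc_app_mem (HC N) hT (tcc_node (HC N) (a := 0) (hQ.enc_mem hG) hbH hI
    (IsZ.ord_mem_of_le _ hl zero_le) (IsZ.empty_mem _))
  have key := fun k => tcc_app_tree h (n := (Q, b, I, 0, ∅)) k
  generalize tcc_app T (Q, b, I, 0, ∅) = T' at *
  obtain ⟨e1, e2, e3, -⟩ := tcc_nd e
  have ap : ∀ β : Ordinal.{0}, β.toZFSet ∈ b → ∀ x ∈ (pmT T β).M,
      app (im T' β (lh T)) x = col (memR X) (app (app t β.toZFSet) x) := fun β k x hx => by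
    rw [e3, eI' β k, app_lam _ hx]
  have ok : tcc_OK T' (lh T) := by
    refine tcc_new h ag e1 e2 hQ (by rw [e3, eI]) c1 c3 (fun β hβ k => ?_)
      (fun γ hγ k β hβ k' x hx => ?_) (fun ζ e => ?_) fun _ => ⟨c2, fun y hy => ?_⟩
    · refine tcc_left (h.pm β hβ) hQ hPs ?_ hτ (r1 β k) fun x hx => ?_
      · rw [e3, eI' β k, eQ]
        exact isFunc_lam fun x hx => mG _ ((mX _).2 ⟨β, k, x, hx, rfl⟩)
      · rw [ap β k x hx, eπ _ ((mX _).2 ⟨β, k, x, hx, rfl⟩)]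
    · have k2 := (tb k hβ).1 k'
      rw [ap γ k _ (tcc_mapsTo (h.elem γ hγ β hβ k') hx), ap β k2 x hx, cm γ k β hβ k2 x hx]
    · exact absurd hlim (by rw [← e, ← Order.succ_eq_add_one]; exact Order.not_isSuccLimit_succ ζ)
    · rw [eQ] at hy
      obtain ⟨z, hz, rfl⟩ := mem_img.1 hy
      obtain ⟨β, k, x, hx, rfl⟩ := (mX z).1 hz
      exact ⟨β, lt k, k, x, hx, ap β k x hx⟩
  exact ⟨T', hmem, (key ok).1, (key ok).2, hr, e2, uncol X, memV_of N _, e1 ▸ hτ⟩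

/-- a limit node whose branch is realizable is realizable -/
theorem IsTree.real_node {N : Set V} [IsZ N] {T σ : V} {P Ps : PM} (h : IsTree T P) (hT : T ∈ N)
    {l : Ordinal.{0}} (hl : l < lh T) (hlim : Order.IsSuccLimit l) (hPs : IsPM Ps)
    (hr : RealB N T (brT T l) σ Ps) : ∃ τ ∈ N, ElemPM τ (pmT T l) Ps := by
  obtain ⟨t, ht, r1, r2, -⟩ := hr
  haveI : In N T := ⟨hT⟩
  haveI : In N t := ⟨ht⟩
  haveI : In N l := ⟨IsZ.ord_mem_of_le N (mem_of N (lh T)) hl.le⟩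
  have el : ∀ {β}, tlt T β l → ElemPM (im T β l) (pmT T β) (pmT T l) := fun {β} k =>
    h.elem l hl β (h.tlt_lt hl k).le (Or.inr k)
  have st : ∀ {β γ}, tlt T β l → tlt T γ l → β ≤ γ → ∀ x ∈ (pmT T β).M, ∃ y ∈ (pmT T γ).M,
      app (im T γ l) y = app (im T β l) x ∧ app (app t γ.toZFSet) y = app (app t β.toZFSet) x :=
    fun {β γ} k k' le x hx => by
      have k1 := h.tlt_lt hl k'
      have k2 := h.tle_of_le hl (Or.inr k) (Or.inr k') le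
      refine ⟨app (im T β γ) x, tcc_mapsTo (h.elem γ (k1.trans hl) β le k2) hx,
        h.comm l hl γ k1.le β le (Or.inr k') k2 x hx, ?_⟩
      rcases le.eq_or_lt with rfl | le
      · rw [h.im_self β (k1.trans hl) x hx]
      · exact r2 γ k' β le k x hx
  obtain ⟨τ, hτ, mτ⟩ : ∃ τ ∈ N, ∀ p, p ∈ τ ↔ ∃ β, tlt T β l ∧ ∃ x ∈ (pmT T β).M,
      pair (app (im T β l) x) (app (app t β.toZFSet) x) = p := by
    refine ⟨bU (brT T l) fun z => img (fun x => pair (app (im T z.rank l) x) (app (app t z) x))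
      (pmT T z.rank).M, memV_of N _, fun p => ?_⟩
    simp only [mem_bU, mem_img]
    constructor
    · rintro ⟨z, hz, k⟩
      have e := tcc_ord (h.br_sub l hl hz)
      exact ⟨z.rank, by rw [tlt, e]; exact hz, by rw [e]; exact k⟩
    · rintro ⟨β, k, k'⟩
      exact ⟨β.toZFSet, k, by rw [rank_toZFSet]; exact k'⟩
  have wd : ∀ {β γ}, tlt T β l → tlt T γ l → β ≤ γ → ∀ x ∈ (pmT T β).M, ∀ x' ∈ (pmT T γ).M,
      app (im T β l) x = app (im T γ l) x' →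
        app (app t β.toZFSet) x = app (app t γ.toZFSet) x' := fun k k' le x hx x' hx' e => by
    obtain ⟨y, hy, e1, e2⟩ := st k k' le x hx
    rw [← e2, ((el k').elem.elem.inj hy hx').1 (e1.trans e)]
  have hf : IsFn τ := by
    refine ⟨fun p hp => ?_, fun u y y' h1 h2 => ?_⟩
    · obtain ⟨β, -, x, -, rfl⟩ := (mτ p).1 hp
      simp
    · obtain ⟨β, k, x, hx, e⟩ := (mτ _).1 h1
      obtain ⟨γ, k', x', hx', e'⟩ := (mτ _).1 h2
      obtain ⟨e1, rfl⟩ := pair_inj.1 e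
      obtain ⟨e2, rfl⟩ := pair_inj.1 e'
      rcases le_total β γ with le | le
      · exact wd k k' le x hx x' hx' (e1.trans e2.symm)
      · exact (wd k' k le x' hx' x hx (e2.trans e1.symm)).symm
  have ap : ∀ {β}, tlt T β l → ∀ x ∈ (pmT T β).M,
      app τ (app (im T β l) x) = app (app t β.toZFSet) x := fun {β} k x hx =>
    hf.app_eq ((mτ _).2 ⟨β, k, x, hx, rfl⟩)
  have mp : ∀ y ∈ (pmT T l).M, app τ y ∈ Ps.M := fun y hy => by
    obtain ⟨β, -, k, x, hx, rfl⟩ := h.lim_dir l hl hlim y hy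
    rw [ap k x hx]; exact tcc_mapsTo (r1 β k) hx
  obtain ⟨β₀, b₀, -, k₀⟩ := h.lim_cof l hl hlim 0 hlim.bot_lt
  refine ⟨τ, hτ, tcc_right (h.pm β₀ (b₀.trans hl)) (h.pm l hl)
    (z3d_elem.2 ⟨isFunc_iff.2 ⟨hf, ?_, mp⟩, mp, fun φ v hv => ?_⟩) (el k₀) (r1 β₀ k₀) (ap k₀)⟩
  · ext y
    rw [mem_dom]
    constructor
    · rintro ⟨z, hz⟩
      obtain ⟨β, k, x, hx, e⟩ := (mτ _).1 hz
      rw [← (pair_inj.1 e).1]; exact tcc_mapsTo (el k) hx
    · intro hy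
      obtain ⟨β, -, k, x, hx, rfl⟩ := h.lim_dir l hl hlim y hy
      exact ⟨_, (mτ _).2 ⟨β, k, x, hx, rfl⟩⟩
  · have h1 : ∀ n : ℕ, ∃ γ, tlt T γ l ∧ ∀ i ≤ n, ∃ x ∈ (pmT T γ).M, app (im T γ l) x = v i :=
      fun n => by
        induction n with
        | zero =>
          obtain ⟨β, -, k, hx⟩ := h.lim_dir l hl hlim _ (hv 0)
          exact ⟨β, k, fun i hi => Nat.le_zero.1 hi ▸ hx⟩
        | succ n ih =>
          obtain ⟨γ, k, H⟩ := ih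
          obtain ⟨β, -, k', x, hx, e⟩ := h.lim_dir l hl hlim _ (hv (n + 1))
          rcases le_total β γ with le | le
          · refine ⟨γ, k, fun i hi => (Nat.of_le_succ hi).elim (H i) fun e' => ?_⟩
            obtain ⟨y, hy, e1, -⟩ := st k' k le x hx
            exact ⟨y, hy, by rw [e1, e, e']⟩
          · refine ⟨β, k', fun i hi => (Nat.of_le_succ hi).elim (fun hi => ?_)
              fun e' => ⟨x, hx, by rw [e, e']⟩⟩
            obtain ⟨z, hz, e2⟩ := H i hi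
            obtain ⟨y, hy, e1, -⟩ := st k k' le z hz
            exact ⟨y, hy, e1.trans e2⟩
    obtain ⟨γ, k, H⟩ := h1 φ.fv
    choose u hu eu using fun i : ℕ => H (min i φ.fv) (min_le_right _ _)
    have eu' : ∀ i < φ.fv, v i = app (im T γ l) (u i) := fun i hi => by
      rw [eu i, min_eq_left hi.le]
    rw [sat_congr _ φ v (app (im T γ l) ∘ u) eu', ← (el k).elem.elem.2 φ u hu,
      (r1 γ k).elem.elem.2 φ u hu]
    refine sat_congr _ φ _ _ fun i hi => ?_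
    rw [Function.comp_apply, Function.comp_apply, eu' i hi, ap k _ (hu i)]

/-- a function on a limit ordinal all of whose proper initial segments are trees is a tree -/
theorem isTree_of_restr {T : V} {P : PM} {l : Ordinal.{0}} (hf : IsFn T) (hd : dom T = l.toZFSet)
    (hlim : Order.IsSuccLimit l) (h : ∀ ξ < l, IsTree (rT T (ξ + 1)) P) : IsTree T P ∧ lh T = l := by
  have a : ∀ ξ, tcc_Ag (rT T (ξ + 1)) T (ξ + 1) := fun ξ ζ k => nd_rT k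
  refine tcc_mk hf hd hlim.bot_lt (((a 0).pm (tcc_lt 0)).symm.trans (h 0 hlim.bot_lt).root)
    fun ξ k => (tcc_ok (h ξ k) ?_).congr (a ξ) (tcc_lt ξ)
  rw [lh, rT, z5a_dom hd (Order.add_one_le_iff.2 k), rank_toZFSet]
  exact tcc_lt ξ
-- JOB C END

-- JOB D BEGIN
theorem td_cut_cut {A : V} {o p : Ordinal.{0}} (h : o ≤ p) : cut (cut A p) o = cut A o := by
  ext x
  simp only [mem_cut]
  exact ⟨fun k => ⟨k.1.1, k.2⟩, fun k => ⟨⟨k.1, k.2.trans_le h⟩, k.2⟩⟩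
theorem td_cut_mono {A A' : V} {o p : Ordinal.{0}} (h : cut A p = cut A' p) (hle : o ≤ p) :
    cut A o = cut A' o := by rw [← td_cut_cut hle, h, td_cut_cut hle]
theorem td_cut_rank (A : V) : cut A A.rank = A := by
  ext x
  rw [mem_cut]
  exact ⟨fun k => k.1, fun k => ⟨k, rank_lt_of_mem k⟩⟩

/-- `κ` is `B`-strong below `r` by extenders in `A` -/
def TdStr (A B : V) (κ r : Ordinal.{0}) : Prop :=
  ∀ ρ < r, Order.IsSuccLimit ρ → κ < ρ → ∃ E ∈ A, IsExt E ∧ extZ E = cut A ρ ∧ crit E = κ ∧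
    len E = ρ ∧ pair (cut B κ) (cut B ρ) ∈ E
instance td_ud {a b : Set V → (ℕ → V) → V} {o q : Set V → (ℕ → V) → Ordinal.{0}} [UF F a]
    [UF F b] [UF F o] [UF F q] : UD F (fun M v => TdStr (a M v) (b M v) (o M v) (q M v)) := by
  have := UF.lift (F := F) a; have := UF.lift (F := F) b; have := UF.lift (F := F) o
  unfold TdStr; infer_instance

theorem td_congr {A A' B B' : V} {κ r r' : Ordinal.{0}} (h : TdStr A B κ r)
    (hl : Order.IsSuccLimit r') (hle : r' ≤ r) (hA : cut A r' = cut A' r')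
    (hB : cut B r' = cut B' r') : TdStr A' B' κ r' := by
  intro ρ hρ hlim hκ
  obtain ⟨E, hE, h1, h2, h3, h4, h5⟩ := h ρ (hρ.trans_le hle) hlim hκ
  have hr : E.rank < r' := by
    rw [h1.rank_eq, h4]
    exact hl.add_natCast_lt hρ 3
  refine ⟨E, (mem_cut.1 (hA ▸ mem_cut.2 ⟨hE, hr⟩)).1, h1, h2.trans (td_cut_mono hA hρ.le), h3, h4,
    ?_⟩
  rwa [← td_cut_mono hB hρ.le, ← td_cut_mono hB (hκ.trans hρ).le]

/-- restrictions of a strong option -/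
theorem td_base {P : PM} (hP : IsPM P) {a : Ordinal.{0}} {E B : V} (hE : E ∈ P.optAt a)
    (hB : Strong E B) : TdStr P.A B (crit E) (len E) := by
  obtain ⟨h1, h2, h3, h4, -⟩ := mem_optAt.1 hE
  intro ρ hρ hlim hκ
  obtain ⟨k1, -, k3, k4, k5, -⟩ := h2.rst_spec hlim hκ hρ.le
  have h5 := mem_cut.1 (hP.A_eq ▸ h1 : E ∈ cut P.M P.A.rank)
  haveI := hP.isT
  haveI : In (P.M : Set V) E := ⟨h5.1⟩
  haveI : In (P.M : Set V) ρ := ⟨IsZ.ord_mem_of_le _ (IsZ.rank_mem _ h5.1)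
    (hρ.le.trans (h2.rank_eq ▸ le_self_add))⟩
  have h6 : rst E ρ ∈ cut P.M P.A.rank := by
    refine mem_cut.2 ⟨memV_of (P.M : Set V) (rst E ρ), lt_of_le_of_lt ?_ h5.2⟩
    rw [k1.rank_eq, k5, h2.rank_eq]
    exact add_le_add_left hρ.le 3
  refine ⟨rst E ρ, hP.A_eq ▸ h6, k1, ?_, k4, k5, pair_mem_lam.2 ⟨mem_dom.2 ⟨_, hB⟩, ?_⟩⟩
  · rw [k3, h4, td_cut_cut (h3 ▸ hρ.le)]
    rfl
  · rw [h2.fn.app_eq hB, td_cut_cut hρ.le]

/-- strength is pushed up by an ultrapower -/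
theorem td_push {M E Q i B : V} {κ : Ordinal.{0}} (hU : IsUlt M E Q i) (hB : Strong E B)
    (hκ : κ < crit E) (h : TdStr (extK E) (cut B (crit E)) κ (crit E)) :
    TdStr (extZ E) B κ (len E) := by
  haveI := hU.isT
  haveI := hU.isT_right
  have h1 : cut B (crit E) ∈ (M : Set V) := (mem_pw.1 (hU.dom_eq ▸ mem_dom.2 ⟨_, hB⟩)).1
  have h2 : κ.toZFSet ∈ (M : Set V) := IsZ.ord_mem_of_le _ hU.crit_mem hκ.le
  have h3 := (hU.elem.elem.iff4 pZ (fun _ (a b : V) (o p : Ordinal.{0}) => TdStr a b o p)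
    hU.K_mem h1 h2 hU.crit_mem).1 h
  rw [jm_of_fix (a := κ) (hU.fix h2 ((rank_toZFSet κ).trans_lt hκ)), ← hU.ht_eq] at h3
  refine td_congr h3 hU.ext.len_limit hU.len_le_ht ?_ ?_
  · exact (hU.cut_map_len hU.K_mem).trans
      ((congrArg (app E) (td_cut_rank _)).trans (td_cut_rank _).symm)
  · exact (hU.cut_map_len h1).trans
      ((congrArg (app E) (td_cut_cut le_rfl)).trans (hU.ext.fn.app_eq hB))

section td
variable {T : V} {P : PM} (h : IsTree T P) {l : Ordinal.{0}} (hl : l ≤ lh T)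
  (hlim : Order.IsSuccLimit l)
include h hl

omit h hl in
theorem td_tlt {c : V} (hc : CofBr T l c) {β η : Ordinal.{0}} (hη : η < l) (hm : η.toZFSet ∈ c) :
    tlt T β η ↔ β.toZFSet ∈ c ∧ β < η := by
  rw [tlt, hc.2.2 η hη hm, mem_cut, rank_toZFSet]

theorem td_below {c : V} (hc : CofBr T l c) {γ ζ : Ordinal.{0}} (hζ : ζ + 1 < l)
    (hm : (ζ + 1).toZFSet ∈ c) (hγ : γ.toZFSet ∈ c) (hle : γ ≤ ζ) : γ ≤ pr T ζ :=
  h.tle_le ((h.pr_le ζ).trans_lt ((lt_add_one ζ).trans (hζ.trans_le hl)))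
    ((h.tlt_succ_iff (hζ.trans_le hl)).1 ((td_tlt hc hζ hm).2 ⟨hγ, Order.lt_add_one_iff.2 hle⟩))

theorem td_crit_gt {η ζ : Ordinal.{0}} (hζ : ζ + 1 < l) (hne : exT T ζ ≠ ∅) (hη : η < pr T ζ) :
    idx T η < crit (exT T ζ) := by
  have h1 := (lt_add_one ζ).trans (hζ.trans_le hl)
  exact le_self_add.trans_lt
    ((h.agr_prd h1 (h.legal ζ h1 (hζ.trans_le hl)) hne).2.2 η hη)

theorem td_opt {ζ : Ordinal.{0}} (hζ : ζ + 1 < l) (hne : exT T ζ ≠ ∅) :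
    IsPM (pmT T ζ) ∧ exT T ζ ∈ (pmT T ζ).optAt (idx T ζ) ∧ crit (exT T ζ) < idx T ζ ∧
      IsI (idx T ζ) := by
  have h1 := (lt_add_one ζ).trans (hζ.trans_le hl)
  have h2 := (h.legal ζ h1 (hζ.trans_le hl)).2.2.2.resolve_left hne
  exact ⟨h.pm ζ h1, h2, ((mem_optAt.1 h2).lt (h.pm ζ h1).shape).2⟩

include hlim

/-- the next node of a cofinal branch -/
theorem td_next {c : V} (hc : CofBr T l c) {γ : Ordinal.{0}} (hγ : γ < l) :
    ∃ ζ, γ ≤ ζ ∧ ζ + 1 < l ∧ (ζ + 1).toZFSet ∈ c ∧ pr T ζ ≤ γ ∧ (pr T ζ).toZFSet ∈ c := by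
  obtain ⟨η, ⟨h1, h2, h3⟩, hmin⟩ := wellFounded_lt.has_min
    {η : Ordinal.{0} | γ < η ∧ η < l ∧ η.toZFSet ∈ c} (by
      obtain ⟨η, h1, h2, h3⟩ := hc.2.1 (γ + 1) (hlim.add_one_lt hγ)
      exact ⟨η, Order.add_one_le_iff.1 h2, h1, h3⟩)
  have key : ∀ β, tlt T β η → β ≤ γ ∧ β.toZFSet ∈ c := fun β hβ => by
    obtain ⟨k1, k2⟩ := (td_tlt hc h2 h3).1 hβ
    exact ⟨not_lt.1 fun k => hmin β ⟨k, k2.trans h2, k1⟩ k2, k1⟩
  rcases zero_or_succ_or_isSuccLimit η with rfl | ⟨ζ, rfl⟩ | hη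
  · exact absurd h1 not_lt_zero
  · rw [Order.succ_eq_add_one] at h1 h2 h3 key
    exact ⟨ζ, Order.lt_add_one_iff.1 h1, h2, h3,
      key _ ((h.tlt_succ_iff (h2.trans_le hl)).2 (Or.inl rfl))⟩
  · obtain ⟨β, -, k1, k2⟩ := h.lim_cof η (h2.trans_le hl) hη (γ + 1) (hη.add_one_lt h1)
    exact absurd (key β k2).1 (not_le.2 (Order.add_one_le_iff.1 k1))

/-- one step of the zipper -/
theorem td_zip {c : V} (hc : CofBr T l c) {ξ : Ordinal.{0}} (hξ : ξ + 1 < l)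
    (hm : (ξ + 1).toZFSet ∉ c) : ∃ ζ, ξ < ζ ∧ ζ + 1 < l ∧ (ζ + 1).toZFSet ∈ c ∧ exT T ζ ≠ ∅ ∧
      crit (exT T ζ) ≤ idx T ξ := by
  obtain ⟨ζ, h1, h2, h3, h4, h5⟩ := td_next h hl hlim hc hξ
  have h6 : pr T ζ ≤ ξ := Order.lt_add_one_iff.1 (h4.lt_of_ne fun e => hm (e ▸ h5))
  have h7 : ξ < ζ := Order.add_one_le_iff.1 h1
  have h8 : exT T ζ ≠ ∅ := fun e => by
    rw [pr, prd, if_pos e] at h6
    exact h7.not_ge h6
  have h9 : crit (exT T ζ) ≤ idx T (pr T ζ) := by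
    rw [pr, prd, if_neg h8] at h6 ⊢
    exact olst_spec (P := fun γ => crit (exT T ζ) ≤ idx T γ) (h6.trans_lt h7)
  refine ⟨ζ, h7, h2, h3, h8, h9.trans ?_⟩
  rcases h6.eq_or_lt with e | e
  · rw [e]
  · exact (h.idx_lt (hξ.trans_le hl) e).le

theorem td_inv_base {ζ : Ordinal.{0}} {B : V} (hζ : ζ + 1 < l) (hne : exT T ζ ≠ ∅)
    (hB : Strong (exT T ζ) B) : TdStr (comA T l) B (crit (exT T ζ)) (idx T ζ) := by
  obtain ⟨h1, h2, -, h4⟩ := td_opt h hl hζ hne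
  exact td_congr (td_base h1 h2 hB) h4.limit ((mem_optAt.1 h2).2.2.1 ▸ le_self_add)
    (h.cut_com hl hlim ((lt_add_one ζ).trans hζ)).1.symm rfl

theorem td_inv_step {ζ κ r : Ordinal.{0}} {B : V} (hζ : ζ + 1 < l) (hne : exT T ζ ≠ ∅)
    (hB : Strong (exT T ζ) B) (hκ : κ < crit (exT T ζ)) (hr : crit (exT T ζ) ≤ r)
    (hs : TdStr (comA T l) B κ r) : TdStr (comA T l) B κ (idx T ζ) := by
  obtain ⟨h1, h2, h3, h4⟩ := td_opt h hl hζ hne
  obtain ⟨-, k2, k3, k4, -⟩ := mem_optAt.1 h2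
  have e : cut (extZ (exT T ζ)) (idx T ζ) = cut (comA T l) (idx T ζ) := by
    rw [k4, td_cut_cut le_self_add, (h.cut_com hl hlim ((lt_add_one ζ).trans hζ)).1]
    rfl
  refine td_congr (td_push (h.ult ζ ((lt_add_one ζ).trans (hζ.trans_le hl)) (hζ.trans_le hl) hne)
    hB hκ (td_congr hs k2.crit_limit hr ?_ (td_cut_cut le_rfl).symm)) h4.limit
    (k3 ▸ le_self_add) e rfl
  exact (td_cut_mono e h3.le).symm.trans (k2.cutK.symm.trans (td_cut_rank _).symm)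

omit hlim in
/-- a set of nodes that is interlaced with two eventually disjoint branches is unbounded -/
theorem td_unb {b c : V} (hb : CofBr T l b) (hc : CofBr T l c) {β0 : Ordinal.{0}}
    (hd : ∀ γ, β0 ≤ γ → γ.toZFSet ∈ b → γ.toZFSet ∉ c) (S : Set Ordinal.{0}) (h0 : S.Nonempty)
    (h1 : ∀ ξ ∈ S, β0 ≤ ξ)
    (sb : ∀ ξ ∈ S, (ξ + 1).toZFSet ∉ b → ∃ ζ ∈ S, ξ < ζ ∧ (ζ + 1).toZFSet ∈ b)
    (sc : ∀ ξ ∈ S, (ξ + 1).toZFSet ∉ c → ∃ ζ ∈ S, ξ < ζ ∧ (ζ + 1).toZFSet ∈ c)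
    {γ : Ordinal.{0}} (hγ : γ < l) : ∃ ξ ∈ S, γ ≤ ξ := by
  by_contra hn
  have hbd : ∀ ξ ∈ S, ξ ≤ γ := fun ξ hξ => (not_le.1 fun k => hn ⟨ξ, hξ, k⟩).le
  have up : ∀ ξ ∈ S, ξ < sSup S := fun ξ hξ => by
    by_cases k : (ξ + 1).toZFSet ∈ b
    · obtain ⟨ζ, k1, k2, -⟩ := sc ξ hξ (hd _ ((h1 ξ hξ).trans le_self_add) k)
      exact k2.trans_le (le_csSup ⟨γ, hbd⟩ k1)
    · obtain ⟨ζ, k1, k2, -⟩ := sb ξ hξ k
      exact k2.trans_le (le_csSup ⟨γ, hbd⟩ k1)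
  obtain ⟨ξ0, hξ0⟩ := h0
  have hL : Order.IsSuccLimit (sSup S) := ⟨not_isMin_of_lt (up ξ0 hξ0),
    Order.isSuccPrelimit_of_succ_lt fun a ha => by
      obtain ⟨ξ, k1, k2⟩ := (lt_csSup_iff' ⟨γ, hbd⟩).1 ha
      exact (Order.succ_le_of_lt k2).trans_lt (up ξ k1)⟩
  have key : ∀ d, CofBr T l d → (∀ ξ ∈ S, (ξ + 1).toZFSet ∉ d →
      ∃ ζ ∈ S, ξ < ζ ∧ (ζ + 1).toZFSet ∈ d) → (sSup S).toZFSet ∈ d := fun d hd' sd => by
    refine h.cofBr_closed hl hd' ((csSup_le' hbd).trans_lt hγ) hL fun β hβ => ?_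
    obtain ⟨ξ, k1, k2⟩ := (lt_csSup_iff' ⟨γ, hbd⟩).1 hβ
    by_cases k : (ξ + 1).toZFSet ∈ d
    · exact ⟨ξ + 1, hL.add_one_lt (up ξ k1), k2.le.trans le_self_add, k⟩
    · obtain ⟨ζ, k3, k4, k5⟩ := sd ξ k1 k
      exact ⟨ζ + 1, hL.add_one_lt (up ζ k3), (k2.trans k4).le.trans le_self_add, k5⟩
  exact hd _ ((h1 ξ0 hξ0).trans (up ξ0 hξ0).le) (key b hb sb) (key c hc sc)

theorem td_core {b c B : V} (hb : CofBr T l b) (hc : CofBr T l c) {β0 : Ordinal.{0}} (h0 : β0 < l)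
    (hd : ∀ γ, β0 ≤ γ → γ.toZFSet ∈ b → γ.toZFSet ∉ c)
    (tb : ∀ ξ < l, β0 ≤ ξ → (ξ + 1).toZFSet ∈ b → exT T ξ ≠ ∅ → Strong (exT T ξ) B)
    (tc : ∀ ξ < l, β0 ≤ ξ → (ξ + 1).toZFSet ∈ c → exT T ξ ≠ ∅ → Strong (exT T ξ) B)
    {β : Ordinal.{0}} (hβ : β < l) : ∃ ξ1, ξ1 + 1 < l ∧ exT T ξ1 ≠ ∅ ∧
      idx T β < crit (exT T ξ1) ∧ ∀ γ < l, ∃ ξ, γ ≤ ξ ∧ ξ + 1 < l ∧ crit (exT T ξ1) < idx T ξ ∧
        TdStr (comA T l) B (crit (exT T ξ1)) (idx T ξ) := by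
  obtain ⟨γ, g1, g2, g3⟩ := hc.2.1 (max β β0 + 1) (hlim.add_one_lt (max_lt hβ h0))
  obtain ⟨g4, g5⟩ := max_lt_iff.1 (Order.add_one_le_iff.1 g2)
  obtain ⟨ξ0, a1, a2, a3, -⟩ := td_next h hl hlim hb g1
  have a4 : β0 ≤ ξ0 := g5.le.trans a1
  obtain ⟨ξ1, b1, b2, b3, b4, b5⟩ := td_zip h hl hlim hc a2 (hd _ (a4.trans le_self_add) a3)
  refine ⟨ξ1, b2, b4, td_crit_gt h hl b2 b4 (g4.trans_le (td_below h hl hc b2 b3 g3
    (a1.trans b1.le))), fun γ' hγ' => ?_⟩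
  have step : ∀ d, CofBr T l d →
      (∀ ξ < l, β0 ≤ ξ → (ξ + 1).toZFSet ∈ d → exT T ξ ≠ ∅ → Strong (exT T ξ) B) →
      (∃ η, ξ0 < η ∧ η ≤ ξ1 + 1 ∧ η.toZFSet ∈ d) →
      ∀ ξ ∈ {ξ | ξ1 ≤ ξ ∧ ξ + 1 < l ∧ TdStr (comA T l) B (crit (exT T ξ1)) (idx T ξ)},
        (ξ + 1).toZFSet ∉ d → ∃ ζ ∈ {ξ | ξ1 ≤ ξ ∧ ξ + 1 < l ∧
          TdStr (comA T l) B (crit (exT T ξ1)) (idx T ξ)}, ξ < ζ ∧ (ζ + 1).toZFSet ∈ d := by
    rintro d hd' td ⟨η, e1, e2, e3⟩ ξ ⟨k1, k2, k3⟩ k4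
    obtain ⟨ζ, c1, c2, c3, c4, c5⟩ := td_zip h hl hlim hd' k2 k4
    have c6 : ξ1 < ζ := k1.trans_lt c1
    exact ⟨ζ, ⟨c6.le, c2, td_inv_step h hl hlim c2 c4
      (td ζ ((lt_add_one ζ).trans c2) (a4.trans (b1.trans c6).le) c3 c4)
      (b5.trans_lt (td_crit_gt h hl c2 c4 (e1.trans_le (td_below h hl hd' c2 c3 e3
        (e2.trans (Order.add_one_le_iff.2 c6)))))) c5 k3⟩, c1, c3⟩
  obtain ⟨ξ, ⟨k1, k2, k3⟩, k4⟩ := td_unb h hl hb hc hd
    {ξ | ξ1 ≤ ξ ∧ ξ + 1 < l ∧ TdStr (comA T l) B (crit (exT T ξ1)) (idx T ξ)}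
    ⟨ξ1, le_rfl, b2, td_inv_base h hl hlim b2 b4
      (tc ξ1 ((lt_add_one ξ1).trans b2) (a4.trans b1.le) b3 b4)⟩
    (fun ξ hξ => a4.trans (b1.le.trans hξ.1))
    (step b hb tb ⟨ξ0 + 1, lt_add_one _, add_le_add_left b1.le 1, a3⟩)
    (step c hc tc ⟨ξ1 + 1, b1.trans (lt_add_one _), le_rfl, b3⟩) hγ'
  exact ⟨ξ, k4, k2, b5.trans_lt (h.idx_lt (k2.trans_le hl) (b1.trans_le k1)), k3⟩

end td

/-- different branches are eventually disjoint -/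
theorem td_disj {T b c : V} {l β : Ordinal.{0}} (hb : CofBr T l b) (hc : CofBr T l c)
    (h1 : β.toZFSet ∈ b) (h2 : β.toZFSet ∉ c) {γ : Ordinal.{0}} (hγ : β ≤ γ)
    (k1 : γ.toZFSet ∈ b) (k2 : γ.toZFSet ∈ c) : False := by
  have hl : γ < l := toZFSet_mem_toZFSet_iff.1 (hb.1 k1)
  rcases hγ.eq_or_lt with rfl | hlt
  · exact h2 k2
  · exact h2 ((td_tlt hc hl k2).1 ((td_tlt hb hl k1).2 ⟨h1, hlt⟩)).1

theorem zipper {T : V} {P : PM} (h : IsTree T P) {l : Ordinal.{0}} (hl : l ≤ lh T)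
    (hlim : Order.IsSuccLimit l) {b c B : V} (hb : CofBr T l b) (hc : CofBr T l c) (hne : b ≠ c)
    (hb' : TailStrong T l b B) (hc' : TailStrong T l c B) :
    Rel (comS T l) (dl T l) ∧ NoWit (comA T l) B := by
  obtain ⟨β1, l1, hd⟩ : ∃ β1 < l, ∀ γ, β1 ≤ γ → γ.toZFSet ∈ b → γ.toZFSet ∉ c := by
    obtain ⟨x, hx⟩ := not_forall.1 fun k => hne (ZFSet.ext k)
    by_cases k : x ∈ b
    · obtain ⟨β, k1, rfl⟩ := mem_toZFSet_iff.1 (hb.1 k)
      exact ⟨β, k1, fun γ => td_disj hb hc k fun k' => hx ⟨fun _ => k', fun _ => k⟩⟩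
    · have k' : x ∈ c := by_contra fun k' => hx ⟨fun e => absurd e k, fun e => absurd e k'⟩
      obtain ⟨β, k1, rfl⟩ := mem_toZFSet_iff.1 (hc.1 k')
      exact ⟨β, k1, fun γ e e1 e2 => td_disj hc hb k' k e e2 e1⟩
  obtain ⟨β2, l2, tb⟩ := hb'
  obtain ⟨β3, l3, tc⟩ := hc'
  have core := fun β => td_core h hl hlim (B := B) hb hc (max_lt l1 (max_lt l2 l3))
    (fun γ e => hd γ ((le_max_left _ _).trans e))
    (fun ξ e e' => tb ξ e (((le_max_left _ _).trans (le_max_right _ _)).trans e'))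
    (fun ξ e e' => tc ξ e (((le_max_right _ _).trans (le_max_right _ _)).trans e')) (β := β)
  obtain ⟨d1, d2, -⟩ := h.dl_limit hl hlim
  have d3 : ∀ β < dl T l, ∃ ξ < l, β < idx T ξ := fun β hβ => by
    obtain ⟨x, hx, k⟩ := lt_osup_iff.1 hβ
    obtain ⟨ξ, k1, rfl⟩ := mem_toZFSet_iff.1 hx
    exact ⟨ξ, k1, by rwa [rank_toZFSet] at k⟩
  have d4 : (comA T l).rank ≤ dl T l := ZFSet.rank_le_iff.2 fun y hy => by
    obtain ⟨x, hx, k⟩ := mem_bU.1 hy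
    exact (mem_cut.1 k).2.trans_le (le_osup (fun x => idx T x.rank) hx)
  refine ⟨⟨d1.pos, fun β hβ => ?_⟩, fun β hβ => ?_⟩
  · obtain ⟨η, e1, e2⟩ := d3 β hβ
    obtain ⟨ξ, k1, k2, k3, -⟩ := core η e1
    obtain ⟨p1, p2, p3, -⟩ := td_opt h hl k1 k2
    have k4 := (hlim.add_one_lt k1).trans_le hl
    have r : ∀ o, Order.IsSuccLimit o → idx T ξ < o → (op (crit (exT T ξ)) (idx T ξ)).rank < o :=
      fun o ho e => (rank_pair_lt ho).2 ⟨(rank_toZFSet _).trans_lt (p3.trans e),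
        (rank_toZFSet _).trans_lt e⟩
    have hμ := h.mu_eq ((lt_add_one ξ).trans (k1.trans_le hl)) ▸ p1.mu_lim
    have m1 : op (crit (exT T ξ)) (idx T ξ) ∈ cut (pmT T (ξ + 1)).S (idx T ξ + P.mu) :=
      (h.agr (k1.trans_le hl) (lt_add_one ξ)).S ▸ mem_cut.2 ⟨(mem_optAt.1 p2).2.2.2.2.1,
        r _ (isSuccLimit_add _ hμ) (lt_add_of_pos_right _ hμ.pos)⟩
    refine ⟨op (crit (exT T ξ)) (idx T ξ),
      mem_bU.2 ⟨(ξ + 1).toZFSet, toZFSet_mem_toZFSet_iff.2 k1, ?_⟩,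
      (e2.trans k3).trans_eq (fst_op _ _).symm,
      (fst_op _ _).trans_lt (p3.trans (d2 ξ ((lt_add_one ξ).trans k1)))⟩
    rw [rank_toZFSet]
    exact mem_cut.2 ⟨(mem_cut.1 m1).1, r _ (h.legal _ (k1.trans_le hl) k4).1.limit
      (h.idx_lt k4 (lt_add_one ξ))⟩
  · obtain ⟨η, e1, e2⟩ := d3 β (hβ.trans_le d4)
    obtain ⟨ξ1, -, -, k3, k4⟩ := core η e1
    have key : ∀ ρ < (comA T l).rank, ∃ E ∈ comA T l, IsExt E ∧
        extZ E = cut (comA T l) (len E) ∧ crit E = crit (exT T ξ1) ∧ ρ < len E ∧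
        pair (cut B (crit (exT T ξ1))) (cut B (len E)) ∈ E := fun ρ hρ => by
      obtain ⟨γ, g1, g2⟩ := d3 ρ (hρ.trans_le d4)
      obtain ⟨ξ, c1, c2, c3, c4⟩ := k4 (γ + 1) (hlim.add_one_lt g1)
      have hI := (h.legal ξ ((lt_add_one ξ).trans (c2.trans_le hl)) (c2.trans_le hl)).1
      have g3 := g2.trans (h.idx_lt (c2.trans_le hl) (Order.add_one_le_iff.1 c1))
      have g4 := max_lt_iff.1 (lt_add_of_pos_right (max ρ (crit (exT T ξ1))) omega0_pos)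
      obtain ⟨E, q1, q2, q3, q4, q5, q6⟩ := c4 (max ρ (crit (exT T ξ1)) + ω)
        (hI.2 _ (max_lt g3 c3) _ ((le_mul_left ω omega0_pos).trans_lt hI.1))
        (isSuccLimit_add _ isSuccLimit_omega0) g4.2
      exact ⟨E, q1, q2, q5 ▸ q3, q4, q5 ▸ g4.1, q5 ▸ q6⟩
    obtain ⟨E, q1, q2, -, q4, -⟩ := key β hβ
    refine ⟨_, ?_, e2.trans k3, key⟩
    exact (q4 ▸ q2.crit_lt_len).trans ((q2.rank_eq ▸ le_self_add : len E ≤ E.rank).trans_lt
      (rank_lt_of_mem q1))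
-- JOB D END

-- JOB E BEGIN
/-- `γ` is a tree extension of `β` and the extenders used in between cohere with `B` -/
def teG (T B : V) (β γ : Ordinal.{0}) : Prop :=
  tle T β γ ∧ ∀ ξ < γ, β ≤ ξ → tle T (ξ + 1) γ → exT T ξ ≠ ∅ → Strong (exT T ξ) B
/-- `β` has cofinally many good extensions in `X` -/
def teP (T B : V) (l : Ordinal.{0}) (X : V) (β : Ordinal.{0}) : Prop :=
  ∀ δ < l, ∃ γ < l, δ ≤ γ ∧ γ.toZFSet ∈ X ∧ teG T B β γ
/-- the iterated derivative -/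
noncomputable def teD (T B : V) (l o : Ordinal.{0}) : V :=
  orec (fun o f => ZFSet.sep (fun x => ∀ p < o, teP T B l (app f p.toZFSet) x.rank) l.toZFSet) o
section
variable {a b c : Set V → (ℕ → V) → V} {o q : Set V → (ℕ → V) → Ordinal.{0}}
instance te_udG [UF F a] [UF F b] [UF F o] [UF F q] :
    UD F (fun M v => teG (a M v) (b M v) (o M v) (q M v)) := by
  have := UF.lift (F := F) a; have := UF.lift (F := F) b; have := UF.lift (F := F) o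
  have := UF.lift (F := F) q; unfold teG; infer_instance
instance te_udP [UF F a] [UF F b] [UF F o] [UF F c] [UF F q] :
    UD F (fun M v => teP (a M v) (b M v) (o M v) (c M v) (q M v)) := by
  have := UF.lift (F := F) a; have := UF.lift (F := F) b; have := UF.lift (F := F) o
  have := UF.lift (F := F) q; have := UF.lift (F := F) c; unfold teP; infer_instance
instance te_ufD [UF F a] [UF F b] [UF F o] [UF F q] :
    UF F (fun M v => teD (a M v) (b M v) (o M v) (q M v)) := by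
  have := UF.lift (F := F) a; have := UF.lift (F := F) b; have := UF.lift (F := F) o
  unfold teD; infer_instance
end
theorem te_mem {T B x : V} {l o : Ordinal.{0}} :
    x ∈ teD T B l o ↔ x ∈ l.toZFSet ∧ ∀ p < o, teP T B l (teD T B l p) x.rank := by
  rw [teD, orec_eq, mem_sep]
  refine and_congr_right fun _ => forall₂_congr fun p hp => ?_
  rw [sq, app_lam _ (toZFSet_mem_toZFSet_iff.2 hp), rank_toZFSet]
  rfl
theorem te_sub {T B Y : V} {l : Ordinal.{0}} (hY : Y ⊆ l.toZFSet)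
    (k : ∀ x ∈ Y, teP T B l Y x.rank) (o : Ordinal.{0}) : Y ⊆ teD T B l o := by
  induction o using WellFoundedLT.induction with
  | ind o ih =>
    refine fun x hx => te_mem.2 ⟨hY hx, fun p hp δ hδ => ?_⟩
    obtain ⟨γ, h1, h2, h3, h4⟩ := k x hx δ hδ
    exact ⟨γ, h1, h2, ih p hp h3, h4⟩
/-- the greatest fixed point of the derivative lies in the model -/
theorem te_gfp (R : Set V) [IsZ R] {T B : V} {l : Ordinal.{0}} (hT : T ∈ R) (hB : B ∈ R)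
    (hl : l.toZFSet ∈ R) : ∃ D ∈ R, (∀ x ∈ D, teP T B l D x.rank) ∧
      ∀ Y : V, Y ⊆ l.toZFSet → (∀ x ∈ Y, teP T B l Y x.rank) → Y ⊆ D := by
  haveI : In R T := ⟨hT⟩; haveI : In R B := ⟨hB⟩; haveI : In R l := ⟨hl⟩
  obtain ⟨ζ, hζ, H⟩ := coll_rank R (fun x y => x ∉ teD T B l y.rank) hl
  haveI : In R ζ := ⟨hζ⟩
  refine ⟨teD T B l ζ, memV_of R _, fun x hx => by_contra fun k => ?_, fun Y hY k => te_sub hY k ζ⟩
  obtain ⟨h1, h2⟩ := te_mem.1 hx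
  obtain ⟨y, -, h3, h4⟩ := H x h1 ⟨(ζ + 1).toZFSet, memV_of R _, fun e => k
    ((te_mem.1 e).2 ζ (by rw [rank_toZFSet]; exact lt_add_one ζ))⟩
  exact h4 (te_mem.2 ⟨h1, fun p hp => h2 p (hp.trans h3)⟩)
theorem te_trans {T B : V} {P : PM} (h : IsTree T P) {β γ η : Ordinal.{0}} (hη : η < lh T)
    (h1 : teG T B β γ) (h2 : teG T B γ η) : teG T B β η := by
  refine ⟨h.tle_trans hη h1.1 h2.1, fun ξ k1 k2 k3 => ?_⟩
  rcases le_or_gt γ ξ with k | k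
  · exact h2.2 ξ k1 k k3
  · exact h1.2 ξ k k2 (h.tle_of_le hη k3 h2.1 (Order.add_one_le_of_lt k))
theorem te_tle {T b : V} {l β γ : Ordinal.{0}} (hb : CofBr T l b) (hγ : γ < l)
    (h : γ.toZFSet ∈ b) : tle T β γ ↔ β.toZFSet ∈ b ∧ β ≤ γ := by
  rw [tle, tlt, hb.2.2 γ hγ h, mem_cut, rank_toZFSet]
  refine ⟨fun k => k.elim (fun e => ⟨e ▸ h, e.le⟩) fun e => ⟨e.1, e.2.le⟩, fun k => ?_⟩
  exact k.2.eq_or_lt.imp_right fun e => ⟨k.1, e⟩
/-- a branch through a point of a perfect set -/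
theorem te_branch {T B X : V} {P : PM} (h : IsTree T P) {l β : Ordinal.{0}} (hl : l ≤ lh T)
    (hct : (l.toZFSet : Set V).Countable) (hX : ∀ x ∈ X, teP T B l X x.rank) (hβ : β < l)
    (hm : β.toZFSet ∈ X) : ∃ c, CofBr T l c ∧ TailStrong T l c B ∧ β.toZFSet ∈ c := by
  obtain ⟨e, he⟩ := hct.exists_eq_range ⟨_, toZFSet_mem_toZFSet_iff.2 hβ⟩
  have H : ∀ (n : ℕ) (x : {γ : Ordinal.{0} // γ < l ∧ γ.toZFSet ∈ X}),
      ∃ y : {γ : Ordinal.{0} // γ < l ∧ γ.toZFSet ∈ X}, (e n).rank ≤ y.1 ∧ teG T B x.1 y.1 := by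
    intro n x
    have k : e n ∈ l.toZFSet := he.ge ⟨n, rfl⟩
    obtain ⟨γ, h1, h2, h3, h4⟩ := hX _ x.2.2 _ ((rank_lt_of_mem k).trans_eq (rank_toZFSet l))
    exact ⟨⟨γ, h1, h3⟩, h2, rank_toZFSet x.1 ▸ h4⟩
  choose nx h1 h2 using H
  obtain ⟨s, s0, s1⟩ : ∃ s : ℕ → {γ : Ordinal.{0} // γ < l ∧ γ.toZFSet ∈ X},
      (s 0).1 = β ∧ ∀ n, s (n + 1) = nx n (s n) :=
    ⟨fun n => Nat.rec ⟨β, hβ, hm⟩ nx n, rfl, fun _ => rfl⟩
  have hs : ∀ n, (s n).1 < lh T := fun n => (s n).2.1.trans_le hl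
  have ch : ∀ n m, n ≤ m → teG T B (s n).1 (s m).1 := fun n m k => by
    induction m, k using Nat.le_induction with
    | base => exact ⟨Or.inl rfl, fun ξ a a' => absurd a' a.not_ge⟩
    | succ m _ ih => exact te_trans h (hs _) ih (s1 m ▸ h2 m (s m))
  obtain ⟨c, hc, hc'⟩ : ∃ c : V, c ⊆ l.toZFSet ∧
      ∀ γ : Ordinal.{0}, γ.toZFSet ∈ c ↔ ∃ n, tle T γ (s n).1 :=
    ⟨ZFSet.sep (fun x => ∃ n, tle T x.rank (s n).1) l.toZFSet, sep_subset, fun γ => by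
      rw [mem_sep, rank_toZFSet, toZFSet_mem_toZFSet_iff]
      exact and_iff_right_of_imp fun ⟨n, k⟩ => (h.tle_le (hs n) k).trans_lt (s n).2.1⟩
  refine ⟨c, ⟨hc, fun δ hδ => ?_, fun γ hγ k => ZFSet.ext fun x => ⟨fun hx => ?_, fun hx => ?_⟩⟩,
    ⟨β, hβ, fun ξ _ k1 k2 => ?_⟩, (hc' β).2 ⟨0, Or.inl s0.symm⟩⟩
  · obtain ⟨n, hn⟩ := he.le (toZFSet_mem_toZFSet_iff.2 hδ)
    refine ⟨_, (s (n + 1)).2.1, ?_, (hc' _).2 ⟨n + 1, Or.inl rfl⟩⟩
    rw [s1, ← rank_toZFSet δ, ← hn]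
    exact h1 n (s n)
  · obtain ⟨n, hn⟩ := (hc' γ).1 k
    obtain ⟨δ, hδ, rfl⟩ := mem_toZFSet_iff.1 (h.br_sub γ (hγ.trans_le hl) hx)
    exact mem_cut.2 ⟨(hc' δ).2 ⟨n, h.tle_trans (hs n) (Or.inr hx) hn⟩, (rank_toZFSet δ).trans_lt hδ⟩
  · obtain ⟨n, hn⟩ := (hc' γ).1 k
    obtain ⟨k1, k2⟩ := mem_cut.1 hx
    obtain ⟨δ, -, rfl⟩ := mem_toZFSet_iff.1 (hc k1)
    obtain ⟨m, hm⟩ := (hc' δ).1 k1
    rw [rank_toZFSet] at k2
    exact (h.tle_of_le (hs (max n m)) (h.tle_trans (hs _) hm (ch _ _ (le_max_right _ _)).1)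
      (h.tle_trans (hs _) hn (ch _ _ (le_max_left _ _)).1) k2.le).resolve_left k2.ne
  · obtain ⟨n, hn⟩ := (hc' _).1 k2
    exact (ch 0 n n.zero_le).2 ξ ((lt_add_one ξ).trans_le (h.tle_le (hs n) hn)) (s0 ▸ k1) hn
theorem derivative {T : V} {P : PM} (h : IsTree T P) {l : Ordinal.{0}} (hl : l ≤ lh T)
    (hlim : Order.IsSuccLimit l) (hct : (l.toZFSet : Set V).Countable) {b B : V} (hb : CofBr T l b)
    (hb' : TailStrong T l b B) (hu : ∀ c, CofBr T l c → TailStrong T l c B → c = b)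
    (R : Set V) [IsZ R] (hT : T ∈ R) (hB : B ∈ R) : b ∈ R := by
  haveI : In R T := ⟨hT⟩
  have hlR : l.toZFSet ∈ R := IsZ.ord_mem_of_le R (mem_of R (lh T)) hl
  haveI : In R l := ⟨hlR⟩
  obtain ⟨D, hD, h1, h2⟩ := te_gfp R hT hB hlR
  haveI : In R D := ⟨hD⟩
  obtain ⟨β0, hβ0, hs⟩ := hb'
  have h3 : ZFSet.sep (fun x => β0 ≤ x.rank) b ⊆ D := by
    refine h2 _ (fun x hx => hb.1 (mem_sep.1 hx).1) fun x hx δ hδ => ?_
    obtain ⟨k1, k2⟩ := mem_sep.1 hx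
    obtain ⟨β, hβ, rfl⟩ := mem_toZFSet_iff.1 (hb.1 k1)
    rw [rank_toZFSet] at k2 ⊢
    obtain ⟨γ, hγ, k3, k4⟩ := hb.2.1 _ (max_lt hδ hβ)
    rw [max_le_iff] at k3
    exact ⟨γ, hγ, k3.1, mem_sep.2 ⟨k4, (k2.trans k3.2).trans (rank_toZFSet γ).ge⟩,
      (te_tle hb hγ k4).2 ⟨k1, k3.2⟩, fun ξ a a' k =>
        hs ξ (a.trans hγ) (k2.trans a') ((te_tle hb hγ k4).1 k).1⟩
  have e : b = ZFSet.sep (fun x => ∃ γ < l, γ.toZFSet ∈ D ∧ tle T x.rank γ) l.toZFSet := by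
    refine ZFSet.ext fun x => ⟨fun hx => mem_sep.2 ⟨hb.1 hx, ?_⟩, fun hx => ?_⟩
    · obtain ⟨β, hβ, rfl⟩ := mem_toZFSet_iff.1 (hb.1 hx)
      obtain ⟨γ, hγ, k3, k4⟩ := hb.2.1 _ (max_lt hβ0 hβ)
      rw [max_le_iff] at k3
      exact ⟨γ, hγ, h3 (mem_sep.2 ⟨k4, k3.1.trans (rank_toZFSet γ).ge⟩),
        (rank_toZFSet β).symm ▸ (te_tle hb hγ k4).2 ⟨hx, k3.2⟩⟩
    · obtain ⟨k1, γ, hγ, k2, k3⟩ := mem_sep.1 hx
      obtain ⟨β, -, rfl⟩ := mem_toZFSet_iff.1 k1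
      obtain ⟨c, c1, c2, c3⟩ := te_branch h hl hct h1 hγ k2
      rw [rank_toZFSet] at k3
      exact ((te_tle hb hγ (hu c c1 c2 ▸ c3)).1 k3).1
  rw [e]
  exact sep_mem R _ hlR
-- JOB E END

end Pool.Agent.Lib.MP_f9eb18_lc.W
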