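import Pool.Agent.Lib.MP_f9eb18_lc.W.S
import Pool.Agent.Lib.MP_f9eb18_lc.W.F1

/-! # True premice: unique branches, strategies, comparison -/

namespace Pool.Agent.Lib.MP_f9eb18_lc.W

open Ordinal ZFSet Classical
set_option linter.style.haveILetI false
set_option linter.unusedVariables false
set_option synthInstance.maxSize 100000

variable {F : Fr}

/-- the last node of a tree of successor length -/
noncomputable def lastI (T : V) : Ordinal.{0} := (⋃₀ (dom T) : V).rank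
instance uf_lastI {a : Set V → (ℕ → V) → V} [UF F a] : UF F (fun M v => lastI (a M v)) := by
  unfold lastI; infer_instance
/-- the branch to the last node is realizable -/
def RealC (N : Set V) (σ : V) (Ps : PM) (T : V) : Prop := RealB N T (brT T (lastI T)) σ Ps
instance ud_realC {D : Set V → (ℕ → V) → Set V} {a b : Set V → (ℕ → V) → V}
    {p : Set V → (ℕ → V) → PM} [UC F D] [UF F a] [UF F p] [UF F b] :
    UD F (fun M v => RealC (D M v) (a M v) (p M v) (b M v)) := by unfold RealC; infer_instance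

/-- realizable cofinal branches are unique -/
def Uniq (m : ℕ) : Prop :=
  ∀ (N : Set V) [IsZFC N], N.Countable → ∀ (P : PM) (σ : V) (Ps : PM), TrueW N P σ Ps → P.Tame m →
    ∀ T ∈ HC N, IsTree T P → ∀ l ≤ lh T, Order.IsSuccLimit l → ∀ b ∈ N, ∀ c ∈ N,
      CofBr T l b → CofBr T l c → RealB N T b σ Ps → RealB N T c σ Ps → b = c
/-- true premice can be compared -/
def CmpT (m : ℕ) : Prop :=
  ∀ (N : Set V) [IsZFC N], N.Countable → ∀ P P' : PM, IsTrue N P → IsTrue N P' → P.Tame m →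
    P'.Tame m → Cmp P P'

/-- the certificate at the last node `l` of `T`: a system in the last model, with property `G`,
whose hierarchy has a witness for the common part -/
def CertBy (G : PM → Prop) (T : V) : Prop :=
  Rel (pmT T (lastI T)).S (dl T (lastI T)) →
    ∃ S' ∈ (pmT T (lastI T)).M, ∃ θ : Ordinal.{0}, θ.toZFSet ∈ (pmT T (lastI T)).M ∧
      Shape (pmT T (lastI T)).A (pmT T (lastI T)).mu S' ∧ CritGt S' (dl T (lastI T)) ∧
      HasWit (Opt (pmT T (lastI T)).w (pmT T (lastI T)).mu S')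
        (cut (pmT T (lastI T)).w (dl T (lastI T))) θ ∧
      G ((pmT T (lastI T)).withS S' θ)

-- JOB A BEGIN
theorem lastI_eq {T : V} {P : PM} (h : IsTree T P) {l : Ordinal.{0}} (e : lh T = l + 1) :
    lastI T = l := by
  have k : (⋃₀ (l + 1).toZFSet : V) = l.toZFSet := by
    ext x
    simp only [mem_sUnion, mem_toZFSet_iff]
    constructor
    · rintro ⟨_, ⟨a, ha, rfl⟩, hx⟩
      obtain ⟨b, hb, rfl⟩ := mem_toZFSet_iff.1 hx
      exact ⟨b, hb.trans_le (Order.lt_add_one_iff.1 ha), rfl⟩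
    · exact fun hx => ⟨_, ⟨l, lt_add_one l, rfl⟩, mem_toZFSet_iff.2 hx⟩
  rw [lastI, h.dom_eq, e, k, rank_toZFSet]
theorem CertBy.mono {G G' : PM → Prop} {T : V} (h : CertBy G T) (hG : ∀ P, G P → G' P) :
    CertBy G' T := fun hr =>
  let ⟨S', h1, θ, h2, h3, h4, h5, h6⟩ := h hr
  ⟨S', h1, θ, h2, h3, h4, h5, hG _ h6⟩
theorem RealB.mono {N N' : Set V} (hs : N ⊆ N') {T b σ : V} {Ps : PM} (h : RealB N T b σ Ps) :
    RealB N' T b σ Ps :=
  let ⟨t, h1, h2⟩ := h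
  ⟨t, hs h1, h2⟩
theorem TrueW.ext {N N' : Set V} {P Ps : PM} {σ : V} (h : TrueW N P σ Ps)
    (he : SmallExt N N' Ps.mu) : TrueW N' P σ Ps :=
  ⟨h.pm, h.pms, he.sub h.mem, he.sub h.mems, h.elem, h.bkg.ext he, he.inac⟩
theorem realC_iff {N : Set V} {T σ : V} {P Ps : PM} (h : IsTree T P) {l : Ordinal.{0}}
    (hl : l < lh T) (hlim : Order.IsSuccLimit l) :
    RealC N σ Ps (rT T (l + 1)) ↔ RealB N T (brT T l) σ Ps := by
  have h1 : l + 1 ≤ lh T := Order.add_one_le_iff.2 hl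
  have h2 := h.restrict (hlim.pos.trans (lt_add_one l)) h1
  rw [RealC, lastI_eq h2 (h.lh_rT h1), ta_br (fun _ k => nd_rT k) (lt_add_one l)]
  exact (com_congr hlim (rT_rT (lt_add_one l).le)).2.2.2.2.2.2 N _ σ Ps (h.br_sub l hl)
/-- the data given by a certificate -/
theorem tta_cert {T : V} {P : PM} (h : IsTree T P) {l : Ordinal.{0}} (hlim : Order.IsSuccLimit l)
    (e : lh T = l + 1) {G : PM → Prop} (hc : CertBy G T) (hr : Rel (comS T l) (dl T l)) :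
    ∃ Q : PM, Q.M = (pmT T l).M ∧ IsPM Q ∧ G Q ∧ CritGt Q.S (dl T l) ∧ comW T l ∈ Q.M ∧
      HasWit Q.opt (comW T l) Q.th ∧ IsBase (comW T l) ∧ fld (comW T l) = comA T l ∧
      (comW T l).rank ≤ dl T l ∧ (comA T l).rank ≤ dl T l := by
  have hl : l < lh T := e ▸ lt_add_one l
  have hP := h.pm l hl
  obtain ⟨eA, eW, eS⟩ := h.com_eq hl le_rfl
  have h1 : Rel (pmT T l).S (dl T l) := rel_cut (eS ▸ hr)
  have h2 : dl T l ≤ (pmT T l).A.rank := h1.le_rank.trans (rank_mono hP.shape.1)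
  obtain ⟨h3, h4⟩ := hP.isBase_cut (h.dl_limit hl.le hlim).1 h2
  unfold CertBy at hc
  rw [lastI_eq h e] at hc
  obtain ⟨S', k1, θ, k2, k3, k4, k5, k6⟩ := hc h1
  rw [eA, eW]
  refine ⟨(pmT T l).withS S' θ, rfl, hP.withS k1 k3 k2, k6, k4, ?_, k5, h3, h4, tb_rank_cut _ _,
    tb_rank_cut _ _⟩
  haveI := hP.isT
  haveI : In ((pmT T l).M : Set V) (pmT T l).w := ⟨hP.w_mem⟩
  haveI : In ((pmT T l).M : Set V) (dl T l) :=
    ⟨IsZ.ord_mem_of_le _ (IsZ.rank_mem ((pmT T l).M : Set V) hP.A_mem) h2⟩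
  exact memV_of ((pmT T l).M : Set V) (cut (pmT T l).w (dl T l))
/-- two one-point extensions of the same tree whose certificates can be compared are equal -/
theorem cert_unique {T T' : V} {P : PM} (h : IsTree T P) (h' : IsTree T' P) {l : Ordinal.{0}}
    (hlim : Order.IsSuccLimit l) (e : lh T = l + 1) (e' : lh T' = l + 1) (hr : rT T l = rT T' l)
    {G G' : PM → Prop} (hc : CertBy G T) (hc' : CertBy G' T')
    (hG : ∀ Q Q', IsPM Q → IsPM Q' → G Q → G' Q' → Cmp Q Q') : brT T l = brT T' l := by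
  by_contra hne
  have hl : l < lh T := e ▸ lt_add_one l
  have hl' : l < lh T' := e' ▸ lt_add_one l
  obtain ⟨e1, e2, e3, e4, e5, e6, -⟩ := com_congr hlim hr
  have b1 := h.cofBr_brT hl hlim
  have b2 := (e5 _).2 (h'.cofBr_brT hl' hlim)
  have h1 := (zipper h hl.le hlim b1 b2 hne (h.tailStrong_empty l hl.le hlim _)
    (h.tailStrong_empty l hl.le hlim _)).1
  obtain ⟨Q, m, p, g, c, w, t, b, f, r, r'⟩ := tta_cert h hlim e hc h1
  obtain ⟨Q', m', p', g', c', w', t', -⟩ := tta_cert h' hlim e' hc' (e1 ▸ e4 ▸ h1)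
  rw [← e1] at c'
  rw [← e3] at w' t'
  obtain ⟨B, k1, k2, -, k3⟩ := (hG Q Q' p p' g g').common p p' b r (f ▸ r') c c' w w' t t'
  rw [f] at k3
  exact k3 (zipper h hl.le hlim b1 b2 hne (h.tailStrong hl hlim (m ▸ k1))
    ((e6 _ _).2 (h'.tailStrong hl' hlim (m' ▸ k2)))).2
/-- a realizable last node of a tree on a tame premouse is certified by true tame systems -/
theorem cert_of_real {N : Set V} [IsZFC N] {T σ τ : V} {P Ps : PM} (h : IsTree T P) (hT : T ∈ HC N)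
    (ht : TrueW N P σ Ps) {l : Ordinal.{0}} (e : lh T = l + 1) (hτ : τ ∈ N)
    (he : ElemPM τ (pmT T l) Ps) :
    (P.Tame 0 → CertBy (fun _ => False) T) ∧
    ∀ m, P.Tame (m + 1) → CertBy (fun Q => IsTrue N Q ∧ Q.Tame m) T := by
  have hl : l < lh T := e ▸ lt_add_one l
  have hP := h.pm l hl
  have h1 := ElemPM.tame ht.pm hP (h.iter hl).elem
  have h2 : TrueW N (pmT T l) τ Ps := ⟨hP, ht.pms, hτ, ht.mems, he, ht.bkg, ht.inac⟩
  unfold CertBy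
  rw [lastI_eq h e]
  refine ⟨fun h0 hr => ((h1 0).1 h0 _ hr.le_rank hr).elim, fun m hm hr => ?_⟩
  obtain ⟨S', k1, θ, k2, k3, k4, k5, k6⟩ := (h1 _).1 hm _ hr.le_rank hr
  exact ⟨S', k1, θ, k2, k3, k4, k6, ⟨(h.node_HC hT).1, _, _, h2.withS k1 k3 k2⟩, k5⟩
theorem tta_uniq {N : Set V} [IsZFC N] {P Ps : PM} {σ : V} (ht : TrueW N P σ Ps) {G : PM → Prop}
    (hG : ∀ Q Q', G Q → G Q' → Cmp Q Q')
    (hc : ∀ T ∈ HC N, IsTree T P → ∀ l, lh T = l + 1 → ∀ τ ∈ N, ElemPM τ (pmT T l) Ps → CertBy G T)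
    {T : V} (hT : T ∈ HC N) (h : IsTree T P) {l : Ordinal.{0}} (hl : l ≤ lh T)
    (hlim : Order.IsSuccLimit l) {b c : V} (hb : b ∈ N) (hc' : c ∈ N) (cb : CofBr T l b)
    (cc : CofBr T l c) (rb : RealB N T b σ Ps) (rc : RealB N T c σ Ps) : b = c := by
  have h0 := h.restrict hlim.pos hl
  have e0 := h.lh_rT hl
  have m0 : rT T l ∈ HC N := by
    haveI : In (HC N) T := ⟨hT⟩
    haveI : In (HC N) l := ⟨IsZ.ord_mem_of_le _ (IsZ.rank_mem _ (memV_of (HC N) (dom T))) hl⟩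
    exact memV_of (HC N) (rT T l)
  obtain ⟨-, -, -, -, e5, -, e7⟩ := com_congr hlim (rT_rT (T := T) (le_refl l))
  have key : ∀ b ∈ N, CofBr T l b → RealB N T b σ Ps →
      ∃ T', IsTree T' P ∧ lh T' = l + 1 ∧ rT T' l = rT T l ∧ brT T' l = b ∧ CertBy G T' := by
    intro b hb cb rb
    obtain ⟨T', k1, k2, k3, k4, k5, τ, k6, k7⟩ := exists_tree_lim N h0 m0 (e0.symm ▸ hlim) hb
      (e0.symm ▸ (e5 b).2 cb) ht.pms ht.mems ((e7 N b σ Ps cb.1).2 rb)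
    rw [e0] at k3 k4 k5 k7
    exact ⟨T', k2, k3, k4, k5, hc T' k1 k2 l k3 τ k6 k7⟩
  obtain ⟨T1, a1, a2, a3, a4, a5⟩ := key b hb cb rb
  obtain ⟨T2, b1, b2, b3, b4, b5⟩ := key c hc' cc rc
  rw [← a4, ← b4]
  exact cert_unique a1 b1 hlim a2 b2 (a3.trans b3.symm) a5 b5 fun Q Q' _ _ => hG Q Q'
theorem uniq_zero : Uniq 0 := fun N _ _ P σ Ps ht hm T hT h l hl hlim b hb c hc =>
  tta_uniq ht (G := fun _ => False) (fun _ _ k => k.elim)
    (fun T' m' h' _ e _ hτ he => (cert_of_real h' m' ht e hτ he).1 hm) hT h hl hlim hb hc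
theorem uniq_succ {m : ℕ} (h : CmpT m) : Uniq (m + 1) :=
  fun N _ hN P σ Ps ht hm T hT h0 l hl hlim b hb c hc =>
    tta_uniq ht (G := fun Q => IsTrue N Q ∧ Q.Tame m)
      (fun Q Q' k k' => h N hN Q Q' k.1 k'.1 k.2 k'.2)
      (fun T' m' h' _ e _ hτ he => (cert_of_real h' m' ht e hτ he).2 m hm) hT h0 hl hlim hb hc
-- JOB A END

-- JOB B BEGIN
/-- realizable cofinal branches below the length are the branches of the tree -/
theorem ttb_old {m : ℕ} (hu : Uniq m) {N₀ N : Set V} [IsZFC N] (hc : N.Countable) (hs : N₀ ⊆ N)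
    {P Ps : PM} {σ T : V} (ht : TrueW N P σ Ps) (hm : P.Tame m) (hT : T ∈ HC N) (h : IsTree T P)
    (hA : AllC (RealC N₀ σ Ps) T) {l : Ordinal.{0}} (hl : l < lh T) (hlim : Order.IsSuccLimit l)
    {b : V} (hb : b ∈ N) (hcb : CofBr T l b) (hr : RealB N T b σ Ps) : b = brT T l := by
  haveI : In N T := ⟨HC_subset N hT⟩
  haveI : In N l := ⟨IsZ.ord_mem_of_le N (mem_of N (lh T)) hl.le⟩
  exact hu N hc P σ Ps ht hm T hT h l hl.le hlim b hb _ (memV_of N (brT T l)) hcb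
    (h.cofBr_brT hl hlim) hr (((realC_iff h hl hlim).1 (hA l hl hlim)).mono hs)
/-- a realizable cofinal branch through a tree of limit length -/
theorem ttb_lim (rt : RTStmt) {m : ℕ} (hu : Uniq m) {N₀ N : Set V} [IsZFC N] (hc : N.Countable)
    (hs : N₀ ⊆ N) {P Ps : PM} {σ T : V} (ht : TrueW N P σ Ps) (hm : P.Tame m) (hT : T ∈ HC N)
    (h : IsTree T P) (hA : AllC (RealC N₀ σ Ps) T) (hlim : Order.IsSuccLimit (lh T)) :
    ∃ b ∈ N, CofBr T (lh T) b ∧ RealB N T b σ Ps := by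
  rcases rt N T P σ Ps hT h ht with ⟨l, hl, k, b, hb, hcb, hr, e⟩ | ⟨η, e, -⟩
  · rcases hl.eq_or_lt with rfl | hlt
    · exact ⟨b, hb, hcb, hr⟩
    · exact absurd (ttb_old hu hc hs ht hm hT h hA hlt k hb hcb hr) (e.resolve_left hlt.ne)
  · rw [e] at hlim
    exact absurd hlim (Order.not_isSuccLimit_succ η)
/-- a tree of length `ω₁` becomes countable in a collapse extension -/
theorem ttb_HC {N N' : Set V} [IsZFC N] (he : ColExt N N') {T : V} {P : PM} (hT : T ∈ N)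
    (h : IsTree T P) (hl : lh T = om1 N) (hH : ∀ ξ < om1 N, rT T ξ ∈ HC N) : T ∈ HC N' := by
  haveI := he.zfc
  haveI : In N' T := ⟨he.sub hT⟩
  have key : ∀ p ∈ T, fst p ∈ (om1 N).toZFSet ∧ pair (fst p) (app T (fst p)) = p := fun p hp => by
    have e := h.fn.1 p hp
    have k : pair (fst p) (snd p) ∈ T := e ▸ hp
    refine ⟨?_, by rw [h.fn.app_eq k]; exact e.symm⟩
    rw [← hl, ← h.dom_eq]
    exact mem_dom.2 ⟨_, k⟩
  refine mem_HC_iff.2 ⟨z5b_img he.col (fun x => pair x (app T x)) (he.sub hT)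
    fun p hp => ⟨fst p, key p hp⟩, fun p hp => ?_⟩
  obtain ⟨ξ, hξ, e⟩ := mem_toZFSet_iff.1 (key p hp).1
  refine z5d_trans (HC_mono he.sub (hH (ξ + 1) ((isSuccLimit_om1 N).succ_lt hξ))) ?_
  refine (mem_sep (p := fun p => fst p ∈ (ξ + 1).toZFSet)).2 ⟨hp, ?_⟩
  rw [← e]
  exact toZFSet_mem_toZFSet_iff.2 (lt_add_one ξ)
theorem strat_of_uniq (rt : RTStmt) {m : ℕ} (hu : Uniq m) (N : Set V) [IsZFC N] (hc : N.Countable)
    {P Ps : PM} {σ : V} (ht : TrueW N P σ Ps) (hm : P.Tame m) : Strat N P (RealC N σ Ps) := by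
  refine ⟨fun T hT h hA η a E e hL hE => ?_, fun T hT h hA hlim => ?_,
    fun T hT h hA hl hH => ?_⟩
  · rcases rt N T P σ Ps hT h ht with ⟨l, hl, k, b, hb, hcb, hr, e'⟩ | ⟨η', e', -, k⟩
    · rcases hl.eq_or_lt with rfl | hlt
      · rw [e] at k
        exact absurd k (Order.not_isSuccLimit_succ η)
      · exact absurd (ttb_old hu hc subset_rfl ht hm hT h hA hlt k hb hcb hr)
          (e'.resolve_left hlt.ne)
    · obtain rfl : η = η' := Order.succ_injective (e.symm.trans e')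
      exact k a E hL hE
  · obtain ⟨b, hb, hcb, hr⟩ := ttb_lim rt hu hc subset_rfl ht hm hT h hA hlim
    obtain ⟨T', h1, h2, h3, h4, h5, -⟩ := exists_tree_lim N h hT hlim hb hcb ht.pms ht.mems hr
    refine ⟨T', h1, h2, h3, h4, ?_⟩
    rw [RealC, lastI_eq h2 h3, h5]
    exact ((com_congr hlim (h4.trans h.rT_lh.symm)).2.2.2.2.2.2 N b σ Ps hcb.1).2 hr
  · haveI : In N T := ⟨hT⟩
    haveI : In N σ := ⟨ht.mem⟩
    haveI : In N Ps := ⟨ht.pms.enc_mem ht.mems⟩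
    obtain ⟨N', -, b, hb, -, k, -⟩ := colHom N hc
      (fun M b a => CofBr (fst a) (lh (fst a)) b ∧
        RealB M (fst a) b (fst (snd a)) (dec (snd (snd a)))) inferInstance
      (pair T (pair σ (enc Ps))) (memV_of N _) (om1 N).toZFSet (om1_mem N) fun N' he => by
        haveI := he.zfc
        simp only [fst_pair, snd_pair, dec_enc]
        have hT' := ttb_HC he hT h hl hH
        have ht' := ht.ext (he.small _ ht.inac)
        have hlim : Order.IsSuccLimit (lh T) := hl ▸ isSuccLimit_om1 N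
        obtain ⟨b, hb, hcb, hr⟩ := ttb_lim rt hu he.ctbl he.sub ht' hm hT' h hA hlim
        exact ⟨b, ⟨hb, hl ▸ hcb.1, hcb, hr⟩, fun c ⟨k1, _, k2, k3⟩ =>
          hu N' he.ctbl P σ Ps ht' hm T hT' h _ le_rfl hlim c k1 b hb k2 hcb k3 hr⟩
    rw [fst_pair, hl] at k
    exact ⟨b, hb, k⟩
theorem cmpT_of_uniq (rt : RTStmt) {m : ℕ} (hu : Uniq m) : CmpT m := by
  intro N _ hc P P' ⟨h1, σ, Ps, ht⟩ ⟨h1', σ', Ps', ht'⟩ hm hm'
  haveI : In N σ := ⟨ht.mem⟩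
  haveI : In N Ps := ⟨ht.pms.enc_mem ht.mems⟩
  haveI : In N σ' := ⟨ht'.mem⟩
  haveI : In N Ps' := ⟨ht'.pms.enc_mem ht'.mems⟩
  exact cmp_of_strat N ht.pm ht'.pm h1 h1' (RealC N σ Ps) (RealC N σ' Ps')
    (strat_of_uniq rt hu N hc ht hm) (strat_of_uniq rt hu N hc ht' hm')
-- JOB B END

theorem uniq (rt : RTStmt) (m : ℕ) : Uniq m := by
  induction m with
  | zero => exact uniq_zero
  | succ m ih => exact uniq_succ (cmpT_of_uniq rt ih)
theorem strat_true (rt : RTStmt) {m : ℕ} (N : Set V) [IsZFC N] (hc : N.Countable)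
    {P Ps : PM} {σ : V} (ht : TrueW N P σ Ps) (hm : P.Tame m) : Strat N P (RealC N σ Ps) :=
  strat_of_uniq rt (uniq rt m) N hc ht hm
theorem cmp_true (rt : RTStmt) {m m' : ℕ} (N : Set V) [IsZFC N] (hc : N.Countable) {P P' : PM}
    (h : IsTrue N P) (h' : IsTrue N P') (hm : P.Tame m) (hm' : P'.Tame m') : Cmp P P' :=
  cmpT_of_uniq rt (uniq rt (max m m')) N hc P P' h h' (Tame.mono subset_rfl (le_max_left _ _) hm)
    (Tame.mono subset_rfl (le_max_right _ _) hm')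

-- JOB C BEGIN
theorem ttc_pre {α} [Cd α] {j : V → V} {G H : Set V} [IsZ G] [IsZ H] (h : Elem j G H) {a : α}
    {y : V} (hy : y ∈ G) (e : j y = enc a) : ∃ b : α, enc b ∈ G ∧ jm j b = a := by
  have h1 := (h.iff1 pZ (fun _ (x : V) => x = enc (dec x : α)) (a := y) hy).2
    (by rw [jm_V, e, dec_enc])
  refine ⟨dec y, h1 ▸ hy, ?_⟩
  unfold jm
  rw [← h1, e, dec_enc]

theorem ttc_true {N : Set V} [IsZFC N] {π G H : V} [IsZ (G : Set V)] [IsZ (H : Set V)]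
    (h : IsElem π G H) (hG : G ∈ HC N) (hπ : π ∈ N) {P : PM} (hm : enc P ∈ G) {σ : V} {Ps : PM}
    (ht : TrueW N (jm (app π) P) σ Ps) :
    IsTrue N P ∧ ∀ m, P.Tame m ↔ (jm (app π) P).Tame m := by
  have hP : IsPM P := (h.elem.iff1 pZ (fun _ (P : PM) => IsPM P) hm).2 ht.pm
  obtain ⟨k1, k2, -⟩ := elemPM_restr h hP hm
  have hM : P.M ∈ G := ((enc_PM_mem (G : Set V)).1 hm).1
  have hM' : P.M ∈ HC N := (mem_HC_iff.1 hG).2 _ hM
  haveI : In N π := ⟨hπ⟩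
  haveI : In N P.M := ⟨HC_subset N hM'⟩
  haveI : In N σ := ⟨ht.mem⟩
  exact ⟨⟨hM', _, Ps, hP, ht.pms, memV_of N (comp σ (restr π P.M)), ht.mems,
    (ElemPM.comp hP k1 k2 ht.elem).1, ht.bkg, ht.inac⟩, ElemPM.tame hP k1 k2⟩

theorem TrueW.ttc_M {N : Set V} [IsZ N] {P Ps : PM} {σ : V} (h : TrueW N P σ Ps) : P.M ∈ N := by
  haveI : In N σ := ⟨h.mem⟩
  have := memV_of N (dom σ)
  rwa [(isFunc_iff.1 h.elem.elem.1).2.1] at this

/-- absolute statements about countable true premice hold for all true premice -/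
theorem ttc_big (N : Set V) [IsZFC N] {α} [Cd α] (Φ : PM → PM → α → Prop)
    [UD pZ (fun M v => Φ (dec (vr v 0)) (dec (vr v 1)) (dec (vr v 2)))] {m m' : ℕ}
    (h : ∀ P P' t, IsTrue N P → IsTrue N P' → P.Tame m → P'.Tame m' → Φ P P' t)
    {P P' Ps Ps' : PM} {σ σ' : V} (h1 : TrueW N P σ Ps) (h2 : TrueW N P' σ' Ps') (t1 : P.Tame m)
    (t2 : P'.Tame m') {t : α} (ht : enc t ∈ N) : Φ P P' t := by
  have e1 := h1.pm.enc_mem h1.ttc_M
  have e2 := h2.pm.enc_mem h2.ttc_M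
  haveI : In N P := ⟨e1⟩
  haveI : In N P' := ⟨e2⟩
  haveI : In N t := ⟨ht⟩
  obtain ⟨H, hH, hT, -, hV⟩ := exists_T_model N
    (mem_of N (max (max (enc P).rank (enc P').rank) (enc t).rank + 1))
  have hin : ∀ x ∈ N, x.rank ≤ max (max (enc P).rank (enc P').rank) (enc t).rank → x ∈ H :=
    fun x hx hr => IsZ.trans (M := (H : Set V)) _ hV x (mem_Vs.2 ⟨hx, Order.lt_add_one_iff.2 hr⟩)
  obtain ⟨G, hG, π, hπ, hZ, he, hl⟩ := exists_ctbl_elem N hH [enc P, enc P', enc t] (by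
    simp only [List.mem_cons, List.not_mem_nil, or_false, forall_eq_or_imp, forall_eq]
    exact ⟨hin _ e1 ((le_max_left _ _).trans (le_max_left _ _)),
      hin _ e2 ((le_max_right _ _).trans (le_max_left _ _)), hin _ ht (le_max_right _ _)⟩)
  obtain ⟨y1, a1, b1⟩ := hl (enc P) (by simp)
  obtain ⟨y2, a2, b2⟩ := hl (enc P') (by simp)
  obtain ⟨y3, a3, b3⟩ := hl (enc t) (by simp)
  obtain ⟨Q, c1, rfl⟩ := ttc_pre he.elem a1 b1
  obtain ⟨Q', c2, rfl⟩ := ttc_pre he.elem a2 b2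
  obtain ⟨s, c3, rfl⟩ := ttc_pre he.elem a3 b3
  obtain ⟨d1, d2⟩ := ttc_true he hG hπ c1 h1
  obtain ⟨d3, d4⟩ := ttc_true he hG hπ c2 h2
  exact (he.elem.iff3 pZ (fun _ P P' t => Φ P P' t) c1 c2 c3).1
    (h Q Q' s d1 d3 ((d2 m).2 t1) ((d4 m').2 t2))

def ttc_Prof (P P' : PM) (t : V × V × V × Ordinal.{0} × Ordinal.{0}) : Prop :=
  Low t.1 t.2.1 t.2.2.2.1 → IsBase t.2.2.1 → t.2.2.1.rank ≤ t.2.2.2.1 →
    (fld t.2.2.1).rank ≤ t.2.2.2.1 → t.2.2.2.2 ≤ t.2.2.2.1 →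
    (t.2.2.2.1.toZFSet ∈ P.M ∧ t.2.2.2.1.toZFSet ∈ P'.M) → CritGt P.S t.2.2.2.1 →
    CritGt P'.S t.2.2.2.1 → (t.1 ∈ P.M ∧ t.1 ∈ P'.M) → (t.2.1 ∈ P.M ∧ t.2.1 ∈ P'.M) →
    (t.2.2.1 ∈ P.M ∧ t.2.2.1 ∈ P'.M) →
    (∀ B ∈ P.M, B ⊆ fld t.2.2.1 → NoWit (fld t.2.2.1) B) → HasWit P'.opt t.2.2.1 P'.th →
    ∃ θ ≤ P'.th, min P.th t.2.2.2.1 ≤ θ ∧
      Prof (t.1 ∪ P'.opt) t.2.1 t.2.2.2.2 θ = Prof (t.1 ∪ P.opt) t.2.1 t.2.2.2.2 P.th

def ttc_Tie (P P' : PM) (t : V × V × Ordinal.{0}) : Prop :=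
  P = P' → Low t.1 t.2.1 t.2.2 → t.2.2.toZFSet ∈ P.M → CritGt P.S t.2.2 → t.1 ∈ P.M →
    t.2.1 ∈ P.M → t.2.2 < pIdx (t.1 ∪ P.opt) (Lv (t.1 ∪ P.opt) t.2.1 P.th) P.th →
    ¬ Tie (t.1 ∪ P.opt) (Lv (t.1 ∪ P.opt) t.2.1 P.th) P.th

theorem TrueW.ttc_sub {N : Set V} [IsZ N] {P Ps : PM} {σ : V} (h : TrueW N P σ Ps) {x : V}
    (hx : x ∈ P.M) : x ∈ N := IsZ.trans _ h.ttc_M x hx

/-- countable copy of a true premouse of `N` inside a hull -/
theorem Hull.true_copy {N : Set V} [IsZFC N] {H G π : V} {κ : Ordinal.{0}} (h : Hull N H G π κ)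
    {P Ps Q : PM} {σ : V} (ht : TrueW N P σ Ps) (hQ : enc Q ∈ G) (e : jm (app π) Q = P) :
    IsPM Q ∧ IsTrue N Q ∧ ∀ m, P.Tame m → Q.Tame m := by
  haveI := h.isT
  haveI := h.isT'
  subst e
  obtain ⟨k1, k2⟩ := ttc_true h.elem h.G_mem h.pi_mem hQ ht
  obtain ⟨-, _, _, k3⟩ := id k1
  exact ⟨k3.pm, k1, fun m => (k2 m).2⟩
/-- `Cmp.profile` for uncountable true premice -/
theorem true_profile (rt : RTStmt) (N : Set V) [IsZFC N] (hc : N.Countable) {P P' Ps Ps' : PM}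
    {σ σ' : V} (ht : TrueW N P σ Ps) (ht' : TrueW N P' σ' Ps') {m m' : ℕ} (hm : P.Tame m)
    (hm' : P'.Tame m') {O w₀ w₁ : V} {β η : Ordinal.{0}} (hl : Low O w₀ β) (hb : IsBase w₁)
    (hr : w₁.rank ≤ β) (hrf : (fld w₁).rank ≤ β) (hη : η ≤ β)
    (hβ : β.toZFSet ∈ P.M ∧ β.toZFSet ∈ P'.M) (hg : CritGt P.S β) (hg' : CritGt P'.S β)
    (hO : O ∈ P.M ∧ O ∈ P'.M) (hw : w₀ ∈ P.M ∧ w₀ ∈ P'.M) (hw₁ : w₁ ∈ P.M ∧ w₁ ∈ P'.M)
    (h1 : ∀ B ∈ P.M, B ⊆ fld w₁ → NoWit (fld w₁) B) (h2 : HasWit P'.opt w₁ P'.th) :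
    ∃ θ ≤ P'.th, min P.th β ≤ θ ∧ Prof (O ∪ P'.opt) w₀ η θ = Prof (O ∪ P.opt) w₀ η P.th := by
  haveI : UD pZ (fun M v => ttc_Prof (dec (vr v 0)) (dec (vr v 1)) (dec (vr v 2))) := by
    unfold ttc_Prof; infer_instance
  haveI : In N O := ⟨ht.ttc_sub hO.1⟩
  haveI : In N w₀ := ⟨ht.ttc_sub hw.1⟩
  haveI : In N w₁ := ⟨ht.ttc_sub hw₁.1⟩
  haveI : In N β := ⟨ht.ttc_sub hβ.1⟩
  haveI : In N η := ⟨IsZ.ord_mem_of_le N (ht.ttc_sub hβ.1) hη⟩
  refine ttc_big N ttc_Prof (fun Q Q' s k1 k2 k3 k4 => ?_) ht ht' hm hm'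
    (mem_of N (O, w₀, w₁, β, η)) hl hb hr hrf hη hβ hg hg' hO hw hw₁ h1 h2
  obtain ⟨-, _, _, l1⟩ := id k1
  obtain ⟨-, _, _, l2⟩ := id k2
  exact fun a b c d e f g h i j k l m =>
    (cmp_true rt N hc k1 k2 k3 k4).profile l1.pm l2.pm a b c d e f g h i j k l m
/-- `Cmp.not_tie` for uncountable true premice -/
theorem true_not_tie (rt : RTStmt) (N : Set V) [IsZFC N] (hc : N.Countable) {P Ps : PM} {σ : V}
    (ht : TrueW N P σ Ps) {m : ℕ} (hm : P.Tame m) {O w₀ : V} {β : Ordinal.{0}} (hl : Low O w₀ β)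
    (hβ : β.toZFSet ∈ P.M) (hg : CritGt P.S β) (hO : O ∈ P.M) (hw : w₀ ∈ P.M)
    (hlt : β < pIdx (O ∪ P.opt) (Lv (O ∪ P.opt) w₀ P.th) P.th) :
    ¬ Tie (O ∪ P.opt) (Lv (O ∪ P.opt) w₀ P.th) P.th := by
  haveI : UD pZ (fun M v => ttc_Tie (dec (vr v 0)) (dec (vr v 1)) (dec (vr v 2))) := by
    unfold ttc_Tie; infer_instance
  haveI : In N O := ⟨ht.ttc_sub hO⟩
  haveI : In N w₀ := ⟨ht.ttc_sub hw⟩
  haveI : In N β := ⟨ht.ttc_sub hβ⟩
  have key : ttc_Tie P P (O, w₀, β) := by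
    refine ttc_big N ttc_Tie (fun Q Q' s k1 k2 k3 k4 e => ?_) ht ht hm hm (mem_of N (O, w₀, β))
    subst e
    obtain ⟨-, _, _, l1⟩ := id k1
    exact fun a b c d e f => (cmp_true rt N hc k1 k2 k3 k4).not_tie l1.pm a b c d e f
  exact key rfl hl hβ hg hO hw hlt
-- JOB C END

end Pool.Agent.Lib.MP_f9eb18_lc.W
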