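import Pool.Agent.Lib.MP_f9eb18_lc.W.Defs

/-!
# The calculus of uniform definability

A frame `F` is a class `F.K` of transitive models together with a set `F.C` of admissible
parameters.  `UD F P` says that `P M v` is expressed by one formula in all models of the frame,
`UF F f` that the (codable) value `f M v` lies in `M` and has a `UD` graph, `UC F D` that
`D M v` is a definable subclass of `M`, `UV F g` that `g` is a definable change of assignment.
-/

namespace Pool.Agent.Lib.MP_f9eb18_lc.W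

open Ordinal ZFSet
set_option linter.style.haveILetI false
set_option linter.unusedVariables false

/-- shift of an assignment -/
def tl (v : ℕ → V) : ℕ → V := fun i => v (i + 1)
/-- variable lookup -/
def vr (v : ℕ → V) (i : ℕ) : V := v i
/-- interleaving of variables and parameters -/
def mrg (v c : ℕ → V) : ℕ → V := fun n => if n % 2 = 0 then v (n / 2) else c (n / 2)

@[simp] theorem cons_zero {α} (a : α) (v : ℕ → α) : cons a v 0 = a := rfl
@[simp] theorem cons_succ {α} (a : α) (v : ℕ → α) (n : ℕ) : cons a v (n + 1) = v n := rfl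
@[simp] theorem tl_cons (a : V) (v : ℕ → V) : tl (cons a v) = v := rfl
@[simp] theorem vr_cons_zero (a : V) (v : ℕ → V) : vr (cons a v) 0 = a := rfl
@[simp] theorem vr_cons_succ (a : V) (v : ℕ → V) (n : ℕ) : vr (cons a v) (n + 1) = vr v n := rfl
theorem cons_tl (v : ℕ → V) : cons (vr v 0) (tl v) = v := by
  funext i; cases i <;> rfl
theorem cons_mem {M : Set V} {a : V} {v : ℕ → V} (ha : a ∈ M) (hv : ∀ i, v i ∈ M) :
    ∀ i, cons a v i ∈ M := by
  intro i; cases i
  · exact ha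
  · exact hv _
theorem tl_mem {M : Set V} {v : ℕ → V} (hv : ∀ i, v i ∈ M) : ∀ i, tl v i ∈ M := fun _ => hv _
theorem mrg_mem {M : Set V} {v c : ℕ → V} (hv : ∀ i, v i ∈ M) (hc : ∀ i, c i ∈ M) :
    ∀ i, mrg v c i ∈ M := by
  intro i; unfold mrg; split_ifs
  · exact hv _
  · exact hc _
theorem comp_cons {α β} (j : α → β) (a : α) (v : ℕ → α) : j ∘ cons a v = cons (j a) (j ∘ v) := by
  funext i; cases i <;> rfl

/-- renaming of variables -/
def Fo.ren : Fo → (ℕ → ℕ) → Fo
  | .mem i j, f => .mem (f i) (f j)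
  | .eq i j, f => .eq (f i) (f j)
  | .neg φ, f => .neg (φ.ren f)
  | .and φ ψ, f => .and (φ.ren f) (ψ.ren f)
  | .ex φ, f => .ex (φ.ren (cons 0 (fun i => f i + 1)))

theorem sat_ren (M : Set V) (φ : Fo) : ∀ (f : ℕ → ℕ) (v : ℕ → V),
    Sat1 M (φ.ren f) v ↔ Sat1 M φ (v ∘ f) := by
  induction φ with
  | mem i j => intro f v; rfl
  | eq i j => intro f v; rfl
  | neg φ ih => intro f v; simp only [Fo.ren, Sat1, ih]
  | and φ ψ ih1 ih2 => intro f v; simp only [Fo.ren, Sat1, ih1, ih2]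
  | ex φ ih =>
    intro f v; simp only [Fo.ren, Sat1, ih]
    refine exists_congr fun a => and_congr_right fun _ => ?_
    have : (cons a v ∘ cons 0 (fun i => f i + 1)) = cons a (v ∘ f) := by
      funext i; cases i <;> rfl
    rw [this]

/-- bound on the free variables -/
def Fo.fv : Fo → ℕ
  | .mem i j => max i j + 1
  | .eq i j => max i j + 1
  | .neg φ => φ.fv
  | .and φ ψ => max φ.fv ψ.fv
  | .ex φ => φ.fv - 1

theorem sat_congr (M : Set V) (φ : Fo) : ∀ (v w : ℕ → V), (∀ i < φ.fv, v i = w i) →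
    (Sat1 M φ v ↔ Sat1 M φ w) := by
  induction φ with
  | mem i j =>
    intro v w h; simp only [Sat1]
    rw [h i (by simp only [Fo.fv]; omega), h j (by simp only [Fo.fv]; omega)]
  | eq i j =>
    intro v w h; simp only [Sat1]
    rw [h i (by simp only [Fo.fv]; omega), h j (by simp only [Fo.fv]; omega)]
  | neg φ ih => intro v w h; simp only [Sat1, ih v w h]
  | and φ ψ ih1 ih2 =>
    intro v w h; simp only [Sat1]
    rw [ih1 v w fun i hi => h i (by simp only [Fo.fv]; omega),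
      ih2 v w fun i hi => h i (by simp only [Fo.fv]; omega)]
  | ex φ ih =>
    intro v w h; simp only [Sat1]
    refine exists_congr fun a => and_congr_right fun _ => ih _ _ fun i hi => ?_
    cases i with
    | zero => rfl
    | succ i => exact h i (by simp only [Fo.fv]; omega)

theorem IsZ.empty_mem (M : Set V) [h : IsZ M] : (∅ : V) ∈ M := by
  refine h.trans _ h.omega _ ?_
  have : (∅ : V) = (0 : Ordinal.{0}).toZFSet := by simp
  rw [this]; exact Ordinal.toZFSet_mem_toZFSet_iff.2 omega0_pos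

/-- A frame: a class of models and admissible parameters. -/
structure Fr where
  K : Set V → Prop
  C : Set V
  hZ : ∀ M, K M → IsZ M
  hC : ∀ M, K M → C ⊆ M
  h0 : (∅ : V) ∈ C

/-- all models of the frame satisfy the well-ordering principle -/
class Fr.T (F : Fr) : Prop where
  out : ∀ M, F.K M → IsT M
/-- all models of the frame satisfy ZFC -/
class Fr.P (F : Fr) : Prop where
  out : ∀ M, F.K M → IsZFC M
instance (F : Fr) [h : F.P] : F.T := ⟨fun M hM => (h.out M hM).toIsT⟩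

/-- one model, arbitrary parameters from it -/
def loc (M : Set V) [h : IsZ M] : Fr :=
  ⟨fun N => N = M, M, fun _ e => e ▸ h, fun _ e => e ▸ subset_rfl, IsZ.empty_mem M⟩
/-- one model, no parameters -/
def pureAt (M : Set V) [h : IsZ M] : Fr :=
  ⟨fun N => N = M, {∅}, fun _ e => e ▸ h,
    fun _ e => e ▸ Set.singleton_subset_iff.2 (IsZ.empty_mem M), rfl⟩
/-- all models, no parameters -/
def pZ : Fr := ⟨IsZ, {∅}, fun _ h => h,
  fun M _ => Set.singleton_subset_iff.2 (IsZ.empty_mem M), rfl⟩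
def pT : Fr := ⟨IsT, {∅}, fun _ h => h.toIsZ,
  fun M _ => Set.singleton_subset_iff.2 (IsZ.empty_mem M), rfl⟩
def pP : Fr := ⟨IsZFC, {∅}, fun _ h => h.toIsZ,
  fun M _ => Set.singleton_subset_iff.2 (IsZ.empty_mem M), rfl⟩
instance (M : Set V) [h : IsT M] : (loc M).T := ⟨fun _ e => e ▸ h⟩
instance (M : Set V) [h : IsZFC M] : (loc M).P := ⟨fun _ e => e ▸ h⟩
instance (M : Set V) [h : IsT M] : (pureAt M).T := ⟨fun _ e => e ▸ h⟩
instance : pT.T := ⟨fun _ h => h⟩
instance : pP.P := ⟨fun _ h => h⟩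

/-- types coded by sets -/
class Enc (α : Type*) where
  enc : α → V
  dec : V → α
  dec_enc : ∀ a, dec (enc a) = a
export Enc (enc dec dec_enc)
attribute [simp] dec_enc

theorem enc_inj {α} [Enc α] : Function.Injective (enc : α → V) :=
  Function.LeftInverse.injective dec_enc

@[reducible] instance : Enc V := ⟨fun x => x, fun x => x, fun _ => rfl⟩
@[simp] theorem enc_V (x : V) : enc x = x := rfl
@[simp] theorem dec_V (x : V) : (dec x : V) = x := rfl

class UD (F : Fr) (P : Set V → (ℕ → V) → Prop) : Prop where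
  out : ∃ (φ : Fo) (c : ℕ → V), (∀ i, c i ∈ F.C) ∧
    ∀ M, F.K M → ∀ v, (∀ i, v i ∈ M) → (P M v ↔ Sat1 M φ (mrg v c))

class UF (F : Fr) {α : Type*} [Enc α] (f : Set V → (ℕ → V) → α) : Prop where
  cl : ∀ M, F.K M → ∀ v, (∀ i, v i ∈ M) → enc (f M v) ∈ M
  gr : UD F (fun M v => vr v 0 = enc (f M (tl v)))

class UC (F : Fr) (D : Set V → (ℕ → V) → Set V) : Prop where
  sub : ∀ M, F.K M → ∀ v, (∀ i, v i ∈ M) → D M v ⊆ M
  gr : UD F (fun M v => vr v 0 ∈ D M (tl v))

class UV (F : Fr) (g : Set V → (ℕ → V) → (ℕ → V)) : Prop where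
  out : ∀ i, UF F (fun M v => g M v i)

/-- decoding is definable -/
class Cd (α : Type*) extends Enc α where
  uf : ∀ F : Fr, UF F (fun _ v => (dec (vr v 0) : α))

/-- `enc a ∈ M`, as a class (register hypotheses with `haveI : In M a := ⟨h⟩`). -/
class In (M : Set V) {α : Type*} [Enc α] (a : α) : Prop where
  out : enc a ∈ M

variable {F : Fr}

theorem UD.congr {P Q : Set V → (ℕ → V) → Prop} (h : UD F P)
    (e : ∀ M, F.K M → ∀ v, (∀ i, v i ∈ M) → (Q M v ↔ P M v)) : UD F Q := by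
  obtain ⟨φ, c, hc, H⟩ := h.out
  exact ⟨φ, c, hc, fun M hM v hv => (e M hM v hv).trans (H M hM v hv)⟩

theorem UD.ren {P : Set V → (ℕ → V) → Prop} (h : UD F P) (f : ℕ → ℕ) :
    UD F (fun M v => P M (v ∘ f)) := by
  obtain ⟨φ, c, hc, H⟩ := h.out
  refine ⟨φ.ren (fun n => if n % 2 = 0 then 2 * f (n / 2) else n), c, hc, fun M hM v hv => ?_⟩
  rw [H M hM (v ∘ f) (fun i => hv _), sat_ren]
  apply iff_of_eq; congr 1; funext n
  by_cases hn : n % 2 = 0
  · simp [mrg, hn]
  · simp [mrg, hn]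

theorem UD.sat (φ : Fo) : UD F (fun M v => Sat1 M φ v) := by
  refine ⟨φ.ren (fun n => 2 * n), fun _ => ∅, fun _ => F.h0, fun M _ v _ => ?_⟩
  rw [sat_ren]; apply iff_of_eq; congr 1; funext n; simp [mrg]

instance UD.not {P : Set V → (ℕ → V) → Prop} [h : UD F P] : UD F (fun M v => ¬ P M v) := by
  obtain ⟨φ, c, hc, H⟩ := h.out
  exact ⟨.neg φ, c, hc, fun M hM v hv => not_congr (H M hM v hv)⟩

instance UD.and {P Q : Set V → (ℕ → V) → Prop} [h : UD F P] [k : UD F Q] :
    UD F (fun M v => P M v ∧ Q M v) := by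
  obtain ⟨φ, c, hc, H⟩ := h.out
  obtain ⟨ψ, d, hd, K⟩ := k.out
  refine ⟨.and (φ.ren (fun n => if n % 2 = 0 then n else 4 * (n / 2) + 1))
    (ψ.ren (fun n => if n % 2 = 0 then n else 4 * (n / 2) + 3)), mrg c d, mrg_mem hc hd,
    fun M hM v hv => ?_⟩
  simp only [Sat1, sat_ren]
  rw [H M hM v hv, K M hM v hv]
  apply iff_of_eq; congr 2
  · funext n
    by_cases hn : n % 2 = 0
    · simp [mrg, hn]
    · have h1 : (4 * (n / 2) + 1) % 2 ≠ 0 := by omega
      have h2 : (4 * (n / 2) + 1) / 2 % 2 = 0 := by omega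
      have h3 : (4 * (n / 2) + 1) / 2 / 2 = n / 2 := by omega
      simp only [mrg, hn, Function.comp, if_false, h1, h2, h3, if_true]
  · funext n
    by_cases hn : n % 2 = 0
    · simp [mrg, hn]
    · have h1 : (4 * (n / 2) + 3) % 2 ≠ 0 := by omega
      have h2 : (4 * (n / 2) + 3) / 2 % 2 ≠ 0 := by omega
      have h3 : (4 * (n / 2) + 3) / 2 / 2 = n / 2 := by omega
      simp only [mrg, hn, Function.comp, if_false, h1, h2, h3]

theorem UD.exM {P : Set V → (ℕ → V) → Prop} (h : UD F P) :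
    UD F (fun M v => ∃ x ∈ M, P M (cons x v)) := by
  obtain ⟨φ, c, hc, H⟩ := h.out
  refine ⟨.ex (φ.ren (fun n => if n % 2 = 0 then (if n = 0 then 0 else n - 1) else n + 1)), c, hc,
    fun M hM v hv => ?_⟩
  simp only [Sat1, sat_ren]
  refine exists_congr fun a => and_congr_right fun ha => ?_
  rw [H M hM _ (cons_mem ha hv)]
  apply iff_of_eq; congr 1; funext n
  by_cases hn : n % 2 = 0
  · by_cases h0 : n = 0
    · subst h0; rfl
    · obtain ⟨k, rfl⟩ : ∃ k, n = 2 * k + 2 := ⟨(n - 2) / 2, by omega⟩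
      have h1 : (2 * k + 2) / 2 = k + 1 := by omega
      have h2 : 2 * k + 2 - 1 = 2 * k + 1 := by omega
      have h3 : (2 * k) % 2 = 0 := by omega
      have h4 : (2 * k) / 2 = k := by omega
      simp only [mrg, Function.comp, hn, h0, if_true, if_false, h1, h2, cons_succ, h3, h4]
  · simp only [mrg, Function.comp, hn, if_false, cons_succ]

theorem UD.par {c : V} (hc : c ∈ F.C) : UD F (fun _ v => vr v 0 = c) :=
  ⟨.eq 0 1, fun _ => c, fun _ => hc, fun _ _ _ _ => Iff.rfl⟩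

instance UD.true : UD F (fun _ _ => True) :=
  (UD.sat (.eq 0 0)).congr fun _ _ _ _ => by simp [Sat1]
instance UD.false : UD F (fun _ _ => False) :=
  (UD.sat (.neg (.eq 0 0))).congr fun _ _ _ _ => by simp [Sat1]

instance UD.or {P Q : Set V → (ℕ → V) → Prop} [UD F P] [UD F Q] :
    UD F (fun M v => P M v ∨ Q M v) :=
  (inferInstance : UD F (fun M v => ¬ (¬ P M v ∧ ¬ Q M v))).congr fun _ _ _ _ => by tauto
instance UD.imp {P Q : Set V → (ℕ → V) → Prop} [UD F P] [UD F Q] :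
    UD F (fun M v => P M v → Q M v) :=
  (inferInstance : UD F (fun M v => ¬ (P M v ∧ ¬ Q M v))).congr fun _ _ _ _ => by tauto
instance UD.iff {P Q : Set V → (ℕ → V) → Prop} [UD F P] [UD F Q] :
    UD F (fun M v => P M v ↔ Q M v) :=
  (inferInstance : UD F (fun M v => (P M v → Q M v) ∧ (Q M v → P M v))).congr
    fun _ _ _ _ => by tauto

/-! ### changes of assignment -/

theorem UF.ren {α} [Enc α] {f : Set V → (ℕ → V) → α} (h : UF F f) (r : ℕ → ℕ) :
    UF F (fun M v => f M (v ∘ r)) :=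
  ⟨fun M hM v hv => h.cl M hM _ (fun _ => hv _),
    (h.gr.ren (cons 0 (fun i => r i + 1))).congr fun _ _ _ _ => Iff.rfl⟩

theorem UF.var (i : ℕ) : UF F (fun _ v => v i) :=
  ⟨fun _ _ _ hv => hv i, (UD.sat (.eq 0 (i + 1))).congr fun _ _ _ _ => Iff.rfl⟩

theorem UV.cl {g : Set V → (ℕ → V) → (ℕ → V)} (hg : UV F g) :
    ∀ M, F.K M → ∀ v, (∀ i, v i ∈ M) → ∀ i, g M v i ∈ M :=
  fun M hM v hv i => (hg.out i).cl M hM v hv

/-- the first `k` values of `u` followed by `v` -/
def pre (k : ℕ) (u v : ℕ → V) : ℕ → V := fun i => if i < k then u i else v (i - k)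

theorem pre_succ (k : ℕ) (u v : ℕ → V) : pre (k + 1) u v = pre k u (cons (u k) v) := by
  funext i; unfold pre
  rcases lt_trichotomy i k with h | h | h
  · simp [h, Nat.lt_succ_of_lt h]
  · subst h; simp
  · obtain ⟨j, rfl⟩ : ∃ j, i = k + 1 + j := ⟨i - (k + 1), by omega⟩
    have h1 : ¬ (k + 1 + j < k + 1) := by omega
    have h2 : ¬ (k + 1 + j < k) := by omega
    have h3 : k + 1 + j - (k + 1) = j := by omega
    have h4 : k + 1 + j - k = j + 1 := by omega
    simp only [h1, h2, h3, h4, if_false, cons_succ]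

theorem UV.pre_aux (k : ℕ) : ∀ (g : Set V → (ℕ → V) → (ℕ → V)), UV F g →
    ∀ P, UD F P → UD F (fun M v => P M (pre k (g M v) v)) := by
  induction k with
  | zero =>
    intro g _ P hP
    refine hP.congr fun M _ v _ => ?_
    apply iff_of_eq; congr 1
  | succ k ih =>
    intro g hg P hP
    have h1 : UV F (fun M w => g M (tl w)) := ⟨fun i => (hg.out i).ren (fun n => n + 1)⟩
    have h2 := ih _ h1 P hP
    have h3 := (hg.out k).gr
    refine (UD.exM (UD.and (h := h3) (k := h2))).congr fun M hM v hv => ?_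
    simp only [pre_succ, tl_cons, vr_cons_zero, enc_V]
    constructor
    · intro h; exact ⟨_, hg.cl M hM v hv k, rfl, h⟩
    · rintro ⟨x, _, rfl, h⟩; exact h

theorem UV.sub {g : Set V → (ℕ → V) → (ℕ → V)} (hg : UV F g) (P : Set V → (ℕ → V) → Prop)
    (hP : UD F P) : UD F (fun M v => P M (g M v)) := by
  obtain ⟨φ, c, hc, H⟩ := hP.out
  have h0 : UD F (fun M v => Sat1 M φ (mrg v c)) := ⟨φ, c, hc, fun _ _ _ _ => Iff.rfl⟩
  refine (UV.pre_aux φ.fv g hg _ h0).congr fun M hM v hv => ?_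
  rw [H M hM _ (hg.cl M hM v hv)]
  refine sat_congr M φ _ _ fun i hi => ?_
  unfold mrg pre
  by_cases h : i % 2 = 0
  · have : i / 2 < φ.fv := by omega
    simp [h, this]
  · simp [h]

instance UV.id : UV F (fun _ v => v) := ⟨fun i => UF.var i⟩
instance UV.tl {g : Set V → (ℕ → V) → (ℕ → V)} [h : UV F g] : UV F (fun M v => tl (g M v)) :=
  ⟨fun i => h.out (i + 1)⟩
instance UV.cons {a : Set V → (ℕ → V) → V} {g : Set V → (ℕ → V) → (ℕ → V)} [ha : UF F a]
    [h : UV F g] : UV F (fun M v => cons (a M v) (g M v)) :=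
  ⟨fun i => match i with
    | 0 => ha
    | i + 1 => h.out i⟩
instance UF.vr {g : Set V → (ℕ → V) → (ℕ → V)} [h : UV F g] (i : ℕ) :
    UF F (fun M v => vr (g M v) i) := h.out i

theorem UF.congr {α} [Enc α] {f g : Set V → (ℕ → V) → α} (h : UF F f)
    (e : ∀ M, F.K M → ∀ v, (∀ i, v i ∈ M) → g M v = f M v) : UF F g :=
  ⟨fun M hM v hv => by rw [e M hM v hv]; exact h.cl M hM v hv,
    h.gr.congr fun M hM v hv => by rw [e M hM _ (tl_mem hv)]⟩

theorem UD.lift (P : Set V → (ℕ → V) → Prop) [h : UD F P] :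
    ∀ (g : Set V → (ℕ → V) → (ℕ → V)) [UV F g], UD F (fun M v => P M (g M v)) :=
  fun _ hg => hg.sub P h

theorem UV.under {g : Set V → (ℕ → V) → (ℕ → V)} (hg : UV F g) :
    UV F (fun M v => MP_f9eb18_lc.cons (W.vr v 0) (g M (W.tl v))) :=
  ⟨fun i => match i with
    | 0 => UF.var 0
    | i + 1 => (hg.out i).ren (fun n => n + 1)⟩

theorem UF.lift {α} [Enc α] (f : Set V → (ℕ → V) → α) [h : UF F f] :
    ∀ (g : Set V → (ℕ → V) → (ℕ → V)) [UV F g], UF F (fun M v => f M (g M v)) :=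
  fun _ hg => ⟨fun M hM v hv => h.cl M hM _ (hg.cl M hM v hv),
    (hg.under.sub _ h.gr).congr fun _ _ _ _ => Iff.rfl⟩

theorem UC.lift (D : Set V → (ℕ → V) → Set V) [h : UC F D] :
    ∀ (g : Set V → (ℕ → V) → (ℕ → V)) [UV F g], UC F (fun M v => D M (g M v)) :=
  fun _ hg => ⟨fun M hM v hv => h.sub M hM _ (hg.cl M hM v hv),
    (hg.under.sub _ h.gr).congr fun _ _ _ _ => Iff.rfl⟩

theorem UV.lift (h : Set V → (ℕ → V) → (ℕ → V)) [hh : UV F h] :
    ∀ (g : Set V → (ℕ → V) → (ℕ → V)) [UV F g], UV F (fun M v => h M (g M v)) :=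
  fun g _ => ⟨fun i => haveI := hh.out i; UF.lift (fun M v => h M v i) g⟩

/-! ### atomic formulas, codes, constants -/

instance UF.enc {α} [Enc α] {a : Set V → (ℕ → V) → α} [h : UF F a] :
    UF F (fun M v => (enc (a M v) : V)) := ⟨h.cl, h.gr⟩

theorem UF.of_enc {α} [Enc α] {a : Set V → (ℕ → V) → α}
    (h : UF F (fun M v => (W.enc (a M v) : V))) : UF F a := ⟨h.cl, h.gr⟩

instance UF.dec {α} [Cd α] {a : Set V → (ℕ → V) → V} [UF F a] :
    UF F (fun M v => (dec (a M v) : α)) :=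
  haveI := Cd.uf (α := α) F
  UF.lift (fun _ v => (W.dec (W.vr v 0) : α)) (fun M v => cons (a M v) v)

@[reducible] instance : Cd V := ⟨fun _ => UF.var 0⟩

instance UD.mem {a b : Set V → (ℕ → V) → V} [UF F a] [UF F b] :
    UD F (fun M v => a M v ∈ b M v) :=
  haveI := UD.sat (F := F) (.mem 0 1)
  UD.lift (fun M v => Sat1 M (.mem 0 1) v) (fun M v => cons (a M v) (cons (b M v) v))

instance UD.eq {α} [Enc α] {a b : Set V → (ℕ → V) → α} [UF F a] [UF F b] :
    UD F (fun M v => a M v = b M v) :=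
  haveI := UD.sat (F := F) (.eq 0 1)
  (UD.lift (fun M v => Sat1 M (.eq 0 1) v)
    (fun M v => cons (enc (a M v)) (cons (enc (b M v)) v))).congr
    fun _ _ _ _ => enc_inj.eq_iff.symm

instance UD.ne {α} [Enc α] {a b : Set V → (ℕ → V) → α} [UF F a] [UF F b] :
    UD F (fun M v => a M v ≠ b M v) := UD.not

instance UD.memC {a : Set V → (ℕ → V) → V} {D : Set V → (ℕ → V) → Set V} [UF F a] [h : UC F D] :
    UD F (fun M v => a M v ∈ D M v) :=
  haveI := h.gr
  UD.lift (fun M v => vr v 0 ∈ D M (tl v)) (fun M v => cons (a M v) v)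

instance UC.self : UC F (fun M _ => M) :=
  ⟨fun _ _ _ _ => subset_rfl, UD.true.congr fun _ _ _ hv => iff_true_intro (hv 0)⟩
instance UC.loc (N : Set V) [IsZ N] : UC (loc N) (fun _ _ => N) :=
  ⟨fun _ e _ _ => e ▸ subset_rfl, UD.true.congr fun _ e _ hv => iff_true_intro (e ▸ hv 0)⟩
instance UC.pureAt (N : Set V) [IsZ N] : UC (pureAt N) (fun _ _ => N) :=
  ⟨fun _ e _ _ => e ▸ subset_rfl, UD.true.congr fun _ e _ hv => iff_true_intro (e ▸ hv 0)⟩
instance UC.coe {a : Set V → (ℕ → V) → V} [h : UF F a] :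
    UC F (fun M v => (a M v : Set V)) :=
  haveI := UF.lift (F := F) a
  ⟨fun M hM v hv x hx => (F.hZ M hM).trans _ (h.cl M hM v hv) x hx,
    (inferInstance : UD F (fun M v => vr v 0 ∈ a M (tl v)))⟩
/-- a class given by a definable condition that implies membership in `M` -/
theorem UC.setOf (P : Set V → (ℕ → V) → V → Prop) [h : UD F (fun M v => P M (tl v) (vr v 0))]
    (hs : ∀ M, F.K M → ∀ v, (∀ i, v i ∈ M) → ∀ x, P M v x → x ∈ M) :
    UC F (fun M v => {x | P M v x}) := ⟨hs, h⟩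

instance (priority := high) UF.const (N : Set V) [IsZ N] {α} [Enc α] (c : α) [h : In N c] :
    UF (loc N) (fun _ _ => c) :=
  ⟨fun _ e _ _ => e ▸ h.out, UD.par (F := loc N) h.out⟩

/-- introduce a function by its graph -/
theorem UF.of_graph {α} [Enc α] {f : Set V → (ℕ → V) → α} (P : Set V → (ℕ → V) → V → Prop)
    [h : UD F (fun M v => P M (tl v) (W.vr v 0))]
    (cl : ∀ M, F.K M → ∀ v, (∀ i, v i ∈ M) → W.enc (f M v) ∈ M)
    (e : ∀ M, F.K M → ∀ v, (∀ i, v i ∈ M) → ∀ y ∈ M, (y = W.enc (f M v) ↔ P M v y)) : UF F f :=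
  ⟨cl, h.congr fun M hM v hv => e M hM _ (tl_mem hv) _ (hv 0)⟩

/-! ### quantifiers -/

instance UD.exC {D : Set V → (ℕ → V) → Set V} {P : Set V → (ℕ → V) → V → Prop} [hD : UC F D]
    [h : UD F (fun M v => P M (tl v) (vr v 0))] : UD F (fun M v => ∃ x ∈ D M v, P M v x) :=
  (UD.exM (UD.and (h := hD.gr) (k := h))).congr fun M hM v hv =>
    ⟨fun ⟨x, hx, hp⟩ => ⟨x, hD.sub M hM v hv hx, hx, hp⟩, fun ⟨x, _, hx, hp⟩ => ⟨x, hx, hp⟩⟩

instance UD.allC {D : Set V → (ℕ → V) → Set V} {P : Set V → (ℕ → V) → V → Prop} [UC F D]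
    [UD F (fun M v => P M (tl v) (vr v 0))] : UD F (fun M v => ∀ x ∈ D M v, P M v x) :=
  (inferInstance : UD F (fun M v => ¬ ∃ x ∈ D M v, ¬ P M v x)).congr fun _ _ _ _ => by simp

instance UD.exS {a : Set V → (ℕ → V) → V} {P : Set V → (ℕ → V) → V → Prop} [UF F a]
    [UD F (fun M v => P M (tl v) (vr v 0))] : UD F (fun M v => ∃ x ∈ a M v, P M v x) :=
  UD.exC (D := fun M v => (a M v : Set V))

instance UD.allS {a : Set V → (ℕ → V) → V} {P : Set V → (ℕ → V) → V → Prop} [UF F a]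
    [UD F (fun M v => P M (tl v) (vr v 0))] : UD F (fun M v => ∀ x ∈ a M v, P M v x) :=
  UD.allC (D := fun M v => (a M v : Set V))

/-- quantifiers over coded objects of a class -/
instance UD.exE {α} [Cd α] {D : Set V → (ℕ → V) → Set V} {P : Set V → (ℕ → V) → α → Prop}
    [UC F D] [UD F (fun M v => P M (tl v) (dec (vr v 0)))] :
    UD F (fun M v => ∃ x : α, enc x ∈ D M v ∧ P M v x) :=
  (inferInstance : UD F (fun M v => ∃ y ∈ D M v, enc (dec y : α) = y ∧ P M v (dec y))).congr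
    fun _ _ _ _ => ⟨fun ⟨x, hx, hp⟩ => ⟨enc x, hx, by simp, by simpa using hp⟩,
      fun ⟨y, hy, e, hp⟩ => ⟨dec y, by rw [e]; exact hy, hp⟩⟩

instance UD.allE {α} [Cd α] {D : Set V → (ℕ → V) → Set V} {P : Set V → (ℕ → V) → α → Prop}
    [UC F D] [UD F (fun M v => P M (tl v) (dec (vr v 0)))] :
    UD F (fun M v => ∀ x : α, enc x ∈ D M v → P M v x) :=
  (inferInstance : UD F (fun M v => ¬ ∃ x : α, enc x ∈ D M v ∧ ¬ P M v x)).congr
    fun _ _ _ _ => by simp

/-- quantifiers over coded objects of a set -/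
instance UD.exES {α} [Cd α] {a : Set V → (ℕ → V) → V} {P : Set V → (ℕ → V) → α → Prop}
    [UF F a] [UD F (fun M v => P M (tl v) (dec (vr v 0)))] :
    UD F (fun M v => ∃ x : α, enc x ∈ a M v ∧ P M v x) :=
  UD.exE (D := fun M v => (a M v : Set V))

instance UD.allES {α} [Cd α] {a : Set V → (ℕ → V) → V} {P : Set V → (ℕ → V) → α → Prop}
    [UF F a] [UD F (fun M v => P M (tl v) (dec (vr v 0)))] :
    UD F (fun M v => ∀ x : α, enc x ∈ a M v → P M v x) :=
  UD.allE (D := fun M v => (a M v : Set V))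

instance UD.subset {a b : Set V → (ℕ → V) → V} [UF F a] [UF F b] :
    UD F (fun M v => a M v ⊆ b M v) :=
  haveI := UF.lift (F := F) b
  (inferInstance : UD F (fun M v => ∀ x ∈ a M v, x ∈ b M v))

instance UD.subsetC {a : Set V → (ℕ → V) → V} {D : Set V → (ℕ → V) → Set V} [UF F a] [UC F D] :
    UD F (fun M v => (a M v : Set V) ⊆ D M v) :=
  haveI := UC.lift (F := F) D
  (inferInstance : UD F (fun M v => ∀ x ∈ a M v, x ∈ D M v))

/-- an unbounded quantifier whose witnesses automatically lie in the model -/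
theorem UD.ex_of {α} [Cd α] (P : Set V → (ℕ → V) → α → Prop)
    [UD F (fun M v => P M (tl v) (dec (vr v 0)))]
    (h : ∀ M, F.K M → ∀ v, (∀ i, v i ∈ M) → ∀ x, P M v x → enc x ∈ M) :
    UD F (fun M v => ∃ x, P M v x) :=
  (inferInstance : UD F (fun M v => ∃ x : α, enc x ∈ M ∧ P M v x)).congr fun M hM v hv =>
    ⟨fun ⟨x, hx⟩ => ⟨x, h M hM v hv x hx, hx⟩, fun ⟨x, _, hx⟩ => ⟨x, hx⟩⟩

instance UF.ite {α} [Enc α] {P : Set V → (ℕ → V) → Prop} {a b : Set V → (ℕ → V) → α}
    {d : ∀ M v, Decidable (P M v)} [UD F P] [ha : UF F a] [hb : UF F b] :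
    UF F (fun M v => @ite _ (P M v) (d M v) (a M v) (b M v)) := by
  haveI := UD.lift (F := F) P; haveI := UF.lift (F := F) a; haveI := UF.lift (F := F) b
  refine UF.of_graph (fun M v y => (P M v ∧ y = W.enc (a M v)) ∨ (¬ P M v ∧ y = W.enc (b M v)))
    (fun M hM v hv => ?_) (fun M hM v hv y _ => ?_)
  · split_ifs
    · exact ha.cl M hM v hv
    · exact hb.cl M hM v hv
  · split_ifs with h <;> simp [h]

/-! ### separation, collection, membership -/

theorem sat_sw (M : Set V) (φ : Fo) (c v : ℕ → V) (k : ℕ) :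
    ∃ ψ : Fo, ∀ u : ℕ → V, Sat1 M φ (mrg (pre k u v) c) ↔ Sat1 M ψ (pre k u (mrg v c)) := by
  refine ⟨φ.ren (fun n => if n % 2 = 0 then (if n / 2 < k then n / 2 else k + 2 * (n / 2 - k))
    else k + n), fun u => ?_⟩
  rw [sat_ren]; apply iff_of_eq; congr 1; funext n
  by_cases hn : n % 2 = 0
  · by_cases h2 : n / 2 < k
    · simp [mrg, pre, hn, h2]
    · simp [mrg, pre, hn, h2]
  · simp [mrg, pre, hn]

theorem pre_one (x : V) (v : ℕ → V) : pre 1 (fun _ => x) v = cons x v := by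
  funext i; cases i <;> simp [pre]
theorem pre_two (x y : V) (v : ℕ → V) : pre 2 (cons y (fun _ => x)) v = cons y (cons x v) := by
  funext i; rcases i with _ | _ | i <;> simp [pre]

theorem UD.sep_mem {P : Set V → (ℕ → V) → Prop} (h : UD F P) {M : Set V} (hM : F.K M)
    {v : ℕ → V} (hv : ∀ i, v i ∈ M) {a : V} (ha : a ∈ M) :
    ZFSet.sep (fun x => P M (cons x v)) a ∈ M := by
  obtain ⟨φ, c, hc, H⟩ := h.out
  obtain ⟨ψ, hψ⟩ := sat_sw M φ c v 1
  have hZ := F.hZ M hM
  have := hZ.sep ψ (mrg v c) (mrg_mem hv fun i => F.hC M hM (hc i)) a ha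
  convert this using 1
  ext x; simp only [mem_sep]
  refine and_congr_right fun hx => ?_
  rw [H M hM _ (cons_mem (hZ.trans _ ha _ hx) hv), ← pre_one, ← pre_one, hψ]

theorem UD.coll_mem {P : Set V → (ℕ → V) → Prop} (h : UD F P) {M : Set V} (hM : F.K M)
    {v : ℕ → V} (hv : ∀ i, v i ∈ M) {a : V} (ha : a ∈ M)
    (hx : ∀ x ∈ a, ∃ y ∈ M, P M (cons y (cons x v))) :
    ∃ b ∈ M, ∀ x ∈ a, ∃ y ∈ b, P M (cons y (cons x v)) := by
  obtain ⟨φ, c, hc, H⟩ := h.out
  obtain ⟨ψ, hψ⟩ := sat_sw M φ c v 2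
  have hZ := F.hZ M hM
  have e : ∀ x ∈ M, ∀ y ∈ M,
      (P M (cons y (cons x v)) ↔ Sat1 M ψ (cons y (cons x (mrg v c)))) := fun x hx y hy => by
    rw [H M hM _ (cons_mem hy (cons_mem hx hv)), ← pre_two, ← pre_two, hψ]
  obtain ⟨b, hb, H2⟩ := hZ.coll ψ (mrg v c) (mrg_mem hv fun i => F.hC M hM (hc i)) a ha
    fun x hxa => by
      obtain ⟨y, hy, hp⟩ := hx x hxa
      exact ⟨y, hy, (e x (hZ.trans _ ha _ hxa) y hy).1 hp⟩
  refine ⟨b, hb, fun x hxa => ?_⟩
  obtain ⟨y, hy, hp⟩ := H2 x hxa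
  exact ⟨y, hy, (e x (hZ.trans _ ha _ hxa) y (hZ.trans _ hb _ hy)).2 hp⟩

/-- separation in `M` for a predicate with parameters in `M` -/
theorem sep_mem (M : Set V) [IsZ M] (P : V → Prop) [h : UD (loc M) (fun _ v => P (vr v 0))]
    {a : V} (ha : a ∈ M) : ZFSet.sep P a ∈ M :=
  h.sep_mem (M := M) rfl (v := fun _ => ∅) (fun _ => IsZ.empty_mem M) ha

/-- collection in `M` -/
theorem coll_mem (M : Set V) [IsZ M] (P : V → V → Prop)
    [h : UD (loc M) (fun _ v => P (vr (tl v) 0) (vr v 0))] {a : V} (ha : a ∈ M)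
    (hx : ∀ x ∈ a, ∃ y ∈ M, P x y) : ∃ b ∈ M, ∀ x ∈ a, ∃ y ∈ b, P x y :=
  h.coll_mem (M := M) rfl (v := fun _ => ∅) (fun _ => IsZ.empty_mem M) ha hx

/-- a definable term with parameters in `M` denotes an element of `M` -/
theorem mem_of (M : Set V) [IsZ M] {α} [Enc α] (t : α) [h : UF (loc M) (fun _ _ => t)] :
    enc t ∈ M :=
  h.cl M rfl (fun _ => ∅) (fun _ => IsZ.empty_mem M)

/-- the same for sets -/
theorem memV_of (M : Set V) [IsZ M] (t : V) [UF (loc M) (fun _ _ => t)] : t ∈ M := mem_of M t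

instance UF.sep {a : Set V → (ℕ → V) → V} {P : Set V → (ℕ → V) → V → Prop} [ha : UF F a]
    [h : UD F (fun M v => P M (tl v) (W.vr v 0))] :
    UF F (fun M v => ZFSet.sep (P M v) (a M v)) := by
  haveI := UF.lift (F := F) a
  haveI : ∀ (g : Set V → (ℕ → V) → (ℕ → V)) (b : Set V → (ℕ → V) → V) [UV F g] [UF F b],
      UD F (fun M v => P M (g M v) (b M v)) := fun g b _ _ =>
    UD.lift (fun M v => P M (tl v) (W.vr v 0)) (fun M v => cons (b M v) (g M v))
  refine UF.of_graph (fun M v y => (∀ x ∈ y, x ∈ a M v ∧ P M v x) ∧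
      ∀ x ∈ a M v, P M v x → x ∈ y) (fun M hM v hv => ?_) (fun M hM v hv y _ => ?_)
  · exact h.sep_mem hM hv (ha.cl M hM v hv)
  · simp only [enc_V, ZFSet.ext_iff, mem_sep]
    constructor
    · intro e; exact ⟨fun x hx => (e x).1 hx, fun x hx hp => (e x).2 ⟨hx, hp⟩⟩
    · rintro ⟨h1, h2⟩ x; exact ⟨h1 x, fun ⟨hx, hp⟩ => h2 x hx hp⟩

/-! ### elementary maps -/

/-- `j` is an elementary map from `(M, ∈)` to `(M', ∈)` -/
def Elem (j : V → V) (M M' : Set V) : Prop :=
  (∀ x ∈ M, j x ∈ M') ∧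
    ∀ (φ : Fo) (v : ℕ → V), (∀ i, v i ∈ M) → (Sat1 M φ v ↔ Sat1 M' φ (j ∘ v))

/-- action of a map on coded objects -/
def jm {α} [Enc α] (j : V → V) (a : α) : α := dec (j (enc a))
@[simp] theorem jm_V (j : V → V) (a : V) : jm j a = j a := rfl

theorem Elem.map_empty {j : V → V} {M M' : Set V} [IsZ M] [h' : IsZ M'] (h : Elem j M M') :
    j ∅ = ∅ := by
  have := (h.2 (.neg (.ex (.mem 0 1))) (fun _ => ∅) (fun _ => IsZ.empty_mem M)).1
    (by simp [Sat1])
  simp only [Sat1, cons_zero, cons_succ, Function.comp, not_exists, not_and] at this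
  exact (ZFSet.eq_empty _).2 fun y hy =>
    this y (h'.trans _ (h.1 _ (IsZ.empty_mem M)) _ hy) hy

/-- transfer of a parameter-free uniformly definable predicate -/
theorem Elem.ud {j : V → V} {M M' : Set V} (h : Elem j M M') (hC : F.C = {∅}) (hM : F.K M)
    (hM' : F.K M') (P : Set V → (ℕ → V) → Prop) [hP : UD F P] {v : ℕ → V} (hv : ∀ i, v i ∈ M) :
    P M v ↔ P M' (j ∘ v) := by
  obtain ⟨φ, c, hc, H⟩ := hP.out
  haveI := F.hZ M hM; haveI := F.hZ M' hM'
  have hc0 : ∀ i, c i = ∅ := fun i => by have := hc i; rw [hC] at this; exact this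
  rw [H M hM v hv, H M' hM' (j ∘ v) (fun i => h.1 _ (hv i)),
    h.2 φ _ (mrg_mem hv fun i => F.hC M hM (hc i))]
  apply iff_of_eq; congr 1; funext n
  simp only [mrg, Function.comp]; split_ifs
  · rfl
  · rw [hc0, h.map_empty]

/-- transfer of a parameter-free uniformly definable function -/
theorem Elem.uf {α} [Enc α] {j : V → V} {M M' : Set V} (h : Elem j M M') (hC : F.C = {∅})
    (hM : F.K M) (hM' : F.K M') (f : Set V → (ℕ → V) → α) [hf : UF F f] {v : ℕ → V}
    (hv : ∀ i, v i ∈ M) : j (enc (f M v)) = enc (f M' (j ∘ v)) := by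
  haveI := hf.gr
  have := (h.ud hC hM hM' (fun M v => vr v 0 = enc (f M (tl v)))
    (cons_mem (hf.cl M hM v hv) hv)).1 rfl
  rw [comp_cons] at this; exact this

end Pool.Agent.Lib.MP_f9eb18_lc.W
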