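import Pool.Agent.Lib.MP_f9eb18_lc.W.Z0

/-! # Basic set operations and their definability -/

namespace Pool.Agent.Lib.MP_f9eb18_lc.W

open Ordinal ZFSet
set_option linter.style.haveILetI false
set_option linter.unusedVariables false
set_option synthInstance.maxSize 100000

variable {F : Fr}

section ops
variable {a b c : Set V → (ℕ → V) → V}

instance UF.empty : UF F (fun _ _ => (∅ : V)) :=
  ⟨fun M hM _ _ => haveI := F.hZ M hM; IsZ.empty_mem M, UD.par F.h0⟩

instance UF.upair [ha : UF F a] [hb : UF F b] : UF F (fun M v => ({a M v, b M v} : V)) := by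
  have := UF.lift (F := F) a; have := UF.lift (F := F) b
  refine UF.of_graph (fun M v y => a M v ∈ y ∧ b M v ∈ y ∧ ∀ x ∈ y, x = a M v ∨ x = b M v)
    (fun M hM v hv => (F.hZ M hM).upair _ (ha.cl M hM v hv) _ (hb.cl M hM v hv))
    (fun M hM v hv y _ => ?_)
  simp only [enc_V, ZFSet.ext_iff (x := y), mem_pair]
  constructor
  · intro e; exact ⟨(e _).2 (Or.inl rfl), (e _).2 (Or.inr rfl), fun x hx => (e x).1 hx⟩
  · rintro ⟨h1, h2, h3⟩ x; exact ⟨h3 x, fun h => by rcases h with rfl | rfl <;> assumption⟩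

instance UF.singleton [UF F a] : UF F (fun M v => ({a M v} : V)) :=
  (inferInstance : UF F (fun M v => ({a M v, a M v} : V))).congr fun _ _ _ _ => by simp

instance UF.sUnion [ha : UF F a] : UF F (fun M v => (⋃₀ (a M v) : V)) := by
  have := UF.lift (F := F) a
  refine UF.of_graph (fun M v y => (∀ x ∈ y, ∃ z ∈ a M v, x ∈ z) ∧ ∀ z ∈ a M v, z ⊆ y)
    (fun M hM v hv => (F.hZ M hM).sUnion _ (ha.cl M hM v hv)) (fun M hM v hv y _ => ?_)
  simp only [enc_V, ZFSet.ext_iff (x := y), mem_sUnion]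
  constructor
  · intro e; exact ⟨fun x hx => (e x).1 hx, fun z hz x hx => (e x).2 ⟨z, hz, hx⟩⟩
  · rintro ⟨h1, h2⟩ x; exact ⟨h1 x, fun ⟨z, hz, hx⟩ => h2 z hz hx⟩

instance UF.union [UF F a] [UF F b] : UF F (fun M v => a M v ∪ b M v) :=
  (inferInstance : UF F (fun M v => (⋃₀ ({a M v, b M v} : V) : V)))

instance (priority := low) UF.insert [UF F a] [UF F b] :
    UF F (fun M v => insert (a M v) (b M v)) :=
  (inferInstance : UF F (fun M v => ({a M v} : V) ∪ b M v)).congr fun _ _ _ _ => insert_eq _ _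

instance UF.inter [UF F a] [UF F b] : UF F (fun M v => a M v ∩ b M v) :=
  haveI := UF.lift (F := F) b
  (inferInstance : UF F (fun M v => ZFSet.sep (fun x => x ∈ b M v) (a M v)))

instance UF.diff [UF F a] [UF F b] : UF F (fun M v => a M v \ b M v) :=
  haveI := UF.lift (F := F) b
  (inferInstance : UF F (fun M v => ZFSet.sep (fun x => x ∉ b M v) (a M v)))

instance UF.pair [UF F a] [UF F b] : UF F (fun M v => pair (a M v) (b M v)) :=
  (inferInstance : UF F (fun M v => ({{a M v}, {a M v, b M v}} : V)))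

end ops

/-- first coordinate of an ordered pair -/
noncomputable def fst (p : V) : V := ⋃₀ (ZFSet.sep (fun x => ∀ y ∈ p, x ∈ y) (⋃₀ p))
/-- second coordinate of an ordered pair -/
noncomputable def snd (p : V) : V :=
  ⋃₀ (ZFSet.sep (fun x => ∀ y ∈ p, ∀ z ∈ p, x ∈ y → x ∈ z → y = z) (⋃₀ p))

@[simp] theorem fst_pair (x y : V) : fst (pair x y) = x := by
  have : ZFSet.sep (fun u => ∀ z ∈ pair x y, u ∈ z) (⋃₀ pair x y) = {x} := by
    ext u; simp only [pair, mem_sep, mem_sUnion, mem_pair, mem_singleton]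
    constructor
    · rintro ⟨_, h⟩; simpa using h {x} (Or.inl rfl)
    · rintro rfl
      exact ⟨⟨_, Or.inl rfl, by simp⟩, fun z hz => by rcases hz with rfl | rfl <;> simp⟩
  rw [fst, this, sUnion_singleton]

@[simp] theorem snd_pair (x y : V) : snd (pair x y) = y := by
  have : ZFSet.sep (fun u => ∀ w ∈ pair x y, ∀ z ∈ pair x y, u ∈ w → u ∈ z → w = z)
      (⋃₀ pair x y) = {y} := by
    ext u; simp only [pair, mem_sep, mem_sUnion, mem_pair, mem_singleton]
    constructor
    · rintro ⟨⟨w, hw, hu⟩, h⟩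
      by_cases hux : u = x
      · subst hux
        have := h {u} (Or.inl rfl) {u, y} (Or.inr rfl) (by simp) (by simp)
        exact (singleton_eq_pair_iff.1 this).2
      · rcases hw with rfl | rfl
        · exact absurd (mem_singleton.1 hu) hux
        · exact (mem_pair.1 hu).resolve_left hux
    · rintro rfl
      refine ⟨⟨_, Or.inr rfl, by simp⟩, fun w hw z hz h1 h2 => ?_⟩
      rcases hw with rfl | rfl <;> rcases hz with rfl | rfl
      · rfl
      · rw [mem_singleton.1 h1]; simp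
      · rw [mem_singleton.1 h2]; simp
      · rfl
  rw [snd, this, sUnion_singleton]

/-- the image `{f x | x ∈ a}` -/
noncomputable def img (f : V → V) (a : V) : V := ZFSet.range fun x : ↥a => f x.1
@[simp] theorem mem_img {f : V → V} {a y : V} : y ∈ img f a ↔ ∃ x ∈ a, f x = y := by
  simp [img]
/-- `⋃_{x ∈ a} f x` -/
noncomputable def bU (a : V) (f : V → V) : V := ⋃₀ (img f a)
@[simp] theorem mem_bU {f : V → V} {a y : V} : y ∈ bU a f ↔ ∃ x ∈ a, y ∈ f x := by
  simp [bU]
/-- the function `x ↦ f x` on `a`, as a set -/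
noncomputable def lam (a : V) (f : V → V) : V := img (fun x => pair x (f x)) a
theorem mem_lam {f : V → V} {a p : V} : p ∈ lam a f ↔ ∃ x ∈ a, pair x (f x) = p := by
  simp [lam]
@[simp] theorem pair_mem_lam {f : V → V} {a x y : V} : pair x y ∈ lam a f ↔ x ∈ a ∧ y = f x := by
  rw [mem_lam]
  constructor
  · rintro ⟨u, hu, e⟩; obtain ⟨rfl, rfl⟩ := pair_inj.1 e; exact ⟨hu, rfl⟩
  · rintro ⟨hx, rfl⟩; exact ⟨x, hx, rfl⟩

theorem mem_UU_left {x y f : V} (h : pair x y ∈ f) : x ∈ (⋃₀ (⋃₀ f) : V) :=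
  mem_sUnion.2 ⟨{x}, mem_sUnion.2 ⟨_, h, by simp [pair]⟩, by simp⟩
theorem mem_UU_right {x y f : V} (h : pair x y ∈ f) : y ∈ (⋃₀ (⋃₀ f) : V) :=
  mem_sUnion.2 ⟨{x, y}, mem_sUnion.2 ⟨_, h, by simp [pair]⟩, by simp⟩

noncomputable def dom (f : V) : V := ZFSet.sep (fun x => ∃ y ∈ (⋃₀ (⋃₀ f) : V), pair x y ∈ f) (⋃₀ (⋃₀ f))
noncomputable def ran (f : V) : V := ZFSet.sep (fun y => ∃ x ∈ (⋃₀ (⋃₀ f) : V), pair x y ∈ f) (⋃₀ (⋃₀ f))
theorem mem_dom {f x : V} : x ∈ dom f ↔ ∃ y, pair x y ∈ f := by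
  rw [dom, mem_sep]
  exact ⟨fun ⟨_, y, _, h⟩ => ⟨y, h⟩, fun ⟨y, h⟩ => ⟨mem_UU_left h, y, mem_UU_right h, h⟩⟩
theorem mem_ran {f y : V} : y ∈ ran f ↔ ∃ x, pair x y ∈ f := by
  rw [ran, mem_sep]
  exact ⟨fun ⟨_, x, _, h⟩ => ⟨x, h⟩, fun ⟨x, h⟩ => ⟨mem_UU_right h, x, mem_UU_left h, h⟩⟩
/-- value of a set-coded function -/
noncomputable def app (f x : V) : V := ⋃₀ (ZFSet.sep (fun y => pair x y ∈ f) (ran f))
/-- `f` is a set of pairs that is functional -/
def IsFn (f : V) : Prop :=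
  (∀ p ∈ f, p = pair (fst p) (snd p)) ∧ ∀ x y y', pair x y ∈ f → pair x y' ∈ f → y = y'
theorem app_eq_of_unique {f x y : V} (h : pair x y ∈ f) (hu : ∀ y', pair x y' ∈ f → y' = y) :
    app f x = y := by
  have : ZFSet.sep (fun y => pair x y ∈ f) (ran f) = {y} := by
    ext u; simp only [mem_sep, mem_singleton]
    exact ⟨fun hh => hu u hh.2, fun e => e ▸ ⟨mem_ran.2 ⟨x, h⟩, h⟩⟩
  rw [app, this, sUnion_singleton]
theorem IsFn.app_eq {f x y : V} (hf : IsFn f) (h : pair x y ∈ f) : app f x = y :=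
  app_eq_of_unique h fun y' h' => hf.2 x y' y h' h
theorem IsFn.pair_app_mem {f x : V} (hf : IsFn f) (h : x ∈ dom f) : pair x (app f x) ∈ f := by
  obtain ⟨y, hy⟩ := mem_dom.1 h; rw [hf.app_eq hy]; exact hy
theorem app_of_not_mem_dom {f x : V} (h : x ∉ dom f) : app f x = ∅ := by
  rw [app, ZFSet.eq_empty]; intro y hy
  obtain ⟨z, hz, _⟩ := mem_sUnion.1 hy
  exact h (mem_dom.2 ⟨z, (mem_sep.1 hz).2⟩)
theorem isFn_lam (a : V) (f : V → V) : IsFn (lam a f) :=
  ⟨fun p hp => by obtain ⟨x, _, rfl⟩ := mem_lam.1 hp; simp,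
    fun x y y' h h' => by rw [(pair_mem_lam.1 h).2, (pair_mem_lam.1 h').2]⟩
@[simp] theorem dom_lam (a : V) (f : V → V) : dom (lam a f) = a := by
  ext x; simp [mem_dom]
theorem app_lam {a x : V} (f : V → V) (h : x ∈ a) : app (lam a f) x = f x :=
  (isFn_lam a f).app_eq (pair_mem_lam.2 ⟨h, rfl⟩)
theorem IsFn.eq_lam {f : V} (hf : IsFn f) : f = lam (dom f) (app f) := by
  ext p; rw [mem_lam]
  constructor
  · intro hp
    have h1 := hf.1 p hp
    have h2 : pair (fst p) (snd p) ∈ f := h1 ▸ hp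
    exact ⟨fst p, mem_dom.2 ⟨_, h2⟩, by rw [hf.app_eq h2]; exact h1.symm⟩
  · rintro ⟨x, hx, rfl⟩; exact hf.pair_app_mem hx
theorem IsFn.ext {f g : V} (hf : IsFn f) (hg : IsFn g) (hd : dom f = dom g)
    (h : ∀ x ∈ dom f, app f x = app g x) : f = g := by
  rw [hf.eq_lam, hg.eq_lam, ← hd]; ext p; simp only [mem_lam]
  exact exists_congr fun x => and_congr_right fun hx => by rw [h x hx]
theorem isFunc_iff {a b f : V} : IsFunc a b f ↔ IsFn f ∧ dom f = a ∧ ∀ x ∈ a, app f x ∈ b := by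
  constructor
  · rintro ⟨h1, h2⟩
    have hf : IsFn f := ⟨fun p hp => by
        obtain ⟨x, _, y, _, rfl⟩ := mem_prod.1 (h1 hp); simp,
      fun x y y' h h' => (h2 x (pair_mem_prod.1 (h1 h)).1).unique h h'⟩
    have hd : dom f = a := by
      ext x; rw [mem_dom]
      exact ⟨fun ⟨y, hy⟩ => (pair_mem_prod.1 (h1 hy)).1, fun hx => (h2 x hx).exists⟩
    exact ⟨hf, hd, fun x hx => (pair_mem_prod.1 (h1 (hf.pair_app_mem (hd ▸ hx)))).2⟩
  · rintro ⟨hf, rfl, h⟩
    refine ⟨fun p hp => ?_, fun x hx => ⟨_, hf.pair_app_mem hx, fun y hy => (hf.app_eq hy).symm⟩⟩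
    have h1 := hf.1 p hp
    have h2 : pair (fst p) (snd p) ∈ f := h1 ▸ hp
    rw [h1, pair_mem_prod]
    have h3 := mem_dom.2 ⟨_, h2⟩
    exact ⟨h3, hf.app_eq h2 ▸ h _ h3⟩
theorem isFunc_lam {a b : V} {f : V → V} (h : ∀ x ∈ a, f x ∈ b) : IsFunc a b (lam a f) :=
  isFunc_iff.2 ⟨isFn_lam a f, dom_lam a f, fun x hx => by rw [app_lam f hx]; exact h x hx⟩

/-- restriction of a relation to first coordinates in `a` -/
noncomputable def restr (f a : V) : V := ZFSet.sep (fun p => fst p ∈ a) f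
@[simp] theorem pair_mem_restr {f a x y : V} : pair x y ∈ restr f a ↔ pair x y ∈ f ∧ x ∈ a := by
  simp [restr]
/-- the relation `{(x, y) ∈ a × b | P x y}` -/
noncomputable def rel (a b : V) (P : V → V → Prop) : V :=
  ZFSet.sep (fun p => P (fst p) (snd p)) (prod a b)
@[simp] theorem pair_mem_rel {a b x y : V} {P : V → V → Prop} :
    pair x y ∈ rel a b P ↔ x ∈ a ∧ y ∈ b ∧ P x y := by
  simp [rel, and_assoc]
theorem mem_rel {a b p : V} {P : V → V → Prop} :
    p ∈ rel a b P ↔ ∃ x ∈ a, ∃ y ∈ b, p = pair x y ∧ P x y := by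
  simp only [rel, mem_sep, mem_prod]
  constructor
  · rintro ⟨⟨x, hx, y, hy, rfl⟩, h⟩; exact ⟨x, hx, y, hy, rfl, by simpa using h⟩
  · rintro ⟨x, hx, y, hy, rfl, h⟩; exact ⟨⟨x, hx, y, hy, rfl⟩, by simpa using h⟩
/-- composition `g ∘ f` on the domain of `f` -/
noncomputable def comp (g f : V) : V := lam (dom f) (fun x => app g (app f x))
/-- field of a relation -/
noncomputable def fld (w : V) : V := dom w ∪ ran w
/-- the converse relation -/
noncomputable def inv (f : V) : V := img (fun p => pair (snd p) (fst p)) f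

section ops2
variable {a b c : Set V → (ℕ → V) → V}

instance UF.fst [UF F a] : UF F (fun M v => fst (a M v)) := by
  have := UF.lift (F := F) a; unfold W.fst; infer_instance
instance UF.snd [UF F a] : UF F (fun M v => snd (a M v)) := by
  have := UF.lift (F := F) a; unfold W.snd; infer_instance

instance UF.img {f : Set V → (ℕ → V) → V → V} [ha : UF F a]
    [hf : UF F (fun M v => f M (tl v) (W.vr v 0))] : UF F (fun M v => img (f M v) (a M v)) := by
  have := UF.lift (F := F) a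
  have : ∀ (g : Set V → (ℕ → V) → (ℕ → V)) (b : Set V → (ℕ → V) → V) [UV F g] [UF F b],
      UF F (fun M v => f M (g M v) (b M v)) := fun g b _ _ =>
    UF.lift (fun M v => f M (tl v) (W.vr v 0)) (fun M v => cons (b M v) (g M v))
  refine UF.of_graph (fun M v y => (∀ z ∈ y, ∃ x ∈ a M v, f M v x = z) ∧
      ∀ x ∈ a M v, f M v x ∈ y) (fun M hM v hv => ?_) (fun M hM v hv y _ => ?_)
  · have hZ := F.hZ M hM
    obtain ⟨b, hb, H⟩ := (inferInstance : UD F (fun M v => W.vr v 0 =
      f M (tl (tl v)) (W.vr (tl v) 0))).coll_mem hM hv (ha.cl M hM v hv) fun x hx =>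
        ⟨f M v x, hf.cl M hM _ (cons_mem (hZ.trans _ (ha.cl M hM v hv) _ hx) hv), rfl⟩
    have := (inferInstance : UD F (fun M v => ∃ x ∈ a M (tl v), f M (tl v) x =
      W.vr v 0)).sep_mem hM hv hb
    convert this using 1
    ext y; simp only [enc_V, mem_img, mem_sep, tl_cons, vr_cons_zero]
    refine ⟨fun ⟨x, hx, e⟩ => ⟨?_, x, hx, e⟩, fun h => h.2⟩
    obtain ⟨z, hz, e'⟩ := H x hx
    simp only [tl_cons, vr_cons_zero] at e'
    rw [← e, ← e']; exact hz
  · simp only [enc_V, ZFSet.ext_iff (x := y), mem_img]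
    constructor
    · intro e; exact ⟨fun x hx => (e x).1 hx, fun x hx => (e _).2 ⟨x, hx, rfl⟩⟩
    · rintro ⟨h1, h2⟩ x; exact ⟨h1 x, fun ⟨z, hz, e⟩ => e ▸ h2 z hz⟩

instance UF.bU {f : Set V → (ℕ → V) → V → V} [UF F a]
    [UF F (fun M v => f M (tl v) (W.vr v 0))] : UF F (fun M v => bU (a M v) (f M v)) := by
  unfold W.bU; infer_instance
instance UF.lam {f : Set V → (ℕ → V) → V → V} [UF F a]
    [UF F (fun M v => f M (tl v) (W.vr v 0))] : UF F (fun M v => lam (a M v) (f M v)) := by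
  unfold W.lam; infer_instance
instance UF.prod [UF F a] [UF F b] : UF F (fun M v => prod (a M v) (b M v)) :=
  haveI := UF.lift (F := F) b
  (inferInstance : UF F (fun M v => W.bU (a M v) fun x => W.img (fun y => ZFSet.pair x y) (b M v))).congr
    fun _ _ _ _ => by ext p; simp [mem_prod, eq_comm]
instance UF.dom [UF F a] : UF F (fun M v => dom (a M v)) := by
  have := UF.lift (F := F) a; unfold W.dom; infer_instance
instance UF.ran [UF F a] : UF F (fun M v => ran (a M v)) := by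
  have := UF.lift (F := F) a; unfold W.ran; infer_instance
instance UF.app [UF F a] [UF F b] : UF F (fun M v => app (a M v) (b M v)) := by
  have := UF.lift (F := F) a; have := UF.lift (F := F) b; unfold W.app; infer_instance
instance UF.restr [UF F a] [UF F b] : UF F (fun M v => restr (a M v) (b M v)) := by
  have := UF.lift (F := F) b; unfold W.restr; infer_instance
instance UF.rel {P : Set V → (ℕ → V) → V → V → Prop} [UF F a] [UF F b]
    [UD F (fun M v => P M (tl v) (W.fst (W.vr v 0)) (W.snd (W.vr v 0)))] :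
    UF F (fun M v => rel (a M v) (b M v) (P M v)) := by
  unfold W.rel; infer_instance
instance UF.comp [UF F a] [UF F b] : UF F (fun M v => comp (a M v) (b M v)) := by
  have := UF.lift (F := F) a; have := UF.lift (F := F) b; unfold W.comp; infer_instance
instance UF.fld [UF F a] : UF F (fun M v => fld (a M v)) := by unfold W.fld; infer_instance
instance UF.inv [UF F a] : UF F (fun M v => inv (a M v)) := by unfold W.inv; infer_instance

/-! quantifiers over the pairs in a set -/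
instance UD.allPair {P : Set V → (ℕ → V) → V → V → Prop} [UF F a]
    [UD F (fun M v => P M (tl v) (W.fst (W.vr v 0)) (W.snd (W.vr v 0)))] :
    UD F (fun M v => ∀ x y, pair x y ∈ a M v → P M v x y) :=
  (inferInstance : UD F (fun M v => ∀ p ∈ a M v, p = pair (W.fst p) (W.snd p) →
    P M v (W.fst p) (W.snd p))).congr fun _ _ _ _ =>
    ⟨fun h p hp e => h _ _ (e ▸ hp), fun h x y hp => by simpa using h _ hp⟩
instance UD.exPair {P : Set V → (ℕ → V) → V → V → Prop} [UF F a]
    [UD F (fun M v => P M (tl v) (W.fst (W.vr v 0)) (W.snd (W.vr v 0)))] :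
    UD F (fun M v => ∃ x y, pair x y ∈ a M v ∧ P M v x y) :=
  (inferInstance : UD F (fun M v => ¬ ∀ x y, pair x y ∈ a M v → ¬ P M v x y)).congr
    fun _ _ _ _ => by simp
instance UD.allSnd {P : Set V → (ℕ → V) → V → Prop} [UF F a] [UF F b]
    [UD F (fun M v => P M (tl v) (W.vr v 0))] :
    UD F (fun M v => ∀ y, pair (b M v) y ∈ a M v → P M v y) :=
  haveI := UF.lift (F := F) a; haveI := UF.lift (F := F) b
  (inferInstance : UD F (fun M v => ∀ y ∈ W.ran (a M v), pair (b M v) y ∈ a M v →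
    P M v y)).congr fun _ _ _ _ =>
    ⟨fun h y _ hp => h y hp, fun h y hp => h y (mem_ran.2 ⟨_, hp⟩) hp⟩
instance UD.exSnd {P : Set V → (ℕ → V) → V → Prop} [UF F a] [UF F b]
    [UD F (fun M v => P M (tl v) (W.vr v 0))] :
    UD F (fun M v => ∃ y, pair (b M v) y ∈ a M v ∧ P M v y) :=
  (inferInstance : UD F (fun M v => ¬ ∀ y, pair (b M v) y ∈ a M v → ¬ P M v y)).congr
    fun _ _ _ _ => by simp
instance UD.allFst {P : Set V → (ℕ → V) → V → Prop} [UF F a] [UF F b]
    [UD F (fun M v => P M (tl v) (W.vr v 0))] :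
    UD F (fun M v => ∀ x, pair x (b M v) ∈ a M v → P M v x) :=
  haveI := UF.lift (F := F) a; haveI := UF.lift (F := F) b
  (inferInstance : UD F (fun M v => ∀ x ∈ W.dom (a M v), pair x (b M v) ∈ a M v →
    P M v x)).congr fun _ _ _ _ =>
    ⟨fun h y _ hp => h y hp, fun h y hp => h y (mem_dom.2 ⟨_, hp⟩) hp⟩
instance UD.exFst {P : Set V → (ℕ → V) → V → Prop} [UF F a] [UF F b]
    [UD F (fun M v => P M (tl v) (W.vr v 0))] :
    UD F (fun M v => ∃ x, pair x (b M v) ∈ a M v ∧ P M v x) :=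
  (inferInstance : UD F (fun M v => ¬ ∀ x, pair x (b M v) ∈ a M v → ¬ P M v x)).congr
    fun _ _ _ _ => by simp

instance UD.isFn [UF F a] : UD F (fun M v => IsFn (a M v)) :=
  haveI := UF.lift (F := F) a
  (inferInstance : UD F (fun M v => (∀ p ∈ a M v, p = pair (W.fst p) (W.snd p)) ∧
    ∀ x y, pair x y ∈ a M v → ∀ y', pair x y' ∈ a M v → y = y')).congr fun _ _ _ _ =>
    and_congr_right fun _ => ⟨fun h x y h1 y' h2 => h x y y' h1 h2,
      fun h x y y' h1 h2 => h x y h1 y' h2⟩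
instance UD.isFunc [UF F a] [UF F b] [UF F c] :
    UD F (fun M v => IsFunc (a M v) (b M v) (c M v)) :=
  haveI := UF.lift (F := F) b; haveI := UF.lift (F := F) c
  (inferInstance : UD F (fun M v => IsFn (c M v) ∧ W.dom (c M v) = a M v ∧
    ∀ x ∈ a M v, W.app (c M v) x ∈ b M v)).congr fun _ _ _ _ => isFunc_iff
instance UD.isInj [UF F a] [UF F b] [UF F c] :
    UD F (fun M v => IsInj (a M v) (b M v) (c M v)) :=
  haveI := UF.lift (F := F) a
  (inferInstance : UD F (fun M v => IsFunc (b M v) (c M v) (a M v) ∧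
    ∀ x y, pair x y ∈ a M v → ∀ x', pair x' y ∈ a M v → x = x')).congr fun _ _ _ _ =>
    and_congr_right fun _ => ⟨fun h x y h1 x' h2 => h x x' y h1 h2,
      fun h x x' y h1 h2 => h x y h1 x' h2⟩
instance UD.isTransitive [UF F a] : UD F (fun M v => (a M v).IsTransitive) := by
  have := UF.lift (F := F) a; unfold ZFSet.IsTransitive; infer_instance
instance UD.nonempty [UF F a] : UD F (fun M v => (a M v).Nonempty) :=
  (inferInstance : UD F (fun M v => ∃ x ∈ a M v, True)).congr fun _ _ _ _ => by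
    simp [ZFSet.nonempty_def]
end ops2

/-! ### products of coded types -/
noncomputable instance {α β} [Enc α] [Enc β] : Enc (α × β) :=
  ⟨fun p => pair (enc p.1) (enc p.2), fun x => (dec (fst x), dec (snd x)), fun p => by simp⟩
theorem enc_prod {α β} [Enc α] [Enc β] (a : α) (b : β) : enc (a, b) = pair (enc a) (enc b) := rfl
instance UF.mk2 {α β} [Enc α] [Enc β] {a : Set V → (ℕ → V) → α} {b : Set V → (ℕ → V) → β}
    [UF F a] [UF F b] : UF F (fun M v => (a M v, b M v)) :=
  UF.of_enc (inferInstance : UF F (fun M v => ZFSet.pair (W.enc (a M v)) (W.enc (b M v))))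
instance UF.p1 {α β} [Enc α] [Enc β] {p : Set V → (ℕ → V) → α × β} [UF F p] :
    UF F (fun M v => (p M v).1) :=
  UF.of_enc ((inferInstance : UF F (fun M v => W.fst (W.enc (p M v)))).congr
    fun _ _ _ _ => (fst_pair _ _).symm)
instance UF.p2 {α β} [Enc α] [Enc β] {p : Set V → (ℕ → V) → α × β} [UF F p] :
    UF F (fun M v => (p M v).2) :=
  UF.of_enc ((inferInstance : UF F (fun M v => W.snd (W.enc (p M v)))).congr
    fun _ _ _ _ => (snd_pair _ _).symm)
noncomputable instance {α β} [Cd α] [Cd β] : Cd (α × β) :=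
  ⟨fun F => (inferInstance : UF F (fun _ v =>
    ((dec (fst (vr v 0)) : α), (dec (snd (vr v 0)) : β))))⟩

end Pool.Agent.Lib.MP_f9eb18_lc.W
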