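import Pool.Agent.Lib.MP_f9eb18_lc.W.Z1

/-! # Recursion, rank, ordinals, natural numbers -/

namespace Pool.Agent.Lib.MP_f9eb18_lc.W

open Ordinal ZFSet
set_option linter.style.haveILetI false
set_option linter.unusedVariables false
set_option synthInstance.maxSize 100000

variable {F : Fr}

-- JOB A BEGIN
/-- accessibility for the relation `y ∈ pr z` -/
def AccP (pr : V → V) (x : V) : Prop := Acc (fun y z => y ∈ pr z) x

open Classical in
/-- recursion along `y ∈ pr z` (value `∅` at inaccessible points) -/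
noncomputable def grec (pr : V → V) (G : V → V → V) (x : V) : V :=
  if h : AccP pr x then
    Acc.rec (motive := fun _ _ => V)
      (fun x _ ih => G x (ZFSet.range fun y : ↥(pr x) => pair y.1 (ih y.1 y.2))) h
  else ∅

theorem grec_eq {pr : V → V} (G : V → V → V) {x : V} (h : AccP pr x) :
    grec pr G x = G x (lam (pr x) (grec pr G)) := by
  obtain ⟨_, hx⟩ := h
  refine (dif_pos (c := AccP pr x) (Acc.intro x hx)).trans ?_
  refine congrArg (G x) (congrArg ZFSet.range (funext fun y : ↥(pr x) =>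
    congrArg (pair y.1) ?_))
  have h1 : AccP pr y.1 := hx y.1 y.2
  rw [grec, dif_pos h1]

theorem grec_of_not {pr : V → V} (G : V → V → V) {x : V} (h : ¬ AccP pr x) : grec pr G x = ∅ := by
  simp [grec, h]

theorem accP_id (x : V) : AccP (fun z => z) x := mem_wf.apply x

/-- approximations to a recursion -/
def z2aG (pr : V → V) (G : V → V → V) (f : V) : Prop :=
  IsFn f ∧ ∀ z ∈ dom f, pr z ⊆ dom f ∧ app f z = G z (lam (pr z) (app f))

theorem z2a_congr {a : V} {f g : V → V} (h : ∀ x ∈ a, f x = g x) : lam a f = lam a g := by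
  ext p
  simp only [mem_lam]
  exact exists_congr fun x => and_congr_right fun hx => by rw [h x hx]

theorem z2a_val {pr : V → V} {G : V → V → V} {f : V} (h : z2aG pr G f) {z : V} (hz : AccP pr z) :
    z ∈ dom f → app f z = grec pr G z := by
  induction hz with
  | intro z hz ih =>
    intro k
    rw [grec_eq G (Acc.intro z hz), (h.2 z k).2]
    exact congrArg (G z) (z2a_congr fun y hy => ih y hy ((h.2 z k).1 hy))

theorem z2a_lam {pr : V → V} {G : V → V → V} {D : V} (h : ∀ z ∈ D, AccP pr z ∧ pr z ⊆ D) :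
    z2aG pr G (lam D (grec pr G)) := by
  refine ⟨isFn_lam _ _, fun z hz => ?_⟩
  rw [dom_lam] at hz ⊢
  refine ⟨(h z hz).2, ?_⟩
  rw [app_lam _ hz, grec_eq G (h z hz).1]
  exact congrArg (G z) (z2a_congr fun y hy => (app_lam _ ((h z hz).2 hy)).symm)

theorem z2a_acc {pr : V → V} {f : V} (h : z2aG pr (fun _ h => ran h) f) :
    ∀ z ∈ dom f, AccP pr z := by
  have key : ∀ w : V, ∀ z ∈ dom f, app f z = w → AccP pr z := fun w => by
    induction w using ZFSet.inductionOn with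
    | h w ih =>
      intro z hz e
      refine Acc.intro z fun y hy => ih _ ?_ y ((h.2 z hz).1 hy) rfl
      rw [← e, (h.2 z hz).2]
      exact mem_ran.2 ⟨y, pair_mem_lam.2 ⟨hy, rfl⟩⟩
  exact fun z hz => key _ z hz rfl

theorem z2a_ud {pr : Set V → (ℕ → V) → V → V} {G : Set V → (ℕ → V) → V → V → V}
    [UF F (fun M v => pr M (tl v) (vr v 0))]
    [UF F (fun M v => G M (tl (tl v)) (vr (tl v) 0) (vr v 0))] :
    UD F (fun M v => z2aG (pr M (tl v)) (G M (tl v)) (vr v 0)) := by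
  have : ∀ (g : Set V → (ℕ → V) → (ℕ → V)) (b : Set V → (ℕ → V) → V) [UV F g] [UF F b],
      UF F (fun M v => pr M (g M v) (b M v)) := fun g b _ _ =>
    UF.lift (fun M v => pr M (tl v) (vr v 0)) (fun M v => cons (b M v) (g M v))
  have : ∀ (g : Set V → (ℕ → V) → (ℕ → V)) (b c : Set V → (ℕ → V) → V) [UV F g] [UF F b] [UF F c],
      UF F (fun M v => G M (g M v) (b M v) (c M v)) := fun g b c _ _ _ =>
    UF.lift (fun M v => G M (tl (tl v)) (vr (tl v) 0) (vr v 0))
      (fun M v => cons (c M v) (cons (b M v) (g M v)))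
  unfold z2aG
  infer_instance

theorem z2a_ex {pr : Set V → (ℕ → V) → V → V} {G : Set V → (ℕ → V) → V → V → V}
    [hp : UF F (fun M v => pr M (tl v) (vr v 0))]
    [hG : UF F (fun M v => G M (tl (tl v)) (vr (tl v) 0) (vr v 0))]
    (hU : UD F (fun M v => z2aG (pr M (tl v)) (G M (tl v)) (vr v 0) ∧
      ∀ z ∈ dom (vr v 0), AccP (pr M (tl v)) z))
    {M : Set V} (hM : F.K M) {v : ℕ → V} (hv : ∀ i, v i ∈ M) {x : V} (hx : AccP (pr M v) x) :
    x ∈ M → ∃ D : V, x ∈ D ∧ (∀ z ∈ D, AccP (pr M v) z ∧ pr M v z ⊆ D) ∧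
      lam D (grec (pr M v) (G M v)) ∈ M := by
  have hZ := F.hZ M hM
  have hL := UD.lift (F := F) (fun M v => z2aG (pr M (tl v)) (G M (tl v)) (vr v 0) ∧
    ∀ z ∈ dom (vr v 0), AccP (pr M (tl v)) z) (fun _ v => cons (vr v 0) (tl (tl v)))
  have hC := UD.and (h := (inferInstance : UD F (fun _ v => vr (tl v) 0 ∈ dom (vr v 0)))) (k := hL)
  induction hx with
  | intro x hx ih =>
    intro xM
    have pM : pr M v x ∈ M := hp.cl M hM _ (cons_mem xM hv)
    obtain ⟨b, hb, H⟩ := hC.coll_mem hM hv pM fun y hy => by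
      obtain ⟨D, h1, h2, h3⟩ := ih y hy (hZ.trans _ pM _ hy)
      refine ⟨_, h3, ?_, z2a_lam h2, fun z hz => (h2 z ?_).1⟩
      · exact (dom_lam D _).symm ▸ h1
      · exact dom_lam D (grec (pr M v) (G M v)) ▸ hz
    obtain ⟨c, hc, Hc⟩ : ∃ c ∈ M, ∀ f, f ∈ c ↔ f ∈ b ∧ z2aG (pr M v) (G M v) f ∧
        ∀ z ∈ dom f, AccP (pr M v) z := ⟨_, hU.sep_mem hM hv hb, fun f => mem_sep⟩
    have e1 : lam (bU c dom) (grec (pr M v) (G M v)) = ⋃₀ c := by
      ext p
      simp only [mem_lam, mem_bU, mem_sUnion]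
      constructor
      · rintro ⟨z, ⟨f, hf, hz⟩, rfl⟩
        have k := ((Hc f).1 hf).2
        exact ⟨f, hf, z2a_val k.1 (k.2 z hz) hz ▸ k.1.1.pair_app_mem hz⟩
      · rintro ⟨f, hf, hp⟩
        have k := ((Hc f).1 hf).2
        rw [k.1.1.eq_lam, mem_lam] at hp
        obtain ⟨z, hz, rfl⟩ := hp
        exact ⟨z, ⟨f, hf, hz⟩, by rw [z2a_val k.1 (k.2 z hz) hz]⟩
    have e2 : pr M v x ⊆ bU c dom := fun y hy => by
      obtain ⟨f, hf, k⟩ := H y hy
      exact mem_bU.2 ⟨f, (Hc f).2 ⟨hf, k.2⟩, k.1⟩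
    have e3 : lam (pr M v x) (grec (pr M v) (G M v)) = lam (pr M v x) (app (⋃₀ c)) :=
      z2a_congr fun y hy => by rw [← e1, app_lam _ (e2 hy)]
    have e4 : lam (insert x (bU c dom)) (grec (pr M v) (G M v)) =
        insert (pair x (grec (pr M v) (G M v) x)) (⋃₀ c) := by
      rw [← e1]
      ext p
      simp only [mem_lam, mem_insert_iff, exists_eq_or_imp, eq_comm (a := p)]
    haveI : In M c := ⟨hc⟩
    haveI : In M x := ⟨xM⟩
    haveI : In M (pr M v x) := ⟨pM⟩
    haveI : In M (grec (pr M v) (G M v) x) := ⟨by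
      rw [grec_eq _ (Acc.intro x hx), e3]
      exact hG.cl M hM _ (cons_mem (memV_of M (lam (pr M v x) (app (⋃₀ c)))) (cons_mem xM hv))⟩
    refine ⟨insert x (bU c dom), mem_insert _ _, fun z hz => ?_, e4 ▸ memV_of M _⟩
    rcases mem_insert_iff.1 hz with rfl | hz
    · exact ⟨Acc.intro _ hx, fun y hy => mem_insert_of_mem _ (e2 hy)⟩
    · obtain ⟨f, hf, hz⟩ := mem_bU.1 hz
      have k := ((Hc f).1 hf).2
      exact ⟨k.2 z hz, fun y hy => mem_insert_of_mem _ (mem_bU.2 ⟨f, hf, (k.1.2 z hz).1 hy⟩)⟩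

instance ud_accP {pr : Set V → (ℕ → V) → V → V} {a : Set V → (ℕ → V) → V} [UF F a]
    [UF F (fun M v => pr M (tl v) (vr v 0))] : UD F (fun M v => AccP (pr M v) (a M v)) := by
  have := UF.lift (F := F) a
  have hG := z2a_ud (F := F) (pr := pr) (G := fun _ _ _ h => ran h)
  have := UD.lift (F := F) (fun M v => z2aG (pr M (tl v)) (fun _ h => ran h) (vr v 0))
  refine (inferInstance : UD F (fun M v => ∃ f ∈ M, a M v ∈ dom f ∧
    z2aG (pr M v) (fun _ h => ran h) f)).congr fun M hM v hv => ⟨fun h => ?_, ?_⟩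
  · obtain ⟨D, h1, h2, h3⟩ := z2a_ex (F := F) (pr := pr) (G := fun _ _ _ h => ran h)
      (hG.congr fun _ _ _ _ => ⟨fun k => k.1, fun k => ⟨k, z2a_acc k⟩⟩) hM hv h
      (UF.cl (F := F) (f := a) M hM v hv)
    exact ⟨_, h3, by rwa [dom_lam], z2a_lam h2⟩
  · rintro ⟨f, -, h1, h2⟩
    exact z2a_acc h2 _ h1

instance uf_grec {pr : Set V → (ℕ → V) → V → V} {G : Set V → (ℕ → V) → V → V → V}
    {a : Set V → (ℕ → V) → V} [UF F a] [UF F (fun M v => pr M (tl v) (vr v 0))]
    [UF F (fun M v => G M (tl (tl v)) (vr (tl v) 0) (vr v 0))] :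
    UF F (fun M v => grec (pr M v) (G M v) (a M v)) := by
  have := UF.lift (F := F) a
  have : ∀ (g : Set V → (ℕ → V) → (ℕ → V)) (b : Set V → (ℕ → V) → V) [UV F g] [UF F b],
      UF F (fun M v => pr M (g M v) (b M v)) := fun g b _ _ =>
    UF.lift (fun M v => pr M (tl v) (vr v 0)) (fun M v => cons (b M v) (g M v))
  have hG := z2a_ud (F := F) (pr := pr) (G := G)
  have : ∀ (g : Set V → (ℕ → V) → (ℕ → V)) (b : Set V → (ℕ → V) → V) [UV F g] [UF F b],
      UD F (fun M v => z2aG (pr M (g M v)) (G M (g M v)) (b M v)) := fun g b _ _ =>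
    UD.lift (fun M v => z2aG (pr M (tl v)) (G M (tl v)) (vr v 0)) (fun M v => cons (b M v) (g M v))
  have key : ∀ M, F.K M → ∀ v, (∀ i, v i ∈ M) → AccP (pr M v) (a M v) →
      ∃ f ∈ M, a M v ∈ dom f ∧ z2aG (pr M v) (G M v) f := fun M hM v hv h => by
    obtain ⟨D, h1, h2, h3⟩ := z2a_ex (F := F) (pr := pr) (G := G) inferInstance hM hv h
      (UF.cl (F := F) (f := a) M hM v hv)
    exact ⟨_, h3, by rwa [dom_lam], z2a_lam h2⟩
  refine UF.of_graph (fun M v y => (¬ AccP (pr M v) (a M v) ∧ y = ∅) ∨ (AccP (pr M v) (a M v) ∧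
    ∃ f ∈ M, a M v ∈ dom f ∧ z2aG (pr M v) (G M v) f ∧ y = app f (a M v)))
    (fun M hM v hv => ?_) (fun M hM v hv y _ => ?_)
  · haveI := F.hZ M hM
    by_cases h : AccP (pr M v) (a M v)
    · obtain ⟨f, hf, h1, h2⟩ := key M hM v hv h
      haveI : In M f := ⟨hf⟩
      haveI : In M (a M v) := ⟨UF.cl (F := F) (f := a) M hM v hv⟩
      rw [enc_V, ← z2a_val h2 h h1]
      exact memV_of M _
    · rw [enc_V, grec_of_not _ h]
      exact IsZ.empty_mem M
  · rw [enc_V]
    by_cases h : AccP (pr M v) (a M v)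
    · obtain ⟨f, hf, h1, h2⟩ := key M hM v hv h
      refine ⟨fun e => Or.inr ⟨h, f, hf, h1, h2, e.trans (z2a_val h2 h h1).symm⟩, ?_⟩
      rintro (k | ⟨-, f, -, h1, h2, e⟩)
      · exact absurd h k.1
      · exact e.trans (z2a_val h2 h h1)
    · rw [grec_of_not _ h]
      exact ⟨fun e => Or.inl ⟨h, e⟩, fun k => k.elim (·.2) fun k => absurd k.1 h⟩

/-- predecessors of `z` in a set-coded relation -/
noncomputable def preds (R z : V) : V := ZFSet.sep (fun y => pair y z ∈ R) (dom R)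
@[simp] theorem mem_preds {R z y : V} : y ∈ preds R z ↔ pair y z ∈ R := by
  simp only [preds, mem_sep, mem_dom]; exact ⟨fun h => h.2, fun h => ⟨⟨z, h⟩, h⟩⟩
instance uf_preds {a b : Set V → (ℕ → V) → V} [UF F a] [UF F b] :
    UF F (fun M v => preds (a M v) (b M v)) := by
  have := UF.lift (F := F) a; have := UF.lift (F := F) b; unfold preds; infer_instance
/-- a set-coded relation is well-founded -/
def WF (R : V) : Prop := WellFounded (fun y z => pair y z ∈ R)
theorem z2a_preds {R z : V} : AccP (preds R) z ↔ Acc (fun y z => pair y z ∈ R) z := by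
  simp only [AccP, mem_preds]

theorem wf_iff_acc {R : V} : WF R ↔ ∀ z ∈ ran R, AccP (preds R) z := by
  simp only [z2a_preds]
  exact ⟨fun h z _ => h.apply z, fun h => ⟨fun z => Acc.intro z fun y hy =>
    (h z (mem_ran.2 ⟨y, hy⟩)).inv hy⟩⟩
theorem WF.accP {R : V} (h : WF R) (z : V) : AccP (preds R) z :=
  z2a_preds.2 (h.apply z)
instance ud_wf {a : Set V → (ℕ → V) → V} [UF F a] : UD F (fun M v => WF (a M v)) := by
  have := UF.lift (F := F) a
  exact (inferInstance : UD F (fun M v => ∀ z ∈ ran (a M v), AccP (preds (a M v)) z)).congr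
    fun _ _ _ _ => wf_iff_acc

/-! ### ordinals -/
@[reducible] noncomputable instance : Enc Ordinal.{0} := ⟨toZFSet, ZFSet.rank, rank_toZFSet⟩
@[simp] theorem enc_ord (o : Ordinal.{0}) : enc o = o.toZFSet := rfl
@[simp] theorem dec_ord (x : V) : (dec x : Ordinal.{0}) = x.rank := rfl

theorem z2a_rank (x : V) :
    grec (fun z => z) (fun _ h => bU (ran h) fun w => insert w w) x = x.rank.toZFSet := by
  induction x using ZFSet.inductionOn with
  | h x ih =>
    rw [grec_eq _ (accP_id x), z2a_congr ih]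
    ext z
    simp only [mem_bU, mem_ran, pair_mem_lam, mem_toZFSet_iff, ZFSet.lt_rank_iff]
    constructor
    · rintro ⟨_, ⟨y, hy, rfl⟩, hz⟩
      rw [← toZFSet_add_one, mem_toZFSet_iff] at hz
      obtain ⟨o, ho, rfl⟩ := hz
      exact ⟨o, ⟨y, hy, Order.lt_add_one_iff.1 ho⟩, rfl⟩
    · rintro ⟨o, ⟨y, hy, ho⟩, rfl⟩
      refine ⟨_, ⟨y, hy, rfl⟩, ?_⟩
      rw [← toZFSet_add_one, toZFSet_mem_toZFSet_iff]
      exact Order.lt_add_one_iff.2 ho

instance uf_rank {a : Set V → (ℕ → V) → V} [UF F a] : UF F (fun M v => (a M v).rank) :=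
  UF.of_enc ((inferInstance : UF F (fun M v => grec (fun z => z)
    (fun _ h => bU (ran h) fun w => insert w w) (a M v))).congr fun _ _ _ _ => (z2a_rank _).symm)
@[reducible] noncomputable instance : Cd Ordinal.{0} := ⟨fun _ => uf_rank⟩
-- JOB A END

-- JOB B BEGIN
theorem z2b_lam_congr {a : V} {f g : V → V} (h : ∀ x ∈ a, f x = g x) : lam a f = lam a g := by
  ext p; simp only [mem_lam]
  exact exists_congr fun x => and_congr_right fun hx => by rw [h x hx]

theorem z2b_grec (G : V → V → V) (R : Ordinal.{0} → V)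
    (h : ∀ p, G p.toZFSet (lam p.toZFSet fun y => R y.rank) = R p) (p : Ordinal.{0}) :
    grec (fun z => z) G p.toZFSet = R p := by
  induction p using WellFoundedLT.induction with
  | ind p ih =>
    rw [grec_eq G (accP_id _), ← h p]
    congr 1
    refine z2b_lam_congr fun x hx => ?_
    obtain ⟨a, ha, rfl⟩ := mem_toZFSet_iff.1 hx
    rw [ih a ha, rank_toZFSet]

theorem z2b_add (o p : Ordinal.{0}) :
    grec (fun z => z) (fun x f => o.toZFSet ∪ bU x fun y => insert (app f y) (app f y))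
      p.toZFSet = (o + p).toZFSet := by
  refine z2b_grec _ (fun p => (o + p).toZFSet) (fun p => ?_) p
  ext z
  rw [ZFSet.mem_union, mem_bU]
  constructor
  · rintro (h | ⟨y, hy, h⟩)
    · exact toZFSet_monotone le_self_add h
    · rw [app_lam _ hy, ← toZFSet_add_one] at h
      obtain ⟨a, ha, rfl⟩ := mem_toZFSet_iff.1 hy
      rw [rank_toZFSet] at h
      exact toZFSet_monotone (Order.add_one_le_iff.2 (by gcongr)) h
  · intro h
    obtain ⟨a, ha, rfl⟩ := mem_toZFSet_iff.1 h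
    by_cases hp : p = 0
    · rw [hp, add_zero] at h
      exact Or.inl h
    · obtain ⟨d, hd, h1⟩ := (Ordinal.lt_add_iff hp).1 ha
      have h2 := toZFSet_mem_toZFSet_iff.2 hd
      refine Or.inr ⟨_, h2, ?_⟩
      rw [app_lam _ h2, ← toZFSet_add_one, rank_toZFSet, toZFSet_mem_toZFSet_iff]
      exact Order.lt_add_one_iff.2 h1

theorem z2b_mul (o p : Ordinal.{0}) :
    grec (fun z => z) (fun x f => bU x fun y => ((app f y).rank + o).toZFSet) p.toZFSet =
      (o * p).toZFSet := by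
  refine z2b_grec _ (fun p => (o * p).toZFSet) (fun p => ?_) p
  ext z
  rw [mem_bU]
  constructor
  · rintro ⟨y, hy, h⟩
    rw [app_lam _ hy, rank_toZFSet, ← mul_add_one] at h
    obtain ⟨a, ha, rfl⟩ := mem_toZFSet_iff.1 hy
    rw [rank_toZFSet] at h
    exact toZFSet_monotone (mul_le_mul_right (Order.add_one_le_iff.2 ha) o) h
  · intro h
    obtain ⟨a, ha, rfl⟩ := mem_toZFSet_iff.1 h
    obtain ⟨q, hq, r, hr, rfl⟩ := Ordinal.lt_mul_iff.1 ha
    have h2 := toZFSet_mem_toZFSet_iff.2 hq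
    refine ⟨_, h2, ?_⟩
    rw [app_lam _ h2, rank_toZFSet, rank_toZFSet, toZFSet_mem_toZFSet_iff]
    gcongr

theorem z2b_omega_iff (y : V) : y = omegaZ ↔ ∅ ∈ y ∧ (∀ x ∈ y, insert x x ∈ y) ∧
    ∀ x ∈ y, x = ∅ ∨ ∃ z ∈ y, x = insert z z := by
  have h0 : (∅ : V) ∈ omegaZ := by
    rw [← toZFSet_zero]
    exact toZFSet_mem_toZFSet_iff.2 omega0_pos
  have h1 : ∀ x ∈ omegaZ, insert x x ∈ omegaZ := by
    intro x hx
    obtain ⟨a, ha, rfl⟩ := mem_toZFSet_iff.1 hx
    rw [← toZFSet_add_one]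
    exact toZFSet_mem_toZFSet_iff.2 (isSuccLimit_omega0.succ_lt ha)
  constructor
  · rintro rfl
    refine ⟨h0, h1, fun x hx => ?_⟩
    obtain ⟨a, ha, rfl⟩ := mem_toZFSet_iff.1 hx
    obtain ⟨_ | n, rfl⟩ := lt_omega0.1 ha
    · exact Or.inl (by simp)
    · exact Or.inr ⟨_, toZFSet_mem_toZFSet_iff.2 (natCast_lt_omega0 n), by
        rw [Nat.cast_succ, toZFSet_add_one]⟩
  · rintro ⟨k0, k1, k2⟩
    ext x
    constructor
    · induction x using ZFSet.inductionOn with
      | h x ih =>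
        intro hx
        rcases k2 x hx with rfl | ⟨z, hz, rfl⟩
        · exact h0
        · exact h1 z (ih z (ZFSet.mem_insert _ _) hz)
    · intro hx
      obtain ⟨a, ha, rfl⟩ := mem_toZFSet_iff.1 hx
      obtain ⟨n, rfl⟩ := lt_omega0.1 ha
      clear hx ha
      induction n with
      | zero => simpa using k0
      | succ n ih =>
        rw [Nat.cast_succ, toZFSet_add_one]
        exact k1 _ ih

theorem z2b_omega : UF F (fun _ _ => omegaZ) :=
  UF.of_graph (fun _ _ y => ∅ ∈ y ∧ (∀ x ∈ y, insert x x ∈ y) ∧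
    ∀ x ∈ y, x = ∅ ∨ ∃ z ∈ y, x = insert z z) (fun M hM _ _ => (F.hZ M hM).omega)
    fun _ _ _ _ y _ => z2b_omega_iff y

section ord
variable {o p : Set V → (ℕ → V) → Ordinal.{0}}
instance uf_toZFSet [h : UF F o] : UF F (fun M v => (o M v).toZFSet) := ⟨h.cl, h.gr⟩
instance ud_olt [UF F o] [UF F p] : UD F (fun M v => o M v < p M v) :=
  (inferInstance : UD F (fun M v => (o M v).toZFSet ∈ (p M v).toZFSet)).congr
    fun _ _ _ _ => toZFSet_mem_toZFSet_iff.symm
instance ud_ole [UF F o] [UF F p] : UD F (fun M v => o M v ≤ p M v) :=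
  (inferInstance : UD F (fun M v => ¬ p M v < o M v)).congr fun _ _ _ _ => not_lt.symm
theorem z2b_succ [UF F o] : UF F (fun M v => o M v + 1) :=
  UF.of_enc ((inferInstance : UF F (fun M v => insert (o M v).toZFSet (o M v).toZFSet)).congr
    fun _ _ _ _ => toZFSet_add_one _)
theorem z2b_nat (n : ℕ) : UF F (fun _ _ => (n : Ordinal.{0})) := by
  induction n with
  | zero => exact UF.of_enc (UF.empty.congr fun _ _ _ _ => by simp)
  | succ n ih => exact (z2b_succ (o := fun _ _ => n)).congr fun _ _ _ _ => Nat.cast_succ n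
instance uf_ozero : UF F (fun _ _ => (0 : Ordinal.{0})) :=
  (z2b_nat 0).congr fun _ _ _ _ => Nat.cast_zero.symm
instance uf_oone : UF F (fun _ _ => (1 : Ordinal.{0})) :=
  (z2b_nat 1).congr fun _ _ _ _ => Nat.cast_one.symm
instance uf_oomega : UF F (fun _ _ => (ω : Ordinal.{0})) := UF.of_enc z2b_omega
instance uf_omegaZ : UF F (fun _ _ => omegaZ) := z2b_omega
instance uf_oofNat (n : ℕ) [n.AtLeastTwo] :
    UF F (fun _ _ => (OfNat.ofNat n : Ordinal.{0})) := z2b_nat n
instance uf_osucc [UF F o] : UF F (fun M v => Order.succ (o M v)) :=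
  z2b_succ.congr fun _ _ _ _ => Order.succ_eq_add_one _
instance uf_oadd [UF F o] [UF F p] : UF F (fun M v => o M v + p M v) := by
  have := UF.lift (F := F) o
  exact UF.of_enc ((inferInstance : UF F (fun M v => grec (fun z => z)
    (fun x f => (o M v).toZFSet ∪ bU x fun y => insert (app f y) (app f y))
      (p M v).toZFSet)).congr fun _ _ _ _ => (z2b_add _ _).symm)
instance uf_omul [UF F o] [UF F p] : UF F (fun M v => o M v * p M v) := by
  have := UF.lift (F := F) o
  exact UF.of_enc ((inferInstance : UF F (fun M v => grec (fun z => z)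
    (fun x f => bU x fun y => ((app f y).rank + o M v).toZFSet) (p M v).toZFSet)).congr
      fun _ _ _ _ => (z2b_mul _ _).symm)
instance uf_omax [UF F o] [UF F p] : UF F (fun M v => max (o M v) (p M v)) :=
  (inferInstance : UF F (fun M v => if o M v ≤ p M v then p M v else o M v)).congr
    fun _ _ _ _ => max_def _ _
instance uf_omin [UF F o] [UF F p] : UF F (fun M v => min (o M v) (p M v)) :=
  (inferInstance : UF F (fun M v => if o M v ≤ p M v then o M v else p M v)).congr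
    fun _ _ _ _ => min_def _ _
instance ud_isSuccLimit [UF F o] : UD F (fun M v => Order.IsSuccLimit (o M v)) := by
  have := UF.lift (F := F) o
  refine (inferInstance : UD F (fun M v => o M v ≠ 0 ∧ ∀ x : Ordinal.{0},
    enc x ∈ (o M v).toZFSet → Order.succ (x : Ordinal.{0}) < o M v)).congr fun _ _ _ _ => ?_
  simp only [Ordinal.isSuccLimit_iff, Order.isSuccPrelimit_iff_succ_lt, enc_ord,
    toZFSet_mem_toZFSet_iff]
instance ud_isOrdinal {a : Set V → (ℕ → V) → V} [UF F a] :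
    UD F (fun M v => (a M v).IsOrdinal) :=
  (inferInstance : UD F (fun M v => (a M v).rank.toZFSet = a M v)).congr fun _ _ _ _ =>
    ⟨fun h => h.toZFSet_rank_eq, fun h => h ▸ isOrdinal_toZFSet _⟩

variable {P : Set V → (ℕ → V) → Ordinal.{0} → Prop}
instance ud_exOlt [UF F o] [UD F (fun M v => P M (tl v) (vr v 0).rank)] :
    UD F (fun M v => ∃ x < o M v, P M v x) :=
  (UD.exES (a := fun M v => (o M v).toZFSet) (P := P)).congr fun _ _ _ _ => by
    simp only [enc_ord, toZFSet_mem_toZFSet_iff]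
instance ud_allOlt [UF F o] [UD F (fun M v => P M (tl v) (vr v 0).rank)] :
    UD F (fun M v => ∀ x < o M v, P M v x) :=
  (UD.allES (a := fun M v => (o M v).toZFSet) (P := P)).congr fun _ _ _ _ => by
    simp only [enc_ord, toZFSet_mem_toZFSet_iff]
instance ud_exOle [UF F o] [UD F (fun M v => P M (tl v) (vr v 0).rank)] :
    UD F (fun M v => ∃ x ≤ o M v, P M v x) :=
  (ud_exOlt (o := fun M v => Order.succ (o M v)) (P := P)).congr fun _ _ _ _ => by
    simp only [Order.lt_succ_iff]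
instance ud_allOle [UF F o] [UD F (fun M v => P M (tl v) (vr v 0).rank)] :
    UD F (fun M v => ∀ x ≤ o M v, P M v x) :=
  (ud_allOlt (o := fun M v => Order.succ (o M v)) (P := P)).congr fun _ _ _ _ => by
    simp only [Order.lt_succ_iff]
instance ud_exOC {D : Set V → (ℕ → V) → Set V} [UC F D]
    [UD F (fun M v => P M (tl v) (vr v 0).rank)] :
    UD F (fun M v => ∃ x : Ordinal.{0}, x.toZFSet ∈ D M v ∧ P M v x) := UD.exE
instance ud_allOC {D : Set V → (ℕ → V) → Set V} [UC F D]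
    [UD F (fun M v => P M (tl v) (vr v 0).rank)] :
    UD F (fun M v => ∀ x : Ordinal.{0}, x.toZFSet ∈ D M v → P M v x) := UD.allE
instance ud_exOS {a : Set V → (ℕ → V) → V} [UF F a]
    [UD F (fun M v => P M (tl v) (vr v 0).rank)] :
    UD F (fun M v => ∃ x : Ordinal.{0}, x.toZFSet ∈ a M v ∧ P M v x) := UD.exES
instance ud_allOS {a : Set V → (ℕ → V) → V} [UF F a]
    [UD F (fun M v => P M (tl v) (vr v 0).rank)] :
    UD F (fun M v => ∀ x : Ordinal.{0}, x.toZFSet ∈ a M v → P M v x) := UD.allES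
end ord

/-- the least `x < b` with `P x`, or `b` if there is none -/
noncomputable def olst (b : Ordinal.{0}) (P : Ordinal.{0} → Prop) : Ordinal.{0} :=
  sInf {x | x = b ∨ (x < b ∧ P x)}
theorem olst_le (b : Ordinal.{0}) (P : Ordinal.{0} → Prop) : olst b P ≤ b := csInf_le' (Or.inl rfl)
theorem olst_le_of {b x : Ordinal.{0}} {P : Ordinal.{0} → Prop} (hx : x < b) (h : P x) :
    olst b P ≤ x := csInf_le' (Or.inr ⟨hx, h⟩)
theorem olst_spec {b : Ordinal.{0}} {P : Ordinal.{0} → Prop} (h : olst b P < b) :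
    P (olst b P) :=
  ((csInf_mem (s := {x | x = b ∨ (x < b ∧ P x)}) ⟨b, Or.inl rfl⟩).resolve_left h.ne).2
theorem not_of_lt_olst {b x : Ordinal.{0}} {P : Ordinal.{0} → Prop} (h : x < olst b P) :
    ¬ P x := fun hp => (olst_le_of (h.trans_le (olst_le b P)) hp).not_gt h
theorem z2b_olst (b : Ordinal.{0}) (P : Ordinal.{0} → Prop) :
    (olst b P).toZFSet = ZFSet.sep (fun x => ∀ y ≤ x.rank, ¬ P y) b.toZFSet := by
  ext x
  rw [mem_sep]
  constructor
  · intro h
    obtain ⟨a, ha, rfl⟩ := mem_toZFSet_iff.1 h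
    exact ⟨toZFSet_monotone (olst_le b P) h, fun y hy =>
      not_of_lt_olst ((hy.trans_eq (rank_toZFSet a)).trans_lt ha)⟩
  · rintro ⟨h, h1⟩
    obtain ⟨a, ha, rfl⟩ := mem_toZFSet_iff.1 h
    rw [rank_toZFSet] at h1
    exact toZFSet_mem_toZFSet_iff.2 (not_le.1 fun h2 => h1 _ h2 (olst_spec (h2.trans_lt ha)))
instance uf_olst {o : Set V → (ℕ → V) → Ordinal.{0}} {P : Set V → (ℕ → V) → Ordinal.{0} → Prop}
    [UF F o] [UD F (fun M v => P M (tl v) (vr v 0).rank)] :
    UF F (fun M v => olst (o M v) (P M v)) := by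
  have : ∀ (g : Set V → (ℕ → V) → (ℕ → V)) (b : Set V → (ℕ → V) → V) [UV F g] [UF F b],
      UD F (fun M v => P M (g M v) (b M v).rank) := fun g b _ _ =>
    UD.lift (fun M v => P M (tl v) (vr v 0).rank) (fun M v => cons (b M v) (g M v))
  exact UF.of_enc ((inferInstance : UF F (fun M v =>
    ZFSet.sep (fun x => ∀ y ≤ x.rank, ¬ P M v y) (o M v).toZFSet)).congr
      fun _ _ _ _ => z2b_olst _ _)

/-- `sup {f x | x ∈ a}` -/
noncomputable def osup (a : V) (f : V → Ordinal.{0}) : Ordinal.{0} :=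
  (bU a fun x => (f x).toZFSet).rank
theorem le_osup {a x : V} (f : V → Ordinal.{0}) (hx : x ∈ a) : f x ≤ osup a f :=
  (rank_toZFSet _).ge.trans (rank_mono fun y hy => mem_bU.2 ⟨x, hx, hy⟩)
theorem osup_le_iff {a : V} {f : V → Ordinal.{0}} {o : Ordinal.{0}} :
    osup a f ≤ o ↔ ∀ x ∈ a, f x ≤ o := by
  refine ⟨fun h x hx => (le_osup f hx).trans h, fun h => ZFSet.rank_le_iff.2 fun y hy => ?_⟩
  obtain ⟨x, hx, hy⟩ := mem_bU.1 hy
  exact ((rank_lt_of_mem hy).trans_eq (rank_toZFSet _)).trans_le (h x hx)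
theorem lt_osup_iff {a : V} {f : V → Ordinal.{0}} {o : Ordinal.{0}} :
    o < osup a f ↔ ∃ x ∈ a, o < f x := by
  rw [← not_le, osup_le_iff]
  simp only [not_forall, not_le, exists_prop]
instance uf_osup {a : Set V → (ℕ → V) → V} {f : Set V → (ℕ → V) → V → Ordinal.{0}} [UF F a]
    [UF F (fun M v => f M (tl v) (vr v 0))] : UF F (fun M v => osup (a M v) (f M v)) := by
  unfold osup; infer_instance

/-- the sequence `(f x)_{x < o}` as a set -/
noncomputable def sq {α} [Enc α] (o : Ordinal.{0}) (f : Ordinal.{0} → α) : V :=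
  lam o.toZFSet (fun x => enc (f x.rank))
/-- entry of a set-coded sequence -/
noncomputable def oat {α} [Enc α] (s : V) (o : Ordinal.{0}) : α := dec (app s o.toZFSet)
theorem oat_sq {α} [Enc α] {o x : Ordinal.{0}} (f : Ordinal.{0} → α) (h : x < o) :
    oat (sq o f) x = f x := by
  rw [oat, sq, app_lam _ (toZFSet_mem_toZFSet_iff.2 h), rank_toZFSet, dec_enc]
theorem isFn_sq {α} [Enc α] (o : Ordinal.{0}) (f : Ordinal.{0} → α) : IsFn (sq o f) := isFn_lam _ _
@[simp] theorem dom_sq {α} [Enc α] (o : Ordinal.{0}) (f : Ordinal.{0} → α) :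
    dom (sq o f) = o.toZFSet := dom_lam _ _
theorem sq_congr {α} [Enc α] {o : Ordinal.{0}} {f g : Ordinal.{0} → α} (h : ∀ x < o, f x = g x) :
    sq o f = sq o g :=
  z2b_lam_congr fun y hy => by rw [h _ ((rank_lt_of_mem hy).trans_eq (rank_toZFSet _))]
theorem restr_sq {α} [Enc α] {o x : Ordinal.{0}} (f : Ordinal.{0} → α) (h : x ≤ o) :
    restr (sq o f) x.toZFSet = sq x f := by
  ext p
  simp only [restr, sq, mem_sep, mem_lam]
  constructor
  · rintro ⟨⟨y, -, rfl⟩, hy⟩
    exact ⟨y, by simpa using hy, rfl⟩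
  · rintro ⟨y, hy, rfl⟩
    exact ⟨⟨y, toZFSet_monotone h hy, rfl⟩, by simpa using hy⟩
theorem oat_restr {α} [Enc α] {s : V} {o x : Ordinal.{0}} (h : x < o) :
    (oat (restr s o.toZFSet) x : α) = oat s x := by
  unfold oat app
  congr 2
  ext y
  simp only [mem_sep, mem_ran, pair_mem_restr, toZFSet_mem_toZFSet_iff, h, and_true]
  exact and_congr_left fun hy => ⟨fun _ => ⟨_, hy⟩,
    fun _ => ⟨_, hy, toZFSet_mem_toZFSet_iff.2 h⟩⟩
instance uf_sq {α} [Enc α] {o : Set V → (ℕ → V) → Ordinal.{0}}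
    {f : Set V → (ℕ → V) → Ordinal.{0} → α} [UF F o]
    [UF F (fun M v => f M (tl v) (vr v 0).rank)] : UF F (fun M v => sq (o M v) (f M v)) := by
  unfold sq; infer_instance
instance uf_oat {α} [Cd α] {s : Set V → (ℕ → V) → V} {o : Set V → (ℕ → V) → Ordinal.{0}}
    [UF F s] [UF F o] : UF F (fun M v => (oat (s M v) (o M v) : α)) := by
  unfold oat; infer_instance

/-- transfinite recursion with the history as a set-coded sequence -/
noncomputable def orec {α} [Enc α] (G : Ordinal.{0} → V → α) (o : Ordinal.{0}) : α :=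
  dec (grec (fun z => z) (fun x f => enc (G x.rank f)) o.toZFSet)
theorem orec_eq {α} [Enc α] (G : Ordinal.{0} → V → α) (o : Ordinal.{0}) :
    orec G o = G o (sq o (orec G)) := by
  have e : ∀ p : Ordinal.{0}, grec (fun z => z) (fun x f => enc (G x.rank f)) p.toZFSet =
      enc (orec G p) := fun p => by
    rw [orec, grec_eq _ (accP_id _), dec_enc]
  rw [orec, grec_eq _ (accP_id _), dec_enc, rank_toZFSet, sq]
  congr 1
  refine z2b_lam_congr fun x hx => ?_
  obtain ⟨a, -, rfl⟩ := mem_toZFSet_iff.1 hx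
  rw [e, rank_toZFSet]
instance uf_orec {α} [Cd α] {G : Set V → (ℕ → V) → Ordinal.{0} → V → α}
    {o : Set V → (ℕ → V) → Ordinal.{0}} [UF F o]
    [UF F (fun M v => G M (tl (tl v)) (vr (tl v) 0).rank (vr v 0))] :
    UF F (fun M v => orec (G M v) (o M v)) := by
  unfold orec; infer_instance
-- JOB B END

-- JOB C BEGIN
/-! ### natural numbers -/
open Classical in
noncomputable def natOf (x : V) : ℕ :=
  if h : x.rank < ω then (lt_omega0.1 h).choose else 0
theorem z2c_cast_natOf (x : V) :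
    ((natOf x : ℕ) : Ordinal.{0}) = if x.rank < ω then x.rank else 0 := by
  unfold natOf
  split_ifs with h
  · exact (lt_omega0.1 h).choose_spec.symm
  · exact Nat.cast_zero
@[simp] theorem natOf_natZ (n : ℕ) : natOf (natZ n) = n := by
  refine Nat.cast_injective (R := Ordinal.{0}) ?_
  rw [z2c_cast_natOf, natZ, rank_toZFSet, if_pos (natCast_lt_omega0 n)]
theorem natZ_inj {m n : ℕ} : natZ m = natZ n ↔ m = n :=
  (Function.LeftInverse.injective natOf_natZ).eq_iff
theorem mem_omegaZ {x : V} : x ∈ omegaZ ↔ ∃ n, natZ n = x := by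
  rw [omegaZ, mem_toZFSet_iff]
  constructor
  · rintro ⟨o, ho, rfl⟩
    obtain ⟨n, rfl⟩ := lt_omega0.1 ho
    exact ⟨n, rfl⟩
  · rintro ⟨n, rfl⟩
    exact ⟨n, natCast_lt_omega0 n, rfl⟩
@[simp] theorem natZ_mem_omegaZ (n : ℕ) : natZ n ∈ omegaZ := mem_omegaZ.2 ⟨n, rfl⟩
@[simp] theorem rank_natZ (n : ℕ) : (natZ n).rank = n := by simp [natZ]
@[simp] theorem rank_omegaZ : omegaZ.rank = ω := by simp [omegaZ]
@[simp] theorem natZ_mem_natZ {m n : ℕ} : natZ m ∈ natZ n ↔ m < n := by simp [natZ]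
@[reducible] noncomputable instance : Enc ℕ := ⟨natZ, natOf, natOf_natZ⟩
@[simp] theorem enc_nat (n : ℕ) : enc n = natZ n := rfl
@[simp] theorem dec_nat (x : V) : (dec x : ℕ) = natOf x := rfl
theorem z2c_of_cast {n : Set V → (ℕ → V) → ℕ} {o : Set V → (ℕ → V) → Ordinal.{0}} (h : UF F o)
    (e : ∀ M v, ((n M v : ℕ) : Ordinal.{0}) = o M v) : UF F n :=
  have h' : UF F (fun M v => ((n M v : ℕ) : Ordinal.{0})) := h.congr fun M _ v _ => e M v
  ⟨h'.cl, h'.gr⟩
theorem z2c_sUnion (k : ℕ) : (⋃₀ natZ k : V) = natZ k.pred := by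
  ext x
  rw [mem_sUnion]
  constructor
  · rintro ⟨y, hy, hx⟩
    obtain ⟨j, rfl⟩ := mem_omegaZ.1 ((isOrdinal_toZFSet ω).mem_trans hy (natZ_mem_omegaZ k))
    obtain ⟨i, rfl⟩ := mem_omegaZ.1 ((isOrdinal_toZFSet ω).mem_trans hx (natZ_mem_omegaZ j))
    rw [natZ_mem_natZ] at hx hy ⊢
    exact hx.trans_le (Nat.le_pred_of_lt hy)
  · intro hx
    refine ⟨_, natZ_mem_natZ.2 (Nat.pred_lt ?_), hx⟩
    rintro rfl
    simp [natZ] at hx
instance uf_natOf {a : Set V → (ℕ → V) → V} [UF F a] : UF F (fun M v => natOf (a M v)) :=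
  z2c_of_cast (inferInstance : UF F (fun M v => if (a M v).rank < ω then (a M v).rank else 0))
    fun _ _ => z2c_cast_natOf _
@[reducible] noncomputable instance : Cd ℕ := ⟨fun _ => uf_natOf⟩

section nat
variable {m n : Set V → (ℕ → V) → ℕ}
instance uf_natZ [h : UF F n] : UF F (fun M v => natZ (n M v)) := ⟨h.cl, h.gr⟩
instance uf_natCast [h : UF F n] : UF F (fun M v => ((n M v : ℕ) : Ordinal.{0})) := ⟨h.cl, h.gr⟩
/-- every fixed natural number is definable -/
instance (priority := high) uf_nconst (k : ℕ) : UF F (fun _ _ => k) := by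
  induction k with
  | zero => exact z2c_of_cast uf_ozero fun _ _ => Nat.cast_zero
  | succ k ih =>
    exact z2c_of_cast (uf_osucc (o := fun _ _ => (k : Ordinal.{0}))) fun _ _ => by simp
instance uf_natRec {α} [Cd α] {z : Set V → (ℕ → V) → α} {s : Set V → (ℕ → V) → ℕ → α → α}
    [UF F n] [UF F z] [UF F (fun M v => s M (tl (tl v)) (natOf (vr (tl v) 0)) (dec (vr v 0)))] :
    UF F (fun M v => (Nat.rec (z M v) (s M v) (n M v) : α)) := by
  classical
  have := UF.lift (F := F) z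
  have : ∀ (g : Set V → (ℕ → V) → (ℕ → V)) (a b : Set V → (ℕ → V) → V) [UV F g] [UF F a] [UF F b],
      UF F (fun M v => s M (g M v) (natOf (a M v)) (dec (b M v))) := fun g a b _ _ _ =>
    UF.lift (fun M v => s M (tl (tl v)) (natOf (vr (tl v) 0)) (dec (vr v 0)))
      (fun M v => cons (b M v) (cons (a M v) (g M v)))
  refine (inferInstance : UF F (fun M v => orec (fun o f => if o = 0 then z M v else
    s M v (natOf (⋃₀ o.toZFSet)) (dec (app f (⋃₀ o.toZFSet)))) (n M v : Ordinal.{0}))).congr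
    fun M _ v _ => ?_
  induction n M v with
  | zero => rw [orec_eq, if_pos Nat.cast_zero]; rfl
  | succ k ih =>
    have e : (⋃₀ ((k + 1 : ℕ) : Ordinal.{0}).toZFSet : V) = natZ k := z2c_sUnion (k + 1)
    rw [orec_eq, if_neg (Nat.cast_ne_zero.2 k.succ_ne_zero), e, natOf_natZ]
    exact congrArg (s M v k) (ih.trans (oat_sq _ (Nat.cast_lt.2 k.lt_succ_self)).symm)
instance uf_iterate {α} [Cd α] {z : Set V → (ℕ → V) → α} {s : Set V → (ℕ → V) → α → α}
    [UF F n] [UF F z] [UF F (fun M v => s M (tl v) (dec (vr v 0)))] :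
    UF F (fun M v => (s M v)^[n M v] (z M v)) := by
  have : UF F (fun M v => s M (tl (tl v)) (dec (vr v 0))) :=
    UF.lift (fun M v => s M (tl v) (dec (vr v 0))) (fun M v => cons (vr v 0) (tl (tl v)))
  refine (uf_natRec (n := n) (z := z) (s := fun M v _ x => s M v x)).congr fun M _ v _ => ?_
  induction n M v with
  | zero => rfl
  | succ k ih => rw [Function.iterate_succ_apply', ih]
instance ud_nlt [UF F m] [UF F n] : UD F (fun M v => m M v < n M v) :=
  (inferInstance : UD F (fun M v => natZ (m M v) ∈ natZ (n M v))).congr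
    fun _ _ _ _ => natZ_mem_natZ.symm
instance ud_nle [UF F m] [UF F n] : UD F (fun M v => m M v ≤ n M v) :=
  (inferInstance : UD F (fun M v => ¬ n M v < m M v)).congr fun _ _ _ _ => not_lt.symm
instance uf_nsucc [UF F n] : UF F (fun M v => (n M v).succ) :=
  z2c_of_cast (uf_osucc (o := fun M v => (n M v : Ordinal.{0}))) fun _ _ => by simp
instance uf_nadd [UF F m] [UF F n] : UF F (fun M v => m M v + n M v) :=
  z2c_of_cast (uf_oadd (o := fun M v => (m M v : Ordinal.{0})) (p := fun M v => n M v))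
    fun _ _ => Nat.cast_add _ _
instance uf_nmul [UF F m] [UF F n] : UF F (fun M v => m M v * n M v) :=
  z2c_of_cast (uf_omul (o := fun M v => (m M v : Ordinal.{0})) (p := fun M v => n M v))
    fun _ _ => Ordinal.natCast_mul _ _
instance uf_nsub [UF F m] [UF F n] : UF F (fun M v => m M v - n M v) :=
  (uf_iterate (n := n) (z := m) (s := fun _ _ k => natOf (⋃₀ natZ k))).congr fun _ _ _ _ => by
    simp only [z2c_sUnion, natOf_natZ]
    exact (Nat.pred_iterate _ _).symm
instance uf_npow [UF F m] [UF F n] : UF F (fun M v => m M v ^ n M v) :=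
  haveI := UF.lift (F := F) m
  (uf_iterate (n := n) (z := fun _ _ => 1) (s := fun M v k => m M v * k)).congr fun _ _ _ _ => by
    simp
instance uf_nmin [UF F m] [UF F n] : UF F (fun M v => min (m M v) (n M v)) := by
  simp only [min_def]; infer_instance
instance uf_nmax [UF F m] [UF F n] : UF F (fun M v => max (m M v) (n M v)) := by
  simp only [max_def]; infer_instance
instance uf_npair [UF F m] [UF F n] : UF F (fun M v => Nat.pair (m M v) (n M v)) := by
  unfold Nat.pair; infer_instance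
variable {P : Set V → (ℕ → V) → ℕ → Prop}
instance ud_exN [UD F (fun M v => P M (tl v) (natOf (vr v 0)))] :
    UD F (fun M v => ∃ x, P M v x) :=
  UD.ex_of P fun M hM v hv x _ => (uf_nconst x).cl M hM v hv
instance ud_allN [UD F (fun M v => P M (tl v) (natOf (vr v 0)))] :
    UD F (fun M v => ∀ x, P M v x) :=
  (inferInstance : UD F (fun M v => ¬ ∃ x, ¬ P M v x)).congr fun _ _ _ _ => by simp
/-- least natural number with `P` (or `0`) -/
instance uf_nInf [UD F (fun M v => P M (tl v) (natOf (vr v 0)))] :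
    UF F (fun M v => sInf {k : ℕ | P M v k}) := by
  have : ∀ (g : Set V → (ℕ → V) → (ℕ → V)) (b : Set V → (ℕ → V) → V) [UV F g] [UF F b],
      UD F (fun M v => P M (g M v) (natOf (b M v))) := fun g b _ _ =>
    UD.lift (fun M v => P M (tl v) (natOf (vr v 0))) (fun M v => cons (b M v) (g M v))
  refine UF.of_graph (fun M v y => ∃ k : ℕ, y = natZ k ∧
      ((P M v k ∧ ∀ j : ℕ, P M v j → k ≤ j) ∨ (k = 0 ∧ ∀ j : ℕ, ¬ P M v j)))
    (fun M hM v hv => (uf_nconst _).cl M hM v hv) (fun M hM v hv y _ => ?_)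
  constructor
  · rintro rfl
    refine ⟨_, rfl, ?_⟩
    rcases Set.eq_empty_or_nonempty {k : ℕ | P M v k} with h | h
    · exact Or.inr ⟨by rw [h, Nat.sInf_empty], fun j hj => Set.eq_empty_iff_forall_notMem.1 h j hj⟩
    · exact Or.inl ⟨Nat.sInf_mem h, fun j hj => Nat.sInf_le hj⟩
  · rintro ⟨k, rfl, ⟨h1, h2⟩ | ⟨rfl, h⟩⟩
    · exact congrArg natZ (le_antisymm (h2 _ (Nat.sInf_mem (s := {k | P M v k}) ⟨k, h1⟩))
        (Nat.sInf_le h1))
    · exact congrArg natZ (Nat.sInf_eq_zero.2 (Or.inr (Set.eq_empty_iff_forall_notMem.2 h))).symm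
/-- unions and ranges of `ℕ`-indexed families -/
instance uf_iUnionN {f : Set V → (ℕ → V) → ℕ → V} [UF F (fun M v => f M (tl v) (natOf (vr v 0)))] :
    UF F (fun M v => (ZFSet.iUnion fun k : ℕ => f M v k)) :=
  (inferInstance : UF F (fun M v => bU omegaZ fun x => f M v (natOf x))).congr fun _ _ _ _ => by
    ext y; simp [mem_omegaZ]
end nat

/-- the `ω`-sequence `(f n)_n` as a set -/
noncomputable def sqN {α} [Enc α] (f : ℕ → α) : V := lam omegaZ (fun x => enc (f (natOf x)))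
theorem app_sqN {α} [Enc α] (f : ℕ → α) (n : ℕ) : app (sqN f) (natZ n) = enc (f n) := by
  rw [sqN, app_lam _ (natZ_mem_omegaZ n), natOf_natZ]
instance uf_sqN {α} [Enc α] {f : Set V → (ℕ → V) → ℕ → α}
    [UF F (fun M v => f M (tl v) (natOf (vr v 0)))] : UF F (fun M v => sqN (f M v)) := by
  unfold sqN; infer_instance
-- JOB C END

-- JOB D BEGIN
/-! ### rank initial segments, power sets -/
/-- `A ∩ V_o` -/
noncomputable def cut (A : V) (o : Ordinal.{0}) : V := ZFSet.sep (fun x => x.rank < o) A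
@[simp] theorem mem_cut {A x : V} {o : Ordinal.{0}} : x ∈ cut A o ↔ x ∈ A ∧ x.rank < o := mem_sep
/-- `N ∩ V_o` -/
noncomputable def Vs (N : Set V) (o : Ordinal.{0}) : V := ZFSet.sep (fun x => x ∈ N) (vonNeumann o)
@[simp] theorem mem_Vs {N : Set V} {x : V} {o : Ordinal.{0}} : x ∈ Vs N o ↔ x ∈ N ∧ x.rank < o := by
  simp [Vs, mem_vonNeumann, and_comm]
@[simp] theorem Vs_coe (A : V) (o : Ordinal.{0}) : Vs (A : Set V) o = cut A o := by ext; simp
/-- `N ∩ P(a)` -/
noncomputable def pw (N : Set V) (a : V) : V := ZFSet.sep (fun x => x ∈ N) (powerset a)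
@[simp] theorem mem_pw {N : Set V} {a x : V} : x ∈ pw N a ↔ x ∈ N ∧ x ⊆ a := by
  simp [pw, and_comm]
/-- the hereditarily finite sets -/
noncomputable def HF : V := vonNeumann ω
theorem mem_HF {x : V} : x ∈ HF ↔ x.rank < ω := mem_vonNeumann
/-- transitive closure of `{x}` -/
noncomputable def tc (x : V) : V := ZFSet.iUnion fun n : ℕ => (fun y : V => (⋃₀ y : V))^[n] {x}
theorem tc_trans (x : V) : (tc x).IsTransitive := by
  intro y hy z hz
  obtain ⟨n, hn⟩ := mem_iUnion.1 hy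
  exact mem_iUnion.2 ⟨n + 1, by
    rw [Function.iterate_succ_apply']; exact mem_sUnion.2 ⟨y, hn, hz⟩⟩
theorem mem_tc (x : V) : x ∈ tc x := by
  exact mem_iUnion.2 ⟨0, mem_singleton.2 rfl⟩
theorem tc_min {x t : V} (ht : t.IsTransitive) (hx : x ∈ t) : tc x ⊆ t := by
  have h : ∀ n : ℕ, (fun y : V => (⋃₀ y : V))^[n] {x} ⊆ t := fun n => by
    induction n with
    | zero => intro y hy; rw [mem_singleton.1 hy]; exact hx
    | succ n ih =>
      rw [Function.iterate_succ_apply']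
      intro y hy
      obtain ⟨z, hz, hy⟩ := mem_sUnion.1 hy
      exact ht z (ih hz) hy
  intro y hy
  obtain ⟨n, hn⟩ := mem_iUnion.1 hy
  exact h n hn

theorem z2d_finite_mem (M : Set V) [IsZ M] {S : Set V} (hf : S.Finite) :
    S ⊆ M → ∀ s : V, (s : Set V) = S → s ∈ M := by
  induction S, hf using Set.Finite.induction_on with
  | empty =>
    intro _ s e
    rw [(ZFSet.eq_empty s).2 fun y hy => (e ▸ hy : y ∈ (∅ : Set V))]
    exact IsZ.empty_mem M
  | @insert a S _ _ ih =>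
    intro h s e
    have e' : ∀ y, y ∈ s ↔ y = a ∨ y ∈ S := fun y => Set.ext_iff.1 e y
    haveI : In M a := ⟨h (Set.mem_insert a S)⟩
    haveI : In M (ZFSet.sep (· ∈ S) s) := ⟨ih ((Set.subset_insert a S).trans h) _
      (Set.ext fun y => mem_sep.trans ⟨fun k => k.2, fun k => ⟨(e' y).2 (Or.inr k), k⟩⟩)⟩
    have : s = insert a (ZFSet.sep (· ∈ S) s) := by
      ext y; rw [mem_insert_iff, mem_sep, e']; tauto
    rw [this]
    exact memV_of M _

theorem z2d_finite (n : ℕ) : (vonNeumann (n : Ordinal.{0}) : Set V).Finite := by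
  induction n with
  | zero => rw [Nat.cast_zero, vonNeumann_zero]; simp
  | succ n ih =>
    rw [Nat.cast_succ, vonNeumann_add_one]
    exact (ih.powerset.preimage SetLike.coe_injective.injOn).subset fun x hx => mem_powerset.1 hx

theorem z2d_HF (M : Set V) [IsZ M] (x : V) : x.rank < ω → x ∈ M := by
  induction x using ZFSet.inductionOn with
  | _ x ih =>
    intro h
    obtain ⟨n, hn⟩ := lt_omega0.1 h
    exact z2d_finite_mem M ((z2d_finite n).subset (subset_vonNeumann.2 hn.le))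
      (fun y hy => ih y hy ((rank_lt_of_mem hy).trans h)) x rfl

theorem z2d_Vs (M : Set V) [hZ : IsZ M] {o : Ordinal.{0}} (ho : o.toZFSet ∈ M)
    (h : ∀ β < o, ∃ y ∈ M, ∀ z ∈ M, z.rank ≤ β → z ∈ y) : Vs M o ∈ M := by
  obtain ⟨b, hb, H⟩ := coll_mem M (fun x y => ∀ z ∈ M, z.rank ≤ x.rank → z ∈ y) ho fun x hx => by
    obtain ⟨β, hβ, rfl⟩ := mem_toZFSet_iff.1 hx
    rw [rank_toZFSet]
    exact h β hβ
  haveI : In M b := ⟨hb⟩
  haveI : In M o := ⟨ho⟩
  have : Vs M o = ZFSet.sep (fun x => x.rank < o) (⋃₀ b) := by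
    ext z
    rw [mem_Vs, mem_sep]
    refine and_congr_left fun hz => ⟨fun k => ?_, fun k => hZ.trans _ (hZ.sUnion b hb) _ k⟩
    obtain ⟨y, hy, k2⟩ := H _ (toZFSet_mem_toZFSet_iff.2 hz)
    exact mem_sUnion.2 ⟨y, hy, k2 z k (rank_toZFSet _).ge⟩
  rw [this]
  exact memV_of M _

theorem z2d_Vs_mem (M : Set V) [hZ : IsZFC M] (o : Ordinal.{0}) :
    o.toZFSet ∈ M → Vs M o ∈ M := by
  induction o using WellFoundedLT.induction with
  | _ o ih =>
    intro ho
    refine z2d_Vs M ho fun β hβ => ?_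
    obtain ⟨p, hp, H⟩ := hZ.pow _ (ih β hβ (hZ.trans _ ho _ (toZFSet_mem_toZFSet_iff.2 hβ)))
    exact ⟨p, hp, fun z hz k => H z hz fun w hw =>
      mem_Vs.2 ⟨hZ.trans _ hz _ hw, (rank_lt_of_mem hw).trans_le k⟩⟩

theorem z2d_eqVs {a : Set V → (ℕ → V) → V} {o : Set V → (ℕ → V) → Ordinal.{0}}
    {D : Set V → (ℕ → V) → Set V} [UC F D] [UF F a] [UF F o] :
    UD F (fun M v => a M v = Vs (D M v) (o M v)) :=
  haveI := UF.lift (F := F) a; haveI := UF.lift (F := F) o; haveI := UC.lift (F := F) D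
  (inferInstance : UD F (fun M v => (∀ x ∈ a M v, x ∈ D M v ∧ x.rank < o M v) ∧
    ∀ x ∈ D M v, x.rank < o M v → x ∈ a M v)).congr fun _ _ _ _ => by
    simp only [ZFSet.ext_iff, mem_Vs]
    exact ⟨fun e => ⟨fun x hx => (e x).1 hx, fun x h1 h2 => (e x).2 ⟨h1, h2⟩⟩,
      fun e x => ⟨e.1 x, fun k => e.2 x k.1 k.2⟩⟩

section cuts
variable {a : Set V → (ℕ → V) → V} {o : Set V → (ℕ → V) → Ordinal.{0}}
  {D : Set V → (ℕ → V) → Set V}
instance uf_cut [UF F a] [UF F o] : UF F (fun M v => cut (a M v) (o M v)) := by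
  have := UF.lift (F := F) o; unfold cut; infer_instance
instance uf_pw [F.P] [UC F D] [UF F a] : UF F (fun M v => pw (D M v) (a M v)) := by
  have := UF.lift (F := F) a; have := UC.lift (F := F) D
  refine UF.of_graph (fun M v y => (∀ x ∈ y, x ∈ D M v ∧ x ⊆ a M v) ∧
    ∀ x ∈ D M v, x ⊆ a M v → x ∈ y) (fun M hM v hv => ?_) (fun M hM v hv y _ => ?_)
  · obtain ⟨p, hp, H⟩ := (Fr.P.out M hM).pow _ (UF.cl (f := a) M hM v hv)
    have e : pw (D M v) (a M v) = ZFSet.sep (fun x => x ∈ D M v ∧ x ⊆ a M v) p := by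
      ext x
      rw [mem_pw, mem_sep]
      exact ⟨fun k => ⟨H x (UC.sub M hM v hv k.1) k.2, k⟩, fun k => k.2⟩
    rw [enc_V, e]
    exact (inferInstance : UD F (fun M v => vr v 0 ∈ D M (tl v) ∧ vr v 0 ⊆ a M (tl v))).sep_mem
      hM hv hp
  · simp only [enc_V, ZFSet.ext_iff, mem_pw]
    exact ⟨fun e => ⟨fun x hx => (e x).1 hx, fun x h1 h2 => (e x).2 ⟨h1, h2⟩⟩,
      fun e x => ⟨e.1 x, fun k => e.2 x k.1 k.2⟩⟩
instance uf_pwS {b : Set V → (ℕ → V) → V} [UF F b] [UF F a] :
    UF F (fun M v => pw (b M v : Set V) (a M v)) := by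
  have := UF.lift (F := F) a
  exact (inferInstance : UF F (fun M v => ZFSet.sep (fun x => x ⊆ a M v) (b M v))).congr
    fun _ _ _ _ => by ext x; simp
instance uf_Vs [F.P] [UC F D] [UF F o] : UF F (fun M v => Vs (D M v) (o M v)) := by
  have := UF.lift (F := F) o; have := UC.lift (F := F) D
  refine ⟨fun M hM v hv => ?_, z2d_eqVs⟩
  haveI := Fr.P.out M hM
  have e : Vs (D M v) (o M v) = ZFSet.sep (fun x => x ∈ D M v) (Vs M (o M v)) := by
    ext x
    rw [mem_sep, mem_Vs, mem_Vs]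
    exact ⟨fun k => ⟨⟨UC.sub M hM v hv k.1, k.2⟩, k.1⟩, fun k => ⟨k.2, k.1.2⟩⟩
  rw [enc_V, e]
  exact (UC.gr (D := D)).sep_mem hM hv (z2d_Vs_mem M _ (UF.cl (f := o) M hM v hv))
instance uf_VsS [UF F a] [UF F o] : UF F (fun M v => Vs (a M v : Set V) (o M v)) := by
  exact uf_cut.congr fun _ _ _ _ => Vs_coe _ _
/-- `x = D ∩ V_o` is definable without power set -/
instance ud_eqVs [UC F D] [UF F a] [UF F o] : UD F (fun M v => a M v = Vs (D M v) (o M v)) := by
  exact z2d_eqVs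
instance uf_HF : UF F (fun _ _ => HF) := by
  have e : ∀ M, F.K M → HF = Vs M ω := fun M hM => by
    haveI := F.hZ M hM
    ext x
    rw [mem_HF, mem_Vs]
    exact ⟨fun k => ⟨z2d_HF M x k, k⟩, fun k => k.2⟩
  refine ⟨fun M hM v hv => ?_, (z2d_eqVs (F := F) (a := fun _ v => vr v 0) (o := fun _ _ => ω)
    (D := fun M _ => M)).congr fun M hM _ _ => by rw [enc_V, e M hM]⟩
  haveI hZ := F.hZ M hM
  rw [enc_V, e M hM]
  exact z2d_Vs M hZ.omega fun β hβ => ⟨vonNeumann (β + 1),
    z2d_HF M _ (by rw [rank_vonNeumann]; exact isSuccLimit_omega0.add_one_lt hβ),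
    fun z _ k => mem_vonNeumann.2 (Order.lt_add_one_iff.2 k)⟩
instance uf_tc [UF F a] : UF F (fun M v => tc (a M v)) := by
  have := UF.lift (F := F) a; unfold tc; infer_instance
end cuts

/-! ### elementary facts about models -/
section model
variable (M : Set V) [IsZ M]
theorem IsZ.rank_mem {x : V} (h : x ∈ M) : x.rank.toZFSet ∈ M := by
  haveI : In M x := ⟨h⟩
  exact mem_of M x.rank
theorem IsZ.ord_mem_of_le {o p : Ordinal.{0}} (h : p.toZFSet ∈ M) (hle : o ≤ p) :
    o.toZFSet ∈ M := by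
  rcases hle.eq_or_lt with rfl | h1
  · exact h
  · exact IsZ.trans _ h _ (toZFSet_mem_toZFSet_iff.2 h1)
theorem IsZ.HF_subset : (HF : Set V) ⊆ M := by
  exact fun x hx => z2d_HF M x (mem_HF.1 hx)
theorem IsZ.natZ_mem (n : ℕ) : natZ n ∈ M := by
  exact IsZ.trans _ IsZ.omega _ (natZ_mem_omegaZ n)
theorem IsZ.pair_mem_iff {x y : V} : pair x y ∈ M ↔ x ∈ M ∧ y ∈ M := by
  constructor
  · intro h
    have h1 : ({x, y} : V) ∈ M := IsZ.trans _ h _ (by simp [pair])
    exact ⟨IsZ.trans _ h1 _ (by simp), IsZ.trans _ h1 _ (by simp)⟩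
  · rintro ⟨h1, h2⟩
    haveI : In M x := ⟨h1⟩
    haveI : In M y := ⟨h2⟩
    exact memV_of M _
theorem IsZ.app_mem {f : V} (h : f ∈ M) (x : V) : app f x ∈ M := by
  haveI : In M f := ⟨h⟩
  by_cases hx : x ∈ dom f
  · haveI : In M x := ⟨IsZ.trans _ (memV_of M (dom f)) _ hx⟩
    exact memV_of M _
  · rw [app_of_not_mem_dom hx]
    exact IsZ.empty_mem M
theorem IsZ.finite_mem {s : V} (hf : (s : Set V).Finite) (hs : (s : Set V) ⊆ M) : s ∈ M := by
  exact z2d_finite_mem M hf hs s rfl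
end model
theorem IsZ.isTransitive {H : V} [IsZ (H : Set V)] : H.IsTransitive := by
  exact fun x hx y hy => IsZ.trans (M := (H : Set V)) x hx y hy
theorem z2d_rank (x y : V) :
    (pair x y).rank = Order.succ (Order.succ (max x.rank y.rank)) := by
  rw [pair, rank_pair, rank_singleton, rank_pair, ← Order.succ_max, ← Order.succ_max,
    ← Order.succ_max, ← max_assoc, max_self]
theorem rank_pair_lt {x y : V} {o : Ordinal.{0}} (ho : Order.IsSuccLimit o) :
    (pair x y).rank < o ↔ x.rank < o ∧ y.rank < o := by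
  rw [z2d_rank, ho.succ_lt_iff, ho.succ_lt_iff, max_lt_iff]
theorem rank_zpair (x y : V) : (pair x y).rank = max x.rank y.rank + 2 := by
  rw [z2d_rank, Order.succ_eq_add_one, Order.succ_eq_add_one, add_assoc, one_add_one_eq_two]
theorem rank_fst_le (p : V) : (fst p).rank ≤ p.rank := by
  exact (rank_sUnion_le _).trans ((rank_mono sep_subset).trans (rank_sUnion_le _))
theorem rank_snd_le (p : V) : (snd p).rank ≤ p.rank := by
  exact (rank_sUnion_le _).trans ((rank_mono sep_subset).trans (rank_sUnion_le _))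
theorem rank_app_le (f x : V) : (app f x).rank ≤ f.rank := by
  exact (rank_sUnion_le _).trans ((rank_mono sep_subset).trans ((rank_mono sep_subset).trans
    ((rank_sUnion_le _).trans (rank_sUnion_le _))))
-- JOB D END

end Pool.Agent.Lib.MP_f9eb18_lc.W
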