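import Pool.Agent.Lib.MP_f9eb18_lc.W.Z2

/-! # Lists, formulas, internal satisfaction -/

namespace Pool.Agent.Lib.MP_f9eb18_lc.W

open Ordinal ZFSet
set_option linter.style.haveILetI false
set_option linter.unusedVariables false
set_option synthInstance.maxSize 100000

variable {F : Fr}

-- JOB A BEGIN
/-! ### lists of sets -/
theorem z3a_pair_ne (a b : V) : pair a b ≠ ∅ := fun h =>
  notMem_empty ({a} : V) (h ▸ by simp [pair])
theorem listZ_inj : Function.Injective listZ := by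
  intro l
  induction l with
  | nil =>
    intro k h
    cases k with
    | nil => rfl
    | cons b k => exact absurd h.symm (z3a_pair_ne _ _)
  | cons a l ih =>
    intro k h
    cases k with
    | nil => exact absurd h (z3a_pair_ne _ _)
    | cons b k =>
      obtain ⟨rfl, e⟩ := pair_inj.1 h
      rw [ih e]
open Classical in
/-- decoding of lists (the empty list for a set that is not a code) -/
noncomputable def z3a_dec (x : V) : List V := if h : ∃ l, listZ l = x then h.choose else []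
theorem z3a_dec_listZ (l : List V) : z3a_dec (listZ l) = l := by
  have h : ∃ k, listZ k = listZ l := ⟨l, rfl⟩
  rw [z3a_dec, dif_pos h]
  exact listZ_inj h.choose_spec
@[reducible] noncomputable instance : Enc (List V) :=
  ⟨listZ, z3a_dec, z3a_dec_listZ⟩
@[simp] theorem enc_list (l : List V) : enc l = listZ l := rfl
theorem z3a_mem_of_trans {T : Set V} (hT : ∀ x ∈ T, ∀ y ∈ x, y ∈ T) {l : List V}
    (h : listZ l ∈ T) : ∀ x ∈ l, x ∈ T := by
  induction l with
  | nil => simp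
  | cons a l ih =>
    have h1 : ({a, listZ l} : V) ∈ T := hT _ h _ (by simp [listZ, pair])
    exact List.forall_mem_cons.2 ⟨hT _ h1 _ (by simp), ih (hT _ h1 _ (by simp))⟩
/-- the set of codes of lists of elements of `a` -/
noncomputable def lists (a : V) : V :=
  ZFSet.iUnion fun n : ℕ => (fun y : V => prod a y)^[n] {∅}
theorem z3a_mem_iter {a : V} (n : ℕ) : ∀ x : V, x ∈ (fun y : V => prod a y)^[n] {∅} ↔
    ∃ l : List V, l.length = n ∧ (∀ y ∈ l, y ∈ a) ∧ listZ l = x := by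
  induction n with
  | zero =>
    intro x
    simp only [Function.iterate_zero, id, mem_singleton, List.length_eq_zero_iff]
    exact ⟨fun h => ⟨[], rfl, by simp, h.symm⟩, fun ⟨l, e, _, h⟩ => by rw [← h, e]; rfl⟩
  | succ n ih =>
    intro x
    rw [Function.iterate_succ_apply', mem_prod]
    constructor
    · rintro ⟨b, hb, y, hy, rfl⟩
      obtain ⟨l, rfl, h, rfl⟩ := (ih y).1 hy
      exact ⟨b :: l, rfl, List.forall_mem_cons.2 ⟨hb, h⟩, rfl⟩
    · rintro ⟨l, e, h, rfl⟩
      cases l with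
      | nil => simp at e
      | cons b l =>
        obtain ⟨h1, h2⟩ := List.forall_mem_cons.1 h
        exact ⟨b, h1, _, (ih _).2 ⟨l, Nat.succ.inj e, h2, rfl⟩, rfl⟩
theorem mem_lists {a x : V} : x ∈ lists a ↔ ∃ l : List V, (∀ y ∈ l, y ∈ a) ∧ listZ l = x := by
  simp only [lists, mem_iUnion, z3a_mem_iter]
  exact ⟨fun ⟨_, l, _, h⟩ => ⟨l, h⟩, fun ⟨l, h⟩ => ⟨_, l, rfl, h⟩⟩
theorem uf_decList : UF F (fun _ v => (dec (vr v 0) : List V)) := by
  classical
  have h : UF F (fun _ v => if vr v 0 ∈ lists (tc (vr v 0)) then vr v 0 else ∅) := by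
    unfold lists; infer_instance
  refine UF.of_enc (h.congr fun _ _ v _ => ?_)
  generalize vr v 0 = x
  change listZ (z3a_dec x) = _
  by_cases hx : ∃ l, listZ l = x
  · obtain ⟨l, rfl⟩ := hx
    rw [z3a_dec_listZ, if_pos (mem_lists.2 ⟨l, z3a_mem_of_trans (T := (tc (listZ l) : Set V))
      (fun a ha b hb => tc_trans _ a ha hb) (mem_tc _), rfl⟩)]
  · rw [z3a_dec, dif_neg hx, if_neg fun h => hx ((mem_lists.1 h).imp fun _ e => e.2)]
    rfl
@[reducible] noncomputable instance : Cd (List V) := ⟨fun _ => uf_decList⟩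
theorem listZ_mem_iff (M : Set V) [IsZ M] {l : List V} : listZ l ∈ M ↔ ∀ x ∈ l, x ∈ M := by
  induction l with
  | nil => simpa [listZ] using IsZ.empty_mem M
  | cons a l ih => rw [listZ, IsZ.pair_mem_iff, ih, List.forall_mem_cons]
theorem env_mem {M : Set V} (h0 : (∅ : V) ∈ M) {l : List V} (h : ∀ x ∈ l, x ∈ M) :
    ∀ i, env l i ∈ M := by
  intro i
  by_cases hi : i < l.length
  · rw [env, List.getD_eq_getElem _ _ hi]; exact h _ (List.getElem_mem hi)
  · rw [env, List.getD_eq_default _ _ (not_lt.1 hi)]; exact h0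
@[simp] theorem env_cons (a : V) (l : List V) : env (a :: l) = cons a (env l) := by
  funext i; cases i <;> rfl
theorem env_map {j : V → V} (h0 : j ∅ = ∅) (l : List V) : env (l.map j) = j ∘ env l := by
  induction l with
  | nil => funext i; exact h0.symm
  | cons a l ih => rw [List.map_cons, env_cons, env_cons, ih, comp_cons]
/-- every assignment agrees below `k` with the assignment of a list of its values -/
theorem env_ofFn (v : ℕ → V) (k : ℕ) : ∀ i < k, env ((List.range k).map v) i = v i := by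
  intro i hi
  rw [env, List.getD_eq_getElem _ _ (by simpa using hi)]
  simp
theorem z3a_iter (k : ℕ) : ∀ l : List V, snd^[k] (listZ l) = listZ (l.drop k) := by
  induction k with
  | zero => intro l; rfl
  | succ k ih =>
    intro l
    cases l with
    | nil =>
      have e : snd (listZ []) = listZ [] := by simp [listZ, snd]
      rw [Function.iterate_succ_apply, e, ih, List.drop_nil, List.drop_nil]
    | cons a l => rw [Function.iterate_succ_apply, listZ, snd_pair, ih, List.drop_succ_cons]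
theorem z3a_drop {l : List V} {i : ℕ} (h : i < l.length) :
    l.drop i = env l i :: l.drop (i + 1) := by
  rw [env, List.getD_eq_getElem _ _ h, List.drop_eq_getElem_cons h]
theorem z3a_env_eq (l : List V) (i : ℕ) : env l i = fst (snd^[i] (listZ l)) := by
  rw [z3a_iter]
  by_cases h : i < l.length
  · rw [z3a_drop h, listZ, fst_pair]
  · rw [env, List.getD_eq_default _ _ (not_lt.1 h), List.drop_eq_nil_of_le (not_lt.1 h)]
    simp [listZ, fst]
theorem z3a_length_eq (l : List V) : l.length = sInf {k : ℕ | snd^[k] (listZ l) = ∅} := by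
  have e : {k : ℕ | snd^[k] (listZ l) = ∅} = Set.Ici l.length := by
    ext k
    rw [Set.mem_ofPred_eq, z3a_iter, Set.mem_Ici, ← List.drop_eq_nil_iff]
    exact listZ_inj.eq_iff (b := [])
  rw [e, csInf_Ici]
theorem z3a_foldr_eq {β} (s : V → β → β) (z : β) (l : List V) : ∀ k ≤ l.length,
    List.foldr s z (l.drop (l.length - k)) =
      (Nat.rec z (fun j acc => s (env l (l.length - j.succ)) acc) k : β) := by
  intro k
  induction k with
  | zero => intro _; simp
  | succ k ih =>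
    intro hk
    rw [z3a_drop (by omega), List.foldr_cons, show l.length - (k + 1) + 1 = l.length - k by omega,
      ih (by omega)]
theorem z3a_ex_iff (l : List V) (Q : V → Prop) :
    (∃ x ∈ l, Q x) ↔ ∃ i : ℕ, i < l.length ∧ Q (env l i) := by
  constructor
  · rintro ⟨x, hx, h⟩
    obtain ⟨i, hi, rfl⟩ := List.getElem_of_mem hx
    exact ⟨i, hi, by rwa [env, List.getD_eq_getElem _ _ hi]⟩
  · rintro ⟨i, hi, h⟩
    rw [env, List.getD_eq_getElem _ _ hi] at h
    exact ⟨_, List.getElem_mem hi, h⟩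

section lists
variable {a : Set V → (ℕ → V) → V} {l k : Set V → (ℕ → V) → List V} {n : Set V → (ℕ → V) → ℕ}
instance uf_listZ [h : UF F l] : UF F (fun M v => listZ (l M v)) := ⟨h.cl, h.gr⟩
instance uf_nil : UF F (fun _ _ => ([] : List V)) := UF.of_enc UF.empty
instance uf_lcons [UF F a] [UF F l] : UF F (fun M v => a M v :: l M v) :=
  UF.of_enc (inferInstance : UF F (fun M v => pair (a M v) (listZ (l M v))))
theorem z3a_length [UF F l] : UF F (fun M v => (l M v).length) :=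
  haveI := UF.lift (F := F) l
  (inferInstance : UF F (fun M v => sInf {k : ℕ | snd^[k] (listZ (l M v)) = ∅})).congr
    fun _ _ _ _ => z3a_length_eq _
theorem z3a_env [UF F l] [UF F n] : UF F (fun M v => env (l M v) (n M v)) :=
  (inferInstance : UF F (fun M v => fst (snd^[n M v] (listZ (l M v))))).congr
    fun _ _ _ _ => z3a_env_eq _ _
instance uf_foldr {β} [Cd β] {z : Set V → (ℕ → V) → β} {s : Set V → (ℕ → V) → V → β → β}
    [UF F l] [UF F z] [UF F (fun M v => s M (tl (tl v)) (vr (tl v) 0) (dec (vr v 0)))] :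
    UF F (fun M v => List.foldr (s M v) (z M v) (l M v)) := by
  have := UF.lift (F := F) l
  have := @z3a_length F
  have := @z3a_env F
  have : ∀ (g : Set V → (ℕ → V) → (ℕ → V)) (b : Set V → (ℕ → V) → V) (c : Set V → (ℕ → V) → V)
      [UV F g] [UF F b] [UF F c], UF F (fun M v => s M (g M v) (b M v) (dec (c M v))) :=
    fun g b c _ _ _ => UF.lift (fun M v => s M (tl (tl v)) (vr (tl v) 0) (dec (vr v 0)))
      (fun M v => cons (c M v) (cons (b M v) (g M v)))
  refine (inferInstance : UF F (fun M v => (Nat.rec (z M v) (fun j acc =>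
    s M v (env (l M v) ((l M v).length - j.succ)) acc) (l M v).length : β))).congr
    fun M _ v _ => ?_
  rw [← z3a_foldr_eq _ _ _ _ le_rfl, Nat.sub_self, List.drop_zero]
instance uf_length [UF F l] : UF F (fun M v => (l M v).length) := z3a_length
instance uf_append [UF F l] [UF F k] : UF F (fun M v => l M v ++ k M v) :=
  (inferInstance : UF F (fun M v => List.foldr (fun x r => x :: r) (k M v) (l M v))).congr
    fun _ _ _ _ => List.foldr_cons_eq_append'.symm
instance uf_lmap {f : Set V → (ℕ → V) → V → V} [UF F l]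
    [UF F (fun M v => f M (tl v) (vr v 0))] : UF F (fun M v => (l M v).map (f M v)) := by
  have : UF F (fun M v => f M (tl (tl v)) (vr (tl v) 0)) :=
    UF.lift (fun M v => f M (tl v) (vr v 0)) (fun _ v => tl v)
  exact (inferInstance : UF F (fun M v =>
    List.foldr (fun x r => f M v x :: r) [] (l M v))).congr fun _ _ _ _ => List.map_eq_foldr
instance uf_env [UF F l] [UF F n] : UF F (fun M v => env (l M v) (n M v)) := z3a_env
theorem z3a_exL {P : Set V → (ℕ → V) → V → Prop} [UF F l]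
    [UD F (fun M v => P M (tl v) (vr v 0))] : UD F (fun M v => ∃ x ∈ l M v, P M v x) := by
  have := UF.lift (F := F) l
  have : ∀ (g : Set V → (ℕ → V) → (ℕ → V)) (b : Set V → (ℕ → V) → V) [UV F g] [UF F b],
      UD F (fun M v => P M (g M v) (b M v)) := fun g b _ _ =>
    UD.lift (fun M v => P M (tl v) (vr v 0)) (fun M v => cons (b M v) (g M v))
  exact (inferInstance : UD F (fun M v => ∃ i : ℕ, i < (l M v).length ∧
    P M v (env (l M v) i))).congr fun _ _ _ _ => z3a_ex_iff _ _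
instance ud_lmem [UF F a] [UF F l] : UD F (fun M v => a M v ∈ l M v) :=
  haveI := UF.lift (F := F) a
  (z3a_exL (l := l) (P := fun M v x => x = a M v)).congr fun _ _ _ _ => by simp
instance ud_allL {P : Set V → (ℕ → V) → V → Prop} [UF F l]
    [UD F (fun M v => P M (tl v) (vr v 0))] : UD F (fun M v => ∀ x ∈ l M v, P M v x) :=
  (UD.not (h := z3a_exL (l := l) (P := fun M v x => ¬ P M v x))).congr fun _ _ _ _ => by simp
instance ud_exL {P : Set V → (ℕ → V) → V → Prop} [UF F l]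
    [UD F (fun M v => P M (tl v) (vr v 0))] : UD F (fun M v => ∃ x ∈ l M v, P M v x) := z3a_exL
instance uf_lists [UF F a] : UF F (fun M v => lists (a M v)) := by
  have := UF.lift (F := F) a; unfold lists; infer_instance
variable {D : Set V → (ℕ → V) → Set V} {P : Set V → (ℕ → V) → List V → Prop}
instance ud_exList [UC F D] [UD F (fun M v => P M (tl v) (dec (vr v 0)))] :
    UD F (fun M v => ∃ s : List V, (∀ x ∈ s, x ∈ D M v) ∧ P M v s) := by
  have := UC.lift (F := F) D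
  refine (inferInstance : UD F (fun M v => ∃ s : List V, enc s ∈ M ∧
    ((∀ x ∈ s, x ∈ D M v) ∧ P M v s))).congr fun M hM v hv => exists_congr fun s => ?_
  have := F.hZ M hM
  exact ⟨fun h => ⟨(listZ_mem_iff M).2 fun x hx => UC.sub M hM v hv (h.1 x hx), h⟩, fun h => h.2⟩
instance ud_allList [UC F D] [UD F (fun M v => P M (tl v) (dec (vr v 0)))] :
    UD F (fun M v => ∀ s : List V, (∀ x ∈ s, x ∈ D M v) → P M v s) :=
  (UD.not (h := ud_exList (D := D) (P := fun M v s => ¬ P M v s))).congr fun _ _ _ _ => by simp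
instance ud_exListS [UF F a] [UD F (fun M v => P M (tl v) (dec (vr v 0)))] :
    UD F (fun M v => ∃ s : List V, (∀ x ∈ s, x ∈ a M v) ∧ P M v s) :=
  ud_exList (D := fun M v => (a M v : Set V))
instance ud_allListS [UF F a] [UD F (fun M v => P M (tl v) (dec (vr v 0)))] :
    UD F (fun M v => ∀ s : List V, (∀ x ∈ s, x ∈ a M v) → P M v s) :=
  ud_allList (D := fun M v => (a M v : Set V))
end lists
-- JOB A END

-- JOB B BEGIN
/-! ### formulas -/
noncomputable def Fo.code : Fo → V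
  | .mem i j => pair (natZ 0) (pair (natZ i) (natZ j))
  | .eq i j => pair (natZ 1) (pair (natZ i) (natZ j))
  | .neg φ => pair (natZ 2) φ.code
  | .and φ ψ => pair (natZ 3) (pair φ.code ψ.code)
  | .ex φ => pair (natZ 4) φ.code
theorem Fo.code_inj : Function.Injective Fo.code := by
  intro φ
  induction φ with
  | mem i j => intro ψ h; cases ψ <;> simp_all [Fo.code, pair_inj, natZ_inj]
  | eq i j => intro ψ h; cases ψ <;> simp_all [Fo.code, pair_inj, natZ_inj]
  | neg φ ih =>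
    intro ψ h
    cases ψ <;> simp only [Fo.code, pair_inj, natZ_inj] at h <;> try omega
    rw [ih h.2]
  | and φ χ ih1 ih2 =>
    intro ψ h
    cases ψ <;> simp only [Fo.code, pair_inj, natZ_inj] at h <;> try omega
    rw [ih1 h.2.1, ih2 h.2.2]
  | ex φ ih =>
    intro ψ h
    cases ψ <;> simp only [Fo.code, pair_inj, natZ_inj] at h <;> try omega
    rw [ih h.2]
theorem Fo.code_mem_HF (φ : Fo) : φ.code ∈ HF := by
  rw [mem_HF]
  have hn : ∀ n : ℕ, (natZ n).rank < ω := fun n => by rw [rank_natZ]; exact natCast_lt_omega0 n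
  induction φ with
  | mem i j => simp only [Fo.code, rank_pair_lt isSuccLimit_omega0]; exact ⟨hn _, hn _, hn _⟩
  | eq i j => simp only [Fo.code, rank_pair_lt isSuccLimit_omega0]; exact ⟨hn _, hn _, hn _⟩
  | neg φ ih => simp only [Fo.code, rank_pair_lt isSuccLimit_omega0]; exact ⟨hn _, ih⟩
  | and φ ψ ih1 ih2 =>
    simp only [Fo.code, rank_pair_lt isSuccLimit_omega0]; exact ⟨hn _, ih1, ih2⟩
  | ex φ ih => simp only [Fo.code, rank_pair_lt isSuccLimit_omega0]; exact ⟨hn _, ih⟩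
/-- numbering of formulas -/
def z3b_num : Fo → ℕ
  | .mem i j => Nat.pair 0 (Nat.pair i j)
  | .eq i j => Nat.pair 1 (Nat.pair i j)
  | .neg φ => Nat.pair 2 (z3b_num φ)
  | .and φ ψ => Nat.pair 3 (Nat.pair (z3b_num φ) (z3b_num ψ))
  | .ex φ => Nat.pair 4 (z3b_num φ)
theorem z3b_num_inj : Function.Injective z3b_num := by
  intro φ
  induction φ with
  | mem i j => intro ψ h; cases ψ <;> simp_all [z3b_num, Nat.pair_eq_pair]
  | eq i j => intro ψ h; cases ψ <;> simp_all [z3b_num, Nat.pair_eq_pair]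
  | neg φ ih =>
    intro ψ h
    cases ψ <;> simp only [z3b_num, Nat.pair_eq_pair] at h <;> try omega
    rw [ih h.2]
  | and φ χ ih1 ih2 =>
    intro ψ h
    cases ψ <;> simp only [z3b_num, Nat.pair_eq_pair] at h <;> try omega
    rw [ih1 h.2.1, ih2 h.2.2]
  | ex φ ih =>
    intro ψ h
    cases ψ <;> simp only [z3b_num, Nat.pair_eq_pair] at h <;> try omega
    rw [ih h.2]
instance : Nonempty Fo := ⟨.mem 0 0⟩
instance : Countable Fo := z3b_num_inj.countable
@[reducible] noncomputable instance : Enc Fo :=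
  ⟨Fo.code, Function.invFun Fo.code, Function.leftInverse_invFun Fo.code_inj⟩
@[simp] theorem enc_fo (φ : Fo) : enc φ = φ.code := rfl
/-- one step of the generation of codes -/
noncomputable def z3b_step (y : V) : V :=
  ((img (fun p => pair (natZ 0) p) (prod omegaZ omegaZ) ∪
    img (fun p => pair (natZ 1) p) (prod omegaZ omegaZ)) ∪ img (fun p => pair (natZ 2) p) y) ∪
    (img (fun p => pair (natZ 3) p) (prod y y) ∪ img (fun p => pair (natZ 4) p) y)
theorem z3b_mem_step {y x : V} : x ∈ z3b_step y ↔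
    (∃ i j : ℕ, (Fo.mem i j).code = x) ∨ (∃ i j : ℕ, (Fo.eq i j).code = x) ∨
    (∃ p ∈ y, pair (natZ 2) p = x) ∨ (∃ p ∈ y, ∃ q ∈ y, pair (natZ 3) (pair p q) = x) ∨
    (∃ p ∈ y, pair (natZ 4) p = x) := by
  have e1 : ∀ (a : V) (k : ℕ), (∃ p ∈ prod a a, pair (natZ k) p = x) ↔
      ∃ p ∈ a, ∃ q ∈ a, pair (natZ k) (pair p q) = x := fun a k =>
    ⟨fun ⟨p, hp, e⟩ => by
      obtain ⟨u, hu, w, hw, rfl⟩ := mem_prod.1 hp; exact ⟨u, hu, w, hw, e⟩,
    fun ⟨u, hu, w, hw, e⟩ => ⟨_, mem_prod.2 ⟨u, hu, w, hw, rfl⟩, e⟩⟩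
  have e2 : ∀ k : ℕ, (∃ p ∈ omegaZ, ∃ q ∈ omegaZ, pair (natZ k) (pair p q) = x) ↔
      ∃ i j : ℕ, pair (natZ k) (pair (natZ i) (natZ j)) = x := fun k =>
    ⟨fun ⟨p, hp, q, hq, e⟩ => by
      obtain ⟨i, rfl⟩ := mem_omegaZ.1 hp; obtain ⟨j, rfl⟩ := mem_omegaZ.1 hq; exact ⟨i, j, e⟩,
    fun ⟨i, j, e⟩ => ⟨_, natZ_mem_omegaZ i, _, natZ_mem_omegaZ j, e⟩⟩
  simp only [z3b_step, ZFSet.mem_union, mem_img, e1, e2, Fo.code, or_assoc]
theorem z3b_range : ZFSet.range Fo.code = ZFSet.iUnion fun n : ℕ => z3b_step^[n] ∅ := by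
  ext x
  rw [mem_range, ZFSet.mem_iUnion]
  constructor
  · rintro ⟨φ, rfl⟩
    suffices h : ∃ n, ∀ m, n ≤ m → φ.code ∈ z3b_step^[m + 1] ∅ by
      obtain ⟨n, hn⟩ := h; exact ⟨n + 1, hn n le_rfl⟩
    induction φ with
    | mem i j =>
      refine ⟨0, fun m _ => ?_⟩
      rw [Function.iterate_succ_apply', z3b_mem_step]; exact Or.inl ⟨i, j, rfl⟩
    | eq i j =>
      refine ⟨0, fun m _ => ?_⟩
      rw [Function.iterate_succ_apply', z3b_mem_step]; exact Or.inr (Or.inl ⟨i, j, rfl⟩)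
    | neg φ ih =>
      obtain ⟨n, hn⟩ := ih
      refine ⟨n + 1, fun m hm => ?_⟩
      obtain ⟨k, rfl⟩ : ∃ k, m = k + 1 := ⟨m - 1, by omega⟩
      rw [Function.iterate_succ_apply', z3b_mem_step]
      exact Or.inr (Or.inr (Or.inl ⟨_, hn k (by omega), rfl⟩))
    | and φ ψ ih1 ih2 =>
      obtain ⟨n, hn⟩ := ih1
      obtain ⟨n', hn'⟩ := ih2
      refine ⟨n + n' + 1, fun m hm => ?_⟩
      obtain ⟨k, rfl⟩ : ∃ k, m = k + 1 := ⟨m - 1, by omega⟩
      rw [Function.iterate_succ_apply', z3b_mem_step]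
      exact Or.inr (Or.inr (Or.inr (Or.inl ⟨_, hn k (by omega), _, hn' k (by omega), rfl⟩)))
    | ex φ ih =>
      obtain ⟨n, hn⟩ := ih
      refine ⟨n + 1, fun m hm => ?_⟩
      obtain ⟨k, rfl⟩ : ∃ k, m = k + 1 := ⟨m - 1, by omega⟩
      rw [Function.iterate_succ_apply', z3b_mem_step]
      exact Or.inr (Or.inr (Or.inr (Or.inr ⟨_, hn k (by omega), rfl⟩)))
  · rintro ⟨n, hn⟩
    induction n generalizing x with
    | zero => exact absurd hn (ZFSet.notMem_empty x)
    | succ n ih =>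
      rw [Function.iterate_succ_apply', z3b_mem_step] at hn
      rcases hn with ⟨i, j, e⟩ | ⟨i, j, e⟩ | ⟨p, hp, e⟩ | ⟨p, hp, q, hq, e⟩ | ⟨p, hp, e⟩
      · exact ⟨_, e⟩
      · exact ⟨_, e⟩
      · obtain ⟨φ, rfl⟩ := ih p hp; exact ⟨.neg φ, e⟩
      · obtain ⟨φ, rfl⟩ := ih p hp; obtain ⟨ψ, rfl⟩ := ih q hq; exact ⟨.and φ ψ, e⟩
      · obtain ⟨φ, rfl⟩ := ih p hp; exact ⟨.ex φ, e⟩
theorem z3b_uf_step {a : Set V → (ℕ → V) → V} [UF F a] : UF F (fun M v => z3b_step (a M v)) := by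
  have := UF.lift (F := F) a; unfold z3b_step; infer_instance
theorem z3b_uf_range : UF F (fun _ _ => ZFSet.range Fo.code) := by
  haveI : UF F (fun M v => z3b_step (dec (vr v 0))) := z3b_uf_step
  rw [z3b_range]; infer_instance
theorem z3b_uf_const (χ : Fo) : UF F (fun _ _ => χ.code) := by
  induction χ with
  | mem i j => unfold Fo.code; infer_instance
  | eq i j => unfold Fo.code; infer_instance
  | neg φ ih => unfold Fo.code; infer_instance
  | and φ ψ ih1 ih2 => unfold Fo.code; infer_instance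
  | ex φ ih => unfold Fo.code; infer_instance
theorem uf_decFo : UF F (fun _ v => (dec (vr v 0) : Fo)) := by
  classical
  haveI := z3b_uf_range (F := F)
  haveI := z3b_uf_const (F := F) (Classical.choice inferInstance)
  refine UF.of_enc ((inferInstance : UF F (fun _ v => if vr v 0 ∈ ZFSet.range Fo.code then vr v 0
    else Fo.code (Classical.choice inferInstance))).congr fun _ _ v _ => ?_)
  show Fo.code (Function.invFun Fo.code (vr v 0)) = _
  split_ifs with h
  · exact Function.invFun_eq (mem_range.1 h)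
  · rw [Function.invFun_neg (fun h' => h (mem_range.2 h'))]
@[reducible] noncomputable instance : Cd Fo := ⟨fun _ => uf_decFo⟩
/-- the set of codes of formulas -/
noncomputable def FoS : V := ZFSet.range Fo.code
theorem mem_FoS {x : V} : x ∈ FoS ↔ ∃ φ : Fo, φ.code = x := mem_range

section fo
variable {φ ψ : Set V → (ℕ → V) → Fo} {m n : Set V → (ℕ → V) → ℕ}
instance uf_code [h : UF F φ] : UF F (fun M v => (φ M v).code) := ⟨h.cl, h.gr⟩
instance uf_FoS : UF F (fun _ _ => FoS) := z3b_uf_range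
instance (priority := high) uf_foConst (χ : Fo) : UF F (fun _ _ => χ) :=
  UF.of_enc (z3b_uf_const χ)
instance uf_foMem [UF F m] [UF F n] : UF F (fun M v => Fo.mem (m M v) (n M v)) :=
  UF.of_enc (inferInstance : UF F (fun M v => pair (natZ 0) (pair (natZ (m M v)) (natZ (n M v)))))
instance uf_foEq [UF F m] [UF F n] : UF F (fun M v => Fo.eq (m M v) (n M v)) :=
  UF.of_enc (inferInstance : UF F (fun M v => pair (natZ 1) (pair (natZ (m M v)) (natZ (n M v)))))
instance uf_foNeg [UF F φ] : UF F (fun M v => Fo.neg (φ M v)) :=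
  UF.of_enc (inferInstance : UF F (fun M v => pair (natZ 2) (φ M v).code))
instance uf_foAnd [UF F φ] [UF F ψ] : UF F (fun M v => Fo.and (φ M v) (ψ M v)) :=
  UF.of_enc (inferInstance : UF F (fun M v => pair (natZ 3) (pair (φ M v).code (ψ M v).code)))
instance uf_foEx [UF F φ] : UF F (fun M v => Fo.ex (φ M v)) :=
  UF.of_enc (inferInstance : UF F (fun M v => pair (natZ 4) (φ M v).code))
variable {P : Set V → (ℕ → V) → Fo → Prop}
instance ud_exFo [UD F (fun M v => P M (tl v) (dec (vr v 0)))] :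
    UD F (fun M v => ∃ x, P M v x) :=
  UD.ex_of P fun M hM _ _ x _ => haveI := F.hZ M hM; IsZ.HF_subset M (Fo.code_mem_HF x)
instance ud_allFo [UD F (fun M v => P M (tl v) (dec (vr v 0)))] :
    UD F (fun M v => ∀ x, P M v x) :=
  (inferInstance : UD F (fun M v => ¬ ∃ x, ¬ P M v x)).congr fun _ _ _ _ => by simp

-- JOB B END

-- JOB C BEGIN
open Classical in
/-- the codes of the immediate subformulas -/
noncomputable def z3c_pr (z : V) : V :=
  if fst z = natZ 2 ∨ fst z = natZ 4 then {snd z}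
  else if fst z = natZ 3 then {fst (snd z), snd (snd z)} else ∅

/-- the recursion step for the set of satisfying lists -/
noncomputable def z3c_G (a b z f : V) : V :=
  ZFSet.sep (fun s => (fst z = natZ 0 ∧
      env (dec s) (natOf (fst (snd z))) ∈ env (dec s) (natOf (snd (snd z)))) ∨
    (fst z = natZ 1 ∧ env (dec s) (natOf (fst (snd z))) = env (dec s) (natOf (snd (snd z)))) ∨
    (fst z = natZ 2 ∧ s ∉ app f (snd z)) ∨
    (fst z = natZ 3 ∧ s ∈ app f (fst (snd z)) ∧ s ∈ app f (snd (snd z))) ∨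
    (fst z = natZ 4 ∧ ∃ x ∈ a, pair x s ∈ app f (snd z))) (lists b)

theorem z3c_pr_mem (i j : ℕ) : z3c_pr (Fo.mem i j).code = ∅ := by simp [z3c_pr, Fo.code, natZ_inj]
theorem z3c_pr_eq (i j : ℕ) : z3c_pr (Fo.eq i j).code = ∅ := by simp [z3c_pr, Fo.code, natZ_inj]
theorem z3c_pr_neg (χ : Fo) : z3c_pr χ.neg.code = {χ.code} := by simp [z3c_pr, Fo.code]
theorem z3c_pr_ex (χ : Fo) : z3c_pr χ.ex.code = {χ.code} := by simp [z3c_pr, Fo.code]
theorem z3c_pr_and (χ θ : Fo) : z3c_pr (χ.and θ).code = {χ.code, θ.code} := by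
  simp [z3c_pr, Fo.code, natZ_inj]

theorem z3c_acc (χ : Fo) : AccP z3c_pr χ.code := by
  induction χ with
  | mem i j => exact ⟨_, fun y hy => by simp [z3c_pr_mem] at hy⟩
  | eq i j => exact ⟨_, fun y hy => by simp [z3c_pr_eq] at hy⟩
  | neg χ ih => exact ⟨_, fun y hy => by rw [z3c_pr_neg, mem_singleton] at hy; exact hy ▸ ih⟩
  | ex χ ih => exact ⟨_, fun y hy => by rw [z3c_pr_ex, mem_singleton] at hy; exact hy ▸ ih⟩
  | and χ θ ih ih' =>
    refine ⟨_, fun y hy => ?_⟩
    rw [z3c_pr_and, mem_pair] at hy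
    rcases hy with rfl | rfl
    exacts [ih, ih']

theorem z3c_dec (l : List V) : (dec (listZ l) : List V) = l := dec_enc l

theorem z3c_spec {a b : V} (hab : a ⊆ b) (χ : Fo) : ∀ l : List V, (∀ x ∈ l, x ∈ b) →
    (listZ l ∈ grec z3c_pr (z3c_G a b) χ.code ↔ Sat1 (a : Set V) χ (env l)) := by
  induction χ with
  | mem i j =>
    intro l hl
    rw [grec_eq _ (z3c_acc _), z3c_G, mem_sep, and_iff_right (mem_lists.2 ⟨l, hl, rfl⟩), z3c_dec]
    simp [Fo.code, natZ_inj, Sat1]
  | eq i j =>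
    intro l hl
    rw [grec_eq _ (z3c_acc _), z3c_G, mem_sep, and_iff_right (mem_lists.2 ⟨l, hl, rfl⟩), z3c_dec]
    simp [Fo.code, natZ_inj, Sat1]
  | neg χ ih =>
    intro l hl
    rw [grec_eq _ (z3c_acc _), z3c_G, mem_sep, and_iff_right (mem_lists.2 ⟨l, hl, rfl⟩),
      z3c_pr_neg, Sat1, ← ih l hl, ← app_lam (a := {χ.code}) (grec _ _) (mem_singleton.2 rfl)]
    simp [Fo.code, natZ_inj]
  | and χ θ ih ih' =>
    intro l hl
    rw [grec_eq _ (z3c_acc _), z3c_G, mem_sep, and_iff_right (mem_lists.2 ⟨l, hl, rfl⟩),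
      z3c_pr_and, Sat1, ← ih l hl, ← ih' l hl,
      ← app_lam (a := {χ.code, θ.code}) (x := χ.code) (grec _ _) (mem_pair.2 (Or.inl rfl)),
      ← app_lam (a := {χ.code, θ.code}) (x := θ.code) (grec _ _) (mem_pair.2 (Or.inr rfl))]
    simp [Fo.code, natZ_inj]
  | ex χ ih =>
    intro l hl
    have e : ∀ x ∈ a, (pair x (listZ l) ∈ app (lam {χ.code} (grec z3c_pr (z3c_G a b))) χ.code ↔
        Sat1 (a : Set V) χ (cons x (env l))) := fun x hx => by
      rw [app_lam _ (mem_singleton.2 rfl), ← env_cons]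
      exact ih (x :: l) (List.forall_mem_cons.2 ⟨hab hx, hl⟩)
    rw [grec_eq _ (z3c_acc _), z3c_G, mem_sep, and_iff_right (mem_lists.2 ⟨l, hl, rfl⟩),
      z3c_pr_ex, Sat1]
    refine Iff.trans ?_ (exists_congr fun x => and_congr_right (e x))
    simp [Fo.code, natZ_inj]

theorem z3c_ent {l : List V} {x : V} (h : x ∈ l) :
    x ∈ List.foldr (fun y z : V => insert y z) ∅ l := by
  induction l with
  | nil => cases h
  | cons y l ih =>
    rw [List.foldr_cons, mem_insert_iff]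
    exact (List.mem_cons.1 h).imp_right ih

instance z3c_uf_pr {a : Set V → (ℕ → V) → V} [UF F a] : UF F (fun M v => z3c_pr (a M v)) := by
  unfold z3c_pr; infer_instance

instance z3c_uf_G {a b z f : Set V → (ℕ → V) → V} [UF F a] [UF F b] [UF F z] [UF F f] :
    UF F (fun M v => z3c_G (a M v) (b M v) (z M v) (f M v)) := by
  have := UF.lift (F := F) a; have := UF.lift (F := F) z; have := UF.lift (F := F) f
  unfold z3c_G; infer_instance

instance z3c_uf_S {a b z : Set V → (ℕ → V) → V} [UF F a] [UF F b] [UF F z] :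
    UF F (fun M v => grec z3c_pr (z3c_G (a M v) (b M v)) (z M v)) := by
  have := UF.lift (F := F) a; have := UF.lift (F := F) b
  exact uf_grec (pr := fun _ _ => z3c_pr) (G := fun M v => z3c_G (a M v) (b M v))

/-- internal satisfaction: set model, variable formula, list assignment (the entries of the list
need not belong to the model `a`) -/
instance ud_sat {a : Set V → (ℕ → V) → V} {l : Set V → (ℕ → V) → List V} [UF F a] [UF F φ]
    [UF F l] : UD F (fun M v => Sat1 (a M v : Set V) (φ M v) (env (l M v))) :=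
  (inferInstance : UD F (fun M v => listZ (l M v) ∈ grec z3c_pr (z3c_G (a M v)
    (a M v ∪ List.foldr (fun y z : V => insert y z) ∅ (l M v))) (φ M v).code)).congr
    fun _ _ _ _ => (z3c_spec (fun _ h => mem_union.2 (Or.inl h)) _ _
      fun _ h => mem_union.2 (Or.inr (z3c_ent h))).symm
/-- relativization: class model, fixed formula -/
instance ud_satC {D : Set V → (ℕ → V) → Set V} {g : Set V → (ℕ → V) → (ℕ → V)} (χ : Fo) [UC F D]
    [UV F g] : UD F (fun M v => Sat1 (D M v) χ (g M v)) := by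
  induction χ generalizing D g with
  | mem i j => exact (inferInstance : UD F (fun M v => vr (g M v) i ∈ vr (g M v) j))
  | eq i j => exact (inferInstance : UD F (fun M v => vr (g M v) i = vr (g M v) j))
  | neg χ ih => exact UD.not (h := ih)
  | and χ θ ih ih' => exact UD.and (h := ih) (k := ih')
  | ex χ ih =>
    have := UC.lift (F := F) D; have := UV.lift (F := F) g
    exact UD.exC (P := fun M v x => Sat1 (D M v) χ (cons x (g M v))) (h := ih)
instance uv_env {l : Set V → (ℕ → V) → List V} [UF F l] : UV F (fun M v => env (l M v)) :=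
  ⟨fun i => uf_env⟩
end fo
-- JOB C END

-- JOB D BEGIN
theorem z3d_all (X : Set V) (k : ℕ) {P : (ℕ → V) → Prop} {Q : List V → Prop}
    (hP : ∀ v w, (∀ i < k, v i = w i) → P v → P w)
    (hQ : ∀ l : List V, k ≤ l.length → (Q l ↔ P (env l))) :
    (∀ v, (∀ i, v i ∈ X) → P v) ↔
      ∃ n : ℕ, ∀ l : List V, (∀ x ∈ l, x ∈ X) → n ≤ l.length → Q l := by
  constructor
  · refine fun h => ⟨k + 1, fun l hl hn => (hQ l (by omega)).2 ?_⟩
    refine hP (fun i => l[min i k]'(by omega)) _ (fun i hi => ?_)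
      (h _ fun i => hl _ (List.getElem_mem _))
    simp only [env, min_eq_left hi.le]
    exact (List.getD_eq_getElem _ _ _).symm
  · rintro ⟨n, h⟩ v hv
    have e : ((List.range (n + k)).map v).length = n + k := by simp
    refine hP _ v (fun i hi => env_ofFn v (n + k) i (by omega))
      ((hQ _ (by omega)).1 (h _ (fun x hx => ?_) (by omega)))
    obtain ⟨i, -, rfl⟩ := List.mem_map.1 hx
    exact hv i

theorem z3d_cons {k : ℕ} {v w : ℕ → V} (h : ∀ i < k, v i = w i) (x : V) :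
    ∀ i < k, cons x v i = cons x w i := fun i hi => by
  cases i with
  | zero => rfl
  | succ i => exact h i (by omega)

theorem z3d_elem {j A B : V} :
    IsElem j A B ↔ IsFunc A B j ∧ Elem (app j) (A : Set V) (B : Set V) := by
  refine and_congr_right fun h => ?_
  obtain ⟨h1, rfl, h3⟩ := isFunc_iff.1 h
  refine ⟨fun k => ⟨h3, fun φ v hv => k φ v _ fun i => h1.pair_app_mem (hv i)⟩,
    fun k φ v w hv => ?_⟩
  rw [show w = app j ∘ v from funext fun i => (h1.app_eq (hv i)).symm]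
  exact k.2 φ v fun i => mem_dom.2 ⟨_, hv i⟩

theorem z3d_elemL {j : V → V} {A B : Set V} : Elem j A B ↔ (∀ x ∈ A, j x ∈ B) ∧ ∀ φ : Fo, ∃ n : ℕ,
    ∀ l : List V, (∀ x ∈ l, x ∈ A) → n ≤ l.length →
      (Sat1 A φ (env l) ↔ Sat1 B φ (env (l.map j))) :=
  and_congr_right fun _ => forall_congr' fun φ => z3d_all A φ.fv
    (fun v w h k => by
      rwa [← sat_congr A φ v w h, ← sat_congr B φ (j ∘ v) (j ∘ w) fun i hi => congrArg j (h i hi)])
    fun l hl => iff_congr Iff.rfl (sat_congr B φ _ _ fun i hi => by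
      simp [env, hi.trans_le hl])

theorem z3d_isZ {A : Set V} : IsZ A ↔ (∀ x ∈ A, ∀ y ∈ x, y ∈ A) ∧ omegaZ ∈ A ∧
    (∀ a ∈ A, ∀ b ∈ A, ({a, b} : V) ∈ A) ∧ (∀ a ∈ A, (⋃₀ a : V) ∈ A) ∧
    (∀ φ : Fo, ∀ l : List V, (∀ x ∈ l, x ∈ A) →
      ∀ a ∈ A, ZFSet.sep (fun x => Sat1 A φ (env (x :: l))) a ∈ A) ∧
    ∀ φ : Fo, ∀ l : List V, (∀ x ∈ l, x ∈ A) → ∀ a ∈ A,
      (∀ x ∈ a, ∃ y ∈ A, Sat1 A φ (env (y :: x :: l))) →
        ∃ b ∈ A, ∀ x ∈ a, ∃ y ∈ b, Sat1 A φ (env (y :: x :: l)) := by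
  simp only [env_cons]
  refine ⟨fun h => ⟨h.trans, h.omega, h.upair, h.sUnion,
    fun φ l hl => h.sep φ _ (env_mem (IsZ.empty_mem A) hl),
    fun φ l hl => h.coll φ _ (env_mem (IsZ.empty_mem A) hl)⟩, fun ⟨h1, h2, h3, h4, h5, h6⟩ => ?_⟩
  have e : ∀ (v : ℕ → V) k, (∀ i, v i ∈ A) → ∀ x ∈ (List.range k).map v, x ∈ A :=
    fun v k hv x hx => by
      obtain ⟨i, -, rfl⟩ := List.mem_map.1 hx
      exact hv i
  refine ⟨h1, h2, h3, h4, fun φ v hv => ?_, fun φ v hv => ?_⟩
  · simpa only [fun x => sat_congr A φ _ _ (z3d_cons (env_ofFn v φ.fv) x)] using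
      h5 φ _ (e v φ.fv hv)
  · simpa only [fun x y => sat_congr A φ _ _ (z3d_cons (z3d_cons (env_ofFn v φ.fv) x) y)] using
      h6 φ _ (e v φ.fv hv)

theorem z3d_inj {f a : V} :
    (∃ o : Ordinal.{0}, IsInj f a o.toZFSet) ↔ IsInj f a (Order.succ f.rank).toZFSet := by
  refine ⟨fun ⟨o, h, h'⟩ => ⟨?_, h'⟩, fun h => ⟨_, h⟩⟩
  obtain ⟨h1, h2, h3⟩ := isFunc_iff.1 h
  refine isFunc_iff.2 ⟨h1, h2, fun x hx => ?_⟩
  obtain ⟨p, -, e⟩ := mem_toZFSet_iff.1 (h3 x hx)
  have := rank_app_le f x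
  rw [← e, rank_toZFSet] at this
  rw [← e]
  exact toZFSet_mem_toZFSet_iff.2 (Order.lt_succ_of_le this)

section models
variable {a b c : Set V → (ℕ → V) → V}
instance ud_isElem [UF F a] [UF F b] [UF F c] :
    UD F (fun M v => IsElem (a M v) (b M v) (c M v)) :=
  haveI := UF.lift (F := F) a; haveI := UF.lift (F := F) b; haveI := UF.lift (F := F) c
  (inferInstance : UD F (fun M v => IsFunc (b M v) (c M v) (a M v) ∧
    (∀ x ∈ b M v, app (a M v) x ∈ c M v) ∧ ∀ φ : Fo, ∃ n : ℕ,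
      ∀ l : List V, (∀ x ∈ l, x ∈ b M v) → n ≤ l.length → (Sat1 (b M v : Set V) φ (env l) ↔
        Sat1 (c M v : Set V) φ (env (l.map fun x => app (a M v) x))))).congr fun _ _ _ _ =>
    z3d_elem.trans (and_congr_right fun _ => z3d_elemL)
instance ud_isZ [UF F a] : UD F (fun M v => IsZ (a M v : Set V)) :=
  haveI := UF.lift (F := F) a
  (inferInstance : UD F (fun M v => (∀ x ∈ a M v, ∀ y ∈ x, y ∈ a M v) ∧ omegaZ ∈ a M v ∧
    (∀ x ∈ a M v, ∀ y ∈ a M v, ({x, y} : V) ∈ a M v) ∧ (∀ x ∈ a M v, (⋃₀ x : V) ∈ a M v) ∧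
    (∀ φ : Fo, ∀ l : List V, (∀ x ∈ l, x ∈ a M v) → ∀ u ∈ a M v,
      ZFSet.sep (fun x => Sat1 (a M v : Set V) φ (env (x :: l))) u ∈ a M v) ∧
    ∀ φ : Fo, ∀ l : List V, (∀ x ∈ l, x ∈ a M v) → ∀ u ∈ a M v,
      (∀ x ∈ u, ∃ y ∈ a M v, Sat1 (a M v : Set V) φ (env (y :: x :: l))) →
        ∃ t ∈ a M v, ∀ x ∈ u, ∃ y ∈ t, Sat1 (a M v : Set V) φ (env (y :: x :: l)))).congr
    fun _ _ _ _ => z3d_isZ
instance ud_isT [UF F a] : UD F (fun M v => IsT (a M v : Set V)) :=
  haveI := UF.lift (F := F) a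
  (inferInstance : UD F (fun M v => IsZ (a M v : Set V) ∧
    ∀ x ∈ a M v, ∃ f ∈ a M v, IsInj f x (Order.succ f.rank).toZFSet)).congr fun _ _ _ _ => by
    simp only [← z3d_inj]
    exact ⟨fun h => ⟨h.toIsZ, h.wo⟩, fun h => { h.1 with wo := h.2 }⟩
instance ud_isZFC [UF F a] : UD F (fun M v => IsZFC (a M v : Set V)) :=
  haveI := UF.lift (F := F) a
  (inferInstance : UD F (fun M v => IsT (a M v : Set V) ∧
    ∀ x ∈ a M v, ∃ p ∈ a M v, ∀ y ∈ a M v, y ⊆ x → y ∈ p)).congr fun _ _ _ _ =>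
    ⟨fun h => ⟨h.toIsT, h.pow⟩, fun h => { h.1 with pow := h.2 }⟩
end models

/-- `X` is an elementary substructure of `H` -/
def ElemSub (X H : V) : Prop := Elem (fun x => x) (X : Set V) (H : Set V)
instance ud_elemSub {a b : Set V → (ℕ → V) → V} [UF F a] [UF F b] :
    UD F (fun M v => ElemSub (a M v) (b M v)) :=
  haveI := UF.lift (F := F) a; haveI := UF.lift (F := F) b
  (inferInstance : UD F (fun M v => (∀ x ∈ a M v, x ∈ b M v) ∧ ∀ φ : Fo, ∃ n : ℕ,
      ∀ l : List V, (∀ x ∈ l, x ∈ a M v) → n ≤ l.length → (Sat1 (a M v : Set V) φ (env l) ↔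
        Sat1 (b M v : Set V) φ (env (l.map fun x => x))))).congr fun _ _ _ _ => z3d_elemL
theorem ElemSub.subset {X H : V} (h : ElemSub X H) : X ⊆ H := fun x hx => h.1 x hx
/-- Tarski-Vaught test -/
theorem elemSub_of_tv {X H : V} (hs : X ⊆ H)
    (h : ∀ (φ : Fo) (v : ℕ → V), (∀ i, v i ∈ X) → (∃ y ∈ H, Sat1 H φ (cons y v)) →
      ∃ y ∈ X, Sat1 H φ (cons y v)) : ElemSub X H := by
  refine ⟨fun x hx => hs hx, fun φ => ?_⟩
  show ∀ v : ℕ → V, (∀ i, v i ∈ (X : Set V)) → (Sat1 X φ v ↔ Sat1 H φ v)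
  induction φ with
  | mem i j => exact fun _ _ => Iff.rfl
  | eq i j => exact fun _ _ => Iff.rfl
  | neg φ ih => exact fun v hv => not_congr (ih v hv)
  | and φ ψ ih ih' => exact fun v hv => and_congr (ih v hv) (ih' v hv)
  | ex φ ih =>
    refine fun v hv => ⟨fun ⟨y, hy, e⟩ => ⟨y, hs hy, (ih _ (cons_mem hy hv)).1 e⟩, fun e => ?_⟩
    obtain ⟨y, hy, e⟩ := h φ v hv e
    exact ⟨y, hy, (ih _ (cons_mem hy hv)).2 e⟩
/-- Tarski-Vaught test with list assignments -/
theorem elemSub_of_tvL {X H : V} (hs : X ⊆ H) (h0 : (∅ : V) ∈ X)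
    (h : ∀ (φ : Fo) (l : List V), (∀ x ∈ l, x ∈ X) → (∃ y ∈ H, Sat1 H φ (env (y :: l))) →
      ∃ y ∈ X, Sat1 H φ (env (y :: l))) : ElemSub X H := by
  refine elemSub_of_tv hs fun φ v hv => ?_
  simpa only [env_cons, fun x => sat_congr H φ _ _ (z3d_cons (env_ofFn v φ.fv) x)] using
    h φ ((List.range φ.fv).map v) fun x hx => by
      obtain ⟨i, -, rfl⟩ := List.mem_map.1 hx
      exact hv i
/-- union of a directed family of elementary substructures -/
theorem elemSub_sUnion {S H : V} (hne : S.Nonempty) (h : ∀ X ∈ S, ElemSub X H)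
    (hd : ∀ X ∈ S, ∀ Y ∈ S, ∃ Z ∈ S, X ⊆ Z ∧ Y ⊆ Z) : ElemSub (⋃₀ S) H := by
  refine elemSub_of_tv (fun x hx => ?_) fun φ v hv e => ?_
  · obtain ⟨X, h1, h2⟩ := mem_sUnion.1 hx
    exact (h X h1).subset h2
  have h1 : ∀ k : ℕ, ∃ Z ∈ S, ∀ i ≤ k, v i ∈ Z := fun k => by
    induction k with
    | zero =>
      obtain ⟨X, h1, h2⟩ := mem_sUnion.1 (hv 0)
      exact ⟨X, h1, fun i hi => Nat.le_zero.1 hi ▸ h2⟩
    | succ k ih =>
      obtain ⟨X, h1, h2⟩ := ih
      obtain ⟨Y, h3, h4⟩ := mem_sUnion.1 (hv (k + 1))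
      obtain ⟨Z, h5, h6, h7⟩ := hd X h1 Y h3
      exact ⟨Z, h5, fun i hi => (Nat.of_le_succ hi).elim (fun e => h6 (h2 i e)) fun e => e ▸ h7 h4⟩
  obtain ⟨Z, h2, h3⟩ := h1 φ.fv
  have h4 : ∀ i, v (min i φ.fv) ∈ (Z : Set V) := fun i => h3 _ (min_le_right _ _)
  have h5 := fun y => sat_congr H φ _ _ (z3d_cons (v := v) (w := fun i => v (min i φ.fv))
    (fun i hi => by rw [min_eq_left hi.le]) y)
  simp only [h5] at e ⊢
  obtain ⟨y, h6, h7⟩ := ((h Z h2).2 (.ex φ) _ h4).2 e
  exact ⟨y, mem_sUnion.2 ⟨Z, h2, h6⟩, ((h Z h2).2 φ _ (cons_mem h6 h4)).1 h7⟩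

theorem isElem_iff {j A B : V} (hA : A.Nonempty) :
    IsElem j A B ↔ IsFunc A B j ∧ Elem (app j) (A : Set V) (B : Set V) := z3d_elem
theorem IsElem.elem {j A B : V} (h : IsElem j A B) : Elem (app j) (A : Set V) (B : Set V) :=
  (z3d_elem.1 h).2
theorem Elem.isElem {j : V → V} {A B : V} (h : Elem j (A : Set V) (B : Set V)) :
    IsElem (lam A j) A B := by
  refine ⟨isFunc_lam h.1, fun φ v w hv => ?_⟩
  rw [show w = j ∘ v from funext fun i => (pair_mem_lam.1 (hv i)).2]
  exact h.2 φ v fun i => (pair_mem_lam.1 (hv i)).1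
-- JOB D END

end Pool.Agent.Lib.MP_f9eb18_lc.W
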