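import Pool.Agent.Lib.MP_f9eb18_lc.W.Z3

/-! # Elementary maps, collapses, well-orders -/

namespace Pool.Agent.Lib.MP_f9eb18_lc.W

open Ordinal ZFSet
set_option linter.style.haveILetI false
set_option linter.unusedVariables false
set_option synthInstance.maxSize 100000

variable {F : Fr}

-- JOB A BEGIN
/-! ### transfer along elementary maps -/
class Fr.Pure (F : Fr) : Prop where
  out : F.C = {∅}
class InK (F : Fr) (M : Set V) : Prop where
  out : F.K M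
instance : pZ.Pure := ⟨rfl⟩
instance : pT.Pure := ⟨rfl⟩
instance : pP.Pure := ⟨rfl⟩
instance (M : Set V) [h : IsZ M] : InK pZ M := ⟨h⟩
instance (M : Set V) [h : IsT M] : InK pT M := ⟨h⟩
instance (M : Set V) [h : IsZFC M] : InK pP M := ⟨h⟩

section elem
variable {j k : V → V} {M M' M'' : Set V}
theorem Elem.id (M : Set V) : Elem (fun x => x) M M := ⟨fun _ h => h, fun _ _ _ => Iff.rfl⟩
theorem Elem.comp (h : Elem j M M') (h' : Elem k M' M'') : Elem (fun x => k (j x)) M M'' :=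
  ⟨fun x hx => h'.1 _ (h.1 x hx), fun φ v hv =>
    (h.2 φ v hv).trans (h'.2 φ (j ∘ v) fun i => h.1 _ (hv i))⟩
theorem Elem.congr (h : Elem j M M') (e : ∀ x ∈ M, k x = j x) : Elem k M M' := by
  refine ⟨fun x hx => by rw [e x hx]; exact h.1 x hx, fun φ v hv => ?_⟩
  have e2 : k ∘ v = j ∘ v := funext fun i => e _ (hv i)
  rw [e2]; exact h.2 φ v hv
/-- if `k ∘ j` and `k` are elementary, so is `j` -/
theorem Elem.of_comp (hj : ∀ x ∈ M, j x ∈ M') (h' : Elem k M' M'')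
    (h : Elem (fun x => k (j x)) M M'') : Elem j M M' :=
  ⟨hj, fun φ v hv => (h.2 φ v hv).trans (h'.2 φ (j ∘ v) fun i => hj _ (hv i)).symm⟩
theorem Elem.mem_iff (h : Elem j M M') {x y : V} (hx : x ∈ M) (hy : y ∈ M) : j x ∈ j y ↔ x ∈ y :=
  (h.2 (.mem 0 1) (cons x fun _ => y) (cons_mem hx fun _ => hy)).symm
theorem Elem.inj (h : Elem j M M') {x y : V} (hx : x ∈ M) (hy : y ∈ M) : j x = j y ↔ x = y :=
  (h.2 (.eq 0 1) (cons x fun _ => y) (cons_mem hx fun _ => hy)).symm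

/-- `φ` holds under every assignment with values in `M` -/
def z4a_Val (M : Set V) (φ : Fo) : Prop := ∀ v : ℕ → V, (∀ i, v i ∈ M) → Sat1 M φ v

theorem z4a_val_left (h : Elem j M M') (φ : Fo) (H : z4a_Val M' φ) : z4a_Val M φ :=
  fun v hv => (h.2 φ v hv).2 (H _ fun i => h.1 _ (hv i))

theorem z4a_val_right_aux (h : Elem j M M') (hne : M.Nonempty) (n : ℕ) :
    ∀ φ : Fo, φ.fv ≤ n → z4a_Val M φ → z4a_Val M' φ := by
  induction n with
  | zero =>
    intro φ hφ H w hw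
    obtain ⟨a, ha⟩ := hne
    have h1 := (h.2 φ (fun _ => a) fun _ => ha).1 (H _ fun _ => ha)
    exact (sat_congr M' φ _ w fun i hi => absurd hi (by omega)).1 h1
  | succ n ih =>
    intro φ hφ H w hw
    have h1 : z4a_Val M (.neg (.ex (.neg φ))) := fun v hv ⟨a, ha, hn⟩ =>
      hn (H _ (cons_mem ha hv))
    have h2 := ih (.neg (.ex (.neg φ))) (by simp only [Fo.fv]; omega) h1 (tl w) (tl_mem hw)
    by_contra hc
    refine h2 ⟨vr w 0, hw 0, ?_⟩
    rw [cons_tl]; exact hc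

theorem z4a_val_right (h : Elem j M M') (hne : M.Nonempty) (φ : Fo) (H : z4a_Val M φ) :
    z4a_Val M' φ := z4a_val_right_aux h hne φ.fv φ le_rfl H

/-- `P` is expressed by a single formula in all structures -/
def z4a_D (P : Set V → (ℕ → V) → Prop) : Prop :=
  ∃ φ : Fo, ∀ (M : Set V) (v : ℕ → V), P M v ↔ Sat1 M φ v

theorem z4a_D.mem (a b : ℕ) : z4a_D (fun _ v => v a ∈ v b) := ⟨.mem a b, fun _ _ => Iff.rfl⟩
theorem z4a_D.eq (a b : ℕ) : z4a_D (fun _ v => v a = v b) := ⟨.eq a b, fun _ _ => Iff.rfl⟩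
theorem z4a_D.sat (φ : Fo) (f : ℕ → ℕ) : z4a_D (fun M v => Sat1 M φ (v ∘ f)) :=
  ⟨φ.ren f, fun M v => (sat_ren M φ f v).symm⟩
theorem z4a_D.congr {P Q : Set V → (ℕ → V) → Prop} (h : z4a_D P) (e : ∀ M v, Q M v ↔ P M v) :
    z4a_D Q := by
  obtain ⟨φ, H⟩ := h
  exact ⟨φ, fun M v => (e M v).trans (H M v)⟩
theorem z4a_D.not {P : Set V → (ℕ → V) → Prop} (h : z4a_D P) : z4a_D (fun M v => ¬ P M v) := by
  obtain ⟨φ, H⟩ := h
  exact ⟨.neg φ, fun M v => not_congr (H M v)⟩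
theorem z4a_D.and {P Q : Set V → (ℕ → V) → Prop} (h : z4a_D P) (h' : z4a_D Q) :
    z4a_D (fun M v => P M v ∧ Q M v) := by
  obtain ⟨φ, H⟩ := h
  obtain ⟨ψ, K⟩ := h'
  exact ⟨.and φ ψ, fun M v => and_congr (H M v) (K M v)⟩
theorem z4a_D.ex {P : Set V → (ℕ → V) → Prop} (h : z4a_D P) :
    z4a_D (fun M v => ∃ x ∈ M, P M (cons x v)) := by
  obtain ⟨φ, H⟩ := h
  exact ⟨.ex φ, fun M v => exists_congr fun a => and_congr_right fun _ => H M _⟩
theorem z4a_D.all {P : Set V → (ℕ → V) → Prop} (h : z4a_D P) :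
    z4a_D (fun M v => ∀ x ∈ M, P M (cons x v)) :=
  h.not.ex.not.congr fun _ _ => by simp
theorem z4a_D.or {P Q : Set V → (ℕ → V) → Prop} (h : z4a_D P) (h' : z4a_D Q) :
    z4a_D (fun M v => P M v ∨ Q M v) := (h.not.and h'.not).not.congr fun _ _ => by tauto
theorem z4a_D.imp {P Q : Set V → (ℕ → V) → Prop} (h : z4a_D P) (h' : z4a_D Q) :
    z4a_D (fun M v => P M v → Q M v) := (h.and h'.not).not.congr fun _ _ => by tauto
theorem z4a_D.iff {P Q : Set V → (ℕ → V) → Prop} (h : z4a_D P) (h' : z4a_D Q) :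
    z4a_D (fun M v => P M v ↔ Q M v) := ((h.imp h').and (h'.imp h)).congr fun _ _ => by tauto

theorem z4a_D.transfer {P : Set V → (ℕ → V) → Prop} (h : z4a_D P) {A B : Set V}
    (e : ∀ φ, z4a_Val A φ → z4a_Val B φ) (H : ∀ v : ℕ → V, (∀ i, v i ∈ A) → P A v) :
    ∀ v : ℕ → V, (∀ i, v i ∈ B) → P B v := by
  obtain ⟨φ, K⟩ := h
  exact fun v hv => (K B v).2 (e φ (fun w hw => (K A w).1 (H w hw)) v hv)

theorem z4a_natZ_succ (n : ℕ) : natZ (n + 1) = insert (natZ n) (natZ n) := by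
  simp [natZ, Ordinal.toZFSet_add_one]

theorem z4a_eq_omega {w : V} (h0 : (∅ : V) ∈ w) (hs : ∀ x ∈ w, insert x x ∈ w)
    (hp : ∀ x ∈ w, x = ∅ ∨ ∃ y ∈ w, x = insert y y) : w = omegaZ := by
  have hz : natZ 0 = ∅ := by simp [natZ]
  ext x
  rw [mem_omegaZ]
  constructor
  · induction x using ZFSet.inductionOn with
    | h x ih =>
      intro hx
      rcases hp x hx with rfl | ⟨y, hy, rfl⟩
      · exact ⟨0, hz⟩
      · obtain ⟨n, rfl⟩ := ih y (by simp) hy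
        exact ⟨n + 1, z4a_natZ_succ n⟩
  · rintro ⟨n, rfl⟩
    induction n with
    | zero => rw [hz]; exact h0
    | succ n ih => rw [z4a_natZ_succ]; exact hs _ ih

theorem z4a_isZ {A B : Set V} [hA : IsZ A] (e : ∀ φ, z4a_Val A φ → z4a_Val B φ)
    (ht : ∀ x ∈ B, ∀ y ∈ x, y ∈ B) (hne : B.Nonempty) : IsZ B := by
  have ext : ∀ p ∈ B, ∀ q : V, (∀ x ∈ q, x ∈ B) → (∀ x ∈ B, x ∈ p ↔ x ∈ q) → q ∈ B := by
    intro p hp q hq H
    have : q = p := ZFSet.ext fun x =>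
      ⟨fun hx => (H x (hq x hx)).2 hx, fun hx => (H x (ht p hp x hx)).1 hx⟩
    rw [this]; exact hp
  refine ⟨ht, ?_, fun a ha b hb => ?_, fun a ha => ?_, fun φ v hv a ha => ?_,
    fun φ v hv a ha H => ?_⟩
  · -- infinity
    have D : z4a_D (fun M _ => ∃ w ∈ M, (∃ z ∈ M, z ∈ w ∧ ∀ t ∈ M, t ∉ z) ∧
        (∀ x ∈ M, x ∈ w → ∃ s ∈ M, s ∈ w ∧ ∀ t ∈ M, t ∈ s ↔ t = x ∨ t ∈ x) ∧
        (∀ x ∈ M, x ∈ w → (∀ t ∈ M, t ∉ x) ∨
          ∃ y ∈ M, y ∈ w ∧ ∀ t ∈ M, t ∈ x ↔ t = y ∨ t ∈ y)) :=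
      (((z4a_D.mem 0 1).and (z4a_D.mem 0 1).not.all).ex.and
        ((((z4a_D.mem 0 1).imp ((z4a_D.mem 0 2).and
          ((z4a_D.mem 0 1).iff ((z4a_D.eq 0 2).or (z4a_D.mem 0 2))).all).ex).all).and
        (((z4a_D.mem 0 1).imp ((z4a_D.mem 0 1).not.all.or ((z4a_D.mem 0 2).and
          ((z4a_D.mem 0 2).iff ((z4a_D.eq 0 1).or (z4a_D.mem 0 1))).all).ex)).all))).ex
    obtain ⟨b, hb⟩ := hne
    obtain ⟨w, hw, ⟨z, hz, hzw, hz0⟩, hs, hp⟩ := D.transfer e (fun _ _ => by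
      refine ⟨omegaZ, hA.omega, ⟨natZ 0, hA.trans _ hA.omega _ (natZ_mem_omegaZ 0),
        natZ_mem_omegaZ 0, fun t _ => by simp [natZ]⟩, fun x _ hx => ?_, fun x _ hx => ?_⟩
      · obtain ⟨n, rfl⟩ := mem_omegaZ.1 hx
        exact ⟨natZ (n + 1), hA.trans _ hA.omega _ (natZ_mem_omegaZ _), natZ_mem_omegaZ _,
          fun t _ => by rw [z4a_natZ_succ, ZFSet.mem_insert_iff]⟩
      · obtain ⟨n, rfl⟩ := mem_omegaZ.1 hx
        cases n with
        | zero => exact Or.inl fun t _ => by simp [natZ]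
        | succ n =>
          exact Or.inr ⟨natZ n, hA.trans _ hA.omega _ (natZ_mem_omegaZ _), natZ_mem_omegaZ _,
            fun t _ => by rw [z4a_natZ_succ, ZFSet.mem_insert_iff]⟩)
      (fun _ => b) (fun _ => hb)
    have emp : ∀ x ∈ B, (∀ t ∈ B, t ∉ x) → x = ∅ := fun x hx H =>
      (ZFSet.eq_empty _).2 fun t hx' => H t (ht x hx t hx') hx'
    have suc : ∀ x ∈ B, ∀ y ∈ B, (∀ t ∈ B, t ∈ x ↔ t = y ∨ t ∈ y) → x = insert y y := by
      intro x hx y hy H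
      ext t
      rw [ZFSet.mem_insert_iff]
      refine ⟨fun h1 => (H t (ht x hx t h1)).1 h1, fun h1 => (H t ?_).2 h1⟩
      rcases h1 with rfl | h1
      · exact hy
      · exact ht y hy t h1
    have : w = omegaZ := by
      refine z4a_eq_omega (emp z hz hz0 ▸ hzw) (fun x hx => ?_) (fun x hx => ?_)
      · obtain ⟨s, hsB, hsw, H⟩ := hs x (ht w hw x hx) hx
        rw [← suc s hsB x (ht w hw x hx) H]; exact hsw
      · rcases hp x (ht w hw x hx) hx with H | ⟨y, hy, hyw, H⟩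
        · exact Or.inl (emp x (ht w hw x hx) H)
        · exact Or.inr ⟨y, hyw, suc x (ht w hw x hx) y hy H⟩
    rw [← this]; exact hw
  · -- pairing
    have D : z4a_D (fun M v => ∃ p ∈ M, ∀ x ∈ M, x ∈ p ↔ x = v 0 ∨ x = v 1) :=
      ((z4a_D.mem 0 1).iff ((z4a_D.eq 0 2).or (z4a_D.eq 0 3))).all.ex
    obtain ⟨p, hp, H⟩ := D.transfer e (fun v hv => ⟨{v 0, v 1}, hA.upair _ (hv 0) _ (hv 1),
      fun x _ => ZFSet.mem_pair⟩) (cons a fun _ => b) (cons_mem ha fun _ => hb)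
    refine ext p hp _ (fun x hx => ?_) (fun x hx => (H x hx).trans ZFSet.mem_pair.symm)
    rcases ZFSet.mem_pair.1 hx with rfl | rfl
    · exact ha
    · exact hb
  · -- union
    have D : z4a_D (fun M v => ∃ p ∈ M, ∀ x ∈ M, x ∈ p ↔ ∃ y ∈ M, y ∈ v 0 ∧ x ∈ y) :=
      ((z4a_D.mem 0 1).iff ((z4a_D.mem 0 3).and (z4a_D.mem 1 0)).ex).all.ex
    obtain ⟨p, hp, H⟩ := D.transfer e (fun v hv => ⟨⋃₀ (v 0), hA.sUnion _ (hv 0), fun x _ => by
      rw [ZFSet.mem_sUnion]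
      exact ⟨fun ⟨y, h1, h2⟩ => ⟨y, hA.trans _ (hv 0) _ h1, h1, h2⟩,
        fun ⟨y, _, h1, h2⟩ => ⟨y, h1, h2⟩⟩⟩) (fun _ => a) (fun _ => ha)
    refine ext p hp _ (fun x hx => ?_) (fun x hx => (H x hx).trans ?_)
    · obtain ⟨y, h1, h2⟩ := ZFSet.mem_sUnion.1 hx
      exact ht y (ht a ha y h1) x h2
    · rw [ZFSet.mem_sUnion]
      exact ⟨fun ⟨y, _, h1, h2⟩ => ⟨y, h1, h2⟩, fun ⟨y, h1, h2⟩ => ⟨y, ht a ha y h1, h1, h2⟩⟩
  · -- separation
    have D : z4a_D (fun M v => ∃ p ∈ M, ∀ x ∈ M,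
        x ∈ p ↔ x ∈ v 0 ∧ Sat1 M φ (cons x (tl v))) :=
      (((z4a_D.mem 0 1).iff ((z4a_D.mem 0 2).and
        (z4a_D.sat φ (cons 0 fun i => i + 3)))).all.ex).congr fun M v => by
        refine exists_congr fun p => and_congr_right fun _ => forall₂_congr fun x _ => ?_
        have : (cons x (cons p v) ∘ cons 0 fun i => i + 3) = cons x (tl v) := by
          funext i; cases i <;> rfl
        rw [this]; rfl
    obtain ⟨p, hp, H⟩ := D.transfer e (fun v hv => ⟨_, hA.sep φ (tl v) (tl_mem hv) _ (hv 0),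
      fun x _ => ZFSet.mem_sep⟩) (cons a v) (cons_mem ha hv)
    exact ext p hp _ (fun x hx => ht a ha x (ZFSet.mem_sep.1 hx).1)
      (fun x hx => by rw [ZFSet.mem_sep]; exact H x hx)
  · -- collection
    have D : z4a_D (fun M v => (∀ x ∈ M, x ∈ v 0 → ∃ y ∈ M, Sat1 M φ (cons y (cons x (tl v)))) →
        ∃ b ∈ M, ∀ x ∈ M, x ∈ v 0 → ∃ y ∈ M, y ∈ b ∧ Sat1 M φ (cons y (cons x (tl v)))) :=
      ((((z4a_D.mem 0 1).imp (z4a_D.sat φ (cons 0 (cons 1 fun i => i + 3))).ex).all).imp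
        (((z4a_D.mem 0 2).imp ((z4a_D.mem 0 2).and
          (z4a_D.sat φ (cons 0 (cons 1 fun i => i + 4)))).ex).all.ex)).congr fun M v => by
        have e1 : ∀ x y : V, (cons y (cons x v) ∘ cons 0 (cons 1 fun i => i + 3)) =
            cons y (cons x (tl v)) := fun x y => by
          funext i; rcases i with _ | _ | i <;> rfl
        have e2 : ∀ b x y : V, (cons y (cons x (cons b v)) ∘ cons 0 (cons 1 fun i => i + 4)) =
            cons y (cons x (tl v)) := fun b x y => by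
          funext i; rcases i with _ | _ | i <;> rfl
        simp only [e1, e2]; rfl
    obtain ⟨b, hb, K⟩ := D.transfer e (fun v hv H => by
      obtain ⟨b, hb, K⟩ := hA.coll φ (tl v) (tl_mem hv) _ (hv 0)
        (fun x hx => H x (hA.trans _ (hv 0) _ hx) hx)
      refine ⟨b, hb, fun x _ hx => ?_⟩
      obtain ⟨y, hy, hs⟩ := K x hx
      exact ⟨y, hA.trans _ hb _ hy, hy, hs⟩) (cons a v) (cons_mem ha hv) (fun x _ hx => H x hx)
    refine ⟨b, hb, fun x hx => ?_⟩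
    obtain ⟨y, _, hy, hs⟩ := K x (ht a ha x hx) hx
    exact ⟨y, hy, hs⟩

theorem z4a_isInj_ran {f a : V} {o : Ordinal.{0}} (h : IsInj f a o.toZFSet) :
    IsInj f a (ran f).rank.toZFSet := by
  obtain ⟨h1, h2⟩ := h
  obtain ⟨hf, hd, hr⟩ := isFunc_iff.1 h1
  refine ⟨isFunc_iff.2 ⟨hf, hd, fun x hx => ?_⟩, h2⟩
  obtain ⟨b, _, hb⟩ := Ordinal.mem_toZFSet_iff.1 (hr x hx)
  have hm : app f x ∈ ran f := mem_ran.2 ⟨x, hf.pair_app_mem (hd ▸ hx)⟩
  have hl := ZFSet.rank_lt_of_mem hm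
  rw [← hb, rank_toZFSet] at hl
  rw [← hb]; exact Ordinal.toZFSet_mem_toZFSet_iff.2 hl

theorem z4a_wo_iff [IsZ M] [IsZ M'] (h : Elem j M M') :
    (∀ a ∈ M, ∃ f ∈ M, ∃ o : Ordinal.{0}, IsInj f a o.toZFSet) ↔
      (∀ a ∈ M', ∃ f ∈ M', ∃ o : Ordinal.{0}, IsInj f a o.toZFSet) := by
  have e : ∀ N : Set V, (∀ a ∈ N, ∃ f ∈ N, ∃ o : Ordinal.{0}, IsInj f a o.toZFSet) ↔
      ∀ a ∈ N, ∃ f ∈ N, IsInj f a (ran f).rank.toZFSet := fun N =>
    forall₂_congr fun a _ => exists_congr fun f => and_congr_right fun _ =>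
      ⟨fun ⟨o, ho⟩ => z4a_isInj_ran ho, fun ho => ⟨_, ho⟩⟩
  rw [e, e]
  exact h.ud (F := pZ) rfl ‹IsZ M› ‹IsZ M'›
    (fun N _ => ∀ a ∈ N, ∃ f ∈ N, IsInj f a (ran f).rank.toZFSet) (v := fun _ => ∅)
    (fun _ => IsZ.empty_mem M)

theorem z4a_pow_iff [IsZ M] [IsZ M'] (h : Elem j M M') :
    (∀ a ∈ M, ∃ p ∈ M, ∀ x ∈ M, x ⊆ a → x ∈ p) ↔ (∀ a ∈ M', ∃ p ∈ M', ∀ x ∈ M', x ⊆ a → x ∈ p) :=
  h.ud (F := pZ) rfl ‹IsZ M› ‹IsZ M'›
    (fun N _ => ∀ a ∈ N, ∃ p ∈ N, ∀ x ∈ N, x ⊆ a → x ∈ p) (v := fun _ => ∅)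
    (fun _ => IsZ.empty_mem M)

theorem Elem.isZ_left (h : Elem j M M') (ht : ∀ x ∈ M, ∀ y ∈ x, y ∈ M) (hne : M.Nonempty)
    [IsZ M'] : IsZ M := z4a_isZ (z4a_val_left h) ht hne
theorem Elem.isT_left (h : Elem j M M') (ht : ∀ x ∈ M, ∀ y ∈ x, y ∈ M) (hne : M.Nonempty)
    [IsT M'] : IsT M :=
  haveI := h.isZ_left ht hne
  { toIsZ := this, wo := (z4a_wo_iff h).2 IsT.wo }
theorem Elem.isZFC_left (h : Elem j M M') (ht : ∀ x ∈ M, ∀ y ∈ x, y ∈ M) (hne : M.Nonempty)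
    [IsZFC M'] : IsZFC M :=
  haveI := h.isT_left ht hne
  { toIsT := this, pow := (z4a_pow_iff h).2 IsZFC.pow }
theorem Elem.isZ_right (h : Elem j M M') (ht : ∀ x ∈ M', ∀ y ∈ x, y ∈ M') [IsZ M] : IsZ M' :=
  z4a_isZ (z4a_val_right h ⟨_, IsZ.empty_mem M⟩) ht ⟨_, h.1 _ (IsZ.empty_mem M)⟩
theorem Elem.isT_right (h : Elem j M M') (ht : ∀ x ∈ M', ∀ y ∈ x, y ∈ M') [IsT M] : IsT M' :=
  haveI := h.isZ_right ht
  { toIsZ := this, wo := (z4a_wo_iff h).1 IsT.wo }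
theorem Elem.isZFC_right (h : Elem j M M') (ht : ∀ x ∈ M', ∀ y ∈ x, y ∈ M') [IsZFC M] :
    IsZFC M' :=
  haveI := h.isT_right ht
  { toIsT := this, pow := (z4a_pow_iff h).1 IsZFC.pow }

-- JOB A END

-- JOB B BEGIN
theorem Elem.enc_jm [IsZ M] [IsZ M'] (h : Elem j M M') {α} [Cd α] {a : α} (ha : enc a ∈ M) :
    enc (jm j a) = j (enc a) := by
  have e : j (enc (dec (enc a) : α)) = enc (jm j a) :=
    h.uf (F := pZ) rfl ‹_› ‹_› (fun _ v => (dec (vr v 0) : α)) (hf := Cd.uf pZ)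
      (v := fun _ => enc a) fun _ => ha
  rw [← e, dec_enc]
theorem Elem.enc_jm_mem [IsZ M] [IsZ M'] (h : Elem j M M') {α} [Cd α] {a : α} (ha : enc a ∈ M) :
    enc (jm j a) ∈ M' := h.enc_jm ha ▸ h.1 _ ha
theorem Elem.jm_comp [IsZ M] [IsZ M'] (h : Elem j M M') {α} [Cd α] {a : α} (ha : enc a ∈ M) :
    jm k (jm j a) = jm (fun x => k (j x)) a := congrArg (fun x => dec (k x)) (h.enc_jm ha)
theorem jm_congr {α} [Enc α] {a : α} (e : j (enc a) = k (enc a)) : jm j a = jm k a := by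
  simp [jm, e]
theorem jm_of_fix {α} [Enc α] {a : α} (e : j (enc a) = enc a) : jm j a = a := by simp [jm, e]

section z4b
variable (F) [F.Pure] [InK F M] [InK F M']
theorem Elem.iff1 (h : Elem j M M') {α} [Cd α] (P : Set V → α → Prop)
    [UD F (fun M v => P M (dec (vr v 0)))] {a : α} (ha : enc a ∈ M) :
    P M a ↔ P M' (jm j a) := by
  have e : P M (dec (enc a)) ↔
      P M' (jm j a) :=
    h.ud (F := F) Fr.Pure.out InK.out InK.out
      (fun M v => P M (dec (vr v 0)))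
      (v := (fun _ => enc a))
      (fun _ => ha)
  simpa only [dec_enc] using e
theorem Elem.iff2 (h : Elem j M M') {α β} [Cd α] [Cd β] (P : Set V → α → β → Prop)
    [UD F (fun M v => P M (dec (vr v 0)) (dec (vr v 1)))] {a : α} {b : β} (ha : enc a ∈ M)
    (hb : enc b ∈ M) : P M a b ↔ P M' (jm j a) (jm j b) := by
  have e : P M (dec (enc a)) (dec (enc b)) ↔
      P M' (jm j a) (jm j b) :=
    h.ud (F := F) Fr.Pure.out InK.out InK.out
      (fun M v => P M (dec (vr v 0)) (dec (vr v 1)))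
      (v := (cons (enc a) (fun _ => enc b)))
      (cons_mem ha (fun _ => hb))
  simpa only [dec_enc] using e
theorem Elem.iff3 (h : Elem j M M') {α β γ} [Cd α] [Cd β] [Cd γ] (P : Set V → α → β → γ → Prop)
    [UD F (fun M v => P M (dec (vr v 0)) (dec (vr v 1)) (dec (vr v 2)))] {a : α} {b : β} {c : γ}
    (ha : enc a ∈ M) (hb : enc b ∈ M) (hc : enc c ∈ M) :
    P M a b c ↔ P M' (jm j a) (jm j b) (jm j c) := by
  have e : P M (dec (enc a)) (dec (enc b)) (dec (enc c)) ↔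
      P M' (jm j a) (jm j b) (jm j c) :=
    h.ud (F := F) Fr.Pure.out InK.out InK.out
      (fun M v => P M (dec (vr v 0)) (dec (vr v 1)) (dec (vr v 2)))
      (v := (cons (enc a) (cons (enc b) (fun _ => enc c))))
      (cons_mem ha (cons_mem hb (fun _ => hc)))
  simpa only [dec_enc] using e
theorem Elem.iff4 (h : Elem j M M') {α β γ δ} [Cd α] [Cd β] [Cd γ] [Cd δ]
    (P : Set V → α → β → γ → δ → Prop)
    [UD F (fun M v => P M (dec (vr v 0)) (dec (vr v 1)) (dec (vr v 2)) (dec (vr v 3)))]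
    {a : α} {b : β} {c : γ} {d : δ}
    (ha : enc a ∈ M) (hb : enc b ∈ M) (hc : enc c ∈ M) (hd : enc d ∈ M) :
    P M a b c d ↔ P M' (jm j a) (jm j b) (jm j c) (jm j d) := by
  have e : P M (dec (enc a)) (dec (enc b)) (dec (enc c)) (dec (enc d)) ↔
      P M' (jm j a) (jm j b) (jm j c) (jm j d) :=
    h.ud (F := F) Fr.Pure.out InK.out InK.out
      (fun M v => P M (dec (vr v 0)) (dec (vr v 1)) (dec (vr v 2)) (dec (vr v 3)))
      (v := (cons (enc a) (cons (enc b) (cons (enc c) (fun _ => enc d)))))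
      (cons_mem ha (cons_mem hb (cons_mem hc (fun _ => hd))))
  simpa only [dec_enc] using e
theorem Elem.iff5 (h : Elem j M M') {α β γ δ ε} [Cd α] [Cd β] [Cd γ] [Cd δ] [Cd ε]
    (P : Set V → α → β → γ → δ → ε → Prop)
    [UD F (fun M v => P M (dec (vr v 0)) (dec (vr v 1)) (dec (vr v 2)) (dec (vr v 3))
      (dec (vr v 4)))]
    {a : α} {b : β} {c : γ} {d : δ} {e : ε}
    (ha : enc a ∈ M) (hb : enc b ∈ M) (hc : enc c ∈ M) (hd : enc d ∈ M) (he : enc e ∈ M) :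
    P M a b c d e ↔ P M' (jm j a) (jm j b) (jm j c) (jm j d) (jm j e) := by
  have e : P M (dec (enc a)) (dec (enc b)) (dec (enc c)) (dec (enc d)) (dec (enc e)) ↔
      P M' (jm j a) (jm j b) (jm j c) (jm j d) (jm j e) :=
    h.ud (F := F) Fr.Pure.out InK.out InK.out
      (fun M v => P M (dec (vr v 0)) (dec (vr v 1)) (dec (vr v 2)) (dec (vr v 3)) (dec (vr v 4)))
      (v := (cons (enc a) (cons (enc b) (cons (enc c) (cons (enc d) (fun _ => enc e))))))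
      (cons_mem ha (cons_mem hb (cons_mem hc (cons_mem hd (fun _ => he)))))
  simpa only [dec_enc] using e
theorem Elem.map1 (h : Elem j M M') {α ρ} [Cd α] [Enc ρ] (f : Set V → α → ρ)
    [UF F (fun M v => f M (dec (vr v 0)))] {a : α} (ha : enc a ∈ M) :
    jm j (f M a) = f M' (jm j a) := by
  have e : j (enc (f M (dec (enc a)))) =
      enc (f M' (jm j a)) :=
    h.uf (F := F) Fr.Pure.out InK.out InK.out
      (fun M v => f M (dec (vr v 0)))
      (v := (fun _ => enc a))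
      (fun _ => ha)
  simp only [dec_enc] at e
  exact (congrArg dec e).trans (dec_enc _)
theorem Elem.map2 (h : Elem j M M') {α β ρ} [Cd α] [Cd β] [Enc ρ] (f : Set V → α → β → ρ)
    [UF F (fun M v => f M (dec (vr v 0)) (dec (vr v 1)))] {a : α} {b : β} (ha : enc a ∈ M)
    (hb : enc b ∈ M) : jm j (f M a b) = f M' (jm j a) (jm j b) := by
  have e : j (enc (f M (dec (enc a)) (dec (enc b)))) =
      enc (f M' (jm j a) (jm j b)) :=
    h.uf (F := F) Fr.Pure.out InK.out InK.out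
      (fun M v => f M (dec (vr v 0)) (dec (vr v 1)))
      (v := (cons (enc a) (fun _ => enc b)))
      (cons_mem ha (fun _ => hb))
  simp only [dec_enc] at e
  exact (congrArg dec e).trans (dec_enc _)
theorem Elem.map3 (h : Elem j M M') {α β γ ρ} [Cd α] [Cd β] [Cd γ] [Enc ρ]
    (f : Set V → α → β → γ → ρ)
    [UF F (fun M v => f M (dec (vr v 0)) (dec (vr v 1)) (dec (vr v 2)))] {a : α} {b : β} {c : γ}
    (ha : enc a ∈ M) (hb : enc b ∈ M) (hc : enc c ∈ M) :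
    jm j (f M a b c) = f M' (jm j a) (jm j b) (jm j c) := by
  have e : j (enc (f M (dec (enc a)) (dec (enc b)) (dec (enc c)))) =
      enc (f M' (jm j a) (jm j b) (jm j c)) :=
    h.uf (F := F) Fr.Pure.out InK.out InK.out
      (fun M v => f M (dec (vr v 0)) (dec (vr v 1)) (dec (vr v 2)))
      (v := (cons (enc a) (cons (enc b) (fun _ => enc c))))
      (cons_mem ha (cons_mem hb (fun _ => hc)))
  simp only [dec_enc] at e
  exact (congrArg dec e).trans (dec_enc _)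
theorem Elem.map4 (h : Elem j M M') {α β γ δ ρ} [Cd α] [Cd β] [Cd γ] [Cd δ] [Enc ρ]
    (f : Set V → α → β → γ → δ → ρ)
    [UF F (fun M v => f M (dec (vr v 0)) (dec (vr v 1)) (dec (vr v 2)) (dec (vr v 3)))]
    {a : α} {b : β} {c : γ} {d : δ}
    (ha : enc a ∈ M) (hb : enc b ∈ M) (hc : enc c ∈ M) (hd : enc d ∈ M) :
    jm j (f M a b c d) = f M' (jm j a) (jm j b) (jm j c) (jm j d) := by
  have e : j (enc (f M (dec (enc a)) (dec (enc b)) (dec (enc c)) (dec (enc d)))) =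
      enc (f M' (jm j a) (jm j b) (jm j c) (jm j d)) :=
    h.uf (F := F) Fr.Pure.out InK.out InK.out
      (fun M v => f M (dec (vr v 0)) (dec (vr v 1)) (dec (vr v 2)) (dec (vr v 3)))
      (v := (cons (enc a) (cons (enc b) (cons (enc c) (fun _ => enc d)))))
      (cons_mem ha (cons_mem hb (cons_mem hc (fun _ => hd))))
  simp only [dec_enc] at e
  exact (congrArg dec e).trans (dec_enc _)
end z4b

theorem z4b_nat (n : ℕ) : natZ n ∈ HF := mem_HF.2 (by rw [rank_natZ]; exact natCast_lt_omega0 n)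
theorem z4b_fin (n : ℕ) : ((vonNeumann n : V) : Set V).Finite := by
  induction n with
  | zero => simp
  | succ n ih =>
    rw [Nat.cast_succ, vonNeumann_add_one]
    exact (ih.finite_subsets.preimage SetLike.coe_injective.injOn).subset fun x hx =>
      mem_powerset.1 hx
theorem z4b_HF_ind (P : V → Prop) (h0 : P ∅) (h1 : ∀ a s, P a → P s → P (insert a s)) (x : V) :
    x ∈ HF → P x := by
  induction x using ZFSet.inductionOn with
  | h x ih =>
    intro hx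
    obtain ⟨n, hn⟩ := lt_omega0.1 (mem_HF.1 hx)
    have hf : (x : Set V).Finite := (z4b_fin n).subset (subset_vonNeumann.2 hn.le)
    have k : ∀ l : List V, (∀ y ∈ l, y ∈ x) →
        ∃ s, P s ∧ ∀ y, y ∈ s ↔ y ∈ l := fun l => by
      induction l with
      | nil => exact fun _ => ⟨∅, h0, by simp⟩
      | cons a l ihl =>
        intro hl
        obtain ⟨s, h2, h3⟩ := ihl fun y hy => hl y (List.mem_cons_of_mem _ hy)
        have ha := hl a List.mem_cons_self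
        exact ⟨insert a s, h1 a s (ih a ha (mem_HF.2 ((rank_lt_of_mem ha).trans (mem_HF.1 hx)))) h2,
          by simp [h3]⟩
    obtain ⟨s, h2, h3⟩ := k hf.toFinset.toList (by simp)
    rwa [show x = s from ZFSet.ext (by simp [h3])]
theorem Elem.fix_HF [IsZ M] [IsZ M'] (h : Elem j M M') {x : V} (hx : x ∈ HF) : j x = x := by
  refine (z4b_HF_ind (fun s => s ∈ M ∧ j s = s) ⟨IsZ.empty_mem M, h.map_empty⟩
    (fun a s ha hs => ⟨?_, ?_⟩) x hx).2
  · exact (inferInstance : UF pZ fun _ v => insert (vr v 0) (vr v 1)).cl M ‹_›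
      (cons a fun _ => s) (cons_mem ha.1 fun _ => hs.1)
  · refine (h.map2 pZ (fun _ (a s : V) => insert a s) ha.1 hs.1).trans ?_
    rw [jm_V, jm_V, ha.2, hs.2]
theorem Elem.jm_nat [IsZ M] [IsZ M'] (h : Elem j M M') (n : ℕ) : jm j n = n :=
  jm_of_fix (h.fix_HF (z4b_nat n))
theorem Elem.jm_fo [IsZ M] [IsZ M'] (h : Elem j M M') (φ : Fo) : jm j φ = φ :=
  jm_of_fix (h.fix_HF φ.code_mem_HF)
theorem Elem.map_omega [IsZ M] [IsZ M'] (h : Elem j M M') : j omegaZ = omegaZ :=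
  h.uf (F := pZ) rfl ‹_› ‹_› (fun _ _ => omegaZ) (v := fun _ => ∅) fun _ => IsZ.empty_mem M
theorem Elem.jm_prod [IsZ M] [IsZ M'] (h : Elem j M M') {α β} [Cd α] [Cd β] {a : α} {b : β}
    (ha : enc a ∈ M) (hb : enc b ∈ M) : jm j (a, b) = (jm j a, jm j b) :=
  h.map2 pZ (fun _ (a : α) (b : β) => (a, b)) ha hb
theorem Elem.jm_list [IsZ M] [IsZ M'] (h : Elem j M M') {l : List V} (hl : ∀ x ∈ l, x ∈ M) :
    jm j l = l.map j := by
  induction l with
  | nil => exact jm_of_fix h.map_empty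
  | cons a l ih =>
    have h1 : ∀ x ∈ l, x ∈ M := fun x hx => hl x (List.mem_cons_of_mem _ hx)
    rw [List.map_cons, ← ih h1]
    exact h.map2 pZ (fun _ (a : V) (l : List V) => a :: l) (hl a List.mem_cons_self)
      ((listZ_mem_iff M).2 h1)
theorem Elem.map_pair [IsZ M] [IsZ M'] (h : Elem j M M') {x y : V} (hx : x ∈ M) (hy : y ∈ M) :
    j (pair x y) = pair (j x) (j y) := h.map2 pZ (fun _ (a b : V) => pair a b) hx hy
theorem Elem.map_app [IsZ M] [IsZ M'] (h : Elem j M M') {x y : V} (hx : x ∈ M) (hy : y ∈ M) :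
    j (app x y) = app (j x) (j y) := h.map2 pZ (fun _ (a b : V) => app a b) hx hy
theorem Elem.map_ord [IsZ M] [IsZ M'] (h : Elem j M M') {o : Ordinal.{0}} (ho : o.toZFSet ∈ M) :
    j o.toZFSet = (jm j o).toZFSet := (h.enc_jm (a := o) ho).symm
theorem Elem.rank_map [IsZ M] [IsZ M'] (h : Elem j M M') {x : V} (hx : x ∈ M) :
    (j x).rank = jm j x.rank := (h.map1 pZ (fun _ (a : V) => a.rank) hx).symm
theorem Elem.jm_lt [IsZ M] [IsZ M'] (h : Elem j M M') {o p : Ordinal.{0}} (ho : o.toZFSet ∈ M)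
    (hp : p.toZFSet ∈ M) : jm j o < jm j p ↔ o < p :=
  (h.iff2 pZ (fun _ (a b : Ordinal.{0}) => a < b) ho hp).symm
theorem Elem.jm_le [IsZ M] [IsZ M'] (h : Elem j M M') {o p : Ordinal.{0}} (ho : o.toZFSet ∈ M)
    (hp : p.toZFSet ∈ M) : jm j o ≤ jm j p ↔ o ≤ p := by
  rw [← not_lt, h.jm_lt hp ho, not_lt]
theorem Elem.le_jm [IsZ M] [IsZ M'] (h : Elem j M M') {o : Ordinal.{0}} (ho : o.toZFSet ∈ M) :
    o ≤ jm j o := by
  induction o using WellFoundedLT.induction with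
  | ind o ih =>
    refine le_of_forall_lt fun p hp => ?_
    have h1 := IsZ.ord_mem_of_le M ho hp.le
    exact (ih p hp h1).trans_lt ((h.jm_lt h1 ho).2 hp)
theorem Elem.jm_add [IsZ M] [IsZ M'] (h : Elem j M M') {o p : Ordinal.{0}} (ho : o.toZFSet ∈ M)
    (hp : p.toZFSet ∈ M) : jm j (o + p) = jm j o + jm j p :=
  h.map2 pZ (fun _ (a b : Ordinal.{0}) => a + b) ho hp
theorem Elem.jm_omega [IsZ M] [IsZ M'] (h : Elem j M M') : jm j (ω : Ordinal.{0}) = ω :=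
  jm_of_fix h.map_omega
theorem Elem.map_cut [IsZ M] [IsZ M'] (h : Elem j M M') {x : V} {o : Ordinal.{0}} (hx : x ∈ M)
    (ho : o.toZFSet ∈ M) : j (cut x o) = cut (j x) (jm j o) :=
  h.map2 pZ (fun _ (a : V) (b : Ordinal.{0}) => cut a b) hx ho
/-- if `j` fixes all elements of a set `x` that is countable in `M`, it fixes `x` -/
theorem Elem.map_ctbl [IsZ M] [IsZ M'] (h : Elem j M M') {x : V} (hx : x ∈ M) (hc : Ctbl M x) :
    j x = img j x := by
  obtain ⟨f, hf, hi⟩ := hc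
  have h1 : IsInj (j f) (j x) omegaZ :=
    (h.iff2 pZ (fun _ (a b : V) => IsInj a b omegaZ) hf hx).1 hi
  ext y
  rw [mem_img]
  refine ⟨fun hy => ?_, fun ⟨z, hz, e⟩ => e ▸ (h.mem_iff (IsZ.trans _ hx _ hz) hx).2 hz⟩
  obtain ⟨m, hm, -⟩ := h1.1.2 y hy
  obtain ⟨n, rfl⟩ := mem_omegaZ.1 (pair_mem_prod.1 (h1.1.1 hm)).2
  have hn := h.fix_HF (z4b_nat n)
  have hM := IsZ.natZ_mem M n
  obtain ⟨z, hz⟩ : ∃ z, pair z (natZ n) ∈ f :=
    mem_ran.1 ((h.iff2 pZ (fun _ (a b : V) => b ∈ ran a) (b := natZ n) hf hM).2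
      (mem_ran.2 ⟨y, by change pair y (j (natZ n)) ∈ j f; rwa [hn]⟩))
  have h2 := (pair_mem_prod.1 (hi.1.1 hz)).1
  have h3 := (h.mem_iff (IsZ.trans _ hf _ hz) hf).2 hz
  rw [h.map_pair (IsZ.trans _ hx _ h2) hM, hn] at h3
  exact ⟨z, h2, h1.2 _ _ _ h3 hm⟩

end elem

theorem z4b_empty {X H x : V} [IsZ (H : Set V)] (h : ElemSub X H) (hx : x ∈ X) : (∅ : V) ∈ X := by
  obtain ⟨y, hy, e⟩ := (h.2 (.ex (.neg (.ex (.mem 0 1)))) (fun _ => x) fun _ => hx).2
    ⟨∅, IsZ.empty_mem _, fun ⟨a, _, ha⟩ => notMem_empty a ha⟩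
  have k := (h.2 (.neg (.ex (.mem 0 1))) _ (cons_mem hy fun _ => hx)).1 e
  rwa [← (ZFSet.eq_empty y).2 fun z hz =>
    k ⟨z, IsZ.trans (M := (H : Set V)) _ (h.subset hy) _ hz, hz⟩]
/-- witnesses reflect into an elementary substructure: `P` is evaluated in `H` -/
theorem ElemSub.ex_mem (F : Fr) [F.Pure] {X H : V} [InK F (H : Set V)] (h : ElemSub X H)
    (P : Set V → (ℕ → V) → Prop) [UD F P] {v : ℕ → V} (hv : ∀ i, v i ∈ X)
    (hex : ∃ y ∈ H, P H (cons y v)) : ∃ y ∈ X, P H (cons y v) := by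
  obtain ⟨φ, c, hc, e⟩ := ‹UD F P›.out
  obtain ⟨ψ, hψ⟩ := sat_sw H φ c v 1
  haveI := F.hZ _ (InK.out (F := F) (M := (H : Set V)))
  have hw : ∀ i, mrg v c i ∈ (X : Set V) := mrg_mem hv fun i => by
    have h1 := hc i
    rw [Fr.Pure.out (F := F)] at h1
    exact h1 ▸ z4b_empty h (hv 0)
  have k : ∀ y ∈ H, (P H (cons y v) ↔ Sat1 H ψ (cons y (mrg v c))) := fun y hy => by
    rw [e _ InK.out _ (cons_mem hy fun i => h.subset (hv i)), ← pre_one, ← pre_one, hψ]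
  obtain ⟨y, hy, hp⟩ := hex
  obtain ⟨z, hz, hq⟩ := (h.2 (.ex ψ) _ hw).2 ⟨y, hy, (k y hy).1 hp⟩
  exact ⟨z, hz, (k z (h.subset hz)).2 ((h.2 ψ _ (cons_mem hz hw)).1 hq)⟩
theorem ElemSub.uf_mem (F : Fr) [F.Pure] {X H : V} [InK F (H : Set V)] (h : ElemSub X H) {α} [Enc α]
    (f : Set V → (ℕ → V) → α) [UF F f] {v : ℕ → V} (hv : ∀ i, v i ∈ X) : enc (f H v) ∈ X := by
  haveI := ‹UF F f›.gr
  obtain ⟨y, hy, e⟩ := h.ex_mem F (fun M v => vr v 0 = enc (f M (tl v))) hv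
    ⟨_, ‹UF F f›.cl _ InK.out v fun i => h.subset (hv i), rfl⟩
  exact (show y = enc (f H v) from e) ▸ hy
theorem ElemSub.empty_mem {X H : V} [IsZ (H : Set V)] (h : ElemSub X H) (hne : X.Nonempty) :
    (∅ : V) ∈ X :=
  let ⟨_, hx⟩ := (nonempty_def X).1 hne
  z4b_empty h hx
theorem ElemSub.HF_subset {X H : V} [IsZ (H : Set V)] (h : ElemSub X H) (hne : X.Nonempty) :
    HF ⊆ X := fun x =>
  z4b_HF_ind (· ∈ X) (h.empty_mem hne) (fun a s ha hs => h.uf_mem pZ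
    (fun _ v => insert (vr v 0) (vr v 1)) (v := cons a fun _ => s)
      (cons_mem (M := (X : Set V)) ha fun _ => hs)) x
theorem ElemSub.subset_of_ctbl {X H x : V} [IsZ (H : Set V)] (h : ElemSub X H) (hx : x ∈ X)
    (hc : Ctbl (H : Set V) x) : x ⊆ X := by
  obtain ⟨f, hf, hi⟩ : ∃ f ∈ X, IsInj f x omegaZ :=
    h.ex_mem pZ (fun _ v => IsInj (vr v 0) (vr v 1) omegaZ) (v := fun _ => x) (fun _ => hx) hc
  intro y hy
  obtain ⟨m, hm, -⟩ := hi.1.2 y hy
  obtain ⟨n, rfl⟩ := mem_omegaZ.1 (pair_mem_prod.1 (hi.1.1 hm)).2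
  obtain ⟨z, hz, e⟩ : ∃ z ∈ X, pair z (natZ n) ∈ f :=
    h.ex_mem pZ (fun _ v => pair (vr v 0) (vr v 1) ∈ vr v 2) (v := cons (natZ n) fun _ => f)
      (cons_mem (M := (X : Set V)) (h.HF_subset ((nonempty_def X).2 ⟨x, hx⟩) (z4b_nat n))
        fun _ => hf) ⟨y, IsZ.trans (M := (H : Set V)) _ (h.subset hx) _ hy, hm⟩
  exact hi.2 _ _ _ e hm ▸ hz
-- JOB B END

-- JOB C BEGIN
/-! ### collapses -/
/-- Mostowski collapse along the set-coded relation `R` -/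
noncomputable def col (R x : V) : V := grec (preds R) (fun _ f => ran f) x
theorem mem_col {R x z : V} (h : AccP (preds R) x) :
    z ∈ col R x ↔ ∃ y, pair y x ∈ R ∧ col R y = z := by
  rw [col, grec_eq _ h, mem_ran]
  exact exists_congr fun y => by rw [pair_mem_lam, mem_preds, eq_comm]; rfl
instance uf_col {a b : Set V → (ℕ → V) → V} [UF F a] [UF F b] :
    UF F (fun M v => col (a M v) (b M v)) := by
  have := UF.lift (F := F) a; unfold col; infer_instance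
/-- rank of `x` in the relation `R` -/
noncomputable def rkR (R x : V) : Ordinal.{0} := (col R x).rank
theorem rkR_lt {R x y : V} (h : AccP (preds R) x) (hy : pair y x ∈ R) : rkR R y < rkR R x :=
  rank_lt_of_mem ((mem_col h).2 ⟨y, hy, rfl⟩)
theorem rkR_le_iff {R x : V} (h : AccP (preds R) x) {o : Ordinal.{0}} :
    rkR R x ≤ o ↔ ∀ y, pair y x ∈ R → rkR R y < o :=
  ⟨fun k y hy => (rkR_lt h hy).trans_le k, fun k => rank_le_iff.2 fun z hz => by
    obtain ⟨y, hy, rfl⟩ := (mem_col h).1 hz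
    exact k y hy⟩
instance uf_rkR {a b : Set V → (ℕ → V) → V} [UF F a] [UF F b] :
    UF F (fun M v => rkR (a M v) (b M v)) := by unfold rkR; infer_instance
theorem col_trans {R D : V} (h : WF R) (hD : ∀ x ∈ D, ∀ y, pair y x ∈ R → y ∈ D) :
    (img (col R) D).IsTransitive := fun a ha z hz => by
  obtain ⟨x, hx, rfl⟩ := mem_img.1 ha
  obtain ⟨y, hy, rfl⟩ := (mem_col (h.accP x)).1 hz
  exact mem_img.2 ⟨y, hD x hx y hy, rfl⟩

/-- satisfaction in a structure with domain `D`, membership `me` and equality `eqv` -/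
def SatR (D : Set V) (me eqv : V → V → Prop) : Fo → (ℕ → V) → Prop
  | .mem i j, v => me (v i) (v j)
  | .eq i j, v => eqv (v i) (v j)
  | .neg φ, v => ¬ SatR D me eqv φ v
  | .and φ ψ, v => SatR D me eqv φ v ∧ SatR D me eqv ψ v
  | .ex φ, v => ∃ a ∈ D, SatR D me eqv φ (cons a v)

/-- the collapse of a well-founded extensional structure with a congruence -/
theorem collapse {D R : V} {eqv : V → V → Prop} (hR : ∀ x y, pair x y ∈ R → x ∈ D ∧ y ∈ D)
    (hwf : WF R) (hrefl : ∀ x ∈ D, eqv x x)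
    (hsymm : ∀ x ∈ D, ∀ y ∈ D, eqv x y → eqv y x)
    (hl : ∀ x ∈ D, ∀ x' ∈ D, ∀ y ∈ D, eqv x x' → pair x y ∈ R → pair x' y ∈ R)
    (hr : ∀ x ∈ D, ∀ y ∈ D, ∀ y' ∈ D, eqv y y' → pair x y ∈ R → pair x y' ∈ R)
    (hext : ∀ x ∈ D, ∀ y ∈ D, (∀ z ∈ D, pair z x ∈ R ↔ pair z y ∈ R) → eqv x y) :
    (∀ x ∈ D, ∀ y ∈ D, (col R x = col R y ↔ eqv x y)) ∧
    (∀ x ∈ D, ∀ y ∈ D, (col R x ∈ col R y ↔ pair x y ∈ R)) ∧
    ∀ (φ : Fo) (v : ℕ → V), (∀ i, v i ∈ D) →
      (Sat1 (img (col R) D : V) φ (col R ∘ v) ↔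
        SatR (D : Set V) (fun x y => pair x y ∈ R) eqv φ v) := by
  have m : ∀ {x z}, z ∈ col R x ↔ ∃ y, pair y x ∈ R ∧ col R y = z := mem_col (hwf.accP _)
  have h1 : ∀ x, ∀ y ∈ D, x ∈ D → col R x = col R y → eqv x y := fun x => by
    refine WellFounded.induction hwf (C := fun x => ∀ y ∈ D, x ∈ D → col R x = col R y → eqv x y)
      x fun x ih y hy hx e => hext x hx y hy fun z hz => ⟨fun k => ?_, fun k => ?_⟩
    · obtain ⟨u, hu, e'⟩ := m.1 (e ▸ m.2 ⟨z, k, rfl⟩)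
      have uD := (hR _ _ hu).1
      exact hl u uD z hz y hy (hsymm z hz u uD (ih z k u uD hz e'.symm)) hu
    · obtain ⟨u, hu, e'⟩ := m.1 (e.symm ▸ m.2 ⟨z, k, rfl⟩)
      have uD := (hR _ _ hu).1
      exact hl u uD z hz x hx (ih u hu z hz uD e') hu
  have h2 : ∀ x ∈ D, ∀ y ∈ D, (col R x = col R y ↔ eqv x y) := fun x hx y hy =>
    ⟨h1 x y hy hx, fun e => ZFSet.ext fun z => by
      rw [m, m]
      exact exists_congr fun u => and_congr_left fun _ =>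
        ⟨fun k => hr u (hR _ _ k).1 x hx y hy e k,
          fun k => hr u (hR _ _ k).1 y hy x hx (hsymm x hx y hy e) k⟩⟩
  have h3 : ∀ x ∈ D, ∀ y ∈ D, (col R x ∈ col R y ↔ pair x y ∈ R) := fun x hx y hy =>
    ⟨fun k => by
      obtain ⟨u, hu, e⟩ := m.1 k
      exact hl u (hR _ _ hu).1 x hx y hy (h1 u x hx (hR _ _ hu).1 e) hu, fun k => m.2 ⟨x, k, rfl⟩⟩
  refine ⟨h2, h3, fun φ => ?_⟩
  induction φ with
  | mem i j => exact fun v hv => h3 _ (hv i) _ (hv j)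
  | eq i j => exact fun v hv => h2 _ (hv i) _ (hv j)
  | neg φ ih => exact fun v hv => not_congr (ih v hv)
  | and φ ψ ih1 ih2 => exact fun v hv => and_congr (ih1 v hv) (ih2 v hv)
  | ex φ ih =>
    intro v hv
    have e : ∀ a ∈ D, _ := fun a ha => comp_cons (col R) a v ▸
      ih (cons a v) (cons_mem (M := (D : Set V)) ha hv)
    constructor
    · rintro ⟨_, hb, k⟩
      obtain ⟨a, ha, rfl⟩ := mem_img.1 hb
      exact ⟨a, ha, (e a ha).1 k⟩
    · rintro ⟨a, ha, k⟩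
      exact ⟨_, mem_img.2 ⟨a, ha, rfl⟩, (e a ha).2 k⟩

/-- membership relation on `X` -/
noncomputable def memR (X : V) : V := rel X X (fun x y => x ∈ y)
theorem z4c_memR {X x y : V} : pair x y ∈ memR X ↔ x ∈ X ∧ y ∈ X ∧ x ∈ y := pair_mem_rel
theorem wf_memR (X : V) : WF (memR X) :=
  Subrelation.wf (fun h => (z4c_memR.1 h).2.2) mem_wf
/-- the transitive collapse of `X` and the inverse of the collapsing map -/
noncomputable def tcol (X : V) : V := img (col (memR X)) X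
noncomputable def uncol (X : V) : V := img (fun x => pair (col (memR X) x) x) X
instance uf_memR {a : Set V → (ℕ → V) → V} [UF F a] : UF F (fun M v => memR (a M v)) := by
  unfold memR; infer_instance
instance uf_tcol {a : Set V → (ℕ → V) → V} [UF F a] : UF F (fun M v => tcol (a M v)) := by
  have := UF.lift (F := F) a; unfold tcol; infer_instance
instance uf_uncol {a : Set V → (ℕ → V) → V} [UF F a] : UF F (fun M v => uncol (a M v)) := by
  have := UF.lift (F := F) a; unfold uncol; infer_instance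
theorem tcol_trans (X : V) : (tcol X).IsTransitive :=
  col_trans (wf_memR X) fun _ _ _ h => (z4c_memR.1 h).1
theorem z4c_uncol {X a x : V} : pair a x ∈ uncol X ↔ x ∈ X ∧ col (memR X) x = a :=
  ⟨fun h => by
    obtain ⟨y, hy, e⟩ := mem_img.1 h
    obtain ⟨rfl, rfl⟩ := pair_inj.1 e
    exact ⟨hy, rfl⟩, fun h => mem_img.2 ⟨x, h.1, by rw [h.2]⟩⟩
theorem z4c_satR (X : V) (φ : Fo) : ∀ v : ℕ → V, (∀ i, v i ∈ X) →
    (SatR (X : Set V) (fun x y => pair x y ∈ memR X) Eq φ v ↔ Sat1 (X : Set V) φ v) := by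
  induction φ with
  | mem i j => exact fun v hv => z4c_memR.trans ⟨fun h => h.2.2, fun h => ⟨hv i, hv j, h⟩⟩
  | eq i j => exact fun v hv => Iff.rfl
  | neg φ ih => exact fun v hv => not_congr (ih v hv)
  | and φ ψ ih1 ih2 => exact fun v hv => and_congr (ih1 v hv) (ih2 v hv)
  | ex φ ih =>
    exact fun v hv => exists_congr fun a => and_congr_right fun ha =>
      ih _ (cons_mem (M := (X : Set V)) ha hv)
theorem ran_uncol (X : V) : ran (uncol X) = X := ZFSet.ext fun x =>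
  mem_ran.trans ⟨fun ⟨_, h⟩ => (z4c_uncol.1 h).1, fun h => ⟨_, z4c_uncol.2 ⟨h, rfl⟩⟩⟩
theorem ElemSub.isElem_uncol {X H : V} (hH : H.IsTransitive) (h : ElemSub X H) :
    IsElem (uncol X) (tcol X) H := by
  have sub : ∀ x ∈ X, ∀ y ∈ X, (∀ z ∈ X, z ∈ x → z ∈ y) → x ⊆ y := fun x hx y hy k z hz => by
    by_contra hn
    obtain ⟨u, hu, h1, h2⟩ := (h.2 (.ex (.and (.mem 0 1) (.neg (.mem 0 2)))) (cons x fun _ => y)
      (cons_mem (M := (X : Set V)) hx fun _ => hy)).2 ⟨z, hH x (h.subset hx) hz, hz, hn⟩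
    exact h2 (k u hu h1)
  obtain ⟨h1, -, h3⟩ := collapse (D := X) (R := memR X) (eqv := Eq)
    (fun x y k => ⟨(z4c_memR.1 k).1, (z4c_memR.1 k).2.1⟩) (wf_memR X) (fun _ _ => rfl)
    (fun _ _ _ _ => Eq.symm) (fun _ _ _ _ _ _ e k => e ▸ k) (fun _ _ _ _ _ _ e k => e ▸ k)
    fun x hx y hy k => ZFSet.ext fun z =>
      ⟨fun hz => sub x hx y hy (fun u hu k' => (z4c_memR.1 ((k u hu).1
          (z4c_memR.2 ⟨hu, hx, k'⟩))).2.2) hz,
        fun hz => sub y hy x hx (fun u hu k' => (z4c_memR.1 ((k u hu).2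
          (z4c_memR.2 ⟨hu, hy, k'⟩))).2.2) hz⟩
  refine ⟨⟨fun p hp => ?_, fun a ha => ?_⟩, fun φ v w k => ?_⟩
  · obtain ⟨x, hx, rfl⟩ := mem_img.1 hp
    exact pair_mem_prod.2 ⟨mem_img.2 ⟨x, hx, rfl⟩, h.subset hx⟩
  · obtain ⟨x, hx, rfl⟩ := mem_img.1 ha
    exact ⟨x, z4c_uncol.2 ⟨hx, rfl⟩, fun y hy =>
      (h1 y (z4c_uncol.1 hy).1 x hx).1 (z4c_uncol.1 hy).2⟩
  · have hw : ∀ i, w i ∈ X := fun i => (z4c_uncol.1 (k i)).1
    obtain rfl : col (memR X) ∘ w = v := funext fun i => (z4c_uncol.1 (k i)).2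
    exact ((h3 φ w hw).trans (z4c_satR X φ w hw)).trans (h.2 φ w hw)
/-- the collapse fixes transitive subsets -/
theorem col_memR_fix {X t x : V} (ht : t.IsTransitive) (hs : t ⊆ X) (hx : x ∈ t) :
    col (memR X) x = x := by
  induction x using ZFSet.inductionOn with
  | h x ih =>
    refine ZFSet.ext fun z => (mem_col ((wf_memR X).accP x)).trans ⟨?_, fun hz => ?_⟩
    · rintro ⟨y, hy, rfl⟩
      have k := (z4c_memR.1 hy).2.2
      rwa [ih y k (ht x hx k)]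
    · exact ⟨z, z4c_memR.2 ⟨hs (ht x hx hz), hs hx, hz⟩, ih z hz (ht x hx hz)⟩
theorem rank_col_memR_le (X x : V) : (col (memR X) x).rank ≤ x.rank := by
  induction x using ZFSet.inductionOn with
  | h x ih =>
    exact (rkR_le_iff ((wf_memR X).accP x)).2 fun y hy =>
      (ih y (z4c_memR.1 hy).2.2).trans_lt (rank_lt_of_mem (z4c_memR.1 hy).2.2)
/-- order type of the set of ordinals in `X` -/
noncomputable def otp (X : V) : Ordinal.{0} := (tcol (ZFSet.sep (fun x => x.IsOrdinal) X)).rank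
instance uf_otp {a : Set V → (ℕ → V) → V} [UF F a] : UF F (fun M v => otp (a M v)) := by
  unfold otp; infer_instance
-- JOB C END

-- JOB D BEGIN
/-! ### well-orders (reflexive; `(x, y) ∈ w` means `x ≤ y`) -/
/-- strict part -/
noncomputable def strict (w : V) : V := ZFSet.sep (fun p => fst p ≠ snd p) w
@[simp] theorem pair_mem_strict {w x y : V} : pair x y ∈ strict w ↔ pair x y ∈ w ∧ x ≠ y := by
  simp [strict]
def IsWO (w A : V) : Prop :=
  w ⊆ prod A A ∧ (∀ x ∈ A, pair x x ∈ w) ∧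
  (∀ x ∈ A, ∀ y ∈ A, pair x y ∈ w → pair y x ∈ w → x = y) ∧
  (∀ x ∈ A, ∀ y ∈ A, ∀ z ∈ A, pair x y ∈ w → pair y z ∈ w → pair x z ∈ w) ∧
  (∀ x ∈ A, ∀ y ∈ A, pair x y ∈ w ∨ pair y x ∈ w) ∧ WF (strict w)
instance uf_strict {a : Set V → (ℕ → V) → V} [UF F a] : UF F (fun M v => strict (a M v)) := by
  unfold strict; infer_instance
instance ud_isWO {a b : Set V → (ℕ → V) → V} [UF F a] [UF F b] :
    UD F (fun M v => IsWO (a M v) (b M v)) := by
  have := UF.lift (F := F) a; have := UF.lift (F := F) b; unfold IsWO; infer_instance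
theorem z4d_mem {w A x y : V} (h : IsWO w A) (hp : pair x y ∈ w) : x ∈ A ∧ y ∈ A :=
  pair_mem_prod.1 (h.1 hp)
theorem IsWO.fld_eq {w A : V} (h : IsWO w A) : fld w = A := by
  ext x
  simp only [fld, ZFSet.mem_union, mem_dom, mem_ran]
  constructor
  · rintro (⟨y, hy⟩ | ⟨y, hy⟩)
    · exact (z4d_mem h hy).1
    · exact (z4d_mem h hy).2
  · intro hx; exact Or.inl ⟨x, h.2.1 x hx⟩
theorem IsWO.exists_min {w A : V} (h : IsWO w A) {P : V → Prop} (hP : ∃ x ∈ A, P x) :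
    ∃ x ∈ A, P x ∧ ∀ y ∈ A, P y → pair x y ∈ w := by
  have hwf : WellFounded (fun y z => pair y z ∈ strict w) := h.2.2.2.2.2
  obtain ⟨x, ⟨hx, hpx⟩, hm⟩ := hwf.has_min {x | x ∈ A ∧ P x} hP
  refine ⟨x, hx, hpx, fun y hy hpy => ?_⟩
  rcases h.2.2.2.2.1 x hx y hy with h1 | h1
  · exact h1
  · by_cases e : y = x
    · rw [e]; exact h.2.1 x hx
    · exact absurd (pair_mem_strict.2 ⟨h1, e⟩) (hm y ⟨hy, hpy⟩)
theorem IsWO.restrict {w A B : V} (h : IsWO w A) (hB : B ⊆ A) : IsWO (w ∩ prod B B) B := by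
  have key : ∀ x y : V, pair x y ∈ w ∩ prod B B ↔ pair x y ∈ w ∧ x ∈ B ∧ y ∈ B := fun x y => by
    rw [ZFSet.mem_inter, pair_mem_prod]
  refine ⟨fun p hp => (ZFSet.mem_inter.1 hp).2, fun x hx => (key x x).2 ⟨h.2.1 x (hB hx), hx, hx⟩,
    fun x hx y hy h1 h2 => h.2.2.1 x (hB hx) y (hB hy) ((key _ _).1 h1).1 ((key _ _).1 h2).1,
    fun x hx y hy z hz h1 h2 => (key _ _).2
      ⟨h.2.2.2.1 x (hB hx) y (hB hy) z (hB hz) ((key _ _).1 h1).1 ((key _ _).1 h2).1, hx, hz⟩,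
    fun x hx y hy => (h.2.2.2.2.1 x (hB hx) y (hB hy)).imp
      (fun h1 => (key _ _).2 ⟨h1, hx, hy⟩) (fun h1 => (key _ _).2 ⟨h1, hy, hx⟩), ?_⟩
  have hwf : WellFounded (fun y z => pair y z ∈ strict w) := h.2.2.2.2.2
  refine Subrelation.wf (fun {y z} hp => ?_) hwf
  have := pair_mem_strict.1 hp
  exact pair_mem_strict.2 ⟨((key _ _).1 this.1).1, this.2⟩
/-- the `w`-least `x ∈ A` with `P x` (or `∅`) -/
noncomputable def wmin (w A : V) (P : V → Prop) : V :=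
  ⋃₀ (ZFSet.sep (fun x => P x ∧ ∀ y ∈ A, P y → pair x y ∈ w) A)
theorem IsWO.wmin_spec {w A : V} (h : IsWO w A) {P : V → Prop} (hP : ∃ x ∈ A, P x) :
    wmin w A P ∈ A ∧ P (wmin w A P) ∧ ∀ y ∈ A, P y → pair (wmin w A P) y ∈ w := by
  obtain ⟨x, hx, hpx, hm⟩ := h.exists_min hP
  have e : ZFSet.sep (fun x => P x ∧ ∀ y ∈ A, P y → pair x y ∈ w) A = {x} := by
    ext u
    simp only [mem_sep, mem_singleton]
    exact ⟨fun ⟨hu, hpu, hmu⟩ => h.2.2.1 u hu x hx (hmu x hx hpx) (hm u hu hpu),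
      fun e => e ▸ ⟨hx, hpx, hm⟩⟩
  have e2 : wmin w A P = x := by rw [wmin, e, sUnion_singleton]
  rw [e2]; exact ⟨hx, hpx, hm⟩
instance uf_wmin {a b : Set V → (ℕ → V) → V} {P : Set V → (ℕ → V) → V → Prop} [UF F a] [UF F b]
    [UD F (fun M v => P M (tl v) (vr v 0))] : UF F (fun M v => wmin (a M v) (b M v) (P M v)) := by
  have := UF.lift (F := F) a; have := UF.lift (F := F) b
  haveI : ∀ (g : Set V → (ℕ → V) → (ℕ → V)) (c : Set V → (ℕ → V) → V) [UV F g] [UF F c],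
      UD F (fun M v => P M (g M v) (c M v)) := fun g c _ _ =>
    UD.lift (fun M v => P M (tl v) (vr v 0)) (fun M v => cons (c M v) (g M v))
  unfold wmin; infer_instance
/-- position of `x` in the well-order `w` -/
noncomputable def wpos (w x : V) : Ordinal.{0} := rkR (strict w) x
instance uf_wpos {a b : Set V → (ℕ → V) → V} [UF F a] [UF F b] :
    UF F (fun M v => wpos (a M v) (b M v)) := by unfold wpos; infer_instance
theorem z4d_lt {w A x y : V} (h : IsWO w A) (hp : pair y x ∈ w) (hne : y ≠ x) :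
    wpos w y < wpos w x :=
  rkR_lt (h.2.2.2.2.2.accP x) (pair_mem_strict.2 ⟨hp, hne⟩)
theorem z4d_le_iff {w A x : V} (h : IsWO w A) {o : Ordinal.{0}} :
    wpos w x ≤ o ↔ ∀ y, pair y x ∈ strict w → wpos w y < o :=
  rkR_le_iff (h.2.2.2.2.2.accP x)
theorem IsWO.wpos_le_iff {w A x y : V} (h : IsWO w A) (hx : x ∈ A) (hy : y ∈ A) :
    wpos w x ≤ wpos w y ↔ pair x y ∈ w := by
  constructor
  · intro hle
    rcases h.2.2.2.2.1 x hx y hy with h1 | h1
    · exact h1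
    · by_cases e : y = x
      · rw [e]; exact h.2.1 x hx
      · exact absurd (z4d_lt h h1 e) (not_lt.2 hle)
  · intro hp
    by_cases e : x = y
    · rw [e]
    · exact (z4d_lt h hp e).le
theorem IsWO.wpos_inj {w A x y : V} (h : IsWO w A) (hx : x ∈ A) (hy : y ∈ A)
    (e : wpos w x = wpos w y) : x = y :=
  h.2.2.1 x hx y hy ((h.wpos_le_iff hx hy).1 e.le) ((h.wpos_le_iff hy hx).1 e.ge)
theorem IsWO.wpos_surj {w A x : V} (h : IsWO w A) (hx : x ∈ A) {o : Ordinal.{0}}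
    (ho : o < wpos w x) : ∃ y ∈ A, wpos w y = o := by
  have hwf : WellFounded (fun y z => pair y z ∈ strict w) := h.2.2.2.2.2
  clear hx
  induction x using hwf.induction with
  | _ x ih =>
    have h1 : ¬ ∀ y, pair y x ∈ strict w → wpos w y < o := fun hh =>
      absurd ((z4d_le_iff h).2 hh) (not_le.2 ho)
    obtain ⟨y, hy⟩ := not_forall.1 h1
    obtain ⟨hy1, hy2⟩ := Classical.not_imp.1 hy
    rcases (not_lt.1 hy2).eq_or_lt with e | e
    · exact ⟨y, (z4d_mem h (pair_mem_strict.1 hy1).1).1, e.symm⟩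
    · exact ih y hy1 e
/-- positions are unchanged by end-extension -/
theorem IsWO.wpos_end {w A w' A' x : V} (h : IsWO w A) (h' : IsWO w' A') (hs : w ⊆ w')
    (he : ∀ y ∈ A, ∀ z, pair z y ∈ w' → z ∈ A) (hx : x ∈ A) : wpos w' x = wpos w x := by
  have hwf : WellFounded (fun y z => pair y z ∈ strict w) := h.2.2.2.2.2
  induction x using hwf.induction with
  | _ x ih =>
    have key : ∀ y, pair y x ∈ strict w' ↔ pair y x ∈ strict w := fun y => by
      rw [pair_mem_strict, pair_mem_strict]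
      refine ⟨fun ⟨h1, h2⟩ => ⟨?_, h2⟩, fun ⟨h1, h2⟩ => ⟨hs h1, h2⟩⟩
      rcases h.2.2.2.2.1 y (he x hx y h1) x hx with h3 | h3
      · exact h3
      · exact absurd (h'.2.2.1 y (z4d_mem h' h1).1 x (z4d_mem h' h1).2 h1 (hs h3)) h2
    have ihy : ∀ y, pair y x ∈ strict w → wpos w' y = wpos w y := fun y hy =>
      ih y hy (z4d_mem h (pair_mem_strict.1 hy).1).1
    refine le_antisymm ((z4d_le_iff h').2 fun y hy => ?_) ((z4d_le_iff h).2 fun y hy => ?_)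
    · have hy' := (key y).1 hy
      rw [ihy y hy']
      exact z4d_lt h (pair_mem_strict.1 hy').1 (pair_mem_strict.1 hy').2
    · have hy' := (key y).2 hy
      rw [← ihy y hy]
      exact z4d_lt h' (pair_mem_strict.1 hy').1 (pair_mem_strict.1 hy').2
/-- the well-order pulled back along an injection into the ordinals -/
theorem z4d_rel {A : V} (g : V → Ordinal.{0}) (hg : ∀ x ∈ A, ∀ y ∈ A, g x = g y → x = y) :
    IsWO (rel A A fun x y => g x ≤ g y) A ∧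
      ∀ x, wpos (rel A A fun x y => g x ≤ g y) x ≤ g x := by
  have hlt : ∀ x y : V, pair x y ∈ strict (rel A A fun x y => g x ≤ g y) → g x < g y :=
    fun x y hp => by
      obtain ⟨h1, h2⟩ := pair_mem_strict.1 hp
      obtain ⟨hx, hy, hle⟩ := pair_mem_rel.1 h1
      exact lt_of_le_of_ne hle fun e => h2 (hg x hx y hy e)
  have hwf : WellFounded (fun y z => pair y z ∈ strict (rel A A fun x y => g x ≤ g y)) :=
    Subrelation.wf (fun {y z} hp => hlt y z hp) (InvImage.wf g wellFounded_lt)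
  have hW : IsWO (rel A A fun x y => g x ≤ g y) A :=
    ⟨fun p hp => (mem_sep.1 hp).1, fun x hx => pair_mem_rel.2 ⟨hx, hx, le_rfl⟩,
      fun x hx y hy h1 h2 => hg x hx y hy
        (le_antisymm (pair_mem_rel.1 h1).2.2 (pair_mem_rel.1 h2).2.2),
      fun x hx y hy z hz h1 h2 => pair_mem_rel.2
        ⟨hx, hz, le_trans (pair_mem_rel.1 h1).2.2 (pair_mem_rel.1 h2).2.2⟩,
      fun x hx y hy => (le_total (g x) (g y)).imp
        (fun h1 => pair_mem_rel.2 ⟨hx, hy, h1⟩) (fun h1 => pair_mem_rel.2 ⟨hy, hx, h1⟩), hwf⟩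
  refine ⟨hW, fun x => ?_⟩
  induction x using hwf.induction with
  | _ x ih => exact (z4d_le_iff hW).2 fun y hy => (ih y hy).trans_lt (hlt y x hy)
theorem exists_isWO (M : Set V) [IsT M] {A : V} (hA : A ∈ M) : ∃ w ∈ M, IsWO w A := by
  obtain ⟨f, hf, o, hfn, hinj⟩ := IsT.wo A hA
  obtain ⟨h1, h2, h3⟩ := isFunc_iff.1 hfn
  haveI : In M A := ⟨hA⟩
  haveI : In M f := ⟨hf⟩
  refine ⟨rel A A fun x y => (app f x).rank ≤ (app f y).rank, memV_of M _,
    (z4d_rel (fun x => (app f x).rank) fun x hx y hy e => ?_).1⟩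
  obtain ⟨p, -, hp⟩ := mem_toZFSet_iff.1 (h3 x hx)
  obtain ⟨q, -, hq⟩ := mem_toZFSet_iff.1 (h3 y hy)
  have e' : app f x = app f y := by
    simp only [← hp, ← hq, rank_toZFSet] at e
    rw [← hp, ← hq, e]
  exact hinj x y _ (h1.pair_app_mem (h2 ▸ hx)) (e' ▸ h1.pair_app_mem (h2 ▸ hy))
/-- components of the code `n = ⟨a, b⟩ + 1` -/
noncomputable def z4d_a (o : Ordinal.{0}) : ℕ :=
  sInf {a : ℕ | ∃ b : ℕ, ((Nat.pair a b + 1 : ℕ) : Ordinal.{0}) = o}
noncomputable def z4d_b (o : Ordinal.{0}) : ℕ :=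
  sInf {b : ℕ | ∃ a : ℕ, ((Nat.pair a b + 1 : ℕ) : Ordinal.{0}) = o}
theorem z4d_a_eq (a b : ℕ) : z4d_a ((Nat.pair a b + 1 : ℕ) : Ordinal.{0}) = a := by
  have : {a' : ℕ | ∃ b' : ℕ, ((Nat.pair a' b' + 1 : ℕ) : Ordinal.{0}) = (Nat.pair a b + 1 : ℕ)}
      = {a} := by
    ext a'
    simp only [Set.mem_ofPred_eq, Nat.cast_inj, Nat.add_right_cancel_iff, Nat.pair_eq_pair,
      Set.mem_singleton_iff]
    exact ⟨fun ⟨_, h, _⟩ => h, fun h => ⟨b, h, rfl⟩⟩
  rw [z4d_a, this, csInf_singleton]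
theorem z4d_b_eq (a b : ℕ) : z4d_b ((Nat.pair a b + 1 : ℕ) : Ordinal.{0}) = b := by
  have : {b' : ℕ | ∃ a' : ℕ, ((Nat.pair a' b' + 1 : ℕ) : Ordinal.{0}) = (Nat.pair a b + 1 : ℕ)}
      = {b} := by
    ext b'
    simp only [Set.mem_ofPred_eq, Nat.cast_inj, Nat.add_right_cancel_iff, Nat.pair_eq_pair,
      Set.mem_singleton_iff]
    exact ⟨fun ⟨_, _, h⟩ => h, fun h => ⟨a, rfl, h⟩⟩
  rw [z4d_b, this, csInf_singleton]
instance z4d_uf_a {o : Set V → (ℕ → V) → Ordinal.{0}} [UF F o] :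
    UF F (fun M v => z4d_a (o M v)) := by
  have := UF.lift (F := F) o; unfold z4d_a; infer_instance
instance z4d_uf_b {o : Set V → (ℕ → V) → Ordinal.{0}} [UF F o] :
    UF F (fun M v => z4d_b (o M v)) := by
  have := UF.lift (F := F) o; unfold z4d_b; infer_instance
open Classical in
/-- the hereditarily finite set with code `o` -/
noncomputable def z4d_dc (o : Ordinal.{0}) : V :=
  orec (fun o s => if o = 0 then (∅ : V) else
    insert (oat s (z4d_a o : Ordinal.{0}) : V) (oat s (z4d_b o : Ordinal.{0}) : V)) o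
instance z4d_uf_dc {o : Set V → (ℕ → V) → Ordinal.{0}} [UF F o] :
    UF F (fun M v => z4d_dc (o M v)) := by
  unfold z4d_dc; infer_instance
theorem z4d_dc_zero : z4d_dc ((0 : ℕ) : Ordinal.{0}) = ∅ := by
  rw [z4d_dc, orec_eq, if_pos Nat.cast_zero]
theorem z4d_dc_pair (a b : ℕ) : z4d_dc ((Nat.pair a b + 1 : ℕ) : Ordinal.{0}) =
    insert (z4d_dc (a : Ordinal.{0})) (z4d_dc (b : Ordinal.{0})) := by
  have ha : (a : Ordinal.{0}) < (Nat.pair a b + 1 : ℕ) :=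
    Nat.cast_lt.2 (Nat.lt_succ_of_le (Nat.left_le_pair a b))
  have hb : (b : Ordinal.{0}) < (Nat.pair a b + 1 : ℕ) :=
    Nat.cast_lt.2 (Nat.lt_succ_of_le (Nat.right_le_pair a b))
  rw [z4d_dc, orec_eq, if_neg (Nat.cast_ne_zero.2 (Nat.succ_ne_zero _)), z4d_a_eq, z4d_b_eq,
    oat_sq _ ha, oat_sq _ hb]
  rfl
theorem z4d_fin (n : ℕ) : ((vonNeumann (n : Ordinal.{0}) : V) : Set V).Finite := by
  induction n with
  | zero => simp
  | succ n ih =>
    refine Set.Finite.of_finite_image (f := fun z : V => (z : Set V)) (ih.finite_subsets.subset ?_)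
      SetLike.coe_injective.injOn
    rintro _ ⟨z, hz, rfl⟩
    rw [Nat.cast_succ, vonNeumann_add_one] at hz
    exact fun y hy => mem_powerset.1 hz hy
theorem z4d_surj_fin (S : Set V) (hS : S.Finite) : ∀ x : V, (x : Set V) = S →
    (∀ y ∈ x, ∃ n : ℕ, z4d_dc (n : Ordinal.{0}) = y) → ∃ n : ℕ, z4d_dc (n : Ordinal.{0}) = x := by
  induction S, hS using Set.Finite.induction_on with
  | empty =>
    intro x hx _
    refine ⟨0, z4d_dc_zero.trans ((ZFSet.eq_empty x).2 fun y hy => ?_).symm⟩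
    have : y ∈ (x : Set V) := hy
    rw [hx] at this; exact this
  | @insert a s ha hs ih =>
    intro x hx H
    have hm : ∀ y : V, y ∈ x ↔ y = a ∨ y ∈ s := fun y => by
      rw [← Set.mem_insert_iff, ← hx]; rfl
    obtain ⟨i, hi⟩ := H a ((hm a).2 (Or.inl rfl))
    obtain ⟨k, hk⟩ := ih (ZFSet.sep (fun y => y ∈ s) x)
      (Set.ext fun y => by
        show y ∈ ZFSet.sep (fun y => y ∈ s) x ↔ _
        rw [mem_sep, hm]; exact ⟨fun h => h.2, fun h => ⟨Or.inr h, h⟩⟩)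
      (fun y hy => H y (mem_sep.1 hy).1)
    refine ⟨Nat.pair i k + 1, ?_⟩
    rw [z4d_dc_pair, hi, hk]
    ext y
    rw [ZFSet.mem_insert_iff, mem_sep, hm]
    exact or_congr_right ⟨fun h => h.2, fun h => ⟨Or.inr h, h⟩⟩
theorem z4d_surj (x : V) : x ∈ HF → ∃ n : ℕ, z4d_dc (n : Ordinal.{0}) = x := by
  induction x using ZFSet.inductionOn with
  | _ x ih =>
    intro hx
    have hr := mem_HF.1 hx
    obtain ⟨n, hn⟩ := lt_omega0.1 hr
    refine z4d_surj_fin x ((z4d_fin n).subset fun y hy => ?_) x rfl fun y hy =>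
      ih y hy (mem_HF.2 ((rank_lt_of_mem hy).trans hr))
    exact subset_vonNeumann.2 hn.le hy
/-- the least code of `x` -/
noncomputable def z4d_cd (x : V) : ℕ := sInf {n : ℕ | z4d_dc (n : Ordinal.{0}) = x}
instance z4d_uf_cd {a : Set V → (ℕ → V) → V} [UF F a] : UF F (fun M v => z4d_cd (a M v)) := by
  have := UF.lift (F := F) a; unfold z4d_cd; infer_instance
theorem z4d_dc_cd {x : V} (hx : x ∈ HF) : z4d_dc (z4d_cd x : Ordinal.{0}) = x :=
  Nat.sInf_mem (s := {n : ℕ | z4d_dc (n : Ordinal.{0}) = x}) (z4d_surj x hx)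
/-- a canonical definable well-order of the hereditarily finite sets, of order type `ω` -/
theorem exists_hfWO : ∃ w : V, IsWO w HF ∧ (∀ x ∈ HF, wpos w x < ω) ∧
    ∀ F : Fr, UF F (fun _ _ => w) := by
  obtain ⟨h1, h2⟩ := z4d_rel (A := HF) (fun x => (z4d_cd x : Ordinal.{0})) fun x hx y hy e => by
    rw [← z4d_dc_cd hx, e, z4d_dc_cd hy]
  exact ⟨_, h1, fun x _ => (h2 x).trans_lt (natCast_lt_omega0 _), fun F => inferInstance⟩
noncomputable def hfWO : V := exists_hfWO.choose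
theorem isWO_hfWO : IsWO hfWO HF := exists_hfWO.choose_spec.1
theorem wpos_hfWO {x : V} (hx : x ∈ HF) : wpos hfWO x < ω := exists_hfWO.choose_spec.2.1 x hx
instance uf_hfWO : UF F (fun _ _ => hfWO) := exists_hfWO.choose_spec.2.2 F
-- JOB D END

end Pool.Agent.Lib.MP_f9eb18_lc.W
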