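import Pool.Agent.Lib.MP_f9eb18_lc.W.Z4

/-! # Choice principles, countability, inaccessibles, `HC`, closure under `ω`-sequences -/

namespace Pool.Agent.Lib.MP_f9eb18_lc.W

open Ordinal ZFSet
set_option linter.style.haveILetI false
set_option linter.unusedVariables false
set_option synthInstance.maxSize 100000

variable {F : Fr}

-- JOB A BEGIN
/-! ### choice -/
theorem z5a_lift (N : Set V) [IsZ N] (P : V → V → Prop)
    [UD (loc N) (fun _ v => P (vr (tl v) 0) (vr v 0))] :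
    ∀ (a b : Set V → (ℕ → V) → V) [UF (loc N) a] [UF (loc N) b],
      UD (loc N) (fun M v => P (a M v) (b M v)) := fun a b _ _ =>
  UD.lift (fun _ v => P (vr (tl v) 0) (vr v 0)) (fun M v => cons (b M v) (cons (a M v) v))
theorem z5a_coll (N : Set V) [hN : IsZ N] (P : V → V → Prop)
    [UD (loc N) (fun _ v => P (vr (tl v) 0) (vr v 0))] {a : V} (ha : a ∈ N) :
    ∃ ζ : Ordinal.{0}, ζ.toZFSet ∈ N ∧
      ∀ x ∈ a, (∃ y ∈ N, P x y) → ∃ y ∈ N, y.rank < ζ ∧ P x y := by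
  haveI := z5a_lift N P
  obtain ⟨b, hb, H⟩ := coll_mem N (fun x y => (∃ z ∈ N, P x z) → P x y) ha fun x _ => by
    by_cases h : ∃ z ∈ N, P x z
    · obtain ⟨z, hz, hp⟩ := h
      exact ⟨z, hz, fun _ => hp⟩
    · exact ⟨∅, IsZ.empty_mem N, fun h' => absurd h' h⟩
  refine ⟨b.rank, IsZ.rank_mem N hb, fun x hx h => ?_⟩
  obtain ⟨y, hy, hp⟩ := H x hx
  exact ⟨y, hN.trans _ hb _ hy, rank_lt_of_mem hy, hp h⟩
/-- choice functions for definable relations -/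
theorem choice_fn (N : Set V) [IsT N] (P : V → V → Prop)
    [UD (loc N) (fun _ v => P (vr (tl v) 0) (vr v 0))] {a : V} (ha : a ∈ N)
    (h : ∀ x ∈ a, ∃ y ∈ N, P x y) : ∃ f ∈ N, IsFn f ∧ dom f = a ∧ ∀ x ∈ a, P x (app f x) := by
  obtain ⟨b, hb, H⟩ := coll_mem N P ha h
  obtain ⟨w, hw, hwo⟩ := exists_isWO N hb
  haveI : In N a := ⟨ha⟩
  haveI : In N b := ⟨hb⟩
  haveI : In N w := ⟨hw⟩
  haveI := z5a_lift N P
  refine ⟨lam a fun x => wmin w b fun y => P x y, memV_of N _, isFn_lam _ _, dom_lam _ _,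
    fun x hx => ?_⟩
  rw [app_lam _ hx]
  exact (hwo.wmin_spec (H x hx)).2.1
/-- all sets of rank below `ξ` that have a witness have one of rank below `ζ` -/
def z5a_Q (N : Set V) (P : V → V → Prop) (ξ ζ : Ordinal.{0}) : Prop :=
  ∀ x ∈ N, x.rank < ξ → (∃ y ∈ N, P x y) → ∃ y ∈ N, y.rank < ζ ∧ P x y
noncomputable def z5a_B (N : Set V) (P : V → V → Prop) (ξ : Ordinal.{0}) : Ordinal.{0} :=
  sInf {ζ | z5a_Q N P ξ ζ}
theorem z5a_ex (N : Set V) [IsZFC N] (P : V → V → Prop)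
    [UD (loc N) (fun _ v => P (vr (tl v) 0) (vr v 0))] {ξ : Ordinal.{0}} (h : ξ.toZFSet ∈ N) :
    ∃ ζ : Ordinal.{0}, ζ.toZFSet ∈ N ∧ z5a_Q N P ξ ζ := by
  haveI : In N ξ := ⟨h⟩
  obtain ⟨ζ, h1, h2⟩ := z5a_coll N P (memV_of N (Vs N ξ))
  exact ⟨ζ, h1, fun x hx hr => h2 x (mem_Vs.2 ⟨hx, hr⟩)⟩
theorem z5a_uf (N : Set V) [IsZFC N] (P : V → V → Prop)
    [UD (loc N) (fun _ v => P (vr (tl v) 0) (vr v 0))] :
    ∀ (o : Set V → (ℕ → V) → Ordinal.{0}) [UF (loc N) o],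
      UF (loc N) (fun M v => z5a_B N P (o M v)) := by
  intro o ho
  haveI := z5a_lift N P
  haveI : ∀ (o p : Set V → (ℕ → V) → Ordinal.{0}) [UF (loc N) o] [UF (loc N) p],
      UD (loc N) (fun M v => z5a_Q N P (o M v) (p M v)) := fun o p _ _ => by
    have := UF.lift (F := loc N) o; have := UF.lift (F := loc N) p
    unfold z5a_Q; infer_instance
  have := UF.lift (F := loc N) o
  refine UF.of_graph (fun M v y => y = y.rank.toZFSet ∧ z5a_Q N P (o M v) y.rank ∧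
    ∀ z < y.rank, ¬ z5a_Q N P (o M v) z) (fun M hM v hv => ?_) (fun M hM v hv y _ => ?_)
  · obtain rfl : M = N := hM
    obtain ⟨ζ, h1, h2⟩ := z5a_ex M P (ho.cl M rfl v hv)
    exact IsZ.ord_mem_of_le M h1 (csInf_le' h2)
  · obtain rfl : M = N := hM
    obtain ⟨ζ, -, h2⟩ := z5a_ex M P (ho.cl M rfl v hv)
    constructor
    · rintro rfl
      rw [enc_ord, rank_toZFSet]
      exact ⟨rfl, csInf_mem (s := {ζ | z5a_Q M P (o M v) ζ}) ⟨ζ, h2⟩,
        fun z hz => notMem_of_lt_csInf' hz⟩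
    · rintro ⟨e, h3, h4⟩
      rw [e, enc_ord]
      refine congrArg toZFSet (le_antisymm (le_csInf ⟨ζ, h2⟩ fun z hz => ?_) (csInf_le' h3))
      exact not_lt.1 fun hl => h4 z hl hz
theorem z5a_rank {α : Ordinal.{0}} {g : Ordinal.{0} → V} {ρ : Ordinal.{0} → Ordinal.{0}}
    (h : ∀ β < α, (g β).rank ≤ ρ β) : (sq α g).rank ≤ (sq α ρ).rank := by
  refine rank_le_iff.2 fun p hp => ?_
  obtain ⟨x, hx, rfl⟩ := mem_lam.1 hp
  refine lt_of_le_of_lt ?_ (rank_lt_of_mem (mem_lam.2 ⟨x, hx, rfl⟩))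
  have hx' : x.rank < α := by simpa using rank_lt_of_mem hx
  rw [rank_zpair, rank_zpair, enc_V, enc_ord, rank_toZFSet]
  exact add_le_add (max_le_max le_rfl (h _ hx')) le_rfl
/-- transfinite dependent choice for definable relations -/
theorem trans_dc (N : Set V) [IsZFC N] (P : V → V → Prop)
    [UD (loc N) (fun _ v => P (vr (tl v) 0) (vr v 0))] {γ : Ordinal.{0}} (hγ : γ.toZFSet ∈ N)
    (h : ∀ α < γ, ∀ s ∈ N, IsFn s → dom s = α.toZFSet →
      (∀ β < α, P (restr s β.toZFSet) (app s β.toZFSet)) → ∃ y ∈ N, P s y) :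
    ∃ s ∈ N, IsFn s ∧ dom s = γ.toZFSet ∧ ∀ β < γ, P (restr s β.toZFSet) (app s β.toZFSet) := by
  haveI := z5a_lift N P
  haveI := z5a_uf N P
  haveI : In N γ := ⟨hγ⟩
  obtain ⟨ρ, hρ, hr⟩ : ∃ ρ : Ordinal.{0} → Ordinal.{0},
      (∀ α, ρ α = z5a_B N P ((sq α ρ).rank + 1)) ∧ sq γ ρ ∈ N :=
    ⟨orec fun _ r => z5a_B N P (r.rank + 1), fun α => orec_eq _ α, memV_of N _⟩
  haveI : In N (sq γ ρ) := ⟨hr⟩
  have hA : Vs N (sq γ ρ).rank ∈ N := memV_of N _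
  obtain ⟨w, hw, hwo⟩ := exists_isWO N hA
  haveI : In N w := ⟨hw⟩
  obtain ⟨g, hg, hs⟩ : ∃ g : Ordinal.{0} → V, (∀ α, g α = wmin w (Vs N (sq γ ρ).rank)
      fun y => y.rank < oat (sq γ ρ) α ∧ P (sq α g) y) ∧ sq γ g ∈ N :=
    ⟨orec fun α s => wmin w (Vs N (sq γ ρ).rank) fun y => y.rank < oat (sq γ ρ) α ∧ P s y,
      fun α => orec_eq _ α, memV_of N _⟩
  haveI : In N (sq γ g) := ⟨hs⟩
  have key : ∀ α, α < γ → (g α).rank < ρ α ∧ P (sq α g) (g α) := by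
    intro α
    induction α using WellFoundedLT.induction with
    | _ α ih =>
      intro hα
      haveI : In N α := ⟨IsZ.ord_mem_of_le N hγ hα.le⟩
      have h1 : sq α g ∈ N := restr_sq g hα.le ▸ memV_of N (restr (sq γ g) α.toZFSet)
      have h2 : sq α ρ ∈ N := restr_sq ρ hα.le ▸ memV_of N (restr (sq γ ρ) α.toZFSet)
      haveI : In N (sq α ρ) := ⟨h2⟩
      have h3 := h α hα _ h1 (isFn_sq _ _) (dom_sq _ _) fun β hβ => by
        rw [restr_sq g hβ.le, show app (sq α g) β.toZFSet = g β from oat_sq g hβ]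
        exact (ih β hβ (hβ.trans hα)).2
      obtain ⟨ζ, -, h4⟩ := z5a_ex N P (mem_of N ((sq α ρ).rank + 1))
      have h5 : z5a_Q N P ((sq α ρ).rank + 1) (ρ α) := by
        rw [hρ α]
        exact csInf_mem (s := {ζ | z5a_Q N P ((sq α ρ).rank + 1) ζ}) ⟨ζ, h4⟩
      obtain ⟨y, hy, h6, h7⟩ := h5 _ h1 (lt_of_le_of_lt
        (z5a_rank fun β hβ => (ih β hβ (hβ.trans hα)).1.le) (lt_add_one _)) h3
      have h8 : ρ α ≤ (sq γ ρ).rank := by
        rw [← oat_sq ρ hα]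
        exact rank_app_le _ _
      have h9 := (hwo.wmin_spec (P := fun y => y.rank < oat (sq γ ρ) α ∧ P (sq α g) y)
        ⟨y, mem_Vs.2 ⟨hy, h6.trans_le h8⟩, by rwa [oat_sq ρ hα], h7⟩).2.1
      rwa [← hg α, oat_sq ρ hα] at h9
  refine ⟨sq γ g, hs, isFn_sq _ _, dom_sq _ _, fun β hβ => ?_⟩
  rw [restr_sq g hβ.le, show app (sq γ g) β.toZFSet = g β from oat_sq g hβ]
  exact (key β hβ).2
theorem z5a_dom {s : V} {α β : Ordinal.{0}} (h : dom s = α.toZFSet) (hβ : β ≤ α) :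
    dom (restr s β.toZFSet) = β.toZFSet := by
  ext x
  simp only [mem_dom, pair_mem_restr]
  exact ⟨fun ⟨_, h1⟩ => h1.2, fun h1 => by
    obtain ⟨y, hy⟩ := mem_dom.1 (h ▸ toZFSet_monotone hβ h1 : x ∈ dom s)
    exact ⟨y, hy, h1⟩⟩
/-- dependent choice -/
theorem dc_nat (N : Set V) [IsZFC N] (P : ℕ → V → V → Prop) (I : ℕ → V → Prop)
    [UD (loc N) (fun _ v => P (natOf (vr (tl (tl v)) 0)) (vr (tl v) 0) (vr v 0))]
    [UD (loc N) (fun _ v => I (natOf (vr (tl v) 0)) (vr v 0))] {x₀ : V} (h0 : x₀ ∈ N) (hI : I 0 x₀)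
    (h : ∀ n, ∀ x ∈ N, I n x → ∃ y ∈ N, I (n + 1) y ∧ P n x y) :
    ∃ f : ℕ → V, sqN f ∈ N ∧ f 0 = x₀ ∧ ∀ n, I n (f n) ∧ P n (f n) (f (n + 1)) := by
  haveI : In N x₀ := ⟨h0⟩
  haveI := z5a_lift N fun a y => I (natOf a) y
  haveI : ∀ (n : Set V → (ℕ → V) → ℕ) (a b : Set V → (ℕ → V) → V) [UF (loc N) n] [UF (loc N) a]
      [UF (loc N) b], UD (loc N) (fun M v => P (n M v) (a M v) (b M v)) := fun n a b _ _ _ =>
    (UD.lift (fun _ v => P (natOf (vr (tl (tl v)) 0)) (vr (tl v) 0) (vr v 0))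
      (fun M v => cons (b M v) (cons (a M v) (cons (natZ (n M v)) v)))).congr fun M _ v _ => by
        simp only [tl_cons, vr_cons_zero, natOf_natZ]
  obtain ⟨s, hs, -, hd, H⟩ := trans_dc N (fun s y => I (natOf (dom s)) y ∧
    (dom s = natZ 0 → y = x₀) ∧ ∀ n : ℕ, dom s = natZ (n + 1) → P n (app s (natZ n)) y)
    (γ := ω) (mem_of N ω) (by
      intro α hα s hs _ hd H
      obtain ⟨n, rfl⟩ := lt_omega0.1 hα
      have hd' : dom s = natZ n := hd
      rw [hd', natOf_natZ]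
      cases n with
      | zero => exact ⟨x₀, h0, hI, fun _ => rfl, fun n e => absurd (natZ_inj.1 e) (by omega)⟩
      | succ n =>
        have hn : (n : Ordinal.{0}) < (n + 1 : ℕ) := Nat.cast_lt.2 (Nat.lt_succ_self n)
        have h1 := (H n hn).1
        rw [show dom (restr s (n : Ordinal.{0}).toZFSet) = natZ n from z5a_dom hd hn.le,
          natOf_natZ] at h1
        obtain ⟨y, hy, h2, h3⟩ := h n _ (IsZ.app_mem N hs _) h1
        refine ⟨y, hy, h2, fun e => absurd (natZ_inj.1 e) (by omega), fun m e => ?_⟩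
        obtain rfl : n = m := by
          have := natZ_inj.1 e
          omega
        exact h3)
  haveI : In N s := ⟨hs⟩
  have hd' : ∀ n : ℕ, dom (restr s (n : Ordinal.{0}).toZFSet) = natZ n := fun n =>
    z5a_dom hd (natCast_lt_omega0 n).le
  refine ⟨fun n => app s (natZ n), memV_of N _, (H _ (natCast_lt_omega0 0)).2.1 (hd' 0),
    fun n => ⟨?_, ?_⟩⟩
  · have h1 := (H _ (natCast_lt_omega0 n)).1
    rwa [hd', natOf_natZ] at h1
  · have h1 := (H _ (natCast_lt_omega0 (n + 1))).2.2 n (hd' (n + 1))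
    have hn : (n : Ordinal.{0}) < (n + 1 : ℕ) := Nat.cast_lt.2 (Nat.lt_succ_self n)
    rwa [show app (restr s ((n + 1 : ℕ) : Ordinal.{0}).toZFSet) (natZ n) = app s (natZ n) from
      oat_restr (α := V) hn] at h1
/-- a definable class function is bounded on a set: all witnesses can be found in some `V_ζ` -/
theorem coll_rank (N : Set V) [IsZ N] (P : V → V → Prop)
    [UD (loc N) (fun _ v => P (vr (tl v) 0) (vr v 0))] {a : V} (ha : a ∈ N) :
    ∃ ζ : Ordinal.{0}, ζ.toZFSet ∈ N ∧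
      ∀ x ∈ a, (∃ y ∈ N, P x y) → ∃ y ∈ N, y.rank < ζ ∧ P x y := z5a_coll N P ha
theorem sqN_mem_elim {N : Set V} [IsZ N] {f : ℕ → V} (h : sqN f ∈ N) (n : ℕ) : f n ∈ N := by
  have := IsZ.app_mem N h (natZ n)
  rwa [app_sqN] at this
/-- a sequence coded in `N` is a definable function -/
theorem uf_of_sqN {N : Set V} [IsZ N] {f : ℕ → V} (h : sqN f ∈ N) {n : Set V → (ℕ → V) → ℕ}
    [UF (loc N) n] : UF (loc N) (fun M v => f (n M v)) :=
  haveI : In N (sqN f) := ⟨h⟩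
  (inferInstance : UF (loc N) (fun M v => app (sqN f) (natZ (n M v)))).congr
    fun _ _ _ _ => (app_sqN f _).symm
-- JOB A END

-- JOB B BEGIN
/-! ### injections, countability -/
def InjIn (N : Set V) (a b : V) : Prop := ∃ f ∈ N, IsInj f a b
theorem ctbl_iff {N : Set V} {s : V} : Ctbl N s ↔ InjIn N s omegaZ := Iff.rfl
instance ud_injIn {D : Set V → (ℕ → V) → Set V} {a b : Set V → (ℕ → V) → V} [UC F D] [UF F a]
    [UF F b] : UD F (fun M v => InjIn (D M v) (a M v) (b M v)) := by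
  have := UF.lift (F := F) a; have := UF.lift (F := F) b; unfold InjIn; infer_instance
instance ud_ctbl {D : Set V → (ℕ → V) → Set V} {a : Set V → (ℕ → V) → V} [UC F D] [UF F a] :
    UD F (fun M v => Ctbl (D M v) (a M v)) := by
  have := UF.lift (F := F) a; unfold Ctbl; infer_instance
theorem isInj_iff {f a b : V} : IsInj f a b ↔
    IsFunc a b f ∧ ∀ x ∈ a, ∀ y ∈ a, app f x = app f y → x = y := by
  refine and_congr_right fun h => ?_
  obtain ⟨hf, rfl, -⟩ := isFunc_iff.1 h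
  refine ⟨fun k x hx y hy e => k x y _ (hf.pair_app_mem hx) (e ▸ hf.pair_app_mem hy),
    fun k x x' y h1 h2 => k x (mem_dom.2 ⟨y, h1⟩) x' (mem_dom.2 ⟨y, h2⟩) ?_⟩
  rw [hf.app_eq h1, hf.app_eq h2]
theorem isInj_lam {a b : V} {f : V → V} (h : ∀ x ∈ a, f x ∈ b)
    (hi : ∀ x ∈ a, ∀ y ∈ a, f x = f y → x = y) : IsInj (lam a f) a b := by
  refine isInj_iff.2 ⟨isFunc_lam h, fun x hx y hy e => hi x hx y hy ?_⟩
  rwa [app_lam f hx, app_lam f hy] at e
theorem InjIn.mono {N N' : Set V} (h : N ⊆ N') {a b : V} (hi : InjIn N a b) : InjIn N' a b := by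
  obtain ⟨f, hf, k⟩ := hi
  exact ⟨f, h hf, k⟩
theorem Ctbl.mono {N N' : Set V} (h : N ⊆ N') {a : V} (hi : Ctbl N a) : Ctbl N' a := InjIn.mono h hi
theorem z5b_spec {N : Set V} {a b : V} (h : InjIn N a b) : ∃ f ∈ N, (∀ x ∈ a, app f x ∈ b) ∧
    ∀ x ∈ a, ∀ y ∈ a, app f x = app f y → x = y := by
  obtain ⟨f, hf, k⟩ := h
  exact ⟨f, hf, (isFunc_iff.1 k.1).2.2, (isInj_iff.1 k).2⟩
theorem z5b_nat {f a : V} (k : IsInj f a omegaZ) :
    ∀ x ∈ a, ∀ y ∈ a, natOf (app f x) = natOf (app f y) → x = y := fun x hx y hy e => by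
  obtain ⟨m, hm⟩ := mem_omegaZ.1 ((isFunc_iff.1 k.1).2.2 x hx)
  obtain ⟨n, hn⟩ := mem_omegaZ.1 ((isFunc_iff.1 k.1).2.2 y hy)
  refine (isInj_iff.1 k).2 x hx y hy ?_
  rw [← hm, ← hn, natOf_natZ, natOf_natZ] at e
  rw [← hm, ← hn, e]
theorem z5b_mk {N : Set V} [IsZ N] {a b : V} (f : V → V) [UF (loc N) (fun _ v => f (vr v 0))]
    (ha : a ∈ N) (h : ∀ x ∈ a, f x ∈ b) (hi : ∀ x ∈ a, ∀ y ∈ a, f x = f y → x = y) :
    InjIn N a b :=
  haveI : In N a := ⟨ha⟩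
  ⟨lam a f, memV_of N _, isInj_lam h hi⟩
theorem z5b_mkN {N : Set V} [IsZ N] {a : V} (f : V → ℕ) [UF (loc N) (fun _ v => f (vr v 0))]
    (ha : a ∈ N) (hi : ∀ x ∈ a, ∀ y ∈ a, f x = f y → x = y) : Ctbl N a :=
  z5b_mk (fun x => natZ (f x)) ha (fun _ _ => natZ_mem_omegaZ _)
    fun x hx y hy e => hi x hx y hy (natZ_inj.1 e)
theorem Ctbl.countable {N : Set V} {a : V} (hi : Ctbl N a) : (a : Set V).Countable := by
  obtain ⟨f, -, k⟩ := hi
  exact Set.countable_iff_exists_injOn.2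
    ⟨fun x => natOf (app f x), fun x hx y hy e => z5b_nat k x hx y hy e⟩
section inj
variable {N : Set V} [IsZ N] {a b c : V}
theorem InjIn.mem_left (h : InjIn N a b) : a ∈ N := by
  obtain ⟨f, hf, k⟩ := h
  haveI : In N f := ⟨hf⟩
  exact (isFunc_iff.1 k.1).2.1 ▸ memV_of N (dom f)
theorem InjIn.trans (h : InjIn N a b) (h' : InjIn N b c) : InjIn N a c := by
  obtain ⟨f, hf, k1, k2⟩ := z5b_spec h
  obtain ⟨g, hg, k3, k4⟩ := z5b_spec h'
  haveI : In N f := ⟨hf⟩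
  haveI : In N g := ⟨hg⟩
  exact z5b_mk (fun x => app g (app f x)) h.mem_left (fun x hx => k3 _ (k1 x hx))
    fun x hx y hy e => k2 x hx y hy (k4 _ (k1 x hx) _ (k1 y hy) e)
theorem InjIn.of_subset (ha : a ∈ N) (h : a ⊆ b) : InjIn N a b := by
  exact z5b_mk (fun x => x) ha (fun x hx => h hx) fun _ _ _ _ e => e
theorem InjIn.prod {d : V} (h : InjIn N a c) (h' : InjIn N b d) : InjIn N (prod a b) (prod c d) := by
  obtain ⟨f, hf, k1, k2⟩ := z5b_spec h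
  obtain ⟨g, hg, k3, k4⟩ := z5b_spec h'
  haveI : In N f := ⟨hf⟩
  haveI : In N g := ⟨hg⟩
  haveI : In N a := ⟨h.mem_left⟩
  haveI : In N b := ⟨h'.mem_left⟩
  refine z5b_mk (fun p => pair (app f (fst p)) (app g (snd p))) (memV_of N _) (fun p hp => ?_)
    fun p hp q hq e => ?_
  · obtain ⟨x, hx, y, hy, rfl⟩ := mem_prod.1 hp
    rw [fst_pair, snd_pair]
    exact pair_mem_prod.2 ⟨k1 x hx, k3 y hy⟩
  · obtain ⟨x, hx, y, hy, rfl⟩ := mem_prod.1 hp
    obtain ⟨x', hx', y', hy', rfl⟩ := mem_prod.1 hq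
    simp only [fst_pair, snd_pair, pair_inj] at e
    rw [k2 x hx x' hx' e.1, k4 y hy y' hy' e.2]
theorem InjIn.lists (h : InjIn N a b) : InjIn N (lists a) (lists b) := by
  obtain ⟨f, hf, k1, k2⟩ := z5b_spec h
  haveI : In N f := ⟨hf⟩
  haveI : In N a := ⟨h.mem_left⟩
  have key : ∀ l l' : List V, (∀ x ∈ l, x ∈ a) → (∀ x ∈ l', x ∈ a) →
      l.map (app f) = l'.map (app f) → l = l' := by
    intro l
    induction l with
    | nil => intro l' _ _ e; exact (List.map_eq_nil_iff.1 e.symm).symm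
    | cons x l ih =>
      intro l' h1 h2 e
      cases l' with
      | nil => exact absurd e (List.cons_ne_nil _ _)
      | cons y l' =>
        rw [List.forall_mem_cons] at h1 h2
        rw [List.map_cons, List.map_cons, List.cons.injEq] at e
        rw [k2 x h1.1 y h2.1 e.1, ih l' h1.2 h2.2 e.2]
  have hd : ∀ l : List V, (dec (listZ l) : List V) = l := dec_enc
  refine z5b_mk (fun p => listZ ((dec p : List V).map fun x => app f x)) (memV_of N _)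
    (fun p hp => ?_) fun p hp q hq e => ?_
  · obtain ⟨l, hl, rfl⟩ := mem_lists.1 hp
    rw [hd]
    exact mem_lists.2 ⟨_, List.forall_mem_map.2 fun x hx => k1 x (hl x hx), rfl⟩
  · obtain ⟨l, hl, rfl⟩ := mem_lists.1 hp
    obtain ⟨l', hl', rfl⟩ := mem_lists.1 hq
    rw [hd, hd] at e
    rw [key l l' hl hl' (listZ_inj e)]
theorem ctbl_HF : Ctbl N HF := by
  exact z5b_mk (fun x => (wpos hfWO x).toZFSet) (memV_of N _)
    (fun x hx => toZFSet_mem_toZFSet_iff.2 (wpos_hfWO hx))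
    fun x hx y hy e => isWO_hfWO.wpos_inj hx hy (toZFSet_injective e)
theorem ctbl_omega : Ctbl N omegaZ := by
  exact InjIn.of_subset IsZ.omega subset_rfl
theorem Ctbl.of_subset (h : Ctbl N b) (ha : a ∈ N) (hs : a ⊆ b) : Ctbl N a := by
  exact (InjIn.of_subset ha hs).trans h
theorem Ctbl.union (h : Ctbl N a) (h' : Ctbl N b) : Ctbl N (a ∪ b) := by
  classical
  haveI : In N a := ⟨InjIn.mem_left h⟩
  haveI : In N b := ⟨InjIn.mem_left h'⟩
  obtain ⟨f, hf, k⟩ := h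
  obtain ⟨g, hg, k'⟩ := h'
  haveI : In N f := ⟨hf⟩
  haveI : In N g := ⟨hg⟩
  refine z5b_mkN (fun x => if x ∈ a then 2 * natOf (app f x) else 2 * natOf (app g x) + 1)
    (memV_of N _) fun x hx y hy e => ?_
  rw [mem_union] at hx hy
  split_ifs at e with h1 h2 h2
  · exact z5b_nat k x h1 y h2 (by omega)
  · omega
  · omega
  · exact z5b_nat k' x (hx.resolve_left h1) y (hy.resolve_left h2) (by omega)
theorem Ctbl.insert (h : Ctbl N a) (hb : b ∈ N) : Ctbl N (insert b a) := by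
  haveI : In N b := ⟨hb⟩
  rw [insert_eq]
  exact Ctbl.union (z5b_mkN (fun _ => 0) (memV_of N _) fun x hx y hy _ =>
    (mem_singleton.1 hx).trans (mem_singleton.1 hy).symm) h
theorem z5b_pair {x y : V} (hx : x ∈ HF) (hy : y ∈ HF) : pair x y ∈ HF :=
  mem_HF.2 ((rank_pair_lt isSuccLimit_omega0).2 ⟨mem_HF.1 hx, mem_HF.1 hy⟩)
theorem z5b_om {x : V} (hx : x ∈ omegaZ) : x ∈ HF := toZFSet_subset_vonNeumann ω hx
theorem Ctbl.prod (h : Ctbl N a) (h' : Ctbl N b) : Ctbl N (prod a b) := by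
  refine (InjIn.prod h h').trans (Ctbl.of_subset ctbl_HF (memV_of N _) fun p hp => ?_)
  obtain ⟨x, hx, y, hy, rfl⟩ := mem_prod.1 hp
  exact z5b_pair (z5b_om hx) (z5b_om hy)
theorem Ctbl.lists (h : Ctbl N a) : Ctbl N (lists a) := by
  refine (InjIn.lists h).trans (Ctbl.of_subset ctbl_HF (memV_of N _) fun p hp => ?_)
  obtain ⟨l, hl, rfl⟩ := mem_lists.1 hp
  clear hp
  induction l with
  | nil => exact mem_HF.2 (rank_empty.trans_lt omega0_pos)
  | cons x l ih =>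
    rw [List.forall_mem_cons] at hl
    exact z5b_pair (z5b_om hl.1) (ih hl.2)
theorem ctbl_of_finite (h : (a : Set V).Finite) (hs : (a : Set V) ⊆ N) : Ctbl N a := by
  have key : ∀ s : Set V, s.Finite → s ⊆ N → ∃ b, Ctbl N b ∧ s ⊆ b := by
    intro s h1
    induction s, h1 using Set.Finite.induction_on with
    | empty => exact fun _ => ⟨_, ctbl_omega, Set.empty_subset _⟩
    | insert _ _ ih =>
      intro h2
      rw [Set.insert_subset_iff] at h2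
      obtain ⟨b, hb, k⟩ := ih h2.2
      exact ⟨_, hb.insert h2.1, Set.insert_subset (mem_insert _ _) fun y hy =>
        mem_insert_of_mem _ (k hy)⟩
  obtain ⟨b, hb, k⟩ := key _ h hs
  exact hb.of_subset (IsZ.finite_mem N h hs) k
/-- enumeration of a nonempty countable set -/
theorem Ctbl.exists_enum (h : Ctbl N a) (hne : a.Nonempty) :
    ∃ f : ℕ → V, sqN f ∈ N ∧ (∀ n, f n ∈ a) ∧ ∀ x ∈ a, ∃ n, f n = x := by
  classical
  obtain ⟨x₀, h0⟩ := (nonempty_def a).1 hne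
  have ha := InjIn.mem_left h
  haveI : In N a := ⟨ha⟩
  haveI : In N x₀ := ⟨IsZ.trans a ha x₀ h0⟩
  obtain ⟨f, hf, k⟩ := h
  haveI : In N f := ⟨hf⟩
  have key : ∀ x ∈ a, (⋃₀ ZFSet.sep (fun y => natOf (app f y) = natOf (app f x)) a : V) = x := by
    intro x hx
    rw [← sUnion_singleton (x := x)]
    congr 1
    ext y
    rw [mem_sep, mem_singleton]
    exact ⟨fun e => z5b_nat k y e.1 x (by simpa using hx) (by simpa using e.2),
      fun e => by rw [e]; simpa using hx⟩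
  refine ⟨fun n => if ∃ x ∈ a, natOf (app f x) = n then
    ⋃₀ ZFSet.sep (fun y => natOf (app f y) = n) a else x₀, memV_of N _, fun n => ?_,
    fun x hx => ⟨natOf (app f x), ?_⟩⟩
  · beta_reduce
    split_ifs with h1
    · obtain ⟨x, hx, rfl⟩ := h1
      rwa [key x hx]
    · exact h0
  · exact (if_pos ⟨x, hx, rfl⟩).trans (key x hx)
theorem ctbl_of_enum {f : ℕ → V} (hf : sqN f ∈ N) (ha : a ∈ N) (h : ∀ x ∈ a, ∃ n, f n = x) :
    Ctbl N a := by
  have hs : ∀ n, app (sqN f) (natZ n) = f n := app_sqN f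
  generalize sqN f = s at hf hs
  haveI : In N s := ⟨hf⟩
  have key : ∀ x ∈ a, app s (natZ (sInf {n : ℕ | app s (natZ n) = x})) = x := fun x hx => by
    obtain ⟨n, hn⟩ := h x hx
    exact Nat.sInf_mem (s := {n : ℕ | app s (natZ n) = x}) ⟨n, (hs n).trans hn⟩
  refine z5b_mkN (fun x => sInf {n : ℕ | app s (natZ n) = x}) ha fun x hx y hy e => ?_
  rw [← key x hx, e, key y hy]
/-- a cofinal `ω`-sequence in a countable limit ordinal -/
theorem Ctbl.exists_cofinal {o : Ordinal.{0}} (h : Ctbl N o.toZFSet) (ho : Order.IsSuccLimit o) :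
    ∃ f : ℕ → Ordinal.{0}, sqN f ∈ N ∧ StrictMono f ∧ (∀ n, f n < o) ∧ ∀ x < o, ∃ n, x < f n := by
  obtain ⟨e, he, h1, h2⟩ := h.exists_enum
    ((nonempty_def _).2 ⟨_, toZFSet_mem_toZFSet_iff.2 ho.bot_lt⟩)
  have hs : ∀ n, app (sqN e) (natZ n) = e n := app_sqN e
  generalize sqN e = s at he hs
  haveI : In N s := ⟨he⟩
  refine ⟨fun n => Nat.rec 0 (fun k x => max x (app s (natZ k)).rank + 1) n, memV_of N _,
    strictMono_nat_of_lt_succ fun n => (le_max_left _ _).trans_lt (lt_add_one _), fun n => ?_,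
    fun x hx => ?_⟩
  · induction n with
    | zero => exact ho.bot_lt
    | succ n ih =>
      refine ho.add_one_lt (max_lt ih ?_)
      rw [hs, ← rank_toZFSet o]
      exact rank_lt_of_mem (h1 n)
  · obtain ⟨n, hn⟩ := h2 _ (toZFSet_mem_toZFSet_iff.2 hx)
    refine ⟨n + 1, (le_max_of_le_right ?_).trans_lt (lt_add_one _)⟩
    rw [hs, hn, rank_toZFSet]
/-- images of countable sets -/
theorem z5b_img (h : Ctbl N a) (g : V → V) [UF (loc N) (fun _ v => g (vr v 0))] (hb : b ∈ N)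
    (hs : ∀ y ∈ b, ∃ x ∈ a, g x = y) : Ctbl N b := by
  haveI : In N a := ⟨InjIn.mem_left h⟩
  obtain ⟨f, hf, k⟩ := h
  haveI : In N f := ⟨hf⟩
  have key : ∀ y ∈ b, ∃ x ∈ a,
      natOf (app f x) = sInf {n : ℕ | ∃ x ∈ a, natOf (app f x) = n ∧ g x = y} ∧ g x = y :=
    fun y hy => by
      obtain ⟨x, hx, e⟩ := hs y hy
      exact Nat.sInf_mem (s := {n : ℕ | ∃ x ∈ a, natOf (app f x) = n ∧ g x = y})
        ⟨_, x, hx, rfl, e⟩
  refine z5b_mkN (fun y => sInf {n : ℕ | ∃ x ∈ a, natOf (app f x) = n ∧ g x = y}) hb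
    fun y hy y' hy' e => ?_
  obtain ⟨x, hx, e1, e2⟩ := key y hy
  obtain ⟨x', hx', e3, e4⟩ := key y' hy'
  rw [← e2, ← e4, z5b_nat k x hx x' hx' (e1.trans (e.trans e3.symm))]
end inj
section injT
variable {N : Set V} [IsT N] {a b c : V}
/-- the image of `a` under a function of `N` injects into `a` -/
theorem injIn_of_surj {f : V} (hf : f ∈ N) (ha : a ∈ N) (hb : b ∈ N)
    (h : ∀ y ∈ b, ∃ x ∈ a, app f x = y) : InjIn N b a := by
  obtain ⟨w, hw, k⟩ := exists_isWO N ha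
  haveI : In N w := ⟨hw⟩
  haveI : In N a := ⟨ha⟩
  haveI : In N f := ⟨hf⟩
  refine z5b_mk (fun y => wmin w a fun x => app f x = y) hb (fun y hy => (k.wmin_spec (h y hy)).1)
    fun y hy y' hy' e => ?_
  rw [← (k.wmin_spec (h y hy)).2.1, e, (k.wmin_spec (h y' hy')).2.1]
theorem Ctbl.sUnion (h : Ctbl N a) (h' : ∀ x ∈ a, Ctbl N x) : Ctbl N (⋃₀ a) := by
  have ha := InjIn.mem_left h
  haveI : In N a := ⟨ha⟩
  obtain ⟨G, hG, -, -, k'⟩ := choice_fn N (fun x y => IsInj y x omegaZ) ha h'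
  obtain ⟨f, hf, k⟩ := h
  haveI : In N f := ⟨hf⟩
  haveI : In N G := ⟨hG⟩
  have h1 : Ctbl N (rel a (⋃₀ a) fun x z => z ∈ x) := by
    refine z5b_mkN (fun p => Nat.pair (natOf (app f (fst p))) (natOf (app (app G (fst p)) (snd p))))
      (memV_of N _) fun p hp q hq e => ?_
    obtain ⟨x, hx, z, -, rfl, hz⟩ := mem_rel.1 hp
    obtain ⟨x', hx', z', -, rfl, hz'⟩ := mem_rel.1 hq
    simp only [fst_pair, snd_pair, Nat.pair_eq_pair] at e
    obtain rfl := z5b_nat k x hx x' hx' e.1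
    rw [z5b_nat (k' x hx) z hz z' hz' e.2]
  refine z5b_img h1 snd (memV_of N _) fun z hz => ?_
  obtain ⟨x, hx, hzx⟩ := mem_sUnion.1 hz
  exact ⟨_, pair_mem_rel.2 ⟨hx, hz, hzx⟩, snd_pair _ _⟩
theorem exists_ord_bij (ha : a ∈ N) :
    ∃ o : Ordinal.{0}, o.toZFSet ∈ N ∧ ∃ f ∈ N, IsInj f o.toZFSet a ∧ ran f = a := by
  obtain ⟨w, hw, k⟩ := exists_isWO N ha
  haveI : In N w := ⟨hw⟩
  haveI : In N a := ⟨ha⟩
  have key : ∀ y ∈ (osup a fun x => wpos w x + 1).toZFSet, ∃ x ∈ a, wpos w x = y.rank := by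
    intro y hy
    obtain ⟨β, hβ, rfl⟩ := mem_toZFSet_iff.1 hy
    obtain ⟨x, hx, h1⟩ := lt_osup_iff.1 hβ
    rw [rank_toZFSet]
    rcases (Order.lt_add_one_iff.1 h1).eq_or_lt with h2 | h2
    · exact ⟨x, hx, h2.symm⟩
    · exact k.wpos_surj hx h2
  refine ⟨osup a fun x => wpos w x + 1, memV_of N _,
    lam (osup a fun x => wpos w x + 1).toZFSet fun y => wmin w a fun x => wpos w x = y.rank,
    memV_of N _, isInj_lam (fun y hy => (k.wmin_spec (key y hy)).1) fun y hy y' hy' e => ?_, ?_⟩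
  · have h1 := (k.wmin_spec (key y hy)).2.1
    rw [e, (k.wmin_spec (key y' hy')).2.1] at h1
    exact (((isOrdinal_toZFSet _).mem hy').rank_inj ((isOrdinal_toZFSet _).mem hy)).1 h1 |>.symm
  · ext x
    simp only [mem_ran, pair_mem_lam]
    refine ⟨fun ⟨y, hy, e⟩ => e ▸ (k.wmin_spec (key y hy)).1, fun hx => ?_⟩
    have h1 := toZFSet_mem_toZFSet_iff.2
      ((lt_add_one _).trans_le (le_osup (fun x => wpos w x + 1) hx))
    have h2 := k.wmin_spec (key _ h1)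
    exact ⟨_, h1, k.wpos_inj hx h2.1 (h2.2.1.trans (rank_toZFSet _)).symm⟩
end injT

/-- `ω₁` of `N` -/
noncomputable def om1 (N : Set V) : Ordinal.{0} := sInf {o | ¬ Ctbl N o.toZFSet}
theorem lt_om1_iff {N : Set V} [IsZ N] {o : Ordinal.{0}} : o < om1 N ↔ Ctbl N o.toZFSet := by
  refine ⟨fun h => not_not.1 (notMem_of_lt_csInf' h), fun h => lt_of_not_ge fun k => ?_⟩
  refine csInf_mem (s := {o : Ordinal.{0} | ¬ Ctbl N o.toZFSet}) ⟨ω₁, fun h1 => ?_⟩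
    (h.of_subset (IsZ.ord_mem_of_le N (InjIn.mem_left h) k) (toZFSet_subset_toZFSet_iff.2 k))
  have h2 := h1.countable
  rw [coe_toZFSet] at h2
  have h3 := Cardinal.le_aleph0_iff_set_countable.2
    (Set.countable_of_injective_of_countable_image toZFSet_injective.injOn h2)
  rw [Cardinal.mk_Iio_ordinal] at h3
  simp at h3
theorem omega_lt_om1 (N : Set V) [IsZ N] : ω < om1 N := by
  exact lt_om1_iff.2 ctbl_omega
theorem om1_mono {N N' : Set V} [IsZ N] [IsZ N'] (h : N ⊆ N') : om1 N ≤ om1 N' := by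
  exact le_of_forall_lt fun o ho => lt_om1_iff.2 ((lt_om1_iff.1 ho).mono h)
theorem om1_addClosed (N : Set V) [IsZ N] {a b : Ordinal.{0}} (ha : a < om1 N) (hb : b < om1 N) :
    a + b < om1 N ∧ a * b < om1 N := by
  have key : ∀ {a b : Ordinal.{0}}, a < om1 N → b < om1 N → a * b < om1 N := by
    intro a b ha hb
    rw [lt_om1_iff] at ha hb ⊢
    haveI : In N a := ⟨InjIn.mem_left ha⟩
    haveI : In N b := ⟨InjIn.mem_left hb⟩
    refine z5b_img (hb.prod ha) (fun p => (a * (fst p).rank + (snd p).rank).toZFSet) (memV_of N _)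
      fun y hy => ?_
    obtain ⟨c, hc, rfl⟩ := mem_toZFSet_iff.1 hy
    obtain ⟨q, hq, r, hr, rfl⟩ := Ordinal.lt_mul_iff.1 hc
    exact ⟨_, pair_mem_prod.2 ⟨toZFSet_mem_toZFSet_iff.2 hq, toZFSet_mem_toZFSet_iff.2 hr⟩,
      by simp⟩
  refine ⟨lt_of_le_of_lt ?_ (key (max_lt ha hb) ((natCast_lt_omega0 2).trans (omega_lt_om1 N))),
    key ha hb⟩
  rw [Nat.cast_ofNat, Ordinal.mul_two]
  exact add_le_add (le_max_left _ _) (le_max_right _ _)
theorem isSuccLimit_om1 (N : Set V) [IsZ N] : Order.IsSuccLimit (om1 N) := by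
  exact Ordinal.isSuccLimit_iff.2 ⟨(omega0_pos.trans (omega_lt_om1 N)).ne',
    Order.isSuccPrelimit_of_succ_lt fun o ho =>
      (om1_addClosed N ho (one_lt_omega0.trans (omega_lt_om1 N))).1⟩
theorem z5b_om1_mem (N : Set V) [IsZ N] (h : Vs N (ω + 1) ∈ N) : (om1 N).toZFSet ∈ N := by
  have h0 : ∀ x ∈ N, x.rank < ω + 1 → x ∈ Vs N (ω + 1) := fun x h1 h2 => mem_Vs.2 ⟨h1, h2⟩
  generalize Vs N (ω + 1) = P at h h0
  haveI : In N P := ⟨h⟩
  refine IsZ.ord_mem_of_le N (mem_of N (osup P (fun R => osup omegaZ fun x => rkR R x) + 1))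
    (le_of_forall_lt fun o ho => Order.lt_add_one_iff.2 ?_)
  have h1 := lt_om1_iff.1 ((isSuccLimit_om1 N).add_one_lt ho)
  haveI : In N (o + 1) := ⟨InjIn.mem_left h1⟩
  obtain ⟨f, hf, k1, k2⟩ := z5b_spec h1
  haveI : In N f := ⟨hf⟩
  obtain ⟨R, hR, h2⟩ : ∃ R ∈ N, ∀ p, p ∈ R ↔ ∃ y ∈ (o + 1).toZFSet, ∃ x ∈ (o + 1).toZFSet,
      x ∈ y ∧ pair (app f x) (app f y) = p := by
    refine ⟨img (fun p => pair (app f (fst p)) (app f (snd p))) (memR (o + 1).toZFSet),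
      memV_of N _, fun p => ?_⟩
    rw [mem_img]
    constructor
    · rintro ⟨q, hq, rfl⟩
      obtain ⟨x, hx, y, hy, rfl, e⟩ := mem_rel.1 hq
      exact ⟨y, hy, x, hx, e, by simp⟩
    · rintro ⟨y, hy, x, hx, e, rfl⟩
      exact ⟨pair x y, pair_mem_rel.2 ⟨hx, hy, e⟩, by simp⟩
  have h3 : ∀ α : Ordinal.{0}, α < o + 1 →
      AccP (preds R) (app f α.toZFSet) ∧ α ≤ rkR R (app f α.toZFSet) := by
    intro α
    induction α using WellFoundedLT.induction with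
    | _ α ih =>
      intro hα
      have h4 := toZFSet_mem_toZFSet_iff.2 hα
      have h5 : AccP (preds R) (app f α.toZFSet) := Acc.intro _ fun z hz => by
        obtain ⟨y, hy, x, hx, e, e'⟩ := (h2 _).1 (mem_preds.1 hz)
        obtain ⟨rfl, e2⟩ := pair_inj.1 e'
        obtain rfl := k2 y hy _ h4 e2
        obtain ⟨β, hβ, rfl⟩ := mem_toZFSet_iff.1 e
        exact (ih β hβ (hβ.trans hα)).1
      refine ⟨h5, le_of_forall_lt fun β hβ => (ih β hβ (hβ.trans hα)).2.trans_lt (rkR_lt h5 ?_)⟩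
      exact (h2 _).2 ⟨_, h4, _, toZFSet_mem_toZFSet_iff.2 (hβ.trans hα),
        toZFSet_mem_toZFSet_iff.2 hβ, rfl⟩
  have h6 : R ∈ P := h0 R hR (Order.lt_add_one_iff.2 (rank_le_iff.2 fun p hp => by
    obtain ⟨y, hy, x, hx, -, rfl⟩ := (h2 p).1 hp
    exact mem_HF.1 (z5b_pair (z5b_om (k1 x hx)) (z5b_om (k1 y hy)))))
  exact (h3 o (lt_add_one o)).2.trans
    ((le_osup (fun x => rkR R x) (k1 _ (toZFSet_mem_toZFSet_iff.2 (lt_add_one o)))).trans
      (le_osup (fun R => osup omegaZ fun x => rkR R x) h6))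
theorem om1_mem (N : Set V) [IsZFC N] : (om1 N).toZFSet ∈ N := by
  exact z5b_om1_mem N (memV_of N _)
/-- `ω₁` exists as soon as `P(ω × ω)` does -/
theorem om1_mem_of_Vs (N : Set V) [IsZ N] (h : Vs N (ω + 1) ∈ N) : (om1 N).toZFSet ∈ N := by
  exact z5b_om1_mem N h
instance ud_ltOm1 {o : Set V → (ℕ → V) → Ordinal.{0}} [UF F o] :
    UD F (fun M v => o M v < om1 M) := by
  exact (inferInstance : UD F (fun M v => Ctbl M (o M v).toZFSet)).congr fun M hM _ _ =>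
    haveI := F.hZ M hM
    lt_om1_iff
instance ud_eqOm1 {o : Set V → (ℕ → V) → Ordinal.{0}} [UF F o] :
    UD F (fun M v => o M v = om1 M) := by
  refine (inferInstance : UD F (fun M v => ¬ o M v < om1 M ∧ ∀ x < o M v, x < om1 M)).congr
    fun M _ v _ => ⟨fun e => e ▸ ⟨lt_irrefl _, fun _ h => h⟩, fun h => ?_⟩
  exact le_antisymm (le_of_forall_lt h.2) (not_lt.1 h.1)
instance uf_om1 [F.P] : UF F (fun M _ => om1 M) := by
  refine UF.of_graph (fun M _ y => y = y.rank.toZFSet ∧ y.rank = om1 M)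
    (fun M hM _ _ => haveI := Fr.P.out M hM; om1_mem M) fun M _ _ _ y _ => ?_
  exact ⟨fun e => by simp [e], fun h => h.1.trans (congrArg _ h.2)⟩
instance in_om1 (N : Set V) [IsZFC N] : In N (om1 N) := ⟨om1_mem N⟩
/-- a countable set of countable ordinals is bounded -/
theorem om1_bdd {N : Set V} [IsT N] {a f : V} (ha : Ctbl N a) (hf : f ∈ N)
    (h : ∀ x ∈ a, (app f x).rank < om1 N) : ∃ γ < om1 N, ∀ x ∈ a, (app f x).rank < γ := by
  haveI : In N a := ⟨InjIn.mem_left ha⟩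
  haveI : In N f := ⟨hf⟩
  refine ⟨osup a fun x => (app f x).rank + 1, lt_om1_iff.2 ?_,
    fun x hx => (lt_add_one _).trans_le (le_osup (fun x => (app f x).rank + 1) hx)⟩
  refine (Ctbl.sUnion (a := img (fun x => ((app f x).rank + 1).toZFSet) a)
    (z5b_img ha _ (memV_of N _) fun y hy => mem_img.1 hy) fun y hy => ?_).of_subset
    (memV_of N _) fun y hy => ?_
  · obtain ⟨x, hx, rfl⟩ := mem_img.1 hy
    exact lt_om1_iff.1 ((isSuccLimit_om1 N).add_one_lt (h x hx))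
  · obtain ⟨β, hβ, rfl⟩ := mem_toZFSet_iff.1 hy
    obtain ⟨x, hx, k⟩ := lt_osup_iff.1 hβ
    exact mem_sUnion.2 ⟨_, mem_img.2 ⟨x, hx, rfl⟩, toZFSet_mem_toZFSet_iff.2 k⟩
-- JOB B END

-- JOB C BEGIN
/-- functions of `N` from `a` into `V_o` are bounded -/
def z5c_B (N : Set V) (o : Ordinal.{0}) (a : V) : Prop :=
  ∀ f ∈ N, (∀ x ∈ a, (app f x).rank < o) → ∃ γ < o, ∀ x ∈ a, (app f x).rank < γ
theorem z5c_inj {N : Set V} [IsZ N] {o : Ordinal.{0}} (ho : 0 < o) {a b : V} (hi : InjIn N a b)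
    (h : z5c_B N o b) : z5c_B N o a := by
  intro f hf hb
  haveI : In N a := ⟨hi.mem_left⟩
  obtain ⟨g, hg, hi⟩ := hi
  haveI : In N f := ⟨hf⟩
  haveI : In N g := ⟨hg⟩
  obtain ⟨h1, h2⟩ := isInj_iff.1 hi
  have e : ∀ x ∈ a, app (img (fun x => pair (app g x) (app f x)) a) (app g x) = app f x :=
    fun x hx => app_eq_of_unique (mem_img.2 ⟨x, hx, rfl⟩) fun y hy => by
      obtain ⟨z, hz, e⟩ := mem_img.1 hy
      obtain ⟨e1, rfl⟩ := pair_inj.1 e
      rw [h2 z hz x hx e1]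
  obtain ⟨γ, hγ, H⟩ := h _ (memV_of N (img (fun x => pair (app g x) (app f x)) a)) fun y _ => by
    by_cases hy : y ∈ dom (img (fun x => pair (app g x) (app f x)) a)
    · obtain ⟨z, hz⟩ := mem_dom.1 hy
      obtain ⟨x, hx, e'⟩ := mem_img.1 hz
      rw [← (pair_inj.1 e').1, e x hx]
      exact hb x hx
    · rw [app_of_not_mem_dom hy, rank_empty]
      exact ho
  exact ⟨γ, hγ, fun x hx => e x hx ▸ H _ ((isFunc_iff.1 h1).2.2 x hx)⟩
theorem z5c_ord {N : Set V} [IsZ N] {o : Ordinal.{0}} {a : V} (h : z5c_B N o a) (ha : a ∈ N)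
    (c : V → Ordinal.{0}) [UF (loc N) (fun _ v => c (vr v 0))] (hc : ∀ x ∈ a, c x < o) :
    ∃ γ < o, ∀ x ∈ a, c x < γ := by
  haveI : In N a := ⟨ha⟩
  obtain ⟨γ, hγ, H⟩ := h _ (memV_of N (lam a fun x => (c x).toZFSet)) fun x hx => by
    rw [app_lam _ hx, rank_toZFSet]
    exact hc x hx
  refine ⟨γ, hγ, fun x hx => ?_⟩
  have := H x hx
  rwa [app_lam _ hx, rank_toZFSet] at this
theorem z5c_rank {N : Set V} [IsZ N] {o : Ordinal.{0}} {a : V} (h : z5c_B N o a) (ha : a ∈ N)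
    (hb : ∀ x ∈ a, x.rank < o) : a.rank < o := by
  obtain ⟨γ, hγ, H⟩ := z5c_ord h ha (fun x => x.rank) hb
  exact (rank_le_iff.2 H).trans_lt hγ
theorem z5c_mem {o : Ordinal.{0}} {x : V} (h : x ∈ o.toZFSet) : x.rank < o :=
  (rank_lt_of_mem h).trans_eq (rank_toZFSet o)
theorem z5c_small {N : Set V} [IsT N] {o : Ordinal.{0}} (h0 : 0 < o) (ho : o.toZFSet ∈ N) {a : V}
    (h : z5c_B N o a) (ha : a ∈ N) : ∃ γ < o, InjIn N a γ.toZFSet := by
  obtain ⟨p, hp, f, hf, hi, hr⟩ := exists_ord_bij ha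
  refine ⟨p, lt_of_not_ge fun hle => ?_, injIn_of_surj hf hp ha fun y hy => ?_⟩
  · have h1 : InjIn N o.toZFSet a :=
      (InjIn.of_subset ho (toZFSet_subset_toZFSet_iff.2 hle)).trans ⟨f, hf, hi⟩
    have h2 := z5c_rank (z5c_inj h0 h1 h) ho fun x hx => z5c_mem hx
    rw [rank_toZFSet] at h2
    exact h2.false
  · obtain ⟨h1, h2, -⟩ := isFunc_iff.1 hi.1
    obtain ⟨x, hx⟩ := mem_ran.1 (hr ▸ hy)
    exact ⟨x, h2 ▸ mem_dom.2 ⟨y, hx⟩, h1.app_eq hx⟩
theorem z5c_pw {N : Set V} [IsZFC N] {a b : V} (h : InjIn N a b) (hb : b ∈ N) :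
    InjIn N (pw N a) (pw N b) := by
  haveI : In N a := ⟨h.mem_left⟩
  obtain ⟨g, hg, hi⟩ := h
  haveI : In N g := ⟨hg⟩
  obtain ⟨h1, h2⟩ := isInj_iff.1 hi
  have e : ∀ x ⊆ a, ∀ y ⊆ a, img (app g) x = img (app g) y → x ⊆ y := fun x hx y hy e z hz => by
    obtain ⟨u, hu, e'⟩ := mem_img.1 (e ▸ mem_img.2 ⟨z, hz, rfl⟩ : app g z ∈ img (app g) y)
    exact h2 u (hy hu) z (hx hz) e' ▸ hu
  refine ⟨_, memV_of N (lam (pw N a) fun x => img (fun z => app g z) x), isInj_lam (fun x hx => ?_)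
    fun x hx y hy e' => ?_⟩
  · obtain ⟨x1, x2⟩ := mem_pw.1 hx
    haveI : In N x := ⟨x1⟩
    refine mem_pw.2 ⟨memV_of N (img (fun z => app g z) x), fun y hy => ?_⟩
    obtain ⟨z, hz, rfl⟩ := mem_img.1 hy
    exact (isFunc_iff.1 h1).2.2 z (x2 hz)
  · exact subset_antisymm (e x (mem_pw.1 hx).2 y (mem_pw.1 hy).2 e')
      (e y (mem_pw.1 hy).2 x (mem_pw.1 hx).2 e'.symm)
theorem z5c_rank_pw (N : Set V) (a : V) : (pw N a).rank ≤ Order.succ a.rank :=
  rank_le_iff.2 fun _ hx => Order.lt_succ_of_le (rank_mono (mem_pw.1 hx).2)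
theorem z5c_rank_Vs (N : Set V) (o : Ordinal.{0}) : (Vs N o).rank ≤ o :=
  rank_le_iff.2 fun _ hx => (mem_Vs.1 hx).2

/-- `cof(o) > ω` in `N` -/
def CofGt (N : Set V) (o : Ordinal.{0}) : Prop :=
  Order.IsSuccLimit o ∧ ∀ f ∈ N, (∀ x ∈ omegaZ, (app f x).rank < o) →
    ∃ γ < o, ∀ x ∈ omegaZ, (app f x).rank < γ
instance ud_cofGt {D : Set V → (ℕ → V) → Set V} {o : Set V → (ℕ → V) → Ordinal.{0}} [UC F D]
    [UF F o] : UD F (fun M v => CofGt (D M v) (o M v)) := by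
  have := UF.lift (F := F) o; unfold CofGt; infer_instance
theorem CofGt.bdd {N : Set V} [IsZ N] {o : Ordinal.{0}} (h : CofGt N o) {a f : V} (ha : Ctbl N a)
    (hf : f ∈ N) (hb : ∀ x ∈ a, (app f x).rank < o) : ∃ γ < o, ∀ x ∈ a, (app f x).rank < γ :=
  z5c_inj h.1.pos (ctbl_iff.1 ha) h.2 f hf hb
theorem CofGt.rank_lt {N : Set V} [IsZ N] {o : Ordinal.{0}} (h : CofGt N o) {a : V} (ha : Ctbl N a)
    (hb : ∀ x ∈ a, x.rank < o) : a.rank < o :=
  z5c_rank (z5c_inj h.1.pos (ctbl_iff.1 ha) h.2) (ctbl_iff.1 ha).mem_left hb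
theorem CofGt.add {N : Set V} [IsZ N] {o p : Ordinal.{0}} (h : CofGt N o) (hp : p.toZFSet ∈ N) :
    CofGt N (p + o) := by
  refine ⟨isSuccLimit_add p h.1, fun f hf hb => ?_⟩
  haveI : In N f := ⟨hf⟩
  haveI : In N p := ⟨hp⟩
  obtain ⟨γ, hγ, H⟩ := z5c_ord (a := omegaZ) h.2 IsZ.omega
    (fun x => olst (app f x).rank fun η => (app f x).rank ≤ p + η) fun x hx => by
      obtain ⟨d, hd, h1⟩ := (lt_add_iff h.1.pos.ne').1 (hb x hx)
      rcases lt_or_ge d (app f x).rank with k | k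
      · exact (olst_le_of k h1).trans_lt hd
      · exact ((olst_le _ _).trans k).trans_lt hd
  refine ⟨p + γ, add_lt_add_right hγ p, fun x hx => ?_⟩
  refine lt_of_le_of_lt ?_ (add_lt_add_right (H x hx) p)
  rcases (olst_le (app f x).rank fun η => (app f x).rank ≤ p + η).eq_or_lt with k | k
  · rw [k]
    exact le_add_self
  · exact olst_spec k
theorem CofGt.mono {N N' : Set V} (hs : N ⊆ N') {o : Ordinal.{0}} (h : CofGt N' o) : CofGt N o :=
  ⟨h.1, fun f hf => h.2 f (hs hf)⟩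
theorem CofGt.om1_le {N : Set V} [IsZ N] {o : Ordinal.{0}} (h : CofGt N o) : om1 N ≤ o := by
  refine le_of_not_gt fun hlt => ?_
  have h2 := h.rank_lt (lt_om1_iff.1 hlt) fun x hx => z5c_mem hx
  rw [rank_toZFSet] at h2
  exact h2.false
theorem cofGt_om1 (N : Set V) [IsT N] : CofGt N (om1 N) :=
  ⟨isSuccLimit_om1 N, fun _ hf h => om1_bdd ctbl_omega hf h⟩

/-- working form of inaccessibility: functions from elements of `V_δ` into `V_δ` are bounded -/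
def Inac (N : Set V) (δ : Ordinal.{0}) : Prop :=
  ω < δ ∧ δ.toZFSet ∈ N ∧ Order.IsSuccLimit δ ∧
  ∀ a ∈ N, a.rank < δ → ∀ f ∈ N, (∀ x ∈ a, (app f x).rank < δ) →
    ∃ γ < δ, ∀ x ∈ a, (app f x).rank < γ
instance ud_inac {D : Set V → (ℕ → V) → Set V} {o : Set V → (ℕ → V) → Ordinal.{0}} [UC F D]
    [UF F o] : UD F (fun M v => Inac (D M v) (o M v)) := by
  have := UF.lift (F := F) o; have := UC.lift (F := F) D; unfold Inac; infer_instance
theorem z5c_inacB {N : Set V} [IsZ N] {δ β : Ordinal.{0}} (h : Inac N δ) (hβ : β < δ) :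
    z5c_B N δ β.toZFSet :=
  h.2.2.2 _ (IsZ.ord_mem_of_le N h.2.1 hβ.le) (by rwa [rank_toZFSet])
theorem z5c_inac_small {N : Set V} [IsT N] {δ : Ordinal.{0}} (h : Inac N δ) {a : V} (ha : a ∈ N)
    (hr : a.rank < δ) : ∃ γ < δ, InjIn N a γ.toZFSet :=
  z5c_small h.2.2.1.pos h.2.1 (h.2.2.2 a ha hr) ha
theorem z5c_reg {N : Set V} [IsZ N] {δ β : Ordinal.{0}} (h : Inacc N δ) (hβ : β < δ) :
    z5c_B N δ β.toZFSet := by
  intro f hf hb
  haveI : In N f := ⟨hf⟩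
  haveI : In N β := ⟨IsZ.ord_mem_of_le N h.2.1 hβ.le⟩
  obtain ⟨γ, hγ, H⟩ := h.2.2.1 β hβ _ (memV_of N (lam β.toZFSet fun x => (app f x).rank.toZFSet))
    (isFunc_lam fun x hx => toZFSet_mem_toZFSet_iff.2 (hb x hx))
  exact ⟨γ, hγ, fun x hx => toZFSet_mem_toZFSet_iff.1 (H x _ (pair_mem_lam.2 ⟨hx, rfl⟩))⟩
theorem z5c_lim {N : Set V} [IsZ N] {δ : Ordinal.{0}} (h : Inacc N δ) : Order.IsSuccLimit δ := by
  refine isSuccLimit_iff.2 ⟨(omega0_pos.trans h.1).ne', Order.isSuccPrelimit_of_succ_lt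
    fun β hβ => ?_⟩
  haveI : In N β := ⟨IsZ.ord_mem_of_le N h.2.1 hβ.le⟩
  obtain ⟨γ, hγ, H⟩ := z5c_ord (z5c_reg h h.1) IsZ.omega (fun _ => β) fun _ _ => hβ
  exact (Order.succ_le_of_lt (H _ (natZ_mem_omegaZ 0))).trans_lt hγ
theorem z5c_Vs {N : Set V} [IsZFC N] {δ : Ordinal.{0}} (h : Inacc N δ) (β : Ordinal.{0}) :
    β < δ → z5c_B N δ (Vs N β) := by
  have h0 := omega0_pos.trans h.1
  induction β using WellFoundedLT.induction with
  | ind β ih =>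
    intro hβ f hf hb
    haveI : In N f := ⟨hf⟩
    have h1 : ∀ ξ < β, z5c_B N δ (Vs N (Order.succ ξ)) := fun ξ hξ => by
      haveI : In N ξ := ⟨IsZ.ord_mem_of_le N h.2.1 (hξ.trans hβ).le⟩
      obtain ⟨γ, hγ, hi⟩ := z5c_small h0 h.2.1 (ih ξ hξ (hξ.trans hβ)) (memV_of N (Vs N ξ))
      obtain ⟨γ', hγ', p, hp, g, hg, h2, h3⟩ := h.2.2.2 γ hγ
      have e : p = pw N γ.toZFSet := ZFSet.ext fun x => (h2 x).trans mem_pw.symm
      subst e
      refine z5c_inj h0 (((InjIn.of_subset (memV_of N (Vs N (Order.succ ξ))) fun x hx => ?_).trans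
        (z5c_pw hi (IsZ.ord_mem_of_le N h.2.1 hγ.le))).trans ⟨g, hg, h3⟩) (z5c_reg h hγ')
      obtain ⟨x1, x2⟩ := mem_Vs.1 hx
      exact mem_pw.2 ⟨x1, fun y hy => mem_Vs.2 ⟨IsZ.trans x x1 y hy,
        (rank_lt_of_mem hy).trans_le (Order.lt_succ_iff.1 x2)⟩⟩
    obtain ⟨γ, hγ, H⟩ := z5c_ord (z5c_reg h hβ) (IsZ.ord_mem_of_le N h.2.1 hβ.le)
      (fun y => osup (Vs N (Order.succ y.rank)) fun x => (app f x).rank) fun y hy => by
        obtain ⟨γ, hγ, H⟩ := h1 _ (z5c_mem hy) f hf fun x hx => hb x (mem_Vs.2 ⟨(mem_Vs.1 hx).1,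
          (mem_Vs.1 hx).2.trans_le (Order.succ_le_of_lt (z5c_mem hy))⟩)
        exact (osup_le_iff.2 fun x hx => (H x hx).le).trans_lt hγ
    refine ⟨γ, hγ, fun x hx => lt_of_le_of_lt ?_
      (H x.rank.toZFSet (toZFSet_mem_toZFSet_iff.2 (mem_Vs.1 hx).2))⟩
    exact le_osup (fun x => (app f x).rank)
      (mem_Vs.2 ⟨(mem_Vs.1 hx).1, by rw [rank_toZFSet]; exact Order.lt_succ _⟩)
theorem inac_iff_inacc (N : Set V) [IsZFC N] {δ : Ordinal.{0}} : Inac N δ ↔ Inacc N δ := by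
  constructor
  · intro h
    refine ⟨h.1, h.2.1, fun β hβ f hf hF => ?_, fun β hβ => ?_⟩
    · obtain ⟨h1, h2, h3⟩ := isFunc_iff.1 hF
      obtain ⟨γ, hγ, H⟩ := z5c_inacB h hβ f hf fun x hx => z5c_mem (h3 x hx)
      refine ⟨γ, hγ, fun x y hxy => ?_⟩
      have hx : x ∈ β.toZFSet := h2 ▸ mem_dom.2 ⟨y, hxy⟩
      have h4 := H x hx
      obtain ⟨ξ, -, e⟩ := mem_toZFSet_iff.1 (h3 x hx)
      rw [← e, rank_toZFSet] at h4
      rw [← h1.app_eq hxy, ← e]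
      exact toZFSet_mem_toZFSet_iff.2 h4
    · haveI : In N β := ⟨IsZ.ord_mem_of_le N h.2.1 hβ.le⟩
      have hp := memV_of N (pw N β.toZFSet)
      obtain ⟨γ, hγ, f, hf, hi⟩ := z5c_inac_small h hp
        ((z5c_rank_pw N _).trans_lt (h.2.2.1.succ_lt (by rwa [rank_toZFSet])))
      exact ⟨γ, hγ, _, hp, f, hf, fun x => mem_pw, hi⟩
  · intro h
    refine ⟨h.1, h.2.1, z5c_lim h, fun a ha hr => ?_⟩
    exact z5c_inj (omega0_pos.trans h.1) (InjIn.of_subset ha fun x hx =>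
      mem_Vs.2 ⟨IsZ.trans a ha x hx, rank_lt_of_mem hx⟩) (z5c_Vs h _ hr)
theorem Inac.cofGt {N : Set V} [IsZ N] {δ : Ordinal.{0}} (h : Inac N δ) : CofGt N δ :=
  ⟨h.2.2.1, z5c_inacB h h.1⟩
theorem z5c_add {N : Set V} [IsZ N] {δ a : Ordinal.{0}} (h : Inac N δ) (ha : a < δ)
    (b : Ordinal.{0}) : b < δ → a + b < δ := by
  haveI : In N a := ⟨IsZ.ord_mem_of_le N h.2.1 ha.le⟩
  induction b using WellFoundedLT.induction with
  | ind b ih =>
    intro hb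
    rcases eq_or_ne b 0 with rfl | b0
    · rwa [add_zero]
    obtain ⟨γ, hγ, H⟩ := z5c_ord (z5c_inacB h hb) (IsZ.ord_mem_of_le N h.2.1 hb.le)
      (fun x => a + x.rank) fun x hx => ih _ (z5c_mem hx) ((z5c_mem hx).trans hb)
    refine ((Ordinal.add_le_iff b0).2 fun d hd => ?_).trans_lt hγ
    simpa using H d.toZFSet (toZFSet_mem_toZFSet_iff.2 hd)
theorem z5c_mul {N : Set V} [IsZ N] {δ a : Ordinal.{0}} (h : Inac N δ) (ha : a < δ)
    (b : Ordinal.{0}) : b < δ → a * b < δ := by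
  haveI : In N a := ⟨IsZ.ord_mem_of_le N h.2.1 ha.le⟩
  induction b using WellFoundedLT.induction with
  | ind b ih =>
    intro hb
    obtain ⟨γ, hγ, H⟩ := z5c_ord (z5c_inacB h hb) (IsZ.ord_mem_of_le N h.2.1 hb.le)
      (fun x => a * x.rank + a) fun x hx =>
        z5c_add h (ih _ (z5c_mem hx) ((z5c_mem hx).trans hb)) a ha
    refine (le_of_forall_lt fun c hc => ?_).trans_lt hγ
    obtain ⟨q, hq, r, hr, rfl⟩ := lt_mul_iff.1 hc
    refine (add_lt_add_right hr _).trans ?_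
    simpa using H q.toZFSet (toZFSet_mem_toZFSet_iff.2 hq)
theorem Inac.add_lt {N : Set V} [IsZ N] {δ a b : Ordinal.{0}} (h : Inac N δ) (ha : a < δ)
    (hb : b < δ) : a + b < δ ∧ a * b < δ := ⟨z5c_add h ha b hb, z5c_mul h ha b hb⟩
theorem Inac.om1_lt {N : Set V} [IsZFC N] {δ : Ordinal.{0}} (h : Inac N δ) : om1 N < δ := by
  refine lt_of_not_ge fun hle => ?_
  have hp := memV_of N (pw N omegaZ)
  obtain ⟨γ, hγ, hi⟩ := z5c_inac_small h hp
    ((z5c_rank_pw N _).trans_lt (h.2.2.1.succ_lt (by rw [rank_omegaZ]; exact h.1)))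
  obtain ⟨g, hg, hi⟩ := hi.trans (ctbl_iff.1 (lt_om1_iff.1 (hγ.trans_le hle)))
  haveI : In N g := ⟨hg⟩
  obtain ⟨h1, h2⟩ := isInj_iff.1 hi
  have hD : img (fun x => app g x) (ZFSet.sep (fun x => app g x ∉ x) (pw N omegaZ)) ∈
      pw N omegaZ := by
    refine mem_pw.2 ⟨memV_of N _, fun y hy => ?_⟩
    obtain ⟨x, hx, rfl⟩ := mem_img.1 hy
    exact (isFunc_iff.1 h1).2.2 x (mem_sep.1 hx).1
  generalize e : img (fun x => app g x) (ZFSet.sep (fun x => app g x ∉ x) (pw N omegaZ)) = D at hD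
  have h3 : app g D ∉ D := fun k => by
    have k' := k
    rw [← e] at k'
    obtain ⟨x, hx, e'⟩ := mem_img.1 k'
    rw [e] at e'
    obtain rfl := h2 x (mem_sep.1 hx).1 D hD e'
    exact (mem_sep.1 hx).2 k
  have h4 : app g D ∈ img (fun x => app g x) (ZFSet.sep (fun x => app g x ∉ x) (pw N omegaZ)) :=
    mem_img.2 ⟨D, mem_sep.2 ⟨hD, h3⟩, rfl⟩
  rw [e] at h4
  exact h3 h4
/-- a set of `N` that injects into an element of `V_δ` and consists of elements of `V_δ` is in `V_δ` -/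
theorem Inac.rank_lt {N : Set V} [IsZ N] {δ : Ordinal.{0}} (h : Inac N δ) {a b : V}
    (hi : InjIn N a b) (hb : b ∈ N) (hr : b.rank < δ) (ha : ∀ x ∈ a, x.rank < δ) : a.rank < δ :=
  z5c_rank (z5c_inj h.2.2.1.pos hi (h.2.2.2 b hb hr)) hi.mem_left ha
/-- a transitive set that injects into an element of `V_δ` is in `V_δ` -/
theorem Inac.rank_lt_of_trans {N : Set V} [IsZ N] {δ : Ordinal.{0}} (h : Inac N δ) {a b : V}
    (hi : InjIn N a b) (hb : b ∈ N) (hr : b.rank < δ) (ha : a.IsTransitive) : a.rank < δ := by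
  refine h.rank_lt hi hb hr fun x => ?_
  induction x using ZFSet.inductionOn with
  | h x ih =>
    intro hx
    exact h.rank_lt ((InjIn.of_subset (IsZ.trans a hi.mem_left x hx) (ha x hx)).trans hi) hb hr
      fun y hy => ih y hy (ha x hx hy)
theorem Inac.isZFC_Vs {N : Set V} [IsZFC N] {δ : Ordinal.{0}} (h : Inac N δ) :
    IsZFC (Vs N δ : Set V) := by
  have hl := h.2.2.1
  haveI : In N δ := ⟨h.2.1⟩
  have m : ∀ {x : V}, x ∈ (Vs N δ : Set V) ↔ x ∈ N ∧ x.rank < δ := mem_Vs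
  refine { trans := fun x hx y hy => ?_, omega := ?_, upair := fun a ha b hb => ?_,
           sUnion := fun a ha => ?_, sep := fun φ v hv a ha => ?_,
           coll := fun φ v hv a ha H => ?_, wo := fun a ha => ?_, pow := fun a ha => ?_ }
  · exact m.2 ⟨IsZ.trans x (m.1 hx).1 y hy, (rank_lt_of_mem hy).trans (m.1 hx).2⟩
  · exact m.2 ⟨IsZ.omega, by rw [rank_omegaZ]; exact h.1⟩
  · refine m.2 ⟨IsZ.upair a (m.1 ha).1 b (m.1 hb).1, ?_⟩
    rw [ZFSet.rank_pair]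
    exact max_lt (hl.succ_lt (m.1 ha).2) (hl.succ_lt (m.1 hb).2)
  · exact m.2 ⟨IsZ.sUnion a (m.1 ha).1, (rank_sUnion_le a).trans_lt (m.1 ha).2⟩
  · haveI : UV (loc N) (fun _ _ => v) := ⟨fun i => UF.const N (v i) (h := ⟨(m.1 (hv i)).1⟩)⟩
    exact m.2 ⟨sep_mem N (fun x => Sat1 (Vs N δ : Set V) φ (cons x v)) (m.1 ha).1,
      (rank_mono fun x hx => (mem_sep.1 hx).1).trans_lt (m.1 ha).2⟩
  · haveI : UV (loc N) (fun _ _ => v) := ⟨fun i => UF.const N (v i) (h := ⟨(m.1 (hv i)).1⟩)⟩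
    have h1 : ∀ x ∈ a, olst δ (fun ζ => ∃ y ∈ Vs N δ, y.rank = ζ ∧
        Sat1 (Vs N δ : Set V) φ (cons y (cons x v))) < δ := fun x hx => by
      obtain ⟨y, hy, hs⟩ := H x hx
      exact (olst_le_of (m.1 hy).2 ⟨y, hy, rfl, hs⟩).trans_lt (m.1 hy).2
    obtain ⟨γ, hγ, K⟩ := z5c_ord (h.2.2.2 a (m.1 ha).1 (m.1 ha).2) (m.1 ha).1
      (fun x => olst δ fun ζ => ∃ y ∈ Vs N δ, y.rank = ζ ∧
        Sat1 (Vs N δ : Set V) φ (cons y (cons x v))) h1
    haveI : In N γ := ⟨IsZ.ord_mem_of_le N h.2.1 hγ.le⟩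
    refine ⟨Vs N γ, m.2 ⟨memV_of N _, (z5c_rank_Vs N γ).trans_lt hγ⟩, fun x hx => ?_⟩
    obtain ⟨y, hy, e, hs⟩ := olst_spec (h1 x hx)
    exact ⟨y, mem_Vs.2 ⟨(mem_Vs.1 hy).1, e ▸ K x hx⟩, hs⟩
  · obtain ⟨γ, hγ, f, hf, hi⟩ := z5c_inac_small h (m.1 ha).1 (m.1 ha).2
    refine ⟨f, m.2 ⟨hf, ?_⟩, γ, hi⟩
    refine lt_of_le_of_lt (rank_le_iff.2 fun p hp => ?_)
      ((rank_pair_lt (x := a) (y := γ.toZFSet) hl).2 ⟨(m.1 ha).2, by rwa [rank_toZFSet]⟩)
    obtain ⟨x, hx, y, hy, rfl⟩ := mem_prod.1 (hi.1.1 hp)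
    rw [rank_zpair, rank_zpair, ← one_add_one_eq_two, ← add_assoc, ← add_assoc,
      ← Order.succ_eq_add_one, ← Order.succ_eq_add_one, ← Order.succ_eq_add_one,
      ← Order.succ_eq_add_one, Order.succ_lt_succ_iff, Order.succ_lt_succ_iff]
    exact max_lt_max (rank_lt_of_mem hx) (rank_lt_of_mem hy)
  · haveI : In N a := ⟨(m.1 ha).1⟩
    exact ⟨pw N a, m.2 ⟨memV_of N _, (z5c_rank_pw N a).trans_lt (hl.succ_lt (m.1 ha).2)⟩,
      fun x hx hs => mem_pw.2 ⟨(m.1 hx).1, hs⟩⟩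
/-- inaccessibility only depends on `V_{δ+1}` -/
theorem Inac.of_Vs {N N' : Set V} [IsZ N] [IsZ N'] {δ : Ordinal.{0}} (h : Inac N δ)
    (hs : ∀ x ∈ N', x.rank ≤ δ → x ∈ N) (hδ : δ.toZFSet ∈ N') : Inac N' δ := by
  refine ⟨h.1, hδ, h.2.2.1, fun a ha hr f hf hb => ?_⟩
  haveI : In N' a := ⟨ha⟩
  haveI : In N' f := ⟨hf⟩
  have h1 : lam a (fun x => app f x) ∈ N := hs _ (memV_of N' _) (rank_le_iff.2 fun p hp => by
    obtain ⟨x, hx, rfl⟩ := mem_lam.1 hp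
    exact (rank_pair_lt h.2.2.1).2 ⟨(rank_lt_of_mem hx).trans hr, hb x hx⟩)
  obtain ⟨γ, hγ, H⟩ := h.2.2.2 a (hs a ha hr.le) hr _ h1 fun x hx => by
    rw [app_lam _ hx]
    exact hb x hx
  refine ⟨γ, hγ, fun x hx => ?_⟩
  have := H x hx
  rwa [app_lam _ hx] at this
-- JOB C END

-- JOB D BEGIN
/-- the hereditarily countable sets of `N` -/
def HC (N : Set V) : Set V := {x | Ctbl N (tc x)}
theorem HC_subset (N : Set V) [IsZ N] : HC N ⊆ N := by
  exact fun x hx => IsZ.trans _ (InjIn.mem_left hx) x (mem_tc x)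
theorem z5d_tc_mem {N : Set V} [IsZ N] {x : V} (h : x ∈ N) : tc x ∈ N :=
  haveI : In N x := ⟨h⟩
  memV_of N (tc x)
theorem z5d_ctbl {N : Set V} [IsZ N] {x : V} (h : x ∈ HC N) : Ctbl N x :=
  Ctbl.of_subset h (HC_subset N h) (tc_trans x x (mem_tc x))
theorem z5d_trans {N : Set V} [hN : IsZ N] {x y : V} (h : x ∈ HC N) (hy : y ∈ x) : y ∈ HC N :=
  Ctbl.of_subset h (z5d_tc_mem (hN.trans x (HC_subset N h) y hy))
    (tc_min (tc_trans x) (tc_trans x x (mem_tc x) hy))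
theorem z5d_img {N : Set V} [IsT N] {f a : V} (hf : f ∈ N) (ha : Ctbl N a) :
    Ctbl N (img (app f) a) :=
  haveI : In N f := ⟨hf⟩
  haveI : In N a := ⟨InjIn.mem_left ha⟩
  InjIn.trans (injIn_of_surj hf (InjIn.mem_left ha) (memV_of N (img (fun x => app f x) a))
    fun _ hy => mem_img.1 hy) ha
theorem mem_HC_iff {N : Set V} [IsT N] {x : V} : x ∈ HC N ↔ Ctbl N x ∧ ∀ y ∈ x, y ∈ HC N := by
  refine ⟨fun h => ⟨z5d_ctbl h, fun y hy => z5d_trans h hy⟩, fun ⟨h1, h2⟩ => ?_⟩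
  have hx : x ∈ N := InjIn.mem_left h1
  haveI : In N x := ⟨hx⟩
  have h3 := z5d_img (memV_of N (lam x fun y => tc y)) h1
  have h4 : ∀ {z}, z ∈ img (app (lam x fun y => tc y)) x ↔ ∃ y ∈ x, tc y = z := fun {z} => by
    rw [mem_img]
    exact exists_congr fun y => and_congr_right fun hy => by rw [app_lam _ hy]
  have h5 := (h3.sUnion fun z hz => by
    obtain ⟨y, hy, rfl⟩ := h4.1 hz
    exact h2 y hy).insert hx
  refine h5.of_subset (z5d_tc_mem hx) (tc_min (fun z hz y hy => ?_) (mem_insert _ _))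
  refine mem_insert_of_mem _ (mem_sUnion.2 ?_)
  rcases mem_insert_iff.1 hz with rfl | hz
  · exact ⟨tc y, h4.2 ⟨y, hy, rfl⟩, mem_tc y⟩
  · obtain ⟨u, hu, hz⟩ := mem_sUnion.1 hz
    obtain ⟨w, hw, rfl⟩ := h4.1 hu
    exact ⟨tc w, hu, tc_trans w z hz hy⟩
theorem mem_HC_of_trans {N : Set V} [IsZ N] {t : V} (ht : t.IsTransitive) (hc : Ctbl N t) :
    t ∈ HC N := by
  have h : t ∈ N := InjIn.mem_left hc
  refine (hc.insert h).of_subset (z5d_tc_mem h) (tc_min (fun z hz y hy => ?_) (mem_insert _ _))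
  refine mem_insert_of_mem _ ?_
  rcases mem_insert_iff.1 hz with rfl | hz
  · exact hy
  · exact ht z hz hy
theorem z5d_upair {N : Set V} [IsT N] {a b : V} (ha : a ∈ HC N) (hb : b ∈ HC N) :
    ({a, b} : V) ∈ HC N := by
  have h : ∀ y ∈ ({a, b} : V), y ∈ HC N := fun y hy => by
    rcases mem_pair.1 hy with rfl | rfl
    · exact ha
    · exact hb
  refine mem_HC_iff.2 ⟨ctbl_of_finite ?_ fun y hy => HC_subset N (h y hy), h⟩
  exact ((Set.finite_singleton b).insert a).subset fun y hy => mem_pair.1 hy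
theorem z5d_pair {N : Set V} [IsT N] {a b : V} (ha : a ∈ HC N) (hb : b ∈ HC N) :
    pair a b ∈ HC N := by
  have h := z5d_upair ha ha
  rw [pair_eq_singleton] at h
  exact z5d_upair h (z5d_upair ha hb)
theorem z5d_omega {N : Set V} [IsZ N] : omegaZ ∈ HC N :=
  mem_HC_of_trans (isOrdinal_toZFSet ω).isTransitive ctbl_omega
theorem z5d_inj {N : Set V} [IsT N] {x : V} (h : x ∈ HC N) : ∃ f ∈ HC N, IsInj f x omegaZ := by
  obtain ⟨f, hf, hi⟩ := z5d_ctbl h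
  refine ⟨f, mem_HC_iff.2 ⟨((z5d_ctbl h).prod ctbl_omega).of_subset hf hi.1.1, fun p hp => ?_⟩, hi⟩
  obtain ⟨a, ha, b, hb, rfl⟩ := mem_prod.1 (hi.1.1 hp)
  exact z5d_pair (z5d_trans h ha) (z5d_trans z5d_omega hb)
theorem z5d_uc (N : Set V) [IsZ N] : UC (loc N) (fun _ _ => HC N) :=
  ⟨fun _ e _ _ => e ▸ HC_subset N,
    (inferInstance : UD (loc N) (fun _ v => Ctbl N (tc (vr v 0))))⟩
instance isT_HC (N : Set V) [IsZFC N] : IsT (HC N) := by
  haveI := z5d_uc N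
  refine { trans := fun x hx y hy => z5d_trans hx hy
           omega := z5d_omega
           upair := fun a ha b hb => z5d_upair ha hb
           sUnion := fun a ha => mem_HC_iff.2
             ⟨(z5d_ctbl ha).sUnion fun x hx => z5d_ctbl (z5d_trans ha hx), fun y hy => ?_⟩
           sep := fun φ v hv a ha => ?_
           coll := fun φ v hv a ha h => ?_
           wo := fun a ha => ?_ }
  · obtain ⟨x, hx, hy⟩ := mem_sUnion.1 hy
    exact z5d_trans (z5d_trans ha hx) hy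
  · have h := (inferInstance : UD (loc N) (fun _ w => Sat1 (HC N) φ w)).sep_mem (M := N) rfl
      (fun i => HC_subset N (hv i)) (HC_subset N ha)
    exact mem_HC_iff.2 ⟨(z5d_ctbl ha).of_subset h fun x hx => (mem_sep.1 hx).1,
      fun x hx => z5d_trans ha (mem_sep.1 hx).1⟩
  · haveI : UV (loc N) (fun _ _ => v) :=
      ⟨fun i => haveI : In N (v i) := ⟨HC_subset N (hv i)⟩; inferInstance⟩
    obtain ⟨f, hf, -, -, h1⟩ := choice_fn N
      (fun x y => y ∈ HC N ∧ Sat1 (HC N) φ (cons y (cons x v))) (HC_subset N ha) fun x hx => by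
        obtain ⟨y, hy, h2⟩ := h x hx
        exact ⟨y, HC_subset N hy, hy, h2⟩
    refine ⟨img (app f) a, mem_HC_iff.2 ⟨z5d_img hf (z5d_ctbl ha), fun y hy => ?_⟩,
      fun x hx => ⟨app f x, mem_img.2 ⟨x, hx, rfl⟩, (h1 x hx).2⟩⟩
    obtain ⟨x, hx, rfl⟩ := mem_img.1 hy
    exact (h1 x hx).1
  · obtain ⟨f, hf, hi⟩ := z5d_inj ha
    exact ⟨f, hf, ω, hi⟩
theorem ord_mem_HC {N : Set V} [IsZ N] {o : Ordinal.{0}} : o.toZFSet ∈ HC N ↔ o < om1 N := by
  exact ⟨fun h => lt_om1_iff.2 (z5d_ctbl h),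
    fun h => mem_HC_of_trans (isOrdinal_toZFSet o).isTransitive (lt_om1_iff.1 h)⟩
theorem z5d_rank {t : V} (ht : t.IsTransitive) {o : Ordinal.{0}} (y : V) :
    y ∈ t → o ≤ y.rank → ∃ z ∈ t, z.rank = o := by
  induction y using ZFSet.inductionOn with
  | _ y ih =>
    intro hy h
    rcases h.eq_or_lt with e | e
    · exact ⟨y, hy, e.symm⟩
    · obtain ⟨z, hz, h'⟩ := lt_rank_iff.1 e
      exact ih z hz (ht y hy hz) h'
theorem rank_lt_om1 {N : Set V} [IsZ N] {x : V} (h : x ∈ HC N) : x.rank < om1 N := by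
  obtain ⟨f, hf, -, h1⟩ := Ctbl.exists_enum h ⟨x, mem_tc x⟩
  haveI : In N (sqN f) := ⟨hf⟩
  refine lt_om1_iff.2 (ctbl_of_enum (f := fun n => (app (sqN f) (natZ n)).rank.toZFSet)
    (memV_of N _) (IsZ.rank_mem N (HC_subset N h)) fun y hy => ?_)
  obtain ⟨o, ho, rfl⟩ := mem_toZFSet_iff.1 hy
  obtain ⟨z, hz, rfl⟩ := z5d_rank (tc_trans x) x (mem_tc x) ho.le
  obtain ⟨n, rfl⟩ := h1 z hz
  exact ⟨n, by rw [app_sqN, enc_V]⟩
theorem ctbl_HC_iff {N : Set V} [IsT N] {x : V} (h : x ∈ HC N) : Ctbl (HC N) x := by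
  exact z5d_inj h
theorem HC_mono {N N' : Set V} (h : N ⊆ N') : HC N ⊆ HC N' := fun _ hx => Ctbl.mono h hx
instance uc_HC : UC F (fun M _ => HC M) := by
  exact ⟨fun M hM _ _ => haveI := F.hZ M hM; HC_subset M,
    (inferInstance : UD F (fun M v => Ctbl M (tc (vr v 0))))⟩
instance uc_HC_loc (N : Set V) [IsZ N] : UC (loc N) (fun _ _ => HC N) := by
  exact z5d_uc N

/-- `R` is closed under the `ω`-sequences of `N` -/
def OmCl (N : Set V) (R : V) : Prop :=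
  ∀ f ∈ N, IsFn f → dom f = omegaZ → (∀ x ∈ omegaZ, app f x ∈ R) → f ∈ R
instance ud_omCl {D : Set V → (ℕ → V) → Set V} {a : Set V → (ℕ → V) → V} [UC F D] [UF F a] :
    UD F (fun M v => OmCl (D M v) (a M v)) := by
  have := UF.lift (F := F) a; unfold OmCl; infer_instance
theorem OmCl.mono {N N' : Set V} (hs : N ⊆ N') {R : V} (h : OmCl N' R) : OmCl N R := by
  exact fun f hf => h f (hs hf)
theorem OmCl.trans {N : Set V} {R R' : V} (h : OmCl N R) (h' : OmCl (R : Set V) R') (hs : R' ⊆ R) :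
    OmCl N R' := by
  exact fun f hf h1 h2 h3 => h' f (h f hf h1 h2 fun x hx => hs (h3 x hx)) h1 h2 h3
section omcl
variable {N : Set V} [IsZ N] {R : V} [IsZ (R : Set V)]
omit [IsZ N] [IsZ (R : Set V)] in
theorem z5d_enum (h : OmCl N R) {f : ℕ → V} (hf : sqN f ∈ N) (hs : ∀ n, f n ∈ R) : sqN f ∈ R :=
  h _ hf (isFn_lam _ _) (dom_lam _ _) fun x hx => by
    obtain ⟨n, rfl⟩ := mem_omegaZ.1 hx
    rw [app_sqN]
    exact hs n
theorem OmCl.mem_of_ctbl (h : OmCl N R) {s : V} (hc : Ctbl N s) (hs : s ⊆ R) : s ∈ R := by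
  rcases s.eq_empty_or_nonempty with rfl | hne
  · exact IsZ.empty_mem (R : Set V)
  · obtain ⟨f, hf, h1, h2⟩ := hc.exists_enum hne
    haveI : In (R : Set V) (sqN f) := ⟨z5d_enum h hf fun n => hs (h1 n)⟩
    have e : s = img (fun x => app (sqN f) x) omegaZ := by
      ext x
      rw [mem_img]
      constructor
      · intro hx
        obtain ⟨n, rfl⟩ := h2 x hx
        exact ⟨natZ n, natZ_mem_omegaZ n, app_sqN f n⟩
      · rintro ⟨y, hy, rfl⟩
        obtain ⟨n, rfl⟩ := mem_omegaZ.1 hy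
        rw [app_sqN]
        exact h1 n
    rw [e]
    exact memV_of (R : Set V) _
theorem OmCl.ctbl (h : OmCl N R) {s : V} (hc : Ctbl N s) (hs : s ⊆ R) : Ctbl (R : Set V) s := by
  rcases s.eq_empty_or_nonempty with rfl | hne
  · exact ctbl_omega.of_subset (IsZ.empty_mem (R : Set V)) (empty_subset _)
  · obtain ⟨f, hf, h1, h2⟩ := hc.exists_enum hne
    exact ctbl_of_enum (z5d_enum h hf fun n => hs (h1 n)) (h.mem_of_ctbl hc hs) h2
theorem OmCl.HC_subset (h : OmCl N R) : HC N ⊆ (R : Set V) := by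
  intro x
  induction x using ZFSet.inductionOn with
  | _ x ih => exact fun hx => h.mem_of_ctbl (z5d_ctbl hx) fun y hy => ih y hy (z5d_trans hx hy)
end omcl
-- JOB D END

end Pool.Agent.Lib.MP_f9eb18_lc.W
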